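import Mathlib

/-!
# Gao project, PART ALPHA: linear algebra

* `Gen P`: the property `P θ` of a point `θ : ι → K` holds outside the zero set of a nonzero
  polynomial. Closed under finite conjunctions, pull-back along coordinates, satisfied by a point if
  `K` is infinite.
* `gen_ker`: if `Φ θ : X → Y` depends linearly on `θ` then `dim ker (Φ θ) ≤ d` is generic as soon as
  it holds at one point.
* `lead M a`: leading spaces of a subspace `M` of `Λ → V`, `Λ` a finite linear order;
  `dim M = ∑ a, dim (lead M a)`.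
-/

namespace Gao

open Finset Module

noncomputable section

section generic

variable {K : Type*} [Field K] {ι : Type*}

/-- `P` holds outside the zero set of a nonzero polynomial -/
def Gen (P : (ι → K) → Prop) : Prop :=
  ∃ f : MvPolynomial ι K, f ≠ 0 ∧ ∀ θ, MvPolynomial.eval θ f ≠ 0 → P θ

lemma Gen.mono {P Q : (ι → K) → Prop} (h : Gen P) (hPQ : ∀ θ, P θ → Q θ) : Gen Q := by
  obtain ⟨f, hf, hP⟩ := h
  exact ⟨f, hf, fun θ hθ => hPQ θ (hP θ hθ)⟩

lemma Gen.and {P Q : (ι → K) → Prop} (hP : Gen P) (hQ : Gen Q) : Gen (fun θ => P θ ∧ Q θ) := by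
  obtain ⟨f, hf, h1⟩ := hP
  obtain ⟨g, hg, h2⟩ := hQ
  refine ⟨f * g, mul_ne_zero hf hg, fun θ hθ => ?_⟩
  rw [map_mul] at hθ
  exact ⟨h1 θ (left_ne_zero_of_mul hθ), h2 θ (right_ne_zero_of_mul hθ)⟩

lemma gen_of_forall {P : (ι → K) → Prop} (h : ∀ θ, P θ) : Gen P :=
  ⟨1, one_ne_zero, fun θ _ => h θ⟩

lemma gen_finset {α : Type*} (s : Finset α) {P : α → (ι → K) → Prop} (h : ∀ a ∈ s, Gen (P a)) :
    Gen (fun θ => ∀ a ∈ s, P a θ) := by
  classical
  induction s using Finset.induction_on with
  | empty => exact gen_of_forall (fun θ a ha => absurd ha (Finset.notMem_empty a))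
  | insert a s _ ih =>
    have h1 := (h a (Finset.mem_insert_self a s)).and
      (ih (fun b hb => h b (Finset.mem_insert_of_mem hb)))
    refine h1.mono fun θ hθ b hb => ?_
    rcases Finset.mem_insert.1 hb with rfl | hb
    · exact hθ.1
    · exact hθ.2 b hb

lemma gen_fintype {α : Type*} [Finite α] {P : α → (ι → K) → Prop} (h : ∀ a, Gen (P a)) :
    Gen (fun θ => ∀ a, P a θ) := by
  classical
  have := Fintype.ofFinite α
  exact (gen_finset Finset.univ (fun a _ => h a)).mono fun θ hθ a => hθ a (Finset.mem_univ a)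

lemma Gen.exists [Infinite K] {P : (ι → K) → Prop} (h : Gen P) : ∃ θ, P θ := by
  obtain ⟨f, hf, hP⟩ := h
  by_contra hcon
  push Not at hcon
  apply hf
  apply MvPolynomial.funext
  intro θ
  rw [map_zero]
  by_contra hne
  exact hcon θ (hP θ hne)

/-- pull-back of a generic property along a map `κ → ι` of the coordinates, with nonzero factors -/
lemma Gen.comp {κ : Type*} {P : (κ → K) → Prop} (h : Gen P) {e : κ → ι}
    (he : Function.Injective e) (c : κ → K) (hc : ∀ k, c k ≠ 0) :
    Gen (fun θ : ι → K => P (fun k => c k * θ (e k))) := by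
  obtain ⟨f, hf, hP⟩ := h
  -- scale the variables, then rename
  let σ : MvPolynomial κ K →ₐ[K] MvPolynomial κ K :=
    MvPolynomial.aeval (fun k => MvPolynomial.C (c k) * MvPolynomial.X k)
  let τ : MvPolynomial κ K →ₐ[K] MvPolynomial κ K :=
    MvPolynomial.aeval (fun k => MvPolynomial.C (c k)⁻¹ * MvPolynomial.X k)
  have hτσ : ∀ p, τ (σ p) = p := by
    intro p
    have : (τ.comp σ) = AlgHom.id K _ := by
      apply MvPolynomial.algHom_ext
      intro k
      simp only [σ, τ, AlgHom.comp_apply, MvPolynomial.aeval_X, map_mul, AlgHom.id_apply,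
        MvPolynomial.algHom_C, MvPolynomial.algebraMap_eq]
      rw [← mul_assoc, ← MvPolynomial.C_mul, mul_inv_cancel₀ (hc k), MvPolynomial.C_1, one_mul]
    exact congr($this p)
  have hσf : σ f ≠ 0 := by
    intro h0
    apply hf
    rw [← hτσ f, h0, map_zero]
  refine ⟨MvPolynomial.rename e (σ f), ?_, fun θ hθ => ?_⟩
  · intro h0
    exact hσf (MvPolynomial.rename_injective e he (by rw [h0, map_zero]))
  · apply hP
    rw [MvPolynomial.eval_rename] at hθ
    have : MvPolynomial.eval (θ ∘ e) (σ f) = MvPolynomial.eval (fun k => c k * θ (e k)) f := by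
      have h2 : (MvPolynomial.aeval (θ ∘ e) : MvPolynomial κ K →ₐ[K] K).comp σ =
          MvPolynomial.aeval (fun k => c k * θ (e k)) := by
        apply MvPolynomial.algHom_ext
        intro k
        simp [σ]
      have h3 := congr($h2 f)
      simp only [AlgHom.comp_apply] at h3
      exact h3
    rwa [this] at hθ

end generic

section ker

variable {K : Type*} [Field K] {ι : Type*} [Fintype ι]
  {X Y : Type*} [AddCommGroup X] [Module K X] [FiniteDimensional K X] [AddCommGroup Y] [Module K Y]

/-- upper semicontinuity of the dimension of the kernel -/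
theorem gen_ker (Φ : (ι → K) →ₗ[K] X →ₗ[K] Y) (θ₀ : ι → K) :
    ∃ g : MvPolynomial ι K, MvPolynomial.eval θ₀ g ≠ 0 ∧ ∀ θ, MvPolynomial.eval θ g ≠ 0 →
      finrank K (LinearMap.ker (Φ θ)) ≤ finrank K (LinearMap.ker (Φ θ₀)) := by
  classical
  obtain ⟨C, hC⟩ := Submodule.exists_isCompl (LinearMap.ker (Φ θ₀))
  have hinj : Function.Injective ((Φ θ₀).comp C.subtype) := by
    rw [← LinearMap.ker_eq_bot, LinearMap.ker_comp, Submodule.eq_bot_iff]
    intro x hx
    rw [Submodule.mem_comap] at hx
    have h2 : (x : X) ∈ LinearMap.ker (Φ θ₀) ⊓ C := ⟨hx, x.2⟩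
    rw [hC.inf_eq_bot, Submodule.mem_bot] at h2
    exact Subtype.ext h2
  obtain ⟨L, hL⟩ := ((Φ θ₀).comp C.subtype).exists_leftInverse_of_injective
    (LinearMap.ker_eq_bot.2 hinj)
  let b := Module.finBasis K C
  let m : ι → Matrix (Fin (finrank K C)) (Fin (finrank K C)) K := fun i =>
    LinearMap.toMatrix b b (L.comp ((Φ (Pi.single i 1)).comp C.subtype))
  let Mat : Matrix (Fin (finrank K C)) (Fin (finrank K C)) (MvPolynomial ι K) :=
    ∑ i, (MvPolynomial.X i : MvPolynomial ι K) • (m i).map MvPolynomial.C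
  have hMat : ∀ θ : ι → K, MvPolynomial.eval θ Mat.det =
      (LinearMap.toMatrix b b (L.comp ((Φ θ).comp C.subtype))).det := by
    intro θ
    rw [RingHom.map_det]
    congr 1
    have h1 : L.comp ((Φ θ).comp C.subtype) =
        ∑ i, θ i • L.comp ((Φ (Pi.single i 1)).comp C.subtype) := by
      have h2 : θ = ∑ i, θ i • (Pi.single i (1 : K) : ι → K) := by
        ext j
        simp [Finset.sum_apply, Pi.single_apply]
      conv_lhs => rw [h2]
      rw [map_sum]
      ext x
      simp [LinearMap.sum_apply]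
    rw [h1, map_sum]
    ext a c
    simp [m, Matrix.sum_apply, RingHom.mapMatrix_apply, Matrix.map_apply]
  refine ⟨Mat.det, ?_, fun θ hθ => ?_⟩
  · rw [hMat, hL]
    simp
  · rw [hMat] at hθ
    have hinj2 : Function.Injective (L.comp ((Φ θ).comp C.subtype)) := by
      have hu : IsUnit (LinearMap.toMatrix b b (L.comp ((Φ θ).comp C.subtype))).det :=
        isUnit_iff_ne_zero.2 hθ
      rw [LinearMap.det_toMatrix] at hu
      have := LinearMap.isUnit_iff_isUnit_det _ |>.2 hu
      exact ((Module.End.isUnit_iff _).1 this).1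
    have hdisj : Disjoint (LinearMap.ker (Φ θ)) C := by
      rw [Submodule.disjoint_def]
      intro x hx hxC
      have h3 : (L.comp ((Φ θ).comp C.subtype)) ⟨x, hxC⟩ = (L.comp ((Φ θ).comp C.subtype)) 0 := by
        simp only [LinearMap.comp_apply, Submodule.subtype_apply, map_zero]
        rw [LinearMap.mem_ker.1 hx, map_zero]
      have h4 := hinj2 h3
      exact congrArg Subtype.val h4
    have h5 := Submodule.finrank_add_finrank_le_of_disjoint hdisj
    have h6 := Submodule.finrank_add_eq_of_isCompl hC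
    omega

end ker

section lead

variable {K : Type*} [Field K] {Λ : Type*} [LinearOrder Λ] {V : Type*} [AddCommGroup V] [Module K V]

/-- elements of `M` which vanish above `a` -/
def filt (M : Submodule K (Λ → V)) (a : Λ) : Submodule K (Λ → V) where
  carrier := {x | x ∈ M ∧ ∀ b, a < b → x b = 0}
  add_mem' hx hy := ⟨M.add_mem hx.1 hy.1, fun b hb => by
    rw [Pi.add_apply, hx.2 b hb, hy.2 b hb, add_zero]⟩
  zero_mem' := ⟨M.zero_mem, fun _ _ => rfl⟩
  smul_mem' c x hx := ⟨M.smul_mem c hx.1, fun b hb => by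
    rw [Pi.smul_apply, hx.2 b hb, smul_zero]⟩

/-- leading space -/
def lead (M : Submodule K (Λ → V)) (a : Λ) : Submodule K V := (filt M a).map (LinearMap.proj a)

lemma mem_lead {M : Submodule K (Λ → V)} {a : Λ} {v : V} :
    v ∈ lead M a ↔ ∃ x ∈ M, x a = v ∧ ∀ b, a < b → x b = 0 := by
  unfold lead
  rw [Submodule.mem_map]
  constructor
  · rintro ⟨x, hx, rfl⟩
    exact ⟨x, hx.1, rfl, hx.2⟩
  · rintro ⟨x, hx, rfl, h⟩
    exact ⟨x, ⟨hx, h⟩, rfl⟩

lemma lead_mono {M N : Submodule K (Λ → V)} (h : M ≤ N) (a : Λ) : lead M a ≤ lead N a := by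
  intro v hv
  rw [mem_lead] at hv ⊢
  obtain ⟨x, hx, h1, h2⟩ := hv
  exact ⟨x, h hx, h1, h2⟩

lemma lead_le {M : Submodule K (Λ → V)} {a : Λ} {W : Submodule K V} (h : ∀ x ∈ M, x a ∈ W) :
    lead M a ≤ W := by
  intro v hv
  rw [mem_lead] at hv
  obtain ⟨x, hx, h1, -⟩ := hv
  rw [← h1]
  exact h x hx

variable [FiniteDimensional K V]

lemma finrank_supp [Finite Λ] (M : Submodule K (Λ → V)) (s : Finset Λ)
    (hs : ∀ a ∈ s, ∀ b, b ≤ a → b ∈ s) (N : Submodule K (Λ → V))
    (hN : ∀ x, x ∈ N ↔ x ∈ M ∧ ∀ b, b ∉ s → x b = 0) :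
    finrank K N = ∑ a ∈ s, finrank K (lead M a) := by
  classical
  have := Fintype.ofFinite Λ
  induction s using Finset.induction_on_max generalizing N with
  | empty =>
    have : N = ⊥ := by
      rw [Submodule.eq_bot_iff]
      intro x hx
      funext b
      exact ((hN x).1 hx).2 b (Finset.notMem_empty b)
    rw [this]
    simp
  | insert a s ha ih =>
    have has : a ∉ s := fun h => lt_irrefl a (ha a h)
    have hs' : ∀ c ∈ s, ∀ b, b ≤ c → b ∈ s := by
      intro c hc b hb
      rcases Finset.mem_insert.1 (hs c (Finset.mem_insert_of_mem hc) b hb) with h | h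
      · exact absurd (ha c hc) (not_lt.2 (h ▸ hb))
      · exact h
    let f : N →ₗ[K] V := (LinearMap.proj a : (Λ → V) →ₗ[K] V).comp N.subtype
    have hrange : LinearMap.range f = lead M a := by
      ext v
      rw [mem_lead, LinearMap.mem_range]
      constructor
      · rintro ⟨x, rfl⟩
        obtain ⟨h1, h2⟩ := (hN x).1 x.2
        refine ⟨x, h1, rfl, fun b hb => h2 b ?_⟩
        intro hb'
        rcases Finset.mem_insert.1 hb' with h | h
        · exact absurd hb (h ▸ lt_irrefl _)
        · exact absurd (ha b h) (not_lt.2 hb.le)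
      · rintro ⟨x, hx, rfl, h2⟩
        refine ⟨⟨x, (hN x).2 ⟨hx, fun b hb => h2 b ?_⟩⟩, rfl⟩
        by_contra hcon
        exact hb (hs a (Finset.mem_insert_self a s) b (not_lt.1 hcon))
    let N' : Submodule K (Λ → V) := (LinearMap.ker f).map N.subtype
    have hN' : ∀ x, x ∈ N' ↔ x ∈ M ∧ ∀ b, b ∉ s → x b = 0 := by
      intro x
      simp only [N', Submodule.mem_map, LinearMap.mem_ker]
      constructor
      · rintro ⟨y, hy, rfl⟩
        obtain ⟨h1, h2⟩ := (hN y).1 y.2
        refine ⟨h1, fun b hb => ?_⟩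
        by_cases hba : b = a
        · rw [hba]
          exact hy
        · exact h2 b (fun h => (Finset.mem_insert.1 h).elim hba hb)
      · rintro ⟨h1, h2⟩
        refine ⟨⟨x, (hN x).2 ⟨h1, fun b hb => h2 b (fun h => hb (Finset.mem_insert_of_mem h))⟩⟩,
          h2 a has, rfl⟩
    have h1 := ih hs' N' hN'
    have h2 := LinearMap.finrank_range_add_finrank_ker f
    have h3 : finrank K N' = finrank K (LinearMap.ker f) :=
      (Submodule.equivMapOfInjective N.subtype N.injective_subtype (LinearMap.ker f)).finrank_eq.symm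
    rw [Finset.sum_insert has, ← h1, h3, ← h2, hrange]

theorem finrank_lead [Fintype Λ] (M : Submodule K (Λ → V)) :
    finrank K M = ∑ a, finrank K (lead M a) := by
  apply finrank_supp M Finset.univ (fun _ _ b _ => Finset.mem_univ b) M
  intro x
  simp

end lead

end

end Gao
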