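import Pool.Agent.Gao.Sl2A

/-!
# Gao's conjecture, Part S: graded submodules and quotients, Lemma S
-/

namespace Gao

open Module

namespace Grading

variable {K X Λ : Type*} [Field K] [AddCommGroup X] [Module K X] [DecidableEq Λ]
  (G : Grading K X Λ)

/-- a graded subspace -/
def Stable (P : Submodule K X) : Prop := ∀ a, ∀ x ∈ P, G.π a x ∈ P

/-- the induced grading on a graded subspace -/
def restrict (P : Submodule K X) (hP : G.Stable P) : Grading K P Λ where
  π a := (G.π a).restrict (hP a)
  mul a b := by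
    ext x
    have h := congrArg (fun f : Module.End K X => f x) (G.mul a b)
    by_cases hab : a = b
    · rw [if_pos hab] at h ⊢
      simpa using h
    · rw [if_neg hab] at h ⊢
      simpa using h
  supp := G.supp
  zero a ha := by
    ext x
    simp [G.zero a ha]
  sum := by
    ext x
    have h := G.sum_apply (x : X)
    simp only [LinearMap.coe_sum, Finset.sum_apply, Submodule.coe_sum,
      LinearMap.coe_restrict_apply, Module.End.one_apply]
    exact h

@[simp] lemma restrict_π_coe (P : Submodule K X) (hP : G.Stable P) (a : Λ) (x : P) :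
    ((G.restrict P hP).π a x : X) = G.π a x := rfl

lemma mem_restrict_W (P : Submodule K X) (hP : G.Stable P) (a : Λ) (x : P) :
    x ∈ (G.restrict P hP).W a ↔ (x : X) ∈ G.W a := by
  rw [mem_W, mem_W]
  constructor
  · intro h
    have := congrArg Subtype.val h
    simpa using this
  · intro h
    exact Subtype.ext (by simpa using h)

/-- the induced grading on the quotient by a graded subspace -/
def quot (P : Submodule K X) (hP : G.Stable P) : Grading K (X ⧸ P) Λ where
  π a := P.mapQ P (G.π a) (fun x hx => hP a x hx)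
  mul a b := by
    ext x
    have h := congrArg (fun f : Module.End K X => f x) (G.mul a b)
    by_cases hab : a = b
    · rw [if_pos hab] at h ⊢
      have h' : G.π a (G.π b x) = G.π a x := h
      simp [h']
    · rw [if_neg hab] at h ⊢
      have h' : G.π a (G.π b x) = 0 := h
      simp [h']
  supp := G.supp
  zero a ha := by
    ext x
    simp [G.zero a ha]
  sum := by
    ext x
    have h := G.sum_apply (x : X)
    simp only [LinearMap.coe_sum, Finset.sum_apply, LinearMap.comp_apply,
      Submodule.mkQ_apply, Submodule.mapQ_apply, Module.End.one_apply]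
    conv_rhs => rw [← h]
    rw [← Submodule.mkQ_apply, map_sum]
    rfl

@[simp] lemma quot_π_mk (P : Submodule K X) (hP : G.Stable P) (a : Λ) (x : X) :
    (G.quot P hP).π a (P.mkQ x) = P.mkQ (G.π a x) := rfl

lemma mem_quot_W (P : Submodule K X) (hP : G.Stable P) (a : Λ) (y : X ⧸ P) :
    y ∈ (G.quot P hP).W a ↔ ∃ x ∈ G.W a, P.mkQ x = y := by
  constructor
  · intro h
    obtain ⟨x, rfl⟩ := P.mkQ_surjective y
    rw [mem_W, quot_π_mk] at h
    exact ⟨G.π a x, G.π_mem a x, h⟩
  · rintro ⟨x, hx, rfl⟩
    rw [mem_W, quot_π_mk, G.π_of_mem hx]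

end Grading

section dims

variable {K X Y Λ : Type*} [Field K] [AddCommGroup X] [Module K X] [AddCommGroup Y] [Module K Y]
  [FiniteDimensional K X] [DecidableEq Λ]

lemma finrank_map_add (g : X →ₗ[K] Y) (W : Submodule K X) :
    finrank K (W.map g) + finrank K (W ⊓ LinearMap.ker g : Submodule K X) = finrank K W := by
  have h := LinearMap.finrank_range_add_finrank_ker (g.domRestrict W)
  rw [LinearMap.range_domRestrict] at h
  have h2 : finrank K (LinearMap.ker (g.domRestrict W)) =
      finrank K (W ⊓ LinearMap.ker g : Submodule K X) := by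
    rw [← Submodule.finrank_map_subtype_eq W (LinearMap.ker (g.domRestrict W))]
    have h3 : (LinearMap.ker (g.domRestrict W)).map W.subtype = W ⊓ LinearMap.ker g := by
      ext x
      simp only [Submodule.mem_map, LinearMap.mem_ker, LinearMap.domRestrict_apply,
        Submodule.coe_subtype, Subtype.exists, Submodule.mem_inf]
      constructor
      · rintro ⟨y, hy, h1, rfl⟩
        exact ⟨hy, h1⟩
      · rintro ⟨h1, h2⟩
        exact ⟨x, h1, h2, rfl⟩
    rw [h3]
  rw [h2] at h
  exact h

omit [FiniteDimensional K X] in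
lemma Grading.finrank_restrict_W (G : Grading K X Λ) (P : Submodule K X) (hP : G.Stable P)
    (a : Λ) : finrank K ((G.restrict P hP).W a) = finrank K (G.W a ⊓ P : Submodule K X) := by
  rw [← Submodule.finrank_map_subtype_eq P ((G.restrict P hP).W a)]
  have h3 : ((G.restrict P hP).W a).map P.subtype = G.W a ⊓ P := by
    ext x
    simp only [Submodule.mem_map, Submodule.coe_subtype, Subtype.exists, Submodule.mem_inf]
    constructor
    · rintro ⟨y, hy, h1, rfl⟩
      exact ⟨(G.mem_restrict_W P hP a ⟨y, hy⟩).mp h1, hy⟩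
    · rintro ⟨h1, h2⟩
      exact ⟨x, h2, (G.mem_restrict_W P hP a ⟨x, h2⟩).mpr h1, rfl⟩
  rw [h3]

lemma Grading.finrank_quot_W (G : Grading K X Λ) (P : Submodule K X) (hP : G.Stable P)
    (a : Λ) : finrank K ((G.quot P hP).W a) + finrank K (G.W a ⊓ P : Submodule K X) =
      finrank K (G.W a) := by
  have h1 : (G.quot P hP).W a = (G.W a).map P.mkQ := by
    ext y
    rw [G.mem_quot_W P hP, Submodule.mem_map]
  rw [h1]
  have h2 := finrank_map_add P.mkQ (G.W a)
  rwa [Submodule.ker_mkQ] at h2

end dims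

section aux

variable {K Λ : Type*} [Field K] [DecidableEq Λ]
  {M N : Type*} [AddCommGroup M] [Module K M] [AddCommGroup N] [Module K N]

lemma stable_ker {GM : Grading K M Λ} {GN : Grading K N Λ} {q : N →ₗ[K] M}
    (hq : ∀ a x, q (GN.π a x) = GM.π a (q x)) : GN.Stable (LinearMap.ker q) := by
  intro a x hx
  rw [LinearMap.mem_ker] at hx ⊢
  rw [hq, hx, map_zero]

lemma stable_range {GM : Grading K M Λ} {GN : Grading K N Λ} {q : N →ₗ[K] M}
    (hq : ∀ a x, q (GN.π a x) = GM.π a (q x)) : GM.Stable (LinearMap.range q) := by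
  rintro a _ ⟨x, rfl⟩
  exact ⟨GN.π a x, hq a x⟩

lemma ker_stable_e {eM : Module.End K M} {eN : Module.End K N} {q : N →ₗ[K] M}
    (hqe : ∀ x, q (eN x) = eM (q x)) : ∀ x ∈ LinearMap.ker q, eN x ∈ LinearMap.ker q := by
  intro x hx
  rw [LinearMap.mem_ker] at hx ⊢
  rw [hqe, hx, map_zero]

lemma range_stable_e {eM : Module.End K M} {eN : Module.End K N} {q : N →ₗ[K] M}
    (hqe : ∀ x, q (eN x) = eM (q x)) :
    LinearMap.range q ≤ (LinearMap.range q).comap eM := by
  rintro _ ⟨x, rfl⟩
  exact ⟨eN x, hqe x⟩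

lemma restrict_pow_coe {X : Type*} [AddCommGroup X] [Module K X] (e : Module.End K X)
    (P : Submodule K X) (h : ∀ x ∈ P, e x ∈ P) (j : ℕ) (x : P) :
    (((e.restrict h : Module.End K P) ^ j) x : X) = (e ^ j) x := by
  induction j with
  | zero => simp
  | succ j ih => rw [pow_succ', pow_succ', Module.End.mul_apply, Module.End.mul_apply, ← ih]; rfl

lemma mapQ_pow_mk {X : Type*} [AddCommGroup X] [Module K X] (e : Module.End K X)
    (P : Submodule K X) (h : P ≤ P.comap e) (j : ℕ) (x : X) :
    ((P.mapQ P e h : Module.End K (X ⧸ P)) ^ j) (P.mkQ x) = P.mkQ ((e ^ j) x) := by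
  induction j with
  | zero => simp
  | succ j ih => rw [pow_succ', pow_succ', Module.End.mul_apply, Module.End.mul_apply, ih]; rfl

variable [AddCommGroup Λ]

/-- homogeneous generation: `M_a = I_a + f M_{a+α}` -/
lemma gen_homog {GM : Grading K M Λ} {α : Λ} {f : Module.End K M}
    (hf : Hom GM f (-α)) {I : Submodule K M} (hI : GM.Stable I)
    (hgen : ∀ S : Submodule K M, I ≤ S → (∀ x ∈ S, f x ∈ S) → S = ⊤) (a : Λ) (x : M)
    (hx : x ∈ GM.W a) : ∃ u ∈ I, ∃ z ∈ GM.W (a + α), x = u + f z := by
  let S : Submodule K M :=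
    { carrier := {x | ∀ a, ∃ u ∈ I, ∃ z ∈ GM.W (a + α), GM.π a x = u + f z}
      add_mem' := by
        intro x y hx hy a
        obtain ⟨u, hu, z, hz, h⟩ := hx a
        obtain ⟨u', hu', z', hz', h'⟩ := hy a
        exact ⟨u + u', I.add_mem hu hu', z + z', Submodule.add_mem _ hz hz', by
          rw [map_add, map_add, h, h']; abel⟩
      zero_mem' := fun a => ⟨0, I.zero_mem, 0, Submodule.zero_mem _, by simp⟩
      smul_mem' := by
        intro c x hx a
        obtain ⟨u, hu, z, hz, h⟩ := hx a
        exact ⟨c • u, I.smul_mem c hu, c • z, Submodule.smul_mem _ c hz, by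
          rw [map_smul, map_smul, h, smul_add]⟩ }
  have hS : S = ⊤ := by
    apply hgen S
    · intro x hx a
      exact ⟨GM.π a x, hI a x hx, 0, Submodule.zero_mem _, by simp⟩
    · intro x _ a
      refine ⟨0, I.zero_mem, GM.π (a + α) x, GM.π_mem _ _, ?_⟩
      have h := congrArg (fun g : Module.End K M => g x) (hf (a + α))
      simp only [Module.End.mul_apply, add_neg_cancel_right] at h
      rw [h, zero_add]
  have hx' : x ∈ S := hS ▸ Submodule.mem_top
  obtain ⟨u, hu, z, hz, h⟩ := hx' a
  exact ⟨u, hu, z, hz, by rw [← h, GM.π_of_mem hx]⟩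

end aux

section LemmaS

variable {K Λ : Type*} [Field K] [CharZero K] [AddCommGroup Λ] [DecidableEq Λ]
  {M N : Type*} [AddCommGroup M] [Module K M] [FiniteDimensional K M]
  [AddCommGroup N] [Module K N] [FiniteDimensional K N]

/-- LEMMA S: `M` an `sl_2`-module generated by the image of `q : N → M`; then the kernel and the
cokernel of `q` are centered at `-1` provided the dimension identity `ch M = Dem (ch N)` holds and
`e^j` is injective on the weight `-1-j` part of the kernel. -/
theorem lemmaS {GM : Grading K M Λ} {GN : Grading K N Λ} {eM f : Module.End K M}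
    {eN : Module.End K N} {α : Λ} {ht : Λ →+ ℤ} (hα : ht α = 2)
    (heM : Hom GM eM α) (heN : Hom GN eN α) (hf : Hom GM f (-α))
    (hfe : ∀ a, (eM * f - f * eM) * GM.π a = ((ht a : ℤ) : K) • GM.π a)
    {q : N →ₗ[K] M} (hq : ∀ a x, q (GN.π a x) = GM.π a (q x)) (hqe : ∀ x, q (eN x) = eM (q x))
    (hgen : ∀ S : Submodule K M, LinearMap.range q ≤ S → (∀ x ∈ S, f x ∈ S) → S = ⊤)
    (hP : ∀ a (j : ℕ), ht a = -1 - j → ∀ x ∈ GN.W a, q x = 0 → (eN ^ j) x = 0 → x = 0)
    (hdim : ∀ a (k : ℕ), ht a = k →
      finrank K (GM.W a) + finrank K (GN.W (a - (k + 1) • α)) =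
        finrank K (GN.W a) + finrank K (GM.W (a + α))) :
    Centered (GN.restrict (LinearMap.ker q) (stable_ker hq))
      (eN.restrict (ker_stable_e hqe)) α ht (-1) ∧
    Centered (GM.quot (LinearMap.range q) (stable_range hq))
      ((LinearMap.range q).mapQ (LinearMap.range q) eM (range_stable_e hqe)) α ht (-1) := by
  have hfe0 : ∀ a, (eM * f - f * eM) * GM.π a = ((ht a - 0 : ℤ) : K) • GM.π a := by
    intro a; rw [sub_zero]; exact hfe a
  have hLM : Lefschetz GM eM α ht 0 := Centered.lefschetz hα heM ⟨f, hf, hfe0⟩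
  set GP := GN.restrict (LinearMap.ker q) (stable_ker hq) with hGP
  set GC := GM.quot (LinearMap.range q) (stable_range hq) with hGC
  set eP : Module.End K (LinearMap.ker q) := eN.restrict (ker_stable_e hqe) with heP
  set eC : Module.End K (M ⧸ LinearMap.range q) :=
    (LinearMap.range q).mapQ (LinearMap.range q) eM (range_stable_e hqe) with heC
  have hPe : Hom GP eP α := hom_of_mem (by
    intro a x hx
    rw [hGP, Grading.mem_restrict_W] at hx ⊢
    exact heN.mem hx)
  have hCe : Hom GC eC α := hom_of_mem (by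
    intro a y hy
    rw [hGC, Grading.mem_quot_W] at hy ⊢
    obtain ⟨x, hx, rfl⟩ := hy
    exact ⟨eM x, heM.mem hx, rfl⟩)
  -- dimensions
  have hNd : ∀ a, finrank K (GN.W a) = finrank K (GP.W a) +
      finrank K (GM.W a ⊓ LinearMap.range q : Submodule K M) := by
    intro a
    have h1 := finrank_map_add q (GN.W a)
    have h2 : (GN.W a).map q = GM.W a ⊓ LinearMap.range q := by
      ext y
      simp only [Submodule.mem_map, Submodule.mem_inf, LinearMap.mem_range]
      constructor
      · rintro ⟨x, hx, rfl⟩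
        refine ⟨?_, x, rfl⟩
        rw [GM.mem_W, ← hq, GN.π_of_mem hx]
      · rintro ⟨h1, x, rfl⟩
        exact ⟨GN.π a x, GN.π_mem a x, by rw [hq, GM.π_of_mem h1]⟩
    rw [h2] at h1
    rw [hGP, Grading.finrank_restrict_W]
    omega
  have hMd : ∀ a, finrank K (GM.W a) = finrank K (GC.W a) +
      finrank K (GM.W a ⊓ LinearMap.range q : Submodule K M) := by
    intro a
    rw [hGC, GM.finrank_quot_W]
  -- (1) surjectivity on the cokernel
  have hsurj : ∀ a (k : ℕ), ht a = k → ∀ y ∈ GC.W a, ∃ w ∈ GC.W (a - (k + 1) • α),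
      (eC ^ (k + 1)) w = y := by
    intro a k ha y hy
    rw [hGC, Grading.mem_quot_W] at hy
    obtain ⟨x, hx, rfl⟩ := hy
    obtain ⟨u, hu, z, hz, hxz⟩ := gen_homog hf (stable_range hq) hgen a x hx
    set μ := a - (k + 1) • α with hμ
    have hμ2 : μ + (k + 2) • α = a + α := by
      rw [hμ]
      have : (k + 2) • α = (k + 1) • α + α := by rw [← succ_nsmul]
      rw [this]; abel
    have hhtμ : ht μ = 0 - ((k + 2 : ℕ) : ℤ) := by
      rw [hμ, map_sub, map_nsmul, hα, ha]
      simp only [nsmul_eq_mul]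
      push_cast
      ring
    obtain ⟨v, hv, hvz⟩ := (hLM μ (k + 2) hhtμ).2 z (by rw [hμ2]; exact hz)
    have hc := pow_comm hα heM hfe0 (k + 1) hv
    rw [show k + 1 + 1 = k + 2 by ring, hvz] at hc
    have hcoef : ((k + 1 : ℕ) + 1 : ℤ) * (ht μ - 0 + (k + 1 : ℕ)) = -((k : ℤ) + 2) := by
      rw [hhtμ]; push_cast; ring
    rw [hcoef] at hc
    have hfz : f z = (eM ^ (k + 1)) (eM (f v) + (((k : ℤ) + 2 : ℤ) : K) • v) := by
      have h1 : (eM ^ (k + 2)) (f v) = (eM ^ (k + 1)) (eM (f v)) := by
        rw [show k + 2 = k + 1 + 1 by ring, pow_succ eM (k + 1), Module.End.mul_apply]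
      rw [h1] at hc
      rw [map_add, hc, map_smul, Int.cast_neg, neg_smul]
      abel
    have hw : eM (f v) + (((k : ℤ) + 2 : ℤ) : K) • v ∈ GM.W μ := by
      apply Submodule.add_mem
      · have := heM.mem (hf.mem hv)
        rwa [neg_add_cancel_right] at this
      · exact Submodule.smul_mem _ _ hv
    refine ⟨(LinearMap.range q).mkQ (eM (f v) + (((k : ℤ) + 2 : ℤ) : K) • v), ?_, ?_⟩
    · rw [hGC, Grading.mem_quot_W]
      exact ⟨_, hw, rfl⟩
    · rw [heC, mapQ_pow_mk, ← hfz, hxz, map_add]
      have h0 : (LinearMap.range q).mkQ u = 0 := by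
        rw [Submodule.mkQ_apply, Submodule.Quotient.mk_eq_zero]
        exact hu
      rw [h0, zero_add]
  -- (2) injectivity on the kernel
  have hinj : ∀ a (j : ℕ), ht a = -1 - j → ∀ x ∈ GP.W a, (eP ^ j) x = 0 → x = 0 := by
    intro a j ha x hx hx0
    rw [hGP, Grading.mem_restrict_W] at hx
    apply Subtype.ext
    apply hP a j ha x hx x.2
    rw [← restrict_pow_coe eN (LinearMap.ker q) (ker_stable_e hqe)]
    rw [heP] at hx0
    rw [hx0]
    rfl
  -- equality of dimensions
  have hdims : ∀ a (k : ℕ), ht a = k → finrank K (GP.W (a - (k + 1) • α)) = finrank K (GP.W a) ∧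
      finrank K (GC.W (a - (k + 1) • α)) = finrank K (GC.W a) := by
    intro a k ha
    set μ := a - (k + 1) • α with hμ
    have hμa : μ + (k + 1) • α = a := by rw [hμ]; abel
    have hhtμ : ht μ = -1 - ((k + 1 : ℕ) : ℤ) := by
      rw [hμ, map_sub, map_nsmul, hα, ha]
      simp only [nsmul_eq_mul]
      push_cast
      ring
    -- C
    let φC : GC.W μ →ₗ[K] GC.W a :=
      LinearMap.codRestrict _ ((eC ^ (k + 1) : Module.End K _) ∘ₗ (GC.W μ).subtype)
        (fun x => by have := (hCe.pow (k + 1)).mem x.2; rwa [hμa] at this)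
    have hφC : Function.Surjective φC := by
      rintro ⟨y, hy⟩
      obtain ⟨w, hw, hwy⟩ := hsurj a k ha y hy
      exact ⟨⟨w, hw⟩, Subtype.ext hwy⟩
    have hC := LinearMap.finrank_le_finrank_of_surjective hφC
    let φP : GP.W μ →ₗ[K] GP.W a :=
      LinearMap.codRestrict _ ((eP ^ (k + 1) : Module.End K _) ∘ₗ (GP.W μ).subtype)
        (fun x => by have := (hPe.pow (k + 1)).mem x.2; rwa [hμa] at this)
    have hφP : Function.Injective φP := by
      rw [injective_iff_map_eq_zero]
      intro x hx
      exact Subtype.ext (hinj μ (k + 1) hhtμ x x.2 (congrArg Subtype.val hx))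
    have hPd := LinearMap.finrank_le_finrank_of_injective hφP
    -- M
    have hMd' : finrank K (GM.W μ) = finrank K (GM.W (a + α)) := by
      have hμ2 : μ + (k + 2) • α = a + α := by
        rw [hμ]
        have : (k + 2) • α = (k + 1) • α + α := by rw [← succ_nsmul]
        rw [this]; abel
      have hhtμ' : ht μ = 0 - ((k + 2 : ℕ) : ℤ) := by rw [hhtμ]; push_cast; ring
      obtain ⟨s, hs1, hs2⟩ := hLM.exists_inv heM hhtμ'
      rw [hμ2] at hs2
      have hb := hLM μ (k + 2) hhtμ'
      rw [hμ2] at hb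
      let φM : GM.W μ →ₗ[K] GM.W (a + α) :=
        LinearMap.codRestrict _ ((eM ^ (k + 2) : Module.End K _) ∘ₗ (GM.W μ).subtype)
          (fun x => by have := (heM.pow (k + 2)).mem x.2; rwa [hμ2] at this)
      apply LinearEquiv.finrank_eq (LinearEquiv.ofBijective φM ⟨?_, ?_⟩)
      · rw [injective_iff_map_eq_zero]
        intro x hx
        exact Subtype.ext (hb.1 x x.2 (congrArg Subtype.val hx))
      · rintro ⟨y, hy⟩
        obtain ⟨x, hx, hxy⟩ := hb.2 y hy
        exact ⟨⟨x, hx⟩, Subtype.ext hxy⟩
    have h1 := hdim a k ha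
    rw [← hμ] at h1
    have h2 := hNd a
    have h3 := hNd μ
    have h4 := hMd a
    have h5 := hMd μ
    omega
  constructor
  · apply Lefschetz.centered hα hPe
    intro a j ha
    refine ⟨hinj a j ha, ?_⟩
    rcases j with _ | k
    · intro y hy
      exact ⟨y, by simpa using hy, rfl⟩
    · have hk : ht (a + (k + 1) • α) = k := by
        rw [map_add, map_nsmul, hα, ha]
        simp only [nsmul_eq_mul]
        push_cast
        ring
      have hd := (hdims _ k hk).1
      rw [add_sub_cancel_right] at hd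
      let φP : GP.W a →ₗ[K] GP.W (a + (k + 1) • α) :=
        LinearMap.codRestrict _ ((eP ^ (k + 1) : Module.End K _) ∘ₗ (GP.W a).subtype)
          (fun x => (hPe.pow (k + 1)).mem x.2)
      have hφP : Function.Injective φP := by
        rw [injective_iff_map_eq_zero]
        intro x hx
        exact Subtype.ext (hinj a (k + 1) ha x x.2 (congrArg Subtype.val hx))
      have hs := (LinearMap.injective_iff_surjective_of_finrank_eq_finrank hd).mp hφP
      intro y hy
      obtain ⟨x, hx⟩ := hs ⟨y, hy⟩
      exact ⟨x, x.2, congrArg Subtype.val hx⟩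
  · apply Lefschetz.centered hα hCe
    intro a j ha
    rcases j with _ | k
    · exact ⟨fun x _ hx => by simpa using hx, fun y hy => ⟨y, by simpa using hy, rfl⟩⟩
    · have hk : ht (a + (k + 1) • α) = k := by
        rw [map_add, map_nsmul, hα, ha]
        simp only [nsmul_eq_mul]
        push_cast
        ring
      have hd := (hdims _ k hk).2
      have hsj := hsurj _ k hk
      rw [add_sub_cancel_right] at hd hsj
      let φC : GC.W a →ₗ[K] GC.W (a + (k + 1) • α) :=
        LinearMap.codRestrict _ ((eC ^ (k + 1) : Module.End K _) ∘ₗ (GC.W a).subtype)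
          (fun x => (hCe.pow (k + 1)).mem x.2)
      have hφC : Function.Surjective φC := by
        rintro ⟨y, hy⟩
        obtain ⟨w, hw, hwy⟩ := hsj y hy
        exact ⟨⟨w, hw⟩, Subtype.ext hwy⟩
      have hi := (LinearMap.injective_iff_surjective_of_finrank_eq_finrank hd).mpr hφC
      refine ⟨?_, hsj⟩
      intro x hx hx0
      have h0 : φC ⟨x, hx⟩ = 0 := Subtype.ext hx0
      have := hi (h0.trans (map_zero φC).symm)
      exact congrArg Subtype.val this

end LemmaS

end Gao
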