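import Mathlib
import Pool.Agent.Gao.Sl2S

/-!
# Gao project, PART G: abstract `gl_m`-representations, the operations `T c`, twists, programs

`b` = the operators `E i j`, `j < i` (move index i to the SMALLER index j).
-/

namespace Gao

open Finset Module

noncomputable section

/-- weights -/
abbrev Wt (m : ℕ) := Fin m → ℤ

/-- A representation of `gl_m` with a weight grading; `E i j` moves the index `i` to the index `j`
(so `[E i j, E k l] = δ_{li} E k j - δ_{jk} E i l`). All weights are nonnegative. -/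
structure GLRep (K V : Type*) [Field K] [AddCommGroup V] [Module K V] (m : ℕ) extends
    Grading K V (Wt m) where
  E : Fin m → Fin m → Module.End K V
  hom : ∀ i j, Hom toGrading (E i j) (Pi.single j 1 - Pi.single i 1)
  diag : ∀ i μ, E i i * π μ = ((μ i : ℤ) : K) • π μ
  comm : ∀ i j k l, E i j * E k l - E k l * E i j =
    (if l = i then E k j else 0) - (if j = k then E i l else 0)
  nonneg : ∀ μ ∈ supp, ∀ i, 0 ≤ μ i

variable {K V : Type*} [Field K] [AddCommGroup V] [Module K V] {m : ℕ}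

/-- the smaller index of the simple root `c` -/
abbrev lo (c : ℕ) (h : c + 1 < m) : Fin m := ⟨c, Nat.lt_of_succ_lt h⟩
/-- the larger index of the simple root `c` -/
abbrev hi (c : ℕ) (h : c + 1 < m) : Fin m := ⟨c + 1, h⟩

namespace GLRep

variable (ρ : GLRep K V m)

/-- simple raising operator: moves `c+1` to `c` -/
def e (c : ℕ) : Module.End K V := if h : c + 1 < m then ρ.E (hi c h) (lo c h) else 0
/-- simple lowering operator: moves `c` to `c+1` -/
def f (c : ℕ) : Module.End K V := if h : c + 1 < m then ρ.E (lo c h) (hi c h) else 0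

/-- `T c Z = U(f_c) Z` (for a `b`-stable `Z` this is `U(p_c) Z`) -/
def T (c : ℕ) (Z : Submodule K V) : Submodule K V := ⨆ k : ℕ, Z.map (ρ.f c ^ k)

/-- `b`-stable weight subspace -/
structure BSt (Z : Submodule K V) : Prop where
  st : ρ.toGrading.Stable Z
  e : ∀ i j, j < i → ∀ z ∈ Z, ρ.E i j z ∈ Z

/-- `T c₁ (T c₂ (… Z))` for the word `cs = [c₁, c₂, …]` -/
def Hw (cs : List ℕ) (Z : Submodule K V) : Submodule K V := cs.foldr ρ.T Z

/-- dimension of the weight space -/
def wd (Z : Submodule K V) (μ : Wt m) : ℕ := finrank K (Z.map (ρ.π μ))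

end GLRep

/-- the simple root `c`: `ε_c - ε_{c+1}` -/
def alp (c : ℕ) (h : c + 1 < m) : Wt m := Pi.single (lo c h) 1 - Pi.single (hi c h) 1

/-- the reflection of a weight -/
def sWt (c : ℕ) (h : c + 1 < m) (μ : Wt m) : Wt m := μ ∘ Equiv.swap (lo c h) (hi c h)

/-- the height `μ_c - μ_{c+1}` -/
def htc (c : ℕ) (h : c + 1 < m) (μ : Wt m) : ℤ := μ (lo c h) - μ (hi c h)

/-- A finitely supported function on weights: characters as functions. -/
abbrev Chr (m : ℕ) := Wt m → ℤ

/-- `g = Dem_c f`, as functions on weights: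
`(1 - e^{-α}) g = f - e^{-α} (s f)`; all functions have finite support, so `g` is unique. -/
def IsDem (c : ℕ) (h : c + 1 < m) (f g : Chr m) : Prop :=
  f.support.Finite ∧ g.support.Finite ∧
    ∀ μ, g μ - g (μ + alp c h) = f μ - f (sWt c h (μ + alp c h))

/-- the character of `Z` as a function -/
def GLRep.ch (ρ : GLRep K V m) (Z : Submodule K V) : Chr m := fun μ => (ρ.wd Z μ : ℤ)

/-- GOOD: Demazure's formula holds for all `T c₁ … T c_k Z`. -/
def GLRep.Good (ρ : GLRep K V m) (Z : Submodule K V) : Prop :=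
  ρ.BSt Z ∧ ∀ (cs : List ℕ) (c : ℕ) (h : c + 1 < m),
    IsDem c h (ρ.ch (ρ.Hw cs Z)) (ρ.ch (ρ.T c (ρ.Hw cs Z)))

/-! ### permutations of words -/

/-- the simple transposition -/
def sc (m c : ℕ) : Equiv.Perm (Fin m) := if h : c + 1 < m then Equiv.swap (lo c h) (hi c h) else 1

/-- the product of a word -/
def prodW (m : ℕ) (cs : List ℕ) : Equiv.Perm (Fin m) := (cs.map (sc m)).prod

/-- `s_c κ > κ` -/
def Asc (c : ℕ) (h : c + 1 < m) (κ : Equiv.Perm (Fin m)) : Prop := κ.symm (lo c h) < κ.symm (hi c h)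

/-- reduced words -/
inductive Red (m : ℕ) : List ℕ → Prop
  | nil : Red m []
  | cons (c : ℕ) (h : c + 1 < m) (cs : List ℕ) (hr : Red m cs) (ha : Asc c h (prodW m cs)) : Red m (c :: cs)

/-! ### twists -/

/-- the first `t` indices -/
def ini (m t : ℕ) : Finset (Fin m) := univ.filter (fun i => i.val < t)

/-- the reflected subset -/
def swS (c : ℕ) (h : c + 1 < m) (l : Finset (Fin m)) : Finset (Fin m) :=
  l.map (Equiv.swap (lo c h) (hi c h)).toEmbedding

/-- weight of a subset -/
def wtS (l : Finset (Fin m)) : Wt m := fun i => if i ∈ l then 1 else 0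

/-- A twist: `V ⊇ ⨁_l ins l V'`, the tensor product of `V'` with the exterior algebra of `K^m`
(basis `e_l`, `l` a subset of `Fin m`); `ext l` = coefficient of `e_l`. -/
structure Tw (ρ : GLRep K V m) where
  V' : Submodule K V
  st : ρ.toGrading.Stable V'
  stE : ∀ i j, ∀ z ∈ V', ρ.E i j z ∈ V'
  ins : Finset (Fin m) → Module.End K V
  ext : Finset (Fin m) → Module.End K V
  ext_mem : ∀ l y, ext l y ∈ V'
  ext_ins : ∀ l l', ∀ z ∈ V', ext l (ins l' z) = if l = l' then z else 0
  pr_ins : ∀ l μ, ∀ z ∈ V', ρ.π μ (ins l z) = ins l (ρ.π (μ - wtS l) z)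
  pr_ext : ∀ l μ y, ext l (ρ.π μ y) = ρ.π (μ - wtS l) (ext l y)
  e_ins : ∀ c (h : c + 1 < m) l, ∀ z ∈ V', ρ.e c (ins l z) =
    (if hi c h ∈ l ∧ lo c h ∉ l then ins (swS c h l) z else 0) + ins l (ρ.e c z)
  f_ins : ∀ c (h : c + 1 < m) l, ∀ z ∈ V', ρ.f c (ins l z) =
    (if lo c h ∈ l ∧ hi c h ∉ l then ins (swS c h l) z else 0) + ins l (ρ.f c z)
  ext_e : ∀ c (h : c + 1 < m) l y, ext l (ρ.e c y) =
    (if lo c h ∈ l ∧ hi c h ∉ l then ext (swS c h l) y else 0) + ρ.e c (ext l y)
  ext_f : ∀ c (h : c + 1 < m) l y, ext l (ρ.f c y) =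
    (if hi c h ∈ l ∧ lo c h ∉ l then ext (swS c h l) y else 0) + ρ.f c (ext l y)

namespace Tw
variable {ρ : GLRep K V m} (τ : Tw ρ)

/-- the vectors that are recovered from their coefficients of size `t` -/
def tot (t : ℕ) : Submodule K V where
  carrier := {y | y = ∑ l ∈ univ.filter (fun l : Finset (Fin m) => l.card = t), τ.ins l (τ.ext l y)}
  add_mem' := by
    intro a b ha hb
    simp only [Set.mem_ofPred_eq] at ha hb ⊢
    conv_lhs => rw [ha, hb]
    simp only [map_add, Finset.sum_add_distrib]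
  zero_mem' := by simp
  smul_mem' := by
    intro r a ha
    simp only [Set.mem_ofPred_eq] at ha ⊢
    conv_lhs => rw [ha]
    simp only [map_smul, Finset.smul_sum]

/-- the twist of a subspace `Z ⊆ V'` by `e_{ω_t}` -/
def twist (t : ℕ) (Z : Submodule K V) : Submodule K V := Z.map (τ.ins (ini m t))

/-- a total order on subsets (colex): binary value -/
def rk (l : Finset (Fin m)) : ℕ := ∑ i ∈ l, 2 ^ (i : ℕ)

/-- leading coefficient space of `Y` at `l` -/
def lead (Y : Submodule K V) (l : Finset (Fin m)) : Submodule K V where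
  carrier := {z | ∃ y ∈ Y, τ.ext l y = z ∧ ∀ l', rk l < rk l' → τ.ext l' y = 0}
  add_mem' := by
    rintro a b ⟨y, hy, rfl, h1⟩ ⟨y', hy', rfl, h2⟩
    exact ⟨y + y', Submodule.add_mem _ hy hy', map_add _ _ _, fun l' hl' => by
      rw [map_add, h1 l' hl', h2 l' hl', add_zero]⟩
  zero_mem' := ⟨0, Submodule.zero_mem _, map_zero _, fun l' _ => map_zero _⟩
  smul_mem' := by
    rintro r a ⟨y, hy, rfl, h1⟩
    exact ⟨r • y, Submodule.smul_mem _ r hy, map_smul _ _ _, fun l' hl' => by
      rw [map_smul, h1 l' hl', smul_zero]⟩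

end Tw

/-! ### programs -/

/-- instructions: `T c`, or the twist with slot `p` and size `t` -/
inductive Ins (P : Type*)
  | T (c : ℕ) : Ins P
  | tw (p : P) (t : ℕ) : Ins P

/-- a family of slots with compatible twists; `sz p` = size of the twist in slot `p` -/
structure Slots {K V : Type*} [Field K] [AddCommGroup V] [Module K V] {m : ℕ} (ρ : GLRep K V m)
    (P : Type*) where
  tw : P → Tw ρ
  sz : P → ℕ
  ins_mem : ∀ p q, p ≠ q → ∀ l, ∀ z ∈ (tw q).V', (tw p).ins l z ∈ (tw q).V'
  ext_mem : ∀ p q, p ≠ q → ∀ l, ∀ z ∈ (tw q).V', (tw p).ext l z ∈ (tw q).V'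
  comm : ∀ p q, p ≠ q → ∀ l, ∃ ε : K, ε * ε = 1 ∧ ∀ l', l'.card = sz q →
    (∀ z ∈ (tw p).V', (tw q).ext l' ((tw p).ins l z) = ε • (tw p).ins l ((tw q).ext l' z)) ∧
    (∀ z ∈ (tw p).V', z ∈ (tw q).V' →
      (tw q).ins l' ((tw p).ins l z) = ε • (tw p).ins l ((tw q).ins l' z))

variable {P : Type*} [DecidableEq P]

/-- run a program (the head of the list is the outermost, i.e. last executed, instruction);
twists are executed only for the slots in `B` -/
def run {ρ : GLRep K V m} (tw : P → Tw ρ) (B : Finset P) : List (Ins P) → Submodule K V → Submodule K V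
  | [], Z => Z
  | Ins.T c :: L, Z => ρ.T c (run tw B L Z)
  | Ins.tw p t :: L, Z => if p ∈ B then (tw p).twist t (run tw B L Z) else run tw B L Z

/-- the slots of a program -/
def slotsOf : List (Ins P) → List P
  | [] => []
  | Ins.T _ :: L => slotsOf L
  | Ins.tw p _ :: L => p :: slotsOf L

/-- every twist has the size prescribed by the family of slots -/
def Sized {ρ : GLRep K V m} (σ : Slots ρ P) : List (Ins P) → Prop
  | [] => True
  | Ins.T _ :: L => Sized σ L
  | Ins.tw p t :: L => t = σ.sz p ∧ t ≤ m ∧ Sized σ L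

/-- contraction of slot `p` by the functional `φ` -/
def Slots.con {ρ : GLRep K V m} (σ : Slots ρ P) (φ : Finset (Fin m) → K) (p : P) : Module.End K V :=
  ∑ l ∈ univ.filter (fun l : Finset (Fin m) => l.card = σ.sz p), φ l • (σ.tw p).ext l

/-- a starting space: `b`-stable, good, in all `V'` -/
structure Start {ρ : GLRep K V m} (σ : Slots ρ P) (Z : Submodule K V) : Prop where
  good : ρ.Good Z
  mem : ∀ p, Z ≤ (σ.tw p).V'

end

end Gao
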