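import Mathlib
import Pool.Agent.Gao.GDefs

/-!
# Gao project, PART G, basic facts on `T c`, `BSt`, `Hw`

MODULE GBasic (elementary; about 150 lines).  All proofs are direct.

* `le_T`: k = 0 term.  `T_le`: if `Y` is stable under `ρ.f c` and contains `Z` then it contains all
  `f^k Z`.  `f_mem_T`: `f` maps `f^k Z` into `f^(k+1) Z` (use `Submodule.iSup_induction` or show
  `(T c Z).map f ≤ T c Z` by `Submodule.map_iSup`).
* `BSt_of_simple`: if `Z` is graded and stable under all simple `ρ.e c` then `E i j Z ⊆ Z` for all `j < i`: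
  induction on `i - j`; if `i = j+1` it is `ρ.e j`; otherwise `comm (j+1) j i (j+1)` (i.e. `l = j+1 = i'`):
  `E (j+1) j * E i (j+1) - E i (j+1) * E (j+1) j = E i j - (if j = i then .. )= E i j`.
* `BSt_T`: the space `T c Z` is graded (`f` is homogeneous, so `π μ f^k z = f^k π μ' z`), and stable under
  `ρ.e d`: for `d ≠ c` (as simple roots) `ρ.e d` commutes with `ρ.f c` (`comm` with no coincidence:
  `E (d+1) d`, `E c (c+1)`: `l = i` iff `c+1 = d+1`, `j = k` iff `d = c`); for `d = c`: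
  `e f = f e + (E c c - E (c+1) (c+1))`, and `E i i` acts on weight spaces by scalars, so
  `e (f^(k+1) z) = f (e f^k z) + (scalars on the homogeneous components of f^k z)`, induction on `k`.
-/

namespace Gao

open Finset Module

namespace GLRep

variable {K V : Type*} [Field K] [AddCommGroup V] [Module K V] {m : ℕ} (ρ : GLRep K V m)

theorem le_T (c : ℕ) (Z : Submodule K V) : Z ≤ ρ.T c Z := by
  refine le_iSup_of_le 0 ?_
  rw [pow_zero, Module.End.one_eq_id, Submodule.map_id]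

theorem T_le {c : ℕ} {Z Y : Submodule K V} (h1 : Z ≤ Y) (h2 : ∀ y ∈ Y, ρ.f c y ∈ Y) :
    ρ.T c Z ≤ Y := by
  refine iSup_le fun k => ?_
  rintro _ ⟨z, hz, rfl⟩
  induction k with
  | zero =>
    rw [pow_zero]
    exact h1 hz
  | succ k ih =>
    rw [pow_succ', Module.End.mul_apply]
    exact h2 _ ih

theorem f_mem_T {c : ℕ} {Z : Submodule K V} {z : V} (hz : z ∈ ρ.T c Z) : ρ.f c z ∈ ρ.T c Z := by
  have h1 : ρ.T c Z ≤ (ρ.T c Z).comap (ρ.f c) := by
    refine iSup_le fun k => ?_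
    rintro _ ⟨z, hz, rfl⟩
    rw [Submodule.mem_comap, ← Module.End.mul_apply, ← pow_succ']
    exact Submodule.mem_iSup_of_mem (k + 1) ⟨z, hz, rfl⟩
  exact h1 hz

theorem T_mono {c : ℕ} {Z Y : Submodule K V} (h : Z ≤ Y) : ρ.T c Z ≤ ρ.T c Y :=
  ρ.T_le (h.trans (ρ.le_T c Y)) fun _ hy => ρ.f_mem_T hy

theorem T_eq_self {c : ℕ} {Z : Submodule K V} (h : ∀ z ∈ Z, ρ.f c z ∈ Z) : ρ.T c Z = Z :=
  le_antisymm (ρ.T_le le_rfl h) (ρ.le_T c Z)

/-- every element of `T c Z` is a finite sum of elements `f^k z` -/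
theorem T_induction {c : ℕ} {Z : Submodule K V} {p : V → Prop} (h0 : p 0)
    (hadd : ∀ x y, p x → p y → p (x + y)) (hz : ∀ k, ∀ z ∈ Z, p ((ρ.f c ^ k) z)) :
    ∀ y ∈ ρ.T c Z, p y := by
  intro y hy
  refine Submodule.iSup_induction (fun k => Z.map (ρ.f c ^ k)) (motive := p) hy ?_ h0 hadd
  rintro k _ ⟨z, hz', rfl⟩
  exact hz k z hz'

theorem Hw_mono {Z Y : Submodule K V} (h : Z ≤ Y) (cs : List ℕ) : ρ.Hw cs Z ≤ ρ.Hw cs Y := by
  induction cs with
  | nil => exact h
  | cons c cs ih => exact ρ.T_mono ih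

/-- commutator of the simple operators -/
theorem e_f (c : ℕ) (h : c + 1 < m) : ρ.e c * ρ.f c - ρ.f c * ρ.e c =
    ρ.E (lo c h) (lo c h) - ρ.E (hi c h) (hi c h) := by
  have h1 := ρ.comm (hi c h) (lo c h) (lo c h) (hi c h)
  rw [if_pos rfl, if_pos rfl] at h1
  rw [e, f, dif_pos h, dif_pos h]
  exact h1

theorem e_f_wt (c : ℕ) (h : c + 1 < m) (μ : Wt m) (v : V) :
    ρ.e c (ρ.f c (ρ.π μ v)) - ρ.f c (ρ.e c (ρ.π μ v)) = ((htc c h μ : ℤ) : K) • ρ.π μ v := by
  have h1 := congrArg (fun g : Module.End K V => g (ρ.π μ v)) (ρ.e_f c h)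
  simp only [LinearMap.sub_apply, Module.End.mul_apply] at h1
  rw [h1]
  have h2 := congrArg (fun g : Module.End K V => g v) (ρ.diag (lo c h) μ)
  have h3 := congrArg (fun g : Module.End K V => g v) (ρ.diag (hi c h) μ)
  simp only [LinearMap.smul_apply, Module.End.mul_apply] at h2 h3
  rw [h2, h3, ← sub_smul, ← Int.cast_sub]
  rfl

theorem e_f_ne {c d : ℕ} (hcd : c ≠ d) : ρ.e d * ρ.f c = ρ.f c * ρ.e d := by
  by_cases hc : c + 1 < m
  · by_cases hd : d + 1 < m
    · have h1 := ρ.comm (hi d hd) (lo d hd) (lo c hc) (hi c hc)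
      have h2 : hi c hc ≠ hi d hd := fun h => by
        have := congrArg Fin.val h
        simp only at this
        omega
      have h3 : lo d hd ≠ lo c hc := fun h => by
        have := congrArg Fin.val h
        simp only at this
        omega
      rw [if_neg h2, if_neg h3, sub_zero, sub_eq_zero] at h1
      rw [e, f, dif_pos hc, dif_pos hd]
      exact h1
    · rw [e, dif_neg hd, zero_mul, mul_zero]
  · rw [f, dif_neg hc, zero_mul, mul_zero]

theorem e_hom (c : ℕ) (h : c + 1 < m) : Hom ρ.toGrading (ρ.e c) (alp c h) := by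
  rw [e, dif_pos h]
  exact ρ.hom _ _

theorem f_hom (c : ℕ) (h : c + 1 < m) : Hom ρ.toGrading (ρ.f c) (-alp c h) := by
  rw [f, dif_pos h, alp, neg_sub]
  exact ρ.hom _ _

theorem BSt_of_simple {Z : Submodule K V} (h1 : ρ.toGrading.Stable Z)
    (h2 : ∀ c, ∀ z ∈ Z, ρ.e c z ∈ Z) : ρ.BSt Z := by
  refine ⟨h1, ?_⟩
  have key : ∀ n : ℕ, ∀ i j : Fin m, (i : ℕ) = j + 1 + n → ∀ z ∈ Z, ρ.E i j z ∈ Z := by
    intro n
    induction n with
    | zero =>
      intro i j hij z hz
      have h3 : (j : ℕ) + 1 < m := by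
        have := i.2
        omega
      have h4 := h2 j z hz
      rw [e, dif_pos h3] at h4
      have h5 : hi (j : ℕ) h3 = i := Fin.ext (by simp only; omega)
      have h6 : lo (j : ℕ) h3 = j := Fin.ext rfl
      rw [h5, h6] at h4
      exact h4
    | succ n ih =>
      intro i j hij z hz
      have h3 : (j : ℕ) + 1 < m := by
        have := i.2
        omega
      have h4 := ρ.comm (hi (j : ℕ) h3) j i (hi (j : ℕ) h3)
      have h5 : j ≠ i := fun h => by
        have := congrArg Fin.val h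
        omega
      rw [if_pos rfl, if_neg h5, sub_zero] at h4
      rw [← h4, LinearMap.sub_apply, Module.End.mul_apply, Module.End.mul_apply]
      have h6 : ∀ z ∈ Z, ρ.E (hi (j : ℕ) h3) j z ∈ Z := by
        intro z hz
        have h7 := h2 j z hz
        rw [e, dif_pos h3] at h7
        exact h7
      have h7 : ∀ z ∈ Z, ρ.E i (hi (j : ℕ) h3) z ∈ Z :=
        ih i (hi (j : ℕ) h3) (by simp only; omega)
      exact Z.sub_mem (h6 _ (h7 _ hz)) (h7 _ (h6 _ hz))
  intro i j hij z hz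
  refine key (i - j - 1) i j ?_ z hz
  have : (j : ℕ) < i := hij
  omega

theorem BSt.e_mem {ρ : GLRep K V m} {Z : Submodule K V} (h : ρ.BSt Z) (c : ℕ) {z : V} (hz : z ∈ Z) :
    ρ.e c z ∈ Z := by
  by_cases hc : c + 1 < m
  · rw [GLRep.e, dif_pos hc]
    refine h.e _ _ ?_ z hz
    rw [Fin.lt_def]
    exact Nat.lt_succ_self c
  · rw [GLRep.e, dif_neg hc]
    exact Z.zero_mem

theorem BSt_T {Z : Submodule K V} (h : ρ.BSt Z) (c : ℕ) : ρ.BSt (ρ.T c Z) := by
  by_cases hc : c + 1 < m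
  · have hst : ρ.toGrading.Stable (ρ.T c Z) := by
      intro μ
      refine ρ.T_induction ?_ ?_ ?_
      · rw [map_zero]
        exact Submodule.zero_mem _
      · intro x y hx hy
        rw [map_add]
        exact Submodule.add_mem _ hx hy
      · intro k z hz
        have h1 := ((ρ.f_hom c hc).pow k) (μ - k • (-alp c hc))
        rw [sub_add_cancel] at h1
        have h2 := congrArg (fun g : Module.End K V => g z) h1
        simp only [Module.End.mul_apply] at h2
        rw [← h2]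
        exact Submodule.mem_iSup_of_mem k ⟨_, h.st _ z hz, rfl⟩
    refine ρ.BSt_of_simple hst fun d => ?_
    have hle : ρ.T c Z ≤ ρ.T c Z ⊓ (ρ.T c Z).comap (ρ.e d) := by
      refine ρ.T_le (le_inf (ρ.le_T c Z) fun z hz => ρ.le_T c Z (h.e_mem d hz)) ?_
      rintro y ⟨hy1, hy2⟩
      refine ⟨ρ.f_mem_T hy1, ?_⟩
      rw [SetLike.mem_coe, Submodule.mem_comap] at hy2 ⊢
      by_cases hcd : c = d
      · subst hcd
        have h1 := congrArg (fun g : Module.End K V => g y) (ρ.e_f c hc)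
        simp only [LinearMap.sub_apply, Module.End.mul_apply] at h1
        rw [sub_eq_iff_eq_add'] at h1
        rw [h1]
        have h3 : ∀ i, ρ.E i i y ∈ ρ.T c Z := by
          intro i
          rw [← ρ.toGrading.sum_apply y, map_sum]
          refine Submodule.sum_mem _ fun μ _ => ?_
          have h4 := congrArg (fun g : Module.End K V => g y) (ρ.diag i μ)
          simp only [LinearMap.smul_apply, Module.End.mul_apply] at h4
          rw [h4]
          exact Submodule.smul_mem _ _ (hst μ y hy1)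
        exact Submodule.add_mem _ (ρ.f_mem_T hy2) (Submodule.sub_mem _ (h3 _) (h3 _))
      · have h1 := congrArg (fun g : Module.End K V => g y) (ρ.e_f_ne hcd)
        simp only [Module.End.mul_apply] at h1
        rw [h1]
        exact ρ.f_mem_T hy2
    intro z hz
    exact (hle hz).2
  · rw [ρ.T_eq_self]
    · exact h
    · intro z _
      rw [f, dif_neg hc]
      exact Z.zero_mem

theorem BSt_Hw {Z : Submodule K V} (h : ρ.BSt Z) (cs : List ℕ) : ρ.BSt (ρ.Hw cs Z) := by
  induction cs with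
  | nil => exact h
  | cons c cs ih => exact ρ.BSt_T ih c

theorem BSt_bot : ρ.BSt (⊥ : Submodule K V) := by
  refine ⟨fun μ x hx => ?_, fun i j _ x hx => ?_⟩
  · rw [Submodule.mem_bot] at hx ⊢
    rw [hx, map_zero]
  · rw [Submodule.mem_bot] at hx ⊢
    rw [hx, map_zero]

theorem T_bot (c : ℕ) : ρ.T c (⊥ : Submodule K V) = ⊥ := by
  refine ρ.T_eq_self fun z hz => ?_
  rw [Submodule.mem_bot] at hz ⊢
  rw [hz, map_zero]

/-- for a graded `Z`: `π μ Z = Z ∩ V_μ` -/
theorem map_π_eq {Z : Submodule K V} (h : ρ.toGrading.Stable Z) (μ : Wt m) :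
    Z.map (ρ.π μ) = Z ⊓ ρ.toGrading.W μ := by
  ext x
  constructor
  · rintro ⟨z, hz, rfl⟩
    exact ⟨h μ z hz, ρ.toGrading.π_mem μ z⟩
  · rintro ⟨hx1, hx2⟩
    exact ⟨x, hx1, ρ.toGrading.π_of_mem hx2⟩

/-- the dimensions of the weight spaces add up -/
theorem finrank_eq_sum [FiniteDimensional K V] {Z : Submodule K V} (h : ρ.toGrading.Stable Z) :
    finrank K Z = ∑ μ ∈ ρ.supp, ρ.wd Z μ := by
  let g : Z →ₗ[K] (∀ μ : ρ.supp, Z.map (ρ.π (μ : Wt m))) :=
    LinearMap.pi fun μ => LinearMap.codRestrict (Z.map (ρ.π (μ : Wt m)))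
      ((ρ.π (μ : Wt m)) ∘ₗ Z.subtype) fun z => ⟨z, z.2, rfl⟩
  have hg : ∀ z μ, ((g z μ : V)) = ρ.π (μ : Wt m) z := fun z μ => rfl
  have hbij : Function.Bijective g := by
    constructor
    · rw [injective_iff_map_eq_zero]
      intro z hz
      apply Subtype.ext
      rw [← ρ.toGrading.sum_apply (z : V)]
      refine Finset.sum_eq_zero fun μ hμ => ?_
      rw [← hg z ⟨μ, hμ⟩, hz]
      rfl
    · intro x
      have hx : ∀ μ : ρ.supp, (x μ : V) ∈ Z := fun μ => ((ρ.map_π_eq h μ).le (x μ).2).1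
      have hx' : ∀ μ : ρ.supp, (x μ : V) ∈ ρ.toGrading.W (μ : Wt m) :=
        fun μ => ((ρ.map_π_eq h μ).le (x μ).2).2
      refine ⟨⟨∑ μ, (x μ : V), Z.sum_mem fun μ _ => hx μ⟩, ?_⟩
      funext μ
      apply Subtype.ext
      rw [hg]
      simp only
      rw [map_sum, Finset.sum_eq_single μ]
      · exact ρ.toGrading.π_of_mem (hx' μ)
      · intro ν _ hν
        exact ρ.toGrading.π_of_mem_ne (hx' ν) fun h => hν (Subtype.ext h.symm)
      · intro h
        exact absurd (Finset.mem_univ μ) h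
  have h1 := (LinearEquiv.ofBijective g hbij).finrank_eq
  rw [h1, Module.finrank_pi_fintype]
  exact Finset.sum_coe_sort ρ.supp fun μ => ρ.wd Z μ

theorem wd_zero {Z : Submodule K V} {μ : Wt m} (h : μ ∉ ρ.supp) : ρ.wd Z μ = 0 := by
  rw [wd, ρ.zero μ h, Submodule.map_zero, finrank_bot]

theorem wd_mono [FiniteDimensional K V] {Z Y : Submodule K V} (h : Z ≤ Y) (μ : Wt m) :
    ρ.wd Z μ ≤ ρ.wd Y μ :=
  Submodule.finrank_mono (Submodule.map_mono h)

/-- graded subspaces `Z ≤ Y` with the same weight dimensions are equal: `π μ Z ≤ π μ Y` have the same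
dimension, so `π μ y ∈ π μ Z ≤ Z` for all `y ∈ Y`, and `y = Σ π μ y`. -/
theorem eq_of_wd [FiniteDimensional K V] {Z Y : Submodule K V} (h : Z ≤ Y)
    (hZ : ρ.toGrading.Stable Z) (hw : ∀ μ, ρ.wd Y μ ≤ ρ.wd Z μ) : Z = Y := by
  refine le_antisymm h fun y hy => ?_
  rw [← ρ.toGrading.sum_apply y]
  refine Z.sum_mem fun μ _ => ?_
  have h1 : Z.map (ρ.π μ) = Y.map (ρ.π μ) :=
    Submodule.eq_of_le_of_finrank_le (Submodule.map_mono h) (hw μ)
  have h2 : ρ.π μ y ∈ Y.map (ρ.π μ) := ⟨y, hy, rfl⟩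
  rw [← h1, ρ.map_π_eq hZ] at h2
  exact h2.1

end GLRep

end Gao
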