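import Mathlib
import Pool.Agent.Gao.GDefs

/-!
# Gao project, PART G, calculus of `IsDem` (characters as functions)

MODULE GDemF (about 250 lines, elementary).

`IsDem c h f g`: `f, g` finitely supported and `g μ - g (μ + α) = f μ - f (s (μ + α))`.
Write `α = alp c h`, `s = sWt c h`; `s` is additive, `s α = -α`, `s s = id`, `s μ = μ - (htc μ) • α`.

* `exists_dem`: existence of `g`: by additivity it is enough to treat `f = indicator of one weight λ`; with
  `k = htc λ`: if `k ≥ 0`: `g = Σ_{r=0}^{k} [λ - rα]`; if `k = -1`: `g = 0`; if `k ≤ -2`: `g = -Σ_{r=1}^{-k-1} [λ + rα]`.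
  (Alternative: `g μ := Σ_{r ≥ 0} (f (μ + rα) - f (s μ - α - rα))`, a finite sum because `f` has finite support and
  `α ≠ 0`; it has finite support since for `|μ|` large on a line both sums are over the whole line.)
* `unique`: `g - g'` is invariant under `α` and has finite support, hence zero.
* `symm`: `g (s μ) = g μ`: `D μ = g (s μ) - g μ` satisfies `D μ = D (μ + α)` (use the relation at `μ` and at
  `s (μ+α)`, note `s(μ+α) + α = s μ`), finite support.
* `of_symm`: if `f` is symmetric then `IsDem f f`: `f (s (μ+α)) = f (μ+α)`.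
* shift rules, for a subset `l`, `wtS l`; `sh l A := fun μ => A (μ - wtS l)`:
  (0) `lo ∈ l ↔ hi ∈ l`: `IsDem A B → IsDem (sh l A) (sh l B)`  (`s (wtS l) = wtS l`).
  (1) `lo ∈ l, hi ∉ l`: `IsDem A B → IsDem (sh l A) (sh l A + sh (s l) B)`, `wtS (swS l) = wtS l - α`.
      Check: `g μ - g(μ+α) = A(μ-λ) - A(μ+α-λ) + [B(μ-λ+α) - B(μ-λ+2α)] = A(μ-λ) - A(μ+α-λ) + A(μ-λ+α) - A(s(μ-λ+2α))`
      and `f (s(μ+α)) = A(s(μ+α) - λ) = A(s(μ+α-sλ)) = A(s(μ+2α-λ))`.
  (-1) `hi ∈ l, lo ∉ l`, `B` symmetric with finite support: `IsDem (sh l B) 0`: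
      `f (s (μ+α)) = B(s(μ+α) - λ) = B(s(μ+α-sλ)) = B(s(μ-λ)) = B(μ-λ)` since `s λ = λ + α`.
-/

namespace Gao

open Finset

variable {m : ℕ}

/-- shift of a character by the weight of a subset -/
def sh (l : Finset (Fin m)) (A : Chr m) : Chr m := fun μ => A (μ - wtS l)

theorem lo_ne_hi (c : ℕ) (h : c + 1 < m) : lo c h ≠ hi c h := by
  intro hh
  have := congrArg Fin.val hh
  simp at this

theorem sWt_sWt (c : ℕ) (h : c + 1 < m) (μ : Wt m) : sWt c h (sWt c h μ) = μ := by
  funext i
  simp [sWt]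

theorem sWt_eq (c : ℕ) (h : c + 1 < m) (μ : Wt m) : sWt c h μ = μ - htc c h μ • alp c h := by
  have hne := lo_ne_hi c h
  funext i
  simp only [sWt, htc, alp, Function.comp, Pi.sub_apply, Pi.smul_apply, smul_eq_mul]
  by_cases h1 : i = lo c h
  · subst h1
    simp [hne]
  · by_cases h2 : i = hi c h
    · subst h2
      simp [hne.symm]
    · rw [Equiv.swap_apply_of_ne_of_ne h1 h2]
      simp [h1, h2]

theorem sWt_add (c : ℕ) (h : c + 1 < m) (μ ν : Wt m) : sWt c h (μ + ν) = sWt c h μ + sWt c h ν := by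
  funext i
  simp [sWt]

theorem sWt_sub (c : ℕ) (h : c + 1 < m) (μ ν : Wt m) : sWt c h (μ - ν) = sWt c h μ - sWt c h ν := by
  funext i
  simp [sWt]

theorem htc_alp (c : ℕ) (h : c + 1 < m) : htc c h (alp c h) = 2 := by
  have hne := lo_ne_hi c h
  simp [htc, alp, hne, hne.symm]

theorem sWt_alp (c : ℕ) (h : c + 1 < m) : sWt c h (alp c h) = - alp c h := by
  rw [sWt_eq, htc_alp, two_smul]
  abel

theorem alp_ne_zero (c : ℕ) (h : c + 1 < m) : alp c h ≠ 0 := by
  intro h0
  have := htc_alp c h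
  rw [h0] at this
  simp [htc] at this

theorem wtS_swS (c : ℕ) (h : c + 1 < m) (l : Finset (Fin m)) : wtS (swS c h l) = sWt c h (wtS l) := by
  funext i
  have : (i ∈ swS c h l) ↔ (Equiv.swap (lo c h) (hi c h) i ∈ l) := by
    unfold swS
    constructor
    · intro hi'
      obtain ⟨j, hj, rfl⟩ := Finset.mem_map.mp hi'
      simpa using hj
    · intro hi'
      exact Finset.mem_map.mpr ⟨_, hi', by simp⟩
  simp only [wtS, sWt, Function.comp, this]

/-- a finitely supported function invariant under `α` vanishes -/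
theorem chr_eq_zero_of_inv {c : ℕ} {h : c + 1 < m} {D : Chr m} (hD : D.support.Finite)
    (H : ∀ μ, D μ = D (μ + alp c h)) : D = 0 := by
  by_contra hne
  obtain ⟨μ, hμ⟩ := Function.ne_iff.mp hne
  have hk : ∀ n : ℕ, D (μ + n • alp c h) = D μ := by
    intro n
    induction n with
    | zero => simp
    | succ n ih => rw [← ih, H (μ + n • alp c h), succ_nsmul, add_assoc]
  have hinj : Function.Injective (fun n : ℕ => μ + n • alp c h) := by
    intro a b hab
    simp only [add_right_inj] at hab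
    have := congrFun hab (lo c h)
    have hne := lo_ne_hi c h
    simp [alp, hne] at this
    exact this
  refine Set.infinite_of_injective_forall_mem hinj (fun n => ?_) hD
  show D _ ≠ 0
  rw [hk n]
  exact hμ

theorem supp_comp_finite {f : Chr m} (hf : f.support.Finite) (e : Wt m → Wt m)
    (he : Function.Injective e) : (Function.support (fun μ => f (e μ))).Finite :=
  hf.preimage he.injOn

theorem sWt_inj (c : ℕ) (h : c + 1 < m) : Function.Injective (sWt c h) :=
  Function.LeftInverse.injective (sWt_sWt c h)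

theorem supp_add_finite {f g : Chr m} (hf : f.support.Finite) (hg : g.support.Finite) :
    (f + g).support.Finite :=
  (hf.union hg).subset (Function.support_add f g)

theorem supp_sh_finite {f : Chr m} (hf : f.support.Finite) (l : Finset (Fin m)) :
    (sh l f).support.Finite :=
  supp_comp_finite hf (fun μ => μ - wtS l) (sub_left_injective)

/-- telescoping sums of indicators -/
theorem exists_tel (c : ℕ) (h : c + 1 < m) (lam : Wt m) (n : ℕ) :
    ∃ g : Chr m, g.support.Finite ∧ ∀ μ, g μ - g (μ + alp c h) =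
      (if μ = lam then 1 else 0) - (if μ = lam - (n : ℤ) • alp c h then 1 else 0) := by
  induction n with
  | zero => exact ⟨0, by simp, fun μ => by simp⟩
  | succ n ih =>
    obtain ⟨g, hg, H⟩ := ih
    refine ⟨g + fun μ => if μ = lam - (n : ℤ) • alp c h then 1 else 0, supp_add_finite hg ?_, ?_⟩
    · refine (Set.finite_singleton (lam - (n : ℤ) • alp c h)).subset ?_
      intro μ hμ
      by_contra hc
      exact hμ (if_neg hc)
    · intro μ
      have h1 : (μ + alp c h = lam - (n : ℤ) • alp c h) ↔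
          (μ = lam - ((n + 1 : ℕ) : ℤ) • alp c h) := by
        push_cast
        rw [add_smul, one_smul]
        constructor
        · intro hh
          rw [eq_sub_iff_add_eq] at hh ⊢
          rw [← hh]; abel
        · intro hh
          rw [hh]; abel
      have h2 := H μ
      simp only [Pi.add_apply]
      simp only [h1]
      linarith

theorem IsDem.zero (c : ℕ) (h : c + 1 < m) : IsDem c h (0 : Chr m) 0 :=
  ⟨by simp, by simp, fun μ => by simp⟩

theorem IsDem.add {c : ℕ} {h : c + 1 < m} {f f' g g' : Chr m} (h1 : IsDem c h f g)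
    (h2 : IsDem c h f' g') : IsDem c h (f + f') (g + g') := by
  refine ⟨supp_add_finite h1.1 h2.1, supp_add_finite h1.2.1 h2.2.1, fun μ => ?_⟩
  have a := h1.2.2 μ
  have b := h2.2.2 μ
  simp only [Pi.add_apply]
  linarith

theorem IsDem.smul {c : ℕ} {h : c + 1 < m} {f g : Chr m} (h1 : IsDem c h f g) (k : ℤ) :
    IsDem c h (k • f) (k • g) := by
  refine ⟨h1.1.subset (Function.support_const_smul_subset k f),
    h1.2.1.subset (Function.support_const_smul_subset k g), fun μ => ?_⟩
  have a := h1.2.2 μ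
  simp only [Pi.smul_apply, smul_eq_mul]
  rw [← mul_sub, ← mul_sub, a]

theorem IsDem.sum {ι : Type*} {c : ℕ} {h : c + 1 < m} (S : Finset ι) (f g : ι → Chr m)
    (H : ∀ i ∈ S, IsDem c h (f i) (g i)) : IsDem c h (∑ i ∈ S, f i) (∑ i ∈ S, g i) := by
  classical
  induction S using Finset.induction_on with
  | empty => simpa using IsDem.zero c h
  | insert a S ha ih =>
    rw [Finset.sum_insert ha, Finset.sum_insert ha]
    exact (H a (Finset.mem_insert_self a S)).add
      (ih (fun i hi => H i (Finset.mem_insert_of_mem hi)))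

theorem exists_dem_ind (c : ℕ) (h : c + 1 < m) (lam : Wt m) :
    ∃ g : Chr m, IsDem c h (fun μ => if μ = lam then 1 else 0) g := by
  have hfin : (Function.support (fun μ : Wt m => if μ = lam then (1 : ℤ) else 0)).Finite := by
    refine (Set.finite_singleton lam).subset ?_
    intro μ hμ
    by_contra hc
    exact hμ (if_neg hc)
  have hs : ∀ μ : Wt m, (sWt c h (μ + alp c h) = lam) ↔
      (μ = lam - (htc c h lam + 1) • alp c h) := by
    intro μ
    constructor
    · intro hh
      have h1 : μ + alp c h = sWt c h lam := by rw [← hh, sWt_sWt]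
      rw [sWt_eq] at h1
      rw [add_smul, one_smul, ← sub_sub, ← h1]
      abel
    · intro hh
      have h1 : μ + alp c h = sWt c h lam := by
        rw [hh, sWt_eq, add_smul, one_smul]
        abel
      rw [h1, sWt_sWt]
  rcases le_or_gt 0 (htc c h lam + 1) with hk | hk
  · obtain ⟨n, hn⟩ := Int.eq_ofNat_of_zero_le hk
    obtain ⟨g, hg, H⟩ := exists_tel c h lam n
    refine ⟨g, hfin, hg, fun μ => ?_⟩
    rw [H μ]
    simp only [hs, hn]
  · obtain ⟨n, hn⟩ := Int.eq_ofNat_of_zero_le (by omega : 0 ≤ -(htc c h lam + 1))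
    obtain ⟨g, hg, H⟩ := exists_tel c h (lam + (n : ℤ) • alp c h) n
    refine ⟨-g, hfin, by rwa [Function.support_neg], fun μ => ?_⟩
    have hn' : htc c h lam + 1 = - (n : ℤ) := by omega
    have h2 := H μ
    rw [add_sub_cancel_right] at h2
    simp only [Pi.neg_apply, hs, hn', neg_smul, sub_neg_eq_add]
    linarith

theorem IsDem.exists_dem (c : ℕ) (h : c + 1 < m) (f : Chr m) (hf : f.support.Finite) :
    ∃ g, IsDem c h f g := by
  classical
  choose G hG using exists_dem_ind (m := m) c h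
  have hf' : f = ∑ lam ∈ hf.toFinset, f lam • (fun μ : Wt m => if μ = lam then (1 : ℤ) else 0) := by
    funext μ
    rw [Finset.sum_apply]
    simp only [Pi.smul_apply, smul_eq_mul, mul_ite, mul_one, mul_zero]
    rw [Finset.sum_ite_eq]
    split_ifs with h1
    · rfl
    · simpa using h1
  refine ⟨∑ lam ∈ hf.toFinset, f lam • G lam, ?_⟩
  conv in (IsDem c h f) => rw [hf']
  exact IsDem.sum _ _ _ (fun i _ => (hG i).smul _)

theorem IsDem.unique {c : ℕ} {h : c + 1 < m} {f g g' : Chr m} (h1 : IsDem c h f g)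
    (h2 : IsDem c h f g') : g = g' := by
  have h3 := h1.add (h2.smul (-1))
  have : g + (-1 : ℤ) • g' = 0 := by
    refine chr_eq_zero_of_inv (c := c) (h := h) h3.2.1 (fun μ => ?_)
    have := h3.2.2 μ
    simp only [Pi.add_apply, Pi.smul_apply, smul_eq_mul] at this ⊢
    linarith
  funext μ
  have := congrFun this μ
  simp only [Pi.add_apply, Pi.smul_apply, smul_eq_mul, Pi.zero_apply] at this
  linarith

theorem IsDem.symm {c : ℕ} {h : c + 1 < m} {f g : Chr m} (h1 : IsDem c h f g) (μ : Wt m) :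
    g (sWt c h μ) = g μ := by
  have hfin : (Function.support (fun μ => g (sWt c h μ) - g μ)).Finite := by
    refine ((supp_comp_finite h1.2.1 (sWt c h) (sWt_inj c h)).union h1.2.1).subset ?_
    exact Function.support_sub _ _
  have h0 : (fun μ => g (sWt c h μ) - g μ) = (0 : Chr m) := by
    refine chr_eq_zero_of_inv (c := c) (h := h) hfin (fun μ => ?_)
    have a := h1.2.2 μ
    have b := h1.2.2 (sWt c h (μ + alp c h))
    have e1 : sWt c h (μ + alp c h) + alp c h = sWt c h μ := by
      rw [sWt_add, sWt_alp]; abel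
    rw [e1, sWt_sWt] at b
    show g (sWt c h μ) - g μ = g (sWt c h (μ + alp c h)) - g (μ + alp c h)
    linarith
  have := congrFun h0 μ
  simp only [Pi.zero_apply] at this
  linarith

theorem IsDem.of_symm {c : ℕ} {h : c + 1 < m} {f : Chr m} (hf : f.support.Finite)
    (hs : ∀ μ, f (sWt c h μ) = f μ) : IsDem c h f f :=
  ⟨hf, hf, fun μ => by rw [hs]⟩

theorem sWt_of_iff (c : ℕ) (h : c + 1 < m) {l : Finset (Fin m)} (hl : lo c h ∈ l ↔ hi c h ∈ l) :
    sWt c h (wtS l) = wtS l := by
  rw [sWt_eq]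
  have : htc c h (wtS l) = 0 := by
    simp [htc, wtS, hl]
  rw [this, zero_smul, sub_zero]

theorem sWt_of_lo (c : ℕ) (h : c + 1 < m) {l : Finset (Fin m)} (h1 : lo c h ∈ l)
    (h2 : hi c h ∉ l) : sWt c h (wtS l) = wtS l - alp c h := by
  rw [sWt_eq]
  have : htc c h (wtS l) = 1 := by
    simp [htc, wtS, h1, h2]
  rw [this, one_smul]

theorem sWt_of_hi (c : ℕ) (h : c + 1 < m) {l : Finset (Fin m)} (h1 : lo c h ∉ l)
    (h2 : hi c h ∈ l) : sWt c h (wtS l) = wtS l + alp c h := by
  rw [sWt_eq]
  have : htc c h (wtS l) = -1 := by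
    simp [htc, wtS, h1, h2]
  rw [this, neg_smul, one_smul, sub_neg_eq_add]

theorem IsDem.shift0 {c : ℕ} {h : c + 1 < m} {A B : Chr m} (H : IsDem c h A B)
    {l : Finset (Fin m)} (hl : lo c h ∈ l ↔ hi c h ∈ l) : IsDem c h (sh l A) (sh l B) := by
  refine ⟨supp_sh_finite H.1 l, supp_sh_finite H.2.1 l, fun μ => ?_⟩
  have a := H.2.2 (μ - wtS l)
  simp only [sh]
  have e1 : μ + alp c h - wtS l = μ - wtS l + alp c h := by abel
  have e2 : sWt c h (μ + alp c h) - wtS l = sWt c h (μ - wtS l + alp c h) := by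
    rw [← e1, sWt_sub c h (μ + alp c h) (wtS l), sWt_of_iff c h hl]
  rw [e1, e2]
  exact a

theorem IsDem.shift1 {c : ℕ} {h : c + 1 < m} {A B : Chr m} (H : IsDem c h A B)
    {l : Finset (Fin m)} (h1 : lo c h ∈ l) (h2 : hi c h ∉ l) :
    IsDem c h (sh l A) (sh l A + sh (swS c h l) B) := by
  refine ⟨supp_sh_finite H.1 l,
    supp_add_finite (supp_sh_finite H.1 l) (supp_sh_finite H.2.1 _), fun μ => ?_⟩
  have hw : wtS (swS c h l) = wtS l - alp c h := by rw [wtS_swS, sWt_of_lo c h h1 h2]
  have a := H.2.2 (μ - (wtS l - alp c h))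
  simp only [sh, Pi.add_apply, hw]
  have e1 : μ + alp c h - (wtS l - alp c h) = μ - (wtS l - alp c h) + alp c h := by abel
  have e2 : sWt c h (μ + alp c h) - wtS l = sWt c h (μ - (wtS l - alp c h) + alp c h) := by
    rw [← e1, sWt_sub c h (μ + alp c h) (wtS l - alp c h), sWt_sub c h (wtS l), sWt_of_lo c h h1 h2,
      sWt_alp]
    congr 1
    abel
  have e3 : μ + alp c h - wtS l = μ - (wtS l - alp c h) := by abel
  rw [e1, e2, e3]
  linarith

theorem IsDem.shiftm {c : ℕ} {h : c + 1 < m} {B : Chr m} (hB : B.support.Finite)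
    (hs : ∀ μ, B (sWt c h μ) = B μ)
    {l : Finset (Fin m)} (h1 : lo c h ∉ l) (h2 : hi c h ∈ l) : IsDem c h (sh l B) 0 := by
  refine ⟨supp_sh_finite hB l, by simp, fun μ => ?_⟩
  have e2 : sWt c h (μ + alp c h) - wtS l = sWt c h (μ - wtS l) := by
    rw [sWt_sub c h μ, sWt_add, sWt_alp, sWt_of_hi c h h1 h2]
    abel
  simp only [sh, Pi.zero_apply, e2, hs]
  ring

end Gao
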