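import Mathlib

/-!
# Gao's conjecture, Part S: centered modules

Gradings by projections, Lefschetz property, existence of the lowering operator (Lemma A),
and the dimension count (Lemma S).
-/

namespace Gao

open Module

section Bracket

variable {K X : Type*} [Field K] [AddCommGroup X] [Module K X] [FiniteDimensional K X]

/-- the trace form on `End X` is nondegenerate -/
lemma eq_zero_of_trace (u : Module.End K X)
    (h : ∀ g : Module.End K X, LinearMap.trace K X (g * u) = 0) : u = 0 := by
  ext x
  rw [LinearMap.zero_apply, ← Module.forall_dual_apply_eq_zero_iff K]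
  intro φ
  have h1 := h (φ.smulRight x)
  have h2 : (φ.smulRight x : Module.End K X) * u = (φ ∘ₗ u).smulRight x := by
    ext y; simp
  rw [h2, LinearMap.trace_smulRight] at h1
  simpa using h1

lemma exists_trace_eq (l : Module.Dual K (Module.End K X)) :
    ∃ u : Module.End K X, ∀ g, l g = LinearMap.trace K X (g * u) := by
  let B : Module.End K X →ₗ[K] Module.Dual K (Module.End K X) :=
    { toFun := fun u => (LinearMap.trace K X) ∘ₗ (LinearMap.mulRight K u)
      map_add' := by intro u v; ext g; simp [mul_add]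
      map_smul' := by intro c u; ext g; simp }
  have hinj : Function.Injective B := by
    rw [injective_iff_map_eq_zero]
    intro u hu
    apply eq_zero_of_trace u
    intro g
    have := congrArg (fun φ : Module.Dual K (Module.End K X) => φ g) hu
    simpa [B] using this
  have hsurj : Function.Surjective B := by
    rw [← LinearMap.injective_iff_surjective_of_finrank_eq_finrank]
    · exact hinj
    · exact Subspace.dual_finrank_eq.symm
  obtain ⟨u, hu⟩ := hsurj l
  refine ⟨u, fun g => ?_⟩
  rw [← hu]
  simp [B]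

/-- `h` is a bracket `[e, f]` as soon as it is orthogonal to the commutant of `e`. -/
theorem exists_bracket (e h : Module.End K X)
    (H : ∀ u : Module.End K X, e * u = u * e → LinearMap.trace K X (h * u) = 0) :
    ∃ f : Module.End K X, e * f - f * e = h := by
  let A : Module.End K X →ₗ[K] Module.End K X := LinearMap.mulLeft K e - LinearMap.mulRight K e
  have hA : ∀ g, A g = e * g - g * e := fun g => by simp [A]
  by_contra hcon
  push Not at hcon
  have hn : h ∉ LinearMap.range A := by
    rintro ⟨f, hf⟩
    exact hcon f (by rw [← hA, hf])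
  obtain ⟨l, hl, hl0⟩ := Submodule.exists_le_ker_of_notMem hn
  obtain ⟨u, hu⟩ := exists_trace_eq l
  have hcomm : e * u = u * e := by
    rw [← sub_eq_zero]
    apply eq_zero_of_trace
    intro g
    have h1 : l (A g) = 0 := hl0 ⟨g, rfl⟩
    rw [hA, hu, sub_mul, map_sub] at h1
    rw [mul_sub, map_sub]
    have h2 : LinearMap.trace K X (e * g * u) = LinearMap.trace K X (g * (u * e)) := by
      rw [mul_assoc, LinearMap.trace_mul_comm, mul_assoc]
    rw [h2, mul_assoc] at h1
    rw [← neg_eq_zero, neg_sub]
    exact h1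
  exact hl (by rw [hu]; exact H u hcomm)

end Bracket

/-- a grading of `X` by `Λ`, given by projections -/
structure Grading (K X Λ : Type*) [Field K] [AddCommGroup X] [Module K X] [DecidableEq Λ] where
  /-- the projection to the component of degree `a` -/
  π : Λ → Module.End K X
  mul : ∀ a b, π a * π b = if a = b then π a else 0
  /-- a finite set containing all degrees that occur -/
  supp : Finset Λ
  zero : ∀ a, a ∉ supp → π a = 0
  sum : ∑ a ∈ supp, π a = 1

namespace Grading

variable {K X Λ : Type*} [Field K] [AddCommGroup X] [Module K X] [DecidableEq Λ]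
  (G : Grading K X Λ)

lemma mul_self (a : Λ) : G.π a * G.π a = G.π a := by rw [G.mul, if_pos rfl]

lemma mul_ne {a b : Λ} (h : a ≠ b) : G.π a * G.π b = 0 := by rw [G.mul, if_neg h]

/-- the component of degree `a` -/
def W (a : Λ) : Submodule K X := LinearMap.range (G.π a)

lemma mem_W {a : Λ} {x : X} : x ∈ G.W a ↔ G.π a x = x := by
  constructor
  · rintro ⟨y, rfl⟩
    rw [← Module.End.mul_apply, G.mul_self]
  · intro h
    exact ⟨x, h⟩

lemma π_mem (a : Λ) (x : X) : G.π a x ∈ G.W a := ⟨x, rfl⟩

lemma π_of_mem {a : Λ} {x : X} (h : x ∈ G.W a) : G.π a x = x := G.mem_W.mp h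

lemma π_of_mem_ne {a b : Λ} {x : X} (h : x ∈ G.W a) (hab : b ≠ a) : G.π b x = 0 := by
  rw [← G.π_of_mem h, ← Module.End.mul_apply, G.mul_ne hab]; rfl

lemma sum_apply (x : X) : ∑ a ∈ G.supp, G.π a x = x := by
  have := congrArg (fun f : Module.End K X => f x) G.sum
  simpa using this

lemma W_eq_bot {a : Λ} (h : a ∉ G.supp) : G.W a = ⊥ := by
  rw [W, G.zero a h, LinearMap.range_zero]

/-- two endomorphisms that agree on all homogeneous elements are equal -/
lemma ext_end {f g : Module.End K X} (h : ∀ a, ∀ x ∈ G.W a, f x = g x) : f = g := by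
  ext x
  rw [← G.sum_apply x, map_sum, map_sum]
  exact Finset.sum_congr rfl fun a _ => h a _ (G.π_mem a x)

end Grading

section Centered

variable {K X Λ : Type*} [Field K] [AddCommGroup X] [Module K X] [AddCommGroup Λ]
  [DecidableEq Λ]

/-- `e` is homogeneous of degree `α` -/
def Hom (G : Grading K X Λ) (e : Module.End K X) (α : Λ) : Prop :=
  ∀ a, e * G.π a = G.π (a + α) * e

lemma Hom.mem {G : Grading K X Λ} {e : Module.End K X} {α : Λ} (h : Hom G e α) {a : Λ} {x : X}
    (hx : x ∈ G.W a) : e x ∈ G.W (a + α) := by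
  rw [G.mem_W, ← Module.End.mul_apply, ← h a, Module.End.mul_apply, G.π_of_mem hx]

lemma hom_of_mem {G : Grading K X Λ} {e : Module.End K X} {α : Λ}
    (h : ∀ a, ∀ x ∈ G.W a, e x ∈ G.W (a + α)) : Hom G e α := by
  intro a
  apply G.ext_end
  intro b x hx
  rw [Module.End.mul_apply, Module.End.mul_apply]
  by_cases hab : b = a
  · subst hab
    rw [G.π_of_mem hx, G.π_of_mem (h b x hx)]
  · rw [G.π_of_mem_ne hx (Ne.symm hab), map_zero, G.π_of_mem_ne (h b x hx)]
    intro h'
    exact hab (add_right_cancel h').symm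

lemma Hom.pow {G : Grading K X Λ} {e : Module.End K X} {α : Λ} (h : Hom G e α) (j : ℕ) :
    Hom G (e ^ j) (j • α) := by
  induction j with
  | zero => intro a; simp
  | succ j ih =>
    intro a
    rw [pow_succ, mul_assoc, h a, ← mul_assoc, ih, mul_assoc, ← pow_succ, succ_nsmul]
    congr 2
    abel

/-- `X` is centered at `χ` with respect to the raising operator `e`: there is a lowering operator
with `[e, f] = ht - χ`. -/
def Centered (G : Grading K X Λ) (e : Module.End K X) (α : Λ) (ht : Λ →+ ℤ) (χ : ℤ) : Prop :=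
  ∃ f : Module.End K X, Hom G f (-α) ∧
    ∀ a, (e * f - f * e) * G.π a = ((ht a - χ : ℤ) : K) • G.π a

/-- the Lefschetz property with respect to `χ` -/
def Lefschetz (G : Grading K X Λ) (e : Module.End K X) (α : Λ) (ht : Λ →+ ℤ) (χ : ℤ) : Prop :=
  ∀ (a : Λ) (j : ℕ), ht a = χ - j →
    (∀ x ∈ G.W a, (e ^ j) x = 0 → x = 0) ∧ ∀ y ∈ G.W (a + j • α), ∃ x ∈ G.W a, (e ^ j) x = y

/-- the inverse of `e^j` on the Lefschetz range -/
lemma Lefschetz.exists_inv {G : Grading K X Λ} {e : Module.End K X} {α : Λ} {ht : Λ →+ ℤ} {χ : ℤ}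
    (hL : Lefschetz G e α ht χ) (he : Hom G e α) {a : Λ} {j : ℕ} (ha : ht a = χ - j) :
    ∃ s : Module.End K X, s * e ^ j = G.π a ∧ e ^ j * s = G.π (a + j • α) := by
  obtain ⟨hinj, hsurj⟩ := hL a j ha
  let φ : G.W a →ₗ[K] G.W (a + j • α) :=
    LinearMap.codRestrict _ ((e ^ j : Module.End K X) ∘ₗ (G.W a).subtype)
      (fun x => (he.pow j).mem x.2)
  have hφ : Function.Bijective φ := by
    constructor
    · rw [injective_iff_map_eq_zero]
      intro x hx
      have h1 : (e ^ j) (x : X) = 0 := congrArg Subtype.val hx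
      exact Subtype.ext (hinj x x.2 h1)
    · rintro ⟨y, hy⟩
      obtain ⟨x, hx, hxy⟩ := hsurj y hy
      exact ⟨⟨x, hx⟩, Subtype.ext hxy⟩
  let ψ := LinearEquiv.ofBijective φ hφ
  let s : Module.End K X := (G.W a).subtype ∘ₗ (ψ.symm : G.W (a + j • α) →ₗ[K] G.W a) ∘ₗ
    (LinearMap.codRestrict (G.W (a + j • α)) (G.π (a + j • α)) (fun x => G.π_mem _ x))
  have hs1 : ∀ x ∈ G.W a, s ((e ^ j) x) = x := by
    intro x hx
    have h1 : (⟨G.π (a + j • α) ((e ^ j) x), G.π_mem _ _⟩ : G.W (a + j • α)) = ψ ⟨x, hx⟩ := by
      apply Subtype.ext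
      change G.π (a + j • α) ((e ^ j) x) = (e ^ j) x
      exact G.π_of_mem ((he.pow j).mem hx)
    have h2 : s ((e ^ j) x) = ((ψ.symm ⟨G.π (a + j • α) ((e ^ j) x), G.π_mem _ _⟩ : G.W a) : X) :=
      rfl
    rw [h2, h1, LinearEquiv.symm_apply_apply]
  have hs0 : ∀ x, s (G.π (a + j • α) x) = s x := by
    intro x
    have h1 : (⟨G.π (a + j • α) (G.π (a + j • α) x), G.π_mem _ _⟩ : G.W (a + j • α)) =
        ⟨G.π (a + j • α) x, G.π_mem _ _⟩ := by
      apply Subtype.ext
      exact G.π_of_mem (G.π_mem _ _)
    change ((ψ.symm ⟨G.π (a + j • α) (G.π (a + j • α) x), G.π_mem _ _⟩ : G.W a) : X) =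
      ((ψ.symm ⟨G.π (a + j • α) x, G.π_mem _ _⟩ : G.W a) : X)
    rw [h1]
  refine ⟨s, ?_, ?_⟩
  · apply G.ext_end
    intro b x hx
    rw [Module.End.mul_apply]
    by_cases hab : b = a
    · subst hab
      rw [hs1 x hx, G.π_of_mem hx]
    · rw [G.π_of_mem_ne hx (Ne.symm hab), ← hs0]
      have h1 : (e ^ j) x ∈ G.W (b + j • α) := (he.pow j).mem hx
      rw [G.π_of_mem_ne h1, map_zero]
      intro h'
      exact hab (add_right_cancel h').symm
  · ext x
    rw [Module.End.mul_apply, ← hs0]
    obtain ⟨y, hy, hxy⟩ := hsurj _ (G.π_mem (a + j • α) x)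
    rw [← hxy, hs1 y hy]

variable [FiniteDimensional K X]

/-- Lemma A: the Lefschetz property implies the existence of the lowering operator -/
theorem Lefschetz.centered {G : Grading K X Λ} {e : Module.End K X} {α : Λ} {ht : Λ →+ ℤ} {χ : ℤ}
    (hα : ht α = 2) (he : Hom G e α) (hL : Lefschetz G e α ht χ) : Centered G e α ht χ := by
  classical
  -- the operator `h`
  set h : Module.End K X := ∑ a ∈ G.supp, ((ht a - χ : ℤ) : K) • G.π a with hh
  have hπ : ∀ a, h * G.π a = ((ht a - χ : ℤ) : K) • G.π a := by
    intro a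
    rw [hh, Finset.sum_mul]
    by_cases ha : a ∈ G.supp
    · rw [Finset.sum_eq_single a]
      · rw [smul_mul_assoc, G.mul_self]
      · intro b _ hb
        rw [smul_mul_assoc, G.mul_ne hb, smul_zero]
      · intro h'; exact absurd ha h'
    · rw [G.zero a ha]; simp
  have key : ∀ u : Module.End K X, e * u = u * e → LinearMap.trace K X (h * u) = 0 := by
    intro u hu
    have hcomm : ∀ j : ℕ, e ^ j * u = u * e ^ j := fun j => (Commute.pow_left hu j).eq
    -- traces agree
    have htr : ∀ (a : Λ) (j : ℕ), ht a = χ - j →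
        LinearMap.trace K X (G.π (a + j • α) * u) = LinearMap.trace K X (G.π a * u) := by
      intro a j ha
      obtain ⟨s, hs1, hs2⟩ := hL.exists_inv he ha
      calc LinearMap.trace K X (G.π (a + j • α) * u)
          = LinearMap.trace K X (e ^ j * (s * u)) := by rw [← hs2, mul_assoc]
        _ = LinearMap.trace K X (s * u * e ^ j) := LinearMap.trace_mul_comm K _ _
        _ = LinearMap.trace K X (G.π a * u) := by rw [mul_assoc, ← hcomm j, ← mul_assoc, hs1]
    -- the reflection
    let r : Λ → Λ := fun a => a - (ht a - χ) • α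
    have hr : ∀ a, ht (r a) - χ = -(ht a - χ) := by
      intro a
      simp only [r, map_sub, map_zsmul, hα, smul_eq_mul]
      ring
    have hrr : ∀ a, r (r a) = a := by
      intro a
      have : r (r a) = r a - (ht (r a) - χ) • α := rfl
      rw [this, hr]
      simp only [r]
      rw [neg_smul]
      abel
    have htr' : ∀ a, LinearMap.trace K X (G.π (r a) * u) = LinearMap.trace K X (G.π a * u) := by
      intro a
      rcases le_total (ht a) χ with hle | hle
      · obtain ⟨j, hj⟩ := Int.eq_ofNat_of_zero_le (sub_nonneg.mpr hle)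
        have h1 : r a = a + j • α := by
          simp only [r]
          rw [show ht a - χ = -(j : ℤ) by omega, neg_smul, sub_neg_eq_add, natCast_zsmul]
        rw [h1]
        exact htr a j (by omega)
      · obtain ⟨j, hj⟩ := Int.eq_ofNat_of_zero_le (sub_nonneg.mpr hle)
        have h1 : a = r a + j • α := by
          simp only [r]
          rw [hj, natCast_zsmul]
          abel
        have h2 : ht (r a) = χ - j := by have := hr a; omega
        conv_rhs => rw [h1]
        exact (htr (r a) j h2).symm
    have hS : h = ∑ a ∈ G.supp ∪ G.supp.image r, ((ht a - χ : ℤ) : K) • G.π a := by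
      rw [hh]
      apply Finset.sum_subset Finset.subset_union_left
      intro a _ ha
      rw [G.zero a ha, smul_zero]
    rw [hS, Finset.sum_mul, map_sum]
    refine Finset.sum_involution (fun a _ => r a) ?_ ?_ ?_ ?_
    · intro a _
      rw [smul_mul_assoc, smul_mul_assoc, map_smul, map_smul, htr', hr, ← add_smul]
      rw [Int.cast_neg, add_neg_cancel, zero_smul]
    · intro a _ hne heq
      apply hne
      have h1 := hr a
      rw [heq] at h1
      have h2 : ht a - χ = 0 := by omega
      rw [h2]
      simp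
    · intro a ha
      rw [Finset.mem_union, Finset.mem_image] at ha ⊢
      rcases ha with ha | ⟨b, hb, hba⟩
      · exact Or.inr ⟨a, ha, rfl⟩
      · left
        rw [← hba, hrr]
        exact hb
    · intro a _
      exact hrr a
  obtain ⟨f', hf'⟩ := exists_bracket e h key
  set f : Module.End K X := ∑ a ∈ G.supp, G.π (a - α) * f' * G.π a with hf
  have hf1 : ∀ b, f * G.π b = G.π (b - α) * f' * G.π b := by
    intro b
    rw [hf, Finset.sum_mul]
    by_cases hb : b ∈ G.supp
    · rw [Finset.sum_eq_single b]
      · rw [mul_assoc, mul_assoc, mul_assoc, G.mul_self]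
      · intro a _ ha
        rw [mul_assoc, G.mul_ne ha, mul_zero]
      · intro h'; exact absurd hb h'
    · rw [G.zero b hb]; simp
  refine ⟨f, ?_, ?_⟩
  · apply hom_of_mem
    intro a x hx
    have h1 : f x = (f * G.π a) x := by rw [Module.End.mul_apply, G.π_of_mem hx]
    rw [h1, hf1, ← sub_eq_add_neg, mul_assoc, Module.End.mul_apply]
    exact G.π_mem _ _
  · intro b
    have h1 : e * f * G.π b = G.π b * (e * f' * G.π b) := by
      rw [mul_assoc, hf1, ← mul_assoc, ← mul_assoc, he, sub_add_cancel]
      simp only [mul_assoc]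
    have h2 : f * e * G.π b = G.π b * (f' * e * G.π b) := by
      rw [mul_assoc, he, ← mul_assoc, hf1, add_sub_cancel_right, mul_assoc, ← he]
      simp only [mul_assoc]
    rw [sub_mul, h1, h2, ← mul_sub, ← sub_mul, hf', hπ, mul_smul_comm, G.mul_self]

section converse

omit [FiniteDimensional K X] in
/-- commutation of `f` with the powers of `e` -/
lemma pow_comm {G : Grading K X Λ} {e f : Module.End K X} {α : Λ} {ht : Λ →+ ℤ} {χ : ℤ}
    (hα : ht α = 2) (he : Hom G e α)
    (hfe : ∀ a, (e * f - f * e) * G.π a = ((ht a - χ : ℤ) : K) • G.π a) (n : ℕ) :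
    ∀ {a : Λ} {x : X}, x ∈ G.W a → (e ^ (n + 1)) (f x) =
      f ((e ^ (n + 1)) x) + (((n + 1) * (ht a - χ + n) : ℤ) : K) • (e ^ n) x := by
  have h0 : ∀ {a : Λ} {x : X}, x ∈ G.W a → e (f x) = f (e x) + ((ht a - χ : ℤ) : K) • x := by
    intro a x hx
    have h1 := congrArg (fun g : Module.End K X => g x) (hfe a)
    simp only [Module.End.mul_apply, LinearMap.smul_apply, G.π_of_mem hx, LinearMap.sub_apply] at h1
    rw [← h1]; abel
  induction n with
  | zero =>
    intro a x hx
    simpa using h0 hx
  | succ n ih =>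
    intro a x hx
    have h1 : (e ^ (n + 1 + 1)) (f x) = (e ^ (n + 1)) (e (f x)) := by
      rw [pow_succ e (n + 1), Module.End.mul_apply]
    have h2 : (e ^ (n + 1)) (f (e x)) = f ((e ^ (n + 1)) (e x)) +
        (((n + 1) * (ht (a + α) - χ + n) : ℤ) : K) • (e ^ n) (e x) := ih (he.mem hx)
    have h3 : (e ^ (n + 1)) (e x) = (e ^ (n + 1 + 1)) x := by
      rw [pow_succ e (n + 1), Module.End.mul_apply]
    have h4 : (e ^ n) (e x) = (e ^ (n + 1)) x := by
      rw [pow_succ e n, Module.End.mul_apply]
    rw [h1, h0 hx, map_add, map_smul, h2, h3, h4, add_assoc, ← add_smul, ← Int.cast_add]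
    congr 3
    rw [map_add, hα]
    push_cast
    ring

omit [FiniteDimensional K X] in
/-- the injective half of the Lefschetz property -/
lemma lefschetz_inj [CharZero K] {G : Grading K X Λ} {e f : Module.End K X} {α : Λ}
    {ht : Λ →+ ℤ} {χ : ℤ}
    (hα : ht α = 2) (he : Hom G e α) (hf : Hom G f (-α))
    (hfe : ∀ a, (e * f - f * e) * G.π a = ((ht a - χ : ℤ) : K) • G.π a)
    (a : Λ) (j : ℕ) (ha : ht a = χ - j) (x : X) (hx : x ∈ G.W a) (hx0 : (e ^ j) x = 0) :
    x = 0 := by
  obtain ⟨B, hB⟩ : ∃ B : ℕ, ∀ b ∈ G.supp, χ - ht b < B := by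
    refine ⟨(∑ b ∈ G.supp, (χ - ht b).toNat) + 1, fun b hb => ?_⟩
    have h1 : (χ - ht b).toNat ≤ ∑ b ∈ G.supp, (χ - ht b).toNat :=
      Finset.single_le_sum (f := fun b => (χ - ht b).toNat) (fun _ _ => Nat.zero_le _) hb
    have h2 := Int.self_le_toNat (χ - ht b)
    omega
  have key : ∀ m j : ℕ, B ≤ j + m → ∀ a, ht a = χ - j → ∀ x ∈ G.W a, (e ^ j) x = 0 → x = 0 := by
    intro m
    induction m with
    | zero =>
      intro j hj a ha x hx _
      have h1 : a ∉ G.supp := fun h => by have := hB a h; omega
      rw [G.W_eq_bot h1] at hx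
      exact hx
    | succ m ih =>
      intro j hj a ha x hx hx0
      by_cases hj0 : j = 0
      · subst hj0; simpa using hx0
      have hfx : f x = 0 := by
        apply ih (j + 2) (by omega) (a + -α) (by rw [map_add, map_neg, hα]; push_cast; omega) _
          (hf.mem hx)
        rw [pow_comm hα he hfe (j + 1) hx]
        have h1 : (e ^ (j + 1 + 1)) x = 0 := by
          rw [show j + 1 + 1 = 2 + j by ring, pow_add, Module.End.mul_apply, hx0, map_zero]
        have h2 : (e ^ (j + 1)) x = 0 := by
          rw [show j + 1 = 1 + j by ring, pow_add, Module.End.mul_apply, hx0, map_zero]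
        rw [h1, h2, map_zero, smul_zero, add_zero]
      have hdown : ∀ i, i ≤ j → (e ^ (j - i)) x = 0 := by
        intro i
        induction i with
        | zero => intro _; simpa using hx0
        | succ i ihi =>
          intro hi
          have h1 := ihi (by omega)
          have h2 := pow_comm hα he hfe (j - (i + 1)) hx
          rw [show j - (i + 1) + 1 = j - i by omega, h1, hfx, map_zero, map_zero, zero_add] at h2
          have h3 := h2.symm
          rw [smul_eq_zero] at h3
          rcases h3 with h3 | h3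
          · exfalso
            rw [Int.cast_eq_zero] at h3
            have h4 : (((j - (i + 1) : ℕ) : ℤ)) = j - (i + 1) := by
              push_cast [Nat.cast_sub hi]; ring
            rw [h4, ha] at h3
            have h5 : ((j : ℤ) - (i + 1) + 1) * (χ - j - χ + (j - (i + 1))) =
              - ((j - i) * (i + 1)) := by ring
            rw [h5, neg_eq_zero] at h3
            have h6 : (0 : ℤ) < ((j : ℤ) - i) * (i + 1) := by
              apply mul_pos
              · omega
              · omega
            omega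
          · exact h3
      simpa using hdown j le_rfl
  exact key B j (by omega) a ha x hx hx0

/-- Lemma B: a centered module has the Lefschetz property -/
theorem Centered.lefschetz [CharZero K] {G : Grading K X Λ} {e : Module.End K X} {α : Λ}
    {ht : Λ →+ ℤ} {χ : ℤ} (hα : ht α = 2) (he : Hom G e α) (hc : Centered G e α ht χ) :
    Lefschetz G e α ht χ := by
  obtain ⟨f, hf, hfe⟩ := hc
  intro a j ha
  have hinj := lefschetz_inj hα he hf hfe a j ha
  refine ⟨hinj, ?_⟩
  -- the mirrored data
  have hinj' : ∀ y ∈ G.W (a + j • α), (f ^ j) y = 0 → y = 0 := by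
    refine lefschetz_inj (G := G) (e := f) (f := e) (α := -α) (ht := -ht) (χ := -χ) (by simp [hα])
      hf (by simpa using he) ?_ (a + j • α) j ?_
    · intro b
      have h1 := hfe b
      have h2 : (f * e - e * f) * G.π b = - ((e * f - f * e) * G.π b) := by
        rw [← neg_mul, neg_sub]
      rw [h2, h1, ← neg_smul]
      congr 1
      rw [AddMonoidHom.neg_apply]
      push_cast
      ring
    · rw [AddMonoidHom.neg_apply, map_add, map_nsmul, hα, ha]
      simp only [nsmul_eq_mul]
      ring
  let φ : G.W a →ₗ[K] G.W (a + j • α) :=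
    LinearMap.codRestrict _ ((e ^ j : Module.End K X) ∘ₗ (G.W a).subtype)
      (fun x => (he.pow j).mem x.2)
  let ψ : G.W (a + j • α) →ₗ[K] G.W a :=
    LinearMap.codRestrict _ ((f ^ j : Module.End K X) ∘ₗ (G.W (a + j • α)).subtype)
      (fun x => by
        have := (hf.pow j).mem x.2
        rwa [smul_neg, add_neg_cancel_right] at this)
  have hφ : Function.Injective φ := by
    rw [injective_iff_map_eq_zero]
    intro x hx
    exact Subtype.ext (hinj x x.2 (congrArg Subtype.val hx))
  have hψ : Function.Injective ψ := by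
    rw [injective_iff_map_eq_zero]
    intro x hx
    exact Subtype.ext (hinj' x x.2 (congrArg Subtype.val hx))
  have hdim : finrank K (G.W a) = finrank K (G.W (a + j • α)) :=
    le_antisymm (LinearMap.finrank_le_finrank_of_injective hφ)
      (LinearMap.finrank_le_finrank_of_injective hψ)
  have hs := (LinearMap.injective_iff_surjective_of_finrank_eq_finrank hdim).mp hφ
  intro y hy
  obtain ⟨x, hx⟩ := hs ⟨y, hy⟩
  exact ⟨x, x.2, congrArg Subtype.val hx⟩

end converse

end Centered

end Gao
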