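import Pool.Agent.Gao.Sl2B

/-!
# Closure properties of centered modules: submodules, quotients, Hom, tensor products, twists
-/

namespace Gao.Fam

open TensorProduct

variable {K X Y Lam : Type*} [Field K] [AddCommGroup X] [Module K X] [AddCommGroup Y] [Module K Y]
  [AddCommGroup Lam] {W : Lam → Submodule K X} {W' : Lam → Submodule K Y} {alpha : Lam}
  {ht : Lam →+ ℤ} {e f : Module.End K X} {e' f' : Module.End K Y} {chi chi' : ℤ}

/-! ### Submodules and quotients -/

/-- induced grading of a submodule -/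
def subW (W : Lam → Submodule K X) (U : Submodule K X) (lam : Lam) : Submodule K U :=
  (W lam).comap U.subtype

lemma Raises.sub (he : Raises W alpha e) (U : Submodule K X) (heU : ∀ x ∈ U, e x ∈ U) :
    Raises (subW W U) alpha (e.restrict heU) := fun lam x hx => he lam x hx

lemma IsLowering.sub (h : IsLowering W alpha ht e chi f) (U : Submodule K X)
    (heU : ∀ x ∈ U, e x ∈ U) (hfU : ∀ x ∈ U, f x ∈ U) :
    IsLowering (subW W U) alpha ht (e.restrict heU) chi (f.restrict hfU) where
  lower lam x hx := h.lower lam x hx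
  comm lam x hx := Subtype.ext (h.comm lam x hx)

lemma iSupIndep.subW (hind : iSupIndep W) (U : Submodule K X) : iSupIndep (subW W U) := by
  intro i
  rw [Submodule.disjoint_def]
  intro x hx hx'
  have h1 : (x : X) ∈ ⨆ j, ⨆ (_ : j ≠ i), W j := by
    have h2 : (⨆ j, ⨆ (_ : j ≠ i), Gao.Fam.subW W U j) ≤
        (⨆ j, ⨆ (_ : j ≠ i), W j).comap U.subtype := by
      refine iSup_le fun j => iSup_le fun hj => ?_
      exact Submodule.comap_mono (le_iSup_of_le j (le_iSup_of_le hj le_rfl))
    exact h2 hx'
  exact Subtype.ext ((Submodule.disjoint_def.mp (hind i)) (x : X) hx h1)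

/-- induced grading of a quotient -/
def quotW (W : Lam → Submodule K X) (U : Submodule K X) (lam : Lam) : Submodule K (X ⧸ U) :=
  (W lam).map U.mkQ

lemma Raises.quot (he : Raises W alpha e) (U : Submodule K X) (heU : U ≤ U.comap e) :
    Raises (quotW W U) alpha (U.mapQ U e heU) := by
  rintro lam _ ⟨x, hx, rfl⟩
  exact ⟨e x, he lam x hx, rfl⟩

lemma IsLowering.quot (h : IsLowering W alpha ht e chi f) (U : Submodule K X)
    (heU : U ≤ U.comap e) (hfU : U ≤ U.comap f) :
    IsLowering (quotW W U) alpha ht (U.mapQ U e heU) chi (U.mapQ U f hfU) where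
  lower := by
    rintro lam _ ⟨x, hx, rfl⟩
    exact ⟨f x, h.lower lam x hx, rfl⟩
  comm := by
    rintro lam _ ⟨x, hx, rfl⟩
    simp only [Submodule.mkQ_apply, Submodule.mapQ_apply]
    rw [← Submodule.Quotient.mk_sub, h.comm lam x hx, Submodule.Quotient.mk_smul]

/-! ### Hom -/

/-- the grading of `Hom(X, Y)` -/
def homW (W : Lam → Submodule K X) (W' : Lam → Submodule K Y) (lam : Lam) :
    Submodule K (X →ₗ[K] Y) where
  carrier := {φ | ∀ mu, ∀ x ∈ W mu, φ x ∈ W' (mu + lam)}
  add_mem' {φ ψ} hφ hψ mu x hx := by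
    rw [LinearMap.add_apply]
    exact Submodule.add_mem _ (hφ mu x hx) (hψ mu x hx)
  zero_mem' mu x _ := by
    rw [LinearMap.zero_apply]
    exact Submodule.zero_mem _
  smul_mem' c φ hφ mu x hx := by
    rw [LinearMap.smul_apply]
    exact Submodule.smul_mem _ _ (hφ mu x hx)

/-- the action `φ ↦ e' φ - φ e` -/
def homAct (e : Module.End K X) (e' : Module.End K Y) : Module.End K (X →ₗ[K] Y) :=
  LinearMap.llcomp K X Y Y e' - LinearMap.lcomp K Y e

lemma homAct_apply (e : Module.End K X) (e' : Module.End K Y) (φ : X →ₗ[K] Y) (x : X) :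
    homAct e e' φ x = e' (φ x) - φ (e x) := rfl

lemma Raises.hom (he : Raises W alpha e) (he' : Raises W' alpha e') :
    Raises (homW W W') alpha (homAct e e') := by
  intro lam φ hφ mu x hx
  rw [homAct_apply]
  apply Submodule.sub_mem
  · have := he' _ _ (hφ mu x hx)
    rwa [add_assoc] at this
  · have := hφ _ _ (he mu x hx)
    rwa [add_right_comm, add_assoc] at this

/-- `chi(Hom(X, Y)) = chi(Y) - chi(X)` -/
lemma IsLowering.hom (h : IsLowering W alpha ht e chi f) (h' : IsLowering W' alpha ht e' chi' f')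
    (hsup : ⨆ lam, W lam = ⊤) :
    IsLowering (homW W W') alpha ht (homAct e e') (chi' - chi) (homAct f f') where
  lower lam φ hφ mu x hx := by
    rw [homAct_apply]
    apply Submodule.sub_mem
    · have := h'.lower _ _ (hφ mu x hx)
      rwa [add_sub_assoc] at this
    · have := hφ _ _ (h.lower mu x hx)
      have h1 : mu - alpha + lam = mu + (lam - alpha) := by abel
      rwa [h1] at this
  comm lam φ hφ := by
    have key : ∀ mu, ∀ x ∈ W mu, (homAct e e' (homAct f f' φ) - homAct f f' (homAct e e' φ)) x =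
        (((ht lam - (chi' - chi) : ℤ) : K) • φ) x := by
      intro mu x hx
      have h1 := h'.comm _ _ (hφ mu x hx)
      have h2 := congrArg φ (h.comm mu x hx)
      rw [map_sub, map_smul] at h2
      simp only [LinearMap.sub_apply, homAct_apply, map_sub, LinearMap.smul_apply]
      have h3 : (((ht lam - (chi' - chi) : ℤ) : K)) =
          ((ht (mu + lam) - chi' : ℤ) : K) - ((ht mu - chi : ℤ) : K) := by
        rw [map_add]
        push_cast
        ring
      rw [h3, sub_smul, ← h1, ← h2]
      abel
    have hall : ∀ x : X, x ∈ (⊤ : Submodule K X) →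
        (homAct e e' (homAct f f' φ) - homAct f f' (homAct e e' φ)) x =
        (((ht lam - (chi' - chi) : ℤ) : K) • φ) x := by
      intro x hx
      rw [← hsup] at hx
      induction hx using Submodule.iSup_induction' with
      | mem mu x hx => exact key mu x hx
      | zero => simp
      | add x y _ _ hx hy => rw [map_add, hx, hy, map_add]
    exact LinearMap.ext fun x => hall x trivial

lemma iSupIndep.homW (hind : iSupIndep W') (hsup : ⨆ lam, W lam = ⊤) :
    iSupIndep (homW W W') := by
  intro i
  rw [Submodule.disjoint_def]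
  intro φ hφ hφ'
  have key : ∀ mu, ∀ x ∈ W mu, φ x = 0 := by
    intro mu x hx
    have h1 : φ x ∈ ⨆ j, ⨆ (_ : j ≠ mu + i), W' j := by
      have h2 : (⨆ j, ⨆ (_ : j ≠ i), Gao.Fam.homW W W' j) ≤
          (⨆ j, ⨆ (_ : j ≠ mu + i), W' j).comap (LinearMap.applyₗ x) := by
        refine iSup_le fun j => iSup_le fun hj => ?_
        intro ψ hψ
        rw [Submodule.mem_comap]
        have h3 : W' (mu + j) ≤ ⨆ j, ⨆ (_ : j ≠ mu + i), W' j :=
          le_iSup_of_le (mu + j) (le_iSup_of_le (by simpa using hj) le_rfl)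
        exact h3 (hψ mu x hx)
      exact h2 hφ'
    exact (Submodule.disjoint_def.mp (hind (mu + i))) (φ x) (hφ mu x hx) h1
  apply LinearMap.ext
  intro x
  have hx : x ∈ ⨆ lam, W lam := by rw [hsup]; trivial
  induction hx using Submodule.iSup_induction' with
  | mem mu x hx => exact key mu x hx
  | zero => simp
  | add x y _ _ hx hy => rw [map_add, hx, hy]; simp

/-! ### Tensor products -/

/-- the grading of `X ⊗ Y` -/
def tensorW (W : Lam → Submodule K X) (W' : Lam → Submodule K Y) (lam : Lam) :
    Submodule K (X ⊗[K] Y) :=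
  ⨆ p : {p : Lam × Lam // p.1 + p.2 = lam},
    Submodule.map₂ (TensorProduct.mk K X Y) (W p.1.1) (W' p.1.2)

/-- the action `e ⊗ 1 + 1 ⊗ e'` -/
noncomputable def tensorAct (e : Module.End K X) (e' : Module.End K Y) :
    Module.End K (X ⊗[K] Y) :=
  TensorProduct.map e LinearMap.id + TensorProduct.map LinearMap.id e'

lemma tensorAct_tmul (e : Module.End K X) (e' : Module.End K Y) (x : X) (y : Y) :
    tensorAct e e' (x ⊗ₜ y) = e x ⊗ₜ y + x ⊗ₜ e' y := by
  simp [tensorAct]

lemma tmul_mem_tensorW {mu nu : Lam} {x : X} {y : Y} (hx : x ∈ W mu) (hy : y ∈ W' nu) {lam : Lam}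
    (h : mu + nu = lam) : x ⊗ₜ[K] y ∈ tensorW W W' lam := by
  have h1 : Submodule.map₂ (TensorProduct.mk K X Y) (W mu) (W' nu) ≤ tensorW W W' lam :=
    le_iSup (fun p : {p : Lam × Lam // p.1 + p.2 = lam} =>
      Submodule.map₂ (TensorProduct.mk K X Y) (W p.1.1) (W' p.1.2)) ⟨(mu, nu), h⟩
  exact h1 (Submodule.apply_mem_map₂ _ hx hy)

/-- to prove a linear statement on `tensorW lam` it is enough to check pure tensors -/
lemma tensorW_le {lam : Lam} {P : Submodule K (X ⊗[K] Y)}
    (h : ∀ mu nu, mu + nu = lam → ∀ x ∈ W mu, ∀ y ∈ W' nu, x ⊗ₜ[K] y ∈ P) :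
    tensorW W W' lam ≤ P := by
  refine iSup_le fun p => ?_
  rw [Submodule.map₂_le]
  intro x hx y hy
  exact h p.1.1 p.1.2 p.2 x hx y hy

lemma Raises.tensor (he : Raises W alpha e) (he' : Raises W' alpha e') :
    Raises (tensorW W W') alpha (tensorAct e e') := by
  intro lam z hz
  have h1 : tensorW W W' lam ≤ (tensorW W W' (lam + alpha)).comap (tensorAct e e') := by
    apply tensorW_le
    intro mu nu hmn x hx y hy
    rw [Submodule.mem_comap, tensorAct_tmul]
    apply Submodule.add_mem
    · exact tmul_mem_tensorW (he mu x hx) hy (by rw [← hmn]; abel)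
    · exact tmul_mem_tensorW hx (he' nu y hy) (by rw [← hmn]; abel)
  exact h1 hz

/-- `chi(X ⊗ Y) = chi(X) + chi(Y)` -/
lemma IsLowering.tensor (h : IsLowering W alpha ht e chi f)
    (h' : IsLowering W' alpha ht e' chi' f') :
    IsLowering (tensorW W W') alpha ht (tensorAct e e') (chi + chi') (tensorAct f f') where
  lower lam z hz := by
    have h1 : tensorW W W' lam ≤ (tensorW W W' (lam - alpha)).comap (tensorAct f f') := by
      apply tensorW_le
      intro mu nu hmn x hx y hy
      rw [Submodule.mem_comap, tensorAct_tmul]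
      apply Submodule.add_mem
      · exact tmul_mem_tensorW (h.lower mu x hx) hy (by rw [← hmn]; abel)
      · exact tmul_mem_tensorW hx (h'.lower nu y hy) (by rw [← hmn]; abel)
    exact h1 hz
  comm lam z hz := by
    have h1 : tensorW W W' lam ≤ LinearMap.ker
        ((tensorAct e e' * tensorAct f f' - tensorAct f f' * tensorAct e e') -
          ((ht lam - (chi + chi') : ℤ) : K) • (1 : Module.End K (X ⊗[K] Y))) := by
      apply tensorW_le
      intro mu nu hmn x hx y hy
      rw [LinearMap.mem_ker]
      have h2 := h.comm mu x hx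
      have h3 := h'.comm nu y hy
      simp only [LinearMap.sub_apply, Module.End.mul_apply, LinearMap.smul_apply,
        Module.End.one_apply, tensorAct_tmul, map_add]
      have h4 : e (f x) ⊗ₜ[K] y - f (e x) ⊗ₜ[K] y = ((ht mu - chi : ℤ) : K) • (x ⊗ₜ[K] y) := by
        rw [← TensorProduct.sub_tmul, h2, TensorProduct.smul_tmul']
      have h5 : x ⊗ₜ[K] e' (f' y) - x ⊗ₜ[K] f' (e' y) = ((ht nu - chi' : ℤ) : K) • (x ⊗ₜ[K] y) := by
        rw [← TensorProduct.tmul_sub, h3, TensorProduct.tmul_smul]
      have h6 : (((ht lam - (chi + chi') : ℤ) : K)) =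
          ((ht mu - chi : ℤ) : K) + ((ht nu - chi' : ℤ) : K) := by
        rw [← hmn, map_add]
        push_cast
        ring
      rw [h6, add_smul, ← h4, ← h5]
      abel
    have h2 := h1 hz
    rw [LinearMap.mem_ker] at h2
    exact sub_eq_zero.mp h2

/-! ### Twist by a character -/

/-- twisting by a character of weight `mu` shifts `chi` by `ht mu` -/
lemma IsLowering.twist (h : IsLowering W alpha ht e chi f) (mu : Lam) :
    IsLowering (fun lam => W (lam - mu)) alpha ht e (chi + ht mu) f where
  lower lam x hx := by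
    have := h.lower _ x hx
    have h1 : lam - mu - alpha = lam - alpha - mu := by abel
    rwa [h1] at this
  comm lam x hx := by
    rw [h.comm _ x hx, map_sub]
    congr 2
    ring

end Gao.Fam
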