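import Pool.Agent.Gao.Sl2A
import Pool.Agent.Gao.Sl2C

/-!
# Bridge between gradings by projections (`Gao.Grading`) and families of submodules (`Gao.Fam`)
-/

namespace Gao

variable {K X Λ : Type*} [Field K] [AddCommGroup X] [Module K X] [AddCommGroup Λ]
  [DecidableEq Λ] (G : Grading K X Λ) {e : Module.End K X} {α : Λ} {ht : Λ →+ ℤ} {χ : ℤ}

namespace Grading

omit [AddCommGroup Λ] in
theorem iSup_W : ⨆ a, G.W a = ⊤ := by
  rw [eq_top_iff]
  intro x _
  rw [← G.sum_apply x]
  refine Submodule.sum_mem _ fun a _ => ?_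
  exact (le_iSup G.W a) (G.π_mem a x)

omit [AddCommGroup Λ] in
theorem iSupIndep_W : iSupIndep G.W := by
  intro i
  rw [Submodule.disjoint_def]
  intro x hx hx'
  have h1 : (⨆ j, ⨆ (_ : j ≠ i), G.W j) ≤ LinearMap.ker (G.π i) := by
    refine iSup_le fun j => iSup_le fun hj => ?_
    intro y hy
    rw [LinearMap.mem_ker]
    exact G.π_of_mem_ne hy hj.symm
  have h2 : G.π i x = 0 := h1 hx'
  rwa [G.π_of_mem hx] at h2

end Grading

theorem Hom.raises {G : Grading K X Λ} (h : Hom G e α) : Fam.Raises G.W α e :=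
  fun _ _ hx => h.mem hx

theorem Fam.Raises.gradingHom {G : Grading K X Λ} (h : Fam.Raises G.W α e) : Hom G e α :=
  hom_of_mem h

theorem centered_iff_fam {G : Grading K X Λ} :
    Centered G e α ht χ ↔ Fam.Centered G.W α ht e χ := by
  constructor
  · rintro ⟨f, hf, hc⟩
    refine ⟨f, fun a x hx => ?_, fun a x hx => ?_⟩
    · rw [sub_eq_add_neg]
      exact hf.mem hx
    · have h1 := congrArg (fun u : Module.End K X => u x) (hc a)
      simp only [Module.End.mul_apply, LinearMap.sub_apply, LinearMap.smul_apply,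
        G.π_of_mem hx] at h1
      exact h1
  · rintro ⟨f, hf⟩
    refine ⟨f, hom_of_mem fun a x hx => ?_, fun a => ?_⟩
    · rw [← sub_eq_add_neg]
      exact hf.lower a x hx
    · ext x
      have h1 := hf.comm a _ (G.π_mem a x)
      simp only [Module.End.mul_apply, LinearMap.sub_apply, LinearMap.smul_apply]
      exact h1

end Gao
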