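import Mathlib
import Pool.Agent.Gao.GBasic
import Pool.Agent.Gao.GDemF
import Pool.Agent.Gao.Sl2A
import Pool.Agent.Gao.Sl2S
import Pool.Agent.Gao.Sl2Bridge

/-!
# Gao project, PART G, the inequality `ch (T c N) ≤ Dem_c (ch N)`

MODULE GIneq (about 200 lines).  Uses `sl_2` theory: `Gao.Centered.lefschetz` (Sl2A): for a finite dimensional
graded space with `e`, `f`, `[e,f] = ht` (i.e. `Centered G e α ht 0` with this `f`): `e^k : X_a → X_{a+kα}` is bijective
for `ht a = -k`.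

PROOF.  `α = alp c h`, `s = sWt c h`, `e = ρ.e c`, `f = ρ.f c`.  `V`, and every graded subspace `M` stable under `e, f`
(use `Grading.restrict`), is centered at 0.  Let `M = T c N` (graded, stable under `e` by `BSt_T`, and under `f`).
(0) `ch_symm`: for such an `M`: `dim M_μ = dim M_{sμ}` (`e^k` or its inverse, Lefschetz for `M`).
(1) Let `ht μ = k ≥ 0`.  `M_μ = N_μ + f M_{μ+α}` (`M = N + f M`: every `f^k z` with `k ≥ 1` is in `f M`; take the
    homogeneous component of weight `μ`).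
(2) `e^{k+1} N_{μ'} ⊆ N_μ ∩ f M_{μ+α}`, `μ' = μ - (k+1)α`, `ht μ' = -k-2`: in `N_μ` by `e`-stability.  In `M`:
    `e^{k+1} M_{μ'} = f M_{μ+α}`: [supset]: `y ∈ M_{μ+α}`, `y = e^{k+2} z`, `z ∈ M_{μ'}` (Lefschetz); from
    `e^{j} f - f e^{j} = j e^{j-1} (h + j - 1)` with `j = k+2` on `z` (weight `-k-2`):
    `f y = f e^{k+2} z = e^{k+2} f z - (k+2) e^{k+1} (-k-2+k+1) z = e^{k+1} (e f z + (k+2) z)`.
    Then equality by dimension: `dim e^{k+1} M_{μ'} ≤ dim M_{μ'} = dim M_{μ+α}` (as `s μ' = μ + α`) `= dim f M_{μ+α}` because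
    `f` is injective on weights of height `≥ 1` (if `f y = 0`, ht `y = j ≥ 1`, then with Lefschetz `y = e^j z`, and
    the formula gives... or: apply the Lefschetz property to the opposite triple; simplest: `pow_injective`-type lemma).
(3) `e^{k+1}` is injective on `V_{μ'}` (since `e^{k+2}` is).  So
    `dim M_μ ≤ dim N_μ + dim M_{μ+α} - dim N_{μ'}` (`dim (A+B) = dim A + dim B - dim (A ∩ B)`).
(4) `IsDem`: `g μ - g (μ+α) = N_μ - N_{s(μ+α)}` and `s (μ+α) = μ'`.  So by descending induction along `μ + rα`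
    (for large `r` both sides vanish): `dim M_μ ≤ g μ` for `ht μ ≥ 0`.
(5) For `ht μ < 0`: `dim M_μ = dim M_{sμ} ≤ g (s μ) = g μ` (`IsDem.symm`).
-/

namespace Gao

open Finset Module

/-- the height as a homomorphism -/
def htH {m : ℕ} (c : ℕ) (h : c + 1 < m) : Wt m →+ ℤ where
  toFun := htc c h
  map_zero' := by unfold htc; simp
  map_add' μ ν := by unfold htc; simp only [Pi.add_apply]; ring

lemma htH_apply {m : ℕ} (c : ℕ) (h : c + 1 < m) (μ : Wt m) : htH c h μ = htc c h μ := rfl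

namespace GLRep

variable {K V : Type*} [Field K] [CharZero K] [AddCommGroup V] [Module K V] [FiniteDimensional K V]
  {m : ℕ} (ρ : GLRep K V m)

omit [CharZero K] [FiniteDimensional K V] in
lemma raises_e (c : ℕ) (h : c + 1 < m) : Fam.Raises ρ.toGrading.W (alp c h) (ρ.e c) :=
  (ρ.e_hom c h).raises

omit [CharZero K] [FiniteDimensional K V] in
lemma isLowering_f (c : ℕ) (h : c + 1 < m) :
    Fam.IsLowering ρ.toGrading.W (alp c h) (htH c h) (ρ.e c) 0 (ρ.f c) where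
  lower lam x hx := by
    rw [sub_eq_add_neg]
    exact (ρ.f_hom c h).mem hx
  comm lam x hx := by
    have h1 := ρ.e_f_wt c h lam x
    rw [ρ.toGrading.π_of_mem hx] at h1
    rw [h1, sub_zero]
    rfl

lemma e_pow_inj (c : ℕ) (h : c + 1 < m) (k : ℕ) {μ : Wt m} (hμ : htc c h μ ≤ -k) {x : V}
    (hx : x ∈ ρ.toGrading.W μ) (h0 : (ρ.e c ^ k) x = 0) : x = 0 := by
  refine (ρ.isLowering_f c h).pow_injective (ρ.raises_e c h) ρ.toGrading.iSupIndep_W
    (htc_alp c h) (-htc c h μ).toNat k ?_ μ ?_ x hx h0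
  · omega
  · rw [htH_apply]
    omega

lemma f_pow_inj (c : ℕ) (h : c + 1 < m) (k : ℕ) {μ : Wt m} (hμ : k ≤ htc c h μ) {x : V}
    (hx : x ∈ ρ.toGrading.W μ) (h0 : (ρ.f c ^ k) x = 0) : x = 0 := by
  refine ((ρ.isLowering_f c h).swap (ρ.raises_e c h)).pow_injective
    (ρ.isLowering_f c h).raises_swap ρ.toGrading.iSupIndep_W
    ?_ (htc c h μ).toNat k ?_ μ ?_ x hx h0
  · rw [AddMonoidHom.neg_apply, map_neg, neg_neg]
    exact htc_alp c h
  · omega
  · rw [AddMonoidHom.neg_apply, htH_apply]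
    omega

omit [FiniteDimensional K V] [CharZero K] in
lemma e_pow_mem (c : ℕ) (h : c + 1 < m) (k : ℕ) {μ : Wt m} {x : V}
    (hx : x ∈ ρ.toGrading.W μ) : (ρ.e c ^ k) x ∈ ρ.toGrading.W (μ + k • alp c h) :=
  (ρ.raises_e c h).pow k μ x hx

omit [FiniteDimensional K V] [CharZero K] in
lemma f_pow_mem (c : ℕ) (h : c + 1 < m) (k : ℕ) {μ : Wt m} {x : V}
    (hx : x ∈ ρ.toGrading.W μ) : (ρ.f c ^ k) x ∈ ρ.toGrading.W (μ - k • alp c h) := by
  have := (ρ.isLowering_f c h).raises_swap.pow k μ x hx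
  rwa [smul_neg, ← sub_eq_add_neg] at this

omit [FiniteDimensional K V] [CharZero K] in
lemma pow_mem_of {a : Module.End K V} {M : Submodule K V} (ha : ∀ y ∈ M, a y ∈ M) (k : ℕ) :
    ∀ y ∈ M, (a ^ k) y ∈ M := by
  induction k with
  | zero => intro y hy; exact hy
  | succ k ih =>
    intro y hy
    rw [pow_succ', Module.End.mul_apply]
    exact ha _ (ih y hy)

omit [FiniteDimensional K V] [CharZero K] in
lemma wd_eq {M : Submodule K V} (hM : ρ.toGrading.Stable M) (μ : Wt m) :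
    ρ.wd M μ = finrank K (M ⊓ ρ.toGrading.W μ : Submodule K V) := by
  unfold GLRep.wd
  rw [ρ.map_π_eq hM μ]

omit [CharZero K] in
lemma finrank_le_of_inj {A B : Submodule K V} (a : Module.End K V) (hAB : ∀ x ∈ A, a x ∈ B)
    (hinj : ∀ x ∈ A, a x = 0 → x = 0) : finrank K A ≤ finrank K B := by
  let g : A →ₗ[K] B := a.restrict hAB
  refine LinearMap.finrank_le_finrank_of_injective (f := g) ?_
  rw [← LinearMap.ker_eq_bot, LinearMap.ker_eq_bot']
  intro x hx
  apply Subtype.ext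
  exact hinj x x.2 (congrArg Subtype.val hx)

omit [CharZero K] in
lemma finrank_map_of_inj' {A : Submodule K V} (a : Module.End K V)
    (hinj : ∀ x ∈ A, a x = 0 → x = 0) : finrank K (A.map a) = finrank K A := by
  apply le_antisymm (Submodule.finrank_map_le a A)
  exact finrank_le_of_inj a (fun x hx => ⟨x, hx, rfl⟩) hinj

omit [CharZero K] [FiniteDimensional K V] in
theorem ch_support (Z : Submodule K V) : (ρ.ch Z).support.Finite := by
  apply ρ.supp.finite_toSet.subset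
  intro μ hμ
  by_contra hcon
  apply hμ
  unfold ch
  rw [ρ.wd_zero hcon]
  rfl

lemma wd_le_wd {M : Submodule K V} (hM : ρ.BSt M) (c : ℕ) (h : c + 1 < m) (μ : Wt m)
    (hμ : htc c h μ ≤ 0) : ρ.wd M μ ≤ ρ.wd M (sWt c h μ) := by
  rw [ρ.wd_eq hM.st, ρ.wd_eq hM.st]
  obtain ⟨k, hk⟩ : ∃ k : ℕ, htc c h μ = -k := ⟨(-htc c h μ).toNat, by omega⟩
  refine finrank_le_of_inj (ρ.e c ^ k) ?_ (fun x hx h0 => ρ.e_pow_inj c h k hk.le hx.2 h0)
  rintro x ⟨hx1, hx2⟩
  refine ⟨pow_mem_of (fun y hy => hM.e_mem c hy) k x hx1, ?_⟩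
  have h1 := ρ.e_pow_mem c h k hx2
  rw [sWt_eq, hk, neg_smul, sub_neg_eq_add, natCast_zsmul]
  exact h1

lemma wd_le_wd' {M : Submodule K V} (hM : ρ.BSt M) (c : ℕ) (h : c + 1 < m)
    (hf : ∀ y ∈ M, ρ.f c y ∈ M) (μ : Wt m)
    (hμ : 0 ≤ htc c h μ) : ρ.wd M μ ≤ ρ.wd M (sWt c h μ) := by
  rw [ρ.wd_eq hM.st, ρ.wd_eq hM.st]
  obtain ⟨k, hk⟩ : ∃ k : ℕ, htc c h μ = k := ⟨(htc c h μ).toNat, by omega⟩
  refine finrank_le_of_inj (ρ.f c ^ k) ?_ (fun x hx h0 => ρ.f_pow_inj c h k hk.ge hx.2 h0)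
  rintro x ⟨hx1, hx2⟩
  refine ⟨pow_mem_of hf k x hx1, ?_⟩
  have h1 := ρ.f_pow_mem c h k hx2
  rw [sWt_eq, hk, natCast_zsmul]
  exact h1

omit [FiniteDimensional K V] [CharZero K] in
lemma htc_sWt (c : ℕ) (h : c + 1 < m) (μ : Wt m) : htc c h (sWt c h μ) = -htc c h μ := by
  unfold htc sWt
  simp only [Function.comp_apply, Equiv.swap_apply_left, Equiv.swap_apply_right]
  ring

theorem wd_symm {M : Submodule K V} (hM : ρ.BSt M) (c : ℕ) (h : c + 1 < m)
    (hf : ∀ y ∈ M, ρ.f c y ∈ M) (μ : Wt m) : ρ.wd M (sWt c h μ) = ρ.wd M μ := by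
  rcases le_total (htc c h μ) 0 with h0 | h0
  · apply le_antisymm
    · have h1 := ρ.wd_le_wd' hM c h hf (sWt c h μ) (by rw [htc_sWt]; omega)
      rwa [sWt_sWt] at h1
    · exact ρ.wd_le_wd hM c h μ h0
  · apply le_antisymm
    · have h1 := ρ.wd_le_wd hM c h (sWt c h μ) (by rw [htc_sWt]; omega)
      rwa [sWt_sWt] at h1
    · exact ρ.wd_le_wd' hM c h hf μ h0

theorem ch_symm {M : Submodule K V} (hM : ρ.BSt M) (c : ℕ) (h : c + 1 < m)
    (hf : ∀ y ∈ M, ρ.f c y ∈ M) (μ : Wt m) : ρ.ch M (sWt c h μ) = ρ.ch M μ := by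
  unfold ch
  rw [ρ.wd_symm hM c h hf μ]

theorem isDem_self {M : Submodule K V} (hM : ρ.BSt M) (c : ℕ) (h : c + 1 < m)
    (hf : ∀ y ∈ M, ρ.f c y ∈ M) : IsDem c h (ρ.ch M) (ρ.ch M) :=
  IsDem.of_symm (ρ.ch_support M) (ρ.ch_symm hM c h hf)

/-- the inequality of dimensions for nonnegative height -/
lemma wd_T_le {N : Submodule K V} (hN : ρ.BSt N) (c : ℕ) (h : c + 1 < m) (μ : Wt m)
    (hμ : 0 ≤ htc c h μ) :
    ρ.wd (ρ.T c N) μ + ρ.wd N (sWt c h (μ + alp c h)) ≤
      ρ.wd N μ + ρ.wd (ρ.T c N) (μ + alp c h) := by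
  obtain ⟨k, hk⟩ : ∃ k : ℕ, htc c h μ = k := ⟨(htc c h μ).toNat, by omega⟩
  set M := ρ.T c N with hM
  have hMB : ρ.BSt M := ρ.BSt_T hN c
  have hfM : ∀ y ∈ M, ρ.f c y ∈ M := fun y hy => ρ.f_mem_T hy
  set μ' := sWt c h (μ + alp c h) with hμ'
  have hht : htc c h (μ + alp c h) = k + 2 := by
    have := (htH c h).map_add μ (alp c h)
    rw [htH_apply, htH_apply, htH_apply, htc_alp, hk] at this
    exact this
  have hht' : htc c h μ' = -(k + 2 : ℕ) := by
    rw [hμ', htc_sWt, hht]; push_cast; ring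
  have hμ'1 : μ' + (k + 2) • alp c h = μ + alp c h := by
    have h1 := sWt_eq c h μ'
    rw [hμ', sWt_sWt, ← hμ', hht', neg_smul, sub_neg_eq_add, natCast_zsmul] at h1
    exact h1.symm
  have hμ'2 : μ' + (k + 1) • alp c h = μ := by
    have h1 : (k + 2) • alp c h = (k + 1) • alp c h + alp c h := succ_nsmul _ _
    rw [h1, ← add_assoc] at hμ'1
    exact add_right_cancel hμ'1
  -- the spaces
  set A : Submodule K V := M ⊓ ρ.toGrading.W (μ + alp c h) with hA
  set B : Submodule K V := M ⊓ ρ.toGrading.W μ' with hB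
  have hdimAB : finrank K A = finrank K B := by
    rw [hA, hB, ← ρ.wd_eq hMB.st, ← ρ.wd_eq hMB.st, hμ', ρ.wd_symm hMB c h hfM]
  -- `e^(k+2) B = A`
  have heB : B.map (ρ.e c ^ (k + 2)) = A := by
    apply Submodule.eq_of_le_of_finrank_eq
    · rintro _ ⟨x, hx, rfl⟩
      refine ⟨pow_mem_of (fun y hy => hMB.e_mem c hy) _ x hx.1, ?_⟩
      have := ρ.e_pow_mem c h (k + 2) hx.2
      rwa [hμ'1] at this
    · rw [finrank_map_of_inj' (A := B) _
        (fun x hx h0 => ρ.e_pow_inj c h (k + 2) hht'.le hx.2 h0), hdimAB]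
  -- `f A ≤ e^(k+1) B`
  have hfA : A.map (ρ.f c) ≤ B.map (ρ.e c ^ (k + 1)) := by
    rintro _ ⟨y, hy, rfl⟩
    rw [SetLike.mem_coe, ← heB] at hy
    obtain ⟨z, hz, rfl⟩ := hy
    refine ⟨ρ.e c (ρ.f c z) + ((k + 2 : ℕ) : K) • z, ?_, ?_⟩
    · refine Submodule.add_mem _ ⟨hMB.e_mem c (hfM z hz.1), ?_⟩ (Submodule.smul_mem _ _ hz)
      have h1 := (ρ.isLowering_f c h).lower μ' z hz.2
      have h2 := ρ.raises_e c h _ _ h1
      rwa [sub_add_cancel] at h2
    · have h1 := (ρ.isLowering_f c h).pow_comm (ρ.raises_e c h) (htc_alp c h) (k + 1) μ' z hz.2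
      rw [htH_apply, hht'] at h1
      rw [map_add, map_smul, ← Module.End.mul_apply (ρ.e c ^ (k + 1)) (ρ.e c), ← pow_succ, h1,
        add_assoc, ← add_smul]
      have h3 : ((((k + 1 : ℕ) : ℤ) + 1) * (-((k + 2 : ℕ) : ℤ) - 0 + ((k + 1 : ℕ) : ℤ)) : ℤ) =
          -((k + 2 : ℕ) : ℤ) := by push_cast; ring
      rw [h3]
      push_cast
      rw [neg_add_cancel, zero_smul, add_zero]
  have hdf : finrank K (A.map (ρ.f c)) = finrank K A := by
    apply finrank_map_of_inj'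
    intro x hx h0
    refine ρ.f_pow_inj c h 1 (μ := μ + alp c h) ?_ hx.2 (by rw [pow_one]; exact h0)
    rw [hht]; push_cast; omega
  have heqfA : A.map (ρ.f c) = B.map (ρ.e c ^ (k + 1)) := by
    apply Submodule.eq_of_le_of_finrank_le hfA
    rw [hdf, hdimAB]
    exact Submodule.finrank_map_le _ _
  -- the intersection
  set C : Submodule K V := N ⊓ ρ.toGrading.W μ' with hC
  have hCle : C ≤ B := fun x hx => ⟨ρ.le_T c N hx.1, hx.2⟩
  have hint : C.map (ρ.e c ^ (k + 1)) ≤ (N ⊓ ρ.toGrading.W μ) ⊓ A.map (ρ.f c) := by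
    apply le_inf
    · rintro _ ⟨x, hx, rfl⟩
      refine ⟨pow_mem_of (fun y hy => hN.e_mem c hy) _ x hx.1, ?_⟩
      have := ρ.e_pow_mem c h (k + 1) hx.2
      rwa [hμ'2] at this
    · rw [heqfA]
      exact Submodule.map_mono hCle
  have hdC : finrank K (C.map (ρ.e c ^ (k + 1))) = finrank K C := by
    apply finrank_map_of_inj'
    intro x hx h0
    refine ρ.e_pow_inj c h (k + 1) (μ := μ') ?_ hx.2 h0
    rw [hht']; push_cast; omega
  -- `M_μ = N_μ + f A`
  have hsum : M ⊓ ρ.toGrading.W μ ≤ (N ⊓ ρ.toGrading.W μ) ⊔ A.map (ρ.f c) := by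
    rintro y ⟨hy1, hy2⟩
    have key : ∀ y ∈ M, ρ.toGrading.π μ y ∈ (N ⊓ ρ.toGrading.W μ) ⊔ A.map (ρ.f c) := by
      refine ρ.T_induction ?_ ?_ ?_
      · rw [map_zero]; exact Submodule.zero_mem _
      · intro a b ha hb
        rw [map_add]; exact Submodule.add_mem _ ha hb
      · intro j z hz
        cases j with
        | zero =>
          exact Submodule.mem_sup_left ⟨hN.st μ z hz, ρ.toGrading.π_mem μ z⟩
        | succ j =>
          apply Submodule.mem_sup_right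
          have hz' : (ρ.f c ^ j) z ∈ M := pow_mem_of hfM j z (ρ.le_T c N hz)
          refine ⟨ρ.toGrading.π (μ + alp c h) ((ρ.f c ^ j) z),
            ⟨hMB.st _ _ hz', ρ.toGrading.π_mem _ _⟩, ?_⟩
          have h1 := congrArg (fun u : Module.End K V => u ((ρ.f c ^ j) z))
            (ρ.f_hom c h (μ + alp c h))
          simp only [Module.End.mul_apply] at h1
          rw [add_neg_cancel_right] at h1
          rw [h1, pow_succ', Module.End.mul_apply]
    have h1 := key y hy1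
    rwa [ρ.toGrading.π_of_mem hy2] at h1
  have h1 := Submodule.finrank_mono hsum
  have h2 := Submodule.finrank_sup_add_finrank_inf_eq (N ⊓ ρ.toGrading.W μ) (A.map (ρ.f c))
  have h3 := Submodule.finrank_mono hint
  rw [ρ.wd_eq hMB.st, ρ.wd_eq hN.st, ρ.wd_eq hN.st, ρ.wd_eq hMB.st]
  rw [← hA, ← hC]
  rw [hdC] at h3
  rw [hdf] at h2
  omega

theorem ch_T_le {N : Submodule K V} (hN : ρ.BSt N) (c : ℕ) (h : c + 1 < m) {g : Chr m}
    (hg : IsDem c h (ρ.ch N) g) (μ : Wt m) : ρ.ch (ρ.T c N) μ ≤ g μ := by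
  have hMB : ρ.BSt (ρ.T c N) := ρ.BSt_T hN c
  have hfM : ∀ y ∈ ρ.T c N, ρ.f c y ∈ ρ.T c N := fun y hy => ρ.f_mem_T hy
  -- nonnegative height
  have key : ∀ μ : Wt m, 0 ≤ htc c h μ → ρ.ch (ρ.T c N) μ ≤ g μ := by
    intro μ hμ
    have hht : ∀ r : ℕ, htc c h (μ + r • alp c h) = htc c h μ + 2 * r := by
      intro r
      have h1 := (htH c h).map_add μ (r • alp c h)
      rw [map_nsmul, htH_apply, htH_apply, htH_apply, htc_alp] at h1
      rw [h1, nsmul_eq_mul]
      ring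
    -- eventually zero
    obtain ⟨R, hR⟩ : ∃ R : ℕ, ρ.ch (ρ.T c N) (μ + R • alp c h) = 0 ∧ g (μ + R • alp c h) = 0 := by
      have hfin := (ρ.ch_support (ρ.T c N)).union hg.2.1
      by_contra hcon
      push Not at hcon
      have hinj : Function.Injective (fun r : ℕ => μ + r • alp c h) := by
        intro a b hab
        have h1 := congrArg (htc c h) hab
        simp only [hht] at h1
        omega
      refine Set.infinite_of_injective_forall_mem hinj (fun r => ?_) hfin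
      by_cases h1 : ρ.ch (ρ.T c N) (μ + r • alp c h) = 0
      · exact Or.inr (hcon r h1)
      · exact Or.inl h1
    have hstep : ∀ r : ℕ, ρ.ch (ρ.T c N) (μ + r • alp c h) - g (μ + r • alp c h) ≤
        ρ.ch (ρ.T c N) (μ + (r + 1) • alp c h) - g (μ + (r + 1) • alp c h) := by
      intro r
      have h1 := ρ.wd_T_le hN c h (μ + r • alp c h) (by rw [hht]; omega)
      have h2 := hg.2.2 (μ + r • alp c h)
      have h3 : μ + (r + 1) • alp c h = μ + r • alp c h + alp c h := by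
        rw [succ_nsmul, add_assoc]
      rw [h3]
      unfold ch at h2 ⊢
      have h4 : (ρ.wd (ρ.T c N) (μ + r • alp c h) : ℤ) +
          ρ.wd N (sWt c h (μ + r • alp c h + alp c h)) ≤
          ρ.wd N (μ + r • alp c h) + ρ.wd (ρ.T c N) (μ + r • alp c h + alp c h) := by
        exact_mod_cast h1
      linarith
    have hmono : ∀ r : ℕ, ρ.ch (ρ.T c N) μ - g μ ≤
        ρ.ch (ρ.T c N) (μ + r • alp c h) - g (μ + r • alp c h) := by
      intro r
      induction r with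
      | zero => rw [zero_smul, add_zero]
      | succ r ih => exact ih.trans (hstep r)
    have h1 := hmono R
    rw [hR.1, hR.2] at h1
    linarith
  rcases le_total 0 (htc c h μ) with h0 | h0
  · exact key μ h0
  · rw [← ρ.ch_symm hMB c h hfM μ, ← hg.symm μ]
    exact key _ (by rw [htc_sWt]; omega)

end GLRep

end Gao
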