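import Mathlib
import Pool.Agent.Gao.GDefs

/-!
# Gao project, PART G, the key lemma: combinatorics of the state function
-/

namespace Gao

open Finset Module

/-- state function -/
noncomputable def stF (m t : ℕ) : List ℕ → Finset (Fin m) → Option (List ℕ)
  | [], l => if l = ini m t then some [] else none
  | c :: cs, l => by
      classical
      exact if h : c + 1 < m then
        (if lo c h ∈ l ∧ hi c h ∉ l then stF m t cs l
         else if hi c h ∈ l ∧ lo c h ∉ l then (stF m t cs (swS c h l)).map (fun ds => c :: ds)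
         else (stF m t cs l).map (fun ds => if Asc c h (prodW m ds) then c :: ds else ds))
      else stF m t cs l

section comb

variable {m : ℕ}

lemma lo_ne_hi (c : ℕ) (h : c + 1 < m) : lo c h ≠ hi c h := by
  intro hh
  have := congrArg Fin.val hh
  simp at this

lemma mem_swS (c : ℕ) (h : c + 1 < m) (l : Finset (Fin m)) (x : Fin m) :
    x ∈ swS c h l ↔ Equiv.swap (lo c h) (hi c h) x ∈ l := by
  unfold swS
  rw [Finset.mem_map_equiv, Equiv.symm_swap]

lemma lo_mem_swS (c : ℕ) (h : c + 1 < m) (l : Finset (Fin m)) :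
    lo c h ∈ swS c h l ↔ hi c h ∈ l := by
  rw [mem_swS, Equiv.swap_apply_left]

lemma hi_mem_swS (c : ℕ) (h : c + 1 < m) (l : Finset (Fin m)) :
    hi c h ∈ swS c h l ↔ lo c h ∈ l := by
  rw [mem_swS, Equiv.swap_apply_right]

lemma swS_swS (c : ℕ) (h : c + 1 < m) (l : Finset (Fin m)) : swS c h (swS c h l) = l := by
  ext x
  rw [mem_swS, mem_swS, Equiv.swap_apply_self]

lemma swS_eq_self (c : ℕ) (h : c + 1 < m) {l : Finset (Fin m)} (hl : lo c h ∈ l ↔ hi c h ∈ l) :
    swS c h l = l := by
  ext x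
  rw [mem_swS]
  by_cases h1 : x = lo c h
  · subst h1; rw [Equiv.swap_apply_left, hl]
  · by_cases h2 : x = hi c h
    · subst h2; rw [Equiv.swap_apply_right, hl]
    · rw [Equiv.swap_apply_of_ne_of_ne h1 h2]

lemma card_swS (c : ℕ) (h : c + 1 < m) (l : Finset (Fin m)) : (swS c h l).card = l.card :=
  Finset.card_map _

lemma prodW_cons (c : ℕ) (cs : List ℕ) : prodW m (c :: cs) = sc m c * prodW m cs := by
  unfold prodW
  rw [List.map_cons, List.prod_cons]

lemma sc_eq (c : ℕ) (h : c + 1 < m) : sc m c = Equiv.swap (lo c h) (hi c h) := by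
  unfold sc
  rw [dif_pos h]

lemma map_prodW_cons (c : ℕ) (h : c + 1 < m) (cs : List ℕ) (l : Finset (Fin m)) :
    l.map (prodW m (c :: cs)).toEmbedding = swS c h (l.map (prodW m cs).toEmbedding) := by
  rw [prodW_cons, sc_eq c h]
  unfold swS
  rw [Finset.map_map]
  rfl

lemma mem_map_ini (t : ℕ) (κ : Equiv.Perm (Fin m)) (x : Fin m) :
    x ∈ (ini m t).map κ.toEmbedding ↔ (κ.symm x).val < t := by
  rw [Finset.mem_map_equiv]
  unfold ini
  rw [Finset.mem_filter]
  simp

lemma card_ini {t : ℕ} (ht : t ≤ m) : (ini m t).card = t := by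
  unfold ini
  rw [Fin.card_filter_val_lt]
  exact min_eq_right ht

end comb

theorem stF_red (m t : ℕ) (cs : List ℕ) (l : Finset (Fin m)) (ds : List ℕ)
    (hs : stF m t cs l = some ds) :
    Red m ds ∧ (ini m t).map (prodW m ds).toEmbedding = l := by
  induction cs generalizing l ds with
  | nil =>
    rw [stF] at hs
    split_ifs at hs with hl
    · cases hs
      refine ⟨Red.nil, ?_⟩
      rw [hl]
      exact Finset.map_refl
  | cons c cs ih =>
    rw [stF] at hs
    split_ifs at hs with h h1 h2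
    · exact ih l ds hs
    · rw [Option.map_eq_some_iff] at hs
      obtain ⟨ds', h3, h4⟩ := hs
      subst h4
      obtain ⟨h5, h6⟩ := ih _ _ h3
      have h7 : (ini m t).map (prodW m (c :: ds')).toEmbedding = l := by
        rw [map_prodW_cons c h, h6, swS_swS]
      refine ⟨Red.cons c h ds' h5 ?_, h7⟩
      have h8 : lo c h ∈ swS c h l := (lo_mem_swS c h l).2 h2.1
      have h9 : hi c h ∉ swS c h l := fun hh => h2.2 ((hi_mem_swS c h l).1 hh)
      rw [← h6, mem_map_ini] at h8 h9
      exact Fin.lt_def.2 (lt_of_lt_of_le h8 (not_lt.1 h9))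
    · rw [Option.map_eq_some_iff] at hs
      obtain ⟨ds', h3, h4⟩ := hs
      obtain ⟨h5, h6⟩ := ih _ _ h3
      have hiff : lo c h ∈ l ↔ hi c h ∈ l := by tauto
      by_cases ha : Asc c h (prodW m ds')
      · rw [if_pos ha] at h4
        subst h4
        exact ⟨Red.cons c h ds' h5 ha, by rw [map_prodW_cons c h, h6, swS_eq_self c h hiff]⟩
      · rw [if_neg ha] at h4
        subst h4
        exact ⟨h5, h6⟩
    · exact ih l ds hs

theorem stF_top (m t : ℕ) (cs : List ℕ) (hr : Red m cs) :
    stF m t cs ((ini m t).map (prodW m cs).toEmbedding) = some cs := by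
  induction hr with
  | nil =>
    rw [stF, if_pos]
    exact Finset.map_refl
  | cons c h cs hr ha ih =>
    rw [map_prodW_cons c h, stF, dif_pos h]
    set l := (ini m t).map (prodW m cs).toEmbedding with hl
    have hasc : ¬ (hi c h ∈ l ∧ lo c h ∉ l) := by
      rintro ⟨h1, h2⟩
      rw [hl, mem_map_ini] at h1 h2
      exact absurd (lt_trans (Fin.lt_def.1 ha) h1) h2
    by_cases h1 : lo c h ∈ l ∧ hi c h ∉ l
    · have h2 : ¬ (lo c h ∈ swS c h l ∧ hi c h ∉ swS c h l) := by
        rw [lo_mem_swS, hi_mem_swS]; tauto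
      have h3 : hi c h ∈ swS c h l ∧ lo c h ∉ swS c h l := by
        rw [lo_mem_swS, hi_mem_swS]; tauto
      rw [if_neg h2, if_pos h3, swS_swS, ih]
      rfl
    · have hiff : lo c h ∈ l ↔ hi c h ∈ l := by tauto
      rw [swS_eq_self c h hiff, if_neg h1, if_neg hasc, ih, Option.map_some, if_pos ha]

end Gao
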