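import Mathlib
import Pool.Agent.Gao.GBasic

/-!
# Gao project, PART G, leading coefficient spaces

MODULE GLead (about 250 lines).  `τ : Tw ρ`, `Y ⊆ τ.tot t` graded.  `rk l = Σ_{i∈l} 2^i` is injective on subsets
(binary expansion, e.g. `Finset.sum_two_pow..`/`Nat.bitIndices`; or prove: if `l ≠ l'`, the largest element of the
symmetric difference decides).

(a) `rk_swS_lt`: `rk l' < rk l`, `lo ∈ l'`, `hi ∉ l'`, and (`lo ∈ l ↔ hi ∈ l`) ⇒ `rk (swS l') < rk l`.
    Here `rk (swS l') = rk l' + 2^c`.  Write `rk = A·2^{c+2} + b·2^c + C`, `C < 2^c`, `b ∈ {0,1,2,3}` encodes the membership of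
    `c, c+1` (`b = 1` for `l'`, `b ∈ {0,3}` for `l`).  If `A' < A` fine; if `A' = A` then `b = 3` (b=0 would give rk l < rk l'),
    and `2 < 3`.  (Or by the largest element of the symmetric difference.)
(b) `rk_swS_swS`: `rk l' < rk l`, `lo ∈ l', hi ∉ l'`, `lo ∈ l, hi ∉ l` ⇒ `rk (swS l') < rk (swS l)` (both increase by `2^c`);
    also `rk l < rk (swS l)`.
(c) `lead_stable`, `lead_BSt`: `lead Y l` is graded (`ext l (π μ y) = π (μ - wtS l) (ext l y)`; apply it with `μ + wtS l`) and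
    stable under `e_c` if `Y` is BSt: for `y` with leading index `l`, coefficient `z`: `ext l (e_c y) = [lo ∈ l, hi ∉ l] ext (swS l) y + e_c z`
    and `rk (swS l) > rk l`, so `ext (swS l) y = 0`; same for `l'` with `rk l' > rk l`.
(d) `wd_eq_sum`: `dim Y_μ = Σ_{|l|=t} dim (lead Y l)_{μ - wtS l}`.  Filter `Y_μ = Y ∩ V_μ` by
    `Y^{≤ r} = {y ∈ Y_μ : ext l y = 0 for all l with rk l > r}`; `Y^{<rk l}` is the kernel of `ext l` on `Y^{≤ rk l}` and the image
    is `(lead Y l) ∩ V_{μ - wtS l}` (`y` may be replaced by `π μ y`).  Add up over the finitely many `l` of size `t` in increasing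
    order of `rk` (rk is injective); at the end `Y^{≤ big} = Y_μ`, at the beginning `0` because `Y ⊆ tot t`.
    (Formal version: induction over the sorted list, or on `r`: the statement
    `dim Y^{< r} = Σ_{l, rk l < r} ...` by induction on `r : ℕ`.)
-/

namespace Gao

open Finset Module

variable {K V : Type*} [Field K] [AddCommGroup V] [Module K V] {m : ℕ} {ρ : GLRep K V m}

private theorem rk_eq_sum_map (l : Finset (Fin m)) :
    Tw.rk l = ∑ i ∈ l.map Fin.valEmbedding, 2 ^ i := by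
  unfold Tw.rk
  rw [Finset.sum_map]
  rfl

theorem rk_injective : Function.Injective (Tw.rk (m := m)) := by
  intro l l' h
  rw [rk_eq_sum_map, rk_eq_sum_map] at h
  exact Finset.map_injective _ (Finset.geomSum_injective le_rfl h)

private theorem nat_decomp (s : Finset ℕ) (c : ℕ) : ∃ A C : ℕ, C < 2 ^ c ∧
    ∑ i ∈ s, 2 ^ i = A * 2 ^ (c + 2) +
      ((if c ∈ s then 1 else 0) + (if c + 1 ∈ s then 2 else 0)) * 2 ^ c + C := by
  have h1 := Finset.sum_filter_add_sum_filter_not s (fun i => i < c) (fun i => 2 ^ i)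
  have h2 := Finset.sum_filter_add_sum_filter_not (s.filter (fun i => ¬ i < c))
    (fun i => i < c + 2) (fun i => 2 ^ i)
  obtain ⟨A, hA⟩ : 2 ^ (c + 2) ∣
      ∑ i ∈ (s.filter (fun i => ¬ i < c)).filter (fun i => ¬ i < c + 2), 2 ^ i := by
    apply Finset.dvd_sum
    intro i hi
    rw [Finset.mem_filter] at hi
    exact pow_dvd_pow 2 (by omega)
  have hmid : ∑ i ∈ (s.filter (fun i => ¬ i < c)).filter (fun i => i < c + 2), 2 ^ i =
      ((if c ∈ s then 1 else 0) + (if c + 1 ∈ s then 2 else 0)) * 2 ^ c := by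
    have hset : (s.filter (fun i => ¬ i < c)).filter (fun i => i < c + 2) =
        ({c, c + 1} : Finset ℕ).filter (fun i => i ∈ s) := by
      ext i
      simp only [Finset.mem_filter, Finset.mem_insert, Finset.mem_singleton]
      constructor
      · rintro ⟨⟨h, h'⟩, h''⟩
        exact ⟨by omega, h⟩
      · rintro ⟨h | h, h'⟩
        · exact ⟨⟨h', by omega⟩, by omega⟩
        · exact ⟨⟨h', by omega⟩, by omega⟩
    rw [hset, Finset.sum_filter, Finset.sum_pair (by omega)]
    by_cases hc : c ∈ s <;> by_cases hc' : c + 1 ∈ s <;> simp [hc, hc', pow_succ] <;> ring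
  have hC : ∑ i ∈ s.filter (fun i => i < c), 2 ^ i < 2 ^ c :=
    Nat.geomSum_lt le_rfl (by
      intro i hi
      exact (Finset.mem_filter.1 hi).2)
  refine ⟨A, _, hC, ?_⟩
  rw [← h1, ← h2, hmid, hA]
  ring

private theorem rk_decomp (c : ℕ) (h : c + 1 < m) (l : Finset (Fin m)) : ∃ A C : ℕ, C < 2 ^ c ∧
    Tw.rk l = A * 2 ^ (c + 2) +
      ((if lo c h ∈ l then 1 else 0) + (if hi c h ∈ l then 2 else 0)) * 2 ^ c + C := by
  obtain ⟨A, C, hC, hs⟩ := nat_decomp (l.map Fin.valEmbedding) c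
  refine ⟨A, C, hC, ?_⟩
  rw [rk_eq_sum_map, hs]
  have h1 : c ∈ l.map Fin.valEmbedding ↔ lo c h ∈ l := by
    rw [Finset.mem_map]
    constructor
    · rintro ⟨i, hi, hic⟩
      have : i = lo c h := Fin.ext hic
      rwa [← this]
    · intro hl
      exact ⟨_, hl, rfl⟩
  have h2 : c + 1 ∈ l.map Fin.valEmbedding ↔ hi c h ∈ l := by
    rw [Finset.mem_map]
    constructor
    · rintro ⟨i, hi', hic⟩
      have : i = hi c h := Fin.ext hic
      rwa [← this]
    · intro hl
      exact ⟨_, hl, rfl⟩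
  simp only [h1, h2]

private theorem lo_ne_hi (c : ℕ) (h : c + 1 < m) : lo c h ≠ hi c h := by
  intro h'
  have := congrArg Fin.val h'
  simp at this

private theorem swS_eq (c : ℕ) (h : c + 1 < m) {l : Finset (Fin m)} (h1 : lo c h ∈ l)
    (h2 : hi c h ∉ l) : swS c h l = insert (hi c h) (l.erase (lo c h)) := by
  ext i
  unfold swS
  rw [Finset.mem_map, Finset.mem_insert, Finset.mem_erase]
  constructor
  · rintro ⟨j, hj, rfl⟩
    rw [Equiv.coe_toEmbedding]
    by_cases hjl : j = lo c h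
    · left
      rw [hjl, Equiv.swap_apply_left]
    · have hjh : j ≠ hi c h := by
        rintro rfl
        exact h2 hj
      rw [Equiv.swap_apply_of_ne_of_ne hjl hjh]
      exact Or.inr ⟨hjl, hj⟩
  · rintro (rfl | ⟨hi1, hi2⟩)
    · exact ⟨lo c h, h1, by rw [Equiv.coe_toEmbedding, Equiv.swap_apply_left]⟩
    · have hih : i ≠ hi c h := by
        rintro rfl
        exact h2 hi2
      exact ⟨i, hi2, by rw [Equiv.coe_toEmbedding, Equiv.swap_apply_of_ne_of_ne hi1 hih]⟩

private theorem rk_swS (c : ℕ) (h : c + 1 < m) {l : Finset (Fin m)} (h1 : lo c h ∈ l)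
    (h2 : hi c h ∉ l) : Tw.rk (swS c h l) = Tw.rk l + 2 ^ c := by
  rw [swS_eq c h h1 h2]
  unfold Tw.rk
  rw [Finset.sum_insert (by
    rw [Finset.mem_erase]
    exact fun h' => h2 h'.2), ← Finset.add_sum_erase l _ h1]
  simp only [pow_succ]
  ring

private theorem swS_swS (c : ℕ) (h : c + 1 < m) (l : Finset (Fin m)) :
    swS c h (swS c h l) = l := by
  unfold swS
  rw [Finset.map_map]
  have : (Equiv.swap (lo c h) (hi c h)).toEmbedding.trans
      (Equiv.swap (lo c h) (hi c h)).toEmbedding = Function.Embedding.refl _ := by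
    ext x
    simp
  rw [this, Finset.map_refl]

theorem rk_lt_swS (c : ℕ) (h : c + 1 < m) {l : Finset (Fin m)} (h1 : lo c h ∈ l) (h2 : hi c h ∉ l) :
    Tw.rk l < Tw.rk (swS c h l) := by
  rw [rk_swS c h h1 h2]
  have : 0 < 2 ^ c := by positivity
  omega

theorem rk_swS_lt (c : ℕ) (h : c + 1 < m) {l l' : Finset (Fin m)} (hlt : Tw.rk l' < Tw.rk l)
    (h1 : lo c h ∈ l') (h2 : hi c h ∉ l') (h3 : lo c h ∈ l ↔ hi c h ∈ l) :
    Tw.rk (swS c h l') < Tw.rk l := by
  rw [rk_swS c h h1 h2]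
  obtain ⟨A, C, hC, hl⟩ := rk_decomp c h l
  obtain ⟨A', C', hC', hl'⟩ := rk_decomp c h l'
  rw [if_pos h1, if_neg h2] at hl'
  have hpow : 2 ^ (c + 2) = 4 * 2 ^ c := by rw [pow_add]; ring
  rw [hpow] at hl hl'
  by_cases h4 : lo c h ∈ l
  · rw [if_pos h4, if_pos (h3.1 h4)] at hl
    rw [hl, hl'] at hlt ⊢
    rcases Nat.lt_trichotomy A' A with hA | hA | hA
    · have : (A' + 1) * (4 * 2 ^ c) ≤ A * (4 * 2 ^ c) := Nat.mul_le_mul_right _ hA
      have e : (A' + 1) * (4 * 2 ^ c) = A' * (4 * 2 ^ c) + 4 * 2 ^ c := by ring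
      omega
    · subst hA
      omega
    · have : (A + 1) * (4 * 2 ^ c) ≤ A' * (4 * 2 ^ c) := Nat.mul_le_mul_right _ hA
      have e : (A + 1) * (4 * 2 ^ c) = A * (4 * 2 ^ c) + 4 * 2 ^ c := by ring
      omega
  · rw [if_neg h4, if_neg (fun h' => h4 (h3.2 h'))] at hl
    rw [hl, hl'] at hlt ⊢
    rcases Nat.lt_trichotomy A' A with hA | hA | hA
    · have : (A' + 1) * (4 * 2 ^ c) ≤ A * (4 * 2 ^ c) := Nat.mul_le_mul_right _ hA
      have e : (A' + 1) * (4 * 2 ^ c) = A' * (4 * 2 ^ c) + 4 * 2 ^ c := by ring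
      omega
    · subst hA
      omega
    · have : (A + 1) * (4 * 2 ^ c) ≤ A' * (4 * 2 ^ c) := Nat.mul_le_mul_right _ hA
      have e : (A + 1) * (4 * 2 ^ c) = A * (4 * 2 ^ c) + 4 * 2 ^ c := by ring
      omega

theorem rk_swS_swS (c : ℕ) (h : c + 1 < m) {l l' : Finset (Fin m)} (hlt : Tw.rk l' < Tw.rk l)
    (h1 : lo c h ∈ l') (h2 : hi c h ∉ l') (h3 : lo c h ∈ l) (h4 : hi c h ∉ l) :
    Tw.rk (swS c h l') < Tw.rk (swS c h l) := by
  rw [rk_swS c h h1 h2, rk_swS c h h3 h4]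
  omega

private theorem card_swS (c : ℕ) (h : c + 1 < m) (l : Finset (Fin m)) :
    (swS c h l).card = l.card := by
  unfold swS
  rw [Finset.card_map]

namespace Tw

variable (τ : Tw ρ)

theorem lead_le (Y : Submodule K V) (l : Finset (Fin m)) : τ.lead Y l ≤ τ.V' := by
  rintro z ⟨y, _, rfl, _⟩
  exact τ.ext_mem l y

theorem lead_stable {Y : Submodule K V} (hY : ρ.toGrading.Stable Y) (l : Finset (Fin m)) :
    ρ.toGrading.Stable (τ.lead Y l) := by
  rintro ν z ⟨y, hy, rfl, h⟩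
  refine ⟨ρ.π (ν + wtS l) y, hY _ y hy, ?_, ?_⟩
  · rw [τ.pr_ext, add_sub_cancel_right]
  · intro l' hl'
    rw [τ.pr_ext, h l' hl', map_zero]

theorem lead_BSt {Y : Submodule K V} (hY : ρ.BSt Y) (l : Finset (Fin m)) :
    ρ.BSt (τ.lead Y l) := by
  apply ρ.BSt_of_simple (τ.lead_stable hY.st l)
  rintro c z ⟨y, hy, rfl, h⟩
  by_cases hc : c + 1 < m
  · have key : ∀ l' : Finset (Fin m), Tw.rk l ≤ Tw.rk l' →
        τ.ext l' (ρ.e c y) = ρ.e c (τ.ext l' y) := by
      intro l' hl'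
      rw [τ.ext_e c hc l' y]
      by_cases h1 : lo c hc ∈ l' ∧ hi c hc ∉ l'
      · rw [if_pos h1, h _ (hl'.trans_lt (rk_lt_swS c hc h1.1 h1.2)), zero_add]
      · rw [if_neg h1, zero_add]
    refine ⟨ρ.e c y, hY.e_mem c hy, key l le_rfl, ?_⟩
    intro l' hl'
    rw [key l' hl'.le, h l' hl', map_zero]
  · have : ρ.e c = 0 := by
      unfold GLRep.e
      rw [dif_neg hc]
    rw [this, LinearMap.zero_apply]
    exact Submodule.zero_mem _

theorem lead_mono {Y Y' : Submodule K V} (h : Y ≤ Y') (l : Finset (Fin m)) :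
    τ.lead Y l ≤ τ.lead Y' l := by
  rintro z ⟨y, hy, rfl, h'⟩
  exact ⟨y, h hy, rfl, h'⟩

/-- coefficients of elements of `tot t` vanish outside size `t` -/
theorem ext_eq_zero {t : ℕ} {y : V} (hy : y ∈ τ.tot t) {l : Finset (Fin m)} (hl : l.card ≠ t) :
    τ.ext l y = 0 := by
  have hy' : y = ∑ l ∈ univ.filter (fun l : Finset (Fin m) => l.card = t),
      τ.ins l (τ.ext l y) := hy
  rw [hy', map_sum]
  apply Finset.sum_eq_zero
  intro l' hl'
  rw [τ.ext_ins l l' _ (τ.ext_mem l' y), if_neg]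
  rintro rfl
  exact hl (Finset.mem_filter.1 hl').2

/-- the part of `Y_μ` with vanishing coefficients of rank `≥ r` -/
private def fil (Y : Submodule K V) (μ : Wt m) (r : ℕ) : Submodule K V where
  carrier := {y | y ∈ Y ⊓ ρ.toGrading.W μ ∧ ∀ l, r ≤ Tw.rk l → τ.ext l y = 0}
  add_mem' := by
    rintro a b ⟨ha, ha'⟩ ⟨hb, hb'⟩
    exact ⟨Submodule.add_mem _ ha hb, fun l hl => by rw [map_add, ha' l hl, hb' l hl, add_zero]⟩
  zero_mem' := ⟨Submodule.zero_mem _, fun l _ => map_zero _⟩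
  smul_mem' := by
    rintro c a ⟨ha, ha'⟩
    exact ⟨Submodule.smul_mem _ c ha, fun l hl => by rw [map_smul, ha' l hl, smul_zero]⟩

private theorem fil_mono (Y : Submodule K V) (μ : Wt m) {r s : ℕ} (h : r ≤ s) :
    τ.fil Y μ r ≤ τ.fil Y μ s := by
  rintro y ⟨hy, hy'⟩
  exact ⟨hy, fun l hl => hy' l (h.trans hl)⟩

private theorem fil_zero {t : ℕ} {Y : Submodule K V} (ht : Y ≤ τ.tot t) (μ : Wt m) :
    τ.fil Y μ 0 = ⊥ := by
  rw [eq_bot_iff]
  rintro y ⟨hy, hy'⟩
  have h1 : y = ∑ l ∈ univ.filter (fun l : Finset (Fin m) => l.card = t),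
      τ.ins l (τ.ext l y) := ht hy.1
  rw [Submodule.mem_bot, h1]
  apply Finset.sum_eq_zero
  intro l _
  rw [hy' l (Nat.zero_le _), map_zero]

private theorem fil_succ_none (Y : Submodule K V) (μ : Wt m) {r : ℕ}
    (h : ∀ l : Finset (Fin m), Tw.rk l ≠ r) : τ.fil Y μ (r + 1) = τ.fil Y μ r := by
  apply le_antisymm
  · rintro y ⟨hy, hy'⟩
    refine ⟨hy, fun l hl => hy' l ?_⟩
    have := h l
    omega
  · exact τ.fil_mono Y μ (Nat.le_succ r)

private theorem map_fil {Y : Submodule K V} (hY : ρ.toGrading.Stable Y) (μ : Wt m)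
    (l : Finset (Fin m)) : (τ.fil Y μ (Tw.rk l + 1)).map (τ.ext l) =
      τ.lead Y l ⊓ ρ.toGrading.W (μ - wtS l) := by
  apply le_antisymm
  · rintro z ⟨y, ⟨hy, hy'⟩, rfl⟩
    refine ⟨⟨y, hy.1, rfl, fun l' hl' => hy' l' hl'⟩, ?_⟩
    apply (Grading.mem_W _).2
    rw [← τ.pr_ext, Grading.π_of_mem _ hy.2]
  · rintro z ⟨⟨y, hy, rfl, h⟩, hz⟩
    refine ⟨ρ.π μ y, ⟨⟨hY μ y hy, Grading.π_mem _ _ _⟩, ?_⟩, ?_⟩
    · intro l' hl'
      rw [τ.pr_ext, h l' hl', map_zero]
    · rw [τ.pr_ext]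
      exact Grading.π_of_mem _ hz

private theorem finrank_fil_succ [FiniteDimensional K V] {Y : Submodule K V}
    (hY : ρ.toGrading.Stable Y) (μ : Wt m) (l : Finset (Fin m)) :
    finrank K (τ.fil Y μ (Tw.rk l + 1)) = ρ.wd (τ.lead Y l) (μ - wtS l) +
      finrank K (τ.fil Y μ (Tw.rk l)) := by
  set φ : τ.fil Y μ (Tw.rk l + 1) →ₗ[K] V := (τ.ext l).domRestrict (τ.fil Y μ (Tw.rk l + 1))
    with hφ
  have h1 := LinearMap.finrank_range_add_finrank_ker φ
  have h2 : LinearMap.range φ = τ.lead Y l ⊓ ρ.toGrading.W (μ - wtS l) := by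
    rw [← τ.map_fil hY μ l, hφ, LinearMap.range_domRestrict]
  have h3 : LinearMap.ker φ =
      (τ.fil Y μ (Tw.rk l)).comap (τ.fil Y μ (Tw.rk l + 1)).subtype := by
    ext ⟨y, hy⟩
    rw [LinearMap.mem_ker, Submodule.mem_comap]
    constructor
    · intro h
      refine ⟨hy.1, fun l' hl' => ?_⟩
      rcases Nat.lt_or_ge (Tw.rk l) (Tw.rk l') with h' | h'
      · exact hy.2 l' h'
      · have : l' = l := rk_injective (le_antisymm h' hl')
        rw [this]
        exact h
    · intro h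
      exact h.2 l le_rfl
  rw [← h1, h2, h3]
  congr 1
  · unfold GLRep.wd
    rw [ρ.map_π_eq (τ.lead_stable hY l)]
  · exact (Submodule.comapSubtypeEquivOfLe (τ.fil_mono Y μ (Nat.le_succ _))).finrank_eq

private theorem finrank_fil [FiniteDimensional K V] {t : ℕ} {Y : Submodule K V}
    (hY : ρ.toGrading.Stable Y) (ht : Y ≤ τ.tot t) (μ : Wt m) (r : ℕ) :
    finrank K (τ.fil Y μ r) = ∑ l ∈ univ.filter (fun l : Finset (Fin m) => Tw.rk l < r),
      ρ.wd (τ.lead Y l) (μ - wtS l) := by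
  induction r with
  | zero =>
    rw [τ.fil_zero ht, finrank_bot]
    symm
    apply Finset.sum_eq_zero
    intro l hl
    exact absurd (Finset.mem_filter.1 hl).2 (Nat.not_lt_zero _)
  | succ r ih =>
    by_cases h : ∃ l : Finset (Fin m), Tw.rk l = r
    · obtain ⟨l, rfl⟩ := h
      have hset : univ.filter (fun l' : Finset (Fin m) => Tw.rk l' < Tw.rk l + 1) =
          insert l (univ.filter (fun l' : Finset (Fin m) => Tw.rk l' < Tw.rk l)) := by
        ext l'
        simp only [Finset.mem_filter, Finset.mem_univ, true_and, Finset.mem_insert]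
        constructor
        · intro h'
          rcases Nat.lt_or_ge (Tw.rk l') (Tw.rk l) with h'' | h''
          · exact Or.inr h''
          · exact Or.inl (rk_injective (by omega))
        · rintro (rfl | h')
          · omega
          · omega
      rw [hset, Finset.sum_insert (by simp), τ.finrank_fil_succ hY μ l, ih]
    · push Not at h
      rw [τ.fil_succ_none Y μ h, ih]
      apply Finset.sum_congr _ (fun _ _ => rfl)
      ext l'
      simp only [Finset.mem_filter, Finset.mem_univ, true_and]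
      have := h l'
      omega

theorem wd_eq_sum [FiniteDimensional K V] {t : ℕ} {Y : Submodule K V} (hY : ρ.toGrading.Stable Y)
    (ht : Y ≤ τ.tot t) (μ : Wt m) :
    ρ.wd Y μ = ∑ l ∈ univ.filter (fun l : Finset (Fin m) => l.card = t),
      ρ.wd (τ.lead Y l) (μ - wtS l) := by
  set R : ℕ := univ.sup (fun l : Finset (Fin m) => Tw.rk l) + 1 with hR
  have hlt : ∀ l : Finset (Fin m), Tw.rk l < R := by
    intro l
    have : Tw.rk l ≤ univ.sup (fun l : Finset (Fin m) => Tw.rk l) :=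
      Finset.le_sup (f := fun l : Finset (Fin m) => Tw.rk l) (Finset.mem_univ l)
    omega
  have h1 := τ.finrank_fil hY ht μ R
  have h2 : τ.fil Y μ R = Y ⊓ ρ.toGrading.W μ := by
    apply le_antisymm
    · exact fun y hy => hy.1
    · intro y hy
      refine ⟨hy, fun l hl => ?_⟩
      have := hlt l
      omega
  have h3 : ρ.wd Y μ = finrank K (τ.fil Y μ R) := by
    rw [h2]
    unfold GLRep.wd
    rw [ρ.map_π_eq hY]
  rw [h3, h1]
  symm
  apply Finset.sum_subset
  · intro l _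
    rw [Finset.mem_filter]
    exact ⟨Finset.mem_univ _, hlt l⟩
  · intro l _ hl
    have hl' : l.card ≠ t := by
      intro h'
      exact hl (Finset.mem_filter.2 ⟨Finset.mem_univ _, h'⟩)
    have hbot : τ.lead Y l = ⊥ := by
      rw [eq_bot_iff]
      rintro z ⟨y, hy, rfl, _⟩
      rw [Submodule.mem_bot]
      exact τ.ext_eq_zero (ht hy) hl'
    rw [hbot]
    unfold GLRep.wd
    rw [Submodule.map_bot, finrank_bot]

private theorem ins_mem_tot {t : ℕ} {l : Finset (Fin m)} (hl : l.card = t) {z : V}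
    (hz : z ∈ τ.V') : τ.ins l z ∈ τ.tot t := by
  have : τ.ins l z = ∑ l' ∈ univ.filter (fun l : Finset (Fin m) => l.card = t),
      τ.ins l' (τ.ext l' (τ.ins l z)) := by
    rw [Finset.sum_eq_single l]
    · rw [τ.ext_ins l l z hz, if_pos rfl]
    · intro l' _ hl'
      rw [τ.ext_ins l' l z hz, if_neg hl', map_zero]
    · intro h
      exact absurd (by simp [hl]) h
  exact this

/-- `tot t` is stable under `f_c`; the twist of `Z ≤ V'` lies in `tot t` -/
theorem f_mem_tot {t : ℕ} (c : ℕ) {y : V} (hy : y ∈ τ.tot t) : ρ.f c y ∈ τ.tot t := by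
  by_cases hc : c + 1 < m
  · have hy' : y = ∑ l ∈ univ.filter (fun l : Finset (Fin m) => l.card = t),
        τ.ins l (τ.ext l y) := hy
    rw [hy', map_sum]
    apply Submodule.sum_mem
    intro l hl
    have hl' := (Finset.mem_filter.1 hl).2
    rw [τ.f_ins c hc l _ (τ.ext_mem l y)]
    apply Submodule.add_mem
    · split_ifs
      · exact τ.ins_mem_tot (by rw [card_swS, hl']) (τ.ext_mem l y)
      · exact Submodule.zero_mem _
    · apply τ.ins_mem_tot hl'
      unfold GLRep.f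
      rw [dif_pos hc]
      exact τ.stE _ _ _ (τ.ext_mem l y)
  · have : ρ.f c = 0 := by
      unfold GLRep.f
      rw [dif_neg hc]
    rw [this, LinearMap.zero_apply]
    exact Submodule.zero_mem _

private theorem card_ini {t : ℕ} (ht : t ≤ m) : (ini m t).card = t := by
  unfold ini
  have : (univ.filter (fun i : Fin m => i.val < t)) =
      (Finset.univ : Finset (Fin t)).map (Fin.castLEEmb ht) := by
    ext i
    simp only [Finset.mem_filter, Finset.mem_univ, true_and, Finset.mem_map, Fin.castLEEmb_apply]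
    constructor
    · intro h
      exact ⟨⟨i, h⟩, by ext; simp⟩
    · rintro ⟨j, rfl⟩
      simp
  rw [this, Finset.card_map, Finset.card_univ, Fintype.card_fin]

theorem twist_le_tot {t : ℕ} (ht : t ≤ m) {Z : Submodule K V} (hZ : Z ≤ τ.V') :
    τ.twist t Z ≤ τ.tot t := by
  rintro y ⟨z, hz, rfl⟩
  exact τ.ins_mem_tot (card_ini ht) (hZ hz)

theorem T_le_tot {t : ℕ} (c : ℕ) {Y : Submodule K V} (hY : Y ≤ τ.tot t) : ρ.T c Y ≤ τ.tot t :=
  ρ.T_le hY (fun _ hy => τ.f_mem_tot c hy)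

theorem twist_BSt {t : ℕ} {Z : Submodule K V} (hZ : ρ.BSt Z) (hV : Z ≤ τ.V') :
    ρ.BSt (τ.twist t Z) := by
  apply ρ.BSt_of_simple
  · rintro μ y ⟨z, hz, rfl⟩
    rw [τ.pr_ins _ _ z (hV hz)]
    exact ⟨_, hZ.st _ z hz, rfl⟩
  · rintro c y ⟨z, hz, rfl⟩
    by_cases hc : c + 1 < m
    · rw [τ.e_ins c hc _ z (hV hz), if_neg, zero_add]
      · exact ⟨_, hZ.e_mem c hz, rfl⟩
      · rintro ⟨h1, h2⟩
        apply h2
        unfold ini at h1 ⊢
        rw [Finset.mem_filter] at h1 ⊢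
        refine ⟨Finset.mem_univ _, ?_⟩
        have := h1.2
        simp only at this ⊢
        omega
    · have : ρ.e c = 0 := by
        unfold GLRep.e
        rw [dif_neg hc]
      rw [this, LinearMap.zero_apply]
      exact Submodule.zero_mem _

end Tw

end Gao
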