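import Mathlib
import Pool.Agent.Gao.GBasic

/-!
# Gao project, PART G, the operators `τ_c` (simple reflections)

MODULE GTau (about 200-250 lines).

For every simple root `c` there is an invertible operator `τ` which is a polynomial in `e_c, f_c`
(so it preserves every subspace stable under `e_c` and `f_c`), which conjugates `E i j` into a non-zero
multiple of `E (s i) (s j)` and the weight space of `μ` into the one of `s μ`.

PROOF.  `e := ρ.e c`, `f := ρ.f c` are nilpotent (they are homogeneous of degree `± α ≠ 0` and the grading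
has finite support: `f^k π_μ = π_{μ - kα} f^k` and for large `k` no `μ - kα`, `μ ∈ supp`, is in `supp`).
Put `τ = exp(f) exp(-e) exp(f)` (Mathlib: `IsNilpotent.exp`; the inverse is `exp(-f) exp(e) exp(-f)`), with
`exp(a)⁻¹ = exp(-a)` (`IsNilpotent.exp_mul_exp_neg_self`).  `exp(a)` is a finite sum of multiples of powers of
`a`, hence it preserves stable subspaces.
Conjugation: extend `E` linearly to matrices, `EE x = Σ x j i • E i j`; then `[EE x, EE y] = EE [x, y]` and for
a matrix `a` with `a * a = 0` one gets `exp(EE a) EE x = EE ((1+a) x (1-a)) exp(EE a)`.  So `τ` acts by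
conjugation with the signed permutation matrix `t = (1+f)(1-e)(1+f)`.
Weights: `v` has weight `μ` iff `E_ii v = μ_i v` for all `i` (if `E_ii v = μ_i v` for all `i`, expand `v = Σ π_ν v`
and compare: `(ν_i - μ_i) π_ν v = 0`, char 0).  So `τ V_μ ⊆ V_{sμ}`, i.e. `τ π_μ = π_{sμ} τ`.
-/

namespace Gao

open Finset Module

section General

variable {A : Type*} [Ring A]

/-- powers of `a` against `x`, when `[a, x] = y`, `[a, y] = 2 z`, `[a, z] = 0` -/
theorem pow_mul_conj {a x y z : A} (h1 : a * x = x * a + y) (h2 : a * y = y * a + (z + z))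
    (h3 : a * z = z * a) (n : ℕ) :
    a ^ n * x = x * a ^ n + ((n : ℕ) : A) * (y * a ^ (n - 1)) +
      ((n * (n - 1) : ℕ) : A) * (z * a ^ (n - 2)) := by
    induction n with
    | zero => simp
    | succ n ih =>
      rw [pow_succ' a n, mul_assoc, ih]
      rcases n with _ | n
      · simp [h1]
      · rcases n with _ | n
        · simp only [zero_add, pow_one, Nat.add_sub_cancel, pow_zero, mul_one, Nat.cast_one,
            one_mul, Nat.sub_self, Nat.cast_zero, zero_mul, add_zero, mul_zero]
          norm_num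
          rw [mul_add, ← mul_assoc, h1, h2, add_mul, mul_assoc]
          noncomm_ring
        · have e1 : n + 1 + 1 + 1 - 1 = n + 1 + 1 := rfl
          have e2 : n + 1 + 1 - 1 = n + 1 := rfl
          have e3 : n + 1 + 1 + 1 - 2 = n + 1 := rfl
          have e4 : n + 1 + 1 - 2 = n := rfl
          rw [e1, e2, e3, e4]
          have c1 : ∀ (r : ℕ) (u : A), a * ((r : A) * u) = (r : A) * (a * u) := by
            intro r u
            rw [← mul_assoc, (Nat.cast_commute r a).symm.eq, mul_assoc]
          rw [mul_add, mul_add, c1, c1, ← mul_assoc a x, h1, ← mul_assoc a y, h2, ← mul_assoc a z,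
            h3]
          simp only [add_mul, mul_assoc, mul_add]
          rw [← pow_succ' a (n + 1 + 1), ← pow_succ' a (n + 1), ← pow_succ' a n]
          push_cast
          noncomm_ring

variable [Module ℚ A]

open scoped Nat in
/-- conjugation by the exponential of a nilpotent element -/
theorem exp_mul_conj {a x y z : A} (ha : IsNilpotent a) (h1 : a * x = x * a + y)
    (h2 : a * y = y * a + (z + z)) (h3 : a * z = z * a) :
    IsNilpotent.exp a * x = (x + y + z) * IsNilpotent.exp a := by
  obtain ⟨n, hn⟩ := ha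
  have hn1 : a ^ (n + 1) = 0 := by rw [pow_succ, hn, zero_mul]
  have hn2 : a ^ (n + 2) = 0 := by rw [pow_succ, hn1, zero_mul]
  have q1 : ∀ i : ℕ, ((i + 1) ! : ℚ)⁻¹ * ((i + 1 : ℕ) : ℚ) = (i ! : ℚ)⁻¹ := by
    intro i
    rw [Nat.factorial_succ]
    have h1 : ((i + 1 : ℕ) : ℚ) ≠ 0 := by positivity
    have h2 : (i ! : ℚ) ≠ 0 := by positivity
    push_cast
    push_cast at h1
    field_simp
  have c1 : ∀ (q : ℚ) (r : ℕ) (u : A), q • ((r : A) * u) = (q * (r : ℚ)) • u := by
    intro q r u
    rw [mul_smul, Nat.cast_smul_eq_nsmul, nsmul_eq_mul]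
  have s2 : ∑ i ∈ range (n + 2), (i ! : ℚ)⁻¹ • (((i : ℕ) : A) * (y * a ^ (i - 1))) =
      y * IsNilpotent.exp a := by
    rw [sum_range_succ', IsNilpotent.exp_eq_sum hn1, mul_sum]
    simp only [Nat.cast_zero, zero_mul, smul_zero, add_zero, Nat.add_sub_cancel]
    refine sum_congr rfl fun i _ => ?_
    rw [c1, q1, mul_smul_comm]
  have s3 : ∑ i ∈ range (n + 2), (i ! : ℚ)⁻¹ • (((i * (i - 1) : ℕ) : A) * (z * a ^ (i - 2))) =
      z * IsNilpotent.exp a := by
    rw [sum_range_succ', sum_range_succ', IsNilpotent.exp_eq_sum hn, mul_sum]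
    simp only [zero_add, Nat.sub_self, mul_zero, Nat.cast_zero, zero_mul, smul_zero, add_zero,
      Nat.add_sub_cancel]
    refine sum_congr rfl fun i _ => ?_
    have e2 : i + 1 + 1 - 2 = i := rfl
    rw [c1, e2, mul_smul_comm]
    congr 1
    rw [← q1 i, ← q1 (i + 1)]
    push_cast
    ring
  rw [add_mul, add_mul, ← s2, ← s3, IsNilpotent.exp_eq_sum hn2, sum_mul, mul_sum,
    ← sum_add_distrib, ← sum_add_distrib]
  refine sum_congr rfl fun i _ => ?_
  rw [smul_mul_assoc, pow_mul_conj h1 h2 h3 i, smul_add, smul_add, mul_smul_comm]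

end General

section Nilp

variable {K V : Type*} [Field K] [AddCommGroup V] [Module K V] {m : ℕ}

/-- a homogeneous operator of non-zero degree is nilpotent -/
theorem isNilpotent_of_hom {G : Grading K V (Wt m)} {x : Module.End K V} {α : Wt m}
    (h : Hom G x α) (hα : α ≠ 0) : IsNilpotent x := by
  have hk : ∀ k : ℕ, ∀ a, x ^ k * G.π a = G.π (a + k • α) * x ^ k := by
    intro k
    induction k with
    | zero => intro a; simp
    | succ k ih =>
      intro a
      rw [pow_succ, mul_assoc, h a, ← mul_assoc, ih, mul_assoc]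
      congr 2
      rw [succ_nsmul]
      abel
  have hfin : (⋃ p ∈ G.supp ×ˢ G.supp, {k : ℕ | p.1 + k • α = p.2}).Finite := by
    refine Set.Finite.biUnion (Finset.finite_toSet _) fun p _ => ?_
    refine Set.Subsingleton.finite ?_
    intro k hk1 l hl1
    simp only [Set.mem_ofPred_eq] at hk1 hl1
    have h1 : k • α = l • α := by
      have := hk1.trans hl1.symm
      exact add_left_cancel this
    obtain ⟨i, hi⟩ := Function.ne_iff.mp hα
    have h2 := congrFun h1 i
    simp only [Pi.smul_apply, nsmul_eq_mul] at h2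
    have h3 := mul_right_cancel₀ hi h2
    exact_mod_cast h3
  obtain ⟨N, hN⟩ := hfin.exists_notMem
  refine ⟨N, ?_⟩
  have h1 : x ^ N * ∑ a ∈ G.supp, G.π a = 0 := by
    rw [mul_sum]
    refine sum_eq_zero fun a ha => ?_
    rw [hk]
    have : a + N • α ∉ G.supp := by
      intro hb
      apply hN
      simp only [Set.mem_iUnion]
      exact ⟨(a, a + N • α), mem_product.mpr ⟨ha, hb⟩, rfl⟩
    rw [G.zero _ this, zero_mul]
  rwa [G.sum, mul_one] at h1

end Nilp

section Mat

variable {K V : Type*} [Field K] [AddCommGroup V] [Module K V] {m : ℕ} (ρ : GLRep K V m)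

/-- the linear extension of `E` to matrices (`E i j` is the image of the matrix unit `j i`) -/
noncomputable def EE : Matrix (Fin m) (Fin m) K →ₗ[K] Module.End K V where
  toFun x := ∑ i, ∑ j, x j i • ρ.E i j
  map_add' x y := by simp [add_smul, sum_add_distrib]
  map_smul' r x := by simp [mul_smul, smul_sum]

theorem EE_single (i j : Fin m) (r : K) : EE ρ (Matrix.single j i r) = r • ρ.E i j := by
  simp only [EE, LinearMap.coe_mk, AddHom.coe_mk]
  rw [Finset.sum_eq_single i, Finset.sum_eq_single j]
  · simp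
  · intro b _ hb
    rw [Matrix.single_apply, if_neg, zero_smul]
    rintro ⟨h, -⟩
    exact hb h.symm
  · simp
  · intro b _ hb
    refine sum_eq_zero fun c _ => ?_
    rw [Matrix.single_apply, if_neg, zero_smul]
    rintro ⟨-, h⟩
    exact hb h.symm
  · simp

theorem EE_comm_single (i j k l : Fin m) :
    EE ρ (Matrix.single j i 1) * EE ρ (Matrix.single l k 1) -
      EE ρ (Matrix.single l k 1) * EE ρ (Matrix.single j i 1) =
    EE ρ (Matrix.single j i 1 * Matrix.single l k 1 - Matrix.single l k 1 * Matrix.single j i 1) := by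
  rw [EE_single, EE_single, one_smul, one_smul, ρ.comm, map_sub]
  congr 1
  · by_cases h : l = i
    · subst h
      rw [if_pos rfl, Matrix.single_mul_single_same, EE_single, mul_one, one_smul]
    · rw [if_neg h, Matrix.single_mul_single_of_ne _ _ _ _ (Ne.symm h), map_zero]
  · by_cases h : j = k
    · subst h
      rw [if_pos rfl, Matrix.single_mul_single_same, EE_single, mul_one, one_smul]
    · rw [if_neg h, Matrix.single_mul_single_of_ne _ _ _ _ (Ne.symm h), map_zero]

theorem EE_comm (x y : Matrix (Fin m) (Fin m) K) :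
    EE ρ x * EE ρ y - EE ρ y * EE ρ x = EE ρ (x * y - y * x) := by
  induction x using Matrix.induction_on' with
  | h_zero => simp
  | h_add p q hp hq =>
    simp only [map_add, add_mul, mul_add, map_sub] at hp hq ⊢
    rw [← sub_eq_zero] at hp hq ⊢
    rw [← add_zero (0 : Module.End K V)]
    nth_rw 1 [← hp]
    rw [← hq]
    abel
  | h_std_basis j i r =>
    induction y using Matrix.induction_on' with
    | h_zero => simp
    | h_add p q hp hq =>
      simp only [map_add, add_mul, mul_add, map_sub] at hp hq ⊢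
      rw [← sub_eq_zero] at hp hq ⊢
      rw [← add_zero (0 : Module.End K V)]
      nth_rw 1 [← hp]
      rw [← hq]
      abel
    | h_std_basis l k s =>
      have h1 : Matrix.single j i r = r • Matrix.single j i (1 : K) := by
        rw [Matrix.smul_single, smul_eq_mul, mul_one]
      have h2 : Matrix.single l k s = s • Matrix.single l k (1 : K) := by
        rw [Matrix.smul_single, smul_eq_mul, mul_one]
      have h3 := EE_comm_single ρ i j k l
      rw [h1, h2]
      simp only [map_smul, smul_mul_assoc, mul_smul_comm]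
      rw [smul_comm r s (EE ρ (Matrix.single l k 1) * EE ρ (Matrix.single j i 1)), ← smul_sub,
        ← smul_sub, h3, smul_comm r s (Matrix.single l k (1 : K) * Matrix.single j i 1),
        ← smul_sub, ← smul_sub, map_smul, map_smul]

/-- conjugation by `exp (EE a)`, `a * a = 0` -/
theorem exp_EE [Module ℚ V] {a : Matrix (Fin m) (Fin m) K} (ha : a * a = 0)
    (hn : IsNilpotent (EE ρ a)) (x : Matrix (Fin m) (Fin m) K) :
    IsNilpotent.exp (EE ρ a) * EE ρ x =
      EE ρ ((1 + a) * x * (1 - a)) * IsNilpotent.exp (EE ρ a) := by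
  have h1 : EE ρ a * EE ρ x = EE ρ x * EE ρ a + EE ρ (a * x - x * a) := by
    rw [← EE_comm]; abel
  have h2 : EE ρ a * EE ρ (a * x - x * a) = EE ρ (a * x - x * a) * EE ρ a +
      (EE ρ (-(a * x * a)) + EE ρ (-(a * x * a))) := by
    have := EE_comm ρ a (a * x - x * a)
    rw [sub_eq_iff_eq_add] at this
    rw [this, add_comm, ← map_add]
    congr 2
    rw [mul_sub, sub_mul, ← mul_assoc, ha, zero_mul, mul_assoc x a a, ha, mul_zero, ← mul_assoc]
    abel
  have h3 : EE ρ a * EE ρ (-(a * x * a)) = EE ρ (-(a * x * a)) * EE ρ a := by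
    have := EE_comm ρ a (-(a * x * a))
    rw [sub_eq_iff_eq_add] at this
    rw [this, mul_neg, neg_mul, ← mul_assoc a (a * x) a, ← mul_assoc a a x, ha, zero_mul, zero_mul,
      mul_assoc (a * x) a a, ha, mul_zero, neg_zero, sub_zero, map_zero, zero_add]
  rw [exp_mul_conj hn h1 h2 h3, ← map_add, ← map_add]
  congr 2
  rw [add_mul, one_mul, mul_sub, mul_one, add_mul]
  abel

/-- the sign -/
def sg (K : Type*) [Field K] (q k : Fin m) : K := if k = q then -1 else 1

theorem sg_mul_self (q k : Fin m) : sg K q k * sg K q k = 1 := by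
  unfold sg; split_ifs <;> simp

theorem sg_ne (q k : Fin m) : sg K q k ≠ 0 := by
  unfold sg; split_ifs <;> simp

theorem left_conj {p q : Fin m} (hpq : p ≠ q) (j i : Fin m) :
    (1 + Matrix.single q p (1 : K)) * ((1 - Matrix.single p q (1 : K)) *
      ((1 + Matrix.single q p (1 : K)) * Matrix.single j i (1 : K))) =
    sg K q j • Matrix.single (Equiv.swap p q j) i (1 : K) := by
  by_cases h1 : j = p
  · subst h1
    rw [Equiv.swap_apply_left, sg, if_neg hpq, one_smul]
    have a1 : Matrix.single q j (1 : K) * Matrix.single j i (1 : K) = Matrix.single q i 1 := by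
      rw [Matrix.single_mul_single_same, mul_one]
    have a2 : Matrix.single j q (1 : K) * Matrix.single q i (1 : K) = Matrix.single j i 1 := by
      rw [Matrix.single_mul_single_same, mul_one]
    have a3 : Matrix.single j q (1 : K) * Matrix.single j i (1 : K) = 0 :=
      Matrix.single_mul_single_of_ne _ _ _ _ (Ne.symm hpq) _
    have a4 : Matrix.single q j (1 : K) * Matrix.single q i (1 : K) = 0 :=
      Matrix.single_mul_single_of_ne _ _ _ _ hpq _
    simp only [add_mul, sub_mul, one_mul, mul_add, mul_sub, a1, a2, a3, a4, mul_zero]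
    abel
  · by_cases h2 : j = q
    · subst h2
      rw [Equiv.swap_apply_right, sg, if_pos rfl]
      have a1 : Matrix.single j p (1 : K) * Matrix.single j i (1 : K) = 0 :=
        Matrix.single_mul_single_of_ne _ _ _ _ hpq _
      have a2 : Matrix.single p j (1 : K) * Matrix.single j i (1 : K) = Matrix.single p i 1 := by
        rw [Matrix.single_mul_single_same, mul_one]
      have a3 : Matrix.single j p (1 : K) * Matrix.single p i (1 : K) = Matrix.single j i 1 := by
        rw [Matrix.single_mul_single_same, mul_one]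
      simp only [add_mul, sub_mul, one_mul, mul_sub, a1, a2, a3, add_zero,
        neg_smul, one_smul]
      abel
    · rw [Equiv.swap_apply_of_ne_of_ne h1 h2, sg, if_neg h2, one_smul]
      have a1 : Matrix.single q p (1 : K) * Matrix.single j i (1 : K) = 0 :=
        Matrix.single_mul_single_of_ne _ _ _ _ (Ne.symm h1) _
      have a2 : Matrix.single p q (1 : K) * Matrix.single j i (1 : K) = 0 :=
        Matrix.single_mul_single_of_ne _ _ _ _ (Ne.symm h2) _
      simp only [add_mul, sub_mul, one_mul, a1, a2, add_zero, sub_zero]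

theorem right_conj {p q : Fin m} (hpq : p ≠ q) (j i : Fin m) :
    ((Matrix.single j i (1 : K) * (1 - Matrix.single q p (1 : K))) *
      (1 + Matrix.single p q (1 : K))) * (1 - Matrix.single q p (1 : K)) =
    sg K q i • Matrix.single j (Equiv.swap p q i) (1 : K) := by
  by_cases h1 : i = p
  · subst h1
    rw [Equiv.swap_apply_left, sg, if_neg hpq, one_smul]
    have a1 : Matrix.single j i (1 : K) * Matrix.single q i (1 : K) = 0 :=
      Matrix.single_mul_single_of_ne _ _ _ _ hpq _
    have a2 : Matrix.single j i (1 : K) * Matrix.single i q (1 : K) = Matrix.single j q 1 := by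
      rw [Matrix.single_mul_single_same, mul_one]
    have a3 : Matrix.single j q (1 : K) * Matrix.single q i (1 : K) = Matrix.single j i 1 := by
      rw [Matrix.single_mul_single_same, mul_one]
    simp only [mul_one, mul_add, mul_sub, a1, a2, a3, add_mul, sub_zero]
    abel
  · by_cases h2 : i = q
    · subst h2
      rw [Equiv.swap_apply_right, sg, if_pos rfl]
      have a1 : Matrix.single j i (1 : K) * Matrix.single i p (1 : K) = Matrix.single j p 1 := by
        rw [Matrix.single_mul_single_same, mul_one]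
      have a2 : Matrix.single j i (1 : K) * Matrix.single p i (1 : K) = 0 :=
        Matrix.single_mul_single_of_ne _ _ _ _ (Ne.symm hpq) _
      have a3 : Matrix.single j p (1 : K) * Matrix.single p i (1 : K) = Matrix.single j i 1 := by
        rw [Matrix.single_mul_single_same, mul_one]
      have a4 : Matrix.single j p (1 : K) * Matrix.single i p (1 : K) = 0 :=
        Matrix.single_mul_single_of_ne _ _ _ _ hpq _
      simp only [add_mul, sub_mul, mul_one, mul_add, mul_sub, a1, a2, a3, a4,
        neg_smul, one_smul, zero_mul]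
      abel
    · rw [Equiv.swap_apply_of_ne_of_ne h1 h2, sg, if_neg h2, one_smul]
      have a1 : Matrix.single j i (1 : K) * Matrix.single q p (1 : K) = 0 :=
        Matrix.single_mul_single_of_ne _ _ _ _ h2 _
      have a2 : Matrix.single j i (1 : K) * Matrix.single p q (1 : K) = 0 :=
        Matrix.single_mul_single_of_ne _ _ _ _ h1 _
      simp only [mul_one, mul_add, mul_sub, a1, a2, add_zero, sub_zero]

theorem conj_single {p q : Fin m} (hpq : p ≠ q) (j i : Fin m) :
    (1 + Matrix.single q p (1 : K)) * ((1 - Matrix.single p q (1 : K)) *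
      ((1 + Matrix.single q p (1 : K)) * Matrix.single j i (1 : K) *
        (1 - Matrix.single q p (1 : K))) * (1 + Matrix.single p q (1 : K))) *
        (1 - Matrix.single q p (1 : K)) =
    (sg K q i * sg K q j) •
      Matrix.single (Equiv.swap p q j) (Equiv.swap p q i) (1 : K) := by
  have h1 := left_conj (K := K) hpq j i
  have h2 := right_conj (K := K) hpq (Equiv.swap p q j) i
  rw [mul_smul, smul_comm, ← h2]
  simp only [← mul_assoc] at h1 ⊢
  rw [h1]
  simp only [smul_mul_assoc]

end Mat

section Weight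

variable {K V : Type*} [Field K] [CharZero K] [AddCommGroup V] [Module K V] {m : ℕ}
  (ρ : GLRep K V m)

omit [CharZero K] in
theorem E_diag_comm (i : Fin m) (μ : Wt m) : ρ.E i i * ρ.π μ = ρ.π μ * ρ.E i i := by
  have := ρ.hom i i μ
  rwa [sub_self, add_zero] at this

/-- weight vectors are recognised by the diagonal operators -/
theorem mem_W_of_diag {v : V} {μ : Wt m} (h : ∀ i, ρ.E i i v = ((μ i : ℤ) : K) • v) :
    ρ.π μ v = v := by
  have h1 : ∀ ν, ν ≠ μ → ρ.π ν v = 0 := by
    intro ν hν
    obtain ⟨i, hi⟩ := Function.ne_iff.mp hν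
    have h2 : ρ.E i i (ρ.π ν v) = ((ν i : ℤ) : K) • ρ.π ν v := by
      have := congrArg (fun g : Module.End K V => g v) (ρ.diag i ν)
      simpa using this
    have h3 : ρ.E i i (ρ.π ν v) = ρ.π ν (ρ.E i i v) := by
      have := congrArg (fun g : Module.End K V => g v) (E_diag_comm ρ i ν)
      simpa using this
    rw [h2, h i, map_smul, ← sub_eq_zero, ← sub_smul] at h3
    rcases smul_eq_zero.mp h3 with h4 | h4
    · exfalso
      apply hi
      rw [sub_eq_zero] at h4
      exact_mod_cast h4
    · exact h4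
  by_cases hs : μ ∈ ρ.supp
  · conv_rhs => rw [← ρ.toGrading.sum_apply v]
    rw [Finset.sum_eq_single_of_mem μ hs (fun ν _ hν => h1 ν hν)]
  · rw [ρ.zero μ hs]
    have : v = 0 := by
      rw [← ρ.toGrading.sum_apply v]
      refine sum_eq_zero fun ν hν => h1 ν ?_
      rintro rfl
      exact hs hν
    rw [this, map_zero]

end Weight

section Main

variable {K V : Type*} [Field K] [CharZero K] [AddCommGroup V] [Module K V] {m : ℕ}

theorem exp_mem [Module ℚ V] {a : Module.End K V} (ha : IsNilpotent a) {Y : Submodule K V}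
    (hY : ∀ y ∈ Y, a y ∈ Y) : ∀ y ∈ Y, IsNilpotent.exp a y ∈ Y := by
  intro y hy
  have hp : ∀ n : ℕ, (a ^ n) y ∈ Y := by
    intro n
    induction n with
    | zero => simpa using hy
    | succ n ih =>
      rw [pow_succ', Module.End.mul_apply]
      exact hY _ ih
  obtain ⟨n, hn⟩ := ha
  rw [IsNilpotent.exp_eq_sum hn, LinearMap.sum_apply]
  refine Submodule.sum_mem _ fun i _ => ?_
  rw [LinearMap.smul_apply, ← Rat.cast_smul_eq_qsmul K]
  exact Submodule.smul_mem _ _ (hp i)

theorem exists_tau_aux [Module ℚ V] (ρ : GLRep K V m) (c : ℕ) (h : c + 1 < m) :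
    ∃ τ τ' : Module.End K V, τ * τ' = 1 ∧ τ' * τ = 1 ∧
      (∀ Y : Submodule K V, (∀ y ∈ Y, ρ.e c y ∈ Y) → (∀ y ∈ Y, ρ.f c y ∈ Y) →
        (∀ y ∈ Y, τ y ∈ Y) ∧ (∀ y ∈ Y, τ' y ∈ Y)) ∧
      (∀ i j, τ * ρ.E i j = (sg K (hi c h) i * sg K (hi c h) j) •
        (ρ.E (Equiv.swap (lo c h) (hi c h) i) (Equiv.swap (lo c h) (hi c h) j) * τ)) := by
  have hpq : lo c h ≠ hi c h := by
    intro h'
    have := congrArg Fin.val h'
    simp at this
  set p := lo c h with hp
  set q := hi c h with hq
  have hne : ∀ i j : Fin m, i ≠ j → (Pi.single j 1 - Pi.single i 1 : Wt m) ≠ 0 := by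
    intro i j hij h'
    have := congrFun h' j
    simp [Ne.symm hij] at this
  have he : ρ.e c = EE ρ (Matrix.single p q 1) := by
    rw [EE_single, one_smul, GLRep.e, dif_pos h]
  have hf : ρ.f c = EE ρ (Matrix.single q p 1) := by
    rw [EE_single, one_smul, GLRep.f, dif_pos h]
  have hen : IsNilpotent (ρ.e c) := by
    rw [he, EE_single, one_smul]
    exact isNilpotent_of_hom (ρ.hom q p) (hne q p (Ne.symm hpq))
  have hfn : IsNilpotent (ρ.f c) := by
    rw [hf, EE_single, one_smul]
    exact isNilpotent_of_hom (ρ.hom p q) (hne p q hpq)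
  refine ⟨IsNilpotent.exp (ρ.f c) * (IsNilpotent.exp (-ρ.e c) * IsNilpotent.exp (ρ.f c)),
    IsNilpotent.exp (-ρ.f c) * (IsNilpotent.exp (ρ.e c) * IsNilpotent.exp (-ρ.f c)), ?_, ?_, ?_, ?_⟩
  · have h1 := IsNilpotent.exp_mul_exp_neg_self hfn
    have h2 := IsNilpotent.exp_neg_mul_exp_self hen
    calc _ = IsNilpotent.exp (ρ.f c) * (IsNilpotent.exp (-ρ.e c) *
          (IsNilpotent.exp (ρ.f c) * IsNilpotent.exp (-ρ.f c)) * IsNilpotent.exp (ρ.e c)) *
          IsNilpotent.exp (-ρ.f c) := by simp only [mul_assoc]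
      _ = 1 := by rw [h1, mul_one, h2, mul_one, h1]
  · have h1 := IsNilpotent.exp_neg_mul_exp_self hfn
    have h2 := IsNilpotent.exp_mul_exp_neg_self hen
    calc _ = IsNilpotent.exp (-ρ.f c) * (IsNilpotent.exp (ρ.e c) *
          (IsNilpotent.exp (-ρ.f c) * IsNilpotent.exp (ρ.f c)) * IsNilpotent.exp (-ρ.e c)) *
          IsNilpotent.exp (ρ.f c) := by simp only [mul_assoc]
      _ = 1 := by rw [h1, mul_one, h2, mul_one, h1]
  · intro Y hY1 hY2
    have a1 := exp_mem hfn hY2
    have a2 := exp_mem hen hY1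
    have a3 : ∀ y ∈ Y, IsNilpotent.exp (-ρ.f c) y ∈ Y :=
      exp_mem hfn.neg (fun y hy => by
        rw [LinearMap.neg_apply]; exact Submodule.neg_mem _ (hY2 y hy))
    have a4 : ∀ y ∈ Y, IsNilpotent.exp (-ρ.e c) y ∈ Y :=
      exp_mem hen.neg (fun y hy => by
        rw [LinearMap.neg_apply]; exact Submodule.neg_mem _ (hY1 y hy))
    exact ⟨fun y hy => a1 _ (a4 _ (a1 _ hy)), fun y hy => a3 _ (a2 _ (a3 _ hy))⟩
  · intro i j
    have z1 : Matrix.single q p (1 : K) * Matrix.single q p (1 : K) = 0 :=
      Matrix.single_mul_single_of_ne _ _ _ _ hpq _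
    have z2 : (-Matrix.single p q (1 : K)) * (-Matrix.single p q (1 : K)) = 0 := by
      rw [neg_mul_neg]
      exact Matrix.single_mul_single_of_ne _ _ _ _ (Ne.symm hpq) _
    have en : -ρ.e c = EE ρ (-Matrix.single p q (1 : K)) := by rw [map_neg, he]
    have b1 := fun x => exp_EE ρ z1 (by rw [← hf]; exact hfn) x
    have b2 := fun x => exp_EE ρ z2 (by rw [← en]; exact hen.neg) x
    have b3 := conj_single (K := K) hpq j i
    have hE : ρ.E i j = EE ρ (Matrix.single j i 1) := by rw [EE_single, one_smul]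
    rw [en, hf, hE]
    set F := IsNilpotent.exp (EE ρ (Matrix.single q p 1)) with hF
    set G := IsNilpotent.exp (EE ρ (-Matrix.single p q (1 : K))) with hG
    calc F * (G * F) * EE ρ (Matrix.single j i 1)
        = F * (G * (F * EE ρ (Matrix.single j i 1))) := by simp only [mul_assoc]
      _ = F * ((G * EE ρ ((1 + Matrix.single q p 1) * Matrix.single j i 1 *
            (1 - Matrix.single q p 1))) * F) := by rw [b1]; simp only [mul_assoc]
      _ = (F * EE ρ ((1 + -Matrix.single p q (1 : K)) * ((1 + Matrix.single q p 1) *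
            Matrix.single j i 1 * (1 - Matrix.single q p 1)) *
            (1 - -Matrix.single p q (1 : K)))) * (G * F) := by rw [b2]; simp only [mul_assoc]
      _ = EE ρ ((1 + Matrix.single q p 1) * ((1 + -Matrix.single p q (1 : K)) *
            ((1 + Matrix.single q p 1) * Matrix.single j i 1 * (1 - Matrix.single q p 1)) *
            (1 - -Matrix.single p q (1 : K))) * (1 - Matrix.single q p 1)) * (F * (G * F)) := by
          rw [b1]; simp only [mul_assoc]
      _ = _ := by
          rw [← sub_eq_add_neg, sub_neg_eq_add, b3, map_smul, EE_single, one_smul,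
            smul_mul_assoc]

theorem exists_tau (ρ : GLRep K V m) (c : ℕ) (h : c + 1 < m) :
    ∃ τ τ' : Module.End K V, τ * τ' = 1 ∧ τ' * τ = 1 ∧
      (∀ Y : Submodule K V, (∀ y ∈ Y, ρ.e c y ∈ Y) → (∀ y ∈ Y, ρ.f c y ∈ Y) →
        (∀ y ∈ Y, τ y ∈ Y) ∧ (∀ y ∈ Y, τ' y ∈ Y)) ∧
      (∀ i j, ∃ ε : K, ε ≠ 0 ∧ τ * ρ.E i j =
        ε • (ρ.E (Equiv.swap (lo c h) (hi c h) i) (Equiv.swap (lo c h) (hi c h) j) * τ)) ∧
      (∀ μ, τ * ρ.π μ = ρ.π (sWt c h μ) * τ) := by
  let _ : Module ℚ V := Module.compHom V (algebraMap ℚ K)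
  obtain ⟨τ, τ', h1, h2, h3, h4⟩ := exists_tau_aux ρ c h
  refine ⟨τ, τ', h1, h2, h3, fun i j => ⟨_, mul_ne_zero (sg_ne _ i) (sg_ne _ j), h4 i j⟩, ?_⟩
  have h5 : ∀ μ, ∀ x ∈ ρ.toGrading.W μ, ρ.π (sWt c h μ) (τ x) = τ x := by
    intro μ x hx
    refine mem_W_of_diag ρ fun i => ?_
    have h6 := h4 (Equiv.swap (lo c h) (hi c h) i) (Equiv.swap (lo c h) (hi c h) i)
    rw [sg_mul_self, one_smul, Equiv.swap_apply_self] at h6
    have h7 := congrArg (fun g : Module.End K V => g x) h6
    simp only [Module.End.mul_apply] at h7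
    rw [← h7]
    have h8 := congrArg (fun g : Module.End K V => g x)
      (ρ.diag (Equiv.swap (lo c h) (hi c h) i) μ)
    simp only [Module.End.mul_apply, LinearMap.smul_apply] at h8
    rw [ρ.toGrading.π_of_mem hx] at h8
    rw [h8, map_smul]
    rfl
  intro μ
  apply ρ.toGrading.ext_end
  intro ν x hx
  rw [Module.End.mul_apply, Module.End.mul_apply]
  by_cases hμ : μ = ν
  · subst hμ
    rw [ρ.toGrading.π_of_mem hx, h5 μ x hx]
  · rw [ρ.toGrading.π_of_mem_ne hx hμ, map_zero]
    symm
    refine ρ.toGrading.π_of_mem_ne (a := sWt c h ν) ?_ ?_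
    · rw [ρ.toGrading.mem_W]
      exact h5 ν x hx
    · intro h'
      apply hμ
      have := congrArg (sWt c h) h'
      simp only [sWt, Function.comp_assoc] at this
      funext i
      have := congrFun this i
      simpa using this

end Main

end Gao
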