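import Mathlib
import Pool.Agent.Gao.GTau

/-!
# Gao project, PART G, words: `T c` acts trivially at a descent

MODULE GTyp (about 200 lines), uses GBasic and GTau (`exists_tau`).

DEFINITION (auxiliary).  For a permutation `κ` of `Fin m` and a subspace `Y` say `Typ κ Y` if there is a graded
subspace `L` such that (i) `E (κ j) (κ i) L ⊆ L` for all `i < j`, (ii) `L ≤ Y`, `Y` is `BSt`, and `Y` is the smallest
`BSt` subspace containing `L` (every `BSt` `Y'` with `L ≤ Y'` contains `Y`).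
(1) `Typ 1 Z` for `BSt Z` (`L = Z`).
(2) If `Typ κ Y` and `c` is a descent of `κ` (`κ⁻¹(hi) < κ⁻¹(lo)`), then `f_c Y ⊆ Y`: with `i = κ⁻¹(hi) < j = κ⁻¹(lo)`,
    `E (κ j) (κ i) = E lo hi = f_c` maps `L` to `L`.  Let `Y' = {y ∈ Y | f_c y ∈ Y}`... more precisely the
    smallest `BSt` space `bsp L` containing `L` is `f_c`-stable: the subspace `Y' = {y ∈ Y : f_c^k y ∈ Y for all k}`
    contains `L`, is graded, and is stable under `e_d`: `f_c^k e_d y = e_d f_c^k y` (d ≠ c), and for `d = c`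
    `f^k e y = e f^k y - Σ (scalars) f^{k-1} (components of y)`, which is in `Y` since `Y` is graded and `e`-stable.
    (Convenient: show `Y'' = {y : ∀ k, f_c^k y ∈ Y}` is BSt by `BSt_of_simple`.)  So `Y ≤ Y'`.
(3) If `Typ κ Y` and `c` is an ascent of `κ`, then `Typ (s_c κ) (T c Y)`: take `L₁ = τ L` (`τ` from `exists_tau`).
    (i) `E (s κ j) (s κ i) τ = ε τ E (κ j) (κ i)` up to a non-zero scalar, so `L₁` is stable; it is graded.
    (ii) `T c Y` is `BSt`, stable under `e_c, f_c`, so `τ L ≤ τ (T c Y) ≤ T c Y`.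
    (iii) let `Y'` be `BSt` with `τ L ≤ Y'`; replace `Y'` by the intersection `bsp (τ L)` of all BSt spaces containing `τ L`
    (it is BSt and of type `s_c κ`, and `c` is a descent of `s_c κ`, so by (2) it is `f_c`-stable, hence `τ'`-stable);
    so `L = τ' (τ L) ≤ bsp(τ L)`, hence `Y ≤ bsp (τ L)` and `T c Y ≤ bsp(τ L) ≤ Y'` by `T_le`.
(4) So for reduced `cs`: `Typ (prodW m cs) (Hw cs Z)`, and (2) gives `T_eq_self_of_desc`.
(5) `exists_red`: induction on `cs`: for `c :: cs` take the reduced word `cs'` of `cs`; if `c + 1 < m` and `Asc`, take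
    `c :: cs'`; if `c + 1 < m` and not `Asc` then (as `κ⁻¹ lo ≠ κ⁻¹ hi`) `c` is a descent and `T c` acts trivially;
    if not `c + 1 < m` then `ρ.f c = 0` and `T c Z = Z`.  The word `cs'` does not depend on `ρ, Z`: it is
    `norm m (c :: cs) = if h : c + 1 < m ∧ Asc .. then c :: norm m cs else norm m cs`.
-/

namespace Gao

open Finset Module

/-- the reduced word obtained by dropping the letters that do not increase the permutation -/
noncomputable def norm (m : ℕ) : List ℕ → List ℕ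
  | [] => []
  | c :: cs => by
      classical
      exact if h : c + 1 < m then (if Asc c h (prodW m (norm m cs)) then c :: norm m cs else norm m cs)
        else norm m cs

theorem norm_nil (m : ℕ) : norm m [] = [] := rfl

theorem norm_asc {m c : ℕ} (h : c + 1 < m) {cs : List ℕ} (ha : Asc c h (prodW m (norm m cs))) :
    norm m (c :: cs) = c :: norm m cs := by
  simp only [norm, dif_pos h, if_pos ha]

theorem norm_desc {m c : ℕ} (h : c + 1 < m) {cs : List ℕ} (ha : ¬ Asc c h (prodW m (norm m cs))) :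
    norm m (c :: cs) = norm m cs := by
  simp only [norm, dif_pos h, if_neg ha]

theorem norm_out {m c : ℕ} (h : ¬ c + 1 < m) {cs : List ℕ} :
    norm m (c :: cs) = norm m cs := by
  simp only [norm, dif_neg h]

theorem red_norm (m : ℕ) (cs : List ℕ) : Red m (norm m cs) := by
  induction cs with
  | nil => exact Red.nil
  | cons c cs ih =>
    by_cases h : c + 1 < m
    · by_cases ha : Asc c h (prodW m (norm m cs))
      · rw [norm_asc h ha]
        exact Red.cons c h _ ih ha
      · rw [norm_desc h ha]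
        exact ih
    · rw [norm_out h]
      exact ih

variable {K V : Type*} [Field K] [AddCommGroup V] [Module K V] {m : ℕ}

/-- `Typ κ L Y`: the graded space `L` is stable under the Borel subalgebra twisted by `κ`, and `Y` is
the least `b`-stable subspace containing `L` -/
structure Typ (ρ : GLRep K V m) (κ : Equiv.Perm (Fin m)) (L Y : Submodule K V) : Prop where
  gr : ρ.toGrading.Stable L
  st : ∀ i j, i < j → ∀ z ∈ L, ρ.E (κ j) (κ i) z ∈ L
  le : L ≤ Y
  bst : ρ.BSt Y
  least : ∀ Y', ρ.BSt Y' → L ≤ Y' → Y ≤ Y'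

/-- the diagonal operators preserve graded subspaces -/
theorem typ_diag_mem (ρ : GLRep K V m) {Z : Submodule K V} (h : ρ.toGrading.Stable Z) (i : Fin m)
    {z : V} (hz : z ∈ Z) : ρ.E i i z ∈ Z := by
  have h1 : z = ∑ μ ∈ ρ.supp, ρ.π μ z := (ρ.toGrading.sum_apply z).symm
  rw [h1, map_sum]
  apply Submodule.sum_mem
  intro μ _
  have h2 := congrArg (fun g : Module.End K V => g z) (ρ.diag i μ)
  simp only [Module.End.mul_apply, LinearMap.smul_apply] at h2
  rw [h2]
  exact Submodule.smul_mem _ _ (h μ z hz)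

theorem typ_f_eq (ρ : GLRep K V m) {c : ℕ} (h : c + 1 < m) : ρ.f c = ρ.E (lo c h) (hi c h) := by
  rw [GLRep.f, dif_pos h]

theorem typ_f_out (ρ : GLRep K V m) {c : ℕ} (h : ¬ c + 1 < m) : ρ.f c = 0 := by
  rw [GLRep.f, dif_neg h]

/-- the vectors all of whose images under the powers of `f_c` lie in `Y` -/
def typCore (ρ : GLRep K V m) (c : ℕ) (Y : Submodule K V) : Submodule K V :=
  ⨅ k : ℕ, Y.comap (ρ.f c ^ k)

theorem mem_typCore {ρ : GLRep K V m} {c : ℕ} {Y : Submodule K V} {y : V} :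
    y ∈ typCore ρ c Y ↔ ∀ k : ℕ, (ρ.f c ^ k) y ∈ Y := by
  simp [typCore]

theorem typCore_f {ρ : GLRep K V m} {c : ℕ} {Y : Submodule K V} {y : V} (hy : y ∈ typCore ρ c Y) :
    ρ.f c y ∈ typCore ρ c Y := by
  rw [mem_typCore] at hy ⊢
  intro k
  have := hy (k + 1)
  rwa [pow_succ, Module.End.mul_apply] at this

theorem typCore_le {ρ : GLRep K V m} {c : ℕ} {Y : Submodule K V} : typCore ρ c Y ≤ Y := by
  intro y hy
  simpa using (mem_typCore.mp hy) 0

theorem typCore_stable {ρ : GLRep K V m} {c : ℕ} (h : c + 1 < m) {Y : Submodule K V}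
    (hY : ρ.toGrading.Stable Y) : ρ.toGrading.Stable (typCore ρ c Y) := by
  intro μ y hy
  rw [mem_typCore] at hy ⊢
  intro k
  have h1 := (ρ.f_hom c h).pow k μ
  have h2 := congrArg (fun g : Module.End K V => g y) h1
  simp only [Module.End.mul_apply] at h2
  rw [h2]
  exact hY _ _ (hy k)

theorem typCore_BSt {ρ : GLRep K V m} {c : ℕ} (h : c + 1 < m) {Y : Submodule K V}
    (hY : ρ.BSt Y) : ρ.BSt (typCore ρ c Y) := by
  have hst := typCore_stable (c := c) h hY.st
  apply ρ.BSt_of_simple hst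
  intro d y hy
  by_cases hcd : c = d
  · subst hcd
    rw [mem_typCore]
    intro k
    induction k generalizing y with
    | zero => simpa using hY.e_mem c (typCore_le hy)
    | succ k ih =>
      rw [pow_succ, Module.End.mul_apply]
      have h1 := congrArg (fun g : Module.End K V => g y) (ρ.e_f c h)
      simp only [LinearMap.sub_apply, Module.End.mul_apply] at h1
      have h2 : ρ.f c (ρ.e c y) = ρ.e c (ρ.f c y)
          - (ρ.E (lo c h) (lo c h) y - ρ.E (hi c h) (hi c h) y) := by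
        rw [← h1]; abel
      rw [h2, map_sub]
      apply Submodule.sub_mem
      · exact ih _ (typCore_f hy)
      · apply (mem_typCore.mp _) k
        exact Submodule.sub_mem _ (typ_diag_mem ρ hst _ hy) (typ_diag_mem ρ hst _ hy)
  · rw [mem_typCore] at hy ⊢
    intro k
    have hcomm : Commute (ρ.e d) (ρ.f c ^ k) :=
      (show Commute (ρ.e d) (ρ.f c) from ρ.e_f_ne hcd).pow_right k
    have h1 := congrArg (fun g : Module.End K V => g y) hcomm.eq
    simp only [Module.End.mul_apply] at h1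
    rw [← h1]
    exact hY.e_mem d (hy k)

/-- (2): at a descent the space is `f_c`-stable -/
theorem Typ.f_mem {ρ : GLRep K V m} {κ : Equiv.Perm (Fin m)} {L Y : Submodule K V}
    (hT : Typ ρ κ L Y) {c : ℕ} (h : c + 1 < m) (hd : ¬ Asc c h κ) : ∀ y ∈ Y, ρ.f c y ∈ Y := by
  have hlt : κ.symm (hi c h) < κ.symm (lo c h) := by
    rw [Asc, not_lt] at hd
    refine lt_of_le_of_ne hd ?_
    intro heq
    have h1 := congrArg Fin.val (κ.symm.injective heq)
    simp at h1
  have hL : ∀ z ∈ L, ρ.f c z ∈ L := by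
    intro z hz
    have := hT.st _ _ hlt z hz
    rw [Equiv.apply_symm_apply, Equiv.apply_symm_apply] at this
    rwa [typ_f_eq ρ h]
  have hL2 : L ≤ typCore ρ c Y := by
    intro z hz
    rw [mem_typCore]
    intro k
    apply hT.le
    induction k with
    | zero => simpa using hz
    | succ k ih =>
      rw [pow_succ', Module.End.mul_apply]
      exact hL _ ih
  have h3 := hT.least _ (typCore_BSt h hT.bst) hL2
  intro y hy
  exact typCore_le (typCore_f (h3 hy))

/-- (1) -/
theorem Typ.one {ρ : GLRep K V m} {Z : Submodule K V} (hZ : ρ.BSt Z) : Typ ρ 1 Z Z where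
  gr := hZ.st
  st := fun _ _ hij z hz => hZ.e _ _ hij z hz
  le := le_rfl
  bst := hZ
  least := fun _ _ h => h

/-- the least `b`-stable subspace containing `L` -/
def typBsp (ρ : GLRep K V m) (L : Submodule K V) : Submodule K V := sInf {Y | ρ.BSt Y ∧ L ≤ Y}

theorem le_typBsp (ρ : GLRep K V m) (L : Submodule K V) : L ≤ typBsp ρ L :=
  le_sInf fun _ h => h.2

theorem typBsp_le (ρ : GLRep K V m) {L Y : Submodule K V} (h : ρ.BSt Y) (hL : L ≤ Y) : typBsp ρ L ≤ Y :=
  sInf_le ⟨h, hL⟩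

theorem typBsp_BSt (ρ : GLRep K V m) (L : Submodule K V) : ρ.BSt (typBsp ρ L) where
  st := by
    intro μ z hz
    rw [typBsp, Submodule.mem_sInf] at hz ⊢
    intro Y hY
    exact hY.1.st μ z (hz Y hY)
  e := by
    intro i j hij z hz
    rw [typBsp, Submodule.mem_sInf] at hz ⊢
    intro Y hY
    exact hY.1.e i j hij z (hz Y hY)

theorem typ_sWt_sWt (c : ℕ) (h : c + 1 < m) (μ : Wt m) : sWt c h (sWt c h μ) = μ := by
  funext i
  simp [sWt]

variable [CharZero K]

/-- (3) -/
theorem Typ.asc {ρ : GLRep K V m} {κ : Equiv.Perm (Fin m)} {L Y : Submodule K V}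
    (hT : Typ ρ κ L Y) {c : ℕ} (h : c + 1 < m) (ha : Asc c h κ) :
    ∃ L', Typ ρ (Equiv.swap (lo c h) (hi c h) * κ) L' (ρ.T c Y) := by
  obtain ⟨τ, τ', h1, h2, h3, h4, h5⟩ := exists_tau ρ c h
  have hTst := ρ.BSt_T hT.bst c
  have hgr : ρ.toGrading.Stable (L.map τ) := by
    rintro μ _ ⟨z, hz, rfl⟩
    refine ⟨ρ.π (sWt c h μ) z, hT.gr _ z hz, ?_⟩
    have := congrArg (fun g : Module.End K V => g z) (h5 (sWt c h μ))
    simp only [Module.End.mul_apply, typ_sWt_sWt] at this
    exact this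
  have hst : ∀ i j, i < j → ∀ z ∈ L.map τ,
      ρ.E ((Equiv.swap (lo c h) (hi c h) * κ) j) ((Equiv.swap (lo c h) (hi c h) * κ) i) z
        ∈ L.map τ := by
    rintro i j hij _ ⟨z, hz, rfl⟩
    obtain ⟨ε, hε, he⟩ := h4 (κ j) (κ i)
    refine ⟨ε⁻¹ • ρ.E (κ j) (κ i) z, Submodule.smul_mem _ _ (hT.st i j hij z hz), ?_⟩
    have := congrArg (fun g : Module.End K V => g z) he
    simp only [Module.End.mul_apply, LinearMap.smul_apply] at this
    rw [map_smul, this, smul_smul, inv_mul_cancel₀ hε, one_smul]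
    rfl
  have hnd : ¬ Asc c h (Equiv.swap (lo c h) (hi c h) * κ) := by
    rw [Asc, not_lt]
    have e1 : (Equiv.swap (lo c h) (hi c h) * κ).symm (hi c h) = κ.symm (lo c h) := by
      rw [Equiv.symm_apply_eq]
      simp
    have e2 : (Equiv.swap (lo c h) (hi c h) * κ).symm (lo c h) = κ.symm (hi c h) := by
      rw [Equiv.symm_apply_eq]
      simp
    rw [e1, e2]
    exact le_of_lt ha
  have hty : Typ ρ (Equiv.swap (lo c h) (hi c h) * κ) (L.map τ) (typBsp ρ (L.map τ)) :=
    { gr := hgr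
      st := hst
      le := le_typBsp ρ _
      bst := typBsp_BSt ρ _
      least := fun Y' hY' hL => typBsp_le ρ hY' hL }
  refine ⟨L.map τ, hgr, hst, ?_, hTst, ?_⟩
  · rintro _ ⟨z, hz, rfl⟩
    exact (h3 (ρ.T c Y) (fun y hy => hTst.e_mem c hy) (fun y hy => ρ.f_mem_T hy)).1 z
      (ρ.le_T c Y (hT.le hz))
  · intro Y' hY' hL
    have hf := hty.f_mem h hnd
    have hτ' := (h3 (typBsp ρ (L.map τ)) (fun y hy => (typBsp_BSt ρ _).e_mem c hy) hf).2
    have hLb : L ≤ typBsp ρ (L.map τ) := by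
      intro z hz
      have := hτ' (τ z) (le_typBsp ρ _ ⟨z, hz, rfl⟩)
      rwa [← Module.End.mul_apply, h2, Module.End.one_apply] at this
    exact (ρ.T_le (hT.least _ (typBsp_BSt ρ _) hLb) hf).trans (typBsp_le ρ hY' hL)

/-- (4) -/
theorem exists_typ (ρ : GLRep K V m) {Z : Submodule K V} (hZ : ρ.BSt Z) {cs : List ℕ}
    (hr : Red m cs) : ∃ L, Typ ρ (prodW m cs) L (ρ.Hw cs Z) := by
  induction hr with
  | nil => exact ⟨Z, by simpa [prodW, GLRep.Hw] using Typ.one hZ⟩
  | cons c h cs hr ha ih =>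
    obtain ⟨L, hL⟩ := ih
    obtain ⟨L', hL'⟩ := hL.asc h ha
    refine ⟨L', ?_⟩
    have h1 : prodW m (c :: cs) = Equiv.swap (lo c h) (hi c h) * prodW m cs := by
      simp [prodW, sc, h]
    rw [h1]
    exact hL'

/-- at a descent `H_κ Z` is `p_c`-stable -/
theorem f_mem_of_desc (ρ : GLRep K V m) {Z : Submodule K V} (hZ : ρ.BSt Z) {cs : List ℕ}
    (hr : Red m cs) (c : ℕ) (h : c + 1 < m) (hd : ¬ Asc c h (prodW m cs)) :
    ∀ z ∈ ρ.Hw cs Z, ρ.f c z ∈ ρ.Hw cs Z := by
  obtain ⟨L, hL⟩ := exists_typ ρ hZ hr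
  exact hL.f_mem h hd

theorem Hw_norm (ρ : GLRep K V m) {Z : Submodule K V} (hZ : ρ.BSt Z) (cs : List ℕ) :
    ρ.Hw cs Z = ρ.Hw (norm m cs) Z := by
  induction cs with
  | nil => rfl
  | cons c cs ih =>
    have h0 : ρ.Hw (c :: cs) Z = ρ.T c (ρ.Hw (norm m cs) Z) := by
      rw [← ih]; rfl
    rw [h0]
    by_cases h : c + 1 < m
    · by_cases ha : Asc c h (prodW m (norm m cs))
      · rw [norm_asc h ha]; rfl
      · rw [norm_desc h ha]
        exact ρ.T_eq_self (f_mem_of_desc ρ hZ (red_norm m cs) c h ha)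
    · rw [norm_out h]
      apply ρ.T_eq_self
      intro z _
      rw [typ_f_out ρ h, LinearMap.zero_apply]
      exact Submodule.zero_mem _

end Gao
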