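import Mathlib
import Pool.Agent.Gao.GTyp
import Pool.Agent.Gao.GIneq
import Pool.Agent.Gao.GLead
import Pool.Agent.Gao.GKeyA

/-!
# Gao project, PART G, THE KEY LEMMA

`stF m t cs l` = the state (a reduced word) attached to the subset `l` after the word `cs` (Deodhar lift), `none` if `l` does
not occur.

MODULE GKeyA: the combinatorial facts `stF_red`, `stF_map`, `stF_top`.
MODULE GKeyB: the main induction `key`.

NOTATION: `ω = ini m t`, `κ = prodW m cs`, `Y cs = ρ.Hw cs (τ.twist t Z)`.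

(1) `stF_red`: `stF cs l = some ds → Red m ds ∧ ω.map (prodW ds) = l`.  Induction on `cs = c :: cs'`.  Case `lo ∈ l, hi ∉ l`: IH.
    Case `hi ∈ l, lo ∉ l`: `l = s λ` with `λ = swS l`, `stF cs' λ = some ds'`, `ds = c :: ds'`; `κ' = prodW ds'`, `κ' ω = λ ∋ lo`, `∌ hi`:
    `κ'⁻¹ lo ∈ ω`, `κ'⁻¹ hi ∉ ω`, so `κ'⁻¹ lo < t ≤ κ'⁻¹ hi`: `Asc`, `Red (c :: ds')`, `prodW (c::ds') ω = s λ = l`.
    Otherwise (`lo ∈ l ↔ hi ∈ l`): `ds = c :: ds'` if `Asc`, else `ds'`; `s l = l`.
(2) `stF_top`: for reduced `cs`: `stF cs (ω.map κ) = some cs`.  Induction, `cs = c :: cs'`, `κ = s κ'`, `Asc c κ'`, `λ' = κ' ω`.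
    If `lo ∈ λ', hi ∉ λ'`: `κ ω = s λ'` is in the second case, `swS (s λ') = λ'`.  `hi ∈ λ', lo ∉ λ'` is impossible by `Asc` (`κ'⁻¹hi < t ≤
    κ'⁻¹ lo`).  Otherwise `κ ω = λ'`, third case with `Asc`.
(3) `key`, for `Z` good, `Z ≤ V'`, `t ≤ m`, `cs` reduced.  INDUCTION ON `cs` of the statement
    (I) `∀ l, lead (Y cs) l = val (stF cs l)` where `val none = ⊥`, `val (some ds) = Hw ds Z`.
    `cs = []`: `Y = ins ω Z`: `ext l (ins ω z) = [l = ω] z`; lead at `ω` is `Z`; lead at `l ≠ ω` is `0`.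
    Step `c :: cs`, `Y' = T c Y`, `f = ρ.f c`.
    LOWER BOUND `val (stF (c::cs) l) ≤ lead Y' l`:
     - `lo ∈ l, hi ∉ l`: `lead Y l ≤ lead Y' l` (mono).
     - `l = s λ`, `lo ∈ λ, hi ∉ λ`: have to show `T c (lead Y λ) ≤ lead Y' (s λ)`: for `z ∈ lead Y λ` with `y ∈ Y`, leading index `λ`:
       by `f_ins`-relations `ext l' (f^{k+1} y) = f^{k+1} (ext l' y) + (k+1) [hi ∈ l', lo ∉ l'] f^k (ext (swS l') y)` (induction on `k`; note that
       `swS (swS l') = l'` and for `swS l'` the bracket is 0).  So `ext (sλ) (f^{k+1} y) = f^{k+1} (ext (sλ) y) + (k+1) f^k z = (k+1) f^k z`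
       because `rk (sλ) > rk λ`, and for `rk l' > rk (sλ)`: `ext l' y = 0` and, if `hi ∈ l', lo ∉ l'`, `ext (swS l') y = 0`: otherwise
       `rk (swS l') ≤ rk λ`, then `rk l' = rk (swS (swS l')) ≤ rk (s λ)` by `rk_swS_swS` (or equality) - contradiction.
       So `(k+1) f^k z ∈ lead Y' (sλ)`, char 0.
     - `lo ∈ l ↔ hi ∈ l`: `T c (lead Y l) ≤ lead Y' l`: `ext l (f^k y) = f^k z`; for `rk l' > rk l`: `ext l' y = 0`, and if `hi ∈ l', lo ∉ l'` then
       `ext (swS l') y = 0`, otherwise `rk (swS l') ≤ rk l`, `swS l' ≠ l`, so `<`, and `rk l' < rk l` by `rk_swS_lt` - contradiction.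
     In the third case `T c (Hw ds Z) = Hw (c::ds) Z` if `Asc c (prodW ds)`, and `= Hw ds Z` otherwise (`f_mem_of_desc`); in all cases it is
     `val (stF (c::cs) l)`.
    UPPER BOUND: `ch Y = Σ_{|l|=t} sh l (ch (lead Y l))` (`wd_eq_sum`, `Hw cs (twist) ≤ tot t`).  By the calculus GDemF,
    `IsDem (ch Y) g` with `g = Σ_l sh l (ch (val (stF (c::cs) l)))`:
     pair `λ, sλ` (`lo ∈ λ, hi ∉ λ`): `A = ch (val (stF cs λ))`: if `none`: `A = 0`; if `some ds`: `IsDem A (ch (T c (Hw ds Z)))` by `Good Z`, shift1 gives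
     `sh λ A + sh (sλ) (ch (T c ..))`; and the summand of `Y` at `sλ`: `B = ch (val (stF cs (sλ)))`, if `some ds` then `prodW ds ω = sλ ∌ lo, ∋ hi`, so `c` is a
     descent of `prodW ds` and `Hw ds Z` is `f_c`-stable, `ch` symmetric, shiftm: Demazure of `sh (sλ) B` is `0`.
     `lo ∈ l ↔ hi ∈ l`: shift0 and `Good Z` (or `isDem_self` if descent; in both cases `IsDem (ch (Hw ds Z)) (ch (T c (Hw ds Z)))` is an instance
     of `Good Z`).
    `ch_T_le`: `ch Y' μ ≤ g μ`.  And `ch Y' = Σ_l sh l (ch (lead Y' l)) ≥ Σ_l sh l (ch (val (stF (c::cs) l))) = g` by the lower bound and `wd_mono`.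
    Hence equality everywhere (sum of nonnegative differences is 0): `wd (lead Y' l) = wd (val ..)` for all `l`, all weights, and `eq_of_wd` gives (I)
    for `c :: cs` (for `|l| ≠ t` both sides are `⊥`: `ext l = 0` on `tot t`; `stF` is `none` there by (1)).  Moreover `ch Y' = g`, so
    `IsDem (ch Y) (ch Y')`.
(4) Conclusion: for reduced `cs` with `Asc c (prodW cs)` we have shown `IsDem (ch (Y cs)) (ch (T c (Y cs)))`; if not `Asc`, then `Y cs` is `f_c`-stable
    (`f_mem_of_desc` for the BSt space `twist t Z`) and `isDem_self`; for arbitrary words use `Hw_norm`.  So `Good (twist t Z)`.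
-/

namespace Gao

open Finset Module

variable {K V : Type*} [Field K] [CharZero K] [AddCommGroup V] [Module K V] {m : ℕ}

/-- value of a state -/
def GLRep.val (ρ : GLRep K V m) (Z : Submodule K V) : Option (List ℕ) → Submodule K V
  | none => ⊥
  | some ds => ρ.Hw ds Z

omit [CharZero K] in
lemma GLRep.f_big (ρ : GLRep K V m) {c : ℕ} (h : ¬ c + 1 < m) : ρ.f c = 0 := by
  unfold GLRep.f
  rw [dif_neg h]

omit [CharZero K] in
lemma GLRep.T_big (ρ : GLRep K V m) {c : ℕ} (h : ¬ c + 1 < m) (Z : Submodule K V) :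
    ρ.T c Z = Z := by
  apply ρ.T_eq_self
  intro z _
  rw [ρ.f_big h]
  exact Submodule.zero_mem _

omit [CharZero K] in
lemma GLRep.Hw_cons (ρ : GLRep K V m) (c : ℕ) (cs : List ℕ) (Z : Submodule K V) :
    ρ.Hw (c :: cs) Z = ρ.T c (ρ.Hw cs Z) := rfl

namespace Tw

variable {ρ : GLRep K V m} (τ : Tw ρ)

omit [CharZero K] in
/-- coefficients of `f^(k+1) y` -/
lemma ext_f_pow (c : ℕ) (h : c + 1 < m) (k : ℕ) (l : Finset (Fin m)) (y : V) :
    τ.ext l ((ρ.f c ^ (k + 1)) y) = (ρ.f c ^ (k + 1)) (τ.ext l y) +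
      (k + 1 : K) • (if hi c h ∈ l ∧ lo c h ∉ l then (ρ.f c ^ k) (τ.ext (swS c h l) y) else 0) := by
  induction k generalizing l with
  | zero =>
    rw [zero_add, pow_one, τ.ext_f c h]
    simp only [pow_zero, Module.End.one_apply, Nat.cast_zero, zero_add, one_smul]
    rw [add_comm]
  | succ k ih =>
    rw [pow_succ' (ρ.f c) (k + 1), Module.End.mul_apply, τ.ext_f c h, ih l,
      Module.End.mul_apply, map_add, map_smul]
    by_cases h1 : hi c h ∈ l ∧ lo c h ∉ l
    · have h2 : ¬ (hi c h ∈ swS c h l ∧ lo c h ∉ swS c h l) := by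
        rw [hi_mem_swS, lo_mem_swS]; tauto
      rw [if_pos h1, if_pos h1, if_pos h1, ih (swS c h l), if_neg h2, smul_zero, add_zero,
        ← Module.End.mul_apply (ρ.f c) (ρ.f c ^ k), ← pow_succ']
      push_cast
      rw [add_smul (k + 1 : K) 1, one_smul]
      abel
    · rw [if_neg h1, if_neg h1, if_neg h1, map_zero, smul_zero, smul_zero]
      abel

/-- lower bound, second case -/
lemma T_lead_le_swS (c : ℕ) (h : c + 1 < m) {Y : Submodule K V} {l : Finset (Fin m)}
    (h1 : hi c h ∈ l) (h2 : lo c h ∉ l) :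
    ρ.T c (τ.lead Y (swS c h l)) ≤ τ.lead (ρ.T c Y) l := by
  have h3 : lo c h ∈ swS c h l := (lo_mem_swS c h l).2 h1
  have h4 : hi c h ∉ swS c h l := fun hh => h2 ((hi_mem_swS c h l).1 hh)
  have hrk : rk (swS c h l) < rk l := by
    have := rk_lt_swS c h h3 h4
    rwa [swS_swS] at this
  apply iSup_le
  intro k
  rintro _ ⟨z, ⟨y, hy, hyz, hy0⟩, rfl⟩
  have hmem : (ρ.f c ^ (k + 1)) y ∈ ρ.T c Y := by
    have : (ρ.f c ^ (k + 1)) y ∈ Y.map (ρ.f c ^ (k + 1)) := ⟨y, hy, rfl⟩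
    exact (le_iSup (fun k => Y.map (ρ.f c ^ k)) (k + 1)) this
  have hlead : ((k + 1 : ℕ) : K) • (ρ.f c ^ k) z ∈ τ.lead (ρ.T c Y) l := by
    refine ⟨_, hmem, ?_, ?_⟩
    · rw [τ.ext_f_pow c h, hy0 l hrk, map_zero, zero_add, if_pos ⟨h1, h2⟩, hyz]
      push_cast
      rfl
    · intro l' hl'
      rw [τ.ext_f_pow c h, hy0 l' (hrk.trans hl'), map_zero, zero_add]
      by_cases h5 : hi c h ∈ l' ∧ lo c h ∉ l'
      · rw [if_pos h5]
        have h6 : rk (swS c h l) < rk (swS c h l') := by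
          by_contra hcon
          rcases lt_or_eq_of_le (not_lt.1 hcon) with h7 | h7
          · have h8 := rk_swS_swS c h h7 ((lo_mem_swS c h l').2 h5.1)
              (fun hh => h5.2 ((hi_mem_swS c h l').1 hh)) h3 h4
            rw [swS_swS, swS_swS] at h8
            exact absurd h8 (not_lt.2 hl'.le)
          · have h8 := rk_injective h7
            have h9 := congrArg (swS c h) h8
            rw [swS_swS, swS_swS] at h9
            rw [h9] at hl'
            exact lt_irrefl _ hl'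
        rw [hy0 _ h6, map_zero, smul_zero]
      · rw [if_neg h5, smul_zero]
  have hne : ((k + 1 : ℕ) : K) ≠ 0 := Nat.cast_ne_zero.2 (Nat.succ_ne_zero k)
  have := Submodule.smul_mem _ ((k + 1 : ℕ) : K)⁻¹ hlead
  rwa [smul_smul, inv_mul_cancel₀ hne, one_smul] at this

omit [CharZero K] in
/-- lower bound, third case -/
lemma T_lead_le (c : ℕ) (h : c + 1 < m) {Y : Submodule K V} {l : Finset (Fin m)}
    (hl : lo c h ∈ l ↔ hi c h ∈ l) : ρ.T c (τ.lead Y l) ≤ τ.lead (ρ.T c Y) l := by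
  apply iSup_le
  intro k
  rintro _ ⟨z, ⟨y, hy, hyz, hy0⟩, rfl⟩
  have hmem : (ρ.f c ^ k) y ∈ ρ.T c Y := by
    have : (ρ.f c ^ k) y ∈ Y.map (ρ.f c ^ k) := ⟨y, hy, rfl⟩
    exact (le_iSup (fun k => Y.map (ρ.f c ^ k)) k) this
  refine ⟨_, hmem, ?_, ?_⟩
  · cases k with
    | zero => rw [pow_zero, Module.End.one_apply, Module.End.one_apply, hyz]
    | succ k =>
      have h1 : ¬ (hi c h ∈ l ∧ lo c h ∉ l) := by tauto
      rw [τ.ext_f_pow c h, if_neg h1, smul_zero, add_zero, hyz]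
  · intro l' hl'
    cases k with
    | zero => rw [pow_zero, Module.End.one_apply, hy0 l' hl']
    | succ k =>
      rw [τ.ext_f_pow c h, hy0 l' hl', map_zero, zero_add]
      by_cases h5 : hi c h ∈ l' ∧ lo c h ∉ l'
      · rw [if_pos h5]
        have h6 : rk l < rk (swS c h l') := by
          by_contra hcon
          have ha := (lo_mem_swS c h l').2 h5.1
          have hb : hi c h ∉ swS c h l' := fun hh => h5.2 ((hi_mem_swS c h l').1 hh)
          rcases lt_or_eq_of_le (not_lt.1 hcon) with h7 | h7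
          · have h8 := rk_swS_lt c h h7 ha hb hl
            rw [swS_swS] at h8
            exact absurd h8 (not_lt.2 hl'.le)
          · have h8 := rk_injective h7
            rw [h8] at ha hb
            exact hb (hl.1 ha)
        rw [hy0 _ h6, map_zero, smul_zero]
      · rw [if_neg h5, smul_zero]

end Tw

/-- the lower bound -/
lemma val_le_lead {ρ : GLRep K V m} (τ : Tw ρ) {t : ℕ} {Z Y : Submodule K V} (c : ℕ)
    (h : c + 1 < m) (cs : List ℕ) (hY : ∀ l, τ.lead Y l = ρ.val Z (stF m t cs l))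
    (l : Finset (Fin m)) : ρ.val Z (stF m t (c :: cs) l) ≤ τ.lead (ρ.T c Y) l := by
  rw [stF, dif_pos h]
  split_ifs with h1 h2
  · rw [← hY]
    exact τ.lead_mono (ρ.le_T c Y) l
  · refine le_trans ?_ (τ.T_lead_le_swS c h h2.1 h2.2)
    rw [hY]
    cases stF m t cs (swS c h l) with
    | none => exact bot_le
    | some ds => exact le_rfl
  · have hiff : lo c h ∈ l ↔ hi c h ∈ l := by tauto
    refine le_trans ?_ (τ.T_lead_le c h hiff)
    rw [hY]
    cases stF m t cs l with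
    | none => exact bot_le
    | some ds =>
      rw [Option.map_some]
      split_ifs with h3
      · exact le_rfl
      · exact ρ.le_T c _

omit [CharZero K] in
lemma GLRep.BSt_val (ρ : GLRep K V m) {Z : Submodule K V} (hZ : ρ.BSt Z) (o : Option (List ℕ)) :
    ρ.BSt (ρ.val Z o) := by
  cases o with
  | none => exact ρ.BSt_bot
  | some ds => exact ρ.BSt_Hw hZ ds

omit [CharZero K] in
lemma twist_Hw_le_tot {ρ : GLRep K V m} (τ : Tw ρ) {t : ℕ} (ht : t ≤ m) {Z : Submodule K V}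
    (hV : Z ≤ τ.V') (cs : List ℕ) : ρ.Hw cs (τ.twist t Z) ≤ τ.tot t := by
  induction cs with
  | nil => exact τ.twist_le_tot ht hV
  | cons c cs ih => exact τ.T_le_tot c ih

omit [CharZero K] in
/-- the first state -/
lemma lead_twist {ρ : GLRep K V m} (τ : Tw ρ) {t : ℕ} {Z : Submodule K V}
    (hV : Z ≤ τ.V') (l : Finset (Fin m)) :
    τ.lead (τ.twist t Z) l = ρ.val Z (stF m t [] l) := by
  rw [stF]
  ext z
  constructor
  · rintro ⟨_, ⟨x, hx, rfl⟩, hz, h0⟩
    rw [τ.ext_ins _ _ _ (hV hx)] at hz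
    split_ifs with h1
    · rw [if_pos h1] at hz
      subst hz
      exact hx
    · rw [if_neg h1] at hz
      subst hz
      exact Submodule.zero_mem _
  · intro hz
    split_ifs at hz with h1
    · subst h1
      refine ⟨τ.ins (ini m t) z, ⟨z, hz, rfl⟩, ?_, ?_⟩
      · rw [τ.ext_ins _ _ _ (hV hz), if_pos rfl]
      · intro l' hl'
        rw [τ.ext_ins _ _ _ (hV hz), if_neg]
        intro h2
        rw [h2] at hl'
        exact lt_irrefl _ hl'
    · have : z = 0 := hz
      subst this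
      exact Submodule.zero_mem _

variable [FiniteDimensional K V]

lemma isDem_val {ρ : GLRep K V m} {Z : Submodule K V} (hZ : ρ.Good Z) (c : ℕ) (h : c + 1 < m)
    (o : Option (List ℕ)) : IsDem c h (ρ.ch (ρ.val Z o)) (ρ.ch (ρ.T c (ρ.val Z o))) := by
  cases o with
  | none =>
    change IsDem c h (ρ.ch ⊥) (ρ.ch (ρ.T c ⊥))
    rw [ρ.T_bot]
    refine ρ.isDem_self ρ.BSt_bot c h ?_
    intro y hy
    rw [(Submodule.mem_bot K).1 hy, map_zero]
    exact Submodule.zero_mem _
  | some ds => exact hZ.2 ds c h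

omit [FiniteDimensional K V] in
/-- the stable case -/
lemma f_mem_val {ρ : GLRep K V m} {Z : Submodule K V} (hZ : ρ.Good Z) {t c : ℕ} {cs : List ℕ}
    (h : c + 1 < m) {l : Finset (Fin m)}
    (hd : ∀ ds, stF m t cs l = some ds → ¬ Asc c h (prodW m ds)) :
    ∀ z ∈ ρ.val Z (stF m t cs l), ρ.f c z ∈ ρ.val Z (stF m t cs l) := by
  cases ho : stF m t cs l with
  | none =>
    intro z hz
    have : z = 0 := hz
    rw [this, map_zero]
    exact Submodule.zero_mem _
  | some ds => exact f_mem_of_desc ρ hZ.1 (stF_red m t cs l ds ho).1 c h (hd ds ho)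

/-- the sum over the states is transformed by the Demazure operator -/
lemma isDem_sum {ρ : GLRep K V m} {Z : Submodule K V} (hZ : ρ.Good Z) (t c : ℕ) (cs : List ℕ)
    (h : c + 1 < m) :
    IsDem c h (∑ l ∈ univ.filter (fun l : Finset (Fin m) => l.card = t),
        sh l (ρ.ch (ρ.val Z (stF m t cs l))))
      (∑ l ∈ univ.filter (fun l : Finset (Fin m) => l.card = t),
        sh l (ρ.ch (ρ.val Z (stF m t (c :: cs) l)))) := by
  classical
  set S := univ.filter (fun l : Finset (Fin m) => l.card = t) with hS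
  set H : Finset (Fin m) → Chr m := fun l => sh l (ρ.ch (ρ.val Z (stF m t (c :: cs) l))) with hH
  let c1 : Finset (Fin m) → Prop := fun l => lo c h ∈ l ∧ hi c h ∉ l
  let c2 : Finset (Fin m) → Prop := fun l => hi c h ∈ l ∧ lo c h ∉ l
  have e1 : ∀ l, c1 l → H l = sh l (ρ.ch (ρ.val Z (stF m t cs l))) := by
    intro l hl
    simp only [hH]
    rw [stF, dif_pos h, if_pos hl]
  have e2 : ∀ l, c2 l → H l = sh l (ρ.ch (ρ.T c (ρ.val Z (stF m t cs (swS c h l))))) := by
    intro l hl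
    have h1 : ¬ (lo c h ∈ l ∧ hi c h ∉ l) := fun hh => hl.2 hh.1
    simp only [hH]
    rw [stF, dif_pos h, if_neg h1, if_pos hl]
    cases stF m t cs (swS c h l) with
    | none =>
      change sh l (ρ.ch ⊥) = sh l (ρ.ch (ρ.T c ⊥))
      rw [ρ.T_bot]
    | some ds => rfl
  have e3 : ∀ l, ¬ c1 l → ¬ c2 l → H l = sh l (ρ.ch (ρ.T c (ρ.val Z (stF m t cs l)))) := by
    intro l h1 h2
    have h1' : ¬ (lo c h ∈ l ∧ hi c h ∉ l) := h1
    have h2' : ¬ (hi c h ∈ l ∧ lo c h ∉ l) := h2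
    simp only [hH]
    rw [stF, dif_pos h, if_neg h1', if_neg h2']
    cases ho : stF m t cs l with
    | none =>
      change sh l (ρ.ch ⊥) = sh l (ρ.ch (ρ.T c ⊥))
      rw [ρ.T_bot]
    | some ds =>
      rw [Option.map_some]
      split_ifs with h3
      · rfl
      · change sh l (ρ.ch (ρ.Hw ds Z)) = sh l (ρ.ch (ρ.T c (ρ.Hw ds Z)))
        rw [ρ.T_eq_self (f_mem_of_desc ρ hZ.1 (stF_red m t cs l ds ho).1 c h h3)]
  have hsum : ∑ l ∈ S, H l = ∑ l ∈ S,
      (if c1 l then H l + H (swS c h l) else if c2 l then 0 else H l) := by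
    have a1 : ∑ l ∈ S, (if c1 l then H (swS c h l) else 0) = ∑ l ∈ S, (if c2 l then H l else 0) := by
      refine Finset.sum_nbij' (fun l => swS c h l) (fun l => swS c h l) ?_ ?_ ?_ ?_ ?_
      · intro l hl
        rw [hS, mem_filter] at hl ⊢
        exact ⟨mem_univ _, by rw [card_swS, hl.2]⟩
      · intro l hl
        rw [hS, mem_filter] at hl ⊢
        exact ⟨mem_univ _, by rw [card_swS, hl.2]⟩
      · intro l _; exact swS_swS c h l
      · intro l _; exact swS_swS c h l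
      · intro l _
        have : c2 (swS c h l) ↔ c1 l := by
          change (hi c h ∈ swS c h l ∧ lo c h ∉ swS c h l) ↔ _
          rw [hi_mem_swS, lo_mem_swS]
        simp only [this]
    have a2 : ∀ l, (if c1 l then H l + H (swS c h l) else if c2 l then 0 else H l) =
        (if c2 l then 0 else H l) + (if c1 l then H (swS c h l) else 0) := by
      intro l
      by_cases h1 : c1 l
      · have h2 : ¬ c2 l := fun hh => hh.2 h1.1
        rw [if_pos h1, if_pos h1, if_neg h2]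
      · rw [if_neg h1, if_neg h1, add_zero]
    rw [Finset.sum_congr rfl (fun l _ => a2 l), Finset.sum_add_distrib, a1,
      ← Finset.sum_add_distrib]
    refine Finset.sum_congr rfl fun l _ => ?_
    by_cases h2 : c2 l
    · rw [if_pos h2, if_pos h2, zero_add]
    · rw [if_neg h2, if_neg h2, add_zero]
  rw [hsum]
  refine IsDem.sum S _ _ fun l _ => ?_
  by_cases h1 : c1 l
  · rw [if_pos h1, e1 l h1]
    have h2 : c2 (swS c h l) := by
      change (hi c h ∈ swS c h l ∧ lo c h ∉ swS c h l)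
      rw [hi_mem_swS, lo_mem_swS]
      exact h1
    rw [e2 _ h2, swS_swS]
    exact (isDem_val hZ c h _).shift1 h1.1 h1.2
  · rw [if_neg h1]
    by_cases h2 : c2 l
    · rw [if_pos h2]
      refine IsDem.shiftm (ρ.ch_support _) ?_ h2.2 h2.1
      refine ρ.ch_symm (ρ.BSt_val hZ.1 _) c h (f_mem_val hZ h ?_)
      intro ds hds hasc
      have h3 := (stF_red m t cs l ds hds).2
      have h4 := h2.1
      have h5 := h2.2
      rw [← h3, mem_map_ini] at h4 h5
      exact h5 (lt_trans (Fin.lt_def.1 hasc) h4)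
    · rw [if_neg h2, e3 l h1 h2]
      refine (isDem_val hZ c h _).shift0 ?_
      have h1' : ¬ (lo c h ∈ l ∧ hi c h ∉ l) := h1
      have h2' : ¬ (hi c h ∈ l ∧ lo c h ∉ l) := h2
      tauto

omit [CharZero K] in
/-- character of a subspace in terms of the leading coefficient spaces -/
lemma ch_eq_sum {ρ : GLRep K V m} (τ : Tw ρ) {t : ℕ} {Y : Submodule K V}
    (hY : ρ.toGrading.Stable Y) (ht : Y ≤ τ.tot t) :
    ρ.ch Y = ∑ l ∈ univ.filter (fun l : Finset (Fin m) => l.card = t),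
      sh l (ρ.ch (τ.lead Y l)) := by
  funext μ
  rw [Finset.sum_apply]
  unfold GLRep.ch sh
  rw [τ.wd_eq_sum hY ht μ]
  push_cast
  rfl

/-- the step of the induction -/
lemma key_step {ρ : GLRep K V m} (τ : Tw ρ) {t : ℕ} (ht : t ≤ m) {Z : Submodule K V}
    (hZ : ρ.Good Z) (hV : Z ≤ τ.V') (c : ℕ) (h : c + 1 < m) (cs : List ℕ)
    (ih : ∀ l, τ.lead (ρ.Hw cs (τ.twist t Z)) l = ρ.val Z (stF m t cs l)) :
    (∀ l, τ.lead (ρ.Hw (c :: cs) (τ.twist t Z)) l = ρ.val Z (stF m t (c :: cs) l)) ∧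
      IsDem c h (ρ.ch (ρ.Hw cs (τ.twist t Z))) (ρ.ch (ρ.T c (ρ.Hw cs (τ.twist t Z)))) := by
  set Y := ρ.Hw cs (τ.twist t Z) with hYdef
  have hYB : ρ.BSt Y := ρ.BSt_Hw (τ.twist_BSt hZ.1 hV) cs
  have hYt : Y ≤ τ.tot t := twist_Hw_le_tot τ ht hV cs
  have hTB : ρ.BSt (ρ.T c Y) := ρ.BSt_T hYB c
  have hTt : ρ.T c Y ≤ τ.tot t := τ.T_le_tot c hYt
  have hlow := val_le_lead τ c h cs ih
  have hD := isDem_sum hZ t c cs h
  have hchY : ρ.ch Y = ∑ l ∈ univ.filter (fun l : Finset (Fin m) => l.card = t),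
      sh l (ρ.ch (ρ.val Z (stF m t cs l))) := by
    rw [ch_eq_sum τ hYB.st hYt]
    exact Finset.sum_congr rfl fun l _ => by rw [ih l]
  rw [← hchY] at hD
  have hup := ρ.ch_T_le hYB c h hD
  have hchT := ch_eq_sum τ hTB.st hTt
  have hterm : ∀ μ, ∀ l ∈ univ.filter (fun l : Finset (Fin m) => l.card = t),
      sh l (ρ.ch (ρ.val Z (stF m t (c :: cs) l))) μ ≤ sh l (ρ.ch (τ.lead (ρ.T c Y) l)) μ := by
    intro μ l _
    exact Int.ofNat_le.2 (ρ.wd_mono (hlow l) _)
  have hall : ∀ μ, ∀ l ∈ univ.filter (fun l : Finset (Fin m) => l.card = t),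
      sh l (ρ.ch (ρ.val Z (stF m t (c :: cs) l))) μ = sh l (ρ.ch (τ.lead (ρ.T c Y) l)) μ := by
    intro μ
    apply (Finset.sum_eq_sum_iff_of_le (hterm μ)).1
    apply le_antisymm (Finset.sum_le_sum (hterm μ))
    have h1 := hup μ
    rw [hchT, Finset.sum_apply, Finset.sum_apply] at h1
    exact h1
  constructor
  · intro l
    change τ.lead (ρ.T c Y) l = _
    by_cases hl : l.card = t
    · symm
      refine ρ.eq_of_wd (hlow l) (ρ.BSt_val hZ.1 _).st ?_
      intro μ
      have h1 := hall (μ + wtS l) l (by rw [mem_filter]; exact ⟨mem_univ _, hl⟩)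
      unfold sh GLRep.ch at h1
      rw [add_sub_cancel_right] at h1
      exact (Int.ofNat_inj.1 h1).ge
    · have h1 : stF m t (c :: cs) l = none := by
        rw [Option.eq_none_iff_forall_ne_some]
        intro ds hds
        apply hl
        rw [← (stF_red m t _ l ds hds).2, card_map, card_ini ht]
      rw [h1]
      change _ = (⊥ : Submodule K V)
      rw [Submodule.eq_bot_iff]
      rintro _ ⟨y, hy, rfl, _⟩
      exact τ.ext_eq_zero (hTt hy) hl
  · have h1 : ρ.ch (ρ.T c Y) = ∑ l ∈ univ.filter (fun l : Finset (Fin m) => l.card = t),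
        sh l (ρ.ch (ρ.val Z (stF m t (c :: cs) l))) := by
      rw [hchT]
      funext μ
      rw [Finset.sum_apply, Finset.sum_apply]
      exact Finset.sum_congr rfl fun l hl => (hall μ l hl).symm
    rw [h1]
    exact hD

/-- the leading coefficient spaces, for all words -/
theorem lead_eq' {ρ : GLRep K V m} (τ : Tw ρ) {t : ℕ} (ht : t ≤ m) {Z : Submodule K V}
    (hZ : ρ.Good Z) (hV : Z ≤ τ.V') (cs : List ℕ) (l : Finset (Fin m)) :
    τ.lead (ρ.Hw cs (τ.twist t Z)) l = ρ.val Z (stF m t cs l) := by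
  induction cs generalizing l with
  | nil => exact lead_twist τ hV l
  | cons c cs ih =>
    by_cases h : c + 1 < m
    · exact (key_step τ ht hZ hV c h cs ih).1 l
    · rw [GLRep.Hw_cons, ρ.T_big h, ih, stF, dif_neg h]

/-- KEY LEMMA, first part: the leading coefficient spaces -/
theorem lead_eq {ρ : GLRep K V m} (τ : Tw ρ) {t : ℕ} (ht : t ≤ m) {Z : Submodule K V}
    (hZ : ρ.Good Z) (hV : Z ≤ τ.V') (cs : List ℕ) (_hr : Red m cs) (l : Finset (Fin m)) :
    τ.lead (ρ.Hw cs (τ.twist t Z)) l = ρ.val Z (stF m t cs l) :=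
  lead_eq' τ ht hZ hV cs l

/-- KEY LEMMA, second part -/
theorem good_twist {ρ : GLRep K V m} (τ : Tw ρ) {t : ℕ} (ht : t ≤ m) {Z : Submodule K V}
    (hZ : ρ.Good Z) (hV : Z ≤ τ.V') : ρ.Good (τ.twist t Z) :=
  ⟨τ.twist_BSt hZ.1 hV, fun cs c h => (key_step τ ht hZ hV c h cs (lead_eq' τ ht hZ hV cs)).2⟩

/-- dimensions, for all words -/
theorem finrank_key' {ρ : GLRep K V m} (τ : Tw ρ) {t : ℕ} (ht : t ≤ m) {Z : Submodule K V}
    (hZ : ρ.Good Z) (hV : Z ≤ τ.V') (cs : List ℕ) :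
    finrank K (ρ.Hw cs (τ.twist t Z)) =
      ∑ l ∈ univ.filter (fun l : Finset (Fin m) => l.card = t),
        finrank K (ρ.val Z (stF m t cs l)) := by
  have hYB : ρ.BSt (ρ.Hw cs (τ.twist t Z)) := ρ.BSt_Hw (τ.twist_BSt hZ.1 hV) cs
  have hYt := twist_Hw_le_tot τ ht hV cs (Z := Z)
  have key : ∀ {U : Submodule K V}, ρ.toGrading.Stable U → finrank K U = ∑ᶠ μ, ρ.wd U μ := by
    intro U hU
    rw [ρ.finrank_eq_sum hU, finsum_eq_sum_of_support_subset]
    intro μ hμ
    by_contra hcon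
    exact hμ (ρ.wd_zero hcon)
  rw [key hYB.st]
  have h1 : ∀ μ, ρ.wd (ρ.Hw cs (τ.twist t Z)) μ =
      ∑ l ∈ univ.filter (fun l : Finset (Fin m) => l.card = t),
        ρ.wd (ρ.val Z (stF m t cs l)) (μ - wtS l) := by
    intro μ
    rw [τ.wd_eq_sum hYB.st hYt μ]
    exact Finset.sum_congr rfl fun l _ => by rw [lead_eq' τ ht hZ hV]
  simp only [h1]
  have hfin : ∀ U : Submodule K V, (Function.support (ρ.wd U)).Finite := by
    intro U
    apply ρ.supp.finite_toSet.subset
    intro μ hμ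
    by_contra hcon
    exact hμ (ρ.wd_zero hcon)
  rw [finsum_sum_comm]
  · refine Finset.sum_congr rfl fun l _ => ?_
    rw [key (ρ.BSt_val hZ.1 _).st]
    exact finsum_comp_equiv (Equiv.subRight (wtS l))
  · intro l _
    have h2 := (hfin (ρ.val Z (stF m t cs l))).preimage
      ((Equiv.subRight (wtS l)).injective.injOn (s := _))
    exact h2

/-- consequence: dimensions -/
theorem finrank_key {ρ : GLRep K V m} (τ : Tw ρ) {t : ℕ} (ht : t ≤ m) {Z : Submodule K V}
    (hZ : ρ.Good Z) (hV : Z ≤ τ.V') (cs : List ℕ) (_hr : Red m cs) :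
    finrank K (ρ.Hw cs (τ.twist t Z)) =
      ∑ l ∈ univ.filter (fun l : Finset (Fin m) => l.card = t),
        finrank K (ρ.val Z (stF m t cs l)) :=
  finrank_key' τ ht hZ hV cs

end Gao
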