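import Mathlib
import Pool.Agent.Gao.GKey

/-!
# Gao project, PART G, programs

MODULE GRun (about 200 lines, bookkeeping).

* `good_T`: `Good Z → Good (T c Z)`: `Hw cs (T c Z) = Hw (cs ++ [c]) Z`; `BSt_T`.
* `run_mem`: for a slot `q` not in `slotsOf L` the space `run tw B L Z` is contained in `(tw q).V'` (Start, `stE` for `f_c`, `ins_mem`).
* `good_run`: induction on the program; the twist step is `good_twist` and `run_mem` (`slotsOf` has no duplicates, so the slot of the
  head does not occur in the tail).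
* `run_congr`: `run` depends only on `B ∩ slots`.
* `chP`: the character of a run as a function computed by the program, i.e. the relation `IsRun`.
* `ext_run`: for `q ∈ slotsOf L`, `q ∉ B`: `(tw q).ext l' (run (insert q B) L Z) ≤ run B L Z` for every `l'` with `l'.card = sz q`: induction:
  `T c`: `ext_f` and `T_induction`: `ext l' (f^k y) = f^k (ext l' y) + k [..] f^(k-1) (ext (swS l') y)`;
  `tw p t`, `p ≠ q`: `ext_q l' (ins_p ω z) = ε ins_p ω (ext_q l' z)` for `z ∈ V'_p` (`comm`); `tw q t`: `ext_q l' (ins_q ω z) = [l' = ω] z`.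
  Hence `con φ q` maps `run (insert q B) L Z` into `run B L Z`.
* `con_con`: for `p ≠ q` and `y ∈ run ..`: if `con φ q y = 0` then `con φ q (con φ' p y) = 0`.  By `run_le_tot` `y = Σ ins_p l (ext_p l y)`;
  `0 = con_q y = Σ ε_l ins_p l (con_q (ext_p l y))` so `con_q (ext_p l y) = 0` for all `l` (apply `ext_p l`), hence the claim.
-/

namespace Gao

open Finset Module

variable {K V : Type*} [Field K] [CharZero K] [AddCommGroup V] [Module K V] [FiniteDimensional K V]
  {m : ℕ} {ρ : GLRep K V m} {P : Type*} [DecidableEq P]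

theorem GLRep.Good.T {Z : Submodule K V} (h : ρ.Good Z) (c : ℕ) : ρ.Good (ρ.T c Z) := by
  refine ⟨ρ.BSt_T h.1 c, ?_⟩
  intro cs d hd
  have hH : ρ.Hw cs (ρ.T c Z) = ρ.Hw (cs ++ [c]) Z := by
    unfold GLRep.Hw
    rw [List.foldr_append]
    rfl
  rw [hH]
  exact h.2 (cs ++ [c]) d hd

/-- programs with good sizes -/
def SizeOK (m : ℕ) : List (Ins P) → Prop
  | [] => True
  | Ins.T _ :: L => SizeOK m L
  | Ins.tw _ t :: L => t ≤ m ∧ SizeOK m L

namespace GRunAux

omit [CharZero K] [FiniteDimensional K V] in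
lemma f_mem_V' (τ : Tw ρ) (c : ℕ) : ∀ z ∈ τ.V', ρ.f c z ∈ τ.V' := by
  intro z hz
  unfold GLRep.f
  split_ifs with h
  · exact τ.stE _ _ z hz
  · exact Submodule.zero_mem _

omit [CharZero K] [FiniteDimensional K V] in
lemma f_zero {c : ℕ} (h : ¬ c + 1 < m) : ρ.f c = 0 := by
  unfold GLRep.f
  rw [dif_neg h]

lemma sized_sizeOK (σ : Slots ρ P) (L : List (Ins P)) (hs : Sized σ L) : SizeOK m L := by
  induction L with
  | nil => trivial
  | cons i L ih =>
    cases i with
    | T c => exact ih hs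
    | tw p t => exact ⟨hs.2.1, ih hs.2.2⟩

end GRunAux

theorem run_le_V' (σ : Slots ρ P) {Z : Submodule K V} (hZ : Start σ Z) (B : Finset P)
    (L : List (Ins P)) (q : P) (hq : q ∉ slotsOf L) : run σ.tw B L Z ≤ (σ.tw q).V' := by
  induction L with
  | nil => exact hZ.mem q
  | cons i L ih =>
    cases i with
    | T c => exact ρ.T_le (ih hq) (GRunAux.f_mem_V' _ c)
    | tw p t =>
      have hq' : q ≠ p ∧ q ∉ slotsOf L := by
        simpa [slotsOf] using hq
      by_cases hp : p ∈ B
      · rw [run, if_pos hp]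
        rintro _ ⟨z, hz, rfl⟩
        exact σ.ins_mem p q (Ne.symm hq'.1) _ z (ih hq'.2 hz)
      · rw [run, if_neg hp]
        exact ih hq'.2

theorem good_run (σ : Slots ρ P) {Z : Submodule K V} (hZ : Start σ Z) (B : Finset P)
    (L : List (Ins P)) (hL : (slotsOf L).Nodup) (hs : SizeOK m L) : ρ.Good (run σ.tw B L Z) := by
  induction L with
  | nil => exact hZ.good
  | cons i L ih =>
    cases i with
    | T c => exact (ih hL hs).T c
    | tw p t =>
      have hL' : p ∉ slotsOf L ∧ (slotsOf L).Nodup := List.nodup_cons.mp hL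
      by_cases hp : p ∈ B
      · rw [run, if_pos hp]
        exact good_twist (σ.tw p) hs.1 (ih hL'.2 hs.2) (run_le_V' σ hZ B L p hL'.1)
      · rw [run, if_neg hp]
        exact ih hL'.2 hs.2

namespace GRunAux

lemma run_congr (tw : P → Tw ρ) (Z : Submodule K V) (B B' : Finset P) (L : List (Ins P))
    (h : ∀ p ∈ slotsOf L, (p ∈ B ↔ p ∈ B')) : run tw B L Z = run tw B' L Z := by
  induction L with
  | nil => rfl
  | cons i L ih =>
    cases i with
    | T c =>
      change ρ.T c (run tw B L Z) = ρ.T c (run tw B' L Z)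
      rw [ih h]
    | tw p t =>
      have hL : run tw B L Z = run tw B' L Z := ih (fun p' hp' => h p' (List.mem_cons_of_mem _ hp'))
      have hp : p ∈ B ↔ p ∈ B' := h p List.mem_cons_self
      rw [run, run, hL]
      by_cases hpB : p ∈ B
      · rw [if_pos hpB, if_pos (hp.mp hpB)]
      · rw [if_neg hpB, if_neg (fun h' => hpB (hp.mpr h'))]

lemma run_insert (tw : P → Tw ρ) (Z : Submodule K V) (B : Finset P) (L : List (Ins P)) (q : P)
    (h : q ∉ slotsOf L) : run tw (insert q B) L Z = run tw B L Z := by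
  refine run_congr tw Z _ _ L (fun p hp => ?_)
  have hpq : p ≠ q := fun h' => h (h' ▸ hp)
  rw [Finset.mem_insert]
  exact ⟨fun h' => h'.resolve_left hpq, Or.inr⟩

end GRunAux

/-- an executed slot: the run lies in `tot`. Head `T c`: `T_le_tot`; head `tw p`: `twist_le_tot`; head `tw q`, `q ≠ p`, executed:
`y = ins_q ω z`, `z ∈ tot_p ∩ V'_q`: by `comm` (pair q, p; same ε, ε² = 1) `Σ_l ins_p l (ext_p l y) = Σ_l ε ε ins_q ω (ins_p l (ext_p l z)) = y`. -/
theorem run_le_tot (σ : Slots ρ P) {Z : Submodule K V} (hZ : Start σ Z) (B : Finset P)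
    (L : List (Ins P)) (hL : (slotsOf L).Nodup) (hs : Sized σ L) (p : P) (hp : p ∈ slotsOf L)
    (hpB : p ∈ B) : run σ.tw B L Z ≤ (σ.tw p).tot (σ.sz p) := by
  induction L with
  | nil => simp [slotsOf] at hp
  | cons i L ih =>
    cases i with
    | T c => exact Tw.T_le_tot _ c (ih hL hs hp)
    | tw r t =>
      have hL' : r ∉ slotsOf L ∧ (slotsOf L).Nodup := List.nodup_cons.mp hL
      obtain ⟨ht, htm, hs'⟩ := hs
      by_cases hrp : r = p
      · subst hrp
        rw [run, if_pos hpB, ← ht]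
        exact Tw.twist_le_tot _ htm (run_le_V' σ hZ B L r hL'.1)
      · have hpL : p ∈ slotsOf L := by
          have : p = r ∨ p ∈ slotsOf L := List.mem_cons.mp hp
          exact this.resolve_left (fun h => hrp h.symm)
        have ih' := ih hL'.2 hs' hpL
        by_cases hr : r ∈ B
        · rw [run, if_pos hr]
          rintro _ ⟨z, hz, rfl⟩
          have hzt : z = ∑ l ∈ univ.filter (fun l : Finset (Fin m) => l.card = σ.sz p),
              (σ.tw p).ins l ((σ.tw p).ext l z) := ih' hz
          have hzV : z ∈ (σ.tw r).V' := run_le_V' σ hZ B L r hL'.1 hz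
          obtain ⟨ε, hε, hc⟩ := σ.comm r p hrp (ini m t)
          change (σ.tw r).ins (ini m t) z = ∑ l ∈ univ.filter
            (fun l : Finset (Fin m) => l.card = σ.sz p),
              (σ.tw p).ins l ((σ.tw p).ext l ((σ.tw r).ins (ini m t) z))
          have hterm : ∀ l ∈ univ.filter (fun l : Finset (Fin m) => l.card = σ.sz p),
              (σ.tw p).ins l ((σ.tw p).ext l ((σ.tw r).ins (ini m t) z)) =
                (σ.tw r).ins (ini m t) ((σ.tw p).ins l ((σ.tw p).ext l z)) := by
            intro l hl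
            obtain ⟨h1, h2⟩ := hc l (Finset.mem_filter.mp hl).2
            rw [h1 z hzV, map_smul, h2 _ (σ.ext_mem p r (Ne.symm hrp) l z hzV)
              ((σ.tw p).ext_mem l z), smul_smul, hε, one_smul]
          rw [Finset.sum_congr rfl hterm, ← map_sum, ← hzt]
        · rw [run, if_neg hr]
          exact ih'

/-- the character of a run, as a relation -/
inductive IsRun (m : ℕ) (B : Finset P) (f0 : Chr m) : List (Ins P) → Chr m → Prop
  | nil : IsRun m B f0 [] f0
  | T (c : ℕ) (h : c + 1 < m) (L : List (Ins P)) (f g : Chr m) (hf : IsRun m B f0 L f)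
      (hg : IsDem c h f g) : IsRun m B f0 (Ins.T c :: L) g
  | Tbig (c : ℕ) (h : ¬ c + 1 < m) (L : List (Ins P)) (f : Chr m) (hf : IsRun m B f0 L f) :
      IsRun m B f0 (Ins.T c :: L) f
  | tw (p : P) (t : ℕ) (L : List (Ins P)) (f : Chr m) (hp : p ∈ B) (hf : IsRun m B f0 L f) :
      IsRun m B f0 (Ins.tw p t :: L) (sh (ini m t) f)
  | tw' (p : P) (t : ℕ) (L : List (Ins P)) (f : Chr m) (hp : p ∉ B) (hf : IsRun m B f0 L f) :
      IsRun m B f0 (Ins.tw p t :: L) f

namespace GRunAux

omit [CharZero K] [FiniteDimensional K V] in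
lemma ch_twist (τ : Tw ρ) (t : ℕ) {Y : Submodule K V} (hY : Y ≤ τ.V') :
    ρ.ch (τ.twist t Y) = sh (ini m t) (ρ.ch Y) := by
  funext μ
  change (ρ.wd (τ.twist t Y) μ : ℤ) = (ρ.wd Y (μ - wtS (ini m t)) : ℤ)
  unfold GLRep.wd Tw.twist
  have h1 : (Y.map (τ.ins (ini m t))).map (ρ.π μ) =
      (Y.map (ρ.π (μ - wtS (ini m t)))).map (τ.ins (ini m t)) := by
    ext x
    constructor
    · rintro ⟨_, ⟨z, hz, rfl⟩, rfl⟩
      exact ⟨_, ⟨z, hz, rfl⟩, (τ.pr_ins _ _ z (hY hz)).symm⟩
    · rintro ⟨_, ⟨z, hz, rfl⟩, rfl⟩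
      exact ⟨_, ⟨z, hz, rfl⟩, τ.pr_ins _ _ z (hY hz)⟩
  rw [h1]
  have h2 : Y.map (ρ.π (μ - wtS (ini m t))) ≤ τ.V' := by
    rintro _ ⟨z, hz, rfl⟩
    exact τ.st _ z (hY hz)
  congr 1
  refine (LinearEquiv.finrank_eq (LinearEquiv.ofBijective
    ((τ.ins (ini m t)).submoduleMap (Y.map (ρ.π (μ - wtS (ini m t))))) ⟨?_, ?_⟩)).symm
  · rintro ⟨x, hx⟩ ⟨y, hy⟩ hxy
    have hxy' : τ.ins (ini m t) x = τ.ins (ini m t) y := congrArg Subtype.val hxy
    have h3 := τ.ext_ins (ini m t) (ini m t) x (h2 hx)
    have h4 := τ.ext_ins (ini m t) (ini m t) y (h2 hy)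
    rw [if_pos rfl] at h3 h4
    apply Subtype.ext
    change x = y
    rw [← h3, ← h4, hxy']
  · exact LinearMap.submoduleMap_surjective _ _

end GRunAux

theorem isRun_run (σ : Slots ρ P) {Z : Submodule K V} (hZ : Start σ Z) (B : Finset P)
    (L : List (Ins P)) (hL : (slotsOf L).Nodup) (hs : SizeOK m L) :
    IsRun m B (ρ.ch Z) L (ρ.ch (run σ.tw B L Z)) := by
  induction L with
  | nil => exact IsRun.nil
  | cons i L ih =>
    cases i with
    | T c =>
      by_cases h : c + 1 < m
      · exact IsRun.T c h L _ _ (ih hL hs) ((good_run σ hZ B L hL hs).2 [] c h)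
      · have h1 : run σ.tw B (Ins.T c :: L) Z = run σ.tw B L Z := by
          change ρ.T c (run σ.tw B L Z) = run σ.tw B L Z
          apply ρ.T_eq_self
          intro z _
          rw [GRunAux.f_zero h]
          exact Submodule.zero_mem _
        rw [h1]
        exact IsRun.Tbig c h L _ (ih hL hs)
    | tw p t =>
      have hL' : p ∉ slotsOf L ∧ (slotsOf L).Nodup := List.nodup_cons.mp hL
      by_cases hp : p ∈ B
      · rw [run, if_pos hp, GRunAux.ch_twist _ _ (run_le_V' σ hZ B L p hL'.1)]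
        exact IsRun.tw p t L _ hp (ih hL'.2 hs.2)
      · rw [run, if_neg hp]
        exact IsRun.tw' p t L _ hp (ih hL'.2 hs.2)

theorem IsRun.unique {m : ℕ} {B : Finset P} {f0 : Chr m} {L : List (Ins P)} {f g : Chr m}
    (hf : IsRun m B f0 L f) (hg : IsRun m B f0 L g) : f = g := by
  induction hf generalizing g with
  | nil => cases hg; rfl
  | T c h L f f' hf hff' ih =>
    cases hg with
    | T _ _ _ g _ hg hgg' =>
      have := ih hg
      subst this
      exact hff'.unique hgg'
    | Tbig _ h' => exact absurd h h'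
  | Tbig c h L f hf ih =>
    cases hg with
    | T _ h' _ g _ hg hgg' => exact absurd h' h
    | Tbig _ _ _ _ hg => exact ih hg
  | tw p t L f hp hf ih =>
    cases hg with
    | tw _ _ _ g _ hg => rw [ih hg]
    | tw' _ _ _ _ hp' => exact absurd hp hp'
  | tw' p t L f hp hf ih =>
    cases hg with
    | tw _ _ _ g hp' hg => exact absurd hp' hp
    | tw' _ _ _ _ _ hg => exact ih hg

theorem ext_run (σ : Slots ρ P) {Z : Submodule K V} (hZ : Start σ Z) (B : Finset P)
    (L : List (Ins P)) (hL : (slotsOf L).Nodup) (hs : Sized σ L) (q : P) (hq : q ∈ slotsOf L)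
    (hqB : q ∉ B) (l : Finset (Fin m)) (hl : l.card = σ.sz q) :
    ∀ y ∈ run σ.tw (insert q B) L Z, (σ.tw q).ext l y ∈ run σ.tw B L Z := by
  induction L generalizing l with
  | nil => simp [slotsOf] at hq
  | cons i L ih =>
    cases i with
    | T c =>
      have ih' := ih hL hs hq
      have key : ∀ (k : ℕ) (z : V), z ∈ run σ.tw (insert q B) L Z → ∀ l : Finset (Fin m),
          l.card = σ.sz q → (σ.tw q).ext l ((ρ.f c ^ k) z) ∈ ρ.T c (run σ.tw B L Z) := by
        intro k
        induction k with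
        | zero =>
          intro z hz l hl
          rw [pow_zero, Module.End.one_apply]
          exact ρ.le_T c _ (ih' l hl z hz)
        | succ k ihk =>
          intro z hz l hl
          rw [pow_succ', Module.End.mul_apply]
          by_cases h : c + 1 < m
          · rw [(σ.tw q).ext_f c h]
            refine Submodule.add_mem _ ?_ (ρ.f_mem_T (ihk z hz l hl))
            split_ifs with hc
            · exact ihk z hz _ (by rw [swS, Finset.card_map]; exact hl)
            · exact Submodule.zero_mem _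
          · rw [GRunAux.f_zero h, LinearMap.zero_apply, map_zero]
            exact Submodule.zero_mem _
      intro y hy
      change (σ.tw q).ext l y ∈ ρ.T c (run σ.tw B L Z)
      refine ρ.T_induction (p := fun y => (σ.tw q).ext l y ∈ ρ.T c (run σ.tw B L Z)) ?_ ?_ ?_ y hy
      · change (σ.tw q).ext l 0 ∈ _
        rw [map_zero]
        exact Submodule.zero_mem _
      · intro x y hx hy
        change (σ.tw q).ext l (x + y) ∈ _
        rw [map_add]
        exact Submodule.add_mem _ hx hy
      · intro k z hz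
        exact key k z hz l hl
    | tw p t =>
      have hL' : p ∉ slotsOf L ∧ (slotsOf L).Nodup := List.nodup_cons.mp hL
      obtain ⟨ht, htm, hs'⟩ := hs
      by_cases hpq : p = q
      · subst hpq
        rw [run, run, if_pos (Finset.mem_insert_self _ _), if_neg hqB]
        rintro _ ⟨z, hz, rfl⟩
        rw [GRunAux.run_insert _ _ _ _ _ hL'.1] at hz
        rw [(σ.tw p).ext_ins _ _ z (run_le_V' σ hZ B L p hL'.1 hz)]
        split_ifs with h
        · exact hz
        · exact Submodule.zero_mem _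
      · have hqL : q ∈ slotsOf L := by
          have : q = p ∨ q ∈ slotsOf L := List.mem_cons.mp hq
          exact this.resolve_left (fun h => hpq h.symm)
        have ih' := ih hL'.2 hs' hqL l hl
        by_cases hp : p ∈ B
        · rw [run, run, if_pos (Finset.mem_insert_of_mem hp), if_pos hp]
          rintro _ ⟨z, hz, rfl⟩
          obtain ⟨ε, hε, hc⟩ := σ.comm p q hpq (ini m t)
          rw [(hc l hl).1 z (run_le_V' σ hZ _ L p hL'.1 hz)]
          exact Submodule.smul_mem _ _ ⟨_, ih' z hz, rfl⟩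
        · have hp' : p ∉ insert q B := by
            rw [Finset.mem_insert]
            rintro (h | h)
            · exact hpq h
            · exact hp h
          rw [run, run, if_neg hp', if_neg hp]
          exact ih'

theorem con_run (σ : Slots ρ P) {Z : Submodule K V} (hZ : Start σ Z) (B : Finset P)
    (L : List (Ins P)) (hL : (slotsOf L).Nodup) (hs : Sized σ L) (q : P) (hq : q ∈ slotsOf L)
    (hqB : q ∉ B) (φ : Finset (Fin m) → K) :
    ∀ y ∈ run σ.tw (insert q B) L Z, σ.con φ q y ∈ run σ.tw B L Z := by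
  intro y hy
  unfold Slots.con
  rw [LinearMap.sum_apply]
  refine Submodule.sum_mem _ (fun l hl => ?_)
  rw [LinearMap.smul_apply]
  exact Submodule.smul_mem _ _ (ext_run σ hZ B L hL hs q hq hqB l (Finset.mem_filter.mp hl).2 y hy)

theorem con_con (σ : Slots ρ P) {Z : Submodule K V} (hZ : Start σ Z) (B : Finset P)
    (L : List (Ins P)) (hL : (slotsOf L).Nodup) (hs : Sized σ L) (p q : P) (hpq : p ≠ q)
    (hp : p ∈ slotsOf L) (hq : q ∈ slotsOf L) (hpB : p ∈ B) (hqB : q ∈ B)
    (φ φ' : Finset (Fin m) → K) :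
    ∀ y ∈ run σ.tw B L Z, σ.con φ q y = 0 → σ.con φ q (σ.con φ' p y) = 0 := by
  intro y hy h0
  have hyt : y = ∑ l ∈ univ.filter (fun l : Finset (Fin m) => l.card = σ.sz p),
      (σ.tw p).ins l ((σ.tw p).ext l y) := run_le_tot σ hZ B L hL hs p hp hpB hy
  have hconV : ∀ z ∈ (σ.tw p).V', σ.con φ q z ∈ (σ.tw p).V' := by
    intro z hz
    unfold Slots.con
    rw [LinearMap.sum_apply]
    refine Submodule.sum_mem _ (fun l hl => ?_)
    rw [LinearMap.smul_apply]
    exact Submodule.smul_mem _ _ (σ.ext_mem q p (Ne.symm hpq) l z hz)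
  have hcc : ∀ l : Finset (Fin m), ∃ ε : K, ε * ε = 1 ∧ ∀ z ∈ (σ.tw p).V',
      σ.con φ q ((σ.tw p).ins l z) = ε • (σ.tw p).ins l (σ.con φ q z) := by
    intro l
    obtain ⟨ε, hε, hc⟩ := σ.comm p q hpq l
    refine ⟨ε, hε, fun z hz => ?_⟩
    unfold Slots.con
    rw [LinearMap.sum_apply, LinearMap.sum_apply, map_sum, Finset.smul_sum]
    refine Finset.sum_congr rfl (fun l' hl' => ?_)
    rw [LinearMap.smul_apply, LinearMap.smul_apply, map_smul,
      (hc l' (Finset.mem_filter.mp hl').2).1 z hz, smul_comm]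
  choose ε hε hc using hcc
  have h1 : ∑ l ∈ univ.filter (fun l : Finset (Fin m) => l.card = σ.sz p),
      ε l • (σ.tw p).ins l (σ.con φ q ((σ.tw p).ext l y)) = 0 := by
    have h2 := congrArg (σ.con φ q) hyt
    rw [h0, map_sum] at h2
    rw [h2]
    exact Finset.sum_congr rfl (fun l _ => (hc l _ ((σ.tw p).ext_mem l y)).symm)
  have h3 : ∀ l0 ∈ univ.filter (fun l : Finset (Fin m) => l.card = σ.sz p),
      σ.con φ q ((σ.tw p).ext l0 y) = 0 := by
    intro l0 hl0
    have h4 := congrArg ((σ.tw p).ext l0) h1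
    rw [map_sum, map_zero] at h4
    have h5 : ∀ l ∈ univ.filter (fun l : Finset (Fin m) => l.card = σ.sz p),
        (σ.tw p).ext l0 (ε l • (σ.tw p).ins l (σ.con φ q ((σ.tw p).ext l y))) =
          if l = l0 then ε l0 • σ.con φ q ((σ.tw p).ext l0 y) else 0 := by
      intro l _
      rw [map_smul, (σ.tw p).ext_ins _ _ _ (hconV _ ((σ.tw p).ext_mem l y))]
      by_cases h : l = l0
      · subst h
        rw [if_pos rfl, if_pos rfl]
      · rw [if_neg h, if_neg (fun h' => h h'.symm), smul_zero]
    rw [Finset.sum_congr rfl h5, Finset.sum_ite_eq', if_pos hl0] at h4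
    have h6 := congrArg (fun z => ε l0 • z) h4
    simp only [smul_smul, hε, one_smul, smul_zero] at h6
    exact h6
  have h7 : σ.con φ' p y = ∑ l ∈ univ.filter (fun l : Finset (Fin m) => l.card = σ.sz p),
      φ' l • (σ.tw p).ext l y := by
    unfold Slots.con
    rw [LinearMap.sum_apply]
    rfl
  rw [h7, map_sum]
  refine Finset.sum_eq_zero (fun l hl => ?_)
  rw [map_smul, h3 l hl, smul_zero]

end Gao
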