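import Mathlib

/-!
# Good families of subspaces and the final dimension argument

`LGood Q Y`: a monotone family `Y S` (`S ⊆ Q`) of subspaces of one space with
`Y S ∩ ∑_{i ∈ I} Y (S + p - i) = ∑_{i ∈ I} Y (S - i)` for `I ⊆ S`, `p ∈ Q \ S`.

* `LGood.alt_nonneg`: `0 ≤ ∑_{T ⊆ Q} (-1)^|T| dim Y (Q \ T)`.
* `LGood.ker`: if `C (Y S) = Z S`, `Y` and `Z` good, then `S ↦ Y S ∩ ker C` is good.
* `final`: the double alternating sum is nonnegative.
-/

set_option autoImplicit false

namespace Pool.Agent.Gao

open Finset Module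

variable {K V V' : Type*} [Field K] [AddCommGroup V] [Module K V] [AddCommGroup V'] [Module K V']
variable {ι κ : Type*} [DecidableEq ι] [DecidableEq κ]

/-- good families of subspaces -/
structure LGood (Q : Finset ι) (Y : Finset ι → Submodule K V) : Prop where
  mono : ∀ S S', S ⊆ S' → S' ⊆ Q → Y S ≤ Y S'
  dist : ∀ (S I : Finset ι) (p : ι), S ⊆ Q → I ⊆ S → p ∈ Q → p ∉ S →
    Y S ⊓ (⨆ i ∈ I, Y ((insert p S).erase i)) ≤ ⨆ i ∈ I, Y (S.erase i)

/-- elements of a finite sum of subspaces -/
theorem mem_biSup_iff {I : Finset ι} {W : ι → Submodule K V} {x : V} :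
    x ∈ (⨆ i ∈ I, W i) ↔ ∃ y : ι → V, (∀ i ∈ I, y i ∈ W i) ∧ ∑ i ∈ I, y i = x := by
  constructor
  · intro h
    induction I using Finset.induction_on generalizing x with
    | empty =>
      simp only [notMem_empty, not_false_eq_true, iSup_neg, iSup_bot, Submodule.mem_bot] at h
      exact ⟨fun _ => 0, by simp, by simp [h]⟩
    | insert p I hp ih =>
      rw [Finset.iSup_insert, Submodule.mem_sup] at h
      obtain ⟨a, ha, b, hb, rfl⟩ := h
      obtain ⟨y, hy, hs⟩ := ih hb
      refine ⟨fun i => if i = p then a else y i, ?_, ?_⟩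
      · intro i hi
        rw [mem_insert] at hi
        dsimp only
        by_cases h : i = p
        · rw [if_pos h, h]; exact ha
        · rw [if_neg h]; exact hy i (hi.resolve_left h)
      · rw [sum_insert hp, if_pos rfl, ← hs]
        congr 1
        apply sum_congr rfl
        intro i hi
        rw [if_neg]
        rintro rfl
        exact hp hi
  · rintro ⟨y, hy, rfl⟩
    apply Submodule.sum_mem
    intro i hi
    exact Submodule.mem_iSup_of_mem i (Submodule.mem_iSup_of_mem hi (hy i hi))

namespace LGood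

variable {Q : Finset ι} {Y : Finset ι → Submodule K V} {Z : Finset ι → Submodule K V'}

theorem sup_le (h : LGood Q Y) {S I : Finset ι} (hS : S ⊆ Q) :
    (⨆ i ∈ I, Y (S.erase i)) ≤ Y S := by
  refine iSup₂_le fun i _ => h.mono _ _ (erase_subset i S) hS

/-- the dimension formula -/
theorem dim_formula [FiniteDimensional K V] (h : LGood Q Y) (I : Finset ι) :
    ∀ S : Finset ι, S ⊆ Q → I ⊆ S →
      ∑ T ∈ I.powerset, (-1 : ℤ) ^ T.card * (finrank K (Y (S \ T)) : ℤ) =
        (finrank K (Y S) : ℤ) - (finrank K (⨆ i ∈ I, Y (S.erase i) : Submodule K V) : ℤ) := by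
  induction I using Finset.induction_on with
  | empty =>
    intro S _ _
    have h1 : (⨆ i ∈ (∅ : Finset ι), Y (S.erase i)) = ⊥ := by simp
    rw [powerset_empty, sum_singleton, sdiff_empty, card_empty, pow_zero, one_mul, h1, finrank_bot]
    simp
  | insert p I hp ih =>
    intro S hS hI
    have hpS : p ∈ S := hI (mem_insert_self p I)
    have hIS : I ⊆ S := fun i hi => hI (mem_insert_of_mem hi)
    have hIS0 : I ⊆ S.erase p := fun i hi => mem_erase.2 ⟨fun h' => hp (h' ▸ hi), hIS hi⟩
    have hS0 : S.erase p ⊆ Q := (erase_subset p S).trans hS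
    rw [sum_powerset_insert hp, ih S hS hIS]
    have e1 : ∑ T ∈ I.powerset, (-1 : ℤ) ^ (insert p T).card * (finrank K (Y (S \ insert p T)) : ℤ) =
        -∑ T ∈ I.powerset, (-1 : ℤ) ^ T.card * (finrank K (Y (S.erase p \ T)) : ℤ) := by
      rw [← sum_neg_distrib]
      apply sum_congr rfl
      intro T hT
      rw [mem_powerset] at hT
      rw [card_insert_of_notMem (fun h' => hp (hT h')), pow_succ]
      have h3 : S \ insert p T = S.erase p \ T := by
        ext a
        simp only [mem_sdiff, mem_insert, mem_erase]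
        tauto
      rw [h3]
      ring
    rw [e1, ih (S.erase p) hS0 hIS0, Finset.iSup_insert]
    have h4 := Submodule.finrank_sup_add_finrank_inf_eq (Y (S.erase p))
      (⨆ i ∈ I, Y (S.erase i) : Submodule K V)
    have h5 : Y (S.erase p) ⊓ (⨆ i ∈ I, Y (S.erase i)) = ⨆ i ∈ I, Y ((S.erase p).erase i) := by
      apply le_antisymm
      · have h6 := h.dist (S.erase p) I p hS0 hIS0 (hS hpS) (notMem_erase p S)
        rw [insert_erase hpS] at h6
        exact h6
      · refine le_inf (h.sup_le hS0) ?_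
        refine iSup₂_mono fun i hi => h.mono _ _ ?_ ((erase_subset i S).trans hS)
        rw [erase_right_comm]
        exact erase_subset p _
    rw [h5] at h4
    have h6 : (finrank K (Y (S.erase p) ⊔ (⨆ i ∈ I, Y (S.erase i)) : Submodule K V) : ℤ) +
        (finrank K (⨆ i ∈ I, Y ((S.erase p).erase i) : Submodule K V) : ℤ) =
        (finrank K (Y (S.erase p)) : ℤ) + (finrank K (⨆ i ∈ I, Y (S.erase i) : Submodule K V) : ℤ) := by
      exact_mod_cast h4
    linarith

theorem alt_nonneg [FiniteDimensional K V] (h : LGood Q Y) :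
    0 ≤ ∑ T ∈ Q.powerset, (-1 : ℤ) ^ T.card * (finrank K (Y (Q \ T)) : ℤ) := by
  rw [h.dim_formula Q Q (Subset.refl _) (Subset.refl _)]
  have h1 : finrank K (⨆ i ∈ Q, Y (Q.erase i) : Submodule K V) ≤ finrank K (Y Q) :=
    Submodule.finrank_mono (h.sup_le (Subset.refl _))
  have h2 : (finrank K (⨆ i ∈ Q, Y (Q.erase i) : Submodule K V) : ℤ) ≤ (finrank K (Y Q) : ℤ) := by
    exact_mod_cast h1
  linarith

/-- correction of the summands by elements with zero image -/
theorem lift_sum (hY : LGood Q Y) (hZ : LGood Q Z) (C : V →ₗ[K] V')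
    (hC : ∀ S, S ⊆ Q → (Y S).map C = Z S) (I : Finset ι) :
    ∀ S : Finset ι, S ⊆ Q → I ⊆ S → ∀ y : ι → V, (∀ i ∈ I, y i ∈ Y (S.erase i)) →
      ∑ i ∈ I, C (y i) = 0 →
      ∃ y' : ι → V, (∀ i ∈ I, y' i ∈ Y (S.erase i) ∧ C (y' i) = 0) ∧
        ∑ i ∈ I, y' i = ∑ i ∈ I, y i := by
  induction I using Finset.induction_on with
  | empty =>
    intro S _ _ y _ _
    exact ⟨y, by simp, rfl⟩
  | insert p I hp ih =>
    intro S hS hI y hy h0
    have hpS : p ∈ S := hI (mem_insert_self p I)
    have hIS : I ⊆ S := fun i hi => hI (mem_insert_of_mem hi)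
    have hIS0 : I ⊆ S.erase p := fun i hi => mem_erase.2 ⟨fun h' => hp (h' ▸ hi), hIS hi⟩
    have hS0 : S.erase p ⊆ Q := (erase_subset p S).trans hS
    rw [sum_insert hp] at h0
    have h1 : C (y p) ∈ Z (S.erase p) := by
      rw [← hC _ hS0]
      exact Submodule.mem_map_of_mem (hy p (mem_insert_self p I))
    have h2 : C (y p) ∈ ⨆ i ∈ I, Z (S.erase i) := by
      rw [eq_neg_of_add_eq_zero_left h0]
      apply Submodule.neg_mem
      apply Submodule.sum_mem
      intro i hi
      refine Submodule.mem_iSup_of_mem i (Submodule.mem_iSup_of_mem hi ?_)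
      rw [← hC _ ((erase_subset i S).trans hS)]
      exact Submodule.mem_map_of_mem (hy i (mem_insert_of_mem hi))
    have h3 : C (y p) ∈ ⨆ i ∈ I, Z ((S.erase p).erase i) := by
      have h6 := hZ.dist (S.erase p) I p hS0 hIS0 (hS hpS) (notMem_erase p S)
      rw [insert_erase hpS] at h6
      exact h6 ⟨h1, h2⟩
    obtain ⟨c, hc, hcs⟩ := mem_biSup_iff.1 h3
    have h4 : ∀ i, ∃ d : V, i ∈ I → d ∈ Y ((S.erase p).erase i) ∧ C d = c i := by
      intro i
      by_cases hi : i ∈ I
      · have h5 := hc i hi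
        rw [← hC _ ((erase_subset i _).trans hS0)] at h5
        obtain ⟨d, hd, hdc⟩ := h5
        exact ⟨d, fun _ => ⟨hd, hdc⟩⟩
      · exact ⟨0, fun h => absurd h hi⟩
    choose d hd using h4
    obtain ⟨y', hy', hs'⟩ := ih S hS hIS (fun i => y i + d i) (by
      intro i hi
      refine Submodule.add_mem _ (hy i (mem_insert_of_mem hi)) ?_
      refine hY.mono _ _ ?_ ((erase_subset i S).trans hS) (hd i hi).1
      rw [erase_right_comm]
      exact erase_subset p _) (by
      have h5 : ∑ i ∈ I, C (y i + d i) = ∑ i ∈ I, C (y i) + ∑ i ∈ I, c i := by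
        rw [← sum_add_distrib]
        apply sum_congr rfl
        intro i hi
        rw [map_add, (hd i hi).2]
      rw [h5, hcs, add_comm]
      exact h0)
    refine ⟨fun i => if i = p then y p - ∑ i ∈ I, d i else y' i, ?_, ?_⟩
    · intro i hi
      rw [mem_insert] at hi
      dsimp only
      by_cases h : i = p
      · subst h
        rw [if_pos rfl]
        constructor
        · refine Submodule.sub_mem _ (hy i (mem_insert_self i I)) (Submodule.sum_mem _ fun j hj => ?_)
          exact hY.mono _ _ (erase_subset j _) hS0 (hd j hj).1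
        · rw [map_sub, map_sum, sum_congr rfl (fun j hj => (hd j hj).2), hcs, sub_self]
      · rw [if_neg h]
        exact hy' i (hi.resolve_left h)
    · rw [sum_insert hp, if_pos rfl, sum_insert hp]
      have h5 : ∑ i ∈ I, (if i = p then y p - ∑ i ∈ I, d i else y' i) = ∑ i ∈ I, y' i := by
        apply sum_congr rfl
        intro i hi
        rw [if_neg]
        rintro rfl
        exact hp hi
      rw [h5, hs', sum_add_distrib]
      abel

/-- kernels of surjections between good families are good -/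
theorem ker (hY : LGood Q Y) (hZ : LGood Q Z) (C : V →ₗ[K] V')
    (hC : ∀ S, S ⊆ Q → (Y S).map C = Z S) : LGood Q (fun S => Y S ⊓ LinearMap.ker C) where
  mono S S' h h' := inf_le_inf_right _ (hY.mono S S' h h')
  dist S I p hS hI hp hpS := by
    rintro x ⟨⟨hx1, hx2⟩, hx3⟩
    have hle : (⨆ i ∈ I, Y ((insert p S).erase i) ⊓ LinearMap.ker C) ≤
        ⨆ i ∈ I, Y ((insert p S).erase i) := iSup₂_mono fun i _ => inf_le_left
    have hx4 : x ∈ ⨆ i ∈ I, Y ((insert p S).erase i) := hle hx3
    have hx5 := hY.dist S I p hS hI hp hpS ⟨hx1, hx4⟩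
    obtain ⟨y, hy, hs⟩ := mem_biSup_iff.1 hx5
    obtain ⟨y', hy', hs'⟩ := lift_sum hY hZ C hC I S hS hI y hy (by
      rw [← map_sum, hs]
      exact hx2)
    refine mem_biSup_iff.2 ⟨y', fun i hi => ⟨(hy' i hi).1, (hy' i hi).2⟩, ?_⟩
    rw [hs', hs]

end LGood

/-! ### The final argument -/

section final

variable (C : κ → V →ₗ[K] V)

/-- the common kernel of the contractions `C q`, `q ∈ I` -/
def cker (I : Finset κ) : Submodule K V := ⨅ q ∈ I, LinearMap.ker (C q)

omit [DecidableEq κ] in
theorem mem_cker {I : Finset κ} {x : V} : x ∈ cker C I ↔ ∀ q ∈ I, C q x = 0 := by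
  simp [cker, Submodule.mem_iInf]

theorem cker_insert (I : Finset κ) (p : κ) : cker C (insert p I) = cker C I ⊓ LinearMap.ker (C p) := by
  ext x
  rw [Submodule.mem_inf, mem_cker, mem_cker, LinearMap.mem_ker]
  constructor
  · intro h
    exact ⟨fun q hq => h q (mem_insert_of_mem hq), h p (mem_insert_self p I)⟩
  · rintro ⟨h1, h2⟩ q hq
    rcases mem_insert.1 hq with rfl | hq
    · exact h2
    · exact h1 q hq

omit [DecidableEq κ] in
theorem cker_empty : cker C (∅ : Finset κ) = ⊤ := by
  simp [cker]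

variable {C}
variable {P : Finset κ} {X : Finset κ → Submodule K V}

/-- image of the partial kernels under the next contraction -/
theorem map_le (hmap : ∀ R p, insert p R ⊆ P → p ∉ R → ∀ x ∈ X (insert p R), C p x ∈ X R)
    (hcomm : ∀ p q, p ≠ q → ∀ R, R ⊆ P → p ∈ R → ∀ x ∈ X R, C q x = 0 → C q (C p x) = 0)
    (R I : Finset κ) (p : κ) (hR : insert p R ⊆ P) (hI : I ⊆ R) (hp : p ∉ R) :
    (X (insert p R) ⊓ cker C I).map (C p) ≤ X R ⊓ cker C I := by
  rintro _ ⟨x, ⟨hx1, hx2⟩, rfl⟩
  refine ⟨hmap R p hR hp x hx1, ?_⟩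
  change C p x ∈ cker C I
  rw [mem_cker]
  intro q hq
  exact hcomm p q (fun h => hp (hI (h ▸ hq))) _ hR (mem_insert_self p R) x hx1 ((mem_cker C).1 hx2 q hq)

/-- the dimension inequalities give the dimension formula and surjectivity -/
theorem cogood [FiniteDimensional K V]
    (hmap : ∀ R p, insert p R ⊆ P → p ∉ R → ∀ x ∈ X (insert p R), C p x ∈ X R)
    (hcomm : ∀ p q, p ≠ q → ∀ R, R ⊆ P → p ∈ R → ∀ x ∈ X R, C q x = 0 → C q (C p x) = 0)
    (hdim : ∀ R I, R ⊆ P → I ⊆ R → (finrank K (X R ⊓ cker C I : Submodule K V) : ℤ) ≤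
      ∑ T ∈ I.powerset, (-1 : ℤ) ^ T.card * (finrank K (X (R \ T)) : ℤ)) (I : Finset κ) :
    ∀ R, R ⊆ P → I ⊆ R →
      (finrank K (X R ⊓ cker C I : Submodule K V) : ℤ) =
        ∑ T ∈ I.powerset, (-1 : ℤ) ^ T.card * (finrank K (X (R \ T)) : ℤ) := by
  induction I using Finset.induction_on with
  | empty =>
    intro R _ _
    rw [cker_empty, inf_top_eq, powerset_empty, sum_singleton, sdiff_empty, card_empty, pow_zero,
      one_mul]
  | insert p I hp ih =>
    intro R hR hI
    have hpR : p ∈ R := hI (mem_insert_self p I)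
    have hIR : I ⊆ R := fun i hi => hI (mem_insert_of_mem hi)
    have hIR0 : I ⊆ R.erase p := fun i hi => mem_erase.2 ⟨fun h' => hp (h' ▸ hi), hIR hi⟩
    have hR0 : R.erase p ⊆ P := (erase_subset p R).trans hR
    apply le_antisymm (hdim R _ hR hI)
    have e1 : ∑ T ∈ (insert p I).powerset, (-1 : ℤ) ^ T.card * (finrank K (X (R \ T)) : ℤ) =
        ∑ T ∈ I.powerset, (-1 : ℤ) ^ T.card * (finrank K (X (R \ T)) : ℤ) -
        ∑ T ∈ I.powerset, (-1 : ℤ) ^ T.card * (finrank K (X (R.erase p \ T)) : ℤ) := by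
      rw [sum_powerset_insert hp, sub_eq_add_neg, ← sum_neg_distrib]
      congr 1
      apply sum_congr rfl
      intro T hT
      rw [mem_powerset] at hT
      rw [card_insert_of_notMem (fun h' => hp (hT h')), pow_succ]
      have h3 : R \ insert p T = R.erase p \ T := by
        ext a
        simp only [mem_sdiff, mem_insert, mem_erase]
        tauto
      rw [h3]
      ring
    rw [e1, ← ih R hR hIR, ← ih _ hR0 hIR0]
    have h1 := map_le hmap hcomm (R.erase p) I p (by rw [insert_erase hpR]; exact hR) hIR0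
      (notMem_erase p R)
    rw [insert_erase hpR] at h1
    have h2 := Submodule.finrank_mono h1
    have h3 := LinearMap.finrank_range_add_finrank_ker ((C p).domRestrict (X R ⊓ cker C I))
    have h4 : finrank K (LinearMap.range ((C p).domRestrict (X R ⊓ cker C I))) =
        finrank K ((X R ⊓ cker C I).map (C p)) := by
      rw [LinearMap.range_domRestrict]
    have h5 : finrank K (LinearMap.ker ((C p).domRestrict (X R ⊓ cker C I))) =
        finrank K (X R ⊓ cker C (insert p I) : Submodule K V) := by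
      rw [LinearMap.ker_domRestrict, cker_insert, ← inf_assoc, ← Submodule.finrank_map_subtype_eq,
        Submodule.map_comap_subtype]
    rw [h4, h5] at h3
    have h6 : (finrank K ((X R ⊓ cker C I).map (C p)) : ℤ) +
        (finrank K (X R ⊓ cker C (insert p I) : Submodule K V) : ℤ) =
        (finrank K (X R ⊓ cker C I : Submodule K V) : ℤ) := by exact_mod_cast h3
    have h7 : (finrank K ((X R ⊓ cker C I).map (C p)) : ℤ) ≤
        (finrank K (X (R.erase p) ⊓ cker C I : Submodule K V) : ℤ) := by exact_mod_cast h2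
    linarith

theorem cogood_surj [FiniteDimensional K V]
    (hmap : ∀ R p, insert p R ⊆ P → p ∉ R → ∀ x ∈ X (insert p R), C p x ∈ X R)
    (hcomm : ∀ p q, p ≠ q → ∀ R, R ⊆ P → p ∈ R → ∀ x ∈ X R, C q x = 0 → C q (C p x) = 0)
    (hdim : ∀ R I, R ⊆ P → I ⊆ R → (finrank K (X R ⊓ cker C I : Submodule K V) : ℤ) ≤
      ∑ T ∈ I.powerset, (-1 : ℤ) ^ T.card * (finrank K (X (R \ T)) : ℤ)) (I R : Finset κ) (p : κ)
    (hR : insert p R ⊆ P) (hI : I ⊆ R) (hp : p ∉ R) :
    (X (insert p R) ⊓ cker C I).map (C p) = X R ⊓ cker C I := by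
  have h1 := map_le hmap hcomm R I p hR hI hp
  apply Submodule.eq_of_le_of_finrank_eq h1
  have hRP : R ⊆ P := (subset_insert p R).trans hR
  have hpI : p ∉ I := fun h => hp (hI h)
  have h3 := LinearMap.finrank_range_add_finrank_ker ((C p).domRestrict (X (insert p R) ⊓ cker C I))
  have h4 : finrank K (LinearMap.range ((C p).domRestrict (X (insert p R) ⊓ cker C I))) =
      finrank K ((X (insert p R) ⊓ cker C I).map (C p)) := by
    rw [LinearMap.range_domRestrict]
  have h5 : finrank K (LinearMap.ker ((C p).domRestrict (X (insert p R) ⊓ cker C I))) =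
      finrank K (X (insert p R) ⊓ cker C (insert p I) : Submodule K V) := by
    rw [LinearMap.ker_domRestrict, cker_insert, ← inf_assoc, ← Submodule.finrank_map_subtype_eq,
      Submodule.map_comap_subtype]
  rw [h4, h5] at h3
  have e0 := cogood hmap hcomm hdim I R hRP hI
  have e1 := cogood hmap hcomm hdim I (insert p R) hR (hI.trans (subset_insert p R))
  have e2 := cogood hmap hcomm hdim (insert p I) (insert p R) hR (insert_subset_insert p hI)
  have e3 : ∑ T ∈ (insert p I).powerset, (-1 : ℤ) ^ T.card * (finrank K (X (insert p R \ T)) : ℤ) =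
      ∑ T ∈ I.powerset, (-1 : ℤ) ^ T.card * (finrank K (X (insert p R \ T)) : ℤ) -
      ∑ T ∈ I.powerset, (-1 : ℤ) ^ T.card * (finrank K (X (R \ T)) : ℤ) := by
    rw [sum_powerset_insert hpI, sub_eq_add_neg, ← sum_neg_distrib]
    congr 1
    apply sum_congr rfl
    intro T hT
    rw [mem_powerset] at hT
    rw [card_insert_of_notMem (fun h' => hpI (hT h')), pow_succ]
    have h3 : insert p R \ insert p T = R \ T := by
      ext a
      simp only [mem_sdiff, mem_insert]
      constructor
      · rintro ⟨h | h, h'⟩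
        · exact absurd (Or.inl h) h'
        · exact ⟨h, fun h'' => h' (Or.inr h'')⟩
      · rintro ⟨h, h'⟩
        refine ⟨Or.inr h, ?_⟩
        rintro (rfl | h'')
        · exact hp h
        · exact h' h''
    rw [h3]
    ring
  have h6 : (finrank K ((X (insert p R) ⊓ cker C I).map (C p)) : ℤ) +
      (finrank K (X (insert p R) ⊓ cker C (insert p I) : Submodule K V) : ℤ) =
      (finrank K (X (insert p R) ⊓ cker C I : Submodule K V) : ℤ) := by exact_mod_cast h3
  have h7 : (finrank K ((X (insert p R) ⊓ cker C I).map (C p)) : ℤ) =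
      (finrank K (X R ⊓ cker C I : Submodule K V) : ℤ) := by
    rw [e0]
    rw [e1, e2, e3] at h6
    linarith
  exact_mod_cast h7

end final

/-- THE FINAL ARGUMENT. `X R S`, `R ⊆ P`, `S ⊆ Q`, subspaces of one space, good families in `S`; the
contractions `C p` map `X (R + p) S` to `X R S`; the dimensions of the partial kernels are bounded by
the alternating sums. Then the double alternating sum is nonnegative. -/
theorem final [FiniteDimensional K V] (P : Finset κ) (Q : Finset ι)
    (X : Finset κ → Finset ι → Submodule K V) (C : κ → V →ₗ[K] V)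
    (hgood : ∀ R, R ⊆ P → LGood Q (X R))
    (hmap : ∀ S, S ⊆ Q → ∀ R p, insert p R ⊆ P → p ∉ R → ∀ x ∈ X (insert p R) S, C p x ∈ X R S)
    (hcomm : ∀ S, S ⊆ Q → ∀ p q, p ≠ q → ∀ R, R ⊆ P → p ∈ R → ∀ x ∈ X R S, C q x = 0 →
      C q (C p x) = 0)
    (hdim : ∀ S, S ⊆ Q → ∀ R I, R ⊆ P → I ⊆ R →
      (finrank K (X R S ⊓ cker C I : Submodule K V) : ℤ) ≤
        ∑ T ∈ I.powerset, (-1 : ℤ) ^ T.card * (finrank K (X (R \ T) S) : ℤ)) :
    0 ≤ ∑ T ∈ Q.powerset, ∑ R ∈ P.powerset,
      (-1 : ℤ) ^ T.card * (-1) ^ (P.card - R.card) * (finrank K (X R (Q \ T)) : ℤ) := by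
  have key : ∀ I : Finset κ, ∀ R, R ⊆ P → I ⊆ R → LGood Q (fun S => X R S ⊓ cker C I) := by
    intro I
    induction I using Finset.induction_on with
    | empty =>
      intro R hR _
      simp only [cker_empty, inf_top_eq]
      exact hgood R hR
    | insert p I hp ih =>
      intro R hR hI
      have hpR : p ∈ R := hI (mem_insert_self p I)
      have hIR : I ⊆ R := fun i hi => hI (mem_insert_of_mem hi)
      have hIR0 : I ⊆ R.erase p := fun i hi => mem_erase.2 ⟨fun h' => hp (h' ▸ hi), hIR hi⟩
      have hR0 : R.erase p ⊆ P := (erase_subset p R).trans hR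
      have h1 := LGood.ker (ih R hR hIR) (ih _ hR0 hIR0) (C p) (by
        intro S hS
        have h2 := cogood_surj (X := fun R => X R S) (hmap S hS) (hcomm S hS) (hdim S hS) I
          (R.erase p) p (by rw [insert_erase hpR]; exact hR) hIR0 (notMem_erase p R)
        rw [insert_erase hpR] at h2
        exact h2)
      have h3 : (fun S => X R S ⊓ cker C (insert p I)) =
          fun S => (X R S ⊓ cker C I) ⊓ LinearMap.ker (C p) := by
        funext S
        rw [cker_insert, inf_assoc]
      rw [h3]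
      exact h1
  have h1 := (key P P (Subset.refl _) (Subset.refl _)).alt_nonneg
  refine h1.trans_eq ?_
  apply sum_congr rfl
  intro T _
  rw [cogood (X := fun R => X R (Q \ T)) (hmap _ sdiff_subset) (hcomm _ sdiff_subset)
    (hdim _ sdiff_subset) P P (Subset.refl _) (Subset.refl _), mul_sum]
  apply Finset.sum_bij' (fun R _ => P \ R) (fun R _ => P \ R)
  · intro R hR
    exact mem_powerset.2 sdiff_subset
  · intro R hR
    exact mem_powerset.2 sdiff_subset
  · intro R hR
    exact Finset.sdiff_sdiff_eq_self (mem_powerset.1 hR)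
  · intro R hR
    exact Finset.sdiff_sdiff_eq_self (mem_powerset.1 hR)
  · intro R hR
    have h2 : P.card - (P \ R).card = R.card := by
      have h3 := card_sdiff_add_card_eq_card (mem_powerset.1 hR)
      omega
    rw [h2]
    ring

end Pool.Agent.Gao
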