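import Mathlib
import Pool.Agent.Gao.GRun
import Pool.Agent.Gao.Lattice
import Pool.Agent.Gao.AlphaLin

/-!
# Gao project, PART ALPHA (abstract form)

`alpha_gen`: for a program `L` and generic functionals `θ` (outside the zero set of a nonzero polynomial) the joint
kernel of the contractions of the slots in `I` on `Hw cs (run B L Z)` has dimension at most the alternating sum of
the dimensions of `Hw cs (run (B \ T) L Z)`, `T ⊆ I`.
-/

namespace Gao

open Finset Module Pool.Agent.Gao

variable {K V : Type*} [Field K] [CharZero K] [AddCommGroup V] [Module K V] [FiniteDimensional K V]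
  {m : ℕ} {ρ : GLRep K V m} {P : Type*} [DecidableEq P]

/-- the contractions given by the point `θ` -/
noncomputable def Slots.cons (σ : Slots ρ P) (θ : P × Finset (Fin m) → K) (q : P) :
    Module.End K V := σ.con (fun l => θ (q, l)) q

/-- the dimension inequality -/
def AIneq (σ : Slots ρ P) (W : Finset P → Submodule K V) (B I : Finset P)
    (θ : P × Finset (Fin m) → K) : Prop :=
  (finrank K (W B ⊓ cker (σ.cons θ) I : Submodule K V) : ℤ) ≤
    ∑ T ∈ I.powerset, (-1 : ℤ) ^ T.card * (finrank K (W (B \ T)) : ℤ)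

namespace AlphaAux

/-- the subsets of size `t`, ordered by `rk` -/
def SubT (m t : ℕ) : Type := {l : Finset (Fin m) // l.card = t}

noncomputable instance (m t : ℕ) : Fintype (SubT m t) :=
  inferInstanceAs (Fintype {l : Finset (Fin m) // l.card = t})

noncomputable instance (m t : ℕ) : LinearOrder (SubT m t) :=
  LinearOrder.lift' (fun l => Tw.rk l.1) (fun _ _ h => Subtype.ext (rk_injective h))

lemma SubT.lt_iff {m t : ℕ} (a b : SubT m t) : a < b ↔ Tw.rk a.1 < Tw.rk b.1 := Iff.rfl

omit [CharZero K] in
/-- dimension of a subspace of the total space of a twist, by leading coefficient spaces -/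
theorem finrank_tot (τ : Tw ρ) {t : ℕ} {N : Submodule K V} (hN : N ≤ τ.tot t) :
    finrank K N = ∑ l ∈ univ.filter (fun l : Finset (Fin m) => l.card = t),
      finrank K (τ.lead N l) := by
  classical
  let Ψ : V →ₗ[K] (SubT m t → V) := LinearMap.pi (fun l => τ.ext l.1)
  have hinj : Function.Injective (Ψ.comp N.subtype) := by
    rw [← LinearMap.ker_eq_bot, Submodule.eq_bot_iff]
    intro x hx
    apply Subtype.ext
    have h1 : (x : V) = ∑ l ∈ univ.filter (fun l : Finset (Fin m) => l.card = t),
        τ.ins l (τ.ext l x) := hN x.2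
    rw [h1]
    apply Finset.sum_eq_zero
    intro l hl
    rw [Finset.mem_filter] at hl
    have h2 : τ.ext l x = 0 := congrFun (LinearMap.mem_ker.1 hx) ⟨l, hl.2⟩
    rw [h2, map_zero]
  have h1 : finrank K (N.map Ψ) = finrank K N := by
    have h2 : N.map Ψ = LinearMap.range (Ψ.comp N.subtype) := by
      rw [LinearMap.range_comp, Submodule.range_subtype]
    rw [h2]
    exact LinearMap.finrank_range_of_inj hinj
  rw [← h1, finrank_lead (N.map Ψ)]
  have h3 : ∀ a : SubT m t, lead (N.map Ψ) a = τ.lead N a.1 := by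
    intro a
    ext v
    rw [mem_lead]
    constructor
    · rintro ⟨_, ⟨y, hy, rfl⟩, rfl, h⟩
      refine ⟨y, hy, rfl, fun l' hl' => ?_⟩
      by_cases hc : l'.card = t
      · exact h ⟨l', hc⟩ ((SubT.lt_iff _ _).2 hl')
      · exact τ.ext_eq_zero (hN hy) hc
    · rintro ⟨y, hy, rfl, h⟩
      exact ⟨Ψ y, ⟨y, hy, rfl⟩, rfl, fun b hb => h b.1 ((SubT.lt_iff _ _).1 hb)⟩
  rw [Finset.sum_congr rfl (fun a _ => by rw [h3 a])]
  exact (Finset.sum_subtype (univ.filter (fun l : Finset (Fin m) => l.card = t))
    (fun l => by simp) (fun l => finrank K (τ.lead N l))).symm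

omit [CharZero K] [FiniteDimensional K V] [DecidableEq P] in
theorem con_ext (σ : Slots ρ P) {p q : P} (hpq : p ≠ q) (φ : Finset (Fin m) → K) {y : V}
    (hy : y ∈ (σ.tw p).tot (σ.sz p)) (h0 : σ.con φ q y = 0) (l0 : Finset (Fin m))
    (hl0 : l0.card = σ.sz p) : σ.con φ q ((σ.tw p).ext l0 y) = 0 := by
  have hyt : y = ∑ l ∈ univ.filter (fun l : Finset (Fin m) => l.card = σ.sz p),
      (σ.tw p).ins l ((σ.tw p).ext l y) := hy
  have hconV : ∀ z ∈ (σ.tw p).V', σ.con φ q z ∈ (σ.tw p).V' := by
    intro z hz
    unfold Slots.con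
    rw [LinearMap.sum_apply]
    refine Submodule.sum_mem _ (fun l hl => ?_)
    rw [LinearMap.smul_apply]
    exact Submodule.smul_mem _ _ (σ.ext_mem q p (Ne.symm hpq) l z hz)
  have hcc : ∀ l : Finset (Fin m), ∃ ε : K, ε * ε = 1 ∧ ∀ z ∈ (σ.tw p).V',
      σ.con φ q ((σ.tw p).ins l z) = ε • (σ.tw p).ins l (σ.con φ q z) := by
    intro l
    obtain ⟨ε, hε, hc⟩ := σ.comm p q hpq l
    refine ⟨ε, hε, fun z hz => ?_⟩
    unfold Slots.con
    rw [LinearMap.sum_apply, LinearMap.sum_apply, map_sum, Finset.smul_sum]
    refine Finset.sum_congr rfl (fun l' hl' => ?_)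
    rw [LinearMap.smul_apply, LinearMap.smul_apply, map_smul,
      (hc l' (Finset.mem_filter.mp hl').2).1 z hz, smul_comm]
  choose ε hε hc using hcc
  have h1 : ∑ l ∈ univ.filter (fun l : Finset (Fin m) => l.card = σ.sz p),
      ε l • (σ.tw p).ins l (σ.con φ q ((σ.tw p).ext l y)) = 0 := by
    have h2 := congrArg (σ.con φ q) hyt
    rw [h0, map_sum] at h2
    rw [h2]
    exact Finset.sum_congr rfl (fun l _ => (hc l _ ((σ.tw p).ext_mem l y)).symm)
  have h4 := congrArg ((σ.tw p).ext l0) h1
  rw [map_sum, map_zero] at h4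
  have h5 : ∀ l ∈ univ.filter (fun l : Finset (Fin m) => l.card = σ.sz p),
      (σ.tw p).ext l0 (ε l • (σ.tw p).ins l (σ.con φ q ((σ.tw p).ext l y))) =
        if l = l0 then ε l0 • σ.con φ q ((σ.tw p).ext l0 y) else 0 := by
    intro l _
    rw [map_smul, (σ.tw p).ext_ins _ _ _ (hconV _ ((σ.tw p).ext_mem l y))]
    by_cases h : l = l0
    · subst h
      rw [if_pos rfl, if_pos rfl]
    · rw [if_neg h, if_neg (fun h' => h h'.symm), smul_zero]
  rw [Finset.sum_congr rfl h5, Finset.sum_ite_eq',
    if_pos (by rw [Finset.mem_filter]; exact ⟨Finset.mem_univ _, hl0⟩)] at h4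
  have h6 := congrArg (fun z => ε l0 • z) h4
  simp only [smul_smul, hε, one_smul, smul_zero] at h6
  exact h6

omit [CharZero K] [FiniteDimensional K V] in
/-- leading spaces of the joint kernel -/
theorem lead_cker (σ : Slots ρ P) (θ : P × Finset (Fin m) → K) {p : P} {I : Finset P} (hpI : p ∉ I)
    {Y : Submodule K V} (hY : Y ≤ (σ.tw p).tot (σ.sz p)) {l : Finset (Fin m)}
    (hl : l.card = σ.sz p) {N : Submodule K V} (hNY : N ≤ Y) (hN : N ≤ cker (σ.cons θ) I) :
    (σ.tw p).lead N l ≤ (σ.tw p).lead Y l ⊓ cker (σ.cons θ) I := by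
  rintro _ ⟨y, hy, rfl, h⟩
  refine ⟨⟨y, hNY hy, rfl, h⟩, ?_⟩
  change (σ.tw p).ext l y ∈ cker (σ.cons θ) I
  rw [mem_cker]
  intro q hq
  exact con_ext σ (fun h => hpI (by rw [h]; exact hq)) _ (hY (hNY hy)) ((mem_cker _).1 (hN hy) q hq) l hl

omit [CharZero K] [FiniteDimensional K V] [DecidableEq P] in
/-- the contraction by a coordinate functional -/
theorem con_single (σ : Slots ρ P) (p : P) (l0 : Finset (Fin m)) (hl0 : l0.card = σ.sz p)
    (y : V) : σ.con (fun l => if l = l0 then 1 else 0) p y = (σ.tw p).ext l0 y := by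
  unfold Slots.con
  rw [LinearMap.sum_apply, Finset.sum_eq_single l0]
  · simp
  · intro l _ hl
    simp [hl]
  · intro h
    exact absurd (by rw [Finset.mem_filter]; exact ⟨Finset.mem_univ _, hl0⟩) h

omit [CharZero K] in
/-- upper semicontinuity for the contractions -/
theorem gen_cker [Fintype P] (σ : Slots ρ P) (W : Submodule K V) (I : Finset P)
    (θ₀ : P × Finset (Fin m) → K) :
    ∃ g : MvPolynomial (P × Finset (Fin m)) K, MvPolynomial.eval θ₀ g ≠ 0 ∧
      ∀ θ, MvPolynomial.eval θ g ≠ 0 →
        finrank K (W ⊓ cker (σ.cons θ) I : Submodule K V) ≤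
          finrank K (W ⊓ cker (σ.cons θ₀) I : Submodule K V) := by
  classical
  let A : P × Finset (Fin m) → (W →ₗ[K] (P → V)) := fun i =>
    if i.1 ∈ I ∧ i.2.card = σ.sz i.1 then
      (LinearMap.single K (fun _ : P => V) i.1).comp (((σ.tw i.1).ext i.2).comp W.subtype) else 0
  let Φ : ((P × Finset (Fin m)) → K) →ₗ[K] W →ₗ[K] (P → V) :=
    ∑ i, (LinearMap.proj i : ((P × Finset (Fin m)) → K) →ₗ[K] K).smulRight (A i)
  have hΦ : ∀ θ x q, Φ θ x q = if q ∈ I then σ.cons θ q (x : V) else 0 := by
    intro θ x q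
    have h1 : Φ θ x q = ∑ i : P × Finset (Fin m), θ i • (A i x q) := by
      simp only [Φ, LinearMap.sum_apply, LinearMap.smulRight_apply, LinearMap.proj_apply,
        LinearMap.smul_apply, Finset.sum_apply, Pi.smul_apply]
    rw [h1, Fintype.sum_prod_type, Finset.sum_eq_single q]
    · split_ifs with hq
      · unfold Slots.cons Slots.con
        rw [LinearMap.sum_apply, Finset.sum_filter]
        apply Finset.sum_congr rfl
        intro l _
        by_cases hl : l.card = σ.sz q
        · simp [A, hq, hl]
        · simp [A, hl]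
      · apply Finset.sum_eq_zero
        intro l _
        simp [A, hq]
    · intro p _ hp
      apply Finset.sum_eq_zero
      intro l _
      by_cases h : p ∈ I ∧ l.card = σ.sz p
      · simp only [A, if_pos h, LinearMap.comp_apply, LinearMap.single_apply]
        rw [Pi.single_eq_of_ne (Ne.symm hp), smul_zero]
      · simp only [A, if_neg h, LinearMap.zero_apply, Pi.zero_apply, smul_zero]
    · intro h
      exact absurd (Finset.mem_univ q) h
  have hker : ∀ θ, finrank K (LinearMap.ker (Φ θ)) =
      finrank K (W ⊓ cker (σ.cons θ) I : Submodule K V) := by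
    intro θ
    have h2 : (LinearMap.ker (Φ θ)).map W.subtype = W ⊓ cker (σ.cons θ) I := by
      ext x
      rw [Submodule.mem_map, Submodule.mem_inf, mem_cker]
      constructor
      · rintro ⟨y, hy, rfl⟩
        refine ⟨y.2, fun q hq => ?_⟩
        have h3 := congrFun (LinearMap.mem_ker.1 hy) q
        rw [hΦ, if_pos hq] at h3
        exact h3
      · rintro ⟨hx, h⟩
        refine ⟨⟨x, hx⟩, ?_, rfl⟩
        rw [LinearMap.mem_ker]
        funext q
        rw [hΦ]
        split_ifs with hq
        · exact h q hq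
        · rfl
    rw [← h2]
    exact (Submodule.equivMapOfInjective W.subtype W.injective_subtype _).finrank_eq
  obtain ⟨g, hg0, hg⟩ := gen_ker Φ θ₀
  refine ⟨g, hg0, fun θ hθ => ?_⟩
  rw [← hker, ← hker]
  exact hg θ hθ

omit [CharZero K] [FiniteDimensional K V] in
theorem AIneq.congr {σ : Slots ρ P} {W W' : Finset P → Submodule K V} {B I : Finset P}
    {θ : P × Finset (Fin m) → K} (h : AIneq σ W B I θ)
    (hW : ∀ T, T ⊆ I → W' (B \ T) = W (B \ T)) : AIneq σ W' B I θ := by
  unfold AIneq at h ⊢
  have h0 := hW ∅ (Finset.empty_subset I)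
  rw [Finset.sdiff_empty] at h0
  rw [h0, Finset.sum_congr rfl (fun T hT => by rw [hW T (Finset.mem_powerset.1 hT)])]
  exact h

end AlphaAux

open AlphaAux

omit [CharZero K] [FiniteDimensional K V] in
/-- the case of the empty set -/
theorem AIneq_empty (σ : Slots ρ P) (W : Finset P → Submodule K V) (B : Finset P)
    (θ : P × Finset (Fin m) → K) : AIneq σ W B ∅ θ := by
  unfold AIneq
  rw [cker_empty, inf_top_eq, Finset.powerset_empty, Finset.sum_singleton, Finset.card_empty,
    pow_zero, one_mul, Finset.sdiff_empty]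

/-- **PART ALPHA**, abstract form. -/
theorem alpha_gen [Fintype P] (σ : Slots ρ P) {Z : Submodule K V} (hZ : Start σ Z)
    (L : List (Ins P)) (hL : (slotsOf L).Nodup) (hs : Sized σ L) (cs : List ℕ) (B I : Finset P)
    (hIB : I ⊆ B) (hI : ∀ q ∈ I, q ∈ slotsOf L) :
    Gen (AIneq σ (fun B => ρ.Hw cs (run σ.tw B L Z)) B I) := by
  classical
  induction L generalizing cs B I with
  | nil =>
    have : I = ∅ := by
      rw [Finset.eq_empty_iff_forall_notMem]
      intro q hq
      simpa [slotsOf] using hI q hq
    subst this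
    exact gen_of_forall fun θ => AIneq_empty σ _ B θ
  | cons i L ih =>
    cases i with
    | T c =>
      have h1 : (fun B => ρ.Hw cs (run σ.tw B (Ins.T c :: L) Z)) =
          fun B => ρ.Hw (cs ++ [c]) (run σ.tw B L Z) := by
        funext B
        unfold GLRep.Hw
        rw [List.foldr_append]
        rfl
      rw [h1]
      exact ih hL hs (cs ++ [c]) B I hIB hI
    | tw p t =>
      obtain ⟨hpL, hL'⟩ : p ∉ slotsOf L ∧ (slotsOf L).Nodup := List.nodup_cons.mp hL
      obtain ⟨ht, htm, hs'⟩ := hs
      have hsz : SizeOK m L := GRunAux.sized_sizeOK σ L hs'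
      have hgood : ∀ B, ρ.Good (run σ.tw B L Z) := fun B => good_run σ hZ B L hL' hsz
      have hV' : ∀ B, run σ.tw B L Z ≤ (σ.tw p).V' := fun B => run_le_V' σ hZ B L p hpL
      have hrun1 : ∀ B, p ∉ B → run σ.tw B (Ins.tw p t :: L) Z = run σ.tw B L Z :=
        fun B hB => by rw [run, if_neg hB]
      have hrun2 : ∀ B, p ∈ B → run σ.tw B (Ins.tw p t :: L) Z =
          (σ.tw p).twist t (run σ.tw B L Z) := fun B hB => by rw [run, if_pos hB]
      by_cases hpB : p ∈ B
      swap
      · have hpI : p ∉ I := fun h => hpB (hIB h)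
        have hI' : ∀ q ∈ I, q ∈ slotsOf L := fun q hq =>
          (List.mem_cons.1 (hI q hq)).resolve_left (fun h => hpI (h ▸ hq))
        refine (ih hL' hs' cs B I hIB hI').mono fun θ hθ => ?_
        refine AIneq.congr hθ fun T _ => ?_
        rw [hrun1 _ (fun h => hpB (Finset.mem_sdiff.1 h).1)]
      -- the slot `p` is executed; reduce the word
      set cs' := norm m cs with hcs'
      have hred : Red m cs' := red_norm m cs
      have hBSt : ∀ B, ρ.BSt (run σ.tw B (Ins.tw p t :: L) Z) := fun B =>
        (good_run σ hZ B (Ins.tw p t :: L) hL ⟨htm, hsz⟩).1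
      have hW : (fun B => ρ.Hw cs (run σ.tw B (Ins.tw p t :: L) Z)) =
          fun B => ρ.Hw cs' (run σ.tw B (Ins.tw p t :: L) Z) := by
        funext B
        exact Hw_norm ρ (hBSt B) cs
      rw [hW]
      set St := univ.filter (fun l : Finset (Fin m) => l.card = t) with hSt
      have hdim : ∀ B, finrank K (ρ.Hw cs' ((σ.tw p).twist t (run σ.tw B L Z))) =
          ∑ l ∈ St, finrank K (ρ.val (run σ.tw B L Z) (stF m t cs' l)) := fun B =>
        finrank_key' (σ.tw p) htm (hgood B) (hV' B) cs'
      have hle : ∀ B, ρ.Hw cs' ((σ.tw p).twist t (run σ.tw B L Z)) ≤ (σ.tw p).tot t := fun B =>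
        twist_Hw_le_tot (σ.tw p) htm (hV' B) cs'
      have hlead : ∀ B l, (σ.tw p).lead (ρ.Hw cs' ((σ.tw p).twist t (run σ.tw B L Z))) l =
          ρ.val (run σ.tw B L Z) (stF m t cs' l) := fun B l =>
        lead_eq' (σ.tw p) htm (hgood B) (hV' B) cs' l
      -- induction hypothesis for the leading spaces
      have hval : ∀ I' ⊆ B, (∀ q ∈ I', q ∈ slotsOf L) → ∀ l,
          Gen (AIneq σ (fun B => ρ.val (run σ.tw B L Z) (stF m t cs' l)) B I') := by
        intro I' hI'B hI' l
        cases stF m t cs' l with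
        | none =>
          refine gen_of_forall fun θ => ?_
          unfold AIneq
          change (finrank K ((⊥ : Submodule K V) ⊓ cker (σ.cons θ) I' : Submodule K V) : ℤ) ≤
            ∑ T ∈ I'.powerset, (-1 : ℤ) ^ T.card * (finrank K (⊥ : Submodule K V) : ℤ)
          rw [bot_inf_eq, finrank_bot]
          simp
        | some ds => exact ih hL' hs' ds B I' hI'B hI'
      by_cases hpI : p ∈ I
      · -- the slot `p` is contracted
        set I' := I.erase p with hI'
        have hpI' : p ∉ I' := Finset.notMem_erase p I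
        have hI'B : I' ⊆ B := (Finset.erase_subset p I).trans hIB
        have hI'L : ∀ q ∈ I', q ∈ slotsOf L := fun q hq =>
          (List.mem_cons.1 (hI q (Finset.mem_of_mem_erase hq))).resolve_left
            (Finset.ne_of_mem_erase hq)
        set l0 := (ini m t).map (prodW m cs').toEmbedding with hl0
        have hl0c : l0.card = t := by rw [hl0, Finset.card_map, card_ini htm]
        have hl0St : l0 ∈ St := Finset.mem_filter.2 ⟨Finset.mem_univ _, hl0c⟩
        have htop : stF m t cs' l0 = some cs' := stF_top m t cs' hred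
        obtain ⟨θ₁, hθ₁⟩ := (gen_finset St (fun l _ => hval I' hI'B hI'L l)).exists
        set θ₀ : P × Finset (Fin m) → K := fun x =>
          if x.1 = p then (if x.2 = l0 then 1 else 0) else θ₁ x with hθ₀
        have hcons : ∀ q, q ≠ p → σ.cons θ₀ q = σ.cons θ₁ q := by
          intro q hq
          unfold Slots.cons
          congr 1
          funext l
          rw [hθ₀]
          simp only [if_neg hq]
        have hcker : cker (σ.cons θ₀) I' = cker (σ.cons θ₁) I' := by
          ext x
          rw [mem_cker, mem_cker]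
          constructor
          · intro h q hq
            rw [← hcons q (fun h' => hpI' (h' ▸ hq))]
            exact h q hq
          · intro h q hq
            rw [hcons q (fun h' => hpI' (h' ▸ hq))]
            exact h q hq
        have hineq : ∀ l ∈ St,
            AIneq σ (fun B => ρ.val (run σ.tw B L Z) (stF m t cs' l)) B I' θ₀ := by
          intro l hl
          have := hθ₁ l hl
          unfold AIneq at this ⊢
          rw [hcker]
          exact this
        -- the inequality at the special point
        have hkey : AIneq σ (fun B => ρ.Hw cs' (run σ.tw B (Ins.tw p t :: L) Z)) B I θ₀ := by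
          unfold AIneq
          change (finrank K (ρ.Hw cs' (run σ.tw B (Ins.tw p t :: L) Z) ⊓ cker (σ.cons θ₀) I :
            Submodule K V) : ℤ) ≤ ∑ T ∈ I.powerset, (-1 : ℤ) ^ T.card *
              (finrank K (ρ.Hw cs' (run σ.tw (B \ T) (Ins.tw p t :: L) Z)) : ℤ)
          rw [hrun2 B hpB]
          set Y := ρ.Hw cs' ((σ.tw p).twist t (run σ.tw B L Z)) with hY
          set N := Y ⊓ cker (σ.cons θ₀) I with hN
          have hNY : N ≤ Y := inf_le_left
          have hNc : N ≤ cker (σ.cons θ₀) I' := by
            intro x hx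
            rw [mem_cker]
            intro q hq
            exact (mem_cker _).1 hx.2 q (Finset.mem_of_mem_erase hq)
          have hYt : Y ≤ (σ.tw p).tot (σ.sz p) := ht ▸ hle B
          have hNt : N ≤ (σ.tw p).tot t := hNY.trans (hle B)
          have e1 := finrank_tot (σ.tw p) hNt
          have e2 : (σ.tw p).lead N l0 = ⊥ := by
            rw [Submodule.eq_bot_iff]
            rintro _ ⟨y, hy, rfl, -⟩
            have h3 := (mem_cker _).1 hy.2 p hpI
            have h4 : σ.cons θ₀ p y = (σ.tw p).ext l0 y := by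
              rw [← con_single σ p l0 (hl0c.trans ht)]
              unfold Slots.cons
              congr 2
              funext l
              rw [hθ₀]
              simp
            rw [← h4]
            exact h3
          have e3 : ∀ l ∈ St.erase l0, (finrank K ((σ.tw p).lead N l) : ℤ) ≤
              ∑ T ∈ I'.powerset, (-1 : ℤ) ^ T.card *
                (finrank K (ρ.val (run σ.tw (B \ T) L Z) (stF m t cs' l)) : ℤ) := by
            intro l hl
            have hlSt := Finset.mem_of_mem_erase hl
            have hlc : l.card = σ.sz p := ((Finset.mem_filter.1 hlSt).2).trans ht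
            have h5 := lead_cker σ θ₀ hpI' hYt hlc hNY hNc
            rw [hY, hlead B l] at h5
            have h6 := Submodule.finrank_mono h5
            have h7 := hineq l hlSt
            unfold AIneq at h7
            exact (Int.ofNat_le.2 h6).trans h7
          have e4 : (finrank K N : ℤ) ≤ ∑ l ∈ St.erase l0, ∑ T ∈ I'.powerset, (-1 : ℤ) ^ T.card *
                (finrank K (ρ.val (run σ.tw (B \ T) L Z) (stF m t cs' l)) : ℤ) := by
            rw [e1, ← Finset.add_sum_erase _ _ hl0St, e2, finrank_bot, zero_add]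
            push_cast
            exact Finset.sum_le_sum e3
          refine e4.trans (le_of_eq ?_)
          rw [Finset.sum_comm, ← Finset.insert_erase hpI, Finset.sum_powerset_insert hpI',
            ← Finset.sum_add_distrib]
          apply Finset.sum_congr rfl
          intro T hT
          have hTI' := Finset.mem_powerset.1 hT
          have hpT : p ∉ T := fun h => hpI' (hTI' h)
          have hpBT : p ∈ B \ T := Finset.mem_sdiff.2 ⟨hpB, hpT⟩
          have hpBT' : p ∉ B \ insert p T := fun h =>
            (Finset.mem_sdiff.1 h).2 (Finset.mem_insert_self p T)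
          have e5 : run σ.tw (B \ insert p T) L Z = run σ.tw (B \ T) L Z := by
            apply GRunAux.run_congr
            intro q hq
            have hqp : q ≠ p := fun h => hpL (h ▸ hq)
            rw [Finset.mem_sdiff, Finset.mem_sdiff, Finset.mem_insert, not_or]
            exact ⟨fun h => ⟨h.1, h.2.2⟩, fun h => ⟨h.1, hqp, h.2⟩⟩
          rw [hrun2 _ hpBT, hrun1 _ hpBT', e5, hdim, ← Finset.mul_sum,
            Finset.card_insert_of_notMem hpT, pow_succ,
            ← Finset.add_sum_erase St (fun l => finrank K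
              (ρ.val (run σ.tw (B \ T) L Z) (stF m t cs' l))) hl0St, htop]
          change _ = (-1 : ℤ) ^ T.card * ((finrank K (ρ.Hw cs' (run σ.tw (B \ T) L Z)) +
            ∑ l ∈ St.erase l0, finrank K (ρ.val (run σ.tw (B \ T) L Z) (stF m t cs' l)) : ℕ) : ℤ)
              + (-1 : ℤ) ^ T.card * -1 * (finrank K (ρ.Hw cs' (run σ.tw (B \ T) L Z)) : ℤ)
          push_cast
          ring
        -- semicontinuity
        obtain ⟨g, hg0, hg⟩ := gen_cker σ (ρ.Hw cs' (run σ.tw B (Ins.tw p t :: L) Z)) I θ₀
        refine ⟨g, fun h => hg0 (by rw [h, map_zero]), fun θ hθ => ?_⟩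
        unfold AIneq at hkey ⊢
        exact (Int.ofNat_le.2 (hg θ hθ)).trans hkey
      · -- the slot `p` is not contracted
        have hI' : ∀ q ∈ I, q ∈ slotsOf L := fun q hq =>
          (List.mem_cons.1 (hI q hq)).resolve_left (fun h => hpI (h ▸ hq))
        refine (gen_finset St (fun l _ => hval I hIB hI' l)).mono fun θ hθ => ?_
        unfold AIneq
        change (finrank K (ρ.Hw cs' (run σ.tw B (Ins.tw p t :: L) Z) ⊓ cker (σ.cons θ) I :
          Submodule K V) : ℤ) ≤ ∑ T ∈ I.powerset, (-1 : ℤ) ^ T.card *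
            (finrank K (ρ.Hw cs' (run σ.tw (B \ T) (Ins.tw p t :: L) Z)) : ℤ)
        rw [hrun2 B hpB]
        set Y := ρ.Hw cs' ((σ.tw p).twist t (run σ.tw B L Z)) with hY
        set N := Y ⊓ cker (σ.cons θ) I with hN
        have hNY : N ≤ Y := inf_le_left
        have hNc : N ≤ cker (σ.cons θ) I := inf_le_right
        have hYt : Y ≤ (σ.tw p).tot (σ.sz p) := ht ▸ hle B
        have e1 := finrank_tot (σ.tw p) (hNY.trans (hle B))
        have e3 : ∀ l ∈ St, (finrank K ((σ.tw p).lead N l) : ℤ) ≤
            ∑ T ∈ I.powerset, (-1 : ℤ) ^ T.card *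
              (finrank K (ρ.val (run σ.tw (B \ T) L Z) (stF m t cs' l)) : ℤ) := by
          intro l hl
          have hlc : l.card = σ.sz p := ((Finset.mem_filter.1 hl).2).trans ht
          have h5 := lead_cker σ θ hpI hYt hlc hNY hNc
          rw [hY, hlead B l] at h5
          have h6 := Submodule.finrank_mono h5
          have h7 := hθ l hl
          unfold AIneq at h7
          exact (Int.ofNat_le.2 h6).trans h7
        have e4 : (finrank K N : ℤ) ≤ ∑ l ∈ St, ∑ T ∈ I.powerset, (-1 : ℤ) ^ T.card *
              (finrank K (ρ.val (run σ.tw (B \ T) L Z) (stF m t cs' l)) : ℤ) := by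
          rw [e1]
          push_cast
          exact Finset.sum_le_sum e3
        refine e4.trans (le_of_eq ?_)
        rw [Finset.sum_comm]
        apply Finset.sum_congr rfl
        intro T hT
        have hpBT : p ∈ B \ T :=
          Finset.mem_sdiff.2 ⟨hpB, fun h => hpI (Finset.mem_powerset.1 hT h)⟩
        rw [hrun2 _ hpBT, hdim, ← Finset.mul_sum]
        push_cast
        rfl

/-- all inequalities simultaneously, for the programs themselves -/
theorem alpha_gen_all [Fintype P] (σ : Slots ρ P) {Z : Submodule K V} (hZ : Start σ Z)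
    (L : List (Ins P)) (hL : (slotsOf L).Nodup) (hs : Sized σ L) :
    Gen (fun θ : P × Finset (Fin m) → K => ∀ B I : Finset P, I ⊆ B → (∀ q ∈ I, q ∈ slotsOf L) →
      (finrank K (run σ.tw B L Z ⊓ cker (σ.cons θ) I : Submodule K V) : ℤ) ≤
        ∑ T ∈ I.powerset, (-1 : ℤ) ^ T.card * (finrank K (run σ.tw (B \ T) L Z) : ℤ)) := by
  classical
  refine gen_fintype fun B => gen_fintype fun I => ?_
  by_cases h : I ⊆ B ∧ ∀ q ∈ I, q ∈ slotsOf L
  · exact (alpha_gen σ hZ L hL hs [] B I h.1 h.2).mono fun θ hθ _ _ => hθ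
  · exact gen_of_forall fun θ h1 h2 => absurd ⟨h1, h2⟩ h

end Gao
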