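import Pool.Agent.Gao.Frozen

/-!
# The telescoping identity

`∑_{S ⊆ X} (-1)^{|X| - |S|} f S S = ∑_{Q ⊆ X} ∑_{T ⊆ Q, P ⊆ X \ Q} (-1)^{|T|} (-1)^{|X \ Q| - |P|} f (Q \ T) (Q ∪ P)`.
-/

set_option autoImplicit false

namespace Pool.Agent.Gao

open Finset

variable {ι : Type*} [DecidableEq ι]

/-- the inner sum for a given `Q` -/
def teleQ (X : Finset ι) (f : Finset ι → Finset ι → ℤ) (Q : Finset ι) : ℤ :=
  ∑ T ∈ Q.powerset, ∑ P ∈ (X \ Q).powerset,
    (-1 : ℤ) ^ T.card * (-1) ^ ((X \ Q).card - P.card) * f (Q \ T) (Q ∪ P)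

theorem tele_diag_insert (X : Finset ι) (i : ι) (hi : i ∉ X) (f : Finset ι → Finset ι → ℤ) :
    ∑ S ∈ (insert i X).powerset, (-1 : ℤ) ^ ((insert i X).card - S.card) * f S S =
      ∑ S ∈ X.powerset, (-1 : ℤ) ^ (X.card - S.card) * f (insert i S) (insert i S) -
      ∑ S ∈ X.powerset, (-1 : ℤ) ^ (X.card - S.card) * f S S := by
  rw [sum_powerset_insert hi, card_insert_of_notMem hi, add_comm, sub_eq_add_neg, ← sum_neg_distrib]
  congr 1
  · apply sum_congr rfl
    intro S hS
    rw [mem_powerset] at hS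
    rw [card_insert_of_notMem (fun h => hi (hS h)), Nat.add_sub_add_right]
  · apply sum_congr rfl
    intro S hS
    rw [mem_powerset] at hS
    have h := card_le_card hS
    have h1 : X.card + 1 - S.card = (X.card - S.card) + 1 := by omega
    rw [h1, pow_succ]
    ring

theorem teleQ_insert_notMem (X : Finset ι) (i : ι) (hi : i ∉ X) (f : Finset ι → Finset ι → ℤ)
    (Q : Finset ι) (hQ : Q ⊆ X) :
    teleQ (insert i X) f Q =
      teleQ X (fun A J => f A (insert i J)) Q - teleQ X f Q := by
  have hiQ : i ∉ Q := fun h => hi (hQ h)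
  have h1 : insert i X \ Q = insert i (X \ Q) := insert_sdiff_of_notMem X hiQ
  have h2 : i ∉ X \ Q := fun h => hi (mem_sdiff.1 h).1
  unfold teleQ
  rw [← sum_sub_distrib]
  apply sum_congr rfl
  intro T hT
  rw [h1, sum_powerset_insert h2, card_insert_of_notMem h2, add_comm, sub_eq_add_neg, ← sum_neg_distrib]
  congr 1
  · apply sum_congr rfl
    intro P hP
    rw [mem_powerset] at hP
    rw [card_insert_of_notMem (fun h => h2 (hP h)), Nat.add_sub_add_right, union_insert]
  · apply sum_congr rfl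
    intro P hP
    rw [mem_powerset] at hP
    have h := card_le_card hP
    have h1 : (X \ Q).card + 1 - P.card = ((X \ Q).card - P.card) + 1 := by omega
    rw [h1, pow_succ]
    ring

theorem teleQ_insert_mem (X : Finset ι) (i : ι) (hi : i ∉ X) (f : Finset ι → Finset ι → ℤ)
    (Q : Finset ι) (hQ : Q ⊆ X) :
    teleQ (insert i X) f (insert i Q) =
      teleQ X (fun A J => f (insert i A) (insert i J)) Q -
        teleQ X (fun A J => f A (insert i J)) Q := by
  have hiQ : i ∉ Q := fun h => hi (hQ h)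
  have h1 : insert i X \ insert i Q = X \ Q := by
    ext a
    simp only [mem_sdiff, mem_insert]
    constructor
    · rintro ⟨h | h, h'⟩
      · exact absurd (Or.inl h) h'
      · exact ⟨h, fun h'' => h' (Or.inr h'')⟩
    · rintro ⟨h, h'⟩
      refine ⟨Or.inr h, ?_⟩
      rintro (rfl | h'')
      · exact hi h
      · exact h' h''
  unfold teleQ
  rw [h1, sum_powerset_insert hiQ, sub_eq_add_neg, ← sum_neg_distrib]
  congr 1
  · apply sum_congr rfl
    intro T hT
    rw [mem_powerset] at hT
    apply sum_congr rfl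
    intro P hP
    rw [insert_sdiff_of_notMem Q (fun h => hiQ (hT h)), insert_union]
  · apply sum_congr rfl
    intro T hT
    rw [mem_powerset] at hT
    rw [← sum_neg_distrib]
    apply sum_congr rfl
    intro P hP
    rw [card_insert_of_notMem (fun h => hiQ (hT h)), insert_sdiff_insert, insert_union, pow_succ,
      sdiff_insert_of_notMem hiQ]
    ring

/-- The telescoping identity. -/
theorem tele (X : Finset ι) (f : Finset ι → Finset ι → ℤ) :
    ∑ S ∈ X.powerset, (-1 : ℤ) ^ (X.card - S.card) * f S S = ∑ Q ∈ X.powerset, teleQ X f Q := by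
  induction X using Finset.induction_on generalizing f with
  | empty => simp [teleQ]
  | insert i X hi ih =>
    rw [tele_diag_insert X i hi f, ih f, ih (fun A J => f (insert i A) (insert i J)),
      sum_powerset_insert hi, ← sum_add_distrib, ← sum_sub_distrib]
    apply sum_congr rfl
    intro Q hQ
    rw [mem_powerset] at hQ
    rw [teleQ_insert_notMem X i hi f Q hQ, teleQ_insert_mem X i hi f Q hQ]
    ring

/-- The alternating sum of a word from numbers `f A J` with `f S S = F (x restricted to S)`. -/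
theorem alt_eq_tele (x : List ℕ) (f : Finset ℕ → Finset ℕ → ℤ)
    (hf : ∀ S ⊆ x.toFinset, f S S = F (x.filter (· ∈ S))) :
    alt x = ∑ Q ∈ x.toFinset.powerset, teleQ x.toFinset f Q := by
  rw [← tele]
  unfold alt
  apply sum_congr rfl
  intro S hS
  rw [hf S (mem_powerset.1 hS)]

theorem alt_nonneg_of_tele (x : List ℕ) (f : Finset ℕ → Finset ℕ → ℤ)
    (hf : ∀ S ⊆ x.toFinset, f S S = F (x.filter (· ∈ S)))
    (hpos : ∀ Q ⊆ x.toFinset, 0 ≤ teleQ x.toFinset f Q) : 0 ≤ alt x := by
  rw [alt_eq_tele x f hf]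
  exact sum_nonneg fun Q hQ => hpos Q (mem_powerset.1 hQ)

end Pool.Agent.Gao
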