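import Pool.Agent.Gao.Defs
import Pool.Agent.Gao.Lattice
import Pool.Agent.Gao.Tele

/-!
# Gao project: the assembly

The four inputs, with their exact Lean types:

* `LinkF`   : `dim M(w; S, S) = F (w restricted to S)`;
* `InertP`  : inert rows do not change the dimension;
* `RProp`   : (R) for fixed columns `J ⊇ Q` the spaces `Mmod w Q S J`, `S ⊆ Q`, form a good family;
* `AlphaProp` : (ALPHA) generic contractions of the columns of `P = univ \ Q`.

`alt_wd_nonneg`: the four inputs imply `0 ≤ alt (wd w)` for all permutations, and with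
`frozen_of_alt_nonneg'` the frozen statement.
-/

set_option autoImplicit false

namespace Gao

open Finset Module Pool.Agent.Gao

variable {n : ℕ}

/-- positions of a set of letters -/
def pos (w : Equiv.Perm (Fin n)) (S : Finset (Fin n)) : Finset (Fin n) :=
  S.map w.symm.toEmbedding

/-- the letters of `S` as natural numbers -/
def lets (S : Finset (Fin n)) : Finset ℕ := S.map Fin.valEmbedding

/-- LINK: the dimension of `M(w; S, S)` is the number `F` of the restricted word -/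
def LinkF : Prop := ∀ (n : ℕ) (w : Equiv.Perm (Fin n)) (S : Finset (Fin n)),
  (finrank ℂ (Mmod w S S (pos w S)) : ℤ) = F ((wd w).filter (· ∈ lets S))

/-- inert rows do not change the dimension -/
def InertP : Prop := ∀ (n : ℕ) (w : Equiv.Perm (Fin n)) (Q S J : Finset (Fin n)), S ⊆ Q →
  finrank ℂ (Mmod w Q S J) = finrank ℂ (Mmod w S S J)

/-- (R) -/
def RProp : Prop := ∀ (n : ℕ) (w : Equiv.Perm (Fin n)) (Q J : Finset (Fin n)), pos w Q ⊆ J →
  LGood Q (fun S => Mmod w Q S J)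

/-- (ALPHA) -/
def AlphaProp : Prop := ∀ (n : ℕ) (w : Equiv.Perm (Fin n)) (Q : Finset (Fin n)),
  ∃ C : Fin n → Fk n →ₗ[ℂ] Fk n,
    (∀ S, S ⊆ Q → ∀ R p, insert p R ⊆ univ \ Q → p ∉ R →
      ∀ x ∈ Mmod w Q S (pos w (Q ∪ insert p R)), C p x ∈ Mmod w Q S (pos w (Q ∪ R))) ∧
    (∀ S, S ⊆ Q → ∀ p q, p ≠ q → ∀ R, R ⊆ univ \ Q → p ∈ R →
      ∀ x ∈ Mmod w Q S (pos w (Q ∪ R)), C q x = 0 → C q (C p x) = 0) ∧
    (∀ S, S ⊆ Q → ∀ R I, R ⊆ univ \ Q → I ⊆ R →
      (finrank ℂ (Mmod w Q S (pos w (Q ∪ R)) ⊓ cker C I : Submodule ℂ (Fk n)) : ℤ) ≤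
        ∑ T ∈ I.powerset, (-1 : ℤ) ^ T.card * (finrank ℂ (Mmod w Q S (pos w (Q ∪ (R \ T)))) : ℤ))

/-- the letters of `wd w` -/
theorem toFinset_wd (w : Equiv.Perm (Fin n)) : (wd w).toFinset = lets (univ : Finset (Fin n)) := by
  ext a
  rw [List.mem_toFinset, wd, List.mem_ofFn, lets, mem_map]
  constructor
  · rintro ⟨i, rfl⟩
    exact ⟨w i, mem_univ _, rfl⟩
  · rintro ⟨b, _, rfl⟩
    exact ⟨w.symm b, by simp⟩

theorem alt_wd (w : Equiv.Perm (Fin n)) :
    alt (wd w) = ∑ S ∈ (univ : Finset (Fin n)).powerset,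
      (-1 : ℤ) ^ ((univ : Finset (Fin n)).card - S.card) * F ((wd w).filter (· ∈ lets S)) := by
  unfold alt
  rw [toFinset_wd]
  symm
  apply Finset.sum_bij (fun S _ => lets S)
  · intro S hS
    rw [mem_powerset] at hS ⊢
    exact map_subset_map.2 hS
  · intro S _ T _ h
    exact map_injective _ h
  · intro V hV
    rw [mem_powerset] at hV
    refine ⟨univ.filter (fun a : Fin n => (a : ℕ) ∈ V), mem_powerset.2 (filter_subset _ _), ?_⟩
    ext a
    rw [lets, mem_map]
    constructor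
    · rintro ⟨b, hb, rfl⟩
      exact (mem_filter.1 hb).2
    · intro ha
      obtain ⟨b, _, rfl⟩ := mem_map.1 (hV ha)
      exact ⟨b, mem_filter.2 ⟨mem_univ _, ha⟩, rfl⟩
  · intro S hS
    rw [lets, lets, card_map, card_map]

theorem alt_wd_nonneg (hlink : LinkF) (hin : InertP) (hR : RProp) (hA : AlphaProp) {n : ℕ}
    (w : Equiv.Perm (Fin n)) : 0 ≤ alt (wd w) := by
  have h1 : alt (wd w) = ∑ S ∈ (univ : Finset (Fin n)).powerset,
      (-1 : ℤ) ^ ((univ : Finset (Fin n)).card - S.card) *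
        (finrank ℂ (Mmod w S S (pos w S)) : ℤ) := by
    rw [alt_wd]
    apply sum_congr rfl
    intro S _
    rw [hlink]
  have h2 := tele (univ : Finset (Fin n)) (fun A J => (finrank ℂ (Mmod w A A (pos w J)) : ℤ))
  rw [h1, h2]
  apply sum_nonneg
  intro Q _
  obtain ⟨C, hmap, hcomm, hdim⟩ := hA n w Q
  have h3 := final (univ \ Q) Q (fun R S => Mmod w Q S (pos w (Q ∪ R))) C
    (fun R hRP => hR n w Q _ (map_subset_map.2 subset_union_left)) hmap hcomm hdim
  unfold teleQ
  refine h3.trans_eq ?_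
  apply sum_congr rfl
  intro T _
  apply sum_congr rfl
  intro R _
  rw [hin n w Q (Q \ T) (pos w (Q ∪ R)) sdiff_subset]

/-- **The frozen statement from the four inputs.** -/
theorem main (hlink : LinkF) (hin : InertP) (hR : RProp) (hA : AlphaProp) :
    ∀ c : (m : ℕ) → Equiv.Perm (Fin m) → ℤ,
      (∀ m : ℕ, 1 ≤ m → ∀ w : Equiv.Perm (Fin m),
        ((Nat.card {p : Fin m × Fin m // p.1 < p.2 ∧ w p.2 < w p.1}).factorial : ℤ) *
          (c m w + 1 + ∑ k ∈ Finset.Ico 1 m, ∑ u : Equiv.Perm (Fin k),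
            c k u * (Nat.card {f : Fin k → Fin m //
              StrictMono f ∧ ∀ i j : Fin k, (u i < u j ↔ w (f i) < w (f j))} : ℤ))
        = ∑ s ∈ (Finset.univ : Finset (Fin (Nat.card {p : Fin m × Fin m // p.1 < p.2 ∧ w p.2 < w p.1})
                → Fin m × Fin m)).filter
              (fun s => (∀ i, (s i).2.val = (s i).1.val + 1) ∧
                (List.ofFn (fun i => Equiv.swap (s i).1 (s i).2)).prod = w),
            ∏ i, (((s i).1.val + 1 : ℕ) : ℤ)) →
      ∀ m : ℕ, 1 ≤ m → ∀ w : Equiv.Perm (Fin m), 0 ≤ c m w := by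
  intro c hc m hm w
  rw [c_eq_alt c hc m hm w]
  exact alt_wd_nonneg hlink hin hR hA w

end Gao
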