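import Pool.Agent.Gao.Defs

/-!
# Extremal vectors: `(colE c c')^k (ee D)` is a nonzero multiple of `ee D'`

`D` a set of boxes with `(x, c') ∈ D → (x, c) ∈ D`, `D'` the set `D` with the columns `c`, `c'`
exchanged, `k` the number of rows containing `(x, c)` but not `(x, c')`.
-/

namespace Gao

open Finset Kost

noncomputable section

variable {n : ℕ}

/-- the operator of one row -/
def rowPart (c c' x : Fin n) : Module.End ℂ (Fk n) := cr (x, c') * an (x, c)

lemma colE_eq_sum (c c' : Fin n) : colE c c' = ∑ x, rowPart c c' x := rfl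

lemma rowPart_comm {c c' : Fin n} (hc : c ≠ c') (x y : Fin n) :
    rowPart c c' x * rowPart c c' y = rowPart c c' y * rowPart c c' x := by
  unfold rowPart
  rw [← mul_assoc, cr_an_cr, if_neg (by intro h; exact hc (congrArg Prod.snd h)), zero_add,
    mul_assoc (cr (y, c')), cr_an_an, if_neg (by intro h; exact hc (congrArg Prod.snd h).symm),
    sub_zero, mul_assoc]

lemma cr_mul_self {K : Type*} [Fintype K] [DecidableEq K] (k : K) : cr k * cr k = 0 := by
  have h := cr_cr k k
  rw [← two_smul ℂ] at h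
  exact (smul_eq_zero.1 h).resolve_left two_ne_zero

lemma rowPart_sq {c c' : Fin n} (hc : c ≠ c') (x : Fin n) :
    rowPart c c' x * rowPart c c' x = 0 := by
  unfold rowPart
  rw [← mul_assoc, cr_an_cr, if_neg (by intro h; exact hc (congrArg Prod.snd h)), zero_add,
    ← mul_assoc, cr_mul_self, zero_mul, zero_mul]

lemma sgn_ne_zero {K : Type*} [Fintype K] [DecidableEq K] (k : K) (S : Finset K) :
    sgn k S ≠ 0 := by
  intro h
  have h1 := sgn_mul_self k S
  rw [h, mul_zero] at h1
  exact zero_ne_one h1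

/-- `rowPart` kills `ee D` if the box `(x,c)` is missing -/
lemma rowPart_ee_of_notMem {c c' x : Fin n} {D : Finset (Fin n × Fin n)} (h : (x, c) ∉ D) :
    rowPart c c' x (ee D) = 0 := by
  unfold rowPart
  rw [Module.End.mul_apply, an_ee, if_neg h, map_zero]

/-- `rowPart` kills `ee D` if the box `(x,c')` is present -/
lemma rowPart_ee_of_mem {c c' x : Fin n} (hc : c ≠ c') {D : Finset (Fin n × Fin n)}
    (h : (x, c') ∈ D) : rowPart c c' x (ee D) = 0 := by
  unfold rowPart
  rw [Module.End.mul_apply, an_ee]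
  split_ifs with h1
  · rw [map_smul, cr_ee, if_pos, smul_zero]
    exact mem_erase.2 ⟨fun h2 => hc (congrArg Prod.snd h2).symm, h⟩
  · rw [map_zero]

/-- `rowPart` moves the box otherwise -/
lemma rowPart_ee {c c' x : Fin n} {D : Finset (Fin n × Fin n)} (h : (x, c) ∈ D)
    (h' : (x, c') ∉ D) : ∃ t : ℂ, t ≠ 0 ∧
      rowPart c c' x (ee D) = t • ee (insert (x, c') (D.erase (x, c))) := by
  refine ⟨sgn (x, c) D * sgn (x, c') (D.erase (x, c)),
    mul_ne_zero (sgn_ne_zero _ _) (sgn_ne_zero _ _), ?_⟩
  unfold rowPart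
  rw [Module.End.mul_apply, an_ee, if_pos h, map_smul, cr_ee, if_neg, smul_smul]
  exact fun h2 => h' (mem_of_mem_erase h2)

/-- the rows of `R` moved from the column `c` to the column `c'` -/
def moved (c c' : Fin n) (D : Finset (Fin n × Fin n)) (R : Finset (Fin n)) :
    Finset (Fin n × Fin n) :=
  (D \ R.image (fun x => (x, c))) ∪ R.image (fun x => (x, c'))

lemma mem_moved {c c' : Fin n} {D : Finset (Fin n × Fin n)} {R : Finset (Fin n)}
    {b : Fin n × Fin n} : b ∈ moved c c' D R ↔
      (b ∈ D ∧ ¬ (b.1 ∈ R ∧ b.2 = c)) ∨ (b.1 ∈ R ∧ b.2 = c') := by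
  unfold moved
  rw [mem_union, mem_sdiff, mem_image, mem_image]
  constructor
  · rintro (⟨h1, h2⟩ | ⟨x, hx, rfl⟩)
    · exact Or.inl ⟨h1, fun h3 => h2 ⟨b.1, h3.1, by rw [← h3.2]⟩⟩
    · exact Or.inr ⟨hx, rfl⟩
  · rintro (⟨h1, h2⟩ | ⟨h1, h2⟩)
    · exact Or.inl ⟨h1, fun ⟨x, hx, hxb⟩ => h2 (by rw [← hxb]; exact ⟨hx, rfl⟩)⟩
    · exact Or.inr ⟨b.1, h1, by rw [← h2]⟩

/-- the operators of the rows of `R` -/
lemma sum_rowPart_pow {c c' : Fin n} (hc : c ≠ c') (D : Finset (Fin n × Fin n))
    (R : Finset (Fin n)) (hR : ∀ x ∈ R, (x, c) ∈ D ∧ (x, c') ∉ D) :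
    ∃ t : ℂ, t ≠ 0 ∧ ((∑ x ∈ R, rowPart c c' x) ^ R.card) (ee D) = t • ee (moved c c' D R) := by
  induction R using Finset.induction_on with
  | empty =>
    refine ⟨1, one_ne_zero, ?_⟩
    have h1 : moved c c' D ∅ = D := by
      ext b; rw [mem_moved]; simp
    rw [h1, card_empty, pow_zero, one_smul, Module.End.one_apply]
  | insert a R ha ih =>
    obtain ⟨t, ht, h1⟩ := ih (fun x hx => hR x (mem_insert_of_mem hx))
    set E := ∑ x ∈ R, rowPart c c' x with hE
    set A := rowPart c c' a with hA
    have hAE : Commute E A := by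
      rw [hE, hA]
      exact Commute.sum_left _ _ _ (fun x _ => rowPart_comm hc x a)
    have hA2 : A * A = 0 := rowPart_sq hc a
    have hpow : ∀ m : ℕ, (A + E) ^ (m + 1) = E ^ (m + 1) + ((m + 1 : ℕ) : ℂ) • (A * E ^ m) := by
      intro m
      induction m with
      | zero => simp [add_comm]
      | succ m ihm =>
        rw [pow_succ' (A + E), ihm, add_mul, mul_add, mul_add, mul_smul_comm, mul_smul_comm,
          ← mul_assoc A A, hA2, zero_mul, smul_zero, add_zero, ← pow_succ' E,
          ← mul_assoc E A, hAE.eq, mul_assoc A E, ← pow_succ' E]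
        have h3 : A * E ^ (m + 1) + (E ^ (m + 1 + 1) + ((m + 1 : ℕ) : ℂ) • (A * E ^ (m + 1)))
            = E ^ (m + 1 + 1) + ((1 : ℂ) • (A * E ^ (m + 1)) +
              ((m + 1 : ℕ) : ℂ) • (A * E ^ (m + 1))) := by
          rw [one_smul]; abel
        rw [h3, ← add_smul]
        congr 2
        push_cast
        ring
    have hzero : E (ee (moved c c' D R)) = 0 := by
      rw [hE, LinearMap.sum_apply]
      refine Finset.sum_eq_zero fun x hx => rowPart_ee_of_notMem ?_
      rw [mem_moved]
      push Not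
      exact ⟨fun _ => ⟨hx, rfl⟩, fun _ => hc⟩
    have ha1 : (a, c) ∈ moved c c' D R := by
      rw [mem_moved]
      exact Or.inl ⟨(hR a (mem_insert_self _ _)).1, fun h => ha h.1⟩
    have ha2 : (a, c') ∉ moved c c' D R := by
      rw [mem_moved]
      push Not
      exact ⟨fun h => absurd h (hR a (mem_insert_self _ _)).2, fun h => absurd h ha⟩
    obtain ⟨s, hs, h2⟩ := rowPart_ee ha1 ha2
    have hset : insert (a, c') ((moved c c' D R).erase (a, c)) = moved c c' D (insert a R) := by
      ext b
      rw [mem_insert, mem_erase, mem_moved, mem_moved, mem_insert]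
      obtain ⟨x, j⟩ := b
      simp only [Prod.mk.injEq, ne_eq, not_and]
      have hac := (hR a (mem_insert_self _ _)).2
      by_cases hx : x = a
      · subst hx
        by_cases hj : j = c
        · subst hj; simp [hc, ha]
        · simp [hj, ha, or_comm]
      · simp [hx]
    refine ⟨((R.card + 1 : ℕ) : ℂ) * (t * s), ?_, ?_⟩
    · exact mul_ne_zero (Nat.cast_ne_zero.2 (Nat.succ_ne_zero _)) (mul_ne_zero ht hs)
    · rw [sum_insert ha, card_insert_of_notMem ha, ← hA, ← hE, hpow, LinearMap.add_apply,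
        LinearMap.smul_apply, Module.End.mul_apply, h1, pow_succ', Module.End.mul_apply, h1,
        map_smul, hzero, smul_zero, zero_add, map_smul, h2, smul_smul, smul_smul, hset, mul_assoc]

/-- the rows that contain `(x, c)` but not `(x, c')` -/
def freeRows (c c' : Fin n) (D : Finset (Fin n × Fin n)) : Finset (Fin n) :=
  univ.filter (fun x => (x, c) ∈ D ∧ (x, c') ∉ D)

/-- the set `D` with the columns `c` and `c'` exchanged -/
def swapCol (c c' : Fin n) (D : Finset (Fin n × Fin n)) : Finset (Fin n × Fin n) :=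
  D.image (Prod.map id (Equiv.swap c c'))

lemma mem_swapCol {c c' : Fin n} {D : Finset (Fin n × Fin n)} {b : Fin n × Fin n} :
    b ∈ swapCol c c' D ↔ (b.1, Equiv.swap c c' b.2) ∈ D := by
  unfold swapCol
  rw [mem_image]
  constructor
  · rintro ⟨d, hd, rfl⟩
    simpa using hd
  · intro h
    exact ⟨_, h, by simp⟩

lemma swapCol_swapCol (c c' : Fin n) (D : Finset (Fin n × Fin n)) :
    swapCol c c' (swapCol c c' D) = D := by
  ext b
  rw [mem_swapCol, mem_swapCol]
  simp

lemma swapCol_comm (c c' : Fin n) (D : Finset (Fin n × Fin n)) :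
    swapCol c' c D = swapCol c c' D := by
  unfold swapCol
  rw [Equiv.swap_comm]

lemma moved_freeRows {c c' : Fin n} {D : Finset (Fin n × Fin n)}
    (hD : ∀ x, (x, c') ∈ D → (x, c) ∈ D) :
    moved c c' D (freeRows c c' D) = swapCol c c' D := by
  ext ⟨x, j⟩
  rw [mem_moved, mem_swapCol]
  unfold freeRows
  simp only [mem_filter, mem_univ, true_and]
  by_cases h1 : j = c
  · subst h1
    rw [Equiv.swap_apply_left]
    by_cases h2 : (x, j) ∈ D
    · by_cases h3 : (x, c') ∈ D
      · simp [h2, h3]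
      · simp only [h2, h3, not_false_eq_true, and_self, not_true_eq_false, and_false, true_and,
          false_or, iff_false]
        rintro rfl
        exact h3 h2
    · have h3 : (x, c') ∉ D := fun h => h2 (hD x h)
      simp [h2, h3]
  · by_cases h2 : j = c'
    · subst h2
      rw [Equiv.swap_apply_right]
      by_cases h3 : (x, j) ∈ D
      · have h4 := hD x h3
        simp [h3, h4]
      · simp [h3]
    · rw [Equiv.swap_apply_of_ne_of_ne h1 h2]
      simp [h1, h2]

/-- **extremal vectors**: `(colE c c')^k (ee D)` is a nonzero multiple of `ee D'` -/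
theorem ext_vec {c c' : Fin n} (hc : c ≠ c') {D : Finset (Fin n × Fin n)}
    (hD : ∀ x, (x, c') ∈ D → (x, c) ∈ D) :
    ∃ t : ℂ, t ≠ 0 ∧
      ((colE c c') ^ (freeRows c c' D).card) (ee D) = t • ee (swapCol c c' D) := by
  obtain ⟨t, ht, h1⟩ := sum_rowPart_pow hc D (freeRows c c' D) (by
    intro x hx
    unfold freeRows at hx
    rw [mem_filter] at hx
    exact hx.2)
  rw [moved_freeRows hD] at h1
  refine ⟨t, ht, ?_⟩
  rw [← h1]
  set R := freeRows c c' D with hR
  set A := ∑ x ∈ R, rowPart c c' x with hA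
  set B := ∑ x ∈ univ \ R, rowPart c c' x with hB
  have hAB : colE c c' = A + B := by
    rw [colE_eq_sum, hA, hB, add_comm, Finset.sum_sdiff (subset_univ R)]
  have hcomm : Commute B A := by
    rw [hA, hB]
    exact Commute.sum_left _ _ _ (fun x _ => Commute.sum_right _ _ _
      (fun y _ => rowPart_comm hc x y))
  have hBv : B (ee D) = 0 := by
    rw [hB, LinearMap.sum_apply]
    refine Finset.sum_eq_zero fun x hx => ?_
    rw [mem_sdiff, hR] at hx
    unfold freeRows at hx
    rw [mem_filter] at hx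
    by_cases h2 : (x, c) ∈ D
    · have h3 : (x, c') ∈ D := by
        by_contra h3
        exact hx.2 ⟨mem_univ _, h2, h3⟩
      exact rowPart_ee_of_mem hc h3
    · exact rowPart_ee_of_notMem h2
  rw [hAB]
  have key : ∀ m : ℕ, ((A + B) ^ m) (ee D) = (A ^ m) (ee D) := by
    intro m
    induction m with
    | zero => simp
    | succ m ihm =>
      rw [pow_succ', Module.End.mul_apply, ihm, LinearMap.add_apply, ← Module.End.mul_apply B,
        (hcomm.pow_right m).eq, Module.End.mul_apply, hBv, map_zero, add_zero, pow_succ',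
        Module.End.mul_apply]
  exact key _

/-- the way back -/
theorem ext_vec_back {c c' : Fin n} (hc : c ≠ c') {D : Finset (Fin n × Fin n)}
    (hD : ∀ x, (x, c') ∈ D → (x, c) ∈ D) :
    ∃ t : ℂ, t ≠ 0 ∧
      ((colE c' c) ^ (freeRows c c' D).card) (ee (swapCol c c' D)) = t • ee D := by
  have h1 : ∀ x, (x, c) ∈ swapCol c c' D → (x, c') ∈ swapCol c c' D := by
    intro x
    rw [mem_swapCol, mem_swapCol]
    simp only [Equiv.swap_apply_left, Equiv.swap_apply_right]
    exact hD x
  obtain ⟨t, ht, h2⟩ := ext_vec hc.symm h1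
  refine ⟨t, ht, ?_⟩
  have h3 : freeRows c' c (swapCol c c' D) = freeRows c c' D := by
    unfold freeRows
    ext x
    simp only [mem_filter, mem_univ, true_and, mem_swapCol, Equiv.swap_apply_left,
      Equiv.swap_apply_right]
  rw [h3, swapCol_comm c c' (swapCol c c' D), swapCol_swapCol] at h2
  exact h2

end

end Gao
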