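import Mathlib
import Pool.Agent.Kost.Fock
import Pool.Agent.Gao.Sl2A

/-!
# Gao project (MP_b139df_co): the concrete modules

Everything lives in ONE space: the Fock space `Fk n` with basis `ee D`, `D` a finite set of boxes
`(x, j) : Fin n × Fin n`; `x` = LETTER (row), `j` = POSITION (column).
A word is a permutation `w : Equiv.Perm (Fin n)`, `w j` = the letter at position `j`,
`w.symm x` = the position of the letter `x`.

* `colE j l` moves a box from column `j` to column `l` (all rows), `rowE x y` moves a box from row `x`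
  to row `y` (all columns); they commute.
* J-side: `nJ`-operators `colE j l`, `j < l` in `J` (columns move to the RIGHT).
* A-side: `rowE x y`, `x, y ∈ S`, `w.symm y < w.symm x` (rows move to letters standing more to the LEFT).
-/

namespace Gao

open Finset Module

noncomputable section

/-- the ambient space -/
abbrev Fk (n : ℕ) := Kost.Fock (Fin n × Fin n)

variable {n : ℕ}

/-- column operator: moves column `j` to column `l` -/
def colE (j l : Fin n) : Module.End ℂ (Fk n) := ∑ x, Kost.cr (x, l) * Kost.an (x, j)

/-- row operator: moves row `x` to row `y` -/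
def rowE (x y : Fin n) : Module.End ℂ (Fk n) := ∑ j, Kost.cr (y, j) * Kost.an (x, j)

/-- content of the rows -/
def rowCnt (D : Finset (Fin n × Fin n)) : Fin n → ℤ := fun x => ((D.filter (fun b => b.1 = x)).card : ℤ)

/-- content of the columns -/
def colCnt (D : Finset (Fin n × Fin n)) : Fin n → ℤ := fun j => ((D.filter (fun b => b.2 = j)).card : ℤ)

/-- The projection of the Fock space onto the span of the `ee D` with `P D`. -/
def dia {B : Type*} [Fintype B] [DecidableEq B] (P : Finset B → Prop) [DecidablePred P] :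
    Module.End ℂ (Kost.Fock B) :=
  (EuclideanSpace.basisFun (Finset B) ℂ).toBasis.constr ℂ (fun D => if P D then Kost.ee D else 0)

lemma dia_ee {B : Type*} [Fintype B] [DecidableEq B] (P : Finset B → Prop) [DecidablePred P]
    (D : Finset B) : dia P (Kost.ee D) = if P D then Kost.ee D else 0 := by
  have h := (EuclideanSpace.basisFun (Finset B) ℂ).toBasis.constr_basis ℂ
    (fun D => if P D then Kost.ee D else (0 : Kost.Fock B)) D
  rw [OrthonormalBasis.coe_toBasis, EuclideanSpace.basisFun_apply] at h
  exact h

/-- grading of the Fock space by a function of the box set -/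
def degGr {B Λ : Type*} [Fintype B] [DecidableEq B] [DecidableEq Λ] (deg : Finset B → Λ) :
    Grading ℂ (Kost.Fock B) Λ where
  π a := dia (fun D => deg D = a)
  mul a b := by
    refine Kost.end_ext fun D => ?_
    rw [Module.End.mul_apply, dia_ee]
    by_cases hb : deg D = b
    · rw [if_pos hb, dia_ee]
      by_cases hab : a = b
      · rw [if_pos hab, dia_ee]
      · rw [if_neg hab, if_neg (fun h => hab (h.symm.trans hb))]; rfl
    · rw [if_neg hb, map_zero]
      by_cases hab : a = b
      · rw [if_pos hab, dia_ee, if_neg (fun h => hb (h.trans hab))]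
      · rw [if_neg hab]; rfl
  supp := univ.image deg
  zero a ha := by
    refine Kost.end_ext fun D => ?_
    rw [dia_ee, if_neg]
    · rfl
    · intro h
      exact ha (mem_image.2 ⟨D, mem_univ _, h⟩)
  sum := by
    refine Kost.end_ext fun D => ?_
    rw [LinearMap.sum_apply, Finset.sum_eq_single (deg D)]
    · rw [dia_ee, if_pos rfl]; rfl
    · intro b _ hb
      rw [dia_ee, if_neg (fun h => hb h.symm)]
    · intro h
      exact absurd (mem_image.2 ⟨D, mem_univ _, rfl⟩) h

/-- grading by the row contents (letters) -/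
def rowGr (n : ℕ) : Grading ℂ (Fk n) (Fin n → ℤ) := degGr rowCnt

/-- grading by the column contents (positions) -/
def colGr (n : ℕ) : Grading ℂ (Fk n) (Fin n → ℤ) := degGr colCnt

/-- The subspace generated from the vector `v` by the operators in `S`:
`{a v | a in the algebra generated by S}`. -/
def gen {K V : Type*} [Field K] [AddCommGroup V] [Module K V] (S : Set (Module.End K V)) (v : V) :
    Submodule K V :=
  (Subalgebra.toSubmodule (Algebra.adjoin K S)).map (LinearMap.applyₗ v)

/-! ### the data of a word -/

/-- the boxes `(x,j)`, `x ∈ A`, `j ∈ J`, `x` stands before `j` and is larger than the letter at `j` -/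
def Dset (w : Equiv.Perm (Fin n)) (A J : Finset (Fin n)) : Finset (Fin n × Fin n) :=
  univ.filter (fun b => b.1 ∈ A ∧ b.2 ∈ J ∧ w.symm b.1 < b.2 ∧ w b.2 < b.1)

/-- the boxes `(x,j)`, `x ∈ A`, `j ∈ J`, `x` stands before `j` -/
def Fset (w : Equiv.Perm (Fin n)) (A J : Finset (Fin n)) : Finset (Fin n × Fin n) :=
  univ.filter (fun b => b.1 ∈ A ∧ b.2 ∈ J ∧ w.symm b.1 < b.2)

/-- the operators of the J-side: columns of `J` move to the right -/
def colOps (J : Finset (Fin n)) : Set (Module.End ℂ (Fk n)) :=
  {T | ∃ j ∈ J, ∃ l ∈ J, j < l ∧ T = colE j l}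

/-- the operators of the A-side: letters of `S` move to letters of `S` standing more to the left -/
def rowOps (w : Equiv.Perm (Fin n)) (S : Finset (Fin n)) : Set (Module.End ℂ (Fk n)) :=
  {T | ∃ x ∈ S, ∃ y ∈ S, w.symm y < w.symm x ∧ T = rowE x y}

/-- J-side module `S(w; A, J)` of the notes -/
def Nmod (w : Equiv.Perm (Fin n)) (A J : Finset (Fin n)) : Submodule ℂ (Fk n) :=
  gen (colOps J) (Kost.ee (Dset w A J))

/-- A-side module: rows of `S ⊆ Q` active, rows of `Q \ S` inert; for `S = Q = A` this is `M(w; A, J)`. -/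
def Mmod (w : Equiv.Perm (Fin n)) (Q S J : Finset (Fin n)) : Submodule ℂ (Fk n) :=
  gen (rowOps w S) (Kost.ee (Dset w Q J))

/-- span of the `ee D` with `D ⊆ E` and row content `ν` -/
def Fnu (E : Finset (Fin n × Fin n)) (ν : Fin n → ℤ) : Submodule ℂ (Fk n) :=
  Submodule.span ℂ {v | ∃ D : Finset (Fin n × Fin n), D ⊆ E ∧ rowCnt D = ν ∧ v = Kost.ee D}

/-- span of the `ee D` with `D ⊆ E` -/
def Fall (E : Finset (Fin n × Fin n)) : Submodule ℂ (Fk n) :=
  Submodule.span ℂ {v | ∃ D : Finset (Fin n × Fin n), D ⊆ E ∧ v = Kost.ee D}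

/-- `m(w,A,J)(ν)`: the dimension of the part of row content `ν` of `M(w; A, J)` -/
def mdim (w : Equiv.Perm (Fin n)) (A J : Finset (Fin n)) (ν : Fin n → ℤ) : ℕ :=
  finrank ℂ ((Mmod w A A J).map ((rowGr n).π ν))

end

end Gao
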