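import Mathlib
import Pool.Agent.Gao.GDefs
import Pool.Agent.Gao.Defs

/-!
# Gao project: Fock space instances of `GLRep`, `Tw`, `Slots`, and the programs of a word

* `SlotData`: boxes `b i p` (`i` = index of `gl_m`, `p` = slot), inert boxes `inr p` of the slot, all boxes `Sl p` of the slot.
* A-side: index `i` ↔ row of the `i`-th letter of `S` in position order, slot = letter `y` ↔ column `w.symm y`.
* J-side: index `i` ↔ `i`-th column of `J` FROM THE RIGHT, slot = letter `x` ↔ row `x`.
-/

namespace Gao

open Finset Module

noncomputable section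

/-! ### programs of marked words -/

section prog
variable {τ : Type*} [DecidableEq τ]

/-- auxiliary: fuel version of `prog` -/
def progN (v : τ → ℕ) (g : τ → Bool) (adj : τ → ℕ) : ℕ → List τ → List (Ins τ)
  | 0, _ => []
  | k + 1, L => match L.argmin v with
    | none => []
    | some a =>
      Ins.tw a ((L.takeWhile (fun x => decide (x ≠ a))).countP g - adj a) ::
        ((if g a then (List.range ((L.dropWhile (fun x => decide (x ≠ a))).tail.countP g)).map
            (fun i => Ins.T ((L.takeWhile (fun x => decide (x ≠ a))).countP g + i)) else []) ++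
          progN v g adj k (L.takeWhile (fun x => decide (x ≠ a)) ++
            (L.dropWhile (fun x => decide (x ≠ a))).tail))

/-- The program of a word `L` (a list of letters with values `v`; `g a` = the letter `a` is a moving index):
for the letter `a` with the smallest value, `L = α ++ a :: β`, `t = #g-letters of α`, `r = #g-letters of β`:
`prog L = tw a (t - adj a) :: (T t, T (t+1), …, T (t+r-1) if g a) ++ prog (α ++ β)`. -/
def prog (v : τ → ℕ) (g : τ → Bool) (adj : τ → ℕ) (L : List τ) : List (Ins τ) :=
  progN v g adj L.length L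

end prog

/-! ### Fock space -/

/-- data for the slots -/
structure SlotData (B P : Type*) (m : ℕ) where
  b : Fin m → P → B
  inj : ∀ i p i' p', b i p = b i' p' → i = i' ∧ p = p'
  Sl : P → Finset B
  inr : P → List B
  b_mem : ∀ i p, b i p ∈ Sl p
  inr_mem : ∀ p, ∀ x ∈ inr p, x ∈ Sl p
  inr_nodup : ∀ p, (inr p).Nodup
  b_inr : ∀ i p, b i p ∉ inr p
  disj : ∀ p q, p ≠ q → Disjoint (Sl p) (Sl q)

variable {B P : Type} [Fintype B] [DecidableEq B] [Fintype P] [DecidableEq P] {m : ℕ}

/-- product of creation operators -/
def crL (l : List B) : Module.End ℂ (Kost.Fock B) := (l.map Kost.cr).prod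

/-- product of annihilation operators, in the reversed order -/
def anL (l : List B) : Module.End ℂ (Kost.Fock B) := (l.reverse.map Kost.an).prod

namespace SlotData

variable (s : SlotData B P m)

/-- `E i j = Σ_p cr (b j p) an (b i p)` -/
def E (i j : Fin m) : Module.End ℂ (Kost.Fock B) := ∑ p, Kost.cr (s.b j p) * Kost.an (s.b i p)

/-- the weight of a set of boxes: number of boxes with index `i` -/
def deg (D : Finset B) : Wt m := fun i => ((univ.filter (fun p => s.b i p ∈ D)).card : ℤ)

/-- the list of boxes of the subset `l` in slot `p`, followed by the inert boxes -/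
def boxes (p : P) (l : Finset (Fin m)) : List B :=
  (l.sort (· ≤ ·)).map (fun i => s.b i p) ++ s.inr p

/-- creation of the boxes of `l` and of the inert boxes -/
def ins (p : P) (l : Finset (Fin m)) : Module.End ℂ (Kost.Fock B) := crL (s.boxes p l)

/-- extraction: the content of the slot `p` is exactly `boxes p l` -/
def ext (p : P) (l : Finset (Fin m)) : Module.End ℂ (Kost.Fock B) :=
  dia (fun D => Disjoint D (s.Sl p)) * anL (s.boxes p l)

/-- vectors without boxes of the slot `p` -/
def V' (p : P) : Submodule ℂ (Kost.Fock B) := LinearMap.range (dia (fun D => Disjoint D (s.Sl p)))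

end SlotData

/-! ### the two instances -/

/-- the positions of the letters of `S` -/
def posS {n : ℕ} (w : Equiv.Perm (Fin n)) (S : Finset (Fin n)) : Finset (Fin n) :=
  S.map w.symm.toEmbedding

/-- the `i`-th letter of `S` in position order -/
def gA {n : ℕ} (w : Equiv.Perm (Fin n)) (S : Finset (Fin n)) (i : Fin (posS w S).card) : Fin n :=
  w ((posS w S).orderEmbOfFin rfl i)

/-- the `i`-th position of `J` from the right -/
def gJ {n : ℕ} (J : Finset (Fin n)) (i : Fin J.card) : Fin n := J.orderEmbOfFin rfl (Fin.rev i)

/-- A-side: rows `S` active, rows `Q \ S` inert; the slot `y` is the column `w.symm y` -/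
def dataA {n : ℕ} (w : Equiv.Perm (Fin n)) (Q S : Finset (Fin n)) :
    SlotData (Fin n × Fin n) (Fin n) (posS w S).card where
  b i y := (gA w S i, w.symm y)
  inj i p i' p' h := by
    simp only [Prod.mk.injEq, gA] at h
    exact ⟨((posS w S).orderEmbOfFin rfl).injective (w.injective h.1), w.symm.injective h.2⟩
  Sl y := univ.filter (fun x => x.2 = w.symm y)
  inr y := ((Q \ S).filter (fun x => w.symm x < w.symm y ∧ y < x)).toList.map (fun x => (x, w.symm y))
  b_mem i y := by simp
  inr_mem y x hx := by
    simp only [List.mem_map] at hx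
    obtain ⟨z, _, rfl⟩ := hx
    simp
  inr_nodup y := by
    apply List.Nodup.map _ (Finset.nodup_toList _)
    intro a b h
    simpa using h
  b_inr i y := by
    intro h
    simp only [List.mem_map, Finset.mem_toList, Finset.mem_filter, Finset.mem_sdiff, Prod.mk.injEq,
      and_true] at h
    obtain ⟨z, hz, hzi⟩ := h
    apply hz.1.2
    rw [hzi, gA]
    have h1 : (posS w S).orderEmbOfFin rfl i ∈ S.map w.symm.toEmbedding :=
      (posS w S).orderEmbOfFin_mem rfl i
    obtain ⟨a, ha, hae⟩ := Finset.mem_map.1 h1
    have : w ((posS w S).orderEmbOfFin rfl i) = a := by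
      rw [show (posS w S).orderEmbOfFin rfl i = w.symm a from hae.symm]; simp
    rw [this]; exact ha
  disj p q hpq := by
    rw [Finset.disjoint_left]
    intro x hx hx'
    simp only [Finset.mem_filter, Finset.mem_univ, true_and] at hx hx'
    exact hpq (w.symm.injective (hx.symm.trans hx'))

/-- J-side: the index `i` is the `i`-th column of `J` from the right; the slot `x` is the row `x` -/
def dataJ {n : ℕ} (J : Finset (Fin n)) : SlotData (Fin n × Fin n) (Fin n) J.card where
  b i x := (x, gJ J i)
  inj i p i' p' h := by
    simp only [Prod.mk.injEq, gJ] at h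
    exact ⟨Fin.rev_injective ((J.orderEmbOfFin rfl).injective h.2), h.1⟩
  Sl x := univ.filter (fun y => y.1 = x)
  inr _ := []
  b_mem i y := by simp
  inr_mem y x hx := by simp at hx
  inr_nodup y := List.nodup_nil
  b_inr i y := by simp
  disj p q hpq := by
    rw [Finset.disjoint_left]
    intro x hx hx'
    simp only [Finset.mem_filter, Finset.mem_univ, true_and] at hx hx'
    exact hpq (hx.symm.trans hx')

/-- the word (letters of the positions of `J` from left to right) -/
def LA {n : ℕ} (w : Equiv.Perm (Fin n)) (J : Finset (Fin n)) : List (Fin n) := (J.sort (· ≤ ·)).map w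

/-- the reversed word -/
def LJ {n : ℕ} (w : Equiv.Perm (Fin n)) (J : Finset (Fin n)) : List (Fin n) := (J.sort (· ≥ ·)).map w

/-- A-side values -/
def vA {n : ℕ} (x : Fin n) : ℕ := x.val
/-- J-side values (reversed) -/
def vJ {n : ℕ} (x : Fin n) : ℕ := n - 1 - x.val

/-- A-side program: `S` = active letters -/
def progA {n : ℕ} (w : Equiv.Perm (Fin n)) (S J : Finset (Fin n)) : List (Ins (Fin n)) :=
  prog vA (fun x => decide (x ∈ S)) (fun _ => 0) (LA w J)

/-- J-side program; `adj x` = number of boxes dropped in the row `x` -/
def progJ {n : ℕ} (w : Equiv.Perm (Fin n)) (J : Finset (Fin n)) (adj : Fin n → ℕ) :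
    List (Ins (Fin n)) :=
  prog vJ (fun _ => true) adj (LJ w J)

/-- boxes of the J-side with the `adj x` leftmost boxes of every row `x` dropped -/
def Dadj {n : ℕ} (w : Equiv.Perm (Fin n)) (A J : Finset (Fin n)) (adj : Fin n → ℕ) :
    Finset (Fin n × Fin n) :=
  (Dset w A J).filter (fun b =>
    adj b.1 ≤ (J.filter (fun j => w.symm b.1 < j ∧ j < b.2 ∧ w j < b.1)).card)

end

end Gao
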