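import Mathlib
import Pool.Agent.Gao.GProg

/-!
# Gao project: the Fock space as a `GLRep` (MODULE FockRep, about 150 lines)

`s.E i j = Σ_p cr (b j p) an (b i p)`.

* `E_comm`: from the CAR (`Kost.cr_an_cr`, `Kost.cr_an_an` or `Kost.dG_lie` with `M = Σ_p single (b j p) (b i p)`):
  `[cr x an y, cr z an u] = δ_{yz} cr x an u - δ_{ux} cr z an y`; sum over the two slots, `b` injective.
* `E_hom`: `cr (b j p) an (b i p)` maps `ee D` to a multiple of `ee (insert (b j p) (D.erase (b i p)))` (or 0), and
  `deg` of this set is `deg D - single i 1 + single j 1` (for `i = j` it is `deg D`; check the coincidences; `hom_of_mem`/`Kost.end_ext`).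
* `E_diag`: `Σ_p cr (b i p) an (b i p)` is the number operator: `cr x (an x (ee D)) = if x ∈ D then ee D else 0`.
-/

namespace Gao

open Finset Module

noncomputable section

variable {B P : Type} [Fintype B] [DecidableEq B] [Fintype P] [DecidableEq P] {m : ℕ}
  (s : SlotData B P m)

omit [Fintype P] [DecidableEq P] in
theorem comm_cr_an (x y z u : B) : (Kost.cr x * Kost.an y) * (Kost.cr z * Kost.an u) -
    (Kost.cr z * Kost.an u) * (Kost.cr x * Kost.an y) =
    (if y = z then Kost.cr x * Kost.an u else 0) - (if x = u then Kost.cr z * Kost.an y else 0) := by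
  have h1 := Kost.cr_an_cr x y z
  have h2 := Kost.cr_an_an x y u
  have h3 : (Kost.cr x * Kost.an y) * (Kost.cr z * Kost.an u) =
      (if y = z then Kost.cr x * Kost.an u else 0) + Kost.cr z * ((Kost.cr x * Kost.an y) *
        Kost.an u) := by
    rw [← mul_assoc, h1, add_mul, ← mul_assoc]
    congr 1
    split_ifs
    · rfl
    · rw [zero_mul]
  rw [h3, h2, mul_sub]
  have h4 : Kost.cr z * (if x = u then Kost.an y else (0 : Module.End ℂ (Kost.Fock B))) =
      if x = u then Kost.cr z * Kost.an y else 0 := by
    split_ifs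
    · rfl
    · rw [mul_zero]
  rw [h4, ← mul_assoc (Kost.cr z) (Kost.an u)]
  abel

omit [Fintype P] [DecidableEq P] in
theorem cr_an_self (x : B) (D : Finset B) : Kost.cr x (Kost.an x (Kost.ee D)) =
    if x ∈ D then Kost.ee D else 0 := by
  rw [Kost.an_ee]
  by_cases h : x ∈ D
  · rw [if_pos h, if_pos h, map_smul, Kost.cr_ee, if_neg (Finset.notMem_erase _ _), smul_smul,
      Kost.sgn_erase_self, Kost.sgn_mul_self, one_smul, Finset.insert_erase h]
  · rw [if_neg h, if_neg h, map_zero]

namespace SlotData

theorem E_comm (i j k l : Fin m) : s.E i j * s.E k l - s.E k l * s.E i j =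
    (if l = i then s.E k j else 0) - (if j = k then s.E i l else 0) := by
  have h0 : s.E i j * s.E k l - s.E k l * s.E i j = ∑ p, ∑ q,
      ((if s.b i p = s.b l q then Kost.cr (s.b j p) * Kost.an (s.b k q) else 0) -
        (if s.b j p = s.b k q then Kost.cr (s.b l q) * Kost.an (s.b i p) else 0)) := by
    unfold E
    rw [Finset.sum_mul_sum, Finset.sum_mul_sum]
    rw [Finset.sum_comm (s := univ) (t := univ)
      (f := fun p q => (Kost.cr (s.b l p) * Kost.an (s.b k p)) *
        (Kost.cr (s.b j q) * Kost.an (s.b i q)))]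
    rw [← Finset.sum_sub_distrib]
    refine Finset.sum_congr rfl fun p _ => ?_
    rw [← Finset.sum_sub_distrib]
    refine Finset.sum_congr rfl fun q _ => ?_
    exact comm_cr_an _ _ _ _
  rw [h0]
  simp only [Finset.sum_sub_distrib]
  congr 1
  · by_cases hli : l = i
    · subst hli
      rw [if_pos rfl]
      unfold E
      refine Finset.sum_congr rfl fun p _ => ?_
      rw [Finset.sum_eq_single p]
      · rw [if_pos rfl]
      · intro q _ hq
        rw [if_neg]
        intro h
        exact hq (s.inj _ _ _ _ h).2.symm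
      · intro h
        exact absurd (mem_univ _) h
    · rw [if_neg hli]
      refine Finset.sum_eq_zero fun p _ => Finset.sum_eq_zero fun q _ => ?_
      rw [if_neg]
      intro h
      exact hli (s.inj _ _ _ _ h).1.symm
  · by_cases hjk : j = k
    · subst hjk
      rw [if_pos rfl]
      unfold E
      refine Finset.sum_congr rfl fun p _ => ?_
      rw [Finset.sum_eq_single p]
      · rw [if_pos rfl]
      · intro q _ hq
        rw [if_neg]
        intro h
        exact hq (s.inj _ _ _ _ h).2.symm
      · intro h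
        exact absurd (mem_univ _) h
    · rw [if_neg hjk]
      refine Finset.sum_eq_zero fun p _ => Finset.sum_eq_zero fun q _ => ?_
      rw [if_neg]
      intro h
      exact hjk (s.inj _ _ _ _ h).1

omit [Fintype B] in
theorem deg_insert (j : Fin m) (p : P) (D : Finset B) (h : s.b j p ∉ D) :
    s.deg (insert (s.b j p) D) = s.deg D + Pi.single j 1 := by
  funext k
  simp only [deg, Pi.add_apply]
  by_cases hk : k = j
  · subst hk
    rw [Pi.single_eq_same]
    have h1 : univ.filter (fun q => s.b k q ∈ insert (s.b k p) D) =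
        insert p (univ.filter (fun q => s.b k q ∈ D)) := by
      ext q
      simp only [mem_filter, mem_univ, true_and, mem_insert]
      constructor
      · rintro (h2 | h2)
        · exact Or.inl (s.inj _ _ _ _ h2).2
        · exact Or.inr h2
      · rintro (h2 | h2)
        · exact Or.inl (by rw [h2])
        · exact Or.inr h2
    rw [h1, Finset.card_insert_of_notMem (by simpa using h)]
    push_cast
    ring
  · rw [Pi.single_eq_of_ne hk, add_zero]
    congr 2
    ext q
    simp only [mem_filter, mem_univ, true_and, mem_insert]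
    constructor
    · rintro (h2 | h2)
      · exact absurd (s.inj _ _ _ _ h2).1 hk
      · exact h2
    · exact Or.inr

omit [Fintype B] in
theorem deg_erase (i : Fin m) (p : P) (D : Finset B) (h : s.b i p ∈ D) :
    s.deg (D.erase (s.b i p)) = s.deg D - Pi.single i 1 := by
  have h1 := s.deg_insert i p (D.erase (s.b i p)) (Finset.notMem_erase _ _)
  rw [Finset.insert_erase h] at h1
  rw [h1, add_sub_cancel_right]

/-- every term of `E i j` is homogeneous -/
theorem term_hom (i j : Fin m) (p : P) (D : Finset B) :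
    (Kost.cr (s.b j p) * Kost.an (s.b i p)) (Kost.ee D) = 0 ∨
      ∃ (c : ℂ) (D' : Finset B), (Kost.cr (s.b j p) * Kost.an (s.b i p)) (Kost.ee D) =
        c • Kost.ee D' ∧ s.deg D' = s.deg D + (Pi.single j 1 - Pi.single i 1) := by
  rw [Module.End.mul_apply, Kost.an_ee]
  by_cases h1 : s.b i p ∈ D
  · rw [if_pos h1, map_smul, Kost.cr_ee]
    by_cases h2 : s.b j p ∈ D.erase (s.b i p)
    · left
      rw [if_pos h2, smul_zero]
    · right
      rw [if_neg h2, smul_smul]
      refine ⟨_, _, rfl, ?_⟩
      rw [s.deg_insert j p _ h2, s.deg_erase i p D h1]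
      abel
  · left
    rw [if_neg h1, map_zero]

theorem E_hom (i j : Fin m) :
    Hom (degGr s.deg : Grading ℂ (Kost.Fock B) (Wt m)) (s.E i j) (Pi.single j 1 - Pi.single i 1) := by
  intro a
  refine Kost.end_ext fun D => ?_
  rw [Module.End.mul_apply, Module.End.mul_apply]
  have hE : s.E i j (Kost.ee D) = ∑ p, (Kost.cr (s.b j p) * Kost.an (s.b i p)) (Kost.ee D) := by
    unfold E
    rw [LinearMap.sum_apply]
  have hπ : ∀ (b : Wt m) (D' : Finset B), (degGr s.deg : Grading ℂ (Kost.Fock B) (Wt m)).π b
      (Kost.ee D') = if s.deg D' = b then Kost.ee D' else 0 := fun b D' => dia_ee _ D'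
  rw [hπ]
  by_cases hD : s.deg D = a
  · rw [if_pos hD, hE, map_sum]
    refine Finset.sum_congr rfl fun p _ => ?_
    rcases s.term_hom i j p D with h | ⟨c, D', h, hd⟩
    · rw [h, map_zero]
    · rw [h, map_smul, hπ, if_pos (by rw [hd, hD])]
  · rw [if_neg hD, map_zero, hE, map_sum]
    symm
    refine Finset.sum_eq_zero fun p _ => ?_
    rcases s.term_hom i j p D with h | ⟨c, D', h, hd⟩
    · rw [h, map_zero]
    · rw [h, map_smul, hπ, if_neg, smul_zero]
      intro h2
      rw [hd] at h2
      exact hD (add_right_cancel h2)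

theorem E_diag (i : Fin m) (μ : Wt m) :
    s.E i i * (degGr s.deg : Grading ℂ (Kost.Fock B) (Wt m)).π μ =
      ((μ i : ℤ) : ℂ) • (degGr s.deg : Grading ℂ (Kost.Fock B) (Wt m)).π μ := by
  refine Kost.end_ext fun D => ?_
  have hπ : ∀ (b : Wt m) (D' : Finset B), (degGr s.deg : Grading ℂ (Kost.Fock B) (Wt m)).π b
      (Kost.ee D') = if s.deg D' = b then Kost.ee D' else 0 := fun b D' => dia_ee _ D'
  rw [Module.End.mul_apply, LinearMap.smul_apply, hπ]
  by_cases hD : s.deg D = μ
  · rw [if_pos hD]
    unfold E
    rw [LinearMap.sum_apply]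
    have h1 : ∀ p ∈ (univ : Finset P), (Kost.cr (s.b i p) * Kost.an (s.b i p)) (Kost.ee D) =
        if s.b i p ∈ D then Kost.ee D else 0 := fun p _ => by
      rw [Module.End.mul_apply, cr_an_self]
    rw [Finset.sum_congr rfl h1, ← Finset.sum_filter, Finset.sum_const, ← hD]
    simp only [deg]
    rw [Int.cast_natCast, Nat.cast_smul_eq_nsmul]
  · rw [if_neg hD, map_zero, smul_zero]

end SlotData

/-- the Fock space as a representation -/
def fockRep : GLRep ℂ (Kost.Fock B) m where
  toGrading := degGr s.deg
  E := s.E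
  hom := s.E_hom
  diag := s.E_diag
  comm := s.E_comm
  nonneg := by
    intro μ hμ i
    simp only [degGr, Finset.mem_image, Finset.mem_univ, true_and] at hμ
    obtain ⟨D, rfl⟩ := hμ
    simp [SlotData.deg]

/-- A-side: `E i j = rowE (gA i) (gA j)` (reindex the sum over `y` by `w.symm`) -/
theorem dataA_E {n : ℕ} (w : Equiv.Perm (Fin n)) (Q S : Finset (Fin n))
    (i j : Fin (posS w S).card) : (dataA w Q S).E i j = rowE (gA w S i) (gA w S j) := by
  unfold SlotData.E rowE
  exact Equiv.sum_comp w.symm (fun y => Kost.cr (gA w S j, y) * Kost.an (gA w S i, y))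

/-- J-side: `E i j = colE (gJ i) (gJ j)` -/
theorem dataJ_E {n : ℕ} (J : Finset (Fin n)) (i j : Fin J.card) :
    (dataJ J).E i j = colE (gJ J i) (gJ J j) := rfl

end

end Gao
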