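import Pool.Agent.Gao.Defs
import Pool.Agent.Gao.Sl2S

/-!
# Gao project (MP_b139df_co): basic lemmas on `gen`, `colE`, `Fall`, gradings
-/

namespace Gao

open Finset Module

noncomputable section

/-! ### the subspace generated by a vector -/

section gen

variable {K V : Type*} [Field K] [AddCommGroup V] [Module K V] {S : Set (Module.End K V)} {v : V}

lemma mem_gen {x : V} : x ∈ gen S v ↔ ∃ a ∈ Algebra.adjoin K S, a v = x := by
  simp only [gen, Submodule.mem_map, Subalgebra.mem_toSubmodule]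
  rfl

lemma self_mem_gen (S : Set (Module.End K V)) (v : V) : v ∈ gen S v :=
  mem_gen.2 ⟨1, Subalgebra.one_mem _, rfl⟩

lemma gen_stable {T : Module.End K V} (hT : T ∈ S) {x : V} (hx : x ∈ gen S v) :
    T x ∈ gen S v := by
  obtain ⟨a, ha, rfl⟩ := mem_gen.1 hx
  exact mem_gen.2 ⟨T * a, Subalgebra.mul_mem _ (Algebra.subset_adjoin hT) ha, rfl⟩

lemma gen_le {P : Submodule K V} (hv : v ∈ P) (hP : ∀ T ∈ S, ∀ x ∈ P, T x ∈ P) :
    gen S v ≤ P := by
  intro x hx
  obtain ⟨a, ha, rfl⟩ := mem_gen.1 hx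
  clear hx
  have key : ∀ y ∈ P, a y ∈ P := by
    induction ha using Algebra.adjoin_induction with
    | mem T hT => exact hP T hT
    | algebraMap r => intro y hy; exact P.smul_mem r hy
    | add a b _ _ iha ihb => intro y hy; exact P.add_mem (iha y hy) (ihb y hy)
    | mul a b _ _ iha ihb => intro y hy; exact iha _ (ihb y hy)
  exact key v hv

/-- induction principle for `gen` -/
lemma gen_induction {p : V → Prop} (h0 : p 0) (hadd : ∀ x y, p x → p y → p (x + y))
    (hsmul : ∀ (c : K) x, p x → p (c • x)) (hv : p v)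
    (hT : ∀ T ∈ S, ∀ x, x ∈ gen S v → p x → p (T x)) : ∀ x ∈ gen S v, p x := by
  let P : Submodule K V :=
    { carrier := {x | x ∈ gen S v ∧ p x}
      add_mem' := fun ha hb => ⟨Submodule.add_mem _ ha.1 hb.1, hadd _ _ ha.2 hb.2⟩
      zero_mem' := ⟨Submodule.zero_mem _, h0⟩
      smul_mem' := fun c x hx => ⟨Submodule.smul_mem _ c hx.1, hsmul c x hx.2⟩ }
  have hle : gen S v ≤ P := by
    apply gen_le
    · exact ⟨self_mem_gen S v, hv⟩
    · intro T hTS x hx
      exact ⟨gen_stable hTS hx.1, hT T hTS x hx.1 hx.2⟩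
  intro x hx
  exact (hle hx).2

end gen

/-! ### commutators of column operators -/

section comm

variable {n : ℕ}

lemma bil_comm {K : Type*} [Fintype K] [DecidableEq K] (i j k l : K) :
    (Kost.cr i * Kost.an j) * (Kost.cr k * Kost.an l) -
      (Kost.cr k * Kost.an l) * (Kost.cr i * Kost.an j) =
      (if j = k then Kost.cr i * Kost.an l else 0) -
        (if i = l then Kost.cr k * Kost.an j else 0) := by
  have h1 : (Kost.cr i * Kost.an j) * (Kost.cr k * Kost.an l) =
      (if j = k then Kost.cr i * Kost.an l else 0) +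
        Kost.cr k * ((Kost.cr i * Kost.an j) * Kost.an l) := by
    rw [← mul_assoc, Kost.cr_an_cr, add_mul, ite_mul, zero_mul, mul_assoc]
  have h2 : (Kost.cr i * Kost.an j) * Kost.an l = Kost.an l * (Kost.cr i * Kost.an j) -
      (if i = l then Kost.an j else 0) := Kost.cr_an_an i j l
  rw [h1, h2, mul_sub, mul_ite, mul_zero]
  simp only [mul_assoc]
  abel

lemma colE_comm (j l k m : Fin n) :
    colE j l * colE k m - colE k m * colE j l =
      (if j = m then colE k l else 0) - (if l = k then colE j m else 0) := by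
  have h1 : colE j l * colE k m - colE k m * colE j l = ∑ x : Fin n, ∑ y : Fin n,
      ((if (x, j) = (y, m) then Kost.cr (x, l) * Kost.an (y, k) else 0) -
        (if (x, l) = (y, k) then Kost.cr (y, m) * Kost.an (x, j) else 0)) := by
    unfold colE
    rw [Finset.sum_mul_sum, Finset.sum_mul_sum]
    conv_lhs =>
      rhs
      rw [Finset.sum_comm]
    rw [← Finset.sum_sub_distrib]
    refine Finset.sum_congr rfl fun x _ => ?_
    rw [← Finset.sum_sub_distrib]
    refine Finset.sum_congr rfl fun y _ => ?_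
    exact bil_comm _ _ _ _
  rw [h1]
  simp only [Finset.sum_sub_distrib, Prod.mk.injEq]
  congr 1
  · by_cases h : j = m
    · simp only [h, and_true, if_true]
      unfold colE
      refine Finset.sum_congr rfl fun x _ => ?_
      rw [Finset.sum_ite_eq]
      simp
    · simp [h]
  · by_cases h : l = k
    · simp only [h, and_true, if_true]
      unfold colE
      refine Finset.sum_congr rfl fun x _ => ?_
      rw [Finset.sum_ite_eq]
      simp
    · simp [h]

lemma an_colE (x j l c : Fin n) :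
    Kost.an (x, c) * colE j l = colE j l * Kost.an (x, c) +
      (if l = c then Kost.an (x, j) else 0) := by
  unfold colE
  rw [Finset.mul_sum, Finset.sum_mul]
  have h1 : ∀ y : Fin n, Kost.an (x, c) * (Kost.cr (y, l) * Kost.an (y, j)) =
      (Kost.cr (y, l) * Kost.an (y, j)) * Kost.an (x, c) +
        (if (y, l) = (x, c) then Kost.an (y, j) else 0) := by
    intro y
    rw [Kost.cr_an_an]
    abel
  simp only [h1, Finset.sum_add_distrib, Prod.mk.injEq]
  congr 1
  by_cases h : l = c
  · simp [h]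
  · simp [h]

end comm

/-! ### gradings -/

section grad

variable {B Λ : Type*} [Fintype B] [DecidableEq B] [DecidableEq Λ]

lemma degGr_π (deg : Finset B → Λ) (a : Λ) (D : Finset B) :
    (degGr deg).π a (Kost.ee D) = if deg D = a then Kost.ee D else 0 := dia_ee _ D

lemma ee_mem_W (deg : Finset B → Λ) (D : Finset B) : Kost.ee D ∈ (degGr deg).W (deg D) := by
  rw [Grading.mem_W, degGr_π, if_pos rfl]

lemma ee_mem_W' {deg : Finset B → Λ} {D : Finset B} {a : Λ} (h : deg D = a) :
    Kost.ee D ∈ (degGr deg).W a := h ▸ ee_mem_W deg D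

lemma hom_of_ee [AddCommGroup Λ] {deg : Finset B → Λ} {T : Module.End ℂ (Kost.Fock B)} {β : Λ}
    (h : ∀ D, T (Kost.ee D) ∈ (degGr deg).W (deg D + β)) : Hom (degGr deg) T β := by
  intro a
  refine Kost.end_ext fun D => ?_
  rw [Module.End.mul_apply, Module.End.mul_apply, degGr_π]
  by_cases hD : deg D = a
  · rw [if_pos hD, ← hD, Grading.π_of_mem _ (h D)]
  · rw [if_neg hD, map_zero, Grading.π_of_mem_ne _ (h D)]
    intro h'
    exact hD (add_right_cancel h').symm

variable {n : ℕ}

lemma colCnt_erase {D : Finset (Fin n × Fin n)} {b : Fin n × Fin n} (hb : b ∈ D) :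
    colCnt (D.erase b) = colCnt D + -Pi.single b.2 1 := by
  funext j
  simp only [colCnt, Pi.add_apply, Pi.neg_apply]
  rw [Finset.filter_erase]
  by_cases h : b.2 = j
  · subst h
    have hm : b ∈ D.filter (fun b' => b'.2 = b.2) := Finset.mem_filter.2 ⟨hb, rfl⟩
    have : 0 < (D.filter (fun b' => b'.2 = b.2)).card := Finset.card_pos.2 ⟨b, hm⟩
    rw [Finset.card_erase_of_mem hm, Pi.single_eq_same]
    omega
  · have hm : b ∉ D.filter (fun b' => b'.2 = j) := fun h' => h (Finset.mem_filter.1 h').2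
    rw [Finset.erase_eq_of_notMem hm, Pi.single_eq_of_ne (fun h' => h h'.symm)]
    simp

lemma colCnt_insert {D : Finset (Fin n × Fin n)} {b : Fin n × Fin n} (hb : b ∉ D) :
    colCnt (insert b D) = colCnt D + Pi.single b.2 1 := by
  have h := colCnt_erase (Finset.mem_insert_self b D)
  rw [Finset.erase_insert hb] at h
  rw [h]; abel

lemma rowCnt_erase {D : Finset (Fin n × Fin n)} {b : Fin n × Fin n} (hb : b ∈ D) :
    rowCnt (D.erase b) = rowCnt D + -Pi.single b.1 1 := by
  funext j
  simp only [rowCnt, Pi.add_apply, Pi.neg_apply]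
  rw [Finset.filter_erase]
  by_cases h : b.1 = j
  · subst h
    have hm : b ∈ D.filter (fun b' => b'.1 = b.1) := Finset.mem_filter.2 ⟨hb, rfl⟩
    have : 0 < (D.filter (fun b' => b'.1 = b.1)).card := Finset.card_pos.2 ⟨b, hm⟩
    rw [Finset.card_erase_of_mem hm, Pi.single_eq_same]
    omega
  · have hm : b ∉ D.filter (fun b' => b'.1 = j) := fun h' => h (Finset.mem_filter.1 h').2
    rw [Finset.erase_eq_of_notMem hm, Pi.single_eq_of_ne (fun h' => h h'.symm)]
    simp

lemma rowCnt_insert {D : Finset (Fin n × Fin n)} {b : Fin n × Fin n} (hb : b ∉ D) :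
    rowCnt (insert b D) = rowCnt D + Pi.single b.1 1 := by
  have h := rowCnt_erase (Finset.mem_insert_self b D)
  rw [Finset.erase_insert hb] at h
  rw [h]; abel

lemma hom_an_col (b : Fin n × Fin n) : Hom (colGr n) (Kost.an b) (-Pi.single b.2 1) := by
  apply hom_of_ee
  intro D
  rw [Kost.an_ee]
  split_ifs with h
  · exact Submodule.smul_mem _ _ (ee_mem_W' (colCnt_erase h))
  · exact Submodule.zero_mem _

lemma hom_cr_col (b : Fin n × Fin n) : Hom (colGr n) (Kost.cr b) (Pi.single b.2 1) := by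
  apply hom_of_ee
  intro D
  rw [Kost.cr_ee]
  split_ifs with h
  · exact Submodule.zero_mem _
  · exact Submodule.smul_mem _ _ (ee_mem_W' (colCnt_insert h))

lemma hom_an_row (b : Fin n × Fin n) : Hom (rowGr n) (Kost.an b) (-Pi.single b.1 1) := by
  apply hom_of_ee
  intro D
  rw [Kost.an_ee]
  split_ifs with h
  · exact Submodule.smul_mem _ _ (ee_mem_W' (rowCnt_erase h))
  · exact Submodule.zero_mem _

lemma hom_cr_row (b : Fin n × Fin n) : Hom (rowGr n) (Kost.cr b) (Pi.single b.1 1) := by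
  apply hom_of_ee
  intro D
  rw [Kost.cr_ee]
  split_ifs with h
  · exact Submodule.zero_mem _
  · exact Submodule.smul_mem _ _ (ee_mem_W' (rowCnt_insert h))

lemma Hom.mul' {K X Λ' : Type*} [Field K] [AddCommGroup X] [Module K X] [AddCommGroup Λ']
    [DecidableEq Λ'] {G : Grading K X Λ'} {S T : Module.End K X} {α β : Λ'} (hS : Hom G S α)
    (hT : Hom G T β) : Hom G (S * T) (β + α) := by
  intro a
  rw [mul_assoc, hT a, ← mul_assoc, hS, mul_assoc, add_assoc]

lemma Hom.sum' {K X Λ' ι : Type*} [Field K] [AddCommGroup X] [Module K X] [AddCommGroup Λ']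
    [DecidableEq Λ'] {G : Grading K X Λ'} {s : Finset ι} {T : ι → Module.End K X} {β : Λ'}
    (h : ∀ i ∈ s, Hom G (T i) β) : Hom G (∑ i ∈ s, T i) β := by
  intro a
  rw [Finset.sum_mul, Finset.mul_sum]
  exact Finset.sum_congr rfl fun i hi => h i hi a

/-- `colE j l` has column degree `ε_l - ε_j` -/
lemma hom_colE_col (j l : Fin n) :
    Hom (colGr n) (colE j l) (Pi.single l 1 - Pi.single j 1) := by
  unfold colE
  apply Hom.sum'
  intro x _
  have h := (hom_cr_col (x, l)).mul' (hom_an_col (x, j))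
  have e : (-Pi.single (x, j).2 1 + Pi.single (x, l).2 1 : Fin n → ℤ) =
      Pi.single l 1 - Pi.single j 1 := by
    simp only []
    abel
  rw [e] at h
  exact h

/-- `colE j l` preserves the row contents -/
lemma hom_colE_row (j l : Fin n) : Hom (rowGr n) (colE j l) 0 := by
  unfold colE
  apply Hom.sum'
  intro x _
  have h := (hom_cr_row (x, l)).mul' (hom_an_row (x, j))
  have e : (-Pi.single (x, j).1 1 + Pi.single (x, l).1 1 : Fin n → ℤ) = 0 := by
    simp only []
    abel
  rw [e] at h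
  exact h

/-- the diagonal column operator counts the boxes of the column -/
lemma colE_self_ee (j : Fin n) (D : Finset (Fin n × Fin n)) :
    colE j j (Kost.ee D) = ((colCnt D j : ℤ) : ℂ) • Kost.ee D := by
  unfold colE
  rw [LinearMap.sum_apply]
  have h1 : ∀ x : Fin n, (Kost.cr (x, j) * Kost.an (x, j)) (Kost.ee D) =
      (if (x, j) ∈ D then (1 : ℂ) else 0) • Kost.ee D := by
    intro x
    rw [Module.End.mul_apply, Kost.an_ee]
    by_cases h : (x, j) ∈ D
    · rw [if_pos h, if_pos h, map_smul, Kost.cr_ee, if_neg (Finset.notMem_erase _ _),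
        Kost.sgn_erase_self, smul_smul, Kost.sgn_mul_self, Finset.insert_erase h]
    · rw [if_neg h, if_neg h, map_zero, zero_smul]
  simp only [h1]
  rw [← Finset.sum_smul]
  congr 1
  rw [Finset.sum_ite, Finset.sum_const_zero, add_zero, Finset.sum_const, nsmul_eq_mul, mul_one,
    colCnt]
  rw [Int.cast_natCast]
  congr 1
  clear h1
  apply Finset.card_bij' (fun x _ => (x, j)) (fun b _ => b.1)
  · intro x hx
    simpa using hx
  · rintro ⟨x, j'⟩ hb
    simp only [Finset.mem_filter] at hb
    obtain ⟨h1, rfl⟩ := hb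
    simpa using h1
  · intro x _; rfl
  · rintro ⟨x, j'⟩ hb
    simp only [Finset.mem_filter] at hb
    obtain ⟨_, rfl⟩ := hb
    rfl

lemma colE_self_π (j : Fin n) (a : Fin n → ℤ) :
    colE j j * (colGr n).π a = ((a j : ℤ) : ℂ) • (colGr n).π a := by
  refine Kost.end_ext fun D => ?_
  rw [Module.End.mul_apply, LinearMap.smul_apply]
  have h1 : (colGr n).π a (Kost.ee D) = if colCnt D = a then Kost.ee D else 0 := dia_ee _ D
  rw [h1]
  by_cases h : colCnt D = a
  · rw [if_pos h, colE_self_ee, h]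
  · rw [if_neg h, map_zero, smul_zero]

/-- the height with respect to the pair of columns `(c, c')` -/
def htJ (c c' : Fin n) : (Fin n → ℤ) →+ ℤ :=
  Pi.evalAddMonoidHom (fun _ : Fin n => ℤ) c' - Pi.evalAddMonoidHom (fun _ : Fin n => ℤ) c

@[simp] lemma htJ_apply (c c' : Fin n) (a : Fin n → ℤ) : htJ c c' a = a c' - a c := rfl

lemma htJ_alpha {c c' : Fin n} (h : c ≠ c') :
    htJ c c' (Pi.single c' 1 - Pi.single c 1) = 2 := by
  simp [h, h.symm]

/-- `[e, f] = ht` for `e = colE c c'`, `f = colE c' c` -/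
lemma colE_ef {c c' : Fin n} (_h : c ≠ c') (a : Fin n → ℤ) :
    (colE c c' * colE c' c - colE c' c * colE c c') * (colGr n).π a =
      ((htJ c c' a : ℤ) : ℂ) • (colGr n).π a := by
  rw [colE_comm, if_pos rfl, if_pos rfl, sub_mul, colE_self_π, colE_self_π, ← sub_smul]
  congr 1
  push_cast [htJ_apply]
  ring

/-- the whole space is centered at `0` for `colE c c'` -/
lemma fk_centered {c c' : Fin n} (h : c ≠ c') :
    Centered (colGr n) (colE c c') (Pi.single c' 1 - Pi.single c 1) (htJ c c') 0 := by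
  refine ⟨colE c' c, ?_, ?_⟩
  · rw [neg_sub]
    exact hom_colE_col c' c
  · intro a
    rw [colE_ef h, sub_zero]

end grad

/-! ### coordinate subspaces -/

section fall

variable {n : ℕ}

lemma ee_mem_Fall {E D : Finset (Fin n × Fin n)} (h : D ⊆ E) : Kost.ee D ∈ Fall E :=
  Submodule.subset_span ⟨D, h, rfl⟩

lemma Fall_mono {E E' : Finset (Fin n × Fin n)} (h : E ⊆ E') : Fall E ≤ Fall E' := by
  apply Submodule.span_mono
  rintro _ ⟨D, hD, rfl⟩
  exact ⟨D, hD.trans h, rfl⟩

lemma map_mem_of_Fall {E : Finset (Fin n × Fin n)} {P : Submodule ℂ (Fk n)}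
    {T : Module.End ℂ (Fk n)} (h : ∀ D ⊆ E, T (Kost.ee D) ∈ P) {x : Fk n} (hx : x ∈ Fall E) :
    T x ∈ P := by
  have hle : Fall E ≤ P.comap T := by
    rw [Fall, Submodule.span_le]
    rintro _ ⟨D, hD, rfl⟩
    exact h D hD
  exact hle hx

/-- `an b` kills `Fall E` if `b ∉ E` -/
lemma an_eq_zero_of_Fall {E : Finset (Fin n × Fin n)} {b : Fin n × Fin n} (hb : b ∉ E) {x : Fk n}
    (hx : x ∈ Fall E) : Kost.an b x = 0 := by
  have h := map_mem_of_Fall (P := ⊥) (T := Kost.an b) (fun D hD => by
    rw [Kost.an_ee, if_neg (fun h => hb (hD h))]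
    exact Submodule.zero_mem _) hx
  simpa using h

/-- `an b` maps `Fall E` to `Fall (E.erase b)` -/
lemma an_mem_Fall {E : Finset (Fin n × Fin n)} {b : Fin n × Fin n} {x : Fk n}
    (hx : x ∈ Fall E) : Kost.an b x ∈ Fall (E.erase b) := by
  apply map_mem_of_Fall _ hx
  intro D hD
  rw [Kost.an_ee]
  split_ifs
  · exact Submodule.smul_mem _ _ (ee_mem_Fall (Finset.erase_subset_erase _ hD))
  · exact Submodule.zero_mem _

/-- `colE j l` preserves `Fall E` if every row of `E` containing the column `j` contains `l` -/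
lemma colE_mem_Fall {E : Finset (Fin n × Fin n)} {j l : Fin n}
    (h : ∀ x, (x, j) ∈ E → (x, l) ∈ E) {v : Fk n} (hv : v ∈ Fall E) : colE j l v ∈ Fall E := by
  apply map_mem_of_Fall _ hv
  intro D hD
  unfold colE
  rw [LinearMap.sum_apply]
  apply Submodule.sum_mem
  intro x _
  rw [Module.End.mul_apply, Kost.an_ee]
  split_ifs with h1
  · rw [map_smul, Kost.cr_ee]
    apply Submodule.smul_mem
    split_ifs with h2
    · exact Submodule.zero_mem _
    · apply Submodule.smul_mem
      apply ee_mem_Fall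
      intro b hb
      rw [Finset.mem_insert] at hb
      rcases hb with rfl | hb
      · exact h x (hD h1)
      · exact hD (Finset.mem_of_mem_erase hb)
  · rw [map_zero]; exact Submodule.zero_mem _

lemma mem_Dset {w : Equiv.Perm (Fin n)} {A J : Finset (Fin n)} {b : Fin n × Fin n} :
    b ∈ Dset w A J ↔ b.1 ∈ A ∧ b.2 ∈ J ∧ w.symm b.1 < b.2 ∧ w b.2 < b.1 := by
  simp [Dset]

lemma mem_Fset {w : Equiv.Perm (Fin n)} {A J : Finset (Fin n)} {b : Fin n × Fin n} :
    b ∈ Fset w A J ↔ b.1 ∈ A ∧ b.2 ∈ J ∧ w.symm b.1 < b.2 := by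
  simp [Fset]

lemma Dset_subset_Fset (w : Equiv.Perm (Fin n)) (A J : Finset (Fin n)) :
    Dset w A J ⊆ Fset w A J := by
  intro b hb
  rw [mem_Dset] at hb
  rw [mem_Fset]
  exact ⟨hb.1, hb.2.1, hb.2.2.1⟩

/-- a module generated inside `Fall E` by column operators stays there -/
lemma gen_col_le_Fall {J : Finset (Fin n)} {E D : Finset (Fin n × Fin n)} (hD : D ⊆ E)
    (h : ∀ x, ∀ j ∈ J, ∀ l ∈ J, j < l → (x, j) ∈ E → (x, l) ∈ E) :
    gen (colOps J) (Kost.ee D) ≤ Fall E := by
  apply gen_le (ee_mem_Fall hD)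
  rintro T ⟨j, hj, l, hl, hjl, rfl⟩ x hx
  exact colE_mem_Fall (fun y hy => h y j hj l hl hjl hy) hx

lemma Nmod_le_Fall (w : Equiv.Perm (Fin n)) (A J : Finset (Fin n)) :
    Nmod w A J ≤ Fall (Fset w A J) := by
  apply gen_col_le_Fall (Dset_subset_Fset w A J)
  intro x j hj l hl hjl h
  rw [mem_Fset] at h ⊢
  exact ⟨h.1, hl, h.2.2.trans hjl⟩

/-- modules generated by a homogeneous vector and homogeneous operators are graded -/
lemma gen_graded {K V Λ : Type*} [Field K] [AddCommGroup V] [Module K V] [AddCommGroup Λ]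
    [DecidableEq Λ] {G : Grading K V Λ} {S : Set (Module.End K V)} {v : V} {a : Λ}
    (hv : v ∈ G.W a) (hS : ∀ T ∈ S, ∃ β, Hom G T β) : G.Stable (gen S v) := by
  intro b x hx
  revert b
  apply gen_induction (p := fun x => ∀ b, G.π b x ∈ gen S v) _ _ _ _ _ x hx
  · intro b; rw [map_zero]; exact Submodule.zero_mem _
  · intro x y hx hy b; rw [map_add]; exact Submodule.add_mem _ (hx b) (hy b)
  · intro c x hx b; rw [map_smul]; exact Submodule.smul_mem _ _ (hx b)
  · intro b
    by_cases hb : b = a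
    · rw [hb, G.π_of_mem hv]; exact self_mem_gen S v
    · rw [G.π_of_mem_ne hv hb]; exact Submodule.zero_mem _
  · intro T hT x _ hx b
    obtain ⟨β, hβ⟩ := hS T hT
    have h := congrArg (fun g : Module.End K V => g x) (hβ (b - β))
    simp only [Module.End.mul_apply, sub_add_cancel] at h
    rw [← h]
    exact gen_stable hT (hx _)

lemma gen_col_stable_col (J : Finset (Fin n)) (D : Finset (Fin n × Fin n)) :
    (colGr n).Stable (gen (colOps J) (Kost.ee D)) :=
  gen_graded (ee_mem_W colCnt D) (by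
    rintro T ⟨j, _, l, _, _, rfl⟩
    exact ⟨_, hom_colE_col j l⟩)

lemma gen_col_stable_row (J : Finset (Fin n)) (D : Finset (Fin n × Fin n)) :
    (rowGr n).Stable (gen (colOps J) (Kost.ee D)) :=
  gen_graded (ee_mem_W rowCnt D) (by
    rintro T ⟨j, _, l, _, _, rfl⟩
    exact ⟨_, hom_colE_row j l⟩)

lemma gen_col_colE_self (J : Finset (Fin n)) (D : Finset (Fin n × Fin n)) (j : Fin n) {x : Fk n}
    (hx : x ∈ gen (colOps J) (Kost.ee D)) : colE j j x ∈ gen (colOps J) (Kost.ee D) := by
  rw [← (colGr n).sum_apply x, map_sum]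
  apply Submodule.sum_mem
  intro a _
  have h := congrArg (fun g : Module.End ℂ (Fk n) => g x) (colE_self_π j a)
  simp only [Module.End.mul_apply, LinearMap.smul_apply] at h
  rw [h]
  exact Submodule.smul_mem _ _ (gen_col_stable_col J D a x hx)

end fall

end

end Gao
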