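import Mathlib
import Pool.Agent.Gao.FockRep
import Pool.Agent.Gao.GenLem

set_option linter.unusedSectionVars false

/-!
# Gao project: the twists of the Fock space (MODULE FockTw, about 350 lines; may be split)

`ins p l = cr x₁ ⋯ cr x_k`, `[x₁..x_k] = boxes p l = (b i p, i ∈ l increasing) ++ inr p` (distinct boxes of `Sl p`);
`ext p l = dia (no box of Sl p) * (an x_k ⋯ an x₁)`; `V' p = {y : dia (no box of Sl p) y = y}`.

FACTS (all by the CAR relations or on the basis `ee D`):
(1) `V' p` = span of the `ee D` with `D` disjoint from `Sl p`; for `z ∈ V' p` and `x ∈ Sl p`: `an x z = 0`.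
(2) `dia (no Sl p)` commutes with `cr y, an y` for `y ∉ Sl p`.
(3) `an x_k ⋯ an x₁ cr x₁ ⋯ cr x_k z = z` for `z ∈ V' p` (distinct boxes), so `ext p l (ins p l z) = z`.
    For `l ≠ l'` the lists `boxes p l`, `boxes p l'` have different sets of boxes: on basis vectors `ins p l' (ee D) = ± ee (D ∪ boxes p l')`
    (`D` disjoint from `Sl p`), `anL` of a list removes its boxes or gives 0, the rest is disjoint from `Sl p` iff the sets are equal.
(4) weights: `deg (D ∪ boxes p l) = deg D + wtS l` for `D` disjoint from `Sl p` (inert boxes are not of the form `b i q`: those with `q ≠ p` lie in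
    `Sl q`, disjoint from `Sl p`; those with `q = p` are excluded by `b_inr`).  This gives `pr_ins`; `pr_ext` the same way
    (`ext p l (ee D) = ± ee (D \ boxes)` if `D ∩ Sl p = boxes p l` as sets, else 0).
(5) `ρ.e c = Σ_q cr (b lo q) an (b hi q)`; only `q = p` does not commute with `crL (boxes p l)` (boxes of different slots are different, the
    bilinear operator commutes with every `cr y`, `y ∉ {b lo q, b hi q}`).  For `q = p`: `cr (b lo p) an (b hi p) crL(L) z`: if `b hi p ∉ L` it is
    `crL(L) cr (b lo p) an (b hi p) z`= 0 part (`an (b hi p) z = 0`), if `b hi p ∈ L` and `b lo p ∈ L`: it is 0 (two equal creators); if `b hi p ∈ L`, `b lo p ∉ L`: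
    `[cr a an b, cr b] = cr a` replaces `cr (b hi p)` by `cr (b lo p)` IN PLACE, and since `lo, hi` are adjacent indices and only one of them
    is in `l`, the list `boxes p (swS c l)` is `boxes p l` with `b hi p` replaced by `b lo p` at the same place.  So
    `e_ins` holds without sign; `f_ins` in the same way.
(6) `ext_e`, `ext_f` on `ee D`; or by duality from (5): write `y = Σ_l ins l (ext l y) + y'` ... The cleanest way: both sides are linear in `y`; take `y = ee D`,
    `D = D₀ ∪ C`, `C = D ∩ Sl p`, `ee D = ± crL(C) ee D₀`.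
    `ρ.e c` = (slot p part) + (other slots); the other slots commute with `anL`, `dia`; the slot p part changes only `C`; the content `C` becomes
    `boxes p l` after moving `b hi p → b lo p` iff `C = boxes p (swS c l)`, `lo ∈ l, hi ∉ l` (inert boxes are not touched), or...
    compare with `ext (swS c l) y`.  The operator identity `anL(L) cr a an b = cr a an b anL(L) + anL(L')` with `L' = L` with `a` replaced by `b` in place if
    `a ∈ L` (`[an a, cr a an b] = an b`), for `b ∉ L`; if also `b ∈ L` the extra term is 0 (an b twice).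
(7) different slots: `boxes p l` and `boxes q l'` are disjoint lists of lengths `|l| + |inr p|` and `|l'| + |inr q|`: `anL(L') crL(L) = ε crL(L) anL(L')`,
    `crL(L') crL(L) = ε crL(L) crL(L')` with `ε = (-1)^{(|l| + |inr p|)(|l'| + |inr q|)}`, which depends on `l'` only through its size.
-/

namespace Gao

open Finset Module

noncomputable section

variable {B P : Type} [Fintype B] [DecidableEq B] [Fintype P] [DecidableEq P] {m : ℕ}
  (s : SlotData B P m)

/-! ### products of creation and annihilation operators -/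

section lists

@[simp] lemma crL_nil : crL ([] : List B) = 1 := rfl

lemma crL_cons (x : B) (L : List B) : crL (x :: L) = Kost.cr x * crL L := by
  simp [crL]

@[simp] lemma anL_nil : anL ([] : List B) = 1 := rfl

lemma anL_cons (x : B) (L : List B) : anL (x :: L) = anL L * Kost.an x := by
  simp [anL]

lemma cr_swap (x y : B) : Kost.cr x * Kost.cr y = -(Kost.cr y * Kost.cr x) :=
  eq_neg_of_add_eq_zero_left (Kost.cr_cr x y)

lemma an_swap (x y : B) : Kost.an x * Kost.an y = -(Kost.an y * Kost.an x) :=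
  eq_neg_of_add_eq_zero_left (Kost.an_an x y)

lemma an_cr_swap {x y : B} (h : x ≠ y) : Kost.an x * Kost.cr y = -(Kost.cr y * Kost.an x) := by
  have h1 := Kost.an_cr x y
  rw [if_neg h] at h1
  exact eq_neg_of_add_eq_zero_left h1

lemma cr_sq (x : B) : Kost.cr x * Kost.cr x = 0 := by
  have h := Kost.cr_cr x x
  rw [← two_smul ℂ] at h
  exact (smul_eq_zero.1 h).resolve_left two_ne_zero

lemma an_sq (x : B) : Kost.an x * Kost.an x = 0 := by
  have h := Kost.an_an x x
  rw [← two_smul ℂ] at h
  exact (smul_eq_zero.1 h).resolve_left two_ne_zero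

/-- `cr x` kills `crL L` if `x ∈ L` -/
lemma cr_crL_of_mem {x : B} {L : List B} (h : x ∈ L) : Kost.cr x * crL L = 0 := by
  induction L with
  | nil => simp at h
  | cons a L ih =>
    rw [crL_cons, ← mul_assoc]
    rcases List.mem_cons.1 h with rfl | h
    · rw [cr_sq, zero_mul]
    · rw [cr_swap, neg_mul, mul_assoc, ih h, mul_zero, neg_zero]

lemma anL_an_of_mem {x : B} {L : List B} (h : x ∈ L) : anL L * Kost.an x = 0 := by
  induction L with
  | nil => simp at h
  | cons a L ih =>
    rw [anL_cons, mul_assoc]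
    rcases List.mem_cons.1 h with rfl | h
    · rw [an_sq, mul_zero]
    · rw [an_swap, mul_neg, ← mul_assoc, ih h, zero_mul, neg_zero]

lemma crL_of_not_nodup {L : List B} (h : ¬ L.Nodup) : crL L = 0 := by
  induction L with
  | nil => simp at h
  | cons a L ih =>
    rw [crL_cons]
    rw [List.nodup_cons, not_and_or, not_not] at h
    rcases h with h | h
    · exact cr_crL_of_mem h
    · rw [ih h, mul_zero]

lemma anL_of_not_nodup {L : List B} (h : ¬ L.Nodup) : anL L = 0 := by
  induction L with
  | nil => simp at h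
  | cons a L ih =>
    rw [anL_cons]
    rw [List.nodup_cons, not_and_or, not_not] at h
    rcases h with h | h
    · exact anL_an_of_mem h
    · rw [ih h, zero_mul]

/-- replace `y` by `x` -/
def repl (y x : B) (L : List B) : List B := L.map (fun z => if z = y then x else z)

omit [Fintype B] in
lemma repl_of_notMem {y x : B} {L : List B} (h : y ∉ L) : repl y x L = L := by
  unfold repl
  conv_rhs => rw [← List.map_id L]
  apply List.map_congr_left
  intro z hz
  rw [if_neg (fun h' : z = y => h (h' ▸ hz))]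
  rfl

omit [Fintype B] in
lemma repl_cons (y x a : B) (L : List B) :
    repl y x (a :: L) = (if a = y then x else a) :: repl y x L := rfl

/-- the bilinear operators act on products of creators by derivations -/
lemma bil_crL {x y : B} {L : List B} (h : L.Nodup) :
    Kost.cr x * Kost.an y * crL L = (if y ∈ L then crL (repl y x L) else 0) +
      crL L * (Kost.cr x * Kost.an y) := by
  induction L with
  | nil => simp
  | cons a L ih =>
    rw [List.nodup_cons] at h
    rw [crL_cons, ← mul_assoc, Kost.cr_an_cr, add_mul, mul_assoc (Kost.cr a), ih h.2, mul_add,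
      ← mul_assoc (Kost.cr a) (crL L), repl_cons, crL_cons, ← add_assoc]
    congr 1
    by_cases hy : y = a
    · subst hy
      simp [h.1, repl_of_notMem h.1]
    · have hy' : ¬ a = y := fun h' => hy h'.symm
      simp only [hy', if_false, zero_mul, zero_add, List.mem_cons, hy, false_or, mul_ite,
        mul_zero]

lemma anL_bil {x y : B} {L : List B} (h : L.Nodup) :
    anL L * (Kost.cr x * Kost.an y) = (if x ∈ L then anL (repl x y L) else 0) +
      (Kost.cr x * Kost.an y) * anL L := by
  induction L with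
  | nil => simp
  | cons a L ih =>
    rw [List.nodup_cons] at h
    have h1 := Kost.cr_an_an x y a
    have h2 : Kost.an a * (Kost.cr x * Kost.an y) = Kost.cr x * Kost.an y * Kost.an a +
        (if x = a then Kost.an y else 0) := by rw [h1]; abel
    rw [anL_cons, mul_assoc, h2, mul_add, ← mul_assoc (anL L), ih h.2, add_mul, repl_cons,
      anL_cons, mul_assoc (Kost.cr x * Kost.an y) (anL L) (Kost.an a)]
    by_cases hx : x = a
    · subst hx
      simp [h.1, repl_of_notMem h.1]
      abel
    · have hx' : ¬ a = x := fun h' => hx h'.symm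
      simp only [hx', if_false, List.mem_cons, hx, false_or, mul_zero, add_zero, ite_mul,
        zero_mul]

/-- an annihilator passes through creators of other boxes -/
lemma an_crL_zero {x : B} {L : List B} (h : x ∉ L) {z : Kost.Fock B} (hz : Kost.an x z = 0) :
    Kost.an x (crL L z) = 0 := by
  induction L with
  | nil => simpa using hz
  | cons a L ih =>
    rw [List.mem_cons, not_or] at h
    rw [crL_cons, Module.End.mul_apply, ← Module.End.mul_apply (Kost.an x), an_cr_swap h.1,
      LinearMap.neg_apply, Module.End.mul_apply, ih h.2, map_zero, neg_zero]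

/-- `anL L (crL L z) = z` -/
lemma anL_crL {L : List B} (hL : L.Nodup) {z : Kost.Fock B} (hz : ∀ x ∈ L, Kost.an x z = 0) :
    anL L (crL L z) = z := by
  induction L with
  | nil => simp
  | cons a L ih =>
    rw [List.nodup_cons] at hL
    rw [crL_cons, anL_cons, Module.End.mul_apply, Module.End.mul_apply]
    have h1 := congrArg (fun g : Module.End ℂ (Kost.Fock B) => g (crL L z)) (Kost.an_cr a a)
    simp only [LinearMap.add_apply, Module.End.mul_apply, if_true, Module.End.one_apply] at h1
    rw [an_crL_zero hL.1 (hz a (by simp)), map_zero, add_zero] at h1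
    rw [h1]
    exact ih hL.2 (fun x hx => hz x (by simp [hx]))

lemma anL_zero_of_mem {x : B} {L : List B} (h : x ∈ L) {y : Kost.Fock B} (hy : Kost.an x y = 0) :
    anL L y = 0 := by
  induction L generalizing y with
  | nil => simp at h
  | cons a L ih =>
    rw [anL_cons, Module.End.mul_apply]
    rcases List.mem_cons.1 h with rfl | h
    · rw [hy, map_zero]
    · apply ih h
      rw [← Module.End.mul_apply (Kost.an x), an_swap, LinearMap.neg_apply, Module.End.mul_apply,
        hy, map_zero, neg_zero]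

/-- a creator can be brought to the front -/
lemma crL_front {x : B} {L : List B} (h : x ∈ L) : ∃ T, crL L = Kost.cr x * T := by
  induction L with
  | nil => simp at h
  | cons a L ih =>
    rcases List.mem_cons.1 h with rfl | h
    · exact ⟨crL L, crL_cons _ _⟩
    · obtain ⟨T, hT⟩ := ih h
      refine ⟨-(Kost.cr a * T), ?_⟩
      rw [crL_cons, hT, ← mul_assoc, cr_swap, mul_neg, neg_mul, mul_assoc]

lemma anL_cr_front {x : B} {L : List B} (h : x ∉ L) (T : Module.End ℂ (Kost.Fock B)) :
    ∃ T', anL L * (Kost.cr x * T) = Kost.cr x * T' := by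
  induction L generalizing T with
  | nil => exact ⟨T, by simp⟩
  | cons a L ih =>
    rw [List.mem_cons, not_or] at h
    obtain ⟨T', hT'⟩ := ih h.2 (-(Kost.an a * T))
    refine ⟨T', ?_⟩
    rw [← hT', anL_cons, mul_assoc, ← mul_assoc (Kost.an a), an_cr_swap (fun h' => h.1 h'.symm)]
    simp only [neg_mul, mul_neg, mul_assoc]

/-- creators of disjoint lists commute up to a sign -/
lemma cr_crL (x : B) (L : List B) : Kost.cr x * crL L = (-1 : ℂ) ^ L.length • (crL L * Kost.cr x) := by
  induction L with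
  | nil => simp
  | cons a L ih =>
    rw [crL_cons, ← mul_assoc, cr_swap, neg_mul, mul_assoc, ih, List.length_cons, pow_succ,
      mul_smul_comm, mul_assoc, mul_neg, mul_one, neg_smul]

lemma crL_crL (L L' : List B) :
    crL L' * crL L = (-1 : ℂ) ^ (L.length * L'.length) • (crL L * crL L') := by
  induction L' with
  | nil => simp
  | cons a L' ih =>
    rw [crL_cons, mul_assoc, ih, mul_smul_comm, ← mul_assoc, cr_crL, smul_mul_assoc, smul_smul,
      List.length_cons, mul_assoc, ← pow_add]
    congr 2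

lemma an_crL' {x : B} {L : List B} (h : x ∉ L) :
    Kost.an x * crL L = (-1 : ℂ) ^ L.length • (crL L * Kost.an x) := by
  induction L with
  | nil => simp
  | cons a L ih =>
    rw [List.mem_cons, not_or] at h
    rw [crL_cons, ← mul_assoc, an_cr_swap h.1, neg_mul, mul_assoc, ih h.2, List.length_cons,
      pow_succ, mul_smul_comm, mul_assoc, mul_neg, mul_one, neg_smul]

lemma anL_crL' {L L' : List B} (h : ∀ x ∈ L', x ∉ L) :
    anL L' * crL L = (-1 : ℂ) ^ (L.length * L'.length) • (crL L * anL L') := by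
  induction L' with
  | nil => simp
  | cons a L' ih =>
    rw [anL_cons, mul_assoc, an_crL' (h a (by simp)), mul_smul_comm, ← mul_assoc,
      ih (fun x hx => h x (by simp [hx])), smul_mul_assoc, smul_smul, List.length_cons, mul_assoc,
      ← pow_add]
    congr 2
    ring

end lists

/-! ### the projection to the vectors without boxes of a slot -/

lemma dia_comm (p q : Finset B → Prop) [DecidablePred p] [DecidablePred q] :
    dia p * dia q = dia q * dia p := by
  refine Kost.end_ext fun D => ?_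
  rw [Module.End.mul_apply, Module.End.mul_apply, dia_ee, dia_ee]
  by_cases h1 : p D <;> by_cases h2 : q D <;> simp [h1, h2, dia_ee]

namespace SlotData

/-- the projection to the vectors without boxes of the slot `p` -/
def dz (p : P) : Module.End ℂ (Kost.Fock B) := dia (fun D => Disjoint D (s.Sl p))

lemma dz_ee (p : P) (D : Finset B) :
    s.dz p (Kost.ee D) = if Disjoint D (s.Sl p) then Kost.ee D else 0 := dia_ee _ D

lemma dz_mul_self (p : P) : s.dz p * s.dz p = s.dz p := by
  refine Kost.end_ext fun D => ?_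
  rw [Module.End.mul_apply, dz_ee]
  split_ifs with h
  · rw [dz_ee, if_pos h]
  · rw [map_zero]

lemma mem_V' {p : P} {z : Kost.Fock B} : z ∈ s.V' p ↔ s.dz p z = z := by
  constructor
  · rintro ⟨y, rfl⟩
    change s.dz p (s.dz p y) = s.dz p y
    rw [← Module.End.mul_apply, dz_mul_self]
  · intro h
    exact ⟨z, h⟩

lemma dz_mem (p : P) (z : Kost.Fock B) : s.dz p z ∈ s.V' p := ⟨z, rfl⟩

lemma dz_cr_of_mem {p : P} {x : B} (h : x ∈ s.Sl p) : s.dz p * Kost.cr x = 0 := by
  refine Kost.end_ext fun D => ?_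
  rw [Module.End.mul_apply, Kost.cr_ee, LinearMap.zero_apply]
  split_ifs with h1
  · rw [map_zero]
  · rw [map_smul, dz_ee, if_neg, smul_zero]
    intro h2
    exact Finset.disjoint_left.1 h2 (Finset.mem_insert_self _ _) h

lemma an_dz_of_mem {p : P} {x : B} (h : x ∈ s.Sl p) : Kost.an x * s.dz p = 0 := by
  refine Kost.end_ext fun D => ?_
  rw [Module.End.mul_apply, dz_ee, LinearMap.zero_apply]
  split_ifs with h1
  · rw [Kost.an_ee, if_neg]
    intro h2
    exact Finset.disjoint_left.1 h1 h2 h
  · rw [map_zero]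

lemma an_V' {p : P} {x : B} (h : x ∈ s.Sl p) {z : Kost.Fock B} (hz : z ∈ s.V' p) :
    Kost.an x z = 0 := by
  rw [← s.mem_V'.1 hz, ← Module.End.mul_apply, s.an_dz_of_mem h, LinearMap.zero_apply]

lemma dz_cr {p : P} {x : B} (h : x ∉ s.Sl p) : s.dz p * Kost.cr x = Kost.cr x * s.dz p := by
  refine Kost.end_ext fun D => ?_
  rw [Module.End.mul_apply, Module.End.mul_apply, dz_ee, Kost.cr_ee]
  have h1 : Disjoint (insert x D) (s.Sl p) ↔ Disjoint D (s.Sl p) := by
    rw [Finset.disjoint_insert_left]
    simp [h]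
  by_cases h2 : x ∈ D
  · rw [if_pos h2, map_zero]
    split_ifs
    · rw [Kost.cr_ee, if_pos h2]
    · rw [map_zero]
  · rw [if_neg h2, map_smul, dz_ee]
    by_cases h3 : Disjoint D (s.Sl p)
    · rw [if_pos (h1.2 h3), if_pos h3, Kost.cr_ee, if_neg h2]
    · rw [if_neg (fun h' => h3 (h1.1 h')), if_neg h3, map_zero, smul_zero]

lemma dz_an {p : P} {x : B} (h : x ∉ s.Sl p) : s.dz p * Kost.an x = Kost.an x * s.dz p := by
  refine Kost.end_ext fun D => ?_
  rw [Module.End.mul_apply, Module.End.mul_apply, dz_ee, Kost.an_ee]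
  by_cases h2 : x ∈ D
  · have h1 : Disjoint (D.erase x) (s.Sl p) ↔ Disjoint D (s.Sl p) := by
      constructor
      · intro h3
        rw [Finset.disjoint_left] at h3 ⊢
        intro y hy hy'
        apply h3 _ hy'
        rw [Finset.mem_erase]
        exact ⟨fun h4 => h (h4 ▸ hy'), hy⟩
      · intro h3
        exact h3.mono_left (Finset.erase_subset _ _)
    rw [if_pos h2, map_smul, dz_ee]
    by_cases h3 : Disjoint D (s.Sl p)
    · rw [if_pos (h1.2 h3), if_pos h3, Kost.an_ee, if_pos h2]
    · rw [if_neg (fun h' => h3 (h1.1 h')), if_neg h3, map_zero, smul_zero]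
  · rw [if_neg h2, map_zero]
    split_ifs
    · rw [Kost.an_ee, if_neg h2]
    · rw [map_zero]

lemma dz_crL {p : P} {L : List B} (h : ∀ x ∈ L, x ∉ s.Sl p) : s.dz p * crL L = crL L * s.dz p := by
  induction L with
  | nil => simp
  | cons a L ih =>
    rw [crL_cons, ← mul_assoc, s.dz_cr (h a (by simp)), mul_assoc,
      ih (fun x hx => h x (by simp [hx])), mul_assoc]

lemma dz_anL {p : P} {L : List B} (h : ∀ x ∈ L, x ∉ s.Sl p) : s.dz p * anL L = anL L * s.dz p := by
  induction L with
  | nil => simp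
  | cons a L ih =>
    rw [anL_cons, ← mul_assoc, ih (fun x hx => h x (by simp [hx])), mul_assoc,
      s.dz_an (h a (by simp)), mul_assoc]

lemma notMem_Sl {p q : P} (hpq : p ≠ q) {x : B} (hx : x ∈ s.Sl p) : x ∉ s.Sl q :=
  fun h => Finset.disjoint_left.1 (s.disj p q hpq) hx h

/-! ### the lists of boxes -/

lemma mem_boxes {p : P} {l : Finset (Fin m)} {x : B} :
    x ∈ s.boxes p l ↔ (∃ i ∈ l, s.b i p = x) ∨ x ∈ s.inr p := by
  simp [boxes]

lemma b_mem_boxes {p : P} {l : Finset (Fin m)} {i : Fin m} : s.b i p ∈ s.boxes p l ↔ i ∈ l := by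
  rw [mem_boxes]
  constructor
  · rintro (⟨j, hj, h⟩ | h)
    · rwa [← (s.inj _ _ _ _ h).1]
    · exact absurd h (s.b_inr i p)
  · intro h
    exact Or.inl ⟨i, h, rfl⟩

lemma boxes_Sl {p : P} {l : Finset (Fin m)} {x : B} (h : x ∈ s.boxes p l) : x ∈ s.Sl p := by
  rw [mem_boxes] at h
  rcases h with ⟨i, _, rfl⟩ | h
  · exact s.b_mem i p
  · exact s.inr_mem p x h

lemma b_inj (p : P) : Function.Injective (fun i => s.b i p) :=
  fun _ _ h => (s.inj _ _ _ _ h).1

lemma boxes_nodup (p : P) (l : Finset (Fin m)) : (s.boxes p l).Nodup := by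
  unfold boxes
  rw [List.nodup_append]
  refine ⟨(Finset.sort_nodup _ _).map (s.b_inj p), s.inr_nodup p, ?_⟩
  intro x hx y hy hxy
  rw [List.mem_map] at hx
  obtain ⟨i, _, rfl⟩ := hx
  exact s.b_inr i p (hxy ▸ hy)

lemma length_boxes (p : P) (l : Finset (Fin m)) :
    (s.boxes p l).length = l.card + (s.inr p).length := by
  simp [boxes]

lemma sort_map_swap {c : ℕ} (h : c + 1 < m) {l : Finset (Fin m)} {i j : Fin m}
    (hij : (i = hi c h ∧ j = lo c h) ∨ (i = lo c h ∧ j = hi c h)) (hi' : i ∈ l) (hj : j ∉ l) :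
    (l.sort (· ≤ ·)).map (fun k => if k = i then j else k) = (swS c h l).sort (· ≤ ·) := by
  have hne : i ≠ j := fun h' => hj (h' ▸ hi')
  have hval : (i.val = c + 1 ∧ j.val = c) ∨ (i.val = c ∧ j.val = c + 1) := by
    rcases hij with ⟨rfl, rfl⟩ | ⟨rfl, rfl⟩
    · left; exact ⟨rfl, rfl⟩
    · right; exact ⟨rfl, rfl⟩
  have hsw : ∀ k ∈ l, Equiv.swap (lo c h) (hi c h) k = if k = i then j else k := by
    intro k hk
    have hkj : k ≠ j := fun h' => hj (h' ▸ hk)
    rcases hij with ⟨rfl, rfl⟩ | ⟨rfl, rfl⟩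
    · split_ifs with h1
      · rw [h1, Equiv.swap_apply_right]
      · rw [Equiv.swap_apply_of_ne_of_ne hkj h1]
    · split_ifs with h1
      · rw [h1, Equiv.swap_apply_left]
      · rw [Equiv.swap_apply_of_ne_of_ne h1 hkj]
  have hmono : ∀ a ∈ l, ∀ b ∈ l, a < b →
      (if a = i then j else a) < (if b = i then j else b) := by
    intro a ha b hb hab
    have haj : a ≠ j := fun h' => hj (h' ▸ ha)
    have hbj : b ≠ j := fun h' => hj (h' ▸ hb)
    rw [Fin.lt_def] at hab
    have haj' : a.val ≠ j.val := fun h' => haj (Fin.ext h')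
    have hbj' : b.val ≠ j.val := fun h' => hbj (Fin.ext h')
    split_ifs with h1 h2 h2
    · rw [h1, h2] at hab; exact absurd hab (lt_irrefl _)
    · rw [Fin.lt_def]
      rw [h1] at hab
      have : b.val ≠ i.val := fun h' => h2 (Fin.ext h')
      omega
    · rw [Fin.lt_def]
      rw [h2] at hab
      have : a.val ≠ i.val := fun h' => h1 (Fin.ext h')
      omega
    · exact hab
  have h1 : ((l.sort (· ≤ ·)).map (fun k => if k = i then j else k)).Pairwise (· < ·) := by
    rw [List.pairwise_map]
    have hs : (l.sort (· ≤ ·)).Pairwise (· < ·) := (Finset.sortedLT_sort l).pairwise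
    refine hs.imp_of_mem ?_
    intro a b ha hb hab
    exact hmono a ((Finset.mem_sort _).1 ha) b ((Finset.mem_sort _).1 hb) hab
  have h2 : ((swS c h l).sort (· ≤ ·)).Pairwise (· < ·) := (Finset.sortedLT_sort _).pairwise
  apply List.Perm.eq_of_pairwise (le := (· < ·)) _ h1 h2
  · rw [List.perm_ext_iff_of_nodup (h1.imp (fun h => ne_of_lt h)) (Finset.sort_nodup _ _)]
    intro a
    rw [List.mem_map, Finset.mem_sort, swS, Finset.mem_map]
    constructor
    · rintro ⟨k, hk, rfl⟩
      rw [Finset.mem_sort] at hk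
      exact ⟨k, hk, hsw k hk⟩
    · rintro ⟨k, hk, rfl⟩
      exact ⟨k, (Finset.mem_sort _).2 hk, (hsw k hk).symm⟩
  · intro a b _ _ hab hba
    exact absurd (hab.trans hba) (lt_irrefl _)

lemma repl_boxes {c : ℕ} (h : c + 1 < m) (p : P) {l : Finset (Fin m)} {i j : Fin m}
    (hij : (i = hi c h ∧ j = lo c h) ∨ (i = lo c h ∧ j = hi c h)) (hi' : i ∈ l) (hj : j ∉ l) :
    repl (s.b i p) (s.b j p) (s.boxes p l) = s.boxes p (swS c h l) := by
  unfold boxes repl
  rw [List.map_append, ← sort_map_swap h hij hi' hj, List.map_map, List.map_map]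
  congr 1
  · apply List.map_congr_left
    intro k _
    simp only [Function.comp]
    by_cases h1 : k = i
    · rw [if_pos h1, h1, if_pos rfl]
    · rw [if_neg h1, if_neg (fun h' => h1 (s.inj _ _ _ _ h').1)]
  · exact repl_of_notMem (s.b_inr i p)

lemma repl_boxes_dup (p : P) {l : Finset (Fin m)} {i j : Fin m} (hij : i ≠ j) (hi' : i ∈ l)
    (hj : j ∈ l) : ¬ (repl (s.b i p) (s.b j p) (s.boxes p l)).Nodup := by
  intro hnd
  unfold repl at hnd
  have h1 := List.inj_on_of_nodup_map hnd (s.b_mem_boxes.2 hi') (s.b_mem_boxes.2 hj)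
  have hne : s.b j p ≠ s.b i p := fun h => hij (s.inj _ _ _ _ h).1.symm
  simp only [if_true, if_neg hne] at h1
  exact hne (h1 trivial).symm

/-! ### weights -/

lemma deg_singleton_b (i : Fin m) (p : P) : s.deg {s.b i p} = Pi.single i 1 := by
  funext j
  unfold deg
  have h1 : (univ.filter (fun q => s.b j q ∈ ({s.b i p} : Finset B))) =
      if j = i then {p} else ∅ := by
    ext q
    rw [Finset.mem_filter, Finset.mem_singleton]
    split_ifs with h
    · rw [Finset.mem_singleton]
      constructor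
      · rintro ⟨_, h'⟩; exact (s.inj _ _ _ _ h').2
      · rintro rfl; exact ⟨Finset.mem_univ _, by rw [h]⟩
    · constructor
      · rintro ⟨_, h'⟩; exact absurd (s.inj _ _ _ _ h').1 h
      · intro h'; simp at h'
  rw [h1]
  by_cases h : j = i
  · subst h; simp
  · rw [if_neg h, Pi.single_eq_of_ne h]; simp

lemma deg_singleton_inr {p : P} {x : B} (hx : x ∈ s.inr p) : s.deg {x} = 0 := by
  funext j
  unfold deg
  rw [Pi.zero_apply, Nat.cast_eq_zero, Finset.card_eq_zero, Finset.filter_eq_empty_iff]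
  intro q _ hq
  rw [Finset.mem_singleton] at hq
  by_cases h : q = p
  · subst h
    exact s.b_inr j q (hq ▸ hx)
  · exact s.notMem_Sl h (s.b_mem j q) (hq ▸ s.inr_mem p x hx)

lemma deg_insert_single {x : B} {D : Finset B} (hx : x ∉ D) : s.deg (insert x D) = s.deg D + s.deg {x} := by
  funext j
  unfold deg
  rw [Pi.add_apply, ← Nat.cast_add, ← Finset.card_union_of_disjoint]
  · congr 2
    ext q
    simp only [Finset.mem_filter, Finset.mem_union, Finset.mem_insert, Finset.mem_univ, true_and,
      Finset.mem_singleton]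
    tauto
  · rw [Finset.disjoint_left]
    intro q hq hq'
    rw [Finset.mem_filter] at hq hq'
    rw [Finset.mem_singleton] at hq'
    exact hx (hq'.2 ▸ hq.2)

lemma deg_erase_single {x : B} {D : Finset B} (hx : x ∈ D) : s.deg (D.erase x) = s.deg D + -s.deg {x} := by
  have h := s.deg_insert_single (Finset.notMem_erase x D)
  rw [Finset.insert_erase hx] at h
  rw [h]; abel

lemma hom_cr (x : B) :
    Hom (degGr s.deg : Grading ℂ (Kost.Fock B) (Wt m)) (Kost.cr x) (s.deg {x}) := by
  apply hom_of_ee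
  intro D
  rw [Kost.cr_ee]
  split_ifs with h
  · exact Submodule.zero_mem _
  · exact Submodule.smul_mem _ _ (ee_mem_W' (s.deg_insert_single h))

lemma hom_an (x : B) :
    Hom (degGr s.deg : Grading ℂ (Kost.Fock B) (Wt m)) (Kost.an x) (-s.deg {x}) := by
  apply hom_of_ee
  intro D
  rw [Kost.an_ee]
  split_ifs with h
  · exact Submodule.smul_mem _ _ (ee_mem_W' (s.deg_erase_single h))
  · exact Submodule.zero_mem _

lemma hom_crL (L : List B) :
    Hom (degGr s.deg : Grading ℂ (Kost.Fock B) (Wt m)) (crL L)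
      ((L.map (fun x => s.deg {x})).sum) := by
  induction L with
  | nil => intro a; simp
  | cons x L ih =>
    rw [crL_cons, List.map_cons, List.sum_cons, add_comm]
    exact (s.hom_cr x).mul' ih

lemma hom_anL (L : List B) :
    Hom (degGr s.deg : Grading ℂ (Kost.Fock B) (Wt m)) (anL L)
      (-(L.map (fun x => s.deg {x})).sum) := by
  induction L with
  | nil => intro a; simp
  | cons x L ih =>
    rw [anL_cons, List.map_cons, List.sum_cons, neg_add]
    exact ih.mul' (s.hom_an x)

lemma sum_boxes (p : P) (l : Finset (Fin m)) :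
    ((s.boxes p l).map (fun x => s.deg {x})).sum = wtS l := by
  unfold boxes
  rw [List.map_append, List.sum_append, List.map_map]
  have h1 : ((s.inr p).map (fun x => s.deg {x})).sum = 0 := by
    apply List.sum_eq_zero
    intro y hy
    rw [List.mem_map] at hy
    obtain ⟨x, hx, rfl⟩ := hy
    exact s.deg_singleton_inr hx
  have h2 : ((l.sort (· ≤ ·)).map ((fun x => s.deg {x}) ∘ fun i => s.b i p)).sum =
      ∑ i ∈ l, s.deg {s.b i p} := by
    rw [Finset.sum_eq_multiset_sum, ← Finset.sort_eq l (· ≤ ·), Multiset.map_coe,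
      Multiset.sum_coe]
    rfl
  rw [h1, h2, add_zero]
  funext j
  rw [Finset.sum_apply]
  simp only [s.deg_singleton_b, Pi.single_apply, Finset.sum_ite_eq, wtS]

lemma hom_dz (p : P) : Hom (degGr s.deg : Grading ℂ (Kost.Fock B) (Wt m)) (s.dz p) 0 := by
  intro a
  rw [add_zero]
  exact dia_comm _ _

/-- the part of `E i j` in the slot `p` and the rest -/
lemma E_eq (p : P) (i j : Fin m) : s.E i j = Kost.cr (s.b j p) * Kost.an (s.b i p) +
    ∑ q ∈ univ.erase p, Kost.cr (s.b j q) * Kost.an (s.b i q) := by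
  unfold E
  exact (Finset.add_sum_erase univ (fun q => Kost.cr (s.b j q) * Kost.an (s.b i q))
    (Finset.mem_univ p)).symm

lemma rest_crL (p : P) (i j : Fin m) (l : Finset (Fin m)) :
    (∑ q ∈ univ.erase p, Kost.cr (s.b j q) * Kost.an (s.b i q)) * crL (s.boxes p l) =
      crL (s.boxes p l) * ∑ q ∈ univ.erase p, Kost.cr (s.b j q) * Kost.an (s.b i q) := by
  rw [Finset.sum_mul, Finset.mul_sum]
  refine Finset.sum_congr rfl fun q hq => ?_
  rw [bil_crL (s.boxes_nodup p l), if_neg, zero_add]
  intro h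
  exact s.notMem_Sl (Finset.ne_of_mem_erase hq) (s.b_mem i q) (s.boxes_Sl h)

lemma anL_rest (p : P) (i j : Fin m) (l : Finset (Fin m)) :
    anL (s.boxes p l) * (∑ q ∈ univ.erase p, Kost.cr (s.b j q) * Kost.an (s.b i q)) =
      (∑ q ∈ univ.erase p, Kost.cr (s.b j q) * Kost.an (s.b i q)) * anL (s.boxes p l) := by
  rw [Finset.sum_mul, Finset.mul_sum]
  refine Finset.sum_congr rfl fun q hq => ?_
  rw [anL_bil (s.boxes_nodup p l), if_neg, zero_add]
  intro h
  exact s.notMem_Sl (Finset.ne_of_mem_erase hq) (s.b_mem j q) (s.boxes_Sl h)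

lemma dz_rest (p : P) (i j : Fin m) :
    s.dz p * (∑ q ∈ univ.erase p, Kost.cr (s.b j q) * Kost.an (s.b i q)) =
      (∑ q ∈ univ.erase p, Kost.cr (s.b j q) * Kost.an (s.b i q)) * s.dz p := by
  rw [Finset.sum_mul, Finset.mul_sum]
  refine Finset.sum_congr rfl fun q hq => ?_
  rw [← mul_assoc, s.dz_cr (s.notMem_Sl (Finset.ne_of_mem_erase hq) (s.b_mem j q)), mul_assoc,
    s.dz_an (s.notMem_Sl (Finset.ne_of_mem_erase hq) (s.b_mem i q)), mul_assoc]

/-- `E i j` on `ins p l` -/
lemma E_ins {c : ℕ} (h : c + 1 < m) (p : P) (l : Finset (Fin m)) {i j : Fin m}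
    (hij : (i = hi c h ∧ j = lo c h) ∨ (i = lo c h ∧ j = hi c h)) (z : Kost.Fock B) :
    s.E i j (s.ins p l z) = (if i ∈ l ∧ j ∉ l then s.ins p (swS c h l) z else 0) +
      s.ins p l (s.E i j z) := by
  have hne : i ≠ j := by
    rcases hij with ⟨rfl, rfl⟩ | ⟨rfl, rfl⟩
    · intro h'; have := congrArg Fin.val h'; simp at this
    · intro h'; have := congrArg Fin.val h'; simp at this
  have h1 : s.E i j * crL (s.boxes p l) = (if i ∈ l ∧ j ∉ l then
      crL (s.boxes p (swS c h l)) else 0) + crL (s.boxes p l) * s.E i j := by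
    rw [s.E_eq p, add_mul, mul_add, s.rest_crL, bil_crL (s.boxes_nodup p l), add_assoc]
    congr 1
    by_cases hi' : i ∈ l
    · rw [if_pos (s.b_mem_boxes.2 hi')]
      by_cases hj : j ∈ l
      · rw [if_neg (fun h' => h'.2 hj), crL_of_not_nodup (s.repl_boxes_dup p hne hi' hj)]
      · rw [if_pos ⟨hi', hj⟩, s.repl_boxes h p hij hi' hj]
    · rw [if_neg (fun h' => hi' (s.b_mem_boxes.1 h')), if_neg (fun h' => hi' h'.1)]
  have h2 := congrArg (fun g : Module.End ℂ (Kost.Fock B) => g z) h1
  simp only [Module.End.mul_apply, LinearMap.add_apply] at h2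
  unfold ins
  rw [h2]
  congr 1
  split_ifs
  · rfl
  · rfl

/-- `ext p l` on `E i j` -/
lemma ext_E {c : ℕ} (h : c + 1 < m) (p : P) (l : Finset (Fin m)) {i j : Fin m}
    (hij : (i = hi c h ∧ j = lo c h) ∨ (i = lo c h ∧ j = hi c h)) (y : Kost.Fock B) :
    s.ext p l (s.E i j y) = (if j ∈ l ∧ i ∉ l then s.ext p (swS c h l) y else 0) +
      s.E i j (s.ext p l y) := by
  have hne : j ≠ i := by
    rcases hij with ⟨rfl, rfl⟩ | ⟨rfl, rfl⟩
    · intro h'; have := congrArg Fin.val h'; simp at this
    · intro h'; have := congrArg Fin.val h'; simp at this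
  have hji : (j = hi c h ∧ i = lo c h) ∨ (j = lo c h ∧ i = hi c h) := by
    rcases hij with ⟨rfl, rfl⟩ | ⟨rfl, rfl⟩
    · right; exact ⟨rfl, rfl⟩
    · left; exact ⟨rfl, rfl⟩
  have h1 : s.dz p * anL (s.boxes p l) * s.E i j = (if j ∈ l ∧ i ∉ l then
      s.dz p * anL (s.boxes p (swS c h l)) else 0) + s.E i j * (s.dz p * anL (s.boxes p l)) := by
    have e1 : Kost.cr (s.b j p) * Kost.an (s.b i p) * (s.dz p * anL (s.boxes p l)) = 0 := by
      rw [← mul_assoc, mul_assoc (Kost.cr _) (Kost.an _), s.an_dz_of_mem (s.b_mem i p), mul_zero,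
        zero_mul]
    have e2 : s.dz p * (Kost.cr (s.b j p) * Kost.an (s.b i p) * anL (s.boxes p l)) = 0 := by
      rw [← mul_assoc, ← mul_assoc, s.dz_cr_of_mem (s.b_mem j p), zero_mul, zero_mul]
    rw [s.E_eq p, mul_add, add_mul, mul_assoc, mul_assoc, s.anL_rest, e1, zero_add,
      anL_bil (s.boxes_nodup p l), mul_add, e2, add_zero, ← mul_assoc (s.dz p) (∑ q ∈ _, _),
      s.dz_rest, mul_assoc]
    congr 1
    by_cases hj : j ∈ l
    · rw [if_pos (s.b_mem_boxes.2 hj)]
      by_cases hi' : i ∈ l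
      · rw [if_neg (fun h' => h'.2 hi'), anL_of_not_nodup (s.repl_boxes_dup p hne hj hi'),
          mul_zero]
      · rw [if_pos ⟨hj, hi'⟩, s.repl_boxes h p hji hj hi']
    · rw [if_neg (fun h' => hj (s.b_mem_boxes.1 h')), if_neg (fun h' => hj h'.1), mul_zero]
  have h2 := congrArg (fun g : Module.End ℂ (Kost.Fock B) => g y) h1
  simp only [Module.End.mul_apply, LinearMap.add_apply] at h2
  have h3 : ∀ l' y', s.ext p l' y' = s.dz p (anL (s.boxes p l') y') := fun _ _ => rfl
  rw [h3, h3, h3, h2]
  congr 1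
  split_ifs
  · rfl
  · rfl

lemma ext_apply (p : P) (l : Finset (Fin m)) (y : Kost.Fock B) :
    s.ext p l y = s.dz p (anL (s.boxes p l) y) := rfl

lemma ins_apply (p : P) (l : Finset (Fin m)) (y : Kost.Fock B) :
    s.ins p l y = crL (s.boxes p l) y := rfl

/-! ### the statements -/

theorem V'_stable (p : P) : (fockRep s).toGrading.Stable (s.V' p) := by
  intro a z hz
  rw [mem_V'] at hz ⊢
  have h1 := congrArg (fun g : Module.End ℂ (Kost.Fock B) => g z) (s.hom_dz p a)
  simp only [Module.End.mul_apply, add_zero] at h1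
  change s.dz p ((degGr s.deg : Grading ℂ (Kost.Fock B) (Wt m)).π a z) =
    (degGr s.deg : Grading ℂ (Kost.Fock B) (Wt m)).π a z
  rw [h1, hz]

theorem V'_E (p : P) (i j : Fin m) : ∀ z ∈ s.V' p, (fockRep s).E i j z ∈ s.V' p := by
  intro z hz
  change s.E i j z ∈ s.V' p
  rw [s.E_eq p, LinearMap.add_apply, Module.End.mul_apply, s.an_V' (s.b_mem i p) hz, map_zero,
    zero_add, mem_V', ← Module.End.mul_apply, s.dz_rest, Module.End.mul_apply, s.mem_V'.1 hz]

theorem ext_mem (p : P) (l : Finset (Fin m)) (y : Kost.Fock B) : s.ext p l y ∈ s.V' p :=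
  s.dz_mem p _

theorem ext_ins (p : P) (l l' : Finset (Fin m)) : ∀ z ∈ s.V' p,
    s.ext p l (s.ins p l' z) = if l = l' then z else 0 := by
  intro z hz
  rw [s.ext_apply, s.ins_apply]
  by_cases h : l = l'
  · subst h
    rw [if_pos rfl, anL_crL (s.boxes_nodup p l) (fun x hx => s.an_V' (s.boxes_Sl hx) hz),
      s.mem_V'.1 hz]
  · rw [if_neg h]
    by_cases h1 : l ⊆ l'
    · have h2 : ∃ i ∈ l', i ∉ l := by
        by_contra h2
        push Not at h2
        exact h (Finset.Subset.antisymm h1 h2)
      obtain ⟨i, hi', hil⟩ := h2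
      obtain ⟨T, hT⟩ := crL_front (s.b_mem_boxes (p := p).2 hi')
      obtain ⟨T', hT'⟩ := anL_cr_front (fun h' => hil (s.b_mem_boxes (p := p).1 h')) T
      rw [← Module.End.mul_apply (anL _), hT, hT', Module.End.mul_apply,
        ← Module.End.mul_apply (s.dz p), s.dz_cr_of_mem (s.b_mem i p), LinearMap.zero_apply]
    · have h2 : ∃ i ∈ l, i ∉ l' := by
        rw [Finset.not_subset] at h1
        exact h1
      obtain ⟨i, hi', hil⟩ := h2
      rw [anL_zero_of_mem (s.b_mem_boxes (p := p).2 hi') (an_crL_zero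
        (fun h' => hil (s.b_mem_boxes (p := p).1 h')) (s.an_V' (s.b_mem i p) hz)), map_zero]

theorem pr_ins (p : P) (l : Finset (Fin m)) (μ : Wt m) : ∀ z ∈ s.V' p,
    (fockRep s).π μ (s.ins p l z) = s.ins p l ((fockRep s).π (μ - wtS l) z) := by
  intro z _
  have h1 := congrArg (fun g : Module.End ℂ (Kost.Fock B) => g z)
    (s.hom_crL (s.boxes p l) (μ - wtS l))
  rw [s.sum_boxes, sub_add_cancel] at h1
  exact h1.symm

theorem pr_ext (p : P) (l : Finset (Fin m)) (μ : Wt m) (y : Kost.Fock B) :
    s.ext p l ((fockRep s).π μ y) = (fockRep s).π (μ - wtS l) (s.ext p l y) := by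
  have h0 := (s.hom_dz p).mul' (s.hom_anL (s.boxes p l))
  have h1 := congrArg (fun g : Module.End ℂ (Kost.Fock B) => g y) (h0 μ)
  rw [s.sum_boxes, add_zero, ← sub_eq_add_neg] at h1
  exact h1

theorem e_ins (p : P) (c : ℕ) (h : c + 1 < m) (l : Finset (Fin m)) : ∀ z ∈ s.V' p,
    (fockRep s).e c (s.ins p l z) =
    (if hi c h ∈ l ∧ lo c h ∉ l then s.ins p (swS c h l) z else 0) +
      s.ins p l ((fockRep s).e c z) := by
  intro z _
  rw [GLRep.e, dif_pos h]
  exact s.E_ins h p l (Or.inl ⟨rfl, rfl⟩) z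

theorem f_ins (p : P) (c : ℕ) (h : c + 1 < m) (l : Finset (Fin m)) : ∀ z ∈ s.V' p,
    (fockRep s).f c (s.ins p l z) =
    (if lo c h ∈ l ∧ hi c h ∉ l then s.ins p (swS c h l) z else 0) +
      s.ins p l ((fockRep s).f c z) := by
  intro z _
  rw [GLRep.f, dif_pos h]
  exact s.E_ins h p l (Or.inr ⟨rfl, rfl⟩) z

theorem ext_e (p : P) (c : ℕ) (h : c + 1 < m) (l : Finset (Fin m)) (y : Kost.Fock B) :
    s.ext p l ((fockRep s).e c y) =
    (if lo c h ∈ l ∧ hi c h ∉ l then s.ext p (swS c h l) y else 0) +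
      (fockRep s).e c (s.ext p l y) := by
  rw [GLRep.e, dif_pos h]
  exact s.ext_E h p l (Or.inl ⟨rfl, rfl⟩) y

theorem ext_f (p : P) (c : ℕ) (h : c + 1 < m) (l : Finset (Fin m)) (y : Kost.Fock B) :
    s.ext p l ((fockRep s).f c y) =
    (if hi c h ∈ l ∧ lo c h ∉ l then s.ext p (swS c h l) y else 0) +
      (fockRep s).f c (s.ext p l y) := by
  rw [GLRep.f, dif_pos h]
  exact s.ext_E h p l (Or.inr ⟨rfl, rfl⟩) y

theorem ins_mem' (p q : P) (hpq : p ≠ q) (l : Finset (Fin m)) : ∀ z ∈ s.V' q,
    s.ins p l z ∈ s.V' q := by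
  intro z hz
  rw [mem_V', s.ins_apply, ← Module.End.mul_apply,
    s.dz_crL (fun x hx => s.notMem_Sl hpq (s.boxes_Sl hx)), Module.End.mul_apply, s.mem_V'.1 hz]

theorem ext_mem' (p q : P) (hpq : p ≠ q) (l : Finset (Fin m)) : ∀ z ∈ s.V' q,
    s.ext p l z ∈ s.V' q := by
  intro z hz
  have h1 : s.dz q * s.dz p = s.dz p * s.dz q := dia_comm _ _
  rw [mem_V', s.ext_apply, ← Module.End.mul_apply, h1, Module.End.mul_apply,
    ← Module.End.mul_apply (s.dz q),
    s.dz_anL (fun x hx => s.notMem_Sl hpq (s.boxes_Sl hx)), Module.End.mul_apply, s.mem_V'.1 hz]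

theorem comm_slots (sz : P → ℕ) (p q : P) (hpq : p ≠ q) (l : Finset (Fin m)) :
    ∃ ε : ℂ, ε * ε = 1 ∧ ∀ l' : Finset (Fin m), l'.card = sz q →
    (∀ z ∈ s.V' p, s.ext q l' (s.ins p l z) = ε • s.ins p l (s.ext q l' z)) ∧
    (∀ z ∈ s.V' p, z ∈ s.V' q → s.ins q l' (s.ins p l z) = ε • s.ins p l (s.ins q l' z)) := by
  refine ⟨(-1) ^ ((l.card + (s.inr p).length) * (sz q + (s.inr q).length)), ?_, ?_⟩
  · rw [← pow_add, ← two_mul, pow_mul]; norm_num
  · intro l' hl'
    have hlen : (s.boxes p l).length * (s.boxes q l').length =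
        (l.card + (s.inr p).length) * (sz q + (s.inr q).length) := by
      rw [s.length_boxes, s.length_boxes, hl']
    constructor
    · intro z _
      rw [s.ext_apply, s.ins_apply, s.ext_apply, s.ins_apply, ← Module.End.mul_apply (anL _),
        anL_crL' (fun x hx hx' => s.notMem_Sl hpq (s.boxes_Sl hx') (s.boxes_Sl hx)), hlen,
        LinearMap.smul_apply, map_smul, Module.End.mul_apply, ← Module.End.mul_apply (s.dz q),
        s.dz_crL (fun x hx => s.notMem_Sl hpq (s.boxes_Sl hx)), Module.End.mul_apply]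
    · intro z _ _
      rw [s.ins_apply, s.ins_apply, s.ins_apply, s.ins_apply, ← Module.End.mul_apply (crL _),
        crL_crL, hlen, LinearMap.smul_apply, Module.End.mul_apply]

end SlotData

/-- the twist in slot `p` -/
def fockTw (p : P) : Tw (fockRep s) where
  V' := s.V' p
  st := s.V'_stable p
  stE := s.V'_E p
  ins := s.ins p
  ext := s.ext p
  ext_mem := s.ext_mem p
  ext_ins := s.ext_ins p
  pr_ins := s.pr_ins p
  pr_ext := s.pr_ext p
  e_ins := s.e_ins p
  f_ins := s.f_ins p
  ext_e := s.ext_e p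
  ext_f := s.ext_f p

/-- all slots -/
def fockSlots (sz : P → ℕ) : Slots (fockRep s) P where
  tw := fockTw s
  sz := sz
  ins_mem := s.ins_mem'
  ext_mem := s.ext_mem'
  comm := s.comm_slots sz

namespace SlotData

lemma E_vac (i j : Fin m) : s.E i j (Kost.vac : Kost.Fock B) = 0 := by
  unfold E
  rw [LinearMap.sum_apply]
  apply Finset.sum_eq_zero
  intro p _
  rw [Module.End.mul_apply, Kost.an_vac, map_zero]

lemma f_vac (c : ℕ) : (fockRep s).f c (Kost.vac : Kost.Fock B) = 0 := by
  rw [GLRep.f]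
  split_ifs
  · exact s.E_vac _ _
  · rfl

lemma T_vac (c : ℕ) : (fockRep s).T c (Submodule.span ℂ {(Kost.vac : Kost.Fock B)}) =
    Submodule.span ℂ {(Kost.vac : Kost.Fock B)} := by
  apply le_antisymm
  · apply iSup_le
    intro k
    rw [Submodule.map_span_le]
    rintro _ rfl
    cases k with
    | zero => rw [pow_zero]; exact Submodule.mem_span_singleton_self _
    | succ k =>
      rw [pow_succ, Module.End.mul_apply, s.f_vac, map_zero]
      exact Submodule.zero_mem _
  · refine le_trans ?_ (le_iSup (fun k : ℕ =>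
      (Submodule.span ℂ {(Kost.vac : Kost.Fock B)}).map ((fockRep s).f c ^ k)) 0)
    rw [pow_zero]
    exact le_of_eq (Submodule.map_id _).symm

lemma Hw_vac (cs : List ℕ) : (fockRep s).Hw cs (Submodule.span ℂ {(Kost.vac : Kost.Fock B)}) =
    Submodule.span ℂ {(Kost.vac : Kost.Fock B)} := by
  induction cs with
  | nil => rfl
  | cons c cs ih =>
    change (fockRep s).T c ((fockRep s).Hw cs _) = _
    rw [ih, s.T_vac]

lemma deg_empty : s.deg ∅ = 0 := by
  funext i
  simp [deg]

lemma π_vac (μ : Wt m) : (fockRep s).π μ (Kost.vac : Kost.Fock B) =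
    if μ = 0 then (Kost.vac : Kost.Fock B) else 0 := by
  have h1 : (fockRep s).π μ (Kost.ee (∅ : Finset B)) =
      if s.deg ∅ = μ then Kost.ee (∅ : Finset B) else 0 := dia_ee _ _
  rw [s.deg_empty] at h1
  rw [Kost.vac, h1]
  by_cases h : μ = 0
  · rw [if_pos h, if_pos h.symm]
  · rw [if_neg h, if_neg (fun h' => h h'.symm)]

lemma ch_vac (μ : Wt m) : (fockRep s).ch (Submodule.span ℂ {(Kost.vac : Kost.Fock B)}) μ =
    if μ = 0 then 1 else 0 := by
  unfold GLRep.ch GLRep.wd
  rw [Submodule.map_span, Set.image_singleton, s.π_vac]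
  by_cases h : μ = 0
  · have h0 : (Kost.vac : Kost.Fock B) ≠ 0 := Kost.ee_ne_zero _
    rw [if_pos h, if_pos h, finrank_span_singleton h0]
    rfl
  · rw [if_neg h, if_neg h]
    simp

end SlotData

/-- the vacuum line: `E i j vac = 0`, weight `0`; `T c (span vac) = span vac`, character = indicator of `0`, which is
symmetric, so `IsDem f f`. -/
theorem fock_start (sz : P → ℕ) :
    Start (fockSlots s sz) (Submodule.span ℂ {(Kost.vac : Kost.Fock B)}) := by
  refine ⟨⟨⟨?_, ?_⟩, ?_⟩, ?_⟩
  · intro μ z hz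
    rw [Submodule.mem_span_singleton] at hz
    obtain ⟨t, rfl⟩ := hz
    rw [map_smul, s.π_vac]
    split_ifs
    · exact Submodule.smul_mem _ _ (Submodule.mem_span_singleton_self _)
    · rw [smul_zero]; exact Submodule.zero_mem _
  · intro i j _ z hz
    rw [Submodule.mem_span_singleton] at hz
    obtain ⟨t, rfl⟩ := hz
    rw [map_smul]
    have h1 : (fockRep s).E i j (Kost.vac : Kost.Fock B) = 0 := s.E_vac i j
    rw [h1, smul_zero]
    exact Submodule.zero_mem _
  · intro cs c h
    rw [s.Hw_vac, s.T_vac]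
    have hfin : ((fockRep s).ch (Submodule.span ℂ {(Kost.vac : Kost.Fock B)})).support.Finite := by
      apply Set.Finite.subset (Set.finite_singleton (0 : Wt m))
      intro μ hμ
      rw [Function.mem_support, s.ch_vac] at hμ
      by_contra h1
      exact hμ (if_neg h1)
    refine ⟨hfin, hfin, ?_⟩
    intro μ
    rw [s.ch_vac, s.ch_vac, s.ch_vac]
    congr 1
    have h1 : ∀ ν : Wt m, sWt c h ν = 0 ↔ ν = 0 := by
      intro ν
      constructor
      · intro h2
        funext k
        have := congrFun h2 (Equiv.swap (lo c h) (hi c h) k)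
        simpa [sWt] using this
      · rintro rfl
        rfl
    simp only [h1]
  · intro p
    rw [Submodule.span_singleton_le_iff_mem]
    change (Kost.vac : Kost.Fock B) ∈ s.V' p
    rw [s.mem_V', Kost.vac, s.dz_ee, if_pos (Finset.disjoint_empty_left _)]

end

end Gao
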