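import Mathlib
import Pool.Agent.Gao.FockTw
import Pool.Agent.Gao.GTyp
import Pool.Agent.Gao.GRun
import Pool.Agent.Gao.GenLem
import Pool.Agent.Gao.ExtVec

/-!
# Gao project: generated subspaces in the Fock space (MODULE FockGen, about 300 lines)

`ρ.bops` = the set of the operators `E i j`, `j < i`; `gen ρ.bops v` (Defs.lean).

* `self_mem_gen`, `gen_stable`, `gen_le`: see GenLem.lean.
* `gen_BSt`: if `v` is a weight vector (`ρ.π μ v = v`) then `gen ρ.bops v` is BSt.
* `gen_f_stable`: if moreover `ρ.f c v = 0` then `gen ρ.bops v` is stable under `ρ.f c`.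
* `T_gen_shift`: let `D` be a set of boxes without boxes of index `hi c` (`b hi p ∉ D` for all `p`), and `D'` the set obtained by moving
  all boxes `b lo p` to `b hi p`.  Then `T c (gen (ee D)) = gen (ee D')`.
* `T_gen_shifts`: iterate: `T t (T (t+1) (… T (t+r-1) ..))` applied to `gen (ee D)`, `D` without boxes of index `t + r` (`t + r < m`), is
  `gen (ee D')`, `D'` = image of `D` under the index map `t ≤ i < t + r ↦ i + 1`, other indices fixed (boxes not of the form `b i p` are
  not moved).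
* `twist_gen`: for `D` disjoint from `Sl p`: `twist t (gen (ee D)) = gen (ee (D ∪ boxes p (ini m t)))`.
-/

namespace Gao

open Finset Module

noncomputable section

section gen
variable {K V : Type*} [Field K] [AddCommGroup V] [Module K V]

variable {m : ℕ}

/-- the operators of the Borel subalgebra -/
def GLRep.bops (ρ : GLRep K V m) : Set (Module.End K V) := {a | ∃ i j, j < i ∧ a = ρ.E i j}

theorem gen_BSt (ρ : GLRep K V m) {v : V} {μ : Wt m} (hv : ρ.π μ v = v) :
    ρ.BSt (gen ρ.bops v) := by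
  refine ⟨?_, ?_⟩
  · refine gen_graded (a := μ) (ρ.toGrading.mem_W.2 hv) ?_
    rintro T ⟨i, j, _, rfl⟩
    exact ⟨_, ρ.hom i j⟩
  · intro i j hij z hz
    have hmem : ρ.E i j ∈ ρ.bops := ⟨i, j, hij, rfl⟩
    exact gen_stable hmem hz

/-- `BSt` spaces are stable under the diagonal operators -/
lemma GLRep.diag_mem (ρ : GLRep K V m) {Z : Submodule K V} (h : ρ.toGrading.Stable Z) (i : Fin m)
    {y : V} (hy : y ∈ Z) : ρ.E i i y ∈ Z := by
  rw [← ρ.toGrading.sum_apply y, map_sum]
  refine Submodule.sum_mem _ fun μ _ => ?_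
  have h4 := congrArg (fun g : Module.End K V => g y) (ρ.diag i μ)
  simp only [LinearMap.smul_apply, Module.End.mul_apply] at h4
  rw [h4]
  exact Submodule.smul_mem _ _ (h μ y hy)

theorem gen_f_stable (ρ : GLRep K V m) {v : V} {μ : Wt m} (hv : ρ.π μ v = v) (c : ℕ)
    (hf : ρ.f c v = 0) : ∀ y ∈ gen ρ.bops v, ρ.f c y ∈ gen ρ.bops v := by
  by_cases hc : c + 1 < m
  · have hB := gen_BSt ρ hv
    set Z := gen ρ.bops v with hZ
    have hY : ρ.BSt (Z ⊓ Z.comap (ρ.f c)) := by
      refine ρ.BSt_of_simple ?_ ?_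
      · rintro ν x ⟨hx1, hx2⟩
        refine ⟨hB.st ν x hx1, ?_⟩
        rw [SetLike.mem_coe, Submodule.mem_comap] at hx2 ⊢
        have h1 := congrArg (fun g : Module.End K V => g x) (ρ.f_hom c hc ν)
        simp only [Module.End.mul_apply] at h1
        rw [h1]
        exact hB.st _ _ hx2
      · rintro d y ⟨hy1, hy2⟩
        refine ⟨hB.e_mem d hy1, ?_⟩
        rw [SetLike.mem_coe, Submodule.mem_comap] at hy2 ⊢
        by_cases hcd : c = d
        · subst hcd
          have h1 := congrArg (fun g : Module.End K V => g y) (ρ.e_f c hc)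
          simp only [LinearMap.sub_apply, Module.End.mul_apply] at h1
          have h2 : ρ.f c (ρ.e c y) = ρ.e c (ρ.f c y) -
              (ρ.E (lo c hc) (lo c hc) y - ρ.E (hi c hc) (hi c hc) y) := by
            rw [← h1]; abel
          rw [h2]
          exact Submodule.sub_mem _ (hB.e_mem c hy2) (Submodule.sub_mem _
            (ρ.diag_mem hB.st _ hy1) (ρ.diag_mem hB.st _ hy1))
        · have h1 := congrArg (fun g : Module.End K V => g y) (ρ.e_f_ne hcd)
          simp only [Module.End.mul_apply] at h1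
          rw [← h1]
          exact hB.e_mem d hy2
    have hle : gen ρ.bops v ≤ Z ⊓ Z.comap (ρ.f c) := by
      refine gen_le ⟨self_mem_gen _ _, ?_⟩ ?_
      · rw [SetLike.mem_coe, Submodule.mem_comap, hf]
        exact Z.zero_mem
      · rintro T ⟨i, j, hij, rfl⟩ x hx
        exact hY.e i j hij x hx
    intro y hy
    exact (hle hy).2
  · intro y _
    rw [GLRep.f, dif_neg hc]
    exact Submodule.zero_mem _

end gen

/-! ### moving boxes -/

section pairs

open Kost

variable {B P : Type} [Fintype B] [DecidableEq B] [Fintype P] [DecidableEq P]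
  {x y : P → B}

lemma pair_comm (hxy : ∀ p q, x p ≠ y q) (p q : P) :
    (cr (y p) * an (x p)) * (cr (y q) * an (x q)) =
      (cr (y q) * an (x q)) * (cr (y p) * an (x p)) := by
  rw [← mul_assoc, cr_an_cr, if_neg (hxy p q), zero_add, mul_assoc (cr (y q)), cr_an_an,
    if_neg (hxy q p).symm, sub_zero, mul_assoc]

lemma pair_sq (hxy : ∀ p q, x p ≠ y q) (p : P) :
    (cr (y p) * an (x p)) * (cr (y p) * an (x p)) = 0 := by
  rw [← mul_assoc, cr_an_cr, if_neg (hxy p p), zero_add, ← mul_assoc, cr_mul_self, zero_mul,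
    zero_mul]

lemma pair_ee_of_notMem {p : P} {D : Finset B} (h : x p ∉ D) :
    (cr (y p) * an (x p)) (ee D) = 0 := by
  rw [Module.End.mul_apply, an_ee, if_neg h, map_zero]

lemma pair_ee {p : P} {D : Finset B} (h : x p ∈ D) (h' : y p ∉ D) : ∃ t : ℂ, t ≠ 0 ∧
    (cr (y p) * an (x p)) (ee D) = t • ee (insert (y p) (D.erase (x p))) := by
  refine ⟨sgn (x p) D * sgn (y p) (D.erase (x p)),
    mul_ne_zero (sgn_ne_zero _ _) (sgn_ne_zero _ _), ?_⟩
  rw [Module.End.mul_apply, an_ee, if_pos h, map_smul, cr_ee, if_neg, smul_smul]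
  exact fun h2 => h' (mem_of_mem_erase h2)

/-- the boxes `x p`, `p ∈ R`, replaced by `y p` -/
def mvd (x y : P → B) (D : Finset B) (R : Finset P) : Finset B := (D \ R.image x) ∪ R.image y

omit [Fintype B] [Fintype P] [DecidableEq P] in
lemma mem_mvd {D : Finset B} {R : Finset P} {b : B} : b ∈ mvd x y D R ↔
    (b ∈ D ∧ ∀ p ∈ R, x p ≠ b) ∨ ∃ p ∈ R, y p = b := by
  unfold mvd
  rw [mem_union, mem_sdiff, mem_image, mem_image]
  push Not
  rfl

lemma sum_pair_pow (hxy : ∀ p q, x p ≠ y q) (hx : Function.Injective x)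
    (hy : Function.Injective y) (D : Finset B) (R : Finset P)
    (hR : ∀ p ∈ R, x p ∈ D ∧ y p ∉ D) :
    ∃ t : ℂ, t ≠ 0 ∧ ((∑ p ∈ R, cr (y p) * an (x p)) ^ R.card) (ee D) =
      t • ee (mvd x y D R) := by
  induction R using Finset.induction_on with
  | empty =>
    refine ⟨1, one_ne_zero, ?_⟩
    have h1 : mvd x y D ∅ = D := by
      ext b; rw [mem_mvd]; simp
    rw [h1, card_empty, pow_zero, one_smul, Module.End.one_apply]
  | insert a R ha ih =>
    obtain ⟨t, ht, h1⟩ := ih (fun p hp => hR p (mem_insert_of_mem hp))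
    set E := ∑ p ∈ R, cr (y p) * an (x p) with hE
    set A := cr (y a) * an (x a) with hA
    have hAE : Commute E A := by
      rw [hE, hA]
      exact Commute.sum_left _ _ _ (fun p _ => pair_comm hxy p a)
    have hA2 : A * A = 0 := pair_sq hxy a
    have hpow : ∀ m : ℕ, (A + E) ^ (m + 1) = E ^ (m + 1) + ((m + 1 : ℕ) : ℂ) • (A * E ^ m) := by
      intro m
      induction m with
      | zero => simp [add_comm]
      | succ m ihm =>
        rw [pow_succ' (A + E), ihm, add_mul, mul_add, mul_add, mul_smul_comm, mul_smul_comm,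
          ← mul_assoc A A, hA2, zero_mul, smul_zero, add_zero, ← pow_succ' E,
          ← mul_assoc E A, hAE.eq, mul_assoc A E, ← pow_succ' E]
        have h3 : A * E ^ (m + 1) + (E ^ (m + 1 + 1) + ((m + 1 : ℕ) : ℂ) • (A * E ^ (m + 1)))
            = E ^ (m + 1 + 1) + ((1 : ℂ) • (A * E ^ (m + 1)) +
              ((m + 1 : ℕ) : ℂ) • (A * E ^ (m + 1))) := by
          rw [one_smul]; abel
        rw [h3, ← add_smul]
        congr 2
        push_cast
        ring
    have hzero : E (ee (mvd x y D R)) = 0 := by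
      rw [hE, LinearMap.sum_apply]
      refine Finset.sum_eq_zero fun p hp => pair_ee_of_notMem ?_
      rw [mem_mvd]
      push Not
      exact ⟨fun _ => ⟨p, hp, rfl⟩, fun q _ => (hxy p q).symm⟩
    have ha1 : x a ∈ mvd x y D R := by
      rw [mem_mvd]
      refine Or.inl ⟨(hR a (mem_insert_self _ _)).1, fun p hp h => ?_⟩
      rw [hx h] at hp
      exact ha hp
    have ha2 : y a ∉ mvd x y D R := by
      rw [mem_mvd]
      push Not
      refine ⟨fun h => absurd h (hR a (mem_insert_self _ _)).2, fun q hq h => ?_⟩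
      rw [hy h] at hq
      exact ha hq
    obtain ⟨s, hs, h2⟩ := pair_ee ha1 ha2
    have hset : insert (y a) ((mvd x y D R).erase (x a)) = mvd x y D (insert a R) := by
      ext b
      rw [mem_insert, mem_erase, mem_mvd, mem_mvd]
      constructor
      · rintro (rfl | ⟨h3, (⟨h4, h5⟩ | ⟨p, hp, rfl⟩)⟩)
        · exact Or.inr ⟨a, mem_insert_self _ _, rfl⟩
        · refine Or.inl ⟨h4, fun p hp => ?_⟩
          rcases mem_insert.1 hp with rfl | hp
          · exact h3.symm
          · exact h5 p hp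
        · exact Or.inr ⟨p, mem_insert_of_mem hp, rfl⟩
      · rintro (⟨h4, h5⟩ | ⟨p, hp, rfl⟩)
        · exact Or.inr ⟨(h5 a (mem_insert_self _ _)).symm,
            Or.inl ⟨h4, fun p hp => h5 p (mem_insert_of_mem hp)⟩⟩
        · rcases mem_insert.1 hp with rfl | hp
          · exact Or.inl rfl
          · exact Or.inr ⟨(hxy a p).symm, Or.inr ⟨p, hp, rfl⟩⟩
    refine ⟨((R.card + 1 : ℕ) : ℂ) * (t * s), ?_, ?_⟩
    · exact mul_ne_zero (Nat.cast_ne_zero.2 (Nat.succ_ne_zero _)) (mul_ne_zero ht hs)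
    · rw [sum_insert ha, card_insert_of_notMem ha, ← hA, ← hE, hpow, LinearMap.add_apply,
        LinearMap.smul_apply, Module.End.mul_apply, h1, pow_succ', Module.End.mul_apply, h1,
        map_smul, hzero, smul_zero, zero_add, map_smul, h2, smul_smul, smul_smul, hset, mul_assoc]

/-- all boxes `x p ∈ D` are moved to `y p` by a power of the sum of the pairs, if no `y p` is in `D` -/
lemma pair_pow (hxy : ∀ p q, x p ≠ y q) (hx : Function.Injective x) (hy : Function.Injective y)
    (D : Finset B) (hD : ∀ p, y p ∉ D) :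
    ∃ k : ℕ, ∃ t : ℂ, t ≠ 0 ∧ ((∑ p, cr (y p) * an (x p)) ^ k) (ee D) =
      t • ee (mvd x y D (univ.filter (fun p => x p ∈ D))) := by
  set R := univ.filter (fun p => x p ∈ D) with hR
  obtain ⟨t, ht, h1⟩ := sum_pair_pow hxy hx hy D R (by
    intro p hp
    rw [hR, mem_filter] at hp
    exact ⟨hp.2, hD p⟩)
  refine ⟨R.card, t, ht, ?_⟩
  rw [← h1]
  set A := ∑ p ∈ R, cr (y p) * an (x p) with hA
  set C := ∑ p ∈ univ \ R, cr (y p) * an (x p) with hC
  have hAC : ∑ p, cr (y p) * an (x p) = A + C := by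
    rw [hA, hC, add_comm, Finset.sum_sdiff (subset_univ R)]
  have hcomm : Commute C A := by
    rw [hA, hC]
    exact Commute.sum_left _ _ _ (fun p _ => Commute.sum_right _ _ _
      (fun q _ => pair_comm hxy p q))
  have hCv : C (ee D) = 0 := by
    rw [hC, LinearMap.sum_apply]
    refine Finset.sum_eq_zero fun p hp => pair_ee_of_notMem ?_
    rw [mem_sdiff, hR, mem_filter] at hp
    exact fun h => hp.2 ⟨mem_univ _, h⟩
  rw [hAC]
  have key : ∀ m : ℕ, ((A + C) ^ m) (ee D) = (A ^ m) (ee D) := by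
    intro m
    induction m with
    | zero => simp
    | succ m ihm =>
      rw [pow_succ', Module.End.mul_apply, ihm, LinearMap.add_apply, ← Module.End.mul_apply C,
        (hcomm.pow_right m).eq, Module.End.mul_apply, hCv, map_zero, add_zero, pow_succ',
        Module.End.mul_apply]
  exact key _

end pairs

variable {B P : Type} [Fintype B] [DecidableEq B] [Fintype P] [DecidableEq P] {m : ℕ}
  (s : SlotData B P m)

/-- move the boxes: every box `b i p ∈ D` is replaced by `b (σ i) p` -/
def SlotData.move (σ : Fin m → Fin m) (D : Finset B) : Finset B :=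
  D.filter (fun x => ∀ i p, s.b i p ≠ x) ∪
    (univ.filter (fun ip : Fin m × P => s.b ip.1 ip.2 ∈ D)).image (fun ip => s.b (σ ip.1) ip.2)

omit [Fintype B] in
lemma SlotData.mem_move {σ : Fin m → Fin m} {D : Finset B} {x : B} :
    x ∈ s.move σ D ↔ (x ∈ D ∧ ∀ i p, s.b i p ≠ x) ∨ ∃ i p, s.b i p ∈ D ∧ s.b (σ i) p = x := by
  unfold SlotData.move
  rw [mem_union, mem_filter, mem_image]
  constructor
  · rintro (h | ⟨⟨i, p⟩, h1, h2⟩)
    · exact Or.inl h
    · rw [mem_filter] at h1
      exact Or.inr ⟨i, p, h1.2, h2⟩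
  · rintro (h | ⟨i, p, h1, h2⟩)
    · exact Or.inl h
    · exact Or.inr ⟨(i, p), mem_filter.2 ⟨mem_univ _, h1⟩, h2⟩

omit [Fintype B] in
lemma SlotData.b_mem_move {σ : Fin m → Fin m} {D : Finset B} {j : Fin m} {p : P} :
    s.b j p ∈ s.move σ D ↔ ∃ i, s.b i p ∈ D ∧ σ i = j := by
  rw [s.mem_move]
  constructor
  · rintro (⟨_, h⟩ | ⟨i, q, h1, h2⟩)
    · exact absurd rfl (h j p)
    · obtain ⟨h3, rfl⟩ := s.inj _ _ _ _ h2
      exact ⟨i, h1, h3⟩
  · rintro ⟨i, h1, rfl⟩
    exact Or.inr ⟨i, p, h1, rfl⟩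

omit [Fintype B] in
lemma SlotData.move_ext {D D' : Finset B} (h1 : ∀ x, (∀ i p, s.b i p ≠ x) → (x ∈ D ↔ x ∈ D'))
    (h2 : ∀ i p, s.b i p ∈ D ↔ s.b i p ∈ D') : D = D' := by
  ext x
  by_cases hx : ∃ i p, s.b i p = x
  · obtain ⟨i, p, rfl⟩ := hx
    exact h2 i p
  · push Not at hx
    exact h1 x hx

omit [Fintype B] in
lemma SlotData.mem_move_of_ne {σ : Fin m → Fin m} {D : Finset B} {x : B}
    (hx : ∀ i p, s.b i p ≠ x) : x ∈ s.move σ D ↔ x ∈ D := by
  rw [s.mem_move]
  constructor
  · rintro (⟨h, _⟩ | ⟨i, p, _, h2⟩)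
    · exact h
    · exact absurd h2 (hx _ _)
  · intro h
    exact Or.inl ⟨h, hx⟩

omit [Fintype B] in
lemma SlotData.move_move (σ τ : Fin m → Fin m) (D : Finset B) :
    s.move σ (s.move τ D) = s.move (σ ∘ τ) D := by
  apply s.move_ext
  · intro x hx
    rw [s.mem_move_of_ne hx, s.mem_move_of_ne hx, s.mem_move_of_ne hx]
  · intro j p
    rw [s.b_mem_move, s.b_mem_move]
    constructor
    · rintro ⟨i, h1, rfl⟩
      obtain ⟨k, h2, rfl⟩ := s.b_mem_move.1 h1
      exact ⟨k, h2, rfl⟩
    · rintro ⟨i, h1, rfl⟩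
      exact ⟨τ i, s.b_mem_move.2 ⟨i, h1, rfl⟩, rfl⟩

omit [Fintype B] in
lemma SlotData.move_congr {σ τ : Fin m → Fin m} {D : Finset B}
    (h : ∀ i p, s.b i p ∈ D → σ i = τ i) : s.move σ D = s.move τ D := by
  apply s.move_ext
  · intro x hx
    rw [s.mem_move_of_ne hx, s.mem_move_of_ne hx]
  · intro j p
    rw [s.b_mem_move, s.b_mem_move]
    constructor
    · rintro ⟨i, h1, rfl⟩
      exact ⟨i, h1, (h i p h1).symm⟩
    · rintro ⟨i, h1, rfl⟩
      exact ⟨i, h1, h i p h1⟩

omit [Fintype B] in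
lemma SlotData.move_id (D : Finset B) : s.move id D = D := by
  apply s.move_ext
  · intro x hx
    rw [s.mem_move_of_ne hx]
  · intro j p
    rw [s.b_mem_move]
    simp

theorem ee_wt (D : Finset B) : (fockRep s).π (s.deg D) (Kost.ee D) = Kost.ee D := by
  change (degGr s.deg : Grading ℂ (Kost.Fock B) (Wt m)).π (s.deg D) (Kost.ee D) = _
  rw [degGr_π, if_pos rfl]

omit [Fintype B] in
/-- `mvd` for the boxes of index `lo`, `hi` is `move` with the transposition -/
lemma mvd_eq_move {i j : Fin m} (hij : i ≠ j) {D : Finset B} (hD : ∀ p, s.b j p ∉ D) :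
    mvd (s.b i) (s.b j) D (univ.filter (fun p => s.b i p ∈ D)) = s.move (Equiv.swap i j) D := by
  apply s.move_ext
  · intro x hx
    rw [s.mem_move_of_ne hx, mem_mvd]
    constructor
    · rintro (h | ⟨p, _, h⟩)
      · exact h.1
      · exact absurd h (hx _ _)
    · intro h
      exact Or.inl ⟨h, fun p _ => hx i p⟩
  · intro k p
    rw [s.b_mem_move, mem_mvd]
    constructor
    · rintro (⟨h1, h2⟩ | ⟨q, hq, h⟩)
      · have hki : k ≠ i := by
          rintro rfl
          exact h2 p (mem_filter.2 ⟨mem_univ _, h1⟩) rfl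
        have hkj : k ≠ j := by
          rintro rfl
          exact hD p h1
        exact ⟨k, h1, Equiv.swap_apply_of_ne_of_ne hki hkj⟩
      · obtain ⟨rfl, rfl⟩ := s.inj _ _ _ _ h
        rw [mem_filter] at hq
        exact ⟨i, hq.2, Equiv.swap_apply_left _ _⟩
    · rintro ⟨l, h1, rfl⟩
      by_cases hli : l = i
      · subst hli
        rw [Equiv.swap_apply_left]
        exact Or.inr ⟨p, mem_filter.2 ⟨mem_univ _, h1⟩, rfl⟩
      · have hlj : l ≠ j := by
          rintro rfl
          exact hD p h1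
        rw [Equiv.swap_apply_of_ne_of_ne hli hlj]
        refine Or.inl ⟨h1, fun q _ h => ?_⟩
        exact hli (s.inj _ _ _ _ h).1.symm

/-- a power of `E i j` moves all boxes of index `i` to the index `j` -/
lemma E_pow_ee {i j : Fin m} (hij : i ≠ j) {D : Finset B} (hD : ∀ p, s.b j p ∉ D) :
    ∃ k : ℕ, ∃ t : ℂ, t ≠ 0 ∧ (((fockRep s).E i j) ^ k) (Kost.ee D) =
      t • Kost.ee (s.move (Equiv.swap i j) D) := by
  rw [← mvd_eq_move s hij hD]
  exact pair_pow (x := s.b i) (y := s.b j) (fun p q h => hij (s.inj _ _ _ _ h).1)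
    (fun p q h => (s.inj _ _ _ _ h).2) (fun p q h => (s.inj _ _ _ _ h).2) D hD

theorem T_gen_shift (c : ℕ) (h : c + 1 < m) (D : Finset B) (hD : ∀ p, s.b (hi c h) p ∉ D) :
    (fockRep s).T c (gen (fockRep s).bops (Kost.ee D)) =
      gen (fockRep s).bops (Kost.ee (s.move (Equiv.swap (lo c h) (hi c h)) D)) := by
  set ρ := fockRep s with hρ
  set D' := s.move (Equiv.swap (lo c h) (hi c h)) D with hD'
  have hlh : lo c h ≠ hi c h := by
    intro h1
    have := congrArg Fin.val h1
    simp at this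
  have hlt : lo c h < hi c h := by
    rw [Fin.lt_def]
    exact Nat.lt_succ_self c
  have hD'lo : ∀ p, s.b (lo c h) p ∉ D' := by
    intro p hp
    rw [hD', s.b_mem_move] at hp
    obtain ⟨i, h1, h2⟩ := hp
    have h3 : i = hi c h := by
      rw [Equiv.swap_apply_eq_iff, Equiv.swap_apply_left] at h2
      exact h2
    rw [h3] at h1
    exact hD p h1
  apply le_antisymm
  · apply ρ.T_le
    · refine gen_le ?_ (fun T hT x hx => gen_stable hT hx)
      obtain ⟨k, t, ht, h1⟩ := E_pow_ee s hlh.symm hD'lo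
      have h2 : s.move (Equiv.swap (hi c h) (lo c h)) D' = D := by
        rw [hD', s.move_move]
        have h3 : (Equiv.swap (hi c h) (lo c h) : Fin m → Fin m) ∘
            (Equiv.swap (lo c h) (hi c h)) = id := by
          funext i
          rw [Function.comp_apply, Equiv.swap_comm, Equiv.swap_apply_self]
          rfl
        rw [h3, s.move_id]
      rw [h2] at h1
      have hmem : ρ.E (hi c h) (lo c h) ∈ ρ.bops := ⟨_, _, hlt, rfl⟩
      have h4 : ∀ k : ℕ, ((ρ.E (hi c h) (lo c h)) ^ k) (Kost.ee D') ∈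
          gen ρ.bops (Kost.ee D') := by
        intro k
        induction k with
        | zero => exact self_mem_gen _ _
        | succ k ih =>
          rw [pow_succ', Module.End.mul_apply]
          exact gen_stable hmem ih
      have h5 := h4 k
      rw [h1] at h5
      have h6 := Submodule.smul_mem _ t⁻¹ h5
      rwa [smul_smul, inv_mul_cancel₀ ht, one_smul] at h6
    · apply gen_f_stable ρ (ee_wt s D') c
      rw [GLRep.f, dif_pos h]
      change (∑ p, Kost.cr (s.b (hi c h) p) * Kost.an (s.b (lo c h) p)) (Kost.ee D') = 0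
      rw [LinearMap.sum_apply]
      exact Finset.sum_eq_zero fun p _ => pair_ee_of_notMem (hD'lo p)
  · have hB := ρ.BSt_T (gen_BSt ρ (ee_wt s D)) c
    refine gen_le ?_ ?_
    · obtain ⟨k, t, ht, h1⟩ := E_pow_ee s hlh hD
      have h2 : ((ρ.f c) ^ k) (Kost.ee D) ∈ ρ.T c (gen ρ.bops (Kost.ee D)) := by
        have h3 : ∀ k : ℕ, ((ρ.f c) ^ k) (Kost.ee D) ∈ ρ.T c (gen ρ.bops (Kost.ee D)) := by
          intro k
          induction k with
          | zero => exact ρ.le_T c _ (self_mem_gen _ _)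
          | succ k ih =>
            rw [pow_succ', Module.End.mul_apply]
            exact ρ.f_mem_T ih
        exact h3 k
      rw [GLRep.f, dif_pos h, h1] at h2
      have h6 := Submodule.smul_mem _ t⁻¹ h2
      rwa [smul_smul, inv_mul_cancel₀ ht, one_smul] at h6
    · rintro T ⟨i, j, hij, rfl⟩ x hx
      exact hB.e i j hij x hx

/-- the index map of an insertion at `t` -/
def shiftIx (m t r : ℕ) (i : Fin m) : Fin m :=
  if h : t ≤ i.val ∧ i.val < t + r ∧ i.val + 1 < m then ⟨i.val + 1, h.2.2⟩ else i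

lemma run_append {K V : Type*} [Field K] [AddCommGroup V] [Module K V] {ρ : GLRep K V m}
    {P' : Type*} [DecidableEq P'] (tw : P' → Tw ρ) (Bs : Finset P') (L L' : List (Ins P'))
    (Z : Submodule K V) : run tw Bs (L ++ L') Z = run tw Bs L (run tw Bs L' Z) := by
  induction L with
  | nil => rfl
  | cons a L ih =>
    cases a with
    | T c => simp only [List.cons_append, run, ih]
    | tw p t => simp only [List.cons_append, run, ih]

theorem T_gen_shifts (P' : Type*) [DecidableEq P'] (tw : P' → Tw (fockRep s)) (Bs : Finset P')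
    (t r : ℕ) (htr : t + r < m) (D : Finset B) (hD : ∀ i : Fin m, i.val = t + r → ∀ p, s.b i p ∉ D) :
    run tw Bs ((List.range r).map (fun i => (Ins.T (t + i) : Ins P')))
      (gen (fockRep s).bops (Kost.ee D)) =
      gen (fockRep s).bops (Kost.ee (s.move (shiftIx m t r) D)) := by
  induction r generalizing D with
  | zero =>
    have h1 : s.move (shiftIx m t 0) D = D := by
      have h2 : shiftIx m t 0 = id := by
        funext i
        unfold shiftIx
        rw [dif_neg]
        · rfl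
        · omega
      rw [h2, s.move_id]
    rw [h1]
    rfl
  | succ r ih =>
    rw [List.range_succ, List.map_append, run_append]
    have h1 : t + r + 1 < m := by omega
    change run tw Bs ((List.range r).map (fun i => (Ins.T (t + i) : Ins P')))
      ((fockRep s).T (t + r) (gen (fockRep s).bops (Kost.ee D))) = _
    rw [T_gen_shift s (t + r) h1 D (hD _ rfl), ih (by omega), s.move_move]
    · congr 2
      apply s.move_congr
      intro i p hip
      have hi1 : i.val ≠ t + (r + 1) := fun h => hD i h p hip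
      rw [Function.comp_apply]
      by_cases h2 : i = lo (t + r) h1
      · subst h2
        rw [Equiv.swap_apply_left]
        unfold shiftIx
        rw [dif_neg, dif_pos]
        · refine ⟨?_, ?_, h1⟩
          · change t ≤ t + r; omega
          · change t + r < t + (r + 1); omega
        · change ¬ (t ≤ t + r + 1 ∧ t + r + 1 < t + r ∧ _)
          omega
      · have h3 : i ≠ hi (t + r) h1 := by
          intro h
          apply hi1
          rw [h]
          change t + r + 1 = t + (r + 1)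
          omega
        rw [Equiv.swap_apply_of_ne_of_ne h2 h3]
        have h4 : i.val ≠ t + r := by
          intro h
          exact h2 (Fin.ext h)
        unfold shiftIx
        by_cases h5 : t ≤ i.val ∧ i.val < t + r ∧ i.val + 1 < m
        · rw [dif_pos h5, dif_pos]
          exact ⟨h5.1, by omega, h5.2.2⟩
        · rw [dif_neg h5, dif_neg]
          omega
    · intro i hi p hp
      rw [s.b_mem_move] at hp
      obtain ⟨k, h2, h3⟩ := hp
      have h4 : i = lo (t + r) h1 := Fin.ext hi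
      rw [h4, Equiv.swap_apply_eq_iff, Equiv.swap_apply_left] at h3
      rw [h3] at h2
      exact hD _ rfl p h2

/-! ### twists -/

/-- creation of a list of boxes -/
lemma crL_ee {L : List B} (hL : L.Nodup) {D : Finset B} (hD : ∀ x ∈ L, x ∉ D) :
    ∃ t : ℂ, t ≠ 0 ∧ crL L (Kost.ee D) = t • Kost.ee (D ∪ L.toFinset) := by
  induction L with
  | nil =>
    refine ⟨1, one_ne_zero, ?_⟩
    simp [crL]
  | cons a L ih =>
    rw [List.nodup_cons] at hL
    obtain ⟨t, ht, h1⟩ := ih hL.2 (fun x hx => hD x (List.mem_cons_of_mem _ hx))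
    have h2 : crL (a :: L) = Kost.cr a * crL L := by
      simp [crL]
    have h3 : a ∉ D ∪ L.toFinset := by
      rw [mem_union, List.mem_toFinset]
      rintro (h | h)
      · exact hD a List.mem_cons_self h
      · exact hL.1 h
    refine ⟨t * Kost.sgn a (D ∪ L.toFinset), mul_ne_zero ht (sgn_ne_zero _ _), ?_⟩
    rw [h2, Module.End.mul_apply, h1, map_smul, Kost.cr_ee, if_neg h3, smul_smul]
    congr 2
    rw [List.toFinset_cons, Finset.union_insert]

theorem twist_gen (p : P) (t : ℕ) (D : Finset B) (hD : Disjoint D (s.Sl p)) :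
    (fockTw s p).twist t (gen (fockRep s).bops (Kost.ee D)) =
      gen (fockRep s).bops (Kost.ee (D ∪ (s.boxes p (ini m t)).toFinset)) := by
  set ρ := fockRep s with hρ
  set τ := fockTw s p with hτ
  set l := ini m t with hl
  set D' := D ∪ (s.boxes p l).toFinset with hD'
  have hV : Kost.ee D ∈ τ.V' := by
    refine ⟨Kost.ee D, ?_⟩
    rw [dia_ee, if_pos hD]
  obtain ⟨a, ha, h1⟩ := crL_ee (s.boxes_nodup p l) (D := D) (fun x hx h =>
    (Finset.disjoint_left.1 hD) h (s.boxes_Sl hx))
  have hins : τ.ins l (Kost.ee D) = a • Kost.ee D' := h1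
  have hcomm : ∀ c, ∀ z ∈ τ.V', ρ.e c (τ.ins l z) = τ.ins l (ρ.e c z) := by
    intro c z hz
    by_cases hc : c + 1 < m
    · rw [τ.e_ins c hc l z hz, if_neg, zero_add]
      rintro ⟨h2, h3⟩
      apply h3
      rw [hl, ini, mem_filter] at h2 ⊢
      refine ⟨mem_univ _, ?_⟩
      have h4 : (hi c hc).val < t := h2.2
      change c < t
      change c + 1 < t at h4
      omega
    · rw [GLRep.e, dif_neg hc]
      simp
  have hVe : ∀ c, ∀ z ∈ τ.V', ρ.e c z ∈ τ.V' := by
    intro c z hz
    by_cases hc : c + 1 < m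
    · rw [GLRep.e, dif_pos hc]
      exact τ.stE _ _ z hz
    · rw [GLRep.e, dif_neg hc]
      exact τ.V'.zero_mem
  have hB := gen_BSt ρ (ee_wt s D)
  have hB' := gen_BSt ρ (ee_wt s D')
  have hgV : gen ρ.bops (Kost.ee D) ≤ τ.V' := by
    refine gen_le hV ?_
    rintro T ⟨i, j, _, rfl⟩ x hx
    exact τ.stE i j x hx
  apply le_antisymm
  · have hY : ρ.BSt (τ.V' ⊓ (gen ρ.bops (Kost.ee D')).comap (τ.ins l)) := by
      refine ρ.BSt_of_simple ?_ ?_
      · rintro ν x ⟨hx1, hx2⟩
        refine ⟨τ.st ν x hx1, ?_⟩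
        rw [SetLike.mem_coe, Submodule.mem_comap] at hx2 ⊢
        have h2 := τ.pr_ins l (ν + wtS l) x hx1
        rw [add_sub_cancel_right] at h2
        rw [← h2]
        exact hB'.st _ _ hx2
      · rintro d y ⟨hy1, hy2⟩
        refine ⟨hVe d y hy1, ?_⟩
        rw [SetLike.mem_coe, Submodule.mem_comap] at hy2 ⊢
        rw [← hcomm d y hy1]
        exact hB'.e_mem d hy2
    have hle : gen ρ.bops (Kost.ee D) ≤
        τ.V' ⊓ (gen ρ.bops (Kost.ee D')).comap (τ.ins l) := by
      refine gen_le ⟨hV, ?_⟩ ?_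
      · rw [SetLike.mem_coe, Submodule.mem_comap, hins]
        exact Submodule.smul_mem _ _ (self_mem_gen _ _)
      · rintro T ⟨i, j, hij, rfl⟩ x hx
        exact hY.e i j hij x hx
    rintro _ ⟨z, hz, rfl⟩
    exact (hle hz).2
  · have hY : ρ.BSt ((gen ρ.bops (Kost.ee D)).map (τ.ins l)) := by
      refine ρ.BSt_of_simple ?_ ?_
      · rintro ν _ ⟨z, hz, rfl⟩
        rw [τ.pr_ins l ν z (hgV hz)]
        exact ⟨_, hB.st _ _ hz, rfl⟩
      · rintro d _ ⟨z, hz, rfl⟩
        rw [hcomm d z (hgV hz)]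
        exact ⟨_, hB.e_mem d hz, rfl⟩
    refine gen_le ?_ ?_
    · have h2 : a • Kost.ee D' ∈ (gen ρ.bops (Kost.ee D)).map (τ.ins l) :=
        ⟨Kost.ee D, self_mem_gen _ _, hins⟩
      have h6 := Submodule.smul_mem _ a⁻¹ h2
      rwa [smul_smul, inv_mul_cancel₀ ha, one_smul] at h6
    · rintro T ⟨i, j, hij, rfl⟩ x hx
      exact hY.e i j hij x hx

end

end Gao
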