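import Mathlib
import Pool.Agent.Gao.FockGen

/-!
# Gao project: the modules `Mmod`, `Nmod` are runs of programs (MODULE Build, about 350 lines; A-side / J-side may be split)

* `prog_rec`: for `L = α ++ a :: β` without repetition and `v a` smaller than all other values:
  `prog v g adj L = tw a (t - adj a) :: (T t … T (t+r-1) if g a) ++ prog v g adj (α ++ β)`.
* A-side, induction on the list `L` (a sublist of `LA w J` in position order containing with a letter all larger letters of `LA w J`;
  or simply: any list `L` of different letters ordered by position): with `rank_L x = #{x' ∈ L ∩ S : pos x' < pos x}`,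
  `run B (prog L) (span vac) = gen bops (ee (St L))`,
  `St L = {b (rank_L x) y : x ∈ L ∩ S, y ∈ L ∩ B, y < x, pos x < pos y} ∪ {(x, pos y) : x ∈ Q \ S, y ∈ L ∩ B, y < x, pos x < pos y}`.
  Step: `L = α ++ a :: β`, `a` smallest, `t = #(α ∩ S)`, `r = #(β ∩ S)`.  If `a ∈ S`: `rank_L x = rank_{αβ} x` for `x` left of `a`, `+1` for `x` right of
  `a`: `T_gen_shifts` (needs `t + r < m = |S|`: `a ∈ S` is a further letter).  Then, if `a ∈ B`, `twist_gen`: `St L` gets in the slot `a` the boxes
  `b i a`, `i < t` (the letters of `α ∩ S`, all larger than `a` and left of `a`) and `inr a`.  Letters `x` of `L` with boxes in row x: row `a` itself is empty.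
  At the end `L = LA w J ⊇ S`: `gA (rank x) = x`, so `St = Dset w Q (positions in J of the letters of B)`.
* J-side in the same way: list from right to left, values reversed (process: largest letter outermost); all letters are indices;
  `rank_L j` = number of columns of `L` to the right of `j`; the row `x ∈ A` gets at its insertion the columns of index `< t - adj x`, `t` = number of
  letters `y < x` to the right of `x`, i.e. all of them except the `adj x` leftmost ones.
* the operators: `bops` of `fockRep (dataA w Q S)` is `rowOps w S` (`dataA_E`, `gA` is increasing in position and onto `S`),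
  `bops` of `fockRep (dataJ J)` is `colOps J`.
-/

namespace Gao

open Finset Module

noncomputable section

theorem prog_nil {τ : Type*} [DecidableEq τ] (v : τ → ℕ) (g : τ → Bool) (adj : τ → ℕ) :
    prog v g adj [] = [] := rfl

theorem prog_rec {τ : Type*} [DecidableEq τ] (v : τ → ℕ) (g : τ → Bool) (adj : τ → ℕ)
    (α β : List τ) (a : τ) (hα : ∀ x ∈ α, v a < v x) (hβ : ∀ x ∈ β, v a < v x) :
    prog v g adj (α ++ a :: β) = Ins.tw a (α.countP g - adj a) ::
      ((if g a then (List.range (β.countP g)).map (fun i => Ins.T (α.countP g + i)) else []) ++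
        prog v g adj (α ++ β)) := by
  have h1 : ∀ x ∈ α, decide (x ≠ a) = true := by
    intro x hx
    simp only [ne_eq, decide_not, Bool.not_eq_eq_eq_not, Bool.not_true, decide_eq_false_iff_not]
    rintro rfl
    exact lt_irrefl _ (hα _ hx)
  have ht : (α ++ a :: β).takeWhile (fun x => decide (x ≠ a)) = α := by
    rw [List.takeWhile_append_of_pos h1, List.takeWhile_cons_of_neg (by simp), List.append_nil]
  have hd : (α ++ a :: β).dropWhile (fun x => decide (x ≠ a)) = a :: β := by
    rw [List.dropWhile_append_of_pos h1, List.dropWhile_cons_of_neg (by simp)]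
  have hm : (α ++ a :: β).argmin v = some a := by
    rw [List.argmin_eq_some_iff]
    have h0 : ∀ x ∈ α ++ a :: β, x = a ∨ v a < v x := by
      intro x hx
      rw [List.mem_append, List.mem_cons] at hx
      rcases hx with hx | hx | hx
      · exact Or.inr (hα x hx)
      · exact Or.inl hx
      · exact Or.inr (hβ x hx)
    refine ⟨by simp, fun x hx => ?_, fun x hx hle => ?_⟩
    · rcases h0 x hx with rfl | h
      · exact le_rfl
      · exact h.le
    · rcases h0 x hx with rfl | h
      · exact le_rfl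
      · exact absurd h (not_lt.2 hle)
  have hl : (α ++ a :: β).length = (α ++ β).length + 1 := by
    simp only [List.length_append, List.length_cons]; omega
  unfold prog
  rw [hl, progN, hm]
  simp only [ht, hd, List.tail_cons]


namespace Bld

/-! ### lists ordered by position -/

section lists
variable {P : Type} (v pos : P → ℕ) (g : P → Bool)

/-- number of moving letters of `L` standing before `x` -/
def rkL (L : List P) (x : P) : ℕ := L.countP (fun z => g z && decide (pos z < pos x))

/-- number of moving letters of `L` with value larger than that of `y`, standing before `x` -/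
def cntL (L : List P) (y x : P) : ℕ :=
  L.countP (fun z => (g z && decide (pos z < pos x)) && decide (v y < v z))

variable {v pos g}

lemma countP_lt_of_mem {L : List P} {x : P} (hx : x ∈ L) (hg : g x = true) :
    L.countP (fun z => g z && decide (pos z < pos x)) < L.countP g := by
  obtain ⟨γ, δ, rfl⟩ := List.append_of_mem hx
  have h1 : γ.countP (fun z => g z && decide (pos z < pos x)) ≤ γ.countP g :=
    List.countP_mono_left (fun z _ h => by simp only [Bool.and_eq_true] at h; exact h.1)
  have h2 : δ.countP (fun z => g z && decide (pos z < pos x)) ≤ δ.countP g :=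
    List.countP_mono_left (fun z _ h => by simp only [Bool.and_eq_true] at h; exact h.1)
  rw [List.countP_append, List.countP_append, List.countP_cons_of_pos hg,
    List.countP_cons_of_neg (by simp)]
  omega

lemma countP_before {L : List P} {x : P} (h : ∀ z ∈ L, pos z < pos x) :
    L.countP (fun z => g z && decide (pos z < pos x)) = L.countP g := by
  apply List.countP_congr
  intro z hz
  simp [h z hz]

lemma countP_after {L : List P} {x : P} (h : ∀ z ∈ L, pos x ≤ pos z) :
    L.countP (fun z => g z && decide (pos z < pos x)) = 0 := by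
  rw [List.countP_eq_zero]
  intro z hz
  simp [h z hz]

lemma rkL_append (L L' : List P) (x : P) :
    rkL pos g (L ++ L') x = rkL pos g L x + rkL pos g L' x := List.countP_append

lemma rkL_cons (a : P) (L : List P) (x : P) :
    rkL pos g (a :: L) x = rkL pos g L x + if g a = true ∧ pos a < pos x then 1 else 0 := by
  simp only [rkL, List.countP_cons, Bool.and_eq_true, decide_eq_true_eq]

lemma cntL_append (L L' : List P) (y x : P) :
    cntL v pos g (L ++ L') y x = cntL v pos g L y x + cntL v pos g L' y x := List.countP_append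

lemma cntL_cons (a : P) (L : List P) (y x : P) :
    cntL v pos g (a :: L) y x = cntL v pos g L y x +
      if (g a = true ∧ pos a < pos x) ∧ v y < v a then 1 else 0 := by
  simp only [cntL, List.countP_cons, Bool.and_eq_true, decide_eq_true_eq]

/-- the element of rank `i` -/
lemma exists_rank {L : List P} {i : ℕ} (hi : i < L.countP g) :
    ∃ γ x δ, L = γ ++ x :: δ ∧ g x = true ∧ γ.countP g = i := by
  induction L generalizing i with
  | nil => simp at hi
  | cons a L ih =>
    by_cases hg : g a = true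
    · rw [List.countP_cons_of_pos hg] at hi
      rcases Nat.eq_zero_or_pos i with h0 | h0
      · exact ⟨[], a, L, rfl, hg, by simp [h0]⟩
      · obtain ⟨γ, x, δ, h1, h2, h3⟩ := ih (i := i - 1) (by omega)
        refine ⟨a :: γ, x, δ, by rw [h1]; rfl, h2, ?_⟩
        rw [List.countP_cons_of_pos hg, h3]
        omega
    · rw [List.countP_cons_of_neg hg] at hi
      obtain ⟨γ, x, δ, h1, h2, h3⟩ := ih hi
      refine ⟨a :: γ, x, δ, by rw [h1]; rfl, h2, ?_⟩
      rw [List.countP_cons_of_neg hg, h3]

variable {m : ℕ} {α β : List P} {a : P}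

lemma pw_left (hp : (α ++ a :: β).Pairwise (fun x y => pos x < pos y)) :
    (∀ z ∈ α, pos z < pos a) ∧ (∀ z ∈ β, pos a < pos z) ∧ (∀ z ∈ α, ∀ u ∈ β, pos z < pos u) := by
  rw [List.pairwise_append, List.pairwise_cons] at hp
  exact ⟨fun z hz => hp.2.2 z hz a (by simp), hp.2.1.1,
    fun z hz u hu => hp.2.2 z hz u (by simp [hu])⟩

lemma rank_left (hp : (α ++ a :: β).Pairwise (fun x y => pos x < pos y)) {x : P} (hx : x ∈ α)
    (hg : g x = true) : rkL pos g (α ++ β) x < α.countP g ∧
      rkL pos g (α ++ a :: β) x = rkL pos g (α ++ β) x := by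
  obtain ⟨h1, h2, h3⟩ := pw_left hp
  have e1 : rkL pos g β x = 0 := countP_after (fun z hz => (h3 x hx z hz).le)
  have e2 : rkL pos g α x < α.countP g := countP_lt_of_mem hx hg
  refine ⟨?_, ?_⟩
  · rw [rkL_append, e1, add_zero]
    exact e2
  · rw [rkL_append, rkL_append, rkL_cons, if_neg (fun h => lt_asymm h.2 (h1 x hx)), add_zero]

lemma rank_right (hp : (α ++ a :: β).Pairwise (fun x y => pos x < pos y)) {x : P} (hx : x ∈ β)
    (hg : g x = true) : α.countP g ≤ rkL pos g (α ++ β) x ∧
      rkL pos g (α ++ β) x < α.countP g + β.countP g ∧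
      rkL pos g (α ++ a :: β) x = rkL pos g (α ++ β) x + if g a = true then 1 else 0 := by
  obtain ⟨h1, h2, h3⟩ := pw_left hp
  have e1 : rkL pos g α x = α.countP g := countP_before (fun z hz => h3 z hz x hx)
  have e2 : rkL pos g β x < β.countP g := countP_lt_of_mem hx hg
  refine ⟨?_, ?_, ?_⟩
  · rw [rkL_append, e1]; omega
  · rw [rkL_append, e1]; omega
  · rw [rkL_append, rkL_append, rkL_cons, ← add_assoc]
    congr 1
    simp only [h2 x hx, and_true]

end lists

/-! ### the box sets of the runs -/

section St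
variable {B P : Type} [Fintype B] [DecidableEq B] [Fintype P] [DecidableEq P] {m : ℕ}
  (s : SlotData B P m) (v pos : P → ℕ) (g : P → Bool) (adj : P → ℕ)

/-- the box of index `i` in the slot `p` is present -/
def IsSt (L : List P) (Y : Finset P) (i : Fin m) (p : P) : Prop :=
  p ∈ Y ∧ ∃ x ∈ L, g x = true ∧ v p < v x ∧ pos x < pos p ∧
    cntL v pos g L p x + adj p < cntL v pos g L p p ∧ i.val = rkL pos g L x

open Classical in
/-- the boxes of a run -/
def StM (L : List P) (Y : Finset P) : Finset B :=
  univ.filter (fun z => (∃ y ∈ Y, z ∈ s.inr y) ∨ ∃ i p, IsSt v pos g adj L Y i p ∧ s.b i p = z)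

variable {s v pos g adj}

lemma mem_StM {L : List P} {Y : Finset P} {z : B} : z ∈ StM s v pos g adj L Y ↔
    (∃ y ∈ Y, z ∈ s.inr y) ∨ ∃ i p, IsSt v pos g adj L Y i p ∧ s.b i p = z := by
  simp only [StM, mem_filter, mem_univ, true_and]

lemma b_notMem_inr (i : Fin m) (p y : P) : s.b i p ∉ s.inr y := by
  intro h
  by_cases hpy : p = y
  · subst hpy
    exact s.b_inr i p h
  · exact Finset.disjoint_left.1 (s.disj p y hpy) (s.b_mem i p) (s.inr_mem y _ h)

lemma b_mem_StM {L : List P} {Y : Finset P} {i : Fin m} {p : P} :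
    s.b i p ∈ StM s v pos g adj L Y ↔ IsSt v pos g adj L Y i p := by
  rw [mem_StM]
  constructor
  · rintro (⟨y, _, h⟩ | ⟨i', p', h, e⟩)
    · exact absurd h (b_notMem_inr i p y)
    · obtain ⟨rfl, rfl⟩ := s.inj _ _ _ _ e
      exact h
  · intro h
    exact Or.inr ⟨i, p, h, rfl⟩

variable {α β : List P} {a : P}

lemma cntL_erase {p x : P} (h : v a < v p) :
    cntL v pos g (α ++ a :: β) p x = cntL v pos g (α ++ β) p x := by
  rw [cntL_append, cntL_append, cntL_cons, if_neg (fun h' => lt_asymm h'.2 h), add_zero]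

/-- erasing the smallest letter, if it is not a moving letter -/
lemma isSt_erase (hp : (α ++ a :: β).Pairwise (fun x y => pos x < pos y)) (hg : g a = false)
    {Y : Finset P} (hY : ∀ p ∈ Y, v a < v p) (i : Fin m) (p : P) :
    IsSt v pos g adj (α ++ a :: β) Y i p ↔ IsSt v pos g adj (α ++ β) Y i p := by
  have key : ∀ x, g x = true → (x ∈ α ++ a :: β ↔ x ∈ α ++ β) := by
    intro x hx
    have : x ≠ a := by rintro rfl; rw [hg] at hx; exact Bool.noConfusion hx
    simp [this]
  have key2 : ∀ x ∈ α ++ β, g x = true →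
      rkL pos g (α ++ a :: β) x = rkL pos g (α ++ β) x := by
    intro x hx hgx
    rcases List.mem_append.1 hx with h | h
    · exact (rank_left hp h hgx).2
    · rw [(rank_right hp h hgx).2.2, hg]
      simp
  unfold IsSt
  constructor
  · rintro ⟨h1, x, hx, hgx, h2, h3, h4, h5⟩
    rw [key x hgx] at hx
    rw [cntL_erase (hY p h1), cntL_erase (hY p h1)] at h4
    rw [key2 x hx hgx] at h5
    exact ⟨h1, x, hx, hgx, h2, h3, h4, h5⟩
  · rintro ⟨h1, x, hx, hgx, h2, h3, h4, h5⟩
    refine ⟨h1, x, (key x hgx).2 hx, hgx, h2, h3, ?_, ?_⟩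
    · rw [cntL_erase (hY p h1), cntL_erase (hY p h1)]
      exact h4
    · rw [key2 x hx hgx]
      exact h5

lemma shift_val (hp : (α ++ a :: β).Pairwise (fun x y => pos x < pos y)) (hg : g a = true)
    (hm : α.countP g + β.countP g < m) {x : P} (hx : x ∈ α ++ β) (hgx : g x = true) {i : Fin m}
    (hi : i.val = rkL pos g (α ++ β) x) :
    (shiftIx m (α.countP g) (β.countP g) i).val = rkL pos g (α ++ a :: β) x := by
  unfold shiftIx
  rcases List.mem_append.1 hx with h | h
  · obtain ⟨h1, h2⟩ := rank_left hp h hgx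
    rw [dif_neg (by omega), h2, hi]
  · obtain ⟨h1, h2, h3⟩ := rank_right hp h hgx
    rw [dif_pos (by omega), h3, if_pos hg]
    simp only [hi]

/-- erasing the smallest letter, if it is a moving letter -/
lemma isSt_shift (hp : (α ++ a :: β).Pairwise (fun x y => pos x < pos y)) (hg : g a = true)
    (hm : α.countP g + β.countP g < m)
    {Y : Finset P} (hY : ∀ p ∈ Y, v a < v p) (i : Fin m) (p : P) :
    IsSt v pos g adj (α ++ a :: β) Y i p ↔
      ∃ i', IsSt v pos g adj (α ++ β) Y i' p ∧ shiftIx m (α.countP g) (β.countP g) i' = i := by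
  unfold IsSt
  constructor
  · rintro ⟨h1, x, hx, hgx, h2, h3, h4, h5⟩
    have hxa : x ≠ a := by
      rintro rfl
      exact lt_asymm h2 (hY p h1)
    have hx' : x ∈ α ++ β := by
      simpa [hxa] using hx
    have hlt : rkL pos g (α ++ β) x < m := by
      have : rkL pos g (α ++ β) x < (α ++ β).countP g := countP_lt_of_mem hx' hgx
      rw [List.countP_append] at this
      omega
    refine ⟨⟨rkL pos g (α ++ β) x, hlt⟩, ⟨h1, x, hx', hgx, h2, h3, ?_, rfl⟩, ?_⟩
    · rw [cntL_erase (hY p h1), cntL_erase (hY p h1)] at h4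
      exact h4
    · apply Fin.ext
      rw [shift_val hp hg hm hx' hgx rfl, h5]
  · rintro ⟨i', ⟨h1, x, hx, hgx, h2, h3, h4, h5⟩, rfl⟩
    refine ⟨h1, x, ?_, hgx, h2, h3, ?_, shift_val hp hg hm hx hgx h5⟩
    · rw [List.mem_append] at hx
      simp only [List.mem_append, List.mem_cons]
      tauto
    · rw [cntL_erase (hY p h1), cntL_erase (hY p h1)]
      exact h4

/-- the moves -/
lemma move_StM (hp : (α ++ a :: β).Pairwise (fun x y => pos x < pos y)) (hg : g a = true)
    (hm : α.countP g + β.countP g < m) {Y : Finset P} (hY : ∀ p ∈ Y, v a < v p) :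
    s.move (shiftIx m (α.countP g) (β.countP g)) (StM s v pos g adj (α ++ β) Y) =
      StM s v pos g adj (α ++ a :: β) Y := by
  ext z
  simp only [SlotData.move, mem_union, mem_filter, mem_image, mem_univ, true_and, Prod.exists,
    b_mem_StM]
  rw [mem_StM, mem_StM]
  constructor
  · rintro (⟨h | ⟨i, p, _, h⟩, h'⟩ | ⟨i, p, h, rfl⟩)
    · exact Or.inl h
    · exact absurd h (h' i p)
    · exact Or.inr ⟨_, p, (isSt_shift hp hg hm hY _ p).2 ⟨i, h, rfl⟩, rfl⟩
  · rintro (⟨y, hy, h⟩ | ⟨i, p, h, rfl⟩)
    · refine Or.inl ⟨Or.inl ⟨y, hy, h⟩, fun i p e => ?_⟩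
      rw [← e] at h
      exact b_notMem_inr i p y h
    · obtain ⟨i', h1, rfl⟩ := (isSt_shift hp hg hm hY i p).1 h
      exact Or.inr ⟨i', p, h1, rfl⟩

lemma StM_erase (hp : (α ++ a :: β).Pairwise (fun x y => pos x < pos y)) (hg : g a = false)
    {Y : Finset P} (hY : ∀ p ∈ Y, v a < v p) :
    StM s v pos g adj (α ++ a :: β) Y = StM s v pos g adj (α ++ β) Y := by
  ext z
  rw [mem_StM, mem_StM]
  simp only [isSt_erase hp hg hY]

/-- the insertion of a slot -/
lemma isSt_insert (hp : (α ++ a :: β).Pairwise (fun x y => pos x < pos y))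
    (hα : ∀ x ∈ α, v a < v x) (Y : Finset P) (i : Fin m) (p : P) :
    IsSt v pos g adj (α ++ a :: β) (insert a Y) i p ↔
      IsSt v pos g adj (α ++ a :: β) Y i p ∨ (p = a ∧ i.val < α.countP g - adj a) := by
  obtain ⟨h1, h2, h3⟩ := pw_left hp
  -- counting the letters before `x`
  have hc : ∀ x, (∀ z ∈ β, pos x < pos z) → pos x ≤ pos a →
      cntL v pos g (α ++ a :: β) a x = rkL pos g α x ∧
      rkL pos g (α ++ a :: β) x = rkL pos g α x := by
    intro x hx hxa
    have e1 : cntL v pos g α a x = rkL pos g α x := by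
      apply List.countP_congr
      intro z hz
      simp [hα z hz]
    have e2 : rkL pos g β x = 0 := countP_after (fun z hz => (hx z hz).le)
    have e3 : cntL v pos g β a x = 0 := by
      refine Nat.le_zero.1 (le_trans (List.countP_mono_left (fun z _ h => ?_)) (le_of_eq e2))
      rw [Bool.and_eq_true] at h
      exact h.1
    refine ⟨?_, ?_⟩
    · rw [cntL_append, cntL_cons, if_neg (fun h => lt_irrefl _ h.2), e1, e3]
      rfl
    · rw [rkL_append, rkL_cons, if_neg (fun h => not_lt.2 hxa h.2), e2]
      rfl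
  have hcx : ∀ x ∈ α, cntL v pos g (α ++ a :: β) a x = rkL pos g α x ∧
      rkL pos g (α ++ a :: β) x = rkL pos g α x := fun x hx =>
    hc x (fun z hz => h3 x hx z hz) (h1 x hx).le
  have hca : cntL v pos g (α ++ a :: β) a a = α.countP g := by
    rw [(hc a h2 le_rfl).1]
    exact countP_before h1
  have key : (∃ x ∈ α ++ a :: β, g x = true ∧ v a < v x ∧ pos x < pos a ∧
      cntL v pos g (α ++ a :: β) a x + adj a < cntL v pos g (α ++ a :: β) a a ∧
      i.val = rkL pos g (α ++ a :: β) x) ↔ i.val < α.countP g - adj a := by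
    constructor
    · rintro ⟨x, hx, hgx, h4, h5, h6, h7⟩
      have hxα : x ∈ α := by
        rw [List.mem_append, List.mem_cons] at hx
        rcases hx with hx | rfl | hx
        · exact hx
        · exact absurd h4 (lt_irrefl _)
        · exact absurd h5 (lt_asymm (h2 x hx))
      rw [hca, (hcx x hxα).1] at h6
      rw [(hcx x hxα).2] at h7
      omega
    · intro hi
      obtain ⟨γ, x, δ, e1, e2, e3⟩ := exists_rank (g := g) (L := α) (i := i.val) (by omega)
      have hxα : x ∈ α := by rw [e1]; simp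
      have e4 : rkL pos g α x = i.val := by
        have hp' : (γ ++ x :: δ).Pairwise (fun x y => pos x < pos y) := by
          rw [← e1]
          exact (List.pairwise_append.1 hp).1
        obtain ⟨k1, k2, k3⟩ := pw_left hp'
        have f1 : rkL pos g γ x = γ.countP g := countP_before k1
        have f2 : rkL pos g δ x = 0 := countP_after (fun z hz => (k2 z hz).le)
        rw [e1, rkL_append, rkL_cons, if_neg (fun h => lt_irrefl _ h.2), f1, f2, e3]
        rfl
      refine ⟨x, by simp [hxα], e2, hα x hxα, h1 x hxα, ?_, ?_⟩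
      · rw [hca, (hcx x hxα).1, e4]
        omega
      · rw [(hcx x hxα).2, e4]
  by_cases hpa : p = a
  · subst hpa
    unfold IsSt
    rw [key]
    simp only [mem_insert, true_or, true_and]
    tauto
  · unfold IsSt
    simp only [mem_insert, hpa, false_or, false_and, or_false]

lemma StM_insert (hp : (α ++ a :: β).Pairwise (fun x y => pos x < pos y))
    (hα : ∀ x ∈ α, v a < v x) (Y : Finset P) :
    StM s v pos g adj (α ++ a :: β) (insert a Y) =
      StM s v pos g adj (α ++ a :: β) Y ∪
        (s.boxes a (ini m (α.countP g - adj a))).toFinset := by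
  ext z
  rw [mem_union, mem_StM, mem_StM]
  simp only [isSt_insert hp hα, SlotData.boxes, List.mem_toFinset, List.mem_append, List.mem_map,
    Finset.mem_sort, ini, mem_filter, mem_univ, true_and, mem_insert]
  constructor
  · rintro (⟨y, rfl | hy, h⟩ | ⟨i, p, h | ⟨rfl, h⟩, rfl⟩)
    · exact Or.inr (Or.inr h)
    · exact Or.inl (Or.inl ⟨y, hy, h⟩)
    · exact Or.inl (Or.inr ⟨i, p, h, rfl⟩)
    · exact Or.inr (Or.inl ⟨i, h, rfl⟩)
  · rintro ((⟨y, hy, h⟩ | ⟨i, p, h, rfl⟩) | (⟨i, h, rfl⟩ | h))
    · exact Or.inl ⟨y, Or.inr hy, h⟩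
    · exact Or.inr ⟨i, p, Or.inl h, rfl⟩
    · exact Or.inr ⟨i, a, Or.inr ⟨rfl, h⟩, rfl⟩
    · exact Or.inl ⟨a, Or.inl rfl, h⟩

/-- the boxes are in the slots of `Y` -/
lemma StM_disjoint {L : List P} {Y : Finset P} (ha : a ∉ Y) :
    Disjoint (StM s v pos g adj L Y) (s.Sl a) := by
  rw [Finset.disjoint_left]
  intro z hz hz'
  rw [mem_StM] at hz
  rcases hz with ⟨y, hy, h⟩ | ⟨i, p, h, rfl⟩
  · refine Finset.disjoint_left.1 (s.disj y a ?_) (s.inr_mem y z h) hz'
    rintro rfl
    exact ha hy
  · refine Finset.disjoint_left.1 (s.disj p a ?_) (s.b_mem i p) hz'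
    rintro rfl
    exact ha h.1

lemma StM_nil : StM s v pos g adj ([] : List P) ∅ = ∅ := by
  ext z
  simp [mem_StM, IsSt]

end St

/-! ### runs -/

section runs
variable {B P : Type} [Fintype B] [DecidableEq B] [Fintype P] [DecidableEq P] {m : ℕ}
  (s : SlotData B P m)

theorem gen_vac : gen (fockRep s).bops (Kost.ee (∅ : Finset B)) =
    Submodule.span ℂ {(Kost.vac : Kost.Fock B)} := by
  apply le_antisymm
  · apply gen_le (Submodule.mem_span_singleton_self _)
    rintro a ⟨i, j, _, rfl⟩ y hy
    obtain ⟨c, rfl⟩ := Submodule.mem_span_singleton.1 hy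
    have h0 : (fockRep s).E i j (Kost.ee (∅ : Finset B)) = 0 := by
      show s.E i j (Kost.vac : Kost.Fock B) = 0
      rw [SlotData.E, LinearMap.sum_apply]
      apply Finset.sum_eq_zero
      intro p _
      rw [Module.End.mul_apply, Kost.an_vac, map_zero]
    rw [map_smul, h0, smul_zero]
    exact Submodule.zero_mem _
  · rw [Submodule.span_le, Set.singleton_subset_iff]
    exact self_mem_gen _ _

theorem run_prog (v pos : P → ℕ) (g : P → Bool) (adj : P → ℕ) (Bs : Finset P) :
    ∀ (k : ℕ) (L : List P), L.length = k → L.Pairwise (fun x y => pos x < pos y) →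
      (∀ x ∈ L, ∀ y ∈ L, v x = v y → x = y) → L.countP g ≤ m →
      run (fockTw s) Bs (prog v g adj L) (Submodule.span ℂ {(Kost.vac : Kost.Fock B)}) =
        gen (fockRep s).bops (Kost.ee (StM s v pos g adj L (L.toFinset ∩ Bs))) := by
  intro k
  induction k with
  | zero =>
    intro L hL _ _ _
    obtain rfl := List.length_eq_zero_iff.1 hL
    rw [prog_nil, List.toFinset_nil, Finset.empty_inter, StM_nil, gen_vac]
    rfl
  | succ k ih =>
    intro L hL hp hv hm
    have hne : L.toFinset.Nonempty := by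
      rw [List.toFinset_nonempty_iff]
      rintro rfl
      simp at hL
    obtain ⟨a, ha, hmin⟩ := Finset.exists_min_image L.toFinset v hne
    rw [List.mem_toFinset] at ha
    obtain ⟨α, β, rfl⟩ := List.append_of_mem ha
    obtain ⟨p1, p2, p3⟩ := pw_left hp
    have hα : ∀ x ∈ α, v a < v x := by
      intro x hx
      have hxL : x ∈ α ++ a :: β := by simp [hx]
      refine lt_of_le_of_ne (hmin x (List.mem_toFinset.2 hxL)) (fun e => ?_)
      have := hv a ha x hxL e
      subst this
      exact lt_irrefl _ (p1 _ hx)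
    have hβ : ∀ x ∈ β, v a < v x := by
      intro x hx
      have hxL : x ∈ α ++ a :: β := by simp [hx]
      refine lt_of_le_of_ne (hmin x (List.mem_toFinset.2 hxL)) (fun e => ?_)
      have := hv a ha x hxL e
      subst this
      exact lt_irrefl _ (p2 _ hx)
    have hsub : (α ++ β).Sublist (α ++ a :: β) :=
      List.Sublist.append (List.Sublist.refl α) (List.sublist_cons_self a β)
    have hlen : (α ++ β).length = k := by
      simp only [List.length_append, List.length_cons] at hL ⊢
      omega
    have hcount : (α ++ β).countP g ≤ m := le_trans hsub.countP_le hm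
    have hIH := ih (α ++ β) hlen (hp.sublist hsub)
      (fun x hx y hy => hv x (hsub.subset hx) y (hsub.subset hy)) hcount
    have hY : ∀ p ∈ (α ++ β).toFinset ∩ Bs, v a < v p := by
      intro p hp'
      rw [Finset.mem_inter, List.mem_toFinset, List.mem_append] at hp'
      rcases hp'.1 with h | h
      · exact hα p h
      · exact hβ p h
    have haY : a ∉ (α ++ β).toFinset ∩ Bs := fun h => lt_irrefl _ (hY a h)
    have step1 : run (fockTw s) Bs
        ((if g a then (List.range (β.countP g)).map (fun i => Ins.T (α.countP g + i)) else []) ++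
          prog v g adj (α ++ β)) (Submodule.span ℂ {(Kost.vac : Kost.Fock B)}) =
        gen (fockRep s).bops (Kost.ee (StM s v pos g adj (α ++ a :: β)
          ((α ++ β).toFinset ∩ Bs))) := by
      rw [run_append, hIH]
      by_cases hg : g a = true
      · have htr : α.countP g + β.countP g < m := by
          rw [List.countP_append, List.countP_cons_of_pos hg] at hm
          omega
        rw [if_pos hg, T_gen_shifts s P (fockTw s) Bs _ _ htr, move_StM hp hg htr hY]
        intro i hi p hip
        rw [b_mem_StM] at hip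
        obtain ⟨_, x, hx, hgx, _, _, _, h5⟩ := hip
        have h6 : rkL pos g (α ++ β) x < (α ++ β).countP g := countP_lt_of_mem hx hgx
        rw [List.countP_append] at h6
        omega
      · rw [if_neg hg, StM_erase hp (by simpa using hg) hY]
        rfl
    rw [prog_rec v g adj α β a hα hβ]
    by_cases haB : a ∈ Bs
    · have e : (α ++ a :: β).toFinset ∩ Bs = insert a ((α ++ β).toFinset ∩ Bs) := by
        ext z
        simp only [Finset.mem_inter, List.mem_toFinset, List.mem_append, List.mem_cons,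
          Finset.mem_insert]
        constructor
        · rintro ⟨h | h | h, h'⟩
          · exact Or.inr ⟨Or.inl h, h'⟩
          · exact Or.inl h
          · exact Or.inr ⟨Or.inr h, h'⟩
        · rintro (rfl | ⟨h | h, h'⟩)
          · exact ⟨Or.inr (Or.inl rfl), haB⟩
          · exact ⟨Or.inl h, h'⟩
          · exact ⟨Or.inr (Or.inr h), h'⟩
      rw [e, StM_insert hp hα, ← twist_gen s a _ _ (StM_disjoint haY), ← step1, run, if_pos haB]
    · have e : (α ++ a :: β).toFinset ∩ Bs = (α ++ β).toFinset ∩ Bs := by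
        ext z
        simp only [Finset.mem_inter, List.mem_toFinset, List.mem_append, List.mem_cons]
        constructor
        · rintro ⟨h | rfl | h, h'⟩
          · exact ⟨Or.inl h, h'⟩
          · exact absurd h' haB
          · exact ⟨Or.inr h, h'⟩
        · rintro ⟨h | h, h'⟩
          · exact ⟨Or.inl h, h'⟩
          · exact ⟨Or.inr (Or.inr h), h'⟩
      rw [e, ← step1, run, if_neg haB]

end runs

/-! ### the two sides -/

variable {n : ℕ}

lemma sort_countP_le (J : Finset (Fin n)) (q : Fin n → Bool) :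
    (J.sort (· ≤ ·)).countP q = (J.filter (fun j => q j = true)).card := by
  have h := Multiset.coe_countP (fun j => q j = true) (J.sort (· ≤ ·))
  simp only [Bool.decide_eq_true] at h
  rw [← h, Finset.sort_eq, Multiset.countP_eq_card_filter]
  rfl

lemma sort_countP_ge (J : Finset (Fin n)) (q : Fin n → Bool) :
    (J.sort (· ≥ ·)).countP q = (J.filter (fun j => q j = true)).card := by
  have h := Multiset.coe_countP (fun j => q j = true) (J.sort (· ≥ ·))
  simp only [Bool.decide_eq_true] at h
  rw [← h, Finset.sort_eq, Multiset.countP_eq_card_filter]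
  rfl

lemma countP_LA (w : Equiv.Perm (Fin n)) (J : Finset (Fin n)) (q : Fin n → Bool) :
    (LA w J).countP q = (J.filter (fun j => q (w j) = true)).card := by
  rw [LA, List.countP_map, sort_countP_le]
  rfl

lemma countP_LJ (w : Equiv.Perm (Fin n)) (J : Finset (Fin n)) (q : Fin n → Bool) :
    (LJ w J).countP q = (J.filter (fun j => q (w j) = true)).card := by
  rw [LJ, List.countP_map, sort_countP_ge]
  rfl

lemma mem_LA {w : Equiv.Perm (Fin n)} {J : Finset (Fin n)} {x : Fin n} :
    x ∈ LA w J ↔ w.symm x ∈ J := by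
  rw [LA, List.mem_map]
  constructor
  · rintro ⟨j, hj, rfl⟩
    rw [Finset.mem_sort] at hj
    simpa using hj
  · intro h
    exact ⟨w.symm x, (Finset.mem_sort _).2 h, by simp⟩

lemma mem_LJ {w : Equiv.Perm (Fin n)} {J : Finset (Fin n)} {x : Fin n} :
    x ∈ LJ w J ↔ w.symm x ∈ J := by
  rw [LJ, List.mem_map]
  constructor
  · rintro ⟨j, hj, rfl⟩
    rw [Finset.mem_sort] at hj
    simpa using hj
  · intro h
    exact ⟨w.symm x, (Finset.mem_sort _).2 h, by simp⟩

lemma card_filter_lt_emb (F : Finset (Fin n)) (i : Fin F.card) :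
    (F.filter (fun p => p < F.orderEmbOfFin rfl i)).card = i.val := by
  have h : F.filter (fun p => p < F.orderEmbOfFin rfl i) =
      (univ.filter (fun k : Fin F.card => k < i)).map (F.orderEmbOfFin rfl).toEmbedding := by
    ext p
    simp only [mem_filter, mem_map, mem_univ, true_and, RelEmbedding.coe_toEmbedding]
    constructor
    · rintro ⟨h1, h2⟩
      have h3 : p ∈ Set.range (F.orderEmbOfFin rfl) := by
        rw [Finset.range_orderEmbOfFin]; exact h1
      obtain ⟨k, rfl⟩ := h3
      exact ⟨k, (F.orderEmbOfFin rfl).lt_iff_lt.1 h2, rfl⟩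
    · rintro ⟨k, hk, rfl⟩
      exact ⟨Finset.orderEmbOfFin_mem _ _ _, (F.orderEmbOfFin rfl).lt_iff_lt.2 hk⟩
  have h4 : univ.filter (fun k : Fin F.card => k < i) = Finset.Iio i := by ext k; simp
  rw [h, card_map, h4, Fin.card_Iio]

lemma card_filter_gt_emb (F : Finset (Fin n)) (i : Fin F.card) :
    (F.filter (fun p => F.orderEmbOfFin rfl i < p)).card = F.card - 1 - i.val := by
  have h1 := Finset.card_filter_add_card_filter_not (s := F) (fun p => F.orderEmbOfFin rfl i < p)
  have h2 : F.filter (fun p => ¬ F.orderEmbOfFin rfl i < p) =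
      insert (F.orderEmbOfFin rfl i) (F.filter (fun p => p < F.orderEmbOfFin rfl i)) := by
    ext p
    simp only [mem_filter, mem_insert, not_lt]
    constructor
    · rintro ⟨h1, h2⟩
      rcases h2.lt_or_eq with h | h
      · exact Or.inr ⟨h1, h⟩
      · exact Or.inl h
    · rintro (rfl | ⟨h1, h2⟩)
      · exact ⟨Finset.orderEmbOfFin_mem _ _ _, le_rfl⟩
      · exact ⟨h1, h2.le⟩
  rw [h2, card_insert_of_notMem (by simp), card_filter_lt_emb] at h1
  omega

lemma emb_of_card_lt {F : Finset (Fin n)} {p : Fin n} (hp : p ∈ F) {i : Fin F.card}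
    (hi : i.val = (F.filter (fun q => q < p)).card) : F.orderEmbOfFin rfl i = p := by
  have h3 : p ∈ Set.range (F.orderEmbOfFin rfl) := by
    rw [Finset.range_orderEmbOfFin]; exact hp
  obtain ⟨k, rfl⟩ := h3
  rw [card_filter_lt_emb] at hi
  rw [Fin.ext hi]

lemma gJ_of_card_gt {F : Finset (Fin n)} {p : Fin n} (hp : p ∈ F) {i : Fin F.card}
    (hi : i.val = (F.filter (fun q => p < q)).card) : gJ F i = p := by
  have h3 : p ∈ Set.range (F.orderEmbOfFin rfl) := by
    rw [Finset.range_orderEmbOfFin]; exact hp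
  obtain ⟨k, rfl⟩ := h3
  rw [card_filter_gt_emb] at hi
  rw [gJ]
  congr 1
  apply Fin.ext
  rw [Fin.val_rev]
  have := k.isLt
  omega

lemma gA_mem (w : Equiv.Perm (Fin n)) (S : Finset (Fin n)) (i : Fin (posS w S).card) :
    gA w S i ∈ S := by
  have h1 : (posS w S).orderEmbOfFin rfl i ∈ S.map w.symm.toEmbedding :=
    (posS w S).orderEmbOfFin_mem rfl i
  obtain ⟨a, ha, hae⟩ := Finset.mem_map.1 h1
  rw [gA, show (posS w S).orderEmbOfFin rfl i = w.symm a from hae.symm]
  simpa using ha

lemma exists_gA (w : Equiv.Perm (Fin n)) (S : Finset (Fin n)) {x : Fin n} (hx : x ∈ S) :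
    ∃ i, gA w S i = x := by
  have h3 : w.symm x ∈ Set.range ((posS w S).orderEmbOfFin rfl) := by
    rw [Finset.range_orderEmbOfFin]
    exact Finset.mem_coe.2 (Finset.mem_map.2 ⟨x, hx, rfl⟩)
  obtain ⟨i, hi⟩ := h3
  refine ⟨i, ?_⟩
  rw [gA, hi]
  simp

lemma exists_gJ (J : Finset (Fin n)) {x : Fin n} (hx : x ∈ J) : ∃ i, gJ J i = x := by
  have h3 : x ∈ Set.range (J.orderEmbOfFin rfl) := by
    rw [Finset.range_orderEmbOfFin]
    exact hx
  obtain ⟨i, hi⟩ := h3
  refine ⟨Fin.rev i, ?_⟩
  rw [gJ, Fin.rev_rev, hi]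

lemma rkL_LA {w : Equiv.Perm (Fin n)} {J S : Finset (Fin n)} (hS : S ⊆ J.map w.toEmbedding)
    (x : Fin n) : rkL (fun z => (w.symm z).val) (fun x => decide (x ∈ S)) (LA w J) x =
      ((posS w S).filter (fun q => q < w.symm x)).card := by
  rw [rkL, countP_LA]
  congr 1
  ext j
  simp only [mem_filter, Bool.and_eq_true, decide_eq_true_eq, Equiv.symm_apply_apply, posS,
    mem_map, Equiv.coe_toEmbedding]
  constructor
  · rintro ⟨_, h2, h3⟩
    exact ⟨⟨w j, h2, by simp⟩, h3⟩
  · rintro ⟨⟨y, hy, rfl⟩, h3⟩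
    have := hS hy
    rw [mem_map] at this
    obtain ⟨k, hk, rfl⟩ := this
    refine ⟨by simpa using hk, by simpa using hy, h3⟩

lemma cntL_LJ (w : Equiv.Perm (Fin n)) (J : Finset (Fin n)) (y x : Fin n) :
    cntL vJ (fun z => (Fin.rev (w.symm z)).val) (fun _ => true) (LJ w J) y x =
      (J.filter (fun j => w.symm x < j ∧ w j < y)).card := by
  rw [cntL, countP_LJ]
  congr 1
  ext j
  simp only [mem_filter, Bool.and_eq_true, decide_eq_true_eq, Equiv.symm_apply_apply, vJ,
    true_and, Fin.val_rev]
  have h1 := j.isLt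
  have h2 := (w.symm x).isLt
  have h3 := y.isLt
  have h4 := (w j).isLt
  have e1 : w.symm x < j ↔ (w.symm x).val < j.val := Iff.rfl
  have e2 : w j < y ↔ (w j).val < y.val := Iff.rfl
  rw [e1, e2]
  constructor
  · rintro ⟨a, b, c⟩
    exact ⟨a, by omega, by omega⟩
  · rintro ⟨a, b, c⟩
    exact ⟨a, by omega, by omega⟩

lemma rkL_LJ (w : Equiv.Perm (Fin n)) (J : Finset (Fin n)) (x : Fin n) :
    rkL (fun z => (Fin.rev (w.symm z)).val) (fun _ => true) (LJ w J) x =
      (J.filter (fun j => w.symm x < j)).card := by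
  rw [rkL, countP_LJ]
  congr 1
  ext j
  simp only [mem_filter, Bool.and_eq_true, decide_eq_true_eq, Equiv.symm_apply_apply,
    true_and, Fin.val_rev]
  have h1 := j.isLt
  have h2 := (w.symm x).isLt
  have e1 : w.symm x < j ↔ (w.symm x).val < j.val := Iff.rfl
  rw [e1]
  constructor
  · rintro ⟨a, b⟩
    exact ⟨a, by omega⟩
  · rintro ⟨a, b⟩
    exact ⟨a, by omega⟩

/-- splitting the count at the column `c` -/
lemma card_split (w : Equiv.Perm (Fin n)) (J : Finset (Fin n)) (y c : Fin n) (hc : c ∈ J)
    (h1 : w.symm y < c) (h2 : w c < y) :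
    (J.filter (fun j => w.symm y < j ∧ w j < y)).card =
      (J.filter (fun j => c < j ∧ w j < y)).card + 1 +
        (J.filter (fun j => w.symm y < j ∧ j < c ∧ w j < y)).card := by
  have e : J.filter (fun j => w.symm y < j ∧ w j < y) =
      insert c (J.filter (fun j => c < j ∧ w j < y)) ∪
        J.filter (fun j => w.symm y < j ∧ j < c ∧ w j < y) := by
    ext j
    simp only [mem_filter, mem_union, mem_insert]
    constructor
    · rintro ⟨a, b, d⟩
      rcases lt_trichotomy j c with h | h | h
      · exact Or.inr ⟨a, b, h, d⟩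
      · exact Or.inl (Or.inl h)
      · exact Or.inl (Or.inr ⟨a, h, d⟩)
    · rintro ((rfl | ⟨a, b, d⟩) | ⟨a, b, d, e⟩)
      · exact ⟨hc, h1, h2⟩
      · exact ⟨a, h1.trans b, d⟩
      · exact ⟨a, b, e⟩
  rw [e, card_union_of_disjoint, card_insert_of_notMem (by simp)]
  rw [Finset.disjoint_left]
  intro j hj hj'
  simp only [mem_filter, mem_insert] at hj hj'
  rcases hj with rfl | h
  · exact lt_irrefl _ hj'.2.2.1
  · exact lt_asymm h.2.1 hj'.2.2.1

end Bld

open Bld

variable {n : ℕ}

theorem bops_dataA (w : Equiv.Perm (Fin n)) (Q S : Finset (Fin n)) :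
    (fockRep (dataA w Q S)).bops = rowOps w S := by
  have hE : ∀ i j, (fockRep (dataA w Q S)).E i j = rowE (gA w S i) (gA w S j) := dataA_E w Q S
  ext T
  constructor
  · rintro ⟨i, j, hij, rfl⟩
    refine ⟨gA w S i, gA_mem w S i, gA w S j, gA_mem w S j, ?_, hE i j⟩
    rw [gA, gA, Equiv.symm_apply_apply, Equiv.symm_apply_apply]
    exact ((posS w S).orderEmbOfFin rfl).lt_iff_lt.2 hij
  · rintro ⟨x, hx, y, hy, hxy, rfl⟩
    obtain ⟨i, hi⟩ := exists_gA w S hx
    obtain ⟨j, hj⟩ := exists_gA w S hy
    refine ⟨i, j, ?_, ?_⟩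
    · rw [← hi, ← hj, gA, gA, Equiv.symm_apply_apply, Equiv.symm_apply_apply] at hxy
      exact ((posS w S).orderEmbOfFin rfl).lt_iff_lt.1 hxy
    · rw [hE, hi, hj]

theorem bops_dataJ (J : Finset (Fin n)) : (fockRep (dataJ J)).bops = colOps J := by
  have hE : ∀ i j, (fockRep (dataJ J)).E i j = colE (gJ J i) (gJ J j) := dataJ_E J
  ext T
  constructor
  · rintro ⟨i, j, hij, rfl⟩
    refine ⟨gJ J i, Finset.orderEmbOfFin_mem _ _ _, gJ J j, Finset.orderEmbOfFin_mem _ _ _, ?_,
      hE i j⟩
    rw [gJ, gJ]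
    exact (J.orderEmbOfFin rfl).lt_iff_lt.2 (Fin.rev_lt_rev.2 hij)
  · rintro ⟨x, hx, y, hy, hxy, rfl⟩
    obtain ⟨i, hi⟩ := exists_gJ J hx
    obtain ⟨j, hj⟩ := exists_gJ J hy
    refine ⟨i, j, ?_, ?_⟩
    · rw [← hi, ← hj, gJ, gJ] at hxy
      exact Fin.rev_lt_rev.1 ((J.orderEmbOfFin rfl).lt_iff_lt.1 hxy)
    · rw [hE, hi, hj]

theorem run_progA (w : Equiv.Perm (Fin n)) (Q S J B : Finset (Fin n)) (hS : S ⊆ Q)
    (hQ : Q ⊆ J.map w.toEmbedding) :
    run (fockTw (dataA w Q S)) B (progA w S J) (Submodule.span ℂ {(Kost.vac : Fk n)}) =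
      Mmod w Q S (J.filter (fun j => w j ∈ B)) := by
  have hSJ : S ⊆ J.map w.toEmbedding := hS.trans hQ
  have hp : (LA w J).Pairwise (fun x y => (w.symm x).val < (w.symm y).val) := by
    rw [LA, List.pairwise_map]
    refine (Finset.sortedLT_sort J).pairwise.imp (fun {a b} h => ?_)
    simpa using h
  have hm : (LA w J).countP (fun x => decide (x ∈ S)) ≤ (posS w S).card := by
    rw [countP_LA]
    apply Finset.card_le_card
    intro j hj
    simp only [mem_filter, decide_eq_true_eq] at hj
    rw [posS, mem_map]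
    exact ⟨w j, hj.2, by simp⟩
  rw [progA, run_prog (dataA w Q S) vA (fun z => (w.symm z).val) (fun x => decide (x ∈ S))
    (fun _ => 0) B _ (LA w J) rfl hp (fun x _ y _ h => Fin.ext h) hm, bops_dataA, Mmod]
  congr 2
  ext ⟨x, c⟩
  rw [mem_StM]
  simp only [Dset, mem_filter, mem_univ, true_and, mem_inter, List.mem_toFinset]
  have key : ∀ y x : Fin n, x ∈ S → y < x → w.symm x < w.symm y → w.symm x ∈ J →
      cntL vA (fun z => (w.symm z).val) (fun x => decide (x ∈ S)) (LA w J) y x + 0 <
        cntL vA (fun z => (w.symm z).val) (fun x => decide (x ∈ S)) (LA w J) y y := by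
    intro y x hx hyx hxy hxJ
    rw [add_zero, cntL, cntL, countP_LA, countP_LA]
    apply Finset.card_lt_card
    rw [Finset.ssubset_iff_of_subset]
    · refine ⟨w.symm x, ?_, ?_⟩
      · simp only [mem_filter, Bool.and_eq_true, decide_eq_true_eq, Equiv.symm_apply_apply,
          Equiv.apply_symm_apply, vA]
        exact ⟨hxJ, ⟨hx, hxy⟩, hyx⟩
      · simp
    · intro j
      simp only [mem_filter, Bool.and_eq_true, decide_eq_true_eq, Equiv.symm_apply_apply, vA]
      rintro ⟨h1, ⟨h2, h3⟩, h4⟩
      exact ⟨h1, ⟨h2, lt_trans h3 hxy⟩, h4⟩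
  constructor
  · rintro (⟨y, ⟨hy, hyB⟩, h⟩ | ⟨i, y, ⟨hyY, z, hz, hgz, h2, h3, h4, h5⟩, h⟩)
    · simp only [dataA, List.mem_map, Finset.mem_toList, mem_filter, mem_sdiff, Prod.mk.injEq] at h
      obtain ⟨z, ⟨⟨hzQ, _⟩, h1, h2⟩, rfl, rfl⟩ := h
      rw [mem_LA] at hy
      refine ⟨hzQ, ⟨hy, by simpa using hyB⟩, h1, by simpa using h2⟩
    · simp only [mem_inter, List.mem_toFinset] at hyY
      obtain ⟨hy, hyB⟩ := hyY
      have hzS : z ∈ S := by simpa using hgz
      rw [rkL_LA hSJ] at h5
      have hzp : w.symm z ∈ posS w S := by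
        rw [posS, mem_map]
        exact ⟨z, hzS, rfl⟩
      have e := emb_of_card_lt hzp h5
      have e2 : gA w S i = z := by rw [gA, e]; simp
      simp only [dataA, Prod.mk.injEq] at h
      obtain ⟨h6, rfl⟩ := h
      rw [e2] at h6
      subst h6
      rw [mem_LA] at hy
      refine ⟨hS hzS, ⟨hy, by simpa using hyB⟩, h3, ?_⟩
      simpa [vA] using h2
  · rintro ⟨hxQ, ⟨hcJ, hcB⟩, h1, h2⟩
    by_cases hxS : x ∈ S
    · right
      have hxJ : w.symm x ∈ J := by
        have := hQ hxQ
        rw [mem_map] at this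
        obtain ⟨k, hk, rfl⟩ := this
        simpa using hk
      have hxp : w.symm x ∈ posS w S := by
        rw [posS, mem_map]
        exact ⟨x, hxS, rfl⟩
      have hlt : ((posS w S).filter (fun q => q < w.symm x)).card < (posS w S).card := by
        apply Finset.card_lt_card
        rw [Finset.ssubset_iff_of_subset (Finset.filter_subset _ _)]
        exact ⟨w.symm x, hxp, by simp⟩
      refine ⟨⟨_, hlt⟩, w c, ⟨?_, x, mem_LA.2 hxJ, by simpa using hxS, ?_, ?_, ?_, ?_⟩, ?_⟩
      · simp only [mem_inter, List.mem_toFinset]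
        exact ⟨mem_LA.2 (by simpa using hcJ), hcB⟩
      · exact h2
      · simpa using h1
      · exact key (w c) x hxS h2 (by simpa using h1) hxJ
      · rw [rkL_LA hSJ]
      · have e := emb_of_card_lt hxp (i := ⟨_, hlt⟩) rfl
        simp only [dataA, Prod.mk.injEq, Equiv.symm_apply_apply, and_true]
        rw [gA, e]; simp
    · left
      refine ⟨w c, ⟨mem_LA.2 (by simpa using hcJ), hcB⟩, ?_⟩
      simp only [dataA, List.mem_map, Finset.mem_toList, mem_filter, mem_sdiff, Prod.mk.injEq,
        Equiv.symm_apply_apply]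
      exact ⟨x, ⟨⟨hxQ, hxS⟩, h1, h2⟩, rfl, trivial⟩

theorem run_progJ (w : Equiv.Perm (Fin n)) (A J : Finset (Fin n)) (hA : A ⊆ J.map w.toEmbedding)
    (adj : Fin n → ℕ) :
    run (fockTw (dataJ J)) A (progJ w J adj) (Submodule.span ℂ {(Kost.vac : Fk n)}) =
      gen (colOps J) (Kost.ee (Dadj w A J adj)) := by
  have hp : (LJ w J).Pairwise (fun x y =>
      (Fin.rev (w.symm x)).val < (Fin.rev (w.symm y)).val) := by
    rw [LJ, List.pairwise_map]
    refine (Finset.sortedGT_sort J).pairwise.imp (fun {a b} h => ?_)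
    simp only [Equiv.symm_apply_apply]
    exact Fin.rev_lt_rev.2 h
  have hm : (LJ w J).countP (fun _ => true) ≤ J.card := by
    rw [countP_LJ]
    exact Finset.card_le_card (Finset.filter_subset _ _)
  have hvJ : ∀ x y : Fin n, vJ x = vJ y → x = y := by
    intro x y h
    have h1 := x.isLt
    have h2 := y.isLt
    apply Fin.ext
    simp only [vJ] at h
    omega
  have hvlt : ∀ x y : Fin n, vJ x < vJ y ↔ y < x := by
    intro x y
    have h1 := x.isLt
    have h2 := y.isLt
    have e : y < x ↔ y.val < x.val := Iff.rfl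
    rw [e]
    simp only [vJ]
    omega
  rw [progJ, run_prog (dataJ J) vJ (fun z => (Fin.rev (w.symm z)).val) (fun _ => true)
    adj A _ (LJ w J) rfl hp (fun x _ y _ h => hvJ x y h) hm, bops_dataJ]
  congr 2
  ext ⟨x, c⟩
  rw [mem_StM]
  simp only [Dadj, Dset, mem_filter, mem_univ, true_and, mem_inter, List.mem_toFinset]
  constructor
  · rintro (⟨y, hy, h⟩ | ⟨i, y, ⟨hyY, z, hz, hgz, h2, h3, h4, h5⟩, h⟩)
    · simp [dataJ] at h
    · simp only [mem_inter, List.mem_toFinset] at hyY
      obtain ⟨hy, hyA⟩ := hyY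
      rw [mem_LJ] at hz hy
      rw [rkL_LJ] at h5
      have e := gJ_of_card_gt hz h5
      simp only [dataJ, Prod.mk.injEq] at h
      obtain ⟨rfl, h6⟩ := h
      rw [e] at h6
      subst h6
      rw [hvlt] at h2
      have h3' : w.symm y < w.symm z := Fin.rev_lt_rev.1 h3
      rw [cntL_LJ, cntL_LJ, card_split w J y (w.symm z) hz h3' (by simpa using h2)] at h4
      refine ⟨⟨hyA, hz, h3', by simpa using h2⟩, ?_⟩
      omega
  · rintro ⟨⟨hxA, hcJ, h1, h2⟩, h3⟩
    right
    have hxJ : w.symm x ∈ J := by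
      have := hA hxA
      rw [mem_map] at this
      obtain ⟨k, hk, rfl⟩ := this
      simpa using hk
    have hlt : (J.filter (fun q => c < q)).card < J.card := by
      apply Finset.card_lt_card
      rw [Finset.ssubset_iff_of_subset (Finset.filter_subset _ _)]
      exact ⟨c, hcJ, by simp⟩
    refine ⟨⟨_, hlt⟩, x, ⟨?_, w c, mem_LJ.2 (by simpa using hcJ), rfl, ?_, ?_, ?_, ?_⟩, ?_⟩
    · simp only [mem_inter, List.mem_toFinset]
      exact ⟨mem_LJ.2 hxJ, hxA⟩
    · rw [hvlt]
      exact h2
    · have : w.symm x < w.symm (w c) := by simpa using h1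
      exact Fin.rev_lt_rev.2 this
    · rw [cntL_LJ, cntL_LJ, card_split w J x c hcJ h1 h2, Equiv.symm_apply_apply]
      omega
    · rw [rkL_LJ, Equiv.symm_apply_apply]
    · have e := gJ_of_card_gt hcJ (i := ⟨_, hlt⟩) rfl
      simp only [dataJ, Prod.mk.injEq, true_and]
      exact e

theorem Dadj_zero (w : Equiv.Perm (Fin n)) (A J : Finset (Fin n)) :
    Dadj w A J (fun _ => 0) = Dset w A J := by
  rw [Dadj]
  exact Finset.filter_true_of_mem (fun b _ => Nat.zero_le _)

end

end Gao
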