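import Mathlib
import Pool.Agent.Gao.Build

/-!
# Gao project: the slots of the programs `prog v g adj L`, and their sizes
-/

namespace Gao

open Finset Module

noncomputable section

section prog
variable {τ : Type*} [DecidableEq τ]

lemma slotsOf_append {P : Type*} (L L' : List (Ins P)) :
    slotsOf (L ++ L') = slotsOf L ++ slotsOf L' := by
  induction L with
  | nil => rfl
  | cons i L ih =>
    cases i with
    | T c => exact ih
    | tw p t =>
      change p :: slotsOf (L ++ L') = p :: slotsOf L ++ slotsOf L'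
      rw [ih]
      rfl

lemma slotsOf_T {P : Type*} (l : List ℕ) (t : ℕ) :
    slotsOf (l.map (fun i => (Ins.T (t + i) : Ins P))) = [] := by
  induction l with
  | nil => rfl
  | cons i L ih => exact ih

lemma exists_min (v : τ → ℕ) (L : List τ) (hL : L.Nodup) (hv : ∀ x ∈ L, ∀ y ∈ L, v x = v y → x = y)
    (h0 : L ≠ []) : ∃ α β a, L = α ++ a :: β ∧ (∀ x ∈ α, v a < v x) ∧ (∀ x ∈ β, v a < v x) := by
  obtain ⟨a, ha⟩ : ∃ a, a ∈ L.argmin v := by
    rcases h : L.argmin v with _ | a
    · exact absurd (List.argmin_eq_none.1 h) h0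
    · exact ⟨a, rfl⟩
  have haL := List.argmin_mem ha
  obtain ⟨α, β, rfl⟩ := List.append_of_mem haL
  have hle : ∀ x ∈ α ++ a :: β, v a ≤ v x := fun x hx => List.le_of_mem_argmin hx ha
  have hne : a ∉ α ++ β := by
    have := (List.nodup_middle.1 hL)
    exact (List.nodup_cons.1 this).1
  refine ⟨α, β, a, rfl, fun x hx => ?_, fun x hx => ?_⟩
  · have hxL : x ∈ α ++ a :: β := List.mem_append_left _ hx
    refine lt_of_le_of_ne (hle x hxL) (fun h => hne ?_)
    rw [hv a haL x hxL h]
    exact List.mem_append_left _ hx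
  · have hxL : x ∈ α ++ a :: β := List.mem_append_right _ (List.mem_cons_of_mem _ hx)
    refine lt_of_le_of_ne (hle x hxL) (fun h => hne ?_)
    rw [hv a haL x hxL h]
    exact List.mem_append_right _ hx

theorem prog_slotsOf (v : τ → ℕ) (g : τ → Bool) (adj : τ → ℕ) (L : List τ) (hL : L.Nodup)
    (hv : ∀ x ∈ L, ∀ y ∈ L, v x = v y → x = y) : (slotsOf (prog v g adj L)).Perm L := by
  induction hk : L.length generalizing L with
  | zero =>
    have : L = [] := List.length_eq_zero_iff.1 hk
    subst this
    rw [prog_nil]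
    exact List.Perm.refl _
  | succ k ih =>
    have h0 : L ≠ [] := by
      rintro rfl
      simp at hk
    obtain ⟨α, β, a, rfl, hα, hβ⟩ := exists_min v L hL hv h0
    rw [prog_rec v g adj α β a hα hβ]
    have hL' : (α ++ β).Nodup := (List.nodup_cons.1 (List.nodup_middle.1 hL)).2
    have h1 := ih (α ++ β) hL' (by
      intro x hx y hy
      apply hv
      · rcases List.mem_append.1 hx with h | h
        · exact List.mem_append_left _ h
        · exact List.mem_append_right _ (List.mem_cons_of_mem _ h)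
      · rcases List.mem_append.1 hy with h | h
        · exact List.mem_append_left _ h
        · exact List.mem_append_right _ (List.mem_cons_of_mem _ h)) (by
      simp only [List.length_append, List.length_cons] at hk ⊢
      omega)
    change (a :: slotsOf _).Perm _
    rw [slotsOf_append]
    have h2 : slotsOf (if g a = true then (List.range (β.countP g)).map
        (fun i => (Ins.T (α.countP g + i) : Ins τ)) else []) = [] := by
      split_ifs
      · exact slotsOf_T _ _
      · rfl
    rw [h2, List.nil_append]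
    exact (h1.cons a).trans List.perm_middle.symm

/-- number of letters `x` with `g x`, larger value than `b`, before `b` -/
def cntL (v : τ → ℕ) (g : τ → Bool) (L : List τ) (b : τ) : ℕ :=
  (L.takeWhile (fun x => decide (x ≠ b))).countP (fun x => g x && decide (v b < v x))

lemma cntL_cons (v : τ → ℕ) (g : τ → Bool) (L : List τ) (b x : τ) :
    cntL v g (x :: L) b = if x = b then 0 else
      (if g x = true ∧ v b < v x then 1 else 0) + cntL v g L b := by
  unfold cntL
  by_cases h : x = b
  · rw [if_pos h, List.takeWhile_cons_of_neg (by simp [h])]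
    rfl
  · rw [if_neg h, List.takeWhile_cons_of_pos (by simp [h]), List.countP_cons]
    rw [add_comm]
    congr 1
    by_cases h1 : g x = true <;> by_cases h2 : v b < v x <;> simp [h1, h2]

lemma cntL_middle (v : τ → ℕ) (g : τ → Bool) (α β : List τ) (a b : τ) (hab : a ≠ b)
    (hv : v a < v b) : cntL v g (α ++ a :: β) b = cntL v g (α ++ β) b := by
  induction α with
  | nil =>
    rw [List.nil_append, List.nil_append, cntL_cons, if_neg hab, if_neg, zero_add]
    rintro ⟨_, h⟩
    omega
  | cons x α ih =>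
    rw [List.cons_append, List.cons_append, cntL_cons, cntL_cons, ih]

lemma cntL_self (v : τ → ℕ) (g : τ → Bool) (α β : List τ) (a : τ) (ha : a ∉ α)
    (hα : ∀ x ∈ α, v a < v x) : cntL v g (α ++ a :: β) a = α.countP g := by
  induction α with
  | nil =>
    rw [List.nil_append, cntL_cons, if_pos rfl]
    rfl
  | cons x α ih =>
    have hxa : x ≠ a := fun h => ha (h ▸ List.mem_cons_self)
    rw [List.cons_append, cntL_cons, if_neg hxa,
      ih (fun h => ha (List.mem_cons_of_mem _ h)) (fun y hy => hα y (List.mem_cons_of_mem _ hy)),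
      List.countP_cons, add_comm]
    congr 1
    have := hα x List.mem_cons_self
    by_cases h1 : g x = true <;> simp [h1, this]

lemma cntL_eq (v : τ → ℕ) (g : τ → Bool) (r : τ → τ → Prop) [DecidableRel r]
    (hr : ∀ x y, r x y → ¬ r y x) (L : List τ) (hL : L.Pairwise r) (a : τ) (ha : a ∈ L) :
    cntL v g L a = (L.toFinset.filter (fun x => r x a ∧ g x = true ∧ v a < v x)).card := by
  induction L with
  | nil => simp at ha
  | cons x L ih =>
    rw [List.pairwise_cons] at hL
    rw [cntL_cons, List.toFinset_cons, Finset.filter_insert]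
    by_cases hxa : x = a
    · subst hxa
      rw [if_pos rfl, if_neg (fun h => hr x x h.1 h.1), eq_comm, Finset.card_eq_zero,
        Finset.filter_eq_empty_iff]
      intro y hy h
      exact hr _ _ (hL.1 y (List.mem_toFinset.1 hy)) h.1
    · have haL : a ∈ L := (List.mem_cons.1 ha).resolve_left (fun h => hxa h.symm)
      rw [if_neg hxa, ih hL.2 haL]
      have hxL : x ∉ L := fun h => hr x x (hL.1 x h) (hL.1 x h)
      by_cases h1 : g x = true ∧ v a < v x
      · rw [if_pos h1, if_pos ⟨hL.1 a haL, h1⟩, Finset.card_insert_of_notMem, add_comm]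
        intro h
        exact hxL (List.mem_toFinset.1 (Finset.mem_filter.1 h).1)
      · rw [if_neg h1, if_neg (fun h => h1 h.2), zero_add]

variable {K V : Type*} [Field K] [AddCommGroup V] [Module K V] {m : ℕ} {ρ : GLRep K V m}

lemma sized_append {P : Type*} (σ : Slots ρ P) (L L' : List (Ins P)) (h : Sized σ L)
    (h' : Sized σ L') : Sized σ (L ++ L') := by
  induction L with
  | nil => exact h'
  | cons i L ih =>
    cases i with
    | T c => exact ih h
    | tw p t => exact ⟨h.1, h.2.1, ih h.2.2⟩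

lemma sized_T {P : Type*} (σ : Slots ρ P) (l : List ℕ) (t : ℕ) :
    Sized σ (l.map (fun i => (Ins.T (t + i) : Ins P))) := by
  induction l with
  | nil => trivial
  | cons i L ih => exact ih

theorem prog_sized (σ : Slots ρ τ) (v : τ → ℕ) (g : τ → Bool) (adj : τ → ℕ) (L : List τ)
    (hL : L.Nodup) (hv : ∀ x ∈ L, ∀ y ∈ L, v x = v y → x = y)
    (hs : ∀ a ∈ L, σ.sz a = cntL v g L a - adj a ∧ cntL v g L a - adj a ≤ m) :
    Sized σ (prog v g adj L) := by
  induction hk : L.length generalizing L with
  | zero =>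
    have : L = [] := List.length_eq_zero_iff.1 hk
    subst this
    rw [prog_nil]
    trivial
  | succ k ih =>
    have h0 : L ≠ [] := by
      rintro rfl
      simp at hk
    obtain ⟨α, β, a, rfl, hα, hβ⟩ := exists_min v L hL hv h0
    rw [prog_rec v g adj α β a hα hβ]
    have hL1 := List.nodup_cons.1 (List.nodup_middle.1 hL)
    have hmem : ∀ x ∈ α ++ β, x ∈ α ++ a :: β := by
      intro x hx
      rcases List.mem_append.1 hx with h | h
      · exact List.mem_append_left _ h
      · exact List.mem_append_right _ (List.mem_cons_of_mem _ h)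
    have hlt : ∀ x ∈ α ++ β, v a < v x := by
      intro x hx
      rcases List.mem_append.1 hx with h | h
      · exact hα x h
      · exact hβ x h
    have h1 := ih (α ++ β) hL1.2 (fun x hx y hy => hv x (hmem x hx) y (hmem y hy)) (by
      intro b hb
      have hab : a ≠ b := fun h => hL1.1 (h ▸ hb)
      rw [← cntL_middle v g α β a b hab (hlt b hb)]
      exact hs b (hmem b hb)) (by
      simp only [List.length_append, List.length_cons] at hk ⊢
      omega)
    have h2 := hs a (List.mem_append_right _ List.mem_cons_self)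
    rw [cntL_self v g α β a (fun h => hL1.1 (List.mem_append_left _ h)) hα] at h2
    refine ⟨h2.1.symm, h2.2, sized_append σ _ _ ?_ h1⟩
    split_ifs
    · exact sized_T σ _ _
    · trivial

end prog

/-! ### the words `LA`, `LJ` -/

variable {n : ℕ}

lemma mem_LA (w : Equiv.Perm (Fin n)) (J : Finset (Fin n)) (x : Fin n) :
    x ∈ LA w J ↔ w.symm x ∈ J := by
  unfold LA
  rw [List.mem_map]
  constructor
  · rintro ⟨j, hj, rfl⟩
    rw [Equiv.symm_apply_apply]
    exact (Finset.mem_sort _).1 hj
  · intro h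
    exact ⟨w.symm x, (Finset.mem_sort _).2 h, by simp⟩

lemma mem_LJ (w : Equiv.Perm (Fin n)) (J : Finset (Fin n)) (x : Fin n) :
    x ∈ LJ w J ↔ w.symm x ∈ J := by
  unfold LJ
  rw [List.mem_map]
  constructor
  · rintro ⟨j, hj, rfl⟩
    rw [Equiv.symm_apply_apply]
    exact (Finset.mem_sort _).1 hj
  · intro h
    exact ⟨w.symm x, (Finset.mem_sort _).2 h, by simp⟩

lemma LA_nodup (w : Equiv.Perm (Fin n)) (J : Finset (Fin n)) : (LA w J).Nodup :=
  (Finset.sort_nodup _ _).map w.injective

lemma LJ_nodup (w : Equiv.Perm (Fin n)) (J : Finset (Fin n)) : (LJ w J).Nodup :=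
  (Finset.sort_nodup _ _).map w.injective

lemma LA_pairwise (w : Equiv.Perm (Fin n)) (J : Finset (Fin n)) :
    (LA w J).Pairwise (fun x y => w.symm x < w.symm y) := by
  unfold LA
  rw [List.pairwise_map]
  refine (Finset.sortedLT_sort J).pairwise.imp ?_
  intro a b h
  simpa using h

lemma LJ_pairwise (w : Equiv.Perm (Fin n)) (J : Finset (Fin n)) :
    (LJ w J).Pairwise (fun x y => w.symm y < w.symm x) := by
  unfold LJ
  rw [List.pairwise_map]
  refine (Finset.sortedGT_sort J).pairwise.imp ?_
  intro a b h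
  simpa using h

/-- size of the slot `a` on the A-side -/
def szA (w : Equiv.Perm (Fin n)) (S J : Finset (Fin n)) (a : Fin n) : ℕ :=
  (S.filter (fun x => w.symm x ∈ J ∧ w.symm x < w.symm a ∧ a < x)).card

/-- size of the slot `a` on the J-side -/
def szJ (w : Equiv.Perm (Fin n)) (J : Finset (Fin n)) (a : Fin n) : ℕ :=
  (J.filter (fun j => w.symm a < j ∧ w j < a)).card

lemma cntL_LA (w : Equiv.Perm (Fin n)) (S J : Finset (Fin n)) (a : Fin n) (ha : w.symm a ∈ J) :
    cntL vA (fun x => decide (x ∈ S)) (LA w J) a = szA w S J a := by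
  rw [cntL_eq vA _ (fun x y => w.symm x < w.symm y) (fun x y h => not_lt.2 h.le) _
    (LA_pairwise w J) a ((mem_LA w J a).2 ha), szA]
  congr 1
  ext x
  simp only [mem_filter, List.mem_toFinset, mem_LA, decide_eq_true_eq, vA, Fin.val_fin_lt]
  tauto

lemma cntL_LJ (w : Equiv.Perm (Fin n)) (J : Finset (Fin n)) (a : Fin n) (ha : w.symm a ∈ J) :
    cntL vJ (fun _ => true) (LJ w J) a = szJ w J a := by
  rw [cntL_eq vJ _ (fun x y => w.symm y < w.symm x) (fun x y h => not_lt.2 h.le) _
    (LJ_pairwise w J) a ((mem_LJ w J a).2 ha), szJ]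
  have h : ∀ x : Fin n, vJ a < vJ x ↔ x < a := by
    intro x
    unfold vJ
    rw [Fin.lt_def]
    have := x.isLt
    have := a.isLt
    omega
  rw [← Finset.card_map w.symm.toEmbedding]
  congr 1
  ext j
  simp only [mem_filter, mem_map, List.mem_toFinset, mem_LJ, true_and, h]
  constructor
  · rintro ⟨x, ⟨h1, h2, h3⟩, rfl⟩
    exact ⟨h1, h2, by simpa using h3⟩
  · rintro ⟨h1, h2, h3⟩
    exact ⟨w j, ⟨by simpa using h1, by simpa using h2, h3⟩, by simp⟩

lemma vA_inj {x y : Fin n} (h : vA x = vA y) : x = y := Fin.ext h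

lemma vJ_inj {x y : Fin n} (h : vJ x = vJ y) : x = y := by
  unfold vJ at h
  have := x.isLt
  have := y.isLt
  apply Fin.ext
  omega

theorem progA_slots (w : Equiv.Perm (Fin n)) (S J : Finset (Fin n)) :
    (slotsOf (progA w S J)).Perm (LA w J) :=
  prog_slotsOf _ _ _ _ (LA_nodup w J) (fun _ _ _ _ h => vA_inj h)

theorem progJ_slots (w : Equiv.Perm (Fin n)) (J : Finset (Fin n)) (adj : Fin n → ℕ) :
    (slotsOf (progJ w J adj)).Perm (LJ w J) :=
  prog_slotsOf _ _ _ _ (LJ_nodup w J) (fun _ _ _ _ h => vJ_inj h)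

theorem progA_nodup (w : Equiv.Perm (Fin n)) (S J : Finset (Fin n)) :
    (slotsOf (progA w S J)).Nodup := (progA_slots w S J).nodup_iff.2 (LA_nodup w J)

theorem progJ_nodup (w : Equiv.Perm (Fin n)) (J : Finset (Fin n)) (adj : Fin n → ℕ) :
    (slotsOf (progJ w J adj)).Nodup := (progJ_slots w J adj).nodup_iff.2 (LJ_nodup w J)

theorem mem_progA_slots (w : Equiv.Perm (Fin n)) (S J : Finset (Fin n)) (x : Fin n) :
    x ∈ slotsOf (progA w S J) ↔ w.symm x ∈ J :=
  (progA_slots w S J).mem_iff.trans (mem_LA w J x)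

theorem mem_progJ_slots (w : Equiv.Perm (Fin n)) (J : Finset (Fin n)) (adj : Fin n → ℕ)
    (x : Fin n) : x ∈ slotsOf (progJ w J adj) ↔ w.symm x ∈ J :=
  (progJ_slots w J adj).mem_iff.trans (mem_LJ w J x)

theorem progA_sized {K V : Type*} [Field K] [AddCommGroup V] [Module K V] {m : ℕ}
    {ρ : GLRep K V m} (σ : Slots ρ (Fin n)) (w : Equiv.Perm (Fin n)) (S J : Finset (Fin n))
    (hsz : ∀ a, w.symm a ∈ J → σ.sz a = szA w S J a) (hm : S.card ≤ m) :
    Sized σ (progA w S J) := by
  refine prog_sized σ _ _ _ _ (LA_nodup w J) (fun _ _ _ _ h => vA_inj h) ?_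
  intro a ha
  have ha' := (mem_LA w J a).1 ha
  rw [cntL_LA w S J a ha', Nat.sub_zero]
  exact ⟨hsz a ha', (Finset.card_filter_le _ _).trans hm⟩

theorem progJ_sized {K V : Type*} [Field K] [AddCommGroup V] [Module K V] {m : ℕ}
    {ρ : GLRep K V m} (σ : Slots ρ (Fin n)) (w : Equiv.Perm (Fin n)) (J : Finset (Fin n))
    (adj : Fin n → ℕ)
    (hsz : ∀ a, w.symm a ∈ J → σ.sz a = szJ w J a - adj a) (hm : J.card ≤ m) :
    Sized σ (progJ w J adj) := by
  refine prog_sized σ _ _ _ _ (LJ_nodup w J) (fun _ _ _ _ h => vJ_inj h) ?_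
  intro a ha
  have ha' := (mem_LJ w J a).1 ha
  rw [cntL_LJ w J a ha']
  exact ⟨hsz a ha', (Nat.sub_le _ _).trans ((Finset.card_filter_le _ _).trans hm)⟩

end

end Gao
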