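import Mathlib
import Pool.Agent.Gao.ProgS
import Pool.Agent.Gao.AlphaLin
import Pool.Agent.Gao.Main

/-!
# Gao project, ALPHA on the A-side: one generic contraction for all `S ⊆ Q`
-/

set_option autoImplicit false

namespace Gao

open Finset Module Pool.Agent.Gao

noncomputable section

/-- the abstract ALPHA (one face), in the form in which it is used -/
def AlphaAbs : Prop := ∀ (n m : ℕ) (ρ : GLRep ℂ (Fk n) m) (σ : Slots ρ (Fin n))
  (Z : Submodule ℂ (Fk n)), Start σ Z → ∀ L : List (Ins (Fin n)), (slotsOf L).Nodup → Sized σ L →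
  ∀ B I : Finset (Fin n), I ⊆ B → (∀ p ∈ I, p ∈ slotsOf L) →
  Gen (fun θ : Fin n × Finset (Fin m) → ℂ =>
    (finrank ℂ (run σ.tw B L Z ⊓ cker (fun p => σ.con (fun l => θ (p, l)) p) I :
      Submodule ℂ (Fk n)) : ℤ) ≤
    ∑ T ∈ I.powerset, (-1 : ℤ) ^ T.card * (finrank ℂ (run σ.tw (B \ T) L Z) : ℤ))

section crL
variable {B : Type} [Fintype B] [DecidableEq B]

lemma crL_cons_A (x : B) (L : List B) : crL (x :: L) = Kost.cr x * crL L := by
  unfold crL
  rw [List.map_cons, List.prod_cons]

lemma crL_perm_A {L L' : List B} (h : L.Perm L') : ∃ ε : ℂ, ε * ε = 1 ∧ crL L = ε • crL L' := by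
  induction h with
  | nil => exact ⟨1, by norm_num, by rw [one_smul]⟩
  | cons x _ ih =>
    obtain ⟨ε, h1, h2⟩ := ih
    refine ⟨ε, h1, ?_⟩
    rw [crL_cons_A, crL_cons_A, h2, mul_smul_comm]
  | swap x y l =>
    refine ⟨-1, by norm_num, ?_⟩
    rw [crL_cons_A, crL_cons_A, crL_cons_A, crL_cons_A, ← mul_assoc, ← mul_assoc,
      eq_neg_of_add_eq_zero_left (Kost.cr_cr y x), neg_mul, neg_smul, one_smul]
  | trans _ _ ih1 ih2 =>
    obtain ⟨ε, h1, h2⟩ := ih1
    obtain ⟨ε', h1', h2'⟩ := ih2
    refine ⟨ε * ε', by rw [mul_mul_mul_comm, h1, h1', one_mul], ?_⟩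
    rw [h2, h2', smul_smul]

end crL

variable {n : ℕ}

/-- all letters as indices -/
def dataF (w : Equiv.Perm (Fin n)) : SlotData (Fin n × Fin n) (Fin n) n where
  b i y := (i, w.symm y)
  inj i p i' p' h := by
    simp only [Prod.mk.injEq] at h
    exact ⟨h.1, w.symm.injective h.2⟩
  Sl y := univ.filter (fun x => x.2 = w.symm y)
  inr y := []
  b_mem i y := by simp
  inr_mem y x hx := by simp at hx
  inr_nodup y := List.nodup_nil
  b_inr i y := by simp
  disj p q hpq := by
    rw [Finset.disjoint_left]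
    intro x hx hx'
    simp only [Finset.mem_filter, Finset.mem_univ, true_and] at hx hx'
    exact hpq (w.symm.injective (hx.symm.trans hx'))

/-- the inert letters of the column `p` -/
def inert (w : Equiv.Perm (Fin n)) (Q S : Finset (Fin n)) (p : Fin n) : Finset (Fin n) :=
  (Q \ S).filter (fun x => w.symm x < w.symm p ∧ p < x)

/-- the set of letters of the index set `l` in the column `p` -/
def DS (w : Equiv.Perm (Fin n)) (Q S : Finset (Fin n)) (p : Fin n)
    (l : Finset (Fin (posS w S).card)) : Finset (Fin n) :=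
  l.image (gA w S) ∪ inert w Q S p

lemma gA_mem (w : Equiv.Perm (Fin n)) (S : Finset (Fin n)) (i : Fin (posS w S).card) :
    gA w S i ∈ S := by
  have h1 : (posS w S).orderEmbOfFin rfl i ∈ S.map w.symm.toEmbedding :=
    (posS w S).orderEmbOfFin_mem rfl i
  obtain ⟨a, ha, hae⟩ := Finset.mem_map.1 h1
  have : w ((posS w S).orderEmbOfFin rfl i) = a := by
    rw [show (posS w S).orderEmbOfFin rfl i = w.symm a from hae.symm]; simp
  unfold gA
  rw [this]; exact ha

lemma gA_inj (w : Equiv.Perm (Fin n)) (S : Finset (Fin n)) : Function.Injective (gA w S) := by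
  intro i j h
  exact ((posS w S).orderEmbOfFin rfl).injective (w.injective h)

lemma DS_disj (w : Equiv.Perm (Fin n)) (Q S : Finset (Fin n)) (p : Fin n)
    (l : Finset (Fin (posS w S).card)) : Disjoint (l.image (gA w S)) (inert w Q S p) := by
  rw [Finset.disjoint_left]
  intro x hx hx'
  obtain ⟨i, _, rfl⟩ := mem_image.1 hx
  exact (mem_sdiff.1 (mem_filter.1 hx').1).2 (gA_mem w S i)

lemma DS_inj (w : Equiv.Perm (Fin n)) (Q S : Finset (Fin n)) (p : Fin n) :
    Function.Injective (DS w Q S p) := by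
  intro l l' h
  have h1 : l.image (gA w S) = l'.image (gA w S) := by
    have h2 : ∀ l, DS w Q S p l \ inert w Q S p = l.image (gA w S) := by
      intro l
      unfold DS
      rw [union_sdiff_distrib, Finset.sdiff_self, union_empty,
        sdiff_eq_self_of_disjoint (DS_disj w Q S p l)]
    rw [← h2, ← h2, h]
  exact image_injective (gA_inj w S) h1

lemma DS_card (w : Equiv.Perm (Fin n)) (Q S : Finset (Fin n)) (hS : S ⊆ Q) (p : Fin n)
    (l : Finset (Fin (posS w S).card)) :
    (DS w Q S p l).card = szA w Q univ p ↔ l.card = szA w S univ p := by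
  unfold DS
  rw [card_union_of_disjoint (DS_disj w Q S p l), card_image_of_injective _ (gA_inj w S)]
  have h1 : szA w Q univ p = szA w S univ p + (inert w Q S p).card := by
    unfold szA inert
    rw [← card_union_of_disjoint]
    · congr 1
      ext x
      simp only [mem_filter, mem_univ, true_and, mem_union, mem_sdiff]
      constructor
      · rintro ⟨h1, h2⟩
        by_cases h : x ∈ S
        · exact Or.inl ⟨h, h2⟩
        · exact Or.inr ⟨⟨h1, h⟩, h2⟩
      · rintro (⟨h1, h2⟩ | ⟨h1, h2⟩)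
        · exact ⟨hS h1, h2⟩
        · exact ⟨h1.1, h2⟩
    · rw [Finset.disjoint_left]
      intro x hx hx'
      exact (mem_sdiff.1 (mem_filter.1 hx').1).2 (mem_filter.1 hx).1
  rw [h1]
  omega

lemma boxes_perm (w : Equiv.Perm (Fin n)) (Q S : Finset (Fin n)) (p : Fin n)
    (l : Finset (Fin (posS w S).card)) :
    ((dataA w Q S).boxes p l).Perm ((dataF w).boxes p (DS w Q S p l)) := by
  have hinj : Function.Injective (fun x : Fin n => (x, w.symm p)) := fun a b h => by simpa using h
  have h1 : ((dataA w Q S).boxes p l) =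
      ((l.sort (· ≤ ·)).map (gA w S) ++ (inert w Q S p).toList).map (fun x => (x, w.symm p)) := by
    unfold SlotData.boxes inert
    rw [List.map_append, List.map_map]
    rfl
  have h2 : ((dataF w).boxes p (DS w Q S p l)) =
      ((DS w Q S p l).sort (· ≤ ·)).map (fun x => (x, w.symm p)) := by
    unfold SlotData.boxes
    exact List.append_nil _
  rw [h1, h2]
  apply List.Perm.map
  rw [List.perm_ext_iff_of_nodup]
  · intro x
    simp only [List.mem_append, List.mem_map, Finset.mem_sort, Finset.mem_toList, DS, mem_union,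
      mem_image]
  · rw [List.nodup_append]
    refine ⟨(Finset.sort_nodup _ _).map (gA_inj w S), Finset.nodup_toList _, ?_⟩
    intro a ha b hb hab
    subst hab
    have hd := DS_disj w Q S p l
    rw [Finset.disjoint_left] at hd
    apply hd _ (Finset.mem_toList.1 hb)
    obtain ⟨i, hi, rfl⟩ := List.mem_map.1 ha
    exact mem_image.2 ⟨i, (Finset.mem_sort _).1 hi, rfl⟩
  · exact Finset.sort_nodup _ _

lemma exists_eps (w : Equiv.Perm (Fin n)) (Q S : Finset (Fin n)) (p : Fin n)
    (l : Finset (Fin (posS w S).card)) : ∃ ε : ℂ, ε * ε = 1 ∧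
      (dataA w Q S).ins p l = ε • (dataF w).ins p (DS w Q S p l) :=
  crL_perm_A (boxes_perm w Q S p l)

/-- the sign -/
def eps (w : Equiv.Perm (Fin n)) (Q S : Finset (Fin n)) (p : Fin n)
    (l : Finset (Fin (posS w S).card)) : ℂ := (exists_eps w Q S p l).choose

lemma eps_sq (w : Equiv.Perm (Fin n)) (Q S : Finset (Fin n)) (p : Fin n)
    (l : Finset (Fin (posS w S).card)) : eps w Q S p l * eps w Q S p l = 1 :=
  (exists_eps w Q S p l).choose_spec.1

lemma ins_eps (w : Equiv.Perm (Fin n)) (Q S : Finset (Fin n)) (p : Fin n)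
    (l : Finset (Fin (posS w S).card)) :
    (dataA w Q S).ins p l = eps w Q S p l • (dataF w).ins p (DS w Q S p l) :=
  (exists_eps w Q S p l).choose_spec.2

/-- the contraction of the column `p` -/
def CA (w : Equiv.Perm (Fin n)) (Q : Finset (Fin n)) (θ : Fin n × Finset (Fin n) → ℂ) (p : Fin n) :
    Fk n →ₗ[ℂ] Fk n :=
  ∑ D ∈ univ.filter (fun D : Finset (Fin n) => D.card = szA w Q univ p),
    θ (p, D) • (dataF w).ext p D

/-- the induced functional for `S` -/
def thS (w : Equiv.Perm (Fin n)) (Q S : Finset (Fin n)) (θ : Fin n × Finset (Fin n) → ℂ) :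
    Fin n × Finset (Fin (posS w S).card) → ℂ :=
  fun k => eps w Q S k.1 k.2 * θ (k.1, DS w Q S k.1 k.2)

/-- the slots for `S` -/
abbrev sigA (w : Equiv.Perm (Fin n)) (Q S : Finset (Fin n)) :
    Slots (fockRep (dataA w Q S)) (Fin n) := fockSlots (dataA w Q S) (szA w S univ)

lemma CA_eq (w : Equiv.Perm (Fin n)) (Q S : Finset (Fin n)) (hS : S ⊆ Q)
    (θ : Fin n × Finset (Fin n) → ℂ) (p : Fin n) (y : Fk n)
    (hy : y ∈ ((sigA w Q S).tw p).tot (szA w S univ p)) :
    CA w Q θ p y = (sigA w Q S).con (fun l => thS w Q S θ (p, l)) p y := by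
  have hy' : y = ∑ l ∈ univ.filter (fun l : Finset (Fin (posS w S).card) =>
      l.card = szA w S univ p), (dataA w Q S).ins p l ((dataA w Q S).ext p l y) := hy
  have h1 : ∀ l, l ∈ univ.filter (fun l : Finset (Fin (posS w S).card) =>
      l.card = szA w S univ p) →
      CA w Q θ p ((dataA w Q S).ins p l ((dataA w Q S).ext p l y)) =
        thS w Q S θ (p, l) • (dataA w Q S).ext p l y := by
    intro l hl
    have hV : (dataA w Q S).ext p l y ∈ (dataF w).V' p := (dataA w Q S).ext_mem p l y
    unfold CA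
    rw [LinearMap.sum_apply, Finset.sum_eq_single (DS w Q S p l)]
    · rw [LinearMap.smul_apply, ins_eps, LinearMap.smul_apply, map_smul,
        (dataF w).ext_ins p _ _ _ hV, if_pos rfl, smul_smul]
      unfold thS
      rw [mul_comm]
    · intro D _ hD
      rw [LinearMap.smul_apply, ins_eps, LinearMap.smul_apply, map_smul,
        (dataF w).ext_ins p _ _ _ hV, if_neg hD, smul_zero, smul_zero]
    · intro h
      apply absurd _ h
      rw [mem_filter]
      exact ⟨mem_univ _, (DS_card w Q S hS p l).2 (mem_filter.1 hl).2⟩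
  conv_lhs => rw [hy', map_sum]
  rw [sum_congr rfl h1]
  unfold Slots.con
  rw [LinearMap.sum_apply]
  rfl

lemma CA_V' (w : Equiv.Perm (Fin n)) (Q : Finset (Fin n))
    (θ : Fin n × Finset (Fin n) → ℂ) (q : Fin n) : ∃ c : ℂ, ∀ z ∈ (dataF w).V' q,
      CA w Q θ q z = c • z := by
  refine ⟨if (0 : ℕ) = szA w Q univ q then θ (q, ∅) else 0, fun z hz => ?_⟩
  have h0 : z = (dataF w).ins q ∅ z := by
    unfold SlotData.ins SlotData.boxes crL
    have : (dataF w).inr q = [] := rfl
    simp [this]
  have h1 : ∀ D, (dataF w).ext q D z = if D = ∅ then z else 0 := by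
    intro D
    conv_lhs => rw [h0]
    rw [(dataF w).ext_ins q _ _ _ hz]
  unfold CA
  rw [LinearMap.sum_apply]
  simp only [LinearMap.smul_apply, h1, smul_ite, smul_zero]
  rw [Finset.sum_ite_eq']
  simp only [mem_filter, mem_univ, true_and, card_empty]
  split_ifs <;> simp

lemma run_le_V'_B {K V : Type*} [Field K] [AddCommGroup V] [Module K V] {m : ℕ}
    {ρ : GLRep K V m} {P : Type*} [DecidableEq P] (σ : Slots ρ P) {Z : Submodule K V}
    (hZ : ∀ p, Z ≤ (σ.tw p).V') (B : Finset P) (L : List (Ins P)) (q : P) (hq : q ∉ B) :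
    run σ.tw B L Z ≤ (σ.tw q).V' := by
  induction L with
  | nil => exact hZ q
  | cons i L ih =>
    cases i with
    | T c =>
      have hf : ∀ z ∈ (σ.tw q).V', ρ.f c z ∈ (σ.tw q).V' := by
        intro z hz
        unfold GLRep.f
        split_ifs with h
        · exact (σ.tw q).stE _ _ z hz
        · exact Submodule.zero_mem _
      have hpow : ∀ k : ℕ, ∀ z ∈ (σ.tw q).V', (ρ.f c ^ k) z ∈ (σ.tw q).V' := by
        intro k
        induction k with
        | zero => intro z hz; exact hz
        | succ k ih =>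
          intro z hz
          rw [pow_succ', Module.End.mul_apply]
          exact hf _ (ih z hz)
      refine iSup_le fun k => ?_
      rintro _ ⟨z, hz, rfl⟩
      exact hpow k z (ih hz)
    | tw p t =>
      change (if p ∈ B then (σ.tw p).twist t (run σ.tw B L Z) else run σ.tw B L Z) ≤ _
      split_ifs with hp
      · rintro _ ⟨z, hz, rfl⟩
        exact σ.ins_mem p q (fun h => hq (h ▸ hp)) _ z (ih hz)
      · exact ih

lemma pos_eq (w : Equiv.Perm (Fin n)) (B : Finset (Fin n)) :
    pos w B = univ.filter (fun j => w j ∈ B) := by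
  ext j
  unfold pos
  rw [mem_map, mem_filter]
  constructor
  · rintro ⟨x, hx, rfl⟩
    exact ⟨mem_univ _, by simpa using hx⟩
  · rintro ⟨_, h⟩
    exact ⟨w j, h, by simp⟩

/-- the starting line -/
abbrev Zv (n : ℕ) : Submodule ℂ (Fk n) := Submodule.span ℂ {(Kost.vac : Fk n)}

lemma Mmod_run (w : Equiv.Perm (Fin n)) (Q S B : Finset (Fin n)) (hS : S ⊆ Q) :
    Mmod w Q S (pos w B) = run (sigA w Q S).tw B (progA w S univ) (Zv n) := by
  rw [pos_eq]
  have hQ : Q ⊆ (univ : Finset (Fin n)).map w.toEmbedding := by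
    intro x _
    rw [mem_map]
    exact ⟨w.symm x, mem_univ _, by simp⟩
  exact (run_progA w Q S univ B hS hQ).symm

lemma sigA_start (w : Equiv.Perm (Fin n)) (Q S : Finset (Fin n)) : Start (sigA w Q S) (Zv n) :=
  fock_start _ _

lemma sigA_sized (w : Equiv.Perm (Fin n)) (Q S : Finset (Fin n)) :
    Sized (sigA w Q S) (progA w S univ) :=
  progA_sized _ w S univ (fun _ _ => rfl) (by unfold posS; rw [card_map])

lemma run_tot (w : Equiv.Perm (Fin n)) (Q S B : Finset (Fin n)) (p : Fin n) (hp : p ∈ B) :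
    run (sigA w Q S).tw B (progA w S univ) (Zv n) ≤
      ((sigA w Q S).tw p).tot (szA w S univ p) :=
  run_le_tot (sigA w Q S) (sigA_start w Q S) B _ (progA_nodup w S univ) (sigA_sized w Q S) p
    ((mem_progA_slots w S univ p).2 (mem_univ _)) hp

theorem alphaProp (h : AlphaAbs) : AlphaProp := by
  intro n w Q
  have hg : Gen (fun θ : Fin n × Finset (Fin n) → ℂ => ∀ S B I : Finset (Fin n), S ⊆ Q → I ⊆ B →
      (finrank ℂ (run (sigA w Q S).tw B (progA w S univ) (Zv n) ⊓
        cker (fun p => (sigA w Q S).con (fun l => thS w Q S θ (p, l)) p) I :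
        Submodule ℂ (Fk n)) : ℤ) ≤
      ∑ T ∈ I.powerset, (-1 : ℤ) ^ T.card *
        (finrank ℂ (run (sigA w Q S).tw (B \ T) (progA w S univ) (Zv n)) : ℤ)) := by
    refine gen_fintype fun S => gen_fintype fun B => gen_fintype fun I => ?_
    by_cases hS : S ⊆ Q
    · by_cases hI : I ⊆ B
      · have h1 := h n (posS w S).card (fockRep (dataA w Q S)) (sigA w Q S) (Zv n)
          (sigA_start w Q S) (progA w S univ) (progA_nodup w S univ) (sigA_sized w Q S) B I hI
          (fun p _ => (mem_progA_slots w S univ p).2 (mem_univ _))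
        have h2 := h1.comp (e := fun k : Fin n × Finset (Fin (posS w S).card) =>
          (k.1, DS w Q S k.1 k.2)) (by
          rintro ⟨p, l⟩ ⟨q, l'⟩ h
          simp only [Prod.mk.injEq] at h
          obtain ⟨rfl, h⟩ := h
          rw [DS_inj w Q S p h]) (fun k => eps w Q S k.1 k.2) (by
          intro k h0
          have := eps_sq w Q S k.1 k.2
          rw [h0, mul_zero] at this
          exact zero_ne_one this)
        exact h2.mono fun θ hθ _ _ => hθ
      · exact gen_of_forall fun θ _ h => absurd h hI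
    · exact gen_of_forall fun θ h => absurd h hS
  obtain ⟨θ, hθ⟩ := hg.exists
  have hCA : ∀ S B, S ⊆ Q → ∀ p ∈ B, ∀ x ∈ Mmod w Q S (pos w B),
      CA w Q θ p x = (sigA w Q S).con (fun l => thS w Q S θ (p, l)) p x := by
    intro S B hS p hp x hx
    rw [Mmod_run w Q S B hS] at hx
    exact CA_eq w Q S hS θ p x (run_tot w Q S B p hp hx)
  refine ⟨CA w Q θ, ?_, ?_, ?_⟩
  · intro S hS R p hR hp x hx
    have hpB : p ∈ Q ∪ insert p R := mem_union_right _ (mem_insert_self p R)
    have hpQ : p ∉ Q ∪ R := by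
      rw [mem_union, not_or]
      exact ⟨fun h => (mem_sdiff.1 (hR (mem_insert_self p R))).2 h, hp⟩
    rw [hCA S _ hS p hpB x hx]
    have hB : Q ∪ insert p R = insert p (Q ∪ R) := by
      ext a
      simp only [mem_union, mem_insert]
      tauto
    rw [hB, Mmod_run w Q S _ hS] at hx
    rw [Mmod_run w Q S _ hS]
    exact con_run (sigA w Q S) (sigA_start w Q S) (Q ∪ R) _ (progA_nodup w S univ)
      (sigA_sized w Q S) p ((mem_progA_slots w S univ p).2 (mem_univ _)) hpQ _ x hx
  · intro S hS p q hpq R hR hp x hx h0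
    have hpB : p ∈ Q ∪ R := mem_union_right _ hp
    have hpQ : p ∉ (Q ∪ R).erase p := notMem_erase _ _
    have hx1 : x ∈ run (sigA w Q S).tw (Q ∪ R) (progA w S univ) (Zv n) := by
      rw [← Mmod_run w Q S _ hS]
      exact hx
    have hCp : CA w Q θ p x ∈ Mmod w Q S (pos w ((Q ∪ R).erase p)) := by
      rw [hCA S _ hS p hpB x hx, Mmod_run w Q S _ hS]
      refine con_run (sigA w Q S) (sigA_start w Q S) ((Q ∪ R).erase p) _ (progA_nodup w S univ)
        (sigA_sized w Q S) p ((mem_progA_slots w S univ p).2 (mem_univ _)) hpQ _ x ?_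
      rw [insert_erase hpB]
      exact hx1
    by_cases hq : q ∈ Q ∪ R
    · rw [hCA S _ hS q (mem_erase.2 ⟨hpq.symm, hq⟩) _ hCp, hCA S _ hS p hpB x hx]
      rw [hCA S _ hS q hq x hx] at h0
      exact con_con (sigA w Q S) (sigA_start w Q S) (Q ∪ R) _ (progA_nodup w S univ)
        (sigA_sized w Q S) p q hpq ((mem_progA_slots w S univ p).2 (mem_univ _))
        ((mem_progA_slots w S univ q).2 (mem_univ _)) hpB hq _ _ x hx1 h0
    · obtain ⟨c, hc⟩ := CA_V' w Q θ q
      have hV : ∀ B : Finset (Fin n), q ∉ B → ∀ y ∈ Mmod w Q S (pos w B),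
          y ∈ (dataF w).V' q := by
        intro B hB y hy
        rw [Mmod_run w Q S _ hS] at hy
        exact run_le_V'_B (sigA w Q S) (sigA_start w Q S).mem B _ q hB hy
      rw [hc x (hV _ hq x hx)] at h0
      rw [hc _ (hV _ (fun h => hq (mem_of_mem_erase h)) _ hCp), ← map_smul, h0, map_zero]
  · intro S hS R I hR hI
    have hIB : I ⊆ Q ∪ R := hI.trans subset_union_right
    have h1 := hθ S (Q ∪ R) I hS hIB
    have h2 : Mmod w Q S (pos w (Q ∪ R)) ⊓ cker (CA w Q θ) I =
        run (sigA w Q S).tw (Q ∪ R) (progA w S univ) (Zv n) ⊓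
          cker (fun p => (sigA w Q S).con (fun l => thS w Q S θ (p, l)) p) I := by
      rw [← Mmod_run w Q S _ hS]
      ext x
      simp only [Submodule.mem_inf, mem_cker]
      constructor
      · rintro ⟨h3, h4⟩
        refine ⟨h3, fun p hp => ?_⟩
        rw [← hCA S _ hS p (hIB hp) x h3]
        exact h4 p hp
      · rintro ⟨h3, h4⟩
        refine ⟨h3, fun p hp => ?_⟩
        rw [hCA S _ hS p (hIB hp) x h3]
        exact h4 p hp
    rw [h2]
    refine h1.trans_eq ?_
    apply sum_congr rfl
    intro T hT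
    have h3 : (Q ∪ R) \ T = Q ∪ (R \ T) := by
      have hTR : T ⊆ R := (mem_powerset.1 hT).trans hI
      ext a
      simp only [mem_sdiff, mem_union]
      constructor
      · rintro ⟨h | h, h'⟩
        · exact Or.inl h
        · exact Or.inr ⟨h, h'⟩
      · rintro (h | h)
        · refine ⟨Or.inl h, fun h' => ?_⟩
          exact (mem_sdiff.1 (hR (hTR h'))).2 h
        · exact ⟨Or.inr h.1, h.2⟩
    rw [h3, Mmod_run w Q S _ hS]

end

end Gao
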