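import Pool.Agent.Gao.Alpha
import Pool.Agent.Gao.AlphaA

/-!
# Gao project: `AlphaProp` of the assembly holds
-/

namespace Gao

open Finset Module Pool.Agent.Gao

theorem alphaAbs : AlphaAbs := by
  intro n m ρ σ Z hZ L hL hs B I hIB hI
  exact alpha_gen σ hZ L hL hs [] B I hIB hI

theorem alphaProp_holds : AlphaProp := alphaProp alphaAbs

end Gao
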