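import Mathlib
import Pool.Agent.Gao.AlphaThm

/-!
# Gao project: `AlphaProp` of `Main.lean`
-/

set_option autoImplicit false

namespace Gao

/-- **(ALPHA)** -/
theorem alphaP : AlphaProp := alphaProp_holds

end Gao
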