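import Pool.Agent.Gao.KDInstA

/-!
# Concrete facts for part K (MODULE KDInst, Gao project, MP_b139df_co)

`s = dataJ J`: slot `x` = row `x`, index `k` = the column `gJ J k` (the `k`-th column of `J` from
the right), `ins x l` = creation of the boxes `(x, gJ J k)`, `k ∈ l`; `ext x l` = (no box in row `x`)
* annihilation of these boxes.  `labJ w J x` = the admissible labels: right size, all columns to
the right of the position of `x`.

PAPER PROOFS (everything from `FockTw`: `crL_crL`, `anL_crL'`, `dz_crL`, `dz_anL`, `boxes_nodup`,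
`length_boxes`, `bil_crL`, `anL_bil`, `dz_mul_self`, `an_dz_of_mem`, ... and from `GenLem`: `mem_gen`,
`gen_induction`, `Nmod_le_Fall`, `gen_col_stable_row`, `map_mem_of_Fall`, `hom_cr_col`, `hom_an_col`):
(1) signs: lists of boxes of different rows are disjoint, moving a product of `|l|` operators past a
    product of `|l'|` operators gives `(-1)^(|l||l'|)`; the projections `dz x` commute with everything
    in the other rows and with each other (`dia_comm`).
(2) `ext x l (ins x l' z) = δ z` for `z` without boxes in row `x` (`SlotData.ext_ins`); a vector of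
    `Fall (Fset w U J)`, `x ∉ U`, has no boxes in row `x`.
(3) `extJ_F`, `insJ_F`, `extJ_zero`: on the basis `ee D` (`map_mem_of_Fall`).
(4) `sum_insJ_extJ`: the row content of `Nmod w T J` is constant (`colE` moves boxes inside a row), in row `x` it is
    `|{j ∈ J : pos x < j, w j < x}|` = `szJ w J x`; on `ee D` with `D ⊆ Fset` and this row content the
    sum has exactly one nonzero term, `l` = the columns of row `x` of `D`.
(5) `colE_matrix`: `colE a b = ∑ y, cr (y,b) an (y,a)`; the summands `y ≠ x` commute with `ins x l` and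
    `ext x l` (bilinear in other rows); the summand `y = x`: `bil_crL`, `anL_bil`: the list `boxes x l`
    with `(x,a)` replaced by `(x,b)`; it is `0` if `(x,b)` is already there, otherwise a permutation of
    `boxes x l'`, `l' = l - a + b`; use the lemma: for a permutation `L ~ L'` there is `ε = ±1` with
    `crL (L'.map f) = ε • crL (L.map f)` and `anL (L'.map f) = ε • anL (L.map f)` for ALL `f` (induction on
    `List.Perm`), with `f` = id and `f` = exchange of the two boxes; so the same matrix works for both.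
(6) weights: products of `hom_cr_col`, `hom_an_col`; `dz x` has weight `0`.
(7) `rowE y z` is bilinear in rows different from `x`.
-/

namespace Gao

open Finset Module

noncomputable section

variable {B P : Type} [Fintype B] [DecidableEq B] [Fintype P] [DecidableEq P] {m : ℕ}

/-! ### lists -/

lemma anL_an (x : B) (L : List B) : anL L * Kost.an x = (-1 : ℂ) ^ L.length • (Kost.an x * anL L) := by
  induction L with
  | nil => simp
  | cons a L ih =>
    rw [anL_cons, mul_assoc, an_swap, mul_neg, ← mul_assoc, ih, List.length_cons, pow_succ,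
      smul_mul_assoc, mul_assoc, mul_neg, mul_one, neg_smul]

lemma an_anL (x : B) (L : List B) : Kost.an x * anL L = (-1 : ℂ) ^ L.length • (anL L * Kost.an x) := by
  rw [anL_an, smul_smul, ← pow_add, ← two_mul, pow_mul]
  norm_num

/-- permuting a list changes the products by a sign which depends only on the lists -/
lemma perm_sign {κ : Type*} {M M' : List κ} (h : M.Perm M') :
    ∃ ε : ℂ, ε * ε = 1 ∧ ∀ f : κ → B, crL (M.map f) = ε • crL (M'.map f) ∧
      anL (M.map f) = ε • anL (M'.map f) := by
  induction h with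
  | nil => exact ⟨1, by simp, fun f => by simp⟩
  | @cons a M M' _ ih =>
    obtain ⟨ε, hε, hf⟩ := ih
    refine ⟨ε, hε, fun f => ?_⟩
    rw [List.map_cons, List.map_cons, crL_cons, crL_cons, anL_cons, anL_cons, (hf f).1, (hf f).2,
      mul_smul_comm, smul_mul_assoc]
    exact ⟨rfl, rfl⟩
  | swap a b M =>
    refine ⟨-1, by simp, fun f => ?_⟩
    simp only [List.map_cons, crL_cons, anL_cons]
    constructor
    · rw [← mul_assoc, cr_swap, neg_mul, mul_assoc, neg_one_smul]
    · rw [mul_assoc, an_swap, mul_neg, ← mul_assoc, neg_one_smul]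
  | trans _ _ ih1 ih2 =>
    obtain ⟨ε, hε, hf⟩ := ih1
    obtain ⟨ε', hε', hf'⟩ := ih2
    refine ⟨ε * ε', ?_, fun f => ?_⟩
    · calc ε * ε' * (ε * ε') = (ε * ε) * (ε' * ε') := by ring
        _ = 1 := by rw [hε, hε', one_mul]
    · rw [(hf f).1, (hf' f).1, (hf f).2, (hf' f).2, smul_smul, smul_smul]
      exact ⟨rfl, rfl⟩

/-- creation of a list of boxes -/
lemma crL_ee_box {L : List B} (hL : L.Nodup) {D : Finset B} (hD : ∀ x ∈ L, x ∉ D) :
    ∃ t : ℂ, t ≠ 0 ∧ crL L (Kost.ee D) = t • Kost.ee (D ∪ L.toFinset) := by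
  induction L with
  | nil =>
    refine ⟨1, one_ne_zero, ?_⟩
    simp [crL]
  | cons a L ih =>
    rw [List.nodup_cons] at hL
    obtain ⟨t, ht, h1⟩ := ih hL.2 (fun x hx => hD x (List.mem_cons_of_mem _ hx))
    have h3 : a ∉ D ∪ L.toFinset := by
      rw [mem_union, List.mem_toFinset]
      rintro (h | h)
      · exact hD a List.mem_cons_self h
      · exact hL.1 h
    have hs : Kost.sgn a (D ∪ L.toFinset) ≠ 0 := by
      intro h0
      have h4 := Kost.sgn_mul_self a (D ∪ L.toFinset)
      rw [h0, zero_mul] at h4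
      exact zero_ne_one h4
    refine ⟨t * Kost.sgn a (D ∪ L.toFinset), mul_ne_zero ht hs, ?_⟩
    rw [crL_cons, Module.End.mul_apply, h1, map_smul, Kost.cr_ee, if_neg h3, smul_smul]
    congr 2
    rw [List.toFinset_cons, Finset.union_insert]

/-! ### different slots -/

namespace SlotData

variable (s : SlotData B P m)

lemma ext_ext_ne {p q : P} (hpq : p ≠ q) (l l' : Finset (Fin m)) (x : Kost.Fock B) :
    s.ext p l (s.ext q l' x) =
      (-1 : ℂ) ^ ((s.boxes p l).length * (s.boxes q l').length) • s.ext q l' (s.ext p l x) := by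
  have h1 : s.dz p * anL (s.boxes p l) * (s.dz q * anL (s.boxes q l')) =
      (-1 : ℂ) ^ ((s.boxes p l).length * (s.boxes q l').length) •
        (s.dz q * anL (s.boxes q l') * (s.dz p * anL (s.boxes p l))) := by
    have e1 : s.dz q * anL (s.boxes p l) = anL (s.boxes p l) * s.dz q :=
      s.dz_anL (fun x hx => s.notMem_Sl hpq (s.boxes_Sl hx))
    have e2 : s.dz p * anL (s.boxes q l') = anL (s.boxes q l') * s.dz p :=
      s.dz_anL (fun x hx => s.notMem_Sl hpq.symm (s.boxes_Sl hx))
    have e3 : s.dz p * s.dz q = s.dz q * s.dz p := dia_comm _ _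
    have e4 := anL_anL (s.boxes q l') (s.boxes p l)
    rw [mul_comm (s.boxes q l').length] at e4
    calc s.dz p * anL (s.boxes p l) * (s.dz q * anL (s.boxes q l'))
        = s.dz p * (anL (s.boxes p l) * s.dz q) * anL (s.boxes q l') := by
          simp only [mul_assoc]
      _ = s.dz p * s.dz q * (anL (s.boxes p l) * anL (s.boxes q l')) := by
          rw [← e1]; simp only [mul_assoc]
      _ = (-1 : ℂ) ^ ((s.boxes p l).length * (s.boxes q l').length) •
            (s.dz q * (s.dz p * anL (s.boxes q l')) * anL (s.boxes p l)) := by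
          rw [e4, e3, mul_smul_comm]; simp only [mul_assoc]
      _ = _ := by rw [e2]; simp only [mul_assoc]
  exact congrArg (fun g : Module.End ℂ (Kost.Fock B) => g x) h1

lemma ext_ins_ne {p q : P} (hpq : p ≠ q) (l l' : Finset (Fin m)) (x : Kost.Fock B) :
    s.ext p l (s.ins q l' x) =
      (-1 : ℂ) ^ ((s.boxes p l).length * (s.boxes q l').length) • s.ins q l' (s.ext p l x) := by
  rw [s.ext_apply, s.ins_apply, s.ext_apply, s.ins_apply, ← Module.End.mul_apply (anL _),
    anL_crL' (fun x hx hx' => s.notMem_Sl hpq (s.boxes_Sl hx) (s.boxes_Sl hx')),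
    LinearMap.smul_apply, map_smul, Module.End.mul_apply, ← Module.End.mul_apply (s.dz p),
    s.dz_crL (fun x hx => s.notMem_Sl hpq.symm (s.boxes_Sl hx)), Module.End.mul_apply,
    mul_comm (s.boxes q l').length]

lemma ins_ins_ne (p q : P) (l l' : Finset (Fin m)) (x : Kost.Fock B) :
    s.ins p l (s.ins q l' x) =
      (-1 : ℂ) ^ ((s.boxes p l).length * (s.boxes q l').length) • s.ins q l' (s.ins p l x) := by
  rw [s.ins_apply, s.ins_apply, s.ins_apply, s.ins_apply, ← Module.End.mul_apply (crL _),
    crL_crL, LinearMap.smul_apply, Module.End.mul_apply, mul_comm (s.boxes q l').length]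

/-- `E i j` on `ins p l`, general indices -/
lemma E_ins_gen (p : P) (l : Finset (Fin m)) (i j : Fin m) (z : Kost.Fock B) :
    s.E i j (s.ins p l z) = (if i ∈ l then crL (repl (s.b i p) (s.b j p) (s.boxes p l)) z else 0) +
      s.ins p l (s.E i j z) := by
  have h1 : s.E i j * crL (s.boxes p l) = (if i ∈ l then
      crL (repl (s.b i p) (s.b j p) (s.boxes p l)) else 0) + crL (s.boxes p l) * s.E i j := by
    rw [s.E_eq p, add_mul, mul_add, s.rest_crL, bil_crL (s.boxes_nodup p l), add_assoc]
    congr 1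
    by_cases hi' : i ∈ l
    · rw [if_pos (s.b_mem_boxes.2 hi'), if_pos hi']
    · rw [if_neg (fun h' => hi' (s.b_mem_boxes.1 h')), if_neg hi']
  have h2 := congrArg (fun g : Module.End ℂ (Kost.Fock B) => g z) h1
  simp only [Module.End.mul_apply, LinearMap.add_apply] at h2
  rw [s.ins_apply, s.ins_apply, h2]
  congr 1
  split_ifs <;> rfl

/-- `ext p l` on `E i j`, general indices -/
lemma ext_E_gen (p : P) (l : Finset (Fin m)) {i j : Fin m} (y : Kost.Fock B) :
    s.ext p l (s.E i j y) = (if j ∈ l then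
      s.dz p (anL (repl (s.b j p) (s.b i p) (s.boxes p l)) y) else 0) +
      s.E i j (s.ext p l y) := by
  have h1 : s.dz p * anL (s.boxes p l) * s.E i j = (if j ∈ l then
      s.dz p * anL (repl (s.b j p) (s.b i p) (s.boxes p l)) else 0) +
        s.E i j * (s.dz p * anL (s.boxes p l)) := by
    have e1 : Kost.cr (s.b j p) * Kost.an (s.b i p) * (s.dz p * anL (s.boxes p l)) = 0 := by
      rw [← mul_assoc, mul_assoc (Kost.cr _) (Kost.an _), s.an_dz_of_mem (s.b_mem i p), mul_zero,
        zero_mul]
    have e2 : s.dz p * (Kost.cr (s.b j p) * Kost.an (s.b i p) * anL (s.boxes p l)) = 0 := by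
      rw [← mul_assoc, ← mul_assoc, s.dz_cr_of_mem (s.b_mem j p), zero_mul, zero_mul]
    rw [s.E_eq p, mul_add, add_mul, mul_assoc, mul_assoc, s.anL_rest, e1, zero_add,
      anL_bil (s.boxes_nodup p l), mul_add, e2, add_zero, ← mul_assoc (s.dz p) (∑ q ∈ _, _),
      s.dz_rest, mul_assoc]
    congr 1
    by_cases hj : j ∈ l
    · rw [if_pos (s.b_mem_boxes.2 hj), if_pos hj]
    · rw [if_neg (fun h' => hj (s.b_mem_boxes.1 h')), if_neg hj, mul_zero]
  have h2 := congrArg (fun g : Module.End ℂ (Kost.Fock B) => g y) h1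
  simp only [Module.End.mul_apply, LinearMap.add_apply] at h2
  rw [s.ext_apply, s.ext_apply, h2]
  congr 1
  split_ifs <;> rfl

end SlotData

/-! ### the spaces `Fall` -/

section Fall

variable {n : ℕ}

lemma map_Fall {T : Module.End ℂ (Fk n)} {E : Finset (Fin n × Fin n)} {X : Submodule ℂ (Fk n)}
    (h : ∀ D ⊆ E, T (Kost.ee D) ∈ X) : ∀ x ∈ Fall E, T x ∈ X := by
  have h1 : Fall E ≤ X.comap T := by
    apply Submodule.span_le.2
    rintro v ⟨D, hD, rfl⟩
    exact h D hD
  exact h1

lemma an_Fall {E : Finset (Fin n × Fin n)} (b : Fin n × Fin n) :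
    ∀ x ∈ Fall E, Kost.an b x ∈ Fall E := by
  apply map_Fall
  intro D hD
  rw [Kost.an_ee]
  split_ifs
  · exact Submodule.smul_mem _ _ (ee_mem_Fall ((Finset.erase_subset _ _).trans hD))
  · exact Submodule.zero_mem _

lemma an_Fall_zero {E : Finset (Fin n × Fin n)} {b : Fin n × Fin n} (hb : b ∉ E) :
    ∀ x ∈ Fall E, Kost.an b x = 0 := by
  have h := map_Fall (T := Kost.an b) (E := E) (X := ⊥) (by
    intro D hD
    rw [Kost.an_ee, if_neg (fun h => hb (hD h))]
    exact Submodule.zero_mem _)
  intro x hx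
  exact (Submodule.mem_bot ℂ).1 (h x hx)

lemma cr_Fall {E : Finset (Fin n × Fin n)} {b : Fin n × Fin n} (hb : b ∈ E) :
    ∀ x ∈ Fall E, Kost.cr b x ∈ Fall E := by
  apply map_Fall
  intro D hD
  rw [Kost.cr_ee]
  split_ifs
  · exact Submodule.zero_mem _
  · refine Submodule.smul_mem _ _ (ee_mem_Fall ?_)
    intro y hy
    rcases Finset.mem_insert.1 hy with rfl | hy
    · exact hb
    · exact hD hy

lemma anL_Fall {E : Finset (Fin n × Fin n)} (L : List (Fin n × Fin n)) :
    ∀ x ∈ Fall E, anL L x ∈ Fall E := by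
  induction L with
  | nil => intro x hx; exact hx
  | cons a L ih =>
    intro x hx
    rw [anL_cons, Module.End.mul_apply]
    exact ih _ (an_Fall a x hx)

lemma crL_Fall {E : Finset (Fin n × Fin n)} {L : List (Fin n × Fin n)} (hL : ∀ b ∈ L, b ∈ E) :
    ∀ x ∈ Fall E, crL L x ∈ Fall E := by
  induction L with
  | nil => intro x hx; exact hx
  | cons a L ih =>
    intro x hx
    rw [crL_cons, Module.End.mul_apply]
    exact cr_Fall (hL a (by simp)) _ (ih (fun b hb => hL b (by simp [hb])) x hx)

lemma Fset_mono {w : Equiv.Perm (Fin n)} {A A' J : Finset (Fin n)} (h : A ⊆ A') :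
    Fset w A J ⊆ Fset w A' J := by
  intro b hb
  rw [mem_Fset] at hb ⊢
  exact ⟨h hb.1, hb.2⟩

end Fall

/-! ### the J-side -/

section J

variable {n : ℕ} (w : Equiv.Perm (Fin n)) (J : Finset (Fin n))

/-- the admissible labels -/
def labJ (i : Fin n) : Finset (Finset (Fin J.card)) :=
  univ.filter (fun l => l.card = szJ w J i ∧ ∀ k ∈ l, w.symm i < gJ J k)

lemma mem_labJ {i : Fin n} {l : Finset (Fin J.card)} :
    l ∈ labJ w J i ↔ l.card = szJ w J i ∧ ∀ k ∈ l, w.symm i < gJ J k := by
  unfold labJ
  rw [mem_filter]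
  simp

lemma gJ_mem (k : Fin J.card) : gJ J k ∈ J := J.orderEmbOfFin_mem rfl _

lemma gJ_inj {k k' : Fin J.card} (h : gJ J k = gJ J k') : k = k' :=
  Fin.rev_injective ((J.orderEmbOfFin rfl).injective h)

lemma exists_gJ {j : Fin n} (hj : j ∈ J) : ∃ k, gJ J k = j := by
  have h1 : j ∈ Set.range (J.orderEmbOfFin rfl) := by
    rw [Finset.range_orderEmbOfFin]
    exact hj
  obtain ⟨k, hk⟩ := h1
  refine ⟨Fin.rev k, ?_⟩
  unfold gJ
  rw [Fin.rev_rev, hk]

lemma boxesJ (i : Fin n) (l : Finset (Fin J.card)) :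
    (dataJ J).boxes i l = (l.sort (· ≤ ·)).map (fun k => (i, gJ J k)) := by
  change (l.sort (· ≤ ·)).map (fun k => (dataJ J).b k i) ++ [] = _
  rw [List.append_nil]
  rfl

lemma mem_boxesJ {i : Fin n} {l : Finset (Fin J.card)} {b : Fin n × Fin n} :
    b ∈ (dataJ J).boxes i l ↔ ∃ k ∈ l, (i, gJ J k) = b := by
  rw [boxesJ, List.mem_map]
  simp

/-- the sign of two rows -/
def sgJ (i j : Fin n) : ℂ := (-1) ^ (szJ w J i * szJ w J j)

theorem sgJ_sq (i j : Fin n) : sgJ w J i j * sgJ w J i j = 1 := by
  unfold sgJ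
  rw [← pow_add, ← two_mul, pow_mul]
  norm_num

/-- vectors without boxes in the row `i` -/
theorem Fall_le_V' {i : Fin n} {U : Finset (Fin n)} (hi : i ∉ U) :
    Fall (Fset w U J) ≤ (dataJ J).V' i := by
  apply Submodule.span_le.2
  rintro v ⟨D, hD, rfl⟩
  rw [SetLike.mem_coe, (dataJ J).mem_V', (dataJ J).dz_ee, if_pos]
  rw [Finset.disjoint_left]
  intro b hb hb'
  rw [mem_SlJ] at hb'
  exact hi (hb' ▸ (mem_Fset.1 (hD hb)).1)

theorem extJ_F₀ (U : Finset (Fin n)) (i : Fin n) (l : Finset (Fin J.card)) :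
    ∀ x ∈ Fall (Fset w U J), (dataJ J).ext i l x ∈ Fall (Fset w (U.erase i) J) := by
  intro x hx
  rw [(dataJ J).ext_apply]
  refine map_Fall (E := Fset w U J) ?_ _ (anL_Fall _ x hx)
  intro D hD
  rw [(dataJ J).dz_ee]
  split_ifs with h
  · apply ee_mem_Fall
    intro b hb
    have h1 := mem_Fset.1 (hD hb)
    rw [mem_Fset, mem_erase]
    refine ⟨⟨?_, h1.1⟩, h1.2⟩
    intro h2
    exact Finset.disjoint_left.1 h hb (mem_SlJ.2 h2)
  · exact Submodule.zero_mem _

theorem insJ_F₀ (U : Finset (Fin n)) (i : Fin n) (hi : i ∈ U) (l : Finset (Fin J.card))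
    (hl : ∀ k ∈ l, w.symm i < gJ J k) :
    ∀ z ∈ Fall (Fset w (U.erase i) J), (dataJ J).ins i l z ∈ Fall (Fset w U J) := by
  intro z hz
  rw [(dataJ J).ins_apply]
  refine crL_Fall ?_ z (Fall_mono (Fset_mono (Finset.erase_subset _ _)) hz)
  intro b hb
  obtain ⟨k, hk, rfl⟩ := (mem_boxesJ J).1 hb
  exact mem_Fset.2 ⟨hi, gJ_mem J k, hl k hk⟩

/-- non-admissible labels -/
theorem extJ_zero₀ (U : Finset (Fin n)) (i : Fin n) (l : Finset (Fin J.card))
    (hl : ∃ k ∈ l, ¬ w.symm i < gJ J k) : ∀ x ∈ Fall (Fset w U J), (dataJ J).ext i l x = 0 := by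
  intro x hx
  obtain ⟨k, hk, hk'⟩ := hl
  rw [(dataJ J).ext_apply, anL_zero_of_mem ((mem_boxesJ J).2 ⟨k, hk, rfl⟩), map_zero]
  apply an_Fall_zero _ x hx
  intro h
  exact hk' (mem_Fset.1 h).2.2

/-- the vectors of `Fall (Fset w U J)` with `szJ w J i` boxes in the row `i` -/
def FallR (U : Finset (Fin n)) (i : Fin n) : Submodule ℂ (Fk n) :=
  Submodule.span ℂ {v | ∃ D : Finset (Fin n × Fin n), D ⊆ Fset w U J ∧
    rowCnt D i = (szJ w J i : ℤ) ∧ v = Kost.ee D}

theorem FallR_le (U : Finset (Fin n)) (i : Fin n) : FallR w J U i ≤ Fall (Fset w U J) := by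
  apply Submodule.span_mono
  rintro v ⟨D, hD, _, rfl⟩
  exact ⟨D, hD, rfl⟩

theorem resJ (U : Finset (Fin n)) (i : Fin n) : ∀ x ∈ FallR w J U i,
    ∑ l ∈ labJ w J i, (dataJ J).ins i l ((dataJ J).ext i l x) = x := by
  have key : FallR w J U i ≤ LinearMap.ker ((∑ l ∈ labJ w J i,
      ((dataJ J).ins i l * (dataJ J).ext i l : Module.End ℂ (Fk n))) - 1) := by
    apply Submodule.span_le.2
    rintro v ⟨D, hD, hc, rfl⟩
    rw [SetLike.mem_coe, LinearMap.mem_ker, LinearMap.sub_apply, LinearMap.sum_apply,
      Module.End.one_apply, sub_eq_zero]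
    set C : Finset (Fin J.card) := univ.filter (fun k => (i, gJ J k) ∈ D) with hC
    have hmemC : ∀ k, k ∈ C ↔ (i, gJ J k) ∈ D := by
      intro k
      rw [hC, mem_filter]
      simp
    have hrow : D.filter (fun b => b.1 = i) = C.map ⟨fun k => (i, gJ J k), by
        intro k k' h
        exact gJ_inj J (Prod.mk.inj h).2⟩ := by
      ext b
      rw [mem_filter, mem_map]
      constructor
      · rintro ⟨hb, rfl⟩
        obtain ⟨k, hk⟩ := exists_gJ J (mem_Fset.1 (hD hb)).2.1
        refine ⟨k, (hmemC k).2 (by rw [hk]; exact hb), ?_⟩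
        change (b.1, gJ J k) = b
        rw [hk]
      · rintro ⟨k, hk, rfl⟩
        exact ⟨(hmemC k).1 hk, rfl⟩
    have hcard : C.card = szJ w J i := by
      unfold rowCnt at hc
      rw [hrow, card_map] at hc
      exact_mod_cast hc
    have hCl : C ∈ labJ w J i := by
      rw [mem_labJ]
      refine ⟨hcard, fun k hk => ?_⟩
      exact (mem_Fset.1 (hD ((hmemC k).1 hk))).2.2
    rw [Finset.sum_eq_single C]
    · set D₀ := D.filter (fun b => ¬ b.1 = i) with hD₀
      have hdis : Disjoint D₀ ((dataJ J).Sl i) := by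
        rw [Finset.disjoint_left]
        intro b hb hb'
        rw [mem_SlJ] at hb'
        exact (mem_filter.1 hb).2 hb'
      have hun : D₀ ∪ ((dataJ J).boxes i C).toFinset = D := by
        ext b
        rw [mem_union, List.mem_toFinset, mem_boxesJ, hD₀, mem_filter]
        constructor
        · rintro (h | ⟨k, hk, rfl⟩)
          · exact h.1
          · exact (hmemC k).1 hk
        · intro hb
          by_cases hbi : b.1 = i
          · right
            have h1 : b ∈ D.filter (fun b => b.1 = i) := mem_filter.2 ⟨hb, hbi⟩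
            rw [hrow, mem_map] at h1
            exact h1
          · exact Or.inl ⟨hb, hbi⟩
      obtain ⟨t, ht, h1⟩ := crL_ee_box ((dataJ J).boxes_nodup i C) (D := D₀) (fun x hx h =>
        Finset.disjoint_left.1 hdis h ((dataJ J).boxes_Sl hx))
      rw [hun] at h1
      have hV : Kost.ee D₀ ∈ (dataJ J).V' i := by
        rw [(dataJ J).mem_V', (dataJ J).dz_ee, if_pos hdis]
      have h2 : Kost.ee D = t⁻¹ • (dataJ J).ins i C (Kost.ee D₀) := by
        rw [(dataJ J).ins_apply, h1, smul_smul, inv_mul_cancel₀ ht, one_smul]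
      rw [Module.End.mul_apply]
      conv_lhs => rw [h2]
      rw [map_smul, (dataJ J).ext_ins i C C _ hV, if_pos rfl, map_smul, ← h2]
    · intro l hl hne
      have h1 : ∃ k ∈ l, k ∉ C := by
        by_contra h1
        push Not at h1
        have h2 : l.card = C.card := by rw [hcard, ((mem_labJ w J).1 hl).1]
        exact hne (Finset.eq_of_subset_of_card_le h1 h2.ge)
      obtain ⟨k, hk, hk'⟩ := h1
      rw [Module.End.mul_apply, (dataJ J).ext_apply,
        anL_zero_of_mem ((mem_boxesJ J).2 ⟨k, hk, rfl⟩), map_zero, map_zero]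
      rw [Kost.an_ee, if_neg (fun h => hk' ((hmemC k).2 h))]
    · intro h
      exact absurd hCl h
  intro x hx
  have h1 := key hx
  rw [LinearMap.mem_ker, LinearMap.sub_apply, LinearMap.sum_apply, Module.End.one_apply,
    sub_eq_zero] at h1
  exact h1

/-- `colE a b` preserves `FallR` -/
theorem colE_FallR (U : Finset (Fin n)) (i : Fin n) {a b : Fin n} (hb : b ∈ J)
    (hab : a < b) : ∀ x ∈ FallR w J U i, colE a b x ∈ FallR w J U i := by
  have key : FallR w J U i ≤ (FallR w J U i).comap (colE a b) := by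
    apply Submodule.span_le.2
    rintro v ⟨D, hD, hc, rfl⟩
    rw [SetLike.mem_coe, Submodule.mem_comap]
    unfold colE
    rw [LinearMap.sum_apply]
    refine Submodule.sum_mem _ fun x _ => ?_
    rw [Module.End.mul_apply, Kost.an_ee]
    split_ifs with h1
    · rw [map_smul, Kost.cr_ee]
      split_ifs with h2
      · rw [smul_zero]; exact Submodule.zero_mem _
      · refine Submodule.smul_mem _ _ (Submodule.smul_mem _ _ (Submodule.subset_span ?_))
        refine ⟨_, ?_, ?_, rfl⟩
        · intro y hy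
          rcases Finset.mem_insert.1 hy with rfl | hy
          · have h3 := mem_Fset.1 (hD h1)
            exact mem_Fset.2 ⟨h3.1, hb, h3.2.2.trans hab⟩
          · exact hD (Finset.mem_of_mem_erase hy)
        · rw [rowCnt_insert h2, rowCnt_erase h1, neg_add_cancel_right, hc]
    · rw [map_zero]; exact Submodule.zero_mem _
  exact key

lemma rowCnt_Dset {T : Finset (Fin n)} {i : Fin n} (hi : i ∈ T) :
    rowCnt (Dset w T J) i = (szJ w J i : ℤ) := by
  unfold rowCnt szJ
  congr 1
  have h1 : (Dset w T J).filter (fun b => b.1 = i) =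
      (J.filter (fun j => w.symm i < j ∧ w j < i)).map ⟨fun j => (i, j), by
        intro j j' h
        exact (Prod.mk.inj h).2⟩ := by
    ext b
    rw [mem_filter, mem_map, mem_Dset]
    constructor
    · rintro ⟨⟨_, h2, h3, h4⟩, rfl⟩
      exact ⟨b.2, mem_filter.2 ⟨h2, h3, h4⟩, rfl⟩
    · rintro ⟨j, hj, rfl⟩
      rw [mem_filter] at hj
      exact ⟨⟨hi, hj.1, hj.2.1, hj.2.2⟩, rfl⟩
  rw [h1, card_map]

/-- `N T` has `szJ w J i` boxes in every row `i ∈ T` -/
theorem Nmod_le_FallR {T : Finset (Fin n)} {i : Fin n} (hi : i ∈ T) :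
    Nmod w T J ≤ FallR w J T i := by
  unfold Nmod
  apply gen_le
  · refine Submodule.subset_span ⟨Dset w T J, ?_, rowCnt_Dset w J hi, rfl⟩
    intro b hb
    have h := mem_Dset.1 hb
    exact mem_Fset.2 ⟨h.1, h.2.1, h.2.2.1⟩
  · rintro _ ⟨a, _, b, hb, hab, rfl⟩ x hx
    exact colE_FallR w J T i hb hab x hx

/-- resolution of the identity on `N T` -/
theorem resJ_N {T : Finset (Fin n)} {i : Fin n} (hi : i ∈ T) : ∀ x ∈ Nmod w T J,
    ∑ l ∈ labJ w J i, (dataJ J).ins i l ((dataJ J).ext i l x) = x :=
  fun x hx => resJ w J T i x (Nmod_le_FallR w J hi hx)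

/-! ### the action of the column operators -/

/-- replacing `ka` by `kb` in a label -/
lemma perm_repl {m : ℕ} {l : Finset (Fin m)} {ka kb : Fin m} (ha : ka ∈ l) (hb : kb ∉ l) :
    ((l.sort (· ≤ ·)).map (fun k => if k = ka then kb else k)).Perm
      ((insert kb (l.erase ka)).sort (· ≤ ·)) := by
  have hnd : ((l.sort (· ≤ ·)).map (fun k => if k = ka then kb else k)).Nodup := by
    apply List.Nodup.map_on _ (Finset.sort_nodup _ _)
    intro x hx y hy hxy
    rw [Finset.mem_sort] at hx hy
    by_cases h1 : x = ka <;> by_cases h2 : y = ka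
    · rw [h1, h2]
    · rw [if_pos h1, if_neg h2] at hxy
      exact absurd (hxy ▸ hy) hb
    · rw [if_neg h1, if_pos h2] at hxy
      exact absurd (hxy ▸ hx) hb
    · rw [if_neg h1, if_neg h2] at hxy
      exact hxy
  rw [List.perm_ext_iff_of_nodup hnd (Finset.sort_nodup _ _)]
  intro k
  rw [List.mem_map, Finset.mem_sort, mem_insert, mem_erase]
  constructor
  · rintro ⟨x, hx, rfl⟩
    rw [Finset.mem_sort] at hx
    by_cases h1 : x = ka
    · rw [if_pos h1]; exact Or.inl rfl
    · rw [if_neg h1]; exact Or.inr ⟨h1, hx⟩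
  · rintro (rfl | ⟨h1, h2⟩)
    · exact ⟨ka, (Finset.mem_sort _).2 ha, if_pos rfl⟩
    · exact ⟨k, (Finset.mem_sort _).2 h2, if_neg h1⟩

/-- the row `i` of the column operator `colE a b` -/
theorem colE_mat {a b : Fin n} (ha : a ∈ J) (hb : b ∈ J) (hab : a < b) :
    ∃ M : Finset (Fin J.card) → Finset (Fin J.card) → ℂ, ∀ i : Fin n,
      (∀ l ∈ labJ w J i, ∀ z, colE a b ((dataJ J).ins i l z) =
        ∑ l' ∈ labJ w J i, M l' l • (dataJ J).ins i l' z + (dataJ J).ins i l (colE a b z)) ∧
      (∀ U : Finset (Fin n), ∀ l ∈ labJ w J i, ∀ y ∈ Fall (Fset w U J),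
        (dataJ J).ext i l (colE a b y) =
        ∑ l' ∈ labJ w J i, M l l' • (dataJ J).ext i l' y + colE a b ((dataJ J).ext i l y)) := by
  obtain ⟨ka, hka⟩ := exists_gJ J ha
  obtain ⟨kb, hkb⟩ := exists_gJ J hb
  have hne : ka ≠ kb := by
    rintro rfl
    rw [hka] at hkb
    exact absurd hkb (ne_of_lt hab)
  have hE : colE a b = (dataJ J).E ka kb := by
    rw [dataJ_E, hka, hkb]
  have hsg : ∀ l : Finset (Fin J.card), ∃ ε : ℂ, ka ∈ l → kb ∉ l → (ε * ε = 1 ∧
      ∀ f : Fin J.card → Fin n × Fin n,
        crL (((l.sort (· ≤ ·)).map (fun k => if k = ka then kb else k)).map f) =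
          ε • crL (((insert kb (l.erase ka)).sort (· ≤ ·)).map f) ∧
        anL (((l.sort (· ≤ ·)).map (fun k => if k = ka then kb else k)).map f) =
          ε • anL (((insert kb (l.erase ka)).sort (· ≤ ·)).map f)) := by
    intro l
    by_cases h : ka ∈ l ∧ kb ∉ l
    · obtain ⟨ε, h1, h2⟩ := perm_sign (B := Fin n × Fin n) (perm_repl h.1 h.2)
      exact ⟨ε, fun _ _ => ⟨h1, h2⟩⟩
    · exact ⟨0, fun h1 h2 => absurd ⟨h1, h2⟩ h⟩
  choose ε hε using hsg
  obtain ⟨M, hM⟩ : ∃ M : Finset (Fin J.card) → Finset (Fin J.card) → ℂ, ∀ l' l, M l' l =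
      if ka ∈ l ∧ kb ∉ l ∧ l' = insert kb (l.erase ka) then ε l else 0 := ⟨_, fun _ _ => rfl⟩
  refine ⟨M, ?_⟩
  intro i
  constructor
  · intro l hl z
    rw [hE, (dataJ J).E_ins_gen]
    congr 1
    by_cases h1 : ka ∈ l
    · rw [if_pos h1]
      by_cases h2 : kb ∈ l
      · rw [crL_of_not_nodup ((dataJ J).repl_boxes_dup i hne h1 h2), LinearMap.zero_apply]
        symm
        apply Finset.sum_eq_zero
        intro l' _
        rw [hM, if_neg (fun h => h.2.1 h2), zero_smul]
      · have hl' : insert kb (l.erase ka) ∈ labJ w J i := by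
          rw [mem_labJ] at hl ⊢
          constructor
          · rw [card_insert_of_notMem (fun h => h2 (mem_of_mem_erase h)), card_erase_of_mem h1,
              Nat.sub_add_cancel (card_pos.2 ⟨ka, h1⟩), hl.1]
          · intro k hk
            rcases mem_insert.1 hk with rfl | hk
            · have h3 := hl.2 ka h1
              rw [hka] at h3
              rw [hkb]
              exact h3.trans hab
            · exact hl.2 k (mem_of_mem_erase hk)
        have h3 : repl ((dataJ J).b ka i) ((dataJ J).b kb i) ((dataJ J).boxes i l) =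
            ((l.sort (· ≤ ·)).map (fun k => if k = ka then kb else k)).map
              (fun k => (i, gJ J k)) := by
          rw [boxesJ]
          unfold repl
          rw [List.map_map, List.map_map]
          apply List.map_congr_left
          intro k _
          simp only [Function.comp]
          by_cases h4 : k = ka
          · rw [if_pos h4, h4]
            exact if_pos rfl
          · rw [if_neg h4, if_neg]
            intro h5
            exact h4 (gJ_inj J (Prod.mk.inj h5).2)
        rw [h3, ((hε l h1 h2).2 _).1, ← boxesJ, Finset.sum_eq_single (insert kb (l.erase ka))]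
        · rw [hM, if_pos ⟨h1, h2, rfl⟩]
          rfl
        · intro l' _ hne'
          rw [hM, if_neg (fun h => hne' h.2.2), zero_smul]
        · intro h; exact absurd hl' h
    · rw [if_neg h1]
      symm
      apply Finset.sum_eq_zero
      intro l' _
      rw [hM, if_neg (fun h => h1 h.1), zero_smul]
  · intro U l hl y hy
    rw [hE, (dataJ J).ext_E_gen]
    congr 1
    by_cases h1 : kb ∈ l
    · rw [if_pos h1]
      by_cases h2 : ka ∈ l
      · rw [anL_of_not_nodup ((dataJ J).repl_boxes_dup i hne.symm h1 h2), LinearMap.zero_apply,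
          map_zero]
        symm
        apply Finset.sum_eq_zero
        intro l' _
        rw [hM, if_neg, zero_smul]
        rintro ⟨_, _, h5⟩
        rw [h5, mem_insert] at h2
        rcases h2 with h2 | h2
        · exact hne h2
        · exact (mem_erase.1 h2).1 rfl
      · set l₂ : Finset (Fin J.card) := insert ka (l.erase kb) with hl₂
        have hka2 : ka ∈ l₂ := mem_insert_self _ _
        have hkb2 : kb ∉ l₂ := by
          rw [hl₂, mem_insert]
          rintro (h | h)
          · exact hne h.symm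
          · exact (mem_erase.1 h).1 rfl
        have hback : insert kb (l₂.erase ka) = l := by
          rw [hl₂, erase_insert (fun h => h2 (mem_of_mem_erase h)), insert_erase h1]
        have hsgn := hε l₂ hka2 hkb2
        rw [hback] at hsgn
        -- the map back
        have h3 : repl ((dataJ J).b kb i) ((dataJ J).b ka i) ((dataJ J).boxes i l) =
            (l.sort (· ≤ ·)).map (fun k => (i, gJ J (if k = kb then ka else k))) := by
          rw [boxesJ]
          unfold repl
          rw [List.map_map]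
          apply List.map_congr_left
          intro k _
          simp only [Function.comp]
          by_cases h4 : k = kb
          · rw [if_pos h4, h4]
            exact if_pos rfl
          · rw [if_neg h4, if_neg]
            intro h5
            exact h4 (gJ_inj J (Prod.mk.inj h5).2)
        have h4 := (hsgn.2 (fun k => (i, gJ J (if k = kb then ka else k)))).2
        have h5 : ((l₂.sort (· ≤ ·)).map (fun k => if k = ka then kb else k)).map
            (fun k => (i, gJ J (if k = kb then ka else k))) = (dataJ J).boxes i l₂ := by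
          rw [boxesJ, List.map_map]
          apply List.map_congr_left
          intro k hk
          rw [Finset.mem_sort] at hk
          simp only [Function.comp]
          by_cases h6 : k = ka
          · rw [if_pos h6, if_pos rfl, h6]
          · rw [if_neg h6, if_neg]
            intro h7
            exact hkb2 (h7 ▸ hk)
        rw [h5, ← h3] at h4
        have h6 : anL (repl ((dataJ J).b kb i) ((dataJ J).b ka i) ((dataJ J).boxes i l)) =
            ε l₂ • anL ((dataJ J).boxes i l₂) := by
          rw [h4, smul_smul, hsgn.1, one_smul]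
        rw [h6, LinearMap.smul_apply, map_smul, ← (dataJ J).ext_apply]
        by_cases hl2 : l₂ ∈ labJ w J i
        · rw [Finset.sum_eq_single l₂]
          · rw [hM, if_pos ⟨hka2, hkb2, hback.symm⟩]
          · intro l' _ hne'
            rw [hM, if_neg, zero_smul]
            rintro ⟨h7, h8, h9⟩
            apply hne'
            rw [hl₂, h9, erase_insert (fun h => h8 (mem_of_mem_erase h)), insert_erase h7]
          · intro h; exact absurd hl2 h
        · have h7 : (dataJ J).ext i l₂ y = 0 := by
            apply extJ_zero₀ w J U i l₂ _ y hy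
            by_contra hcon
            push Not at hcon
            apply hl2
            rw [mem_labJ] at hl ⊢
            refine ⟨?_, hcon⟩
            rw [hl₂, card_insert_of_notMem (fun h => h2 (mem_of_mem_erase h)),
              card_erase_of_mem h1, Nat.sub_add_cancel (card_pos.2 ⟨kb, h1⟩), hl.1]
          rw [h7, smul_zero]
          symm
          apply Finset.sum_eq_zero
          intro l' hl'
          rw [hM, if_neg, zero_smul]
          rintro ⟨h8, h9, h10⟩
          apply hl2
          have : l₂ = l' := by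
            rw [hl₂, h10, erase_insert (fun h => h9 (mem_of_mem_erase h)), insert_erase h8]
          rw [this]
          exact hl'
    · rw [if_neg h1]
      symm
      apply Finset.sum_eq_zero
      intro l' _
      rw [hM, if_neg, zero_smul]
      rintro ⟨_, _, h5⟩
      rw [h5] at h1
      exact h1 (mem_insert_self _ _)

end J

/-! ### the statements used elsewhere -/

section final

variable {n : ℕ} {w : Equiv.Perm (Fin n)} {J : Finset (Fin n)}

theorem extJ_extJ {x y : Fin n} (h : x ≠ y) {l l' : Finset (Fin J.card)}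
    (hl : l.card = szJ w J x) (hl' : l'.card = szJ w J y) (v : Fk n) :
    (dataJ J).ext x l ((dataJ J).ext y l' v) =
      sgJ w J x y • (dataJ J).ext y l' ((dataJ J).ext x l v) := extJ_extJ' h hl hl' v

theorem extJ_insJ {x y : Fin n} (h : x ≠ y) {l l' : Finset (Fin J.card)}
    (hl : l.card = szJ w J x) (hl' : l'.card = szJ w J y) (v : Fk n) :
    (dataJ J).ext x l ((dataJ J).ins y l' v) =
      sgJ w J x y • (dataJ J).ins y l' ((dataJ J).ext x l v) := extJ_insJ' h hl hl' v

theorem insJ_insJ {x y : Fin n} (_h : x ≠ y) {l l' : Finset (Fin J.card)}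
    (hl : l.card = szJ w J x) (hl' : l'.card = szJ w J y) (v : Fk n) :
    (dataJ J).ins x l ((dataJ J).ins y l' v) =
      sgJ w J x y • (dataJ J).ins y l' ((dataJ J).ins x l v) := insJ_insJ' hl hl' v

theorem extJ_insJ_self {x : Fin n} {U : Finset (Fin n)} (hx : x ∉ U)
    (l l' : Finset (Fin J.card)) {z : Fk n} (hz : z ∈ Fall (Fset w U J)) :
    (dataJ J).ext x l ((dataJ J).ins x l' z) = if l = l' then z else 0 :=
  extJ_insJ_self' hx l l' hz

theorem extJ_F {x : Fin n} {U : Finset (Fin n)} (l : Finset (Fin J.card)) {v : Fk n}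
    (hv : v ∈ Fall (Fset w U J)) : (dataJ J).ext x l v ∈ Fall (Fset w (U.erase x) J) :=
  extJ_F₀ w J U x l v hv

theorem insJ_F {x : Fin n} {U : Finset (Fin n)} (hx : x ∈ U) {l : Finset (Fin J.card)}
    (hl : ∀ k ∈ l, w.symm x < gJ J k) {z : Fk n} (hz : z ∈ Fall (Fset w (U.erase x) J)) :
    (dataJ J).ins x l z ∈ Fall (Fset w U J) := insJ_F₀ w J U x hx l hl z hz

theorem extJ_zero {x : Fin n} {U : Finset (Fin n)} {l : Finset (Fin J.card)}
    (hl : ¬ ∀ k ∈ l, w.symm x < gJ J k) {v : Fk n} (hv : v ∈ Fall (Fset w U J)) :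
    (dataJ J).ext x l v = 0 := by
  refine extJ_zero₀ w J U x l ?_ v hv
  push Not at hl
  obtain ⟨k, hk, hk'⟩ := hl
  exact ⟨k, hk, not_lt.2 hk'⟩

theorem sum_insJ_extJ {x : Fin n} {T : Finset (Fin n)} (hx : x ∈ T) (_hxJ : w.symm x ∈ J)
    {v : Fk n} (hv : v ∈ Nmod w T J) :
    ∑ l ∈ labJ w J x, (dataJ J).ins x l ((dataJ J).ext x l v) = v := resJ_N w J hx v hv

/-- `colE a b` and the rows -/
theorem colE_matrix (x : Fin n) {a b : Fin n} (ha : a ∈ J) (hb : b ∈ J) (hab : a < b) :
    ∃ m : Finset (Fin J.card) → Finset (Fin J.card) → ℂ,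
      (∀ l ∈ labJ w J x, ∀ z : Fk n, colE a b ((dataJ J).ins x l z) =
        ∑ l' ∈ labJ w J x, m l' l • (dataJ J).ins x l' z + (dataJ J).ins x l (colE a b z)) ∧
      ∀ l ∈ labJ w J x, ∀ U : Finset (Fin n), ∀ v ∈ Fall (Fset w U J),
        (dataJ J).ext x l (colE a b v) =
          ∑ l' ∈ labJ w J x, m l l' • (dataJ J).ext x l' v + colE a b ((dataJ J).ext x l v) := by
  obtain ⟨M, hM⟩ := colE_mat w J ha hb hab
  exact ⟨M, (hM x).1, fun l hl U v hv => (hM x).2 U l hl v hv⟩

theorem insJ_hom (x : Fin n) (l : Finset (Fin J.card)) :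
    Hom (colGr n) ((dataJ J).ins x l) (∑ k ∈ l, Pi.single (gJ J k) 1) := insJ_hom' x l

theorem extJ_hom (x : Fin n) (l : Finset (Fin J.card)) :
    Hom (colGr n) ((dataJ J).ext x l) (-∑ k ∈ l, Pi.single (gJ J k) 1) := extJ_hom' x l

theorem rowE_insJ {x y z : Fin n} (hy : x ≠ y) (_hz : x ≠ z) (l : Finset (Fin J.card)) :
    rowE y z * (dataJ J).ins x l = (dataJ J).ins x l * rowE y z := rowE_insJ' hy l

theorem rowE_extJ {x y z : Fin n} (hy : x ≠ y) (hz : x ≠ z) (l : Finset (Fin J.card)) :
    rowE y z * (dataJ J).ext x l = (dataJ J).ext x l * rowE y z := rowE_extJ' hy hz l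

end final

end

end Gao
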