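import Mathlib

/-!
# Part K, operator form (Gao project, MP_b139df_co)

Abstract data `KD`: spaces `N T`, `F U` (`T`, `U` finite sets of letters) inside one space `E`,
operators `ins i l`, `ext i l` (`l` in the finite set `lab i` of labels) which commute up to
constant signs for different letters, `ph i = ∑ l, al i l • ext i l` (generic contraction).
`io i g = ∑ l, ins i l ∘ g ∘ ext i l` (this is `g ⊗ id`).

`Sm T U If Is φ`: on `N T` the map `φ` is a sum of maps `io i (g i)` (`i ∈ If`, full directions) and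
`g i ∘ ph i` (`i ∈ Is`, specialised directions).

`KD.claim`: `Sm (T + p) U If Is (φ ∘ ph p) → Sm T U If Is φ`.
-/

set_option autoImplicit false

namespace Gao

open Finset

variable {K E ι Λ : Type*} [Field K] [AddCommGroup E] [Module K E] [DecidableEq ι] [DecidableEq Λ]

/-- the data of part K -/
structure KD (K E ι Λ : Type*) [Field K] [AddCommGroup E] [Module K E] [DecidableEq ι]
    [DecidableEq Λ] (Q : Finset ι) where
  N : Finset ι → Submodule K E
  F : Finset ι → Submodule K E
  lab : ι → Finset Λ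
  ins : ι → Λ → Module.End K E
  ext : ι → Λ → Module.End K E
  al : ι → Λ → K
  sg : ι → ι → K
  sg_sq : ∀ i j, sg i j * sg i j = 1
  ext_ext : ∀ i j, i ≠ j → ∀ l ∈ lab i, ∀ l' ∈ lab j, ∀ x,
    ext i l (ext j l' x) = sg i j • ext j l' (ext i l x)
  ext_ins : ∀ i j, i ≠ j → ∀ l ∈ lab i, ∀ l' ∈ lab j, ∀ x,
    ext i l (ins j l' x) = sg i j • ins j l' (ext i l x)
  ins_ins : ∀ i j, i ≠ j → ∀ l ∈ lab i, ∀ l' ∈ lab j, ∀ x,
    ins i l (ins j l' x) = sg i j • ins j l' (ins i l x)
  ext_ins_self : ∀ i U, i ∉ U → ∀ l ∈ lab i, ∀ l' ∈ lab i, ∀ z ∈ F U,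
    ext i l (ins i l' z) = if l = l' then z else 0
  ext_N : ∀ T i, T ⊆ Q → i ∈ T → ∀ l ∈ lab i, ∀ x ∈ N T, ext i l x ∈ N (T.erase i)
  ext_F : ∀ U i, U ⊆ Q → i ∈ U → ∀ l ∈ lab i, ∀ x ∈ F U, ext i l x ∈ F (U.erase i)
  ins_F : ∀ U i, U ⊆ Q → i ∈ U → ∀ l ∈ lab i, ∀ z ∈ F (U.erase i), ins i l z ∈ F U
  al_ne : ∀ i ∈ Q, ∃ l ∈ lab i, al i l ≠ 0
  onto : ∀ T I p, T ⊆ Q → I ⊆ T → p ∈ Q → p ∉ T → ∀ y ∈ N T,
    (∀ i ∈ I, (∑ l ∈ lab i, al i l • ext i l) y = 0) →
    ∃ x ∈ N (insert p T), (∀ i ∈ I, (∑ l ∈ lab i, al i l • ext i l) x = 0) ∧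
      (∑ l ∈ lab p, al p l • ext p l) x = y

namespace KD

variable {Q : Finset ι} (D : KD K E ι Λ Q)

/-- the generic contraction -/
def ph (i : ι) : Module.End K E := ∑ l ∈ D.lab i, D.al i l • D.ext i l

lemma ph_apply (i : ι) (x : E) : D.ph i x = ∑ l ∈ D.lab i, D.al i l • D.ext i l x := by
  simp [ph]

/-- `g ⊗ id` -/
def io (i : ι) (g : Module.End K E) : Module.End K E :=
  ∑ l ∈ D.lab i, D.ins i l * g * D.ext i l

lemma io_apply (i : ι) (g : Module.End K E) (x : E) :
    D.io i g x = ∑ l ∈ D.lab i, D.ins i l (g (D.ext i l x)) := by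
  simp [io]

lemma io_add (i : ι) (g g' : Module.End K E) : D.io i (g + g') = D.io i g + D.io i g' := by
  simp only [io, mul_add, add_mul, Finset.sum_add_distrib]

lemma io_smul (i : ι) (c : K) (g : Module.End K E) : D.io i (c • g) = c • D.io i g := by
  simp only [io, mul_smul_comm, smul_mul_assoc, Finset.smul_sum]

lemma io_zero (i : ι) : D.io i 0 = 0 := by
  simp [io]

lemma io_neg (i : ι) (g : Module.End K E) : D.io i (-g) = -D.io i g := by
  rw [← neg_one_smul K g, io_smul, neg_one_smul]

lemma io_sum {κ : Type*} (s : Finset κ) (i : ι) (g : κ → Module.End K E) :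
    D.io i (∑ k ∈ s, g k) = ∑ k ∈ s, D.io i (g k) := by
  classical
  induction s using Finset.induction_on with
  | empty => simp [io_zero]
  | insert a s ha ih => rw [Finset.sum_insert ha, Finset.sum_insert ha, io_add, ih]

lemma ph_ext {i j : ι} (h : i ≠ j) {l : Λ} (hl : l ∈ D.lab j) (x : E) :
    D.ph i (D.ext j l x) = D.sg i j • D.ext j l (D.ph i x) := by
  rw [ph_apply, ph_apply, map_sum, Finset.smul_sum]
  refine Finset.sum_congr rfl fun l' hl' => ?_
  rw [D.ext_ext i j h l' hl' l hl, map_smul, smul_comm]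

lemma ext_ph {i j : ι} (h : i ≠ j) {l : Λ} (hl : l ∈ D.lab i) (x : E) :
    D.ext i l (D.ph j x) = D.sg i j • D.ph j (D.ext i l x) := by
  rw [ph_apply, ph_apply, map_sum, Finset.smul_sum]
  refine Finset.sum_congr rfl fun l' hl' => ?_
  rw [map_smul, D.ext_ext i j h l hl l' hl', smul_comm]

lemma ph_ins {i j : ι} (h : i ≠ j) {l : Λ} (hl : l ∈ D.lab j) (x : E) :
    D.ph i (D.ins j l x) = D.sg i j • D.ins j l (D.ph i x) := by
  rw [ph_apply, ph_apply, map_sum, Finset.smul_sum]
  refine Finset.sum_congr rfl fun l' hl' => ?_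
  rw [D.ext_ins i j h l' hl' l hl, map_smul, smul_comm]

lemma ph_ins_self {i : ι} {U : Finset ι} (h : i ∉ U) {l : Λ} (hl : l ∈ D.lab i) {z : E}
    (hz : z ∈ D.F U) : D.ph i (D.ins i l z) = D.al i l • z := by
  rw [ph_apply, Finset.sum_eq_single l]
  · rw [D.ext_ins_self i U h l hl l hl z hz, if_pos rfl]
  · intro l' hl' hne
    rw [D.ext_ins_self i U h l' hl' l hl z hz, if_neg hne, smul_zero]
  · intro h'
    exact absurd hl h'

/-- `Φ_i (g ⊗ id_j) = ± (Φ_i g) ⊗ id_j` -/
lemma ph_io {i j : ι} (h : i ≠ j) (g : Module.End K E) (x : E) :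
    D.ph i (D.io j g x) = D.sg i j • D.io j (D.ph i * g) x := by
  rw [io_apply, io_apply, map_sum, Finset.smul_sum]
  refine Finset.sum_congr rfl fun l hl => ?_
  rw [D.ph_ins h hl]
  rfl

/-- `(g ⊗ id_j) Φ_p = ± (g Φ_p) ⊗ id_j` -/
lemma io_ph {j p : ι} (h : j ≠ p) (g : Module.End K E) (x : E) :
    D.io j g (D.ph p x) = D.sg j p • D.io j (g * D.ph p) x := by
  rw [io_apply, io_apply, Finset.smul_sum]
  refine Finset.sum_congr rfl fun l hl => ?_
  rw [D.ext_ph h hl, map_smul, map_smul]
  rfl

/-- `Φ_i (g ⊗ id_i) = g Φ_i` -/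
lemma ph_io_self {i : ι} {U : Finset ι} (h : i ∉ U) (g : Module.End K E) (x : E)
    (hg : ∀ l ∈ D.lab i, g (D.ext i l x) ∈ D.F U) : D.ph i (D.io i g x) = g (D.ph i x) := by
  rw [io_apply, map_sum, ph_apply, map_sum]
  refine Finset.sum_congr rfl fun l hl => ?_
  rw [D.ph_ins_self h hl (hg l hl), map_smul]

lemma ins_io {i j : ι} (h : i ≠ j) {l : Λ} (hl : l ∈ D.lab i) (g : Module.End K E) (x : E) :
    D.ins i l (D.io j g x) = D.sg i j • D.io j (D.ins i l * g) x := by
  rw [io_apply, io_apply, map_sum, Finset.smul_sum]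
  refine Finset.sum_congr rfl fun l' hl' => ?_
  rw [D.ins_ins i j h l hl l' hl']
  rfl

lemma io_io {i j : ι} (h : i ≠ j) (g : Module.End K E) :
    D.io i (D.io j g) = (D.sg i j * D.sg j i) • D.io j (D.io i g) := by
  ext x
  rw [LinearMap.smul_apply, io_apply, io_apply]
  simp only [io_apply, map_sum]
  rw [Finset.sum_comm, Finset.smul_sum]
  refine Finset.sum_congr rfl fun l' hl' => ?_
  rw [Finset.smul_sum]
  refine Finset.sum_congr rfl fun l hl => ?_
  rw [D.ext_ext j i h.symm l' hl' l hl, D.ins_ins i j h l hl l' hl', map_smul, map_smul, map_smul,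
    smul_smul]

lemma ph_ph {i j : ι} (h : i ≠ j) (x : E) :
    D.ph i (D.ph j x) = D.sg i j • D.ph j (D.ph i x) := by
  rw [D.ph_apply j, D.ph_apply j, map_sum, Finset.smul_sum]
  refine Finset.sum_congr rfl fun l hl => ?_
  rw [map_smul, D.ph_ext h hl, smul_comm]

lemma sg_cancel (i j : ι) (x : E) : D.sg i j • D.sg i j • x = x := by
  rw [smul_smul, D.sg_sq, one_smul]

/-- `g` maps `N T` to `F U` -/
def Mp (T U : Finset ι) (g : Module.End K E) : Prop := ∀ x ∈ D.N T, g x ∈ D.F U

lemma ph_N {T : Finset ι} {i : ι} (hT : T ⊆ Q) (hi : i ∈ T) {x : E} (hx : x ∈ D.N T) :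
    D.ph i x ∈ D.N (T.erase i) := by
  rw [ph_apply]
  exact Submodule.sum_mem _ fun l hl => Submodule.smul_mem _ _ (D.ext_N T i hT hi l hl x hx)

lemma ph_F {U : Finset ι} {i : ι} (hU : U ⊆ Q) (hi : i ∈ U) {x : E} (hx : x ∈ D.F U) :
    D.ph i x ∈ D.F (U.erase i) := by
  rw [ph_apply]
  exact Submodule.sum_mem _ fun l hl => Submodule.smul_mem _ _ (D.ext_F U i hU hi l hl x hx)

lemma io_Mp {T U : Finset ι} {i : ι} (hT : T ⊆ Q) (hU : U ⊆ Q) (hiT : i ∈ T) (hiU : i ∈ U)
    {g : Module.End K E} (hg : D.Mp (T.erase i) (U.erase i) g) : D.Mp T U (D.io i g) := by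
  intro x hx
  rw [io_apply]
  exact Submodule.sum_mem _ fun l hl =>
    D.ins_F U i hU hiU l hl _ (hg _ (D.ext_N T i hT hiT l hl x hx))

/-- `φ` is on `N T` a sum of maps `io i (g i)`, `i ∈ If`, and `g i ∘ ph i`, `i ∈ Is` -/
def Sm (T U If Is : Finset ι) (φ : Module.End K E) : Prop :=
  ∃ g : ι → Module.End K E, (∀ i ∈ If, D.Mp (T.erase i) (U.erase i) (g i)) ∧
    (∀ i ∈ Is, D.Mp (T.erase i) U (g i)) ∧
    ∀ x ∈ D.N T, φ x = ∑ i ∈ If, D.io i (g i) x + ∑ i ∈ Is, g i (D.ph i x)

lemma Sm.congr {T U If Is : Finset ι} {φ ψ : Module.End K E} (h : D.Sm T U If Is φ)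
    (h' : ∀ x ∈ D.N T, φ x = ψ x) : D.Sm T U If Is ψ := by
  obtain ⟨g, h1, h2, h3⟩ := h
  exact ⟨g, h1, h2, fun x hx => by rw [← h' x hx, h3 x hx]⟩

lemma Sm.add {T U If Is : Finset ι} {φ ψ : Module.End K E} (h : D.Sm T U If Is φ)
    (h' : D.Sm T U If Is ψ) : D.Sm T U If Is (φ + ψ) := by
  obtain ⟨g, h1, h2, h3⟩ := h
  obtain ⟨g', h1', h2', h3'⟩ := h'
  refine ⟨fun i => g i + g' i, fun i hi x hx => ?_, fun i hi x hx => ?_, fun x hx => ?_⟩
  · exact Submodule.add_mem _ (h1 i hi x hx) (h1' i hi x hx)
  · exact Submodule.add_mem _ (h2 i hi x hx) (h2' i hi x hx)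
  · rw [LinearMap.add_apply, h3 x hx, h3' x hx]
    simp only [io_add, LinearMap.add_apply, Finset.sum_add_distrib]
    abel

lemma Sm.smul {T U If Is : Finset ι} {φ : Module.End K E} (c : K) (h : D.Sm T U If Is φ) :
    D.Sm T U If Is (c • φ) := by
  obtain ⟨g, h1, h2, h3⟩ := h
  refine ⟨fun i => c • g i, fun i hi x hx => ?_, fun i hi x hx => ?_, fun x hx => ?_⟩
  · exact Submodule.smul_mem _ _ (h1 i hi x hx)
  · exact Submodule.smul_mem _ _ (h2 i hi x hx)
  · rw [LinearMap.smul_apply, h3 x hx]
    simp only [io_smul, LinearMap.smul_apply, smul_add, Finset.smul_sum]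

lemma Sm.sub {T U If Is : Finset ι} {φ ψ : Module.End K E} (h : D.Sm T U If Is φ)
    (h' : D.Sm T U If Is ψ) : D.Sm T U If Is (φ - ψ) := by
  have h1 : φ - ψ = φ + (-1 : K) • ψ := by rw [neg_one_smul, sub_eq_add_neg]
  rw [h1]
  exact Sm.add D h (Sm.smul D _ h')

lemma Mp.zero (T U : Finset ι) : D.Mp T U 0 := fun _ _ => Submodule.zero_mem _

lemma Sm.mono {T U If If' Is : Finset ι} (hI : If ⊆ If') {φ : Module.End K E}
    (h : D.Sm T U If Is φ) (hd : Disjoint If' Is) : D.Sm T U If' Is φ := by
  obtain ⟨g, h1, h2, h3⟩ := h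
  refine ⟨fun i => if i ∈ If' ∧ i ∉ If then 0 else g i, fun i hi => ?_, fun i hi => ?_,
    fun x hx => ?_⟩
  · by_cases h : i ∈ If
    · simp only [h, not_true_eq_false, and_false, if_false]
      exact h1 i h
    · simp only [hi, h, not_false_eq_true, and_self, if_true]
      exact Mp.zero D _ _
  · have h : i ∉ If' := fun h' => (Finset.disjoint_left.1 hd h') hi
    simp only [h, false_and, if_false]
    exact h2 i hi
  · rw [h3 x hx]
    congr 1
    · rw [← Finset.sum_subset hI]
      · refine Finset.sum_congr rfl fun i hi => ?_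
        simp only [hi, not_true_eq_false, and_false, if_false]
      · intro i hi hi'
        simp only [hi, hi', not_false_eq_true, and_self, if_true, io_zero, LinearMap.zero_apply]
    · refine Finset.sum_congr rfl fun i hi => ?_
      have h : i ∉ If' := fun h' => (Finset.disjoint_left.1 hd h') hi
      simp only [h, false_and, if_false]

/-- composition with `Φ_p` on the right -/
lemma Sm.comp_ph {T U If Is : Finset ι} {p : ι} (hT : insert p T ⊆ Q) (hp : p ∉ T)
    (hIf : If ⊆ T) (hIs : Is ⊆ T) {φ : Module.End K E} (h : D.Sm T U If Is φ) :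
    D.Sm (insert p T) U If Is (φ * D.ph p) := by
  obtain ⟨g, h1, h2, h3⟩ := h
  have hph : ∀ i ∈ T, ∀ x ∈ D.N ((insert p T).erase i), D.ph p x ∈ D.N (T.erase i) := by
    intro i hi x hx
    have hpi : p ≠ i := fun h => hp (h ▸ hi)
    have h4 := D.ph_N (i := p) ((Finset.erase_subset i _).trans hT)
      (Finset.mem_erase.2 ⟨hpi, Finset.mem_insert_self p T⟩) hx
    rwa [Finset.erase_right_comm, Finset.erase_insert hp] at h4
  have hpT : ∀ x ∈ D.N (insert p T), D.ph p x ∈ D.N T := by
    intro x hx
    have h4 := D.ph_N (i := p) hT (Finset.mem_insert_self p T) hx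
    rwa [Finset.erase_insert hp] at h4
  refine ⟨fun i => D.sg i p • (g i * D.ph p), fun i hi x hx => ?_, fun i hi x hx => ?_,
    fun x hx => ?_⟩
  · exact Submodule.smul_mem _ _ (h1 i hi _ (hph i (hIf hi) x hx))
  · exact Submodule.smul_mem _ _ (h2 i hi _ (hph i (hIs hi) x hx))
  · rw [Module.End.mul_apply, h3 _ (hpT x hx)]
    congr 1
    · refine Finset.sum_congr rfl fun i hi => ?_
      have hip : i ≠ p := fun h => hp (h ▸ hIf hi)
      rw [D.io_ph hip, io_smul, LinearMap.smul_apply]
    · refine Finset.sum_congr rfl fun i hi => ?_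
      have hip : i ≠ p := fun h => hp (h ▸ hIs hi)
      rw [D.ph_ph hip, map_smul]
      rfl

/-- a map which kills the joint kernel of the `f i` is a sum of maps through the `f i` -/
lemma factor {K E ι : Type*} [Field K] [AddCommGroup E] [Module K E] [DecidableEq ι]
    (N F : Submodule K E) (I : Finset ι) (f : ι → Module.End K E) (φ : Module.End K E)
    (hφ : ∀ x ∈ N, φ x ∈ F) (h : ∀ x ∈ N, (∀ i ∈ I, f i x = 0) → φ x = 0) :
    ∃ g : ι → Module.End K E, (∀ i x, g i x ∈ F) ∧ ∀ x ∈ N, φ x = ∑ i ∈ I, g i (f i x) := by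
  let T : N →ₗ[K] (I → E) := LinearMap.pi fun i => (f i) ∘ₗ N.subtype
  let φ' : N →ₗ[K] F := (φ ∘ₗ N.subtype).codRestrict F (fun x => hφ x x.2)
  have hker : LinearMap.ker T ≤ LinearMap.ker φ' := by
    intro x hx
    rw [LinearMap.mem_ker] at hx ⊢
    apply Subtype.ext
    refine h x x.2 (fun i hi => ?_)
    exact congrFun hx ⟨i, hi⟩
  obtain ⟨ψ, hψ⟩ : ∃ ψ : (I → E) →ₗ[K] F, ψ ∘ₗ T = φ' := by
    let T' := T.rangeRestrict
    obtain ⟨r, hr⟩ := T'.exists_rightInverse_of_surjective T.range_rangeRestrict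
    obtain ⟨ψ, hψ⟩ := LinearMap.exists_extend (φ' ∘ₗ r)
    refine ⟨ψ, ?_⟩
    ext x
    have h1 : ψ (T x) = φ' (r (T' x)) := congrArg (fun u : _ →ₗ[K] _ => u (T' x)) hψ
    have h2 : T (r (T' x) - x) = 0 := by
      have h3 := congrArg (fun u : _ →ₗ[K] _ => u (T' x)) hr
      have h4 : T (r (T' x)) = T x := congrArg Subtype.val h3
      rw [map_sub, h4, sub_self]
    have h5 : φ' (r (T' x) - x) = 0 := hker h2
    rw [map_sub, sub_eq_zero] at h5
    change ((ψ (T x) : F) : E) = ((φ' x : F) : E)
    rw [h1, h5]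
  refine ⟨fun i => if hi : i ∈ I then
    F.subtype ∘ₗ ψ ∘ₗ (LinearMap.single K (fun _ : I => E) ⟨i, hi⟩) else 0, fun i x => ?_,
    fun x hx => ?_⟩
  · by_cases hi : i ∈ I
    · simp only [hi, dif_pos]
      exact Submodule.coe_mem _
    · simp only [hi, dif_neg, not_false_eq_true]
      exact Submodule.zero_mem _
  · have h1 : φ x = ((ψ (T ⟨x, hx⟩) : F) : E) := by
      have h2 := congrArg (fun u : _ →ₗ[K] _ => ((u ⟨x, hx⟩ : F) : E)) hψ
      exact h2.symm
    rw [h1]
    have h3 : T ⟨x, hx⟩ = ∑ i : I, LinearMap.single K (fun _ : I => E) i (f i x) :=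
      (Finset.univ_sum_single (T ⟨x, hx⟩)).symm
    rw [h3, map_sum, Submodule.coe_sum, ← Finset.sum_coe_sort I]
    refine Finset.sum_congr rfl fun i _ => ?_
    simp


lemma Mp.comp {T T' U : Finset ι} {g : Module.End K E} (hg : D.Mp T U g) {a : Module.End K E}
    (ha : ∀ x ∈ D.N T', a x ∈ D.N T) : D.Mp T' U (g * a) := fun x hx => hg _ (ha x hx)

/-- **part K**, the claim -/
theorem claim : ∀ (n : ℕ) (T U If Is : Finset ι) (p : ι), If.card = n → insert p T ⊆ Q → p ∉ T →
    U ⊆ T → If ⊆ U → Is ⊆ T → Disjoint Is U → ∀ φ : Module.End K E, D.Mp T U φ →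
    D.Sm (insert p T) U If Is (φ * D.ph p) → D.Sm T U If Is φ := by
  intro n
  induction n with
  | zero =>
    intro T U If Is p hn hT hp hU hIf hIs hd φ hφ h
    rw [Finset.card_eq_zero] at hn
    subst hn
    obtain ⟨g, _, _, h3⟩ := h
    have hTQ : T ⊆ Q := (Finset.subset_insert p T).trans hT
    obtain ⟨k, hk, hk'⟩ := factor (D.N T) (D.F U) Is (fun i => D.ph i) φ hφ (by
      intro y hy hy0
      obtain ⟨x, hx, hx0, hxy⟩ := D.onto T Is p hTQ hIs (hT (Finset.mem_insert_self p T)) hp y hy
        hy0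
      have h4 := h3 x hx
      rw [Module.End.mul_apply] at h4
      change φ (D.ph p x) = _ at h4
      have hxy' : D.ph p x = y := hxy
      rw [hxy'] at h4
      rw [h4, Finset.sum_empty, zero_add]
      refine Finset.sum_eq_zero fun i hi => ?_
      have h5 : D.ph i x = 0 := hx0 i hi
      rw [h5, map_zero])
    exact ⟨k, fun i hi => absurd hi (Finset.notMem_empty i), fun i _ x _ => hk i x,
      fun x hx => by rw [hk' x hx, Finset.sum_empty, zero_add]⟩
  | succ n ih =>
    intro T U If Is p hn hT hp hU hIf hIs hd φ hφ h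
    have hTQ : T ⊆ Q := (Finset.subset_insert p T).trans hT
    have hUQ : U ⊆ Q := hU.trans hTQ
    obtain ⟨i, hi⟩ : If.Nonempty := by
      rw [← Finset.card_pos, hn]
      exact Nat.succ_pos n
    have hiU : i ∈ U := hIf hi
    have hiT : i ∈ T := hU hiU
    have hip : i ≠ p := fun h => hp (h ▸ hiT)
    have hiIs : i ∉ Is := fun h => (Finset.disjoint_left.1 hd h) hiU
    set If' := If.erase i with hIf'
    have hcard : If'.card = n := by
      rw [hIf', Finset.card_erase_of_mem hi, hn]
      rfl
    have hiIf' : i ∉ If' := Finset.notMem_erase i If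
    have hIf'U : If' ⊆ U.erase i := Finset.erase_subset_erase i hIf
    have hIf'T : If' ⊆ T := (Finset.erase_subset i If).trans (hIf.trans hU)
    have hIfsum : ∀ f : ι → E, ∑ j ∈ If, f j = ∑ j ∈ If', f j + f i := by
      intro f
      rw [hIf', Finset.sum_erase_add _ _ hi]
    have hTp : ∀ j, j ∈ T → (insert p T).erase j = insert p (T.erase j) := by
      intro j hj
      rw [Finset.erase_insert_of_ne]
      exact fun h => hp (h ▸ hj)
    have hphpT : ∀ x ∈ D.N (insert p T), D.ph p x ∈ D.N T := by
      intro x hx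
      have h4 := D.ph_N (i := p) hT (Finset.mem_insert_self p T) hx
      rwa [Finset.erase_insert hp] at h4
    -- the effect of `ph i` on a sum at `(T', U)`
    have eff : ∀ (T' : Finset ι) (g : ι → Module.End K E), T' ⊆ Q → T ⊆ T' →
        (∀ j ∈ If, D.Mp (T'.erase j) (U.erase j) (g j)) → ∀ x ∈ D.N T',
        D.ph i (∑ j ∈ If, D.io j (g j) x + ∑ j ∈ Is, g j (D.ph j x)) =
          ∑ j ∈ If', D.io j (D.sg i j • (D.ph i * g j)) x + g i (D.ph i x) +
            ∑ j ∈ Is, (D.ph i * g j) (D.ph j x) := by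
      intro T' g hT' hTT' hg x hx
      rw [map_add, hIfsum, map_add, map_sum, map_sum]
      congr 1
      congr 1
      · refine Finset.sum_congr rfl fun j hj => ?_
        have hij : i ≠ j := fun h => hiIf' (h ▸ hj)
        rw [D.ph_io hij, io_smul, LinearMap.smul_apply]
      · refine D.ph_io_self (Finset.notMem_erase i U) (g i) x (fun l hl => ?_)
        exact hg i hi _ (D.ext_N T' i hT' (hTT' hiT) l hl x hx)
    -- (1)
    have s1 : D.Sm T (U.erase i) If' (insert i Is) (D.ph i * φ) := by
      refine ih T (U.erase i) If' (insert i Is) p hcard hT hp ((Finset.erase_subset i U).trans hU)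
        hIf'U (Finset.insert_subset hiT hIs) ?_ (D.ph i * φ) ?_ ?_
      · rw [Finset.disjoint_left]
        intro j hj hj'
        rcases Finset.mem_insert.1 hj with rfl | hj
        · exact Finset.notMem_erase _ _ hj'
        · exact Finset.disjoint_left.1 hd hj (Finset.mem_of_mem_erase hj')
      · intro x hx
        exact D.ph_F hUQ hiU (hφ x hx)
      · obtain ⟨g, h1, h2, h3⟩ := h
        refine ⟨fun j => if j = i then g i else if j ∈ If' then D.sg i j • (D.ph i * g j) else
          D.ph i * g j, fun j hj => ?_, fun j hj => ?_, fun x hx => ?_⟩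
        · have hij : j ≠ i := fun h => hiIf' (h ▸ hj)
          simp only [hij, if_false, hj, if_true]
          intro x hx
          refine Submodule.smul_mem _ _ ?_
          rw [Finset.erase_right_comm]
          refine D.ph_F ((Finset.erase_subset j U).trans hUQ) ?_ (h1 j (Finset.mem_of_mem_erase hj) x hx)
          exact Finset.mem_erase.2 ⟨hij.symm, hiU⟩
        · by_cases hij : j = i
          · subst hij
            simp only [if_true]
            exact h1 j hi
          · have hj' : j ∈ Is := (Finset.mem_insert.1 hj).resolve_left hij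
            have hjIf : j ∉ If' := fun h =>
              Finset.disjoint_left.1 hd hj' (Finset.mem_of_mem_erase (hIf'U h))
            simp only [hij, if_false, hjIf]
            intro x hx
            exact D.ph_F hUQ hiU (h2 j hj' x hx)
        · change D.ph i (φ (D.ph p x)) = _
          have h4 := h3 x hx
          rw [Module.End.mul_apply] at h4
          rw [h4, eff (insert p T) g hT (Finset.subset_insert p T) h1 x hx,
            Finset.sum_insert hiIs, add_assoc]
          congr 1
          · refine Finset.sum_congr rfl fun j hj => ?_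
            have hij : j ≠ i := fun h => hiIf' (h ▸ hj)
            simp only [hij, if_false, hj, if_true]
          · congr 1
            · simp only [if_true]
            · refine Finset.sum_congr rfl fun j hj => ?_
              have hij : j ≠ i := fun h => hiIs (h ▸ hj)
              have hjIf : j ∉ If' := fun h =>
                Finset.disjoint_left.1 hd hj (Finset.mem_of_mem_erase (hIf'U h))
              simp only [hij, if_false, hjIf]
    -- the lift `φ'`
    obtain ⟨hh, h1, h2, h3⟩ := s1
    obtain ⟨l0, hl0, hal⟩ := D.al_ne i (hUQ hiU)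
    set c := (D.al i l0)⁻¹ with hc
    let φ' : Module.End K E := ∑ j ∈ If, D.io j (if j = i then hh i else
      (D.sg i j * c) • (D.ins i l0 * hh j)) + ∑ j ∈ Is, (c • (D.ins i l0 * hh j)) * D.ph j
    have hφ'S : D.Sm T U If Is φ' := by
      refine ⟨fun j => if j = i then hh i else if j ∈ If then (D.sg i j * c) • (D.ins i l0 * hh j)
        else c • (D.ins i l0 * hh j), fun j hj => ?_, fun j hj => ?_, fun x hx => ?_⟩
      · by_cases hij : j = i
        · subst hij
          simp only [if_true]
          exact h2 j (Finset.mem_insert_self j Is)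
        · simp only [hij, if_false, hj, if_true]
          intro x hx
          refine Submodule.smul_mem _ _ (D.ins_F _ i ((Finset.erase_subset j U).trans hUQ)
            (Finset.mem_erase.2 ⟨fun h => hij h.symm, hiU⟩) l0 hl0 _ ?_)
          have h4 := h1 j (Finset.mem_erase.2 ⟨hij, hj⟩) x hx
          rwa [Finset.erase_right_comm] at h4
      · have hij : j ≠ i := fun h => hiIs (h ▸ hj)
        have hjIf : j ∉ If := fun h => Finset.disjoint_left.1 hd hj (hIf h)
        simp only [hij, if_false, hjIf]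
        intro x hx
        exact Submodule.smul_mem _ _ (D.ins_F _ i hUQ hiU l0 hl0 _
          (h2 j (Finset.mem_insert_of_mem hj) x hx))
      · simp only [φ', LinearMap.add_apply, LinearMap.sum_apply]
        congr 1
        · refine Finset.sum_congr rfl fun j hj => ?_
          by_cases hij : j = i
          · simp only [hij, if_true]
          · simp only [hij, if_false, hj, if_true]
        · refine Finset.sum_congr rfl fun j hj => ?_
          have hij : j ≠ i := fun h => hiIs (h ▸ hj)
          have hjIf : j ∉ If := fun h => Finset.disjoint_left.1 hd hj (hIf h)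
          simp only [hij, if_false, hjIf]
          rfl
    have hφ'M : D.Mp T U φ' := by
      obtain ⟨g, g1, g2, g3⟩ := hφ'S
      intro x hx
      rw [g3 x hx]
      refine Submodule.add_mem _ (Submodule.sum_mem _ fun j hj => ?_)
        (Submodule.sum_mem _ fun j hj => ?_)
      · exact D.io_Mp hTQ hUQ (hU (hIf hj)) (hIf hj) (g1 j hj) x hx
      · exact g2 j hj _ (D.ph_N hTQ (hIs hj) hx)
    have hφ'Φ : ∀ x ∈ D.N T, D.ph i (φ' x) = D.ph i (φ x) := by
      intro x hx
      set z := ∑ j ∈ If', D.io j (hh j) x + ∑ j ∈ Is, hh j (D.ph j x) with hz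
      have hzF : z ∈ D.F (U.erase i) := by
        refine Submodule.add_mem _ (Submodule.sum_mem _ fun j hj => ?_)
          (Submodule.sum_mem _ fun j hj => ?_)
        · exact D.io_Mp hTQ ((Finset.erase_subset i U).trans hUQ) (hIf'T hj) (hIf'U hj)
            (h1 j hj) x hx
        · exact h2 j (Finset.mem_insert_of_mem hj) _ (D.ph_N hTQ (hIs hj) hx)
      have e1 : φ' x = c • D.ins i l0 z + D.io i (hh i) x := by
        simp only [φ', LinearMap.add_apply, LinearMap.sum_apply]
        rw [hIfsum, if_pos rfl]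
        have e2 : ∑ j ∈ If', D.io j (if j = i then hh i else
            (D.sg i j * c) • (D.ins i l0 * hh j)) x =
            c • D.ins i l0 (∑ j ∈ If', D.io j (hh j) x) := by
          rw [map_sum, Finset.smul_sum]
          refine Finset.sum_congr rfl fun j hj => ?_
          have hij : j ≠ i := fun h => hiIf' (h ▸ hj)
          rw [if_neg hij, D.ins_io hij.symm hl0, io_smul, LinearMap.smul_apply, smul_smul,
            mul_comm]
        have e3 : ∑ j ∈ Is, ((c • (D.ins i l0 * hh j)) * D.ph j) x =
            c • D.ins i l0 (∑ j ∈ Is, hh j (D.ph j x)) := by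
          rw [map_sum, Finset.smul_sum]
          rfl
        rw [e2, e3, hz, map_add, smul_add]
        abel
      have e4 : D.ph i (φ x) = z + hh i (D.ph i x) := by
        have h4 := h3 x hx
        rw [Module.End.mul_apply] at h4
        rw [h4, Finset.sum_insert hiIs, hz]
        abel
      have e5 : D.ph i (D.io i (hh i) x) = hh i (D.ph i x) :=
        D.ph_io_self (Finset.notMem_erase i U) (hh i) x (fun l hl =>
          h2 i (Finset.mem_insert_self i Is) _ (D.ext_N T i hTQ hiT l hl x hx))
      rw [e1, map_add, map_smul, D.ph_ins_self (Finset.notMem_erase i U) hl0 hzF, e5, e4,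
        smul_smul, hc, inv_mul_cancel₀ hal, one_smul]
    set ψ := φ - φ' with hψ
    have hψ0 : ∀ x ∈ D.N T, D.ph i (ψ x) = 0 := by
      intro x hx
      rw [hψ, LinearMap.sub_apply, map_sub, hφ'Φ x hx, sub_self]
    have hψM : D.Mp T U ψ := fun x hx => Submodule.sub_mem _ (hφ x hx) (hφ'M x hx)
    have hψS : D.Sm (insert p T) U If Is (ψ * D.ph p) := by
      have h4 := Sm.sub D h (Sm.comp_ph D hT hp (hIf.trans hU) hIs hφ'S)
      exact Sm.congr D h4 (fun x _ => rfl)
    -- (2)
    have s2 : D.Sm (insert p T) U If' Is (ψ * D.ph p) := by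
      obtain ⟨k, k1, k2, k3⟩ := hψS
      have hiTp : i ∈ insert p T := Finset.mem_insert_of_mem hiT
      have hins : insert i ((insert p T).erase i) = insert p T := Finset.insert_erase hiTp
      have hki : D.Sm ((insert p T).erase i) (U.erase i) If' Is (k i) := by
        refine ih ((insert p T).erase i) (U.erase i) If' Is i hcard (by rw [hins]; exact hT)
          (Finset.notMem_erase i _)
          (Finset.erase_subset_erase i (hU.trans (Finset.subset_insert p T))) hIf'U
          (fun j hj => Finset.mem_erase.2 ⟨fun h => hiIs (h ▸ hj), Finset.mem_insert_of_mem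
            (hIs hj)⟩)
          (Finset.disjoint_left.2 fun j hj hj' =>
            Finset.disjoint_left.1 hd hj (Finset.mem_of_mem_erase hj')) (k i) (k1 i hi) ?_
        rw [hins]
        refine ⟨fun j => if j ∈ If' then -(D.sg i j • (D.ph i * k j)) else -(D.ph i * k j),
          fun j hj => ?_, fun j hj => ?_, fun x hx => ?_⟩
        · have hij : j ≠ i := fun h => hiIf' (h ▸ hj)
          simp only [hj, if_true]
          intro x hx
          refine Submodule.neg_mem _ (Submodule.smul_mem _ _ ?_)
          rw [Finset.erase_right_comm]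
          refine D.ph_F ((Finset.erase_subset j U).trans hUQ) ?_
            (k1 j (Finset.mem_of_mem_erase hj) x hx)
          exact Finset.mem_erase.2 ⟨hij.symm, hiU⟩
        · have hjIf : j ∉ If' := fun h =>
            Finset.disjoint_left.1 hd hj (Finset.mem_of_mem_erase (hIf'U h))
          simp only [hjIf, if_false]
          intro x hx
          exact Submodule.neg_mem _ (D.ph_F hUQ hiU (k2 j hj x hx))
        · have h4 := k3 x hx
          rw [Module.End.mul_apply] at h4
          have h6 := hψ0 _ (hphpT x hx)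
          rw [h4, eff (insert p T) k hT (Finset.subset_insert p T) k1 x hx] at h6
          have h7 : k i (D.ph i x) = -(∑ j ∈ If', D.io j (D.sg i j • (D.ph i * k j)) x) -
              ∑ j ∈ Is, (D.ph i * k j) (D.ph j x) := by
            rw [← sub_eq_zero, ← h6]
            abel
          rw [Module.End.mul_apply, h7, sub_eq_add_neg, ← Finset.sum_neg_distrib,
            ← Finset.sum_neg_distrib]
          congr 1
          · refine Finset.sum_congr rfl fun j hj => ?_
            simp only [hj, if_true]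
            rw [io_neg]
            rfl
          · refine Finset.sum_congr rfl fun j hj => ?_
            have hjIf : j ∉ If' := fun h =>
              Finset.disjoint_left.1 hd hj (Finset.mem_of_mem_erase (hIf'U h))
            simp only [hjIf, if_false]
            rfl
      obtain ⟨m, m1, m2, m3⟩ := hki
      refine ⟨fun j => k j + (if j ∈ If' then D.sg i j * D.sg j i else D.sg j i) • D.io i (m j),
        fun j hj => ?_, fun j hj => ?_, fun x hx => ?_⟩
      · have hij : j ≠ i := fun h => hiIf' (h ▸ hj)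
        intro x hx
        refine Submodule.add_mem _ (k1 j (Finset.mem_of_mem_erase hj) x hx)
          (Submodule.smul_mem _ _ ?_)
        refine D.io_Mp (T := (insert p T).erase j) (U := U.erase j) (i := i)
          ((Finset.erase_subset j _).trans hT) ((Finset.erase_subset j U).trans hUQ)
          (Finset.mem_erase.2 ⟨hij.symm, hiTp⟩) (Finset.mem_erase.2 ⟨hij.symm, hiU⟩) ?_ x hx
        have h4 := m1 j hj
        rwa [Finset.erase_right_comm, Finset.erase_right_comm (s := U)] at h4
      · have hij : j ≠ i := fun h => hiIs (h ▸ hj)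
        intro x hx
        refine Submodule.add_mem _ (k2 j hj x hx) (Submodule.smul_mem _ _ ?_)
        refine D.io_Mp (T := (insert p T).erase j) (U := U) (i := i)
          ((Finset.erase_subset j _).trans hT) hUQ
          (Finset.mem_erase.2 ⟨hij.symm, hiTp⟩) hiU ?_ x hx
        have h4 := m2 j hj
        rwa [Finset.erase_right_comm] at h4
      · have h4 := k3 x hx
        rw [h4, hIfsum]
        have e1 : D.io i (k i) x = ∑ j ∈ If', (D.sg i j * D.sg j i) • D.io j (D.io i (m j)) x +
            ∑ j ∈ Is, D.sg j i • D.io i (m j) (D.ph j x) := by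
          have e2 : D.io i (k i) x = ∑ l ∈ D.lab i, (∑ j ∈ If', D.ins i l (D.io j (m j) (D.ext i l x)) +
              ∑ j ∈ Is, D.ins i l (m j (D.ph j (D.ext i l x)))) := by
            rw [io_apply]
            refine Finset.sum_congr rfl fun l hl => ?_
            rw [m3 _ (D.ext_N _ i hT hiTp l hl x hx), map_add, map_sum, map_sum]
          rw [e2, Finset.sum_add_distrib, Finset.sum_comm, Finset.sum_comm (s := D.lab i)]
          congr 1
          · refine Finset.sum_congr rfl fun j hj => ?_
            have hij : i ≠ j := fun h => hiIf' (h ▸ hj)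
            have e3 := congrArg (fun u : Module.End K E => u x) (D.io_io hij (m j))
            rw [LinearMap.smul_apply] at e3
            rw [← e3, io_apply]
          · refine Finset.sum_congr rfl fun j hj => ?_
            have hij : j ≠ i := fun h => hiIs (h ▸ hj)
            rw [io_apply, Finset.smul_sum]
            refine Finset.sum_congr rfl fun l hl => ?_
            rw [D.ph_ext hij hl, map_smul, map_smul]
        rw [e1]
        have e4 : ∑ j ∈ If', D.io j (k j + (if j ∈ If' then D.sg i j * D.sg j i else D.sg j i) •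
            D.io i (m j)) x = ∑ j ∈ If', D.io j (k j) x +
            ∑ j ∈ If', (D.sg i j * D.sg j i) • D.io j (D.io i (m j)) x := by
          rw [← Finset.sum_add_distrib]
          refine Finset.sum_congr rfl fun j hj => ?_
          simp only [hj, if_true]
          rw [io_add, io_smul]
          rfl
        have e5 : ∑ j ∈ Is, (k j + (if j ∈ If' then D.sg i j * D.sg j i else D.sg j i) •
            D.io i (m j)) (D.ph j x) = ∑ j ∈ Is, k j (D.ph j x) +
            ∑ j ∈ Is, D.sg j i • D.io i (m j) (D.ph j x) := by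
          rw [← Finset.sum_add_distrib]
          refine Finset.sum_congr rfl fun j hj => ?_
          have hjIf : j ∉ If' := fun h =>
            Finset.disjoint_left.1 hd hj (Finset.mem_of_mem_erase (hIf'U h))
          simp only [hjIf, if_false]
          rfl
        rw [e4, e5]
        abel
    have s3 : D.Sm T U If' Is ψ := ih T U If' Is p hcard hT hp hU
      (hIf'U.trans (Finset.erase_subset i U)) hIs hd ψ hψM s2
    have s4 : D.Sm T U If Is ψ := Sm.mono D (Finset.erase_subset i If) s3
      (Finset.disjoint_left.2 fun j hj hj' => Finset.disjoint_left.1 hd hj' (hIf hj))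
    have h5 : D.Sm T U If Is (ψ + φ') := Sm.add D s4 hφ'S
    exact Sm.congr D h5 (fun x _ => by rw [hψ]; simp)

end KD

end Gao
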