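import Mathlib
import Pool.Agent.Gao.AlphaA
import Pool.Agent.Gao.KOp
import Pool.Agent.Gao.KDInst

/-!
# Gao project, ALPHA on the J-side: the instance of the data `KD` of part K

`exists_KDJ`: for `Q ⊆ J.map w.toEmbedding` (positions of `Q` in `J`) there is a `KD` with
`N T = Nmod w T J`, `F U = Fall (Fset w U J)`, `ins`, `ext` of the row slots, `lab i` = the sets of
`szJ w J i` columns of `J` to the right of the letter `i`.
-/

set_option autoImplicit false

namespace Gao

open Finset Module Pool.Agent.Gao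

noncomputable section

variable {n : ℕ}

lemma gJ_inj' (J : Finset (Fin n)) : Function.Injective (gJ J) := by
  intro a b h
  exact Fin.rev_injective ((J.orderEmbOfFin rfl).injective h)

lemma gJ_surj (J : Finset (Fin n)) {j : Fin n} (hj : j ∈ J) : ∃ k, gJ J k = j := by
  have h : j ∈ Set.range (J.orderEmbOfFin rfl) := by
    rw [range_orderEmbOfFin]
    exact hj
  obtain ⟨k, hk⟩ := h
  exact ⟨Fin.rev k, by rw [gJ, Fin.rev_rev, hk]⟩

lemma mem_labJ' {w : Equiv.Perm (Fin n)} {J : Finset (Fin n)} {i : Fin n}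
    {l : Finset (Fin J.card)} :
    l ∈ labJ w J i ↔ l.card = szJ w J i ∧ ∀ k ∈ l, w.symm i < gJ J k := by
  unfold labJ
  rw [mem_filter]
  exact ⟨fun h => h.2, fun h => ⟨mem_univ _, h⟩⟩

lemma labJ_nonempty (w : Equiv.Perm (Fin n)) (J : Finset (Fin n)) (i : Fin n) :
    ∃ l, l ∈ labJ w J i := by
  refine ⟨univ.filter (fun k => w.symm i < gJ J k ∧ w (gJ J k) < i), mem_labJ'.2 ⟨?_, ?_⟩⟩
  · unfold szJ
    rw [← card_image_of_injective _ (gJ_inj' J)]
    congr 1
    ext j
    simp only [mem_image, mem_filter, mem_univ, true_and]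
    constructor
    · rintro ⟨k, hk, rfl⟩
      exact ⟨gJ_mem J k, hk⟩
    · rintro ⟨hj, h⟩
      obtain ⟨k, rfl⟩ := gJ_surj J hj
      exact ⟨k, h, rfl⟩
  · intro k hk
    exact (mem_filter.1 hk).2.1

/-- the row slots -/
abbrev sigJ (w : Equiv.Perm (Fin n)) (J : Finset (Fin n)) :
    Slots (fockRep (dataJ J)) (Fin n) := fockSlots (dataJ J) (szJ w J)

lemma Nmod_run (w : Equiv.Perm (Fin n)) (A J : Finset (Fin n)) (hA : A ⊆ J.map w.toEmbedding) :
    Nmod w A J = run (sigJ w J).tw A (progJ w J (fun _ => 0)) (Zv n) := by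
  unfold Nmod
  rw [← Dadj_zero w A J]
  exact (run_progJ w A J hA _).symm

lemma sigJ_start (w : Equiv.Perm (Fin n)) (J : Finset (Fin n)) : Start (sigJ w J) (Zv n) :=
  fock_start _ _

lemma sigJ_sized (w : Equiv.Perm (Fin n)) (J : Finset (Fin n)) :
    Sized (sigJ w J) (progJ w J (fun _ => 0)) :=
  progJ_sized _ w J _ (fun _ _ => rfl) le_rfl

lemma mem_slotsJ {w : Equiv.Perm (Fin n)} {Q J : Finset (Fin n)}
    (hQ : Q ⊆ J.map w.toEmbedding) {p : Fin n} (hp : p ∈ Q) :
    p ∈ slotsOf (progJ w J (fun _ => 0)) := by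
  rw [mem_progJ_slots]
  obtain ⟨j, hj, rfl⟩ := mem_map.1 (hQ hp)
  simpa using hj

/-- sum over all sets of the right size = sum over the labels -/
lemma con_lab (w : Equiv.Perm (Fin n)) (U J : Finset (Fin n)) (i : Fin n)
    (φ : Finset (Fin J.card) → ℂ) {x : Fk n} (hx : x ∈ Fall (Fset w U J)) :
    (∑ l ∈ labJ w J i, φ l • (dataJ J).ext i l) x = (sigJ w J).con φ i x := by
  unfold Slots.con
  rw [LinearMap.sum_apply, LinearMap.sum_apply]
  apply sum_subset
  · intro l hl
    rw [mem_filter]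
    exact ⟨mem_univ _, (mem_labJ'.1 hl).1⟩
  · intro l hl hl'
    have h0 : (dataJ J).ext i l x = 0 :=
      extJ_zero (fun h => hl' (mem_labJ'.2 ⟨(mem_filter.1 hl).2, h⟩)) hx
    rw [LinearMap.smul_apply, h0, smul_zero]

lemma con_comm (w : Equiv.Perm (Fin n)) (J : Finset (Fin n)) {p q : Fin n} (hpq : p ≠ q)
    (φ ψ : Finset (Fin J.card) → ℂ) : (sigJ w J).con φ p * (sigJ w J).con ψ q =
      sgJ w J p q • ((sigJ w J).con ψ q * (sigJ w J).con φ p) := by
  unfold Slots.con
  rw [sum_mul_sum, sum_mul_sum, smul_sum, sum_comm]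
  refine sum_congr rfl fun l' hl' => ?_
  rw [smul_sum]
  refine sum_congr rfl fun l hl => ?_
  have h : (dataJ J).ext p l * (dataJ J).ext q l' =
      sgJ w J p q • ((dataJ J).ext q l' * (dataJ J).ext p l) :=
    LinearMap.ext fun v => extJ_extJ hpq (mem_filter.1 hl).2 (mem_filter.1 hl').2 v
  change φ l • (dataJ J).ext p l * ψ l' • (dataJ J).ext q l' =
    _ • (ψ l' • (dataJ J).ext q l' * φ l • (dataJ J).ext p l)
  rw [smul_mul_smul_comm, smul_mul_smul_comm, h, smul_smul, smul_smul, mul_comm (φ l),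
    mul_comm _ (ψ l' * φ l)]

theorem exists_alphaJ (h : AlphaAbs) (w : Equiv.Perm (Fin n)) (J Q : Finset (Fin n))
    (hQ : Q ⊆ J.map w.toEmbedding) : ∃ α : Fin n → Finset (Fin J.card) → ℂ,
    (∀ p l, α p l ≠ 0) ∧ ∀ T I p, insert p T ⊆ Q → I ⊆ T → p ∉ T →
      (Nmod w (insert p T) J ⊓ cker (fun p => (sigJ w J).con (α p) p) I).map
        ((sigJ w J).con (α p) p) =
      Nmod w T J ⊓ cker (fun p => (sigJ w J).con (α p) p) I := by
  have hg : Gen (fun θ : Fin n × Finset (Fin J.card) → ℂ => (∀ B I : Finset (Fin n), B ⊆ Q →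
      I ⊆ B →
      (finrank ℂ (run (sigJ w J).tw B (progJ w J (fun _ => 0)) (Zv n) ⊓
        cker (fun p => (sigJ w J).con (fun l => θ (p, l)) p) I :
        Submodule ℂ (Fk n)) : ℤ) ≤
      ∑ T ∈ I.powerset, (-1 : ℤ) ^ T.card *
        (finrank ℂ (run (sigJ w J).tw (B \ T) (progJ w J (fun _ => 0)) (Zv n)) : ℤ)) ∧
      ∀ k, θ k ≠ 0) := by
    apply Gen.and
    · refine gen_fintype fun B => gen_fintype fun I => ?_
      by_cases hB : B ⊆ Q
      · by_cases hI : I ⊆ B
        · have h1 := h n J.card (fockRep (dataJ J)) (sigJ w J) (Zv n)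
            (sigJ_start w J) (progJ w J (fun _ => 0)) (progJ_nodup w J _) (sigJ_sized w J) B I hI
            (fun p hp => mem_slotsJ hQ (hB (hI hp)))
          exact h1.mono fun θ hθ _ _ => hθ
        · exact gen_of_forall fun θ _ h => absurd h hI
      · exact gen_of_forall fun θ h => absurd h hB
    · refine gen_fintype fun k => ⟨MvPolynomial.X k, MvPolynomial.X_ne_zero k, fun θ hθ => ?_⟩
      rwa [MvPolynomial.eval_X] at hθ
  obtain ⟨θ, hθ, hne⟩ := hg.exists
  refine ⟨fun p l => θ (p, l), fun p l => hne _, ?_⟩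
  intro T I p hT hI hp
  refine cogood_surj (P := Q) (X := fun T => Nmod w T J)
    (C := fun p => (sigJ w J).con (fun l => θ (p, l)) p) ?_ ?_ ?_ I T p hT hI hp
  · intro R p hR hp x hx
    have hx' : x ∈ Nmod w (insert p R) J := hx
    change _ ∈ Nmod w R J
    rw [Nmod_run w _ J (hR.trans hQ)] at hx'
    rw [Nmod_run w _ J (((subset_insert p R).trans hR).trans hQ)]
    exact con_run (sigJ w J) (sigJ_start w J) R _ (progJ_nodup w J _) (sigJ_sized w J) p
      (mem_slotsJ hQ (hR (mem_insert_self p R))) hp _ x hx'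
  · intro p q hpq R _ _ x _ h0
    have h1 := congrArg (fun g : Module.End ℂ (Fk n) => g x)
      (con_comm w J hpq.symm (fun l => θ (q, l)) (fun l => θ (p, l)))
    simp only [Module.End.mul_apply, LinearMap.smul_apply] at h1
    change (sigJ w J).con _ q ((sigJ w J).con _ p x) = 0
    rw [h1]
    change _ • (sigJ w J).con _ p ((sigJ w J).con _ q x) = 0
    have h0' : (sigJ w J).con (fun l => θ (q, l)) q x = 0 := h0
    rw [h0', map_zero, smul_zero]
  · intro R I hR hI
    have h1 := hθ R I hR hI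
    change (finrank ℂ (Nmod w R J ⊓ _ : Submodule ℂ (Fk n)) : ℤ) ≤ _
    rw [Nmod_run w R J (hR.trans hQ)]
    refine h1.trans_eq ?_
    apply sum_congr rfl
    intro T _
    rw [Nmod_run w (R \ T) J ((sdiff_subset.trans hR).trans hQ)]

/-- **The J-side data of part K.** -/
theorem exists_KDJ (h : AlphaAbs) (w : Equiv.Perm (Fin n)) (J Q : Finset (Fin n))
    (hQ : Q ⊆ J.map w.toEmbedding) : ∃ D : KD ℂ (Fk n) (Fin n) (Finset (Fin J.card)) Q,
    (∀ T, D.N T = Nmod w T J) ∧ (∀ U, D.F U = Fall (Fset w U J)) ∧ D.lab = labJ w J ∧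
    D.ins = (dataJ J).ins ∧ D.ext = (dataJ J).ext ∧ D.sg = sgJ w J := by
  obtain ⟨α, hα, hmap⟩ := exists_alphaJ h w J Q hQ
  refine ⟨{
    N := fun T => Nmod w T J
    F := fun U => Fall (Fset w U J)
    lab := labJ w J
    ins := (dataJ J).ins
    ext := (dataJ J).ext
    al := α
    sg := sgJ w J
    sg_sq := fun i j => by unfold sgJ; rw [← mul_pow]; norm_num
    ext_ext := fun i j hij l hl l' hl' x => extJ_extJ hij (mem_labJ'.1 hl).1 (mem_labJ'.1 hl').1 x
    ext_ins := fun i j hij l hl l' hl' x => extJ_insJ hij (mem_labJ'.1 hl).1 (mem_labJ'.1 hl').1 x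
    ins_ins := fun i j hij l hl l' hl' x => insJ_insJ hij (mem_labJ'.1 hl).1 (mem_labJ'.1 hl').1 x
    ext_ins_self := fun i U hi l _ l' _ z hz => extJ_insJ_self hi l l' hz
    ext_N := ?_
    ext_F := fun U i _ _ l _ x hx => extJ_F l hx
    ins_F := fun U i _ hi l hl z hz => insJ_F hi (mem_labJ'.1 hl).2 hz
    al_ne := ?_
    onto := ?_ }, fun _ => rfl, fun _ => rfl, rfl, rfl, rfl, rfl⟩
  · intro T i hT hi l hl x hx
    have hiT : insert i (T.erase i) = T := insert_erase hi
    have hx' : x ∈ Nmod w (insert i (T.erase i)) J := by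
      rw [hiT]
      exact hx
    rw [Nmod_run w _ J (by rw [hiT]; exact hT.trans hQ)] at hx'
    rw [Nmod_run w _ J (((erase_subset i T).trans hT).trans hQ)]
    exact ext_run (sigJ w J) (sigJ_start w J) (T.erase i) _ (progJ_nodup w J _)
      (sigJ_sized w J) i (mem_slotsJ hQ (hT hi)) (notMem_erase i T) l (mem_labJ'.1 hl).1 x hx'
  · intro i _
    obtain ⟨l, hl⟩ := labJ_nonempty w J i
    exact ⟨l, hl, hα i l⟩
  · intro T I p hT hI hpQ hp y hy h0
    have hins : insert p T ⊆ Q := insert_subset hpQ hT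
    have h1 := hmap T I p hins hI hp
    have hyF : y ∈ Fall (Fset w T J) := Nmod_le_Fall w T J hy
    have hy1 : y ∈ Nmod w T J ⊓ cker (fun p => (sigJ w J).con (α p) p) I := by
      refine ⟨hy, ?_⟩
      change y ∈ cker _ I
      rw [mem_cker]
      intro i hi
      have h2 := h0 i hi
      rw [con_lab w T J i _ hyF] at h2
      exact h2
    rw [← h1] at hy1
    obtain ⟨x, ⟨hx1, hx2⟩, hx3⟩ := hy1
    have hxF : x ∈ Fall (Fset w (insert p T) J) := Nmod_le_Fall w _ J hx1
    refine ⟨x, hx1, fun i hi => ?_, ?_⟩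
    · rw [con_lab w _ J i _ hxF]
      exact (mem_cker _).1 hx2 i hi
    · rw [con_lab w _ J p _ hxF]
      exact hx3

end

end Gao
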