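import Mathlib

/-!
# Macdonald's reduced word formula and the first-row recursion

Words are lists of natural numbers.  `X x φ` is the sum over all descents of the word `x`
(positions `i, i+1`, 1-indexed) of `i * φ (x with the two letters swapped)`.
`R x φ` is the sum of `φ` over all words obtained from `x` by the operators
`(1+u_1)(1+u_2)...` (rightmost first), `u_i` = swap at a descent.
`Fn n x` is the first-row recursion, for words of length `n`.
Main result: `X x (Fn n) = inv x * Fn n x`.
-/

set_option autoImplicit false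

namespace Pool.Agent.Gao

/-- functionals on words -/
abbrev Fun := List ℕ → ℤ

/-- swap of the first two letters at a descent -/
def u0 (φ : Fun) : Fun
  | a :: b :: l => if b < a then φ (b :: a :: l) else 0
  | _ => 0

@[simp] lemma u0_nil (φ : Fun) : u0 φ [] = 0 := rfl
@[simp] lemma u0_one (φ : Fun) (a : ℕ) : u0 φ [a] = 0 := rfl
@[simp] lemma u0_cons (φ : Fun) (a b : ℕ) (l : List ℕ) :
    u0 φ (a :: b :: l) = if b < a then φ (b :: a :: l) else 0 := rfl

/-- sum over all descents -/
def U : List ℕ → Fun → ℤ
  | [], _ => 0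
  | a :: l, φ => u0 φ (a :: l) + U l (fun y => φ (a :: y))

/-- weighted sum over all descents -/
def X : List ℕ → Fun → ℤ
  | [], _ => 0
  | a :: l, φ => u0 φ (a :: l) + X l (fun y => φ (a :: y)) + U l (fun y => φ (a :: y))

/-- weighted sum over the descents of the tail, weights shifted by one -/
def X1 : List ℕ → Fun → ℤ
  | [], _ => 0
  | a :: l, φ => X l (fun y => φ (a :: y))

/-- the row operator -/
def R : List ℕ → Fun → ℤ
  | [], φ => φ []
  | a :: l, φ => R l (fun y => φ (a :: y) + u0 φ (a :: y))

/-- derivative of the row operator -/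
def A : List ℕ → Fun → ℤ
  | [], _ => 0
  | a :: l, φ => A l (fun y => φ (a :: y) + u0 φ (a :: y)) + R l (fun y => u0 φ (a :: y))

@[simp] lemma U_nil (φ : Fun) : U [] φ = 0 := rfl
@[simp] lemma U_cons (a : ℕ) (l : List ℕ) (φ : Fun) :
    U (a :: l) φ = u0 φ (a :: l) + U l (fun y => φ (a :: y)) := rfl
@[simp] lemma X_nil (φ : Fun) : X [] φ = 0 := rfl
@[simp] lemma X_cons (a : ℕ) (l : List ℕ) (φ : Fun) :
    X (a :: l) φ = u0 φ (a :: l) + X l (fun y => φ (a :: y)) + U l (fun y => φ (a :: y)) := rfl
@[simp] lemma X1_nil (φ : Fun) : X1 [] φ = 0 := rfl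
@[simp] lemma X1_cons (a : ℕ) (l : List ℕ) (φ : Fun) :
    X1 (a :: l) φ = X l (fun y => φ (a :: y)) := rfl
@[simp] lemma R_nil (φ : Fun) : R [] φ = φ [] := rfl
@[simp] lemma R_cons (a : ℕ) (l : List ℕ) (φ : Fun) :
    R (a :: l) φ = R l (fun y => φ (a :: y) + u0 φ (a :: y)) := rfl
@[simp] lemma A_nil (φ : Fun) : A [] φ = 0 := rfl
@[simp] lemma A_cons (a : ℕ) (l : List ℕ) (φ : Fun) :
    A (a :: l) φ = A l (fun y => φ (a :: y) + u0 φ (a :: y)) + R l (fun y => u0 φ (a :: y)) := rfl

lemma u0_add (φ ψ : Fun) (x : List ℕ) : u0 (fun y => φ y + ψ y) x = u0 φ x + u0 ψ x := by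
  rcases x with _ | ⟨a, _ | ⟨b, l⟩⟩ <;> simp [u0]
  split_ifs <;> simp

lemma u0_smul (c : ℤ) (φ : Fun) (x : List ℕ) : u0 (fun y => c * φ y) x = c * u0 φ x := by
  rcases x with _ | ⟨a, _ | ⟨b, l⟩⟩ <;> simp [u0]

lemma U_add (x : List ℕ) : ∀ (φ ψ : Fun), U x (fun y => φ y + ψ y) = U x φ + U x ψ := by
  induction x with
  | nil => intro φ ψ; simp
  | cons a l ih =>
    intro φ ψ
    have h := ih (fun y => φ (a :: y)) (fun y => ψ (a :: y))
    simp only [U_cons, u0_add]
    rw [h]; ring

lemma X_add (x : List ℕ) : ∀ (φ ψ : Fun), X x (fun y => φ y + ψ y) = X x φ + X x ψ := by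
  induction x with
  | nil => intro φ ψ; simp
  | cons a l ih =>
    intro φ ψ
    have h := ih (fun y => φ (a :: y)) (fun y => ψ (a :: y))
    have h' := U_add l (fun y => φ (a :: y)) (fun y => ψ (a :: y))
    simp only [X_cons, u0_add]
    rw [h, h']; ring

lemma R_add (x : List ℕ) : ∀ (φ ψ : Fun), R x (fun y => φ y + ψ y) = R x φ + R x ψ := by
  induction x with
  | nil => intro φ ψ; simp
  | cons a l ih =>
    intro φ ψ
    simp only [R_cons, u0_add]
    rw [← ih]
    congr 1; funext y; ring

lemma R_smul (x : List ℕ) : ∀ (c : ℤ) (φ : Fun), R x (fun y => c * φ y) = c * R x φ := by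
  induction x with
  | nil => intro φ ψ; simp
  | cons a l ih =>
    intro c φ
    simp only [R_cons, u0_smul]
    rw [← ih]
    congr 1; funext y; ring

lemma R_sub (x : List ℕ) (φ ψ : Fun) : R x (fun y => φ y - ψ y) = R x φ - R x ψ := by
  have h := R_add x (fun y => φ y - ψ y) ψ
  simp only [sub_add_cancel] at h
  have h2 : R x (fun y => ψ y) = R x ψ := rfl
  have h3 : R x (fun y => φ y) = R x φ := rfl
  rw [h3] at h
  linarith

/-- the function appearing in `star` -/
def xi (a : ℕ) (φ : Fun) : Fun := fun y =>
  u0 φ (a :: y) + u0 (fun z => U z φ) (a :: y) - U y (fun z => u0 φ (a :: z))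

lemma star_pt (a b : ℕ) (φ : Fun) (y : List ℕ) :
    xi a φ (b :: y) + u0 (xi a φ) (b :: y) =
      if b < a then (φ (b :: a :: y) + u0 φ (b :: a :: y)) +
        u0 (fun z => φ (b :: z) + u0 φ (b :: z)) (a :: y) else 0 := by
  rcases y with _ | ⟨c, y⟩
  · by_cases hba : b < a
    · have hab : ¬ a < b := by omega
      simp [xi, hba, hab]
    · simp [xi, hba]
  · by_cases hba : b < a
    · have hab : ¬ a < b := by omega
      by_cases hca : c < a
      · have hac : ¬ a < c := by omega
        by_cases hcb : c < b
        · have hbc : ¬ b < c := by omega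
          simp only [xi, u0_cons, U_cons, hba, hab, hca, hac, hcb, hbc, if_true, if_false]
          ring
        · simp only [xi, u0_cons, U_cons, hba, hab, hca, hac, hcb, if_true, if_false]
          ring
      · have hcb : ¬ c < b := by omega
        simp only [xi, u0_cons, U_cons, hba, hab, hca, hcb, if_true, if_false]
        ring
    · have hU : ∀ z : List ℕ, U z (fun _ => (0 : ℤ)) = 0 := by
        intro z
        have := U_add z (fun _ => 0) (fun _ => 0)
        simp only [add_zero] at this
        linarith
      by_cases hcb : c < b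
      · have hbc : ¬ b < c := by omega
        by_cases hca : c < a
        · have hac : ¬ a < c := by omega
          simp only [xi, u0_cons, U_cons, hba, hca, hac, hcb, hbc, if_true, if_false, hU]
          ring
        · simp only [xi, u0_cons, U_cons, hba, hca, hcb, hbc, if_true, if_false, hU]
          ring
      · by_cases hca : c < a
        · exfalso; omega
        · simp only [xi, u0_cons, U_cons, hba, hca, hcb, if_false, hU]
          ring

/-- The key identity for one letter. -/
lemma star (a : ℕ) (l : List ℕ) (φ : Fun) :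
    u0 (fun y => R y φ) (a :: l) = R l (xi a φ) := by
  rcases l with _ | ⟨b, m⟩
  · simp [xi]
  · have h : R (b :: m) (xi a φ) = R m (fun y => if b < a then (φ (b :: a :: y) + u0 φ (b :: a :: y)) +
        u0 (fun z => φ (b :: z) + u0 φ (b :: z)) (a :: y) else 0) := by
      rw [R_cons]
      congr 1
      funext y
      exact star_pt a b φ y
    rw [h]
    by_cases hba : b < a
    · simp only [u0_cons, if_pos hba, R_cons]
    · simp only [u0_cons, if_neg hba]
      have := R_smul m 0 (fun _ => 0)
      simpa using this.symm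

/-- The row operator commutes with `U`. -/
lemma R_U (x : List ℕ) : ∀ φ : Fun, U x (fun y => R y φ) = R x (fun y => U y φ) := by
  induction x with
  | nil => intro φ; simp
  | cons a l ih =>
    intro φ
    have h1 := star a l φ
    have h2 := ih (fun y => φ (a :: y) + u0 φ (a :: y))
    rw [U_cons, h1]
    simp only [R_cons]
    rw [h2, ← R_add]
    congr 1
    funext y
    simp only [xi, U_cons]
    rw [U_add]
    ring

/-- The derivative identity. -/
lemma R_X (x : List ℕ) : ∀ φ : Fun, X x (fun y => R y φ) = R x (fun y => X1 y φ) + A x φ := by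
  induction x with
  | nil => intro φ; simp
  | cons a l ih =>
    intro φ
    have h1 := star a l φ
    have h2 := ih (fun y => φ (a :: y) + u0 φ (a :: y))
    have h3 := R_U l (fun y => φ (a :: y) + u0 φ (a :: y))
    rw [X_cons, h1]
    simp only [R_cons, A_cons]
    rw [h2, h3]
    have key : ∀ y : List ℕ, xi a φ y + X1 y (fun y => φ (a :: y) + u0 φ (a :: y)) +
        U y (fun y => φ (a :: y) + u0 φ (a :: y)) =
        X1 (a :: y) φ + u0 (fun z => X1 z φ) (a :: y) + u0 φ (a :: y) := by
      intro y
      rw [U_add]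
      rcases y with _ | ⟨b, m⟩
      · simp [xi]
      · by_cases hba : b < a
        · have hab : ¬ a < b := by omega
          simp only [xi, X1_cons, u0_cons, U_cons, X_cons, hba, hab, if_true, if_false]
          rw [X_add]
          ring
        · simp only [xi, X1_cons, u0_cons, U_cons, X_cons, hba, if_false]
          rw [X_add]
          have := X_add m (fun _ => 0) (fun _ => 0)
          simp only [add_zero] at this
          have h0 : X m (fun _ => (0:ℤ)) = 0 := by linarith
          rw [h0]
          ring
    have h4 : R l (xi a φ) + R l (fun y => X1 y (fun y => φ (a :: y) + u0 φ (a :: y))) +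
        R l (fun y => U y (fun y => φ (a :: y) + u0 φ (a :: y))) =
        R l (fun y => X1 (a :: y) φ + u0 (fun z => X1 z φ) (a :: y)) + R l (fun y => u0 φ (a :: y)) := by
      rw [← R_add, ← R_add, ← R_add]
      congr 1
      funext y
      exact key y
    linarith

/-! ### permutation invariance -/

lemma u0_congr_perm (x : List ℕ) (φ ψ : Fun) (h : ∀ y, y.Perm x → φ y = ψ y) :
    u0 φ x = u0 ψ x := by
  rcases x with _ | ⟨a, _ | ⟨b, l⟩⟩
  · simp
  · simp
  · simp only [u0_cons]
    split_ifs
    · exact h _ (List.Perm.swap a b l)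
    · rfl

lemma R_congr (x : List ℕ) : ∀ (φ ψ : Fun), (∀ y, y.Perm x → φ y = ψ y) → R x φ = R x ψ := by
  induction x with
  | nil => intro φ ψ h; simpa using h [] (List.Perm.refl _)
  | cons a l ih =>
    intro φ ψ h
    simp only [R_cons]
    apply ih
    intro y hy
    have h1 : φ (a :: y) = ψ (a :: y) := h _ (List.Perm.cons a hy)
    have h2 : u0 φ (a :: y) = u0 ψ (a :: y) :=
      u0_congr_perm _ _ _ (fun z hz => h z (hz.trans (List.Perm.cons a hy)))
    rw [h1, h2]

lemma U_congr (x : List ℕ) : ∀ (φ ψ : Fun), (∀ y, y.Perm x → φ y = ψ y) → U x φ = U x ψ := by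
  induction x with
  | nil => intro φ ψ h; simp
  | cons a l ih =>
    intro φ ψ h
    simp only [U_cons]
    rw [u0_congr_perm _ _ _ h, ih _ (fun y => ψ (a :: y)) (fun y hy => h _ (List.Perm.cons a hy))]

lemma X_congr (x : List ℕ) : ∀ (φ ψ : Fun), (∀ y, y.Perm x → φ y = ψ y) → X x φ = X x ψ := by
  induction x with
  | nil => intro φ ψ h; simp
  | cons a l ih =>
    intro φ ψ h
    simp only [X_cons]
    rw [u0_congr_perm _ _ _ h, ih _ (fun y => ψ (a :: y)) (fun y hy => h _ (List.Perm.cons a hy)),
      U_congr l _ (fun y => ψ (a :: y)) (fun y hy => h _ (List.Perm.cons a hy))]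

/-! ### inversions -/

/-- number of letters of `l` smaller than `a` -/
def cnt (a : ℕ) (l : List ℕ) : ℕ := l.countP (fun b => decide (b < a))

/-- number of inversions -/
def inv : List ℕ → ℕ
  | [] => 0
  | a :: l => cnt a l + inv l

@[simp] lemma inv_nil : inv [] = 0 := rfl
@[simp] lemma inv_cons (a : ℕ) (l : List ℕ) : inv (a :: l) = cnt a l + inv l := rfl
@[simp] lemma cnt_nil (a : ℕ) : cnt a [] = 0 := rfl
lemma cnt_cons (a b : ℕ) (l : List ℕ) : cnt a (b :: l) = cnt a l + (if b < a then 1 else 0) := by
  simp [cnt, List.countP_cons]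
lemma cnt_perm (a : ℕ) {l l' : List ℕ} (h : l.Perm l') : cnt a l = cnt a l' := h.countP_eq _

lemma inv_swap (a b : ℕ) (l : List ℕ) (h : b < a) : inv (a :: b :: l) = inv (b :: a :: l) + 1 := by
  have hab : ¬ a < b := by omega
  simp only [inv_cons, cnt_cons, h, hab, if_true, if_false]
  ring

lemma A_eq (x : List ℕ) : ∀ φ : Fun,
    A x φ = (inv x : ℤ) * R x φ - R x (fun y => (inv y : ℤ) * φ y) := by
  induction x with
  | nil => intro φ; simp
  | cons a l ih =>
    intro φ
    have h1 := ih (fun y => φ (a :: y) + u0 φ (a :: y))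
    simp only [A_cons, R_cons]
    rw [h1]
    have h2 : ∀ y : List ℕ, y.Perm l → ((inv (a :: y) : ℤ) * φ (a :: y) +
        u0 (fun y => (inv y : ℤ) * φ y) (a :: y)) =
        (cnt a l : ℤ) * (φ (a :: y) + u0 φ (a :: y)) + ((inv y : ℤ) * (φ (a :: y) + u0 φ (a :: y)) -
          u0 φ (a :: y)) := by
      intro y hy
      have hc : cnt a y = cnt a l := cnt_perm a hy
      rcases y with _ | ⟨b, y⟩
      · simp [← hc]
      · simp only [u0_cons]
        by_cases hba : b < a
        · have := inv_swap a b y hba
          have h3 : (inv (b :: a :: y) : ℤ) = (inv (a :: b :: y) : ℤ) - 1 := by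
            rw [this]; push_cast; ring
          have h4 : (inv (a :: b :: y) : ℤ) = (cnt a l : ℤ) + (inv (b :: y) : ℤ) := by
            rw [inv_cons, hc]; push_cast; ring
          simp only [hba, if_true]
          rw [h3, h4]; ring
        · have h4 : (inv (a :: b :: y) : ℤ) = (cnt a l : ℤ) + (inv (b :: y) : ℤ) := by
            rw [inv_cons, hc]; push_cast; ring
          simp only [hba, if_false]
          rw [h4]; ring
    have h3 : R l (fun y => (inv (a :: y) : ℤ) * φ (a :: y) + u0 (fun y => (inv y : ℤ) * φ y) (a :: y)) =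
        (cnt a l : ℤ) * R l (fun y => φ (a :: y) + u0 φ (a :: y)) +
          (R l (fun y => (inv y : ℤ) * (φ (a :: y) + u0 φ (a :: y))) - R l (fun y => u0 φ (a :: y))) := by
      rw [R_congr l _ _ h2, ← R_smul, ← R_sub, ← R_add]
    rw [h3, inv_cons]
    push_cast
    ring

/-! ### the first-row recursion -/

/-- apply `F` to the tail if the head is smaller than all letters of the tail -/
def mh (F : Fun) : Fun
  | [] => 0
  | c :: t => if ∀ y ∈ t, c < y then F t else 0

/-- first-row recursion with fuel = length -/
def Fn : ℕ → Fun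
  | 0 => fun _ => 1
  | n + 1 => fun x => R x (mh (Fn n))

lemma cnt_eq_zero {c : ℕ} {t : List ℕ} (h : ∀ y ∈ t, c < y) : cnt c t = 0 := by
  unfold cnt
  rw [List.countP_eq_zero]
  intro b hb
  have := h b hb
  simp; omega

/-- Macdonald's recursion for the first-row numbers. -/
theorem X_Fn (n : ℕ) : ∀ x : List ℕ, x.length = n → X x (Fn n) = (inv x : ℤ) * Fn n x := by
  induction n with
  | zero =>
    intro x hx
    rw [List.length_eq_zero_iff] at hx
    subst hx; simp
  | succ n ih =>
    intro x hx
    have h1 := R_X x (mh (Fn n))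
    have h2 := A_eq x (mh (Fn n))
    have h3 : R x (fun y => X1 y (mh (Fn n))) = R x (fun y => (inv y : ℤ) * mh (Fn n) y) := by
      apply R_congr
      intro y hy
      rcases y with _ | ⟨c, t⟩
      · simp
      · have hlen : t.length = n := by
          have := hy.length_eq
          simp at this; omega
        simp only [X1_cons, inv_cons]
        by_cases hc : ∀ z ∈ t, c < z
        · have e1 : X t (fun y => mh (Fn n) (c :: y)) = X t (Fn n) := by
            apply X_congr
            intro z hz
            have : ∀ w ∈ z, c < w := fun w hw => hc w (hz.subset hw)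
            simp only [mh, if_pos this]
          rw [e1, ih t hlen, cnt_eq_zero hc]
          simp only [mh, if_pos hc]
          push_cast; ring
        · have e1 : X t (fun y => mh (Fn n) (c :: y)) = X t (fun _ => (0:ℤ)) := by
            apply X_congr
            intro z hz
            have : ¬ ∀ w ∈ z, c < w := fun h => hc (fun w hw => h w (hz.symm.subset hw))
            simp only [mh, if_neg this]
          have h0 : X t (fun _ => (0:ℤ)) = 0 := by
            have := X_add t (fun _ => 0) (fun _ => 0)
            simp only [add_zero] at this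
            linarith
          rw [e1, h0]
          simp only [mh, if_neg hc]
          ring
    have h4 : Fn (n+1) = fun x => R x (mh (Fn n)) := rfl
    rw [h4, h1, h3, h2]
    ring

end Pool.Agent.Gao
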