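import Mathlib
import Pool.Agent.Gao.FockGen

/-!
# Gao project: the run of the program of a marked word, in boxes

For a list `L` of letters, strictly increasing in `ps`, `v` injective, `M = L.toFinset`:
`run (prog v g adj L) (span vac) = gen bops (ee (St M))`, where the slot `x ∈ M ∩ Bs` contains its inert boxes and the
boxes `b i x`, `i` = rank of the moving letter `y ∈ M`, `ps y < ps x`, `v x < v y`, and at least `adj x` moving letters
`z` with `v x < v z` lie between `y` and `x`.
-/

namespace Gao

open Finset Module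

noncomputable section

section prog
variable {τ : Type*} [DecidableEq τ]

theorem prog_nil' (v : τ → ℕ) (g : τ → Bool) (adj : τ → ℕ) :
    prog v g adj [] = [] := rfl

lemma takeWhile_mid (α β : List τ) (a : τ) (ha : a ∉ α) :
    (α ++ a :: β).takeWhile (fun x => decide (x ≠ a)) = α := by
  induction α with
  | nil => simp
  | cons x α ih =>
    have hxa : x ≠ a := fun h => ha (h ▸ List.mem_cons_self)
    rw [List.cons_append, List.takeWhile_cons_of_pos (by simp [hxa]),
      ih (fun h => ha (List.mem_cons_of_mem _ h))]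

lemma dropWhile_mid (α β : List τ) (a : τ) (ha : a ∉ α) :
    (α ++ a :: β).dropWhile (fun x => decide (x ≠ a)) = a :: β := by
  induction α with
  | nil => simp
  | cons x α ih =>
    have hxa : x ≠ a := fun h => ha (h ▸ List.mem_cons_self)
    rw [List.cons_append, List.dropWhile_cons_of_pos (by simp [hxa]),
      ih (fun h => ha (List.mem_cons_of_mem _ h))]

lemma argmin_mid (v : τ → ℕ) (α β : List τ) (a : τ) (hα : ∀ x ∈ α, v a < v x)
    (hβ : ∀ x ∈ β, v a < v x) : (α ++ a :: β).argmin v = some a := by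
  have h0 : α ++ a :: β ≠ [] := by simp
  rcases h : (α ++ a :: β).argmin v with _ | b
  · exact absurd (List.argmin_eq_none.1 h) h0
  · have hb := List.argmin_mem h
    have hle := List.le_of_mem_argmin (a := a) (by simp) h
    rcases List.mem_append.1 hb with h1 | h1
    · exact absurd (hα b h1) (not_lt.2 hle)
    · rcases List.mem_cons.1 h1 with h2 | h2
      · rw [h2]
      · exact absurd (hβ b h2) (not_lt.2 hle)

theorem prog_rec' (v : τ → ℕ) (g : τ → Bool) (adj : τ → ℕ)
    (α β : List τ) (a : τ) (hα : ∀ x ∈ α, v a < v x) (hβ : ∀ x ∈ β, v a < v x) :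
    prog v g adj (α ++ a :: β) = Ins.tw a (α.countP g - adj a) ::
      ((if g a then (List.range (β.countP g)).map (fun i => Ins.T (α.countP g + i)) else []) ++
        prog v g adj (α ++ β)) := by
  have hlen : (α ++ a :: β).length = (α ++ β).length + 1 := by
    simp only [List.length_append, List.length_cons]
    omega
  have ha : a ∉ α := fun h => lt_irrefl _ (hα a h)
  unfold prog
  rw [hlen]
  conv_lhs => rw [progN]
  rw [argmin_mid v α β a hα hβ]
  simp only [takeWhile_mid α β a ha, dropWhile_mid α β a ha, List.tail_cons]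

lemma exists_min' (v : τ → ℕ) (L : List τ) (hL : L.Nodup) (hv : ∀ x ∈ L, ∀ y ∈ L, v x = v y → x = y)
    (h0 : L ≠ []) : ∃ α β a, L = α ++ a :: β ∧ (∀ x ∈ α, v a < v x) ∧ (∀ x ∈ β, v a < v x) := by
  obtain ⟨a, ha⟩ : ∃ a, a ∈ L.argmin v := by
    rcases h : L.argmin v with _ | a
    · exact absurd (List.argmin_eq_none.1 h) h0
    · exact ⟨a, rfl⟩
  have haL := List.argmin_mem ha
  obtain ⟨α, β, rfl⟩ := List.append_of_mem haL
  have hle : ∀ x ∈ α ++ a :: β, v a ≤ v x := fun x hx => List.le_of_mem_argmin hx ha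
  have hne : a ∉ α ++ β := by
    have := (List.nodup_middle.1 hL)
    exact (List.nodup_cons.1 this).1
  refine ⟨α, β, a, rfl, fun x hx => ?_, fun x hx => ?_⟩
  · have hxL : x ∈ α ++ a :: β := List.mem_append_left _ hx
    refine lt_of_le_of_ne (hle x hxL) (fun h => hne ?_)
    rw [hv a haL x hxL h]
    exact List.mem_append_left _ hx
  · have hxL : x ∈ α ++ a :: β := List.mem_append_right _ (List.mem_cons_of_mem _ hx)
    refine lt_of_le_of_ne (hle x hxL) (fun h => hne ?_)
    rw [hv a haL x hxL h]
    exact List.mem_append_right _ hx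

end prog

/-! ### ranks -/

section rank

variable {τ β : Type*} [DecidableEq τ] [LinearOrder β] (g : τ → Bool) (ps : τ → β)

/-- number of moving letters of `M` before `y` -/
def rkM (M : Finset τ) (y : τ) : ℕ := (M.filter (fun z => g z = true ∧ ps z < ps y)).card

variable {g ps}

lemma rkM_lt {M : Finset τ} {y y' : τ} (hy : y ∈ M) (hg : g y = true) (h : ps y < ps y') :
    rkM g ps M y < rkM g ps M y' := by
  apply card_lt_card
  rw [ssubset_iff_of_subset]
  · exact ⟨y, mem_filter.2 ⟨hy, hg, h⟩, fun h' => lt_irrefl _ (mem_filter.1 h').2.2⟩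
  · intro z hz
    rw [mem_filter] at hz ⊢
    exact ⟨hz.1, hz.2.1, hz.2.2.trans h⟩

lemma rkM_inj (hps : Function.Injective ps) {M : Finset τ} {y y' : τ} (hy : y ∈ M)
    (hg : g y = true) (hy' : y' ∈ M) (hg' : g y' = true) (h : rkM g ps M y = rkM g ps M y') :
    y = y' := by
  rcases lt_trichotomy (ps y) (ps y') with h1 | h1 | h1
  · exact absurd h (rkM_lt hy hg h1).ne
  · exact hps h1
  · exact absurd h.symm (rkM_lt hy' hg' h1).ne

lemma rkM_surj (hps : Function.Injective ps) (M : Finset τ) (a : τ) (i : ℕ)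
    (hi : i < rkM g ps M a) : ∃ y ∈ M, g y = true ∧ ps y < ps a ∧ rkM g ps M y = i := by
  set F := M.filter (fun z => g z = true ∧ ps z < ps a) with hF
  have h1 : ∀ y ∈ F, rkM g ps M y ∈ range F.card := by
    intro y hy
    rw [hF, mem_filter] at hy
    rw [mem_range]
    exact rkM_lt hy.1 hy.2.1 hy.2.2
  have h2 : ∀ y ∈ F, ∀ y' ∈ F, rkM g ps M y = rkM g ps M y' → y = y' := by
    intro y hy y' hy' h
    rw [hF, mem_filter] at hy hy'
    exact rkM_inj hps hy.1 hy.2.1 hy'.1 hy'.2.1 h
  have h3 : F.image (rkM g ps M) = range F.card := by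
    apply eq_of_subset_of_card_le
    · intro j hj
      obtain ⟨y, hy, rfl⟩ := mem_image.1 hj
      exact h1 y hy
    · rw [card_range, card_image_of_injOn]
      intro y hy y' hy' h
      exact h2 y hy y' hy' h
  have h4 : i ∈ F.image (rkM g ps M) := by
    rw [h3, mem_range]
    exact hi
  obtain ⟨y, hy, hyi⟩ := mem_image.1 h4
  rw [hF, mem_filter] at hy
  exact ⟨y, hy.1, hy.2.1, hy.2.2, hyi⟩

/-- moving letters between `y` and `a` -/
lemma rkM_between (hps : Function.Injective ps) {M : Finset τ} {y a : τ} (hy : y ∈ M)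
    (hg : g y = true) (h : ps y < ps a) :
    rkM g ps M y + 1 + (M.filter (fun z => g z = true ∧ ps y < ps z ∧ ps z < ps a)).card =
      rkM g ps M a := by
  unfold rkM
  have h1 : M.filter (fun z => g z = true ∧ ps z < ps a) =
      insert y (M.filter (fun z => g z = true ∧ ps z < ps y) ∪
        M.filter (fun z => g z = true ∧ ps y < ps z ∧ ps z < ps a)) := by
    ext z
    simp only [mem_filter, mem_insert, mem_union]
    constructor
    · rintro ⟨h1, h2, h3⟩
      rcases lt_trichotomy (ps z) (ps y) with h4 | h4 | h4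
      · exact Or.inr (Or.inl ⟨h1, h2, h4⟩)
      · exact Or.inl (hps h4)
      · exact Or.inr (Or.inr ⟨h1, h2, h4, h3⟩)
    · rintro (rfl | ⟨h1, h2, h3⟩ | ⟨h1, h2, h3, h4⟩)
      · exact ⟨hy, hg, h⟩
      · exact ⟨h1, h2, h3.trans h⟩
      · exact ⟨h1, h2, h4⟩
  rw [h1, card_insert_of_notMem, card_union_of_disjoint]
  · ring
  · rw [Finset.disjoint_left]
    intro z hz hz'
    rw [mem_filter] at hz hz'
    exact lt_asymm hz.2.2 hz'.2.2.1
  · intro h2
    rcases mem_union.1 h2 with h3 | h3
    · exact lt_irrefl _ (mem_filter.1 h3).2.2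
    · exact lt_irrefl _ (mem_filter.1 h3).2.2.1

variable (g ps)

/-- the index `i` occurs in the slot `x` -/
def InS (v : τ → ℕ) (adj : τ → ℕ) (Bs M : Finset τ) (i : ℕ) (x : τ) : Prop :=
  x ∈ M ∧ x ∈ Bs ∧ ∃ y ∈ M, g y = true ∧ rkM g ps M y = i ∧ ps y < ps x ∧ v x < v y ∧
    adj x ≤ (M.filter (fun z => g z = true ∧ ps y < ps z ∧ ps z < ps x ∧ v x < v z)).card

variable {g ps} {v : τ → ℕ} {adj : τ → ℕ} {Bs : Finset τ}

lemma rkM_insert {M : Finset τ} {a y : τ} (ha : a ∉ M) :
    rkM g ps (insert a M) y = rkM g ps M y + (if g a = true ∧ ps a < ps y then 1 else 0) := by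
  unfold rkM
  rw [filter_insert]
  split_ifs with h
  · rw [card_insert_of_notMem]
    exact fun h' => ha (mem_filter.1 h').1
  · rfl

lemma InS_ne {M : Finset τ} {a : τ} (ha : a ∉ M)
    (hv : ∀ z ∈ M, v a < v z) (hps : Function.Injective ps) {x : τ} (hx : x ≠ a) (i : ℕ) :
    InS g ps v adj Bs (insert a M) i x ↔ ∃ j, InS g ps v adj Bs M j x ∧
      (if g a = true ∧ rkM g ps M a ≤ j then j + 1 else j) = i := by
  have hkey : ∀ y ∈ M, g y = true → (ps a < ps y ↔ rkM g ps M a ≤ rkM g ps M y) := by
    intro y hy hg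
    constructor
    · intro h
      apply card_le_card
      intro z hz
      rw [mem_filter] at hz ⊢
      exact ⟨hz.1, hz.2.1, hz.2.2.trans h⟩
    · intro h
      rcases lt_trichotomy (ps a) (ps y) with h1 | h1 | h1
      · exact h1
      · rw [hps h1] at ha
        exact absurd hy ha
      · exact absurd h (not_le.2 (rkM_lt hy hg h1))
  have hfil : ∀ y, x ∈ M → (insert a M).filter (fun z => g z = true ∧ ps y < ps z ∧ ps z < ps x ∧ v x < v z) =
      M.filter (fun z => g z = true ∧ ps y < ps z ∧ ps z < ps x ∧ v x < v z) := by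
    intro y hxM
    rw [filter_insert, if_neg]
    rintro ⟨_, _, _, h⟩
    exact lt_asymm h (hv x hxM)
  unfold InS
  constructor
  · rintro ⟨h1, h2, y, hy, hg, hr, h3, h4, h5⟩
    have hxM : x ∈ M := (mem_insert.1 h1).resolve_left hx
    have hyM : y ∈ M := by
      refine (mem_insert.1 hy).resolve_left ?_
      rintro rfl
      exact lt_asymm h4 (hv x hxM)
    refine ⟨rkM g ps M y, ⟨hxM, h2, y, hyM, hg, rfl, h3, h4, ?_⟩, ?_⟩
    · rw [hfil y hxM] at h5
      exact h5
    · rw [← hr, rkM_insert ha]
      simp only [← hkey y hyM hg]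
      split_ifs <;> rfl
  · rintro ⟨j, ⟨hxM, h2, y, hyM, hg, hr, h3, h4, h5⟩, hj⟩
    refine ⟨mem_insert_of_mem hxM, h2, y, mem_insert_of_mem hyM, hg, ?_, h3, h4, ?_⟩
    · rw [← hj, rkM_insert ha, ← hr]
      simp only [← hkey y hyM hg]
      split_ifs <;> rfl
    · rw [hfil y hxM]
      exact h5

lemma InS_self {M : Finset τ} {a : τ} (ha : a ∉ M)
    (hv : ∀ z ∈ M, v a < v z) (hps : Function.Injective ps) (i : ℕ) :
    InS g ps v adj Bs (insert a M) i a ↔ a ∈ Bs ∧ i < rkM g ps M a - adj a := by
  have hfil : ∀ y, (insert a M).filter (fun z => g z = true ∧ ps y < ps z ∧ ps z < ps a ∧ v a < v z) =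
      M.filter (fun z => g z = true ∧ ps y < ps z ∧ ps z < ps a) := by
    intro y
    rw [filter_insert, if_neg (fun h => lt_irrefl _ h.2.2.2)]
    apply filter_congr
    intro z hz
    constructor
    · rintro ⟨h1, h2, h3, _⟩
      exact ⟨h1, h2, h3⟩
    · rintro ⟨h1, h2, h3⟩
      exact ⟨h1, h2, h3, hv z hz⟩
  unfold InS
  constructor
  · rintro ⟨_, h2, y, hy, hg, hr, h3, h4, h5⟩
    have hyM : y ∈ M := by
      refine (mem_insert.1 hy).resolve_left ?_
      rintro rfl
      exact lt_irrefl _ h3
    rw [hfil y] at h5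
    have h6 := rkM_between hps hyM hg h3
    rw [rkM_insert ha, if_neg (fun h => lt_asymm h.2 h3), add_zero] at hr
    refine ⟨h2, ?_⟩
    omega
  · rintro ⟨h2, h3⟩
    obtain ⟨y, hyM, hg, h4, hr⟩ := rkM_surj (g := g) hps M a i (by omega)
    refine ⟨mem_insert_self _ _, h2, y, mem_insert_of_mem hyM, hg, ?_, h4, hv y hyM, ?_⟩
    · rw [rkM_insert ha, if_neg (fun h => lt_asymm h.2 h4), add_zero, hr]
    · rw [hfil y]
      have h6 := rkM_between hps hyM hg h4
      omega

end rank

/-! ### the set of boxes -/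

section St

variable {B τ : Type} {β : Type*} [Fintype B] [DecidableEq B] [Fintype τ] [DecidableEq τ] [LinearOrder β]
  {m : ℕ} (s : SlotData B τ m) (g : τ → Bool) (ps : τ → β) (v : τ → ℕ) (adj : τ → ℕ) (Bs : Finset τ)

open Classical in
/-- the boxes of the state `M` -/
def St (M : Finset τ) : Finset B :=
  univ.filter (fun bx => (∃ x ∈ M, x ∈ Bs ∧ bx ∈ s.inr x) ∨
    ∃ (i : Fin m) (x : τ), bx = s.b i x ∧ InS g ps v adj Bs M i x)

omit [Fintype B] [Fintype τ] in
lemma SlotData.b_ne_inr (i : Fin m) (p q : τ) : s.b i p ∉ s.inr q := by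
  by_cases hpq : p = q
  · subst hpq
    exact s.b_inr i p
  · intro h
    exact Finset.disjoint_left.1 (s.disj p q hpq) (s.b_mem i p) (s.inr_mem q _ h)

variable {s g ps v adj Bs}

lemma mem_St {M : Finset τ} {bx : B} :
    bx ∈ St s g ps v adj Bs M ↔ (∃ x ∈ M, x ∈ Bs ∧ bx ∈ s.inr x) ∨
      ∃ (i : Fin m) (x : τ), bx = s.b i x ∧ InS g ps v adj Bs M i x := by
  classical
  unfold St
  rw [mem_filter]
  exact ⟨fun h => h.2, fun h => ⟨mem_univ _, h⟩⟩

lemma b_mem_St {M : Finset τ} {i : Fin m} {x : τ} :
    s.b i x ∈ St s g ps v adj Bs M ↔ InS g ps v adj Bs M i x := by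
  rw [mem_St]
  constructor
  · rintro (⟨y, _, _, h⟩ | ⟨j, y, h1, h2⟩)
    · exact absurd h (s.b_ne_inr i x y)
    · obtain ⟨rfl, rfl⟩ := s.inj _ _ _ _ h1
      exact h2
  · intro h
    exact Or.inr ⟨i, x, rfl, h⟩

lemma nb_mem_St {M : Finset τ} {bx : B} (hb : ∀ i p, s.b i p ≠ bx) :
    bx ∈ St s g ps v adj Bs M ↔ ∃ x ∈ M, x ∈ Bs ∧ bx ∈ s.inr x := by
  rw [mem_St]
  constructor
  · rintro (h | ⟨j, y, h1, _⟩)
    · exact h
    · exact absurd h1.symm (hb j y)
  · exact Or.inl

lemma mem_boxes_b {p q : τ} {i : Fin m} {l : Finset (Fin m)} :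
    s.b i q ∈ s.boxes p l ↔ q = p ∧ i ∈ l := by
  unfold SlotData.boxes
  rw [List.mem_append, List.mem_map]
  constructor
  · rintro (⟨j, hj, h⟩ | h)
    · obtain ⟨rfl, rfl⟩ := s.inj _ _ _ _ h
      exact ⟨rfl, (Finset.mem_sort _).1 hj⟩
    · exact absurd h (s.b_ne_inr i q p)
  · rintro ⟨rfl, h⟩
    exact Or.inl ⟨i, (Finset.mem_sort _).2 h, rfl⟩

lemma mem_boxes_nb {p : τ} {bx : B} (hb : ∀ i p, s.b i p ≠ bx) {l : Finset (Fin m)} :
    bx ∈ s.boxes p l ↔ bx ∈ s.inr p := by
  unfold SlotData.boxes
  rw [List.mem_append, List.mem_map]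
  constructor
  · rintro (⟨j, _, h⟩ | h)
    · exact absurd h (hb j p)
    · exact h
  · exact Or.inr

lemma InS_lt {M : Finset τ} {i : ℕ} {x : τ} (h : InS g ps v adj Bs M i x) :
    i < (M.filter (fun z => g z = true)).card := by
  obtain ⟨_, _, y, hy, hg, hr, h3, _⟩ := h
  rw [← hr]
  apply card_lt_card
  rw [ssubset_iff_of_subset]
  · exact ⟨y, mem_filter.2 ⟨hy, hg⟩, fun h' => lt_irrefl _ (mem_filter.1 h').2.2⟩
  · intro z hz
    rw [mem_filter] at hz ⊢
    exact ⟨hz.1, hz.2.1⟩

/-- one step of the recursion, in boxes -/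
lemma St_step {M : Finset τ} {a : τ} (ha : a ∉ M) (hv : ∀ z ∈ M, v a < v z)
    (hps : Function.Injective ps) (t r : ℕ) (ht : rkM g ps M a = t)
    (hr : (M.filter (fun z => g z = true)).card = t + r) (hm : g a = true → t + r < m) :
    St s g ps v adj Bs (insert a M) =
      (if a ∈ Bs then
        (if g a = true then s.move (shiftIx m t r) (St s g ps v adj Bs M)
          else St s g ps v adj Bs M) ∪ (s.boxes a (ini m (t - adj a))).toFinset
      else (if g a = true then s.move (shiftIx m t r) (St s g ps v adj Bs M)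
          else St s g ps v adj Bs M)) := by
  have hnb : ∀ bx : B, (∀ i p, s.b i p ≠ bx) →
      (bx ∈ (if g a = true then s.move (shiftIx m t r) (St s g ps v adj Bs M)
          else St s g ps v adj Bs M) ↔ ∃ x ∈ M, x ∈ Bs ∧ bx ∈ s.inr x) := by
    intro bx hb
    split_ifs
    · rw [s.mem_move_of_ne hb, nb_mem_St hb]
    · rw [nb_mem_St hb]
  have hbb : ∀ (i : Fin m) (x : τ),
      (s.b i x ∈ (if g a = true then s.move (shiftIx m t r) (St s g ps v adj Bs M)
          else St s g ps v adj Bs M) ↔
        ∃ j, InS g ps v adj Bs M j x ∧ (if g a = true ∧ rkM g ps M a ≤ j then j + 1 else j) = i) := by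
    intro i x
    by_cases hg : g a = true
    · rw [if_pos hg, s.b_mem_move]
      constructor
      · rintro ⟨j, hj, hji⟩
        rw [b_mem_St] at hj
        refine ⟨j, hj, ?_⟩
        have hlt := InS_lt hj
        rw [hr] at hlt
        have hm' := hm hg
        rw [← hji, ht]
        unfold shiftIx
        by_cases h1 : t ≤ (j : ℕ)
        · rw [if_pos ⟨hg, h1⟩, dif_pos ⟨h1, hlt, by omega⟩]
        · rw [if_neg (fun h => h1 h.2), dif_neg (fun h => h1 h.1)]
      · rintro ⟨j, hj, hji⟩
        have hlt := InS_lt hj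
        rw [hr] at hlt
        have hm' := hm hg
        refine ⟨⟨j, by omega⟩, b_mem_St.2 hj, ?_⟩
        rw [ht] at hji
        apply Fin.ext
        rw [← hji]
        unfold shiftIx
        by_cases h1 : t ≤ j
        · rw [if_pos ⟨hg, h1⟩, dif_pos ⟨h1, hlt, by change j + 1 < m; omega⟩]
        · rw [if_neg (fun h => h1 h.2), dif_neg (fun h => h1 h.1)]
    · rw [if_neg hg, b_mem_St]
      constructor
      · intro h
        exact ⟨i, h, if_neg (fun h => hg h.1)⟩
      · rintro ⟨j, hj, hji⟩
        rw [if_neg (fun h => hg h.1)] at hji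
        rw [← hji]
        exact hj
  have hnotM : ∀ j, ¬ InS g ps v adj Bs M j a := fun j h => ha h.1
  apply s.move_ext
  · intro bx hb
    rw [nb_mem_St hb]
    by_cases haB : a ∈ Bs
    · rw [if_pos haB, mem_union, hnb bx hb, List.mem_toFinset, mem_boxes_nb hb]
      constructor
      · rintro ⟨x, hx, hxB, h⟩
        rcases mem_insert.1 hx with rfl | hx
        · exact Or.inr h
        · exact Or.inl ⟨x, hx, hxB, h⟩
      · rintro (⟨x, hx, hxB, h⟩ | h)
        · exact ⟨x, mem_insert_of_mem hx, hxB, h⟩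
        · exact ⟨a, mem_insert_self _ _, haB, h⟩
    · rw [if_neg haB, hnb bx hb]
      constructor
      · rintro ⟨x, hx, hxB, h⟩
        rcases mem_insert.1 hx with rfl | hx
        · exact absurd hxB haB
        · exact ⟨x, hx, hxB, h⟩
      · rintro ⟨x, hx, hxB, h⟩
        exact ⟨x, mem_insert_of_mem hx, hxB, h⟩
  · intro i x
    rw [b_mem_St]
    by_cases hxa : x = a
    · subst hxa
      rw [InS_self ha hv hps]
      by_cases haB : x ∈ Bs
      · rw [if_pos haB, mem_union, hbb i x, List.mem_toFinset, mem_boxes_b, ht]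
        constructor
        · rintro ⟨_, h⟩
          exact Or.inr ⟨rfl, mem_filter.2 ⟨mem_univ _, h⟩⟩
        · rintro (⟨j, hj, _⟩ | ⟨_, h⟩)
          · exact absurd hj (hnotM j)
          · exact ⟨haB, (mem_filter.1 h).2⟩
      · rw [if_neg haB, hbb i x]
        constructor
        · rintro ⟨h, _⟩
          exact absurd h haB
        · rintro ⟨j, hj, _⟩
          exact absurd hj (hnotM j)
    · rw [InS_ne ha hv hps hxa]
      by_cases haB : a ∈ Bs
      · rw [if_pos haB, mem_union, hbb i x, List.mem_toFinset, mem_boxes_b]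
        constructor
        · exact Or.inl
        · rintro (h | ⟨h, _⟩)
          · exact h
          · exact absurd h hxa
      · rw [if_neg haB, hbb i x]

lemma St_disj {M : Finset τ} {a : τ} (ha : a ∉ M) : Disjoint (St s g ps v adj Bs M) (s.Sl a) := by
  rw [Finset.disjoint_left]
  intro bx hb hb'
  rcases mem_St.1 hb with ⟨x, hx, _, h⟩ | ⟨i, x, h1, h2⟩
  · have hxa : x ≠ a := fun h => ha (h ▸ hx)
    exact Finset.disjoint_left.1 (s.disj x a hxa) (s.inr_mem x _ h) hb'
  · have hxa : x ≠ a := fun h => ha (h ▸ h2.1)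
    rw [h1] at hb'
    exact Finset.disjoint_left.1 (s.disj x a hxa) (s.b_mem i x) hb'

lemma move_disj {D : Finset B} {a : τ} {σ : Fin m → Fin m} (h : Disjoint D (s.Sl a)) :
    Disjoint (s.move σ D) (s.Sl a) := by
  rw [Finset.disjoint_left] at h ⊢
  intro bx hb hb'
  rcases s.mem_move.1 hb with ⟨h1, _⟩ | ⟨i, p, h1, h2⟩
  · exact h h1 hb'
  · rw [← h2] at hb'
    by_cases hpa : p = a
    · subst hpa
      exact h h1 (s.b_mem i p)
    · exact Finset.disjoint_left.1 (s.disj p a hpa) (s.b_mem _ p) hb'

lemma gen_vac (s : SlotData B τ m) : Submodule.span ℂ {(Kost.vac : Kost.Fock B)} =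
    gen (fockRep s).bops (Kost.ee ∅) := by
  have hE : ∀ i j, (fockRep s).E i j (Kost.ee ∅) = 0 := by
    intro i j
    change s.E i j (Kost.vac : Kost.Fock B) = 0
    unfold SlotData.E
    rw [LinearMap.sum_apply]
    refine Finset.sum_eq_zero fun p _ => ?_
    rw [Module.End.mul_apply, Kost.an_vac, map_zero]
  apply le_antisymm
  · rw [Submodule.span_singleton_le_iff_mem]
    exact self_mem_gen _ _
  · refine gen_le (Submodule.mem_span_singleton_self _) ?_
    rintro T ⟨i, j, _, rfl⟩ x hx
    obtain ⟨c, rfl⟩ := Submodule.mem_span_singleton.1 hx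
    rw [map_smul]
    have : (fockRep s).E i j (Kost.vac : Kost.Fock B) = 0 := hE i j
    rw [this, smul_zero]
    exact Submodule.zero_mem _

/-- THE RUN OF THE PROGRAM OF A MARKED WORD -/
theorem run_prog (hps : Function.Injective ps) (hvi : Function.Injective v) (L : List τ)
    (hL : L.Pairwise (fun x y => ps x < ps y)) (hm : L.countP g ≤ m) :
    run (fockTw s) Bs (prog v g adj L) (Submodule.span ℂ {(Kost.vac : Kost.Fock B)}) =
      gen (fockRep s).bops (Kost.ee (St s g ps v adj Bs L.toFinset)) := by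
  induction hk : L.length generalizing L with
  | zero =>
    have : L = [] := List.length_eq_zero_iff.1 hk
    subst this
    rw [prog_nil']
    change Submodule.span ℂ {(Kost.vac : Kost.Fock B)} = _
    rw [gen_vac s]
    congr 2
    symm
    rw [Finset.eq_empty_iff_forall_notMem]
    intro bx hb
    rcases mem_St.1 hb with ⟨x, hx, _⟩ | ⟨i, x, _, h2⟩
    · simp at hx
    · have := h2.1
      simp at this
  | succ k ih =>
    have h0 : L ≠ [] := by
      rintro rfl
      simp at hk
    have hnd : L.Nodup := hL.imp (fun {x y} h => fun h' => by rw [h'] at h; exact lt_irrefl _ h)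
    obtain ⟨α, β', a, rfl, hα, hβ⟩ := exists_min' v L hnd (fun x _ y _ h => hvi h) h0
    rw [prog_rec' v g adj α β' a hα hβ]
    have hL1 := List.nodup_cons.1 (List.nodup_middle.1 hnd)
    have hL2 : (α ++ β').Pairwise (fun x y => ps x < ps y) := by
      refine hL.sublist ?_
      exact List.Sublist.append (List.Sublist.refl α) (List.sublist_cons_self a β')
    have hcount : (α ++ a :: β').countP g = (α ++ β').countP g + (if g a = true then 1 else 0) := by
      rw [List.countP_append, List.countP_cons, List.countP_append, add_assoc]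
    have h1 := ih (α ++ β') hL2 (by rw [hcount] at hm; omega) (by
      simp only [List.length_append, List.length_cons] at hk ⊢
      omega)
    set M := (α ++ β').toFinset with hM
    have haM : a ∉ M := fun h => hL1.1 (List.mem_toFinset.1 h)
    have hvM : ∀ z ∈ M, v a < v z := by
      intro z hz
      rcases List.mem_append.1 (List.mem_toFinset.1 hz) with h | h
      · exact hα z h
      · exact hβ z h
    have hMi : (α ++ a :: β').toFinset = insert a M := by
      ext z
      simp only [hM, List.mem_toFinset, List.mem_append, List.mem_cons, mem_insert]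
      tauto
    -- positions
    rw [List.pairwise_append] at hL
    have hαa : ∀ x ∈ α, ps x < ps a := fun x hx => hL.2.2 x hx a List.mem_cons_self
    have hβa : ∀ x ∈ β', ps a < ps x := (List.pairwise_cons.1 hL.2.1).1
    have hαn : α.Nodup := (List.nodup_append.1 hL1.2).1
    have hcard : ∀ (l : List τ), l.Nodup → (l.toFinset.filter (fun z => g z = true)).card = l.countP g := by
      intro l hl
      rw [List.countP_eq_length_filter, ← List.toFinset_filter, List.toFinset_card_of_nodup]
      exact hl.filter _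
    have ht : rkM g ps M a = α.countP g := by
      rw [← hcard α hαn]
      unfold rkM
      congr 1
      ext z
      simp only [hM, mem_filter, List.mem_toFinset, List.mem_append]
      constructor
      · rintro ⟨h | h, h2, h3⟩
        · exact ⟨h, h2⟩
        · exact absurd h3 (lt_asymm (hβa z h))
      · rintro ⟨h, h2⟩
        exact ⟨Or.inl h, h2, hαa z h⟩
    have hr : (M.filter (fun z => g z = true)).card = α.countP g + β'.countP g := by
      rw [hM, hcard _ hL1.2, List.countP_append]
    have hmm : g a = true → α.countP g + β'.countP g < m := by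
      intro h
      rw [hcount, if_pos h, List.countP_append] at hm
      omega
    have hstep := St_step (s := s) (adj := adj) (Bs := Bs) haM hvM hps (α.countP g) (β'.countP g)
      ht hr hmm
    rw [hMi, hstep]
    have hinner : run (fockTw s) Bs ((if g a then (List.range (β'.countP g)).map
        (fun i => (Ins.T (α.countP g + i) : Ins τ)) else []) ++ prog v g adj (α ++ β'))
        (Submodule.span ℂ {(Kost.vac : Kost.Fock B)}) =
        gen (fockRep s).bops (Kost.ee (if g a = true then
          s.move (shiftIx m (α.countP g) (β'.countP g)) (St s g ps v adj Bs M)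
          else St s g ps v adj Bs M)) := by
      rw [run_append, h1]
      by_cases hg : g a = true
      · rw [if_pos hg, if_pos hg]
        apply T_gen_shifts s τ _ _ _ _ (hmm hg)
        intro i hi p hip
        have := InS_lt (b_mem_St.1 hip)
        rw [hr] at this
        omega
      · rw [if_neg hg, if_neg hg]
        rfl
    change (if a ∈ Bs then (fockTw s a).twist (α.countP g - adj a) (run (fockTw s) Bs _ _)
      else run (fockTw s) Bs _ _) = _
    rw [hinner]
    by_cases haB : a ∈ Bs
    · rw [if_pos haB, if_pos haB]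
      apply twist_gen
      split_ifs
      · exact move_disj (St_disj haM)
      · exact St_disj haM
    · rw [if_neg haB, if_neg haB]

end St

end

end Gao
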