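import Mathlib

/-!
# Elementary homological algebra for subcomplexes (Gao project, MP_b139df_co)

`A q` ambient spaces, `M q ≤ A q` the terms of the complex, `d q : A q → A (q+1)`.
`Van M d q` : the cohomology in degree `q` is zero.  A short exact sequence is given by `f, g` with
linear splittings `r, s` (`Split`).
-/

namespace Gao.CE

section Abs

variable {K : Type*} [Field K]
variable {A B C : ℕ → Type*} [∀ q, AddCommGroup (A q)] [∀ q, Module K (A q)]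
  [∀ q, AddCommGroup (B q)] [∀ q, Module K (B q)] [∀ q, AddCommGroup (C q)] [∀ q, Module K (C q)]

/-- the cohomology in degree `q` is zero -/
def Van (M : ∀ q, Submodule K (A q)) (d : ∀ q, A q →ₗ[K] A (q + 1)) : ℕ → Prop
  | 0 => ∀ a ∈ M 0, d 0 a = 0 → a = 0
  | q + 1 => ∀ a ∈ M (q + 1), d (q + 1) a = 0 → ∃ b ∈ M q, d q b = a

/-- `M` is a subcomplex -/
structure IsCx (M : ∀ q, Submodule K (A q)) (d : ∀ q, A q →ₗ[K] A (q + 1)) : Prop where
  mem : ∀ q, ∀ a ∈ M q, d q a ∈ M (q + 1)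
  dd : ∀ q, ∀ a ∈ M q, d (q + 1) (d q a) = 0

/-- degree zero cohomology -/
def H0 (M : ∀ q, Submodule K (A q)) (d : ∀ q, A q →ₗ[K] A (q + 1)) : Submodule K (A 0) :=
  M 0 ⊓ LinearMap.ker (d 0)

/-- cocycles of degree `q` -/
def Zc (M : ∀ q, Submodule K (A q)) (d : ∀ q, A q →ₗ[K] A (q + 1)) (q : ℕ) :
    Submodule K (A q) := M q ⊓ LinearMap.ker (d q)

/-- coboundaries of degree `q + 1` -/
def Bc (M : ∀ q, Submodule K (A q)) (d : ∀ q, A q →ₗ[K] A (q + 1)) (q : ℕ) :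
    Submodule K (A (q + 1)) := (M q).map (d q)

/-- the dimension of the first cohomology -/
noncomputable def h1 (M : ∀ q, Submodule K (A q)) (d : ∀ q, A q →ₗ[K] A (q + 1)) : ℕ :=
  Module.finrank K (Zc M d 1) - Module.finrank K (Bc M d 0)

/-- the dimension of degree zero cohomology -/
noncomputable def h0 (M : ∀ q, Submodule K (A q)) (d : ∀ q, A q →ₗ[K] A (q + 1)) : ℕ :=
  Module.finrank K (H0 M d)

lemma mem_H0 {M : ∀ q, Submodule K (A q)} {d : ∀ q, A q →ₗ[K] A (q + 1)} {a : A 0} :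
    a ∈ H0 M d ↔ a ∈ M 0 ∧ d 0 a = 0 := by
  rw [H0, Submodule.mem_inf, LinearMap.mem_ker]

lemma mem_Zc {M : ∀ q, Submodule K (A q)} {d : ∀ q, A q →ₗ[K] A (q + 1)} {q : ℕ} {a : A q} :
    a ∈ Zc M d q ↔ a ∈ M q ∧ d q a = 0 := by
  rw [Zc, Submodule.mem_inf, LinearMap.mem_ker]

lemma Bc_le_Zc {M : ∀ q, Submodule K (A q)} {d : ∀ q, A q →ₗ[K] A (q + 1)} (h : IsCx M d)
    (q : ℕ) : Bc M d q ≤ Zc M d (q + 1) := by
  rintro _ ⟨a, ha, rfl⟩
  exact mem_Zc.2 ⟨h.mem q a ha, h.dd q a ha⟩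

/-- a (split) short exact sequence of complexes -/
structure Split (MA : ∀ q, Submodule K (A q)) (MB : ∀ q, Submodule K (B q))
    (MC : ∀ q, Submodule K (C q)) (dA : ∀ q, A q →ₗ[K] A (q + 1)) (dB : ∀ q, B q →ₗ[K] B (q + 1))
    (dC : ∀ q, C q →ₗ[K] C (q + 1)) (f : ∀ q, A q →ₗ[K] B q) (g : ∀ q, B q →ₗ[K] C q)
    (r : ∀ q, B q →ₗ[K] A q) (s : ∀ q, C q →ₗ[K] B q) : Prop where
  cA : IsCx MA dA
  cB : IsCx MB dB
  cC : IsCx MC dC
  fm : ∀ q, ∀ a ∈ MA q, f q a ∈ MB q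
  gm : ∀ q, ∀ a ∈ MB q, g q a ∈ MC q
  rm : ∀ q, ∀ a ∈ MB q, r q a ∈ MA q
  sm : ∀ q, ∀ a ∈ MC q, s q a ∈ MB q
  rf : ∀ q a, r q (f q a) = a
  gs : ∀ q c, g q (s q c) = c
  sum : ∀ q b, f q (r q b) + s q (g q b) = b
  fd : ∀ q a, f (q + 1) (dA q a) = dB q (f q a)
  gd : ∀ q b, g (q + 1) (dB q b) = dC q (g q b)

variable {MA : ∀ q, Submodule K (A q)} {MB : ∀ q, Submodule K (B q)}
    {MC : ∀ q, Submodule K (C q)} {dA : ∀ q, A q →ₗ[K] A (q + 1)} {dB : ∀ q, B q →ₗ[K] B (q + 1)}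
    {dC : ∀ q, C q →ₗ[K] C (q + 1)} {f : ∀ q, A q →ₗ[K] B q} {g : ∀ q, B q →ₗ[K] C q}
    {r : ∀ q, B q →ₗ[K] A q} {s : ∀ q, C q →ₗ[K] B q}

namespace Split

lemma finj (h : Split MA MB MC dA dB dC f g r s) (q : ℕ) {a : A q} (ha : f q a = 0) : a = 0 := by
  rw [← h.rf q a, ha, map_zero]

lemma gf (h : Split MA MB MC dA dB dC f g r s) (q : ℕ) (a : A q) : g q (f q a) = 0 := by
  have h1 := h.sum q (f q a)
  rw [h.rf] at h1
  have h2 : s q (g q (f q a)) = 0 := by simpa using h1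
  rw [← h.gs q (g q (f q a)), h2, map_zero]

lemma eq_fr (h : Split MA MB MC dA dB dC f g r s) (q : ℕ) {b : B q} (hb : g q b = 0) :
    f q (r q b) = b := by
  have h1 := h.sum q b
  rwa [hb, map_zero, add_zero] at h1

/-- `H^q(A) = 0`, `H^q(C) = 0` ⇒ `H^q(B) = 0` -/
theorem van_B (h : Split MA MB MC dA dB dC f g r s) {q : ℕ} (hA : Van MA dA q)
    (hC : Van MC dC q) : Van MB dB q := by
  cases q with
  | zero =>
    intro b hb hd
    have h1 : g 0 b = 0 := hC _ (h.gm 0 b hb) (by rw [← h.gd, hd, map_zero])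
    have h2 := h.eq_fr 0 h1
    have h3 : dA 0 (r 0 b) = 0 := h.finj 1 (by rw [h.fd, h2, hd])
    rw [← h2, hA _ (h.rm 0 b hb) h3, map_zero]
  | succ q =>
    intro b hb hd
    obtain ⟨c, hc, hcd⟩ := hC _ (h.gm _ b hb) (by rw [← h.gd, hd, map_zero])
    set b' := b - dB q (s q c) with hb'
    have hsm := h.sm q c hc
    have hb'm : b' ∈ MB (q + 1) := Submodule.sub_mem _ hb (h.cB.mem q _ hsm)
    have hgb' : g (q + 1) b' = 0 := by
      rw [hb', map_sub, h.gd, h.gs, hcd, sub_self]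
    have hdb' : dB (q + 1) b' = 0 := by
      rw [hb', map_sub, hd, h.cB.dd q _ hsm, sub_self]
    have h2 := h.eq_fr (q + 1) hgb'
    have h3 : dA (q + 1) (r (q + 1) b') = 0 := h.finj _ (by rw [h.fd, h2, hdb'])
    obtain ⟨a, ha, had⟩ := hA _ (h.rm _ b' hb'm) h3
    refine ⟨s q c + f q a, Submodule.add_mem _ hsm (h.fm q a ha), ?_⟩
    rw [map_add, ← h.fd, had, h2, hb']
    abel

/-- `H^(q+1)(A) = 0`, `H^q(B) = 0` ⇒ `H^q(C) = 0` -/
theorem van_C (h : Split MA MB MC dA dB dC f g r s) {q : ℕ} (hA : Van MA dA (q + 1))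
    (hB : Van MB dB q) : Van MC dC q := by
  have key : ∀ c ∈ MC q, dC q c = 0 → ∃ b ∈ MB q, dB q b = 0 ∧ g q b = c := by
    intro c hc hd
    have hsm := h.sm q c hc
    have h1 : g (q + 1) (dB q (s q c)) = 0 := by rw [h.gd, h.gs, hd]
    have h2 := h.eq_fr (q + 1) h1
    have hm : dB q (s q c) ∈ MB (q + 1) := h.cB.mem q _ hsm
    have h3 : dA (q + 1) (r (q + 1) (dB q (s q c))) = 0 :=
      h.finj _ (by rw [h.fd, h2, h.cB.dd q _ hsm])
    obtain ⟨a, ha, had⟩ := hA _ (h.rm _ _ hm) h3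
    refine ⟨s q c - f q a, Submodule.sub_mem _ hsm (h.fm q a ha), ?_, ?_⟩
    · rw [map_sub, ← h.fd, had, h2, sub_self]
    · rw [map_sub, h.gs, h.gf, sub_zero]
  cases q with
  | zero =>
    intro c hc hd
    obtain ⟨b, hb, hbd, rfl⟩ := key c hc hd
    rw [hB b hb hbd, map_zero]
  | succ q =>
    intro c hc hd
    obtain ⟨b, hb, hbd, rfl⟩ := key c hc hd
    obtain ⟨b', hb', rfl⟩ := hB b hb hbd
    exact ⟨g q b', h.gm q b' hb', by rw [← h.gd]⟩

/-- `H^q(C) = 0`, `H^(q+1)(B) = 0` ⇒ `H^(q+1)(A) = 0` -/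
theorem van_A (h : Split MA MB MC dA dB dC f g r s) {q : ℕ} (hC : Van MC dC q)
    (hB : Van MB dB (q + 1)) : Van MA dA (q + 1) := by
  intro a ha hd
  obtain ⟨b, hb, hbd⟩ := hB _ (h.fm _ a ha) (by rw [← h.fd, hd, map_zero])
  have hgb : dC q (g q b) = 0 := by rw [← h.gd, hbd, h.gf]
  have key : ∃ b' ∈ MB q, dB q b' = f (q + 1) a ∧ g q b' = 0 := by
    cases q with
    | zero => exact ⟨b, hb, hbd, hC _ (h.gm 0 b hb) hgb⟩
    | succ q =>
      obtain ⟨c, hc, hcd⟩ := hC _ (h.gm _ b hb) hgb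
      have hsm := h.sm q c hc
      refine ⟨b - dB q (s q c), Submodule.sub_mem _ hb (h.cB.mem q _ hsm), ?_, ?_⟩
      · rw [map_sub, h.cB.dd q _ hsm, sub_zero, hbd]
      · rw [map_sub, h.gd, h.gs, hcd, sub_self]
  obtain ⟨b', hb', hbd', hgb'⟩ := key
  refine ⟨r q b', h.rm q b' hb', ?_⟩
  have h1 : f (q + 1) (dA q (r q b') - a) = 0 := by
    rw [map_sub, h.fd, h.eq_fr q hgb', hbd', sub_self]
  exact sub_eq_zero.1 (h.finj _ h1)

/-- `H^0(B) = 0` ⇒ `H^0(A) = 0` -/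
theorem van_A_zero (h : Split MA MB MC dA dB dC f g r s) (hB : Van MB dB 0) : Van MA dA 0 := by
  intro a ha hd
  exact h.finj 0 (hB _ (h.fm 0 a ha) (by rw [← h.fd, hd, map_zero]))

end Split

lemma finrank_map_add_inf {V W : Type*} [AddCommGroup V] [Module K V] [AddCommGroup W]
    [Module K W] [FiniteDimensional K V] (U : Submodule K V) (T : V →ₗ[K] W) :
    Module.finrank K (U.map T) + Module.finrank K (U ⊓ LinearMap.ker T : Submodule K V) =
      Module.finrank K U := by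
  have h1 := LinearMap.finrank_range_add_finrank_ker (T.domRestrict U)
  have h2 : LinearMap.range (T.domRestrict U) = U.map T := by
    ext y
    simp only [LinearMap.mem_range, LinearMap.domRestrict_apply, Subtype.exists,
      Submodule.mem_map]
    constructor
    · rintro ⟨a, ha, rfl⟩; exact ⟨a, ha, rfl⟩
    · rintro ⟨a, ha, rfl⟩; exact ⟨a, ha, rfl⟩
  have h3 : Module.finrank K (LinearMap.ker (T.domRestrict U)) =
      Module.finrank K (U ⊓ LinearMap.ker T : Submodule K V) := by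
    have h4 : (LinearMap.ker (T.domRestrict U)).map U.subtype = U ⊓ LinearMap.ker T := by
      ext y
      simp only [Submodule.mem_map, LinearMap.mem_ker, Submodule.mem_inf, Submodule.subtype_apply]
      constructor
      · rintro ⟨a, ha, rfl⟩
        exact ⟨a.2, ha⟩
      · rintro ⟨hy, hy'⟩
        exact ⟨⟨y, hy⟩, hy', rfl⟩
    rw [← h4]
    exact (Submodule.finrank_map_subtype_eq U _).symm
  rw [h2, h3] at h1
  exact h1

lemma finrank_map_of_inj {V W : Type*} [AddCommGroup V] [Module K V] [AddCommGroup W]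
    [Module K W] [FiniteDimensional K V] (U : Submodule K V) (T : V →ₗ[K] W)
    (hT : ∀ x ∈ U, T x = 0 → x = 0) :
    Module.finrank K (U.map T) = Module.finrank K U := by
  have h1 := finrank_map_add_inf U T
  have h2 : U ⊓ LinearMap.ker T = ⊥ := by
    rw [Submodule.eq_bot_iff]
    rintro x ⟨hx, hx'⟩
    exact hT x hx hx'
  rw [h2, finrank_bot, add_zero] at h1
  exact h1

namespace Split

variable [FiniteDimensional K (A 0)] [FiniteDimensional K (B 0)]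

/-- dimension formula in degree zero -/
theorem finrank_formula (h : Split MA MB MC dA dB dC f g r s) (hB : Van MB dB 1) :
    Module.finrank K (H0 MB dB) + Module.finrank K (Zc MA dA 1) =
      Module.finrank K (H0 MA dA) + Module.finrank K (H0 MC dC) +
        Module.finrank K (Bc MA dA 0) := by
  -- the space of all `b` whose image in `C` is closed
  let U : Submodule K (B 0) := MB 0 ⊓ LinearMap.ker (dC 0 ∘ₗ g 0)
  have hU : ∀ b, b ∈ U ↔ b ∈ MB 0 ∧ dC 0 (g 0 b) = 0 := fun b => by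
    rw [Submodule.mem_inf, LinearMap.mem_ker, LinearMap.comp_apply]
  -- (1)
  have e1 : U.map (g 0) = H0 MC dC := by
    ext c
    rw [Submodule.mem_map, mem_H0]
    constructor
    · rintro ⟨b, hb, rfl⟩
      exact ⟨h.gm 0 b ((hU b).1 hb).1, ((hU b).1 hb).2⟩
    · rintro ⟨hc, hcd⟩
      exact ⟨s 0 c, (hU _).2 ⟨h.sm 0 c hc, by rw [h.gs, hcd]⟩, h.gs 0 c⟩
  have e2 : U ⊓ LinearMap.ker (g 0) = (MA 0).map (f 0) := by
    ext b
    rw [Submodule.mem_inf, LinearMap.mem_ker, Submodule.mem_map]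
    constructor
    · rintro ⟨hb, hb'⟩
      exact ⟨r 0 b, h.rm 0 b ((hU b).1 hb).1, h.eq_fr 0 hb'⟩
    · rintro ⟨a, ha, rfl⟩
      exact ⟨(hU _).2 ⟨h.fm 0 a ha, by rw [h.gf, map_zero]⟩, h.gf 0 a⟩
  have e3 : Module.finrank K ((MA 0).map (f 0)) = Module.finrank K (MA 0) :=
    finrank_map_of_inj _ _ (fun x _ hx => h.finj 0 hx)
  have c1 := finrank_map_add_inf U (g 0)
  rw [e1, e2, e3] at c1
  -- (2)
  have e4 : U.map (r 1 ∘ₗ dB 0) = Zc MA dA 1 := by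
    ext z
    rw [Submodule.mem_map, mem_Zc]
    constructor
    · rintro ⟨b, hb, rfl⟩
      obtain ⟨hb1, hb2⟩ := (hU b).1 hb
      have hm := h.cB.mem 0 b hb1
      rw [LinearMap.comp_apply]
      refine ⟨h.rm 1 _ hm, h.finj _ ?_⟩
      have h5 : g 1 (dB 0 b) = 0 := by rw [h.gd, hb2]
      rw [h.fd, h.eq_fr 1 h5, h.cB.dd 0 b hb1]
    · rintro ⟨hz, hzd⟩
      obtain ⟨b, hb, hbd⟩ := hB _ (h.fm 1 z hz) (by rw [← h.fd, hzd, map_zero])
      refine ⟨b, (hU b).2 ⟨hb, by rw [← h.gd, hbd, h.gf]⟩, ?_⟩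
      rw [LinearMap.comp_apply, hbd, h.rf]
  have e5 : U ⊓ LinearMap.ker (r 1 ∘ₗ dB 0) = H0 MB dB := by
    ext b
    rw [Submodule.mem_inf, LinearMap.mem_ker, mem_H0, LinearMap.comp_apply]
    constructor
    · rintro ⟨hb, hb'⟩
      obtain ⟨hb1, hb2⟩ := (hU b).1 hb
      refine ⟨hb1, ?_⟩
      have h5 : g 1 (dB 0 b) = 0 := by rw [h.gd, hb2]
      rw [← h.eq_fr 1 h5, hb', map_zero]
    · rintro ⟨hb, hb'⟩
      exact ⟨(hU b).2 ⟨hb, by rw [← h.gd, hb', map_zero]⟩, by rw [hb', map_zero]⟩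
  have c2 := finrank_map_add_inf U (r 1 ∘ₗ dB 0)
  rw [e4, e5] at c2
  -- (3)
  have c3 := finrank_map_add_inf (MA 0) (dA 0)
  change Module.finrank K (Bc MA dA 0) + Module.finrank K (H0 MA dA) = _ at c3
  omega

/-- `h⁰(B) + h¹(A) = h⁰(A) + h⁰(C)` if `H¹(B) = 0` -/
theorem h0_formula [FiniteDimensional K (A 1)] (h : Split MA MB MC dA dB dC f g r s)
    (hB : Van MB dB 1) : h0 MB dB + h1 MA dA = h0 MA dA + h0 MC dC := by
  have h1' := h.finrank_formula hB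
  have h2 : Module.finrank K (Bc MA dA 0) ≤ Module.finrank K (Zc MA dA 1) :=
    Submodule.finrank_mono (Bc_le_Zc h.cA 0)
  unfold h0 h1
  omega

omit [FiniteDimensional K (A 0)] in
/-- `h⁰(B) = h⁰(C)` if `H⁰(A) = H¹(A) = 0` -/
theorem h0_eq_of_van_A (h : Split MA MB MC dA dB dC f g r s) (hA : Van MA dA 0)
    (hA1 : Van MA dA 1) : h0 MB dB = h0 MC dC := by
  have e1 : (H0 MB dB).map (g 0) = H0 MC dC := by
    ext c
    rw [Submodule.mem_map, mem_H0]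
    constructor
    · rintro ⟨b, hb, rfl⟩
      obtain ⟨hb1, hb2⟩ := mem_H0.1 hb
      exact ⟨h.gm 0 b hb1, by rw [← h.gd, hb2, map_zero]⟩
    · rintro ⟨hc, hcd⟩
      have hsm := h.sm 0 c hc
      have h1 : g 1 (dB 0 (s 0 c)) = 0 := by rw [h.gd, h.gs, hcd]
      have h2 := h.eq_fr 1 h1
      have hm : dB 0 (s 0 c) ∈ MB 1 := h.cB.mem 0 _ hsm
      have h3 : dA 1 (r 1 (dB 0 (s 0 c))) = 0 :=
        h.finj _ (by rw [h.fd, h2, h.cB.dd 0 _ hsm])
      obtain ⟨a, ha, had⟩ := hA1 _ (h.rm _ _ hm) h3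
      refine ⟨s 0 c - f 0 a, mem_H0.2 ⟨Submodule.sub_mem _ hsm (h.fm 0 a ha), ?_⟩, ?_⟩
      · rw [map_sub, ← h.fd, had, h2, sub_self]
      · rw [map_sub, h.gs, h.gf, sub_zero]
  unfold h0
  rw [← e1]
  refine (finrank_map_of_inj _ _ ?_).symm
  intro b hb hgb
  obtain ⟨hb1, hb2⟩ := mem_H0.1 hb
  have h2 := h.eq_fr 0 hgb
  rw [← h2, hA _ (h.rm 0 b hb1) (h.finj 1 (by rw [h.fd, h2, hb2])), map_zero]

omit [FiniteDimensional K (B 0)] in
/-- `h⁰(A) = h⁰(B)` if `H⁰(C) = 0` -/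
theorem h0_eq_of_van_C (h : Split MA MB MC dA dB dC f g r s) (hC : Van MC dC 0) :
    h0 MA dA = h0 MB dB := by
  have e1 : (H0 MA dA).map (f 0) = H0 MB dB := by
    ext b
    rw [Submodule.mem_map, mem_H0]
    constructor
    · rintro ⟨a, ha, rfl⟩
      obtain ⟨ha1, ha2⟩ := mem_H0.1 ha
      exact ⟨h.fm 0 a ha1, by rw [← h.fd, ha2, map_zero]⟩
    · rintro ⟨hb, hbd⟩
      have h1 : g 0 b = 0 := hC _ (h.gm 0 b hb) (by rw [← h.gd, hbd, map_zero])
      have h2 := h.eq_fr 0 h1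
      exact ⟨r 0 b, mem_H0.2 ⟨h.rm 0 b hb, h.finj _ (by rw [h.fd, h2, hbd])⟩, h2⟩
  unfold h0
  rw [← e1]
  exact (finrank_map_of_inj _ _ (fun x _ hx => h.finj 0 hx)).symm

end Split

/-! ### isomorphic complexes -/

/-- an isomorphism between the complexes `M` and `N` (inverse maps of the terms) -/
structure IsoCx (MA : ∀ q, Submodule K (A q)) (MB : ∀ q, Submodule K (B q))
    (dA : ∀ q, A q →ₗ[K] A (q + 1)) (dB : ∀ q, B q →ₗ[K] B (q + 1))
    (f : ∀ q, A q →ₗ[K] B q) (r : ∀ q, B q →ₗ[K] A q) : Prop where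
  cA : IsCx MA dA
  cB : IsCx MB dB
  fm : ∀ q, ∀ a ∈ MA q, f q a ∈ MB q
  rm : ∀ q, ∀ a ∈ MB q, r q a ∈ MA q
  rf : ∀ q, ∀ a ∈ MA q, r q (f q a) = a
  fr : ∀ q, ∀ b ∈ MB q, f q (r q b) = b
  fd : ∀ q, ∀ a ∈ MA q, f (q + 1) (dA q a) = dB q (f q a)

namespace IsoCx

lemma rd (h : IsoCx MA MB dA dB f r) (q : ℕ) {b : B q} (hb : b ∈ MB q) :
    r (q + 1) (dB q b) = dA q (r q b) := by
  have h1 := h.fd q _ (h.rm q b hb)
  rw [h.fr q b hb] at h1
  rw [← h1, h.rf _ _ (h.cA.mem q _ (h.rm q b hb))]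

theorem van_iff (h : IsoCx MA MB dA dB f r) (q : ℕ) : Van MA dA q ↔ Van MB dB q := by
  cases q with
  | zero =>
    constructor
    · intro hA b hb hd
      rw [← h.fr 0 b hb, hA _ (h.rm 0 b hb) (by rw [← h.rd 0 hb, hd, map_zero]), map_zero]
    · intro hB a ha hd
      rw [← h.rf 0 a ha, hB _ (h.fm 0 a ha) (by rw [← h.fd 0 a ha, hd, map_zero]), map_zero]
  | succ q =>
    constructor
    · intro hA b hb hd
      obtain ⟨a, ha, had⟩ := hA _ (h.rm _ b hb) (by rw [← h.rd _ hb, hd, map_zero])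
      exact ⟨f q a, h.fm q a ha, by rw [← h.fd q a ha, had, h.fr _ b hb]⟩
    · intro hB a ha hd
      obtain ⟨b, hb, hbd⟩ := hB _ (h.fm _ a ha) (by rw [← h.fd _ a ha, hd, map_zero])
      exact ⟨r q b, h.rm q b hb, by rw [← h.rd q hb, hbd, h.rf _ a ha]⟩

theorem h0_eq [FiniteDimensional K (A 0)] (h : IsoCx MA MB dA dB f r) :
    h0 MA dA = h0 MB dB := by
  have e1 : (H0 MA dA).map (f 0) = H0 MB dB := by
    ext b
    rw [Submodule.mem_map, mem_H0]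
    constructor
    · rintro ⟨a, ha, rfl⟩
      obtain ⟨ha1, ha2⟩ := mem_H0.1 ha
      exact ⟨h.fm 0 a ha1, by rw [← h.fd 0 a ha1, ha2, map_zero]⟩
    · rintro ⟨hb, hbd⟩
      exact ⟨r 0 b, mem_H0.2 ⟨h.rm 0 b hb, by rw [← h.rd 0 hb, hbd, map_zero]⟩, h.fr 0 b hb⟩
  unfold h0
  rw [← e1]
  refine (finrank_map_of_inj _ _ ?_).symm
  intro x hx hfx
  rw [← h.rf 0 x (mem_H0.1 hx).1, hfx, map_zero]

theorem h1_eq [FiniteDimensional K (A 0)] [FiniteDimensional K (A 1)]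
    (h : IsoCx MA MB dA dB f r) : h1 MA dA = h1 MB dB := by
  have e1 : (Zc MA dA 1).map (f 1) = Zc MB dB 1 := by
    ext b
    rw [Submodule.mem_map, mem_Zc]
    constructor
    · rintro ⟨a, ha, rfl⟩
      obtain ⟨ha1, ha2⟩ := mem_Zc.1 ha
      exact ⟨h.fm 1 a ha1, by rw [← h.fd 1 a ha1, ha2, map_zero]⟩
    · rintro ⟨hb, hbd⟩
      exact ⟨r 1 b, mem_Zc.2 ⟨h.rm 1 b hb, by rw [← h.rd 1 hb, hbd, map_zero]⟩, h.fr 1 b hb⟩
  have e2 : (Bc MA dA 0).map (f 1) = Bc MB dB 0 := by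
    ext b
    rw [Submodule.mem_map]
    constructor
    · rintro ⟨_, ⟨a, ha, rfl⟩, rfl⟩
      exact ⟨f 0 a, h.fm 0 a ha, (h.fd 0 a ha).symm⟩
    · rintro ⟨b, hb, rfl⟩
      exact ⟨dA 0 (r 0 b), ⟨r 0 b, h.rm 0 b hb, rfl⟩, by
        rw [h.fd 0 _ (h.rm 0 b hb), h.fr 0 b hb]⟩
  unfold h1
  rw [← e1, ← e2, finrank_map_of_inj (Zc MA dA 1), finrank_map_of_inj (Bc MA dA 0)]
  · intro x hx hfx
    have hx' := (mem_Zc.1 (Bc_le_Zc h.cA 0 hx)).1
    rw [← h.rf 1 x hx', hfx, map_zero]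
  · intro x hx hfx
    rw [← h.rf 1 x (mem_Zc.1 hx).1, hfx, map_zero]

end IsoCx

end Abs

end Gao.CE
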