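import Mathlib

/-!
# Chevalley–Eilenberg cochains by the Cartan calculus (Gao project, MP_b139df_co)

`L` a Lie algebra over a field `K` of characteristic zero, `X` an `L`-module,
`C^q = AlternatingMap K L X (Fin q)`.

* `io x : C^(q+1) → C^q` contraction (`curryLeft`);
* `D a b : C^q → C^q` for linear maps `a : L → L`, `b : X → X`:
  `D a b φ = b φ - ∑ i, φ (.., a v_i, ..)`, given recursively by `io x (D a b φ) = D a b (io x φ) - io (a x) φ`;
* `lie x = D (ad x) (action of x)`;
* `d : C^q → C^(q+1)`, `io x (d φ) = lie x φ - d (io x φ)`.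

Results: `D_comm`, `D_d` (derivation pairs commute with `d`), `d_d`, functoriality in the module and
in the Lie algebra.
-/

namespace Gao.CE

open AlternatingMap (curryLeft curryLeftLinearMap curryLeft_same alternatizeUncurryFin
  alternatizeUncurryFinLM alternatizeUncurryFinLM_apply alternatizeUncurryFin_apply
  alternatizeUncurryFin_smul alternatizeUncurryFin_curryLeft)

section Basic

variable {K L X : Type*} [Field K] [CharZero K] [AddCommGroup L] [Module K L]
  [AddCommGroup X] [Module K X]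

/-- cochains -/
abbrev Co (K L X : Type*) [Field K] [AddCommGroup L] [Module K L] [AddCommGroup X] [Module K X]
    (q : ℕ) := L [⋀^Fin q]→ₗ[K] X

/-- contraction -/
noncomputable def io {q : ℕ} (x : L) : Co K L X (q + 1) →ₗ[K] Co K L X q :=
  (curryLeftLinearMap (R := K) (M := L) (N := X) (n := q)).flip x

omit [CharZero K] in
lemma io_apply {q : ℕ} (x : L) (φ : Co K L X (q + 1)) (v : Fin q → L) :
    io x φ v = φ (Matrix.vecCons x v) := rfl

omit [CharZero K] in
lemma io_eq_curryLeft {q : ℕ} (x : L) (φ : Co K L X (q + 1)) : io x φ = φ.curryLeft x := rfl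

omit [CharZero K] in
lemma io_add_left {q : ℕ} (x y : L) (φ : Co K L X (q + 1)) : io (x + y) φ = io x φ + io y φ := by
  rw [io_eq_curryLeft, map_add]; rfl

omit [CharZero K] in
lemma io_smul_left {q : ℕ} (c : K) (x : L) (φ : Co K L X (q + 1)) :
    io (c • x) φ = c • io x φ := by
  rw [io_eq_curryLeft, map_smul]; rfl

omit [CharZero K] in
lemma io_sub_left {q : ℕ} (x y : L) (φ : Co K L X (q + 1)) : io (x - y) φ = io x φ - io y φ := by
  rw [io_eq_curryLeft, map_sub]; rfl

omit [CharZero K] in
lemma io_zero_left {q : ℕ} (φ : Co K L X (q + 1)) : io (0 : L) φ = 0 := by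
  rw [io_eq_curryLeft, map_zero]

omit [CharZero K] in
lemma io_io_self {q : ℕ} (x : L) (φ : Co K L X (q + 2)) : io x (io x φ) = 0 :=
  curryLeft_same φ x

omit [CharZero K] in
lemma io_io {q : ℕ} (x y : L) (φ : Co K L X (q + 2)) : io x (io y φ) = -io y (io x φ) := by
  have h := io_io_self (x + y) φ
  rw [io_add_left x y φ, map_add, io_add_left, io_add_left, io_io_self, io_io_self, zero_add,
    add_zero] at h
  exact eq_neg_of_add_eq_zero_right h

omit [CharZero K] in
lemma ext_io {q : ℕ} {φ ψ : Co K L X (q + 1)} (h : ∀ x, io x φ = io x ψ) : φ = ψ := by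
  ext v
  have h1 : v = Matrix.vecCons (v 0) (fun i => v i.succ) := by
    funext i
    refine Fin.cases ?_ (fun j => ?_) i <;> simp
  rw [h1, ← io_apply, ← io_apply, h]

omit [CharZero K] in
lemma eq_zero_of_io {q : ℕ} {φ : Co K L X (q + 1)} (h : ∀ x, io x φ = 0) : φ = 0 :=
  ext_io (fun x => by rw [h, map_zero])

/-- a cochain of degree zero as an element -/
noncomputable def ev0 : Co K L X 0 →ₗ[K] X where
  toFun φ := φ ![]
  map_add' _ _ := rfl
  map_smul' _ _ := rfl

/-- an element as a cochain of degree zero -/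
noncomputable def of0 : X →ₗ[K] Co K L X 0 where
  toFun x := AlternatingMap.constOfIsEmpty K L (Fin 0) x
  map_add' x y := by
    ext v; simp
  map_smul' c x := by
    ext v; simp

omit [CharZero K] in
@[simp] lemma ev0_of0 (x : X) : ev0 (K := K) (L := L) (of0 x) = x := rfl

omit [CharZero K] in
@[simp] lemma of0_ev0 (φ : Co K L X 0) : of0 (ev0 φ) = φ := by
  ext v
  have : v = ![] := Subsingleton.elim _ _
  rw [this]; rfl

omit [CharZero K] in
lemma ext_ev0 {φ ψ : Co K L X 0} (h : ev0 φ = ev0 ψ) : φ = ψ := by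
  rw [← of0_ev0 φ, h, of0_ev0]

/-- `mk g = (q+1)⁻¹ • A g`; its contractions are the values of `g` if `g` is alternating -/
noncomputable def mk {q : ℕ} : (L →ₗ[K] Co K L X q) →ₗ[K] Co K L X (q + 1) :=
  ((q + 1 : K)⁻¹) • alternatizeUncurryFinLM (R := K) (M := L) (N := X) (n := q)

omit [CharZero K] in
lemma io_alt_zero (g : L →ₗ[K] Co K L X 0) (x : L) : io x (alternatizeUncurryFin g) = g x := by
  ext v
  rw [io_apply, alternatizeUncurryFin_apply]
  simp only [Nat.reduceAdd, Fin.val_eq_zero, pow_zero, one_smul, Finset.univ_unique,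
    Fin.default_eq_zero, Finset.sum_singleton]
  have h1 : (Fin.removeNth 0 (Matrix.vecCons x v) : Fin 0 → L) = v := Subsingleton.elim _ _
  rw [h1]; rfl

omit [CharZero K] in
lemma io_alt {q : ℕ} (g : L →ₗ[K] Co K L X (q + 1)) (x : L) :
    io x (alternatizeUncurryFin g) = g x - alternatizeUncurryFin (io x ∘ₗ g) := by
  ext v
  rw [io_apply, AlternatingMap.sub_apply, alternatizeUncurryFin_apply, alternatizeUncurryFin_apply,
    Fin.sum_univ_succ, sub_eq_add_neg, ← Finset.sum_neg_distrib]
  congr 1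
  · simp [Matrix.vecCons]
  · apply Finset.sum_congr rfl
    intro i _
    have h1 : Matrix.vecCons x v i.succ = v i := rfl
    have h2 : (Fin.removeNth i.succ (Matrix.vecCons x v) : Fin (q + 1) → L) =
        Matrix.vecCons x (Fin.removeNth i v) := by
      funext j
      refine Fin.cases ?_ (fun k => ?_) j
      · simp [Fin.removeNth_apply, Matrix.vecCons]
      · simp [Fin.removeNth_apply, Matrix.vecCons]
    rw [h1, h2, Fin.val_succ, pow_succ, LinearMap.comp_apply, io_apply]
    simp

lemma io_mk_zero (g : L →ₗ[K] Co K L X 0) (x : L) : io x (mk g) = g x := by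
  unfold mk
  rw [LinearMap.smul_apply, map_smul, alternatizeUncurryFinLM_apply, io_alt_zero]
  simp

lemma io_mk {q : ℕ} (g : L →ₗ[K] Co K L X (q + 1)) (hg : ∀ x, io x (g x) = 0) (x : L) :
    io x (mk g) = g x := by
  have hanti : ∀ x y, io x (g y) = -io y (g x) := by
    intro x y
    have h := hg (x + y)
    rw [map_add, io_add_left, map_add, map_add, hg, hg, zero_add, add_zero] at h
    exact eq_neg_of_add_eq_zero_left h
  have h1 : io x ∘ₗ g = -(curryLeft (g x)) := by
    ext y : 1
    rw [LinearMap.comp_apply, hanti]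
    rfl
  have h2 : alternatizeUncurryFin (io x ∘ₗ g) = -((q + 1 : K) • g x) := by
    rw [h1]
    have h3 : alternatizeUncurryFin (-(curryLeft (g x))) =
        -alternatizeUncurryFin (curryLeft (g x)) := by
      have h5 : -(curryLeft (g x)) = (-1 : K) • curryLeft (g x) := (neg_one_smul K _).symm
      rw [h5, alternatizeUncurryFin_smul (-1 : K) (curryLeft (g x))]
      exact neg_one_smul K _
    rw [h3, alternatizeUncurryFin_curryLeft, ← Nat.cast_smul_eq_nsmul K]
    push_cast
    rfl
  unfold mk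
  rw [LinearMap.smul_apply, map_smul, alternatizeUncurryFinLM_apply, io_alt, h2, sub_neg_eq_add]
  have h4 : g x + (q + 1 : K) • g x = ((q + 1 : ℕ) + 1 : K) • g x := by
    have h5 : ((q + 1 : ℕ) + 1 : K) • g x = (1 : K) • g x + (q + 1 : K) • g x := by
      rw [← add_smul]
      congr 1
      push_cast
      ring
    rw [h5, one_smul]
  rw [h4, smul_smul, inv_mul_cancel₀, one_smul]
  have : ((q + 1 : ℕ) + 1 : K) = ((q + 2 : ℕ) : K) := by push_cast; ring
  rw [this]
  exact Nat.cast_ne_zero.2 (by omega)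

/-- Lie derivative of the pair `(a, b)` -/
noncomputable def D (a : L →ₗ[K] L) (b : X →ₗ[K] X) : (q : ℕ) → (Co K L X q →ₗ[K] Co K L X q)
  | 0 => of0 ∘ₗ b ∘ₗ ev0
  | q + 1 => mk ∘ₗ
      { toFun := fun φ => (D a b q) ∘ₗ curryLeft φ - (curryLeft φ) ∘ₗ a
        map_add' := fun φ ψ => by
          ext x : 1
          simp only [LinearMap.sub_apply, LinearMap.add_apply, LinearMap.comp_apply,
            AlternatingMap.curryLeft_add, map_add]
          abel
        map_smul' := fun c φ => by
          ext x : 1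
          simp only [LinearMap.sub_apply, LinearMap.smul_apply, LinearMap.comp_apply,
            AlternatingMap.curryLeft_smul, map_smul, RingHom.id_apply, smul_sub] }

omit [CharZero K] in
lemma ev0_D (a : L →ₗ[K] L) (b : X →ₗ[K] X) (φ : Co K L X 0) : ev0 (D a b 0 φ) = b (ev0 φ) := rfl

lemma io_D (a : L →ₗ[K] L) (b : X →ₗ[K] X) : ∀ {q : ℕ} (x : L) (φ : Co K L X (q + 1)),
    io x (D a b (q + 1) φ) = D a b q (io x φ) - io (a x) φ := by
  intro q
  induction q with
  | zero =>
    intro x φ
    exact io_mk_zero ((D a b 0) ∘ₗ curryLeft φ - (curryLeft φ) ∘ₗ a) x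
  | succ q ih =>
    intro x φ
    rw [D, LinearMap.comp_apply, io_mk]
    · rfl
    · intro y
      change io y (D a b (q + 1) (io y φ) - io (a y) φ) = 0
      rw [map_sub, ih, io_io_self, map_zero, zero_sub, io_io y (a y)]
      abel

lemma D_add (a a' : L →ₗ[K] L) (b b' : X →ₗ[K] X) : ∀ {q : ℕ} (φ : Co K L X q),
    D (a + a') (b + b') q φ = D a b q φ + D a' b' q φ := by
  intro q
  induction q with
  | zero =>
    intro φ
    apply ext_ev0
    rw [map_add, ev0_D, ev0_D, ev0_D]
    rfl
  | succ q ih =>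
    intro φ
    apply ext_io
    intro x
    rw [map_add, io_D, io_D, io_D, ih, LinearMap.add_apply, io_add_left]
    abel

lemma D_smul (c : K) (a : L →ₗ[K] L) (b : X →ₗ[K] X) : ∀ {q : ℕ} (φ : Co K L X q),
    D (c • a) (c • b) q φ = c • D a b q φ := by
  intro q
  induction q with
  | zero =>
    intro φ
    apply ext_ev0
    rw [map_smul, ev0_D, ev0_D]
    rfl
  | succ q ih =>
    intro φ
    apply ext_io
    intro x
    rw [map_smul, io_D, io_D, ih, LinearMap.smul_apply, io_smul_left, smul_sub]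

/-- commutator of Lie derivatives -/
lemma D_comm (a a' : L →ₗ[K] L) (b b' : X →ₗ[K] X) : ∀ {q : ℕ} (φ : Co K L X q),
    D a b q (D a' b' q φ) - D a' b' q (D a b q φ)
      = D (a ∘ₗ a' - a' ∘ₗ a) (b ∘ₗ b' - b' ∘ₗ b) q φ := by
  intro q
  induction q with
  | zero =>
    intro φ
    apply ext_ev0
    rw [map_sub]
    simp only [ev0_D]
    rfl
  | succ q ih =>
    intro φ
    apply ext_io
    intro x
    rw [map_sub]
    simp only [io_D, map_sub]
    rw [LinearMap.sub_apply, io_sub_left, ← ih, LinearMap.comp_apply, LinearMap.comp_apply]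
    abel

end Basic

section Lie

variable {K L X : Type*} [Field K] [CharZero K] [LieRing L] [LieAlgebra K L]
  [AddCommGroup X] [Module K X] [LieRingModule L X] [LieModule K L X]

/-- Lie derivative of an element -/
noncomputable def lie (x : L) (q : ℕ) : Co K L X q →ₗ[K] Co K L X q :=
  D (LieAlgebra.ad K L x) (LieModule.toEnd K L X x) q

omit [CharZero K] in
lemma ev0_lie (x : L) (φ : Co K L X 0) : ev0 (lie x 0 φ) = ⁅x, ev0 φ⁆ := rfl

lemma io_lie {q : ℕ} (x y : L) (φ : Co K L X (q + 1)) :
    io y (lie x (q + 1) φ) = lie x q (io y φ) - io ⁅x, y⁆ φ := by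
  unfold lie
  rw [io_D]
  rfl

lemma lie_add {q : ℕ} (x y : L) (φ : Co K L X q) :
    lie (x + y) q φ = lie x q φ + lie y q φ := by
  unfold lie
  rw [map_add, map_add, D_add]

lemma lie_smul {q : ℕ} (c : K) (x : L) (φ : Co K L X q) :
    lie (c • x) q φ = c • lie x q φ := by
  unfold lie
  rw [map_smul, map_smul, D_smul]

/-- `x ↦ lie x φ` -/
noncomputable def lieL {q : ℕ} (φ : Co K L X q) : L →ₗ[K] Co K L X q where
  toFun x := lie x q φ
  map_add' x y := lie_add x y φ
  map_smul' c x := lie_smul c x φ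

/-- the differential -/
noncomputable def d : (q : ℕ) → (Co K L X q →ₗ[K] Co K L X (q + 1))
  | 0 => mk ∘ₗ
      { toFun := fun φ => lieL φ
        map_add' := fun φ ψ => by
          ext x : 1
          exact map_add (lie x 0) φ ψ
        map_smul' := fun c φ => by
          ext x : 1
          exact map_smul (lie x 0) c φ }
  | q + 1 => mk ∘ₗ
      { toFun := fun φ => lieL φ - (d q) ∘ₗ curryLeft φ
        map_add' := fun φ ψ => by
          ext x : 1
          change lie x (q + 1) (φ + ψ) - d q (io x (φ + ψ)) =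
            (lie x (q + 1) φ - d q (io x φ)) + (lie x (q + 1) ψ - d q (io x ψ))
          simp only [map_add]
          abel
        map_smul' := fun c φ => by
          ext x : 1
          change lie x (q + 1) (c • φ) - d q (io x (c • φ)) =
            c • (lie x (q + 1) φ - d q (io x φ))
          simp only [map_smul, smul_sub] }

lemma io_d_zero (x : L) (φ : Co K L X 0) : io x (d 0 φ) = lie x 0 φ := by
  rw [d, LinearMap.comp_apply, io_mk_zero]
  rfl

lemma io_d : ∀ {q : ℕ} (x : L) (φ : Co K L X (q + 1)),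
    io x (d (q + 1) φ) = lie x (q + 1) φ - d q (io x φ) := by
  intro q
  induction q with
  | zero =>
    intro x φ
    refine io_mk (lieL φ - (d 0) ∘ₗ curryLeft φ) (fun y => ?_) x
    change io y (lie y 1 φ - d 0 (io y φ)) = 0
    rw [map_sub, io_lie, io_d_zero, lie_self, io_zero_left, sub_zero, sub_self]
  | succ q ih =>
    intro x φ
    refine io_mk (lieL φ - (d (q + 1)) ∘ₗ curryLeft φ) (fun y => ?_) x
    change io y (lie y (q + 1 + 1) φ - d (q + 1) (io y φ)) = 0
    rw [map_sub, io_lie, ih, io_io_self, map_zero, lie_self, io_zero_left]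
    abel

/-- compatible pairs: `a` a derivation of `L`, `b` a compatible operator of `X` -/
structure DerPair (a : L →ₗ[K] L) (b : X →ₗ[K] X) : Prop where
  der : ∀ x y : L, a ⁅x, y⁆ = ⁅a x, y⁆ + ⁅x, a y⁆
  act : ∀ (x : L) (m : X), b ⁅x, m⁆ = ⁅a x, m⁆ + ⁅x, b m⁆

omit [CharZero K] in
lemma derPair_ad (x : L) : DerPair (LieAlgebra.ad K L x) (LieModule.toEnd K L X x) where
  der y z := by
    simp only [LieAlgebra.ad_apply]
    exact leibniz_lie x y z
  act y m := by
    simp only [LieAlgebra.ad_apply, LieModule.toEnd_apply_apply]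
    exact leibniz_lie x y m

lemma D_lie {a : L →ₗ[K] L} {b : X →ₗ[K] X} (h : DerPair a b) {q : ℕ} (x : L) (φ : Co K L X q) :
    D a b q (lie x q φ) = lie x q (D a b q φ) + lie (a x) q φ := by
  have h1 := D_comm a (LieAlgebra.ad K L x) b (LieModule.toEnd K L X x) φ
  have h2 : a ∘ₗ (LieAlgebra.ad K L x : L →ₗ[K] L) - (LieAlgebra.ad K L x : L →ₗ[K] L) ∘ₗ a
      = LieAlgebra.ad K L (a x) := by
    ext y
    simp only [LinearMap.sub_apply, LinearMap.comp_apply, LieAlgebra.ad_apply, h.der]
    abel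
  have h3 : b ∘ₗ (LieModule.toEnd K L X x : X →ₗ[K] X) - (LieModule.toEnd K L X x : X →ₗ[K] X) ∘ₗ b
      = LieModule.toEnd K L X (a x) := by
    ext y
    simp only [LinearMap.sub_apply, LinearMap.comp_apply, LieModule.toEnd_apply_apply, h.act]
    abel
  rw [h2, h3] at h1
  change D a b q (D _ _ q φ) = D _ _ q (D a b q φ) + D _ _ q φ
  rw [← h1]
  abel

/-- compatible pairs commute with the differential -/
lemma D_d {a : L →ₗ[K] L} {b : X →ₗ[K] X} (h : DerPair a b) : ∀ {q : ℕ} (φ : Co K L X q),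
    D a b (q + 1) (d q φ) = d q (D a b q φ) := by
  intro q
  induction q with
  | zero =>
    intro φ
    apply ext_io
    intro x
    rw [io_D, io_d_zero, io_d_zero, io_d_zero, D_lie h]
    abel
  | succ q ih =>
    intro φ
    apply ext_io
    intro x
    rw [io_D, io_d, io_d, io_d, map_sub, D_lie h, ih, io_D, map_sub]
    abel

lemma lie_d {q : ℕ} (x : L) (φ : Co K L X q) : lie x (q + 1) (d q φ) = d q (lie x q φ) :=
  D_d (derPair_ad x) φ

/-- `d` is a differential -/
theorem d_d : ∀ {q : ℕ} (φ : Co K L X q), d (q + 1) (d q φ) = 0 := by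
  intro q
  induction q with
  | zero =>
    intro φ
    apply eq_zero_of_io
    intro x
    rw [io_d, io_d_zero, lie_d, sub_self]
  | succ q ih =>
    intro φ
    apply eq_zero_of_io
    intro x
    rw [io_d, io_d, map_sub, ih, lie_d, sub_zero, sub_self]

end Lie

section Functor

variable {K L L' X Y : Type*} [Field K] [CharZero K]

section

variable [AddCommGroup L] [Module K L] [AddCommGroup L'] [Module K L'] [AddCommGroup X]
  [Module K X] [AddCommGroup Y] [Module K Y]

/-- composition with a linear map of the coefficients -/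
noncomputable def post (f : X →ₗ[K] Y) (q : ℕ) : Co K L X q →ₗ[K] Co K L Y q where
  toFun φ := f.compAlternatingMap φ
  map_add' φ ψ := by ext v; simp
  map_smul' c φ := by ext v; simp

/-- composition with a linear map of the arguments -/
noncomputable def pull (g : L' →ₗ[K] L) (q : ℕ) : Co K L X q →ₗ[K] Co K L' X q where
  toFun φ := φ.compLinearMap g
  map_add' φ ψ := by ext v; simp
  map_smul' c φ := by ext v; simp

omit [CharZero K] in
lemma post_apply (f : X →ₗ[K] Y) (q : ℕ) (φ : Co K L X q) (v : Fin q → L) :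
    post f q φ v = f (φ v) := rfl

omit [CharZero K] in
lemma pull_apply (g : L' →ₗ[K] L) (q : ℕ) (φ : Co K L X q) (v : Fin q → L') :
    pull g q φ v = φ (fun i => g (v i)) := rfl

omit [CharZero K] in
lemma ev0_post (f : X →ₗ[K] Y) (φ : Co K L X 0) : ev0 (post f 0 φ) = f (ev0 φ) := rfl

omit [CharZero K] in
lemma ev0_pull (g : L' →ₗ[K] L) (φ : Co K L X 0) : ev0 (pull g 0 φ) = ev0 φ := by
  change φ _ = φ _
  congr 1
  exact Subsingleton.elim _ _

omit [CharZero K] in
lemma io_post (f : X →ₗ[K] Y) {q : ℕ} (x : L) (φ : Co K L X (q + 1)) :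
    io x (post f (q + 1) φ) = post f q (io x φ) := rfl

omit [CharZero K] in
lemma io_pull (g : L' →ₗ[K] L) {q : ℕ} (x : L') (φ : Co K L X (q + 1)) :
    io x (pull g (q + 1) φ) = pull g q (io (g x) φ) :=
  AlternatingMap.curryLeft_compLinearMap g φ x

lemma D_post {f : X →ₗ[K] Y} {a : L →ₗ[K] L} {b : X →ₗ[K] X} {b' : Y →ₗ[K] Y}
    (h : ∀ m, f (b m) = b' (f m)) : ∀ {q : ℕ} (φ : Co K L X q),
    post f q (D a b q φ) = D a b' q (post f q φ) := by
  intro q
  induction q with
  | zero =>
    intro φ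
    apply ext_ev0
    rw [ev0_post, ev0_D, ev0_D, ev0_post, h]
  | succ q ih =>
    intro φ
    apply ext_io
    intro x
    rw [io_post, io_D, io_D, map_sub, ih, io_post, io_post]

lemma D_pull {g : L' →ₗ[K] L} {a : L →ₗ[K] L} {a' : L' →ₗ[K] L'} {b : X →ₗ[K] X}
    (h : ∀ x, g (a' x) = a (g x)) : ∀ {q : ℕ} (φ : Co K L X q),
    pull g q (D a b q φ) = D a' b q (pull g q φ) := by
  intro q
  induction q with
  | zero =>
    intro φ
    apply ext_ev0
    rw [ev0_pull, ev0_D, ev0_D, ev0_pull]
  | succ q ih =>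
    intro φ
    apply ext_io
    intro x
    rw [io_pull, io_D, io_D, map_sub, ih, io_pull, io_pull, h]

end

variable [LieRing L] [LieAlgebra K L] [LieRing L'] [LieAlgebra K L'] [AddCommGroup X]
  [Module K X] [LieRingModule L X] [LieModule K L X] [AddCommGroup Y] [Module K Y]
  [LieRingModule L Y] [LieModule K L Y] [LieRingModule L' X] [LieModule K L' X]

lemma lie_post {f : X →ₗ[K] Y} (h : ∀ (x : L) (m : X), f ⁅x, m⁆ = ⁅x, f m⁆) {q : ℕ} (x : L)
    (φ : Co K L X q) : post f q (lie x q φ) = lie x q (post f q φ) :=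
  D_post (fun m => h x m) φ

lemma d_post {f : X →ₗ[K] Y} (h : ∀ (x : L) (m : X), f ⁅x, m⁆ = ⁅x, f m⁆) : ∀ {q : ℕ}
    (φ : Co K L X q), post f (q + 1) (d q φ) = d q (post f q φ) := by
  intro q
  induction q with
  | zero =>
    intro φ
    apply ext_io
    intro x
    rw [io_post, io_d_zero, io_d_zero, lie_post h]
  | succ q ih =>
    intro φ
    apply ext_io
    intro x
    rw [io_post, io_d, io_d, map_sub, lie_post h, ih, io_post]

lemma lie_pull {g : L' →ₗ[K] L} (hg : ∀ x y, g ⁅x, y⁆ = ⁅g x, g y⁆)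
    (h : ∀ (x : L') (m : X), ⁅g x, m⁆ = ⁅x, m⁆) {q : ℕ} (x : L') (φ : Co K L X q) :
    pull g q (lie (g x) q φ) = lie x q (pull g q φ) := by
  have h1 : (LieModule.toEnd K L X (g x) : X →ₗ[K] X) = LieModule.toEnd K L' X x := by
    ext m
    exact h x m
  unfold lie
  rw [← h1]
  exact D_pull (fun y => hg x y) φ

lemma d_pull {g : L' →ₗ[K] L} (hg : ∀ x y, g ⁅x, y⁆ = ⁅g x, g y⁆)
    (h : ∀ (x : L') (m : X), ⁅g x, m⁆ = ⁅x, m⁆) : ∀ {q : ℕ} (φ : Co K L X q),
    pull g (q + 1) (d q φ) = d q (pull g q φ) := by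
  intro q
  induction q with
  | zero =>
    intro φ
    apply ext_io
    intro x
    rw [io_pull, io_d_zero, io_d_zero, lie_pull hg h]
  | succ q ih =>
    intro φ
    apply ext_io
    intro x
    rw [io_pull, io_d, io_d, map_sub, lie_pull hg h, ih, io_pull]

end Functor

end Gao.CE
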