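import Pool.Agent.Gao.Sl2C

/-!
# Alternating cochains: derivation action, grading, centered modules

`L` (the nilpotent Lie algebra, or only its underlying graded space) and `X` with operators
`A : End L`, `A₁ : End X`.  On `L [⋀^Fin q]→ₗ[K] X` the derivation action is
`D φ = A₁ φ - ∑ i, φ (…, A y_i, …)`.
-/

namespace Gao.Fam

open Function

variable {K L X Lam : Type*} [Field K] [AddCommGroup L] [Module K L] [AddCommGroup X] [Module K X]
  [AddCommGroup Lam] {q : ℕ}

/-- the multilinear map `y ↦ φ (…, A y_i, …)` -/
def altTerm (A : Module.End K L) (φ : MultilinearMap K (fun _ : Fin q => L) X) (i : Fin q) :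
    MultilinearMap K (fun _ : Fin q => L) X :=
  φ.compLinearMap (update (fun _ => LinearMap.id) i A)

lemma altTerm_apply (A : Module.End K L) (φ : MultilinearMap K (fun _ : Fin q => L) X) (i : Fin q)
    (y : Fin q → L) : altTerm A φ i y = φ (update y i (A (y i))) := by
  rw [altTerm, MultilinearMap.compLinearMap_apply]
  congr 1
  ext j
  by_cases h : j = i
  · subst h; simp
  · simp [h]

/-- `φ ↦ ∑ i, φ (…, A y_i, …)` -/
def altArg (A : Module.End K L) (φ : L [⋀^Fin q]→ₗ[K] X) : L [⋀^Fin q]→ₗ[K] X :=
  { ∑ i, altTerm A φ.toMultilinearMap i with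
    map_eq_zero_of_eq' := by
      intro y a b hab hne
      change (∑ i, altTerm A φ.toMultilinearMap i) y = 0
      rw [MultilinearMap.sum_apply]
      simp only [altTerm_apply]
      have hother : ∀ i, i ≠ a → i ≠ b → φ.toMultilinearMap (update y i (A (y i))) = 0 := by
        intro i hia hib
        apply φ.map_eq_zero_of_eq _ _ hne
        rw [update_of_ne hia.symm, update_of_ne hib.symm, hab]
      rw [← Finset.sum_subset (Finset.subset_univ {a, b})]
      · rw [Finset.sum_pair hne]
        have h1 : update y b (A (y b)) = (update y a (A (y a))) ∘ Equiv.swap a b := by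
          ext j
          rw [Function.comp_apply]
          by_cases hja : j = a
          · subst hja
            rw [Equiv.swap_apply_left, update_of_ne hne, update_of_ne hne.symm, hab]
          · by_cases hjb : j = b
            · subst hjb
              rw [Equiv.swap_apply_right, update_self, update_self, hab]
            · rw [Equiv.swap_apply_of_ne_of_ne hja hjb, update_of_ne hja, update_of_ne hjb]
        rw [h1]
        have h2 := φ.map_add_swap (update y a (A (y a))) hne
        exact h2
      · intro i _ hi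
        simp only [Finset.mem_insert, Finset.mem_singleton, not_or] at hi
        exact hother i hi.1 hi.2 }

lemma altArg_apply (A : Module.End K L) (φ : L [⋀^Fin q]→ₗ[K] X) (y : Fin q → L) :
    altArg A φ y = ∑ i, φ (update y i (A (y i))) := by
  change (∑ i, altTerm A φ.toMultilinearMap i) y = _
  rw [MultilinearMap.sum_apply]
  simp only [altTerm_apply]
  rfl

/-- the derivation action `φ ↦ A₁ φ - ∑ i, φ (…, A y_i, …)` -/
def altAct (A : Module.End K L) (A₁ : Module.End K X) :
    Module.End K (L [⋀^Fin q]→ₗ[K] X) where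
  toFun φ := A₁.compAlternatingMap φ - altArg A φ
  map_add' φ ψ := by
    ext y
    simp only [AlternatingMap.sub_apply, AlternatingMap.add_apply, altArg_apply,
      LinearMap.compAlternatingMap_apply, map_add, Finset.sum_add_distrib]
    abel
  map_smul' c φ := by
    ext y
    simp only [AlternatingMap.sub_apply, AlternatingMap.smul_apply, altArg_apply,
      LinearMap.compAlternatingMap_apply, map_smul, RingHom.id_apply, smul_sub, Finset.smul_sum]

lemma altAct_apply (A : Module.End K L) (A₁ : Module.End K X) (φ : L [⋀^Fin q]→ₗ[K] X)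
    (y : Fin q → L) : altAct A A₁ φ y = A₁ (φ y) - ∑ i, φ (update y i (A (y i))) := by
  change (A₁.compAlternatingMap φ - altArg A φ) y = _
  rw [AlternatingMap.sub_apply, altArg_apply]
  rfl

/-- `∑ i, φ (…, [B, A] y_i, …)` is the commutator of the argument actions -/
lemma altArg_comm (A B : Module.End K L) (φ : L [⋀^Fin q]→ₗ[K] X) (y : Fin q → L) :
    altArg A (altArg B φ) y - altArg B (altArg A φ) y =
      ∑ i, φ (update y i (B (A (y i)) - A (B (y i)))) := by
  have h1 : ∀ (A B : Module.End K L), altArg A (altArg B φ) y =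
      (∑ i, φ (update y i (B (A (y i))))) +
      ∑ i, ∑ j ∈ Finset.univ.erase i, φ (update (update y i (A (y i))) j (B (y j))) := by
    intro A B
    rw [altArg_apply, ← Finset.sum_add_distrib]
    refine Finset.sum_congr rfl fun i _ => ?_
    rw [altArg_apply, ← Finset.add_sum_erase _ _ (Finset.mem_univ i)]
    congr 1
    · rw [update_self, update_idem]
    · refine Finset.sum_congr rfl fun j hj => ?_
      rw [update_of_ne (Finset.ne_of_mem_erase hj)]
  have h2 : ∑ i, ∑ j ∈ Finset.univ.erase i, φ (update (update y i (A (y i))) j (B (y j))) =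
      ∑ i, ∑ j ∈ Finset.univ.erase i, φ (update (update y i (B (y i))) j (A (y j))) := by
    rw [Finset.sum_comm' (s := Finset.univ) (t := fun i => Finset.univ.erase i)
      (s' := fun j => Finset.univ.erase j) (t' := Finset.univ)]
    · refine Finset.sum_congr rfl fun i _ => Finset.sum_congr rfl fun j hj => ?_
      rw [update_comm (Finset.ne_of_mem_erase hj).symm]
    · intro i j
      simp only [Finset.mem_univ, Finset.mem_erase, true_and, and_true, ne_eq]
      exact ⟨fun h => fun h' => h h'.symm, fun h => fun h' => h h'.symm⟩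
  rw [h1, h1, h2, add_sub_add_right_eq_sub, ← Finset.sum_sub_distrib]
  refine Finset.sum_congr rfl fun i _ => ?_
  rw [φ.map_update_sub]

lemma altAct_comm (A B : Module.End K L) (A₁ B₁ : Module.End K X) (φ : L [⋀^Fin q]→ₗ[K] X)
    (y : Fin q → L) :
    altAct A A₁ (altAct B B₁ φ) y - altAct B B₁ (altAct A A₁ φ) y =
      (A₁ (B₁ (φ y)) - B₁ (A₁ (φ y))) - ∑ i, φ (update y i (A (B (y i)) - B (A (y i)))) := by
  have h1 := altArg_comm A B φ y
  have h2 : ∑ i, φ (update y i (A (B (y i)) - B (A (y i)))) =
      -∑ i, φ (update y i (B (A (y i)) - A (B (y i)))) := by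
    rw [← Finset.sum_neg_distrib]
    refine Finset.sum_congr rfl fun i _ => ?_
    rw [φ.map_update_sub, φ.map_update_sub, neg_sub]
  rw [h2, ← h1]
  simp only [altArg_apply, altAct_apply, map_sub, map_sum, Finset.sum_sub_distrib]
  abel

/-! ### The grading -/

/-- the part of weight `lam` of the space of alternating maps -/
def altW (q : ℕ) (W : Lam → Submodule K L) (WX : Lam → Submodule K X) (lam : Lam) :
    Submodule K (L [⋀^Fin q]→ₗ[K] X) where
  carrier := {φ | ∀ (mu : Fin q → Lam) (y : Fin q → L), (∀ i, y i ∈ W (mu i)) →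
    φ y ∈ WX (∑ i, mu i + lam)}
  add_mem' {φ ψ} hφ hψ mu y hy := by
    rw [AlternatingMap.add_apply]
    exact Submodule.add_mem _ (hφ mu y hy) (hψ mu y hy)
  zero_mem' mu y _ := by
    rw [AlternatingMap.zero_apply]
    exact Submodule.zero_mem _
  smul_mem' c φ hφ mu y hy := by
    rw [AlternatingMap.smul_apply]
    exact Submodule.smul_mem _ _ (hφ mu y hy)

variable {W : Lam → Submodule K L} {WX : Lam → Submodule K X}

/-- an alternating map which vanishes on homogeneous elements is zero -/
lemma alt_eq_zero (hsup : ⨆ lam, W lam = ⊤) (φ : L [⋀^Fin q]→ₗ[K] X)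
    (h : ∀ (mu : Fin q → Lam) (y : Fin q → L), (∀ i, y i ∈ W (mu i)) → φ y = 0) : φ = 0 := by
  have key : ∀ s : Finset (Fin q), ∀ y : Fin q → L, (∀ i, i ∉ s → ∃ mu, y i ∈ W mu) →
      φ y = 0 := by
    intro s
    induction s using Finset.induction_on with
    | empty =>
      intro y hy
      choose mu hmu using fun i => hy i (Finset.notMem_empty i)
      exact h mu y hmu
    | insert a s ha ih =>
      intro y hy
      have h1 : ∀ x : L, x ∈ ⨆ lam, W lam → φ (update y a x) = 0 := by
        intro x hx
        induction hx using Submodule.iSup_induction' with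
        | mem mu x hx =>
          apply ih
          intro i hi
          by_cases hia : i = a
          · subst hia
            exact ⟨mu, by simpa using hx⟩
          · rw [update_of_ne hia]
            exact hy i (by simp [hia, hi])
        | zero => exact φ.map_update_zero y a
        | add x x' _ _ hx hx' => rw [φ.map_update_add, hx, hx', add_zero]
      have h2 := h1 (y a) (by rw [hsup]; trivial)
      rwa [update_eq_self] at h2
  ext y
  exact key Finset.univ y (fun i hi => absurd (Finset.mem_univ i) hi)

lemma iSupIndep.altW (hind : iSupIndep WX) (hsup : ⨆ lam, W lam = ⊤) :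
    iSupIndep (altW q W WX) := by
  intro i
  rw [Submodule.disjoint_def]
  intro φ hφ hφ'
  apply alt_eq_zero hsup
  intro mu y hy
  have h1 : φ y ∈ ⨆ j, ⨆ (_ : j ≠ ∑ k, mu k + i), WX j := by
    have h2 : (⨆ j, ⨆ (_ : j ≠ i), Gao.Fam.altW q W WX j) ≤
        (⨆ j, ⨆ (_ : j ≠ ∑ k, mu k + i), WX j).comap
          ({ toFun := fun ψ => ψ y, map_add' := fun _ _ => rfl, map_smul' := fun _ _ => rfl } :
            (L [⋀^Fin q]→ₗ[K] X) →ₗ[K] X) := by
      refine iSup_le fun j => iSup_le fun hj => ?_
      intro ψ hψ
      rw [Submodule.mem_comap]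
      have h3 : WX (∑ k, mu k + j) ≤ ⨆ j, ⨆ (_ : j ≠ ∑ k, mu k + i), WX j :=
        le_iSup_of_le (∑ k, mu k + j) (le_iSup_of_le (by simpa using hj) le_rfl)
      exact h3 (hψ mu y hy)
    exact h2 hφ'
  exact (Submodule.disjoint_def.mp (hind _)) (φ y) (hφ mu y hy) h1

/-- an operator of weight `alpha` (`Raises W (-alpha)` for lowering operators) -/
lemma Raises.alt {alpha : Lam} {e : Module.End K L} {e₁ : Module.End K X}
    (he : Raises W alpha e) (he₁ : Raises WX alpha e₁) :
    Raises (altW q W WX) alpha (altAct e e₁) := by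
  intro lam φ hφ mu y hy
  rw [altAct_apply]
  apply Submodule.sub_mem
  · have := he₁ _ _ (hφ mu y hy)
    rwa [add_assoc] at this
  · refine Submodule.sum_mem _ fun i _ => ?_
    have h1 := hφ (update mu i (mu i + alpha)) (update y i (e (y i))) (by
      intro j
      by_cases hj : j = i
      · subst hj
        rw [update_self, update_self]
        exact he _ _ (hy j)
      · rw [update_of_ne hj, update_of_ne hj]
        exact hy j)
    have h2 : ∑ j, update mu i (mu i + alpha) j + lam = ∑ j, mu j + (lam + alpha) := by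
      rw [Finset.sum_update_of_mem (Finset.mem_univ i), ← Finset.erase_eq,
        ← Finset.add_sum_erase _ _ (Finset.mem_univ i)]
      abel
    rwa [h2] at h1

/-- **closure**: `chi(Alt^q(L; X)) = chi(X) - q chi(L)` -/
theorem IsLowering.alt {alpha : Lam} {ht : Lam →+ ℤ} {e f : Module.End K L}
    {e₁ f₁ : Module.End K X} {chiL chi : ℤ} (h : IsLowering W alpha ht e chiL f)
    (h₁ : IsLowering WX alpha ht e₁ chi f₁) (hsup : ⨆ lam, W lam = ⊤) :
    IsLowering (altW q W WX) alpha ht (altAct e e₁) (chi - q * chiL) (altAct f f₁) where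
  lower lam φ hφ := by
    have h2 : Raises W (-alpha) f := h.raises_swap
    have h3 : Raises WX (-alpha) f₁ := h₁.raises_swap
    have h4 := h2.alt (q := q) h3 lam φ hφ
    rwa [← sub_eq_add_neg] at h4
  comm lam φ hφ := by
    rw [← sub_eq_zero]
    apply alt_eq_zero hsup
    intro mu y hy
    rw [AlternatingMap.sub_apply, AlternatingMap.sub_apply, altAct_comm,
      h₁.comm _ _ (hφ mu y hy), AlternatingMap.smul_apply]
    have h2 : ∀ i, φ (update y i (e (f (y i)) - f (e (y i)))) =
        ((ht (mu i) - chiL : ℤ) : K) • φ y := by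
      intro i
      rw [h.comm _ _ (hy i), φ.map_update_smul, update_eq_self]
    rw [Finset.sum_congr rfl fun i _ => h2 i, ← Finset.sum_smul, ← sub_smul, ← sub_smul]
    have h3 : ((ht (∑ i, mu i + lam) - chi : ℤ) : K) - ∑ i, ((ht (mu i) - chiL : ℤ) : K) -
        ((ht lam - (chi - q * chiL) : ℤ) : K) = 0 := by
      rw [map_add, map_sum]
      push_cast
      rw [Finset.sum_sub_distrib]
      simp only [Finset.sum_const, Finset.card_univ, Fintype.card_fin, nsmul_eq_mul]
      ring
    rw [h3, zero_smul]

instance alt_finite [FiniteDimensional K L] [FiniteDimensional K X] :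
    FiniteDimensional K (L [⋀^Fin q]→ₗ[K] X) := by
  let g : (L [⋀^Fin q]→ₗ[K] X) →ₗ[K] MultilinearMap K (fun _ : Fin q => L) X :=
    { toFun := fun φ => φ.toMultilinearMap
      map_add' := fun _ _ => rfl
      map_smul' := fun _ _ => rfl }
  exact Module.Finite.of_injective g AlternatingMap.coe_multilinearMap_injective

/-- if `X` is centered at `chi` and `L` at `0`, the raising operator is bijective on cochains
from height `chi - 1` to height `chi + 1` -/
theorem altAct_bijective [CharZero K] [FiniteDimensional K L] [FiniteDimensional K X]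
    {alpha : Lam} {ht : Lam →+ ℤ} {e : Module.End K L} {e₁ : Module.End K X} {chi : ℤ}
    (hα : ht alpha = 2) (he : Raises W alpha e) (he₁ : Raises WX alpha e₁)
    (h : Centered W alpha ht e 0) (h₁ : Centered WX alpha ht e₁ chi) (hsup : ⨆ lam, W lam = ⊤)
    (hind : iSupIndep WX) (lam : Lam) (hlam : ht lam = chi - 1) :
    (∀ φ ∈ altW q W WX lam, altAct e e₁ φ = 0 → φ = 0) ∧
      ∀ ψ ∈ altW q W WX (lam + alpha), ∃ φ ∈ altW q W WX lam, altAct e e₁ φ = ψ := by
  obtain ⟨f, hf⟩ := h
  obtain ⟨f₁, hf₁⟩ := h₁
  have h2 := hf.alt (q := q) hf₁ hsup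
  rw [mul_zero, sub_zero] at h2
  exact Centered.bijective_one (he.alt he₁) ⟨_, h2⟩ (iSupIndep.altW hind hsup) hα lam hlam

end Gao.Fam
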