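import Pool.Agent.Gao.CEBase
import Pool.Agent.Gao.Sl2Alt

/-!
# Centered modules and cochains: `D a b` is the derivation action `altAct a b`

* `D_eq_altAct`: the recursively defined `D a b q` is `altAct a b`;
* `mem_altW_zero`, `mem_altW_succ`: recursive description of the weight parts;
* `D_bijective`: the input of (L1).
-/

namespace Gao.CE

open Function Gao.Fam

variable {K L X Lam : Type*} [Field K] [AddCommGroup L] [Module K L] [AddCommGroup X] [Module K X]
  [AddCommGroup Lam]

lemma update_vecCons_zero {α : Type*} {q : ℕ} (x y : α) (v : Fin q → α) :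
    update (Matrix.vecCons x v : Fin (q + 1) → α) 0 y = Matrix.vecCons y v := by
  funext j
  refine Fin.cases ?_ (fun k => ?_) j
  · simp
  · simp [update_of_ne (Fin.succ_ne_zero k)]

lemma update_vecCons_succ {α : Type*} {q : ℕ} (x y : α) (v : Fin q → α) (i : Fin q) :
    update (Matrix.vecCons x v : Fin (q + 1) → α) i.succ y = Matrix.vecCons x (update v i y) := by
  funext j
  refine Fin.cases ?_ (fun k => ?_) j
  · simp [update_of_ne (Fin.succ_ne_zero i).symm]
  · by_cases h : k = i
    · subst h; simp
    · simp [h]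

lemma io_altAct {q : ℕ} (a : L →ₗ[K] L) (b : X →ₗ[K] X) (x : L) (φ : Co K L X (q + 1)) :
    io x (altAct a b φ) = altAct a b (io x φ) - io (a x) φ := by
  ext v
  rw [io_apply, AlternatingMap.sub_apply, altAct_apply, altAct_apply, io_apply, io_apply,
    Fin.sum_univ_succ, update_vecCons_zero]
  simp only [update_vecCons_succ, io_apply, Matrix.cons_val_zero, Matrix.cons_val_succ]
  abel

/-- the recursive Lie derivative is the derivation action -/
theorem D_eq_altAct [CharZero K] (a : L →ₗ[K] L) (b : X →ₗ[K] X) : ∀ {q : ℕ} (φ : Co K L X q),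
    D a b q φ = altAct a b φ := by
  intro q
  induction q with
  | zero =>
    intro φ
    apply ext_ev0
    rw [ev0_D]
    change b (φ _) = altAct a b φ _
    rw [altAct_apply]
    simp
  | succ q ih =>
    intro φ
    apply ext_io
    intro x
    rw [io_D, ih, io_altAct]

theorem mem_altW_zero {W : Lam → Submodule K L} {WX : Lam → Submodule K X} {mu : Lam}
    {φ : Co K L X 0} : φ ∈ altW 0 W WX mu ↔ ev0 φ ∈ WX mu := by
  constructor
  · intro h
    have h1 := h ![] ![] (fun i => i.elim0)
    change φ ![] ∈ WX mu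
    simpa using h1
  · intro h nu y _
    have h1 : y = ![] := Subsingleton.elim _ _
    have h2 : φ y ∈ WX mu := by
      rw [h1]; exact h
    simpa using h2

theorem mem_altW_succ {q : ℕ} {W : Lam → Submodule K L} {WX : Lam → Submodule K X} {mu : Lam}
    {φ : Co K L X (q + 1)} :
    φ ∈ altW (q + 1) W WX mu ↔ ∀ lam, ∀ x ∈ W lam, io x φ ∈ altW q W WX (mu + lam) := by
  constructor
  · intro h lam x hx nu y hy
    have h1 := h (Matrix.vecCons lam nu) (Matrix.vecCons x y) (by
      intro i
      refine Fin.cases ?_ (fun k => ?_) i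
      · simpa using hx
      · simpa using hy k)
    rw [Fin.sum_univ_succ] at h1
    simp only [Matrix.cons_val_zero, Matrix.cons_val_succ] at h1
    rw [io_apply]
    have h2 : lam + ∑ i, nu i + mu = ∑ i, nu i + (mu + lam) := by abel
    rwa [h2] at h1
  · intro h nu y hy
    have h1 := h (nu 0) (y 0) (hy 0) (fun i => nu i.succ) (fun i => y i.succ)
      (fun i => hy i.succ)
    rw [io_apply] at h1
    have h3 : Matrix.vecCons (y 0) (fun i : Fin q => y i.succ) = y := by
      funext i
      refine Fin.cases ?_ (fun k => ?_) i <;> simp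
    rw [h3] at h1
    rw [Fin.sum_univ_succ]
    have h2 : nu 0 + ∑ i : Fin q, nu i.succ + mu = ∑ i : Fin q, nu i.succ + (mu + nu 0) := by
      abel
    rwa [h2]

/-- **input of (L1)**: `L` centered at `0` (for instance `n_P`), `X` centered at `chi`: the Lie
derivative of `(a, b)` is bijective from the weight `lam` cochains to the weight `lam + alpha`
cochains if `ht lam = chi - 1` -/
theorem D_bijective [CharZero K] [FiniteDimensional K L] [FiniteDimensional K X] {q : ℕ}
    {W : Lam → Submodule K L} {WX : Lam → Submodule K X}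
    {alpha : Lam} {ht : Lam →+ ℤ} {a : L →ₗ[K] L} {b : X →ₗ[K] X} {chi : ℤ}
    (hα : ht alpha = 2) (ha : Raises W alpha a) (hb : Raises WX alpha b)
    (h : Fam.Centered W alpha ht a 0) (h₁ : Fam.Centered WX alpha ht b chi)
    (hsup : ⨆ lam, W lam = ⊤) (hind : iSupIndep WX) (lam : Lam) (hlam : ht lam = chi - 1) :
    (∀ φ ∈ altW q W WX lam, D a b q φ = 0 → φ = 0) ∧
      ∀ ψ ∈ altW q W WX (lam + alpha), ∃ φ ∈ altW q W WX lam, D a b q φ = ψ := by
  simp only [D_eq_altAct]
  exact altAct_bijective hα ha hb h h₁ hsup hind lam hlam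

/-- `D a b` has weight `alpha` -/
theorem D_mem_altW [CharZero K] {q : ℕ} {W : Lam → Submodule K L} {WX : Lam → Submodule K X}
    {alpha : Lam} {a : L →ₗ[K] L} {b : X →ₗ[K] X} (ha : Raises W alpha a)
    (hb : Raises WX alpha b) {lam : Lam} {φ : Co K L X q} (hφ : φ ∈ altW q W WX lam) :
    D a b q φ ∈ altW q W WX (lam + alpha) := by
  rw [D_eq_altAct]
  exact ha.alt hb lam φ hφ

end Gao.CE
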