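import Pool.Agent.Gao.CEWeight
import Pool.Agent.Gao.Sl2Bridge
import Pool.Agent.Gao.Sl2S

/-!
# Graded exact sequences have graded splittings (Gao project, MP_b139df_co)

`exists_GSES`: if `f : A → B` is injective, `g : B → C` surjective, `ker g = range f`, both graded
and `L`-equivariant, then there are graded linear splittings, i.e. `GSES L GA.W GB.W GC.W f g r s`.
-/

namespace Gao.CE

open Gao

section

variable {K A B C Lam : Type*} [Field K]
  [AddCommGroup A] [Module K A] [AddCommGroup B] [Module K B] [AddCommGroup C] [Module K C]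
  [AddCommGroup Lam] [DecidableEq Lam] {GA : Grading K A Lam} {GB : Grading K B Lam}
  {GC : Grading K C Lam}

omit [AddCommGroup Lam] in
/-- a map that preserves the weight spaces commutes with the projections -/
lemma comm_π {f : A →ₗ[K] B} (hf : ∀ mu, ∀ m ∈ GA.W mu, f m ∈ GB.W mu) (mu : Lam) (x : A) :
    f (GA.π mu x) = GB.π mu (f x) := by
  have h1 : ∀ nu, f (GA.π mu (GA.π nu x)) = GB.π mu (f (GA.π nu x)) := by
    intro nu
    by_cases h : mu = nu
    · subst h
      rw [GA.π_of_mem (GA.π_mem mu x), GB.π_of_mem (hf mu _ (GA.π_mem mu x))]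
    · rw [GA.π_of_mem_ne (GA.π_mem nu x) h, GB.π_of_mem_ne (hf nu _ (GA.π_mem nu x)) h, map_zero]
  have h2 := GA.sum_apply x
  have h3 : f (GA.π mu (∑ a ∈ GA.supp, GA.π a x)) = GB.π mu (f (∑ a ∈ GA.supp, GA.π a x)) := by
    simp only [map_sum]
    exact Finset.sum_congr rfl fun nu _ => h1 nu
  rwa [h2] at h3

/-- the graded part of degree zero of a linear map -/
def avg (GA : Grading K A Lam) (GB : Grading K B Lam) (f : A →ₗ[K] B) : A →ₗ[K] B :=
  ∑ mu ∈ GA.supp, (GB.π mu) ∘ₗ f ∘ₗ (GA.π mu)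

omit [AddCommGroup Lam] in
lemma avg_apply_mem (f : A →ₗ[K] B) {mu : Lam} {x : A} (hx : x ∈ GA.W mu) :
    avg GA GB f x = GB.π mu (f x) := by
  unfold avg
  rw [LinearMap.sum_apply]
  by_cases h : mu ∈ GA.supp
  · rw [Finset.sum_eq_single mu]
    · rw [LinearMap.comp_apply, LinearMap.comp_apply, GA.π_of_mem hx]
    · intro nu _ hne
      rw [LinearMap.comp_apply, LinearMap.comp_apply, GA.π_of_mem_ne hx hne, map_zero, map_zero]
    · intro h'; exact absurd h h'
  · have h1 : x = 0 := by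
      rw [GA.W_eq_bot h] at hx
      exact hx
    subst h1
    simp

omit [AddCommGroup Lam] in
lemma avg_mem (f : A →ₗ[K] B) {mu : Lam} {x : A} (hx : x ∈ GA.W mu) :
    avg GA GB f x ∈ GB.W mu := by
  rw [avg_apply_mem f hx]
  exact GB.π_mem mu _

omit [AddCommGroup Lam] in
/-- two linear maps that agree on homogeneous elements are equal -/
lemma ext_hom (GA : Grading K A Lam) {f g : A →ₗ[K] B} (h : ∀ mu, ∀ x ∈ GA.W mu, f x = g x)
    (x : A) : f x = g x := by
  rw [← GA.sum_apply x, map_sum, map_sum]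
  exact Finset.sum_congr rfl fun mu _ => h mu _ (GA.π_mem mu x)

variable {L : Type*} [LieRing L] [LieAlgebra K L] [LieRingModule L A] [LieModule K L A]
  [LieRingModule L B] [LieModule K L B] [LieRingModule L C] [LieModule K L C]

/-- a graded short exact sequence has graded linear splittings -/
theorem exists_GSES {f : A →ₗ[K] B} {g : B →ₗ[K] C}
    (fW : ∀ mu, ∀ m ∈ GA.W mu, f m ∈ GB.W mu) (gW : ∀ mu, ∀ m ∈ GB.W mu, g m ∈ GC.W mu)
    (fl : ∀ (x : L) (a : A), f ⁅x, a⁆ = ⁅x, f a⁆) (gl : ∀ (x : L) (b : B), g ⁅x, b⁆ = ⁅x, g b⁆)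
    (hf : Function.Injective f) (hg : Function.Surjective g) (hgf : ∀ a, g (f a) = 0)
    (hex : ∀ b, g b = 0 → ∃ a, f a = b) :
    ∃ (r : B →ₗ[K] A) (s : C →ₗ[K] B), GSES L GA.W GB.W GC.W f g r s := by
  obtain ⟨s₀, hs₀⟩ := g.exists_rightInverse_of_surjective (LinearMap.range_eq_top.2 hg)
  have hs₀' : ∀ c, g (s₀ c) = c := fun c => congrArg (fun u : C →ₗ[K] C => u c) hs₀
  obtain ⟨r₀, hr₀⟩ := f.exists_leftInverse_of_injective (LinearMap.ker_eq_bot.2 hf)
  have hr₀' : ∀ a, r₀ (f a) = a := fun a => congrArg (fun u : A →ₗ[K] A => u a) hr₀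
  set s : C →ₗ[K] B := avg GC GB s₀ with hs
  have gs : ∀ c, g (s c) = c := by
    intro c
    have h1 := ext_hom GC (f := g ∘ₗ s) (g := LinearMap.id) (fun mu x hx => by
      rw [LinearMap.comp_apply, hs, avg_apply_mem s₀ hx, comm_π gW, hs₀', GC.π_of_mem hx]
      rfl) c
    exact h1
  set r : B →ₗ[K] A := r₀ ∘ₗ (LinearMap.id - s ∘ₗ g) with hr
  have fr : ∀ b, f (r b) = b - s (g b) := by
    intro b
    have h1 : g (b - s (g b)) = 0 := by rw [map_sub, gs, sub_self]
    obtain ⟨a, ha⟩ := hex _ h1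
    have h2 : r b = a := by
      rw [hr, LinearMap.comp_apply]
      change r₀ (b - s (g b)) = a
      rw [← ha, hr₀']
    rw [h2, ha]
  refine ⟨r, s, ⟨fW, gW, ?_, fun mu m hm => avg_mem s₀ hm, ?_, gs, ?_, fl, gl⟩⟩
  · intro mu m hm
    rw [GA.mem_W]
    apply hf
    rw [comm_π fW, fr, GB.π_of_mem]
    exact Submodule.sub_mem _ hm (avg_mem s₀ (gW mu m hm))
  · intro a
    apply hf
    rw [fr, hgf, map_zero, sub_zero]
  · intro b
    rw [fr]
    abel

end

end Gao.CE
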