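import Pool.Agent.Gao.CEWeight
import Pool.Agent.Gao.CECenter

/-!
# Vanishing for centered coefficients (L1 of Part E, Gao project, MP_b139df_co)

If `X` is centered at `1` for a simple root vector `e ∈ L` (`L = K e ⊕ P`, `P` stable under `ad e`
and centered at `0`), all cohomology groups of weight zero vanish.
-/

namespace Gao.CE

open Gao.Fam Function

section

variable {K L X Lam : Type*} [Field K] [CharZero K] [AddCommGroup L] [Module K L]
  [AddCommGroup X] [Module K X] [AddCommGroup Lam]

omit [CharZero K] in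
lemma CW_eq_altW (N : Lam → Submodule K L) (W : Lam → Submodule K X) (q : ℕ) (mu : Lam) :
    CW N W q mu = altW q N W mu := by
  ext φ
  rw [mem_CW_iff]
  rfl

/-- the raising operator is bijective on cochains from height `0` to height `2` -/
theorem D_bijective_zero [FiniteDimensional K L] [FiniteDimensional K X] {N : Lam → Submodule K L}
    {W : Lam → Submodule K X} {alpha : Lam} {ht : Lam →+ ℤ} {e : Module.End K L}
    {e₁ : Module.End K X} (hα : ht alpha = 2) (he : Raises N alpha e) (he₁ : Raises W alpha e₁)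
    (h : Centered N alpha ht e 0) (h₁ : Centered W alpha ht e₁ 1) (hsup : ⨆ lam, N lam = ⊤)
    (hind : iSupIndep W) (q : ℕ) (lam : Lam) (hlam : ht lam = 0) :
    (∀ φ ∈ CW N W q lam, D e e₁ q φ = 0 → φ = 0) ∧
      ∀ ψ ∈ CW N W q (lam + alpha), ∃ φ ∈ CW N W q lam, D e e₁ q φ = ψ := by
  rw [CW_eq_altW, CW_eq_altW]
  exact D_bijective (q := q) hα he he₁ h h₁ hsup hind lam (by rw [hlam]; norm_num)

end

section L1

variable {K L X Lam : Type*} [Field K] [CharZero K] [LieRing L] [LieAlgebra K L]
  [AddCommGroup X] [Module K X] [LieRingModule L X] [LieModule K L X] [AddCommGroup Lam]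

/-- `L = K e ⊕ P` with `P` stable under `ad e`, graded, centered at `0` -/
structure SimpleRoot (N : Lam → Submodule K L) (alpha : Lam) (ht : Lam →+ ℤ) (e : L)
    (P : Submodule K L) (p : L →ₗ[K] P) : Prop where
  ht_alpha : ht alpha = 2
  e_mem : e ∈ N alpha
  p_e : p e = 0
  p_P : ∀ x : P, p x = x
  dec : ∀ x : L, ∃ c : K, x = c • e + p x
  p_N : ∀ lam, ∀ x ∈ N lam, (p x : L) ∈ N lam
  stable : ∀ x ∈ P, ⁅e, x⁆ ∈ P
  centered : Centered (subW N P) alpha ht ((LieAlgebra.ad K L e).restrict stable) 0

variable {N : Lam → Submodule K L} {W : Lam → Submodule K X} {alpha : Lam} {ht : Lam →+ ℤ} {e : L}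
  {P : Submodule K L} {p : L →ₗ[K] P}

omit [CharZero K] in
lemma SimpleRoot.sup (h : SimpleRoot N alpha ht e P p) (hN : GrLie N) :
    ⨆ lam, subW N P lam = ⊤ := by
  rw [eq_top_iff]
  intro x _
  have h1 : (⨆ lam, N lam) ≤ (⨆ lam, subW N P lam).comap p := by
    refine iSup_le fun lam y hy => ?_
    exact Submodule.mem_iSup_of_mem lam (h.p_N lam y hy)
  have h2 : (x : L) ∈ ⨆ lam, N lam := by rw [hN.sup]; trivial
  have h3 := h1 h2
  rw [Submodule.mem_comap, h.p_P] at h3
  exact h3

omit [CharZero K] [LieRingModule L X] [LieModule K L X] in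
/-- a cochain is zero if its restriction to `P` and its contraction with `e` are zero -/
lemma SimpleRoot.ext (h : SimpleRoot N alpha ht e P p) : ∀ {q : ℕ} {φ : Co K L X (q + 1)},
    pull P.subtype (q + 1) φ = 0 → io e φ = 0 → φ = 0 := by
  intro q
  induction q with
  | zero =>
    intro φ h1 h2
    apply eq_zero_of_io
    intro x
    obtain ⟨c, hc⟩ := h.dec x
    rw [hc, io_add_left, io_smul_left, h2, smul_zero, zero_add]
    apply ext_ev0
    have h3 := congrArg (fun ψ => io (p x) ψ) h1
    simp only [io_pull, map_zero] at h3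
    have h4 := congrArg ev0 h3
    rw [ev0_pull, map_zero] at h4
    rw [map_zero]
    exact h4
  | succ q ih =>
    intro φ h1 h2
    apply eq_zero_of_io
    intro x
    obtain ⟨c, hc⟩ := h.dec x
    rw [hc, io_add_left, io_smul_left, h2, smul_zero, zero_add]
    apply ih
    · have h3 := congrArg (fun ψ => io (p x) ψ) h1
      simp only [io_pull, map_zero] at h3
      exact h3
    · rw [io_io, h2, map_zero, neg_zero]

/-- **L1**: if `X` is centered at `1` for `e`, the cohomology of weight zero vanishes -/
theorem van_of_centered [FiniteDimensional K L] [FiniteDimensional K X] (hN : GrLie N)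
    (hW : GrMod N W) (hind : iSupIndep W) (h : SimpleRoot N alpha ht e P p)
    (hc : Centered W alpha ht (LieModule.toEnd K L X e) 1) (q : ℕ) :
    Van (HH N W) (fun q => d q) q := by
  have hsup := h.sup hN
  have hRP : Raises (subW N P) alpha ((LieAlgebra.ad K L e).restrict h.stable) := by
    intro lam x hx
    change ⁅e, (x : L)⁆ ∈ N (lam + alpha)
    exact hN.lie alpha lam e h.e_mem _ hx
  have hRX : Raises W alpha (LieModule.toEnd K L X e) := by
    intro lam x hx
    exact hW alpha lam e h.e_mem x hx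
  have hbij := D_bijective_zero h.ht_alpha hRP hRX h.centered hc hsup hind
  have hres : ∀ {q : ℕ} (φ : Co K L X q), pull P.subtype q (lie e q φ) =
      D ((LieAlgebra.ad K L e).restrict h.stable) (LieModule.toEnd K L X e) q
        (pull P.subtype q φ) := fun {q} φ => D_pull (g := P.subtype) (a := LieAlgebra.ad K L e)
      (a' := (LieAlgebra.ad K L e).restrict h.stable) (b := LieModule.toEnd K L X e)
      (fun x => rfl) φ
  have hrm : ∀ {q : ℕ} {mu : Lam} {φ : Co K L X q}, φ ∈ CW N W q mu →
      pull P.subtype q φ ∈ CW (subW N P) W q mu := fun hφ =>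
    pull_mem_CW (fun lam x hx => hx) hφ
  have hem : ∀ {q : ℕ} {mu : Lam} {φ : Co K P X q}, φ ∈ CW (subW N P) W q mu →
      pull p q φ ∈ CW N W q mu := fun hφ => pull_mem_CW (fun lam x hx => h.p_N lam x hx) hφ
  have hrp : ∀ {q : ℕ} (φ : Co K P X q), pull P.subtype q (pull p q φ) = φ := by
    intro q φ
    ext v
    rw [pull_apply, pull_apply]
    congr 1
    funext i
    exact h.p_P _
  cases q with
  | zero =>
    intro φ hφ hd
    have h1 : D ((LieAlgebra.ad K L e).restrict h.stable) (LieModule.toEnd K L X e) 0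
        (pull P.subtype 0 φ) = 0 := by
      have hd' : d 0 φ = 0 := hd
      rw [← hres, ← io_d_zero, hd', map_zero, map_zero]
    have h2 := (hbij 0 0 (map_zero ht)).1 _ (hrm hφ) h1
    apply ext_ev0
    rw [← ev0_pull P.subtype φ, h2]
    rfl
  | succ q =>
    intro ω hω hd
    have hd' : d (q + 1) ω = 0 := hd
    have h1 : io e ω ∈ CW N W q (0 + alpha) := mem_CW_succ.1 hω alpha e h.e_mem
    obtain ⟨η₀, hη₀, hη⟩ := (hbij q 0 (map_zero ht)).2 _ (hrm h1)
    refine ⟨pull p q η₀, hem hη₀, ?_⟩
    -- `io e` of the extension is zero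
    have h2 : ∀ {q : ℕ} (φ : Co K P X (q + 1)), io e (pull p (q + 1) φ) = 0 := by
      intro q φ
      rw [io_pull, h.p_e, io_zero_left, map_zero]
    have h3 : io e (d q (pull p q η₀)) = lie e q (pull p q η₀) := by
      cases q with
      | zero => rw [io_d_zero]
      | succ q => rw [io_d, h2, map_zero, sub_zero]
    set θ : Co K L X (q + 1) := ω - d q (pull p q η₀) with hθ
    have hθm : θ ∈ CW N W (q + 1) 0 := Submodule.sub_mem _ hω (d_mem_CW hN hW (hem hη₀))
    have hdθ : d (q + 1) θ = 0 := by rw [hθ, map_sub, hd', d_d, sub_zero]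
    have h4 : pull P.subtype q (io e θ) = 0 := by
      rw [hθ, map_sub, map_sub, h3, hres, hrp, hη, sub_self]
    have h5 : io e θ = 0 := by
      cases q with
      | zero =>
        apply ext_ev0
        rw [← ev0_pull P.subtype, h4]
        rfl
      | succ q => exact h.ext h4 (io_io_self e θ)
    have h6 : lie e (q + 1) θ = 0 := by
      have h7 := io_d e θ
      rw [hdθ, h5, map_zero, map_zero, sub_zero] at h7
      exact h7.symm
    have h8 : pull P.subtype (q + 1) θ = 0 := by
      refine (hbij (q + 1) 0 (map_zero ht)).1 _ (hrm hθm) ?_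
      rw [← hres, h6, map_zero]
    have h9 : θ = 0 := h.ext h8 h5
    exact (sub_eq_zero.1 h9).symm

end L1

end Gao.CE
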