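import Pool.Agent.Gao.EStep

/-!
# (E1) Degree reduction (Gao project, MP_b139df_co)

`δ : Lam →+ ℤ` a degree with `δ ≥ 0` on `L` and `δ ≤ 0` on `X`.  Then the cochains of weight zero
only see the parts `L0`, `X0` of degree zero: the complexes `HH N W` and `HH N0 W0` are isomorphic.
`i : L0 → L` is a Lie homomorphism with graded linear retraction `π` (which kills the positive
part), `j : X0 → X` has the graded retraction `p`, equivariant for `L0`.
-/

namespace Gao.CE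

open Gao.Fam (homW)

variable {K L L0 X X0 Lam : Type*} [Field K] [CharZero K] [LieRing L] [LieAlgebra K L]
  [LieRing L0] [LieAlgebra K L0] [AddCommGroup Lam]
  [AddCommGroup X] [Module K X] [LieRingModule L X] [LieModule K L X]
  [AddCommGroup X0] [Module K X0] [LieRingModule L0 X0] [LieModule K L0 X0]
  {N : Lam → Submodule K L} {N0 : Lam → Submodule K L0}
  {W : Lam → Submodule K X} {W0 : Lam → Submodule K X0}

/-- the Lie algebra part of the data: `L0` is the degree zero part of `L` -/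
structure RedLie (δ : Lam →+ ℤ) (N : Lam → Submodule K L) (N0 : Lam → Submodule K L0)
    (i : L0 →ₗ⁅K⁆ L) (π : L →ₗ[K] L0) : Prop where
  iW : ∀ lam, ∀ x ∈ N0 lam, i x ∈ N lam
  πW : ∀ lam, ∀ x ∈ N lam, π x ∈ N0 lam
  πi : ∀ y, π (i y) = y
  iπ : ∀ lam, ∀ x ∈ N lam, δ lam = 0 → i (π x) = x
  π0 : ∀ lam, ∀ x ∈ N lam, 0 < δ lam → π x = 0
  neg : ∀ lam, ∀ x ∈ N lam, δ lam < 0 → x = 0

/-- the module part of the data: `X0` is the degree zero part of `X` -/
structure RedMod (δ : Lam →+ ℤ) (i : L0 →ₗ⁅K⁆ L) (W : Lam → Submodule K X)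
    (W0 : Lam → Submodule K X0) (j : X0 →ₗ[K] X) (p : X →ₗ[K] X0) : Prop where
  jW : ∀ mu, ∀ m ∈ W0 mu, j m ∈ W mu
  pW : ∀ mu, ∀ m ∈ W mu, p m ∈ W0 mu
  pj : ∀ m, p (j m) = m
  jp : ∀ mu, ∀ m ∈ W mu, δ mu = 0 → j (p m) = m
  pos : ∀ mu, ∀ m ∈ W mu, 0 < δ mu → m = 0
  pl : ∀ (y : L0) (m : X), p ⁅i y, m⁆ = ⁅y, p m⁆

/-- restriction to `L0` and projection to `X0` -/
noncomputable def redF (i : L0 →ₗ⁅K⁆ L) (p : X →ₗ[K] X0) (q : ℕ) :
    Co K L X q →ₗ[K] Co K L0 X0 q :=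
  post p q ∘ₗ pull (i : L0 →ₗ[K] L) q

/-- extension by zero -/
noncomputable def redR (π : L →ₗ[K] L0) (j : X0 →ₗ[K] X) (q : ℕ) :
    Co K L0 X0 q →ₗ[K] Co K L X q :=
  post j q ∘ₗ pull π q

theorem red_d {i : L0 →ₗ⁅K⁆ L} {p : X →ₗ[K] X0} (pl : ∀ (y : L0) (m : X), p ⁅i y, m⁆ = ⁅y, p m⁆)
    (q : ℕ) (φ : Co K L X q) : redF i p (q + 1) (d q φ) = d q (redF i p q φ) := by
  let _ : LieRingModule L0 X := LieRingModule.compLieHom X i
  have _ : LieModule K L0 X := LieModule.compLieHom X i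
  have h1 : pull (X := X) (i : L0 →ₗ[K] L) (q + 1) (d q φ) = d q (pull (i : L0 →ₗ[K] L) q φ) :=
    d_pull (fun x y => i.map_lie x y) (fun x m => rfl) φ
  change post p (q + 1) (pull (i : L0 →ₗ[K] L) (q + 1) (d q φ)) = d q (post p q _)
  rw [h1]
  exact d_post (fun x m => pl x m) _

/-- **(E1)**: the complexes are isomorphic -/
theorem red_isoCx {δ : Lam →+ ℤ} {i : L0 →ₗ⁅K⁆ L} {π : L →ₗ[K] L0} {j : X0 →ₗ[K] X}
    {p : X →ₗ[K] X0} (hL : RedLie δ N N0 i π) (hX : RedMod δ i W W0 j p) (hN : GrLie N)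
    (hN0 : GrLie N0) (hW : GrMod N W) (hW0 : GrMod N0 W0) :
    IsoCx (HH N W) (HH N0 W0) (fun q => d q) (fun q => d q) (fun q => redF i p q)
      (fun q => redR π j q) where
  cA := isCx hN hW
  cB := isCx hN0 hW0
  fm q φ hφ := post_mem_CW hX.pW (pull_mem_CW hL.iW hφ)
  rm q φ hφ := post_mem_CW hX.jW (pull_mem_CW hL.πW hφ)
  rf q φ hφ := by
    rw [← sub_eq_zero]
    refine Fam.alt_eq_zero (W := N) hN.sup _ (fun mu y hy => ?_)
    rw [AlternatingMap.sub_apply, sub_eq_zero]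
    change j (p (φ (fun k => i (π (y k))))) = φ y
    have h1 := mem_CW_iff.1 hφ mu y hy
    rw [add_zero] at h1
    by_cases h : ∃ k, δ (mu k) < 0
    · obtain ⟨k, hk⟩ := h
      have h2 : y k = 0 := hL.neg _ _ (hy k) hk
      have h3 : i (π (y k)) = 0 := by rw [h2, map_zero, map_zero]
      rw [φ.map_coord_zero k h2, φ.map_coord_zero k h3, map_zero, map_zero]
    · push Not at h
      by_cases h' : ∃ k, 0 < δ (mu k)
      · obtain ⟨k, hk⟩ := h'
        have h3 : i (π (y k)) = 0 := by rw [hL.π0 _ _ (hy k) hk, map_zero]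
        rw [φ.map_coord_zero k h3, map_zero, map_zero]
        refine (hX.pos _ _ h1 ?_).symm
        rw [map_sum]
        exact Finset.sum_pos' (fun k _ => h k) ⟨k, Finset.mem_univ k, hk⟩
      · push Not at h'
        have h4 : ∀ k, δ (mu k) = 0 := fun k => le_antisymm (h' k) (h k)
        have h5 : (fun k => i (π (y k))) = y := by
          funext k
          exact hL.iπ _ _ (hy k) (h4 k)
        rw [h5]
        refine hX.jp _ _ h1 ?_
        rw [map_sum]
        exact Finset.sum_eq_zero (fun k _ => h4 k)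
  fr q ψ _ := by
    ext y
    change p (j (ψ (fun k => π (i (y k))))) = ψ y
    rw [hX.pj]
    congr 1
    funext k
    exact hL.πi (y k)
  fd q φ _ := red_d hX.pl q φ

theorem red_van_iff {δ : Lam →+ ℤ} {i : L0 →ₗ⁅K⁆ L} {π : L →ₗ[K] L0} {j : X0 →ₗ[K] X}
    {p : X →ₗ[K] X0} (hL : RedLie δ N N0 i π) (hX : RedMod δ i W W0 j p) (hN : GrLie N)
    (hN0 : GrLie N0) (hW : GrMod N W) (hW0 : GrMod N0 W0) (q : ℕ) : HV N W q ↔ HV N0 W0 q :=
  (red_isoCx hL hX hN hN0 hW hW0).van_iff q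

theorem red_hh0 [FiniteDimensional K L] [FiniteDimensional K X] {δ : Lam →+ ℤ}
    {i : L0 →ₗ⁅K⁆ L} {π : L →ₗ[K] L0} {j : X0 →ₗ[K] X}
    {p : X →ₗ[K] X0} (hL : RedLie δ N N0 i π) (hX : RedMod δ i W W0 j p) (hN : GrLie N)
    (hN0 : GrLie N0) (hW : GrMod N W) (hW0 : GrMod N0 W0) : hh0 N W = hh0 N0 W0 := by
  have : FiniteDimensional K (Co K L X 0) := Fam.alt_finite
  exact (red_isoCx hL hX hN hN0 hW hW0).h0_eq

/-! ### the version for `Hom(S, F)` -/

section hom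

variable {S S0 F F0 : Type*}
  [AddCommGroup S] [Module K S] [LieRingModule L S] [LieModule K L S]
  [AddCommGroup S0] [Module K S0] [LieRingModule L0 S0] [LieModule K L0 S0]
  [AddCommGroup F] [Module K F] [LieRingModule L F] [LieModule K L F]
  [AddCommGroup F0] [Module K F0] [LieRingModule L0 F0] [LieModule K L0 F0]
  {WS : Lam → Submodule K S} {WS0 : Lam → Submodule K S0} {WF : Lam → Submodule K F}
  {WF0 : Lam → Submodule K F0}

omit [CharZero K] in
/-- `S` has the constant degree `δ = k`, `F` has degrees `≤ k`; `S ≅ K_ka ⊗ S0` and the degree `k`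
part of `F` is `K_ka ⊗ F0` -/
theorem redMod_hom {δ : Lam →+ ℤ} {i : L0 →ₗ⁅K⁆ L} {ka : Lam}
    {a : S0 →ₗ[K] S} {a' : S →ₗ[K] S0} {j : F0 →ₗ[K] F} {p : F →ₗ[K] F0}
    (hsup : ⨆ mu, WS mu = ⊤)
    (aW : ∀ mu, ∀ m ∈ WS0 mu, a m ∈ WS (mu + ka)) (aW' : ∀ mu, ∀ m ∈ WS (mu + ka), a' m ∈ WS0 mu)
    (a'a : ∀ m, a' (a m) = m) (aa' : ∀ m, a (a' m) = m)
    (al : ∀ (y : L0) (m : S0), a ⁅y, m⁆ = ⁅i y, a m⁆)
    (Sdeg : ∀ mu, ∀ m ∈ WS mu, δ mu ≠ δ ka → m = 0)
    (jW : ∀ mu, ∀ m ∈ WF0 mu, j m ∈ WF (mu + ka)) (pW : ∀ mu, ∀ m ∈ WF (mu + ka), p m ∈ WF0 mu)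
    (pj : ∀ m, p (j m) = m) (jp : ∀ mu, ∀ m ∈ WF mu, δ mu = δ ka → j (p m) = m)
    (pos : ∀ mu, ∀ m ∈ WF mu, δ ka < δ mu → m = 0)
    (pl : ∀ (y : L0) (m : F), p ⁅i y, m⁆ = ⁅y, p m⁆) :
    RedMod δ i (homW WS WF) (homW WS0 WF0)
      ((LinearMap.lcomp K F a') ∘ₗ (LinearMap.llcomp K S0 F0 F j))
      ((LinearMap.lcomp K F0 a) ∘ₗ (LinearMap.llcomp K S F F0 p)) where
  jW mu ψ hψ nu m hm := by
    change j (ψ (a' m)) ∈ WF (nu + mu)
    have h1 := jW _ _ (hψ _ _ (aW' (nu - ka) m (by rwa [sub_add_cancel])))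
    have h2 : nu - ka + mu + ka = nu + mu := by abel
    rwa [h2] at h1
  pW mu φ hφ nu m hm := by
    change p (φ (a m)) ∈ WF0 (nu + mu)
    apply pW
    have h1 := hφ _ _ (aW nu m hm)
    have h2 : nu + ka + mu = nu + mu + ka := by abel
    rwa [h2] at h1
  pj ψ := by
    ext m
    change p (j (ψ (a' (a m)))) = ψ m
    rw [pj, a'a]
  jp mu φ hφ hmu := by
    have key : ∀ nu, ∀ m ∈ WS nu, j (p (φ (a (a' m)))) = φ m := by
      intro nu m hm
      rw [aa']
      by_cases h : δ nu = δ ka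
      · refine jp _ _ (hφ nu m hm) ?_
        rw [map_add, hmu, h, add_zero]
      · rw [Sdeg nu m hm h]
        simp only [map_zero]
    have hall : ∀ m : S, m ∈ (⊤ : Submodule K S) → j (p (φ (a (a' m)))) = φ m := by
      intro m hm
      rw [← hsup] at hm
      induction hm using Submodule.iSup_induction' with
      | mem nu m hm => exact key nu m hm
      | zero => simp only [map_zero]
      | add x y _ _ hx hy => simp only [map_add, hx, hy]
    exact LinearMap.ext fun m => hall m trivial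
  pos mu φ hφ hmu := by
    have key : ∀ nu, ∀ m ∈ WS nu, φ m = 0 := by
      intro nu m hm
      by_cases h : δ nu = δ ka
      · refine pos _ _ (hφ nu m hm) ?_
        rw [map_add, h]
        omega
      · rw [Sdeg nu m hm h, map_zero]
    have hall : ∀ m : S, m ∈ (⊤ : Submodule K S) → φ m = 0 := by
      intro m hm
      rw [← hsup] at hm
      induction hm using Submodule.iSup_induction' with
      | mem nu m hm => exact key nu m hm
      | zero => exact map_zero φ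
      | add x y _ _ hx hy => rw [map_add, hx, hy, add_zero]
    exact LinearMap.ext fun m => hall m trivial
  pl y φ := by
    ext m
    change p (⁅i y, φ⁆ (a m)) = ⁅y, p ∘ₗ φ ∘ₗ a⁆ m
    rw [LieHom.lie_apply, LieHom.lie_apply, map_sub, pl, ← al]
    rfl

end hom

end Gao.CE
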