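import Pool.Agent.Gao.CEBase
import Pool.Agent.Gao.CEAbs
import Pool.Agent.Gao.Sl2C

/-!
# Weight parts of the Chevalley–Eilenberg complex (Gao project, MP_b139df_co)

`Lam` a group of weights, `N : Lam → Submodule K L` a grading of `L`, `W : Lam → Submodule K X` a
grading of the `L`-module `X`.
* `CW N W q mu` : the cochains of weight `mu`.
* `HH N W : ∀ q, Submodule K (Co K L X q)` : the subcomplex of weight `0`; so
  `Van (HH N W) d q` means `H^q(b, X) = 0` and `h0 (HH N W) d`, `h1 (HH N W) d` are dimensions.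
* `GSES` : short exact sequences of graded modules (with graded linear splittings);
  `GSES.split` gives the `Split` of `CEAbs` for the complexes.
* `GSES.homLeft`, `GSES.homRight` : `Hom(-, F)` and `Hom(S, -)` of a short exact sequence.
-/

namespace Gao.CE

open Gao.Fam (homW subW)

section

variable {K L L' X Y Lam : Type*} [Field K] [CharZero K] [AddCommGroup L] [Module K L]
  [AddCommGroup L'] [Module K L'] [AddCommGroup X] [Module K X] [AddCommGroup Y] [Module K Y]
  [AddCommGroup Lam]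

/-- cochains of weight `mu` -/
noncomputable def CW (N : Lam → Submodule K L) (W : Lam → Submodule K X) :
    (q : ℕ) → Lam → Submodule K (Co K L X q)
  | 0, mu => (W mu).comap ev0
  | q + 1, mu => ⨅ lam : Lam, ⨅ x : N lam, (CW N W q (mu + lam)).comap (io (x : L))

variable {N : Lam → Submodule K L} {W : Lam → Submodule K X} {N' : Lam → Submodule K L'}
  {W' : Lam → Submodule K Y}

omit [CharZero K] in
lemma mem_CW_zero {mu : Lam} {φ : Co K L X 0} : φ ∈ CW N W 0 mu ↔ ev0 φ ∈ W mu := Iff.rfl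

omit [CharZero K] in
lemma mem_CW_succ {q : ℕ} {mu : Lam} {φ : Co K L X (q + 1)} :
    φ ∈ CW N W (q + 1) mu ↔ ∀ lam, ∀ x ∈ N lam, io x φ ∈ CW N W q (mu + lam) := by
  simp only [CW, Submodule.mem_iInf, Submodule.mem_comap, Subtype.forall]

lemma D_mem_CW {a : L →ₗ[K] L} {b : X →ₗ[K] X} {al : Lam}
    (ha : ∀ lam, ∀ x ∈ N lam, a x ∈ N (lam + al)) (hb : ∀ mu, ∀ m ∈ W mu, b m ∈ W (mu + al)) :
    ∀ {q : ℕ} {mu : Lam} {φ : Co K L X q}, φ ∈ CW N W q mu → D a b q φ ∈ CW N W q (mu + al) := by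
  intro q
  induction q with
  | zero =>
    intro mu φ hφ
    exact hb mu _ hφ
  | succ q ih =>
    intro mu φ hφ
    rw [mem_CW_succ] at hφ ⊢
    intro lam x hx
    rw [io_D]
    apply Submodule.sub_mem
    · have := ih (hφ lam x hx)
      rwa [add_right_comm] at this
    · have := hφ (lam + al) (a x) (ha lam x hx)
      rwa [← add_assoc, add_right_comm] at this

omit [CharZero K] in
lemma post_mem_CW {f : X →ₗ[K] Y} (hf : ∀ mu, ∀ m ∈ W mu, f m ∈ W' mu) :
    ∀ {q : ℕ} {mu : Lam} {φ : Co K L X q}, φ ∈ CW N W q mu → post f q φ ∈ CW N W' q mu := by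
  intro q
  induction q with
  | zero =>
    intro mu φ hφ
    exact hf mu _ hφ
  | succ q ih =>
    intro mu φ hφ
    rw [mem_CW_succ] at hφ ⊢
    intro lam x hx
    rw [io_post]
    exact ih (hφ lam x hx)

omit [CharZero K] in
lemma pull_mem_CW {g : L' →ₗ[K] L} (hg : ∀ lam, ∀ x ∈ N' lam, g x ∈ N lam) :
    ∀ {q : ℕ} {mu : Lam} {φ : Co K L X q}, φ ∈ CW N W q mu → pull g q φ ∈ CW N' W q mu := by
  intro q
  induction q with
  | zero =>
    intro mu φ hφ
    rw [mem_CW_zero, ev0_pull]
    exact hφ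
  | succ q ih =>
    intro mu φ hφ
    rw [mem_CW_succ] at hφ ⊢
    intro lam x hx
    rw [io_pull]
    exact ih (hφ lam _ (hg lam x hx))

omit [CharZero K] [AddCommGroup Lam] in
/-- a cochain is determined by its contractions with homogeneous elements -/
lemma eq_zero_of_io_hom (hN : ⨆ lam, N lam = ⊤) {q : ℕ} {φ : Co K L X (q + 1)}
    (h : ∀ lam, ∀ x ∈ N lam, io x φ = 0) : φ = 0 := by
  apply eq_zero_of_io
  intro x
  have hx : x ∈ ⨆ lam, N lam := by rw [hN]; trivial
  induction hx using Submodule.iSup_induction' with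
  | mem lam x hx => exact h lam x hx
  | zero => exact io_zero_left φ
  | add x y _ _ hx hy => rw [io_add_left, hx, hy, add_zero]

omit [CharZero K] in
/-- values of a cochain of weight `mu` on homogeneous elements -/
lemma mem_CW_iff : ∀ {q : ℕ} {mu : Lam} {φ : Co K L X q}, φ ∈ CW N W q mu ↔
    ∀ (nu : Fin q → Lam) (y : Fin q → L), (∀ i, y i ∈ N (nu i)) →
      φ y ∈ W (∑ i, nu i + mu) := by
  intro q
  induction q with
  | zero =>
    intro mu φ
    rw [mem_CW_zero]
    constructor
    · intro h nu y _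
      have : y = ![] := Subsingleton.elim _ _
      rw [this, Finset.univ_eq_empty, Finset.sum_empty, zero_add]
      exact h
    · intro h
      have := h ![] ![] (fun i => Fin.elim0 i)
      rw [Finset.univ_eq_empty, Finset.sum_empty, zero_add] at this
      exact this
  | succ q ih =>
    intro mu φ
    rw [mem_CW_succ]
    constructor
    · intro h nu y hy
      have h1 := ih.1 (h (nu 0) (y 0) (hy 0)) (fun i => nu i.succ) (fun i => y i.succ)
        (fun i => hy i.succ)
      rw [io_apply] at h1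
      have h2 : Matrix.vecCons (y 0) (fun i => y i.succ) = y := by
        funext i
        refine Fin.cases ?_ (fun j => ?_) i <;> simp
      rw [h2] at h1
      rw [Fin.sum_univ_succ]
      have h3 : ∑ i : Fin q, nu i.succ + (mu + nu 0) = nu 0 + ∑ i : Fin q, nu i.succ + mu := by abel
      rwa [h3] at h1
    · intro h lam x hx
      rw [ih]
      intro nu y hy
      have h1 := h (Fin.cons lam nu) (Matrix.vecCons x y) (by
        intro i
        refine Fin.cases ?_ (fun j => ?_) i
        · simpa using hx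
        · simpa using hy j)
      rw [Fin.sum_univ_succ] at h1
      simp only [Fin.cons_zero, Fin.cons_succ] at h1
      rw [io_apply]
      have h3 : ∑ i : Fin q, nu i + (mu + lam) = lam + ∑ i : Fin q, nu i + mu := by abel
      rwa [h3]

end

section Lie

variable {K L X Y A B C F S Lam : Type*} [Field K] [CharZero K] [LieRing L] [LieAlgebra K L]
  [AddCommGroup X] [Module K X] [LieRingModule L X] [LieModule K L X]
  [AddCommGroup Y] [Module K Y] [LieRingModule L Y] [LieModule K L Y]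
  [AddCommGroup A] [Module K A] [LieRingModule L A] [LieModule K L A]
  [AddCommGroup B] [Module K B] [LieRingModule L B] [LieModule K L B]
  [AddCommGroup C] [Module K C] [LieRingModule L C] [LieModule K L C]
  [AddCommGroup F] [Module K F] [LieRingModule L F] [LieModule K L F]
  [AddCommGroup S] [Module K S] [LieRingModule L S] [LieModule K L S]
  [AddCommGroup Lam]

/-- `N` is a grading of the Lie algebra `L` -/
structure GrLie (N : Lam → Submodule K L) : Prop where
  sup : ⨆ lam, N lam = ⊤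
  lie : ∀ lam mu, ∀ x ∈ N lam, ∀ y ∈ N mu, ⁅x, y⁆ ∈ N (mu + lam)

/-- `W` is a compatible family of subspaces of the module `X` -/
def GrMod (N : Lam → Submodule K L) (W : Lam → Submodule K X) : Prop :=
  ∀ lam mu, ∀ x ∈ N lam, ∀ m ∈ W mu, ⁅x, m⁆ ∈ W (mu + lam)

variable {N : Lam → Submodule K L} {W : Lam → Submodule K X} {W' : Lam → Submodule K Y}
  {WA : Lam → Submodule K A} {WB : Lam → Submodule K B} {WC : Lam → Submodule K C}
  {WF : Lam → Submodule K F} {WS : Lam → Submodule K S}

/-- the shifted grading (twist by a character of the torus) -/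
def shiftW (W : Lam → Submodule K X) (mu : Lam) : Lam → Submodule K X := fun lam => W (lam - mu)

omit [CharZero K] [LieModule K L X] in
lemma GrMod.shift (h : GrMod N W) (mu : Lam) : GrMod N (shiftW W mu) := by
  intro lam nu x hx m hm
  have := h lam (nu - mu) x hx m hm
  have h1 : nu - mu + lam = nu + lam - mu := by abel
  rwa [h1] at this

lemma lie_mem_CW (hN : GrLie N) (hW : GrMod N W) {lam : Lam} {x : L} (hx : x ∈ N lam) {q : ℕ}
    {mu : Lam} {φ : Co K L X q} (hφ : φ ∈ CW N W q mu) : lie x q φ ∈ CW N W q (mu + lam) :=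
  D_mem_CW (fun nu y hy => hN.lie lam nu x hx y hy) (fun nu m hm => hW lam nu x hx m hm) hφ

lemma d_mem_CW (hN : GrLie N) (hW : GrMod N W) : ∀ {q : ℕ}
    {mu : Lam} {φ : Co K L X q}, φ ∈ CW N W q mu → d q φ ∈ CW N W (q + 1) mu := by
  intro q
  induction q with
  | zero =>
    intro mu φ hφ
    rw [mem_CW_succ]
    intro lam x hx
    rw [io_d_zero]
    exact lie_mem_CW hN hW hx hφ
  | succ q ih =>
    intro mu φ hφ
    rw [mem_CW_succ]
    intro lam x hx
    rw [io_d]
    exact Submodule.sub_mem _ (lie_mem_CW hN hW hx hφ) (ih (mem_CW_succ.1 hφ lam x hx))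

/-- the complex of the cochains of weight zero -/
noncomputable def HH (N : Lam → Submodule K L) (W : Lam → Submodule K X) (q : ℕ) :
    Submodule K (Co K L X q) := CW N W q 0

theorem isCx (hN : GrLie N) (hW : GrMod N W) : IsCx (HH N W) (fun q => d q) where
  mem _ _ ha := d_mem_CW hN hW ha
  dd _ a _ := d_d a

/-- degree zero cohomology: the invariants of weight zero -/
lemma mem_H0_iff {φ : Co K L X 0} : φ ∈ H0 (HH N W) (fun q => d q) ↔
    ev0 φ ∈ W 0 ∧ ∀ x : L, ⁅x, ev0 φ⁆ = 0 := by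
  rw [mem_H0]
  refine and_congr mem_CW_zero ?_
  constructor
  · intro h x
    have h1 := io_d_zero x φ
    change d 0 φ = 0 at h
    rw [h, map_zero] at h1
    rw [← ev0_lie, ← h1, map_zero]
  · intro h
    apply eq_zero_of_io
    intro x
    apply ext_ev0
    rw [io_d_zero, ev0_lie, h, map_zero]

/-- the invariants of weight zero as a submodule of `X` -/
def inv0 (W : Lam → Submodule K X) (L : Type*) [LieRing L] [LieAlgebra K L] [LieRingModule L X]
    [LieModule K L X] : Submodule K X where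
  carrier := {m | m ∈ W 0 ∧ ∀ x : L, ⁅x, m⁆ = 0}
  zero_mem' := ⟨Submodule.zero_mem _, fun x => lie_zero x⟩
  add_mem' {a b} ha hb := ⟨Submodule.add_mem _ ha.1 hb.1, fun x => by
    rw [_root_.lie_add, ha.2, hb.2, add_zero]⟩
  smul_mem' c a ha := ⟨Submodule.smul_mem _ c ha.1, fun x => by
    rw [_root_.lie_smul, ha.2, smul_zero]⟩

/-- `h0` is the dimension of the invariants of weight zero -/
theorem h0_eq_finrank_inv0 : h0 (HH N W) (fun q => d q) = Module.finrank K (inv0 W L) := by
  have h1 : H0 (HH N W) (fun q => d q) = (inv0 W L).comap ev0 := by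
    ext φ
    rw [mem_H0_iff]
    rfl
  let e : Co K L X 0 ≃ₗ[K] X := LinearEquiv.ofLinearMap ev0 of0 (by ext; rfl)
    (by ext φ : 1; exact of0_ev0 φ)
  unfold h0
  rw [h1]
  have h2 : (inv0 W L).comap (ev0 (K := K) (L := L)) = (inv0 W L).map (e.symm : X →ₗ[K] Co K L X 0) := by
    rw [Submodule.map_equiv_eq_comap_symm]
    rfl
  rw [h2]
  exact LinearEquiv.finrank_map_eq e.symm _

/-- `Van` in degree zero: there are no invariants -/
theorem van_zero_iff : Van (HH N W) (fun q => d q) 0 ↔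
    ∀ m ∈ W 0, (∀ x : L, ⁅x, m⁆ = 0) → m = 0 := by
  constructor
  · intro h m hm hx
    have h1 : of0 (K := K) (L := L) m ∈ H0 (HH N W) (fun q => d q) := by
      rw [mem_H0_iff]
      exact ⟨hm, hx⟩
    have h2 := h (of0 m) (mem_H0.1 h1).1 (mem_H0.1 h1).2
    rw [← ev0_of0 (K := K) (L := L) m, h2, map_zero]
  · intro h φ hφ hd
    have h1 : φ ∈ H0 (HH N W) (fun q => d q) := mem_H0.2 ⟨hφ, hd⟩
    rw [mem_H0_iff] at h1
    apply ext_ev0
    rw [h _ h1.1 h1.2, map_zero]

/-- a short exact sequence of graded modules, with graded linear splittings -/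
structure GSES (L : Type*) [LieRing L] [LieAlgebra K L] [LieRingModule L A] [LieModule K L A]
    [LieRingModule L B] [LieModule K L B] [LieRingModule L C] [LieModule K L C]
    (WA : Lam → Submodule K A) (WB : Lam → Submodule K B) (WC : Lam → Submodule K C)
    (f : A →ₗ[K] B) (g : B →ₗ[K] C) (r : B →ₗ[K] A) (s : C →ₗ[K] B) : Prop where
  fW : ∀ mu, ∀ m ∈ WA mu, f m ∈ WB mu
  gW : ∀ mu, ∀ m ∈ WB mu, g m ∈ WC mu
  rW : ∀ mu, ∀ m ∈ WB mu, r m ∈ WA mu
  sW : ∀ mu, ∀ m ∈ WC mu, s m ∈ WB mu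
  rf : ∀ a, r (f a) = a
  gs : ∀ c, g (s c) = c
  sum : ∀ b, f (r b) + s (g b) = b
  fl : ∀ (x : L) (a : A), f ⁅x, a⁆ = ⁅x, f a⁆
  gl : ∀ (x : L) (b : B), g ⁅x, b⁆ = ⁅x, g b⁆

variable {f : A →ₗ[K] B} {g : B →ₗ[K] C} {r : B →ₗ[K] A} {s : C →ₗ[K] B}

/-- the long exact sequence of cohomology: see the theorems on `Split` in `CEAbs` -/
theorem GSES.split (h : GSES L WA WB WC f g r s) (hN : GrLie N) (hA : GrMod N WA)
    (hB : GrMod N WB) (hC : GrMod N WC) :
    Split (HH N WA) (HH N WB) (HH N WC) (fun q => d q) (fun q => d q) (fun q => d q)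
      (fun q => post f q) (fun q => post g q) (fun q => post r q) (fun q => post s q) where
  cA := isCx hN hA
  cB := isCx hN hB
  cC := isCx hN hC
  fm _ _ ha := post_mem_CW h.fW ha
  gm _ _ ha := post_mem_CW h.gW ha
  rm _ _ ha := post_mem_CW h.rW ha
  sm _ _ ha := post_mem_CW h.sW ha
  rf q φ := by ext v; exact h.rf _
  gs q φ := by ext v; exact h.gs _
  sum q φ := by ext v; exact h.sum _
  fd q φ := d_post h.fl φ
  gd q φ := d_post h.gl φ

omit [CharZero K] in
/-- an isomorphic family of coefficients -/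
theorem GSES.shift (h : GSES L WA WB WC f g r s) (mu : Lam) :
    GSES L (shiftW WA mu) (shiftW WB mu) (shiftW WC mu) f g r s where
  fW _ _ hm := h.fW _ _ hm
  gW _ _ hm := h.gW _ _ hm
  rW _ _ hm := h.rW _ _ hm
  sW _ _ hm := h.sW _ _ hm
  rf := h.rf
  gs := h.gs
  sum := h.sum
  fl := h.fl
  gl := h.gl

omit [CharZero K] in
lemma GrMod.hom (hS : GrMod N WS) (hF : GrMod N WF) : GrMod N (homW WS WF) := by
  intro lam mu x hx φ hφ nu m hm
  rw [LieHom.lie_apply]
  apply Submodule.sub_mem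
  · have := hF lam _ x hx _ (hφ nu m hm)
    rwa [add_assoc] at this
  · have := hφ _ _ (hS lam nu x hx m hm)
    have h1 : nu + lam + mu = nu + (mu + lam) := by abel
    rwa [h1] at this

omit [CharZero K] in
/-- `0 → Hom(C, F) → Hom(B, F) → Hom(A, F) → 0` -/
theorem GSES.homLeft (h : GSES L WA WB WC f g r s) (WF : Lam → Submodule K F) :
    GSES L (homW WC WF) (homW WB WF) (homW WA WF) (LinearMap.lcomp K F g) (LinearMap.lcomp K F f)
      (LinearMap.lcomp K F s) (LinearMap.lcomp K F r) where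
  fW mu φ hφ nu m hm := hφ nu _ (h.gW nu m hm)
  gW mu φ hφ nu m hm := hφ nu _ (h.fW nu m hm)
  rW mu φ hφ nu m hm := hφ nu _ (h.sW nu m hm)
  sW mu φ hφ nu m hm := hφ nu _ (h.rW nu m hm)
  rf φ := by ext m; exact congrArg φ (h.gs m)
  gs φ := by ext m; exact congrArg φ (h.rf m)
  sum φ := by
    ext m
    change φ (s (g m)) + φ (f (r m)) = φ m
    rw [← map_add, add_comm, h.sum]
  fl x φ := by
    ext m
    change ⁅x, φ⁆ (g m) = ⁅x, φ ∘ₗ g⁆ m
    rw [LieHom.lie_apply, LieHom.lie_apply, LinearMap.comp_apply, LinearMap.comp_apply, h.gl]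
  gl x φ := by
    ext m
    change ⁅x, φ⁆ (f m) = ⁅x, φ ∘ₗ f⁆ m
    rw [LieHom.lie_apply, LieHom.lie_apply, LinearMap.comp_apply, LinearMap.comp_apply, h.fl]

omit [CharZero K] in
/-- `0 → Hom(S, A) → Hom(S, B) → Hom(S, C) → 0` -/
theorem GSES.homRight (h : GSES L WA WB WC f g r s) (WS : Lam → Submodule K S) :
    GSES L (homW WS WA) (homW WS WB) (homW WS WC) (LinearMap.llcomp K S A B f)
      (LinearMap.llcomp K S B C g) (LinearMap.llcomp K S B A r) (LinearMap.llcomp K S C B s) where
  fW mu φ hφ nu m hm := h.fW _ _ (hφ nu m hm)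
  gW mu φ hφ nu m hm := h.gW _ _ (hφ nu m hm)
  rW mu φ hφ nu m hm := h.rW _ _ (hφ nu m hm)
  sW mu φ hφ nu m hm := h.sW _ _ (hφ nu m hm)
  rf φ := by ext m; exact h.rf _
  gs φ := by ext m; exact h.gs _
  sum φ := by ext m; exact h.sum _
  fl x φ := by
    ext m
    change f (⁅x, φ⁆ m) = ⁅x, f ∘ₗ φ⁆ m
    rw [LieHom.lie_apply, LieHom.lie_apply, LinearMap.comp_apply, LinearMap.comp_apply, map_sub,
      h.fl]
  gl x φ := by
    ext m
    change g (⁅x, φ⁆ m) = ⁅x, g ∘ₗ φ⁆ m
    rw [LieHom.lie_apply, LieHom.lie_apply, LinearMap.comp_apply, LinearMap.comp_apply, map_sub,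
      h.gl]

end Lie

end Gao.CE
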