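import Pool.Agent.Gao.Main

/-!
# Inert rows do not change the dimension
-/

set_option autoImplicit false

namespace Gao

open Finset Module Kost

variable {n : ℕ}

namespace InertAux

/-! ### commutation of row operators with creation and annihilation operators -/

theorem rowE_cr (x y z j : Fin n) :
    rowE x y * cr (z, j) = (if x = z then cr (y, j) else 0) + cr (z, j) * rowE x y := by
  unfold rowE
  rw [Finset.sum_mul, Finset.mul_sum]
  simp only [cr_an_cr, Finset.sum_add_distrib]
  congr 1
  by_cases h : x = z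
  · rw [if_pos h, Finset.sum_eq_single j]
    · rw [if_pos (by rw [h])]
    · intro b _ hb
      rw [if_neg (fun h' => hb (congrArg Prod.snd h'))]
    · intro h'
      exact absurd (mem_univ _) h'
  · rw [if_neg h]
    apply Finset.sum_eq_zero
    intro b _
    rw [if_neg (fun h' => h (congrArg Prod.fst h'))]

theorem rowE_an (x y z j : Fin n) :
    rowE x y * an (z, j) = an (z, j) * rowE x y - (if y = z then an (x, j) else 0) := by
  unfold rowE
  rw [Finset.sum_mul, Finset.mul_sum]
  simp only [cr_an_an, Finset.sum_sub_distrib]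
  congr 1
  by_cases h : y = z
  · rw [if_pos h, Finset.sum_eq_single j]
    · rw [if_pos (by rw [h])]
    · intro b _ hb
      rw [if_neg (fun h' => hb (congrArg Prod.snd h'))]
    · intro h'
      exact absurd (mem_univ _) h'
  · rw [if_neg h]
    apply Finset.sum_eq_zero
    intro b _
    rw [if_neg (fun h' => h (congrArg Prod.fst h'))]

/-! ### generated subspaces -/

section gen

variable {K V : Type*} [Field K] [AddCommGroup V] [Module K V]

theorem mem_gen {S : Set (Module.End K V)} {v x : V} :
    x ∈ gen S v ↔ ∃ a ∈ Algebra.adjoin K S, a v = x := by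
  unfold gen
  rw [Submodule.mem_map]
  rfl

theorem adjoin_comm {S : Set (Module.End K V)} {W : Module.End K V} (h : ∀ T ∈ S, T * W = W * T)
    {a : Module.End K V} (ha : a ∈ Algebra.adjoin K S) : a * W = W * a := by
  induction ha using Algebra.adjoin_induction with
  | mem x hx => exact h x hx
  | algebraMap r => exact (Algebra.commutes r W)
  | add x y _ _ hx hy => rw [add_mul, mul_add, hx, hy]
  | mul x y _ _ hx hy => rw [mul_assoc, hy, ← mul_assoc, hx, mul_assoc]

theorem gen_map {S : Set (Module.End K V)} {W : Module.End K V} (h : ∀ T ∈ S, T * W = W * T)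
    (v : V) : gen S (W v) = (gen S v).map W := by
  ext x
  rw [mem_gen, Submodule.mem_map]
  constructor
  · rintro ⟨a, ha, rfl⟩
    refine ⟨a v, mem_gen.2 ⟨a, ha, rfl⟩, ?_⟩
    have h1 := LinearMap.congr_fun (adjoin_comm h ha) v
    exact h1.symm
  · rintro ⟨y, hy, rfl⟩
    obtain ⟨a, ha, rfl⟩ := mem_gen.1 hy
    exact ⟨a, ha, LinearMap.congr_fun (adjoin_comm h ha) v⟩

theorem gen_smul {S : Set (Module.End K V)} {c : K} (hc : c ≠ 0) (v : V) :
    gen S (c • v) = gen S v := by
  ext x
  rw [mem_gen, mem_gen]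
  constructor
  · rintro ⟨a, ha, rfl⟩
    exact ⟨c • a, Subalgebra.smul_mem _ ha c, by rw [LinearMap.smul_apply, map_smul]⟩
  · rintro ⟨a, ha, rfl⟩
    exact ⟨c⁻¹ • a, Subalgebra.smul_mem _ ha _, by
      rw [LinearMap.smul_apply, map_smul, smul_smul, inv_mul_cancel₀ hc, one_smul]⟩

/-- a vector killed by an operator that commutes with the generators -/
theorem gen_kill {S : Set (Module.End K V)} {W : Module.End K V} (h : ∀ T ∈ S, T * W = W * T)
    {v : V} (hv : W v = 0) {x : V} (hx : x ∈ gen S v) : W x = 0 := by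
  obtain ⟨a, ha, rfl⟩ := mem_gen.1 hx
  have h1 := LinearMap.congr_fun (adjoin_comm h ha) v
  have h2 : a (W v) = W (a v) := h1
  rw [← h2, hv, map_zero]

theorem finrank_map_of_injOn {W : Module.End K V} {M : Submodule K V}
    (h : ∀ x ∈ M, W x = 0 → x = 0) : finrank K (M.map W) = finrank K M := by
  have h1 : Function.Injective (W.domRestrict M) := by
    rw [injective_iff_map_eq_zero]
    rintro ⟨x, hx⟩ hW
    exact Subtype.ext (h x hx hW)
  have h2 := LinearMap.finrank_range_of_inj h1
  rw [LinearMap.range_domRestrict] at h2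
  exact h2

end gen

/-! ### products of creation operators -/

/-- product of creation operators -/
noncomputable def crL (L : List (Fin n × Fin n)) : Module.End ℂ (Fk n) := (L.map cr).prod

theorem crL_cons (b : Fin n × Fin n) (L : List (Fin n × Fin n)) : crL (b :: L) = cr b * crL L := rfl

theorem crL_ee (L : List (Fin n × Fin n)) (D : Finset (Fin n × Fin n)) (hL : L.Nodup)
    (hD : ∀ b ∈ L, b ∉ D) : ∃ c : ℂ, c ≠ 0 ∧ crL L (ee D) = c • ee (D ∪ L.toFinset) := by
  induction L with
  | nil => exact ⟨1, one_ne_zero, by simp [crL]⟩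
  | cons b L ih =>
    rw [List.nodup_cons] at hL
    obtain ⟨c, hc, h⟩ := ih hL.2 (fun b' hb' => hD b' (List.mem_cons_of_mem _ hb'))
    have hb : b ∉ D ∪ L.toFinset := by
      rw [mem_union, List.mem_toFinset]
      rintro (h' | h')
      · exact hD b (List.mem_cons_self) h'
      · exact hL.1 h'
    have hs : sgn b (D ∪ L.toFinset) ≠ 0 := by
      intro h0
      have := sgn_mul_self b (D ∪ L.toFinset)
      rw [h0, zero_mul] at this
      exact zero_ne_one this
    refine ⟨c * sgn b (D ∪ L.toFinset), mul_ne_zero hc hs, ?_⟩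
    rw [crL_cons, Module.End.mul_apply, h, map_smul, cr_ee, if_neg hb, smul_smul, List.toFinset_cons,
      union_insert]

theorem an_crL (b : Fin n × Fin n) (L : List (Fin n × Fin n)) (hb : b ∉ L) (x : Fk n)
    (hx : an b x = 0) : an b (crL L x) = 0 := by
  induction L with
  | nil => simpa [crL] using hx
  | cons b' L ih =>
    rw [List.mem_cons, not_or] at hb
    rw [crL_cons, Module.End.mul_apply]
    have h1 := LinearMap.congr_fun (an_cr b b') (crL L x)
    rw [if_neg hb.1, LinearMap.add_apply, Module.End.mul_apply, Module.End.mul_apply, ih hb.2,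
      map_zero, add_zero] at h1
    exact h1

theorem crL_inj (L : List (Fin n × Fin n)) (hL : L.Nodup) (x : Fk n) (hx : ∀ b ∈ L, an b x = 0)
    (h0 : crL L x = 0) : x = 0 := by
  induction L with
  | nil => simpa [crL] using h0
  | cons b L ih =>
    rw [List.nodup_cons] at hL
    apply ih hL.2 (fun b' hb' => hx b' (List.mem_cons_of_mem _ hb'))
    rw [crL_cons, Module.End.mul_apply] at h0
    have h1 := LinearMap.congr_fun (an_cr b b) (crL L x)
    rw [if_pos rfl, LinearMap.add_apply, Module.End.mul_apply, Module.End.mul_apply, h0, map_zero,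
      zero_add, an_crL b L hL.1 x (hx b List.mem_cons_self), map_zero] at h1
    exact h1.symm

theorem rowE_crL (x y : Fin n) (L : List (Fin n × Fin n)) (hL : ∀ b ∈ L, b.1 ≠ x) :
    rowE x y * crL L = crL L * rowE x y := by
  induction L with
  | nil => simp [crL]
  | cons b L ih =>
    have h1 := rowE_cr x y b.1 b.2
    rw [if_neg (fun h => hL b List.mem_cons_self h.symm), zero_add] at h1
    rw [crL_cons, ← mul_assoc, h1, mul_assoc, ih (fun b' hb' => hL b' (List.mem_cons_of_mem _ hb')),
      mul_assoc]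

/-- the boxes of inert rows -/
theorem Dset_union (w : Equiv.Perm (Fin n)) {Q S : Finset (Fin n)} (J : Finset (Fin n))
    (hS : S ⊆ Q) : Dset w Q J = Dset w S J ∪ Dset w (Q \ S) J := by
  ext b
  simp only [Dset, mem_filter, mem_univ, true_and, mem_union, mem_sdiff]
  constructor
  · rintro ⟨h1, h2, h3, h4⟩
    by_cases h : b.1 ∈ S
    · exact Or.inl ⟨h, h2, h3, h4⟩
    · exact Or.inr ⟨⟨h1, h⟩, h2, h3, h4⟩
  · rintro (⟨h1, h2, h3, h4⟩ | ⟨⟨h1, _⟩, h2, h3, h4⟩)
    · exact ⟨hS h1, h2, h3, h4⟩
    · exact ⟨h1, h2, h3, h4⟩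

/-- The module with inert rows is the image of the module without them under multiplication with the
inert rows. -/
theorem Mmod_inert (w : Equiv.Perm (Fin n)) {Q S : Finset (Fin n)} (J : Finset (Fin n))
    (hS : S ⊆ Q) :
    Mmod w Q S J = (Mmod w S S J).map (crL (Dset w (Q \ S) J).toList) := by
  unfold Mmod
  obtain ⟨c, hc, h⟩ := crL_ee (Dset w (Q \ S) J).toList (Dset w S J) (Finset.nodup_toList _) (by
    intro b hb hb'
    rw [Finset.mem_toList, Dset, mem_filter] at hb
    rw [Dset, mem_filter] at hb'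
    exact (mem_sdiff.1 hb.2.1).2 hb'.2.1)
  rw [← gen_map, h, Finset.toList_toFinset, ← Dset_union w J hS, gen_smul hc]
  rintro T ⟨x, hx, y, hy, hxy, rfl⟩
  apply rowE_crL
  intro b hb h'
  rw [Finset.mem_toList, Dset, mem_filter] at hb
  exact (mem_sdiff.1 hb.2.1).2 (h' ▸ hx)

/-- the module has no boxes in the rows outside `S` -/
theorem an_Mmod (w : Equiv.Perm (Fin n)) (S J : Finset (Fin n)) {x : Fk n} (hx : x ∈ Mmod w S S J)
    (z j : Fin n) (hz : z ∉ S) : an (z, j) x = 0 := by
  refine gen_kill ?_ ?_ hx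
  · rintro T ⟨x, hx, y, hy, hxy, rfl⟩
    have h1 : y ≠ z := fun h => hz (h ▸ hy)
    rw [rowE_an, if_neg h1, sub_zero]
  · rw [an_ee, if_neg]
    intro h
    rw [Dset, mem_filter] at h
    exact hz h.2.1

end InertAux

open InertAux in
/-- inert rows do not change the dimension -/
theorem inertP : InertP := by
  intro n w Q S J hS
  rw [Mmod_inert w J hS]
  apply finrank_map_of_injOn
  intro x hx h0
  apply crL_inj _ (Finset.nodup_toList _) x _ h0
  intro b hb
  rw [Finset.mem_toList, Dset, mem_filter] at hb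
  exact an_Mmod w S J hx b.1 b.2 (mem_sdiff.1 hb.2.1).2

end Gao
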