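import Pool.Agent.Gao.GenLem
import Pool.Agent.Gao.Inert

/-!
# Gao project (MP_b139df_co): A-side inputs of Theorem E

* `mdim_last` (m1): the smallest letter `s ∈ A` stands at the last position of `J`.
* `Mmod_insert_small`, `mdim_insert_small`, `mdim_eq_zero` (m4): `s ∉ A`.
-/

namespace Gao

open Finset Module

noncomputable section

variable {n : ℕ}

/-! ### row operators -/

lemma rowE_comm (x y z u : Fin n) :
    rowE x y * rowE z u - rowE z u * rowE x y =
      (if x = u then rowE z y else 0) - (if y = z then rowE x u else 0) := by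
  have h1 : rowE x y * rowE z u - rowE z u * rowE x y = ∑ j : Fin n, ∑ l : Fin n,
      ((if (x, j) = (u, l) then Kost.cr (y, j) * Kost.an (z, l) else 0) -
        (if (y, j) = (z, l) then Kost.cr (u, l) * Kost.an (x, j) else 0)) := by
    unfold rowE
    rw [Finset.sum_mul_sum, Finset.sum_mul_sum]
    conv_lhs =>
      rhs
      rw [Finset.sum_comm]
    rw [← Finset.sum_sub_distrib]
    refine Finset.sum_congr rfl fun x _ => ?_
    rw [← Finset.sum_sub_distrib]
    refine Finset.sum_congr rfl fun y _ => ?_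
    exact bil_comm _ _ _ _
  rw [h1]
  simp only [Finset.sum_sub_distrib, Prod.mk.injEq]
  congr 1
  · by_cases h : x = u
    · simp only [h, true_and, if_true]
      unfold rowE
      refine Finset.sum_congr rfl fun x _ => ?_
      rw [Finset.sum_ite_eq]
      simp
    · simp [h]
  · by_cases h : y = z
    · simp only [h, true_and, if_true]
      unfold rowE
      refine Finset.sum_congr rfl fun x _ => ?_
      rw [Finset.sum_ite_eq]
      simp
    · simp [h]

/-- `rowE x y` has row degree `ε_y - ε_x` -/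
lemma hom_rowE_row (x y : Fin n) :
    Hom (rowGr n) (rowE x y) (Pi.single y 1 - Pi.single x 1) := by
  unfold rowE
  apply Hom.sum'
  intro j _
  have h := (hom_cr_row (y, j)).mul' (hom_an_row (x, j))
  have e : (-Pi.single (x, j).1 1 + Pi.single (y, j).1 1 : Fin n → ℤ) =
      Pi.single y 1 - Pi.single x 1 := by
    simp only []
    abel
  rw [e] at h
  exact h

/-- a coarser grading -/
lemma W_le_comp {B Λ Λ' : Type*} [Fintype B] [DecidableEq B] [DecidableEq Λ] [DecidableEq Λ']
    (deg : Finset B → Λ) (φ : Λ → Λ') (a : Λ) :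
    (degGr deg).W a ≤ (degGr (fun D => φ (deg D))).W (φ a) := by
  intro x hx
  rw [Grading.mem_W] at hx ⊢
  have key : (degGr (fun D => φ (deg D))).π (φ a) * (degGr deg).π a = (degGr deg).π a := by
    refine Kost.end_ext fun D => ?_
    rw [Module.End.mul_apply, degGr_π]
    by_cases h : deg D = a
    · rw [if_pos h, degGr_π, if_pos (by rw [h])]
    · rw [if_neg h, map_zero]
  have h2 := LinearMap.congr_fun key x
  rw [Module.End.mul_apply, hx] at h2
  exact h2

lemma Hom.comp' {B Λ Λ' : Type*} [Fintype B] [DecidableEq B] [DecidableEq Λ] [DecidableEq Λ']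
    [AddCommGroup Λ] [AddCommGroup Λ'] {deg : Finset B → Λ} {T : Module.End ℂ (Kost.Fock B)} {β : Λ}
    (h : Hom (degGr deg) T β) (φ : Λ →+ Λ') :
    Hom (degGr (fun D => φ (deg D))) T (φ β) := by
  apply hom_of_ee
  intro D
  have h1 := W_le_comp deg φ _ (h.mem (ee_mem_W deg D))
  rw [map_add] at h1
  exact h1

/-- the grading by the content of the row `s` -/
def sGr (s : Fin n) : Grading ℂ (Fk n) ℤ := degGr (fun D => rowCnt D s)

lemma hom_rowE_s (s x y : Fin n) :
    Hom (sGr s) (rowE x y) ((Pi.single y 1 - Pi.single x 1 : Fin n → ℤ) s) :=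
  (hom_rowE_row x y).comp' (Pi.evalAddMonoidHom (fun _ : Fin n => ℤ) s)

lemma hom_rowE_s_of_ne {s x y : Fin n} (hx : x ≠ s) (hy : y ≠ s) : Hom (sGr s) (rowE x y) 0 := by
  have h := hom_rowE_s s x y
  rw [Pi.sub_apply, Pi.single_eq_of_ne hy.symm, Pi.single_eq_of_ne hx.symm, sub_zero] at h
  exact h

lemma hom_rowE_s_to {s x : Fin n} (hx : x ≠ s) : Hom (sGr s) (rowE x s) 1 := by
  have h := hom_rowE_s s x s
  rw [Pi.sub_apply, Pi.single_eq_same, Pi.single_eq_of_ne hx.symm, sub_zero] at h
  exact h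

lemma hom_rowE_s_from {s y : Fin n} (hy : y ≠ s) : Hom (sGr s) (rowE s y) (-1) := by
  have h := hom_rowE_s s s y
  rw [Pi.sub_apply, Pi.single_eq_same, Pi.single_eq_of_ne hy.symm, zero_sub] at h
  exact h

lemma rowCnt_nonneg (D : Finset (Fin n × Fin n)) (x : Fin n) : 0 ≤ rowCnt D x := by
  unfold rowCnt; exact Int.natCast_nonneg _

lemma sGr_neg (s : Fin n) {k : ℤ} (hk : k < 0) : (sGr s).π k = 0 := by
  refine Kost.end_ext fun D => ?_
  rw [sGr, degGr_π, if_neg, LinearMap.zero_apply]
  intro h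
  have := rowCnt_nonneg D s
  omega

/-- the projection to the row content `ν` factors through the projection to `ν s` -/
lemma rowGr_mul_sGr (s : Fin n) (ν : Fin n → ℤ) :
    (rowGr n).π ν * (sGr s).π (ν s) = (rowGr n).π ν := by
  refine Kost.end_ext fun D => ?_
  rw [Module.End.mul_apply, sGr, degGr_π, rowGr, degGr_π]
  by_cases h : rowCnt D = ν
  · rw [if_pos (by rw [h]), degGr_π]
  · rw [if_neg h]
    split_ifs with h2
    · rw [degGr_π, if_neg h]
    · rw [map_zero]

lemma gen_row_stable_row (w : Equiv.Perm (Fin n)) (S : Finset (Fin n))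
    (D : Finset (Fin n × Fin n)) : (rowGr n).Stable (gen (rowOps w S) (Kost.ee D)) :=
  gen_graded (ee_mem_W rowCnt D) (by
    rintro T ⟨x, _, y, _, _, rfl⟩
    exact ⟨_, hom_rowE_row x y⟩)

/-! ### (m4): a letter that has no boxes -/

lemma Dset_insert_small {w : Equiv.Perm (Fin n)} {A J : Finset (Fin n)} {s : Fin n}
    (hs : ∀ j ∈ J, s ≤ w j) : Dset w (insert s A) J = Dset w A J := by
  ext b
  rw [mem_Dset, mem_Dset, mem_insert]
  constructor
  · rintro ⟨h1, h2, h3, h4⟩
    rcases h1 with h1 | h1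
    · exact absurd (hs _ h2) (not_le_of_gt (h1 ▸ h4))
    · exact ⟨h1, h2, h3, h4⟩
  · rintro ⟨h1, h2, h3, h4⟩
    exact ⟨Or.inr h1, h2, h3, h4⟩

/-- if `s ∉ A`, the row `s` is empty in `M(w; A, J)` -/
lemma Mmod_le_sGr {w : Equiv.Perm (Fin n)} {A J : Finset (Fin n)} {s : Fin n} (hsA : s ∉ A) :
    Mmod w A A J ≤ (sGr s).W 0 := by
  apply gen_le
  · have h0 : rowCnt (Dset w A J) s = 0 := by
      unfold rowCnt
      rw [Nat.cast_eq_zero, Finset.card_eq_zero, Finset.filter_eq_empty_iff]
      intro b hb h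
      exact hsA (h ▸ (mem_Dset.1 hb).1)
    exact ee_mem_W' (deg := fun D => rowCnt D s) h0
  · rintro T ⟨x, hx, y, hy, _, rfl⟩ z hz
    have h := (hom_rowE_s_of_ne (s := s) (x := x) (y := y) (fun h => hsA (h ▸ hx))
      (fun h => hsA (h ▸ hy))).mem hz
    rw [add_zero] at h
    exact h

/-- the auxiliary subspaces of the proof of (m4) -/
def lvl (w : Equiv.Perm (Fin n)) (A J : Finset (Fin n)) (s : Fin n) : ℕ → Submodule ℂ (Fk n)
  | 0 => Mmod w A A J
  | (k + 1) => (sGr s).W (k + 1 : ℤ) ⊓
      ⨅ c ∈ A.filter (fun c => w.symm c < w.symm s), (lvl w A J s k).comap (rowE s c)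

lemma mem_lvl_succ {w : Equiv.Perm (Fin n)} {A J : Finset (Fin n)} {s : Fin n} {k : ℕ} {x : Fk n} :
    x ∈ lvl w A J s (k + 1) ↔ x ∈ (sGr s).W (k + 1 : ℤ) ∧
      ∀ c ∈ A, w.symm c < w.symm s → rowE s c x ∈ lvl w A J s k := by
  rw [lvl, Submodule.mem_inf]
  simp only [Submodule.mem_iInf, Submodule.mem_comap, mem_filter, and_imp]

lemma lvl_le_W {w : Equiv.Perm (Fin n)} {A J : Finset (Fin n)} {s : Fin n} (hsA : s ∉ A) (k : ℕ) :
    lvl w A J s k ≤ (sGr s).W (k : ℤ) := by
  cases k with
  | zero => exact Mmod_le_sGr hsA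
  | succ k =>
    intro x hx
    rw [mem_lvl_succ] at hx
    push_cast
    exact hx.1

lemma lvl_row {w : Equiv.Perm (Fin n)} {A J : Finset (Fin n)} {s : Fin n} (hsA : s ∉ A) {b b' : Fin n}
    (hb : b ∈ A) (hb' : b' ∈ A) (h : w.symm b' < w.symm b) (k : ℕ) :
    ∀ x ∈ lvl w A J s k, rowE b b' x ∈ lvl w A J s k := by
  have hbs : b ≠ s := fun h => hsA (h ▸ hb)
  have hbs' : b' ≠ s := fun h => hsA (h ▸ hb')
  induction k with
  | zero =>
    intro x hx
    exact gen_stable (S := rowOps w A) ⟨b, hb, b', hb', h, rfl⟩ hx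
  | succ k ih =>
    intro x hx
    rw [mem_lvl_succ] at hx ⊢
    constructor
    · have h1 := (hom_rowE_s_of_ne hbs hbs').mem hx.1
      rw [add_zero] at h1
      exact h1
    · intro c hc hcs
      have h1 := LinearMap.congr_fun (rowE_comm s c b b') x
      rw [if_neg (fun h => hbs' h.symm), zero_sub] at h1
      simp only [LinearMap.sub_apply, Module.End.mul_apply, LinearMap.neg_apply] at h1
      rw [sub_eq_iff_eq_add] at h1
      rw [h1]
      apply Submodule.add_mem
      · apply Submodule.neg_mem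
        split_ifs with h2
        · exact hx.2 b' hb' (h.trans (h2 ▸ hcs))
        · exact Submodule.zero_mem _
      · exact ih _ (hx.2 c hc hcs)

lemma lvl_up {w : Equiv.Perm (Fin n)} {A J : Finset (Fin n)} {s : Fin n} (hsA : s ∉ A) {a : Fin n}
    (ha : a ∈ A) (has : w.symm s < w.symm a) (k : ℕ) :
    ∀ x ∈ lvl w A J s k, rowE a s x ∈ lvl w A J s (k + 1) := by
  have has' : a ≠ s := fun h => hsA (h ▸ ha)
  induction k with
  | zero =>
    intro x hx
    rw [mem_lvl_succ]
    have hx0 := lvl_le_W hsA 0 hx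
    constructor
    · have h1 := (hom_rowE_s_to has').mem hx0
      exact_mod_cast h1
    · intro c hc hcs
      have h1 := LinearMap.congr_fun (rowE_comm s c a s) x
      have hca : c ≠ a := fun h => absurd (hcs.trans (h ▸ has)) (lt_irrefl _)
      rw [if_pos rfl, if_neg hca, sub_zero] at h1
      simp only [LinearMap.sub_apply, Module.End.mul_apply] at h1
      have hcs' : c ≠ s := fun h => hsA (h ▸ hc)
      have h2 : rowE s c x = 0 := by
        have h3 := (hom_rowE_s_from hcs').mem hx0
        rw [Grading.mem_W, sGr_neg s (by norm_num), LinearMap.zero_apply] at h3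
        exact h3.symm
      rw [h2, map_zero, sub_zero] at h1
      rw [h1]
      exact gen_stable (S := rowOps w A) ⟨a, ha, c, hc, hcs.trans has, rfl⟩ hx
  | succ k ih =>
    intro x hx
    rw [mem_lvl_succ]
    have hx0 := lvl_le_W hsA _ hx
    constructor
    · have h1 := (hom_rowE_s_to has').mem hx0
      push_cast at h1 ⊢
      exact h1
    · intro c hc hcs
      have h1 := LinearMap.congr_fun (rowE_comm s c a s) x
      have hca : c ≠ a := fun h => absurd (hcs.trans (h ▸ has)) (lt_irrefl _)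
      rw [if_pos rfl, if_neg hca, sub_zero] at h1
      simp only [LinearMap.sub_apply, Module.End.mul_apply] at h1
      rw [sub_eq_iff_eq_add] at h1
      rw [h1]
      apply Submodule.add_mem
      · exact lvl_row hsA ha hc (hcs.trans has) _ x hx
      · exact ih _ ((mem_lvl_succ.1 hx).2 c hc hcs)

lemma Mmod_insert_le {w : Equiv.Perm (Fin n)} {A J : Finset (Fin n)} {s : Fin n} (hsA : s ∉ A)
    (hs : ∀ j ∈ J, s ≤ w j) : ∀ x ∈ Mmod w (insert s A) (insert s A) J, ∀ k : ℕ,
      (sGr s).π (k : ℤ) x ∈ lvl w A J s k := by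
  apply gen_induction
  · intro k; rw [map_zero]; exact Submodule.zero_mem _
  · intro x y hx hy k; rw [map_add]; exact Submodule.add_mem _ (hx k) (hy k)
  · intro c x hx k; rw [map_smul]; exact Submodule.smul_mem _ _ (hx k)
  · intro k
    rw [Dset_insert_small hs]
    have h0 : Kost.ee (Dset w A J) ∈ Mmod w A A J := self_mem_gen _ _
    cases k with
    | zero =>
      rw [Nat.cast_zero, Grading.π_of_mem _ (Mmod_le_sGr hsA h0)]
      exact h0
    | succ k =>
      rw [Grading.π_of_mem_ne _ (Mmod_le_sGr hsA h0)]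
      · exact Submodule.zero_mem _
      · push_cast
        omega
  · rintro T ⟨x, hx, y, hy, hyx, rfl⟩ z _ hz k
    rw [mem_insert] at hx hy
    rcases hx with hx | hx
    · rcases hy with hy | hy
      · rw [hx, hy] at hyx
        exact absurd hyx (lt_irrefl _)
      · subst hx
        have hys : y ≠ x := fun h => hsA (h ▸ hy)
        have h1 := LinearMap.congr_fun (hom_rowE_s_from hys ((k : ℤ) + 1)) z
        rw [Module.End.mul_apply, Module.End.mul_apply] at h1
        have e : (k : ℤ) + 1 + -1 = k := by ring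
        rw [e] at h1
        rw [← h1]
        have h2 := hz (k + 1)
        rw [mem_lvl_succ] at h2
        have h3 := h2.2 y hy hyx
        push_cast at h3
        exact h3
    · have hxs : x ≠ s := fun h => hsA (h ▸ hx)
      rcases hy with hy | hy
      · subst hy
        have h1 := LinearMap.congr_fun (hom_rowE_s_to hxs ((k : ℤ) - 1)) z
        rw [Module.End.mul_apply, Module.End.mul_apply, sub_add_cancel] at h1
        rw [← h1]
        cases k with
        | zero =>
          rw [sGr_neg y (by norm_num), LinearMap.zero_apply, map_zero]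
          exact Submodule.zero_mem _
        | succ k =>
          have e : ((k + 1 : ℕ) : ℤ) - 1 = k := by push_cast; ring
          rw [e]
          exact lvl_up hsA hx hyx k _ (hz k)
      · have hys : y ≠ s := fun h => hsA (h ▸ hy)
        have h1 := LinearMap.congr_fun (hom_rowE_s_of_ne hxs hys (k : ℤ)) z
        rw [Module.End.mul_apply, Module.End.mul_apply, add_zero] at h1
        rw [← h1]
        exact lvl_row hsA hx hy hyx k _ (hz k)

lemma Mmod_le_insert {w : Equiv.Perm (Fin n)} {A J : Finset (Fin n)} {s : Fin n}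
    (hs : ∀ j ∈ J, s ≤ w j) : Mmod w A A J ≤ Mmod w (insert s A) (insert s A) J := by
  unfold Mmod
  rw [Dset_insert_small hs]
  apply gen_le (self_mem_gen _ _)
  rintro T ⟨x, hx, y, hy, hyx, rfl⟩ z hz
  exact gen_stable (S := rowOps w (insert s A))
    ⟨x, mem_insert_of_mem hx, y, mem_insert_of_mem hy, hyx, rfl⟩ hz

/-- (m4): the part of `M(w; A + s, J)` with empty row `s` is `M(w; A, J)`, if `s ∉ A` is not larger
than the letters of `J` -/
theorem Mmod_insert_small {w : Equiv.Perm (Fin n)} {A J : Finset (Fin n)} {s : Fin n} (hsA : s ∉ A)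
    (hs : ∀ j ∈ J, s ≤ w j) {ν : Fin n → ℤ} (hν : ν s = 0) :
    (Mmod w (insert s A) (insert s A) J).map ((rowGr n).π ν) =
      (Mmod w A A J).map ((rowGr n).π ν) := by
  apply le_antisymm
  · rintro _ ⟨x, hx, rfl⟩
    have h1 := Mmod_insert_le hsA hs x hx 0
    rw [Nat.cast_zero] at h1
    refine ⟨(sGr s).π 0 x, h1, ?_⟩
    have h2 := LinearMap.congr_fun (rowGr_mul_sGr s ν) x
    rw [hν] at h2
    exact h2
  · exact Submodule.map_mono (Mmod_le_insert hs)

theorem mdim_insert_small {w : Equiv.Perm (Fin n)} {A J : Finset (Fin n)} {s : Fin n} (hsA : s ∉ A)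
    (hs : ∀ j ∈ J, s ≤ w j) {ν : Fin n → ℤ} (hν : ν s = 0) :
    mdim w (insert s A) J ν = mdim w A J ν := by
  unfold mdim
  rw [Mmod_insert_small hsA hs hν]

/-- a row outside `A` is empty -/
theorem mdim_eq_zero {w : Equiv.Perm (Fin n)} {A J : Finset (Fin n)} {s : Fin n} (hsA : s ∉ A)
    {ν : Fin n → ℤ} (hν : ν s ≠ 0) : mdim w A J ν = 0 := by
  unfold mdim
  have h : (Mmod w A A J).map ((rowGr n).π ν) = ⊥ := by
    rw [eq_bot_iff]
    rintro _ ⟨x, hx, rfl⟩
    have h1 := LinearMap.congr_fun (rowGr_mul_sGr s ν) x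
    rw [Module.End.mul_apply, Grading.π_of_mem_ne _ (Mmod_le_sGr hsA hx) hν, map_zero] at h1
    rw [Submodule.mem_bot]
    exact h1.symm
  rw [h, finrank_bot]

end

end Gao
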