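import Pool.Agent.Gao.CharJ
import Pool.Agent.Gao.MSide

/-!
# The A-side character identity (m2)

`w` a word, `c < c'` consecutive elements of `J`, `s = w c` the smallest letter at the positions `J`,
`b = w c'`, `s, b ∈ A`, `w' = w * swap c c'`.

`mdim_swap`: `mdim w' A J ν + mdim w A J (ν - ε_s) = mdim w' A J (ν ∘ swap s b) + mdim w A J (ν - ε_b)`.
-/

set_option autoImplicit false

namespace Gao

open Finset Module Pool.Agent.Gao

noncomputable section

variable {n : ℕ}

/-- the letter at the `i`-th position of `T` -/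
def gT (w : Equiv.Perm (Fin n)) (T : Finset (Fin n)) (i : Fin T.card) : Fin n :=
  w (T.orderEmbOfFin rfl i)

lemma gA_eq_gT (w : Equiv.Perm (Fin n)) (A : Finset (Fin n)) : gA w A = gT w (posS w A) := rfl

lemma mem_posS {w : Equiv.Perm (Fin n)} {A : Finset (Fin n)} {j : Fin n} :
    j ∈ posS w A ↔ w j ∈ A := by
  unfold posS
  rw [Finset.mem_map]
  constructor
  · rintro ⟨x, hx, rfl⟩
    simpa using hx
  · intro h
    exact ⟨w j, h, by simp⟩

lemma gA_mem (w : Equiv.Perm (Fin n)) (A : Finset (Fin n)) (i : Fin (posS w A).card) :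
    gA w A i ∈ A := by
  have h : (posS w A).orderEmbOfFin rfl i ∈ posS w A := Finset.orderEmbOfFin_mem _ _ _
  exact mem_posS.1 h

lemma gA_surj (w : Equiv.Perm (Fin n)) (A : Finset (Fin n)) {x : Fin n} (hx : x ∈ A) :
    ∃ i, gA w A i = x := by
  have h1 : w.symm x ∈ Set.range ((posS w A).orderEmbOfFin rfl) := by
    rw [Finset.range_orderEmbOfFin]
    exact mem_posS.2 (by simpa using hx)
  obtain ⟨i, hi⟩ := h1
  exact ⟨i, by unfold gA; rw [hi]; simp⟩

lemma dataA_deg (w : Equiv.Perm (Fin n)) (A : Finset (Fin n)) (D : Finset (Fin n × Fin n))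
    (i : Fin (posS w A).card) : (dataA w A A).deg D i = rowCnt D (gA w A i) := by
  unfold SlotData.deg rowCnt
  congr 1
  apply Finset.card_bij (fun y _ => (gA w A i, w.symm y))
  · intro x hx
    rw [mem_filter] at hx ⊢
    exact ⟨hx.2, rfl⟩
  · intro x _ y _ h
    exact w.symm.injective (Prod.mk.inj h).2
  · rintro ⟨x, j⟩ hx
    rw [mem_filter] at hx
    obtain ⟨h1, h2⟩ := hx
    subst h2
    refine ⟨w j, mem_filter.2 ⟨mem_univ _, ?_⟩, ?_⟩
    · change (gA w A i, w.symm (w j)) ∈ D
      rw [Equiv.symm_apply_apply]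
      exact h1
    · rw [Equiv.symm_apply_apply]

/-- the two gradings agree on the vectors whose boxes have their rows in `A` -/
lemma row_π_eq (w : Equiv.Perm (Fin n)) (A : Finset (Fin n)) {E : Finset (Fin n × Fin n)}
    (hE : ∀ b ∈ E, b.1 ∈ A) (ν : Fin n → ℤ) {z : Fk n} (hz : z ∈ Fall E) :
    (rowGr n).π ν z =
      if ∀ x, x ∉ A → ν x = 0 then (fockRep (dataA w A A)).π (ν ∘ gA w A) z else 0 := by
  have key : ∀ D : Finset (Fin n × Fin n), D ⊆ E → (rowGr n).π ν (Kost.ee D) =
      if ∀ x, x ∉ A → ν x = 0 then (fockRep (dataA w A A)).π (ν ∘ gA w A) (Kost.ee D) else 0 := by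
    intro D hD
    have h0 : ∀ x, x ∉ A → rowCnt D x = 0 := by
      intro x hx
      unfold rowCnt
      rw [Finset.filter_eq_empty_iff.2]
      · rfl
      · intro b hb hbx
        exact hx (hbx ▸ hE b (hD hb))
    have e1 : (rowGr n).π ν (Kost.ee D) = if rowCnt D = ν then Kost.ee D else 0 := dia_ee _ _
    have e2 : (fockRep (dataA w A A)).π (ν ∘ gA w A) (Kost.ee D) =
        if (dataA w A A).deg D = ν ∘ gA w A then Kost.ee D else 0 := dia_ee _ _
    rw [e1, e2]
    by_cases ha : ∀ x, x ∉ A → ν x = 0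
    · rw [if_pos ha]
      congr 1
      apply propext
      constructor
      · rintro rfl
        funext i
        exact dataA_deg w A D i
      · intro h
        funext x
        by_cases hx : x ∈ A
        · obtain ⟨i, rfl⟩ := gA_surj w A hx
          rw [← dataA_deg, h]
          rfl
        · rw [h0 x hx, ha x hx]
    · rw [if_neg ha, if_neg]
      rintro rfl
      exact ha h0
  by_cases ha : ∀ x, x ∉ A → ν x = 0
  · rw [if_pos ha]
    have : Fall E ≤ LinearMap.ker ((rowGr n).π ν - (fockRep (dataA w A A)).π (ν ∘ gA w A)) := by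
      unfold Fall
      rw [Submodule.span_le]
      rintro _ ⟨D, hD, rfl⟩
      change ((rowGr n).π ν - (fockRep (dataA w A A)).π (ν ∘ gA w A)) (Kost.ee D) = 0
      rw [LinearMap.sub_apply, key D hD, if_pos ha, sub_self]
    exact sub_eq_zero.1 (this hz)
  · rw [if_neg ha]
    have : Fall E ≤ LinearMap.ker ((rowGr n).π ν) := by
      unfold Fall
      rw [Submodule.span_le]
      rintro _ ⟨D, hD, rfl⟩
      change (rowGr n).π ν (Kost.ee D) = 0
      rw [key D hD, if_neg ha]
    exact this hz

/-- `rowE x y` preserves `Fall E` if every column of `E` containing the row `x` contains `y` -/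
lemma rowE_mem_Fall {E : Finset (Fin n × Fin n)} {x y : Fin n}
    (h : ∀ j, (x, j) ∈ E → (y, j) ∈ E) {v : Fk n} (hv : v ∈ Fall E) : rowE x y v ∈ Fall E := by
  apply map_mem_of_Fall _ hv
  intro D hD
  unfold rowE
  rw [LinearMap.sum_apply]
  apply Submodule.sum_mem
  intro j _
  rw [Module.End.mul_apply, Kost.an_ee]
  split_ifs with h1
  · rw [map_smul, Kost.cr_ee]
    apply Submodule.smul_mem
    split_ifs with h2
    · exact Submodule.zero_mem _
    · apply Submodule.smul_mem
      apply ee_mem_Fall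
      intro b hb
      rw [Finset.mem_insert] at hb
      rcases hb with rfl | hb
      · exact h j (hD h1)
      · exact hD (Finset.mem_of_mem_erase hb)
  · rw [map_zero]; exact Submodule.zero_mem _

lemma Mmod_le_Fall (w : Equiv.Perm (Fin n)) (A J : Finset (Fin n)) :
    Mmod w A A J ≤ Fall (univ.filter (fun b : Fin n × Fin n => b.1 ∈ A)) := by
  unfold Mmod
  apply gen_le
  · apply ee_mem_Fall
    intro b hb
    rw [mem_Dset] at hb
    exact mem_filter.2 ⟨mem_univ _, hb.1⟩
  · rintro T ⟨x, hx, y, hy, _, rfl⟩ z hz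
    apply rowE_mem_Fall _ hz
    intro j _
    exact mem_filter.2 ⟨mem_univ _, hy⟩

/-- the character of `Mmod w A A J` -/
def chA (w : Equiv.Perm (Fin n)) (A J : Finset (Fin n)) : Pol :=
  chi vA (fun x => decide (x ∈ A)) (fun p => decide (p ∈ (univ : Finset (Fin n)))) (LA w J)

theorem toPol_Mmod {w : Equiv.Perm (Fin n)} {A J : Finset (Fin n)}
    (hA : ∀ x ∈ A, w.symm x ∈ J) :
    toPol ((fockRep (dataA w A A)).ch (Mmod w A A J)) = chA w A J := by
  have h1 := run_progA w A A J univ (Finset.Subset.refl A) (symm_mem_map hA)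
  rw [Finset.filter_true_of_mem (fun j _ => mem_univ (w j))] at h1
  have h2 := toPol_fock_run (dataA w A A) (univ : Finset (Fin n)) vA (fun x => decide (x ∈ A))
    (LA w J) (LA_nodup w J) (fun _ _ _ _ h => vA_inj h) (by
      rw [List.countP_eq_length_filter]
      have h3 : ((LA w J).filter (fun x => decide (x ∈ A))).Nodup := (LA_nodup w J).filter _
      rw [← List.toFinset_card_of_nodup h3]
      have h4 : (posS w A).card = A.card := Finset.card_map _
      rw [h4]
      apply Finset.card_le_card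
      intro x hx
      rw [List.mem_toFinset, List.mem_filter] at hx
      simpa using hx.2)
  unfold progA at h1
  rw [h1] at h2
  exact h2

lemma cf_chA {w : Equiv.Perm (Fin n)} {A J : Finset (Fin n)} (hA : ∀ x ∈ A, w.symm x ∈ J)
    {T : Finset (Fin n)} (hT : T = posS w A) :
    NNF (cf T.card (chA w A J)) ∧ toPol (cf T.card (chA w A J)) = chA w A J := by
  subst hT
  rw [← toPol_Mmod hA, ((fockRep (dataA w A A)).ch_NNF _).cf_toPol]
  exact ⟨(fockRep (dataA w A A)).ch_NNF _, rfl⟩

theorem mdim_eq {w : Equiv.Perm (Fin n)} {A J : Finset (Fin n)} (hA : ∀ x ∈ A, w.symm x ∈ J)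
    {T : Finset (Fin n)} (hT : T = posS w A) (ν : Fin n → ℤ) :
    (mdim w A J ν : ℤ) =
      if ∀ x, x ∉ A → ν x = 0 then cf T.card (chA w A J) (ν ∘ gT w T) else 0 := by
  subst hT
  rw [← toPol_Mmod hA, ((fockRep (dataA w A A)).ch_NNF _).cf_toPol, ← gA_eq_gT]
  have hE : ∀ b ∈ univ.filter (fun b : Fin n × Fin n => b.1 ∈ A), b.1 ∈ A :=
    fun b hb => (mem_filter.1 hb).2
  by_cases ha : ∀ x, x ∉ A → ν x = 0
  · rw [if_pos ha]
    unfold mdim GLRep.ch GLRep.wd
    have : (Mmod w A A J).map ((rowGr n).π ν) =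
        (Mmod w A A J).map ((fockRep (dataA w A A)).π (ν ∘ gA w A)) := by
      ext x
      constructor
      · rintro ⟨z, hz, rfl⟩
        refine ⟨z, hz, ?_⟩
        rw [row_π_eq w A hE ν (Mmod_le_Fall w A J hz), if_pos ha]
      · rintro ⟨z, hz, rfl⟩
        refine ⟨z, hz, ?_⟩
        rw [row_π_eq w A hE ν (Mmod_le_Fall w A J hz), if_pos ha]
    rw [this]
  · rw [if_neg ha]
    unfold mdim
    have : (Mmod w A A J).map ((rowGr n).π ν) = ⊥ := by
      rw [eq_bot_iff]
      rintro _ ⟨z, hz, rfl⟩
      rw [row_π_eq w A hE ν (Mmod_le_Fall w A J hz), if_neg ha]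
      exact Submodule.zero_mem _
    rw [this, finrank_bot]
    rfl

/-! ### the words -/

lemma orderEmb_eq_getElem (T : Finset (Fin n)) {l : List (Fin n)} (hl : l.Pairwise (· < ·))
    (hm : ∀ j, j ∈ l ↔ j ∈ T) (hlen : l.length = T.card) (i : Fin T.card) :
    T.orderEmbOfFin rfl i = l[i.val]'(by rw [hlen]; exact i.2) := by
  have h1 : (fun i : Fin T.card => l[i.val]'(by rw [hlen]; exact i.2)) = T.orderEmbOfFin rfl := by
    apply Finset.orderEmbOfFin_unique
    · intro i
      exact (hm _).1 (List.getElem_mem _)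
    · intro i j hij
      exact List.pairwise_iff_getElem.1 hl i.val j.val (by rw [hlen]; exact i.2)
        (by rw [hlen]; exact j.2) hij
  exact (congrFun h1 i).symm

/-- the two words of an exchange step -/
lemma LA_step {w : Equiv.Perm (Fin n)} {A J : Finset (Fin n)} {c c' : Fin n} (hlt : c < c')
    (hc : c ∈ J) (hc' : c' ∈ J) (hadj : ∀ j ∈ J, ¬ (c < j ∧ j < c')) (hs : w c ∈ A)
    (hb : w c' ∈ A) (hA : ∀ x ∈ A, w.symm x ∈ J) :
    ∃ α β : List (Fin n), LA w J = α ++ w c :: w c' :: β ∧
      LA (w * Equiv.swap c c') J = α ++ w c' :: w c :: β ∧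
      ∃ h : gcount (fun x => decide (x ∈ A)) α + 1 < (posS w A).card,
        (posS w A).orderEmbOfFin rfl (lo _ h) = c ∧ (posS w A).orderEmbOfFin rfl (hi _ h) = c' := by
  obtain ⟨α, β, h⟩ := split_adj (fun x y : Fin n => x < y) (fun x y h => not_lt.2 h.le)
    (sortLE_pairwise J) ((Finset.mem_sort _).2 hc) ((Finset.mem_sort _).2 hc') hlt
    (fun z hz h => hadj z ((Finset.mem_sort _).1 hz) h)
  have hnd : (α ++ c :: c' :: β).Nodup := by
    rw [← h]
    exact Finset.sort_nodup _ _
  have hcα : c ∉ α ∧ c' ∉ α ∧ c ∉ β ∧ c' ∉ β := by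
    rw [List.nodup_append] at hnd
    obtain ⟨_, h2, h3⟩ := hnd
    rw [List.nodup_cons, List.nodup_cons] at h2
    refine ⟨fun h' => h3 c h' c (by simp) rfl, fun h' => h3 c' h' c' (by simp) rfl,
      fun h' => h2.1 (List.mem_cons_of_mem _ h'), h2.2.1⟩
  refine ⟨α.map w, β.map w, ?_, ?_, ?_⟩
  · unfold LA
    rw [h]
    simp
  · unfold LA
    rw [h, List.map_append, List.map_cons, List.map_cons,
      map_mul_swap w c c' α hcα.1 hcα.2.1, map_mul_swap w c c' β hcα.2.2.1 hcα.2.2.2]
    simp
  · set l := (J.sort (· ≤ ·)).filter (fun j => decide (w j ∈ A)) with hl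
    have hl1 : l.Pairwise (· < ·) := (sortLE_pairwise J).filter _
    have hl2 : ∀ j, j ∈ l ↔ j ∈ posS w A := by
      intro j
      rw [hl, List.mem_filter, Finset.mem_sort, mem_posS, decide_eq_true_eq]
      constructor
      · exact fun h => h.2
      · intro h
        refine ⟨?_, h⟩
        have := hA _ h
        rwa [Equiv.symm_apply_apply] at this
    have hl3 : l.length = (posS w A).card := by
      rw [← List.toFinset_card_of_nodup (hl1.imp (fun h => ne_of_lt h))]
      congr 1
      ext j
      rw [List.mem_toFinset]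
      exact hl2 j
    have hl4 : l = α.filter (fun j => decide (w j ∈ A)) ++ c :: c' ::
        β.filter (fun j => decide (w j ∈ A)) := by
      rw [hl, h, List.filter_append, List.filter_cons_of_pos (by simpa using hs),
        List.filter_cons_of_pos (by simpa using hb)]
    have hg : gcount (fun x => decide (x ∈ A)) (α.map w) =
        (α.filter (fun j => decide (w j ∈ A))).length := by
      unfold gcount
      rw [List.countP_map, List.countP_eq_length_filter]
      rfl
    have hlen : gcount (fun x => decide (x ∈ A)) (α.map w) + 1 < (posS w A).card := by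
      rw [hg, ← hl3, hl4]
      simp only [List.length_append, List.length_cons]
      omega
    refine ⟨hlen, ?_, ?_⟩
    · rw [orderEmb_eq_getElem (posS w A) hl1 hl2 hl3]
      simp only [hl4, hg]
      rw [List.getElem_append_right (le_refl _)]
      simp
    · rw [orderEmb_eq_getElem (posS w A) hl1 hl2 hl3]
      simp only [hl4, hg]
      rw [List.getElem_append_right (by omega)]
      simp

lemma posS_swap {w : Equiv.Perm (Fin n)} {A : Finset (Fin n)} {c c' : Fin n} (hs : w c ∈ A)
    (hb : w c' ∈ A) : posS w A = posS (w * Equiv.swap c c') A := by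
  ext j
  rw [mem_posS, mem_posS, Equiv.Perm.mul_apply]
  rcases eq_or_ne j c with h | h
  · subst h
    rw [Equiv.swap_apply_left]
    exact ⟨fun _ => hb, fun _ => hs⟩
  · rcases eq_or_ne j c' with h' | h'
    · subst h'
      rw [Equiv.swap_apply_right]
      exact ⟨fun _ => hs, fun _ => hb⟩
    · rw [Equiv.swap_apply_of_ne_of_ne h h']

lemma gT_single (w : Equiv.Perm (Fin n)) (T : Finset (Fin n)) (i : Fin T.card) :
    (Pi.single (gT w T i) 1 : Fin n → ℤ) ∘ gT w T = Pi.single i 1 := by
  funext k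
  by_cases h : k = i
  · subst h
    rw [Function.comp_apply, Pi.single_eq_same, Pi.single_eq_same]
  · rw [Function.comp_apply, Pi.single_eq_of_ne, Pi.single_eq_of_ne h]
    intro h'
    exact h ((T.orderEmbOfFin rfl).injective (w.injective h'))

lemma vA_lt {x y : Fin n} (h : x < y) : vA x < vA y := h

/-- **(m2)** -/
theorem mdim_swap {w : Equiv.Perm (Fin n)} {A J : Finset (Fin n)} {c c' : Fin n} (hlt : c < c')
    (hc : c ∈ J) (hc' : c' ∈ J) (hadj : ∀ j ∈ J, ¬ (c < j ∧ j < c')) (hmin : ∀ j ∈ J, w c ≤ w j)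
    (hs : w c ∈ A) (hb : w c' ∈ A) (hA : ∀ x ∈ A, w.symm x ∈ J) (ν : Fin n → ℤ) :
    mdim (w * Equiv.swap c c') A J ν + mdim w A J (ν - Pi.single (w c) 1) =
      mdim (w * Equiv.swap c c') A J (ν ∘ Equiv.swap (w c) (w c')) +
        mdim w A J (ν - Pi.single (w c') 1) := by
  obtain ⟨α, β, h1, h2, hlen, hg1, hg2⟩ := LA_step hlt hc hc' hadj hs hb hA
  have hA' := symm_mul_swap_mem hc hc' hA
  set w' := w * Equiv.swap c c' with hw'
  have hnd : (α ++ w c :: w c' :: β).Nodup := h1 ▸ LA_nodup w J
  have hlt' : ∀ a ∈ α ++ w c' :: β, w c < a := by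
    intro a ha
    have haL : a ∈ LA w J := by
      rw [h1]
      simp only [List.mem_append, List.mem_cons] at ha ⊢
      tauto
    rw [mem_LA] at haL
    have h3 := hmin _ haL
    rw [Equiv.apply_symm_apply] at h3
    refine lt_of_le_of_ne h3 ?_
    rintro rfl
    rw [List.nodup_append] at hnd
    obtain ⟨_, h4, h5⟩ := hnd
    rw [List.nodup_cons] at h4
    simp only [List.mem_append, List.mem_cons] at ha
    rcases ha with ha | ha | ha
    · exact h5 _ ha (w c) (by simp) rfl
    · exact hlt.ne (w.injective ha)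
    · exact h4.1 (List.mem_cons_of_mem _ ha)
  have hp : chA w A J = dd (gcount (fun x => decide (x ∈ A)) α) (chA w' A J) := by
    unfold chA
    rw [h1, h2]
    have h3 := exchange_small (chi_smallRec vA (fun x => decide (x ∈ A))
      (fun p => decide (p ∈ (univ : Finset (Fin n))))) α β (w c) (w c') (decide_eq_true hs)
      (decide_eq_true (mem_univ _)) (fun a ha => vA_lt (hlt' a (by simp [ha])))
      (fun a ha => vA_lt (hlt' a (by simp [ha]))) (vA_lt (hlt' _ (by simp)))
    rw [if_pos (decide_eq_true hb)] at h3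
    exact h3
  have hT' : posS w A = posS w' A := posS_swap hs hb
  set T := posS w A with hT
  obtain ⟨n1, t1⟩ := cf_chA hA hT
  obtain ⟨n2, t2⟩ := cf_chA hA' hT'
  have hdd := (isDd_iff _ hlen n2 n1).2 (by rw [t1, t2]; exact hp)
  have hm : ∀ ν : Fin n → ℤ, (mdim w A J ν : ℤ) =
      if ∀ x, x ∉ A → ν x = 0 then cf T.card (chA w A J) (ν ∘ gT w T) else 0 := mdim_eq hA hT
  have hm' : ∀ ν : Fin n → ℤ, (mdim w' A J ν : ℤ) =
      if ∀ x, x ∉ A → ν x = 0 then cf T.card (chA w' A J) (ν ∘ gT w' T) else 0 := mdim_eq hA' hT'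
  zify
  simp only [hm, hm', off_sub_iff hs, off_sub_iff hb, off_swap_iff hs hb]
  by_cases hν : ∀ x, x ∉ A → ν x = 0
  · simp only [if_pos hν]
    have h3 := hdd (ν ∘ gT w T)
    have g1 : gT w T (lo _ hlen) = w c := by
      unfold gT
      rw [hg1]
    have g2 : gT w T (hi _ hlen) = w c' := by
      unfold gT
      rw [hg2]
    have g3 : ∀ i, gT w' T i = gT w T (Equiv.swap (lo _ hlen) (hi _ hlen) i) := by
      intro i
      unfold gT
      rw [hw', Equiv.Perm.mul_apply]
      congr 1
      by_cases h4 : i = lo _ hlen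
      · rw [h4, Equiv.swap_apply_left, hg1, hg2, Equiv.swap_apply_left]
      · by_cases h5 : i = hi _ hlen
        · rw [h5, Equiv.swap_apply_right, hg1, hg2, Equiv.swap_apply_right]
        · rw [Equiv.swap_apply_of_ne_of_ne h4 h5, Equiv.swap_apply_of_ne_of_ne]
          · intro h6
            rw [← hg1] at h6
            exact h4 ((T.orderEmbOfFin rfl).injective h6)
          · intro h6
            rw [← hg2] at h6
            exact h5 ((T.orderEmbOfFin rfl).injective h6)
    have g4 : ∀ i, gT w T i = Equiv.swap (w c) (w c') (gT w' T i) := by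
      intro i
      rw [g3]
      by_cases h4 : i = lo _ hlen
      · rw [h4, Equiv.swap_apply_left, g1, g2, Equiv.swap_apply_right]
      · by_cases h5 : i = hi _ hlen
        · rw [h5, Equiv.swap_apply_right, g1, g2, Equiv.swap_apply_left]
        · rw [Equiv.swap_apply_of_ne_of_ne h4 h5, Equiv.swap_apply_of_ne_of_ne]
          · intro h6
            rw [← g1] at h6
            exact h4 ((T.orderEmbOfFin rfl).injective (w.injective h6))
          · intro h6
            rw [← g2] at h6
            exact h5 ((T.orderEmbOfFin rfl).injective (w.injective h6))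
    have e1 : (ν ∘ gT w T) - Pi.single (lo _ hlen) 1 = (ν - Pi.single (w c) 1) ∘ gT w T := by
      rw [← gT_single w T (lo _ hlen), g1]
      rfl
    have e2 : (ν ∘ gT w T) - Pi.single (hi _ hlen) 1 = (ν - Pi.single (w c') 1) ∘ gT w T := by
      rw [← gT_single w T (hi _ hlen), g2]
      rfl
    have e3 : sWt _ hlen (ν ∘ gT w T) = ν ∘ gT w' T := by
      funext i
      unfold sWt
      simp only [Function.comp_apply]
      rw [g3]
    have e4 : ν ∘ gT w T = (ν ∘ Equiv.swap (w c) (w c')) ∘ gT w' T := by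
      funext i
      simp only [Function.comp_apply]
      rw [g4]
    rw [e1, e2, e3, e4] at h3
    linarith
  · simp only [if_neg hν]

end

end Gao
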