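import Pool.Agent.Gao.Sl2S

/-!
# Gao project (MP_b139df_co): PART S, abstract form of the application of Lemma S

An ambient graded space `X` with an `sl_2`-action `(e, f)` (centered at `0`), submodules `M` (stable
under `e`, `f`) and `N` (stable under `e`), a map `q` of degree `-ε`, `ht ε = 1`, which commutes with
`e` on `N` and maps `N` to `M`.  If `M` is generated by `q N` under `f` and the dimension identity
holds, then `N ⊓ ker q` is centered at `0` and `M ⧸ q N` is centered at `-1`.
-/

namespace Gao

open Module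

section transport

variable {K X Y Λ : Type*} [Field K] [AddCommGroup X] [Module K X] [AddCommGroup Y] [Module K Y]
  [AddCommGroup Λ] [DecidableEq Λ]

/-- a shift of the grading -/
def Grading.shift (G : Grading K X Λ) (t : Λ) : Grading K X Λ where
  π a := G.π (a + t)
  mul a b := by
    rw [G.mul]
    by_cases h : a = b
    · rw [if_pos h, if_pos (by rw [h])]
    · rw [if_neg h, if_neg (fun h' => h (add_right_cancel h'))]
  supp := G.supp.image (fun a => a - t)
  zero a ha := by
    apply G.zero
    intro h
    exact ha (Finset.mem_image.2 ⟨a + t, h, by abel⟩)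
  sum := by
    rw [Finset.sum_image]
    · simp only [sub_add_cancel]
      exact G.sum
    · intro a _ b _ h
      exact sub_left_injective h

@[simp] lemma Grading.shift_π (G : Grading K X Λ) (t a : Λ) : (G.shift t).π a = G.π (a + t) := rfl

lemma Grading.shift_W (G : Grading K X Λ) (t a : Λ) : (G.shift t).W a = G.W (a + t) := rfl

/-- centered modules are transported by linear equivalences -/
lemma Centered.transport {G : Grading K X Λ} {G' : Grading K Y Λ} {e : Module.End K X}
    {e' : Module.End K Y} {α : Λ} {ht : Λ →+ ℤ} {χ : ℤ} (φ : X ≃ₗ[K] Y) (t : Λ)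
    (hφ : ∀ a x, φ (G.π a x) = G'.π (a + t) (φ x)) (he : ∀ x, φ (e x) = e' (φ x))
    (h : Centered G e α ht χ) : Centered G' e' α ht (χ + ht t) := by
  obtain ⟨f, hf, hfe⟩ := h
  have hφ' : ∀ a y, φ.symm (G'.π (a + t) y) = G.π a (φ.symm y) := by
    intro a y
    rw [LinearEquiv.symm_apply_eq, hφ, LinearEquiv.apply_symm_apply]
  have he' : ∀ y, φ.symm (e' y) = e (φ.symm y) := by
    intro y
    rw [LinearEquiv.symm_apply_eq, he, LinearEquiv.apply_symm_apply]
  refine ⟨φ.toLinearMap ∘ₗ f ∘ₗ φ.symm.toLinearMap, ?_, ?_⟩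
  · intro a
    ext y
    have h1 := congrArg (fun g : Module.End K X => φ (g (φ.symm y))) (hf (a - t))
    simp only [Module.End.mul_apply] at h1
    simp only [Module.End.mul_apply, LinearMap.comp_apply, LinearEquiv.coe_coe]
    have h2 := hφ' (a - t) y
    rw [sub_add_cancel] at h2
    rw [h2, h1, hφ]
    congr 2
    abel
  · intro a
    ext y
    have h1 := congrArg (fun g : Module.End K X => φ (g (φ.symm y))) (hfe (a - t))
    simp only [Module.End.mul_apply, LinearMap.sub_apply, LinearMap.smul_apply, map_sub,
      map_smul] at h1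
    simp only [Module.End.mul_apply, LinearMap.comp_apply, LinearEquiv.coe_coe,
      LinearMap.sub_apply, LinearMap.smul_apply]
    have h2 := hφ' (a - t) y
    rw [sub_add_cancel] at h2
    rw [he', h2, ← he, h1, hφ, sub_add_cancel, LinearEquiv.apply_symm_apply]
    congr 2
    ring

end transport

section PartS

variable {K X Λ : Type*} [Field K] [CharZero K] [AddCommGroup Λ] [DecidableEq Λ]
  [AddCommGroup X] [Module K X] [FiniteDimensional K X]

omit [CharZero K] [FiniteDimensional K X] in
lemma Grading.Stable.inf_ker {G : Grading K X Λ} {N : Submodule K X} (hN : G.Stable N)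
    {q : Module.End K X} {ε : Λ} (hq : Hom G q (-ε)) : G.Stable (N ⊓ LinearMap.ker q) := by
  intro a x hx
  refine ⟨hN a x hx.1, ?_⟩
  have h := congrArg (fun g : Module.End K X => g x) (hq a)
  simp only [Module.End.mul_apply] at h
  change q (G.π a x) = 0
  rw [h, LinearMap.mem_ker.1 hx.2, map_zero]

omit [CharZero K] [AddCommGroup Λ] [FiniteDimensional K X] in
lemma stable_comap_subtype {G : Grading K X Λ} {M S : Submodule K X} (hM : G.Stable M)
    (hS : G.Stable S) : (G.restrict M hM).Stable (S.comap M.subtype) := by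
  intro a x hx
  exact hS a x hx

/-- PART S, abstract form -/
theorem partS_abs {G : Grading K X Λ} {e f q : Module.End K X} {α ε : Λ} {ht : Λ →+ ℤ}
    (hα : ht α = 2) (hε : ht ε = 1) (he : Hom G e α) (hf : Hom G f (-α)) (hq : Hom G q (-ε))
    (hfe : ∀ a, (e * f - f * e) * G.π a = ((ht a : ℤ) : K) • G.π a)
    {M N S : Submodule K X} (hM : G.Stable M) (hN : G.Stable N) (hS : G.Stable S)
    (hMe : ∀ x ∈ M, e x ∈ M) (hMf : ∀ x ∈ M, f x ∈ M) (hNe : ∀ x ∈ N, e x ∈ N)
    (hSM : S ≤ M) (hqN : N.map q = S) (hqe : ∀ x ∈ N, q (e x) = e (q x))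
    (hSe : ∀ x ∈ S, e x ∈ S)
    (hKe : ∀ x ∈ N ⊓ LinearMap.ker q, e x ∈ N ⊓ LinearMap.ker q)
    (hgen : ∀ P : Submodule K X, S ≤ P → (∀ x ∈ P, f x ∈ P) → M ≤ P)
    (hdim : ∀ a (k : ℕ), ht a = k →
      finrank K (G.W a ⊓ M : Submodule K X) +
        finrank K (G.W (a - (k + 1) • α + ε) ⊓ N : Submodule K X) =
        finrank K (G.W (a + ε) ⊓ N : Submodule K X) +
          finrank K (G.W (a + α) ⊓ M : Submodule K X)) :
    Centered (G.restrict (N ⊓ LinearMap.ker q) (hN.inf_ker hq)) (e.restrict hKe) α ht 0 ∧
    Centered ((G.restrict M hM).quot (S.comap M.subtype) (stable_comap_subtype hM hS))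
      ((S.comap M.subtype).mapQ (S.comap M.subtype) (e.restrict hMe)
        (fun x hx => hSe x hx)) α ht (-1) := by
  have hfe0 : ∀ a, (e * f - f * e) * G.π a = ((ht a - 0 : ℤ) : K) • G.π a := by
    intro a; rw [sub_zero]; exact hfe a
  have hLX : Lefschetz G e α ht 0 := Centered.lefschetz hα he ⟨f, hf, hfe0⟩
  have hqM : ∀ x ∈ N, q x ∈ M := fun x hx => hSM (hqN ▸ Submodule.mem_map_of_mem hx)
  set GM := G.restrict M hM with hGM
  set GN := (G.restrict N hN).shift ε with hGN
  set eM : Module.End K M := e.restrict hMe with heM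
  set fM : Module.End K M := f.restrict hMf with hfM
  set eN : Module.End K N := e.restrict hNe with heN
  set q' : N →ₗ[K] M := q.restrict hqM with hq'
  have hq1 : ∀ a x, q' (GN.π a x) = GM.π a (q' x) := by
    intro a x
    apply Subtype.ext
    have h := congrArg (fun g : Module.End K X => g x) (hq (a + ε))
    simp only [Module.End.mul_apply, add_neg_cancel_right] at h
    exact h
  have hq2 : ∀ x, q' (eN x) = eM (q' x) := by
    intro x
    exact Subtype.ext (hqe x x.2)
  have hrange : LinearMap.range q' = S.comap M.subtype := by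
    ext x
    rw [LinearMap.mem_range, Submodule.mem_comap, Submodule.coe_subtype, ← hqN,
      Submodule.mem_map]
    constructor
    · rintro ⟨y, rfl⟩
      exact ⟨y, y.2, rfl⟩
    · rintro ⟨y, hy, hyx⟩
      exact ⟨⟨y, hy⟩, Subtype.ext hyx⟩
  have hGNW : ∀ a, finrank K (GN.W a) = finrank K (G.W (a + ε) ⊓ N : Submodule K X) := by
    intro a
    rw [hGN, Grading.shift_W, Grading.finrank_restrict_W]
  have hmain := lemmaS (GM := GM) (GN := GN) (eM := eM) (f := fM) (eN := eN) (α := α) (ht := ht)
    hα (by
      intro a; ext x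
      have h := congrArg (fun g : Module.End K X => g x) (he a)
      exact h)
    (by
      intro a; ext x
      have h := congrArg (fun g : Module.End K X => g x) (he (a + ε))
      rw [add_right_comm] at h
      exact h)
    (by
      intro a; ext x
      have h := congrArg (fun g : Module.End K X => g x) (hf a)
      exact h)
    (by
      intro a; ext x
      have h := congrArg (fun g : Module.End K X => g x) (hfe a)
      exact h)
    (q := q') hq1 hq2
    (by
      intro P hP hPf
      rw [eq_top_iff]
      intro x _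
      have h1 := hgen (P.map M.subtype) (by
        intro y hy
        refine ⟨⟨y, hSM hy⟩, hP ?_, rfl⟩
        rw [hrange]
        exact hy) (by
        rintro _ ⟨y, hy, rfl⟩
        exact ⟨fM y, hPf y hy, rfl⟩) x.2
      obtain ⟨y, hy, hyx⟩ := h1
      have : y = x := Subtype.ext hyx
      exact this ▸ hy)
    (by
      intro a j ha x hx _ hx0
      apply Subtype.ext
      have hxW : (x : X) ∈ G.W (a + ε) := by
        rw [hGN, Grading.shift_W] at hx
        exact (G.mem_restrict_W N hN _ x).1 hx
      have hxe : (e ^ j) (x : X) = 0 := by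
        rw [← restrict_pow_coe e N hNe j x, ← heN, hx0]; rfl
      exact (hLX (a + ε) j (by rw [map_add, ha, hε]; ring)).1 x hxW hxe)
    (by
      intro a k ha
      rw [hGNW, hGNW, hGM, Grading.finrank_restrict_W, Grading.finrank_restrict_W]
      exact hdim a k ha)
  refine ⟨?_, ?_⟩
  · have h1 := hmain.1
    let φ : LinearMap.ker q' ≃ₗ[K] (N ⊓ LinearMap.ker q : Submodule K X) :=
      { toFun := fun x => ⟨x.1.1, x.1.2, by
          have := congrArg Subtype.val (LinearMap.mem_ker.1 x.2)
          exact this⟩
        map_add' := fun _ _ => rfl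
        map_smul' := fun _ _ => rfl
        invFun := fun x => ⟨⟨x.1, x.2.1⟩, LinearMap.mem_ker.2 (Subtype.ext x.2.2)⟩
        left_inv := fun _ => rfl
        right_inv := fun _ => rfl }
    have h2 := h1.transport (G' := G.restrict (N ⊓ LinearMap.ker q) (hN.inf_ker hq))
      (e' := e.restrict hKe) φ ε (fun a x => rfl) (fun x => rfl)
    rw [hε] at h2
    exact h2
  · have h1 := hmain.2
    let φ : (M ⧸ LinearMap.range q') ≃ₗ[K] (M ⧸ S.comap M.subtype) :=
      Submodule.quotEquivOfEq _ _ hrange
    have h2 := h1.transport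
      (G' := (G.restrict M hM).quot (S.comap M.subtype) (stable_comap_subtype hM hS))
      (e' := (S.comap M.subtype).mapQ (S.comap M.subtype) (e.restrict hMe)
        (fun x hx => hSe x hx)) φ 0 (by
        intro a x
        obtain ⟨y, rfl⟩ := Submodule.mkQ_surjective _ x
        rw [add_zero]
        rfl) (by
        intro x
        obtain ⟨y, rfl⟩ := Submodule.mkQ_surjective _ x
        rfl)
    rw [map_zero, add_zero] at h2
    exact h2

end PartS

end Gao
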