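import Pool.Agent.Gao.GenLem
import Pool.Agent.Gao.PartSAbs
import Pool.Agent.Gao.ExtVec

/-!
# Gao project (MP_b139df_co): PART S, the application of Lemma S

`w` a word, `c < c'` consecutive elements of `J`, `s = w c` the smallest letter of `J`, `b = w c' ∈ A`,
`w' = w * swap c c'`.  `q = an (b, c')` maps `Nmod w' A J` onto
`Smod = gen (colOps J) (ee (Dset w' A J \ {(b, c')}))`, a submodule of `Nmod w A J`.

* `Nmod_f_stable`: `Nmod w A J` is stable under `colE c' c`.
* `partS`: the kernel `Pmod = Nmod w' A J ⊓ ker q` is centered at `0` (for the column grading; it is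
  centered at `-1` after the twist by `-ε_{c'}`), the cokernel `Nmod w A J / Smod` is centered at `-1`.
-/

namespace Gao

open Finset Module

noncomputable section

variable {n : ℕ}

/-- extremal vectors -/
theorem ext_vec_iff {c c' : Fin n} (hcc : c ≠ c') (D D' : Finset (Fin n × Fin n))
    (hD : ∀ x, (x, c') ∈ D → (x, c) ∈ D)
    (hD' : ∀ x j, (x, j) ∈ D' ↔ (x, Equiv.swap c c' j) ∈ D) :
    ∃ k : ℕ, ∃ t : ℂ, t ≠ 0 ∧ (colE c c' ^ k) (Kost.ee D) = t • Kost.ee D' := by
  obtain ⟨t, ht, h⟩ := ext_vec hcc hD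
  refine ⟨(freeRows c c' D).card, t, ht, ?_⟩
  rw [h]
  congr 2
  ext ⟨x, j⟩
  rw [hD', mem_swapCol]

/-- the data of Part S -/
structure SData (w : Equiv.Perm (Fin n)) (A J : Finset (Fin n)) (c c' : Fin n) : Prop where
  lt : c < c'
  mem : c ∈ J
  mem' : c' ∈ J
  adj : ∀ j ∈ J, ¬ (c < j ∧ j < c')
  min : ∀ j ∈ J, w c ≤ w j
  bA : w c' ∈ A
  AJ : ∀ x ∈ A, w.symm x ∈ J

namespace SData

variable {w : Equiv.Perm (Fin n)} {A J : Finset (Fin n)} {c c' : Fin n}

lemma ne (h : SData w A J c c') : c ≠ c' := ne_of_lt h.lt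

lemma w_lt (h : SData w A J c c') : w c < w c' :=
  lt_of_le_of_ne (h.min c' h.mem') (fun h' => h.ne (w.injective h'))

/-- elements of `J` before `c'` are `≤ c` -/
lemma le_of_lt (h : SData w A J c c') {j : Fin n} (hj : j ∈ J) (hjc : j < c') : j ≤ c := by
  by_contra hc
  exact h.adj j hj ⟨not_le.1 hc, hjc⟩

/-- elements of `J` after `c` are `≥ c'` -/
lemma ge_of_gt (h : SData w A J c c') {j : Fin n} (hj : j ∈ J) (hjc : c < j) : c' ≤ j := by
  by_contra hc
  exact h.adj j hj ⟨hjc, not_le.1 hc⟩

lemma col (h : SData w A J c c') (x : Fin n) (hx : (x, c') ∈ Dset w A J) : (x, c) ∈ Dset w A J := by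
  rw [mem_Dset] at hx ⊢
  obtain ⟨h1, _, h3, h4⟩ := hx
  have h5 : w c < x := lt_of_le_of_lt (h.min c' h.mem') h4
  refine ⟨h1, h.mem, ?_, h5⟩
  refine lt_of_le_of_ne (h.le_of_lt (h.AJ x h1) h3) ?_
  intro h6
  apply ne_of_lt h5
  have h7 : w.symm x = c := h6
  rw [← h7]
  simp

lemma symm_swap (w : Equiv.Perm (Fin n)) (c c' x : Fin n) :
    (w * Equiv.swap c c').symm x = Equiv.swap c c' (w.symm x) := rfl

lemma box_mem (h : SData w A J c c') : (w c', c') ∈ Dset (w * Equiv.swap c c') A J := by
  rw [mem_Dset]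
  refine ⟨h.bA, h.mem', ?_, ?_⟩
  · rw [symm_swap]
    simpa using h.lt
  · simpa using h.w_lt

lemma erase_iff (h : SData w A J c c') (x j : Fin n) :
    (x, j) ∈ (Dset (w * Equiv.swap c c') A J).erase (w c', c') ↔
      (x, Equiv.swap c c' j) ∈ Dset w A J := by
  rw [Finset.mem_erase, mem_Dset, mem_Dset]
  simp only [ne_eq, Prod.mk.injEq, not_and, symm_swap, Equiv.Perm.mul_apply]
  have hne := h.ne
  have hlt := h.lt
  have hx0 : w (w.symm x) = x := by simp
  by_cases hj : j = c
  · subst hj
    rw [Equiv.swap_apply_left]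
    constructor
    · rintro ⟨_, h1, _, h3, h4⟩
      refine ⟨h1, h.mem', ?_, h4⟩
      rcases eq_or_ne (w.symm x) j with h5 | h5
      · rw [h5, Equiv.swap_apply_left] at h3
        exact absurd (h3.trans hlt) (lt_irrefl _)
      · rcases eq_or_ne (w.symm x) c' with h6 | h6
        · rw [h6, Equiv.swap_apply_right] at h3
          exact absurd h3 (lt_irrefl _)
        · rw [Equiv.swap_apply_of_ne_of_ne h5 h6] at h3
          exact h3.trans hlt
    · rintro ⟨h1, _, h3, h4⟩
      refine ⟨fun _ h' => hne h', h1, h.mem, ?_, h4⟩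
      have h5 : w.symm x ≠ j := by
        intro h5
        have h6 : w j < x := lt_of_le_of_lt (h.min c' h.mem') h4
        rw [← h5, hx0] at h6
        exact lt_irrefl _ h6
      rw [Equiv.swap_apply_of_ne_of_ne h5 (ne_of_lt h3)]
      exact lt_of_le_of_ne (h.le_of_lt (h.AJ x h1) h3) h5
  · by_cases hj' : j = c'
    · subst hj'
      rw [Equiv.swap_apply_right]
      constructor
      · rintro ⟨h0, h1, _, h3, h4⟩
        refine ⟨h1, h.mem, ?_, h4⟩
        rcases eq_or_ne (w.symm x) c with h5 | h5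
        · rw [h5, Equiv.swap_apply_left] at h3
          exact absurd h3 (lt_irrefl _)
        · rcases eq_or_ne (w.symm x) j with h6 | h6
          · exact absurd rfl (h0 (by rw [← hx0, h6]))
          · rw [Equiv.swap_apply_of_ne_of_ne h5 h6] at h3
            exact lt_of_le_of_ne (h.le_of_lt (h.AJ x h1) h3) h5
      · rintro ⟨h1, _, h3, h4⟩
        refine ⟨?_, h1, h.mem', ?_, h4⟩
        · intro h5
          have h6 : w.symm x = j := by rw [h5]; simp
          rw [h6] at h3
          exact absurd (h3.trans hlt) (lt_irrefl _)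
        · rw [Equiv.swap_apply_of_ne_of_ne (ne_of_lt h3) (ne_of_lt (h3.trans hlt))]
          exact h3.trans hlt
    · rw [Equiv.swap_apply_of_ne_of_ne hj hj']
      constructor
      · rintro ⟨_, h1, h2, h3, h4⟩
        refine ⟨h1, h2, ?_, h4⟩
        rcases eq_or_ne (w.symm x) c with h5 | h5
        · rw [h5, Equiv.swap_apply_left] at h3
          rw [h5]
          exact hlt.trans h3
        · rcases eq_or_ne (w.symm x) c' with h6 | h6
          · rw [h6, Equiv.swap_apply_right] at h3
            rw [h6]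
            exact lt_of_le_of_ne (h.ge_of_gt h2 h3) (Ne.symm hj')
          · rwa [Equiv.swap_apply_of_ne_of_ne h5 h6] at h3
      · rintro ⟨h1, h2, h3, h4⟩
        refine ⟨fun _ h' => hj' h', h1, h2, ?_, h4⟩
        rcases eq_or_ne (w.symm x) c with h5 | h5
        · rw [h5] at h3
          rw [h5, Equiv.swap_apply_left]
          exact lt_of_le_of_ne (h.ge_of_gt h2 h3) (Ne.symm hj')
        · rcases eq_or_ne (w.symm x) c' with h6 | h6
          · rw [h6] at h3
            rw [h6, Equiv.swap_apply_right]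
            exact hlt.trans h3
          · rwa [Equiv.swap_apply_of_ne_of_ne h5 h6]

/-- the commutator with `f = colE c' c` of the operators `colE j l`, `j ≤ l` -/
lemma f_comm (h : SData w A J c c') {j l : Fin n} (hj : j ∈ J) (hl : l ∈ J) (hjl : j ≤ l)
    {P Q : Submodule ℂ (Fk n)} (hf : ∀ x ∈ P, colE c' c x ∈ Q)
    (hP : ∀ j ∈ J, ∀ l ∈ J, j ≤ l → ∀ x ∈ P, colE j l x ∈ Q) (x : Fk n) (hx : x ∈ P) :
    colE c' c (colE j l x) - colE j l (colE c' c x) ∈ Q := by
  have h1 := congrArg (fun g : Module.End ℂ (Fk n) => g x) (colE_comm c' c j l)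
  simp only [LinearMap.sub_apply, Module.End.mul_apply] at h1
  rw [h1]
  apply Submodule.sub_mem
  · split_ifs with h2
    · subst h2
      rcases eq_or_lt_of_le hjl with h3 | h3
      · subst h3
        exact hf x hx
      · exact hP j hj c h.mem (h.le_of_lt hj h3) x hx
    · exact Submodule.zero_mem _
  · split_ifs with h2
    · subst h2
      rcases eq_or_lt_of_le hjl with h3 | h3
      · subst h3
        exact hf x hx
      · exact hP c' h.mem' l hl (h.ge_of_gt hl h3) x hx
    · exact Submodule.zero_mem _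

lemma f_kills (h : SData w A J c c') : colE c' c (Kost.ee (Dset w A J)) = 0 := by
  unfold colE
  rw [LinearMap.sum_apply]
  apply Finset.sum_eq_zero
  intro x _
  rw [Module.End.mul_apply, Kost.an_ee]
  split_ifs with h1
  · rw [map_smul, Kost.cr_ee, if_pos, smul_zero]
    rw [Finset.mem_erase]
    exact ⟨fun h' => h.ne (Prod.mk.inj h').2, h.col x h1⟩
  · rw [map_zero]

end SData

lemma colE_mem_gen {J : Finset (Fin n)} {v : Fk n} {j l : Fin n} (hj : j ∈ J) (hl : l ∈ J)
    (hjl : j < l) {x : Fk n} (hx : x ∈ gen (colOps J) v) : colE j l x ∈ gen (colOps J) v :=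
  gen_stable (S := colOps J) (T := colE j l) ⟨j, hj, l, hl, hjl, rfl⟩ hx

/-- `gen (colOps J) (ee D)` is stable under `colE j l`, `j ≤ l` -/
lemma gen_col_le_stable {J : Finset (Fin n)} {D : Finset (Fin n × Fin n)} {j l : Fin n}
    (hj : j ∈ J) (hl : l ∈ J) (hjl : j ≤ l) {x : Fk n} (hx : x ∈ gen (colOps J) (Kost.ee D)) :
    colE j l x ∈ gen (colOps J) (Kost.ee D) := by
  rcases eq_or_lt_of_le hjl with h | h
  · subst h
    exact gen_col_colE_self J D j hx
  · exact colE_mem_gen hj hl h hx

lemma pow_mem_of_stable {X : Type*} [AddCommGroup X] [Module ℂ X] {e : Module.End ℂ X}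
    {P : Submodule ℂ X} (h : ∀ x ∈ P, e x ∈ P) (k : ℕ) {x : X} (hx : x ∈ P) : (e ^ k) x ∈ P := by
  induction k with
  | zero => simpa using hx
  | succ k ih => rw [pow_succ', Module.End.mul_apply]; exact h _ ih

section main

variable {w : Equiv.Perm (Fin n)} {A J : Finset (Fin n)} {c c' : Fin n}

/-- the image of `Nmod w' A J` under `q = an (w c', c')` -/
def Smod (w : Equiv.Perm (Fin n)) (A J : Finset (Fin n)) (c c' : Fin n) : Submodule ℂ (Fk n) :=
  gen (colOps J) (Kost.ee ((Dset (w * Equiv.swap c c') A J).erase (w c', c')))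

lemma Smod_stable_col (w : Equiv.Perm (Fin n)) (A J : Finset (Fin n)) (c c' : Fin n) :
    (colGr n).Stable (Smod w A J c c') := gen_col_stable_col _ _

lemma Smod_stable_row (w : Equiv.Perm (Fin n)) (A J : Finset (Fin n)) (c c' : Fin n) :
    (rowGr n).Stable (Smod w A J c c') := gen_col_stable_row _ _

lemma Nmod_stable_col (w : Equiv.Perm (Fin n)) (A J : Finset (Fin n)) :
    (colGr n).Stable (Nmod w A J) := gen_col_stable_col _ _

lemma Nmod_stable_row (w : Equiv.Perm (Fin n)) (A J : Finset (Fin n)) :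
    (rowGr n).Stable (Nmod w A J) := gen_col_stable_row _ _

/-- `Nmod w A J` is stable under `f = colE c' c` -/
theorem Nmod_f_stable (h : SData w A J c c') :
    ∀ x ∈ Nmod w A J, colE c' c x ∈ Nmod w A J := by
  apply gen_induction
  · rw [map_zero]; exact Submodule.zero_mem _
  · intro x y hx hy; rw [map_add]; exact Submodule.add_mem _ hx hy
  · intro t x hx; rw [map_smul]; exact Submodule.smul_mem _ _ hx
  · rw [h.f_kills]; exact Submodule.zero_mem _
  · rintro T ⟨j, hj, l, hl, hjl, rfl⟩ x hx hfx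
    have h1 : colE c' c (colE j l x) = (colE c' c (colE j l x) - colE j l (colE c' c x)) +
        colE j l (colE c' c x) := by abel
    rw [h1]
    apply Submodule.add_mem
    · apply h.f_comm hj hl hjl.le (P := Submodule.span ℂ {x}) (Q := Nmod w A J)
      · intro y hy
        rw [Submodule.mem_span_singleton] at hy
        obtain ⟨t, rfl⟩ := hy
        rw [map_smul]
        exact Submodule.smul_mem _ _ hfx
      · intro j hj l hl hjl y hy
        rw [Submodule.mem_span_singleton] at hy
        obtain ⟨t, rfl⟩ := hy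
        rw [map_smul]
        exact Submodule.smul_mem _ _ (gen_col_le_stable hj hl hjl hx)
      · exact Submodule.mem_span_singleton_self x
    · exact gen_col_le_stable hj hl hjl.le hfx

/-- `q` commutes with the column operators on `Nmod w' A J` -/
theorem q_comm (h : SData w A J c c') {j l : Fin n} (hj : j ∈ J) (hjl : j < l)
    {x : Fk n} (hx : x ∈ Nmod (w * Equiv.swap c c') A J) :
    Kost.an (w c', c') (colE j l x) = colE j l (Kost.an (w c', c') x) := by
  have h1 := congrArg (fun g : Module.End ℂ (Fk n) => g x) (an_colE (w c') j l c')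
  simp only [LinearMap.add_apply, Module.End.mul_apply] at h1
  rw [h1]
  split_ifs with h2
  · subst h2
    have h3 : Kost.an (w l, j) x = 0 := by
      refine an_eq_zero_of_Fall ?_ (Nmod_le_Fall _ A J hx)
      rw [mem_Fset, SData.symm_swap]
      simp only [Equiv.symm_apply_apply, Equiv.swap_apply_right, not_and, not_lt]
      intro _ _
      exact h.le_of_lt hj hjl
    rw [h3, add_zero]
  · simp

lemma q_gen (h : SData w A J c c') : ∃ t : ℂ, t ≠ 0 ∧
    Kost.an (w c', c') (Kost.ee (Dset (w * Equiv.swap c c') A J)) =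
      t • Kost.ee ((Dset (w * Equiv.swap c c') A J).erase (w c', c')) := by
  rw [Kost.an_ee, if_pos h.box_mem]
  refine ⟨_, ?_, rfl⟩
  intro h0
  have := Kost.sgn_mul_self (w c', c') (Dset (w * Equiv.swap c c') A J)
  rw [h0, mul_zero] at this
  exact zero_ne_one this

/-- `q` maps `Nmod w' A J` onto `Smod` -/
theorem q_map (h : SData w A J c c') :
    (Nmod (w * Equiv.swap c c') A J).map (Kost.an (w c', c')) = Smod w A J c c' := by
  obtain ⟨t, ht, hq⟩ := q_gen h
  apply le_antisymm
  · rw [Submodule.map_le_iff_le_comap]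
    intro x hx
    rw [Submodule.mem_comap]
    revert x
    apply gen_induction
    · rw [map_zero]; exact Submodule.zero_mem _
    · intro x y hx hy; rw [map_add]; exact Submodule.add_mem _ hx hy
    · intro t x hx; rw [map_smul]; exact Submodule.smul_mem _ _ hx
    · rw [hq]
      exact Submodule.smul_mem _ _ (self_mem_gen _ _)
    · rintro T ⟨j, hj, l, hl, hjl, rfl⟩ x hx hqx
      rw [q_comm h hj hjl hx]
      exact colE_mem_gen hj hl hjl hqx
  · apply gen_le
    · refine ⟨t⁻¹ • Kost.ee (Dset (w * Equiv.swap c c') A J),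
        Submodule.smul_mem _ _ (self_mem_gen _ _), ?_⟩
      rw [map_smul, hq, smul_smul, inv_mul_cancel₀ ht, one_smul]
    · rintro T ⟨j, hj, l, hl, hjl, rfl⟩ _ ⟨x, hx, rfl⟩
      exact ⟨colE j l x, colE_mem_gen hj hl hjl hx, q_comm h hj hjl hx⟩

theorem Smod_le (h : SData w A J c c') : Smod w A J c c' ≤ Nmod w A J := by
  obtain ⟨k, t, ht, hk⟩ := ext_vec_iff h.ne (Dset w A J) _ h.col h.erase_iff
  apply gen_le
  · have h1 : (colE c c' ^ k) (Kost.ee (Dset w A J)) ∈ Nmod w A J :=
      pow_mem_of_stable (fun x hx => colE_mem_gen h.mem h.mem' h.lt hx) k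
        (self_mem_gen _ _)
    have h2 := Submodule.smul_mem _ t⁻¹ h1
    rwa [hk, smul_smul, inv_mul_cancel₀ ht, one_smul] at h2
  · intro T hT x hx
    exact gen_stable hT hx

/-- `Nmod w A J` is the smallest `f`-stable subspace containing `Smod` -/
theorem Nmod_le_of_f_stable (h : SData w A J c c') (P : Submodule ℂ (Fk n))
    (hP : Smod w A J c c' ≤ P) (hf : ∀ x ∈ P, colE c' c x ∈ P) : Nmod w A J ≤ P := by
  set X : Submodule ℂ (Fk n) :=
    Submodule.span ℂ {v | ∃ i : ℕ, ∃ y ∈ Smod w A J c c', v = (colE c' c ^ i) y} with hX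
  have hXP : X ≤ P := by
    rw [hX, Submodule.span_le]
    rintro _ ⟨i, y, hy, rfl⟩
    exact pow_mem_of_stable hf i (hP hy)
  have hXf : ∀ x ∈ X, colE c' c x ∈ X := by
    have : X ≤ X.comap (colE c' c) := by
      rw [hX, Submodule.span_le]
      rintro _ ⟨i, y, hy, rfl⟩
      refine Submodule.subset_span ⟨i + 1, y, hy, ?_⟩
      rw [pow_succ', Module.End.mul_apply]
    exact this
  have hXT0 : ∀ i : ℕ, ∀ j ∈ J, ∀ l ∈ J, j ≤ l → ∀ y ∈ Smod w A J c c',
      colE j l ((colE c' c ^ i) y) ∈ X := by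
    intro i
    induction i with
    | zero =>
      intro j hj l hl hjl y hy
      refine Submodule.subset_span ⟨0, _, gen_col_le_stable hj hl hjl hy, ?_⟩
      simp
    | succ i ih =>
      intro j hj l hl hjl y hy
      rw [pow_succ', Module.End.mul_apply]
      set z := (colE c' c ^ i) y with hz
      have h1 : colE j l (colE c' c z) = colE c' c (colE j l z) -
          (colE c' c (colE j l z) - colE j l (colE c' c z)) := by abel
      rw [h1]
      apply Submodule.sub_mem
      · exact hXf _ (ih j hj l hl hjl y hy)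
      · apply h.f_comm hj hl hjl (P := Submodule.span ℂ {z}) (Q := X)
        · intro u hu
          rw [Submodule.mem_span_singleton] at hu
          obtain ⟨t, rfl⟩ := hu
          rw [map_smul]
          exact Submodule.smul_mem _ _ (hXf _ (Submodule.subset_span ⟨i, y, hy, rfl⟩))
        · intro j hj l hl hjl u hu
          rw [Submodule.mem_span_singleton] at hu
          obtain ⟨t, rfl⟩ := hu
          rw [map_smul]
          exact Submodule.smul_mem _ _ (ih j hj l hl hjl y hy)
        · exact Submodule.mem_span_singleton_self z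
  have hXT : ∀ j ∈ J, ∀ l ∈ J, j ≤ l → ∀ x ∈ X, colE j l x ∈ X := by
    intro j hj l hl hjl
    have : X ≤ X.comap (colE j l) := by
      rw [hX, Submodule.span_le]
      rintro _ ⟨i, y, hy, rfl⟩
      exact hXT0 i j hj l hl hjl y hy
    exact this
  refine le_trans (gen_le ?_ ?_) hXP
  · have h1 : ∀ x j, (x, j) ∈ Dset w A J ↔ (x, Equiv.swap c' c j) ∈
        (Dset (w * Equiv.swap c c') A J).erase (w c', c') := by
      intro x j
      rw [h.erase_iff, Equiv.swap_comm c' c, Equiv.swap_apply_self]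
    obtain ⟨k, t, ht, hk⟩ := ext_vec_iff (c := c') (c' := c) h.ne.symm
      ((Dset (w * Equiv.swap c c') A J).erase (w c', c')) (Dset w A J) (by
        intro x hx
        rw [h.erase_iff] at hx ⊢
        rw [Equiv.swap_apply_left] at hx
        rw [Equiv.swap_apply_right]
        exact h.col x hx) h1
    have h2 : (colE c' c ^ k) (Kost.ee ((Dset (w * Equiv.swap c c') A J).erase (w c', c'))) ∈ X :=
      Submodule.subset_span ⟨k, _, self_mem_gen _ _, rfl⟩
    have h3 := Submodule.smul_mem _ t⁻¹ h2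
    rwa [hk, smul_smul, inv_mul_cancel₀ ht, one_smul] at h3
  · rintro T ⟨j, hj, l, hl, hjl, rfl⟩ x hx
    exact hXT j hj l hl hjl.le x hx

lemma Nmod_e_stable (w : Equiv.Perm (Fin n)) (A : Finset (Fin n)) {J : Finset (Fin n)}
    {c c' : Fin n} (hc : c ∈ J) (hc' : c' ∈ J) (hlt : c < c') :
    ∀ x ∈ Nmod w A J, colE c c' x ∈ Nmod w A J :=
  fun _ hx => colE_mem_gen hc hc' hlt hx

lemma Smod_e_stable (h : SData w A J c c') :
    ∀ x ∈ Smod w A J c c', colE c c' x ∈ Smod w A J c c' :=
  fun _ hx => colE_mem_gen h.mem h.mem' h.lt hx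

/-- the kernel of `q` on `Nmod w' A J` -/
def Pmod (w : Equiv.Perm (Fin n)) (A J : Finset (Fin n)) (c c' : Fin n) : Submodule ℂ (Fk n) :=
  Nmod (w * Equiv.swap c c') A J ⊓ LinearMap.ker (Kost.an (w c', c'))

lemma Pmod_stable_col (w : Equiv.Perm (Fin n)) (A J : Finset (Fin n)) (c c' : Fin n) :
    (colGr n).Stable (Pmod w A J c c') :=
  (Nmod_stable_col _ A J).inf_ker (hom_an_col (w c', c'))

lemma Pmod_col_stable (h : SData w A J c c') {j l : Fin n} (hj : j ∈ J) (hl : l ∈ J)
    (hjl : j < l) : ∀ x ∈ Pmod w A J c c', colE j l x ∈ Pmod w A J c c' := by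
  intro x hx
  refine ⟨colE_mem_gen hj hl hjl hx.1, ?_⟩
  have h1 := q_comm h hj hjl hx.1
  have h2 : Kost.an (w c', c') x = 0 := hx.2
  change Kost.an (w c', c') (colE j l x) = 0
  rw [h1, h2, map_zero]

lemma Pmod_e_stable (h : SData w A J c c') :
    ∀ x ∈ Pmod w A J c c', colE c c' x ∈ Pmod w A J c c' :=
  Pmod_col_stable h h.mem h.mem' h.lt

/-- PART S: with the dimension identity, `Pmod` is centered at `0` and `Nmod w A J ⧸ Smod` is
centered at `-1`, for the raising operator `colE c c'` -/
theorem partS (h : SData w A J c c')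
    (hdim : ∀ (a : Fin n → ℤ) (k : ℕ), a c' - a c = k →
      finrank ℂ ((colGr n).W a ⊓ Nmod w A J : Submodule ℂ (Fk n)) +
        finrank ℂ ((colGr n).W (a - (k + 1) • (Pi.single c' 1 - Pi.single c 1) + Pi.single c' 1) ⊓
          Nmod (w * Equiv.swap c c') A J : Submodule ℂ (Fk n)) =
      finrank ℂ ((colGr n).W (a + Pi.single c' 1) ⊓
          Nmod (w * Equiv.swap c c') A J : Submodule ℂ (Fk n)) +
        finrank ℂ ((colGr n).W (a + (Pi.single c' 1 - Pi.single c 1)) ⊓
          Nmod w A J : Submodule ℂ (Fk n))) :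
    Centered ((colGr n).restrict (Pmod w A J c c') (Pmod_stable_col w A J c c'))
      ((colE c c').restrict (Pmod_e_stable h)) (Pi.single c' 1 - Pi.single c 1) (htJ c c') 0 ∧
    Centered (((colGr n).restrict (Nmod w A J) (Nmod_stable_col w A J)).quot
        ((Smod w A J c c').comap (Nmod w A J).subtype)
        (stable_comap_subtype (Nmod_stable_col w A J) (Smod_stable_col w A J c c')))
      (((Smod w A J c c').comap (Nmod w A J).subtype).mapQ
        ((Smod w A J c c').comap (Nmod w A J).subtype)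
        ((colE c c').restrict (Nmod_e_stable w A h.mem h.mem' h.lt))
        (fun x hx => Smod_e_stable h x hx)) (Pi.single c' 1 - Pi.single c 1) (htJ c c') (-1) := by
  have hε : htJ c c' (Pi.single c' 1) = 1 := by
    simp [h.ne]
  exact partS_abs (G := colGr n) (e := colE c c') (f := colE c' c) (q := Kost.an (w c', c'))
    (ε := Pi.single c' 1) (htJ_alpha h.ne) hε (hom_colE_col c c')
    (by rw [neg_sub]; exact hom_colE_col c' c) (hom_an_col (w c', c'))
    (fun a => colE_ef h.ne a) (M := Nmod w A J) (N := Nmod (w * Equiv.swap c c') A J)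
    (S := Smod w A J c c') (Nmod_stable_col w A J) (Nmod_stable_col _ A J)
    (Smod_stable_col w A J c c') (Nmod_e_stable w A h.mem h.mem' h.lt) (Nmod_f_stable h)
    (Nmod_e_stable _ A h.mem h.mem' h.lt) (Smod_le h) (q_map h)
    (fun x hx => q_comm h h.mem h.lt hx) (Smod_e_stable h) (Pmod_e_stable h)
    (Nmod_le_of_f_stable h) hdim

end main

end

end Gao
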