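import Pool.Agent.Gao.ProgChar
import Pool.Agent.Gao.PartS

/-!
# The J-side character identities

`w` a word, `c < c'` consecutive elements of `J`, `w c` the smallest letter at the positions `J`,
`w' = w * swap c c'`, `N = Nmod w A J`, `N' = Nmod w' A J`, `α = ε_{c'} - ε_c`.

* `Ncol_dd` (`w c' ∈ A`): `N(a) + N'((a + ε_{c'}) ∘ swap) = N'(a + ε_{c'}) + N(a + α)`; `hdim_partS` is the
  hypothesis of `partS`;
* `Ncol_dem` (`w c' ∉ A`): `N(a) + N'((a + α) ∘ swap) = N'(a) + N(a + α)`; `hdim_e3`.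
-/

set_option autoImplicit false

namespace Gao

open Finset Module Pool.Agent.Gao

noncomputable section

/-! ### lists -/

/-- two neighbours in a sorted list -/
lemma split_adj {τ : Type*} (r : τ → τ → Prop) (has : ∀ x y, r x y → ¬ r y x) {l : List τ}
    (hl : l.Pairwise r) {x y : τ} (hx : x ∈ l) (hy : y ∈ l) (hxy : r x y)
    (hb : ∀ z ∈ l, ¬ (r x z ∧ r z y)) : ∃ α β, l = α ++ x :: y :: β := by
  obtain ⟨α, γ, rfl⟩ := List.append_of_mem hx
  rw [List.pairwise_append, List.pairwise_cons] at hl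
  obtain ⟨_, ⟨h2, h3⟩, h4⟩ := hl
  have hyγ : y ∈ γ := by
    rcases List.mem_append.1 hy with h | h
    · exact absurd (h4 y h x List.mem_cons_self) (has _ _ hxy)
    · rcases List.mem_cons.1 h with h | h
      · subst h
        exact absurd hxy (has _ _ hxy)
      · exact h
  cases γ with
  | nil => simp at hyγ
  | cons z γ =>
    rcases List.mem_cons.1 hyγ with h | h
    · subst h
      exact ⟨α, γ, rfl⟩
    · exfalso
      rw [List.pairwise_cons] at h3
      exact hb z (by simp) ⟨h2 z List.mem_cons_self, h3.1 y h⟩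

lemma map_mul_swap {n : ℕ} (w : Equiv.Perm (Fin n)) (c c' : Fin n) (l : List (Fin n)) (hc : c ∉ l)
    (hc' : c' ∉ l) : l.map (w * Equiv.swap c c') = l.map w := by
  apply List.map_congr_left
  intro j hj
  rw [Equiv.Perm.mul_apply, Equiv.swap_apply_of_ne_of_ne]
  · rintro rfl; exact hc hj
  · rintro rfl; exact hc' hj

variable {n : ℕ}

lemma sortGE_pairwise (J : Finset (Fin n)) : (J.sort (· ≥ ·)).Pairwise (fun x y => y < x) :=
  (Finset.sortedGT_sort J).pairwise

lemma sortLE_pairwise (J : Finset (Fin n)) : (J.sort (· ≤ ·)).Pairwise (fun x y => x < y) :=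
  (Finset.sortedLT_sort J).pairwise

lemma gJ_eq (J : Finset (Fin n)) (i : Fin J.card) :
    gJ J i = (J.sort (· ≥ ·))[i.val]'(by rw [Finset.length_sort]; exact i.2) := by
  have h1 : (fun i : Fin J.card => (J.sort (· ≥ ·))[(Fin.rev i).val]'(by
      rw [Finset.length_sort]; exact (Fin.rev i).2)) = J.orderEmbOfFin rfl := by
    apply Finset.orderEmbOfFin_unique
    · intro i
      exact (Finset.mem_sort _).1 (List.getElem_mem _)
    · intro i j hij
      have h2 := List.pairwise_iff_getElem.1 (sortGE_pairwise J) (Fin.rev j).val (Fin.rev i).val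
        (by rw [Finset.length_sort]; exact (Fin.rev j).2)
        (by rw [Finset.length_sort]; exact (Fin.rev i).2) (by
          have := Fin.rev_lt_rev.2 hij
          exact this)
      exact h2
  have h3 := congrFun h1 (Fin.rev i)
  unfold gJ
  rw [← h3]
  simp only [Fin.rev_rev]

/-! ### column characters -/

/-- dimension of the part of column content `a` -/
def colDim (Z : Submodule ℂ (Fk n)) (a : Fin n → ℤ) : ℕ :=
  finrank ℂ ((colGr n).W a ⊓ Z : Submodule ℂ (Fk n))

lemma dataJ_deg (J : Finset (Fin n)) (D : Finset (Fin n × Fin n)) (i : Fin J.card) :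
    (dataJ J).deg D i = colCnt D (gJ J i) := by
  unfold SlotData.deg colCnt
  congr 1
  apply Finset.card_bij (fun x _ => (x, gJ J i))
  · intro x hx
    rw [mem_filter] at hx ⊢
    exact ⟨hx.2, rfl⟩
  · intro x _ y _ h
    exact (Prod.mk.inj h).1
  · rintro ⟨x, j⟩ hx
    rw [mem_filter] at hx
    obtain ⟨h1, h2⟩ := hx
    subst h2
    exact ⟨x, mem_filter.2 ⟨mem_univ _, h1⟩, rfl⟩

lemma gJ_mem (J : Finset (Fin n)) (i : Fin J.card) : gJ J i ∈ J := by
  unfold gJ
  exact Finset.orderEmbOfFin_mem _ _ _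

lemma gJ_surj (J : Finset (Fin n)) {j : Fin n} (hj : j ∈ J) : ∃ i, gJ J i = j := by
  have h1 : j ∈ Set.range (J.orderEmbOfFin rfl) := by
    rw [Finset.range_orderEmbOfFin]
    exact hj
  obtain ⟨i, hi⟩ := h1
  exact ⟨Fin.rev i, by unfold gJ; rw [Fin.rev_rev]; exact hi⟩

lemma gJ_inj (J : Finset (Fin n)) {i i' : Fin J.card} (h : gJ J i = gJ J i') : i = i' :=
  Fin.rev_injective ((J.orderEmbOfFin rfl).injective h)

/-- the two gradings agree on the vectors whose boxes have their columns in `J` -/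
lemma col_π_eq (J : Finset (Fin n)) {E : Finset (Fin n × Fin n)} (hE : ∀ b ∈ E, b.2 ∈ J)
    (a : Fin n → ℤ) {z : Fk n} (hz : z ∈ Fall E) :
    (colGr n).π a z = if ∀ j, j ∉ J → a j = 0 then (fockRep (dataJ J)).π (a ∘ gJ J) z else 0 := by
  have key : ∀ D : Finset (Fin n × Fin n), D ⊆ E → (colGr n).π a (Kost.ee D) =
      if ∀ j, j ∉ J → a j = 0 then (fockRep (dataJ J)).π (a ∘ gJ J) (Kost.ee D) else 0 := by
    intro D hD
    have h0 : ∀ j, j ∉ J → colCnt D j = 0 := by
      intro j hj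
      unfold colCnt
      rw [Finset.filter_eq_empty_iff.2]
      · rfl
      · intro b hb hbj
        exact hj (hbj ▸ hE b (hD hb))
    have e1 : (colGr n).π a (Kost.ee D) = if colCnt D = a then Kost.ee D else 0 := dia_ee _ _
    have e2 : (fockRep (dataJ J)).π (a ∘ gJ J) (Kost.ee D) =
        if (dataJ J).deg D = a ∘ gJ J then Kost.ee D else 0 := dia_ee _ _
    rw [e1, e2]
    by_cases ha : ∀ j, j ∉ J → a j = 0
    · rw [if_pos ha]
      congr 1
      apply propext
      constructor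
      · rintro rfl
        funext i
        exact dataJ_deg J D i
      · intro h
        funext j
        by_cases hj : j ∈ J
        · obtain ⟨i, rfl⟩ := gJ_surj J hj
          rw [← dataJ_deg, h]
          rfl
        · rw [h0 j hj, ha j hj]
    · rw [if_neg ha, if_neg]
      rintro rfl
      exact ha h0
  by_cases ha : ∀ j, j ∉ J → a j = 0
  · rw [if_pos ha]
    have : Fall E ≤ LinearMap.ker ((colGr n).π a - (fockRep (dataJ J)).π (a ∘ gJ J)) := by
      unfold Fall
      rw [Submodule.span_le]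
      rintro _ ⟨D, hD, rfl⟩
      change ((colGr n).π a - (fockRep (dataJ J)).π (a ∘ gJ J)) (Kost.ee D) = 0
      rw [LinearMap.sub_apply, key D hD, if_pos ha, sub_self]
    exact sub_eq_zero.1 (this hz)
  · rw [if_neg ha]
    have : Fall E ≤ LinearMap.ker ((colGr n).π a) := by
      unfold Fall
      rw [Submodule.span_le]
      rintro _ ⟨D, hD, rfl⟩
      change (colGr n).π a (Kost.ee D) = 0
      rw [key D hD, if_neg ha]
    exact this hz

lemma colDim_eq_map {Z : Submodule ℂ (Fk n)} (hZ : (colGr n).Stable Z) (a : Fin n → ℤ) :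
    colDim Z a = finrank ℂ (Z.map ((colGr n).π a)) := by
  have : ((colGr n).W a ⊓ Z : Submodule ℂ (Fk n)) = Z.map ((colGr n).π a) := by
    ext x
    constructor
    · rintro ⟨h1, h2⟩
      exact ⟨x, h2, (colGr n).π_of_mem h1⟩
    · rintro ⟨z, hz, rfl⟩
      exact ⟨(colGr n).π_mem a z, hZ a z hz⟩
  unfold colDim
  rw [this]

lemma colDim_eq (J : Finset (Fin n)) {E : Finset (Fin n × Fin n)} (hE : ∀ b ∈ E, b.2 ∈ J)
    {Z : Submodule ℂ (Fk n)} (hZ : (colGr n).Stable Z) (hZE : Z ≤ Fall E) (a : Fin n → ℤ) :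
    (colDim Z a : ℤ) =
      if ∀ j, j ∉ J → a j = 0 then (fockRep (dataJ J)).ch Z (a ∘ gJ J) else 0 := by
  rw [colDim_eq_map hZ]
  by_cases ha : ∀ j, j ∉ J → a j = 0
  · rw [if_pos ha]
    unfold GLRep.ch GLRep.wd
    have : Z.map ((colGr n).π a) = Z.map ((fockRep (dataJ J)).π (a ∘ gJ J)) := by
      ext x
      constructor
      · rintro ⟨z, hz, rfl⟩
        refine ⟨z, hz, ?_⟩
        rw [col_π_eq J hE a (hZE hz), if_pos ha]
      · rintro ⟨z, hz, rfl⟩
        refine ⟨z, hz, ?_⟩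
        rw [col_π_eq J hE a (hZE hz), if_pos ha]
    rw [this]
  · rw [if_neg ha]
    have : Z.map ((colGr n).π a) = ⊥ := by
      rw [eq_bot_iff]
      rintro _ ⟨z, hz, rfl⟩
      rw [col_π_eq J hE a (hZE hz), if_neg ha]
      exact Submodule.zero_mem _
    rw [this, finrank_bot]
    rfl

/-! ### the words -/

lemma symm_mem_map {w : Equiv.Perm (Fin n)} {A J : Finset (Fin n)} (hA : ∀ x ∈ A, w.symm x ∈ J) :
    A ⊆ J.map w.toEmbedding := by
  intro x hx
  rw [Finset.mem_map]
  exact ⟨w.symm x, hA x hx, by simp⟩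

/-- the character of `Nmod w A J` -/
theorem toPol_Nmod {w : Equiv.Perm (Fin n)} {A J : Finset (Fin n)}
    (hA : ∀ x ∈ A, w.symm x ∈ J) : toPol ((fockRep (dataJ J)).ch (Nmod w A J)) =
      chi vJ (fun _ => true) (fun p => decide (p ∈ A)) (LJ w J) := by
  have h := toPol_fock_run (dataJ J) A vJ (fun _ => true) (LJ w J) (LJ_nodup w J)
    (fun _ _ _ _ h => vJ_inj h) (by
      refine (List.countP_le_length).trans ?_
      unfold LJ
      rw [List.length_map, Finset.length_sort])
  have h2 := run_progJ w A J (symm_mem_map hA) (fun _ => 0)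
  rw [Dadj_zero] at h2
  unfold progJ at h2
  rw [← h, h2]
  rfl

/-- the two words of an exchange step -/
lemma LJ_step {w : Equiv.Perm (Fin n)} {J : Finset (Fin n)} {c c' : Fin n} (hlt : c < c')
    (hc : c ∈ J) (hc' : c' ∈ J) (hadj : ∀ j ∈ J, ¬ (c < j ∧ j < c')) :
    ∃ α β : List (Fin n), LJ w J = α ++ w c' :: w c :: β ∧
      LJ (w * Equiv.swap c c') J = α ++ w c :: w c' :: β ∧
      ∃ h : α.length + 1 < J.card, gJ J (lo α.length h) = c' ∧ gJ J (hi α.length h) = c := by
  obtain ⟨α, β, h⟩ := split_adj (fun x y : Fin n => y < x) (fun x y h => not_lt.2 h.le)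
    (sortGE_pairwise J) ((Finset.mem_sort _).2 hc') ((Finset.mem_sort _).2 hc) hlt
    (fun z hz h => hadj z ((Finset.mem_sort _).1 hz) ⟨h.2, h.1⟩)
  have hnd : (α ++ c' :: c :: β).Nodup := by
    rw [← h]
    exact Finset.sort_nodup _ _
  have hcα : c ∉ α ∧ c' ∉ α ∧ c ∉ β ∧ c' ∉ β := by
    rw [List.nodup_append] at hnd
    obtain ⟨_, h2, h3⟩ := hnd
    rw [List.nodup_cons, List.nodup_cons] at h2
    refine ⟨fun h' => h3 c h' c (by simp) rfl, fun h' => h3 c' h' c' (by simp) rfl, h2.2.1,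
      fun h' => h2.1 (List.mem_cons_of_mem _ h')⟩
  have hlen : α.length + 1 < J.card := by
    have h1 := congrArg List.length h
    rw [Finset.length_sort] at h1
    simp only [List.length_append, List.length_cons] at h1
    omega
  refine ⟨α.map w, β.map w, ?_, ?_, ?_⟩
  · unfold LJ
    rw [h]
    simp
  · unfold LJ
    rw [h, List.map_append, List.map_cons, List.map_cons,
      map_mul_swap w c c' α hcα.1 hcα.2.1, map_mul_swap w c c' β hcα.2.2.1 hcα.2.2.2]
    simp
  · have hlen' : (α.map w).length + 1 < J.card := by rwa [List.length_map]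
    refine ⟨hlen', ?_, ?_⟩
    · rw [gJ_eq]
      simp only [h, lo, List.length_map]
      rw [List.getElem_append_right (le_refl _)]
      simp
    · rw [gJ_eq]
      simp only [h, hi, List.length_map]
      rw [List.getElem_append_right (by omega)]
      simp

lemma vJ_lt {x y : Fin n} (h : x < y) : vJ y < vJ x := by
  unfold vJ
  have := x.isLt
  have := y.isLt
  rw [Fin.lt_def] at h
  omega

/-- the character identity, polynomial form -/
lemma chiJ_step {w : Equiv.Perm (Fin n)} {J : Finset (Fin n)} {c c' : Fin n}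
    (hc : c ∈ J) (hc' : c' ∈ J) (hmin : ∀ j ∈ J, w c ≤ w j) (hne : c ≠ c') (B : Fin n → Bool)
    {α β : List (Fin n)} (h1 : LJ w J = α ++ w c' :: w c :: β)
    (h2 : LJ (w * Equiv.swap c c') J = α ++ w c :: w c' :: β) :
    chi vJ (fun _ => true) B (LJ w J) =
      if B (w c') then dd α.length (chi vJ (fun _ => true) B (LJ (w * Equiv.swap c c') J))
      else dem α.length (chi vJ (fun _ => true) B (LJ (w * Equiv.swap c c') J)) := by
  rw [h1, h2]
  have hnd : (α ++ w c' :: w c :: β).Nodup := h1 ▸ LJ_nodup w J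
  refine exchange_large (chi_smallRec vJ (fun _ => true) B) _ α β (w c') (w c) rfl ?_ ?_ ?_
  · exact hnd.imp (fun hxy h => hxy (vJ_inj h))
  · intro a _
    rfl
  · intro a ha
    apply vJ_lt
    have haL : a ∈ LJ w J := by
      rw [h1]
      simp only [List.mem_append, List.mem_cons] at ha ⊢
      tauto
    rw [mem_LJ] at haL
    have h3 := hmin _ haL
    rw [Equiv.apply_symm_apply] at h3
    refine lt_of_le_of_ne h3 ?_
    rintro rfl
    rw [List.nodup_append] at hnd
    obtain ⟨_, h4, h5⟩ := hnd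
    rw [List.nodup_cons, List.nodup_cons] at h4
    simp only [List.mem_append, List.mem_cons] at ha
    rcases ha with ha | ha | ha
    · exact h5 _ ha (w c) (by simp) rfl
    · exact hne (w.injective ha)
    · exact h4.2.1 ha

/-! ### reindexing -/

lemma gJ_single (J : Finset (Fin n)) (i : Fin J.card) :
    (Pi.single (gJ J i) 1 : Fin n → ℤ) ∘ gJ J = Pi.single i 1 := by
  funext k
  by_cases h : k = i
  · subst h
    rw [Function.comp_apply, Pi.single_eq_same, Pi.single_eq_same]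
  · rw [Function.comp_apply, Pi.single_eq_of_ne (fun h' => h (gJ_inj J h')),
      Pi.single_eq_of_ne h]

lemma gJ_swap (J : Finset (Fin n)) (i i' : Fin J.card) (a : Fin n → ℤ) :
    (a ∘ Equiv.swap (gJ J i) (gJ J i')) ∘ gJ J = (a ∘ gJ J) ∘ Equiv.swap i i' := by
  funext k
  simp only [Function.comp_apply]
  congr 1
  by_cases h : k = i
  · subst h
    rw [Equiv.swap_apply_left, Equiv.swap_apply_left]
  · by_cases h' : k = i'
    · subst h'
      rw [Equiv.swap_apply_right, Equiv.swap_apply_right]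
    · rw [Equiv.swap_apply_of_ne_of_ne h h', Equiv.swap_apply_of_ne_of_ne
        (fun hh => h (gJ_inj J hh)) (fun hh => h' (gJ_inj J hh))]

lemma Fset_col (w : Equiv.Perm (Fin n)) (A J : Finset (Fin n)) : ∀ b ∈ Fset w A J, b.2 ∈ J := by
  intro b hb
  rw [mem_Fset] at hb
  exact hb.2.1

lemma Nmod_colDim (w : Equiv.Perm (Fin n)) (A J : Finset (Fin n)) (a : Fin n → ℤ) :
    (colDim (Nmod w A J) a : ℤ) =
      if ∀ j, j ∉ J → a j = 0 then (fockRep (dataJ J)).ch (Nmod w A J) (a ∘ gJ J) else 0 :=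
  colDim_eq J (Fset_col w A J) (Nmod_stable_col w A J) (Nmod_le_Fall w A J) a

lemma off_sub_iff {J : Finset (Fin n)} {c : Fin n} (hc : c ∈ J) (a : Fin n → ℤ) (t : ℤ) :
    (∀ j, j ∉ J → (a - (Pi.single c t : Fin n → ℤ)) j = 0) ↔ ∀ j, j ∉ J → a j = 0 := by
  apply forall_congr'
  intro j
  apply imp_congr_right
  intro hj
  have h : j ≠ c := by
    rintro rfl
    exact hj hc
  rw [Pi.sub_apply, Pi.single_eq_of_ne h, sub_zero]

lemma off_swap_iff {J : Finset (Fin n)} {c c' : Fin n} (hc : c ∈ J) (hc' : c' ∈ J)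
    (a : Fin n → ℤ) : (∀ j, j ∉ J → (a ∘ Equiv.swap c c') j = 0) ↔ ∀ j, j ∉ J → a j = 0 := by
  apply forall_congr'
  intro j
  apply imp_congr_right
  intro hj
  have h : j ≠ c := by
    rintro rfl
    exact hj hc
  have h' : j ≠ c' := by
    rintro rfl
    exact hj hc'
  rw [Function.comp_apply, Equiv.swap_apply_of_ne_of_ne h h']

lemma symm_mul_swap_mem {w : Equiv.Perm (Fin n)} {A J : Finset (Fin n)} {c c' : Fin n}
    (hc : c ∈ J) (hc' : c' ∈ J) (hA : ∀ x ∈ A, w.symm x ∈ J) :
    ∀ x ∈ A, (w * Equiv.swap c c').symm x ∈ J := by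
  intro x hx
  change Equiv.swap c c' (w.symm x) ∈ J
  rcases eq_or_ne (w.symm x) c with h | h
  · rw [h, Equiv.swap_apply_left]; exact hc'
  · rcases eq_or_ne (w.symm x) c' with h' | h'
    · rw [h', Equiv.swap_apply_right]; exact hc
    · rw [Equiv.swap_apply_of_ne_of_ne h h']; exact hA x hx

section main

variable {w : Equiv.Perm (Fin n)} {A J : Finset (Fin n)} {c c' : Fin n}

/-- the divided difference -/
theorem Ncol_dd (hlt : c < c') (hc : c ∈ J) (hc' : c' ∈ J) (hadj : ∀ j ∈ J, ¬ (c < j ∧ j < c'))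
    (hmin : ∀ j ∈ J, w c ≤ w j) (hA : ∀ x ∈ A, w.symm x ∈ J) (hb : w c' ∈ A) (a : Fin n → ℤ) :
    (colDim (Nmod w A J) (a - Pi.single c' 1) : ℤ) - colDim (Nmod w A J) (a - Pi.single c 1) =
      colDim (Nmod (w * Equiv.swap c c') A J) a -
        colDim (Nmod (w * Equiv.swap c c') A J) (a ∘ Equiv.swap c c') := by
  obtain ⟨α, β, h1, h2, hlen, hg1, hg2⟩ := LJ_step hlt hc hc' hadj (w := w)
  have hp := chiJ_step hc hc' hmin hlt.ne (fun p => decide (p ∈ A)) h1 h2
  rw [if_pos (decide_eq_true hb), ← toPol_Nmod hA,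
    ← toPol_Nmod (symm_mul_swap_mem hc hc' hA)] at hp
  have hdd := (isDd_iff α.length hlen ((fockRep (dataJ J)).ch_NNF _)
    ((fockRep (dataJ J)).ch_NNF _)).2 hp
  simp only [Nmod_colDim, off_sub_iff hc, off_sub_iff hc', off_swap_iff hc hc']
  by_cases ha : ∀ j, j ∉ J → a j = 0
  · simp only [if_pos ha]
    have h3 := hdd (a ∘ gJ J)
    have e1 : (a ∘ gJ J) - Pi.single (lo α.length hlen) 1 = (a - Pi.single c' 1) ∘ gJ J := by
      rw [← gJ_single J (lo α.length hlen), hg1]
      rfl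
    have e2 : (a ∘ gJ J) - Pi.single (hi α.length hlen) 1 = (a - Pi.single c 1) ∘ gJ J := by
      rw [← gJ_single J (hi α.length hlen), hg2]
      rfl
    have e3 : sWt α.length hlen (a ∘ gJ J) = (a ∘ Equiv.swap c c') ∘ gJ J := by
      unfold sWt
      rw [← gJ_swap, hg1, hg2, Equiv.swap_comm]
    rw [e1, e2, e3] at h3
    exact h3
  · simp only [if_neg ha, sub_self]

/-- the Demazure operator -/
theorem Ncol_dem (hlt : c < c') (hc : c ∈ J) (hc' : c' ∈ J) (hadj : ∀ j ∈ J, ¬ (c < j ∧ j < c'))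
    (hmin : ∀ j ∈ J, w c ≤ w j) (hA : ∀ x ∈ A, w.symm x ∈ J) (hb : w c' ∉ A) (a : Fin n → ℤ) :
    (colDim (Nmod w A J) a : ℤ) - colDim (Nmod w A J) (a + (Pi.single c' 1 - Pi.single c 1)) =
      colDim (Nmod (w * Equiv.swap c c') A J) a -
        colDim (Nmod (w * Equiv.swap c c') A J)
          ((a + (Pi.single c' 1 - Pi.single c 1)) ∘ Equiv.swap c c') := by
  obtain ⟨α, β, h1, h2, hlen, hg1, hg2⟩ := LJ_step hlt hc hc' hadj (w := w)
  have hp := chiJ_step hc hc' hmin hlt.ne (fun p => decide (p ∈ A)) h1 h2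
  rw [if_neg (by simpa using hb), ← toPol_Nmod hA,
    ← toPol_Nmod (symm_mul_swap_mem hc hc' hA)] at hp
  have hdem := (isDem_iff α.length hlen ((fockRep (dataJ J)).ch_NNF _)
    ((fockRep (dataJ J)).ch_NNF _)).2 hp
  have hoff : (∀ j, j ∉ J → (a + ((Pi.single c' 1 : Fin n → ℤ) - Pi.single c 1) : Fin n → ℤ) j = 0) ↔
      ∀ j, j ∉ J → a j = 0 := by
    rw [show a + ((Pi.single c' 1 : Fin n → ℤ) - Pi.single c 1) =
      (a - Pi.single c 1) - Pi.single c' (-1) by
      rw [Pi.single_neg]; abel, off_sub_iff hc', off_sub_iff hc]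
  simp only [Nmod_colDim, off_swap_iff hc hc', hoff]
  by_cases ha : ∀ j, j ∉ J → a j = 0
  · simp only [if_pos ha]
    have h3 := hdem.2.2 (a ∘ gJ J)
    have e1 : (a ∘ gJ J) + alp α.length hlen = (a + (Pi.single c' 1 - Pi.single c 1)) ∘ gJ J := by
      unfold alp
      rw [← gJ_single J (lo α.length hlen), ← gJ_single J (hi α.length hlen), hg1, hg2]
      rfl
    have e3 : sWt α.length hlen ((a + (Pi.single c' 1 - Pi.single c 1)) ∘ gJ J) =
        ((a + (Pi.single c' 1 - Pi.single c 1)) ∘ Equiv.swap c c') ∘ gJ J := by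
      unfold sWt
      rw [← gJ_swap, hg1, hg2, Equiv.swap_comm]
    rw [e1, e3] at h3
    exact h3
  · simp only [if_neg ha, sub_self]

lemma swap_weight {a : Fin n → ℤ} {k : ℕ} (hne : c ≠ c') (hk : a c' - a c = k) :
    (a + Pi.single c' 1) ∘ Equiv.swap c c' =
      a - (k + 1) • (Pi.single c' 1 - Pi.single c 1) + Pi.single c' 1 := by
  funext j
  by_cases h : j = c
  · subst h
    simp [hne]
    omega
  · by_cases h' : j = c'
    · subst h'
      simp [hne.symm, hne]
      omega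
    · simp [h, h', Equiv.swap_apply_of_ne_of_ne h h']

lemma swap_weight' {a : Fin n → ℤ} {k : ℕ} (hne : c ≠ c') (hk : a c' - a c = k) :
    (a + (Pi.single c' 1 - Pi.single c 1)) ∘ Equiv.swap c c' =
      a - (k + 1) • (Pi.single c' 1 - Pi.single c 1) := by
  funext j
  by_cases h : j = c
  · subst h
    simp [hne]
    omega
  · by_cases h' : j = c'
    · subst h'
      simp [hne.symm, hne]
      omega
    · simp [h, h', Equiv.swap_apply_of_ne_of_ne h h']

/-- the hypothesis `hdim` of `partS` -/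
theorem hdim_partS (h : SData w A J c c') (a : Fin n → ℤ) (k : ℕ) (hk : a c' - a c = k) :
    finrank ℂ ((colGr n).W a ⊓ Nmod w A J : Submodule ℂ (Fk n)) +
      finrank ℂ ((colGr n).W (a - (k + 1) • (Pi.single c' 1 - Pi.single c 1) + Pi.single c' 1) ⊓
        Nmod (w * Equiv.swap c c') A J : Submodule ℂ (Fk n)) =
    finrank ℂ ((colGr n).W (a + Pi.single c' 1) ⊓
        Nmod (w * Equiv.swap c c') A J : Submodule ℂ (Fk n)) +
      finrank ℂ ((colGr n).W (a + (Pi.single c' 1 - Pi.single c 1)) ⊓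
        Nmod w A J : Submodule ℂ (Fk n)) := by
  have h1 := Ncol_dd h.lt h.mem h.mem' h.adj h.min h.AJ h.bA (a + Pi.single c' 1)
  rw [swap_weight h.ne hk] at h1
  have e1 : a + Pi.single c' 1 - Pi.single c' 1 = a := by abel
  have e2 : a + Pi.single c' 1 - Pi.single c 1 = a + (Pi.single c' 1 - Pi.single c 1) := by abel
  rw [e1, e2] at h1
  unfold colDim at h1
  zify
  linarith

/-- the dimension identity for the step `w c' ∉ A` -/
theorem hdim_e3 (hlt : c < c') (hc : c ∈ J) (hc' : c' ∈ J) (hadj : ∀ j ∈ J, ¬ (c < j ∧ j < c'))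
    (hmin : ∀ j ∈ J, w c ≤ w j) (hA : ∀ x ∈ A, w.symm x ∈ J) (hb : w c' ∉ A) (a : Fin n → ℤ)
    (k : ℕ) (hk : a c' - a c = k) :
    finrank ℂ ((colGr n).W a ⊓ Nmod w A J : Submodule ℂ (Fk n)) +
      finrank ℂ ((colGr n).W (a - (k + 1) • (Pi.single c' 1 - Pi.single c 1)) ⊓
        Nmod (w * Equiv.swap c c') A J : Submodule ℂ (Fk n)) =
    finrank ℂ ((colGr n).W a ⊓ Nmod (w * Equiv.swap c c') A J : Submodule ℂ (Fk n)) +
      finrank ℂ ((colGr n).W (a + (Pi.single c' 1 - Pi.single c 1)) ⊓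
        Nmod w A J : Submodule ℂ (Fk n)) := by
  have h1 := Ncol_dem hlt hc hc' hadj hmin hA hb a
  rw [swap_weight' hlt.ne hk] at h1
  unfold colDim at h1
  zify
  linarith

end main

end

end Gao
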