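import Mathlib

/-!
# Divided differences and Demazure operators on `ℤ[x_0, x_1, …]`

`sw c` exchanges the variables `x_c` and `x_{c+1}`,
`(x_c - x_{c+1}) * dd c f = f - sw c f`, `dem c f = dd c (x_c * f)`, that is
`(x_c - x_{c+1}) * dem c f = x_c f - x_{c+1} sw c f`.
-/

set_option autoImplicit false

namespace Pool.Agent.Gao

open MvPolynomial

/-- the polynomial ring in variables `x_0, x_1, …` -/
abbrev Pol := MvPolynomial ℕ ℤ

/-- exchange of the variables `x_c` and `x_{c+1}` -/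
noncomputable def sw (c : ℕ) : Pol →ₐ[ℤ] Pol := rename (Equiv.swap c (c + 1))

@[simp] lemma sw_X_left (c : ℕ) : sw c (X c) = X (c + 1) := by simp [sw]
@[simp] lemma sw_X_right (c : ℕ) : sw c (X (c + 1)) = X c := by simp [sw]
lemma sw_X_of_ne {c i : ℕ} (h1 : i ≠ c) (h2 : i ≠ c + 1) : sw c (X i) = X i := by
  simp [sw, Equiv.swap_apply_of_ne_of_ne h1 h2]

lemma sw_X (c i : ℕ) : sw c (X i) = X (Equiv.swap c (c + 1) i) := by simp [sw]

@[simp] lemma sw_sw (c : ℕ) (f : Pol) : sw c (sw c f) = f := by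
  unfold sw
  rw [rename_rename]
  have : (⇑(Equiv.swap c (c + 1)) ∘ ⇑(Equiv.swap c (c + 1))) = id := by
    funext i; simp
  rw [this, rename_id_apply]

lemma sw_comm {c d : ℕ} (h : c + 2 ≤ d) (f : Pol) : sw c (sw d f) = sw d (sw c f) := by
  unfold sw
  rw [rename_rename, rename_rename]
  congr 2
  funext i
  simp only [Function.comp]
  simp only [Equiv.swap_apply_def]
  split_ifs <;> omega

lemma sw_braid (c : ℕ) (f : Pol) : sw c (sw (c + 1) (sw c f)) = sw (c + 1) (sw c (sw (c + 1) f)) := by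
  unfold sw
  rw [rename_rename, rename_rename, rename_rename, rename_rename]
  congr 2
  funext i
  simp only [Function.comp]
  simp only [Equiv.swap_apply_def]
  split_ifs <;> omega

lemma sub_ne_zero' {i j : ℕ} (h : i ≠ j) : (X i - X j : Pol) ≠ 0 := by
  rw [sub_ne_zero]
  intro h'
  exact h (X_injective h')

lemma cancel {i j : ℕ} (h : i ≠ j) {f g : Pol} (hfg : (X i - X j) * f = (X i - X j) * g) : f = g :=
  mul_left_cancel₀ (sub_ne_zero' h) hfg

lemma exists_dd (c : ℕ) (f : Pol) : ∃ g : Pol, (X c - X (c + 1)) * g = f - sw c f := by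
  have key : (Ideal.Quotient.mkₐ ℤ (Ideal.span {(X c - X (c + 1) : Pol)})) =
      (Ideal.Quotient.mkₐ ℤ (Ideal.span {(X c - X (c + 1) : Pol)})).comp (sw c) := by
    apply MvPolynomial.algHom_ext
    intro i
    simp only [AlgHom.comp_apply, Ideal.Quotient.mkₐ_eq_mk]
    rw [Ideal.Quotient.eq, Ideal.mem_span_singleton]
    by_cases h1 : i = c
    · subst h1; rw [sw_X_left]
    · by_cases h2 : i = c + 1
      · subst h2; rw [sw_X_right]; exact ⟨-1, by ring⟩
      · rw [sw_X_of_ne h1 h2]; simp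
  have h := congrArg (fun φ => φ f) key
  simp only [AlgHom.comp_apply, Ideal.Quotient.mkₐ_eq_mk] at h
  rw [Ideal.Quotient.eq, Ideal.mem_span_singleton] at h
  obtain ⟨g, hg⟩ := h
  exact ⟨g, hg.symm⟩

/-- the divided difference `(f - sw c f) / (x_c - x_{c+1})` -/
noncomputable def dd (c : ℕ) : Pol →ₗ[ℤ] Pol where
  toFun f := (exists_dd c f).choose
  map_add' f g := by
    apply cancel (Nat.ne_of_lt (Nat.lt_succ_self c))
    rw [mul_add, (exists_dd c f).choose_spec, (exists_dd c g).choose_spec,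
      (exists_dd c (f + g)).choose_spec, map_add]
    ring
  map_smul' a f := by
    apply cancel (Nat.ne_of_lt (Nat.lt_succ_self c))
    rw [(exists_dd c (a • f)).choose_spec, RingHom.id_apply, mul_smul_comm,
      (exists_dd c f).choose_spec, map_smul, smul_sub]

lemma dd_spec (c : ℕ) (f : Pol) : (X c - X (c + 1)) * dd c f = f - sw c f :=
  (exists_dd c f).choose_spec

lemma dd_unique {c : ℕ} {f g : Pol} (h : (X c - X (c + 1)) * g = f - sw c f) : dd c f = g := by
  apply cancel (Nat.ne_of_lt (Nat.lt_succ_self c))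
  rw [dd_spec, h]

/-- the Demazure operator -/
noncomputable def dem (c : ℕ) : Pol →ₗ[ℤ] Pol where
  toFun f := dd c (X c * f)
  map_add' f g := by rw [mul_add, map_add]
  map_smul' a f := by rw [mul_smul_comm, map_smul]; rfl

lemma dem_def (c : ℕ) (f : Pol) : dem c f = dd c (X c * f) := rfl

lemma dem_spec (c : ℕ) (f : Pol) :
    (X c - X (c + 1)) * dem c f = X c * f - X (c + 1) * sw c f := by
  rw [dem_def, dd_spec, map_mul, sw_X_left]

lemma dem_unique {c : ℕ} {f g : Pol}
    (h : (X c - X (c + 1)) * g = X c * f - X (c + 1) * sw c f) : dem c f = g := by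
  apply cancel (Nat.ne_of_lt (Nat.lt_succ_self c))
  rw [dem_spec, h]

lemma dem_eq_add (c : ℕ) (f : Pol) : dem c f = f + X (c + 1) * dd c f := by
  apply dem_unique
  have h := dd_spec c f
  linear_combination (X (c + 1)) * h

lemma sw_dd (c : ℕ) (f : Pol) : sw c (dd c f) = dd c f := by
  apply cancel (Nat.ne_of_lt (Nat.lt_succ_self c))
  have h := congrArg (sw c) (dd_spec c f)
  rw [map_mul, map_sub, map_sub, sw_X_left, sw_X_right, sw_sw] at h
  rw [dd_spec]
  linear_combination -h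

lemma sw_dem (c : ℕ) (f : Pol) : sw c (dem c f) = dem c f := sw_dd c _

lemma dd_mul (c : ℕ) (f g : Pol) : dd c (f * g) = dd c f * g + sw c f * dd c g := by
  apply dd_unique
  rw [map_mul]
  linear_combination g * dd_spec c f + sw c f * dd_spec c g

lemma dd_mul_of_sw {c : ℕ} {f : Pol} (hf : sw c f = f) (g : Pol) : dd c (f * g) = f * dd c g := by
  apply dd_unique
  rw [map_mul, hf]
  linear_combination f * dd_spec c g

lemma dem_mul_of_sw {c : ℕ} {f : Pol} (hf : sw c f = f) (g : Pol) :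
    dem c (f * g) = f * dem c g := by
  apply dem_unique
  rw [map_mul, hf]
  linear_combination f * dem_spec c g

lemma dd_eq_zero {c : ℕ} {f : Pol} (hf : sw c f = f) : dd c f = 0 := by
  apply dd_unique
  rw [hf]; ring

lemma dem_eq_self {c : ℕ} {f : Pol} (hf : sw c f = f) : dem c f = f := by
  apply dem_unique
  rw [hf]; ring

lemma sw_eq_of_dd_eq_zero {c : ℕ} {f : Pol} (hf : dd c f = 0) : sw c f = f := by
  have h := dd_spec c f
  rw [hf, mul_zero] at h
  linear_combination h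

lemma dd_dd (c : ℕ) (f : Pol) : dd c (dd c f) = 0 := dd_eq_zero (sw_dd c f)
lemma dem_dem (c : ℕ) (f : Pol) : dem c (dem c f) = dem c f := dem_eq_self (sw_dem c f)
lemma dd_dem (c : ℕ) (f : Pol) : dd c (dem c f) = 0 := dd_eq_zero (sw_dem c f)
lemma dem_dd (c : ℕ) (f : Pol) : dem c (dd c f) = dd c f := dem_eq_self (sw_dd c f)

/-- weight `1` for the coroot: `x_c A` with `A` arbitrary -/
lemma dem_X_left_mul (c : ℕ) (A : Pol) : dem c (X c * A) = X c * A + X (c + 1) * dem c A := by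
  rw [dem_eq_add, dem_def c A]

/-- weight `-1` for the coroot: `x_{c+1} B` -/
lemma dem_X_right_mul (c : ℕ) (B : Pol) : dem c (X (c + 1) * B) = X c * (dem c B - B) := by
  apply dem_unique
  rw [map_mul, sw_X_right]
  linear_combination (X c) * dem_spec c B

lemma dem_X_right_mul_of_sw {c : ℕ} {B : Pol} (hB : sw c B = B) : dem c (X (c + 1) * B) = 0 := by
  rw [dem_X_right_mul, dem_eq_self hB, sub_self, mul_zero]

lemma dd_X_left_mul (c : ℕ) (f : Pol) : dd c (X c * f) = dem c f := rfl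

/-! ### commutation of distant operators -/

section comm

variable {c d : ℕ}

lemma sw_dd_comm (h : c + 2 ≤ d) (f : Pol) : sw c (dd d f) = dd d (sw c f) := by
  symm
  apply dd_unique
  have h1 := congrArg (sw c) (dd_spec d f)
  rw [map_mul, map_sub, map_sub, sw_X_of_ne (by omega) (by omega),
    sw_X_of_ne (by omega) (by omega), sw_comm h] at h1
  exact h1

lemma sw_dd_comm' (h : c + 2 ≤ d) (f : Pol) : sw d (dd c f) = dd c (sw d f) := by
  symm
  apply dd_unique
  have h1 := congrArg (sw d) (dd_spec c f)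
  rw [map_mul, map_sub, map_sub, sw_X_of_ne (by omega) (by omega),
    sw_X_of_ne (by omega) (by omega), ← sw_comm h] at h1
  exact h1

lemma dd_dd_comm (h : c + 2 ≤ d) (f : Pol) : dd c (dd d f) = dd d (dd c f) := by
  apply dd_unique
  rw [sw_dd_comm h]
  apply cancel (show d ≠ d + 1 by omega)
  rw [mul_sub, dd_spec, dd_spec]
  have h1 := dd_spec d (dd c f)
  have h2 := dd_spec c f
  have h3 := congrArg (sw d) h2
  rw [map_mul, map_sub, map_sub, sw_X_of_ne (by omega) (by omega),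
    sw_X_of_ne (by omega) (by omega), ← sw_comm h] at h3
  rw [sw_comm h] at h3
  linear_combination (X c - X (c + 1)) * h1 + h2 - h3

lemma sw_dem_comm (h : c + 2 ≤ d) (f : Pol) : sw c (dem d f) = dem d (sw c f) := by
  rw [dem_def, dem_def, sw_dd_comm h, map_mul, sw_X_of_ne (by omega) (by omega)]

lemma sw_dem_comm' (h : c + 2 ≤ d) (f : Pol) : sw d (dem c f) = dem c (sw d f) := by
  rw [dem_def, dem_def, sw_dd_comm' h, map_mul, sw_X_of_ne (by omega) (by omega)]

lemma dd_dem_comm (h : c + 2 ≤ d) (f : Pol) : dd c (dem d f) = dem d (dd c f) := by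
  rw [dem_def, dem_def, dd_dd_comm h, dd_mul_of_sw (sw_X_of_ne (by omega) (by omega))]

lemma dd_dem_comm' (h : c + 2 ≤ d) (f : Pol) : dd d (dem c f) = dem c (dd d f) := by
  rw [dem_def, dem_def, ← dd_dd_comm h, dd_mul_of_sw (sw_X_of_ne (by omega) (by omega))]

lemma dem_dem_comm (h : c + 2 ≤ d) (f : Pol) : dem c (dem d f) = dem d (dem c f) := by
  rw [dem_def c (dem d f), ← dem_mul_of_sw (sw_X_of_ne (by omega) (by omega)), dd_dem_comm h,
    ← dem_def]

end comm

/-! ### adjacent operators -/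

section adj

lemma sw_dem_succ (c : ℕ) (f : Pol) : (X c - X (c + 2)) * sw c (dem (c + 1) f) =
    X c * sw c f - X (c + 2) * sw c (sw (c + 1) f) := by
  have h := congrArg (sw c) (dem_spec (c + 1) f)
  simp only [map_mul, map_sub, sw_X_right] at h
  rwa [sw_X_of_ne (show c + 1 + 1 ≠ c by omega) (by omega)] at h

lemma sw_dem_pred (c : ℕ) (f : Pol) : (X c - X (c + 2)) * sw (c + 1) (dem c f) =
    X c * sw (c + 1) f - X (c + 2) * sw (c + 1) (sw c f) := by
  have h := congrArg (sw (c + 1)) (dem_spec c f)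
  simp only [map_mul, map_sub, sw_X_left] at h
  rwa [sw_X_of_ne (show c ≠ c + 1 by omega) (by omega)] at h

lemma sw_dd_succ (c : ℕ) (f : Pol) : (X c - X (c + 2)) * sw c (dd (c + 1) f) =
    sw c f - sw c (sw (c + 1) f) := by
  have h := congrArg (sw c) (dd_spec (c + 1) f)
  simp only [map_mul, map_sub, sw_X_right] at h
  rwa [sw_X_of_ne (show c + 1 + 1 ≠ c by omega) (by omega)] at h

lemma sw_dd_pred (c : ℕ) (f : Pol) : (X c - X (c + 2)) * sw (c + 1) (dd c f) =
    sw (c + 1) f - sw (c + 1) (sw c f) := by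
  have h := congrArg (sw (c + 1)) (dd_spec c f)
  simp only [map_mul, map_sub, sw_X_left] at h
  rwa [sw_X_of_ne (show c ≠ c + 1 by omega) (by omega)] at h

/-- `s t (x - z) = y - z` rule -/
lemma sw_sw_dem_pred (c : ℕ) (f : Pol) : (X (c + 1) - X (c + 2)) * sw c (sw (c + 1) (dem c f)) =
    X (c + 1) * sw c (sw (c + 1) f) - X (c + 2) * sw c (sw (c + 1) (sw c f)) := by
  have h := congrArg (sw c) (sw_dem_pred c f)
  simp only [map_mul, map_sub, sw_X_left] at h
  rwa [sw_X_of_ne (show c + 2 ≠ c by omega) (by omega)] at h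

lemma sw_sw_dd_pred (c : ℕ) (f : Pol) : (X (c + 1) - X (c + 2)) * sw c (sw (c + 1) (dd c f)) =
    sw c (sw (c + 1) f) - sw c (sw (c + 1) (sw c f)) := by
  have h := congrArg (sw c) (sw_dd_pred c f)
  simp only [map_mul, map_sub, sw_X_left] at h
  rwa [sw_X_of_ne (show c + 2 ≠ c by omega) (by omega)] at h

lemma sw_sw_dem_succ (c : ℕ) (f : Pol) : (X c - X (c + 1)) * sw (c + 1) (sw c (dem (c + 1) f)) =
    X c * sw (c + 1) (sw c f) - X (c + 1) * sw (c + 1) (sw c (sw (c + 1) f)) := by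
  have h := congrArg (sw (c + 1)) (sw_dem_succ c f)
  simp only [map_mul, map_sub] at h
  rw [sw_X_of_ne (show c ≠ c + 1 by omega) (by omega)] at h
  have h2 : sw (c + 1) (X (c + 2)) = X (c + 1) := sw_X_right (c + 1)
  rwa [h2] at h

lemma sw_sw_dd_succ (c : ℕ) (f : Pol) : (X c - X (c + 1)) * sw (c + 1) (sw c (dd (c + 1) f)) =
    sw (c + 1) (sw c f) - sw (c + 1) (sw c (sw (c + 1) f)) := by
  have h := congrArg (sw (c + 1)) (sw_dd_succ c f)
  simp only [map_mul, map_sub] at h
  rw [sw_X_of_ne (show c ≠ c + 1 by omega) (by omega)] at h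
  have h2 : sw (c + 1) (X (c + 2)) = X (c + 1) := sw_X_right (c + 1)
  rwa [h2] at h

lemma disc_ne_zero (c : ℕ) :
    ((X c - X (c + 1)) * (X (c + 1) - X (c + 2)) * (X c - X (c + 2)) : Pol) ≠ 0 :=
  mul_ne_zero (mul_ne_zero (sub_ne_zero' (by omega)) (sub_ne_zero' (by omega)))
    (sub_ne_zero' (by omega))

lemma disc_dem_121 (c : ℕ) (f : Pol) :
    ((X c - X (c + 1)) * (X (c + 1) - X (c + 2)) * (X c - X (c + 2))) *
      dem c (dem (c + 1) (dem c f)) =
    X c ^ 2 * X (c + 1) * f - X c * X (c + 1) ^ 2 * sw c f - X c ^ 2 * X (c + 2) * sw (c + 1) f +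
      X c * X (c + 2) ^ 2 * sw (c + 1) (sw c f) + X (c + 1) ^ 2 * X (c + 2) * sw c (sw (c + 1) f) -
      X (c + 1) * X (c + 2) ^ 2 * sw c (sw (c + 1) (sw c f)) := by
  have e1 := dem_spec c (dem (c + 1) (dem c f))
  have e2 := dem_spec (c + 1) (dem c f)
  have e3 := sw_dem_succ c (dem c f)
  rw [sw_dem] at e3
  have e4 := dem_spec c f
  have e5 := sw_dem_pred c f
  have e6 := sw_sw_dem_pred c f
  linear_combination (X (c + 1) - X (c + 2)) * (X c - X (c + 2)) * e1 +
    X c * (X c - X (c + 2)) * e2 - X (c + 1) * (X (c + 1) - X (c + 2)) * e3 +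
    X c * X (c + 1) * e4 - X c * X (c + 2) * e5 + X (c + 1) * X (c + 2) * e6

lemma disc_dem_212 (c : ℕ) (f : Pol) :
    ((X c - X (c + 1)) * (X (c + 1) - X (c + 2)) * (X c - X (c + 2))) *
      dem (c + 1) (dem c (dem (c + 1) f)) =
    X c ^ 2 * X (c + 1) * f - X c * X (c + 1) ^ 2 * sw c f - X c ^ 2 * X (c + 2) * sw (c + 1) f +
      X c * X (c + 2) ^ 2 * sw (c + 1) (sw c f) + X (c + 1) ^ 2 * X (c + 2) * sw c (sw (c + 1) f) -
      X (c + 1) * X (c + 2) ^ 2 * sw (c + 1) (sw c (sw (c + 1) f)) := by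
  have e1 := dem_spec (c + 1) (dem c (dem (c + 1) f))
  have e2 := dem_spec c (dem (c + 1) f)
  have e3 := sw_dem_pred c (dem (c + 1) f)
  rw [sw_dem] at e3
  have e4 := dem_spec (c + 1) f
  have e5 := sw_dem_succ c f
  have e6 := sw_sw_dem_succ c f
  linear_combination (X c - X (c + 1)) * (X c - X (c + 2)) * e1 +
    X (c + 1) * (X c - X (c + 2)) * e2 - X (c + 2) * (X c - X (c + 1)) * e3 +
    X c ^ 2 * e4 - X (c + 1) ^ 2 * e5 + X (c + 2) ^ 2 * e6

theorem dem_braid (c : ℕ) (f : Pol) :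
    dem c (dem (c + 1) (dem c f)) = dem (c + 1) (dem c (dem (c + 1) f)) := by
  apply mul_left_cancel₀ (disc_ne_zero c)
  rw [disc_dem_121, disc_dem_212, sw_braid]

theorem dd_braid (c : ℕ) (f : Pol) :
    dd c (dd (c + 1) (dd c f)) = dd (c + 1) (dd c (dd (c + 1) f)) := by
  apply mul_left_cancel₀ (disc_ne_zero c)
  have e1 := dd_spec c (dd (c + 1) (dd c f))
  have e2 := dd_spec (c + 1) (dd c f)
  have e3 := sw_dd_succ c (dd c f)
  rw [sw_dd] at e3
  have e4 := dd_spec c f
  have e5 := sw_dd_pred c f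
  have e6 := sw_sw_dd_pred c f
  have g1 := dd_spec (c + 1) (dd c (dd (c + 1) f))
  have g2 := dd_spec c (dd (c + 1) f)
  have g3 := sw_dd_pred c (dd (c + 1) f)
  rw [sw_dd] at g3
  have g4 := dd_spec (c + 1) f
  have g5 := sw_dd_succ c f
  have g6 := sw_sw_dd_succ c f
  rw [← sw_braid] at g6
  linear_combination (X (c + 1) - X (c + 2)) * (X c - X (c + 2)) * e1 +
    (X c - X (c + 2)) * e2 - (X (c + 1) - X (c + 2)) * e3 + e4 - e5 + e6 -
    ((X c - X (c + 1)) * (X c - X (c + 2)) * g1 +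
    (X c - X (c + 2)) * g2 - (X c - X (c + 1)) * g3 + g4 - g5 + g6)

/-- the mixed braid relation -/
theorem dd_dem_dem (c : ℕ) (f : Pol) :
    dd (c + 1) (dem c (dem (c + 1) f)) = dem c (dem (c + 1) (dd c f)) := by
  apply mul_left_cancel₀ (disc_ne_zero c)
  have e1 := dem_spec c (dem (c + 1) (dd c f))
  have e2 := dem_spec (c + 1) (dd c f)
  have e3 := sw_dem_succ c (dd c f)
  rw [sw_dd] at e3
  have e4 := dd_spec c f
  have e5 := sw_dd_pred c f
  have e6 := sw_sw_dd_pred c f
  have g1 := dd_spec (c + 1) (dem c (dem (c + 1) f))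
  have g2 := dem_spec c (dem (c + 1) f)
  have g3 := sw_dem_pred c (dem (c + 1) f)
  rw [sw_dem] at g3
  have g4 := dem_spec (c + 1) f
  have g5 := sw_dem_succ c f
  have g6 := sw_sw_dem_succ c f
  rw [← sw_braid] at g6
  linear_combination -((X (c + 1) - X (c + 2)) * (X c - X (c + 2)) * e1 +
    X c * (X c - X (c + 2)) * e2 - X (c + 1) * (X (c + 1) - X (c + 2)) * e3 +
    X c * X (c + 1) * e4 - X c * X (c + 2) * e5 + X (c + 1) * X (c + 2) * e6) +
    ((X c - X (c + 1)) * (X c - X (c + 2)) * g1 +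
    (X c - X (c + 2)) * g2 - (X c - X (c + 1)) * g3 + X c * g4 - X (c + 1) * g5 + X (c + 2) * g6)

end adj

/-! ### coefficients -/

section coeff

lemma coeff_sw (c : ℕ) (f : Pol) (ν : ℕ →₀ ℕ) :
    coeff (ν.mapDomain (Equiv.swap c (c + 1))) (sw c f) = coeff ν f :=
  coeff_rename_mapDomain _ (Equiv.injective _) f ν

lemma mapDomain_swap_swap (c : ℕ) (ν : ℕ →₀ ℕ) :
    (ν.mapDomain (Equiv.swap c (c + 1))).mapDomain (Equiv.swap c (c + 1)) = ν := by
  rw [← Finsupp.mapDomain_comp]
  have : (⇑(Equiv.swap c (c + 1)) ∘ ⇑(Equiv.swap c (c + 1))) = id := by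
    funext i; simp
  rw [this, Finsupp.mapDomain_id]

lemma coeff_sw' (c : ℕ) (f : Pol) (ν : ℕ →₀ ℕ) :
    coeff ν (sw c f) = coeff (ν.mapDomain (Equiv.swap c (c + 1))) f := by
  conv_lhs => rw [← mapDomain_swap_swap c ν]
  exact coeff_sw c f _

lemma mapDomain_swap_apply (c : ℕ) (ν : ℕ →₀ ℕ) (i : ℕ) :
    ν.mapDomain (Equiv.swap c (c + 1)) i = ν (Equiv.swap c (c + 1) i) := by
  rw [Finsupp.mapDomain_equiv_apply, Equiv.symm_swap]

/-- no letter `c+1` in the weight: the coefficient does not change -/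
lemma coeff_dem_of_zero {c : ℕ} {ν : ℕ →₀ ℕ} (h : ν (c + 1) = 0) (f : Pol) :
    coeff ν (dem c f) = coeff ν f := by
  have h1 := congrArg (coeff (Finsupp.single c 1 + ν)) (dem_spec c f)
  have h2 : c + 1 ∉ (Finsupp.single c 1 + ν).support := by
    simp [h]
  rw [sub_mul, coeff_sub, coeff_sub, coeff_X_mul, coeff_X_mul, coeff_X_mul', coeff_X_mul',
    if_neg h2, if_neg h2, sub_zero, sub_zero] at h1
  exact h1

lemma coeff_dem_succ (c : ℕ) (ν : ℕ →₀ ℕ) (f : Pol) :
    coeff (ν + Finsupp.single (c + 1) 1) (dem c f) - coeff (ν + Finsupp.single c 1) (dem c f) =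
      coeff (ν + Finsupp.single (c + 1) 1) f -
        coeff (ν.mapDomain (Equiv.swap c (c + 1)) + Finsupp.single (c + 1) 1) f := by
  have h1 := congrArg (coeff (Finsupp.single c 1 + (ν + Finsupp.single (c + 1) 1))) (dem_spec c f)
  have h3 : Finsupp.single c 1 + (ν + Finsupp.single (c + 1) 1) =
      Finsupp.single (c + 1) 1 + (ν + Finsupp.single c 1) := by
    rw [add_left_comm, add_comm (Finsupp.single c 1), add_left_comm]
  rw [sub_mul, coeff_sub, coeff_sub, coeff_X_mul, coeff_X_mul] at h1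
  rw [h3, coeff_X_mul, coeff_X_mul, coeff_sw', Finsupp.mapDomain_add, Finsupp.mapDomain_single,
    Equiv.swap_apply_left] at h1
  exact h1

/-- the coefficients of `dem c f` in terms of those of `f`: the form used for characters. Write
`ν = base + a ε_c + b ε_{c+1}` with `b ≤ a`. -/
lemma coeff_dem_pair (c : ℕ) (ρ : ℕ →₀ ℕ) (a b : ℕ) (h0 : ρ c = 0) (h1 : ρ (c + 1) = 0)
    (f : Pol) :
    coeff (ρ + Finsupp.single c a + Finsupp.single (c + 1) (b + 1)) (dem c f) -
        coeff (ρ + Finsupp.single c (a + 1) + Finsupp.single (c + 1) b) (dem c f) =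
      coeff (ρ + Finsupp.single c a + Finsupp.single (c + 1) (b + 1)) f -
        coeff (ρ + Finsupp.single c b + Finsupp.single (c + 1) (a + 1)) f := by
  have h := coeff_dem_succ c (ρ + Finsupp.single c a + Finsupp.single (c + 1) b) f
  have hρ : ρ.mapDomain (Equiv.swap c (c + 1)) = ρ := by
    ext i
    rw [mapDomain_swap_apply]
    by_cases hi : i = c
    · subst hi; rw [Equiv.swap_apply_left, h0, h1]
    · by_cases hi' : i = c + 1
      · subst hi'; rw [Equiv.swap_apply_right, h0, h1]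
      · rw [Equiv.swap_apply_of_ne_of_ne hi hi']
  have e1 : ρ + Finsupp.single c a + Finsupp.single (c + 1) b + Finsupp.single (c + 1) 1 =
      ρ + Finsupp.single c a + Finsupp.single (c + 1) (b + 1) := by
    rw [add_assoc, ← Finsupp.single_add]
  have e2 : ρ + Finsupp.single c a + Finsupp.single (c + 1) b + Finsupp.single c 1 =
      ρ + Finsupp.single c (a + 1) + Finsupp.single (c + 1) b := by
    rw [add_right_comm, add_assoc ρ, ← Finsupp.single_add]
  have e3 : (ρ + Finsupp.single c a + Finsupp.single (c + 1) b).mapDomain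
      (Equiv.swap c (c + 1)) + Finsupp.single (c + 1) 1 =
      ρ + Finsupp.single c b + Finsupp.single (c + 1) (a + 1) := by
    rw [Finsupp.mapDomain_add, Finsupp.mapDomain_add, hρ, Finsupp.mapDomain_single,
      Finsupp.mapDomain_single, Equiv.swap_apply_left, Equiv.swap_apply_right,
      add_right_comm ρ (Finsupp.single (c + 1) a), add_assoc _ (Finsupp.single (c + 1) a),
      ← Finsupp.single_add]
  rwa [e1, e2, e3] at h

end coeff

end Pool.Agent.Gao
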