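import Pool.Agent.Gao.DemSeq
import Pool.Agent.Gao.GDefs

/-!
# Characters as functions and as polynomials

`GDefs` uses characters that are functions on `Wt m = Fin m → ℤ` with finite support (and, for our
modules, supported on nonnegative weights).  `toPol` translates them into polynomials, so that the
operator identities of `Dem`, `DemSeq` can be used.

* `isDem_iff`: `IsDem c h f g ↔ toPol g = dem c (toPol f)`;
* `isDd_iff`: `toPol g = dd c (toPol f) ↔ g (μ - ε_c) - g (μ - ε_{c+1}) = f μ - f (s μ)`;
* `toPol_shift`: multiplication by `x_0 ⋯ x_{t-1}`.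
-/

set_option autoImplicit false

namespace Gao

open MvPolynomial Pool.Agent.Gao

noncomputable section

variable {m : ℕ}

/-- `cf m P μ` = the coefficient of `x^μ` in `P` (zero if `μ` is not nonnegative) -/
def cf (m : ℕ) (P : Pol) : Wt m → ℤ := fun μ =>
  if ∀ i, 0 ≤ μ i then
    coeff (Finsupp.onFinset (Finset.range m) (fun i => if h : i < m then (μ ⟨i, h⟩).toNat else 0)
      (fun i hi => by
        rw [Finset.mem_range]
        by_contra hc
        rw [dif_neg hc] at hi
        exact hi rfl)) P
  else 0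

/-- the exponent of a weight -/
def expo (μ : Wt m) : ℕ →₀ ℕ :=
  Finsupp.onFinset (Finset.range m) (fun i => if h : i < m then (μ ⟨i, h⟩).toNat else 0)
      (fun i hi => by
        rw [Finset.mem_range]
        by_contra hc
        rw [dif_neg hc] at hi
        exact hi rfl)

lemma expo_apply (μ : Wt m) (i : ℕ) :
    expo μ i = if h : i < m then (μ ⟨i, h⟩).toNat else 0 := by
  unfold expo
  rw [Finsupp.onFinset_apply]

lemma cf_apply (P : Pol) (μ : Wt m) : cf m P μ = if ∀ i, 0 ≤ μ i then coeff (expo μ) P else 0 := rfl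

lemma cf_of_nonneg (P : Pol) {μ : Wt m} (h : ∀ i, 0 ≤ μ i) : cf m P μ = coeff (expo μ) P := by
  rw [cf_apply, if_pos h]

lemma cf_of_neg (P : Pol) {μ : Wt m} (h : ¬ ∀ i, 0 ≤ μ i) : cf m P μ = 0 := by
  rw [cf_apply, if_neg h]

lemma cf_add (P Q : Pol) (μ : Wt m) : cf m (P + Q) μ = cf m P μ + cf m Q μ := by
  rw [cf_apply, cf_apply, cf_apply]
  split_ifs
  · rw [coeff_add]
  · rw [add_zero]

lemma cf_sub (P Q : Pol) (μ : Wt m) : cf m (P - Q) μ = cf m P μ - cf m Q μ := by
  rw [cf_apply, cf_apply, cf_apply]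
  split_ifs
  · rw [coeff_sub]
  · rw [sub_zero]

/-- multiplication by a variable is a shift -/
lemma cf_X_mul (c : Fin m) (P : Pol) (μ : Wt m) :
    cf m (X (c : ℕ) * P) μ = cf m P (μ - Pi.single c 1) := by
  have hval : ∀ i, (μ - Pi.single c 1 : Wt m) i = μ i - if i = c then 1 else 0 := by
    intro i
    rw [Pi.sub_apply, Pi.single_apply]
  by_cases h : ∀ i, 0 ≤ μ i
  · rw [cf_of_nonneg _ h, coeff_X_mul']
    by_cases hc : μ c = 0
    · rw [if_neg, cf_of_neg]
      · intro h'
        have := h' c
        rw [hval, if_pos rfl] at this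
        omega
      · rw [Finsupp.mem_support_iff, expo_apply, dif_pos c.2, not_not]
        show (μ c).toNat = 0
        omega
    · have hc0 := h c
      have hpos : ∀ i, 0 ≤ (μ - Pi.single c 1 : Wt m) i := by
        intro i
        rw [hval]
        split_ifs with hi
        · rw [hi]; omega
        · have := h i; omega
      rw [if_pos, cf_of_nonneg _ hpos]
      · congr 1
        ext i
        rw [Finsupp.tsub_apply, expo_apply, expo_apply]
        by_cases hi : i < m
        · rw [dif_pos hi, dif_pos hi, hval, Finsupp.single_apply]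
          by_cases hic : (c : ℕ) = i
          · rw [if_pos hic, if_pos (Fin.ext hic.symm)]
            omega
          · rw [if_neg hic, if_neg (fun hh => hic (by rw [← hh]))]
            omega
        · rw [dif_neg hi, dif_neg hi]
          omega
      · rw [Finsupp.mem_support_iff, expo_apply, dif_pos c.2]
        show (μ c).toNat ≠ 0
        omega
  · rw [cf_of_neg _ h, cf_of_neg]
    intro h'
    apply h
    intro i
    have := h' i
    rw [hval] at this
    split_ifs at this <;> omega

/-- the exchange of variables -/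
lemma cf_sw (c : ℕ) (h : c + 1 < m) (P : Pol) (μ : Wt m) : cf m (sw c P) μ = cf m P (sWt c h μ) := by
  have hval : ∀ i, sWt c h μ i = μ (Equiv.swap (lo c h) (hi c h) i) := fun i => rfl
  by_cases hμ : ∀ i, 0 ≤ μ i
  · have hμ' : ∀ i, 0 ≤ sWt c h μ i := fun i => by rw [hval]; exact hμ _
    rw [cf_of_nonneg _ hμ, cf_of_nonneg _ hμ', coeff_sw']
    congr 1
    ext i
    rw [mapDomain_swap_apply, expo_apply, expo_apply]
    by_cases hi : i < m
    · rw [dif_pos hi, hval]
      by_cases h1 : i = c
      · subst h1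
        have e1 : Equiv.swap (lo i h) (Gao.hi i h) (⟨i, hi⟩ : Fin m) = Gao.hi i h :=
          Equiv.swap_apply_left _ _
        rw [e1, dif_pos (by rw [Equiv.swap_apply_left]; exact h)]
        congr 2
        exact Fin.ext (Equiv.swap_apply_left _ _)
      · by_cases h2 : i = c + 1
        · subst h2
          have e1 : Equiv.swap (lo c h) (Gao.hi c h) (⟨c + 1, hi⟩ : Fin m) = lo c h :=
            Equiv.swap_apply_right _ _
          rw [e1, dif_pos (by rw [Equiv.swap_apply_right]; omega)]
          congr 2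
          exact Fin.ext (Equiv.swap_apply_right _ _)
        · have e1 : Equiv.swap (lo c h) (Gao.hi c h) (⟨i, hi⟩ : Fin m) = ⟨i, hi⟩ :=
            Equiv.swap_apply_of_ne_of_ne (fun hh => h1 (congrArg Fin.val hh))
              (fun hh => h2 (congrArg Fin.val hh))
          rw [e1, dif_pos (by rw [Equiv.swap_apply_of_ne_of_ne h1 h2]; exact hi)]
          congr 2
          exact Fin.ext (Equiv.swap_apply_of_ne_of_ne h1 h2)
    · rw [dif_neg hi, dif_neg]
      rw [Equiv.swap_apply_of_ne_of_ne (by omega) (by omega)]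
      exact hi
  · rw [cf_of_neg _ hμ, cf_of_neg]
    intro h'
    apply hμ
    intro i
    have := h' (Equiv.swap (lo c h) (Gao.hi c h) i)
    rw [hval, Equiv.swap_apply_self] at this
    exact this

/-- all the variables of `P` are among the first `m` -/
def InV (m : ℕ) (P : Pol) : Prop := ∀ ν : ℕ →₀ ℕ, coeff ν P ≠ 0 → ∀ i, m ≤ i → ν i = 0

lemma InV.add {P Q : Pol} (hP : InV m P) (hQ : InV m Q) : InV m (P + Q) := by
  intro ν hν i hi
  rw [coeff_add] at hν
  by_cases h : coeff ν P = 0
  · exact hQ ν (by rw [h, zero_add] at hν; exact hν) i hi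
  · exact hP ν h i hi

lemma InV.neg {P : Pol} (hP : InV m P) : InV m (-P) := by
  intro ν hν i hi
  rw [coeff_neg] at hν
  exact hP ν (fun h => hν (by rw [h, neg_zero])) i hi

lemma InV.sub {P Q : Pol} (hP : InV m P) (hQ : InV m Q) : InV m (P - Q) := by
  rw [sub_eq_add_neg]; exact hP.add hQ.neg

lemma InV.X_mul {c : ℕ} (hc : c < m) {P : Pol} (hP : InV m P) : InV m (X c * P) := by
  intro ν hν i hi
  rw [coeff_X_mul'] at hν
  split_ifs at hν with h
  · have h1 := hP _ hν i hi
    rw [Finsupp.tsub_apply, Finsupp.single_apply, if_neg (by omega)] at h1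
    omega
  · exact absurd rfl hν

lemma InV.sw {c : ℕ} (hc : c + 1 < m) {P : Pol} (hP : InV m P) : InV m (sw c P) := by
  intro ν hν i hi
  rw [coeff_sw'] at hν
  have h1 := hP _ hν i hi
  rw [mapDomain_swap_apply, Equiv.swap_apply_of_ne_of_ne (by omega) (by omega)] at h1
  exact h1

/-- polynomials in the first `m` variables are determined by `cf m` -/
lemma ext_cf {P Q : Pol} (hP : InV m P) (hQ : InV m Q) (h : cf m P = cf m Q) : P = Q := by
  ext ν
  by_cases hν : ∀ i, m ≤ i → ν i = 0
  · have h1 := congrFun h (fun i => (ν i : ℤ))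
    have h0 : ∀ i : Fin m, (0 : ℤ) ≤ (ν i : ℤ) := fun i => by positivity
    rw [cf_of_nonneg _ h0, cf_of_nonneg _ h0] at h1
    have h2 : expo (fun i : Fin m => ((ν i : ℕ) : ℤ)) = ν := by
      ext i
      rw [expo_apply]
      split_ifs with hi
      · simp
      · exact (hν i (by omega)).symm
    rwa [h2] at h1
  · have h1 : coeff ν P = 0 := by
      by_contra hc
      exact hν (hP ν hc)
    have h2 : coeff ν Q = 0 := by
      by_contra hc
      exact hν (hQ ν hc)
    rw [h1, h2]

/-- a character: finite support, on nonnegative weights -/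
structure NNF (f : Chr m) : Prop where
  fin : f.support.Finite
  nn : ∀ μ, f μ ≠ 0 → ∀ i, 0 ≤ μ i

open Classical in
/-- the polynomial of a character -/
def toPol (f : Chr m) : Pol :=
  if h : f.support.Finite then ∑ μ ∈ h.toFinset, monomial (expo μ) (f μ) else 0

lemma expo_inj {μ ν : Wt m} (hμ : ∀ i, 0 ≤ μ i) (hν : ∀ i, 0 ≤ ν i) (h : expo μ = expo ν) :
    μ = ν := by
  funext i
  have h1 := DFunLike.congr_fun h (i : ℕ)
  rw [expo_apply, expo_apply, dif_pos i.2, dif_pos i.2] at h1
  have h2 : (μ i).toNat = (ν i).toNat := h1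
  have h3 := hμ i
  have h4 := hν i
  omega

lemma NNF.cf_toPol {f : Chr m} (hf : NNF f) : cf m (toPol f) = f := by
  funext μ
  unfold toPol
  rw [dif_pos hf.fin]
  by_cases hμ : ∀ i, 0 ≤ μ i
  · rw [cf_of_nonneg _ hμ, coeff_sum]
    by_cases h0 : f μ = 0
    · rw [h0]
      apply Finset.sum_eq_zero
      intro ν hν
      rw [Set.Finite.mem_toFinset, Function.mem_support] at hν
      rw [coeff_monomial, if_neg]
      intro h
      exact hν (by rw [expo_inj (hf.nn ν hν) hμ h]; exact h0)
    · rw [Finset.sum_eq_single μ]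
      · rw [coeff_monomial, if_pos rfl]
      · intro ν hν hne
        rw [Set.Finite.mem_toFinset, Function.mem_support] at hν
        rw [coeff_monomial, if_neg]
        intro h
        exact hne (expo_inj (hf.nn ν hν) hμ h)
      · intro h
        rw [Set.Finite.mem_toFinset, Function.mem_support, not_not] at h
        exact absurd h h0
  · rw [cf_of_neg _ hμ]
    by_contra hc
    exact hμ (hf.nn μ (fun h => hc h.symm))

lemma InV_monomial (μ : Wt m) (a : ℤ) : InV m (monomial (expo μ) a) := by
  intro ν hν i hi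
  rw [coeff_monomial] at hν
  split_ifs at hν with h
  · rw [← h, expo_apply, dif_neg (by omega)]
  · exact absurd rfl hν

lemma InV_zero : InV m (0 : Pol) := fun ν hν => absurd (coeff_zero ν) hν

lemma InV_sum {ι : Type*} (s : Finset ι) (F : ι → Pol) (h : ∀ i ∈ s, InV m (F i)) :
    InV m (∑ i ∈ s, F i) := by
  classical
  induction s using Finset.induction_on with
  | empty => rw [Finset.sum_empty]; exact InV_zero
  | insert a s ha ih =>
    rw [Finset.sum_insert ha]
    exact (h a (Finset.mem_insert_self _ _)).add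
      (ih (fun i hi => h i (Finset.mem_insert_of_mem hi)))

lemma InV_toPol (f : Chr m) : InV m (toPol f) := by
  unfold toPol
  split_ifs
  · exact InV_sum _ _ (fun μ _ => InV_monomial μ _)
  · exact InV_zero

lemma toPol_inj {f g : Chr m} (hf : NNF f) (hg : NNF g) (h : toPol f = toPol g) : f = g := by
  rw [← hf.cf_toPol, ← hg.cf_toPol, h]

lemma toPol_eq_iff {f : Chr m} (hf : NNF f) {P : Pol} (hP : InV m P) :
    toPol f = P ↔ f = cf m P := by
  constructor
  · rintro rfl
    exact hf.cf_toPol.symm
  · intro h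
    exact ext_cf (InV_toPol f) hP (by rw [hf.cf_toPol, h])

/-- Demazure's formula for functions and for polynomials -/
theorem isDem_iff (c : ℕ) (h : c + 1 < m) {f g : Chr m} (hf : NNF f) (hg : NNF g) :
    IsDem c h f g ↔ toPol g = dem c (toPol f) := by
  have hlo : ((lo c h : Fin m) : ℕ) = c := rfl
  have hhi : ((Gao.hi c h : Fin m) : ℕ) = c + 1 := rfl
  have key : ∀ P Q : Pol, cf m P = f → cf m Q = g →
      ((cf m ((X c - X (c + 1)) * Q) = cf m (X c * P - X (c + 1) * sw c P)) ↔
        ∀ μ, g μ - g (μ + alp c h) = f μ - f (sWt c h (μ + alp c h))) := by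
    intro P Q hP hQ
    have e : ∀ μ, cf m ((X c - X (c + 1)) * Q) μ =
        g (μ - Pi.single (lo c h) 1) - g (μ - Pi.single (Gao.hi c h) 1) := by
      intro μ
      have h1 := cf_X_mul (lo c h) Q μ
      have h2 := cf_X_mul (Gao.hi c h) Q μ
      rw [hlo, hQ] at h1
      rw [hhi, hQ] at h2
      rw [sub_mul, cf_sub, h1, h2]
    have e' : ∀ μ, cf m (X c * P - X (c + 1) * sw c P) μ =
        f (μ - Pi.single (lo c h) 1) - f (sWt c h (μ - Pi.single (Gao.hi c h) 1)) := by
      intro μ
      have h1 := cf_X_mul (lo c h) P μ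
      have h2 := cf_X_mul (Gao.hi c h) (sw c P) μ
      rw [hlo, hP] at h1
      rw [hhi, cf_sw c h, hP] at h2
      rw [cf_sub, h1, h2]
    have ea : ∀ μ : Wt m, μ + Pi.single (lo c h) 1 - Pi.single (Gao.hi c h) 1 = μ + alp c h := by
      intro μ
      unfold alp
      rw [add_sub_assoc]
    constructor
    · intro hh μ
      have h1 := congrFun hh (μ + Pi.single (lo c h) 1)
      rw [e, e', add_sub_cancel_right, ea] at h1
      exact h1
    · intro hh
      funext μ
      have h1 := hh (μ - Pi.single (lo c h) 1)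
      have h2 : μ - Pi.single (lo c h) 1 + alp c h = μ - Pi.single (Gao.hi c h) 1 := by
        unfold alp
        abel
      rw [h2] at h1
      rw [e, e', h1]
  constructor
  · rintro ⟨_, _, h3⟩
    have h4 := (key (toPol f) (toPol g) hf.cf_toPol hg.cf_toPol).2 h3
    symm
    apply dem_unique
    refine ext_cf (m := m) ?_ ?_ h4
    · rw [sub_mul]
      exact ((InV_toPol g).X_mul (by omega)).sub ((InV_toPol g).X_mul h)
    · exact ((InV_toPol f).X_mul (by omega)).sub (((InV_toPol f).sw h).X_mul h)
  · intro h3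
    refine ⟨hf.fin, hg.fin, ?_⟩
    apply (key (toPol f) (toPol g) hf.cf_toPol hg.cf_toPol).1
    rw [h3, dem_spec]

/-- `g` is the divided difference of `f`, as functions on weights -/
def IsDd (c : ℕ) (h : c + 1 < m) (f g : Chr m) : Prop :=
  ∀ μ, g (μ - Pi.single (lo c h) 1) - g (μ - Pi.single (hi c h) 1) = f μ - f (sWt c h μ)

theorem isDd_iff (c : ℕ) (h : c + 1 < m) {f g : Chr m} (hf : NNF f) (hg : NNF g) :
    IsDd c h f g ↔ toPol g = dd c (toPol f) := by
  have hlo : ((lo c h : Fin m) : ℕ) = c := rfl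
  have hhi : ((Gao.hi c h : Fin m) : ℕ) = c + 1 := rfl
  have key : ∀ P Q : Pol, cf m P = f → cf m Q = g →
      ((cf m ((X c - X (c + 1)) * Q) = cf m (P - sw c P)) ↔ IsDd c h f g) := by
    intro P Q hP hQ
    have e : ∀ μ, cf m ((X c - X (c + 1)) * Q) μ =
        g (μ - Pi.single (lo c h) 1) - g (μ - Pi.single (Gao.hi c h) 1) := by
      intro μ
      have h1 := cf_X_mul (lo c h) Q μ
      have h2 := cf_X_mul (Gao.hi c h) Q μ
      rw [hlo, hQ] at h1
      rw [hhi, hQ] at h2
      rw [sub_mul, cf_sub, h1, h2]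
    have e' : ∀ μ, cf m (P - sw c P) μ = f μ - f (sWt c h μ) := by
      intro μ
      rw [cf_sub, cf_sw c h, hP]
    constructor
    · intro hh μ
      rw [← e, ← e', hh]
    · intro hh
      funext μ
      rw [e, e', hh μ]
  constructor
  · intro h3
    have h4 := (key (toPol f) (toPol g) hf.cf_toPol hg.cf_toPol).2 h3
    symm
    apply dd_unique
    refine ext_cf (m := m) ?_ ?_ h4
    · rw [sub_mul]
      exact ((InV_toPol g).X_mul (by omega)).sub ((InV_toPol g).X_mul h)
    · exact (InV_toPol f).sub ((InV_toPol f).sw h)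
  · intro h3
    apply (key (toPol f) (toPol g) hf.cf_toPol hg.cf_toPol).1
    rw [h3, dd_spec]

/-- multiplication by `x_0 ⋯ x_{t-1}` -/
lemma cf_omegaP_mul (t : ℕ) (ht : t ≤ m) (P : Pol) (μ : Wt m) :
    cf m (omegaP t * P) μ = cf m P (μ - wtS (ini m t)) := by
  induction t generalizing μ with
  | zero =>
    have : wtS (ini m 0) = 0 := by
      funext i
      simp [wtS, ini]
    rw [omegaP_zero, one_mul, this, sub_zero]
  | succ t ih =>
    have h1 := cf_X_mul (⟨t, ht⟩ : Fin m) (omegaP t * P) μ
    have h2 : wtS (ini m (t + 1)) = wtS (ini m t) + Pi.single (⟨t, ht⟩ : Fin m) 1 := by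
      funext i
      rw [Pi.add_apply, Pi.single_apply]
      simp only [wtS, ini, Finset.mem_filter, Finset.mem_univ, true_and]
      by_cases h3 : i.val < t
      · rw [if_pos (by omega), if_pos h3, if_neg (fun hh => by rw [hh] at h3; exact lt_irrefl _ h3)]
        rfl
      · by_cases h4 : i.val = t
        · rw [if_pos (by omega), if_neg h3, if_pos (Fin.ext h4)]
          rfl
        · rw [if_neg (by omega), if_neg h3, if_neg (fun hh => h4 (by rw [hh]))]
          rfl
    have e : omegaP (t + 1) * P = X t * (omegaP t * P) := by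
      rw [omegaP_succ]; ring
    rw [e, h1, ih (by omega), h2]
    congr 1
    abel

lemma InV_omegaP_mul {t : ℕ} (ht : t ≤ m) {P : Pol} (hP : InV m P) : InV m (omegaP t * P) := by
  induction t with
  | zero => rw [omegaP_zero, one_mul]; exact hP
  | succ t ih =>
    have e : omegaP (t + 1) * P = X t * (omegaP t * P) := by
      rw [omegaP_succ]; ring
    rw [e]
    exact (ih (by omega)).X_mul (by omega)

/-- the character of a twist -/
lemma toPol_shift {t : ℕ} (ht : t ≤ m) {f g : Chr m} (hf : NNF f) (hg : NNF g)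
    (h : ∀ μ, g μ = f (μ - wtS (ini m t))) : toPol g = omegaP t * toPol f := by
  rw [toPol_eq_iff hg (InV_omegaP_mul ht (InV_toPol f))]
  funext μ
  rw [cf_omegaP_mul t ht, hf.cf_toPol, h]

/-! ### characters of subspaces -/

section GLRep

variable {K V : Type*} [Field K] [AddCommGroup V] [Module K V] (ρ : GLRep K V m)

lemma GLRep.ch_eq_zero (Z : Submodule K V) {μ : Wt m} (h : μ ∉ ρ.supp) : ρ.ch Z μ = 0 := by
  unfold GLRep.ch GLRep.wd
  rw [ρ.zero μ h, Submodule.map_zero, finrank_bot]
  rfl

lemma GLRep.ch_NNF (Z : Submodule K V) : NNF (ρ.ch Z) := by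
  have h1 : ∀ μ, ρ.ch Z μ ≠ 0 → μ ∈ ρ.supp := by
    intro μ hμ
    by_contra hc
    exact hμ (ρ.ch_eq_zero Z hc)
  refine ⟨ρ.supp.finite_toSet.subset (fun μ hμ => h1 μ hμ), fun μ hμ => ρ.nonneg μ (h1 μ hμ)⟩

end GLRep

end

end Gao
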