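import Pool.Agent.Gao.Dem

/-!
# Words of Demazure operators and the two exchange identities for word characters

`demSeq t k f = dem t (dem (t+1) (… (dem (t+k-1) f)))`.

Words are lists of letters of any type `τ`, with a value `v : τ → ℕ` and two marks: `g` (the letter is a
moving letter, a variable) and `c` (the letter has a column).  A character `χ` of words satisfies the
smallest letter recursion `SmallRec`; the theorems `exchange_large` (J-side) and `exchange_small`
(A-side) are consequences of this recursion alone.
-/

set_option autoImplicit false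

namespace Pool.Agent.Gao

open MvPolynomial

/-- `dem t (dem (t+1) (… (dem (t+k-1) f)))` -/
noncomputable def demSeq : ℕ → ℕ → Pol → Pol
  | _, 0, f => f
  | t, k + 1, f => dem t (demSeq (t + 1) k f)

@[simp] lemma demSeq_zero (t : ℕ) (f : Pol) : demSeq t 0 f = f := rfl
@[simp] lemma demSeq_succ (t k : ℕ) (f : Pol) :
    demSeq t (k + 1) f = dem t (demSeq (t + 1) k f) := rfl

lemma demSeq_add (t k l : ℕ) (f : Pol) :
    demSeq t (k + l) f = demSeq t k (demSeq (t + k) l f) := by
  induction k generalizing t with
  | zero => simp
  | succ k ih =>
    rw [show k + 1 + l = (k + l) + 1 by ring, demSeq_succ, demSeq_succ, ih,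
      show t + 1 + k = t + (k + 1) by ring]

/-- an operator commuting with all `dem i`, `t ≤ i < t + k`, commutes with `demSeq t k` -/
lemma demSeq_comm {A : Pol → Pol} (t k : ℕ) (h : ∀ i, t ≤ i → i < t + k → ∀ f, A (dem i f) = dem i (A f))
    (f : Pol) : A (demSeq t k f) = demSeq t k (A f) := by
  induction k generalizing t with
  | zero => rfl
  | succ k ih =>
    rw [demSeq_succ, demSeq_succ, h t le_rfl (by omega), ih (t + 1)]
    intro i h1 h2
    exact h i (by omega) (by omega)

/-- the mixed relation `dd p ∘ demSeq t k = demSeq t k ∘ dd (p-1)` for `t < p < t + k` -/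
lemma dd_demSeq {t k p : ℕ} (h1 : t ≤ p) (h2 : p + 1 < t + k) (f : Pol) :
    dd (p + 1) (demSeq t k f) = demSeq t k (dd p f) := by
  obtain ⟨a, rfl⟩ := Nat.exists_eq_add_of_le h1
  obtain ⟨b, rfl⟩ : ∃ b, k = a + (b + 1 + 1) := ⟨k - a - 2, by omega⟩
  rw [demSeq_add t a (b + 1 + 1) f, demSeq_add t a (b + 1 + 1) (dd (t + a) f),
    demSeq_comm (A := dd (t + a + 1)) t a]
  · rw [demSeq_succ, demSeq_succ, dd_dem_dem, demSeq_succ, demSeq_succ,
      demSeq_comm (A := dd (t + a)) (t + a + 1 + 1) b]
    intro i h3 h4 g
    exact dd_dem_comm (by omega) g
  · intro i h3 h4 g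
    exact dd_dem_comm' (by omega) g

lemma dem_demSeq {t k p : ℕ} (h1 : t ≤ p) (h2 : p + 1 < t + k) (f : Pol) :
    dem (p + 1) (demSeq t k f) = demSeq t k (dem p f) := by
  obtain ⟨a, rfl⟩ := Nat.exists_eq_add_of_le h1
  obtain ⟨b, rfl⟩ : ∃ b, k = a + (b + 1 + 1) := ⟨k - a - 2, by omega⟩
  rw [demSeq_add t a (b + 1 + 1) f, demSeq_add t a (b + 1 + 1) (dem (t + a) f),
    demSeq_comm (A := dem (t + a + 1)) t a]
  · rw [demSeq_succ, demSeq_succ, ← dem_braid, demSeq_succ, demSeq_succ,
      demSeq_comm (A := dem (t + a)) (t + a + 1 + 1) b]
    intro i h3 h4 g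
    exact dem_dem_comm (by omega) g
  · intro i h3 h4 g
    exact (dem_dem_comm (by omega) g).symm

lemma dd_demSeq_far {t k p : ℕ} (h : p + 2 ≤ t) (f : Pol) :
    dd p (demSeq t k f) = demSeq t k (dd p f) :=
  demSeq_comm (A := dd p) t k (fun _ _ _ g => dd_dem_comm (by omega) g) f

lemma dem_demSeq_far {t k p : ℕ} (h : p + 2 ≤ t) (f : Pol) :
    dem p (demSeq t k f) = demSeq t k (dem p f) :=
  demSeq_comm (A := dem p) t k (fun _ _ _ g => dem_dem_comm (by omega) g) f

/-- the monomial `x_0 ⋯ x_{t-1}` -/
noncomputable def omegaP (t : ℕ) : Pol := ∏ i ∈ Finset.range t, X i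

@[simp] lemma omegaP_zero : omegaP 0 = 1 := by simp [omegaP]
lemma omegaP_succ (t : ℕ) : omegaP (t + 1) = omegaP t * X t := by
  simp [omegaP, Finset.prod_range_succ]

lemma sw_omegaP {t p : ℕ} (h : t ≤ p ∨ p + 2 ≤ t) : sw p (omegaP t) = omegaP t := by
  induction t with
  | zero => simp
  | succ t ih =>
    rcases h with h | h
    · rw [omegaP_succ, map_mul, ih (Or.inl (by omega)), sw_X_of_ne (by omega) (by omega)]
    · rcases Nat.eq_or_lt_of_le h with h' | h'
      · obtain rfl : t = p + 1 := by omega
        rw [omegaP_succ, omegaP_succ, map_mul, map_mul, sw_X_left, sw_X_right]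
        have h3 : ∀ q, q ≤ p → sw p (omegaP q) = omegaP q := by
          intro q hq
          induction q with
          | zero => simp
          | succ q ih2 =>
            rw [omegaP_succ, map_mul, ih2 (by omega), sw_X_of_ne (by omega) (by omega)]
        rw [h3 p le_rfl]
        ring
      · rw [omegaP_succ, map_mul, ih (Or.inr (by omega)), sw_X_of_ne (by omega) (by omega)]

section words

variable {τ : Type*} (v : τ → ℕ) (g c : τ → Bool) (χ : List τ → Pol)

/-- number of moving letters -/
def gcount (l : List τ) : ℕ := l.countP (fun a => g a)

/-- the factor `x_0 ⋯ x_{t-1}` if the letter has a column, else `1` -/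
noncomputable def colFactor (t : ℕ) (b : Bool) : Pol := if b then omegaP t else 1

/-- the smallest letter recursion: `a` is smaller than all the letters of `α` and `β` -/
def SmallRec : Prop :=
  ∀ (α : List τ) (a : τ) (β : List τ), (∀ b ∈ α, v a < v b) → (∀ b ∈ β, v a < v b) →
    χ (α ++ a :: β) = colFactor (gcount g α) (c a) *
      (if g a then demSeq (gcount g α) (gcount g β) (χ (α ++ β)) else χ (α ++ β))

variable {v g c χ}

@[simp] lemma gcount_nil : gcount g ([] : List τ) = 0 := rfl
lemma gcount_append (α β : List τ) : gcount g (α ++ β) = gcount g α + gcount g β := by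
  simp [gcount]
lemma gcount_cons_of_pos {a : τ} (h : g a = true) (β : List τ) :
    gcount g (a :: β) = gcount g β + 1 := by
  simp [gcount, h]
lemma gcount_cons_of_neg {a : τ} (h : g a = false) (β : List τ) :
    gcount g (a :: β) = gcount g β := by
  simp [gcount, h]
lemma gcount_eq_length {l : List τ} (h : ∀ a ∈ l, g a = true) : gcount g l = l.length := by
  unfold gcount
  rw [List.countP_eq_length]
  intro a ha
  simp [h a ha]

/-- A-side exchange: the smallest letter `s` (moving, with a column) passes the letter `b`. -/
theorem exchange_small (hχ : SmallRec v g c χ) (α β : List τ) (s b : τ) (hs : g s = true)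
    (hcs : c s = true) (hα : ∀ a ∈ α, v s < v a) (hβ : ∀ a ∈ β, v s < v a) (hb : v s < v b) :
    χ (α ++ s :: b :: β) =
      if g b then dd (gcount g α) (χ (α ++ b :: s :: β)) else χ (α ++ b :: s :: β) := by
  have h1 := hχ α s (b :: β) hα (by
    intro a ha
    rcases List.mem_cons.1 ha with h | h
    · rw [h]; exact hb
    · exact hβ a h)
  have h2 := hχ (α ++ [b]) s β (by
    intro a ha
    rcases List.mem_append.1 ha with h | h
    · exact hα a h
    · rw [List.mem_singleton.1 h]; exact hb) hβ
  rw [List.append_assoc, List.singleton_append, List.append_assoc, List.singleton_append] at h2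
  rw [h1, h2]
  simp only [hs, if_true, hcs, colFactor]
  by_cases hgb : g b = true
  · rw [if_pos hgb, gcount_cons_of_pos hgb, gcount_append, gcount_cons_of_pos hgb, gcount_nil,
      demSeq_succ, zero_add, omegaP_succ, mul_assoc, dd_mul_of_sw (sw_omegaP (Or.inl le_rfl)),
      ← dem_def]
  · have hgb' : g b = false := by simpa using hgb
    rw [if_neg hgb, gcount_cons_of_neg hgb', gcount_append, gcount_cons_of_neg hgb', gcount_nil,
      add_zero]

/-- the case of the J-side exchange in which `b` is the smallest letter -/
lemma exchange_large_aux (hχ : SmallRec v g c χ) (α β : List τ) (b L : τ)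
    (hα : ∀ x ∈ α, v b < v x) (hβ : ∀ x ∈ β, v b < v x) (hb : v b < v L)
    (hg : ∀ a ∈ α ++ b :: L :: β, g a = true) :
    χ (α ++ b :: L :: β) =
      if c b then dd α.length (χ (α ++ L :: b :: β)) else dem α.length (χ (α ++ L :: b :: β)) := by
  have hgb : g b = true := hg b (by simp)
  have h1 := hχ α b (L :: β) hα (by
    intro x hx
    rcases List.mem_cons.1 hx with h | h
    · rw [h]; exact hb
    · exact hβ x h)
  have h2 := hχ (α ++ [L]) b β (by
    intro x hx
    rcases List.mem_append.1 hx with h | h
    · exact hα x h
    · rw [List.mem_singleton.1 h]; exact hb) hβ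
  rw [List.append_assoc, List.singleton_append, List.append_assoc, List.singleton_append] at h2
  have e1 : gcount g α = α.length := gcount_eq_length (fun x hx => hg x (by simp [hx]))
  have e2 : gcount g (L :: β) = β.length + 1 := by
    rw [gcount_eq_length (fun x hx => hg x (by
      simp only [List.mem_append, List.mem_cons] at hx ⊢
      tauto))]
    simp
  have e3 : gcount g (α ++ [L]) = α.length + 1 := by
    rw [gcount_eq_length (fun x hx => hg x (by
      simp only [List.mem_append, List.mem_cons] at hx ⊢
      tauto))]
    simp
  have e4 : gcount g β = β.length := gcount_eq_length (fun x hx => hg x (by simp [hx]))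
  rw [h1, h2, if_pos hgb, if_pos hgb, e1, e2, e3, e4, demSeq_succ]
  unfold colFactor
  by_cases hc : c b = true
  · rw [if_pos hc, if_pos hc, if_pos hc, omegaP_succ, mul_assoc,
      dd_mul_of_sw (sw_omegaP (Or.inl le_rfl)), ← dem_def]
  · rw [if_neg hc, if_neg hc, if_neg hc, one_mul, one_mul]

lemma exists_min_letter (v : τ → ℕ) : ∀ l : List τ, l ≠ [] → ∃ a ∈ l, ∀ x ∈ l, v a ≤ v x := by
  intro l
  induction l with
  | nil => intro h; exact absurd rfl h
  | cons b l ih =>
    intro _
    by_cases hl : l = []
    · subst hl; exact ⟨b, by simp, by simp⟩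
    · obtain ⟨a, ha, hmin⟩ := ih hl
      by_cases hab : v a ≤ v b
      · refine ⟨a, by simp [ha], ?_⟩
        intro x hx
        rcases List.mem_cons.1 hx with h | h
        · rw [h]; exact hab
        · exact hmin x h
      · refine ⟨b, by simp, ?_⟩
        intro x hx
        rcases List.mem_cons.1 hx with h | h
        · rw [h]
        · exact le_trans (by omega) (hmin x h)

lemma colFactor_dd {t p : ℕ} (b : Bool) (h : t ≤ p ∨ p + 2 ≤ t) (f : Pol) :
    dd p (colFactor t b * f) = colFactor t b * dd p f := by
  apply dd_mul_of_sw
  unfold colFactor
  split_ifs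
  · exact sw_omegaP h
  · exact map_one _

lemma colFactor_dem {t p : ℕ} (b : Bool) (h : t ≤ p ∨ p + 2 ≤ t) (f : Pol) :
    dem p (colFactor t b * f) = colFactor t b * dem p f := by
  apply dem_mul_of_sw
  unfold colFactor
  split_ifs
  · exact sw_omegaP h
  · exact map_one _

/-- J-side exchange: all letters are moving letters; the largest letter `L` passes the letter `b`. -/
theorem exchange_large (hχ : SmallRec v g c χ) : ∀ (n : ℕ) (α β : List τ) (b L : τ),
    (α ++ β).length = n → (α ++ b :: L :: β).Pairwise (fun x y => v x ≠ v y) →
    (∀ a ∈ α ++ b :: L :: β, g a = true) → (∀ a ∈ α ++ b :: β, v a < v L) →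
    χ (α ++ b :: L :: β) =
      if c b then dd α.length (χ (α ++ L :: b :: β)) else dem α.length (χ (α ++ L :: b :: β)) := by
  intro n
  induction n with
  | zero =>
    intro α β b L hn hnd hg hL
    obtain ⟨rfl, rfl⟩ : α = [] ∧ β = [] := by
      rw [List.length_append] at hn
      exact ⟨List.length_eq_zero_iff.1 (by omega), List.length_eq_zero_iff.1 (by omega)⟩
    have hb : v b < v L := hL b (by simp)
    exact exchange_large_aux hχ [] [] b L (by simp) (by simp) hb hg
  | succ n ih =>
    intro α β b L hn hnd hg hL
    obtain ⟨s, hs, hmin⟩ := exists_min_letter v (α ++ b :: β) (by simp)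
    have hgs : g s = true := hg s (by
      rcases List.mem_append.1 hs with h | h
      · simp [h]
      · rcases List.mem_cons.1 h with h | h <;> simp [h])
    rcases List.mem_append.1 hs with h | h
    · -- the smallest letter is in `α`
      obtain ⟨α₁, α₂, rfl⟩ := List.append_of_mem h
      have hpw := hnd
      rw [List.append_assoc, List.cons_append] at hpw
      rw [List.pairwise_append, List.pairwise_cons] at hpw
      obtain ⟨h1, ⟨h2, h3⟩, h4⟩ := hpw
      have hlt : ∀ x ∈ (α₁ ++ α₂) ++ b :: β, v s < v x := by
        intro x hx
        have hle : v s ≤ v x := hmin x (by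
          simp only [List.mem_append, List.mem_cons] at hx ⊢
          tauto)
        have hne : v s ≠ v x := by
          simp only [List.mem_append, List.mem_cons] at hx
          rcases hx with (hx | hx) | hx
          · exact (h4 x hx s (by simp)).symm
          · exact h2 x (by simp [hx])
          · exact h2 x (by
              simp only [List.mem_append, List.mem_cons]
              tauto)
        omega
      have hsL : v s < v L := hL s hs
      have hrec1 := hχ α₁ s (α₂ ++ b :: L :: β) (fun x hx => hlt x (by simp [hx])) (by
        intro x hx
        simp only [List.mem_append, List.mem_cons] at hx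
        rcases hx with hx | hx | hx | hx
        · exact hlt x (by simp [hx])
        · exact hlt x (by simp [hx])
        · rw [hx]; exact hsL
        · exact hlt x (by simp [hx]))
      have hrec2 := hχ α₁ s (α₂ ++ L :: b :: β) (fun x hx => hlt x (by simp [hx])) (by
        intro x hx
        simp only [List.mem_append, List.mem_cons] at hx
        rcases hx with hx | hx | hx | hx
        · exact hlt x (by simp [hx])
        · rw [hx]; exact hsL
        · exact hlt x (by simp [hx])
        · exact hlt x (by simp [hx]))
      have hgl1 : gcount g α₁ = α₁.length := gcount_eq_length (fun x hx => hg x (by simp [hx]))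
      have hgl2 : gcount g (α₂ ++ b :: L :: β) = α₂.length + β.length + 2 := by
        rw [gcount_eq_length]
        · simp; ring
        · intro x hx
          apply hg x
          simp only [List.mem_append, List.mem_cons] at hx ⊢
          tauto
      have hgl3 : gcount g (α₂ ++ L :: b :: β) = α₂.length + β.length + 2 := by
        rw [gcount_eq_length]
        · simp; ring
        · intro x hx
          apply hg x
          simp only [List.mem_append, List.mem_cons] at hx ⊢
          tauto
      have IH := ih (α₁ ++ α₂) β b L (by
          simp only [List.length_append, List.length_cons] at hn ⊢; omega)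
        (hnd.sublist (by
          rw [List.append_assoc, List.append_assoc, List.cons_append]
          exact List.Sublist.append_left (List.sublist_cons_self _ _) _))
        (fun x hx => hg x (by
          simp only [List.mem_append, List.mem_cons] at hx ⊢
          tauto))
        (fun x hx => hL x (by
          simp only [List.mem_append, List.mem_cons] at hx ⊢
          tauto))
      have e1 : (α₁ ++ s :: α₂) ++ b :: L :: β = α₁ ++ s :: (α₂ ++ b :: L :: β) := by simp
      have e2 : (α₁ ++ s :: α₂) ++ L :: b :: β = α₁ ++ s :: (α₂ ++ L :: b :: β) := by simp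
      have e3 : (α₁ ++ s :: α₂).length = (α₁.length + α₂.length) + 1 := by
        simp; ring
      rw [e1, e2, hrec1, hrec2, e3, hgl1, hgl2, hgl3, if_pos hgs, if_pos hgs,
        ← List.append_assoc α₁ α₂, ← List.append_assoc α₁ α₂, IH, List.length_append]
      split_ifs with hc
      · rw [colFactor_dd _ (Or.inl (by omega)), dd_demSeq (by omega) (by omega)]
      · rw [colFactor_dem _ (Or.inl (by omega)), dem_demSeq (by omega) (by omega)]
    · rcases List.mem_cons.1 h with h | h
      · -- the smallest letter is `b`
        subst h
        have hpw := hnd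
        rw [List.pairwise_append, List.pairwise_cons] at hpw
        obtain ⟨h1, ⟨h2, h3⟩, h4⟩ := hpw
        refine exchange_large_aux hχ α β s L ?_ ?_ (hL s hs) hg
        · intro x hx
          have hle : v s ≤ v x := hmin x (by simp [hx])
          have hne : v x ≠ v s := h4 x hx s (by simp)
          omega
        · intro x hx
          have hle : v s ≤ v x := hmin x (by simp [hx])
          have hne : v s ≠ v x := h2 x (by simp [hx])
          omega
      · -- the smallest letter is in `β`
        obtain ⟨β₁, β₂, rfl⟩ := List.append_of_mem h
        have hnd' : (α ++ b :: L :: β₁).Pairwise (fun x y => v x ≠ v y) ∧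
            (s :: β₂).Pairwise (fun x y => v x ≠ v y) ∧
            ∀ x ∈ α ++ b :: L :: β₁, ∀ y ∈ s :: β₂, v x ≠ v y := by
          rw [← List.pairwise_append]
          convert hnd using 1
          simp
        obtain ⟨h1, h2, h3⟩ := hnd'
        rw [List.pairwise_cons] at h2
        have hsL : v s < v L := hL s hs
        have hlt : ∀ x ∈ α ++ b :: (β₁ ++ β₂), v s < v x := by
          intro x hx
          have hle : v s ≤ v x := hmin x (by
            simp only [List.mem_append, List.mem_cons] at hx ⊢
            tauto)
          have hne : v s ≠ v x := by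
            simp only [List.mem_append, List.mem_cons] at hx
            rcases hx with hx | hx | hx | hx
            · exact (h3 x (by simp [hx]) s (by simp)).symm
            · exact (h3 x (by simp [hx]) s (by simp)).symm
            · exact (h3 x (by simp [hx]) s (by simp)).symm
            · exact h2.1 x hx
          omega
        have hrec1 := hχ (α ++ b :: L :: β₁) s β₂ (by
          intro x hx
          simp only [List.mem_append, List.mem_cons] at hx
          rcases hx with hx | hx | hx | hx
          · exact hlt x (by simp [hx])
          · exact hlt x (by simp [hx])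
          · rw [hx]; exact hsL
          · exact hlt x (by simp [hx])) (fun x hx => hlt x (by simp [hx]))
        have hrec2 := hχ (α ++ L :: b :: β₁) s β₂ (by
          intro x hx
          simp only [List.mem_append, List.mem_cons] at hx
          rcases hx with hx | hx | hx | hx
          · exact hlt x (by simp [hx])
          · rw [hx]; exact hsL
          · exact hlt x (by simp [hx])
          · exact hlt x (by simp [hx])) (fun x hx => hlt x (by simp [hx]))
        have hgl1 : gcount g (α ++ b :: L :: β₁) = α.length + β₁.length + 2 := by
          rw [gcount_eq_length]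
          · simp; ring
          · intro x hx
            apply hg x
            simp only [List.mem_append, List.mem_cons] at hx ⊢
            tauto
        have hgl2 : gcount g (α ++ L :: b :: β₁) = α.length + β₁.length + 2 := by
          rw [gcount_eq_length]
          · simp; ring
          · intro x hx
            apply hg x
            simp only [List.mem_append, List.mem_cons] at hx ⊢
            tauto
        have IH := ih α (β₁ ++ β₂) b L (by
            simp only [List.length_append, List.length_cons] at hn ⊢; omega)
          (hnd.sublist (by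
            apply List.Sublist.append_left
            apply List.Sublist.cons_cons
            apply List.Sublist.cons_cons
            exact List.Sublist.append_left (List.sublist_cons_self _ _) _))
          (fun x hx => hg x (by
            simp only [List.mem_append, List.mem_cons] at hx ⊢
            tauto))
          (fun x hx => hL x (by
            simp only [List.mem_append, List.mem_cons] at hx ⊢
            tauto))
        have e1 : α ++ b :: L :: (β₁ ++ s :: β₂) = (α ++ b :: L :: β₁) ++ s :: β₂ := by simp
        have e2 : α ++ L :: b :: (β₁ ++ s :: β₂) = (α ++ L :: b :: β₁) ++ s :: β₂ := by simp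
        have e3 : (α ++ b :: L :: β₁) ++ β₂ = α ++ b :: L :: (β₁ ++ β₂) := by simp
        have e4 : (α ++ L :: b :: β₁) ++ β₂ = α ++ L :: b :: (β₁ ++ β₂) := by simp
        rw [e1, e2, hrec1, hrec2, e3, e4, hgl1, hgl2, if_pos hgs, if_pos hgs, IH]
        split_ifs with hc
        · rw [colFactor_dd _ (Or.inr (by omega)), dd_demSeq_far (by omega)]
        · rw [colFactor_dem _ (Or.inr (by omega)), dem_demSeq_far (by omega)]

end words

end Pool.Agent.Gao
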