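import Pool.Agent.Gao.MSide
import Pool.Agent.Gao.FockGen

/-!
# Gao project (MP_b139df_co): A-side inputs of Theorem E, second part

* `mdim_last` (m1): the smallest letter `s ∈ A` stands at the last position of `J`.
* `mdim_pass` (m3): the smallest letter `s` of `J` passes a letter that is not in `A`.
-/

namespace Gao

open Finset Module

noncomputable section

variable {n : ℕ}

/-! ### (m1): full columns -/

/-- the boxes of the column `c` in the rows `S` -/
def colBoxes (S : Finset (Fin n)) (c : Fin n) : Finset (Fin n × Fin n) := S.map ⟨fun x => (x, c),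
  fun _ _ h => (Prod.mk.inj h).1⟩

lemma mem_colBoxes {S : Finset (Fin n)} {c : Fin n} {b : Fin n × Fin n} :
    b ∈ colBoxes S c ↔ b.1 ∈ S ∧ b.2 = c := by
  unfold colBoxes
  rw [mem_map]
  constructor
  · rintro ⟨x, hx, rfl⟩
    exact ⟨hx, rfl⟩
  · rintro ⟨h1, h2⟩
    exact ⟨b.1, h1, Prod.ext rfl h2.symm⟩

lemma crb_crL_of_mem {L : List (Fin n × Fin n)} {b : Fin n × Fin n} (hb : b ∈ L) :
    Kost.cr b * InertAux.crL L = 0 := by
  induction L with
  | nil => exact absurd hb (List.not_mem_nil)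
  | cons e L ih =>
    rw [InertAux.crL_cons]
    by_cases h : b = e
    · subst h
      rw [← mul_assoc, cr_mul_self, zero_mul]
    · have h1 : b ∈ L := by
        rcases List.mem_cons.1 hb with h2 | h2
        · exact absurd h2 h
        · exact h2
      have h2 : Kost.cr b * Kost.cr e = - (Kost.cr e * Kost.cr b) :=
        eq_neg_of_add_eq_zero_left (Kost.cr_cr b e)
      rw [← mul_assoc, h2, neg_mul, mul_assoc, ih h1, mul_zero, neg_zero]

lemma crL_cr_of_mem {L : List (Fin n × Fin n)} {b : Fin n × Fin n} (hb : b ∈ L) :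
    InertAux.crL L * Kost.cr b = 0 := by
  induction L with
  | nil => exact absurd hb (List.not_mem_nil)
  | cons e L ih =>
    rw [InertAux.crL_cons]
    by_cases h1 : b ∈ L
    · rw [mul_assoc, ih h1, mul_zero]
    · have h : b = e := by
        rcases List.mem_cons.1 hb with h2 | h2
        · exact h2
        · exact absurd h2 h1
      subst h
      have key : ∀ L : List (Fin n × Fin n), Kost.cr b * (InertAux.crL L * Kost.cr b) = 0 := by
        intro L
        induction L with
        | nil =>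
          have : InertAux.crL ([] : List (Fin n × Fin n)) = 1 := rfl
          rw [this, one_mul, cr_mul_self]
        | cons e L ih =>
          have h2 : Kost.cr b * Kost.cr e = - (Kost.cr e * Kost.cr b) :=
            eq_neg_of_add_eq_zero_left (Kost.cr_cr b e)
          rw [InertAux.crL_cons, mul_assoc, ← mul_assoc, h2, neg_mul, mul_assoc, ih, mul_zero,
            neg_zero]
      rw [mul_assoc]
      exact key L

lemma cr_an_crL_of_mem {L : List (Fin n × Fin n)} {b b' : Fin n × Fin n} (hb : b ∈ L)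
    (hne : b' ≠ b) : Kost.cr b * Kost.an b' * InertAux.crL L = 0 := by
  induction L with
  | nil => exact absurd hb (List.not_mem_nil)
  | cons e L ih =>
    rw [InertAux.crL_cons]
    have h0 : Kost.cr b * Kost.cr e = - (Kost.cr e * Kost.cr b) :=
        eq_neg_of_add_eq_zero_left (Kost.cr_cr b e)
    have h1 : Kost.cr b * Kost.an b' * Kost.cr e = (if b' = e then Kost.cr b else 0) +
        Kost.cr e * (Kost.cr b * Kost.an b') := Kost.cr_an_cr b b' e
    by_cases h : b = e
    · subst h
      rw [← mul_assoc, h1, if_neg hne, zero_add, ← mul_assoc, cr_mul_self, zero_mul, zero_mul]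
    · have h2 : b ∈ L := by
        rcases List.mem_cons.1 hb with h2 | h2
        · exact absurd h2 h
        · exact h2
      rw [← mul_assoc, h1, add_mul, mul_assoc, ih h2, mul_zero, add_zero]
      split_ifs
      · exact crb_crL_of_mem h2
      · rw [zero_mul]

lemma cr_an_crL_comm {L : List (Fin n × Fin n)} {b b' : Fin n × Fin n} (hb : b' ∉ L) :
    Kost.cr b * Kost.an b' * InertAux.crL L = InertAux.crL L * (Kost.cr b * Kost.an b') := by
  induction L with
  | nil =>
    have : InertAux.crL ([] : List (Fin n × Fin n)) = 1 := rfl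
    rw [this, one_mul, mul_one]
  | cons e L ih =>
    rw [List.mem_cons, not_or] at hb
    rw [InertAux.crL_cons, ← mul_assoc, Kost.cr_an_cr, if_neg hb.1, zero_add, mul_assoc, ih hb.2,
      mul_assoc]

/-- multiplication with a full column commutes with the row operators -/
lemma rowE_crL_col {S : Finset (Fin n)} {c x y : Fin n} (hx : x ∈ S) (hy : y ∈ S) (hxy : x ≠ y) :
    rowE x y * InertAux.crL (colBoxes S c).toList =
      InertAux.crL (colBoxes S c).toList * rowE x y := by
  unfold rowE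
  rw [Finset.sum_mul, Finset.mul_sum]
  refine Finset.sum_congr rfl fun j _ => ?_
  by_cases hj : j = c
  · subst hj
    have h1 : (y, j) ∈ (colBoxes S j).toList := by
      rw [Finset.mem_toList, mem_colBoxes]
      exact ⟨hy, rfl⟩
    rw [cr_an_crL_of_mem h1 (fun h => hxy (Prod.mk.inj h).1), ← mul_assoc, crL_cr_of_mem h1, zero_mul]
  · apply cr_an_crL_comm
    rw [Finset.mem_toList, mem_colBoxes]
    exact fun h => hj h.2

lemma Dset_last {w : Equiv.Perm (Fin n)} {A J : Finset (Fin n)} {s : Fin n} (hsJ : w.symm s ∈ J)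
    (hlast : ∀ j ∈ J, j ≤ w.symm s) (hmin : ∀ j ∈ J, s ≤ w j) (hAJ : ∀ x ∈ A, w.symm x ∈ J) :
    Dset w A J = Dset w (A.erase s) (J.erase (w.symm s)) ∪ colBoxes (A.erase s) (w.symm s) := by
  ext b
  rw [mem_union, mem_Dset, mem_Dset, mem_colBoxes, mem_erase, mem_erase]
  constructor
  · rintro ⟨h1, h2, h3, h4⟩
    have hbs : b.1 ≠ s := by
      rintro h
      rw [h] at h3
      exact absurd (hlast _ h2) (not_le_of_gt h3)
    by_cases h : b.2 = w.symm s
    · exact Or.inr ⟨⟨hbs, h1⟩, h⟩
    · exact Or.inl ⟨⟨hbs, h1⟩, ⟨h, h2⟩, h3, h4⟩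
  · rintro (⟨⟨h0, h1⟩, ⟨h2, h3⟩, h4, h5⟩ | ⟨⟨h0, h1⟩, h2⟩)
    · exact ⟨h1, h3, h4, h5⟩
    · rw [h2, Equiv.apply_symm_apply]
      refine ⟨h1, hsJ, ?_, ?_⟩
      · refine lt_of_le_of_ne (hlast _ (hAJ _ h1)) ?_
        intro h3
        exact h0 (w.symm.injective h3)
      · refine lt_of_le_of_ne ?_ h0.symm
        have h3 := hmin _ (hAJ _ h1)
        rwa [Equiv.apply_symm_apply] at h3

/-- the row of the last letter is empty -/
lemma gen_rowOps_last {w : Equiv.Perm (Fin n)} {A : Finset (Fin n)} {D : Finset (Fin n × Fin n)}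
    {s : Fin n} (hlast : ∀ x ∈ A, w.symm x ≤ w.symm s) (hD : ∀ j, (s, j) ∉ D) :
    gen (rowOps w A) (Kost.ee D) = gen (rowOps w (A.erase s)) (Kost.ee D) := by
  apply le_antisymm
  · apply gen_le (self_mem_gen _ _)
    rintro T ⟨x, hx, y, hy, hyx, rfl⟩ z hz
    have hys : y ≠ s := by
      rintro rfl
      exact absurd (hlast x hx) (not_le_of_gt hyx)
    by_cases hxs : x = s
    · subst hxs
      have h0 : rowE x y z = 0 := by
        unfold rowE
        rw [LinearMap.sum_apply]
        refine Finset.sum_eq_zero fun j _ => ?_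
        have h1 : Kost.an (x, j) z = 0 := by
          refine InertAux.gen_kill ?_ ?_ hz
          · rintro T ⟨a, ha, b, hb, _, rfl⟩
            rw [InertAux.rowE_an, if_neg (fun h => (mem_erase.1 hb).1 h), sub_zero]
          · rw [Kost.an_ee, if_neg (hD j)]
        rw [Module.End.mul_apply, h1, map_zero]
      rw [h0]
      exact Submodule.zero_mem _
    · exact gen_stable (S := rowOps w (A.erase s))
        ⟨x, mem_erase.2 ⟨hxs, hx⟩, y, mem_erase.2 ⟨hys, hy⟩, hyx, rfl⟩ hz
  · apply gen_le (self_mem_gen _ _)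
    rintro T ⟨x, hx, y, hy, hyx, rfl⟩ z hz
    exact gen_stable (S := rowOps w A)
      ⟨x, mem_of_mem_erase hx, y, mem_of_mem_erase hy, hyx, rfl⟩ hz

/-- (m1) for the modules -/
theorem Mmod_last {w : Equiv.Perm (Fin n)} {A J : Finset (Fin n)} {s : Fin n} (hsJ : w.symm s ∈ J)
    (hlast : ∀ j ∈ J, j ≤ w.symm s) (hmin : ∀ j ∈ J, s ≤ w j) (hAJ : ∀ x ∈ A, w.symm x ∈ J) :
    Mmod w A A J = (Mmod w (A.erase s) (A.erase s) (J.erase (w.symm s))).map
      (InertAux.crL (colBoxes (A.erase s) (w.symm s)).toList) := by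
  unfold Mmod
  obtain ⟨t, ht, h⟩ := InertAux.crL_ee (colBoxes (A.erase s) (w.symm s)).toList
    (Dset w (A.erase s) (J.erase (w.symm s))) (Finset.nodup_toList _) (by
    intro b hb hb'
    rw [Finset.mem_toList, mem_colBoxes] at hb
    rw [mem_Dset, mem_erase] at hb'
    rw [mem_erase] at hb'
    exact hb'.2.1.1 hb.2)
  rw [← InertAux.gen_map, h, Finset.toList_toFinset, ← Dset_last hsJ hlast hmin hAJ,
    InertAux.gen_smul ht, gen_rowOps_last (fun x hx => hlast _ (hAJ x hx))]
  · intro j hj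
    rw [mem_Dset] at hj
    exact absurd (hlast _ hj.2.1) (not_le_of_gt hj.2.2.1)
  · rintro T ⟨x, hx, y, hy, hxy, rfl⟩
    exact rowE_crL_col hx hy (by rintro rfl; exact lt_irrefl _ hxy)

/-- the row content of a column of boxes -/
def indS (S : Finset (Fin n)) : Fin n → ℤ := fun x => if x ∈ S then 1 else 0

lemma hom_crL_row (L : List (Fin n × Fin n)) :
    Hom (rowGr n) (InertAux.crL L) ((L.map (fun b => (Pi.single b.1 1 : Fin n → ℤ))).sum) := by
  induction L with
  | nil =>
    intro a
    have : InertAux.crL ([] : List (Fin n × Fin n)) = 1 := rfl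
    rw [this, one_mul, mul_one, List.map_nil, List.sum_nil, add_zero]
  | cons b L ih =>
    rw [InertAux.crL_cons, List.map_cons, List.sum_cons, add_comm]
    exact (hom_cr_row b).mul' ih

lemma sum_colBoxes (S : Finset (Fin n)) (c : Fin n) :
    (((colBoxes S c).toList.map (fun b => (Pi.single b.1 1 : Fin n → ℤ))).sum) = indS S := by
  rw [Finset.sum_map_toList]
  unfold colBoxes
  rw [Finset.sum_map]
  funext x
  rw [Finset.sum_apply]
  simp only [Function.Embedding.coeFn_mk, indS, Pi.single_apply]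
  rw [Finset.sum_ite_eq]

/-- there are no boxes in the columns outside `J` -/
theorem an_Mmod_col (w : Equiv.Perm (Fin n)) (S J : Finset (Fin n)) {x : Fk n}
    (hx : x ∈ Mmod w S S J) (z j : Fin n) (hj : j ∉ J) : Kost.an (z, j) x = 0 := by
  revert z
  apply gen_induction (p := fun x => ∀ z, Kost.an (z, j) x = 0) _ _ _ _ _ x hx
  · intro z; rw [map_zero]
  · intro x y hx hy z; rw [map_add, hx z, hy z, add_zero]
  · intro c x hx z; rw [map_smul, hx z, smul_zero]
  · intro z
    rw [Kost.an_ee, if_neg]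
    intro h
    exact hj (mem_Dset.1 h).2.1
  · rintro T ⟨x, hx, y, hy, hxy, rfl⟩ v _ hv z
    have h1 := LinearMap.congr_fun (InertAux.rowE_an x y z j) v
    simp only [Module.End.mul_apply, LinearMap.sub_apply] at h1
    rw [hv z, map_zero] at h1
    have h2 : (if y = z then Kost.an (x, j) else (0 : Module.End ℂ (Fk n))) v = 0 := by
      split_ifs
      · exact hv x
      · rfl
    rw [h2, sub_zero] at h1
    exact h1.symm

/-- (m1) -/
theorem mdim_last {w : Equiv.Perm (Fin n)} {A J : Finset (Fin n)} {s : Fin n} (hsJ : w.symm s ∈ J)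
    (hlast : ∀ j ∈ J, j ≤ w.symm s) (hmin : ∀ j ∈ J, s ≤ w j) (hAJ : ∀ x ∈ A, w.symm x ∈ J)
    (ν : Fin n → ℤ) :
    mdim w A J ν = mdim w (A.erase s) (J.erase (w.symm s)) (ν - indS (A.erase s)) := by
  unfold mdim
  rw [Mmod_last hsJ hlast hmin hAJ]
  set K := InertAux.crL (colBoxes (A.erase s) (w.symm s)).toList with hK
  set M := Mmod w (A.erase s) (A.erase s) (J.erase (w.symm s)) with hM
  have hhom : Hom (rowGr n) K (indS (A.erase s)) := by
    have h := hom_crL_row (colBoxes (A.erase s) (w.symm s)).toList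
    rwa [sum_colBoxes] at h
  have h1 : (M.map K).map ((rowGr n).π ν) =
      (M.map ((rowGr n).π (ν - indS (A.erase s)))).map K := by
    rw [← Submodule.map_comp, ← Submodule.map_comp]
    congr 1
    have h2 := hhom (ν - indS (A.erase s))
    rw [sub_add_cancel] at h2
    exact h2.symm
  rw [h1]
  apply InertAux.finrank_map_of_injOn
  rintro _ ⟨x, hx, rfl⟩ h0
  apply InertAux.crL_inj _ (Finset.nodup_toList _) _ _ h0
  intro b hb
  rw [Finset.mem_toList, mem_colBoxes] at hb
  have h3 : (rowGr n).π (ν - indS (A.erase s)) x ∈ M := by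
    have h4 := gen_row_stable_row w (A.erase s) (Dset w (A.erase s) (J.erase (w.symm s)))
    exact h4 _ x hx
  exact an_Mmod_col w _ _ h3 b.1 b.2 (by rw [hb.2]; exact notMem_erase _ _)

/-! ### (m3): the smallest letter passes a letter outside `A` -/

/-- a power of the sum of the pairs moves all boxes that can be moved -/
lemma pair_pow' {B P : Type} [Fintype B] [DecidableEq B] [Fintype P] [DecidableEq P]
    {x y : P → B} (hxy : ∀ p q, x p ≠ y q) (hx : Function.Injective x)
    (hy : Function.Injective y) (D : Finset B) :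
    ∃ k : ℕ, ∃ t : ℂ, t ≠ 0 ∧ ((∑ p, Kost.cr (y p) * Kost.an (x p)) ^ k) (Kost.ee D) =
      t • Kost.ee (mvd x y D (univ.filter (fun p => x p ∈ D ∧ y p ∉ D))) := by
  set R := univ.filter (fun p => x p ∈ D ∧ y p ∉ D) with hR
  obtain ⟨t, ht, h1⟩ := sum_pair_pow hxy hx hy D R (by
    intro p hp
    rw [hR, mem_filter] at hp
    exact hp.2)
  refine ⟨R.card, t, ht, ?_⟩
  rw [← h1]
  set A := ∑ p ∈ R, Kost.cr (y p) * Kost.an (x p) with hA
  set C := ∑ p ∈ univ \ R, Kost.cr (y p) * Kost.an (x p) with hC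
  have hAC : ∑ p, Kost.cr (y p) * Kost.an (x p) = A + C := by
    rw [hA, hC, add_comm, Finset.sum_sdiff (subset_univ R)]
  have hcomm : Commute C A := by
    rw [hA, hC]
    exact Commute.sum_left _ _ _ (fun p _ => Commute.sum_right _ _ _
      (fun q _ => pair_comm hxy p q))
  have hCv : C (Kost.ee D) = 0 := by
    rw [hC, LinearMap.sum_apply]
    refine Finset.sum_eq_zero fun p hp => ?_
    rw [mem_sdiff, hR, mem_filter] at hp
    by_cases h : x p ∈ D
    · have h' : y p ∈ D := by
        by_contra h'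
        exact hp.2 ⟨mem_univ _, h, h'⟩
      rw [Module.End.mul_apply, Kost.an_ee, if_pos h, map_smul, Kost.cr_ee, if_pos, smul_zero]
      exact mem_erase.2 ⟨(hxy p p).symm, h'⟩
    · exact pair_ee_of_notMem h
  rw [hAC]
  have key : ∀ m : ℕ, ((A + C) ^ m) (Kost.ee D) = (A ^ m) (Kost.ee D) := by
    intro m
    induction m with
    | zero => simp
    | succ m ihm =>
      rw [pow_succ', Module.End.mul_apply, ihm, LinearMap.add_apply, ← Module.End.mul_apply C,
        (hcomm.pow_right m).eq, Module.End.mul_apply, hCv, map_zero, add_zero, pow_succ',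
        Module.End.mul_apply]
  exact key _

lemma rowE_colE_comm (x y j l : Fin n) : rowE x y * colE j l = colE j l * rowE x y := by
  rw [← sub_eq_zero]
  have h1 : rowE x y * colE j l - colE j l * rowE x y = ∑ i : Fin n, ∑ z : Fin n,
      ((if (x, i) = (z, l) then Kost.cr (y, i) * Kost.an (z, j) else 0) -
        (if (y, i) = (z, j) then Kost.cr (z, l) * Kost.an (x, i) else 0)) := by
    unfold rowE colE
    rw [Finset.sum_mul_sum, Finset.sum_mul_sum]
    conv_lhs =>
      rhs
      rw [Finset.sum_comm]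
    rw [← Finset.sum_sub_distrib]
    refine Finset.sum_congr rfl fun x _ => ?_
    rw [← Finset.sum_sub_distrib]
    refine Finset.sum_congr rfl fun y _ => ?_
    exact bil_comm _ _ _ _
  rw [h1]
  simp only [Finset.sum_sub_distrib, Prod.mk.injEq]
  have h2 : ∑ i : Fin n, ∑ z : Fin n, (if x = z ∧ i = l then Kost.cr (y, i) * Kost.an (z, j) else 0) =
      Kost.cr (y, l) * Kost.an (x, j) := by
    rw [Finset.sum_eq_single l, Finset.sum_eq_single x]
    · rw [if_pos ⟨rfl, rfl⟩]
    · intro z _ hz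
      rw [if_neg (fun h => hz h.1.symm)]
    · intro h
      exact absurd (mem_univ _) h
    · intro i _ hi
      exact Finset.sum_eq_zero fun z _ => if_neg (fun h => hi h.2)
    · intro h
      exact absurd (mem_univ _) h
  have h3 : ∑ i : Fin n, ∑ z : Fin n, (if y = z ∧ i = j then Kost.cr (z, l) * Kost.an (x, i) else 0) =
      Kost.cr (y, l) * Kost.an (x, j) := by
    rw [Finset.sum_eq_single j, Finset.sum_eq_single y]
    · rw [if_pos ⟨rfl, rfl⟩]
    · intro z _ hz
      rw [if_neg (fun h => hz h.1.symm)]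
    · intro h
      exact absurd (mem_univ _) h
    · intro i _ hi
      exact Finset.sum_eq_zero fun z _ => if_neg (fun h => hi h.2)
    · intro h
      exact absurd (mem_univ _) h
  rw [h2, h3, sub_self]

/-- two box sets obtained from each other by exchanging the nested columns `c`, `c'` -/
lemma finrank_gen_swap_le {w : Equiv.Perm (Fin n)} {A : Finset (Fin n)} {c c' : Fin n}
    (hcc : c ≠ c') {D D' : Finset (Fin n × Fin n)}
    (h1 : ∀ b : Fin n × Fin n, b.2 ≠ c → b.2 ≠ c' → (b ∈ D ↔ b ∈ D'))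
    (h2 : ∀ x, (x, c') ∈ D' ↔ (x, c) ∈ D) (h3 : ∀ x, (x, c) ∈ D' ↔ (x, c') ∈ D)
    (h4 : ∀ x, (x, c') ∈ D → (x, c) ∈ D) (ν : Fin n → ℤ) :
    finrank ℂ ((gen (rowOps w A) (Kost.ee D')).map ((rowGr n).π ν)) ≤
      finrank ℂ ((gen (rowOps w A) (Kost.ee D)).map ((rowGr n).π ν)) := by
  obtain ⟨k, t, ht, h⟩ := pair_pow' (x := fun z : Fin n => (z, c)) (y := fun z : Fin n => (z, c'))
    (fun p q h => hcc (Prod.mk.inj h).2) (fun p q h => (Prod.mk.inj h).1)
    (fun p q h => (Prod.mk.inj h).1) D
  have hD : mvd (fun z : Fin n => (z, c)) (fun z : Fin n => (z, c')) D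
      (univ.filter (fun p => (p, c) ∈ D ∧ (p, c') ∉ D)) = D' := by
    ext b
    rw [mem_mvd]
    simp only [mem_filter, mem_univ, true_and]
    obtain ⟨z, j⟩ := b
    by_cases hj : j = c
    · subst hj
      rw [h3 z]
      constructor
      · rintro (⟨h5, h6⟩ | ⟨p, hp, h5⟩)
        · by_contra h7
          exact h6 z ⟨h5, h7⟩ rfl
        · exact absurd (Prod.mk.inj h5).2.symm hcc
      · intro h5
        refine Or.inl ⟨h4 z h5, fun p hp h6 => ?_⟩
        rw [(Prod.mk.inj h6).1] at hp
        exact hp.2 h5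
    · by_cases hj' : j = c'
      · subst hj'
        rw [h2 z]
        constructor
        · rintro (⟨h5, _⟩ | ⟨p, hp, h5⟩)
          · exact h4 z h5
          · rw [← (Prod.mk.inj h5).1]
            exact hp.1
        · intro h5
          by_cases h6 : (z, j) ∈ D
          · refine Or.inl ⟨h6, fun p _ h7 => ?_⟩
            exact hj (Prod.mk.inj h7).2.symm
          · exact Or.inr ⟨z, ⟨h5, h6⟩, rfl⟩
      · rw [← h1 (z, j) hj hj']
        constructor
        · rintro (⟨h5, _⟩ | ⟨p, hp, h5⟩)
          · exact h5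
          · exact absurd (Prod.mk.inj h5).2.symm hj'
        · intro h5
          exact Or.inl ⟨h5, fun p _ h6 => hj (Prod.mk.inj h6).2.symm⟩
  rw [hD] at h
  have h5 : (∑ p : Fin n, Kost.cr (p, c') * Kost.an (p, c)) = colE c c' := rfl
  rw [h5] at h
  have hcomm : ∀ T ∈ rowOps w A, T * (colE c c') ^ k = (colE c c') ^ k * T := by
    rintro T ⟨x, _, y, _, _, rfl⟩
    exact ((Commute.pow_right (rowE_colE_comm x y c c') k)).eq
  have h6 : gen (rowOps w A) (Kost.ee D') = (gen (rowOps w A) (Kost.ee D)).map ((colE c c') ^ k) := by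
    rw [← InertAux.gen_map hcomm, h, InertAux.gen_smul ht]
  have hhom : Hom (rowGr n) ((colE c c') ^ k) 0 := by
    have h7 := (hom_colE_row c c').pow k
    rwa [smul_zero] at h7
  have h8 : ((gen (rowOps w A) (Kost.ee D)).map ((colE c c') ^ k)).map ((rowGr n).π ν) =
      ((gen (rowOps w A) (Kost.ee D)).map ((rowGr n).π ν)).map ((colE c c') ^ k) := by
    rw [← Submodule.map_comp, ← Submodule.map_comp]
    congr 1
    have h9 := hhom ν
    rw [add_zero] at h9
    exact h9.symm
  rw [h6, h8]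
  exact Submodule.finrank_map_le _ _

/-- the order of two letters of `A` does not change -/
lemma pass_lt {J : Finset (Fin n)} {c c' : Fin n} (hlt : c < c')
    (hadj : ∀ j ∈ J, ¬ (c < j ∧ j < c')) {p q : Fin n} (hp : p ∈ J) (hq : q ∈ J) (hp' : p ≠ c')
    (hq' : q ≠ c') : (Equiv.swap c c' q < Equiv.swap c c' p ↔ q < p) := by
  by_cases h1 : p = c
  · subst h1
    rw [Equiv.swap_apply_left]
    by_cases h2 : q = p
    · subst h2
      rw [Equiv.swap_apply_left]
      exact iff_of_false (lt_irrefl _) (lt_irrefl _)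
    · rw [Equiv.swap_apply_of_ne_of_ne h2 hq']
      constructor
      · intro h3
        by_contra h4
        exact hadj q hq ⟨lt_of_le_of_ne (not_lt.1 h4) (Ne.symm h2), h3⟩
      · intro h3
        exact h3.trans hlt
  · rw [Equiv.swap_apply_of_ne_of_ne h1 hp']
    by_cases h2 : q = c
    · subst h2
      rw [Equiv.swap_apply_left]
      constructor
      · intro h3
        exact hlt.trans h3
      · intro h3
        by_contra h4
        exact hadj p hp ⟨h3, lt_of_le_of_ne (not_lt.1 h4) hp'⟩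
    · rw [Equiv.swap_apply_of_ne_of_ne h2 hq']

/-- (m3): the smallest letter `w c` of `J` passes the next letter `w c'` of `J`, which is not in `A` -/
theorem mdim_pass {w : Equiv.Perm (Fin n)} {A J : Finset (Fin n)} {c c' : Fin n} (hlt : c < c')
    (hc : c ∈ J) (hc' : c' ∈ J) (hadj : ∀ j ∈ J, ¬ (c < j ∧ j < c')) (hmin : ∀ j ∈ J, w c ≤ w j)
    (hb : w c' ∉ A) (hAJ : ∀ x ∈ A, w.symm x ∈ J) (ν : Fin n → ℤ) :
    mdim (w * Equiv.swap c c') A J ν = mdim w A J ν := by
  have hsymm : ∀ x, (w * Equiv.swap c c').symm x = Equiv.swap c c' (w.symm x) := by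
    intro x
    rw [Equiv.symm_apply_eq, Equiv.Perm.mul_apply, Equiv.swap_apply_self, Equiv.apply_symm_apply]
  have hval : ∀ j, (w * Equiv.swap c c') j = w (Equiv.swap c c' j) := fun j => rfl
  have hne : ∀ x ∈ A, w.symm x ≠ c' := by
    intro x hx h
    apply hb
    rw [← h, Equiv.apply_symm_apply]
    exact hx
  have hops : rowOps (w * Equiv.swap c c') A = rowOps w A := by
    ext T
    constructor
    · rintro ⟨x, hx, y, hy, h, rfl⟩
      rw [hsymm, hsymm, pass_lt hlt hadj (hAJ x hx) (hAJ y hy) (hne x hx) (hne y hy)] at h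
      exact ⟨x, hx, y, hy, h, rfl⟩
    · rintro ⟨x, hx, y, hy, h, rfl⟩
      refine ⟨x, hx, y, hy, ?_, rfl⟩
      rw [hsymm, hsymm, pass_lt hlt hadj (hAJ x hx) (hAJ y hy) (hne x hx) (hne y hy)]
      exact h
  have h1 : ∀ b : Fin n × Fin n, b.2 ≠ c → b.2 ≠ c' →
      (b ∈ Dset w A J ↔ b ∈ Dset (w * Equiv.swap c c') A J) := by
    rintro ⟨x, j⟩ hj hj'
    simp only at hj hj'
    rw [mem_Dset, mem_Dset, hsymm, hval, Equiv.swap_apply_of_ne_of_ne hj hj']
    simp only
    constructor
    · rintro ⟨hx, h2, h3, h4⟩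
      refine ⟨hx, h2, ?_, h4⟩
      rw [← Equiv.swap_apply_of_ne_of_ne hj hj',
        pass_lt hlt hadj h2 (hAJ x hx) hj' (hne x hx)]
      exact h3
    · rintro ⟨hx, h2, h3, h4⟩
      refine ⟨hx, h2, ?_, h4⟩
      rw [← Equiv.swap_apply_of_ne_of_ne hj hj',
        pass_lt hlt hadj h2 (hAJ x hx) hj' (hne x hx)] at h3
      exact h3
  have hpc : ∀ x ∈ A, w.symm x ≠ c → (w.symm x < c' ↔ w.symm x < c) := by
    intro x hx hxc
    constructor
    · intro h3
      by_contra h4
      exact hadj _ (hAJ x hx) ⟨lt_of_le_of_ne (not_lt.1 h4) (Ne.symm hxc), h3⟩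
    · intro h3
      exact h3.trans hlt
  have h2 : ∀ x, (x, c') ∈ Dset (w * Equiv.swap c c') A J ↔ (x, c) ∈ Dset w A J := by
    intro x
    rw [mem_Dset, mem_Dset, hsymm, hval, Equiv.swap_apply_right]
    simp only
    constructor
    · rintro ⟨hx, h2, h3, h4⟩
      have hxc : w.symm x ≠ c := by
        intro h
        rw [h, Equiv.swap_apply_left] at h3
        exact lt_irrefl _ h3
      rw [Equiv.swap_apply_of_ne_of_ne hxc (hne x hx), hpc x hx hxc] at h3
      exact ⟨hx, hc, h3, h4⟩
    · rintro ⟨hx, h2, h3, h4⟩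
      have hxc : w.symm x ≠ c := h3.ne
      refine ⟨hx, hc', ?_, h4⟩
      rw [Equiv.swap_apply_of_ne_of_ne hxc (hne x hx), hpc x hx hxc]
      exact h3
  have h3 : ∀ x, (x, c) ∈ Dset (w * Equiv.swap c c') A J ↔ (x, c') ∈ Dset w A J := by
    intro x
    rw [mem_Dset, mem_Dset, hsymm, hval, Equiv.swap_apply_left]
    simp only
    constructor
    · rintro ⟨hx, h2, h3, h4⟩
      have hxc : w.symm x ≠ c := by
        intro h
        rw [h, Equiv.swap_apply_left] at h3
        exact lt_irrefl _ (h3.trans hlt)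
      rw [Equiv.swap_apply_of_ne_of_ne hxc (hne x hx), ← hpc x hx hxc] at h3
      exact ⟨hx, hc', h3, h4⟩
    · rintro ⟨hx, h2, h3, h4⟩
      have hxc : w.symm x ≠ c := by
        intro h
        have h5 := hmin c' hc'
        rw [← h, Equiv.apply_symm_apply] at h5
        exact absurd h5 (not_le_of_gt h4)
      refine ⟨hx, hc, ?_, h4⟩
      rw [Equiv.swap_apply_of_ne_of_ne hxc (hne x hx), ← hpc x hx hxc]
      exact h3
  have h4 : ∀ x, (x, c') ∈ Dset w A J → (x, c) ∈ Dset w A J := by
    intro x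
    rw [mem_Dset, mem_Dset]
    simp only
    rintro ⟨hx, h2, h3, h4⟩
    have hxc : w.symm x ≠ c := by
      intro h
      have h5 := hmin c' hc'
      rw [← h, Equiv.apply_symm_apply] at h5
      exact absurd h5 (not_le_of_gt h4)
    rw [hpc x hx hxc] at h3
    exact ⟨hx, hc, h3, lt_of_le_of_lt (hmin c' hc') h4⟩
  unfold mdim Mmod
  rw [hops]
  apply le_antisymm
  · exact finrank_gen_swap_le hlt.ne h1 h2 h3 h4 ν
  · refine finrank_gen_swap_le hlt.ne' (fun b h5 h6 => (h1 b h6 h5).symm) (fun x => (h2 x).symm)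
      (fun x => (h3 x).symm) (fun x hx => ?_) ν
    rw [h3] at hx
    rw [h2]
    exact h4 x hx

end

end Gao
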