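import Pool.Agent.Gao.EDef
import Pool.Agent.Gao.FockTw
import Pool.Agent.Gao.MSide2

/-!
# Theorem E: the step (E1) (Gao project, MP_b139df_co)

`s = w c` is the smallest letter of `J` and stands at its last position `c`; `A' = A.erase s`, `J' = J.erase c`.
If `ν s ≠ 0` then `Fnu (Fset w A J) ν = ⊥` (the row `s` of `Fset w A J` is empty): `HV_of_subsingleton` and `hh0 = 0`.
If `ν s = 0`: `red_van_iff`, `red_hh0`, `redMod_hom` (CERed.lean) with `δ` = coordinate at `c`, `i : nJ J' → nJ J` the inclusion, `π` =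
forget the row and column `c`, `ka = |A'| ε_c`: `Dset w A J = Dset w A' J' ∪ {(a, c) : a ∈ A'}`; the map `T` = product of the creation operators
`cr (a, c)`, `a ∈ A'`, maps `Nmod w A' J'` isomorphically onto `Nmod w A J` (it commutes with `colE j l`, `j, l ≠ c`, and `colE j c` kills
vectors containing all boxes `(a,c)`, `a ∈ A'`, and no box of the row `s`), and `Fnu (Fset w A' J') (ν - ind A')` onto the part of `Fnu (Fset w A J) ν` of
`c`-degree `|A'|` (the maximal one).
-/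

set_option autoImplicit false

namespace Gao

open Finset Module Gao.CE
open Gao.Fam (homW)

attribute [local instance 100] LieRing.ofAssociativeRing

noncomputable section

variable {n : ℕ}

namespace E1

/-! ### full columns -/

/-- the list of the boxes of column `c` in the rows `S` -/
def Lc (S : Finset (Fin n)) (c : Fin n) : List (Fin n × Fin n) := (colBoxes S c).toList

lemma Lc_nodup (S : Finset (Fin n)) (c : Fin n) : (Lc S c).Nodup := Finset.nodup_toList _

lemma mem_Lc {S : Finset (Fin n)} {c : Fin n} {b : Fin n × Fin n} :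
    b ∈ Lc S c ↔ b.1 ∈ S ∧ b.2 = c := by
  rw [Lc, Finset.mem_toList, mem_colBoxes]

lemma Lc_toFinset (S : Finset (Fin n)) (c : Fin n) : (Lc S c).toFinset = colBoxes S c :=
  Finset.toList_toFinset _

/-- creation of a full column -/
def Tc (S : Finset (Fin n)) (c : Fin n) : Module.End ℂ (Fk n) := crL (Lc S c)

/-- annihilation of a full column -/
def Ta (S : Finset (Fin n)) (c : Fin n) : Module.End ℂ (Fk n) := anL (Lc S c)

lemma Tc_colE {S : Finset (Fin n)} {c j l : Fin n} (hj : j ≠ c) :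
    colE j l * Tc S c = Tc S c * colE j l := by
  unfold colE Tc
  rw [Finset.sum_mul, Finset.mul_sum]
  refine Finset.sum_congr rfl fun x _ => ?_
  rw [bil_crL (Lc_nodup S c), if_neg, zero_add]
  rw [mem_Lc]
  exact fun h => hj h.2

lemma Ta_colE {S : Finset (Fin n)} {c j l : Fin n} (hl : l ≠ c) :
    Ta S c * colE j l = colE j l * Ta S c := by
  unfold colE Ta
  rw [Finset.sum_mul, Finset.mul_sum]
  refine Finset.sum_congr rfl fun x _ => ?_
  rw [anL_bil (Lc_nodup S c), if_neg, zero_add]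
  rw [mem_Lc]
  exact fun h => hl h.2

lemma Tc_cr_of_mem {S : Finset (Fin n)} {c y : Fin n} (hy : y ∈ S) :
    Tc S c * Kost.cr (y, c) = 0 := by
  have h1 := cr_crL (y, c) (Lc S c)
  rw [cr_crL_of_mem (mem_Lc.2 ⟨hy, rfl⟩)] at h1
  exact (smul_eq_zero.1 h1.symm).resolve_left (pow_ne_zero _ (neg_ne_zero.2 one_ne_zero))

lemma colE_Tc_zero {S : Finset (Fin n)} {c j : Fin n} (hj : j ≠ c) {v : Fk n}
    (hv : ∀ y, y ∉ S → Kost.an (y, j) v = 0) : colE j c (Tc S c v) = 0 := by
  rw [← Module.End.mul_apply, Tc_colE hj, Module.End.mul_apply]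
  unfold colE
  rw [LinearMap.sum_apply, map_sum]
  refine Finset.sum_eq_zero fun y _ => ?_
  by_cases hy : y ∈ S
  · rw [Module.End.mul_apply, ← Module.End.mul_apply (Tc S c), Tc_cr_of_mem hy,
      LinearMap.zero_apply]
  · rw [Module.End.mul_apply, hv y hy, map_zero, map_zero]

lemma Ta_Tc {S : Finset (Fin n)} {c : Fin n} {v : Fk n} (hv : ∀ y ∈ S, Kost.an (y, c) v = 0) :
    Ta S c (Tc S c v) = v := by
  apply anL_crL (Lc_nodup S c)
  intro b hb
  rw [mem_Lc] at hb
  have h := hv b.1 hb.1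
  rw [← hb.2] at h
  exact h

/-! ### degrees -/

lemma hom_crL_col' (L : List (Fin n × Fin n)) :
    Hom (colGr n) (crL L) ((L.map (fun b => (Pi.single b.2 1 : Fin n → ℤ))).sum) := by
  induction L with
  | nil =>
    intro a
    rw [crL_nil, one_mul, mul_one, List.map_nil, List.sum_nil, add_zero]
  | cons b L ih =>
    rw [crL_cons, List.map_cons, List.sum_cons, add_comm]
    exact (hom_cr_col b).mul' ih

lemma hom_anL_col' (L : List (Fin n × Fin n)) :
    Hom (colGr n) (anL L) (-(L.map (fun b => (Pi.single b.2 1 : Fin n → ℤ))).sum) := by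
  induction L with
  | nil =>
    intro a
    rw [anL_nil, one_mul, mul_one, List.map_nil, List.sum_nil, neg_zero, add_zero]
  | cons b L ih =>
    rw [anL_cons, List.map_cons, List.sum_cons, neg_add]
    exact ih.mul' (hom_an_col b)

lemma hom_crL_row' (L : List (Fin n × Fin n)) :
    Hom (rowGr n) (crL L) ((L.map (fun b => (Pi.single b.1 1 : Fin n → ℤ))).sum) := by
  induction L with
  | nil =>
    intro a
    rw [crL_nil, one_mul, mul_one, List.map_nil, List.sum_nil, add_zero]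
  | cons b L ih =>
    rw [crL_cons, List.map_cons, List.sum_cons, add_comm]
    exact (hom_cr_row b).mul' ih

lemma hom_anL_row' (L : List (Fin n × Fin n)) :
    Hom (rowGr n) (anL L) (-(L.map (fun b => (Pi.single b.1 1 : Fin n → ℤ))).sum) := by
  induction L with
  | nil =>
    intro a
    rw [anL_nil, one_mul, mul_one, List.map_nil, List.sum_nil, neg_zero, add_zero]
  | cons b L ih =>
    rw [anL_cons, List.map_cons, List.sum_cons, neg_add]
    exact ih.mul' (hom_an_row b)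

/-- the column degree of `Tc` -/
def kap (S : Finset (Fin n)) (c : Fin n) : Fin n → ℤ := S.card • (Pi.single c 1 : Fin n → ℤ)

lemma kap_c (S : Finset (Fin n)) (c : Fin n) : kap S c c = S.card := by
  simp [kap]

lemma sum_Lc_col (S : Finset (Fin n)) (c : Fin n) :
    ((Lc S c).map (fun b => (Pi.single b.2 1 : Fin n → ℤ))).sum = kap S c := by
  rw [Lc, Finset.sum_map_toList, colBoxes, Finset.sum_map]
  simp only [Function.Embedding.coeFn_mk, Finset.sum_const]
  rfl

lemma hom_Tc_col (S : Finset (Fin n)) (c : Fin n) : Hom (colGr n) (Tc S c) (kap S c) := by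
  have h := hom_crL_col' (Lc S c)
  rwa [sum_Lc_col] at h

lemma hom_Ta_col (S : Finset (Fin n)) (c : Fin n) : Hom (colGr n) (Ta S c) (-kap S c) := by
  have h := hom_anL_col' (Lc S c)
  rwa [sum_Lc_col] at h

lemma hom_Tc_row (S : Finset (Fin n)) (c : Fin n) : Hom (rowGr n) (Tc S c) (ind S) := by
  have h := hom_crL_row' (Lc S c)
  rw [Lc, sum_colBoxes] at h
  exact h

lemma hom_Ta_row (S : Finset (Fin n)) (c : Fin n) : Hom (rowGr n) (Ta S c) (-ind S) := by
  have h := hom_anL_row' (Lc S c)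
  rw [Lc, sum_colBoxes] at h
  exact h

/-! ### basis vectors -/

lemma anL_ee' (L : List (Fin n × Fin n)) (D : Finset (Fin n × Fin n)) :
    ∃ t : ℂ, anL L (Kost.ee D) = t • Kost.ee (D \ L.toFinset) := by
  induction L generalizing D with
  | nil => exact ⟨1, by simp⟩
  | cons b L ih =>
    rw [anL_cons, Module.End.mul_apply, Kost.an_ee]
    by_cases h : b ∈ D
    · rw [if_pos h, map_smul]
      obtain ⟨t, ht⟩ := ih (D.erase b)
      refine ⟨Kost.sgn b D * t, ?_⟩
      rw [ht, smul_smul]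
      congr 2
      ext x
      simp only [mem_sdiff, mem_erase, List.toFinset_cons, mem_insert, List.mem_toFinset]
      tauto
    · rw [if_neg h, map_zero]
      exact ⟨0, by rw [zero_smul]⟩

lemma Tc_ee {S : Finset (Fin n)} {c : Fin n} {D : Finset (Fin n × Fin n)}
    (hD : ∀ b ∈ D, b.2 ≠ c) : ∃ t : ℂ, t ≠ 0 ∧
      Tc S c (Kost.ee D) = t • Kost.ee (D ∪ colBoxes S c) := by
  obtain ⟨t, ht, h⟩ := crL_ee (Lc_nodup S c) (D := D) (by
    intro b hb hb'
    rw [mem_Lc] at hb
    exact hD b hb' hb.2)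
  rw [Lc_toFinset] at h
  exact ⟨t, ht, h⟩

lemma card_colBoxes (S : Finset (Fin n)) (c : Fin n) : (colBoxes S c).card = S.card :=
  Finset.card_map _

section last

variable {w : Equiv.Perm (Fin n)} {A J : Finset (Fin n)} {c : Fin n}

lemma Dset_last' (hc : c ∈ J) (hmax : ∀ j ∈ J, j ≤ c) (hmin : ∀ j ∈ J, w c ≤ w j)
    (hA : ∀ x ∈ A, w.symm x ∈ J) :
    Dset w A J = Dset w (A.erase (w c)) (J.erase c) ∪ colBoxes (A.erase (w c)) c := by
  have hsc : w.symm (w c) = c := w.symm_apply_apply c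
  have h := Dset_last (w := w) (A := A) (J := J) (s := w c) (by rw [hsc]; exact hc)
    (by rw [hsc]; exact hmax) hmin hA
  rwa [hsc] at h

lemma Fset_last (hc : c ∈ J) (hmax : ∀ j ∈ J, j ≤ c) (hA : ∀ x ∈ A, w.symm x ∈ J) :
    Fset w A J = Fset w (A.erase (w c)) (J.erase c) ∪ colBoxes (A.erase (w c)) c := by
  ext b
  rw [mem_union, mem_Fset, mem_Fset, mem_colBoxes, mem_erase, mem_erase]
  constructor
  · rintro ⟨h1, h2, h3⟩
    have hbs : b.1 ≠ w c := by
      rintro h
      rw [h, w.symm_apply_apply] at h3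
      exact absurd (hmax _ h2) (not_le_of_gt h3)
    by_cases h : b.2 = c
    · exact Or.inr ⟨⟨hbs, h1⟩, h⟩
    · exact Or.inl ⟨⟨hbs, h1⟩, ⟨h, h2⟩, h3⟩
  · rintro (⟨⟨h0, h1⟩, ⟨h2, h3⟩, h4⟩ | ⟨⟨h0, h1⟩, h2⟩)
    · exact ⟨h1, h3, h4⟩
    · rw [h2]
      refine ⟨h1, hc, lt_of_le_of_ne (hmax _ (hA _ h1)) ?_⟩
      intro h3
      exact h0 (by rw [← h3, w.apply_symm_apply])

lemma no_col {D : Finset (Fin n × Fin n)} (hD : D ⊆ Fset w (A.erase (w c)) (J.erase c)) :
    ∀ b ∈ D, b.2 ≠ c := by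
  intro b hb h
  have h1 := hD hb
  rw [mem_Fset, mem_erase, mem_erase] at h1
  exact h1.2.1.1 h

lemma colCnt_zero {D : Finset (Fin n × Fin n)}
    (hD : D ⊆ Fset w (A.erase (w c)) (J.erase c)) : colCnt D c = 0 := by
  unfold colCnt
  rw [Nat.cast_eq_zero, Finset.card_eq_zero, Finset.filter_eq_empty_iff]
  exact fun b hb => no_col hD b hb

lemma filter_sub (hc : c ∈ J) (hmax : ∀ j ∈ J, j ≤ c) (hA : ∀ x ∈ A, w.symm x ∈ J)
    {D : Finset (Fin n × Fin n)} (hD : D ⊆ Fset w A J) :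
    D.filter (fun b => b.2 = c) ⊆ colBoxes (A.erase (w c)) c := by
  intro b hb
  rw [mem_filter] at hb
  have h1 := hD hb.1
  rw [Fset_last hc hmax hA, mem_union] at h1
  rcases h1 with h1 | h1
  · rw [mem_Fset, mem_erase, mem_erase] at h1
    exact absurd hb.2 h1.2.1.1
  · exact h1

lemma colCnt_le (hc : c ∈ J) (hmax : ∀ j ∈ J, j ≤ c) (hA : ∀ x ∈ A, w.symm x ∈ J)
    {D : Finset (Fin n × Fin n)} (hD : D ⊆ Fset w A J) :
    colCnt D c ≤ ((A.erase (w c)).card : ℤ) := by
  unfold colCnt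
  have h := Finset.card_le_card (filter_sub hc hmax hA hD)
  rw [card_colBoxes] at h
  exact_mod_cast h

lemma col_sub_of_eq (hc : c ∈ J) (hmax : ∀ j ∈ J, j ≤ c) (hA : ∀ x ∈ A, w.symm x ∈ J)
    {D : Finset (Fin n × Fin n)} (hD : D ⊆ Fset w A J)
    (h : colCnt D c = ((A.erase (w c)).card : ℤ)) : colBoxes (A.erase (w c)) c ⊆ D := by
  unfold colCnt at h
  have h1 := Finset.eq_of_subset_of_card_le (filter_sub hc hmax hA hD) (by
    rw [card_colBoxes]
    exact_mod_cast h.ge)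
  rw [← h1]
  exact Finset.filter_subset _ _

lemma an_zero_row {v : Fk n} (hv : v ∈ Fall (Fset w (A.erase (w c)) (J.erase c))) (y j : Fin n)
    (hy : y ∉ A.erase (w c)) : Kost.an (y, j) v = 0 := by
  apply an_eq_zero_of_Fall _ hv
  rw [mem_Fset]
  exact fun h => hy h.1

lemma an_zero_col {v : Fk n} (hv : v ∈ Fall (Fset w (A.erase (w c)) (J.erase c))) (y : Fin n) :
    Kost.an (y, c) v = 0 := by
  apply an_eq_zero_of_Fall _ hv
  rw [mem_Fset]
  exact fun h => notMem_erase _ _ h.2.1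

/-- the J-side module -/
theorem Nmod_last (hc : c ∈ J) (hmax : ∀ j ∈ J, j ≤ c) (hmin : ∀ j ∈ J, w c ≤ w j)
    (hA : ∀ x ∈ A, w.symm x ∈ J) :
    Nmod w A J = (Nmod w (A.erase (w c)) (J.erase c)).map (Tc (A.erase (w c)) c) := by
  obtain ⟨t, ht, h⟩ := Tc_ee (S := A.erase (w c)) (c := c)
    (no_col (Dset_subset_Fset w (A.erase (w c)) (J.erase c)))
  rw [← Dset_last' hc hmax hmin hA] at h
  have hee : Kost.ee (Dset w A J) = t⁻¹ • Tc (A.erase (w c)) c
      (Kost.ee (Dset w (A.erase (w c)) (J.erase c))) := by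
    rw [h, smul_smul, inv_mul_cancel₀ ht, one_smul]
  apply le_antisymm
  · apply gen_le
    · rw [hee]
      exact Submodule.smul_mem _ _ ⟨_, self_mem_gen _ _, rfl⟩
    · rintro _ ⟨j, hj, l, hl, hjl, rfl⟩ _ ⟨x, hx, rfl⟩
      have hjc : j ≠ c := fun h1 => absurd (hmax l hl) (not_le_of_gt (h1 ▸ hjl))
      have hxF := Nmod_le_Fall _ _ _ hx
      by_cases hlc : l = c
      · subst hlc
        rw [colE_Tc_zero hjc (fun y hy => an_zero_row hxF y j hy)]
        exact Submodule.zero_mem _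
      · refine ⟨colE j l x, gen_stable (S := colOps (J.erase c))
          ⟨j, mem_erase.2 ⟨hjc, hj⟩, l, mem_erase.2 ⟨hlc, hl⟩, hjl, rfl⟩ hx, ?_⟩
        rw [← Module.End.mul_apply, ← Module.End.mul_apply, Tc_colE hjc]
  · rintro _ ⟨x, hx, rfl⟩
    revert x
    change ∀ x ∈ Nmod w (A.erase (w c)) (J.erase c), Tc (A.erase (w c)) c x ∈ Nmod w A J
    apply gen_induction
    · rw [map_zero]; exact Submodule.zero_mem _
    · intro x y hx hy; rw [map_add]; exact Submodule.add_mem _ hx hy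
    · intro r x hx; rw [map_smul]; exact Submodule.smul_mem _ _ hx
    · rw [h]
      exact Submodule.smul_mem _ _ (self_mem_gen _ _)
    · rintro _ ⟨j, hj, l, hl, hjl, rfl⟩ x _ hx
      rw [mem_erase] at hj hl
      rw [← Module.End.mul_apply, ← Tc_colE hj.1, Module.End.mul_apply]
      exact gen_stable (S := colOps J) ⟨j, hj.2, l, hl.2, hjl, rfl⟩ hx

lemma Tc_mem_N (hc : c ∈ J) (hmax : ∀ j ∈ J, j ≤ c) (hmin : ∀ j ∈ J, w c ≤ w j)
    (hA : ∀ x ∈ A, w.symm x ∈ J) {x : Fk n} (hx : x ∈ Nmod w (A.erase (w c)) (J.erase c)) :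
    Tc (A.erase (w c)) c x ∈ Nmod w A J := by
  rw [Nmod_last hc hmax hmin hA]
  exact ⟨x, hx, rfl⟩

lemma Ta_mem_N (hc : c ∈ J) (hmax : ∀ j ∈ J, j ≤ c) (hmin : ∀ j ∈ J, w c ≤ w j)
    (hA : ∀ x ∈ A, w.symm x ∈ J) {x : Fk n} (hx : x ∈ Nmod w A J) :
    Ta (A.erase (w c)) c x ∈ Nmod w (A.erase (w c)) (J.erase c) := by
  rw [Nmod_last hc hmax hmin hA] at hx
  obtain ⟨y, hy, rfl⟩ := hx
  rw [Ta_Tc (fun z _ => an_zero_col (Nmod_le_Fall _ _ _ hy) z)]
  exact hy

lemma Tc_Ta_N (hc : c ∈ J) (hmax : ∀ j ∈ J, j ≤ c) (hmin : ∀ j ∈ J, w c ≤ w j)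
    (hA : ∀ x ∈ A, w.symm x ∈ J) {x : Fk n} (hx : x ∈ Nmod w A J) :
    Tc (A.erase (w c)) c (Ta (A.erase (w c)) c x) = x := by
  rw [Nmod_last hc hmax hmin hA] at hx
  obtain ⟨y, hy, rfl⟩ := hx
  rw [Ta_Tc (fun z _ => an_zero_col (Nmod_le_Fall _ _ _ hy) z)]

/-- the `c`-degree of the J-side module -/
lemma N_deg (hc : c ∈ J) (hmax : ∀ j ∈ J, j ≤ c) (hmin : ∀ j ∈ J, w c ≤ w j)
    (hA : ∀ x ∈ A, w.symm x ∈ J) {x : Fk n} (hx : x ∈ Nmod w A J) {mu : Fin n → ℤ}
    (hmu : x ∈ (colGr n).W mu) (h : mu c ≠ ((A.erase (w c)).card : ℤ)) : x = 0 := by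
  rw [Nmod_last hc hmax hmin hA] at hx
  obtain ⟨y, hy, rfl⟩ := hx
  have h1 := LinearMap.congr_fun (hom_Tc_col (A.erase (w c)) c (mu - kap (A.erase (w c)) c)) y
  rw [sub_add_cancel, Module.End.mul_apply, Module.End.mul_apply, (colGr n).π_of_mem hmu] at h1
  rw [← h1]
  have h2 : (colGr n).π (mu - kap (A.erase (w c)) c) y ∈ (⊥ : Submodule ℂ (Fk n)) := by
    refine map_mem_of_Fall (P := ⊥) (fun D hD => ?_) (Nmod_le_Fall _ _ _ hy)
    rw [colGr, degGr_π, if_neg]
    · exact Submodule.zero_mem _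
    · intro h3
      have h4 := congrFun h3 c
      rw [colCnt_zero hD, Pi.sub_apply, kap_c] at h4
      exact h (by linarith)
  rw [(Submodule.mem_bot ℂ).1 h2, map_zero]

lemma Tc_mem_F (hc : c ∈ J) (hmax : ∀ j ∈ J, j ≤ c) (hA : ∀ x ∈ A, w.symm x ∈ J)
    {ν : Fin n → ℤ} {x : Fk n}
    (hx : x ∈ Fnu (Fset w (A.erase (w c)) (J.erase c)) (ν - ind (A.erase (w c)))) :
    Tc (A.erase (w c)) c x ∈ Fnu (Fset w A J) ν := by
  rw [Fnu_eq] at hx ⊢
  refine ⟨?_, ?_⟩
  · refine map_mem_of_Fall (P := Fall (Fset w A J)) (fun D hD => ?_) hx.1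
    obtain ⟨t, _, h⟩ := Tc_ee (S := A.erase (w c)) (c := c) (no_col hD)
    rw [h]
    apply Submodule.smul_mem
    apply ee_mem_Fall
    rw [Fset_last hc hmax hA]
    exact Finset.union_subset_union_left hD
  · have h := (hom_Tc_row (A.erase (w c)) c).mem hx.2
    rwa [sub_add_cancel] at h

lemma Ta_mem_F (hc : c ∈ J) (hmax : ∀ j ∈ J, j ≤ c) (hA : ∀ x ∈ A, w.symm x ∈ J)
    {ν : Fin n → ℤ} {x : Fk n} (hx : x ∈ Fnu (Fset w A J) ν) :
    Ta (A.erase (w c)) c x ∈
      Fnu (Fset w (A.erase (w c)) (J.erase c)) (ν - ind (A.erase (w c))) := by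
  rw [Fnu_eq] at hx ⊢
  refine ⟨?_, ?_⟩
  · refine map_mem_of_Fall (P := Fall (Fset w (A.erase (w c)) (J.erase c)))
      (fun D hD => ?_) hx.1
    obtain ⟨t, h⟩ := anL_ee' (Lc (A.erase (w c)) c) D
    unfold Ta
    rw [h, Lc_toFinset]
    apply Submodule.smul_mem
    apply ee_mem_Fall
    intro b hb
    rw [mem_sdiff] at hb
    have h1 := hD hb.1
    rw [Fset_last hc hmax hA, mem_union] at h1
    exact h1.resolve_right hb.2
  · exact (hom_Ta_row (A.erase (w c)) c).mem hx.2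

lemma F_deg_zero (hc : c ∈ J) (hmax : ∀ j ∈ J, j ≤ c) (hA : ∀ x ∈ A, w.symm x ∈ J)
    {x : Fk n} (hx : x ∈ Fall (Fset w A J)) {mu : Fin n → ℤ}
    (hmu : x ∈ (colGr n).W mu) (h : ((A.erase (w c)).card : ℤ) < mu c) : x = 0 := by
  have h2 : (colGr n).π mu x ∈ (⊥ : Submodule ℂ (Fk n)) := by
    refine map_mem_of_Fall (P := ⊥) (fun D hD => ?_) hx
    rw [colGr, degGr_π, if_neg]
    · exact Submodule.zero_mem _
    · intro h3
      have h4 := congrFun h3 c
      have h5 := colCnt_le hc hmax hA hD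
      rw [h4] at h5
      exact absurd h5 (not_le_of_gt h)
  rw [(colGr n).π_of_mem hmu] at h2
  exact (Submodule.mem_bot ℂ).1 h2

lemma F_deg_top (hc : c ∈ J) (hmax : ∀ j ∈ J, j ≤ c) (hA : ∀ x ∈ A, w.symm x ∈ J)
    {x : Fk n} (hx : x ∈ Fall (Fset w A J)) {mu : Fin n → ℤ}
    (hmu : x ∈ (colGr n).W mu) (h : mu c = ((A.erase (w c)).card : ℤ)) :
    Tc (A.erase (w c)) c (Ta (A.erase (w c)) c x) = x := by
  set P : Submodule ℂ (Fk n) :=
    LinearMap.ker (Tc (A.erase (w c)) c * Ta (A.erase (w c)) c - 1) with hP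
  have h2 : (colGr n).π mu x ∈ P := by
    refine map_mem_of_Fall (P := P) (fun D hD => ?_) hx
    rw [colGr, degGr_π]
    split_ifs with h3
    · have h4 := col_sub_of_eq hc hmax hA hD (by rw [h3]; exact h)
      have h5 : D \ colBoxes (A.erase (w c)) c ⊆ Fset w (A.erase (w c)) (J.erase c) := by
        intro b hb
        rw [mem_sdiff] at hb
        have h1 := hD hb.1
        rw [Fset_last hc hmax hA, mem_union] at h1
        exact h1.resolve_right hb.2
      obtain ⟨t, ht, h6⟩ := Tc_ee (S := A.erase (w c)) (c := c) (no_col h5)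
      rw [Finset.sdiff_union_of_subset h4] at h6
      have h7 : Kost.ee D = t⁻¹ • Tc (A.erase (w c)) c
          (Kost.ee (D \ colBoxes (A.erase (w c)) c)) := by
        rw [h6, smul_smul, inv_mul_cancel₀ ht, one_smul]
      rw [hP, LinearMap.mem_ker, LinearMap.sub_apply, Module.End.mul_apply, Module.End.one_apply,
        h7, map_smul, Ta_Tc (fun z _ => an_zero_col (ee_mem_Fall h5) z), map_smul, sub_self]
    · exact Submodule.zero_mem _
  rw [(colGr n).π_of_mem hmu, hP, LinearMap.mem_ker, LinearMap.sub_apply, Module.End.mul_apply,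
    Module.End.one_apply, sub_eq_zero] at h2
  exact h2

end last

/-! ### the Lie algebras -/

section lie

variable {J : Finset (Fin n)} {c : Fin n}

lemma nJ_le (J : Finset (Fin n)) (c : Fin n) : nJ (J.erase c) ≤ nJ J := by
  intro M hM l j h
  have h1 := hM l j h
  exact ⟨mem_of_mem_erase h1.1, mem_of_mem_erase h1.2.1, h1.2.2⟩

/-- the inclusion -/
def inc (J : Finset (Fin n)) (c : Fin n) : nJ (J.erase c) →ₗ⁅ℂ⁆ nJ J :=
  LieSubalgebra.inclusion (nJ_le J c)

lemma inc_coe (y : nJ (J.erase c)) :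
    ((inc J c y : nJ J) : Matrix (Fin n) (Fin n) ℂ) = (y : Matrix (Fin n) (Fin n) ℂ) := rfl

/-- forget the row and the column `c` -/
def res (J : Finset (Fin n)) (c : Fin n) : nJ J →ₗ[ℂ] nJ (J.erase c) where
  toFun x := ⟨Matrix.of fun l j => if l = c ∨ j = c then 0 else
    (x : Matrix (Fin n) (Fin n) ℂ) l j, by
      intro l j h
      rw [Matrix.of_apply] at h
      by_cases h1 : l = c ∨ j = c
      · rw [if_pos h1] at h
        exact absurd rfl h
      · rw [if_neg h1] at h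
        push Not at h1
        have h2 := x.2 l j h
        exact ⟨mem_erase.2 ⟨h1.2, h2.1⟩, mem_erase.2 ⟨h1.1, h2.2.1⟩, h2.2.2⟩⟩
  map_add' x y := by
    apply Subtype.ext
    ext l j
    change (if l = c ∨ j = c then 0 else ((x : Matrix (Fin n) (Fin n) ℂ) +
      (y : Matrix (Fin n) (Fin n) ℂ)) l j) = (if l = c ∨ j = c then 0 else
      (x : Matrix (Fin n) (Fin n) ℂ) l j) + (if l = c ∨ j = c then 0 else
      (y : Matrix (Fin n) (Fin n) ℂ) l j)
    split_ifs
    · rw [add_zero]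
    · rfl
  map_smul' r x := by
    apply Subtype.ext
    ext l j
    change (if l = c ∨ j = c then 0 else (r • (x : Matrix (Fin n) (Fin n) ℂ)) l j) =
      r • (if l = c ∨ j = c then 0 else (x : Matrix (Fin n) (Fin n) ℂ) l j)
    split_ifs
    · rw [smul_zero]
    · rfl

lemma res_apply (x : nJ J) (l j : Fin n) :
    ((res J c x : nJ (J.erase c)) : Matrix (Fin n) (Fin n) ℂ) l j =
      if l = c ∨ j = c then 0 else (x : Matrix (Fin n) (Fin n) ℂ) l j := rfl

/-- the degree: the coordinate at `c` -/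
def del (c : Fin n) : (Fin n → ℤ) →+ ℤ := Pi.evalAddMonoidHom (fun _ : Fin n => ℤ) c

lemma del_apply (c : Fin n) (a : Fin n → ℤ) : del c a = a c := rfl

lemma redLie (hmax : ∀ j ∈ J, j ≤ c) :
    RedLie (del c) (nW J) (nW (J.erase c)) (inc J c) (res J c) where
  iW lam x hx := fun l j h => hx l j h
  πW lam x hx := by
    intro l j h
    rw [res_apply] at h
    split_ifs at h with h1
    · exact absurd rfl h
    · exact hx l j h
  πi y := by
    apply Subtype.ext
    ext l j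
    rw [res_apply, inc_coe]
    split_ifs with h1
    · by_contra h2
      have h3 := y.2 l j (Ne.symm h2)
      rw [mem_erase, mem_erase] at h3
      rcases h1 with h1 | h1
      · exact h3.2.1.1 h1
      · exact h3.1.1 h1
    · rfl
  iπ lam x hx h0 := by
    apply Subtype.ext
    ext l j
    rw [inc_coe, res_apply]
    split_ifs with h1
    · by_contra h2
      have h3 := x.2 l j (Ne.symm h2)
      have h4 := hx l j (Ne.symm h2)
      have hjc : j ≠ c := fun h => absurd (hmax l h3.2.1) (not_le_of_gt (h ▸ h3.2.2))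
      have hlc : l = c := h1.resolve_right hjc
      rw [← h4, del_apply, Pi.sub_apply, ep, ep, hlc, Pi.single_eq_same,
        Pi.single_eq_of_ne hjc.symm] at h0
      norm_num at h0
    · rfl
  π0 lam x hx h0 := by
    apply Subtype.ext
    ext l j
    rw [res_apply]
    split_ifs with h1
    · rfl
    · push Not at h1
      by_contra h2
      have h4 := hx l j h2
      rw [← h4, del_apply, Pi.sub_apply, ep, ep, Pi.single_eq_of_ne h1.1.symm,
        Pi.single_eq_of_ne h1.2.symm] at h0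
      norm_num at h0
  neg lam x hx h0 := by
    apply Subtype.ext
    ext l j
    by_contra h2
    have h3 := x.2 l j h2
    have h4 := hx l j h2
    have hjc : j ≠ c := fun h => absurd (hmax l h3.2.1) (not_le_of_gt (h ▸ h3.2.2))
    rw [← h4, del_apply, Pi.sub_apply, ep, ep, Pi.single_eq_of_ne hjc.symm, sub_zero] at h0
    by_cases hl : l = c
    · rw [hl, Pi.single_eq_same] at h0
      norm_num at h0
    · rw [Pi.single_eq_of_ne (Ne.symm hl)] at h0
      norm_num at h0

/-- an operator that commutes with the column operators outside the column `c` -/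
lemma comm_erase {T : Module.End ℂ (Fk n)}
    (hT : ∀ j l, j ≠ c → l ≠ c → T * colE j l = colE j l * T) (y : nJ (J.erase c)) (v : Fk n) :
    T ⁅y, v⁆ = ⁅y, T v⁆ := by
  rw [lie_eq_sum, lie_eq_sum, map_sum]
  refine Finset.sum_congr rfl fun l _ => ?_
  rw [map_sum]
  refine Finset.sum_congr rfl fun j _ => ?_
  rw [map_smul]
  by_cases h : (y : Matrix (Fin n) (Fin n) ℂ) l j = 0
  · rw [h, zero_smul, zero_smul]
  · have h1 := y.2 l j h
    rw [mem_erase, mem_erase] at h1
    rw [← Module.End.mul_apply, hT j l h1.1.1 h1.2.1.1, Module.End.mul_apply]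

lemma inc_lie (y : nJ (J.erase c)) (v : Fk n) : ⁅inc J c y, v⁆ = ⁅y, v⁆ := rfl

end lie

/-! ### the maps -/

section maps

variable {w : Equiv.Perm (Fin n)} {A J : Finset (Fin n)} {c : Fin n}

/-- restriction of an operator to Lie submodules -/
def rst {J J' : Finset (Fin n)} (T : Module.End ℂ (Fk n)) (X : LieSubmodule ℂ (nJ J) (Fk n))
    (Y : LieSubmodule ℂ (nJ J') (Fk n)) (h : ∀ x ∈ X, T x ∈ Y) : X →ₗ[ℂ] Y where
  toFun x := ⟨T x, h x x.2⟩
  map_add' x y := Subtype.ext (map_add T (x : Fk n) (y : Fk n))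
  map_smul' r x := Subtype.ext (map_smul T r (x : Fk n))

lemma rst_coe {J J' : Finset (Fin n)} (T : Module.End ℂ (Fk n))
    (X : LieSubmodule ℂ (nJ J) (Fk n)) (Y : LieSubmodule ℂ (nJ J') (Fk n))
    (h : ∀ x ∈ X, T x ∈ Y) (x : X) : ((rst T X Y h x : Y) : Fk n) = T (x : Fk n) := rfl

theorem redMod (hc : c ∈ J) (hmax : ∀ j ∈ J, j ≤ c) (hmin : ∀ j ∈ J, w c ≤ w j)
    (hA : ∀ x ∈ A, w.symm x ∈ J) (ν : Fin n → ℤ) : ∃ a b,
    RedMod (del c) (inc J c) (homW (gW (NL w A J)) (gW (FL w A J ν)))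
      (homW (gW (NL w (A.erase (w c)) (J.erase c)))
        (gW (FL w (A.erase (w c)) (J.erase c) (ν - ind (A.erase (w c)))))) a b := by
  refine ⟨_, _, redMod_hom (δ := del c) (i := inc J c) (ka := kap (A.erase (w c)) c)
    (a := rst (Tc (A.erase (w c)) c) (NL w (A.erase (w c)) (J.erase c)) (NL w A J)
      (fun x hx => Tc_mem_N hc hmax hmin hA hx))
    (a' := rst (Ta (A.erase (w c)) c) (NL w A J) (NL w (A.erase (w c)) (J.erase c))
      (fun x hx => Ta_mem_N hc hmax hmin hA hx))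
    (j := rst (Tc (A.erase (w c)) c)
      (FL w (A.erase (w c)) (J.erase c) (ν - ind (A.erase (w c)))) (FL w A J ν)
      (fun x hx => Tc_mem_F hc hmax hA hx))
    (p := rst (Ta (A.erase (w c)) c) (FL w A J ν)
      (FL w (A.erase (w c)) (J.erase c) (ν - ind (A.erase (w c))))
      (fun x hx => Ta_mem_F hc hmax hA hx)) ?_ ?_ ?_ ?_ ?_ ?_ ?_ ?_ ?_ ?_ ?_ ?_ ?_⟩
  · rw [← gG_W (NL w A J) (gen_col_stable_col J _)]
    exact Grading.iSup_W _
  · intro mu m hm
    exact (hom_Tc_col _ _).mem hm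
  · intro mu m hm
    have h := (hom_Ta_col (A.erase (w c)) c).mem (mem_gW.1 hm)
    have e : mu + kap (A.erase (w c)) c + -kap (A.erase (w c)) c = mu := by abel
    rw [e] at h
    exact h
  · intro m
    exact Subtype.ext (Ta_Tc (fun z _ => an_zero_col (Nmod_le_Fall _ _ _ m.2) z))
  · intro m
    exact Subtype.ext (Tc_Ta_N hc hmax hmin hA m.2)
  · intro y m
    exact Subtype.ext (comm_erase (fun j l hj _ => (Tc_colE hj).symm) y (m : Fk n))
  · intro mu m hm hd
    rw [del_apply, del_apply, kap_c] at hd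
    exact Subtype.ext (N_deg hc hmax hmin hA m.2 (mem_gW.1 hm) hd)
  · intro mu m hm
    exact (hom_Tc_col _ _).mem hm
  · intro mu m hm
    have h := (hom_Ta_col (A.erase (w c)) c).mem (mem_gW.1 hm)
    have e : mu + kap (A.erase (w c)) c + -kap (A.erase (w c)) c = mu := by abel
    rw [e] at h
    exact h
  · intro m
    exact Subtype.ext (Ta_Tc (fun z _ => an_zero_col (Fnu_le_Fall _ _ m.2) z))
  · intro mu m hm hd
    rw [del_apply, del_apply, kap_c] at hd
    exact Subtype.ext (F_deg_top hc hmax hA (Fnu_le_Fall _ _ m.2) (mem_gW.1 hm) hd)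
  · intro mu m hm hd
    rw [del_apply, del_apply, kap_c] at hd
    exact Subtype.ext (F_deg_zero hc hmax hA (Fnu_le_Fall _ _ m.2) (mem_gW.1 hm) hd)
  · intro y m
    exact Subtype.ext (comm_erase (fun j l _ hl => Ta_colE hl) y (m : Fk n))

end maps

end E1

theorem e1_conc {w : Equiv.Perm (Fin n)} {A J : Finset (Fin n)} {c : Fin n} (hc : c ∈ J)
    (hmax : ∀ j ∈ J, j ≤ c) (hmin : ∀ j ∈ J, w c ≤ w j) (hs : w c ∈ A)
    (hA : ∀ x ∈ A, w.symm x ∈ J) (hm : M1 w A J c) (ih : TE w (A.erase (w c)) (J.erase c)) :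
    TE w A J := by
  intro ν
  by_cases hν : ν (w c) = 0
  · obtain ⟨a, b, h⟩ := E1.redMod hc hmax hmin hA ν
    have hL := E1.redLie (J := J) (c := c) hmax
    have hG := (grMod_gW (NL w A J)).hom (grMod_gW (FL w A J ν))
    have hG' := (grMod_gW (NL w (A.erase (w c)) (J.erase c))).hom
      (grMod_gW (FL w (A.erase (w c)) (J.erase c) (ν - ind (A.erase (w c)))))
    have ih' := ih (ν - ind (A.erase (w c)))
    refine ⟨fun q => ?_, ?_⟩
    · rw [red_van_iff hL h (grLie_nW J) (grLie_nW (J.erase c)) hG hG' (q + 1)]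
      exact ih'.1 q
    · rw [red_hh0 hL h (grLie_nW J) (grLie_nW (J.erase c)) hG hG', ih'.2, (hm ν).1 hν]
  · have h0 : ∀ v ∈ Fnu (Fset w A J) ν, v = 0 := by
      intro v hv
      have h1 : Fnu (Fset w A J) ν ≤ ⊥ := by
        rw [Fnu, Submodule.span_le]
        rintro _ ⟨D, hD, hDν, rfl⟩
        exfalso
        apply hν
        rw [← hDν]
        unfold rowCnt
        rw [Nat.cast_eq_zero, Finset.card_eq_zero, Finset.filter_eq_empty_iff]
        intro b hb h2
        have h3 := hD hb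
        rw [mem_Fset, h2, w.symm_apply_apply] at h3
        exact absurd (hmax _ h3.2.1) (not_le_of_gt h3.2.2)
      exact (Submodule.mem_bot ℂ).1 (h1 hv)
    have hsub : Subsingleton (NL w A J →ₗ[ℂ] FL w A J ν) := by
      refine ⟨fun f g => LinearMap.ext fun x => Subtype.ext ?_⟩
      rw [h0 _ (f x).2, h0 _ (g x).2]
    refine ⟨fun q => HV_of_subsingleton _ _, ?_⟩
    rw [(hm ν).2 hν]
    refine h0_eq_finrank_inv0.trans ?_
    exact finrank_zero_of_subsingleton

end

end Gao
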