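import Pool.Agent.Gao.EDef

/-!
# Theorem E: the exact sequences of the modules `F` (Gao project, MP_b139df_co)

`0 → Fnu E0 ν → Fnu E ν → Fnu E0 (ν - ε_{x0}) → 0`, `E0 = E.erase (x0, c')`: inclusion and `an (x0, c')`.
`an (x0, c')` commutes with `colE j l` (`j < l` in `J`) on `Fall E` because `[an (x0,c'), colE j l] = δ_{l,c'} an (x0, j)`
(`an_colE` in GenLem) and `(x0, j) ∉ E` for `j < c'` in `J`; it lowers the weight by `ε_{c'}` (`hom_an_col`) and the
row content by `ε_{x0}`; kernel = `Fall E0` part, surjective: `an b (cr b v) = v` for `v` in `Fall E0`. Then `exists_GSES` (CEGr)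
with the gradings `gG` (and `gG_W`); for the shifted third term use `Grading.shift`/`Grading.twist`, or prove the four weight
conditions of `GSES` directly with `r, s` = `v ↦ v - cr b (an b v)`, `cr b` (explicit splittings, probably the shortest way).
-/

set_option autoImplicit false

namespace Gao

open Finset Module Gao.CE
open Gao.Fam (homW)

noncomputable section

variable {n : ℕ}

/-- restriction of an operator to Lie submodules -/
def resL {J : Finset (Fin n)} (T : Module.End ℂ (Fk n)) (X Y : LieSubmodule ℂ (nJ J) (Fk n))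
    (h : ∀ v ∈ X, T v ∈ Y) : X →ₗ[ℂ] Y where
  toFun v := ⟨T v, h v v.2⟩
  map_add' v w := Subtype.ext (map_add T (v : Fk n) (w : Fk n))
  map_smul' c v := Subtype.ext (map_smul T c (v : Fk n))

lemma resL_coe {J : Finset (Fin n)} (T : Module.End ℂ (Fk n)) (X Y : LieSubmodule ℂ (nJ J) (Fk n))
    (h : ∀ v ∈ X, T v ∈ Y) (v : X) : ((resL T X Y h v : Y) : Fk n) = T v := rfl

/-- `cr b` maps `Fall (E.erase b)` to `Fall E` -/
lemma cr_mem_Fall {E : Finset (Fin n × Fin n)} {b : Fin n × Fin n} (hb : b ∈ E) {x : Fk n}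
    (hx : x ∈ Fall (E.erase b)) : Kost.cr b x ∈ Fall E := by
  apply map_mem_of_Fall _ hx
  intro D hD
  rw [Kost.cr_ee]
  split_ifs
  · exact Submodule.zero_mem _
  · refine Submodule.smul_mem _ _ (ee_mem_Fall ?_)
    intro a ha
    rcases Finset.mem_insert.1 ha with rfl | ha
    · exact hb
    · exact Finset.mem_of_mem_erase (hD ha)

/-- `1 - cr b * an b` maps `Fall E` to `Fall (E.erase b)` -/
lemma sub_mem_Fall {E : Finset (Fin n × Fin n)} {b : Fin n × Fin n} {x : Fk n}
    (hx : x ∈ Fall E) : (1 - Kost.cr b * Kost.an b : Module.End ℂ (Fk n)) x ∈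
      Fall (E.erase b) := by
  apply map_mem_of_Fall _ hx
  intro D hD
  rw [LinearMap.sub_apply, Module.End.one_apply, Module.End.mul_apply, Kost.an_ee]
  by_cases h : b ∈ D
  · rw [if_pos h, map_smul, Kost.cr_ee, if_neg (Finset.notMem_erase _ _), smul_smul,
      Kost.sgn_erase_self, Kost.sgn_mul_self, one_smul, Finset.insert_erase h, sub_self]
    exact Submodule.zero_mem _
  · rw [if_neg h, map_zero, sub_zero]
    refine ee_mem_Fall ?_
    intro a ha
    exact Finset.mem_erase.2 ⟨fun h' => h (h' ▸ ha), hD ha⟩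

lemma hom_cr_an_row (b : Fin n × Fin n) :
    Hom (rowGr n) (Kost.cr b * Kost.an b) 0 := by
  have h := (hom_cr_row b).mul' (hom_an_row b)
  rwa [neg_add_cancel] at h

lemma hom_cr_an_col (b : Fin n × Fin n) :
    Hom (colGr n) (Kost.cr b * Kost.an b) 0 := by
  have h := (hom_cr_col b).mul' (hom_an_col b)
  rwa [neg_add_cancel] at h

theorem gses_box {J : Finset (Fin n)} {E F : Finset (Fin n × Fin n)} {x0 c' : Fin n}
    (hE : RC J E) (hF : RC J F) (hEF : F = E.erase (x0, c')) (hb : (x0, c') ∈ E)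
    (hleft : ∀ j ∈ J, j < c' → (x0, j) ∉ E) (ν : Fin n → ℤ) :
    ∃ f g r s, GSES (nJ J) (gW (FE J F hF ν)) (gW (FE J E hE ν))
      (shiftW (gW (FE J F hF (ν - Pi.single x0 1))) (Pi.single c' 1)) f g r s := by
  obtain ⟨b, hbdef⟩ : ∃ b : Fin n × Fin n, b = (x0, c') := ⟨_, rfl⟩
  have hb1 : b.1 = x0 := by rw [hbdef]
  have hb2 : b.2 = c' := by rw [hbdef]
  rw [← hbdef] at hEF hb
  have hbF : b ∉ F := by rw [hEF]; exact Finset.notMem_erase _ _
  have hkill : ∀ v ∈ Fall F, Kost.an b v = 0 := fun v hv => an_eq_zero_of_Fall hbF hv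
  have hac : ∀ v : Fk n, Kost.an b (Kost.cr b v) + Kost.cr b (Kost.an b v) = v := by
    intro v
    have h := congrArg (fun T : Module.End ℂ (Fk n) => T v) (Kost.an_cr b b)
    simpa using h
  have hf : ∀ v ∈ FE J F hF ν, (1 : Module.End ℂ (Fk n)) v ∈ FE J E hE ν := by
    intro v hv
    rw [mem_FE, Fnu_eq] at hv ⊢
    refine ⟨?_, hv.2⟩
    have hv1 := hv.1
    rw [hEF] at hv1
    exact Fall_mono (Finset.erase_subset _ _) hv1
  have hg : ∀ v ∈ FE J E hE ν, Kost.an b v ∈ FE J F hF (ν - Pi.single x0 1) := by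
    intro v hv
    rw [mem_FE, Fnu_eq] at hv ⊢
    refine ⟨?_, ?_⟩
    · rw [hEF]
      exact an_mem_Fall hv.1
    · have h := (hom_an_row b).raises ν v hv.2
      rwa [hb1, ← sub_eq_add_neg] at h
  have hr : ∀ v ∈ FE J E hE ν, (1 - Kost.cr b * Kost.an b : Module.End ℂ (Fk n)) v ∈
      FE J F hF ν := by
    intro v hv
    rw [mem_FE, Fnu_eq] at hv ⊢
    refine ⟨?_, ?_⟩
    · rw [hEF]
      exact sub_mem_Fall hv.1
    · have h := (hom_cr_an_row b).raises ν v hv.2
      rw [add_zero] at h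
      exact Submodule.sub_mem _ hv.2 h
  have hs : ∀ v ∈ FE J F hF (ν - Pi.single x0 1), Kost.cr b v ∈ FE J E hE ν := by
    intro v hv
    rw [mem_FE, Fnu_eq] at hv ⊢
    refine ⟨?_, ?_⟩
    · have hv1 := hv.1
      rw [hEF] at hv1
      exact cr_mem_Fall hb hv1
    · have h := (hom_cr_row b).raises _ v hv.2
      rwa [hb1, sub_add_cancel] at h
  refine ⟨resL 1 _ _ hf, resL (Kost.an b) _ _ hg, resL (1 - Kost.cr b * Kost.an b) _ _ hr,
    resL (Kost.cr b) _ _ hs, ⟨?_, ?_, ?_, ?_, ?_, ?_, ?_, ?_, ?_⟩⟩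
  · intro mu m hm
    exact hm
  · intro mu m hm
    rw [shiftW, mem_gW, resL_coe]
    have h := (hom_an_col b).raises mu (m : Fk n) hm
    rwa [hb2, ← sub_eq_add_neg] at h
  · intro mu m hm
    rw [mem_gW, resL_coe]
    have h := (hom_cr_an_col b).raises mu (m : Fk n) hm
    rw [add_zero] at h
    exact Submodule.sub_mem _ hm h
  · intro mu m hm
    rw [mem_gW, resL_coe]
    have h := (hom_cr_col b).raises _ (m : Fk n) hm
    rwa [hb2, sub_add_cancel] at h
  · intro a
    apply Subtype.ext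
    rw [resL_coe, resL_coe]
    have ha : Kost.an b (a : Fk n) = 0 := hkill _ (Fnu_le_Fall F ν (mem_FE.1 a.2))
    rw [Module.End.one_apply, LinearMap.sub_apply, Module.End.one_apply, Module.End.mul_apply, ha,
      map_zero, sub_zero]
  · intro a
    apply Subtype.ext
    rw [resL_coe, resL_coe]
    have ha : Kost.an b (a : Fk n) = 0 := hkill _ (Fnu_le_Fall F _ (mem_FE.1 a.2))
    have h := hac (a : Fk n)
    rwa [ha, map_zero, add_zero] at h
  · intro v
    apply Subtype.ext
    change (1 : Module.End ℂ (Fk n)) ((1 - Kost.cr b * Kost.an b : Module.End ℂ (Fk n)) (v : Fk n))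
      + Kost.cr b (Kost.an b (v : Fk n)) = (v : Fk n)
    rw [Module.End.one_apply, LinearMap.sub_apply, Module.End.one_apply, Module.End.mul_apply,
      sub_add_cancel]
  · intro x a
    apply Subtype.ext
    rfl
  · intro x v
    apply Subtype.ext
    change Kost.an b ⁅x, (v : Fk n)⁆ = ⁅x, Kost.an b (v : Fk n)⁆
    refine comm_lie (X := Fnu E ν) ?_ x (mem_FE.1 v.2)
    intro j hj l hl hjl u hu
    have h := congrArg (fun T : Module.End ℂ (Fk n) => T u) (an_colE x0 j l c')
    simp only [Module.End.mul_apply, LinearMap.add_apply] at h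
    rw [hbdef, h]
    by_cases hlc : l = c'
    · rw [if_pos hlc, an_eq_zero_of_Fall (hleft j hj (hlc ▸ hjl)) (Fnu_le_Fall E ν hu), add_zero]
    · rw [if_neg hlc, LinearMap.zero_apply, add_zero]

end

end Gao
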