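import Pool.Agent.Gao.EVan

/-!
# Theorem E: the exact sequence `0 → P → N(w') → S → 0` (Gao project, MP_b139df_co)

`P = Pmod` is the kernel of `an (w c', c')` on `Nmod (w * swap c c') A J`, centered at `0` by `partS`.
-/

set_option autoImplicit false

namespace Gao

open Finset Module Gao.CE
open Gao.Fam (homW)

noncomputable section

variable {n : ℕ}

variable {w : Equiv.Perm (Fin n)} {A J : Finset (Fin n)} {c c' : Fin n}

/-- `Pmod` as a Lie submodule -/
def PL (h : SData w A J c c') : LieSubmodule ℂ (nJ J) (Fk n) :=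
  lsub J (Pmod w A J c c') (by
    rintro _ ⟨j, hj, l, hl, hjl, rfl⟩ v hv
    exact Pmod_col_stable h hj hl hjl v hv)

namespace NP

/-- restriction of an operator to Lie submodules -/
def res {J : Finset (Fin n)} (T : Module.End ℂ (Fk n)) (X Y : LieSubmodule ℂ (nJ J) (Fk n))
    (h : ∀ v ∈ X, T v ∈ Y) : X →ₗ[ℂ] Y where
  toFun v := ⟨T v, h v v.2⟩
  map_add' v w := Subtype.ext (map_add T (v : Fk n) (w : Fk n))
  map_smul' c v := Subtype.ext (map_smul T c (v : Fk n))

lemma res_coe {J : Finset (Fin n)} (T : Module.End ℂ (Fk n)) (X Y : LieSubmodule ℂ (nJ J) (Fk n))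
    (h : ∀ v ∈ X, T v ∈ Y) (v : X) : ((res T X Y h v : Y) : Fk n) = T v := rfl

lemma shift_gW {X : LieSubmodule ℂ (nJ J) (Fk n)}
    (hX : (colGr n).Stable (X : Submodule ℂ (Fk n))) (eps : Fin n → ℤ) :
    ((gG X hX).shift (-eps)).W = shiftW (gW X) eps := by
  funext a
  rw [Grading.shift_W, gG_W, shiftW, sub_eq_add_neg]

end NP

theorem exists_P' (h : Adj w A J c c') (hb : w c' ∈ A) (hdim : HDim w A J c c') :
    ∃ (P : LieSubmodule ℂ (nJ J) (Fk n)),
      (∃ f g r s, GSES (nJ J) (gW P) (gW (NL (w * Equiv.swap c c') A J))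
        (shiftW (gW (SL w A J c c')) (Pi.single c' 1)) f g r s) ∧
      ∀ ν q, HV (nW J) (homW (gW P)
        (shiftW (gW (FE J (E0 w A J c c') h.RC_E0 ν)) (Pi.single c' 1))) q := by
  have hs := h.sData hb
  have hq := q_map hs
  refine ⟨PL hs, ?_, ?_⟩
  · have hf : ∀ v ∈ PL hs, (1 : Module.End ℂ (Fk n)) v ∈ NL (w * Equiv.swap c c') A J :=
      fun v hv => hv.1
    have hg : ∀ v ∈ NL (w * Equiv.swap c c') A J, Kost.an (w c', c') v ∈ SL w A J c c' := by
      intro v hv
      rw [mem_SL, ← hq]
      exact ⟨v, hv, rfl⟩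
    obtain ⟨r, s, hrs⟩ := exists_GSES (L := nJ J)
      (GA := gG (PL hs) (Pmod_stable_col w A J c c'))
      (GB := gG (NL (w * Equiv.swap c c') A J) (Nmod_stable_col _ A J))
      (GC := (gG (SL w A J c c') (Smod_stable_col w A J c c')).shift (-Pi.single c' 1))
      (f := NP.res 1 (PL hs) (NL (w * Equiv.swap c c') A J) hf)
      (g := NP.res (Kost.an (w c', c')) (NL (w * Equiv.swap c c') A J) (SL w A J c c') hg)
      (by
        intro mu m hm
        rw [gG_W] at hm ⊢
        exact hm)
      (by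
        intro mu m hm
        rw [NP.shift_gW]
        rw [gG_W] at hm
        rw [shiftW, mem_gW, NP.res_coe]
        have h1 := (hom_an_col (w c', c')).raises mu (m : Fk n) hm
        rwa [← sub_eq_add_neg] at h1)
      (by
        intro x a
        apply Subtype.ext
        rfl)
      (by
        intro x v
        apply Subtype.ext
        change Kost.an (w c', c') ⁅x, (v : Fk n)⁆ = ⁅x, Kost.an (w c', c') (v : Fk n)⁆
        refine comm_lie (X := Nmod (w * Equiv.swap c c') A J) ?_ x v.2
        intro j hj l _ hjl u hu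
        exact q_comm hs hj hjl hu)
      (by
        intro x y hxy
        have h1 := congrArg (fun z : NL (w * Equiv.swap c c') A J => (z : Fk n)) hxy
        exact Subtype.ext h1)
      (by
        intro y
        have hy : (y : Fk n) ∈ (Nmod (w * Equiv.swap c c') A J).map (Kost.an (w c', c')) := by
          rw [hq]
          exact y.2
        obtain ⟨x, hx, hxy⟩ := hy
        exact ⟨⟨x, hx⟩, Subtype.ext hxy⟩)
      (by
        intro a
        apply Subtype.ext
        exact a.2.2)
      (by
        intro b hb0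
        have h1 := congrArg (fun z : SL w A J c c' => (z : Fk n)) hb0
        exact ⟨⟨b, b.2, h1⟩, rfl⟩)
    rw [NP.shift_gW, gG_W, gG_W] at hrs
    exact ⟨_, _, r, s, hrs⟩
  · intro ν q
    have hht : htJ c c' (Pi.single c' 1) = 1 := by
      rw [htJ_apply, Pi.single_eq_same, Pi.single_eq_of_ne h.ne, sub_zero]
    have hind : iSupIndep (shiftW (gW (FE J (E0 w A J c c') h.RC_E0 ν)) (Pi.single c' 1)) := by
      have h1 : iSupIndep (gW (FE J (E0 w A J c c') h.RC_E0 ν)) :=
        iSupIndep_gW (stable_Fnu (E0 w A J c c') ν)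
      exact h1.comp (f := fun lam : Fin n → ℤ => lam - Pi.single c' 1) (sub_left_injective)
    have hcen := centered_iff_fam.1 (partS hs hdim).1
    refine van_hom ⟨h.mem, h.mem', h.lt⟩ h.adj (grMod_gW (PL hs))
      ((grMod_gW _).shift _) (iSup_gW (Pmod_stable_col w A J c c')) hind (chi := 0) ?_
      (centered_shift (h.centered_F ν) (Pi.single c' 1)) (by rw [hht]) q
    have e1 : LieModule.toEnd ℂ (nJ J) (PL hs) (sgl c c' ⟨h.mem, h.mem', h.lt⟩) =
        (colE c c').restrict (Pmod_e_stable hs) := by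
      refine LinearMap.ext fun z => Subtype.ext ?_
      exact sgl_lie ⟨h.mem, h.mem', h.lt⟩ (z : Fk n)
    have e2 : gW (PL hs) = ((colGr n).restrict (Pmod w A J c c') (Pmod_stable_col w A J c c')).W :=
      (gG_W (PL hs) (Pmod_stable_col w A J c c')).symm
    rw [e1, e2]
    exact hcen

end

end Gao
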