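import Pool.Agent.Gao.ESeqNC
import Pool.Agent.Gao.ESeqNP

/-!
# Theorem E: the exact sequences of the modules `Nmod` and `Smod` (Gao project, MP_b139df_co)

From `partS` (PartS.lean); proofs in ESeqNC.lean and ESeqNP.lean.
-/

set_option autoImplicit false

namespace Gao

open Finset Module Gao.CE
open Gao.Fam (homW)

noncomputable section

variable {n : ℕ}

variable {w : Equiv.Perm (Fin n)} {A J : Finset (Fin n)} {c c' : Fin n}

theorem exists_C (h : Adj w A J c c') (hb : w c' ∈ A) (hdim : HDim w A J c c') :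
    ∃ (C : Type) (_ : AddCommGroup C) (_ : Module ℂ C) (_ : LieRingModule (nJ J) C)
      (_ : LieModule ℂ (nJ J) C) (_ : FiniteDimensional ℂ C) (WC : (Fin n → ℤ) → Submodule ℂ C),
      GrMod (nW J) WC ∧
      (∃ f g r s, GSES (nJ J) (gW (SL w A J c c')) (gW (NL w A J)) WC f g r s) ∧
      ∀ ν q, HV (nW J) (homW WC (gW (FE J (E0 w A J c c') h.RC_E0 ν))) q :=
  exists_C' h hb hdim

theorem exists_P (h : Adj w A J c c') (hb : w c' ∈ A) (hdim : HDim w A J c c') :
    ∃ (P : LieSubmodule ℂ (nJ J) (Fk n)),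
      (∃ f g r s, GSES (nJ J) (gW P) (gW (NL (w * Equiv.swap c c') A J))
        (shiftW (gW (SL w A J c c')) (Pi.single c' 1)) f g r s) ∧
      ∀ ν q, HV (nW J) (homW (gW P)
        (shiftW (gW (FE J (E0 w A J c c') h.RC_E0 ν)) (Pi.single c' 1))) q :=
  exists_P' h hb hdim

end

end Gao
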