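import Pool.Agent.Gao.EDef
import Pool.Agent.Gao.MSide

/-!
# Theorem E: exchange of two equal rows (Gao project, MP_b139df_co)

The row operators `rowE s b`, `rowE b s` commute with all column operators (`colE_rowE_comm` in EMod.lean), preserve the column
weights and `Fall E` (the rows `s` and `b` of `E` are equal) and form an `sl_2`-triple with `ν b - ν s`. So with
`k = |ν s - ν b|` the `k`-th power of one of them is an isomorphism `Fnu E ν → Fnu E (ν ∘ swap s b)` (Lefschetz property:
`Centered.lefschetz` in Sl2A / `IsLowering.pow_injective`, `pow_surjective` in Sl2B for the grading `rowGr` restricted to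
`Fall E`). Its inverse is also equivariant and preserves the weights. (Alternative: the second quantisation of the exchange of
the boxes `(s,j), (b,j)`: the product over `j` of the commuting involutions `1 - (cr p - cr q)(an p - an q)`, `p = (s,j)`, `q = (b,j)`.)
-/

set_option autoImplicit false

namespace Gao

open Finset Module Gao.CE
open Gao.Fam (homW)

noncomputable section

variable {n : ℕ}

private lemma es_hom_col (x y : Fin n) : Hom (colGr n) (rowE x y) 0 := by
  unfold rowE
  apply Hom.sum'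
  intro j _
  have h := (hom_cr_col (y, j)).mul' (hom_an_col (x, j))
  have e : (-Pi.single (x, j).2 1 + Pi.single (y, j).2 1 : Fin n → ℤ) = 0 := by
    simp only []
    abel
  rw [e] at h
  exact h

/-- the diagonal row operator counts the boxes of the row -/
private lemma es_self_ee (x : Fin n) (D : Finset (Fin n × Fin n)) :
    rowE x x (Kost.ee D) = ((rowCnt D x : ℤ) : ℂ) • Kost.ee D := by
  unfold rowE
  rw [LinearMap.sum_apply]
  have h1 : ∀ j : Fin n, (Kost.cr (x, j) * Kost.an (x, j)) (Kost.ee D) =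
      (if (x, j) ∈ D then (1 : ℂ) else 0) • Kost.ee D := by
    intro j
    rw [Module.End.mul_apply, Kost.an_ee]
    by_cases h : (x, j) ∈ D
    · rw [if_pos h, if_pos h, map_smul, Kost.cr_ee, if_neg (Finset.notMem_erase _ _),
        Kost.sgn_erase_self, smul_smul, Kost.sgn_mul_self, Finset.insert_erase h]
    · rw [if_neg h, if_neg h, map_zero, zero_smul]
  simp only [h1]
  rw [← Finset.sum_smul]
  congr 1
  rw [Finset.sum_ite, Finset.sum_const_zero, add_zero, Finset.sum_const, nsmul_eq_mul, mul_one,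
    rowCnt]
  rw [Int.cast_natCast]
  congr 1
  clear h1
  apply Finset.card_bij' (fun j _ => (x, j)) (fun b _ => b.2)
  · intro j hj
    simpa using hj
  · rintro ⟨x', j⟩ hb
    simp only [Finset.mem_filter] at hb
    obtain ⟨h1, rfl⟩ := hb
    simpa using h1
  · intro j _; rfl
  · rintro ⟨x', j⟩ hb
    simp only [Finset.mem_filter] at hb
    obtain ⟨_, rfl⟩ := hb
    rfl

private lemma es_self_π (x : Fin n) (a : Fin n → ℤ) :
    rowE x x * (rowGr n).π a = ((a x : ℤ) : ℂ) • (rowGr n).π a := by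
  refine Kost.end_ext fun D => ?_
  rw [Module.End.mul_apply, LinearMap.smul_apply]
  have h1 : (rowGr n).π a (Kost.ee D) = if rowCnt D = a then Kost.ee D else 0 := dia_ee _ D
  rw [h1]
  by_cases h : rowCnt D = a
  · rw [if_pos h, es_self_ee, h]
  · rw [if_neg h, map_zero, smul_zero]

/-- the whole space is centered at `0` for `rowE s b` -/
private lemma es_centered (s b : Fin n) :
    Centered (rowGr n) (rowE s b) (Pi.single b 1 - Pi.single s 1) (htJ s b) 0 := by
  refine ⟨rowE b s, ?_, ?_⟩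
  · rw [neg_sub]
    exact hom_rowE_row b s
  · intro a
    rw [rowE_comm, if_pos rfl, if_pos rfl, sub_mul, es_self_π, es_self_π, ← sub_smul, sub_zero]
    congr 1
    push_cast [htJ_apply]
    ring

private lemma es_rowE_mem_Fall {E : Finset (Fin n × Fin n)} {x y : Fin n}
    (h : ∀ j, (x, j) ∈ E → (y, j) ∈ E) {v : Fk n} (hv : v ∈ Fall E) : rowE x y v ∈ Fall E := by
  apply map_mem_of_Fall _ hv
  intro D hD
  rw [rowE_ee]
  refine Submodule.sum_mem _ fun j _ => ?_
  split_ifs with h1
  · refine Submodule.smul_mem _ _ (ee_mem_Fall ?_)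
    intro p hp
    rcases Finset.mem_insert.1 hp with rfl | hp
    · exact h j (hD h1.1)
    · exact hD (Finset.mem_of_mem_erase hp)
  · exact Submodule.zero_mem _

private lemma es_pow_mem_Fall {E : Finset (Fin n × Fin n)} {x y : Fin n}
    (h : ∀ j, (x, j) ∈ E → (y, j) ∈ E) (k : ℕ) {v : Fk n} (hv : v ∈ Fall E) :
    (rowE x y ^ k) v ∈ Fall E := by
  induction k with
  | zero => exact hv
  | succ k ih =>
    rw [pow_succ', Module.End.mul_apply]
    exact es_rowE_mem_Fall h ih

/-- the row and column gradings commute -/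
private lemma es_π_comm (a c : Fin n → ℤ) (x : Fk n) :
    (rowGr n).π a ((colGr n).π c x) = (colGr n).π c ((rowGr n).π a x) := by
  have h : (rowGr n).π a * (colGr n).π c = (colGr n).π c * (rowGr n).π a := by
    refine Kost.end_ext fun D => ?_
    rw [Module.End.mul_apply, Module.End.mul_apply]
    have h1 : (rowGr n).π a (Kost.ee D) = if rowCnt D = a then Kost.ee D else 0 := dia_ee _ D
    have h2 : (colGr n).π c (Kost.ee D) = if colCnt D = c then Kost.ee D else 0 := dia_ee _ D
    rw [h1, h2]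
    by_cases h3 : rowCnt D = a
    · by_cases h4 : colCnt D = c
      · rw [if_pos h3, if_pos h4, h1, h2, if_pos h3, if_pos h4]
      · rw [if_pos h3, if_neg h4, map_zero, h2, if_neg h4]
    · by_cases h4 : colCnt D = c
      · rw [if_neg h3, if_pos h4, map_zero, h1, if_neg h3]
      · rw [if_neg h3, if_neg h4, map_zero, map_zero]
  exact congrArg (fun T : Module.End ℂ (Fk n) => T x) h

private lemma es_swap {s b : Fin n} (hsb : s ≠ b) {ν : Fin n → ℤ} {k : ℕ}
    (hk : (k : ℤ) = ν s - ν b) :
    ν ∘ Equiv.swap s b = ν + k • (Pi.single b 1 - Pi.single s 1 : Fin n → ℤ) := by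
  funext x
  change ν (Equiv.swap s b x) =
    ν x + k • ((Pi.single b 1 : Fin n → ℤ) x - (Pi.single s 1 : Fin n → ℤ) x)
  rw [nsmul_eq_mul]
  by_cases h1 : x = s
  · subst h1
    rw [Equiv.swap_apply_left, Pi.single_eq_same, Pi.single_eq_of_ne hsb]
    rw [hk]
    ring
  · by_cases h2 : x = b
    · subst h2
      rw [Equiv.swap_apply_right, Pi.single_eq_same, Pi.single_eq_of_ne h1, hk]
      ring
    · rw [Equiv.swap_apply_of_ne_of_ne h1 h2, Pi.single_eq_of_ne h2, Pi.single_eq_of_ne h1]
      ring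

private lemma es_inj {s b : Fin n} (hsb : s ≠ b) {ν : Fin n → ℤ} {k : ℕ}
    (hk : (k : ℤ) = ν s - ν b) {x : Fk n} (hx : x ∈ (rowGr n).W ν)
    (h0 : (rowE s b ^ k) x = 0) : x = 0 := by
  have h := (es_centered s b).lefschetz (htJ_alpha hsb) (hom_rowE_row s b) ν k (by
    rw [htJ_apply]
    omega)
  exact h.1 x hx h0

private lemma es_mem_Fnu {E : Finset (Fin n × Fin n)} {s b : Fin n}
    (h : ∀ j, (s, j) ∈ E → (b, j) ∈ E) {ν ν' : Fin n → ℤ} {k : ℕ}
    (hν : ν' = ν + k • (Pi.single b 1 - Pi.single s 1 : Fin n → ℤ)) {x : Fk n}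
    (hx : x ∈ Fnu E ν) : (rowE s b ^ k) x ∈ Fnu E ν' := by
  rw [Fnu_eq] at hx ⊢
  refine ⟨es_pow_mem_Fall h k hx.1, ?_⟩
  rw [hν]
  exact ((hom_rowE_row s b).pow k).mem hx.2

private theorem es_main {J : Finset (Fin n)} {E : Finset (Fin n × Fin n)} (hE : RC J E)
    {s b : Fin n} (hsb : s ≠ b) (hrow : ∀ j, (s, j) ∈ E ↔ (b, j) ∈ E) (ν ν' : Fin n → ℤ)
    (hν' : ν' = ν ∘ Equiv.swap s b) (hle : ν b ≤ ν s) :
    ∃ t t', GIso (nJ J) (gW (FE J E hE ν)) (gW (FE J E hE ν')) t t' := by
  obtain ⟨k, hk⟩ : ∃ k : ℕ, (k : ℤ) = ν s - ν b := ⟨(ν s - ν b).toNat, by omega⟩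
  have e1 : ν' = ν + k • (Pi.single b 1 - Pi.single s 1 : Fin n → ℤ) := by
    rw [hν']
    exact es_swap hsb hk
  have hk' : (k : ℤ) = ν' b - ν' s := by
    rw [hν']
    simp only [Function.comp_apply, Equiv.swap_apply_left, Equiv.swap_apply_right]
    exact hk
  have e2 : ν = ν' + k • (Pi.single s 1 - Pi.single b 1 : Fin n → ℤ) := by
    rw [e1, add_assoc, ← smul_add]
    simp
  let t : FE J E hE ν →ₗ[ℂ] FE J E hE ν' :=
    { toFun := fun x => ⟨(rowE s b ^ k) (x : Fk n), es_mem_Fnu (fun j => (hrow j).1) e1 x.2⟩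
      map_add' := fun x y => Subtype.ext (map_add (rowE s b ^ k) (x : Fk n) (y : Fk n))
      map_smul' := fun c x => Subtype.ext (map_smul (rowE s b ^ k) c (x : Fk n)) }
  let u : FE J E hE ν' →ₗ[ℂ] FE J E hE ν :=
    { toFun := fun x => ⟨(rowE b s ^ k) (x : Fk n), es_mem_Fnu (fun j => (hrow j).2) e2 x.2⟩
      map_add' := fun x y => Subtype.ext (map_add (rowE b s ^ k) (x : Fk n) (y : Fk n))
      map_smul' := fun c x => Subtype.ext (map_smul (rowE b s ^ k) c (x : Fk n)) }
  have hW : ∀ {mu : Fin n → ℤ} (x : FE J E hE mu), (x : Fk n) ∈ (rowGr n).W mu := by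
    intro mu x
    have h : (x : Fk n) ∈ Fnu E mu := x.2
    rw [Fnu_eq] at h
    exact h.2
  have ht : Function.Injective t := by
    rw [injective_iff_map_eq_zero]
    intro x hx
    have h1 : (rowE s b ^ k) (x : Fk n) = 0 := congrArg Subtype.val hx
    exact Subtype.ext (es_inj hsb hk (hW x) h1)
  have hu : Function.Injective u := by
    rw [injective_iff_map_eq_zero]
    intro x hx
    have h1 : (rowE b s ^ k) (x : Fk n) = 0 := congrArg Subtype.val hx
    exact Subtype.ext (es_inj hsb.symm hk' (hW x) h1)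
  have hfd : ∀ mu, FiniteDimensional ℂ (FE J E hE mu) := fun mu =>
    inferInstanceAs (FiniteDimensional ℂ (Fnu E mu))
  have hfr : finrank ℂ (FE J E hE ν) = finrank ℂ (FE J E hE ν') :=
    le_antisymm (LinearMap.finrank_le_finrank_of_injective ht)
      (LinearMap.finrank_le_finrank_of_injective hu)
  have hts : Function.Surjective t :=
    (LinearMap.injective_iff_surjective_of_finrank_eq_finrank hfr).1 ht
  let te := LinearEquiv.ofBijective t ⟨ht, hts⟩
  have hcol : Hom (colGr n) (rowE s b ^ k) 0 := by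
    have h := (es_hom_col s b).pow k
    rwa [smul_zero] at h
  refine ⟨t, te.symm.toLinearMap, ?_, ?_, ?_, ?_, ?_⟩
  · intro mu m hm
    rw [mem_gW] at hm ⊢
    have h := hcol.mem hm
    rw [add_zero] at h
    exact h
  · intro mu m hm
    rw [mem_gW] at hm ⊢
    obtain ⟨x, rfl⟩ := hts m
    have h1 : te.symm.toLinearMap (t x) = x := te.symm_apply_apply x
    rw [h1]
    have h2 : (rowE s b ^ k) (x : Fk n) ∈ (colGr n).W mu := hm
    rw [Grading.mem_W] at h2 ⊢
    have h3 : (rowE s b ^ k) ((colGr n).π mu (x : Fk n)) = (colGr n).π mu ((rowE s b ^ k) x) := by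
      have h4 := hcol mu
      rw [add_zero] at h4
      exact congrArg (fun T : Module.End ℂ (Fk n) => T (x : Fk n)) h4
    have h5 : (rowE s b ^ k) ((colGr n).π mu (x : Fk n) - x) = 0 := by
      rw [map_sub, h3, h2, sub_self]
    have h6 : (colGr n).π mu (x : Fk n) ∈ (rowGr n).W ν := by
      rw [Grading.mem_W, es_π_comm, (rowGr n).π_of_mem (hW x)]
    have h7 := es_inj hsb hk (Submodule.sub_mem _ h6 (hW x)) h5
    exact sub_eq_zero.1 h7
  · intro a
    exact te.symm_apply_apply a
  · intro a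
    exact te.apply_symm_apply a
  · intro x a
    apply Subtype.ext
    change (rowE s b ^ k) ⁅x, (a : Fk n)⁆ = ⁅x, (rowE s b ^ k) (a : Fk n)⁆
    refine comm_lie (X := ⊤) (fun j _ l _ _ v _ => ?_) x Submodule.mem_top
    have h1 : Commute (colE j l) (rowE s b) := colE_rowE_comm j l s b
    have h2 := h1.pow_right k
    exact (congrArg (fun T : Module.End ℂ (Fk n) => T v) h2.eq).symm

theorem giso_swap {J : Finset (Fin n)} {E : Finset (Fin n × Fin n)} (hE : RC J E) {s b : Fin n}
    (hsb : s ≠ b) (hrow : ∀ j, (s, j) ∈ E ↔ (b, j) ∈ E) (ν : Fin n → ℤ) :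
    ∃ t t', GIso (nJ J) (gW (FE J E hE ν)) (gW (FE J E hE (ν ∘ Equiv.swap s b))) t t' := by
  rcases le_total (ν b) (ν s) with h | h
  · exact es_main hE hsb hrow ν _ rfl h
  · refine es_main hE hsb.symm (fun j => (hrow j).symm) ν _ ?_ h
    rw [Equiv.swap_comm]

end

end Gao
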