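import Pool.Agent.Gao.EVan
import Pool.Agent.Gao.ESeqF
import Pool.Agent.Gao.ESwap
import Pool.Agent.Gao.ESeqN

/-!
# Theorem E: the step (E2) (Gao project, MP_b139df_co)

The smallest letter `s = w c ∈ A` passes `b = w c' ∈ A`.
-/

set_option autoImplicit false

namespace Gao

open Finset Module Gao.CE
open Gao.Fam (homW)

noncomputable section

variable {n : ℕ}

instance finiteDimensional_lieSub {J : Finset (Fin n)} (X : LieSubmodule ℂ (nJ J) (Fk n)) :
    FiniteDimensional ℂ X := inferInstanceAs (FiniteDimensional ℂ (X : Submodule ℂ (Fk n)))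

/-- no vectors of negative row content -/
lemma Fnu_neg (E : Finset (Fin n × Fin n)) {ν : Fin n → ℤ} {x : Fin n} (h : ν x < 0) :
    Fnu E ν = ⊥ := by
  rw [eq_bot_iff, Fnu, Submodule.span_le]
  rintro _ ⟨D, _, hν, rfl⟩
  exfalso
  rw [← hν] at h
  exact absurd h (not_lt.2 (Int.natCast_nonneg _))

lemma subsingleton_FE {J : Finset (Fin n)} {E : Finset (Fin n × Fin n)} (hE : RC J E)
    {ν : Fin n → ℤ} (h : Fnu E ν = ⊥) : Subsingleton (FE J E hE ν) := by
  refine ⟨fun x y => Subtype.ext ?_⟩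
  have hx : (x : Fk n) ∈ Fnu E ν := x.2
  have hy : (y : Fk n) ∈ Fnu E ν := y.2
  rw [h, Submodule.mem_bot] at hx hy
  rw [hx, hy]

lemma hh0_of_subsingleton {J : Finset (Fin n)} {X : Type} [AddCommGroup X] [Module ℂ X]
    [LieRingModule (nJ J) X] [LieModule ℂ (nJ J) X] [Subsingleton X]
    (W : (Fin n → ℤ) → Submodule ℂ X) : hh0 (nW J) W = 0 := by
  change h0 (HH (nW J) W) (fun q => CE.d q) = 0
  rw [h0_eq_finrank_inv0]
  exact Module.finrank_zero_of_subsingleton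

lemma mdim_neg (w : Equiv.Perm (Fin n)) (A J : Finset (Fin n)) {ν : Fin n → ℤ} {x : Fin n}
    (h : ν x < 0) : mdim w A J ν = 0 := by
  have h1 : (rowGr n).π ν = 0 := by
    apply (rowGr n).zero
    intro hmem
    obtain ⟨D, _, hD⟩ := Finset.mem_image.1 hmem
    rw [← hD] at h
    exact absurd h (not_lt.2 (Int.natCast_nonneg _))
  rw [mdim, h1, Submodule.map_zero, finrank_bot]

lemma subsingleton_hom {R S F : Type*} [Ring R] [AddCommGroup S] [Module R S] [AddCommGroup F]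
    [Module R F] [Subsingleton F] : Subsingleton (S →ₗ[R] F) :=
  ⟨fun f g => LinearMap.ext fun _ => Subsingleton.elim _ _⟩

variable {w : Equiv.Perm (Fin n)} {A J : Finset (Fin n)} {c c' : Fin n}

/-- the sequence for `Fset w A J` -/
lemma Adj.gses_w (h : Adj w A J c c') (hs : w c ∈ A) (ν : Fin n → ℤ) :
    ∃ f g r s, GSES (nJ J) (gW (FE J (E0 w A J c c') h.RC_E0 ν)) (gW (FL w A J ν))
      (shiftW (gW (FE J (E0 w A J c c') h.RC_E0 (ν - Pi.single (w c) 1))) (Pi.single c' 1))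
      f g r s := by
  refine gses_box (RC_Fset w A J) h.RC_E0 rfl ?_ ?_ ν
  · rw [mem_Fset]
    exact ⟨hs, h.mem', by rw [w.symm_apply_apply]; exact h.lt⟩
  · intro j hj hjc hmem
    rw [mem_Fset] at hmem
    obtain ⟨_, _, h3⟩ := hmem
    rw [w.symm_apply_apply] at h3
    exact h.adj j hj ⟨h3, hjc⟩

/-- the sequence for `Fset (w * swap c c') A J` -/
lemma Adj.gses_w' (h : Adj w A J c c') (hb : w c' ∈ A) (ν : Fin n → ℤ) :
    ∃ f g r s, GSES (nJ J) (gW (FE J (E0 w A J c c') h.RC_E0 ν))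
      (gW (FL (w * Equiv.swap c c') A J ν))
      (shiftW (gW (FE J (E0 w A J c c') h.RC_E0 (ν - Pi.single (w c') 1))) (Pi.single c' 1))
      f g r s := by
  have hsy : (w * Equiv.swap c c').symm (w c') = c := by
    rw [SData.symm_swap, w.symm_apply_apply, Equiv.swap_apply_right]
  refine gses_box (RC_Fset _ A J) h.RC_E0 h.E0_eq ?_ ?_ ν
  · rw [mem_Fset]
    exact ⟨hb, h.mem', by rw [hsy]; exact h.lt⟩
  · intro j hj hjc hmem
    rw [mem_Fset] at hmem
    obtain ⟨_, _, h3⟩ := hmem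
    rw [hsy] at h3
    exact h.adj j hj ⟨h3, hjc⟩

/-- `Hom(S(w), F(w)_ν)` and `Hom(S(w), F'_ν)` have the same cohomology -/
lemma Adj.same_w (h : Adj w A J c c') (hs : w c ∈ A) (ν : Fin n → ℤ) :
    (∀ q, HV (nW J) (homW (gW (NL w A J)) (gW (FE J (E0 w A J c c') h.RC_E0 ν))) q ↔
      HV (nW J) (homW (gW (NL w A J)) (gW (FL w A J ν))) q) ∧
    hh0 (nW J) (homW (gW (NL w A J)) (gW (FE J (E0 w A J c c') h.RC_E0 ν))) =
      hh0 (nW J) (homW (gW (NL w A J)) (gW (FL w A J ν))) := by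
  obtain ⟨f, g, r, s, hg⟩ := h.gses_w hs ν
  exact (hg.homRight (gW (NL w A J))).of_van_right (grLie_nW J)
    ((grMod_gW _).hom (grMod_gW _)) ((grMod_gW _).hom (grMod_gW _))
    ((grMod_gW _).hom ((grMod_gW _).shift _)) (fun q => h.van_G _ q)

/-- `Hom(S(w), F(w')_ν)` and `Hom(S(w), F'_ν)` have the same cohomology -/
lemma Adj.same_w' (h : Adj w A J c c') (hb : w c' ∈ A) (ν : Fin n → ℤ) :
    (∀ q, HV (nW J) (homW (gW (NL w A J)) (gW (FE J (E0 w A J c c') h.RC_E0 ν))) q ↔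
      HV (nW J) (homW (gW (NL w A J)) (gW (FL (w * Equiv.swap c c') A J ν))) q) ∧
    hh0 (nW J) (homW (gW (NL w A J)) (gW (FE J (E0 w A J c c') h.RC_E0 ν))) =
      hh0 (nW J) (homW (gW (NL w A J)) (gW (FL (w * Equiv.swap c c') A J ν))) := by
  obtain ⟨f, g, r, s, hg⟩ := h.gses_w' hb ν
  exact (hg.homRight (gW (NL w A J))).of_van_right (grLie_nW J)
    ((grMod_gW _).hom (grMod_gW _)) ((grMod_gW _).hom (grMod_gW _))
    ((grMod_gW _).hom ((grMod_gW _).shift _)) (fun q => h.van_G _ q)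

theorem e2_conc (h : Adj w A J c c') (hs : w c ∈ A) (hb : w c' ∈ A) (hd : HDim w A J c c')
    (m2 : M2 w A J c c') (ih : TE (w * Equiv.swap c c') A J) : TE w A J := by
  have hsb : w c' ≠ w c := fun h1 => h.ne (w.injective h1.symm)
  obtain ⟨C, iC1, iC2, iC3, iC4, iC5, WC, hC, ⟨f1, c1, r1, s1, g1⟩, vC⟩ := exists_C h hb hd
  obtain ⟨P, ⟨f2, c2, r2, s2, g2⟩, vP⟩ := exists_P h hb hd
  choose f3 c3 r3 s3 g3 using h.gses_w' hb
  have hrow : ∀ j, (w c', j) ∈ E0 w A J c c' ↔ (w c, j) ∈ E0 w A J c c' :=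
    fun j => (h.E0_row hs hb j).symm
  choose t t' hsw using giso_swap h.RC_E0 hsb hrow
  have neg : ∀ ν : Fin n → ℤ, ν (w c) < 0 →
      Subsingleton (FL (w * Equiv.swap c c') A J ν) := fun ν hν =>
    subsingleton_FE _ (Fnu_neg _ hν)
  obtain ⟨hV, hN⟩ := e2_family (Sm := NL w A J) (Sn := NL (w * Equiv.swap c c') A J)
    (Im := SL w A J c c') (P := P) (C := C) (WSm := gW (NL w A J))
    (WSn := gW (NL (w * Equiv.swap c c') A J)) (WIm := gW (SL w A J c c')) (WP := gW P) (WC := WC)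
    (F := fun ν => FL (w * Equiv.swap c c') A J ν)
    (F' := fun ν => FE J (E0 w A J c c') h.RC_E0 ν)
    (WF := fun ν => gW (FL (w * Equiv.swap c c') A J ν))
    (WF' := fun ν => gW (FE J (E0 w A J c c') h.RC_E0 ν))
    (eps := Pi.single c' 1) (s := w c') (b := w c) hsb (grLie_nW J) (grMod_gW _) (grMod_gW _)
    (grMod_gW _) (grMod_gW _) hC (fun ν => grMod_gW _) (fun ν => grMod_gW _) g1 g2 g3 hsw neg vC vP
    (fun ν q => h.van_G ν q) (fun ν q => (ih ν).1 q)
  have hg : ∀ ν, hh0 (nW J) (homW (gW (NL w A J)) (gW (FL w A J ν))) =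
      hh0 (nW J) (homW (gW (NL w A J)) (gW (FL (w * Equiv.swap c c') A J ν))) := fun ν =>
    (h.same_w hs ν).2.symm.trans (h.same_w' hb ν).2
  have hf : ∀ ν, hh0 (nW J) (homW (gW (NL (w * Equiv.swap c c') A J))
      (gW (FL (w * Equiv.swap c c') A J ν))) = mdim (w * Equiv.swap c c') A J ν := fun ν =>
    (ih ν).2
  intro ν
  refine ⟨fun q => ((h.same_w hs ν).1 (q + 1)).1 (((h.same_w' hb ν).1 (q + 1)).2 (hV ν q)), ?_⟩
  rw [hg]
  refine num_unique_Z (s := w c') (b := w c) hsb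
    (f := fun ν => mdim (w * Equiv.swap c c') A J ν)
    (g := fun ν => hh0 (nW J) (homW (gW (NL w A J)) (gW (FL (w * Equiv.swap c c') A J ν))))
    (m := fun ν => mdim w A J ν) ?_ ?_ ?_ ?_ ν
  · intro ν
    have h1 := hN ν
    rw [hf, hf] at h1
    exact h1
  · intro ν
    have h1 := m2 ν
    rw [Equiv.swap_comm (w c) (w c')] at h1
    exact h1
  · intro ν hν
    have := neg ν hν
    have := subsingleton_hom (R := ℂ) (S := NL w A J) (F := FL (w * Equiv.swap c c') A J ν)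
    exact hh0_of_subsingleton _
  · intro ν hν
    exact mdim_neg w A J hν

end

end Gao
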