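import Pool.Agent.Gao.EVan

/-!
# Theorem E: the exact sequence for `w c' ∉ A` (Gao project, MP_b139df_co)

Here `Nmod (w * swap c c') A J ≤ Nmod w A J` (its generator is an extremal vector, as in `Smod_le` of PartS.lean), and the
quotient is centered at `-1` by `lemmaS` (Sl2S) with `q` = the inclusion (kernel `0`), the generation statement as in
`Nmod_le_of_f_stable` (PartS.lean). Then `van_hom` with `centered_F`.
-/

set_option autoImplicit false

namespace Gao

open Finset Module Gao.CE
open Gao.Fam (homW)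

noncomputable section

variable {n : ℕ}

variable {w : Equiv.Perm (Fin n)} {A J : Finset (Fin n)} {c c' : Fin n}

namespace N3

lemma col (h : Adj w A J c c') (x : Fin n) (hx : (x, c') ∈ Dset w A J) : (x, c) ∈ Dset w A J := by
  rw [mem_Dset] at hx ⊢
  obtain ⟨h1, _, h3, h4⟩ := hx
  have h5 : w c < x := lt_of_le_of_lt (h.min c' h.mem') h4
  refine ⟨h1, h.mem, ?_, h5⟩
  refine lt_of_le_of_ne (h.le_of_lt (h.AJ x h1) h3) ?_
  intro h6
  apply ne_of_lt h5
  have h7 : w.symm x = c := h6
  rw [← h7]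
  simp

lemma dset_iff (h : Adj w A J c c') (hb : w c' ∉ A) (x j : Fin n) :
    (x, j) ∈ Dset (w * Equiv.swap c c') A J ↔ (x, Equiv.swap c c' j) ∈ Dset w A J := by
  rw [mem_Dset, mem_Dset]
  simp only [SData.symm_swap, Equiv.Perm.mul_apply]
  have hne := h.ne
  have hlt := h.lt
  have hx0 : w (w.symm x) = x := by simp
  have hxA : x ∈ A → w.symm x ≠ c' := by
    intro h1 h2
    rw [← hx0, h2] at h1
    exact hb h1
  by_cases hj : j = c
  · subst hj
    rw [Equiv.swap_apply_left]
    constructor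
    · rintro ⟨h1, _, h3, h4⟩
      refine ⟨h1, h.mem', ?_, h4⟩
      rcases eq_or_ne (w.symm x) j with h5 | h5
      · rw [h5, Equiv.swap_apply_left] at h3
        exact absurd (h3.trans hlt) (lt_irrefl _)
      · rw [Equiv.swap_apply_of_ne_of_ne h5 (hxA h1)] at h3
        exact h3.trans hlt
    · rintro ⟨h1, _, h3, h4⟩
      refine ⟨h1, h.mem, ?_, h4⟩
      have h5 : w.symm x ≠ j := by
        intro h5
        have h6 : w j < x := lt_of_le_of_lt (h.min c' h.mem') h4
        rw [← h5, hx0] at h6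
        exact lt_irrefl _ h6
      rw [Equiv.swap_apply_of_ne_of_ne h5 (ne_of_lt h3)]
      exact lt_of_le_of_ne (h.le_of_lt (h.AJ x h1) h3) h5
  · by_cases hj' : j = c'
    · subst hj'
      rw [Equiv.swap_apply_right]
      constructor
      · rintro ⟨h1, _, h3, h4⟩
        refine ⟨h1, h.mem, ?_, h4⟩
        rcases eq_or_ne (w.symm x) c with h5 | h5
        · rw [h5, Equiv.swap_apply_left] at h3
          exact absurd h3 (lt_irrefl _)
        · rw [Equiv.swap_apply_of_ne_of_ne h5 (hxA h1)] at h3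
          exact lt_of_le_of_ne (h.le_of_lt (h.AJ x h1) h3) h5
      · rintro ⟨h1, _, h3, h4⟩
        refine ⟨h1, h.mem', ?_, h4⟩
        rw [Equiv.swap_apply_of_ne_of_ne (ne_of_lt h3) (ne_of_lt (h3.trans hlt))]
        exact h3.trans hlt
    · rw [Equiv.swap_apply_of_ne_of_ne hj hj']
      constructor
      · rintro ⟨h1, h2, h3, h4⟩
        refine ⟨h1, h2, ?_, h4⟩
        rcases eq_or_ne (w.symm x) c with h5 | h5
        · rw [h5, Equiv.swap_apply_left] at h3
          rw [h5]
          exact hlt.trans h3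
        · rwa [Equiv.swap_apply_of_ne_of_ne h5 (hxA h1)] at h3
      · rintro ⟨h1, h2, h3, h4⟩
        refine ⟨h1, h2, ?_, h4⟩
        rcases eq_or_ne (w.symm x) c with h5 | h5
        · rw [h5] at h3
          rw [h5, Equiv.swap_apply_left]
          exact lt_of_le_of_ne (h.ge_of_gt h2 h3) (Ne.symm hj')
        · rwa [Equiv.swap_apply_of_ne_of_ne h5 (hxA h1)]

/-- the commutator with `f = colE c' c` of the operators `colE j l`, `j ≤ l` -/
lemma f_comm (h : Adj w A J c c') {j l : Fin n} (hj : j ∈ J) (hl : l ∈ J) (hjl : j ≤ l)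
    {P Q : Submodule ℂ (Fk n)} (hf : ∀ x ∈ P, colE c' c x ∈ Q)
    (hP : ∀ j ∈ J, ∀ l ∈ J, j ≤ l → ∀ x ∈ P, colE j l x ∈ Q) (x : Fk n) (hx : x ∈ P) :
    colE c' c (colE j l x) - colE j l (colE c' c x) ∈ Q := by
  have h1 := congrArg (fun g : Module.End ℂ (Fk n) => g x) (colE_comm c' c j l)
  simp only [LinearMap.sub_apply, Module.End.mul_apply] at h1
  rw [h1]
  apply Submodule.sub_mem
  · split_ifs with h2
    · subst h2
      rcases eq_or_lt_of_le hjl with h3 | h3
      · subst h3
        exact hf x hx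
      · exact hP j hj c h.mem (h.le_of_lt hj h3) x hx
    · exact Submodule.zero_mem _
  · split_ifs with h2
    · subst h2
      rcases eq_or_lt_of_le hjl with h3 | h3
      · subst h3
        exact hf x hx
      · exact hP c' h.mem' l hl (h.ge_of_gt hl h3) x hx
    · exact Submodule.zero_mem _

theorem Nmod_le (h : Adj w A J c c') (hb : w c' ∉ A) :
    Nmod (w * Equiv.swap c c') A J ≤ Nmod w A J := by
  obtain ⟨k, t, ht, hk⟩ := ext_vec_iff h.ne (Dset w A J) _ (col h) (dset_iff h hb)
  apply gen_le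
  · have h1 : (colE c c' ^ k) (Kost.ee (Dset w A J)) ∈ Nmod w A J :=
      pow_mem_of_stable (fun x hx => colE_mem_gen h.mem h.mem' h.lt hx) k
        (self_mem_gen _ _)
    have h2 := Submodule.smul_mem _ t⁻¹ h1
    rwa [hk, smul_smul, inv_mul_cancel₀ ht, one_smul] at h2
  · intro T hT x hx
    exact gen_stable hT hx

/-- `Nmod w A J` is the smallest `f`-stable subspace containing `Nmod w' A J` -/
theorem le_of_f_stable (h : Adj w A J c c') (hb : w c' ∉ A) (P : Submodule ℂ (Fk n))
    (hP : Nmod (w * Equiv.swap c c') A J ≤ P) (hf : ∀ x ∈ P, colE c' c x ∈ P) :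
    Nmod w A J ≤ P := by
  set X : Submodule ℂ (Fk n) :=
    Submodule.span ℂ {v | ∃ i : ℕ, ∃ y ∈ Nmod (w * Equiv.swap c c') A J,
      v = (colE c' c ^ i) y} with hX
  have hXP : X ≤ P := by
    rw [hX, Submodule.span_le]
    rintro _ ⟨i, y, hy, rfl⟩
    exact pow_mem_of_stable hf i (hP hy)
  have hXf : ∀ x ∈ X, colE c' c x ∈ X := by
    have : X ≤ X.comap (colE c' c) := by
      rw [hX, Submodule.span_le]
      rintro _ ⟨i, y, hy, rfl⟩
      refine Submodule.subset_span ⟨i + 1, y, hy, ?_⟩
      rw [pow_succ', Module.End.mul_apply]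
    exact this
  have hXT0 : ∀ i : ℕ, ∀ j ∈ J, ∀ l ∈ J, j ≤ l → ∀ y ∈ Nmod (w * Equiv.swap c c') A J,
      colE j l ((colE c' c ^ i) y) ∈ X := by
    intro i
    induction i with
    | zero =>
      intro j hj l hl hjl y hy
      refine Submodule.subset_span ⟨0, _, gen_col_le_stable hj hl hjl hy, ?_⟩
      simp
    | succ i ih =>
      intro j hj l hl hjl y hy
      rw [pow_succ', Module.End.mul_apply]
      set z := (colE c' c ^ i) y with hz
      have h1 : colE j l (colE c' c z) = colE c' c (colE j l z) -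
          (colE c' c (colE j l z) - colE j l (colE c' c z)) := by abel
      rw [h1]
      apply Submodule.sub_mem
      · exact hXf _ (ih j hj l hl hjl y hy)
      · apply f_comm h hj hl hjl (P := Submodule.span ℂ {z}) (Q := X)
        · intro u hu
          rw [Submodule.mem_span_singleton] at hu
          obtain ⟨t, rfl⟩ := hu
          rw [map_smul]
          exact Submodule.smul_mem _ _ (hXf _ (Submodule.subset_span ⟨i, y, hy, rfl⟩))
        · intro j hj l hl hjl u hu
          rw [Submodule.mem_span_singleton] at hu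
          obtain ⟨t, rfl⟩ := hu
          rw [map_smul]
          exact Submodule.smul_mem _ _ (ih j hj l hl hjl y hy)
        · exact Submodule.mem_span_singleton_self z
  have hXT : ∀ j ∈ J, ∀ l ∈ J, j ≤ l → ∀ x ∈ X, colE j l x ∈ X := by
    intro j hj l hl hjl
    have : X ≤ X.comap (colE j l) := by
      rw [hX, Submodule.span_le]
      rintro _ ⟨i, y, hy, rfl⟩
      exact hXT0 i j hj l hl hjl y hy
    exact this
  refine le_trans (gen_le ?_ ?_) hXP
  · have h1 : ∀ x j, (x, j) ∈ Dset w A J ↔ (x, Equiv.swap c' c j) ∈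
        Dset (w * Equiv.swap c c') A J := by
      intro x j
      rw [dset_iff h hb, Equiv.swap_comm c' c, Equiv.swap_apply_self]
    obtain ⟨k, t, ht, hk⟩ := ext_vec_iff (c := c') (c' := c) h.ne.symm
      (Dset (w * Equiv.swap c c') A J) (Dset w A J) (by
        intro x hx
        rw [dset_iff h hb] at hx ⊢
        rw [Equiv.swap_apply_left] at hx
        rw [Equiv.swap_apply_right]
        exact col h x hx) h1
    have h2 : (colE c' c ^ k) (Kost.ee (Dset (w * Equiv.swap c c') A J)) ∈ X :=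
      Submodule.subset_span ⟨k, _, self_mem_gen _ _, rfl⟩
    have h3 := Submodule.smul_mem _ t⁻¹ h2
    rwa [hk, smul_smul, inv_mul_cancel₀ ht, one_smul] at h3
  · rintro T ⟨j, hj, l, hl, hjl, rfl⟩ x hx
    exact hXT j hj l hl hjl.le x hx

theorem NL_le (h : Adj w A J c c') (hb : w c' ∉ A) :
    NL (w * Equiv.swap c c') A J ≤ NL w A J := fun _ hx => Nmod_le h hb hx

/-- the inclusion -/
def inc (h : Adj w A J c c') (hb : w c' ∉ A) :
    NL (w * Equiv.swap c c') A J →ₗ⁅ℂ, nJ J⁆ NL w A J := LieSubmodule.inclusion (NL_le h hb)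

/-- the raising operator -/
abbrev eN (h : Adj w A J c c') (u : Equiv.Perm (Fin n)) : Module.End ℂ (NL u A J) :=
  LieModule.toEnd ℂ (nJ J) (NL u A J) (sgl c c' ⟨h.mem, h.mem', h.lt⟩)

lemma eN_coe (h : Adj w A J c c') (u : Equiv.Perm (Fin n)) (x : NL u A J) :
    ((eN h u x : NL u A J) : Fk n) = colE c c' (x : Fk n) := by
  change ⁅(sgl c c' ⟨h.mem, h.mem', h.lt⟩ : nJ J), (x : Fk n)⁆ = _
  rw [sgl_lie]

/-- the lowering operator -/
def fN (h : Adj w A J c c') : Module.End ℂ (NL w A J) :=
  (colE c' c).restrict h.Nmod_f_stable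

lemma fN_coe (h : Adj w A J c c') (x : NL w A J) :
    ((fN h x : NL w A J) : Fk n) = colE c' c (x : Fk n) := rfl

lemma gG_coe (u : Equiv.Perm (Fin n)) (a : Fin n → ℤ) (x : NL u A J) :
    (((gG (NL u A J) (Nmod_stable_col u A J)).π a x : NL u A J) : Fk n) =
      (colGr n).π a (x : Fk n) := rfl

lemma gG_finrank (u : Equiv.Perm (Fin n)) (a : Fin n → ℤ) :
    finrank ℂ ((gG (NL u A J) (Nmod_stable_col u A J)).W a) =
      finrank ℂ ((colGr n).W a ⊓ Nmod u A J : Submodule ℂ (Fk n)) :=
  Grading.finrank_restrict_W (colGr n) (Nmod u A J) (Nmod_stable_col u A J) a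

end N3

open N3 in
theorem exists_C3 (h : Adj w A J c c') (hb : w c' ∉ A) (hdim : HDim3 w A J c c') :
    ∃ (C : Type) (_ : AddCommGroup C) (_ : Module ℂ C) (_ : LieRingModule (nJ J) C)
      (_ : LieModule ℂ (nJ J) C) (_ : FiniteDimensional ℂ C) (WC : (Fin n → ℤ) → Submodule ℂ C),
      GrMod (nW J) WC ∧
      (∃ f g r s, GSES (nJ J) (gW (NL (w * Equiv.swap c c') A J)) (gW (NL w A J)) WC f g r s) ∧
      ∀ ν q, HV (nW J) (homW WC (gW (FE J (E0 w A J c c') h.RC_E0 ν))) q := by
  have hq : ∀ a x, (inc h hb : NL (w * Equiv.swap c c') A J →ₗ[ℂ] NL w A J)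
      ((gG (NL (w * Equiv.swap c c') A J) (Nmod_stable_col _ A J)).π a x) =
      (gG (NL w A J) (Nmod_stable_col w A J)).π a (inc h hb x) := fun a x => Subtype.ext rfl
  have hqe : ∀ x, (inc h hb : NL (w * Equiv.swap c c') A J →ₗ[ℂ] NL w A J)
      (eN h (w * Equiv.swap c c') x) = eN h w (inc h hb x) := fun x => Subtype.ext rfl
  have hmain := lemmaS (GM := gG (NL w A J) (Nmod_stable_col w A J))
    (GN := gG (NL (w * Equiv.swap c c') A J) (Nmod_stable_col _ A J)) (eM := eN h w)
    (f := fN h) (eN := eN h (w * Equiv.swap c c')) (α := al c c') (ht := htJ c c')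
    (htJ_alpha h.ne)
    (by
      intro a
      refine LinearMap.ext fun x => Subtype.ext ?_
      have h1 := congrArg (fun g : Module.End ℂ (Fk n) => g (x : Fk n)) (hom_colE_col c c' a)
      simp only [Module.End.mul_apply] at h1 ⊢
      rw [eN_coe, gG_coe, gG_coe, eN_coe]
      exact h1)
    (by
      intro a
      refine LinearMap.ext fun x => Subtype.ext ?_
      have h1 := congrArg (fun g : Module.End ℂ (Fk n) => g (x : Fk n)) (hom_colE_col c c' a)
      simp only [Module.End.mul_apply] at h1 ⊢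
      rw [eN_coe, gG_coe, gG_coe, eN_coe]
      exact h1)
    (by
      intro a
      refine LinearMap.ext fun x => Subtype.ext ?_
      have h1 := congrArg (fun g : Module.End ℂ (Fk n) => g (x : Fk n)) (hom_colE_col c' c a)
      have e1 : -al c c' = Pi.single c 1 - Pi.single c' 1 := neg_sub _ _
      rw [e1]
      simp only [Module.End.mul_apply] at h1 ⊢
      rw [fN_coe, gG_coe, gG_coe, fN_coe]
      exact h1)
    (by
      intro a
      refine LinearMap.ext fun x => Subtype.ext ?_
      have h1 := congrArg (fun g : Module.End ℂ (Fk n) => g (x : Fk n)) (colE_ef h.ne a)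
      simp only [Module.End.mul_apply, LinearMap.sub_apply, LinearMap.smul_apply] at h1 ⊢
      rw [Submodule.coe_sub, eN_coe, fN_coe, fN_coe, eN_coe, gG_coe]
      exact h1)
    (q := (inc h hb : NL (w * Equiv.swap c c') A J →ₗ[ℂ] NL w A J)) hq hqe
    (by
      intro P hP hPf
      rw [eq_top_iff]
      intro x _
      have h1 := le_of_f_stable h hb (P.map (NL w A J : Submodule ℂ (Fk n)).subtype) (by
        intro y hy
        exact ⟨⟨y, Nmod_le h hb hy⟩, hP ⟨⟨y, hy⟩, rfl⟩, rfl⟩) (by
        rintro _ ⟨y, hy, rfl⟩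
        exact ⟨fN h y, hPf y hy, rfl⟩) x.2
      obtain ⟨y, hy, hyx⟩ := h1
      have : y = x := Subtype.ext hyx
      exact this ▸ hy)
    (by
      intro a j ha x hx hx0 _
      exact Subtype.ext (congrArg (fun z : NL w A J => (z : Fk n)) hx0))
    (by
      intro a k ha
      rw [gG_finrank, gG_finrank, gG_finrank, gG_finrank]
      exact hdim a k ha)
  have hcen := centered_iff_fam.1 hmain.2
  set S : LieSubmodule ℂ (nJ J) (NL w A J) := (inc h hb).range with hS
  have hSr : (S : Submodule ℂ (NL w A J)) =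
      LinearMap.range (inc h hb : NL (w * Equiv.swap c c') A J →ₗ[ℂ] NL w A J) := rfl
  have hst : (gG (NL w A J) (Nmod_stable_col w A J)).Stable (S : Submodule ℂ (NL w A J)) :=
    stable_range hq
  set G : Grading ℂ (NL w A J ⧸ S) (Fin n → ℤ) :=
    (gG (NL w A J) (Nmod_stable_col w A J)).quot (S : Submodule ℂ (NL w A J)) hst with hG
  have hGr : GrMod (nW J) G.W := by
    intro lam mu x hx m hm
    obtain ⟨y, hy, rfl⟩ := (Grading.mem_quot_W _ _ hst mu m).1 hm
    refine (Grading.mem_quot_W _ _ hst _ _).2 ⟨⁅x, y⁆, ?_, rfl⟩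
    rw [gG_W] at hy ⊢
    exact grMod_gW (NL w A J) lam mu x hx y hy
  refine ⟨NL w A J ⧸ S, inferInstance, inferInstance, inferInstance, inferInstance, inferInstance,
    G.W, hGr, ?_, ?_⟩
  · obtain ⟨r, s, hrs⟩ := exists_GSES (L := nJ J)
      (GA := gG (NL (w * Equiv.swap c c') A J) (Nmod_stable_col _ A J))
      (GB := gG (NL w A J) (Nmod_stable_col w A J)) (GC := G)
      (f := (inc h hb : NL (w * Equiv.swap c c') A J →ₗ[ℂ] NL w A J))
      (g := (LieSubmodule.Quotient.mk' S : NL w A J →ₗ[ℂ] (NL w A J ⧸ S)))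
      (by
        intro mu m hm
        rw [gG_W] at hm ⊢
        exact hm)
      (by
        intro mu m hm
        exact (Grading.mem_quot_W _ _ hst _ _).2 ⟨m, hm, rfl⟩)
      (fun x a => (inc h hb).map_lie x a)
      (fun x b => (LieSubmodule.Quotient.mk' S).map_lie x b)
      (by
        intro x y hxy
        exact Subtype.ext (congrArg (fun z : NL w A J => (z : Fk n)) hxy))
      (LieSubmodule.Quotient.surjective_mk' S)
      (by
        intro a
        exact (LieSubmodule.Quotient.mk_eq_zero' ).2 ⟨a, rfl⟩)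
      (by
        intro b hb0
        obtain ⟨a, ha⟩ := (LieSubmodule.Quotient.mk_eq_zero').1 hb0
        exact ⟨a, ha⟩)
    rw [gG_W, gG_W] at hrs
    exact ⟨_, _, r, s, hrs⟩
  · intro ν q
    refine van_hom (h := ⟨h.mem, h.mem', h.lt⟩) h.adj hGr (grMod_gW _) G.iSup_W
      (iSupIndep_gW (stable_Fnu _ ν)) (chi := -1) (chi' := 0) ?_ (h.centered_F ν) (by norm_num) q
    have e1 : LieModule.toEnd ℂ (nJ J) (NL w A J ⧸ S) (sgl c c' ⟨h.mem, h.mem', h.lt⟩) =
        (LinearMap.range (inc h hb : NL (w * Equiv.swap c c') A J →ₗ[ℂ] NL w A J)).mapQ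
          (LinearMap.range (inc h hb : NL (w * Equiv.swap c c') A J →ₗ[ℂ] NL w A J))
          (eN h w) (range_stable_e hqe) := by
      refine LinearMap.ext fun z => ?_
      obtain ⟨y, rfl⟩ := LieSubmodule.Quotient.surjective_mk' S z
      rfl
    rw [e1]
    exact hcen

end

end Gao
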