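import Pool.Agent.Gao.E2Conc
import Pool.Agent.Gao.ESeqN3

/-!
# Theorem E: the step (E3) (Gao project, MP_b139df_co)

The smallest letter `s = w c ∈ A` passes `b = w c' ∉ A`.
-/

set_option autoImplicit false

namespace Gao

open Finset Module Gao.CE
open Gao.Fam (homW)

noncomputable section

variable {n : ℕ} {w : Equiv.Perm (Fin n)} {A J : Finset (Fin n)} {c c' : Fin n}

lemma FE_congr {J : Finset (Fin n)} {E F : Finset (Fin n × Fin n)} (hE : RC J E) (hF : RC J F)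
    (h : E = F) (ν : Fin n → ℤ) : FE J E hE ν = FE J F hF ν := by
  subst h
  rfl

theorem e3_conc (h : Adj w A J c c') (hs : w c ∈ A) (hb : w c' ∉ A) (hd : HDim3 w A J c c')
    (m3 : M3 w A J c c') (ih : TE (w * Equiv.swap c c') A J) : TE w A J := by
  obtain ⟨C, iC1, iC2, iC3, iC4, iC5, WC, hC, ⟨f1, c1, r1, s1, g1⟩, vC⟩ := exists_C3 h hb hd
  have hE : E0 w A J c c' = Fset (w * Equiv.swap c c') A J := by
    rw [h.E0_eq]
    apply Finset.erase_eq_of_notMem
    rw [mem_Fset]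
    exact fun h1 => hb h1.1
  intro ν
  obtain ⟨f3, c3, r3, s3, g3⟩ := h.gses_w hs ν
  obtain ⟨hV, hN⟩ := e3_single (grLie_nW J) (grMod_gW _) (grMod_gW _) hC (grMod_gW _)
    (grMod_gW _) (grMod_gW _) g1 g3 (fun q => vC ν q) (fun q => h.van_G _ q)
  have hF : FE J (E0 w A J c c') h.RC_E0 ν = FL (w * Equiv.swap c c') A J ν :=
    FE_congr _ _ hE ν
  rw [hF] at hV hN
  refine ⟨fun q => (hV (q + 1)).2 ((ih ν).1 q), ?_⟩
  rw [hN, (ih ν).2, m3 ν]

end

end Gao
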