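import Pool.Agent.Gao.EDef

/-!
# Theorem E: the step (E4) and the empty case (Gao project, MP_b139df_co)

`e4_conc`: `s = w c ∉ A` is smaller than all letters of `J`, so `Dset w (insert s A) J = Dset w A J`, hence the two modules `Nmod` are equal, and
`Fnu (Fset w A J) ν = Fnu (Fset w (insert s A) J) ν` if `ν s = 0`, `Fnu (Fset w A J) ν = ⊥` if `ν s ≠ 0` (no boxes in the row `s`): then
`HV_of_subsingleton` and `hh0 = 0`.
`te_empty`: `J = ∅`: `nJ ∅` is zero, so a cochain of degree `q + 1` is zero; everything is spanned by `ee ∅`; `hh0 = finrank inv0`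
(`h0_eq_finrank_inv0`) is `1` for `ν = 0` and `0` otherwise, like `mdim`.
-/

set_option autoImplicit false

namespace Gao

open Finset Module Gao.CE
open Gao.Fam (homW)

noncomputable section

variable {n : ℕ}

/-- sets of boxes in the rows `insert s A` without box in the row `s` -/
private lemma Fnu_insert {w : Equiv.Perm (Fin n)} {A J : Finset (Fin n)} {s : Fin n}
    (ν : Fin n → ℤ) (hν : ν s = 0) : Fnu (Fset w A J) ν = Fnu (Fset w (insert s A) J) ν := by
  have h : {v : Fk n | ∃ D : Finset (Fin n × Fin n), D ⊆ Fset w A J ∧ rowCnt D = ν ∧ v = Kost.ee D} =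
      {v | ∃ D : Finset (Fin n × Fin n), D ⊆ Fset w (insert s A) J ∧ rowCnt D = ν ∧
        v = Kost.ee D} := by
    ext v
    constructor
    · rintro ⟨D, hD, h1, h2⟩
      refine ⟨D, fun b hb => ?_, h1, h2⟩
      have h3 := hD hb
      rw [mem_Fset] at h3 ⊢
      exact ⟨Finset.mem_insert_of_mem h3.1, h3.2⟩
    · rintro ⟨D, hD, h1, h2⟩
      refine ⟨D, fun b hb => ?_, h1, h2⟩
      have h3 := hD hb
      rw [mem_Fset] at h3 ⊢
      rcases Finset.mem_insert.1 h3.1 with h4 | h4
      · exfalso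
        have h5 : rowCnt D s = 0 := by rw [h1, hν]
        have h6 : 0 < (D.filter (fun b => b.1 = s)).card :=
          Finset.card_pos.2 ⟨b, Finset.mem_filter.2 ⟨hb, h4⟩⟩
        have h7 : ((D.filter (fun b => b.1 = s)).card : ℤ) = 0 := h5
        omega
      · exact ⟨h4, h3.2⟩
  rw [Fnu, Fnu, h]

/-- no boxes in a row outside `A` -/
private lemma Fnu_bot {w : Equiv.Perm (Fin n)} {A J : Finset (Fin n)} {s : Fin n} (hs : s ∉ A)
    (ν : Fin n → ℤ) (hν : ν s ≠ 0) : Fnu (Fset w A J) ν = ⊥ := by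
  have h : {v : Fk n | ∃ D : Finset (Fin n × Fin n), D ⊆ Fset w A J ∧ rowCnt D = ν ∧
      v = Kost.ee D} = ∅ := by
    ext v
    simp only [Set.mem_ofPred_eq, Set.mem_empty_iff_false, iff_false]
    rintro ⟨D, hD, h1, _⟩
    apply hν
    rw [← h1]
    change ((D.filter (fun b => b.1 = s)).card : ℤ) = 0
    rw [Finset.filter_false_of_mem]
    · simp
    · intro b hb h2
      have h3 := hD hb
      rw [mem_Fset] at h3
      exact hs (h2 ▸ h3.1)
  rw [Fnu, h, Submodule.span_empty]

private lemma transport {J : Finset (Fin n)} {X X' Y Y' : LieSubmodule ℂ (nJ J) (Fk n)}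
    (hX : X = X') (hY : Y = Y') {k : ℕ}
    (h : (∀ q, HV (nW J) (homW (gW X') (gW Y')) (q + 1)) ∧ hh0 (nW J) (homW (gW X') (gW Y')) = k) :
    (∀ q, HV (nW J) (homW (gW X) (gW Y)) (q + 1)) ∧ hh0 (nW J) (homW (gW X) (gW Y)) = k := by
  subst hX
  subst hY
  exact h

theorem e4_conc {w : Equiv.Perm (Fin n)} {A J : Finset (Fin n)} {c : Fin n} (hc : c ∈ J)
    (hmin : ∀ j ∈ J, w c ≤ w j) (hs : w c ∉ A) (hm : M4 w A J c)
    (ih : TE w (insert (w c) A) J) : TE w A J := by
  have hD : Dset w (insert (w c) A) J = Dset w A J := by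
    ext b
    rw [mem_Dset, mem_Dset, Finset.mem_insert]
    constructor
    · rintro ⟨h1 | h1, h2, h3, h4⟩
      · exact absurd (hmin b.2 h2) (not_le.2 (h1 ▸ h4))
      · exact ⟨h1, h2, h3, h4⟩
    · rintro ⟨h1, h2, h3, h4⟩
      exact ⟨Or.inr h1, h2, h3, h4⟩
  have hN : NL w A J = NL w (insert (w c) A) J := by
    ext v
    rw [mem_NL, mem_NL, Nmod, Nmod, hD]
  intro ν
  by_cases hν : ν (w c) = 0
  · have hF : FL w A J ν = FL w (insert (w c) A) J ν := by
      ext v
      rw [mem_FL, mem_FL, Fnu_insert ν hν]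
    rw [(hm ν).1 hν]
    exact transport hN hF (ih ν)
  · have hsub : Subsingleton (FL w A J ν) := by
      refine ⟨fun x y => ?_⟩
      have h1 : ∀ v : FL w A J ν, (v : Fk n) = 0 := by
        intro v
        have h2 : (v : Fk n) ∈ Fnu (Fset w A J) ν := mem_FL.1 v.2
        rw [Fnu_bot hs ν hν] at h2
        exact (Submodule.mem_bot ℂ).1 h2
      exact Subtype.ext ((h1 x).trans (h1 y).symm)
    have hsub2 : Subsingleton (NL w A J →ₗ[ℂ] FL w A J ν) :=
      ⟨fun f g => LinearMap.ext fun x => Subsingleton.elim _ _⟩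
    refine ⟨fun q => HV_of_subsingleton _ _, ?_⟩
    rw [(hm ν).2 hν]
    exact h0_eq_finrank_inv0.trans finrank_zero_of_subsingleton

/-- `nJ ∅` is zero -/
private lemma nJ_empty (x : nJ (∅ : Finset (Fin n))) : x = 0 := by
  apply Subtype.ext
  ext l j
  by_contra h
  exact absurd (x.2 l j h).1 (Finset.notMem_empty _)

private lemma gen_empty (v : Fk n) : gen (∅ : Set (Module.End ℂ (Fk n))) v = Submodule.span ℂ {v} := by
  rw [gen, Algebra.adjoin_empty, Algebra.toSubmodule_bot, Submodule.one_eq_span,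
    Submodule.map_span, Set.image_singleton]
  rfl

private lemma colOps_empty : colOps (∅ : Finset (Fin n)) = ∅ := by
  ext T
  simp [colOps]

private lemma rowOps_empty (w : Equiv.Perm (Fin n)) : rowOps w (∅ : Finset (Fin n)) = ∅ := by
  ext T
  simp [rowOps]

private lemma Dset_empty (w : Equiv.Perm (Fin n)) : Dset w ∅ ∅ = ∅ := by
  ext b
  simp [mem_Dset]

private lemma Fset_empty (w : Equiv.Perm (Fin n)) : Fset w ∅ ∅ = ∅ := by
  ext b
  simp [mem_Fset]

private lemma rowCnt_empty : rowCnt (∅ : Finset (Fin n × Fin n)) = 0 := by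
  funext x
  simp [rowCnt]

private lemma colCnt_empty : colCnt (∅ : Finset (Fin n × Fin n)) = 0 := by
  funext x
  simp [colCnt]

private lemma Nmod_empty (w : Equiv.Perm (Fin n)) :
    Nmod w ∅ ∅ = Submodule.span ℂ {(Kost.ee ∅ : Fk n)} := by
  rw [Nmod, colOps_empty, gen_empty, Dset_empty]

private lemma Mmod_empty (w : Equiv.Perm (Fin n)) :
    Mmod w ∅ ∅ ∅ = Submodule.span ℂ {(Kost.ee ∅ : Fk n)} := by
  rw [Mmod, rowOps_empty, gen_empty, Dset_empty]

private lemma Fnu_empty_zero : Fnu (∅ : Finset (Fin n × Fin n)) 0 =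
    Submodule.span ℂ {(Kost.ee ∅ : Fk n)} := by
  have h : {v : Fk n | ∃ D : Finset (Fin n × Fin n), D ⊆ ∅ ∧ rowCnt D = 0 ∧ v = Kost.ee D} =
      {(Kost.ee ∅ : Fk n)} := by
    ext v
    constructor
    · rintro ⟨D, hD, _, h2⟩
      rw [Finset.subset_empty.1 hD] at h2
      exact h2
    · intro h
      exact ⟨∅, Finset.Subset.refl _, rowCnt_empty, h⟩
  rw [Fnu, h]

private lemma Fnu_empty_ne {ν : Fin n → ℤ} (hν : ν ≠ 0) : Fnu (∅ : Finset (Fin n × Fin n)) ν = ⊥ := by
  have h : {v : Fk n | ∃ D : Finset (Fin n × Fin n), D ⊆ ∅ ∧ rowCnt D = ν ∧ v = Kost.ee D} = ∅ := by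
    ext v
    simp only [Set.mem_ofPred_eq, Set.mem_empty_iff_false, iff_false]
    rintro ⟨D, hD, h1, _⟩
    rw [Finset.subset_empty.1 hD, rowCnt_empty] at h1
    exact hν h1.symm
  rw [Fnu, h, Submodule.span_empty]

theorem te_empty (w : Equiv.Perm (Fin n)) : TE w ∅ ∅ := by
  intro ν
  constructor
  · intro q a _ _
    refine ⟨0, Submodule.zero_mem _, ?_⟩
    rw [map_zero]
    symm
    apply eq_zero_of_io
    intro x
    rw [nJ_empty x, io_zero_left]
  · refine h0_eq_finrank_inv0.trans ?_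
    by_cases hν : ν = 0
    · subst hν
      have hm : mdim w ∅ ∅ 0 = 1 := by
        rw [mdim, Mmod_empty, Submodule.map_span, Set.image_singleton]
        have h3 : (rowGr n).π 0 (Kost.ee ∅ : Fk n) = Kost.ee ∅ := by
          change dia _ (Kost.ee ∅) = Kost.ee ∅
          rw [dia_ee, if_pos rowCnt_empty]
        rw [h3]
        exact finrank_span_singleton (Kost.ee_ne_zero _)
      have hN : finrank ℂ (NL w ∅ ∅) = 1 := by
        change finrank ℂ (Nmod w ∅ ∅) = 1
        rw [Nmod_empty]
        exact finrank_span_singleton (Kost.ee_ne_zero _)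
      have hF : finrank ℂ (FL w ∅ ∅ 0) = 1 := by
        change finrank ℂ (Fnu (Fset w ∅ ∅) 0) = 1
        rw [Fset_empty, Fnu_empty_zero]
        exact finrank_span_singleton (Kost.ee_ne_zero _)
      have htop : inv0 (homW (gW (NL w ∅ ∅)) (gW (FL w ∅ ∅ 0))) (nJ (∅ : Finset (Fin n))) = ⊤ := by
        rw [eq_top_iff]
        intro φ _
        constructor
        · intro mu x hx
          rw [mem_gW] at hx ⊢
          rw [add_zero]
          have h1 : ((φ x : FL w ∅ ∅ 0) : Fk n) ∈ Submodule.span ℂ {(Kost.ee ∅ : Fk n)} := by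
            have h2 : ((φ x : FL w ∅ ∅ 0) : Fk n) ∈ Fnu (Fset w ∅ ∅) 0 := mem_FL.1 (φ x).2
            rwa [Fset_empty, Fnu_empty_zero] at h2
          have h3 : (x : Fk n) ∈ Submodule.span ℂ {(Kost.ee ∅ : Fk n)} := by
            have h4 : (x : Fk n) ∈ Nmod w ∅ ∅ := mem_NL.1 x.2
            rwa [Nmod_empty] at h4
          have h0 : (Kost.ee ∅ : Fk n) ∈ (colGr n).W 0 := by
            have := ee_mem_degGr (colCnt (n := n)) ∅
            rwa [colCnt_empty] at this
          have hle : Submodule.span ℂ {(Kost.ee ∅ : Fk n)} ≤ (colGr n).W 0 := by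
            rw [Submodule.span_le, Set.singleton_subset_iff]
            exact h0
          by_cases hmu : mu = 0
          · rw [hmu]
            exact hle h1
          · have h5 : (x : Fk n) = 0 := by
              have h6 := (colGr n).π_of_mem hx
              have h7 := (colGr n).π_of_mem_ne (hle h3) (b := mu) hmu
              rw [← h6, h7]
            have h8 : x = 0 := Subtype.ext h5
            rw [h8, map_zero]
            exact Submodule.zero_mem _
        · intro y
          rw [nJ_empty y, zero_lie]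
      rw [htop, finrank_top, Module.finrank_linearMap, hN, hF, hm]
    · have hsub : Subsingleton (FL w ∅ ∅ ν) := by
        refine ⟨fun x y => ?_⟩
        have h1 : ∀ v : FL w ∅ ∅ ν, (v : Fk n) = 0 := by
          intro v
          have h2 : (v : Fk n) ∈ Fnu (Fset w ∅ ∅) ν := mem_FL.1 v.2
          rw [Fset_empty, Fnu_empty_ne hν] at h2
          exact (Submodule.mem_bot ℂ).1 h2
        exact Subtype.ext ((h1 x).trans (h1 y).symm)
      have hsub2 : Subsingleton (NL w ∅ ∅ →ₗ[ℂ] FL w ∅ ∅ ν) :=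
        ⟨fun f g => LinearMap.ext fun x => Subsingleton.elim _ _⟩
      rw [finrank_zero_of_subsingleton]
      symm
      rw [mdim, Mmod_empty, Submodule.map_span, Set.image_singleton]
      have h3 : (rowGr n).π ν (Kost.ee ∅ : Fk n) = 0 := by
        change dia _ (Kost.ee ∅) = 0
        rw [dia_ee, if_neg]
        rw [rowCnt_empty]
        exact fun h => hν h.symm
      rw [h3, Submodule.span_zero_singleton]
      exact finrank_bot ℂ _

end

end Gao
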