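import Pool.Agent.Gao.CEWeight
import Pool.Agent.Gao.Sl2Alt

/-!
# The steps (E2), (E3) of Theorem E, abstract form (Gao project, MP_b139df_co)

`HV N W q`: `H^q(b, X) = 0`; `hh0`, `hh1`: dimensions of `H^0`, `H^1`.
-/

namespace Gao.CE

open Gao.Fam (homW)

/-- `H^q(b, X) = 0` -/
abbrev HV {K L X Lam : Type*} [Field K] [CharZero K] [LieRing L] [LieAlgebra K L]
    [AddCommGroup X] [Module K X] [LieRingModule L X] [LieModule K L X] [AddCommGroup Lam]
    (N : Lam → Submodule K L) (W : Lam → Submodule K X) (q : ℕ) : Prop :=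
  Van (HH N W) (fun q => d q) q

/-- `dim H^0(b, X)` -/
noncomputable abbrev hh0 {K L X Lam : Type*} [Field K] [CharZero K] [LieRing L] [LieAlgebra K L]
    [AddCommGroup X] [Module K X] [LieRingModule L X] [LieModule K L X] [AddCommGroup Lam]
    (N : Lam → Submodule K L) (W : Lam → Submodule K X) : ℕ :=
  h0 (HH N W) (fun q => d q)

/-- `dim H^1(b, X)` -/
noncomputable abbrev hh1 {K L X Lam : Type*} [Field K] [CharZero K] [LieRing L] [LieAlgebra K L]
    [AddCommGroup X] [Module K X] [LieRingModule L X] [LieModule K L X] [AddCommGroup Lam]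
    (N : Lam → Submodule K L) (W : Lam → Submodule K X) : ℕ :=
  h1 (HH N W) (fun q => d q)

section

variable {K L Lam : Type*} [Field K] [CharZero K] [LieRing L] [LieAlgebra K L]
  [FiniteDimensional K L] [AddCommGroup Lam] {N : Lam → Submodule K L}

section ses

variable {A B C : Type*}
  [AddCommGroup A] [Module K A] [LieRingModule L A] [LieModule K L A]
  [AddCommGroup B] [Module K B] [LieRingModule L B] [LieModule K L B]
  [AddCommGroup C] [Module K C] [LieRingModule L C] [LieModule K L C]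
  [FiniteDimensional K A] [FiniteDimensional K B]
  {WA : Lam → Submodule K A} {WB : Lam → Submodule K B} {WC : Lam → Submodule K C}
  {f : A →ₗ[K] B} {g : B →ₗ[K] C} {r : B →ₗ[K] A} {s : C →ₗ[K] B}

/-- `H^*(C) = 0` ⇒ `A` and `B` have the same cohomology -/
theorem GSES.of_van_right (h : GSES L WA WB WC f g r s) (hN : GrLie N) (hA : GrMod N WA)
    (hB : GrMod N WB) (hC : GrMod N WC) (v : ∀ q, HV N WC q) :
    (∀ q, HV N WA q ↔ HV N WB q) ∧ hh0 N WA = hh0 N WB := by
  have hs := h.split hN hA hB hC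
  refine ⟨fun q => ⟨fun hq => hs.van_B hq (v q), fun hq => ?_⟩, ?_⟩
  · cases q with
    | zero => exact hs.van_A_zero hq
    | succ q => exact hs.van_A (v q) hq
  · have : FiniteDimensional K (Co K L A 0) := Fam.alt_finite
    exact hs.h0_eq_of_van_C (v 0)

/-- `H^*(A) = 0` ⇒ `B` and `C` have the same cohomology -/
theorem GSES.of_van_left (h : GSES L WA WB WC f g r s) (hN : GrLie N) (hA : GrMod N WA)
    (hB : GrMod N WB) (hC : GrMod N WC) (v : ∀ q, HV N WA q) :
    (∀ q, HV N WB q ↔ HV N WC q) ∧ hh0 N WB = hh0 N WC := by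
  have hs := h.split hN hA hB hC
  refine ⟨fun q => ⟨fun hq => hs.van_C (v (q + 1)) hq, fun hq => hs.van_B (v q) hq⟩, ?_⟩
  have : FiniteDimensional K (Co K L B 0) := Fam.alt_finite
  exact hs.h0_eq_of_van_A (v 0) (v 1)

/-- `H^q(B) = 0` for `q ≥ 1` -/
theorem GSES.of_van_mid (h : GSES L WA WB WC f g r s) (hN : GrLie N) (hA : GrMod N WA)
    (hB : GrMod N WB) (hC : GrMod N WC) (v : ∀ q, HV N WB (q + 1)) :
    (∀ q, HV N WC (q + 1) ↔ HV N WA (q + 2)) ∧
      hh0 N WB + hh1 N WA = hh0 N WA + hh0 N WC := by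
  have hs := h.split hN hA hB hC
  refine ⟨fun q => ⟨fun hq => hs.van_A hq (v (q + 1)), fun hq => hs.van_C hq (v q)⟩, ?_⟩
  have : FiniteDimensional K (Co K L A 0) := Fam.alt_finite
  have : FiniteDimensional K (Co K L A 1) := Fam.alt_finite
  have : FiniteDimensional K (Co K L B 0) := Fam.alt_finite
  exact hs.h0_formula (v 0)

/-- acyclic submodule and acyclic module: the quotient is acyclic -/
theorem GSES.acyclic_quot (h : GSES L WA WB WC f g r s) (hN : GrLie N) (hA : GrMod N WA)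
    (hB : GrMod N WB) (hC : GrMod N WC) (vA : ∀ q, HV N WA (q + 1))
    (vB : ∀ q, HV N WB (q + 1)) (q : ℕ) : HV N WC (q + 1) :=
  (h.split hN hA hB hC).van_C (vA (q + 1)) (vB q)

end ses

section iso

variable {X Y : Type*}
  [AddCommGroup X] [Module K X] [LieRingModule L X] [LieModule K L X]
  [AddCommGroup Y] [Module K Y] [LieRingModule L Y] [LieModule K L Y]
  {WX : Lam → Submodule K X} {WY : Lam → Submodule K Y}

/-- a graded isomorphism of modules -/
structure GIso (L : Type*) [LieRing L] [LieAlgebra K L] [LieRingModule L X] [LieModule K L X]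
    [LieRingModule L Y] [LieModule K L Y] (WX : Lam → Submodule K X) (WY : Lam → Submodule K Y)
    (f : X →ₗ[K] Y) (g : Y →ₗ[K] X) : Prop where
  fW : ∀ mu, ∀ m ∈ WX mu, f m ∈ WY mu
  gW : ∀ mu, ∀ m ∈ WY mu, g m ∈ WX mu
  gf : ∀ a, g (f a) = a
  fg : ∀ a, f (g a) = a
  fl : ∀ (x : L) (a : X), f ⁅x, a⁆ = ⁅x, f a⁆

variable {f : X →ₗ[K] Y} {g : Y →ₗ[K] X}

omit [CharZero K] [FiniteDimensional K L] [AddCommGroup Lam] in
theorem GIso.symm (h : GIso L WX WY f g) : GIso L WY WX g f where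
  fW := h.gW
  gW := h.fW
  gf := h.fg
  fg := h.gf
  fl x a := by
    have h1 := h.fl x (g a)
    rw [h.fg] at h1
    rw [← h1, h.gf]

theorem GIso.isoCx (h : GIso L WX WY f g) (hN : GrLie N) (hX : GrMod N WX) (hY : GrMod N WY) :
    IsoCx (HH N WX) (HH N WY) (fun q => d q) (fun q => d q) (fun q => post f q)
      (fun q => post g q) where
  cA := isCx hN hX
  cB := isCx hN hY
  fm _ _ ha := post_mem_CW h.fW ha
  rm _ _ ha := post_mem_CW h.gW ha
  rf q φ _ := by ext v; exact h.gf _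
  fr q φ _ := by ext v; exact h.fg _
  fd q φ _ := d_post h.fl φ

theorem GIso.van_iff (h : GIso L WX WY f g) (hN : GrLie N) (hX : GrMod N WX) (hY : GrMod N WY)
    (q : ℕ) : HV N WX q ↔ HV N WY q :=
  (h.isoCx hN hX hY).van_iff q

theorem GIso.hh0_eq [FiniteDimensional K X] (h : GIso L WX WY f g) (hN : GrLie N)
    (hX : GrMod N WX) (hY : GrMod N WY) : hh0 N WX = hh0 N WY := by
  have : FiniteDimensional K (Co K L X 0) := Fam.alt_finite
  exact (h.isoCx hN hX hY).h0_eq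

theorem GIso.hh1_eq [FiniteDimensional K X] (h : GIso L WX WY f g) (hN : GrLie N)
    (hX : GrMod N WX) (hY : GrMod N WY) : hh1 N WX = hh1 N WY := by
  have : FiniteDimensional K (Co K L X 0) := Fam.alt_finite
  have : FiniteDimensional K (Co K L X 1) := Fam.alt_finite
  exact (h.isoCx hN hX hY).h1_eq

omit [CharZero K] [FiniteDimensional K L] in
theorem GIso.shift (h : GIso L WX WY f g) (mu : Lam) :
    GIso L (shiftW WX mu) (shiftW WY mu) f g where
  fW _ _ hm := h.fW _ _ hm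
  gW _ _ hm := h.gW _ _ hm
  gf := h.gf
  fg := h.fg
  fl := h.fl

variable {S : Type*} [AddCommGroup S] [Module K S] [LieRingModule L S] [LieModule K L S]

omit [CharZero K] [FiniteDimensional K L] in
/-- `Hom(S, X) ≅ Hom(S, Y)` -/
theorem GIso.homRight (h : GIso L WX WY f g) (WS : Lam → Submodule K S) :
    GIso L (homW WS WX) (homW WS WY) (LinearMap.llcomp K S X Y f)
      (LinearMap.llcomp K S Y X g) where
  fW mu φ hφ nu m hm := h.fW _ _ (hφ nu m hm)
  gW mu φ hφ nu m hm := h.gW _ _ (hφ nu m hm)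
  gf φ := by ext m; exact h.gf _
  fg φ := by ext m; exact h.fg _
  fl x φ := by
    ext m
    change f (⁅x, φ⁆ m) = ⁅x, f ∘ₗ φ⁆ m
    rw [LieHom.lie_apply, LieHom.lie_apply, LinearMap.comp_apply, LinearMap.comp_apply, map_sub,
      h.fl]

omit [CharZero K] [FiniteDimensional K L] in
/-- `Hom(Y, S) ≅ Hom(X, S)` -/
theorem GIso.homLeft (h : GIso L WX WY f g) (WS : Lam → Submodule K S) :
    GIso L (homW WY WS) (homW WX WS) (LinearMap.lcomp K S f) (LinearMap.lcomp K S g) where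
  fW mu φ hφ nu m hm := hφ nu _ (h.fW nu m hm)
  gW mu φ hφ nu m hm := hφ nu _ (h.gW nu m hm)
  gf φ := by ext m; exact congrArg φ (h.fg m)
  fg φ := by ext m; exact congrArg φ (h.gf m)
  fl x φ := by
    ext m
    change ⁅x, φ⁆ (f m) = ⁅x, φ ∘ₗ f⁆ m
    rw [LieHom.lie_apply, LieHom.lie_apply, LinearMap.comp_apply, LinearMap.comp_apply, h.fl]

end iso

end

/-! ### numbers indexed by `nu : I → ℤ` -/

section num

variable {I : Type*} [DecidableEq I] {s b : I}

lemma swap_add_single (nu : I → ℤ) :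
    (nu + Pi.single s 1) ∘ Equiv.swap s b = nu ∘ Equiv.swap s b + Pi.single b 1 := by
  funext i
  simp only [Function.comp_apply, Pi.add_apply]
  congr 1
  by_cases h : i = b
  · subst h
    rw [Equiv.swap_apply_right, Pi.single_eq_same, Pi.single_eq_same]
  · rw [Pi.single_eq_of_ne h, Pi.single_eq_of_ne]
    intro h2
    have h3 : Equiv.swap s b (Equiv.swap s b i) = Equiv.swap s b s := congrArg _ h2
    rw [Equiv.swap_apply_self, Equiv.swap_apply_left] at h3
    exact h h3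

lemma swap_sub_single (nu : I → ℤ) :
    (nu ∘ Equiv.swap s b) - Pi.single s 1 = (nu - Pi.single b 1) ∘ Equiv.swap s b := by
  funext i
  simp only [Function.comp_apply, Pi.sub_apply]
  congr 1
  by_cases h : i = s
  · subst h
    rw [Equiv.swap_apply_left, Pi.single_eq_same, Pi.single_eq_same]
  · rw [Pi.single_eq_of_ne h, Pi.single_eq_of_ne]
    intro h2
    have h3 : Equiv.swap s b (Equiv.swap s b i) = Equiv.swap s b b := congrArg _ h2
    rw [Equiv.swap_apply_self, Equiv.swap_apply_right] at h3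
    exact h h3

/-- propagation along `nu ↦ nu + eps_s - eps_b` until the entry at `b` is negative -/
lemma descent (hsb : s ≠ b) (c : (I → ℤ) → Prop)
    (step : ∀ nu, c (nu + Pi.single s 1 - Pi.single b 1) → c nu)
    (neg : ∀ nu, nu b < 0 → c nu) : ∀ nu, c nu := by
  have key : ∀ (k : ℕ) (nu : I → ℤ), nu b < k → c nu := by
    intro k
    induction k with
    | zero => intro nu h; exact neg nu (by simpa using h)
    | succ k ih =>
      intro nu h
      apply step
      apply ih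
      simp only [Pi.sub_apply, Pi.add_apply, Pi.single_eq_same, Pi.single_eq_of_ne hsb.symm]
      push_cast at h
      omega
  intro nu
  exact key ((nu b).toNat + 1) nu (by push_cast; omega)

/-- the vanishing part of (E2) -/
theorem vanish_Z (hsb : s ≠ b) {a c : (I → ℤ) → Prop} (h : ∀ nu, a (nu + Pi.single s 1) ↔ c nu)
    (sa : ∀ nu, a nu → a (nu ∘ Equiv.swap s b)) (sc : ∀ nu, c nu → c (nu ∘ Equiv.swap s b))
    (neg : ∀ nu, nu b < 0 → c nu) : ∀ nu, c nu := by
  refine descent hsb c (fun nu hnu => ?_) neg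
  rw [← h]
  have hinv : ∀ nu : I → ℤ, (nu ∘ Equiv.swap s b) ∘ Equiv.swap s b = nu := by
    intro nu
    funext i
    simp
  rw [← hinv (nu + Pi.single s 1)]
  apply sa
  -- `a (s (nu + eps_s)) = a (s nu + eps_b) = a ((s nu + eps_b - eps_s) + eps_s)`
  have h1 : (nu + Pi.single s 1) ∘ Equiv.swap s b =
      (nu ∘ Equiv.swap s b + Pi.single b 1 - Pi.single s 1) + Pi.single s 1 := by
    rw [swap_add_single]
    abel
  rw [h1, h]
  have h2 : nu ∘ Equiv.swap s b + Pi.single b 1 - Pi.single s 1 =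
      (nu + Pi.single s 1 - Pi.single b 1) ∘ Equiv.swap s b := by
    rw [← swap_sub_single, swap_add_single]
  rw [h2]
  exact sc _ hnu

omit [DecidableEq I] in
/-- the recursion in degree zero -/
theorem num_rec_Z [DecidableEq I] {f g a0 a1 : (I → ℤ) → ℕ}
    (h : ∀ nu, f nu + a1 nu = a0 nu + g (nu - Pi.single s 1))
    (s0 : ∀ nu, a0 nu = a0 (nu ∘ Equiv.swap s b)) (s1 : ∀ nu, a1 nu = a1 (nu ∘ Equiv.swap s b))
    (sg : ∀ nu, g nu = g (nu ∘ Equiv.swap s b)) (nu : I → ℤ) :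
    f nu + g (nu - Pi.single b 1) = f (nu ∘ Equiv.swap s b) + g (nu - Pi.single s 1) := by
  have h1 := h nu
  have h2 := h (nu ∘ Equiv.swap s b)
  have h3 := s0 nu
  have h4 := s1 nu
  have h5 := sg (nu - Pi.single b 1)
  rw [swap_sub_single, ← h5, ← h3, ← h4] at h2
  omega

/-- the recursion determines the numbers -/
theorem num_unique_Z (hsb : s ≠ b) {f g m : (I → ℤ) → ℕ}
    (hg : ∀ nu, f nu + g (nu - Pi.single b 1) = f (nu ∘ Equiv.swap s b) + g (nu - Pi.single s 1))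
    (hm : ∀ nu, f nu + m (nu - Pi.single b 1) = f (nu ∘ Equiv.swap s b) + m (nu - Pi.single s 1))
    (ng : ∀ nu, nu b < 0 → g nu = 0) (nm : ∀ nu, nu b < 0 → m nu = 0) : ∀ nu, g nu = m nu := by
  refine descent hsb _ (fun nu hnu => ?_) (fun nu h => by rw [ng nu h, nm nu h])
  have h1 := hg (nu + Pi.single s 1)
  have h2 := hm (nu + Pi.single s 1)
  have h3 : nu + Pi.single s 1 - Pi.single s 1 = nu := by abel
  rw [h3] at h1 h2
  omega

end num

/-! ### (E3) and (E2) -/

section steps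

variable {K L Lam : Type*} [Field K] [CharZero K] [LieRing L] [LieAlgebra K L]
  [FiniteDimensional K L] [AddCommGroup Lam] {N : Lam → Submodule K L}
  {Sm Sn Im P C F F' G : Type*}
  [AddCommGroup Sm] [Module K Sm] [LieRingModule L Sm] [LieModule K L Sm] [FiniteDimensional K Sm]
  [AddCommGroup Sn] [Module K Sn] [LieRingModule L Sn] [LieModule K L Sn] [FiniteDimensional K Sn]
  [AddCommGroup Im] [Module K Im] [LieRingModule L Im] [LieModule K L Im] [FiniteDimensional K Im]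
  [AddCommGroup P] [Module K P] [LieRingModule L P] [LieModule K L P] [FiniteDimensional K P]
  [AddCommGroup C] [Module K C] [LieRingModule L C] [LieModule K L C] [FiniteDimensional K C]
  [AddCommGroup F] [Module K F] [LieRingModule L F] [LieModule K L F] [FiniteDimensional K F]
  [AddCommGroup F'] [Module K F'] [LieRingModule L F'] [LieModule K L F']
  [FiniteDimensional K F']
  [AddCommGroup G] [Module K G] [LieRingModule L G] [LieModule K L G] [FiniteDimensional K G]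
  {WSm : Lam → Submodule K Sm} {WSn : Lam → Submodule K Sn} {WIm : Lam → Submodule K Im}
  {WP : Lam → Submodule K P} {WC : Lam → Submodule K C} {WF : Lam → Submodule K F}
  {WF' : Lam → Submodule K F'} {WG : Lam → Submodule K G} {eps : Lam}

/-- `Hom(K_eps ⊗ X, K_eps ⊗ Y) = Hom(X, Y)` -/
lemma homW_shift (WX : Lam → Submodule K Sm) (WY : Lam → Submodule K F) (eps : Lam) :
    homW (shiftW WX eps) (shiftW WY eps) = homW WX WY := by
  funext lam
  ext φ
  constructor
  · intro h mu x hx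
    have h1 := h (mu + eps) x (by
      change x ∈ WX (mu + eps - eps)
      rwa [add_sub_cancel_right])
    change φ x ∈ WY (mu + eps + lam - eps) at h1
    have h2 : mu + eps + lam - eps = mu + lam := by abel
    rwa [h2] at h1
  · intro h mu x hx
    have h1 := h (mu - eps) x hx
    change φ x ∈ WY (mu + lam - eps)
    have h2 : mu + lam - eps = mu - eps + lam := by abel
    rwa [h2]

/-- **(E3)**: `Sn → Sm → C`, `F' → F → K_eps ⊗ G`, with `Hom(C, F')` and `Hom(Sm, K_eps ⊗ G)`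
acyclic in all degrees -/
theorem e3_single {f1 : Sn →ₗ[K] Sm} {c1 : Sm →ₗ[K] C} {r1 : Sm →ₗ[K] Sn} {s1 : C →ₗ[K] Sm}
    {f3 : F' →ₗ[K] F} {c3 : F →ₗ[K] G} {r3 : F →ₗ[K] F'} {s3 : G →ₗ[K] F}
    (hN : GrLie N) (hSm : GrMod N WSm) (hSn : GrMod N WSn) (hC : GrMod N WC) (hF : GrMod N WF)
    (hF' : GrMod N WF') (hG : GrMod N WG)
    (g1 : GSES L WSn WSm WC f1 c1 r1 s1) (g3 : GSES L WF' WF (shiftW WG eps) f3 c3 r3 s3)
    (vC : ∀ q, HV N (homW WC WF') q) (vG : ∀ q, HV N (homW WSm (shiftW WG eps)) q) :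
    (∀ q, HV N (homW WSm WF) q ↔ HV N (homW WSn WF') q) ∧
      hh0 N (homW WSm WF) = hh0 N (homW WSn WF') := by
  obtain ⟨v1, n1⟩ := (g3.homRight WSm).of_van_right hN (hSm.hom hF') (hSm.hom hF)
    (hSm.hom (hG.shift eps)) vG
  obtain ⟨v2, n2⟩ := (g1.homLeft WF').of_van_left hN (hC.hom hF') (hSm.hom hF') (hSn.hom hF') vC
  exact ⟨fun q => (v1 q).symm.trans (v2 q), n1.symm.trans n2⟩

/-- **(E2), first part**: `Im → Sm → C`, `P → Sn → K_eps ⊗ Im`, `F' → F → K_eps ⊗ G` -/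
theorem e2_single {f1 : Im →ₗ[K] Sm} {c1 : Sm →ₗ[K] C} {r1 : Sm →ₗ[K] Im} {s1 : C →ₗ[K] Sm}
    {f2 : P →ₗ[K] Sn} {c2 : Sn →ₗ[K] Im} {r2 : Sn →ₗ[K] P} {s2 : Im →ₗ[K] Sn}
    {f3 : F' →ₗ[K] F} {c3 : F →ₗ[K] G} {r3 : F →ₗ[K] F'} {s3 : G →ₗ[K] F}
    (hN : GrLie N) (hSm : GrMod N WSm) (hSn : GrMod N WSn) (hIm : GrMod N WIm)
    (hP : GrMod N WP) (hC : GrMod N WC) (hF : GrMod N WF) (hF' : GrMod N WF') (hG : GrMod N WG)
    (g1 : GSES L WIm WSm WC f1 c1 r1 s1) (g2 : GSES L WP WSn (shiftW WIm eps) f2 c2 r2 s2)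
    (g3 : GSES L WF' WF (shiftW WG eps) f3 c3 r3 s3)
    (vC : ∀ q, HV N (homW WC WF') q) (vP : ∀ q, HV N (homW WP (shiftW WF' eps)) q)
    (vG : ∀ q, HV N (homW WSm (shiftW WG eps)) q) :
    (∀ q, HV N (homW WSm WF) q ↔ HV N (homW WSn (shiftW WF' eps)) q) ∧
      hh0 N (homW WSm WF) = hh0 N (homW WSn (shiftW WF' eps)) := by
  obtain ⟨v1, n1⟩ := (g3.homRight WSm).of_van_right hN (hSm.hom hF') (hSm.hom hF)
    (hSm.hom (hG.shift eps)) vG
  obtain ⟨v2, n2⟩ := (g1.homLeft WF').of_van_left hN (hC.hom hF') (hSm.hom hF') (hIm.hom hF') vC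
  obtain ⟨v3, n3⟩ := (g2.homLeft (shiftW WF' eps)).of_van_right hN
    ((hIm.shift eps).hom (hF'.shift eps)) (hSn.hom (hF'.shift eps)) (hP.hom (hF'.shift eps)) vP
  rw [homW_shift] at v3 n3
  exact ⟨fun q => (v1 q).symm.trans ((v2 q).trans (v3 q)), n1.symm.trans (n2.trans n3)⟩

end steps

section family

variable {K L Lam : Type*} [Field K] [CharZero K] [LieRing L] [LieAlgebra K L]
  [FiniteDimensional K L] [AddCommGroup Lam] {N : Lam → Submodule K L}

omit [FiniteDimensional K L] in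
/-- a zero module has no cohomology -/
theorem HV_of_subsingleton {X : Type*} [AddCommGroup X] [Module K X] [LieRingModule L X]
    [LieModule K L X] [Subsingleton X] (W : Lam → Submodule K X) (q : ℕ) : HV N W q := by
  cases q with
  | zero =>
    intro a _ _
    ext v
    exact Subsingleton.elim _ _
  | succ q =>
    intro a _ _
    refine ⟨0, Submodule.zero_mem _, ?_⟩
    ext v
    exact Subsingleton.elim _ _

variable {Sm Sn Im P C : Type*}
  [AddCommGroup Sm] [Module K Sm] [LieRingModule L Sm] [LieModule K L Sm] [FiniteDimensional K Sm]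
  [AddCommGroup Sn] [Module K Sn] [LieRingModule L Sn] [LieModule K L Sn] [FiniteDimensional K Sn]
  [AddCommGroup Im] [Module K Im] [LieRingModule L Im] [LieModule K L Im] [FiniteDimensional K Im]
  [AddCommGroup P] [Module K P] [LieRingModule L P] [LieModule K L P] [FiniteDimensional K P]
  [AddCommGroup C] [Module K C] [LieRingModule L C] [LieModule K L C] [FiniteDimensional K C]
  {WSm : Lam → Submodule K Sm} {WSn : Lam → Submodule K Sn} {WIm : Lam → Submodule K Im}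
  {WP : Lam → Submodule K P} {WC : Lam → Submodule K C} {eps : Lam}
  {I : Type*} [DecidableEq I] {s b : I} {F F' : (I → ℤ) → Type*}
  [∀ nu, AddCommGroup (F nu)] [∀ nu, Module K (F nu)] [∀ nu, LieRingModule L (F nu)]
  [∀ nu, LieModule K L (F nu)] [∀ nu, FiniteDimensional K (F nu)]
  [∀ nu, AddCommGroup (F' nu)] [∀ nu, Module K (F' nu)] [∀ nu, LieRingModule L (F' nu)]
  [∀ nu, LieModule K L (F' nu)] [∀ nu, FiniteDimensional K (F' nu)]
  {WF : ∀ nu, Lam → Submodule K (F nu)} {WF' : ∀ nu, Lam → Submodule K (F' nu)}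

/-- **(E2)**: the induction step from `w s_c` to `w` (both letters `s`, `b` in `A`) -/
theorem e2_family {f1 : Im →ₗ[K] Sm} {c1 : Sm →ₗ[K] C} {r1 : Sm →ₗ[K] Im} {s1 : C →ₗ[K] Sm}
    {f2 : P →ₗ[K] Sn} {c2 : Sn →ₗ[K] Im} {r2 : Sn →ₗ[K] P} {s2 : Im →ₗ[K] Sn}
    {f3 : ∀ nu, F' nu →ₗ[K] F nu} {c3 : ∀ nu, F nu →ₗ[K] F' (nu - Pi.single s 1)}
    {r3 : ∀ nu, F nu →ₗ[K] F' nu} {s3 : ∀ nu, F' (nu - Pi.single s 1) →ₗ[K] F nu}
    {t : ∀ nu, F' nu →ₗ[K] F' (nu ∘ Equiv.swap s b)}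
    {t' : ∀ nu, F' (nu ∘ Equiv.swap s b) →ₗ[K] F' nu}
    (hsb : s ≠ b) (hN : GrLie N) (hSm : GrMod N WSm) (hSn : GrMod N WSn) (hIm : GrMod N WIm)
    (hP : GrMod N WP) (hC : GrMod N WC) (hF : ∀ nu, GrMod N (WF nu))
    (hF' : ∀ nu, GrMod N (WF' nu))
    (g1 : GSES L WIm WSm WC f1 c1 r1 s1) (g2 : GSES L WP WSn (shiftW WIm eps) f2 c2 r2 s2)
    (g3 : ∀ nu, GSES L (WF' nu) (WF nu) (shiftW (WF' (nu - Pi.single s 1)) eps) (f3 nu) (c3 nu)
      (r3 nu) (s3 nu))
    (sw : ∀ nu, GIso L (WF' nu) (WF' (nu ∘ Equiv.swap s b)) (t nu) (t' nu))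
    (neg : ∀ nu, nu b < 0 → Subsingleton (F nu))
    (vC : ∀ nu q, HV N (homW WC (WF' nu)) q)
    (vP : ∀ nu q, HV N (homW WP (shiftW (WF' nu) eps)) q)
    (vG : ∀ nu q, HV N (homW WSm (shiftW (WF' nu) eps)) q)
    (ih : ∀ nu q, HV N (homW WSn (WF nu)) (q + 1)) :
    (∀ nu q, HV N (homW WSm (WF nu)) (q + 1)) ∧
      ∀ nu, hh0 N (homW WSn (WF nu)) + hh0 N (homW WSm (WF (nu - Pi.single b 1))) =
        hh0 N (homW WSn (WF (nu ∘ Equiv.swap s b))) +
          hh0 N (homW WSm (WF (nu - Pi.single s 1))) := by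
  have e1 : ∀ nu, (∀ q, HV N (homW WSm (WF nu)) q ↔ HV N (homW WSn (shiftW (WF' nu) eps)) q) ∧
      hh0 N (homW WSm (WF nu)) = hh0 N (homW WSn (shiftW (WF' nu) eps)) := fun nu =>
    e2_single hN hSm hSn hIm hP hC (hF nu) (hF' nu) (hF' _) g1 g2 (g3 nu) (vC nu) (vP nu) (vG _)
  have e2 : ∀ nu, (∀ q, HV N (homW WSn (shiftW (WF' (nu - Pi.single s 1)) eps)) (q + 1) ↔
      HV N (homW WSn (WF' nu)) (q + 2)) ∧
      hh0 N (homW WSn (WF nu)) + hh1 N (homW WSn (WF' nu)) = hh0 N (homW WSn (WF' nu)) +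
        hh0 N (homW WSn (shiftW (WF' (nu - Pi.single s 1)) eps)) := fun nu =>
    ((g3 nu).homRight WSn).of_van_mid hN (hSn.hom (hF' nu)) (hSn.hom (hF nu))
      (hSn.hom ((hF' _).shift eps)) (ih nu)
  have e3 : ∀ nu q, HV N (homW WSn (WF' nu)) q ↔
      HV N (homW WSn (WF' (nu ∘ Equiv.swap s b))) q := fun nu q =>
    ((sw nu).homRight WSn).van_iff hN (hSn.hom (hF' nu)) (hSn.hom (hF' _)) q
  have e4 : ∀ nu q, HV N (homW WSn (shiftW (WF' nu) eps)) q ↔
      HV N (homW WSn (shiftW (WF' (nu ∘ Equiv.swap s b)) eps)) q := fun nu q =>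
    (((sw nu).shift eps).homRight WSn).van_iff hN (hSn.hom ((hF' nu).shift eps))
      (hSn.hom ((hF' _).shift eps)) q
  constructor
  · intro nu q
    refine vanish_Z hsb (a := fun nu => HV N (homW WSn (WF' nu)) (q + 2))
      (c := fun nu => HV N (homW WSm (WF nu)) (q + 1)) (fun nu => ?_) (fun nu h => ?_)
      (fun nu h => ?_) (fun nu h => ?_) nu
    · have h1 := (e2 (nu + Pi.single s 1)).1 q
      have h2 : nu + Pi.single s 1 - Pi.single s 1 = nu := by abel
      rw [h2] at h1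
      exact h1.symm.trans ((e1 nu).1 (q + 1)).symm
    · exact (e3 nu (q + 2)).1 h
    · exact ((e1 _).1 (q + 1)).2 ((e4 nu (q + 1)).1 (((e1 nu).1 (q + 1)).1 h))
    · have := neg nu h
      have : Subsingleton (Sm →ₗ[K] F nu) := ⟨fun φ ψ => by
        ext m
        exact Subsingleton.elim _ _⟩
      exact HV_of_subsingleton _ _
  · intro nu
    refine num_rec_Z (f := fun nu => hh0 N (homW WSn (WF nu)))
      (g := fun nu => hh0 N (homW WSm (WF nu))) (a0 := fun nu => hh0 N (homW WSn (WF' nu)))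
      (a1 := fun nu => hh1 N (homW WSn (WF' nu))) (fun nu => ?_) (fun nu => ?_) (fun nu => ?_)
      (fun nu => ?_) nu
    · have h1 := (e2 nu).2
      have h2 := (e1 (nu - Pi.single s 1)).2
      rw [h2]
      exact h1
    · exact ((sw nu).homRight WSn).hh0_eq hN (hSn.hom (hF' nu)) (hSn.hom (hF' _))
    · exact ((sw nu).homRight WSn).hh1_eq hN (hSn.hom (hF' nu)) (hSn.hom (hF' _))
    · rw [(e1 nu).2, (e1 (nu ∘ Equiv.swap s b)).2]
      exact (((sw nu).shift eps).homRight WSn).hh0_eq hN (hSn.hom ((hF' nu).shift eps))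
        (hSn.hom ((hF' _).shift eps))

end family

end Gao.CE
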