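import Pool.Agent.Gao.EMod
import Pool.Agent.Gao.EStep
import Pool.Agent.Gao.PartS
import Pool.Agent.Gao.CEGr
import Pool.Agent.Gao.CEL1
import Pool.Agent.Gao.CERed

/-!
# Theorem E, concrete form: definitions (Gao project, MP_b139df_co)

* `NL w A J`: the module `Nmod w A J` as a Lie submodule of the Fock space;
* `RC J E`: `E` is closed under moving boxes to the right inside `J`; `FE J E hE ν`: `Fnu E ν` as a Lie
  submodule; `FL w A J ν` for `E = Fset w A J`;
* `TE w A J`: the statement of Theorem E for `w, A, J` and all `ν`;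
* `Adj w J c c'`: `c < c'` neighbours in `J`, `w c` the smallest letter of `J`.
-/

set_option autoImplicit false

namespace Gao

open Finset Module Gao.CE
open Gao.Fam (homW)

attribute [local instance 100] LieRing.ofAssociativeRing

noncomputable section

variable {n : ℕ}

instance finiteDimensional_nJ (J : Finset (Fin n)) : FiniteDimensional ℂ (nJ J) :=
  inferInstanceAs (FiniteDimensional ℂ (nJ J).toSubmodule)

/-- `Nmod w A J` as a Lie submodule -/
def NL (w : Equiv.Perm (Fin n)) (A J : Finset (Fin n)) : LieSubmodule ℂ (nJ J) (Fk n) :=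
  lsub J (Nmod w A J) (fun _ hT _ hv => gen_stable hT hv)

/-- `Smod` as a Lie submodule -/
def SL (w : Equiv.Perm (Fin n)) (A J : Finset (Fin n)) (c c' : Fin n) :
    LieSubmodule ℂ (nJ J) (Fk n) :=
  lsub J (Smod w A J c c') (fun _ hT _ hv => gen_stable hT hv)

/-- `E` is closed under moving boxes to the right inside `J` -/
def RC (J : Finset (Fin n)) (E : Finset (Fin n × Fin n)) : Prop :=
  ∀ x, ∀ j ∈ J, ∀ l ∈ J, j < l → (x, j) ∈ E → (x, l) ∈ E

lemma RC_Fset (w : Equiv.Perm (Fin n)) (A J : Finset (Fin n)) : RC J (Fset w A J) := by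
  intro x j hj l hl hjl h
  rw [mem_Fset] at h ⊢
  exact ⟨h.1, hl, h.2.2.trans hjl⟩

lemma Fnu_le_Fall (E : Finset (Fin n × Fin n)) (ν : Fin n → ℤ) : Fnu E ν ≤ Fall E := by
  apply Submodule.span_mono
  rintro _ ⟨D, hD, _, rfl⟩
  exact ⟨D, hD, rfl⟩

/-- `Fnu E ν` is the part of row content `ν` of `Fall E` -/
lemma Fnu_eq (E : Finset (Fin n × Fin n)) (ν : Fin n → ℤ) :
    Fnu E ν = Fall E ⊓ (rowGr n).W ν := by
  apply le_antisymm
  · refine le_inf (Fnu_le_Fall E ν) ?_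
    rw [Fnu, Submodule.span_le]
    rintro _ ⟨D, _, hν, rfl⟩
    rw [← hν]
    exact ee_mem_W rowCnt D
  · rintro v ⟨hv, hν⟩
    rw [← (rowGr n).π_of_mem hν]
    refine map_mem_of_Fall (P := Fnu E ν) (T := (rowGr n).π ν) (fun D hD => ?_) hv
    change dia _ (Kost.ee D) ∈ _
    rw [dia_ee]
    split_ifs with h
    · exact Submodule.subset_span ⟨D, hD, h, rfl⟩
    · exact Submodule.zero_mem _

lemma ee_mem_Fnu {E D : Finset (Fin n × Fin n)} (h : D ⊆ E) : Kost.ee D ∈ Fnu E (rowCnt D) :=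
  Submodule.subset_span ⟨D, h, rfl, rfl⟩

lemma colE_mem_Fnu {E : Finset (Fin n × Fin n)} {ν : Fin n → ℤ} {j l : Fin n}
    (h : ∀ x, (x, j) ∈ E → (x, l) ∈ E) {v : Fk n} (hv : v ∈ Fnu E ν) : colE j l v ∈ Fnu E ν := by
  rw [Fnu_eq] at hv ⊢
  refine ⟨colE_mem_Fall h hv.1, ?_⟩
  have h1 := (hom_colE_row j l).raises ν v hv.2
  rwa [add_zero] at h1

/-- `Fnu E ν` as a Lie submodule -/
def FE (J : Finset (Fin n)) (E : Finset (Fin n × Fin n)) (hE : RC J E) (ν : Fin n → ℤ) :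
    LieSubmodule ℂ (nJ J) (Fk n) :=
  lsub J (Fnu E ν) (by
    rintro _ ⟨j, hj, l, hl, hjl, rfl⟩ v hv
    exact colE_mem_Fnu (fun x hx => hE x j hj l hl hjl hx) hv)

/-- `Fnu (Fset w A J) ν` as a Lie submodule -/
def FL (w : Equiv.Perm (Fin n)) (A J : Finset (Fin n)) (ν : Fin n → ℤ) :
    LieSubmodule ℂ (nJ J) (Fk n) := FE J (Fset w A J) (RC_Fset w A J) ν

lemma mem_NL {w : Equiv.Perm (Fin n)} {A J : Finset (Fin n)} {v : Fk n} :
    v ∈ NL w A J ↔ v ∈ Nmod w A J := Iff.rfl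

lemma mem_SL {w : Equiv.Perm (Fin n)} {A J : Finset (Fin n)} {c c' : Fin n} {v : Fk n} :
    v ∈ SL w A J c c' ↔ v ∈ Smod w A J c c' := Iff.rfl

lemma mem_FE {J : Finset (Fin n)} {E : Finset (Fin n × Fin n)} {hE : RC J E} {ν : Fin n → ℤ}
    {v : Fk n} : v ∈ FE J E hE ν ↔ v ∈ Fnu E ν := Iff.rfl

lemma mem_FL {w : Equiv.Perm (Fin n)} {A J : Finset (Fin n)} {ν : Fin n → ℤ} {v : Fk n} :
    v ∈ FL w A J ν ↔ v ∈ Fnu (Fset w A J) ν := Iff.rfl

/-- **Theorem E** for `w, A, J` -/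
def TE (w : Equiv.Perm (Fin n)) (A J : Finset (Fin n)) : Prop :=
  ∀ ν : Fin n → ℤ,
    (∀ q, HV (nW J) (homW (gW (NL w A J)) (gW (FL w A J ν))) (q + 1)) ∧
      hh0 (nW J) (homW (gW (NL w A J)) (gW (FL w A J ν))) = mdim w A J ν

/-- `c < c'` are neighbours in `J` and the letter at `c` is the smallest letter of `J` -/
structure Adj (w : Equiv.Perm (Fin n)) (A J : Finset (Fin n)) (c c' : Fin n) : Prop where
  lt : c < c'
  mem : c ∈ J
  mem' : c' ∈ J
  adj : ∀ j ∈ J, ¬ (c < j ∧ j < c')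
  min : ∀ j ∈ J, w c ≤ w j
  AJ : ∀ x ∈ A, w.symm x ∈ J

lemma Adj.sData {w : Equiv.Perm (Fin n)} {A J : Finset (Fin n)} {c c' : Fin n}
    (h : Adj w A J c c') (hb : w c' ∈ A) : SData w A J c c' :=
  ⟨h.lt, h.mem, h.mem', h.adj, h.min, hb, h.AJ⟩

/-- the simple root -/
def al (c c' : Fin n) : Fin n → ℤ := Pi.single c' 1 - Pi.single c 1

/-- the common part `F'` of `Fset w A J` and `Fset (w * swap c c') A J` -/
def E0 (w : Equiv.Perm (Fin n)) (A J : Finset (Fin n)) (c c' : Fin n) :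
    Finset (Fin n × Fin n) := (Fset w A J).erase (w c, c')

section Adj

variable {w : Equiv.Perm (Fin n)} {A J : Finset (Fin n)} {c c' : Fin n}

lemma Adj.ne (h : Adj w A J c c') : c ≠ c' := ne_of_lt h.lt

lemma Adj.w_lt (h : Adj w A J c c') : w c < w c' :=
  lt_of_le_of_ne (h.min c' h.mem') (fun h' => h.ne (w.injective h'))

/-- elements of `J` before `c'` are `≤ c` -/
lemma Adj.le_of_lt (h : Adj w A J c c') {j : Fin n} (hj : j ∈ J) (hjc : j < c') : j ≤ c := by
  by_contra hc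
  exact h.adj j hj ⟨not_le.1 hc, hjc⟩

/-- elements of `J` after `c` are `≥ c'` -/
lemma Adj.ge_of_gt (h : Adj w A J c c') {j : Fin n} (hj : j ∈ J) (hjc : c < j) : c' ≤ j := by
  by_contra hc
  exact h.adj j hj ⟨hjc, not_le.1 hc⟩

/-- membership in `E0` -/
lemma Adj.mem_E0 (h : Adj w A J c c') {b : Fin n × Fin n} : b ∈ E0 w A J c c' ↔
    b.1 ∈ A ∧ b.2 ∈ J ∧ w.symm b.1 < b.2 ∧ b ≠ (w c, c') := by
  rw [E0, Finset.mem_erase, mem_Fset]
  tauto

/-- `E0` is also the common part seen from `w * swap c c'` -/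
lemma Adj.E0_eq (h : Adj w A J c c') :
    E0 w A J c c' = (Fset (w * Equiv.swap c c') A J).erase (w c', c') := by
  ext ⟨x, j⟩
  rw [h.mem_E0, Finset.mem_erase, mem_Fset, SData.symm_swap]
  simp only [ne_eq, Prod.mk.injEq, not_and]
  have hne := h.ne
  by_cases hxc : x = w c
  · subst hxc
    rw [w.symm_apply_apply, Equiv.swap_apply_left]
    constructor
    · rintro ⟨h1, h2, h3, h4⟩
      have h5 := h.ge_of_gt h2 h3
      have h6 : j ≠ c' := h4 rfl
      exact ⟨fun h7 => absurd (w.injective h7) hne, h1, h2, lt_of_le_of_ne h5 (Ne.symm h6)⟩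
    · rintro ⟨_, h1, h2, h3⟩
      exact ⟨h1, h2, h.lt.trans h3, fun _ => ne_of_gt h3⟩
  · by_cases hxc' : x = w c'
    · subst hxc'
      rw [w.symm_apply_apply, Equiv.swap_apply_right]
      constructor
      · rintro ⟨h1, h2, h3, _⟩
        exact ⟨fun _ => ne_of_gt h3, h1, h2, h.lt.trans h3⟩
      · rintro ⟨h4, h1, h2, h3⟩
        have h5 := h.ge_of_gt h2 h3
        have h6 : j ≠ c' := h4 rfl
        exact ⟨h1, h2, lt_of_le_of_ne h5 (Ne.symm h6), fun h7 => absurd h7 hxc⟩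
    · rw [Equiv.swap_apply_of_ne_of_ne]
      · constructor
        · rintro ⟨h1, h2, h3, _⟩
          exact ⟨fun h7 => absurd h7 hxc', h1, h2, h3⟩
        · rintro ⟨_, h1, h2, h3⟩
          exact ⟨h1, h2, h3, fun h7 => absurd h7 hxc⟩
      · intro h7
        exact hxc (by rw [← h7, w.apply_symm_apply])
      · intro h7
        exact hxc' (by rw [← h7, w.apply_symm_apply])

/-- `E0` is closed under moving boxes to the right -/
lemma Adj.RC_E0 (h : Adj w A J c c') : RC J (E0 w A J c c') := by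
  intro x j hj l hl hjl hx
  rw [h.mem_E0] at hx ⊢
  obtain ⟨h1, _, h3, h4⟩ := hx
  refine ⟨h1, hl, h3.trans hjl, ?_⟩
  rintro h5
  simp only [Prod.mk.injEq] at h5
  obtain ⟨rfl, rfl⟩ := h5
  rw [w.symm_apply_apply] at h3
  exact h.adj j hj ⟨h3, hjl⟩

/-- the columns `c` and `c'` of `E0` are equal -/
lemma Adj.E0_col (h : Adj w A J c c') (x : Fin n) :
    (x, c) ∈ E0 w A J c c' ↔ (x, c') ∈ E0 w A J c c' := by
  rw [h.mem_E0, h.mem_E0]
  simp only [ne_eq, Prod.mk.injEq, not_and]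
  constructor
  · rintro ⟨h1, _, h3, _⟩
    refine ⟨h1, h.mem', h3.trans h.lt, ?_⟩
    rintro rfl
    rw [w.symm_apply_apply] at h3
    exact absurd h3 (lt_irrefl _)
  · rintro ⟨h1, _, h3, h4⟩
    have h5 : w.symm x ≤ c := h.le_of_lt (h.AJ x h1) h3
    have h6 : w.symm x ≠ c := by
      intro h7
      exact h4 (by rw [← h7, w.apply_symm_apply]) trivial
    exact ⟨h1, h.mem, lt_of_le_of_ne h5 h6, fun _ h8 => absurd h8 h.ne⟩

/-- the rows `s = w c` and `b = w c'` of `E0` are equal (if both letters are in `A`) -/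
lemma Adj.E0_row (h : Adj w A J c c') (hs : w c ∈ A) (hb : w c' ∈ A) (j : Fin n) :
    (w c, j) ∈ E0 w A J c c' ↔ (w c', j) ∈ E0 w A J c c' := by
  rw [h.mem_E0, h.mem_E0]
  simp only [ne_eq, Prod.mk.injEq, not_and, w.symm_apply_apply]
  constructor
  · rintro ⟨_, h2, h3, h4⟩
    exact ⟨hb, h2, lt_of_le_of_ne (h.ge_of_gt h2 h3) (Ne.symm (h4 trivial)),
      fun h5 => absurd (w.injective h5) h.ne.symm⟩
  · rintro ⟨_, h2, h3, _⟩
    exact ⟨hs, h2, h.lt.trans h3, fun _ => ne_of_gt h3⟩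

end Adj

/-- the grading of a Lie submodule by the column content, as a `Grading` -/
def gG {J : Finset (Fin n)} (X : LieSubmodule ℂ (nJ J) (Fk n))
    (hX : (colGr n).Stable (X : Submodule ℂ (Fk n))) : Grading ℂ X (Fin n → ℤ) :=
  (colGr n).restrict (X : Submodule ℂ (Fk n)) hX

lemma gG_W {J : Finset (Fin n)} (X : LieSubmodule ℂ (nJ J) (Fk n))
    (hX : (colGr n).Stable (X : Submodule ℂ (Fk n))) : (gG X hX).W = gW X := by
  funext a
  ext x
  exact (colGr n).mem_restrict_W _ hX a x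

lemma stable_Fnu (E : Finset (Fin n × Fin n)) (ν : Fin n → ℤ) : (colGr n).Stable (Fnu E ν) := by
  intro a x hx
  have hle : Fnu E ν ≤ (Fnu E ν).comap ((colGr n).π a) := by
    rw [Fnu, Submodule.span_le]
    rintro _ ⟨D, hD, hν, rfl⟩
    change dia _ (Kost.ee D) ∈ Submodule.span ℂ _
    rw [dia_ee]
    split_ifs
    · exact Submodule.subset_span ⟨D, hD, hν, rfl⟩
    · exact Submodule.zero_mem _
  exact hle hx

/-! ### the numerical inputs -/

/-- indicator of a set of letters -/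
def ind (A : Finset (Fin n)) : Fin n → ℤ := fun x => if x ∈ A then 1 else 0

/-- (m1): the smallest letter `w c ∈ A` stands at the last position `c` of `J` -/
def M1 (w : Equiv.Perm (Fin n)) (A J : Finset (Fin n)) (c : Fin n) : Prop :=
  ∀ ν : Fin n → ℤ, (ν (w c) = 0 → mdim w A J ν =
      mdim w (A.erase (w c)) (J.erase c) (ν - ind (A.erase (w c)))) ∧
    (ν (w c) ≠ 0 → mdim w A J ν = 0)

/-- (m2): the smallest letter `s = w c ∈ A` passes `b = w c' ∈ A` -/
def M2 (w : Equiv.Perm (Fin n)) (A J : Finset (Fin n)) (c c' : Fin n) : Prop :=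
  ∀ ν : Fin n → ℤ, mdim (w * Equiv.swap c c') A J ν + mdim w A J (ν - Pi.single (w c) 1) =
    mdim (w * Equiv.swap c c') A J (ν ∘ Equiv.swap (w c) (w c')) +
      mdim w A J (ν - Pi.single (w c') 1)

/-- (m3): the smallest letter `s = w c ∈ A` passes `b = w c' ∉ A` -/
def M3 (w : Equiv.Perm (Fin n)) (A J : Finset (Fin n)) (c c' : Fin n) : Prop :=
  ∀ ν : Fin n → ℤ, mdim w A J ν = mdim (w * Equiv.swap c c') A J ν

/-- (m4): the smallest letter `s = w c ∉ A` -/
def M4 (w : Equiv.Perm (Fin n)) (A J : Finset (Fin n)) (c : Fin n) : Prop :=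
  ∀ ν : Fin n → ℤ, (ν (w c) = 0 → mdim w A J ν = mdim w (insert (w c) A) J ν) ∧
    (ν (w c) ≠ 0 → mdim w A J ν = 0)

/-- the dimension identity used by `partS` -/
def HDim (w : Equiv.Perm (Fin n)) (A J : Finset (Fin n)) (c c' : Fin n) : Prop :=
  ∀ (a : Fin n → ℤ) (k : ℕ), a c' - a c = k →
      finrank ℂ ((colGr n).W a ⊓ Nmod w A J : Submodule ℂ (Fk n)) +
        finrank ℂ ((colGr n).W (a - (k + 1) • (Pi.single c' 1 - Pi.single c 1) + Pi.single c' 1) ⊓
          Nmod (w * Equiv.swap c c') A J : Submodule ℂ (Fk n)) =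
      finrank ℂ ((colGr n).W (a + Pi.single c' 1) ⊓
          Nmod (w * Equiv.swap c c') A J : Submodule ℂ (Fk n)) +
        finrank ℂ ((colGr n).W (a + (Pi.single c' 1 - Pi.single c 1)) ⊓
          Nmod w A J : Submodule ℂ (Fk n))

/-- the dimension identity for `b = w c' ∉ A` -/
def HDim3 (w : Equiv.Perm (Fin n)) (A J : Finset (Fin n)) (c c' : Fin n) : Prop :=
  ∀ (a : Fin n → ℤ) (k : ℕ), a c' - a c = k →
      finrank ℂ ((colGr n).W a ⊓ Nmod w A J : Submodule ℂ (Fk n)) +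
        finrank ℂ ((colGr n).W (a - (k + 1) • (Pi.single c' 1 - Pi.single c 1)) ⊓
          Nmod (w * Equiv.swap c c') A J : Submodule ℂ (Fk n)) =
      finrank ℂ ((colGr n).W a ⊓
          Nmod (w * Equiv.swap c c') A J : Submodule ℂ (Fk n)) +
        finrank ℂ ((colGr n).W (a + (Pi.single c' 1 - Pi.single c 1)) ⊓
          Nmod w A J : Submodule ℂ (Fk n))

end

end Gao
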