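import Pool.Agent.Gao.EDef
import Pool.Agent.Gao.MSide

/-!
# Theorem E: from the `ν`-parts to the whole module `Fall (Fset w A J)` (Gao project, MP_b139df_co)

`Fall E` is the direct sum of the `Fnu E ν` (finitely many nonzero), as a graded module over `nJ J` (`rowGr` commutes with
the action and with `colGr`); `HH` of a finite direct sum: apply the projections `post (π ν)` to a cocycle, or induct with
`GSES` over the finitely many `ν` (a submodule `Fnu E ν` is a direct summand). `hh0` is additive, and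
`∑ ν, mdim w A J ν = finrank (Mmod w A A J)` because `Mmod` is stable under `rowGr`. For `ν` outside the finite support both
sides are zero.
-/

set_option autoImplicit false

namespace Gao

open Finset Module Gao.CE
open Gao.Fam (homW)

noncomputable section

namespace EFall

section abs

variable {ι K L X Lam : Type*} [Fintype ι] {Y : ι → Type*} [Field K] [CharZero K] [LieRing L]
  [LieAlgebra K L] [AddCommGroup X] [Module K X] [LieRingModule L X] [LieModule K L X]
  [∀ i, AddCommGroup (Y i)] [∀ i, Module K (Y i)] [∀ i, LieRingModule L (Y i)]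
  [∀ i, LieModule K L (Y i)] [AddCommGroup Lam]
  {N : Lam → Submodule K L} {WX : Lam → Submodule K X} {WY : ∀ i, Lam → Submodule K (Y i)}
  {p : ∀ i, X →ₗ[K] Y i} {s : ∀ i, Y i →ₗ[K] X}

/-- cohomology of a finite direct sum -/
theorem van_of_decomp (pW : ∀ i mu, ∀ m ∈ WX mu, p i m ∈ WY i mu)
    (sW : ∀ i mu, ∀ m ∈ WY i mu, s i m ∈ WX mu) (hsum : ∀ x, ∑ i, s i (p i x) = x)
    (pl : ∀ i (x : L) (m : X), p i ⁅x, m⁆ = ⁅x, p i m⁆)
    (sl : ∀ i (x : L) (m : Y i), s i ⁅x, m⁆ = ⁅x, s i m⁆) (q : ℕ)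
    (h : ∀ i, HV N (WY i) (q + 1)) : HV N WX (q + 1) := by
  intro φ hφ hd
  have h1 : ∀ i, ∃ ψ ∈ HH N (WY i) q, d q ψ = post (p i) (q + 1) φ := by
    intro i
    refine h i _ (post_mem_CW (pW i) hφ) ?_
    change d (q + 1) (post (p i) (q + 1) φ) = 0
    rw [← d_post (pl i)]
    change d (q + 1) φ = 0 at hd
    rw [hd, map_zero]
  choose ψ hψ hdψ using h1
  refine ⟨∑ i, post (s i) q (ψ i), Submodule.sum_mem _ fun i _ => post_mem_CW (sW i) (hψ i), ?_⟩
  change d q (∑ i, post (s i) q (ψ i)) = φ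
  rw [map_sum]
  have h2 : ∀ i, d q (post (s i) q (ψ i)) = post (s i) (q + 1) (post (p i) (q + 1) φ) := by
    intro i
    rw [← d_post (sl i), hdψ]
  simp_rw [h2]
  ext v
  let ev : Co K L X (q + 1) →+ X :=
    { toFun := fun f => f v
      map_zero' := rfl
      map_add' := fun _ _ => rfl }
  exact (map_sum ev _ _).trans (hsum (φ v))

omit [CharZero K] in
/-- invariants of a finite direct sum -/
theorem finrank_inv0_of_decomp [∀ i, FiniteDimensional K (Y i)]
    (pW : ∀ i mu, ∀ m ∈ WX mu, p i m ∈ WY i mu)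
    (sW : ∀ i mu, ∀ m ∈ WY i mu, s i m ∈ WX mu) (hsum : ∀ x, ∑ i, s i (p i x) = x)
    (pl : ∀ i (x : L) (m : X), p i ⁅x, m⁆ = ⁅x, p i m⁆)
    (sl : ∀ i (x : L) (m : Y i), s i ⁅x, m⁆ = ⁅x, s i m⁆)
    (ps : ∀ i (y : Y i), p i (s i y) = y) (ps0 : ∀ i j (y : Y j), i ≠ j → p i (s j y) = 0) :
    finrank K (inv0 WX L) = ∑ i, finrank K (inv0 (WY i) L) := by
  classical
  let e : (inv0 WX L) ≃ₗ[K] (∀ i, inv0 (WY i) L) :=
    { toFun := fun x i => ⟨p i x, pW i 0 _ x.2.1, fun l => by
        rw [← pl, x.2.2, map_zero]⟩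
      map_add' := fun x y => by
        funext i
        exact Subtype.ext (map_add (p i) _ _)
      map_smul' := fun c x => by
        funext i
        exact Subtype.ext (map_smul (p i) c _)
      invFun := fun y => ⟨∑ i, s i (y i), Submodule.sum_mem _ fun i _ => sW i 0 _ (y i).2.1,
        fun l => by
          have h1 : ⁅l, ∑ i, s i (y i : Y i)⁆ = ∑ i, ⁅l, s i (y i : Y i)⁆ :=
            map_sum (LieModule.toEnd K L X l) _ _
          rw [h1]
          refine Finset.sum_eq_zero fun i _ => ?_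
          rw [← sl, (y i).2.2, map_zero]⟩
      left_inv := fun x => Subtype.ext (hsum x)
      right_inv := fun y => by
        funext i
        refine Subtype.ext ?_
        change p i (∑ j, s j (y j : Y j)) = y i
        rw [map_sum, Finset.sum_eq_single i]
        · exact ps i _
        · intro j _ hj
          exact ps0 i j _ (Ne.symm hj)
        · intro h
          exact absurd (Finset.mem_univ _) h }
  rw [e.finrank_eq, Module.finrank_pi_fintype]

end abs

variable {n : ℕ}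

/-- row and column projections commute -/
lemma row_col (ν mu : Fin n → ℤ) : (rowGr n).π ν * (colGr n).π mu =
    (colGr n).π mu * (rowGr n).π ν := by
  refine Kost.end_ext fun D => ?_
  rw [Module.End.mul_apply, Module.End.mul_apply]
  change dia _ (dia _ (Kost.ee D)) = dia _ (dia _ (Kost.ee D))
  rw [dia_ee, dia_ee]
  by_cases h1 : colCnt D = mu <;> by_cases h2 : rowCnt D = ν <;> simp [h1, h2, dia_ee]

lemma row_mem_W {ν mu : Fin n → ℤ} {v : Fk n} (hv : v ∈ (colGr n).W mu) :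
    (rowGr n).π ν v ∈ (colGr n).W mu := by
  rw [(colGr n).mem_W] at hv ⊢
  rw [← Module.End.mul_apply, ← row_col, Module.End.mul_apply, hv]

lemma row_lie {J : Finset (Fin n)} (ν : Fin n → ℤ) (x : nJ J) (v : Fk n) :
    (rowGr n).π ν ⁅x, v⁆ = ⁅x, (rowGr n).π ν v⁆ := by
  refine comm_lie (X := ⊤) (fun j _ l _ _ v _ => ?_) x trivial
  have h := colE_hom_row j l ν
  rw [add_zero] at h
  exact (congrArg (fun T : Module.End ℂ (Fk n) => T v) h).symm

lemma row_mem_Fnu {E : Finset (Fin n × Fin n)} {ν : Fin n → ℤ} {v : Fk n} (hv : v ∈ Fall E) :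
    (rowGr n).π ν v ∈ Fnu E ν := by
  refine map_mem_of_Fall (P := Fnu E ν) (T := (rowGr n).π ν) (fun D hD => ?_) hv
  change dia _ (Kost.ee D) ∈ _
  rw [dia_ee]
  split_ifs with h
  · exact Submodule.subset_span ⟨D, hD, h, rfl⟩
  · exact Submodule.zero_mem _

end EFall

open EFall

variable {n : ℕ}

/-- `Fall (Fset w A J)` as a Lie submodule -/
def FAL (w : Equiv.Perm (Fin n)) (A J : Finset (Fin n)) : LieSubmodule ℂ (nJ J) (Fk n) :=
  lsub J (Fall (Fset w A J)) (by
    rintro _ ⟨j, hj, l, hl, hjl, rfl⟩ v hv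
    exact colE_mem_Fall (fun x hx => RC_Fset w A J x j hj l hl hjl hx) hv)

namespace EFall

/-- the projection of `FAL` to `FL ν` -/
def pr (w : Equiv.Perm (Fin n)) (A J : Finset (Fin n)) (ν : Fin n → ℤ) :
    FAL w A J →ₗ[ℂ] FL w A J ν :=
  LinearMap.codRestrict (FL w A J ν : Submodule ℂ (Fk n))
    ((rowGr n).π ν ∘ₗ (FAL w A J : Submodule ℂ (Fk n)).subtype)
    (fun v => row_mem_Fnu v.2)

/-- the inclusion of `FL ν` -/
def ic (w : Equiv.Perm (Fin n)) (A J : Finset (Fin n)) (ν : Fin n → ℤ) :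
    FL w A J ν →ₗ[ℂ] FAL w A J :=
  LinearMap.codRestrict (FAL w A J : Submodule ℂ (Fk n))
    (FL w A J ν : Submodule ℂ (Fk n)).subtype (fun v => Fnu_le_Fall _ _ v.2)

lemma pr_coe (w : Equiv.Perm (Fin n)) (A J : Finset (Fin n)) (ν : Fin n → ℤ) (v : FAL w A J) :
    (pr w A J ν v : Fk n) = (rowGr n).π ν v := rfl

lemma ic_coe (w : Equiv.Perm (Fin n)) (A J : Finset (Fin n)) (ν : Fin n → ℤ)
    (v : FL w A J ν) : (ic w A J ν v : Fk n) = v := rfl

lemma mem_row {w : Equiv.Perm (Fin n)} {A J : Finset (Fin n)} {ν : Fin n → ℤ}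
    (v : FL w A J ν) : (v : Fk n) ∈ (rowGr n).W ν := by
  have h : (v : Fk n) ∈ Fnu (Fset w A J) ν := v.2
  rw [Fnu_eq] at h
  exact h.2

/-- the dimension of a subspace stable under the projections of a grading -/
theorem finrank_stable {K V Λ : Type*} [Field K] [AddCommGroup V] [Module K V]
    [FiniteDimensional K V] [DecidableEq Λ] (G : Grading K V Λ) (M : Submodule K V)
    (hM : ∀ a, ∀ x ∈ M, G.π a x ∈ M) :
    ∑ a : G.supp, finrank K (M.map (G.π (a : Λ))) = finrank K M := by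
  classical
  let e : M ≃ₗ[K] (∀ a : G.supp, M.map (G.π (a : Λ))) :=
    { toFun := fun x a => ⟨G.π (a : Λ) x, Submodule.mem_map_of_mem x.2⟩
      map_add' := fun x y => by
        funext a
        exact Subtype.ext (map_add (G.π (a : Λ)) _ _)
      map_smul' := fun c x => by
        funext a
        exact Subtype.ext (map_smul (G.π (a : Λ)) c _)
      invFun := fun y => ⟨∑ a, (y a : V), Submodule.sum_mem _ fun a _ => by
        obtain ⟨x, hx, hxy⟩ := (y a).2
        rw [← hxy]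
        exact hM _ x hx⟩
      left_inv := fun x => Subtype.ext (by
        change ∑ a : G.supp, G.π (a : Λ) (x : V) = x
        rw [Finset.sum_coe_sort G.supp (fun a => G.π a (x : V))]
        exact G.sum_apply _)
      right_inv := fun y => by
        funext a
        refine Subtype.ext ?_
        change G.π (a : Λ) (∑ b : G.supp, (y b : V)) = y a
        have hy : ∀ b : G.supp, (y b : V) ∈ G.W (b : Λ) := by
          intro b
          obtain ⟨x, hx, hxy⟩ := (y b).2
          rw [← hxy]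
          exact G.π_mem _ x
        rw [map_sum, Finset.sum_eq_single a]
        · exact G.π_of_mem (hy a)
        · intro b _ hb
          exact G.π_of_mem_ne (hy b) (fun h => hb (Subtype.ext h.symm))
        · intro h
          exact absurd (Finset.mem_univ _) h }
  rw [e.finrank_eq, Module.finrank_pi_fintype]

end EFall

theorem te_fall {w : Equiv.Perm (Fin n)} {A J : Finset (Fin n)} (h : TE w A J) :
    (∀ q, HV (nW J) (homW (gW (NL w A J)) (gW (FAL w A J))) (q + 1)) ∧
      hh0 (nW J) (homW (gW (NL w A J)) (gW (FAL w A J))) = finrank ℂ (Mmod w A A J) := by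
  have pW : ∀ (ν : (rowGr n).supp) (mu : Fin n → ℤ),
      ∀ m ∈ homW (gW (NL w A J)) (gW (FAL w A J)) mu,
      LinearMap.llcomp ℂ (NL w A J) (FAL w A J) (FL w A J ν) (pr w A J ν) m ∈
        homW (gW (NL w A J)) (gW (FL w A J ν)) mu := by
    intro ν mu φ hφ lam m hm
    exact row_mem_W (hφ lam m hm)
  have sW : ∀ (ν : (rowGr n).supp) (mu : Fin n → ℤ),
      ∀ m ∈ homW (gW (NL w A J)) (gW (FL w A J ν)) mu,
      LinearMap.llcomp ℂ (NL w A J) (FL w A J ν) (FAL w A J) (ic w A J ν) m ∈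
        homW (gW (NL w A J)) (gW (FAL w A J)) mu := by
    intro ν mu φ hφ lam m hm
    exact hφ lam m hm
  have hsum : ∀ φ : NL w A J →ₗ[ℂ] FAL w A J, ∑ ν : (rowGr n).supp,
      LinearMap.llcomp ℂ (NL w A J) (FL w A J ν) (FAL w A J) (ic w A J ν)
        (LinearMap.llcomp ℂ (NL w A J) (FAL w A J) (FL w A J ν) (pr w A J ν) φ) = φ := by
    intro φ
    ext m : 1
    apply Subtype.ext
    rw [LinearMap.sum_apply]
    have h1 : ((∑ ν : (rowGr n).supp, (LinearMap.llcomp ℂ (NL w A J) (FL w A J ν) (FAL w A J)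
        (ic w A J ν) (LinearMap.llcomp ℂ (NL w A J) (FAL w A J) (FL w A J ν) (pr w A J ν) φ)) m :
        FAL w A J) : Fk n) = ∑ ν : (rowGr n).supp, (rowGr n).π ν (φ m : Fk n) :=
      map_sum (FAL w A J : Submodule ℂ (Fk n)).subtype _ _
    rw [h1, Finset.sum_coe_sort (rowGr n).supp (fun a => (rowGr n).π a (φ m : Fk n))]
    exact (rowGr n).sum_apply _
  have prl : ∀ (ν : Fin n → ℤ) (x : nJ J) (m : FAL w A J), pr w A J ν ⁅x, m⁆ =
      ⁅x, pr w A J ν m⁆ := fun ν x m => Subtype.ext (row_lie ν x (m : Fk n))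
  have icl : ∀ (ν : Fin n → ℤ) (x : nJ J) (m : FL w A J ν), ic w A J ν ⁅x, m⁆ =
      ⁅x, ic w A J ν m⁆ := fun ν x m => rfl
  have pl : ∀ (ν : (rowGr n).supp) (x : nJ J) (φ : NL w A J →ₗ[ℂ] FAL w A J),
      LinearMap.llcomp ℂ (NL w A J) (FAL w A J) (FL w A J ν) (pr w A J ν) ⁅x, φ⁆ =
      ⁅x, LinearMap.llcomp ℂ (NL w A J) (FAL w A J) (FL w A J ν) (pr w A J ν) φ⁆ := by
    intro ν x φ
    ext m : 1
    change pr w A J ν (⁅x, φ⁆ m) = ⁅x, pr w A J ν ∘ₗ φ⁆ m
    rw [LieHom.lie_apply, LieHom.lie_apply, LinearMap.comp_apply, LinearMap.comp_apply, map_sub,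
      prl]
  have sl : ∀ (ν : (rowGr n).supp) (x : nJ J) (φ : NL w A J →ₗ[ℂ] FL w A J ν),
      LinearMap.llcomp ℂ (NL w A J) (FL w A J ν) (FAL w A J) (ic w A J ν) ⁅x, φ⁆ =
      ⁅x, LinearMap.llcomp ℂ (NL w A J) (FL w A J ν) (FAL w A J) (ic w A J ν) φ⁆ := by
    intro ν x φ
    ext m : 1
    change ic w A J ν (⁅x, φ⁆ m) = ⁅x, ic w A J ν ∘ₗ φ⁆ m
    rw [LieHom.lie_apply, LieHom.lie_apply, LinearMap.comp_apply, LinearMap.comp_apply, map_sub,
      icl]
  have ps : ∀ (ν : (rowGr n).supp) (φ : NL w A J →ₗ[ℂ] FL w A J ν),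
      LinearMap.llcomp ℂ (NL w A J) (FAL w A J) (FL w A J ν) (pr w A J ν)
        (LinearMap.llcomp ℂ (NL w A J) (FL w A J ν) (FAL w A J) (ic w A J ν) φ) = φ := by
    intro ν φ
    ext m : 1
    exact Subtype.ext ((rowGr n).π_of_mem (mem_row (φ m)))
  have ps0 : ∀ (ν ν' : (rowGr n).supp) (φ : NL w A J →ₗ[ℂ] FL w A J ν'), ν ≠ ν' →
      LinearMap.llcomp ℂ (NL w A J) (FAL w A J) (FL w A J ν) (pr w A J ν)
        (LinearMap.llcomp ℂ (NL w A J) (FL w A J ν') (FAL w A J) (ic w A J ν') φ) = 0 := by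
    intro ν ν' φ hne
    ext m : 1
    exact Subtype.ext ((rowGr n).π_of_mem_ne (mem_row (φ m)) (fun h => hne (Subtype.ext h)))
  constructor
  · intro q
    exact van_of_decomp (p := fun ν : (rowGr n).supp =>
        LinearMap.llcomp ℂ (NL w A J) (FAL w A J) (FL w A J ν) (pr w A J ν))
      (s := fun ν : (rowGr n).supp =>
        LinearMap.llcomp ℂ (NL w A J) (FL w A J ν) (FAL w A J) (ic w A J ν))
      pW sW hsum pl sl q (fun ν => (h ν).1 q)
  · change h0 _ _ = _
    rw [h0_eq_finrank_inv0]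
    rw [finrank_inv0_of_decomp (p := fun ν : (rowGr n).supp =>
        LinearMap.llcomp ℂ (NL w A J) (FAL w A J) (FL w A J ν) (pr w A J ν))
      (s := fun ν : (rowGr n).supp =>
        LinearMap.llcomp ℂ (NL w A J) (FL w A J ν) (FAL w A J) (ic w A J ν))
      pW sW hsum pl sl ps ps0]
    rw [← finrank_stable (rowGr n) (Mmod w A A J) (gen_row_stable_row w A (Dset w A J))]
    refine Finset.sum_congr rfl fun ν _ => ?_
    rw [← h0_eq_finrank_inv0 (N := nW J)]
    exact (h ν).2

end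

end Gao
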