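import Pool.Agent.Gao.Sl2C

/-!
# Hom modules: exactness, equivariance, weights (Gao project, MP_b139df_co)

`hPost S f : Hom(S, X) → Hom(S, Y)` and `hPre f X : Hom(T, X) → Hom(S, X)`.
-/

namespace Gao.CE

open Gao.Fam

section lin

variable {K S T U X Y Z : Type*} [Field K] [AddCommGroup S] [Module K S] [AddCommGroup T]
  [Module K T] [AddCommGroup U] [Module K U] [AddCommGroup X] [Module K X] [AddCommGroup Y]
  [Module K Y] [AddCommGroup Z] [Module K Z]

/-- composition with `f` on the left -/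
def hPost (S : Type*) [AddCommGroup S] [Module K S] (f : X →ₗ[K] Y) :
    (S →ₗ[K] X) →ₗ[K] (S →ₗ[K] Y) where
  toFun φ := f ∘ₗ φ
  map_add' φ ψ := by ext x; simp
  map_smul' c φ := by ext x; simp

/-- composition with `f` on the right -/
def hPre (f : S →ₗ[K] T) (X : Type*) [AddCommGroup X] [Module K X] :
    (T →ₗ[K] X) →ₗ[K] (S →ₗ[K] X) where
  toFun φ := φ ∘ₗ f
  map_add' φ ψ := by ext x; simp
  map_smul' c φ := by ext x; simp

@[simp] lemma hPost_apply (f : X →ₗ[K] Y) (φ : S →ₗ[K] X) (s : S) :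
    hPost S f φ s = f (φ s) := rfl

@[simp] lemma hPre_apply (f : S →ₗ[K] T) (φ : T →ₗ[K] X) (s : S) :
    hPre f X φ s = φ (f s) := rfl

lemma hPost_injective (f : X →ₗ[K] Y) (hf : Function.Injective f) :
    Function.Injective (hPost S f) := by
  intro φ ψ h
  ext s
  exact hf (congrArg (fun u : S →ₗ[K] Y => u s) h)

lemma hPost_surjective (f : X →ₗ[K] Y) (hf : Function.Surjective f) :
    Function.Surjective (hPost S f) := by
  intro φ
  obtain ⟨g, hg⟩ := f.exists_rightInverse_of_surjective (LinearMap.range_eq_top.2 hf)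
  refine ⟨g ∘ₗ φ, ?_⟩
  ext s
  exact congrArg (fun u : Y →ₗ[K] Y => u (φ s)) hg

lemma hPost_exact (f : X →ₗ[K] Y) (g : Y →ₗ[K] Z) (h : Function.Exact f g) :
    Function.Exact (hPost S f) (hPost S g) := by
  intro φ
  constructor
  · intro hφ
    have h1 : ∀ s, φ s ∈ LinearMap.range f := fun s =>
      (h (φ s)).1 (congrArg (fun u : S →ₗ[K] Z => u s) hφ)
    obtain ⟨r, hr⟩ := f.rangeRestrict.exists_rightInverse_of_surjective f.range_rangeRestrict
    refine ⟨r ∘ₗ φ.codRestrict (LinearMap.range f) h1, ?_⟩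
    ext s
    have h2 := congrArg (fun u : _ →ₗ[K] _ => u (φ.codRestrict (LinearMap.range f) h1 s)) hr
    exact congrArg Subtype.val h2
  · rintro ⟨ψ, rfl⟩
    ext s
    exact h.apply_apply_eq_zero (ψ s)

lemma hPre_injective (f : S →ₗ[K] T) (hf : Function.Surjective f) :
    Function.Injective (hPre f X) := by
  intro φ ψ h
  ext t
  obtain ⟨s, rfl⟩ := hf t
  exact congrArg (fun u : S →ₗ[K] X => u s) h

lemma hPre_surjective (f : S →ₗ[K] T) (hf : Function.Injective f) :
    Function.Surjective (hPre f X) := by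
  intro φ
  obtain ⟨g, hg⟩ := f.exists_leftInverse_of_injective (LinearMap.ker_eq_bot.2 hf)
  refine ⟨φ ∘ₗ g, ?_⟩
  ext s
  exact congrArg φ (congrArg (fun u : S →ₗ[K] S => u s) hg)

lemma hPre_exact (f : S →ₗ[K] T) (g : T →ₗ[K] U) (h : Function.Exact f g) :
    Function.Exact (hPre g X) (hPre f X) := by
  intro φ
  constructor
  · intro hφ
    have h1 : ∀ s, φ (f s) = 0 := fun s => congrArg (fun u : S →ₗ[K] X => u s) hφ
    -- `φ` factors through the range of `g`
    obtain ⟨r, hr⟩ := g.rangeRestrict.exists_rightInverse_of_surjective g.range_rangeRestrict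
    obtain ⟨p, hp⟩ := (LinearMap.range g).subtype.exists_leftInverse_of_injective
      (Submodule.ker_subtype _)
    refine ⟨φ ∘ₗ r ∘ₗ p, ?_⟩
    ext t
    have h2 : p (g t) = g.rangeRestrict t := by
      have h3 := congrArg (fun u : _ →ₗ[K] _ => u (g.rangeRestrict t)) hp
      exact h3
    have h4 : g (r (g.rangeRestrict t) - t) = 0 := by
      have h5 := congrArg (fun u : _ →ₗ[K] _ => u (g.rangeRestrict t)) hr
      have h6 := congrArg Subtype.val h5
      rw [map_sub, sub_eq_zero]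
      exact h6
    obtain ⟨s, hs⟩ := (h _).1 h4
    have h7 := h1 s
    rw [hs, map_sub, sub_eq_zero] at h7
    change φ (r (p (g t))) = φ t
    rw [h2, h7]
  · rintro ⟨ψ, rfl⟩
    ext s
    change ψ (g (f s)) = 0
    rw [h.apply_apply_eq_zero s, map_zero]

end lin

section lie

variable {K L S T X Y : Type*} [Field K] [LieRing L] [LieAlgebra K L]
  [AddCommGroup S] [Module K S] [LieRingModule L S] [LieModule K L S]
  [AddCommGroup T] [Module K T] [LieRingModule L T] [LieModule K L T]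
  [AddCommGroup X] [Module K X] [LieRingModule L X] [LieModule K L X]
  [AddCommGroup Y] [Module K Y] [LieRingModule L Y] [LieModule K L Y]

lemma hPost_lie (f : X →ₗ[K] Y) (hf : ∀ (x : L) (m : X), f ⁅x, m⁆ = ⁅x, f m⁆) (x : L)
    (φ : S →ₗ[K] X) : hPost S f ⁅x, φ⁆ = ⁅x, hPost S f φ⁆ := by
  ext s
  rw [hPost_apply, LieHom.lie_apply, LieHom.lie_apply, map_sub, hf, hPost_apply, hPost_apply]

lemma hPre_lie (f : S →ₗ[K] T) (hf : ∀ (x : L) (m : S), f ⁅x, m⁆ = ⁅x, f m⁆) (x : L)
    (φ : T →ₗ[K] X) : hPre f X ⁅x, φ⁆ = ⁅x, hPre f X φ⁆ := by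
  ext s
  rw [hPre_apply, LieHom.lie_apply, LieHom.lie_apply, hPre_apply, hPre_apply, hf]

/-- the action on `Hom(S, X)` is `homAct` -/
lemma toEnd_hom (x : L) : (LieModule.toEnd K L (S →ₗ[K] X) x : Module.End K (S →ₗ[K] X)) =
    homAct (LieModule.toEnd K L S x) (LieModule.toEnd K L X x) := by
  ext φ s
  rw [LieModule.toEnd_apply_apply, LieHom.lie_apply, homAct_apply, LieModule.toEnd_apply_apply,
    LieModule.toEnd_apply_apply]

end lie

section weights

variable {K Lam S T X Y : Type*} [Field K] [AddCommGroup S] [Module K S] [AddCommGroup T]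
  [Module K T] [AddCommGroup X] [Module K X] [AddCommGroup Y] [Module K Y] [AddCommGroup Lam]
  {WS : Lam → Submodule K S} {WT : Lam → Submodule K T} {WX : Lam → Submodule K X}
  {WY : Lam → Submodule K Y}

lemma hPost_mem {f : X →ₗ[K] Y} {c : Lam} (hf : ∀ mu, ∀ x ∈ WX mu, f x ∈ WY (mu + c)) {lam : Lam}
    {φ : S →ₗ[K] X} (hφ : φ ∈ homW WS WX lam) : hPost S f φ ∈ homW WS WY (lam + c) := by
  intro mu s hs
  have h1 := hf _ _ (hφ mu s hs)
  rwa [add_assoc] at h1

lemma hPre_mem {f : S →ₗ[K] T} {c : Lam} (hf : ∀ mu, ∀ x ∈ WS mu, f x ∈ WT (mu + c)) {lam : Lam}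
    {φ : T →ₗ[K] X} (hφ : φ ∈ homW WT WX lam) : hPre f X φ ∈ homW WS WX (lam + c) := by
  intro mu s hs
  have h1 := hφ _ _ (hf mu s hs)
  rwa [add_assoc, add_comm c] at h1

end weights

end Gao.CE
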