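import Pool.Agent.Gao.Defs
import Pool.Agent.Gao.CEWeight
import Pool.Agent.Gao.Sl2Bridge

/-!
# Gao project (MP_b139df_co): the concrete modules as Lie modules

The bridge between `Defs.lean` and the CE API.
* `colRho : Matrix (Fin n) (Fin n) ℂ →ₗ⁅ℂ⁆ End (Fk n)`, `colE j l = colRho (single l j 1)`;
* `rowRho`, `colRho_rowRho_comm`;
* `nJ J` the Lie algebra of the matrices `M` with `M l j ≠ 0` only for `j < l` in `J`; it acts on `Fk n`;
* `nW J` its grading by the weights `ε l - ε j`, `grLie_nW`;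
* `lsub J X hX` the Lie submodule of a subspace stable under `colOps J`;
* `gW X` the weight spaces of a subspace, `grMod_gW`.
-/

set_option autoImplicit false

namespace Gao

open Finset Module Kost

attribute [local instance 100] LieRing.ofAssociativeRing

noncomputable section

variable {n : ℕ}

/-! ### one-particle operators -/

/-- a matrix acting on the columns -/
def colK (M : Matrix (Fin n) (Fin n) ℂ) : Matrix (Fin n × Fin n) (Fin n × Fin n) ℂ :=
  Matrix.of fun p q => if p.1 = q.1 then M p.2 q.2 else 0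

/-- a matrix acting on the rows -/
def rowK (M : Matrix (Fin n) (Fin n) ℂ) : Matrix (Fin n × Fin n) (Fin n × Fin n) ℂ :=
  Matrix.of fun p q => if p.2 = q.2 then M p.1 q.1 else 0

lemma colK_apply (M : Matrix (Fin n) (Fin n) ℂ) (p q : Fin n × Fin n) :
    colK M p q = if p.1 = q.1 then M p.2 q.2 else 0 := rfl

lemma rowK_apply (M : Matrix (Fin n) (Fin n) ℂ) (p q : Fin n × Fin n) :
    rowK M p q = if p.2 = q.2 then M p.1 q.1 else 0 := rfl

lemma colK_add (M N : Matrix (Fin n) (Fin n) ℂ) : colK (M + N) = colK M + colK N := by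
  ext p q
  rw [Matrix.add_apply, colK_apply, colK_apply, colK_apply, Matrix.add_apply]
  split_ifs
  · rfl
  · rw [add_zero]

lemma colK_smul (c : ℂ) (M : Matrix (Fin n) (Fin n) ℂ) : colK (c • M) = c • colK M := by
  ext p q
  rw [Matrix.smul_apply, colK_apply, colK_apply, Matrix.smul_apply]
  split_ifs
  · rfl
  · rw [smul_zero]

lemma rowK_add (M N : Matrix (Fin n) (Fin n) ℂ) : rowK (M + N) = rowK M + rowK N := by
  ext p q
  rw [Matrix.add_apply, rowK_apply, rowK_apply, rowK_apply, Matrix.add_apply]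
  split_ifs
  · rfl
  · rw [add_zero]

lemma rowK_smul (c : ℂ) (M : Matrix (Fin n) (Fin n) ℂ) : rowK (c • M) = c • rowK M := by
  ext p q
  rw [Matrix.smul_apply, rowK_apply, rowK_apply, Matrix.smul_apply]
  split_ifs
  · rfl
  · rw [smul_zero]

lemma colK_mul (M N : Matrix (Fin n) (Fin n) ℂ) : colK (M * N) = colK M * colK N := by
  ext p q
  rw [Matrix.mul_apply, colK_apply, Fintype.sum_prod_type]
  simp only [colK_apply]
  by_cases h : p.1 = q.1
  · rw [if_pos h, Finset.sum_eq_single p.1]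
    · rw [Matrix.mul_apply]
      refine Finset.sum_congr rfl fun k _ => ?_
      rw [if_pos rfl, if_pos h]
    · intro x _ hx
      refine Finset.sum_eq_zero fun k _ => ?_
      rw [if_neg (fun h' => hx h'.symm), zero_mul]
    · intro h'; exact absurd (mem_univ _) h'
  · rw [if_neg h]
    symm
    refine Finset.sum_eq_zero fun x _ => Finset.sum_eq_zero fun k _ => ?_
    by_cases h1 : p.1 = x
    · rw [if_neg (fun h2 => h (h1.trans h2)), mul_zero]
    · rw [if_neg h1, zero_mul]

lemma rowK_mul (M N : Matrix (Fin n) (Fin n) ℂ) : rowK (M * N) = rowK M * rowK N := by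
  ext p q
  rw [Matrix.mul_apply, rowK_apply, Fintype.sum_prod_type_right]
  simp only [rowK_apply]
  by_cases h : p.2 = q.2
  · rw [if_pos h, Finset.sum_eq_single p.2]
    · rw [Matrix.mul_apply]
      refine Finset.sum_congr rfl fun k _ => ?_
      rw [if_pos rfl, if_pos h]
    · intro x _ hx
      refine Finset.sum_eq_zero fun k _ => ?_
      rw [if_neg (fun h' => hx h'.symm), zero_mul]
    · intro h'; exact absurd (mem_univ _) h'
  · rw [if_neg h]
    symm
    refine Finset.sum_eq_zero fun x _ => Finset.sum_eq_zero fun k _ => ?_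
    by_cases h1 : p.2 = x
    · rw [if_neg (fun h2 => h (h1.trans h2)), mul_zero]
    · rw [if_neg h1, zero_mul]

lemma colK_rowK_comm (M N : Matrix (Fin n) (Fin n) ℂ) : colK M * rowK N = rowK N * colK M := by
  ext p q
  rw [Matrix.mul_apply, Matrix.mul_apply, Finset.sum_eq_single (p.1, q.2),
    Finset.sum_eq_single (q.1, p.2)]
  · simp only [colK_apply, rowK_apply, if_true]
    rw [mul_comm]
  · rintro ⟨x, k⟩ _ h
    simp only [colK_apply, rowK_apply]
    by_cases h1 : p.2 = k
    · rw [if_neg (c := x = q.1), mul_zero]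
      rintro rfl
      exact h (by rw [h1])
    · rw [if_neg h1, zero_mul]
  · intro h; exact absurd (mem_univ _) h
  · rintro ⟨x, k⟩ _ h
    simp only [colK_apply, rowK_apply]
    by_cases h1 : p.1 = x
    · rw [if_neg (c := k = q.2), mul_zero]
      rintro rfl
      exact h (by rw [h1])
    · rw [if_neg h1, zero_mul]
  · intro h; exact absurd (mem_univ _) h

/-- the action of matrices on the columns -/
def colRho : Matrix (Fin n) (Fin n) ℂ →ₗ⁅ℂ⁆ Module.End ℂ (Fk n) where
  toFun M := dG (colK M)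
  map_add' M N := by rw [colK_add, dG_add]
  map_smul' c M := by rw [colK_smul, dG_smul]; rfl
  map_lie' := by
    intro M N
    rw [LieRing.of_associative_ring_bracket, LieRing.of_associative_ring_bracket, dG_lie,
      ← colK_mul, ← colK_mul]
    congr 1
    have h : M * N - N * M = M * N + (-1 : ℂ) • (N * M) := by
      rw [neg_one_smul, sub_eq_add_neg]
    rw [h, colK_add, colK_smul, neg_one_smul, ← sub_eq_add_neg]

/-- the action of matrices on the rows -/
def rowRho : Matrix (Fin n) (Fin n) ℂ →ₗ⁅ℂ⁆ Module.End ℂ (Fk n) where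
  toFun M := dG (rowK M)
  map_add' M N := by rw [rowK_add, dG_add]
  map_smul' c M := by rw [rowK_smul, dG_smul]; rfl
  map_lie' := by
    intro M N
    rw [LieRing.of_associative_ring_bracket, LieRing.of_associative_ring_bracket, dG_lie,
      ← rowK_mul, ← rowK_mul]
    congr 1
    have h : M * N - N * M = M * N + (-1 : ℂ) • (N * M) := by
      rw [neg_one_smul, sub_eq_add_neg]
    rw [h, rowK_add, rowK_smul, neg_one_smul, ← sub_eq_add_neg]

lemma colRho_apply (M : Matrix (Fin n) (Fin n) ℂ) : colRho M = dG (colK M) := rfl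

lemma rowRho_apply (M : Matrix (Fin n) (Fin n) ℂ) : rowRho M = dG (rowK M) := rfl

theorem colRho_rowRho_comm (M N : Matrix (Fin n) (Fin n) ℂ) :
    colRho M * rowRho N = rowRho N * colRho M := by
  have h := dG_lie (colK M) (rowK N)
  rw [colK_rowK_comm, sub_self, dG_zero, sub_eq_zero] at h
  exact h

theorem colE_eq_colRho (j l : Fin n) : colE j l = colRho (Matrix.single l j (1 : ℂ)) := by
  rw [colRho_apply, colE, dG, Fintype.sum_prod_type]
  refine Finset.sum_congr rfl fun x _ => ?_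
  rw [Finset.sum_eq_single l, Finset.sum_eq_single (x, j)]
  · rw [colK_apply, if_pos rfl, Matrix.single_apply_same, one_smul]
  · rintro ⟨y, k⟩ _ h
    rw [colK_apply]
    by_cases h1 : x = y
    · rw [if_pos h1, Matrix.single_apply_of_ne, zero_smul]
      rintro ⟨_, h3⟩
      exact h (by rw [h1, h3])
    · rw [if_neg h1, zero_smul]
  · intro h; exact absurd (mem_univ _) h
  · intro k _ hk
    refine Finset.sum_eq_zero ?_
    rintro ⟨y, k'⟩ _
    rw [colK_apply]
    split_ifs
    · rw [Matrix.single_apply_of_ne, zero_smul]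
      rintro ⟨h3, _⟩
      exact hk h3.symm
    · rw [zero_smul]
  · intro h; exact absurd (mem_univ _) h

theorem rowE_eq_rowRho (x y : Fin n) : rowE x y = rowRho (Matrix.single y x (1 : ℂ)) := by
  rw [rowRho_apply, rowE, dG, Fintype.sum_prod_type, Finset.sum_comm]
  refine Finset.sum_congr rfl fun j _ => ?_
  rw [Finset.sum_eq_single y, Finset.sum_eq_single (x, j)]
  · rw [rowK_apply, if_pos rfl, Matrix.single_apply_same, one_smul]
  · rintro ⟨z, k⟩ _ h
    rw [rowK_apply]
    by_cases h1 : j = k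
    · rw [if_pos h1, Matrix.single_apply_of_ne, zero_smul]
      rintro ⟨_, h3⟩
      exact h (by rw [h1, h3])
    · rw [if_neg h1, zero_smul]
  · intro h; exact absurd (mem_univ _) h
  · intro k _ hk
    refine Finset.sum_eq_zero ?_
    rintro ⟨z, k'⟩ _
    rw [rowK_apply]
    split_ifs
    · rw [Matrix.single_apply_of_ne, zero_smul]
      rintro ⟨h3, _⟩
      exact hk h3.symm
    · rw [zero_smul]
  · intro h; exact absurd (mem_univ _) h

theorem colE_rowE_comm (j l x y : Fin n) : colE j l * rowE x y = rowE x y * colE j l := by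
  rw [colE_eq_colRho, rowE_eq_rowRho, colRho_rowRho_comm]

theorem colRho_eq_sum (M : Matrix (Fin n) (Fin n) ℂ) :
    colRho M = ∑ l, ∑ j, M l j • colE j l := by
  conv_lhs => rw [Matrix.matrix_eq_sum_single M]
  rw [map_sum]
  refine Finset.sum_congr rfl fun l _ => ?_
  rw [map_sum]
  refine Finset.sum_congr rfl fun j _ => ?_
  rw [colE_eq_colRho, ← map_smul, Matrix.smul_single, smul_eq_mul, mul_one]

/-- commutators of the column operators -/
theorem colE_lie (j l j' l' : Fin n) : colE j l * colE j' l' - colE j' l' * colE j l =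
    (if j = l' then colE j' l else 0) - (if j' = l then colE j l' else 0) := by
  rw [colE_eq_colRho, colE_eq_colRho, ← LieRing.of_associative_ring_bracket, ← LieHom.map_lie,
    LieRing.of_associative_ring_bracket, map_sub]
  congr 1
  · by_cases h : j = l'
    · subst h
      rw [Matrix.single_mul_single_same, one_mul, if_pos rfl, colE_eq_colRho]
    · rw [Matrix.single_mul_single_of_ne (h := h), map_zero, if_neg h]
  · by_cases h : j' = l
    · subst h
      rw [Matrix.single_mul_single_same, one_mul, if_pos rfl, colE_eq_colRho]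
    · rw [Matrix.single_mul_single_of_ne (h := h), map_zero, if_neg h]

/-! ### the Lie algebra of the J-side -/

/-- strictly triangular matrices on the columns of `J` -/
def nJ (J : Finset (Fin n)) : LieSubalgebra ℂ (Matrix (Fin n) (Fin n) ℂ) where
  carrier := {M | ∀ l j, M l j ≠ 0 → j ∈ J ∧ l ∈ J ∧ j < l}
  add_mem' := by
    intro M N hM hN l j h
    by_cases h1 : M l j = 0
    · apply hN
      intro h2
      exact h (by rw [Matrix.add_apply, h1, h2, add_zero])
    · exact hM l j h1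
  zero_mem' := fun l j h => absurd rfl h
  smul_mem' := by
    intro c M hM l j h
    apply hM
    intro h1
    exact h (by rw [Matrix.smul_apply, h1, smul_zero])
  lie_mem' := by
    have key : ∀ M N : Matrix (Fin n) (Fin n) ℂ, (∀ l j, M l j ≠ 0 → j ∈ J ∧ l ∈ J ∧ j < l) →
        (∀ l j, N l j ≠ 0 → j ∈ J ∧ l ∈ J ∧ j < l) →
        ∀ l j, (M * N) l j ≠ 0 → j ∈ J ∧ l ∈ J ∧ j < l := by
      intro M N hM hN l j h
      rw [Matrix.mul_apply] at h
      obtain ⟨k, _, hk⟩ := Finset.exists_ne_zero_of_sum_ne_zero h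
      have h1 := hM l k (left_ne_zero_of_mul hk)
      have h2 := hN k j (right_ne_zero_of_mul hk)
      exact ⟨h2.1, h1.2.1, h2.2.2.trans h1.2.2⟩
    intro M N hM hN l j h
    rw [LieRing.of_associative_ring_bracket, Matrix.sub_apply] at h
    by_cases h1 : (M * N) l j = 0
    · apply key N M hN hM
      intro h2
      exact h (by rw [h1, h2, sub_zero])
    · exact key M N hM hN l j h1

lemma mem_nJ {J : Finset (Fin n)} {M : Matrix (Fin n) (Fin n) ℂ} :
    M ∈ nJ J ↔ ∀ l j, M l j ≠ 0 → j ∈ J ∧ l ∈ J ∧ j < l := Iff.rfl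

lemma single_mem_nJ {J : Finset (Fin n)} {j l : Fin n} (hj : j ∈ J) (hl : l ∈ J) (h : j < l)
    (c : ℂ) : Matrix.single l j c ∈ nJ J := by
  intro l' j' h1
  by_cases h2 : l = l' ∧ j = j'
  · obtain ⟨rfl, rfl⟩ := h2
    exact ⟨hj, hl, h⟩
  · exact absurd (Matrix.single_apply_of_ne _ _ _ _ _ h2) h1

instance instLieRingModule (J : Finset (Fin n)) : LieRingModule (nJ J) (Fk n) :=
  LieRingModule.compLieHom (Fk n) (colRho.comp (nJ J).incl)

instance instLieModule (J : Finset (Fin n)) : LieModule ℂ (nJ J) (Fk n) :=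
  LieModule.compLieHom (Fk n) (colRho.comp (nJ J).incl)

lemma lie_eq {J : Finset (Fin n)} (x : nJ J) (v : Fk n) :
    ⁅x, v⁆ = colRho (x : Matrix (Fin n) (Fin n) ℂ) v := rfl

/-- the element of `nJ J` with a single entry -/
def sgl {J : Finset (Fin n)} (j l : Fin n) (h : j ∈ J ∧ l ∈ J ∧ j < l) : nJ J :=
  ⟨Matrix.single l j (1 : ℂ), single_mem_nJ h.1 h.2.1 h.2.2 1⟩

lemma sgl_lie {J : Finset (Fin n)} {j l : Fin n} (h : j ∈ J ∧ l ∈ J ∧ j < l) (v : Fk n) :
    ⁅(sgl j l h : nJ J), v⁆ = colE j l v := by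
  rw [lie_eq, colE_eq_colRho]; rfl

/-- elements of `nJ J` act by sums of column operators -/
lemma lie_eq_sum {J : Finset (Fin n)} (x : nJ J) (v : Fk n) :
    ⁅x, v⁆ = ∑ l, ∑ j, (x : Matrix (Fin n) (Fin n) ℂ) l j • colE j l v := by
  rw [lie_eq, colRho_eq_sum]
  simp only [LinearMap.sum_apply, LinearMap.smul_apply]

/-- a subspace stable under the column operators is stable under `nJ J` -/
lemma lie_mem_of_stable {J : Finset (Fin n)} {X : Submodule ℂ (Fk n)}
    (hX : ∀ T ∈ colOps J, ∀ v ∈ X, T v ∈ X) (x : nJ J) {v : Fk n} (hv : v ∈ X) : ⁅x, v⁆ ∈ X := by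
  rw [lie_eq_sum]
  refine Submodule.sum_mem _ fun l _ => Submodule.sum_mem _ fun j _ => ?_
  by_cases h : (x : Matrix (Fin n) (Fin n) ℂ) l j = 0
  · rw [h, zero_smul]
    exact Submodule.zero_mem _
  · have h1 := x.2 l j h
    exact Submodule.smul_mem _ _ (hX _ ⟨j, h1.1, l, h1.2.1, h1.2.2, rfl⟩ v hv)

/-- the Lie submodule of a stable subspace -/
def lsub (J : Finset (Fin n)) (X : Submodule ℂ (Fk n)) (hX : ∀ T ∈ colOps J, ∀ v ∈ X, T v ∈ X) :
    LieSubmodule ℂ (nJ J) (Fk n) :=
  { X with lie_mem := fun {x _} hv => lie_mem_of_stable hX x hv }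

lemma mem_lsub {J : Finset (Fin n)} {X : Submodule ℂ (Fk n)}
    {hX : ∀ T ∈ colOps J, ∀ v ∈ X, T v ∈ X} {v : Fk n} : v ∈ lsub J X hX ↔ v ∈ X := Iff.rfl

/-- a linear map commuting with the column operators is equivariant -/
lemma comm_lie {J : Finset (Fin n)} {T : Module.End ℂ (Fk n)} {X : Submodule ℂ (Fk n)}
    (hT : ∀ j ∈ J, ∀ l ∈ J, j < l → ∀ v ∈ X, T (colE j l v) = colE j l (T v)) (x : nJ J) {v : Fk n}
    (hv : v ∈ X) : T ⁅x, v⁆ = ⁅x, T v⁆ := by
  rw [lie_eq_sum, lie_eq_sum, map_sum]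
  refine Finset.sum_congr rfl fun l _ => ?_
  rw [map_sum]
  refine Finset.sum_congr rfl fun j _ => ?_
  rw [map_smul]
  by_cases h : (x : Matrix (Fin n) (Fin n) ℂ) l j = 0
  · rw [h, zero_smul, zero_smul]
  · have h1 := x.2 l j h
    rw [hT j h1.1 l h1.2.1 h1.2.2 v hv]

/-! ### weights -/

/-- the unit vector -/
def ep (j : Fin n) : Fin n → ℤ := Pi.single j 1

/-- the grading of `nJ J` -/
def nW (J : Finset (Fin n)) (lam : Fin n → ℤ) : Submodule ℂ (nJ J) where
  carrier := {x | ∀ l j, (x : Matrix (Fin n) (Fin n) ℂ) l j ≠ 0 → ep l - ep j = lam}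
  add_mem' := by
    intro x y hx hy l j h
    by_cases h1 : (x : Matrix (Fin n) (Fin n) ℂ) l j = 0
    · apply hy
      intro h2
      apply h
      change (x : Matrix (Fin n) (Fin n) ℂ) l j + (y : Matrix (Fin n) (Fin n) ℂ) l j = 0
      rw [h1, h2, add_zero]
    · exact hx l j h1
  zero_mem' := fun l j h => absurd rfl h
  smul_mem' := by
    intro c x hx l j h
    apply hx
    intro h1
    apply h
    change c • (x : Matrix (Fin n) (Fin n) ℂ) l j = 0
    rw [h1, smul_zero]

lemma mem_nW {J : Finset (Fin n)} {lam : Fin n → ℤ} {x : nJ J} :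
    x ∈ nW J lam ↔ ∀ l j, (x : Matrix (Fin n) (Fin n) ℂ) l j ≠ 0 → ep l - ep j = lam := Iff.rfl

lemma sgl_mem_nW {J : Finset (Fin n)} {j l : Fin n} (h : j ∈ J ∧ l ∈ J ∧ j < l) :
    (sgl j l h : nJ J) ∈ nW J (ep l - ep j) := by
  intro l' j' h1
  by_cases h2 : l = l' ∧ j = j'
  · obtain ⟨rfl, rfl⟩ := h2
    rfl
  · exact absurd (Matrix.single_apply_of_ne _ _ _ _ _ h2) h1

/-- the elementary matrices span `nJ J` -/
lemma nJ_eq_sum {J : Finset (Fin n)} (x : nJ J) : x = ∑ l, ∑ j,
    if h : j ∈ J ∧ l ∈ J ∧ j < l then (x : Matrix (Fin n) (Fin n) ℂ) l j • (sgl j l h : nJ J)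
      else 0 := by
  apply Subtype.ext
  have h0 : ∀ (f : Fin n → Fin n → nJ J), ((∑ l, ∑ j, f l j : nJ J) : Matrix (Fin n) (Fin n) ℂ) =
      ∑ l, ∑ j, ((f l j : nJ J) : Matrix (Fin n) (Fin n) ℂ) := by
    intro f
    have h1 := map_sum ((nJ J).incl : nJ J →ₗ[ℂ] Matrix (Fin n) (Fin n) ℂ)
      (fun l => ∑ j, f l j) univ
    refine h1.trans (Finset.sum_congr rfl fun l _ => ?_)
    exact map_sum ((nJ J).incl : nJ J →ₗ[ℂ] Matrix (Fin n) (Fin n) ℂ) (fun j => f l j) univ
  rw [h0]
  conv_lhs => rw [Matrix.matrix_eq_sum_single (x : Matrix (Fin n) (Fin n) ℂ)]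
  refine Finset.sum_congr rfl fun l _ => Finset.sum_congr rfl fun j _ => ?_
  by_cases h : j ∈ J ∧ l ∈ J ∧ j < l
  · rw [dif_pos h]
    change _ = (x : Matrix (Fin n) (Fin n) ℂ) l j • Matrix.single l j (1 : ℂ)
    rw [Matrix.smul_single, smul_eq_mul, mul_one]
  · rw [dif_neg h]
    have : (x : Matrix (Fin n) (Fin n) ℂ) l j = 0 := by
      by_contra h1
      exact h (x.2 l j h1)
    rw [this, Matrix.single_zero]
    rfl

theorem grLie_nW (J : Finset (Fin n)) : CE.GrLie (nW J) where
  sup := by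
    rw [eq_top_iff]
    intro x _
    rw [nJ_eq_sum x]
    refine Submodule.sum_mem _ fun l _ => Submodule.sum_mem _ fun j _ => ?_
    by_cases h : j ∈ J ∧ l ∈ J ∧ j < l
    · rw [dif_pos h]
      exact Submodule.smul_mem _ _ (Submodule.mem_iSup_of_mem _ (sgl_mem_nW h))
    · rw [dif_neg h]
      exact Submodule.zero_mem _
  lie := by
    intro lam mu x hx y hy l j h
    have key : ∀ (M N : Matrix (Fin n) (Fin n) ℂ) (a b : Fin n → ℤ),
        (∀ l j, M l j ≠ 0 → ep l - ep j = a) → (∀ l j, N l j ≠ 0 → ep l - ep j = b) →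
        ∀ l j, (M * N) l j ≠ 0 → ep l - ep j = a + b := by
      intro M N a b hM hN l j h
      rw [Matrix.mul_apply] at h
      obtain ⟨k, _, hk⟩ := Finset.exists_ne_zero_of_sum_ne_zero h
      have h1 := hM l k (left_ne_zero_of_mul hk)
      have h2 := hN k j (right_ne_zero_of_mul hk)
      rw [← h1, ← h2]
      abel
    have h' : ((x : Matrix (Fin n) (Fin n) ℂ) * (y : Matrix (Fin n) (Fin n) ℂ)) l j -
        ((y : Matrix (Fin n) (Fin n) ℂ) * (x : Matrix (Fin n) (Fin n) ℂ)) l j ≠ 0 := h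
    by_cases h1 : ((x : Matrix (Fin n) (Fin n) ℂ) * (y : Matrix (Fin n) (Fin n) ℂ)) l j = 0
    · apply key (y : Matrix (Fin n) (Fin n) ℂ) (x : Matrix (Fin n) (Fin n) ℂ) mu lam hy hx l j
      intro h2
      exact h' (by rw [h1, h2, sub_zero])
    · rw [add_comm]
      exact key _ _ lam mu hx hy l j h1

/-- moving a box within its row changes the column content -/
lemma colCnt_move {D : Finset (Fin n × Fin n)} {x j l : Fin n} (h : (x, j) ∈ D)
    (h' : (x, l) ∉ D.erase (x, j)) :
    colCnt (insert (x, l) (D.erase (x, j))) = colCnt D + (ep l - ep j) := by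
  funext k
  simp only [colCnt, Pi.add_apply, Pi.sub_apply, ep, Pi.single_apply]
  rw [Finset.filter_insert, Finset.filter_erase]
  have h1 : (x, j) ∈ D.filter (fun b => b.2 = k) ↔ j = k := by
    rw [mem_filter]
    exact ⟨fun h2 => h2.2, fun h2 => ⟨h, h2⟩⟩
  have h2 : (x, l) ∉ (D.filter (fun b => b.2 = k)).erase (x, j) := by
    intro h3
    apply h'
    rw [mem_erase] at h3 ⊢
    exact ⟨h3.1, (mem_filter.1 h3.2).1⟩
  by_cases hk : k = j
  · rw [if_pos hk]
    have h3 := h1.2 hk.symm
    have h4 : 0 < (D.filter (fun b => b.2 = k)).card := card_pos.2 ⟨_, h3⟩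
    by_cases hl : l = k
    · rw [if_pos hl, if_pos hl.symm, card_insert_of_notMem h2, card_erase_of_mem h3]
      omega
    · rw [if_neg hl, if_neg (fun h5 => hl h5.symm), card_erase_of_mem h3]
      omega
  · rw [if_neg hk]
    have h3 : (x, j) ∉ D.filter (fun b => b.2 = k) := fun h4 => hk (h1.1 h4).symm
    rw [erase_eq_of_notMem h3] at h2 ⊢
    by_cases hl : l = k
    · rw [if_pos hl, if_pos hl.symm, card_insert_of_notMem h2]
      push_cast
      ring
    · rw [if_neg hl, if_neg (fun h5 => hl h5.symm)]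
      ring

/-- moving a box within its row does not change the row content -/
lemma rowCnt_move {D : Finset (Fin n × Fin n)} {x j l : Fin n} (h : (x, j) ∈ D)
    (h' : (x, l) ∉ D.erase (x, j)) :
    rowCnt (insert (x, l) (D.erase (x, j))) = rowCnt D := by
  funext k
  simp only [rowCnt]
  rw [Finset.filter_insert, Finset.filter_erase]
  by_cases hk : x = k
  · rw [if_pos hk, card_insert_of_notMem, card_erase_of_mem]
    · have h4 : 0 < (D.filter (fun b => b.1 = k)).card :=
        card_pos.2 ⟨(x, j), mem_filter.2 ⟨h, hk⟩⟩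
      omega
    · exact mem_filter.2 ⟨h, hk⟩
    · intro h3
      apply h'
      rw [mem_erase] at h3 ⊢
      exact ⟨h3.1, (mem_filter.1 h3.2).1⟩
  · rw [if_neg hk, erase_eq_of_notMem]
    intro h3
    exact hk (mem_filter.1 h3).2

/-- `cr p * an q` on basis vectors -/
lemma cr_an_ee {B : Type*} [Fintype B] [DecidableEq B] (p q : B) (D : Finset B) :
    (cr p * an q) (ee D) = if q ∈ D ∧ p ∉ D.erase q then
      (sgn q D * sgn p (D.erase q)) • ee (insert p (D.erase q)) else 0 := by
  rw [Module.End.mul_apply, an_ee]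
  by_cases h : q ∈ D
  · rw [if_pos h, map_smul, cr_ee]
    by_cases h' : p ∈ D.erase q
    · rw [if_pos h', smul_zero, if_neg (fun h2 => h2.2 h')]
    · rw [if_neg h', if_pos ⟨h, h'⟩, smul_smul]
  · rw [if_neg h, map_zero, if_neg (fun h2 => h h2.1)]

/-- `colE j l` on basis vectors -/
lemma colE_ee (j l : Fin n) (D : Finset (Fin n × Fin n)) : colE j l (ee D) =
    ∑ x, if (x, j) ∈ D ∧ (x, l) ∉ D.erase (x, j) then
      (sgn (x, j) D * sgn (x, l) (D.erase (x, j))) • ee (insert (x, l) (D.erase (x, j))) else 0 := by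
  rw [colE, LinearMap.sum_apply]
  exact Finset.sum_congr rfl fun x _ => cr_an_ee _ _ _

lemma rowE_ee (x y : Fin n) (D : Finset (Fin n × Fin n)) : rowE x y (ee D) =
    ∑ j, if (x, j) ∈ D ∧ (y, j) ∉ D.erase (x, j) then
      (sgn (x, j) D * sgn (y, j) (D.erase (x, j))) • ee (insert (y, j) (D.erase (x, j))) else 0 := by
  rw [rowE, LinearMap.sum_apply]
  exact Finset.sum_congr rfl fun x _ => cr_an_ee _ _ _

/-- basis vectors are homogeneous -/
lemma ee_mem_degGr {B Λ : Type*} [Fintype B] [DecidableEq B] [DecidableEq Λ] (deg : Finset B → Λ)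
    (D : Finset B) : ee D ∈ (degGr deg).W (deg D) := by
  rw [Grading.mem_W]
  change dia _ (ee D) = ee D
  rw [dia_ee, if_pos rfl]

/-- an operator which is homogeneous on the basis vectors is homogeneous -/
lemma hom_degGr {B Λ : Type*} [Fintype B] [DecidableEq B] [DecidableEq Λ] [AddCommGroup Λ]
    (deg : Finset B → Λ) (T : Module.End ℂ (Fock B)) (al : Λ)
    (h : ∀ D, T (ee D) ∈ (degGr deg).W (deg D + al)) : Gao.Hom (degGr deg) T al := by
  intro a
  refine end_ext fun D => ?_
  rw [Module.End.mul_apply, Module.End.mul_apply]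
  change T (dia _ (ee D)) = (degGr deg).π (a + al) (T (ee D))
  rw [dia_ee]
  by_cases hD : deg D = a
  · rw [if_pos hD]
    have h1 := h D
    rw [hD] at h1
    rw [(degGr deg).π_of_mem h1]
  · rw [if_neg hD, map_zero, (degGr deg).π_of_mem_ne (h D)]
    intro h2
    exact hD (add_right_cancel h2).symm

lemma colE_hom_col (j l : Fin n) : Gao.Hom (colGr n) (colE j l) (ep l - ep j) := by
  apply hom_degGr
  intro D
  rw [colE_ee]
  refine Submodule.sum_mem _ fun x _ => ?_
  by_cases h : (x, j) ∈ D ∧ (x, l) ∉ D.erase (x, j)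
  · rw [if_pos h, ← colCnt_move h.1 h.2]
    exact Submodule.smul_mem _ _ (ee_mem_degGr _ _)
  · rw [if_neg h]
    exact Submodule.zero_mem _

lemma colE_hom_row (j l : Fin n) : Gao.Hom (rowGr n) (colE j l) 0 := by
  apply hom_degGr
  intro D
  rw [colE_ee]
  refine Submodule.sum_mem _ fun x _ => ?_
  by_cases h : (x, j) ∈ D ∧ (x, l) ∉ D.erase (x, j)
  · rw [if_pos h, add_zero, ← rowCnt_move h.1 h.2]
    exact Submodule.smul_mem _ _ (ee_mem_degGr _ _)
  · rw [if_neg h]
    exact Submodule.zero_mem _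

lemma colE_mem_W {j l : Fin n} {mu : Fin n → ℤ} {v : Fk n} (hv : v ∈ (colGr n).W mu) :
    colE j l v ∈ (colGr n).W (mu + (ep l - ep j)) :=
  (colE_hom_col j l).raises mu v hv

/-- the Fock space is a graded module -/
theorem grMod_Fk (J : Finset (Fin n)) : CE.GrMod (nW J) (colGr n).W := by
  intro lam mu x hx m hm
  rw [lie_eq_sum]
  refine Submodule.sum_mem _ fun l _ => Submodule.sum_mem _ fun j _ => ?_
  by_cases h : (x : Matrix (Fin n) (Fin n) ℂ) l j = 0
  · rw [h, zero_smul]
    exact Submodule.zero_mem _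
  · rw [← hx l j h]
    exact Submodule.smul_mem _ _ (colE_mem_W hm)

/-- the weight spaces of a Lie submodule -/
def gW {J : Finset (Fin n)} (X : LieSubmodule ℂ (nJ J) (Fk n)) (mu : Fin n → ℤ) :
    Submodule ℂ X := ((colGr n).W mu).comap (X : Submodule ℂ (Fk n)).subtype

lemma mem_gW {J : Finset (Fin n)} {X : LieSubmodule ℂ (nJ J) (Fk n)} {mu : Fin n → ℤ} {v : X} :
    v ∈ gW X mu ↔ (v : Fk n) ∈ (colGr n).W mu := Iff.rfl

theorem grMod_gW {J : Finset (Fin n)} (X : LieSubmodule ℂ (nJ J) (Fk n)) :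
    CE.GrMod (nW J) (gW X) := by
  intro lam mu x hx m hm
  exact grMod_Fk J lam mu x hx (m : Fk n) hm

end

end Gao
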