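import Mathlib

/-!
# Numerical part of the step (E2) of Theorem E (Gao project, MP_b139df_co)

`c`, `c + 1` two neighbouring places; the other coordinates of `nu` are fixed, so all numbers are
functions of `(x, y) = (nu c, nu (c + 1))`.

* `vanish_pair`: `a (x + 1) y ↔ b x y`, `a 0 y`, both symmetric ⇒ everything holds
  (`a x y` is `H^(q+1)(S(w s_c), F'_nu) = 0`, `b x y` is `H^q(S(w), F_nu) = 0`, `q ≥ 1`).
* `num_rec`: the recursion for the dimensions in degree zero.
* `num_unique`: the recursion determines the numbers.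
-/

namespace Gao.CE

/-- the vanishing part of (E2) -/
theorem vanish_pair {a b : ℕ → ℕ → Prop} (hab : ∀ x y, a (x + 1) y ↔ b x y) (ha0 : ∀ y, a 0 y)
    (sa : ∀ x y, a x y → a y x) (sb : ∀ x y, b x y → b y x) :
    (∀ x y, a x y) ∧ ∀ x y, b x y := by
  have hb : ∀ y x, b x y := by
    intro y
    induction y with
    | zero =>
      intro x
      rw [← hab]
      exact sa _ _ (ha0 _)
    | succ y ih =>
      intro x
      rw [← hab]
      apply sa
      rw [hab]
      exact sb _ _ (ih (x + 1))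
  refine ⟨?_, fun x y => hb y x⟩
  intro x y
  cases x with
  | zero => exact ha0 y
  | succ x => exact (hab x y).2 (hb y x)

/-- the recursion in degree zero: `f = h^0(S(w s_c), F_nu)`, `g = h^0(S(w), F_nu)`,
`a0 = h^0(S(w s_c), F'_nu)`, `a1 = h^1(S(w s_c), F'_nu)` -/
theorem num_rec {f g a0 a1 : ℕ → ℕ → ℕ} (h0 : ∀ y, f 0 y = a0 0 y) (h10 : ∀ y, a1 0 y = 0)
    (h : ∀ x y, f (x + 1) y + a1 (x + 1) y = a0 (x + 1) y + g x y)
    (s0 : ∀ x y, a0 x y = a0 y x) (s1 : ∀ x y, a1 x y = a1 y x) (sg : ∀ x y, g x y = g y x) :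
    (∀ x, f (x + 1) 0 = f 0 (x + 1) + g x 0) ∧
      ∀ x y, f (x + 1) (y + 1) + g (x + 1) y = f (y + 1) (x + 1) + g x (y + 1) := by
  constructor
  · intro x
    have h1 := h x 0
    have h2 := h0 (x + 1)
    have h3 := h10 (x + 1)
    have h4 := s0 (x + 1) 0
    have h5 := s1 (x + 1) 0
    omega
  · intro x y
    have h1 := h x (y + 1)
    have h2 := h y (x + 1)
    have h4 := s0 (x + 1) (y + 1)
    have h5 := s1 (x + 1) (y + 1)
    have h6 := sg y (x + 1)
    omega

/-- the recursion determines the numbers -/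
theorem num_unique {f g m : ℕ → ℕ → ℕ}
    (hg0 : ∀ x, f (x + 1) 0 = f 0 (x + 1) + g x 0)
    (hg : ∀ x y, f (x + 1) (y + 1) + g (x + 1) y = f (y + 1) (x + 1) + g x (y + 1))
    (hm0 : ∀ x, f (x + 1) 0 = f 0 (x + 1) + m x 0)
    (hm : ∀ x y, f (x + 1) (y + 1) + m (x + 1) y = f (y + 1) (x + 1) + m x (y + 1)) :
    ∀ x y, g x y = m x y := by
  have key : ∀ y x, g x y = m x y := by
    intro y
    induction y with
    | zero =>
      intro x
      have h1 := hg0 x
      have h2 := hm0 x
      omega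
    | succ y ih =>
      intro x
      have h1 := hg x y
      have h2 := hm x y
      have h3 := ih (x + 1)
      omega
  exact fun x y => key y x

end Gao.CE
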