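import Pool.Agent.Gao.EDef
import Pool.Agent.Gao.MSide2

/-!
# Theorem E: the numerical inputs (m1), (m3), (m4) (Gao project, MP_b139df_co)
-/

set_option autoImplicit false

namespace Gao

open Finset Module

noncomputable section

variable {n : ℕ}

/-- (m1) -/
theorem m1_of {w : Equiv.Perm (Fin n)} {A J : Finset (Fin n)} {c : Fin n} (hc : c ∈ J)
    (hmax : ∀ j ∈ J, j ≤ c) (hmin : ∀ j ∈ J, w c ≤ w j) (hA : ∀ x ∈ A, w.symm x ∈ J) :
    M1 w A J c := by
  intro ν
  have hsc : w.symm (w c) = c := w.symm_apply_apply c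
  have h := mdim_last (w := w) (A := A) (J := J) (s := w c) (by rw [hsc]; exact hc)
    (by rw [hsc]; exact hmax) hmin hA ν
  rw [hsc] at h
  refine ⟨fun _ => h, fun hν => ?_⟩
  rw [h]
  apply mdim_eq_zero (s := w c) (notMem_erase _ _)
  rw [Pi.sub_apply, indS, if_neg (notMem_erase _ _), sub_zero]
  exact hν

/-- (m3) -/
theorem m3_of {w : Equiv.Perm (Fin n)} {A J : Finset (Fin n)} {c c' : Fin n}
    (h : Adj w A J c c') (hb : w c' ∉ A) : M3 w A J c c' := fun ν =>
  (mdim_pass h.lt h.mem h.mem' h.adj h.min hb h.AJ ν).symm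

/-- (m4) -/
theorem m4_of {w : Equiv.Perm (Fin n)} {A J : Finset (Fin n)} {c : Fin n}
    (hmin : ∀ j ∈ J, w c ≤ w j) (hs : w c ∉ A) : M4 w A J c := fun _ =>
  ⟨fun hν => (mdim_insert_small hs hmin hν).symm, fun hν => mdim_eq_zero hs hν⟩

end

end Gao
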