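import Pool.Agent.Gao.ThmE
import Pool.Agent.Gao.MProps
import Pool.Agent.Gao.CharJ

/-!
# Theorem E: the numerical inputs (Gao project, MP_b139df_co)

All of `ENum n` except (m2), which is a hypothesis here.
-/

set_option autoImplicit false

namespace Gao

open Finset Module Gao.CE

noncomputable section

variable {n : ℕ}

theorem eNum_of (h2 : ∀ (w : Equiv.Perm (Fin n)) (A J : Finset (Fin n)) (c c' : Fin n),
    Adj w A J c c' → w c ∈ A → w c' ∈ A → M2 w A J c c') : ENum n where
  m1 _ _ _ _ hc hmax hmin _ hA := m1_of hc hmax hmin hA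
  m2 := h2
  m3 _ _ _ _ _ h _ hb := m3_of h hb
  m4 _ _ _ _ _ hmin hs _ := m4_of hmin hs
  hd _ _ _ _ _ h _ hb := fun a k hk => hdim_partS (h.sData hb) a k hk
  hd3 _ _ _ _ _ h _ hb := fun a k hk =>
    hdim_e3 h.lt h.mem h.mem' h.adj h.min h.AJ hb a k hk

end

end Gao
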