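import Pool.Agent.Gao.EDef

/-!
# Theorem E: the simple root of two neighbours in `J` (Gao project, MP_b139df_co)

`P` = the matrices with entry `M c' c = 0`, `p M` = `M` without this entry. `ad (single c' c)` maps
`single l j` to `δ_{c l} single c' j - δ_{j c'} single l c`, which is in `P` again (for `l = c` we have `j < c < c'`,
for `j = c'` we have `l > c'`). Centered at `0`: the lowering operator is `ad (single c c')` (it preserves `P`
because `c, c'` are neighbours in `J`: for `l = c'` and `j ≠ c` we have `j < c`, for `j = c` and `l ≠ c'` we have `l > c'`),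
and `[ad e, ad f] = ad (single c' c' - single c c)` is the multiplication by `ht` on `nW lam`.
-/

set_option autoImplicit false
set_option linter.unusedSimpArgs false

namespace Gao

open Finset Module Gao.CE
open Gao.Fam (homW)

noncomputable section

variable {n : ℕ}

section root

variable {J : Finset (Fin n)}

lemma er_single_mul_ap (a b : Fin n) (M : Matrix (Fin n) (Fin n) ℂ) (l j : Fin n) :
    (Matrix.single a b (1 : ℂ) * M) l j = if l = a then M b j else 0 := by
  rw [Matrix.mul_apply]
  by_cases h : l = a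
  · subst h
    rw [if_pos rfl, Finset.sum_eq_single b]
    · rw [Matrix.single_apply_same, one_mul]
    · intro k _ hk
      rw [Matrix.single_apply_of_ne, zero_mul]
      exact fun h2 => hk h2.2.symm
    · intro h; exact absurd (mem_univ _) h
  · rw [if_neg h]
    refine Finset.sum_eq_zero fun k _ => ?_
    rw [Matrix.single_apply_of_ne, zero_mul]
    exact fun h2 => h h2.1.symm

lemma er_mul_single_ap (a b : Fin n) (M : Matrix (Fin n) (Fin n) ℂ) (l j : Fin n) :
    (M * Matrix.single a b (1 : ℂ)) l j = if j = b then M l a else 0 := by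
  rw [Matrix.mul_apply]
  by_cases h : j = b
  · subst h
    rw [if_pos rfl, Finset.sum_eq_single a]
    · rw [Matrix.single_apply_same, mul_one]
    · intro k _ hk
      rw [Matrix.single_apply_of_ne, mul_zero]
      exact fun h2 => hk h2.1.symm
    · intro h; exact absurd (mem_univ _) h
  · rw [if_neg h]
    refine Finset.sum_eq_zero fun k _ => ?_
    rw [Matrix.single_apply_of_ne, mul_zero]
    exact fun h2 => h h2.2.symm

/-- the commutator with an elementary matrix -/
lemma er_comm_ap (a b : Fin n) (M : Matrix (Fin n) (Fin n) ℂ) (l j : Fin n) :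
    (Matrix.single a b (1 : ℂ) * M - M * Matrix.single a b (1 : ℂ)) l j =
      (if l = a then M b j else 0) - (if j = b then M l a else 0) := by
  rw [Matrix.sub_apply, er_single_mul_ap, er_mul_single_ap]

/-- the entry `(c', c)` -/
def er_entJ (J : Finset (Fin n)) (c c' : Fin n) : nJ J →ₗ[ℂ] ℂ where
  toFun x := (x : Matrix (Fin n) (Fin n) ℂ) c' c
  map_add' _ _ := rfl
  map_smul' _ _ := rfl

lemma er_entJ_apply (c c' : Fin n) (x : nJ J) :
    er_entJ J c c' x = (x : Matrix (Fin n) (Fin n) ℂ) c' c := rfl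

/-- the matrices without the entry `(c', c)` -/
def er_rootP (J : Finset (Fin n)) (c c' : Fin n) : Submodule ℂ (nJ J) := LinearMap.ker (er_entJ J c c')

lemma er_mem_rootP {c c' : Fin n} {x : nJ J} :
    x ∈ er_rootP J c c' ↔ (x : Matrix (Fin n) (Fin n) ℂ) c' c = 0 := Iff.rfl

/-- removing the entry `(c', c)` -/
def er_rootp {c c' : Fin n} (h : c ∈ J ∧ c' ∈ J ∧ c < c') : nJ J →ₗ[ℂ] er_rootP J c c' where
  toFun x := ⟨x - er_entJ J c c' x • sgl c c' h, by
    rw [er_rootP, LinearMap.mem_ker, map_sub, map_smul, smul_eq_mul]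
    have : er_entJ J c c' (sgl c c' h) = 1 := Matrix.single_apply_same _ _ _
    rw [this, mul_one, sub_self]⟩
  map_add' x y := by
    apply Subtype.ext
    change x + y - er_entJ J c c' (x + y) • sgl c c' h =
      (x - er_entJ J c c' x • sgl c c' h) + (y - er_entJ J c c' y • sgl c c' h)
    rw [map_add, add_smul]
    abel
  map_smul' a x := by
    apply Subtype.ext
    change a • x - er_entJ J c c' (a • x) • sgl c c' h = a • (x - er_entJ J c c' x • sgl c c' h)
    rw [map_smul, smul_eq_mul, mul_smul, smul_sub]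

lemma er_rootp_coe {c c' : Fin n} (h : c ∈ J ∧ c' ∈ J ∧ c < c') (x : nJ J) :
    ((er_rootp h x : er_rootP J c c') : nJ J) = x - er_entJ J c c' x • sgl c c' h := rfl

lemma er_lie_coe (x y : nJ J) : ((⁅x, y⁆ : nJ J) : Matrix (Fin n) (Fin n) ℂ) =
    (x : Matrix (Fin n) (Fin n) ℂ) * (y : Matrix (Fin n) (Fin n) ℂ) -
      (y : Matrix (Fin n) (Fin n) ℂ) * (x : Matrix (Fin n) (Fin n) ℂ) := rfl

lemma er_diag_nJ (x : nJ J) (a : Fin n) : (x : Matrix (Fin n) (Fin n) ℂ) a a = 0 := by
  by_contra h
  exact lt_irrefl _ (x.2 a a h).2.2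

/-- the lowering operator -/
def er_rootF {c c' : Fin n} (h : c ∈ J ∧ c' ∈ J ∧ c < c')
    (hadj : ∀ j ∈ J, ¬ (c < j ∧ j < c')) : Module.End ℂ (er_rootP J c c') where
  toFun x := ⟨⟨Matrix.single c c' (1 : ℂ) * ((x : nJ J) : Matrix (Fin n) (Fin n) ℂ) -
      ((x : nJ J) : Matrix (Fin n) (Fin n) ℂ) * Matrix.single c c' (1 : ℂ), by
        intro l j hlj
        rw [er_comm_ap] at hlj
        have hx : ((x : nJ J) : Matrix (Fin n) (Fin n) ℂ) c' c = 0 := x.2
        by_cases h1 : l = c
        · by_cases h2 : j = c'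
          · subst h1; subst h2
            rw [if_pos rfl, if_pos rfl, er_diag_nJ, er_diag_nJ, sub_self] at hlj
            exact absurd rfl hlj
          · subst h1
            rw [if_pos rfl, if_neg h2, sub_zero] at hlj
            obtain ⟨a1, a2, a3⟩ := (x : nJ J).2 c' j hlj
            refine ⟨a1, h.1, ?_⟩
            have h4 : j ≠ l := by
              rintro rfl
              exact hlj hx
            exact lt_of_le_of_ne (not_lt.1 fun h5 => hadj j a1 ⟨h5, a3⟩) h4
        · by_cases h2 : j = c'
          · subst h2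
            rw [if_neg h1, if_pos rfl, zero_sub, neg_ne_zero] at hlj
            obtain ⟨a1, a2, a3⟩ := (x : nJ J).2 l c hlj
            refine ⟨h.2.1, a2, ?_⟩
            have h4 : l ≠ j := by
              rintro rfl
              exact hlj hx
            exact lt_of_le_of_ne (not_lt.1 fun h5 => hadj l a2 ⟨a3, h5⟩) (Ne.symm h4)
          · rw [if_neg h1, if_neg h2, sub_self] at hlj
            exact absurd rfl hlj⟩, by
      rw [er_mem_rootP]
      change (Matrix.single c c' (1 : ℂ) * ((x : nJ J) : Matrix (Fin n) (Fin n) ℂ) -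
      ((x : nJ J) : Matrix (Fin n) (Fin n) ℂ) * Matrix.single c c' (1 : ℂ)) c' c = 0
      rw [er_comm_ap, if_neg (ne_of_gt h.2.2), if_neg (ne_of_lt h.2.2), sub_self]⟩
  map_add' x y := by
    apply Subtype.ext
    apply Subtype.ext
    change Matrix.single c c' (1 : ℂ) * (((x : nJ J) : Matrix (Fin n) (Fin n) ℂ) +
      ((y : nJ J) : Matrix (Fin n) (Fin n) ℂ)) - (((x : nJ J) : Matrix (Fin n) (Fin n) ℂ) +
      ((y : nJ J) : Matrix (Fin n) (Fin n) ℂ)) * Matrix.single c c' (1 : ℂ) =
      (Matrix.single c c' (1 : ℂ) * ((x : nJ J) : Matrix (Fin n) (Fin n) ℂ) -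
      ((x : nJ J) : Matrix (Fin n) (Fin n) ℂ) * Matrix.single c c' (1 : ℂ)) +
      (Matrix.single c c' (1 : ℂ) * ((y : nJ J) : Matrix (Fin n) (Fin n) ℂ) -
      ((y : nJ J) : Matrix (Fin n) (Fin n) ℂ) * Matrix.single c c' (1 : ℂ))
    rw [mul_add, add_mul]
    abel
  map_smul' a x := by
    apply Subtype.ext
    apply Subtype.ext
    change Matrix.single c c' (1 : ℂ) * (a • ((x : nJ J) : Matrix (Fin n) (Fin n) ℂ)) -
      (a • ((x : nJ J) : Matrix (Fin n) (Fin n) ℂ)) * Matrix.single c c' (1 : ℂ) =
      a • (Matrix.single c c' (1 : ℂ) * ((x : nJ J) : Matrix (Fin n) (Fin n) ℂ) -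
      ((x : nJ J) : Matrix (Fin n) (Fin n) ℂ) * Matrix.single c c' (1 : ℂ))
    rw [mul_smul_comm, smul_mul_assoc, smul_sub]

lemma er_rootF_coe {c c' : Fin n} (h : c ∈ J ∧ c' ∈ J ∧ c < c')
    (hadj : ∀ j ∈ J, ¬ (c < j ∧ j < c')) (x : er_rootP J c c') :
    (((er_rootF h hadj x : er_rootP J c c') : nJ J) : Matrix (Fin n) (Fin n) ℂ) =
      Matrix.single c c' (1 : ℂ) * ((x : nJ J) : Matrix (Fin n) (Fin n) ℂ) -
      ((x : nJ J) : Matrix (Fin n) (Fin n) ℂ) * Matrix.single c c' (1 : ℂ) := rfl

lemma er_root_stable {c c' : Fin n} (h : c ∈ J ∧ c' ∈ J ∧ c < c') :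
    ∀ x ∈ er_rootP J c c', ⁅(sgl c c' h : nJ J), x⁆ ∈ er_rootP J c c' := by
  intro x _
  rw [er_mem_rootP, er_lie_coe]
  change (Matrix.single c' c (1 : ℂ) * (x : Matrix (Fin n) (Fin n) ℂ) -
      (x : Matrix (Fin n) (Fin n) ℂ) * Matrix.single c' c (1 : ℂ)) c' c = 0
  rw [er_comm_ap, if_pos rfl, if_pos rfl, er_diag_nJ, er_diag_nJ, sub_self]

end root

/-- the simple root of the neighbours `c < c'` in `J` -/
theorem simpleRoot_nJ {J : Finset (Fin n)} {c c' : Fin n} (h : c ∈ J ∧ c' ∈ J ∧ c < c')
    (hadj : ∀ j ∈ J, ¬ (c < j ∧ j < c')) :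
    ∃ (P : Submodule ℂ (nJ J)) (p : nJ J →ₗ[ℂ] P),
      SimpleRoot (nW J) (al c c') (htJ c c') (sgl c c' h) P p := by
  have hne : c ≠ c' := ne_of_lt h.2.2
  refine ⟨er_rootP J c c', er_rootp h, ?_, ?_, ?_, ?_, ?_, ?_, er_root_stable h, ?_⟩
  · exact htJ_alpha hne
  · exact sgl_mem_nW h
  · apply Subtype.ext
    rw [er_rootp_coe]
    have : er_entJ J c c' (sgl c c' h) = 1 := Matrix.single_apply_same _ _ _
    rw [this, one_smul, sub_self]
    rfl
  · intro x
    apply Subtype.ext
    have hx : er_entJ J c c' (x : nJ J) = 0 := x.2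
    rw [er_rootp_coe, hx, zero_smul, sub_zero]
  · intro x
    refine ⟨er_entJ J c c' x, ?_⟩
    rw [er_rootp_coe]
    abel
  · intro lam x hx
    rw [er_rootp_coe]
    refine Submodule.sub_mem _ hx ?_
    by_cases h0 : er_entJ J c c' x = 0
    · rw [h0, zero_smul]
      exact Submodule.zero_mem _
    · have h1 : ep c' - ep c = lam := hx c' c h0
      rw [← h1]
      exact Submodule.smul_mem _ _ (sgl_mem_nW h)
  · refine ⟨er_rootF h hadj, ⟨?_, ?_⟩⟩
    · intro lam x hx l j hlj
      have hx' : ∀ l j, ((x : nJ J) : Matrix (Fin n) (Fin n) ℂ) l j ≠ 0 → ep l - ep j = lam := hx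
      change (((er_rootF h hadj x : er_rootP J c c') : nJ J) : Matrix (Fin n) (Fin n) ℂ) l j ≠ 0 at hlj
      rw [er_rootF_coe, er_comm_ap] at hlj
      change ep l - ep j = lam - (ep c' - ep c)
      by_cases h1 : l = c
      · by_cases h2 : j = c'
        · subst h1; subst h2
          rw [if_pos rfl, if_pos rfl, er_diag_nJ, er_diag_nJ, sub_self] at hlj
          exact absurd rfl hlj
        · subst h1
          rw [if_pos rfl, if_neg h2, sub_zero] at hlj
          rw [← hx' _ _ hlj]
          abel
      · by_cases h2 : j = c'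
        · subst h2
          rw [if_neg h1, if_pos rfl, zero_sub, neg_ne_zero] at hlj
          rw [← hx' _ _ hlj]
          abel
        · rw [if_neg h1, if_neg h2, sub_self] at hlj
          exact absurd rfl hlj
    · intro lam x hx
      have hx' : ∀ l j, ((x : nJ J) : Matrix (Fin n) (Fin n) ℂ) l j ≠ 0 → ep l - ep j = lam := hx
      apply Subtype.ext
      apply Subtype.ext
      ext l j
      set M : Matrix (Fin n) (Fin n) ℂ := ((x : nJ J) : Matrix (Fin n) (Fin n) ℂ) with hM
      change (Matrix.single c' c (1 : ℂ) * (Matrix.single c c' (1 : ℂ) * M -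
          M * Matrix.single c c' (1 : ℂ)) - (Matrix.single c c' (1 : ℂ) * M -
          M * Matrix.single c c' (1 : ℂ)) * Matrix.single c' c (1 : ℂ)) l j -
        (Matrix.single c c' (1 : ℂ) * (Matrix.single c' c (1 : ℂ) * M -
          M * Matrix.single c' c (1 : ℂ)) - (Matrix.single c' c (1 : ℂ) * M -
          M * Matrix.single c' c (1 : ℂ)) * Matrix.single c c' (1 : ℂ)) l j =
        ((htJ c c' lam - 0 : ℤ) : ℂ) * M l j
      rw [er_comm_ap, er_comm_ap, er_comm_ap, er_comm_ap, er_comm_ap, er_comm_ap]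
      have hd : M c c = 0 := er_diag_nJ _ _
      have hd' : M c' c' = 0 := er_diag_nJ _ _
      have key : ∀ z : ℂ, z = M l j → ((if l = c' then (1 : ℂ) else 0) -
          (if l = c then 1 else 0) + (if j = c then 1 else 0) - (if j = c' then 1 else 0)) * z =
          ((htJ c c' lam - 0 : ℤ) : ℂ) * z := by
        rintro z rfl
        by_cases h0 : M l j = 0
        · rw [h0, mul_zero, mul_zero]
        · congr 1
          rw [htJ_apply, ← hx' l j h0]
          simp only [Pi.sub_apply, ep, Pi.single_apply, sub_zero]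
          push_cast
          have e1 : (c' = l) = (l = c') := propext eq_comm
          have e2 : (c' = j) = (j = c') := propext eq_comm
          have e3 : (c = l) = (l = c) := propext eq_comm
          have e4 : (c = j) = (j = c) := propext eq_comm
          simp only [e1, e2, e3, e4]
          ring
      rw [← key _ rfl]
      by_cases h1 : l = c'
      · by_cases h3 : j = c'
        · simp [h1, h3, hd, hd', hne, hne.symm]
        · by_cases h4 : j = c
          · simp [h1, h3, h4, hd, hd', hne, hne.symm]; try ring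
          · simp [h1, h3, h4, hd, hd', hne, hne.symm]; try ring
      · by_cases h2 : l = c
        · by_cases h3 : j = c'
          · simp [h1, h2, h3, hd, hd', hne, hne.symm]; try ring
          · by_cases h4 : j = c
            · simp [h1, h2, h3, h4, hd, hd', hne, hne.symm]; try ring
            · simp [h1, h2, h3, h4, hd, hd', hne, hne.symm]; try ring
        · by_cases h3 : j = c'
          · simp [h1, h2, h3, hd, hd', hne, hne.symm]; try ring
          · by_cases h4 : j = c
            · simp [h1, h2, h3, h4, hd, hd', hne, hne.symm]; try ring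
            · simp [h1, h2, h3, h4, hd, hd', hne, hne.symm]; try ring

end

end Gao
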