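import Pool.Agent.Gao.EVan

/-!
# Theorem E: the exact sequence `0 → S → N(w) → C → 0` (Gao project, MP_b139df_co)

`C = Nmod w A J ⧸ Smod`, centered at `-1` by `partS`.
-/

set_option autoImplicit false

namespace Gao

open Finset Module Gao.CE
open Gao.Fam (homW)

noncomputable section

variable {n : ℕ}

variable {w : Equiv.Perm (Fin n)} {A J : Finset (Fin n)} {c c' : Fin n}

/-- `Smod` as a Lie submodule of `NL w A J` -/
def SN (w : Equiv.Perm (Fin n)) (A J : Finset (Fin n)) (c c' : Fin n) :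
    LieSubmodule ℂ (nJ J) (NL w A J) := (SL w A J c c').comap (NL w A J).incl

lemma SN_coe (w : Equiv.Perm (Fin n)) (A J : Finset (Fin n)) (c c' : Fin n) :
    (SN w A J c c' : Submodule ℂ (NL w A J)) = (Smod w A J c c').comap (Nmod w A J).subtype := rfl

lemma mem_SN {x : NL w A J} : x ∈ SN w A J c c' ↔ (x : Fk n) ∈ Smod w A J c c' := Iff.rfl

theorem exists_C' (h : Adj w A J c c') (hb : w c' ∈ A) (hdim : HDim w A J c c') :
    ∃ (C : Type) (_ : AddCommGroup C) (_ : Module ℂ C) (_ : LieRingModule (nJ J) C)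
      (_ : LieModule ℂ (nJ J) C) (_ : FiniteDimensional ℂ C) (WC : (Fin n → ℤ) → Submodule ℂ C),
      GrMod (nW J) WC ∧
      (∃ f g r s, GSES (nJ J) (gW (SL w A J c c')) (gW (NL w A J)) WC f g r s) ∧
      ∀ ν q, HV (nW J) (homW WC (gW (FE J (E0 w A J c c') h.RC_E0 ν))) q := by
  have hs := h.sData hb
  have hcen := centered_iff_fam.1 (partS hs hdim).2
  have hle : SL w A J c c' ≤ NL w A J := fun _ hx => Smod_le hs hx
  set S : LieSubmodule ℂ (nJ J) (NL w A J) := SN w A J c c' with hS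
  have hst : (gG (NL w A J) (Nmod_stable_col w A J)).Stable (S : Submodule ℂ (NL w A J)) :=
    stable_comap_subtype (Nmod_stable_col w A J) (Smod_stable_col w A J c c')
  set G : Grading ℂ (NL w A J ⧸ S) (Fin n → ℤ) :=
    (gG (NL w A J) (Nmod_stable_col w A J)).quot (S : Submodule ℂ (NL w A J)) hst with hG
  have hGr : GrMod (nW J) G.W := by
    intro lam mu x hx m hm
    obtain ⟨y, hy, rfl⟩ := (Grading.mem_quot_W _ _ hst mu m).1 hm
    refine (Grading.mem_quot_W _ _ hst _ _).2 ⟨⁅x, y⁆, ?_, rfl⟩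
    rw [gG_W] at hy ⊢
    exact grMod_gW (NL w A J) lam mu x hx y hy
  refine ⟨NL w A J ⧸ S, inferInstance, inferInstance, inferInstance, inferInstance, inferInstance,
    G.W, hGr, ?_, ?_⟩
  · obtain ⟨r, s, hrs⟩ := exists_GSES (L := nJ J)
      (GA := gG (SL w A J c c') (Smod_stable_col w A J c c'))
      (GB := gG (NL w A J) (Nmod_stable_col w A J)) (GC := G)
      (f := (LieSubmodule.inclusion hle : SL w A J c c' →ₗ[ℂ] NL w A J))
      (g := (LieSubmodule.Quotient.mk' S : NL w A J →ₗ[ℂ] (NL w A J ⧸ S)))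
      (by
        intro mu m hm
        rw [gG_W] at hm ⊢
        exact hm)
      (by
        intro mu m hm
        exact (Grading.mem_quot_W _ _ hst _ _).2 ⟨m, hm, rfl⟩)
      (fun x a => (LieSubmodule.inclusion hle).map_lie x a)
      (fun x b => (LieSubmodule.Quotient.mk' S).map_lie x b)
      (by
        intro x y hxy
        exact Subtype.ext (congrArg (fun z : NL w A J => (z : Fk n)) hxy))
      (LieSubmodule.Quotient.surjective_mk' S)
      (by
        intro a
        exact (LieSubmodule.Quotient.mk_eq_zero').2 (mem_SN.2 a.2))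
      (by
        intro b hb0
        have h1 := mem_SN.1 ((LieSubmodule.Quotient.mk_eq_zero').1 hb0)
        exact ⟨⟨b, h1⟩, rfl⟩)
    rw [gG_W, gG_W] at hrs
    exact ⟨_, _, r, s, hrs⟩
  · intro ν q
    refine van_hom (h := ⟨h.mem, h.mem', h.lt⟩) h.adj hGr (grMod_gW _) G.iSup_W
      (iSupIndep_gW (stable_Fnu _ ν)) (chi := -1) (chi' := 0) ?_ (h.centered_F ν) (by norm_num) q
    have e1 : LieModule.toEnd ℂ (nJ J) (NL w A J ⧸ S) (sgl c c' ⟨h.mem, h.mem', h.lt⟩) =
        ((Smod w A J c c').comap (Nmod w A J).subtype).mapQ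
          ((Smod w A J c c').comap (Nmod w A J).subtype)
          ((colE c c').restrict (Nmod_e_stable w A h.mem h.mem' h.lt))
          (fun x hx => Smod_e_stable hs x hx) := by
      refine LinearMap.ext fun z => ?_
      obtain ⟨y, rfl⟩ := LieSubmodule.Quotient.surjective_mk' S z
      have e2 : ⁅(sgl c c' ⟨h.mem, h.mem', h.lt⟩ : nJ J), y⁆ =
          (colE c c').restrict (Nmod_e_stable w A h.mem h.mem' h.lt) y :=
        Subtype.ext (sgl_lie ⟨h.mem, h.mem', h.lt⟩ (y : Fk n))
      change LieSubmodule.Quotient.mk' S ⁅(sgl c c' ⟨h.mem, h.mem', h.lt⟩ : nJ J), y⁆ = _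
      rw [e2]
      rfl
    rw [e1]
    exact hcen

end

end Gao
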