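import Pool.Agent.Gao.RProp
import Pool.Agent.Gao.EHom
import Pool.Agent.Gao.EDef

/-!
# THEOREM E: from row contents to all of `Fall` (Gao project, MP_b139df_co)

`Spl i p`: a finite direct sum decomposition.  `Spl.hv`, `Spl.finrank_inv0`: cohomology of a direct sum.
`thmE_of_te`: ThmE from helper78's `TE w S J` for all `w, S, J` with `pos w S ⊆ J`.
-/

set_option autoImplicit false

namespace Gao

open Finset Module Pool.Agent.Gao

noncomputable section

/-- a finite direct sum decomposition -/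
structure Spl {K V κ : Type*} [Field K] [AddCommGroup V] [Module K V] [Fintype κ] {Vk : κ → Type*}
    [∀ k, AddCommGroup (Vk k)] [∀ k, Module K (Vk k)] (i : ∀ k, Vk k →ₗ[K] V)
    (p : ∀ k, V →ₗ[K] Vk k) : Prop where
  self : ∀ k x, p k (i k x) = x
  ne : ∀ k k', k ≠ k' → ∀ x, p k (i k' x) = 0
  sum : ∀ x, ∑ k, i k (p k x) = x

section lin

variable {K V κ : Type*} [Field K] [AddCommGroup V] [Module K V] [Fintype κ] {Vk : κ → Type*}
  [∀ k, AddCommGroup (Vk k)] [∀ k, Module K (Vk k)] {i : ∀ k, Vk k →ₗ[K] V}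
  {p : ∀ k, V →ₗ[K] Vk k}

lemma Spl.finrank_eq [∀ k, FiniteDimensional K (Vk k)] (h : Spl i p) :
    finrank K V = ∑ k, finrank K (Vk k) := by
  classical
  have e : V ≃ₗ[K] (∀ k, Vk k) :=
    LinearEquiv.ofLinearMap (LinearMap.pi p) (∑ k, i k ∘ₗ LinearMap.proj k)
      (by
        apply LinearMap.ext
        intro y
        funext k
        simp only [LinearMap.coe_comp, Function.comp_apply, LinearMap.coe_sum, Finset.sum_apply,
          LinearMap.proj_apply, map_sum, LinearMap.id_coe, id_eq]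
        rw [Finset.sum_eq_single k]
        · rw [LinearMap.pi_apply, h.self]
        · intro b _ hb
          rw [LinearMap.pi_apply, h.ne k b hb.symm]
        · intro h'
          exact absurd (Finset.mem_univ k) h')
      (by
        apply LinearMap.ext
        intro x
        simp only [LinearMap.coe_comp, Function.comp_apply, LinearMap.coe_sum, Finset.sum_apply,
          LinearMap.proj_apply, LinearMap.pi_apply, LinearMap.id_coe, id_eq]
        exact h.sum x)
  rw [e.finrank_eq, Module.finrank_pi_fintype]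

/-- composition with `A` -/
lemma Spl.hom {A : Type*} [AddCommGroup A] [Module K A] (h : Spl i p) :
    Spl (fun k => CE.hPost A (i k)) (fun k => CE.hPost A (p k)) where
  self k x := by
    ext a
    exact h.self k _
  ne k k' hk x := by
    ext a
    exact h.ne k k' hk _
  sum x := by
    ext a
    rw [LinearMap.sum_apply]
    exact h.sum _

end lin

section lie

variable {K L V κ Lam : Type*} [Field K] [CharZero K] [LieRing L] [LieAlgebra K L]
  [AddCommGroup Lam] [Fintype κ]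
  [AddCommGroup V] [Module K V] [LieRingModule L V] [LieModule K L V] {Vk : κ → Type*}
  [∀ k, AddCommGroup (Vk k)] [∀ k, Module K (Vk k)] [∀ k, LieRingModule L (Vk k)]
  [∀ k, LieModule K L (Vk k)] {i : ∀ k, Vk k →ₗ[K] V} {p : ∀ k, V →ₗ[K] Vk k}
  {N : Lam → Submodule K L} {W : Lam → Submodule K V} {Wk : ∀ k, Lam → Submodule K (Vk k)}

/-- equivariant graded decomposition -/
structure LSpl (L : Type*) [LieRing L] [LieAlgebra K L] [LieRingModule L V] [LieModule K L V]
    [∀ k, LieRingModule L (Vk k)] [∀ k, LieModule K L (Vk k)]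
    (W : Lam → Submodule K V) (Wk : ∀ k, Lam → Submodule K (Vk k))
    (i : ∀ k, Vk k →ₗ[K] V) (p : ∀ k, V →ₗ[K] Vk k) : Prop extends Spl i p where
  il : ∀ k (x : L) m, i k ⁅x, m⁆ = ⁅x, i k m⁆
  pl : ∀ k (x : L) m, p k ⁅x, m⁆ = ⁅x, p k m⁆
  iW : ∀ k mu, ∀ m ∈ Wk k mu, i k m ∈ W mu
  pW : ∀ k mu, ∀ m ∈ W mu, p k m ∈ Wk k mu

omit [CharZero K] in
lemma LSpl.finrank_inv0 [∀ k, FiniteDimensional K (Vk k)] (h : LSpl L W Wk i p) :
    finrank K (CE.inv0 W L) = ∑ k, finrank K (CE.inv0 (Wk k) L) := by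
  have hi : ∀ k, ∀ m ∈ CE.inv0 (Wk k) L, i k m ∈ CE.inv0 W L := fun k m hm =>
    ⟨h.iW k 0 m hm.1, fun x => by rw [← h.il, hm.2 x, map_zero]⟩
  have hp : ∀ k, ∀ m ∈ CE.inv0 W L, p k m ∈ CE.inv0 (Wk k) L := fun k m hm =>
    ⟨h.pW k 0 m hm.1, fun x => by rw [← h.pl, hm.2 x, map_zero]⟩
  have h1 : Spl (V := CE.inv0 W L) (Vk := fun k => CE.inv0 (Wk k) L)
      (fun k => (i k).restrict (hi k)) (fun k => (p k).restrict (hp k)) := by
    refine ⟨fun k x => ?_, fun k k' hk x => ?_, fun x => ?_⟩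
    · exact Subtype.ext (h.self k _)
    · exact Subtype.ext (h.ne k k' hk _)
    · apply Subtype.ext
      rw [Submodule.coe_sum]
      exact h.sum _
  exact h1.finrank_eq

lemma LSpl.hv (h : LSpl L W Wk i p) {q : ℕ} (hv : ∀ k, CE.HV N (Wk k) (q + 1)) :
    CE.HV N W (q + 1) := by
  intro φ hφ hd
  have h1 : ∀ k, ∃ ψ ∈ CE.HH N (Wk k) q, CE.d q ψ = CE.post (p k) (q + 1) φ := by
    intro k
    refine hv k (CE.post (p k) (q + 1) φ) (CE.post_mem_CW (h.pW k) hφ) ?_
    have h2 := CE.d_post (h.pl k) φ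
    have h3 : CE.d (q + 1) φ = 0 := hd
    rw [h3, map_zero] at h2
    exact h2.symm
  choose ψ hψ hψ' using h1
  refine ⟨∑ k, CE.post (i k) q (ψ k), Submodule.sum_mem _ fun k _ =>
    CE.post_mem_CW (h.iW k) (hψ k), ?_⟩
  change CE.d q (∑ k, CE.post (i k) q (ψ k)) = φ
  rw [map_sum]
  have h2 : ∀ k, CE.d q (CE.post (i k) q (ψ k)) = CE.post (i k) (q + 1)
      (CE.post (p k) (q + 1) φ) := by
    intro k
    rw [← CE.d_post (h.il k), hψ']
  simp only [h2]
  ext v
  have h3 : ∀ k, (CE.post (i k) (q + 1) (CE.post (p k) (q + 1) φ)) v = i k (p k (φ v)) :=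
    fun k => rfl
  have h4 : ∀ (s : Finset κ) (f : κ → CE.Co K L V (q + 1)), (∑ k ∈ s, f k) v = ∑ k ∈ s, f k v := by
    classical
    intro s f
    induction s using Finset.induction_on with
    | empty => simp
    | insert a s ha ih => rw [Finset.sum_insert ha, Finset.sum_insert ha, AlternatingMap.add_apply, ih]
  rw [h4]
  simp only [h3]
  exact h.sum _

/-- composition with `A` -/
lemma LSpl.hom {A : Type*} [AddCommGroup A] [Module K A] [LieRingModule L A] [LieModule K L A]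
    (WA : Lam → Submodule K A) (h : LSpl L W Wk i p) :
    LSpl L (Fam.homW WA W) (fun k => Fam.homW WA (Wk k)) (fun k => CE.hPost A (i k))
      (fun k => CE.hPost A (p k)) where
  toSpl := h.toSpl.hom
  il k x m := by
    ext a
    rw [CE.hPost_apply, LieHom.lie_apply, LieHom.lie_apply, map_sub, h.il]
    rfl
  pl k x m := by
    ext a
    rw [CE.hPost_apply, LieHom.lie_apply, LieHom.lie_apply, map_sub, h.pl]
    rfl
  iW k mu m hm := fun nu a ha => h.iW k _ _ (hm nu a ha)
  pW k mu m hm := fun nu a ha => h.pW k _ _ (hm nu a ha)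

end lie

/-! ### the concrete decomposition -/

section conc

variable {n : ℕ}

lemma rowGr_π_Fall (E : Finset (Fin n × Fin n)) (ν : Fin n → ℤ) {x : Fk n} (hx : x ∈ Fall E) :
    (rowGr n).π ν x ∈ Fnu E ν := by
  refine map_mem_of_Fall (T := (rowGr n).π ν) ?_ hx
  intro D hD
  change (degGr rowCnt).π ν (Kost.ee D) ∈ _
  rw [degGr_π]
  split_ifs with h
  · exact Submodule.subset_span ⟨D, hD, h, rfl⟩
  · exact Submodule.zero_mem _

lemma Fnu_le_W (E : Finset (Fin n × Fin n)) (ν : Fin n → ℤ) : Fnu E ν ≤ (rowGr n).W ν := by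
  rw [Fnu, Submodule.span_le]
  rintro _ ⟨D, _, hD, rfl⟩
  exact ee_mem_W' hD

lemma Fnu_colOps {w : Equiv.Perm (Fin n)} {A J : Finset (Fin n)} {ν : Fin n → ℤ} :
    ∀ T ∈ colOps J, ∀ v ∈ Fnu (Fset w A J) ν, T v ∈ Fnu (Fset w A J) ν := by
  intro T hT v hv
  have h1 : T v ∈ Fall (Fset w A J) := Fall_colOps T hT v (Fnu_le_Fall _ _ hv)
  have h2 : v ∈ (rowGr n).W ν := Fnu_le_W _ _ hv
  obtain ⟨j, _, l, _, _, rfl⟩ := hT
  have h3 := (hom_colE_row j l).mem h2
  rw [add_zero] at h3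
  rw [← (rowGr n).π_of_mem h3]
  exact rowGr_π_Fall _ _ h1

/-- the two gradings commute -/
lemma row_col_comm (ν mu : Fin n → ℤ) :
    (rowGr n).π ν * (colGr n).π mu = (colGr n).π mu * (rowGr n).π ν := by
  refine Kost.end_ext fun D => ?_
  rw [Module.End.mul_apply, Module.End.mul_apply]
  change (degGr rowCnt).π ν ((degGr colCnt).π mu (Kost.ee D)) =
    (degGr colCnt).π mu ((degGr rowCnt).π ν (Kost.ee D))
  rw [degGr_π, degGr_π]
  split_ifs with h1 h2 h2
  · rw [degGr_π, degGr_π, if_pos h1, if_pos h2]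
  · rw [degGr_π, if_neg h2, map_zero]
  · rw [degGr_π, if_neg h1, map_zero]
  · rw [map_zero, map_zero]

/-- the decomposition of `Fall` by row contents -/
lemma fall_split (w : Equiv.Perm (Fin n)) (S J : Finset (Fin n)) :
    ∃ (i : ∀ ν : (rowGr n).supp, lsub J (Fnu (Fset w S J) ν) Fnu_colOps →ₗ[ℂ]
        lsub J (Fall (Fset w S J)) Fall_colOps)
      (p : ∀ ν : (rowGr n).supp, lsub J (Fall (Fset w S J)) Fall_colOps →ₗ[ℂ]
        lsub J (Fnu (Fset w S J) ν) Fnu_colOps),
      LSpl (nJ J) (gW (lsub J (Fall (Fset w S J)) Fall_colOps))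
        (fun ν : (rowGr n).supp => gW (lsub J (Fnu (Fset w S J) ν) Fnu_colOps)) i p := by
  refine ⟨fun ν => LinearMap.restrict (LinearMap.id : Fk n →ₗ[ℂ] Fk n)
      (p := (lsub J (Fnu (Fset w S J) ν) Fnu_colOps : Submodule ℂ (Fk n)))
      (q := (lsub J (Fall (Fset w S J)) Fall_colOps : Submodule ℂ (Fk n)))
      (fun x hx => Fnu_le_Fall _ _ hx),
    fun ν => LinearMap.restrict ((rowGr n).π ν)
      (p := (lsub J (Fall (Fset w S J)) Fall_colOps : Submodule ℂ (Fk n)))
      (q := (lsub J (Fnu (Fset w S J) ν) Fnu_colOps : Submodule ℂ (Fk n)))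
      (fun x hx => rowGr_π_Fall _ _ hx), ?_⟩
  refine
    { self := fun ν x => ?_, ne := fun ν ν' h x => ?_, sum := fun x => ?_, il := fun ν x m => ?_,
      pl := fun ν x m => ?_, iW := fun ν mu m hm => ?_, pW := fun ν mu m hm => ?_ }
  · apply Subtype.ext
    exact (rowGr n).π_of_mem (Fnu_le_W _ _ x.2)
  · apply Subtype.ext
    exact (rowGr n).π_of_mem_ne (Fnu_le_W _ _ x.2) (fun h' => h (Subtype.ext h'))
  · apply Subtype.ext
    rw [Submodule.coe_sum]
    change ∑ ν : (rowGr n).supp, (rowGr n).π ν (x : Fk n) = _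
    rw [Finset.sum_coe_sort (rowGr n).supp (fun ν => (rowGr n).π ν (x : Fk n))]
    exact (rowGr n).sum_apply _
  · rfl
  · apply Subtype.ext
    change (rowGr n).π ν (⁅x, (m : Fk n)⁆) = ⁅x, (rowGr n).π ν (m : Fk n)⁆
    refine comm_lie (X := ⊤) (fun j _ l _ _ v _ => ?_) x Submodule.mem_top
    have h1 := congrArg (fun u : Module.End ℂ (Fk n) => u v) (hom_colE_row j l ν)
    simp only [Module.End.mul_apply, add_zero] at h1
    exact h1.symm
  · exact hm
  · change (rowGr n).π ν (m : Fk n) ∈ (colGr n).W mu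
    have h1 := congrArg (fun u : Module.End ℂ (Fk n) => u (m : Fk n)) (row_col_comm ν mu)
    simp only [Module.End.mul_apply] at h1
    have h2 : (m : Fk n) ∈ (colGr n).W mu := hm
    rw [(colGr n).π_of_mem h2] at h1
    rw [Grading.mem_W]
    exact h1.symm

/-- the dimension of a graded subspace -/
lemma finrank_eq_sum_π {P : Submodule ℂ (Fk n)} (hP : (rowGr n).Stable P) :
    finrank ℂ P = ∑ ν : (rowGr n).supp, finrank ℂ (P.map ((rowGr n).π ν)) := by
  have hle : ∀ ν, P.map ((rowGr n).π ν) ≤ P := by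
    rintro ν _ ⟨x, hx, rfl⟩
    exact hP ν x hx
  have hW : ∀ ν, ∀ x ∈ P.map ((rowGr n).π ν), x ∈ (rowGr n).W ν := by
    rintro ν _ ⟨x, _, rfl⟩
    exact (rowGr n).π_mem ν x
  have h : Spl (V := P) (Vk := fun ν : (rowGr n).supp => P.map ((rowGr n).π ν))
      (fun ν => LinearMap.restrict (LinearMap.id : Fk n →ₗ[ℂ] Fk n) (fun x hx => hle ν hx))
      (fun ν => LinearMap.restrict ((rowGr n).π ν) (fun x hx => Submodule.mem_map_of_mem hx)) := by
    refine ⟨fun ν x => ?_, fun ν ν' h x => ?_, fun x => ?_⟩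
    · apply Subtype.ext
      exact (rowGr n).π_of_mem (hW _ _ x.2)
    · apply Subtype.ext
      exact (rowGr n).π_of_mem_ne (hW _ _ x.2) (fun h' => h (Subtype.ext h'))
    · apply Subtype.ext
      rw [Submodule.coe_sum]
      change ∑ ν : (rowGr n).supp, (rowGr n).π ν (x : Fk n) = _
      rw [Finset.sum_coe_sort (rowGr n).supp (fun ν => (rowGr n).π ν (x : Fk n))]
      exact (rowGr n).sum_apply _
  exact h.finrank_eq

/-- **THEOREM E from THEOREM E for the single row contents** -/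
theorem te_sum (w : Equiv.Perm (Fin n)) (S J : Finset (Fin n)) (h : TE w S J) :
    (∀ q, CE.HV (nW J) (Fam.homW (gW (lsub J (Nmod w S J) Nmod_colOps))
      (gW (lsub J (Fall (Fset w S J)) Fall_colOps))) (q + 1)) ∧
    finrank ℂ (CE.inv0 (Fam.homW (gW (lsub J (Nmod w S J) Nmod_colOps))
      (gW (lsub J (Fall (Fset w S J)) Fall_colOps))) (nJ J)) = finrank ℂ (Mmod w S S J) := by
  obtain ⟨i, p, hs⟩ := fall_split w S J
  have h1 := hs.hom (gW (lsub J (Nmod w S J) Nmod_colOps))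
  refine ⟨fun q => h1.hv (fun ν => (h ν).1 q), ?_⟩
  have hst : (rowGr n).Stable (Mmod w S S J) := gen_row_stable_row w S (Dset w S J)
  rw [h1.finrank_inv0, finrank_eq_sum_π hst]
  refine Finset.sum_congr rfl fun ν _ => ?_
  have h2 := (h ν).2
  rw [CE.hh0, CE.h0_eq_finrank_inv0] at h2
  exact h2

theorem thmE_of_te (h : ∀ (n : ℕ) (w : Equiv.Perm (Fin n)) (S J : Finset (Fin n)), pos w S ⊆ J →
    TE w S J) : ThmE := fun n w S J hSJ => te_sum w S J (h n w S J hSJ)

end conc

end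

end Gao
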