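import Pool.Agent.Gao.ERoot

/-!
# Theorem E: acyclicity of `Hom` between centered modules (Gao project, MP_b139df_co)

`van_hom`: `van_of_centered` (CEL1) with `simpleRoot_nJ`, `Fam.IsLowering.hom`, `Fam.iSupIndep.homW`, `GrMod.hom`, and
`toEnd (X →ₗ Y) e = homAct (toEnd X e) (toEnd Y e)` (`toEnd_hom` in EHom).
`Nmod_f_stable'`: as `Nmod_f_stable` in PartS.lean (the proof there does not need `w c' ∈ A`; copy it).
`centered_NL`, `centered_F`: restrict `fk_centered` (GenLem) to a subspace stable under `colE c c'` and `colE c' c`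
(`Fam.IsLowering.sub`); for `Fnu (E0 ..) ν` use `Adj.E0_col` and `colE_mem_Fnu`. The action of `sgl c c' h` is
`colE c c'` (`sgl_lie`).
`van_G`: `van_hom` with `chi = 0` and `chi' = 0 + ht (single c' 1) = 1` (`Fam.IsLowering.twist` or by hand for `shiftW`).
-/

set_option autoImplicit false
set_option linter.all false

namespace Gao

open Finset Module Gao.CE
open Gao.Fam (homW)

noncomputable section

variable {n : ℕ}

theorem van_hom {J : Finset (Fin n)} {c c' : Fin n} (h : c ∈ J ∧ c' ∈ J ∧ c < c')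
    (hadj : ∀ j ∈ J, ¬ (c < j ∧ j < c')) {X Y : Type} [AddCommGroup X] [Module ℂ X]
    [LieRingModule (nJ J) X] [LieModule ℂ (nJ J) X] [FiniteDimensional ℂ X]
    [AddCommGroup Y] [Module ℂ Y] [LieRingModule (nJ J) Y] [LieModule ℂ (nJ J) Y]
    [FiniteDimensional ℂ Y] {WX : (Fin n → ℤ) → Submodule ℂ X} {WY : (Fin n → ℤ) → Submodule ℂ Y}
    (hX : GrMod (nW J) WX) (hY : GrMod (nW J) WY) (sX : ⨆ a, WX a = ⊤) (iY : iSupIndep WY)
    {chi chi' : ℤ}
    (cX : Fam.Centered WX (al c c') (htJ c c') (LieModule.toEnd ℂ (nJ J) X (sgl c c' h)) chi)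
    (cY : Fam.Centered WY (al c c') (htJ c c') (LieModule.toEnd ℂ (nJ J) Y (sgl c c' h)) chi')
    (hchi : chi' = chi + 1) (q : ℕ) : HV (nW J) (homW WX WY) q := by
  obtain ⟨P, p, hroot⟩ := simpleRoot_nJ h hadj
  obtain ⟨f, hf⟩ := cX
  obtain ⟨f', hf'⟩ := cY
  have e1 : (LieModule.toEnd ℂ (nJ J) (X →ₗ[ℂ] Y) (sgl c c' h) : Module.End ℂ (X →ₗ[ℂ] Y)) =
      Fam.homAct (LieModule.toEnd ℂ (nJ J) X (sgl c c' h))
        (LieModule.toEnd ℂ (nJ J) Y (sgl c c' h)) := by
    ext φ s
    rw [LieModule.toEnd_apply_apply, LieHom.lie_apply, Fam.homAct_apply,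
      LieModule.toEnd_apply_apply, LieModule.toEnd_apply_apply]
  have hc : Fam.Centered (homW WX WY) (al c c') (htJ c c')
      (LieModule.toEnd ℂ (nJ J) (X →ₗ[ℂ] Y) (sgl c c' h)) 1 := by
    refine ⟨Fam.homAct f f', ?_⟩
    rw [e1]
    have h1 := hf.hom hf' sX
    have h2 : chi' - chi = 1 := by omega
    rwa [h2] at h1
  exact van_of_centered (grLie_nW J) (hX.hom hY) (Fam.iSupIndep.homW iY sX) hroot hc q

variable {w : Equiv.Perm (Fin n)} {A J : Finset (Fin n)} {c c' : Fin n}

lemma Adj.col (h : Adj w A J c c') (x : Fin n) (hx : (x, c') ∈ Dset w A J) :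
    (x, c) ∈ Dset w A J := by
  rw [mem_Dset] at hx ⊢
  obtain ⟨h1, _, h3, h4⟩ := hx
  have h5 : w c < x := lt_of_le_of_lt (h.min c' h.mem') h4
  refine ⟨h1, h.mem, ?_, h5⟩
  refine lt_of_le_of_ne (h.le_of_lt (h.AJ x h1) h3) ?_
  intro h6
  apply ne_of_lt h5
  have h7 : w.symm x = c := h6
  rw [← h7]
  simp

/-- the commutator with `f = colE c' c` of the operators `colE j l`, `j ≤ l` -/
lemma Adj.f_comm (h : Adj w A J c c') {j l : Fin n} (hj : j ∈ J) (hl : l ∈ J) (hjl : j ≤ l)
    {P Q : Submodule ℂ (Fk n)} (hf : ∀ x ∈ P, colE c' c x ∈ Q)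
    (hP : ∀ j ∈ J, ∀ l ∈ J, j ≤ l → ∀ x ∈ P, colE j l x ∈ Q) (x : Fk n) (hx : x ∈ P) :
    colE c' c (colE j l x) - colE j l (colE c' c x) ∈ Q := by
  have h1 := congrArg (fun g : Module.End ℂ (Fk n) => g x) (colE_comm c' c j l)
  simp only [LinearMap.sub_apply, Module.End.mul_apply] at h1
  rw [h1]
  apply Submodule.sub_mem
  · split_ifs with h2
    · subst h2
      rcases eq_or_lt_of_le hjl with h3 | h3
      · subst h3
        exact hf x hx
      · exact hP j hj c h.mem (h.le_of_lt hj h3) x hx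
    · exact Submodule.zero_mem _
  · split_ifs with h2
    · subst h2
      rcases eq_or_lt_of_le hjl with h3 | h3
      · subst h3
        exact hf x hx
      · exact hP c' h.mem' l hl (h.ge_of_gt hl h3) x hx
    · exact Submodule.zero_mem _

lemma Adj.f_kills (h : Adj w A J c c') : colE c' c (Kost.ee (Dset w A J)) = 0 := by
  unfold colE
  rw [LinearMap.sum_apply]
  apply Finset.sum_eq_zero
  intro x _
  rw [Module.End.mul_apply, Kost.an_ee]
  split_ifs with h1
  · rw [map_smul, Kost.cr_ee, if_pos, smul_zero]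
    rw [Finset.mem_erase]
    exact ⟨fun h' => h.ne (Prod.mk.inj h').2, h.col x h1⟩
  · rw [map_zero]

theorem Adj.Nmod_f_stable (h : Adj w A J c c') : ∀ x ∈ Nmod w A J, colE c' c x ∈ Nmod w A J := by
  apply gen_induction
  · rw [map_zero]; exact Submodule.zero_mem _
  · intro x y hx hy; rw [map_add]; exact Submodule.add_mem _ hx hy
  · intro t x hx; rw [map_smul]; exact Submodule.smul_mem _ _ hx
  · rw [h.f_kills]; exact Submodule.zero_mem _
  · rintro T ⟨j, hj, l, hl, hjl, rfl⟩ x hx hfx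
    have h1 : colE c' c (colE j l x) = (colE c' c (colE j l x) - colE j l (colE c' c x)) +
        colE j l (colE c' c x) := by abel
    rw [h1]
    apply Submodule.add_mem
    · apply h.f_comm hj hl hjl.le (P := Submodule.span ℂ {x}) (Q := Nmod w A J)
      · intro y hy
        rw [Submodule.mem_span_singleton] at hy
        obtain ⟨t, rfl⟩ := hy
        rw [map_smul]
        exact Submodule.smul_mem _ _ hfx
      · intro j hj l hl hjl y hy
        rw [Submodule.mem_span_singleton] at hy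
        obtain ⟨t, rfl⟩ := hy
        rw [map_smul]
        exact Submodule.smul_mem _ _ (gen_col_le_stable hj hl hjl hx)
      · exact Submodule.mem_span_singleton_self x
    · exact gen_col_le_stable hj hl hjl.le hfx

/-- `colE c' c` is a lowering operator on the Fock space -/
lemma fk_lowering {c c' : Fin n} (h : c ≠ c') :
    Fam.IsLowering (colGr n).W (al c c') (htJ c c') (colE c c') 0 (colE c' c) where
  lower := by
    intro lam x hx
    have h1 := (hom_colE_col c' c).raises lam x hx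
    have h2 : lam + (Pi.single c 1 - Pi.single c' 1) = lam - al c c' := by
      unfold al
      abel
    rwa [h2] at h1
  comm := by
    intro lam x hx
    have h1 := congrArg (fun u : Module.End ℂ (Fk n) => u x) (colE_ef h lam)
    simp only [Module.End.mul_apply, LinearMap.sub_apply, LinearMap.smul_apply,
      (colGr n).π_of_mem hx] at h1
    rw [sub_zero]
    exact h1

/-- restriction to a Lie submodule stable under `colE c' c` -/
lemma centered_lsub {J : Finset (Fin n)} {c c' : Fin n} (hJ : c ∈ J ∧ c' ∈ J ∧ c < c')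
    (X : LieSubmodule ℂ (nJ J) (Fk n)) (hX : ∀ x ∈ (X : Submodule ℂ (Fk n)), colE c' c x ∈
      (X : Submodule ℂ (Fk n))) :
    Fam.Centered (gW X) (al c c') (htJ c c')
      (LieModule.toEnd ℂ (nJ J) X (sgl c c' hJ)) 0 := by
  have hlow := fk_lowering (ne_of_lt hJ.2.2)
  refine ⟨(colE c' c).restrict hX, ⟨fun lam x hx => ?_, fun lam x hx => ?_⟩⟩
  · exact hlow.lower lam (x : Fk n) hx
  · apply Subtype.ext
    have h1 := hlow.comm lam (x : Fk n) hx
    have h2 : ∀ v : X, ((LieModule.toEnd ℂ (nJ J) X (sgl c c' hJ) v : X) : Fk n) =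
        colE c c' (v : Fk n) := fun v => sgl_lie hJ (v : Fk n)
    change ((LieModule.toEnd ℂ (nJ J) X (sgl c c' hJ) ((colE c' c).restrict hX x) : X) : Fk n) -
      colE c' c ((LieModule.toEnd ℂ (nJ J) X (sgl c c' hJ) x : X) : Fk n) = _
    rw [h2, h2]
    exact h1

theorem Adj.centered_NL (h : Adj w A J c c') :
    Fam.Centered (gW (NL w A J)) (al c c') (htJ c c')
      (LieModule.toEnd ℂ (nJ J) (NL w A J) (sgl c c' ⟨h.mem, h.mem', h.lt⟩)) 0 :=
  centered_lsub ⟨h.mem, h.mem', h.lt⟩ (NL w A J) h.Nmod_f_stable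

theorem Adj.centered_F (h : Adj w A J c c') (ν : Fin n → ℤ) :
    Fam.Centered (gW (FE J (E0 w A J c c') h.RC_E0 ν)) (al c c') (htJ c c')
      (LieModule.toEnd ℂ (nJ J) (FE J (E0 w A J c c') h.RC_E0 ν)
        (sgl c c' ⟨h.mem, h.mem', h.lt⟩)) 0 :=
  centered_lsub ⟨h.mem, h.mem', h.lt⟩ (FE J (E0 w A J c c') h.RC_E0 ν)
    (fun _ hx => colE_mem_Fnu (fun y hy => (h.E0_col y).2 hy) hx)

/-- twisting by a weight -/
theorem centered_shift {X : Type} [AddCommGroup X] [Module ℂ X]
    {W : (Fin n → ℤ) → Submodule ℂ X} {e : Module.End ℂ X} {alpha : Fin n → ℤ}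
    {ht : (Fin n → ℤ) →+ ℤ} {chi : ℤ} (h : Fam.Centered W alpha ht e chi) (mu : Fin n → ℤ) :
    Fam.Centered (shiftW W mu) alpha ht e (chi + ht mu) := by
  obtain ⟨f, hf⟩ := h
  exact ⟨f, hf.twist mu⟩

/-- weight spaces of a Lie submodule of the Fock space -/
theorem iSup_gW {X : LieSubmodule ℂ (nJ J) (Fk n)}
    (hX : (colGr n).Stable (X : Submodule ℂ (Fk n))) : ⨆ a, gW X a = ⊤ := by
  rw [← gG_W X hX]
  exact (gG X hX).iSup_W

theorem iSupIndep_gW {X : LieSubmodule ℂ (nJ J) (Fk n)}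
    (hX : (colGr n).Stable (X : Submodule ℂ (Fk n))) : iSupIndep (gW X) := by
  rw [← gG_W X hX]
  exact (gG X hX).iSupIndep_W

theorem Adj.van_G (h : Adj w A J c c') (ν : Fin n → ℤ) (q : ℕ) :
    HV (nW J) (homW (gW (NL w A J))
      (shiftW (gW (FE J (E0 w A J c c') h.RC_E0 ν)) (Pi.single c' 1))) q := by
  have hht : htJ c c' (Pi.single c' 1) = 1 := by
    rw [htJ_apply, Pi.single_eq_same, Pi.single_eq_of_ne h.ne, sub_zero]
  have hind : iSupIndep (shiftW (gW (FE J (E0 w A J c c') h.RC_E0 ν)) (Pi.single c' 1)) := by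
    have h1 : iSupIndep (gW (FE J (E0 w A J c c') h.RC_E0 ν)) :=
      iSupIndep_gW (stable_Fnu (E0 w A J c c') ν)
    exact h1.comp (f := fun lam : Fin n → ℤ => lam - Pi.single c' 1) (sub_left_injective)
  exact van_hom ⟨h.mem, h.mem', h.lt⟩ h.adj (grMod_gW _) ((grMod_gW _).shift _)
    (iSup_gW (Nmod_stable_col w A J)) hind h.centered_NL
    (centered_shift (h.centered_F ν) (Pi.single c' 1)) (by rw [hht]) q

end

end Gao
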