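import Pool.Agent.Gao.LinkMain
import Pool.Agent.Gao.AlphaFin
import Pool.Agent.Gao.Inert

/-!
# Gao project: the frozen statement from the single input `RProp`
-/

set_option autoImplicit false

namespace Gao

/-- The frozen statement S10857 from `RProp`. -/
theorem frozen_of_rProp (hR : RProp) :
    ∀ c : (m : ℕ) → Equiv.Perm (Fin m) → ℤ,
      (∀ m : ℕ, 1 ≤ m → ∀ w : Equiv.Perm (Fin m),
        ((Nat.card {p : Fin m × Fin m // p.1 < p.2 ∧ w p.2 < w p.1}).factorial : ℤ) *
          (c m w + 1 + ∑ k ∈ Finset.Ico 1 m, ∑ u : Equiv.Perm (Fin k),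
            c k u * (Nat.card {f : Fin k → Fin m //
              StrictMono f ∧ ∀ i j : Fin k, (u i < u j ↔ w (f i) < w (f j))} : ℤ))
        = ∑ s ∈ (Finset.univ : Finset (Fin (Nat.card {p : Fin m × Fin m // p.1 < p.2 ∧ w p.2 < w p.1})
                → Fin m × Fin m)).filter
              (fun s => (∀ i, (s i).2.val = (s i).1.val + 1) ∧
                (List.ofFn (fun i => Equiv.swap (s i).1 (s i).2)).prod = w),
            ∏ i, (((s i).1.val + 1 : ℕ) : ℤ)) →
      ∀ m : ℕ, 1 ≤ m → ∀ w : Equiv.Perm (Fin m), 0 ≤ c m w :=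
  main linkF inertP hR alphaP

end Gao
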