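import Pool.Agent.Gao.Interface

/-!
# Reduction of the frozen statement S10857 to `0 ≤ alt x` for all words with distinct letters
-/

set_option autoImplicit false

namespace Pool.Agent.Gao

open Equiv Finset

/-! ### filtering and sublists -/

lemma filter_mem_of_sublist {s l : List ℕ} (h : s.Sublist l) (hl : l.Nodup) :
    l.filter (· ∈ s.toFinset) = s := by
  induction h with
  | slnil => rfl
  | @cons s l a h ih =>
    rw [List.nodup_cons] at hl
    have ha : a ∉ s := fun h' => hl.1 (h.subset h')
    rw [List.filter_cons_of_neg (by simpa using ha)]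
    exact ih hl.2
  | @cons_cons s l a h ih =>
    rw [List.nodup_cons] at hl
    rw [List.filter_cons_of_pos (by simp)]
    congr 1
    have h2 : l.filter (· ∈ (a :: s).toFinset) = l.filter (· ∈ s.toFinset) := by
      apply List.filter_congr
      intro b hb
      have hba : b ≠ a := fun h' => hl.1 (h' ▸ hb)
      simp [hba]
    rw [h2]
    exact ih hl.2

lemma ofFn_comp_sublist {m k : ℕ} (g : Fin m → ℕ) (f : Fin k → Fin m) (hf : StrictMono f) :
    (List.ofFn (g ∘ f)).Sublist (List.ofFn g) := by
  rw [List.sublist_iff_exists_fin_orderEmbedding_get_eq]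
  have e1 : (List.ofFn (g ∘ f)).length = k := by simp
  have e2 : (List.ofFn g).length = m := by simp
  refine ⟨(OrderEmbedding.ofStrictMono (fun i => Fin.cast e2.symm (f (Fin.cast e1 i))) ?_), ?_⟩
  · intro i j hij
    have : f (Fin.cast e1 i) < f (Fin.cast e1 j) := hf hij
    exact this
  · intro i
    simp only [List.get_ofFn]
    rfl

lemma wd_nodup {m : ℕ} (w : Perm (Fin m)) : (wd w).Nodup := by
  rw [wd, List.nodup_ofFn]
  intro i j h
  exact w.injective (Fin.ext h)

/-! ### standardisation -/

lemma exists_std {k : ℕ} (g : Fin k → ℕ) (hg : Function.Injective g) :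
    ∃ u : Perm (Fin k), ∀ i j, (u i < u j ↔ g i < g j) := by
  refine ⟨(Tuple.sort g)⁻¹, ?_⟩
  intro i j
  have hm : StrictMono (g ∘ Tuple.sort g) :=
    (Tuple.monotone_sort g).strictMono_of_injective (hg.comp (Tuple.sort g).injective)
  have := hm.lt_iff_lt (a := (Tuple.sort g)⁻¹ i) (b := (Tuple.sort g)⁻¹ j)
  simpa using this.symm

lemma std_unique {k : ℕ} (u v : Perm (Fin k)) (h : ∀ i j, (u i < u j ↔ v i < v j)) : u = v := by
  have hm : StrictMono (v * u⁻¹ : Perm (Fin k)) := by
    intro a b hab
    have := (h (u⁻¹ a) (u⁻¹ b)).1 (by simpa using hab)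
    simpa using this
  have h1 : StrictMono.orderIsoOfSurjective (v * u⁻¹ : Perm (Fin k)) hm (v * u⁻¹).surjective =
    OrderIso.refl _ := Subsingleton.elim _ _
  have h2 : v * u⁻¹ = 1 := by
    ext i
    have h3 := congrArg (fun e : Fin k ≃o Fin k => (e i : Fin k).val) h1
    simpa using h3
  exact (mul_inv_eq_one.1 h2).symm

lemma alt_ofFn {k : ℕ} (g : Fin k → ℕ) (u : Perm (Fin k)) (h : ∀ i j, (u i < u j ↔ g i < g j)) :
    alt (List.ofFn g) = alt (wd u) := by
  set G : ℕ → ℕ := fun a => if ha : a < k then g (u⁻¹ ⟨a, ha⟩) else 0 with hG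
  have h1 : List.ofFn g = (wd u).map G := by
    rw [wd, List.map_ofFn]
    congr 1
    funext i
    simp [hG]
  rw [h1]
  apply alt_map
  intro a ha b hb
  rw [wd, List.mem_ofFn] at ha hb
  obtain ⟨i, rfl⟩ := ha
  obtain ⟨j, rfl⟩ := hb
  have h2 : ∀ i : Fin k, G (u i : ℕ) = g i := by
    intro i
    simp [hG]
  rw [h2, h2, ← h i j]
  exact Iff.rfl

/-! ### the main reduction -/

lemma sum_powersetCard_eq {m : ℕ} (w : Perm (Fin m)) (k : ℕ) (N : List ℕ → ℤ) :
    ∑ T ∈ (wd w).toFinset.powersetCard k, N ((wd w).filter (· ∈ T)) =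
      ∑ f ∈ (univ : Finset (Fin k → Fin m)).filter (fun f => StrictMono f),
        N (List.ofFn (fun i => (w (f i) : ℕ))) := by
  symm
  apply Finset.sum_bij (fun f _ => (List.ofFn (fun i => (w (f i) : ℕ))).toFinset)
  · intro f hf
    rw [mem_filter] at hf
    rw [mem_powersetCard]
    have hsub := ofFn_comp_sublist (fun i => (w i : ℕ)) f hf.2
    constructor
    · intro a ha
      rw [List.mem_toFinset] at ha ⊢
      exact hsub.subset ha
    · have hnd := (wd_nodup w).sublist hsub
      have hl := List.toFinset_card_of_nodup hnd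
      rw [List.length_ofFn] at hl
      exact hl
  · intro f hf g hg h
    rw [mem_filter] at hf hg
    have hsf := filter_mem_of_sublist (ofFn_comp_sublist (fun i => (w i : ℕ)) f hf.2) (wd_nodup w)
    have hsg := filter_mem_of_sublist (ofFn_comp_sublist (fun i => (w i : ℕ)) g hg.2) (wd_nodup w)
    have h' : (List.ofFn ((fun i => (w i : ℕ)) ∘ f)) = (List.ofFn ((fun i => (w i : ℕ)) ∘ g)) := by
      rw [← hsf, ← hsg]
      apply List.filter_congr
      intro a _
      have : (List.ofFn ((fun i => (w i : ℕ)) ∘ f)).toFinset =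
        (List.ofFn ((fun i => (w i : ℕ)) ∘ g)).toFinset := h
      rw [this]
    rw [List.ofFn_inj] at h'
    funext i
    have := congrFun h' i
    exact w.injective (Fin.ext this)
  · intro T hT
    rw [mem_powersetCard] at hT
    set P : Finset (Fin m) := univ.filter (fun p => (w p : ℕ) ∈ T) with hP
    have himg : P.image (fun p => (w p : ℕ)) = T := by
      ext a
      simp only [hP, mem_image, mem_filter, mem_univ, true_and]
      constructor
      · rintro ⟨p, h1, rfl⟩; exact h1
      · intro ha
        have := hT.1 ha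
        rw [List.mem_toFinset, wd, List.mem_ofFn] at this
        obtain ⟨p, hp⟩ := this
        exact ⟨p, by rw [hp]; exact ha, hp⟩
    have hcard : P.card = k := by
      rw [← hT.2, ← himg, card_image_of_injective]
      intro p q h
      exact w.injective (Fin.ext h)
    refine ⟨P.orderEmbOfFin hcard, ?_, ?_⟩
    · rw [mem_filter]
      exact ⟨mem_univ _, (P.orderEmbOfFin hcard).strictMono⟩
    · rw [← himg]
      ext a
      simp only [List.mem_toFinset, List.mem_ofFn, mem_image]
      have hr := P.range_orderEmbOfFin hcard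
      constructor
      · rintro ⟨i, rfl⟩
        exact ⟨_, P.orderEmbOfFin_mem hcard i, rfl⟩
      · rintro ⟨p, hp, rfl⟩
        have : p ∈ Set.range (P.orderEmbOfFin hcard) := by rw [hr]; exact_mod_cast hp
        obtain ⟨i, rfl⟩ := this
        exact ⟨i, rfl⟩
  · intro f hf
    rw [mem_filter] at hf
    have hsf := filter_mem_of_sublist (ofFn_comp_sublist (fun i => (w i : ℕ)) f hf.2) (wd_nodup w)
    have e : List.ofFn (fun i => (w (f i) : ℕ)) = List.ofFn ((fun i => (w i : ℕ)) ∘ f) := rfl
    rw [e]
    congr 1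
    exact hsf.symm

lemma sum_pattern {m : ℕ} (w : Perm (Fin m)) (k : ℕ) :
    ∑ T ∈ (wd w).toFinset.powersetCard k, alt ((wd w).filter (· ∈ T)) =
      ∑ u : Perm (Fin k), alt (wd u) * (Nat.card {f : Fin k → Fin m //
              StrictMono f ∧ ∀ i j : Fin k, (u i < u j ↔ w (f i) < w (f j))} : ℤ) := by
  rw [sum_powersetCard_eq w k alt]
  have h1 : ∀ f ∈ (univ : Finset (Fin k → Fin m)).filter (fun f => StrictMono f),
      alt (List.ofFn (fun i => (w (f i) : ℕ))) = ∑ u : Perm (Fin k),
        (if (∀ i j : Fin k, (u i < u j ↔ w (f i) < w (f j))) then alt (wd u) else 0) := by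
    intro f hf
    rw [mem_filter] at hf
    have hinj : Function.Injective (fun i => (w (f i) : ℕ)) := by
      intro i j h
      exact hf.2.injective (w.injective (Fin.ext h))
    obtain ⟨u, hu⟩ := exists_std _ hinj
    rw [alt_ofFn _ u hu]
    rw [Finset.sum_eq_single u]
    · rw [if_pos]
      intro i j
      rw [hu i j]
      exact Iff.rfl
    · intro v _ hv
      rw [if_neg]
      intro h
      apply hv
      apply std_unique
      intro i j
      rw [h i j, hu i j]
      exact Iff.rfl
    · intro h
      exact absurd (mem_univ u) h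
  rw [sum_congr rfl h1, sum_comm]
  apply sum_congr rfl
  intro u _
  rw [← sum_filter, sum_const, filter_filter, Nat.card_eq_fintype_card, Fintype.card_subtype]
  rw [nsmul_eq_mul, mul_comm]

/-- The hypothesis of the frozen statement forces `c m w = alt (wd w)`. -/
theorem c_eq_alt (c : (m : ℕ) → Equiv.Perm (Fin m) → ℤ)
    (hc : ∀ m : ℕ, 1 ≤ m → ∀ w : Equiv.Perm (Fin m),
        ((Nat.card {p : Fin m × Fin m // p.1 < p.2 ∧ w p.2 < w p.1}).factorial : ℤ) *
          (c m w + 1 + ∑ k ∈ Finset.Ico 1 m, ∑ u : Equiv.Perm (Fin k),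
            c k u * (Nat.card {f : Fin k → Fin m //
              StrictMono f ∧ ∀ i j : Fin k, (u i < u j ↔ w (f i) < w (f j))} : ℤ))
        = ∑ s ∈ (Finset.univ : Finset (Fin (Nat.card {p : Fin m × Fin m // p.1 < p.2 ∧ w p.2 < w p.1})
                → Fin m × Fin m)).filter
              (fun s => (∀ i, (s i).2.val = (s i).1.val + 1) ∧
                (List.ofFn (fun i => Equiv.swap (s i).1 (s i).2)).prod = w),
            ∏ i, (((s i).1.val + 1 : ℕ) : ℤ)) :
    ∀ m : ℕ, 1 ≤ m → ∀ w : Equiv.Perm (Fin m), c m w = alt (wd w) := by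
  intro m
  induction m using Nat.strong_induction_on with
  | _ m ih =>
    intro hm w
    have h1 := hc m hm w
    rw [macdonald w] at h1
    have hfac : ((Nat.card {p : Fin m × Fin m // p.1 < p.2 ∧ w p.2 < w p.1}).factorial : ℤ) ≠ 0 := by
      exact_mod_cast Nat.factorial_ne_zero _
    have h2 := mul_left_cancel₀ hfac h1
    have hF : Fn m (wd w) = F (wd w) := by
      unfold F; rw [wd_length]
    rw [hF, F_eq_sum_alt (wd w)] at h2
    have hcard : (wd w).toFinset.card = m := by
      rw [List.toFinset_card_of_nodup (wd_nodup w), wd_length]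
    rw [Finset.sum_powerset, hcard] at h2
    have h3 : ∑ k ∈ range (m + 1), ∑ T ∈ (wd w).toFinset.powersetCard k, alt ((wd w).filter (· ∈ T)) =
        1 + (∑ k ∈ Ico 1 m, ∑ u : Perm (Fin k), c k u * (Nat.card {f : Fin k → Fin m //
              StrictMono f ∧ ∀ i j : Fin k, (u i < u j ↔ w (f i) < w (f j))} : ℤ)) + alt (wd w) := by
      rw [sum_range_succ]
      have e0 : range m = insert 0 (Ico 1 m) := by
        ext k; simp only [mem_range, mem_insert, mem_Ico]; omega
      rw [e0, sum_insert (by simp)]
      congr 1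
      · congr 1
        · rw [powersetCard_zero, sum_singleton]
          simp [alt]
        · apply sum_congr rfl
          intro k hk
          rw [mem_Ico] at hk
          rw [sum_pattern w k]
          apply sum_congr rfl
          intro u _
          rw [ih k hk.2 hk.1 u]
      · have h5 : ∀ n, (wd w).toFinset.card = n →
            (wd w).toFinset.powersetCard n = {(wd w).toFinset} := by
          rintro n rfl
          exact powersetCard_self _
        rw [h5 m hcard, sum_singleton, filter_toFinset]
    rw [h3] at h2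
    linarith

/-- **Interface.**  The frozen statement S10857 follows from nonnegativity of the alternating sums. -/
theorem frozen_of_alt_nonneg (H : ∀ x : List ℕ, x.Nodup → 0 ≤ alt x) :
    ∀ c : (m : ℕ) → Equiv.Perm (Fin m) → ℤ,
      (∀ m : ℕ, 1 ≤ m → ∀ w : Equiv.Perm (Fin m),
        ((Nat.card {p : Fin m × Fin m // p.1 < p.2 ∧ w p.2 < w p.1}).factorial : ℤ) *
          (c m w + 1 + ∑ k ∈ Finset.Ico 1 m, ∑ u : Equiv.Perm (Fin k),
            c k u * (Nat.card {f : Fin k → Fin m //
              StrictMono f ∧ ∀ i j : Fin k, (u i < u j ↔ w (f i) < w (f j))} : ℤ))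
        = ∑ s ∈ (Finset.univ : Finset (Fin (Nat.card {p : Fin m × Fin m // p.1 < p.2 ∧ w p.2 < w p.1})
                → Fin m × Fin m)).filter
              (fun s => (∀ i, (s i).2.val = (s i).1.val + 1) ∧
                (List.ofFn (fun i => Equiv.swap (s i).1 (s i).2)).prod = w),
            ∏ i, (((s i).1.val + 1 : ℕ) : ℤ)) →
      ∀ m : ℕ, 1 ≤ m → ∀ w : Equiv.Perm (Fin m), 0 ≤ c m w := by
  intro c hc m hm w
  rw [c_eq_alt c hc m hm w]
  exact H _ (wd_nodup w)

/-- The sign sum over the supersets of a set. -/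
lemma sum_interval' (X S : Finset ℕ) (hS : S ⊆ X) :
    ∑ T ∈ X.powerset, (if S ⊆ T then (-1 : ℤ) ^ (X.card - T.card) else 0) = if S = X then 1 else 0 := by
  have h1 : ∀ T ∈ X.powerset, (if S ⊆ T then (-1 : ℤ) ^ (X.card - T.card) else 0) =
      (-1 : ℤ) ^ (X.card - S.card) * (if S ⊆ T then (-1 : ℤ) ^ (T.card - S.card) else 0) := by
    intro T hT
    rw [mem_powerset] at hT
    split_ifs with h
    · have h2 : X.card - S.card = (X.card - T.card) + (T.card - S.card) := by
        have := card_le_card h
        have := card_le_card hT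
        omega
      rw [h2, pow_add, mul_assoc, ← pow_add, ← two_mul, pow_mul]
      simp
    · simp
  rw [sum_congr rfl h1, ← mul_sum, ← sum_filter, sum_interval X S hS]
  split_ifs with h
  · subst h; simp
  · simp

/-- Label form: the alternating sum counts the objects with full label. -/
theorem alt_eq_card_of_labels (x : List ℕ) {ι : Type*} [Fintype ι] (U : ι → Finset ℕ)
    (hU : ∀ T ∈ x.toFinset.powerset, (((univ : Finset ι).filter (fun i => U i ⊆ T)).card : ℤ) =
      F (x.filter (· ∈ T))) :
    alt x = ((univ : Finset ι).filter (fun i => U i = x.toFinset)).card := by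
  unfold alt
  have h2 : ∀ T ∈ x.toFinset.powerset, (-1 : ℤ) ^ (x.toFinset.card - T.card) * F (x.filter (· ∈ T)) =
      ∑ i : ι, (if U i ⊆ T then (-1 : ℤ) ^ (x.toFinset.card - T.card) else 0) := by
    intro T hT
    rw [← hU T hT, ← sum_filter, sum_const, nsmul_eq_mul, mul_comm]
  rw [sum_congr rfl h2, sum_comm, card_filter]
  push_cast
  apply sum_congr rfl
  intro i _
  by_cases hi : U i ⊆ x.toFinset
  · exact sum_interval' _ _ hi
  · rw [if_neg (fun h : U i = x.toFinset => hi h.subset)]
    apply sum_eq_zero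
    intro T hT
    rw [if_neg]
    intro h
    exact hi (h.trans (mem_powerset.1 hT))

theorem alt_nonneg_of_labels (x : List ℕ) {ι : Type*} [Fintype ι] (U : ι → Finset ℕ)
    (hU : ∀ T ∈ x.toFinset.powerset, (((univ : Finset ι).filter (fun i => U i ⊆ T)).card : ℤ) =
      F (x.filter (· ∈ T))) : 0 ≤ alt x := by
  rw [alt_eq_card_of_labels x U hU]
  positivity

end Pool.Agent.Gao
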