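import Pool.Agent.Gao.Words

/-!
# Gao's coefficients as alternating sums over subwords

`alt x = ∑_{T ⊆ letters of x} (-1)^{|x| - |T|} F (x restricted to T)`.
`frozen_of_alt_nonneg`: if `0 ≤ alt x` for all words with distinct letters, then the frozen statement S10857 holds.
-/

set_option autoImplicit false

namespace Pool.Agent.Gao

open Equiv Finset

/-- the alternating sum -/
def alt (x : List ℕ) : ℤ :=
  ∑ T ∈ x.toFinset.powerset, (-1 : ℤ) ^ (x.toFinset.card - T.card) * F (x.filter (· ∈ T))

lemma toFinset_filter_mem (x : List ℕ) (T : Finset ℕ) (hT : T ⊆ x.toFinset) :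
    (x.filter (· ∈ T)).toFinset = T := by
  ext a
  simp only [List.mem_toFinset, List.mem_filter, decide_eq_true_eq]
  constructor
  · exact fun h => h.2
  · intro h
    exact ⟨List.mem_toFinset.1 (hT h), h⟩

lemma filter_filter_mem (x : List ℕ) (S T : Finset ℕ) (h : S ⊆ T) :
    (x.filter (· ∈ T)).filter (· ∈ S) = x.filter (· ∈ S) := by
  rw [List.filter_filter]
  apply List.filter_congr
  intro a _
  by_cases ha : a ∈ S
  · simp [ha, h ha]
  · simp [ha]

lemma filter_toFinset (x : List ℕ) : x.filter (· ∈ x.toFinset) = x := by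
  rw [List.filter_eq_self]
  intro a ha
  simpa using ha

lemma alt_filter (x : List ℕ) (T : Finset ℕ) (hT : T ⊆ x.toFinset) :
    alt (x.filter (· ∈ T)) =
      ∑ S ∈ T.powerset, (-1 : ℤ) ^ (T.card - S.card) * F (x.filter (· ∈ S)) := by
  unfold alt
  rw [toFinset_filter_mem x T hT]
  apply sum_congr rfl
  intro S hS
  rw [filter_filter_mem x S T (mem_powerset.1 hS)]

/-- alternating sum over an interval of the Boolean lattice -/
lemma sum_interval (X S : Finset ℕ) (hS : S ⊆ X) :
    ∑ T ∈ X.powerset.filter (fun T => S ⊆ T), (-1 : ℤ) ^ (T.card - S.card) = if S = X then 1 else 0 := by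
  have h1 : ∑ T ∈ X.powerset.filter (fun T => S ⊆ T), (-1 : ℤ) ^ (T.card - S.card) =
      ∑ V ∈ (X \ S).powerset, (-1 : ℤ) ^ V.card := by
    apply Finset.sum_bij' (fun T _ => T \ S) (fun V _ => V ∪ S)
    · intro T hT
      rw [mem_filter, mem_powerset] at hT
      rw [mem_powerset]
      exact sdiff_subset_sdiff hT.1 (Subset.refl _)
    · intro V hV
      rw [mem_powerset] at hV
      rw [mem_filter, mem_powerset]
      exact ⟨union_subset (hV.trans sdiff_subset) hS, subset_union_right⟩
    · intro T hT
      rw [mem_filter, mem_powerset] at hT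
      exact sdiff_union_of_subset hT.2
    · intro V hV
      rw [mem_powerset] at hV
      rw [union_sdiff_right]
      apply sdiff_eq_self_of_disjoint
      exact Disjoint.mono_left hV sdiff_disjoint
    · intro T hT
      rw [mem_filter, mem_powerset] at hT
      rw [card_sdiff_of_subset hT.2]
  rw [h1, sum_powerset_neg_one_pow_card]
  by_cases h : S = X
  · subst h; simp
  · rw [if_neg h, if_neg]
    intro h2
    rw [sdiff_eq_empty_iff_subset] at h2
    exact h (Subset.antisymm hS h2)

/-- Möbius inversion -/
theorem F_eq_sum_alt (x : List ℕ) :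
    F x = ∑ T ∈ x.toFinset.powerset, alt (x.filter (· ∈ T)) := by
  have h1 : ∀ T ∈ x.toFinset.powerset, alt (x.filter (· ∈ T)) =
      ∑ S ∈ x.toFinset.powerset, if S ⊆ T then (-1 : ℤ) ^ (T.card - S.card) * F (x.filter (· ∈ S)) else 0 := by
    intro T hT
    rw [alt_filter x T (mem_powerset.1 hT), ← sum_filter]
    apply sum_congr
    · ext S
      simp only [mem_powerset, mem_filter]
      constructor
      · exact fun h => ⟨h.trans (mem_powerset.1 hT), h⟩
      · exact fun h => h.2
    · intro _ _; rfl
  rw [sum_congr rfl h1, sum_comm]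
  have h2 : ∀ S ∈ x.toFinset.powerset,
      (∑ T ∈ x.toFinset.powerset, if S ⊆ T then (-1 : ℤ) ^ (T.card - S.card) * F (x.filter (· ∈ S)) else 0) =
      if S = x.toFinset then F x else 0 := by
    intro S hS
    rw [← sum_filter, ← sum_mul, sum_interval _ _ (mem_powerset.1 hS)]
    split_ifs with h
    · rw [h, filter_toFinset, one_mul]
    · rw [zero_mul]
  rw [sum_congr rfl h2, sum_ite_eq' ]
  simp

/-- Uniqueness of Möbius inversion -/
theorem eq_alt_of_sum (N : List ℕ → ℤ)
    (hN : ∀ x : List ℕ, x.Nodup → F x = ∑ T ∈ x.toFinset.powerset, N (x.filter (· ∈ T))) :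
    ∀ x : List ℕ, x.Nodup → N x = alt x := by
  have key : ∀ (n : ℕ) (x : List ℕ), x.length = n → x.Nodup → N x = alt x := by
    intro n
    induction n using Nat.strong_induction_on with
    | _ n ih =>
      intro x hx hnd
      have h1 := hN x hnd
      have h2 := F_eq_sum_alt x
      have hmem : x.toFinset ∈ x.toFinset.powerset := mem_powerset.2 (Subset.refl _)
      rw [← Finset.add_sum_erase _ _ hmem, filter_toFinset] at h1 h2
      have h3 : ∑ T ∈ x.toFinset.powerset.erase x.toFinset, N (x.filter (· ∈ T)) =
          ∑ T ∈ x.toFinset.powerset.erase x.toFinset, alt (x.filter (· ∈ T)) := by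
        apply sum_congr rfl
        intro T hT
        rw [mem_erase, mem_powerset] at hT
        apply ih (x.filter (· ∈ T)).length _ _ rfl (hnd.filter _)
        have h4 : (x.filter (· ∈ T)).length = T.card := by
          rw [← toFinset_filter_mem x T hT.2, List.toFinset_card_of_nodup (hnd.filter _),
            toFinset_filter_mem x T hT.2]
        rw [h4, ← hx, ← List.toFinset_card_of_nodup hnd]
        exact card_lt_card (lt_of_le_of_ne hT.2 hT.1)
      linarith
  intro x hnd
  exact key x.length x rfl hnd

/-! ### relabelling -/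

theorem alt_map (g : ℕ → ℕ) (x : List ℕ) (hg : ∀ a ∈ x, ∀ b ∈ x, (g a < g b ↔ a < b)) :
    alt (x.map g) = alt x := by
  have hinj : Set.InjOn g (x.toFinset : Set ℕ) := by
    intro a ha b hb hab
    have ha' : a ∈ x := by simpa using ha
    have hb' : b ∈ x := by simpa using hb
    have h1 := hg a ha' b hb'
    have h2 := hg b hb' a ha'
    rw [hab] at h1 h2
    simp only [lt_self_iff_false, false_iff, not_lt] at h1 h2
    omega
  have himg : (x.map g).toFinset = x.toFinset.image g := by
    ext a
    simp
  have hcard : ∀ T ⊆ x.toFinset, (T.image g).card = T.card := by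
    intro T hT
    apply card_image_of_injOn
    exact hinj.mono (by exact_mod_cast hT)
  unfold alt
  rw [himg, hcard _ (Subset.refl _)]
  symm
  apply Finset.sum_bij (fun T _ => T.image g)
  · intro T hT
    rw [mem_powerset] at hT ⊢
    exact image_subset_image hT
  · intro S hS T hT h
    rw [mem_powerset] at hS hT
    have h' : g '' (S : Set ℕ) = g '' (T : Set ℕ) := by
      have := congrArg (fun A : Finset ℕ => (A : Set ℕ)) h
      simpa using this
    have := (hinj.image_eq_image_iff (by exact_mod_cast hS) (by exact_mod_cast hT)).1 h'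
    exact_mod_cast this
  · intro V hV
    rw [mem_powerset] at hV
    refine ⟨x.toFinset.filter (fun a => g a ∈ V), ?_, ?_⟩
    · rw [mem_powerset]; exact filter_subset _ _
    · ext a
      simp only [mem_image, mem_filter]
      constructor
      · rintro ⟨b, ⟨_, h2⟩, rfl⟩; exact h2
      · intro ha
        obtain ⟨b, hb, rfl⟩ := mem_image.1 (hV ha)
        exact ⟨b, ⟨hb, ha⟩, rfl⟩
  · intro T hT
    rw [mem_powerset] at hT
    rw [hcard T hT]
    congr 1
    have hf : (x.map g).filter (· ∈ T.image g) = (x.filter (· ∈ T)).map g := by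
      rw [List.filter_map]
      congr 1
      apply List.filter_congr
      intro a ha
      simp only [Function.comp, mem_image, decide_eq_decide]
      constructor
      · rintro ⟨b, hb, hab⟩
        have : b = a := hinj (by exact_mod_cast hT hb) (by simpa using ha) hab
        rw [← this]; exact hb
      · intro h; exact ⟨a, h, rfl⟩
    rw [hf]
    symm
    apply F_map
    intro a ha b hb
    exact hg a (List.mem_of_mem_filter ha) b (List.mem_of_mem_filter hb)

end Pool.Agent.Gao
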