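import Pool.Agent.Gao.FockTw
import Pool.Agent.Gao.ProgS
import Pool.Agent.Gao.GenLem

/-!
# Gao project: the facts of `KDInst`, part 1 (signs, weights, row operators)
-/

namespace Gao

open Finset Module

noncomputable section

variable {n : ℕ} {w : Equiv.Perm (Fin n)} {J : Finset (Fin n)}

lemma length_boxesJ (x : Fin n) (l : Finset (Fin J.card)) :
    ((dataJ J).boxes x l).length = l.card := by
  rw [SlotData.length_boxes]
  rfl

lemma boxesJ_fst {x : Fin n} {l : Finset (Fin J.card)} {b : Fin n × Fin n}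
    (h : b ∈ (dataJ J).boxes x l) : b.1 = x := by
  have h1 := (dataJ J).boxes_Sl h
  exact (Finset.mem_filter.1 h1).2

lemma mem_SlJ {x : Fin n} {b : Fin n × Fin n} : b ∈ (dataJ J).Sl x ↔ b.1 = x := by
  change b ∈ univ.filter (fun y : Fin n × Fin n => y.1 = x) ↔ _
  simp

lemma anL_anL {B : Type} [Fintype B] [DecidableEq B] (L L' : List B) :
    anL L' * anL L = (-1 : ℂ) ^ (L.length * L'.length) • (anL L * anL L') := by
  have h0 : ∀ (x : B) (L : List B),
      anL L * Kost.an x = (-1 : ℂ) ^ L.length • (Kost.an x * anL L) := by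
    intro x L
    induction L with
    | nil => simp
    | cons a L ih =>
      rw [anL_cons, mul_assoc, an_swap, mul_neg, ← mul_assoc, ih, List.length_cons, pow_succ,
        smul_mul_assoc, mul_assoc, mul_neg, mul_one, neg_smul]
  induction L with
  | nil => simp
  | cons a L ih =>
    rw [anL_cons, ← mul_assoc, ih, smul_mul_assoc, mul_assoc, h0, mul_smul_comm, smul_smul,
      List.length_cons, ← pow_add, ← mul_assoc]
    congr 2
    ring

theorem extJ_extJ' {x y : Fin n} (h : x ≠ y) {l l' : Finset (Fin J.card)}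
    (hl : l.card = szJ w J x) (hl' : l'.card = szJ w J y) (v : Fk n) :
    (dataJ J).ext x l ((dataJ J).ext y l' v) =
      ((-1 : ℂ) ^ (szJ w J x * szJ w J y)) • (dataJ J).ext y l' ((dataJ J).ext x l v) := by
  rw [← hl, ← hl', SlotData.ext_apply, SlotData.ext_apply, SlotData.ext_apply, SlotData.ext_apply]
  have e1 := congrArg (fun g : Module.End ℂ (Fk n) => g (anL ((dataJ J).boxes y l') v))
    ((dataJ J).dz_anL (p := y) (L := (dataJ J).boxes x l)
      (fun z hz hz' => h ((boxesJ_fst hz).symm.trans (mem_SlJ.1 hz'))))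
  have e2 := congrArg (fun g : Module.End ℂ (Fk n) => g (anL ((dataJ J).boxes x l) v))
    ((dataJ J).dz_anL (p := x) (L := (dataJ J).boxes y l')
      (fun z hz hz' => h ((mem_SlJ.1 hz').symm.trans (boxesJ_fst hz))))
  simp only [Module.End.mul_apply] at e1 e2
  rw [← e1, ← e2]
  have e3 := congrArg (fun g : Module.End ℂ (Fk n) => g v)
    (anL_anL ((dataJ J).boxes y l') ((dataJ J).boxes x l))
  simp only [Module.End.mul_apply, LinearMap.smul_apply] at e3
  have e4 : (dataJ J).dz x * (dataJ J).dz y = (dataJ J).dz y * (dataJ J).dz x := dia_comm _ _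
  rw [e3, map_smul, map_smul, length_boxesJ, length_boxesJ, mul_comm l'.card,
    ← Module.End.mul_apply ((dataJ J).dz x), e4, Module.End.mul_apply]

theorem extJ_insJ' {x y : Fin n} (h : x ≠ y) {l l' : Finset (Fin J.card)}
    (hl : l.card = szJ w J x) (hl' : l'.card = szJ w J y) (v : Fk n) :
    (dataJ J).ext x l ((dataJ J).ins y l' v) =
      ((-1 : ℂ) ^ (szJ w J x * szJ w J y)) • (dataJ J).ins y l' ((dataJ J).ext x l v) := by
  rw [← hl, ← hl', SlotData.ext_apply, SlotData.ext_apply, SlotData.ins_apply, SlotData.ins_apply,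
    ← Module.End.mul_apply (anL _), anL_crL' (fun z hz hz' =>
      h ((boxesJ_fst hz).symm.trans (boxesJ_fst hz'))), LinearMap.smul_apply, map_smul,
    Module.End.mul_apply, ← Module.End.mul_apply ((dataJ J).dz x),
    (dataJ J).dz_crL (fun z hz hz' => h ((mem_SlJ.1 hz').symm.trans (boxesJ_fst hz))),
    Module.End.mul_apply, length_boxesJ, length_boxesJ, mul_comm l'.card]

theorem insJ_insJ' {x y : Fin n} {l l' : Finset (Fin J.card)}
    (hl : l.card = szJ w J x) (hl' : l'.card = szJ w J y) (v : Fk n) :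
    (dataJ J).ins x l ((dataJ J).ins y l' v) =
      ((-1 : ℂ) ^ (szJ w J x * szJ w J y)) • (dataJ J).ins y l' ((dataJ J).ins x l v) := by
  rw [← hl, ← hl', SlotData.ins_apply, SlotData.ins_apply, SlotData.ins_apply, SlotData.ins_apply,
    ← Module.End.mul_apply (crL _), crL_crL, LinearMap.smul_apply, Module.End.mul_apply,
    length_boxesJ, length_boxesJ, mul_comm l'.card]

/-- vectors of `Fall (Fset w U J)`, `x ∉ U`, have no boxes in row `x` -/
lemma mem_V'J {x : Fin n} {U : Finset (Fin n)} (hx : x ∉ U) {z : Fk n}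
    (hz : z ∈ Fall (Fset w U J)) : z ∈ (dataJ J).V' x := by
  have h := map_mem_of_Fall (P := (dataJ J).V' x) (T := LinearMap.id) (fun D hD => by
    rw [LinearMap.id_apply, SlotData.mem_V', SlotData.dz_ee, if_pos]
    rw [Finset.disjoint_left]
    intro b hb hb'
    exact hx ((mem_SlJ.1 hb') ▸ (mem_Fset.1 (hD hb)).1)) hz
  exact h

theorem extJ_insJ_self' {x : Fin n} {U : Finset (Fin n)} (hx : x ∉ U)
    (l l' : Finset (Fin J.card)) {z : Fk n} (hz : z ∈ Fall (Fset w U J)) :
    (dataJ J).ext x l ((dataJ J).ins x l' z) = if l = l' then z else 0 :=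
  (dataJ J).ext_ins x l l' z (mem_V'J hx hz)

lemma hom_crL_col (L : List (Fin n × Fin n)) :
    Hom (colGr n) (crL L) ((L.map (fun b => Pi.single b.2 (1 : ℤ))).sum) := by
  induction L with
  | nil => intro a; simp
  | cons x L ih =>
    rw [crL_cons, List.map_cons, List.sum_cons, add_comm]
    exact (hom_cr_col x).mul' ih

lemma hom_anL_col (L : List (Fin n × Fin n)) :
    Hom (colGr n) (anL L) (-(L.map (fun b => Pi.single b.2 (1 : ℤ))).sum) := by
  induction L with
  | nil => intro a; simp
  | cons x L ih =>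
    rw [anL_cons, List.map_cons, List.sum_cons, neg_add]
    exact ih.mul' (hom_an_col x)

lemma sum_boxesJ (x : Fin n) (l : Finset (Fin J.card)) :
    (((dataJ J).boxes x l).map (fun b => (Pi.single b.2 (1 : ℤ) : Fin n → ℤ))).sum =
      ∑ k ∈ l, Pi.single (gJ J k) 1 := by
  have h0 : (dataJ J).boxes x l = (l.sort (· ≤ ·)).map (fun i => (x, gJ J i)) := by
    change (l.sort (· ≤ ·)).map (fun i => (x, gJ J i)) ++ [] = _
    rw [List.append_nil]
  rw [h0, List.map_map, Finset.sum_eq_multiset_sum, ← Finset.sort_eq l (· ≤ ·), Multiset.map_coe,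
    Multiset.sum_coe]
  rfl

lemma hom_dzJ_col (x : Fin n) : Hom (colGr n) ((dataJ J).dz x) 0 := by
  intro a
  rw [add_zero]
  exact dia_comm _ _

theorem insJ_hom' (x : Fin n) (l : Finset (Fin J.card)) :
    Hom (colGr n) ((dataJ J).ins x l) (∑ k ∈ l, Pi.single (gJ J k) 1) := by
  rw [← sum_boxesJ x l]
  exact hom_crL_col _

theorem extJ_hom' (x : Fin n) (l : Finset (Fin J.card)) :
    Hom (colGr n) ((dataJ J).ext x l) (-∑ k ∈ l, Pi.single (gJ J k) 1) := by
  rw [← sum_boxesJ x l]
  have h := (hom_dzJ_col (J := J) x).mul' (hom_anL_col ((dataJ J).boxes x l))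
  rw [add_zero] at h
  exact h

theorem rowE_insJ' {x y z : Fin n} (hy : x ≠ y) (l : Finset (Fin J.card)) :
    rowE y z * (dataJ J).ins x l = (dataJ J).ins x l * rowE y z := by
  change rowE y z * crL ((dataJ J).boxes x l) = crL ((dataJ J).boxes x l) * rowE y z
  unfold rowE
  rw [Finset.sum_mul, Finset.mul_sum]
  refine Finset.sum_congr rfl fun j _ => ?_
  rw [bil_crL ((dataJ J).boxes_nodup x l), if_neg, zero_add]
  intro h
  exact hy (boxesJ_fst h).symm

theorem rowE_extJ' {x y z : Fin n} (hy : x ≠ y) (hz : x ≠ z) (l : Finset (Fin J.card)) :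
    rowE y z * (dataJ J).ext x l = (dataJ J).ext x l * rowE y z := by
  change rowE y z * ((dataJ J).dz x * anL ((dataJ J).boxes x l)) =
    ((dataJ J).dz x * anL ((dataJ J).boxes x l)) * rowE y z
  unfold rowE
  rw [Finset.sum_mul, Finset.mul_sum]
  refine Finset.sum_congr rfl fun j _ => ?_
  have h1 : anL ((dataJ J).boxes x l) * (Kost.cr (z, j) * Kost.an (y, j)) =
      Kost.cr (z, j) * Kost.an (y, j) * anL ((dataJ J).boxes x l) := by
    rw [anL_bil ((dataJ J).boxes_nodup x l), if_neg, zero_add]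
    intro h
    exact hz (boxesJ_fst h).symm
  have h2 : (dataJ J).dz x * (Kost.cr (z, j) * Kost.an (y, j)) =
      Kost.cr (z, j) * Kost.an (y, j) * (dataJ J).dz x := by
    rw [← mul_assoc, (dataJ J).dz_cr (fun h' => hz (mem_SlJ.1 h').symm), mul_assoc,
      (dataJ J).dz_an (fun h' => hy (mem_SlJ.1 h').symm), mul_assoc]
  rw [mul_assoc ((dataJ J).dz x), h1, ← mul_assoc ((dataJ J).dz x), h2]
  simp only [mul_assoc]

end

end Gao
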