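import Pool.Agent.Gao.FockTw
import Pool.Agent.Gao.ProgS
import Pool.Agent.Gao.GenLem

set_option linter.unusedSectionVars false

/-!
# Concrete facts for part K, part 2 (see `KDInst.lean`)
-/

namespace Gao

open Finset Module

noncomputable section

namespace KDB

/-! ### permutations of lists of operators -/

section perm

variable {B : Type} [Fintype B] [DecidableEq B]

lemma crL_perm {L L' : List B} (h : L.Perm L') : ∃ ε : ℂ, ε * ε = 1 ∧ ∀ g : B → B,
    crL (L.map g) = ε • crL (L'.map g) ∧ anL (L.map g) = ε • anL (L'.map g) := by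
  induction h with
  | nil => exact ⟨1, by norm_num, fun g => ⟨by rw [one_smul], by rw [one_smul]⟩⟩
  | cons x _ ih =>
    obtain ⟨ε, hε, h⟩ := ih
    refine ⟨ε, hε, fun g => ⟨?_, ?_⟩⟩
    · rw [List.map_cons, List.map_cons, crL_cons, crL_cons, (h g).1, mul_smul_comm]
    · rw [List.map_cons, List.map_cons, anL_cons, anL_cons, (h g).2, smul_mul_assoc]
  | swap x y L =>
    refine ⟨-1, by norm_num, fun g => ⟨?_, ?_⟩⟩
    · simp only [List.map_cons, crL_cons]
      rw [← mul_assoc, cr_swap, neg_mul, mul_assoc, neg_smul, one_smul]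
    · simp only [List.map_cons, anL_cons]
      rw [mul_assoc, an_swap, mul_neg, mul_assoc, neg_smul, one_smul]
  | trans _ _ ih1 ih2 =>
    obtain ⟨ε, hε, h⟩ := ih1
    obtain ⟨ε', hε', h'⟩ := ih2
    refine ⟨ε * ε', by rw [mul_mul_mul_comm, hε, hε', one_mul], fun g => ⟨?_, ?_⟩⟩
    · rw [(h g).1, (h' g).1, smul_smul]
    · rw [(h g).2, (h' g).2, smul_smul]

lemma anL_ee {L : List B} (hL : L.Nodup) {D : Finset B} (h : ∀ b ∈ L, b ∈ D) :
    ∃ c : ℂ, anL L (Kost.ee D) = c • Kost.ee (D \ L.toFinset) ∧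
      c • crL L (Kost.ee (D \ L.toFinset)) = Kost.ee D := by
  induction L generalizing D with
  | nil => exact ⟨1, by simp, by simp⟩
  | cons a L ih =>
    rw [List.nodup_cons] at hL
    have ha : a ∈ D := h a List.mem_cons_self
    obtain ⟨c, h1, h2⟩ := ih hL.2 (D := D.erase a) (fun b hb => mem_erase.2
      ⟨fun hab => hL.1 (hab ▸ hb), h b (List.mem_cons_of_mem _ hb)⟩)
    have hs : D.erase a \ L.toFinset = D \ (a :: L).toFinset := by
      ext b
      simp only [mem_sdiff, mem_erase, List.toFinset_cons, mem_insert, List.mem_toFinset]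
      tauto
    rw [hs] at h1 h2
    refine ⟨Kost.sgn a D * c, ?_, ?_⟩
    · rw [anL_cons, Module.End.mul_apply, Kost.an_ee, if_pos ha, map_smul, h1, smul_smul]
    · rw [crL_cons, Module.End.mul_apply, mul_smul, ← map_smul (Kost.cr a), h2, Kost.cr_ee,
        if_neg (Finset.notMem_erase _ _), smul_smul, Kost.sgn_erase_self, Kost.sgn_mul_self,
        one_smul, Finset.insert_erase ha]

end perm

variable {n : ℕ} {w : Equiv.Perm (Fin n)} {J : Finset (Fin n)}

lemma cr_mem_Fall {E : Finset (Fin n × Fin n)} {b : Fin n × Fin n} (hb : b ∈ E) {x : Fk n}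
    (hx : x ∈ Fall E) : Kost.cr b x ∈ Fall E := by
  apply map_mem_of_Fall _ hx
  intro D hD
  rw [Kost.cr_ee]
  split_ifs
  · exact Submodule.zero_mem _
  · exact Submodule.smul_mem _ _ (ee_mem_Fall (Finset.insert_subset hb hD))

lemma crL_mem_Fall {E : Finset (Fin n × Fin n)} {L : List (Fin n × Fin n)} (hL : ∀ b ∈ L, b ∈ E)
    {x : Fk n} (hx : x ∈ Fall E) : crL L x ∈ Fall E := by
  induction L with
  | nil => simpa using hx
  | cons a L ih =>
    rw [crL_cons, Module.End.mul_apply]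
    exact cr_mem_Fall (hL a List.mem_cons_self)
      (ih (fun b hb => hL b (List.mem_cons_of_mem _ hb)))

lemma anL_mem_Fall {E : Finset (Fin n × Fin n)} {L : List (Fin n × Fin n)}
    {x : Fk n} (hx : x ∈ Fall E) : anL L x ∈ Fall E := by
  induction L generalizing x with
  | nil => simpa using hx
  | cons a L ih =>
    rw [anL_cons, Module.End.mul_apply]
    exact ih (Fall_mono (Finset.erase_subset _ _) (an_mem_Fall hx))

lemma gJ_mem (J : Finset (Fin n)) (k : Fin J.card) : gJ J k ∈ J := J.orderEmbOfFin_mem rfl _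

lemma gJ_inj (J : Finset (Fin n)) : Function.Injective (gJ J) := by
  intro a b h
  exact Fin.rev_injective ((J.orderEmbOfFin rfl).injective h)

lemma gJ_surj {J : Finset (Fin n)} {j : Fin n} (hj : j ∈ J) : ∃ k, gJ J k = j := by
  have h := J.range_orderEmbOfFin rfl
  have h1 : j ∈ Set.range (J.orderEmbOfFin rfl) := by
    rw [h]; exact hj
  obtain ⟨i, hi⟩ := h1
  exact ⟨Fin.rev i, by rw [gJ, Fin.rev_rev, hi]⟩

lemma mem_boxesJ {x : Fin n} {l : Finset (Fin J.card)} {b : Fin n × Fin n} :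
    b ∈ (dataJ J).boxes x l ↔ ∃ k ∈ l, (x, gJ J k) = b := by
  rw [SlotData.mem_boxes]
  simp [dataJ]

lemma box_memJ {x : Fin n} {l : Finset (Fin J.card)} {k : Fin J.card} :
    (x, gJ J k) ∈ (dataJ J).boxes x l ↔ k ∈ l := (dataJ J).b_mem_boxes (p := x)

/-- the labels of the row `x` of `D` -/
def lab (J : Finset (Fin n)) (D : Finset (Fin n × Fin n)) (x : Fin n) : Finset (Fin J.card) :=
  univ.filter (fun k => (x, gJ J k) ∈ D)

lemma mem_lab {D : Finset (Fin n × Fin n)} {x : Fin n} {k : Fin J.card} :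
    k ∈ lab J D x ↔ (x, gJ J k) ∈ D := by simp [lab]

lemma ext_ee_of_ne {D : Finset (Fin n × Fin n)} {x : Fin n} {l : Finset (Fin J.card)}
    (hl : l ≠ lab J D x) : (dataJ J).ext x l (Kost.ee D) = 0 := by
  rw [SlotData.ext_apply]
  by_cases h1 : ∀ k ∈ l, (x, gJ J k) ∈ D
  · obtain ⟨k, hk, hk'⟩ : ∃ k, (x, gJ J k) ∈ D ∧ k ∉ l := by
      by_contra hcon
      push Not at hcon
      apply hl
      ext k
      rw [mem_lab]
      exact ⟨h1 k, hcon k⟩
    obtain ⟨c, h2, _⟩ := anL_ee ((dataJ J).boxes_nodup x l) (D := D) (by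
      intro b hb
      obtain ⟨k, hk, rfl⟩ := mem_boxesJ.1 hb
      exact h1 k hk)
    rw [h2, map_smul, SlotData.dz_ee, if_neg, smul_zero]
    intro hdis
    have hm : (x, gJ J k) ∈ D \ ((dataJ J).boxes x l).toFinset := by
      rw [mem_sdiff, List.mem_toFinset, box_memJ]
      exact ⟨hk, hk'⟩
    exact Finset.disjoint_left.1 hdis hm ((dataJ J).b_mem k x)
  · push Not at h1
    obtain ⟨k, hk, hk'⟩ := h1
    rw [anL_zero_of_mem (box_memJ.2 hk), map_zero]
    rw [Kost.an_ee, if_neg hk']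

lemma ins_ext_ee {D : Finset (Fin n × Fin n)} {x : Fin n} (hD : ∀ b ∈ D, b.1 = x → b.2 ∈ J) :
    (dataJ J).ins x (lab J D x) ((dataJ J).ext x (lab J D x) (Kost.ee D)) = Kost.ee D := by
  rw [SlotData.ext_apply, SlotData.ins_apply]
  obtain ⟨c, h2, h3⟩ := anL_ee ((dataJ J).boxes_nodup x (lab J D x)) (D := D) (by
      intro b hb
      obtain ⟨k, hk, rfl⟩ := mem_boxesJ.1 hb
      exact mem_lab.1 hk)
  rw [h2, map_smul, SlotData.dz_ee, if_pos, map_smul, h3]
  rw [Finset.disjoint_left]
  rintro ⟨y, j⟩ hb hb'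
  rw [mem_sdiff, List.mem_toFinset] at hb
  have hy : y = x := by simpa [dataJ] using hb'
  subst hy
  obtain ⟨k, hk⟩ := gJ_surj (hD _ hb.1 rfl)
  subst hk
  exact hb.2 (box_memJ.2 (mem_lab.2 hb.1))

/-- the coordinate subspace with a fixed number of boxes in the row `x` -/
def Fx (E : Finset (Fin n × Fin n)) (x : Fin n) (t : ℤ) : Submodule ℂ (Fk n) :=
  Submodule.span ℂ {v | ∃ D : Finset (Fin n × Fin n), D ⊆ E ∧ rowCnt D x = t ∧ v = Kost.ee D}

lemma colE_mem_Fx {E : Finset (Fin n × Fin n)} {x : Fin n} {t : ℤ} {j l : Fin n}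
    (h : ∀ y, (y, j) ∈ E → (y, l) ∈ E) {v : Fk n} (hv : v ∈ Fx E x t) : colE j l v ∈ Fx E x t := by
  have hle : Fx E x t ≤ (Fx E x t).comap (colE j l) := by
    rw [Fx, Submodule.span_le]
    rintro _ ⟨D, hD, hD', rfl⟩
    rw [SetLike.mem_coe, Submodule.mem_comap]
    unfold colE
    rw [LinearMap.sum_apply]
    apply Submodule.sum_mem
    intro y _
    rw [Module.End.mul_apply, Kost.an_ee]
    split_ifs with h1
    · rw [map_smul, Kost.cr_ee]
      apply Submodule.smul_mem
      split_ifs with h2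
      · exact Submodule.zero_mem _
      · apply Submodule.smul_mem
        apply Submodule.subset_span
        refine ⟨_, ?_, ?_, rfl⟩
        · intro b hb
          rw [Finset.mem_insert] at hb
          rcases hb with rfl | hb
          · exact h y (hD h1)
          · exact hD (Finset.mem_of_mem_erase hb)
        · rw [rowCnt_insert h2, rowCnt_erase h1, Pi.add_apply, Pi.add_apply, hD']
          simp
    · rw [map_zero]; exact Submodule.zero_mem _
  exact hle hv

lemma rowCnt_Dset {T : Finset (Fin n)} {x : Fin n} (hx : x ∈ T) :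
    rowCnt (Dset w T J) x = (szJ w J x : ℤ) := by
  unfold rowCnt szJ
  congr 1
  rw [← Finset.card_map ⟨fun j : Fin n => (x, j), fun a b h => by simpa using h⟩]
  congr 1
  ext ⟨y, j⟩
  simp only [mem_filter, mem_Dset, mem_map, Function.Embedding.coeFn_mk, Prod.mk.injEq]
  constructor
  · rintro ⟨⟨h1, h2, h3, h4⟩, rfl⟩
    exact ⟨j, ⟨h2, h3, h4⟩, rfl, rfl⟩
  · rintro ⟨j', ⟨h2, h3, h4⟩, rfl, rfl⟩
    exact ⟨⟨hx, h2, h3, h4⟩, rfl⟩

lemma Nmod_le_Fx {T : Finset (Fin n)} {x : Fin n} (hx : x ∈ T) :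
    Nmod w T J ≤ Fx (Fset w T J) x (szJ w J x : ℤ) := by
  apply gen_le
  · apply Submodule.subset_span
    exact ⟨_, Dset_subset_Fset w T J, rowCnt_Dset hx, rfl⟩
  · rintro _ ⟨j, hj, l, hl, hjl, rfl⟩ v hv
    apply colE_mem_Fx _ hv
    intro y hy
    rw [mem_Fset] at hy ⊢
    exact ⟨hy.1, hl, hy.2.2.trans hjl⟩

lemma card_lab {E D : Finset (Fin n × Fin n)} (hE : ∀ b ∈ E, b.2 ∈ J) (hD : D ⊆ E) (x : Fin n) :
    ((lab J D x).card : ℤ) = rowCnt D x := by
  unfold rowCnt
  congr 1
  rw [← Finset.card_map ⟨fun k : Fin J.card => (x, gJ J k), fun a b h => gJ_inj J (by simpa using h)⟩]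
  congr 1
  ext ⟨y, j⟩
  simp only [mem_map, mem_lab, Function.Embedding.coeFn_mk, Prod.mk.injEq, mem_filter]
  constructor
  · rintro ⟨k, hk, rfl, rfl⟩
    exact ⟨hk, rfl⟩
  · rintro ⟨h1, rfl⟩
    obtain ⟨k, hk⟩ := gJ_surj (hE _ (hD h1))
    exact ⟨k, by rw [hk]; exact h1, rfl, hk⟩

/-! ### the statements -/

theorem extJ_F' {x : Fin n} {U : Finset (Fin n)} (l : Finset (Fin J.card)) {v : Fk n}
    (hv : v ∈ Fall (Fset w U J)) : (dataJ J).ext x l v ∈ Fall (Fset w (U.erase x) J) := by
  rw [SlotData.ext_apply]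
  have h1 := anL_mem_Fall (L := (dataJ J).boxes x l) hv
  apply map_mem_of_Fall _ h1
  intro D hD
  rw [SlotData.dz_ee]
  split_ifs with h
  · apply ee_mem_Fall
    intro b hb
    have h2 := mem_Fset.1 (hD hb)
    rw [mem_Fset, mem_erase]
    refine ⟨⟨?_, h2.1⟩, h2.2⟩
    intro hbx
    exact Finset.disjoint_left.1 h hb (by simp [dataJ, hbx])
  · exact Submodule.zero_mem _

theorem insJ_F' {x : Fin n} {U : Finset (Fin n)} (hx : x ∈ U) {l : Finset (Fin J.card)}
    (hl : ∀ k ∈ l, w.symm x < gJ J k) {z : Fk n} (hz : z ∈ Fall (Fset w (U.erase x) J)) :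
    (dataJ J).ins x l z ∈ Fall (Fset w U J) := by
  rw [SlotData.ins_apply]
  apply crL_mem_Fall
  · intro b hb
    obtain ⟨k, hk, rfl⟩ := mem_boxesJ.1 hb
    rw [mem_Fset]
    exact ⟨hx, gJ_mem J k, hl k hk⟩
  · refine Fall_mono ?_ hz
    intro b hb
    rw [mem_Fset] at hb ⊢
    exact ⟨mem_of_mem_erase hb.1, hb.2⟩

theorem extJ_zero' {x : Fin n} {U : Finset (Fin n)} {l : Finset (Fin J.card)}
    (hl : ¬ ∀ k ∈ l, w.symm x < gJ J k) {v : Fk n} (hv : v ∈ Fall (Fset w U J)) :
    (dataJ J).ext x l v = 0 := by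
  push Not at hl
  obtain ⟨k, hk, hk'⟩ := hl
  rw [SlotData.ext_apply, anL_zero_of_mem (box_memJ.2 hk), map_zero]
  apply an_eq_zero_of_Fall _ hv
  intro h
  rw [mem_Fset] at h
  exact absurd h.2.2 (not_lt.2 hk')

theorem sum_insJ_extJ' {x : Fin n} {T : Finset (Fin n)} (hx : x ∈ T)
    {v : Fk n} (hv : v ∈ Nmod w T J) :
    ∑ l ∈ univ.filter (fun l : Finset (Fin J.card) => l.card = szJ w J x ∧
      ∀ k ∈ l, w.symm x < gJ J k), (dataJ J).ins x l ((dataJ J).ext x l v) = v := by
  set s := univ.filter (fun l : Finset (Fin J.card) => l.card = szJ w J x ∧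
      ∀ k ∈ l, w.symm x < gJ J k) with hs
  have hv' := Nmod_le_Fx hx hv
  have hle : Fx (Fset w T J) x (szJ w J x : ℤ) ≤
      LinearMap.ker (∑ l ∈ s, (dataJ J).ins x l * (dataJ J).ext x l - 1) := by
    rw [Fx, Submodule.span_le]
    rintro _ ⟨D, hD, hD', rfl⟩
    rw [SetLike.mem_coe, LinearMap.mem_ker, LinearMap.sub_apply, Module.End.one_apply,
      LinearMap.sum_apply, sub_eq_zero, Finset.sum_eq_single (lab J D x)]
    · rw [Module.End.mul_apply]
      apply ins_ext_ee
      intro b hb _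
      exact (mem_Fset.1 (hD hb)).2.1
    · intro l _ hl
      rw [Module.End.mul_apply, ext_ee_of_ne hl, map_zero]
    · intro h
      exfalso
      apply h
      rw [hs, mem_filter]
      refine ⟨mem_univ _, ?_, ?_⟩
      · have h1 := card_lab (J := J) (E := Fset w T J) (fun b hb => (mem_Fset.1 hb).2.1) hD x
        rw [hD'] at h1
        exact_mod_cast h1
      · intro k hk
        exact (mem_Fset.1 (hD (mem_lab.1 hk))).2.2
  have h := hle hv'
  rw [LinearMap.mem_ker, LinearMap.sub_apply, Module.End.one_apply, LinearMap.sum_apply,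
    sub_eq_zero] at h
  exact h

/-- the exchange of two boxes -/
lemma repl_boxesJ {x : Fin n} {l : Finset (Fin J.card)} {α β : Fin J.card} (hβ : β ∉ l) :
    repl ((x, gJ J α) : Fin n × Fin n) (x, gJ J β) ((dataJ J).boxes x l) =
      ((dataJ J).boxes x l).map (Equiv.swap ((x, gJ J α) : Fin n × Fin n) (x, gJ J β)) := by
  unfold repl
  apply List.map_congr_left
  intro b hb
  by_cases h1 : b = (x, gJ J α)
  · rw [if_pos h1, h1, Equiv.swap_apply_left]
  · rw [if_neg h1, Equiv.swap_apply_of_ne_of_ne h1]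
    rintro rfl
    exact hβ (box_memJ.1 hb)

lemma repl_perm {x : Fin n} {l : Finset (Fin J.card)} {α β : Fin J.card} (hα : α ∈ l)
    (hβ : β ∉ l) :
    (repl ((x, gJ J α) : Fin n × Fin n) (x, gJ J β) ((dataJ J).boxes x l)).Perm
      ((dataJ J).boxes x (insert β (l.erase α))) := by
  have hαβ : α ≠ β := fun h => hβ (h ▸ hα)
  rw [List.perm_ext_iff_of_nodup]
  · intro b
    rw [mem_boxesJ]
    unfold repl
    rw [List.mem_map]
    constructor
    · rintro ⟨b', hb', rfl⟩
      obtain ⟨k, hk, rfl⟩ := mem_boxesJ.1 hb'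
      by_cases h1 : k = α
      · subst h1
        exact ⟨β, mem_insert_self _ _, by rw [if_pos rfl]⟩
      · refine ⟨k, mem_insert_of_mem (mem_erase.2 ⟨h1, hk⟩), ?_⟩
        rw [if_neg]
        intro h2
        exact h1 (gJ_inj J (congrArg Prod.snd h2))
    · rintro ⟨k, hk, rfl⟩
      rw [mem_insert, mem_erase] at hk
      rcases hk with rfl | ⟨h1, h2⟩
      · exact ⟨(x, gJ J α), box_memJ.2 hα, by rw [if_pos rfl]⟩
      · refine ⟨(x, gJ J k), box_memJ.2 h2, ?_⟩
        rw [if_neg]
        intro h3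
        exact h1 (gJ_inj J (congrArg Prod.snd h3))
  · rw [repl_boxesJ hβ]
    exact ((dataJ J).boxes_nodup x l).map (Equiv.injective _)
  · exact (dataJ J).boxes_nodup x _

/-- the sign of the exchange -/
lemma exists_sign (x : Fin n) (α β : Fin J.card) (l : Finset (Fin J.card)) : ∃ ε : ℂ,
    α ∈ l → β ∉ l →
      crL (repl ((x, gJ J α) : Fin n × Fin n) (x, gJ J β) ((dataJ J).boxes x l)) =
        ε • crL ((dataJ J).boxes x (insert β (l.erase α))) ∧
      anL (repl ((x, gJ J β) : Fin n × Fin n) (x, gJ J α)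
        ((dataJ J).boxes x (insert β (l.erase α)))) =
        ε • anL ((dataJ J).boxes x l) := by
  by_cases h : α ∈ l ∧ β ∉ l
  · obtain ⟨hα, hβ⟩ := h
    have hαβ : α ≠ β := fun h => hβ (h ▸ hα)
    obtain ⟨ε, hε, hp⟩ := crL_perm (repl_perm (x := x) hα hβ)
    refine ⟨ε, fun _ _ => ⟨?_, ?_⟩⟩
    · have h1 := (hp id).1
      rwa [List.map_id, List.map_id] at h1
    · have h2 := (hp (Equiv.swap ((x, gJ J α) : Fin n × Fin n) (x, gJ J β))).2
      rw [repl_boxesJ hβ, List.map_map] at h2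
      have h3 : (Equiv.swap ((x, gJ J α) : Fin n × Fin n) (x, gJ J β)) ∘
          (Equiv.swap ((x, gJ J α) : Fin n × Fin n) (x, gJ J β)) = id := by
        funext b; simp
      rw [h3, List.map_id] at h2
      have hα' : α ∉ insert β (l.erase α) := by
        rw [mem_insert, mem_erase]
        rintro (h | h)
        · exact hαβ h
        · exact h.1 rfl
      rw [repl_boxesJ hα', Equiv.swap_comm, h2, smul_smul, hε, one_smul]
  · exact ⟨0, fun h1 h2 => absurd ⟨h1, h2⟩ h⟩

lemma not_nodup_repl {x : Fin n} {l : Finset (Fin J.card)} {α β : Fin J.card} (hαβ : α ≠ β)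
    (hα : α ∈ l) (hβ : β ∈ l) :
    ¬ (repl ((x, gJ J α) : Fin n × Fin n) (x, gJ J β) ((dataJ J).boxes x l)).Nodup :=
  (dataJ J).repl_boxes_dup x hαβ hα hβ

/-- `colE` and the insertion of a row -/
lemma colE_ins (x : Fin n) {α β : Fin J.card} (hαβ : α ≠ β) (l : Finset (Fin J.card)) (z : Fk n) :
    colE (gJ J α) (gJ J β) ((dataJ J).ins x l z) =
      (if α ∈ l ∧ β ∉ l then crL (repl ((x, gJ J α) : Fin n × Fin n) (x, gJ J β)
        ((dataJ J).boxes x l)) z else 0) + (dataJ J).ins x l (colE (gJ J α) (gJ J β) z) := by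
  rw [← dataJ_E]
  have h1 : (dataJ J).E α β * crL ((dataJ J).boxes x l) = (if α ∈ l ∧ β ∉ l then
      crL (repl ((x, gJ J α) : Fin n × Fin n) (x, gJ J β) ((dataJ J).boxes x l)) else 0) +
        crL ((dataJ J).boxes x l) * (dataJ J).E α β := by
    rw [(dataJ J).E_eq x, add_mul, mul_add, (dataJ J).rest_crL,
      bil_crL ((dataJ J).boxes_nodup x l), add_assoc]
    congr 1
    by_cases hi' : α ∈ l
    · rw [if_pos ((dataJ J).b_mem_boxes.2 hi')]
      by_cases hj : β ∈ l
      · rw [if_neg (fun h' => h'.2 hj)]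
        exact crL_of_not_nodup (not_nodup_repl hαβ hi' hj)
      · rw [if_pos ⟨hi', hj⟩]
        rfl
    · rw [if_neg (fun h' => hi' ((dataJ J).b_mem_boxes.1 h')), if_neg (fun h' => hi' h'.1)]
  have h2 := congrArg (fun g : Module.End ℂ (Fk n) => g z) h1
  simp only [Module.End.mul_apply, LinearMap.add_apply] at h2
  rw [SlotData.ins_apply, SlotData.ins_apply, h2]
  congr 1
  split_ifs
  · rfl
  · rfl

/-- `colE` and the extraction of a row -/
lemma ext_colE (x : Fin n) {α β : Fin J.card} (hαβ : α ≠ β) (l : Finset (Fin J.card)) (y : Fk n) :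
    (dataJ J).ext x l (colE (gJ J α) (gJ J β) y) =
      (if β ∈ l ∧ α ∉ l then (dataJ J).dz x (anL (repl ((x, gJ J β) : Fin n × Fin n) (x, gJ J α)
        ((dataJ J).boxes x l)) y) else 0) + colE (gJ J α) (gJ J β) ((dataJ J).ext x l y) := by
  rw [← dataJ_E]
  set s := dataJ J with hs
  have h1 : s.dz x * anL (s.boxes x l) * s.E α β = (if β ∈ l ∧ α ∉ l then
      s.dz x * anL (repl ((x, gJ J β) : Fin n × Fin n) (x, gJ J α) (s.boxes x l)) else 0) +
        s.E α β * (s.dz x * anL (s.boxes x l)) := by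
    have e1 : Kost.cr (s.b β x) * Kost.an (s.b α x) * (s.dz x * anL (s.boxes x l)) = 0 := by
      rw [← mul_assoc, mul_assoc (Kost.cr _) (Kost.an _), s.an_dz_of_mem (s.b_mem α x), mul_zero,
        zero_mul]
    have e2 : s.dz x * (Kost.cr (s.b β x) * Kost.an (s.b α x) * anL (s.boxes x l)) = 0 := by
      rw [← mul_assoc, ← mul_assoc, s.dz_cr_of_mem (s.b_mem β x), zero_mul, zero_mul]
    rw [s.E_eq x, mul_add, add_mul, mul_assoc, mul_assoc, s.anL_rest, e1, zero_add,
      anL_bil (s.boxes_nodup x l), mul_add, e2, add_zero, ← mul_assoc (s.dz x) (∑ q ∈ _, _),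
      s.dz_rest, mul_assoc]
    congr 1
    by_cases hj : β ∈ l
    · rw [if_pos (s.b_mem_boxes.2 hj)]
      by_cases hi' : α ∈ l
      · rw [if_neg (fun h' => h'.2 hi')]
        have h0 : anL (repl (s.b β x) (s.b α x) (s.boxes x l)) = 0 :=
          anL_of_not_nodup (not_nodup_repl hαβ.symm hj hi')
        rw [h0, mul_zero]
      · rw [if_pos ⟨hj, hi'⟩]
        rfl
    · rw [if_neg (fun h' => hj (s.b_mem_boxes.1 h')), if_neg (fun h' => hj h'.1), mul_zero]
  have h2 := congrArg (fun g : Module.End ℂ (Fk n) => g y) h1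
  simp only [Module.End.mul_apply, LinearMap.add_apply] at h2
  rw [s.ext_apply, s.ext_apply, h2]
  congr 1
  split_ifs
  · rfl
  · rfl

/-- `colE a b` and the rows -/
theorem colE_matrix' (x : Fin n) {a b : Fin n} (ha : a ∈ J) (hb : b ∈ J) (hab : a < b) :
    ∃ m : Finset (Fin J.card) → Finset (Fin J.card) → ℂ,
      (∀ l ∈ univ.filter (fun l : Finset (Fin J.card) => l.card = szJ w J x ∧
        ∀ k ∈ l, w.symm x < gJ J k), ∀ z : Fk n, colE a b ((dataJ J).ins x l z) =
        ∑ l' ∈ univ.filter (fun l : Finset (Fin J.card) => l.card = szJ w J x ∧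
          ∀ k ∈ l, w.symm x < gJ J k),
          m l' l • (dataJ J).ins x l' z + (dataJ J).ins x l (colE a b z)) ∧
      ∀ l ∈ univ.filter (fun l : Finset (Fin J.card) => l.card = szJ w J x ∧
        ∀ k ∈ l, w.symm x < gJ J k), ∀ U : Finset (Fin n), ∀ v ∈ Fall (Fset w U J),
        (dataJ J).ext x l (colE a b v) =
          ∑ l' ∈ univ.filter (fun l : Finset (Fin J.card) => l.card = szJ w J x ∧
            ∀ k ∈ l, w.symm x < gJ J k),
            m l l' • (dataJ J).ext x l' v + colE a b ((dataJ J).ext x l v) := by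
  obtain ⟨α, rfl⟩ := gJ_surj ha
  obtain ⟨β, rfl⟩ := gJ_surj hb
  have hαβ : α ≠ β := fun h => absurd hab (by rw [h]; exact lt_irrefl _)
  choose ε hε using exists_sign (J := J) x α β
  refine ⟨fun l' l => if α ∈ l ∧ β ∉ l ∧ l' = insert β (l.erase α) then ε l else 0, ?_, ?_⟩
  · intro l hl z
    rw [mem_filter] at hl
    rw [colE_ins x hαβ]
    congr 1
    beta_reduce
    by_cases h : α ∈ l ∧ β ∉ l
    · rw [if_pos h, Finset.sum_eq_single (insert β (l.erase α))]
      · rw [if_pos ⟨h.1, h.2, rfl⟩, (hε l h.1 h.2).1, SlotData.ins_apply, LinearMap.smul_apply]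
      · intro l' _ hl'
        rw [if_neg (fun h' => hl' h'.2.2), zero_smul]
      · intro h'
        exfalso
        apply h'
        rw [mem_filter]
        refine ⟨mem_univ _, ?_, ?_⟩
        · rw [card_insert_of_notMem (fun h1 => h.2 (mem_of_mem_erase h1)),
            card_erase_of_mem h.1, ← hl.2.1]
          have : 0 < l.card := card_pos.2 ⟨α, h.1⟩
          omega
        · intro k hk
          rw [mem_insert] at hk
          rcases hk with rfl | hk
          · exact (hl.2.2 α h.1).trans hab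
          · exact hl.2.2 k (mem_of_mem_erase hk)
    · rw [if_neg h]
      symm
      apply Finset.sum_eq_zero
      intro l' _
      rw [if_neg (fun h' => h ⟨h'.1, h'.2.1⟩), zero_smul]
  · intro l hl U v hv
    rw [mem_filter] at hl
    rw [ext_colE x hαβ]
    congr 1
    beta_reduce
    by_cases h : β ∈ l ∧ α ∉ l
    · rw [if_pos h]
      set l2 := insert α (l.erase β) with hl2
      have h1 : α ∈ l2 := mem_insert_self _ _
      have h2 : β ∉ l2 := by
        rw [hl2, mem_insert, mem_erase]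
        rintro (h | h)
        · exact hαβ h.symm
        · exact h.1 rfl
      have h3 : insert β (l2.erase α) = l := by
        rw [hl2, erase_insert (fun h' => h.2 (mem_of_mem_erase h')), insert_erase h.1]
      have h4 := (hε l2 h1 h2).2
      rw [h3] at h4
      rw [h4, LinearMap.smul_apply, map_smul, ← SlotData.ext_apply]
      by_cases h5 : ∀ k ∈ l2, w.symm x < gJ J k
      · rw [Finset.sum_eq_single l2]
        · rw [if_pos ⟨h1, h2, h3.symm⟩]
        · intro l' _ hl'
          rw [if_neg, zero_smul]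
          rintro ⟨h6, h7, h8⟩
          apply hl'
          rw [hl2, h8, erase_insert (fun h' => h7 (mem_of_mem_erase h')), insert_erase h6]
        · intro h'
          exfalso
          apply h'
          rw [mem_filter]
          refine ⟨mem_univ _, ?_, h5⟩
          rw [hl2, card_insert_of_notMem (fun h1 => h.2 (mem_of_mem_erase h1)),
            card_erase_of_mem h.1, ← hl.2.1]
          have : 0 < l.card := card_pos.2 ⟨β, h.1⟩
          omega
      · rw [extJ_zero' h5 hv, smul_zero]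
        symm
        apply Finset.sum_eq_zero
        intro l' hl'
        rw [mem_filter] at hl'
        rw [if_neg, zero_smul]
        rintro ⟨h6, h7, h8⟩
        apply h5
        have h9 : l2 = l' := by
          rw [hl2, h8, erase_insert (fun h' => h7 (mem_of_mem_erase h')), insert_erase h6]
        rw [h9]
        exact hl'.2.2
    · rw [if_neg h]
      symm
      apply Finset.sum_eq_zero
      intro l' _
      rw [if_neg, zero_smul]
      rintro ⟨h6, h7, h8⟩
      apply h
      rw [h8]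
      refine ⟨mem_insert_self _ _, ?_⟩
      rw [mem_insert, mem_erase]
      rintro (h9 | h9)
      · exact hαβ h9
      · exact h9.1 rfl

end KDB

end

end Gao
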