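import Pool.Agent.Gao.EStep
import Pool.Agent.Gao.Sl2Bridge
import Pool.Agent.Gao.Sl2S
import Pool.Agent.Gao.Lattice

/-!
# Part R in lattice form (Gao project, MP_b139df_co)

`V` a graded `L`-module, `Y S` (`S` a finite set) a monotone family of graded submodules with the
property `LGood Q` (helper20, Lattice.lean), all `Y S` acyclic.  Then the invariants of weight zero of the
`Y S` have the same property.  No quotient modules: relative cocycles.
-/

namespace Gao.CE

open Gao.Fam (homW)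

section rel

variable {K L V Lam : Type*} [Field K] [CharZero K] [LieRing L] [LieAlgebra K L]
  [AddCommGroup V] [Module K V] [LieRingModule L V] [LieModule K L V] [AddCommGroup Lam]
  [DecidableEq Lam] {N : Lam → Submodule K L} {G : Grading K V Lam}

/-- cochains with values in `U` -/
def VU (L : Type*) [LieRing L] [LieAlgebra K L] (U : Submodule K V) (q : ℕ) :
    Submodule K (Co K L V q) where
  carrier := {φ | ∀ v, φ v ∈ U}
  zero_mem' := fun _ => U.zero_mem
  add_mem' := fun ha hb v => U.add_mem (ha v) (hb v)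
  smul_mem' := fun c _ ha v => U.smul_mem c (ha v)

/-- cochains of weight zero with values in `U` -/
noncomputable def CU (N : Lam → Submodule K L) (G : Grading K V Lam) (U : Submodule K V) (q : ℕ) :
    Submodule K (Co K L V q) := HH N G.W q ⊓ VU L U q

omit [CharZero K] in
lemma mem_VU_zero {U : Submodule K V} {φ : Co K L V 0} : φ ∈ VU L U 0 ↔ ev0 φ ∈ U := by
  constructor
  · intro h
    exact h _
  · intro h v
    have h1 : v = ![] := Subsingleton.elim _ _
    rw [h1]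
    exact h

omit [CharZero K] in
lemma mem_VU_succ {U : Submodule K V} {q : ℕ} {φ : Co K L V (q + 1)} :
    φ ∈ VU L U (q + 1) ↔ ∀ x, io x φ ∈ VU L U q := by
  constructor
  · intro h x v
    exact h _
  · intro h v
    have h1 := h (v 0) (fun i => v i.succ)
    rw [io_apply] at h1
    have h2 : Matrix.vecCons (v 0) (fun i => v i.succ) = v := by
      funext i
      refine Fin.cases ?_ (fun j => ?_) i <;> simp
    rwa [h2] at h1

lemma lie_mem_VU {U : Submodule K V} (hU : ∀ x : L, ∀ m ∈ U, ⁅x, m⁆ ∈ U) (x : L) :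
    ∀ {q : ℕ} {φ : Co K L V q}, φ ∈ VU L U q → lie x q φ ∈ VU L U q := by
  intro q
  induction q with
  | zero =>
    intro φ hφ
    rw [mem_VU_zero] at hφ ⊢
    exact hU x _ hφ
  | succ q ih =>
    intro φ hφ
    rw [mem_VU_succ] at hφ ⊢
    intro y
    rw [io_lie]
    exact Submodule.sub_mem _ (ih (hφ y)) (hφ _)

lemma d_mem_VU {U : Submodule K V} (hU : ∀ x : L, ∀ m ∈ U, ⁅x, m⁆ ∈ U) :
    ∀ {q : ℕ} {φ : Co K L V q}, φ ∈ VU L U q → d q φ ∈ VU L U (q + 1) := by
  intro q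
  induction q with
  | zero =>
    intro φ hφ
    rw [mem_VU_succ]
    intro x
    rw [io_d_zero]
    exact lie_mem_VU hU x hφ
  | succ q ih =>
    intro φ hφ
    rw [mem_VU_succ]
    intro x
    rw [io_d]
    exact Submodule.sub_mem _ (lie_mem_VU hU x hφ) (ih (mem_VU_succ.1 hφ x))

/-- a graded `L`-submodule -/
structure GSub (L : Type*) [LieRing L] [LieAlgebra K L] [LieRingModule L V] [LieModule K L V]
    (G : Grading K V Lam) (U : Submodule K V) : Prop where
  st : G.Stable U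
  lie : ∀ x : L, ∀ m ∈ U, ⁅x, m⁆ ∈ U

omit [CharZero K] [AddCommGroup Lam] in
lemma GSub.bot : GSub L G ⊥ where
  st a x hx := by
    rw [Submodule.mem_bot] at hx ⊢
    rw [hx, map_zero]
  lie x m hm := by
    rw [Submodule.mem_bot] at hm ⊢
    rw [hm, lie_zero]

omit [CharZero K] [AddCommGroup Lam] in
lemma GSub.sup {A B : Submodule K V} (hA : GSub L G A) (hB : GSub L G B) : GSub L G (A ⊔ B) where
  st a x hx := by
    obtain ⟨y, hy, z, hz, rfl⟩ := Submodule.mem_sup.1 hx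
    rw [map_add]
    exact Submodule.add_mem_sup (hA.st a y hy) (hB.st a z hz)
  lie x m hm := by
    obtain ⟨y, hy, z, hz, rfl⟩ := Submodule.mem_sup.1 hm
    rw [_root_.lie_add]
    exact Submodule.add_mem_sup (hA.lie x y hy) (hB.lie x z hz)

omit [CharZero K] [AddCommGroup Lam] in
lemma GSub.biSup {ι : Type*} (s : Finset ι) (Y : ι → Submodule K V)
    (h : ∀ i ∈ s, GSub L G (Y i)) : GSub L G (⨆ i ∈ s, Y i) := by
  classical
  induction s using Finset.induction_on with
  | empty =>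
    have h1 : (⨆ i ∈ (∅ : Finset ι), Y i) = ⊥ := by simp
    rw [h1]
    exact GSub.bot
  | insert a s _ ih =>
    rw [Finset.iSup_insert]
    exact (h a (Finset.mem_insert_self a s)).sup
      (ih (fun i hi => h i (Finset.mem_insert_of_mem hi)))

lemma d_mem_CU (hN : GrLie N) (hW : GrMod N G.W) {U : Submodule K V} (hU : GSub L G U) {q : ℕ}
    {φ : Co K L V q} (hφ : φ ∈ CU N G U q) : d q φ ∈ CU N G U (q + 1) :=
  ⟨d_mem_CW hN hW hφ.1, d_mem_VU hU.lie hφ.2⟩

omit [CharZero K] in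
lemma CU_mono {U U' : Submodule K V} (h : U ≤ U') (q : ℕ) : CU N G U q ≤ CU N G U' q :=
  fun _ hφ => ⟨hφ.1, fun v => h (hφ.2 v)⟩

/-- cochains with values in a sum split -/
lemma CU_sup {A B : Submodule K V} (hA : G.Stable A) (hB : G.Stable B) {q : ℕ}
    {φ : Co K L V q} (hφ : φ ∈ CU N G (A ⊔ B) q) :
    ∃ α ∈ CU N G A q, φ - α ∈ CU N G B q := by
  -- a linear map `T` with `T x ∈ A`, `x - T x ∈ B` on `A ⊔ B`
  have hT : ∃ T : V →ₗ[K] V, ∀ x ∈ A ⊔ B, T x ∈ A ∧ x - T x ∈ B := by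
    let g : (A × B) →ₗ[K] (A ⊔ B : Submodule K V) :=
      { toFun := fun p => ⟨p.1 + p.2, Submodule.add_mem_sup p.1.2 p.2.2⟩
        map_add' := fun p p' => by
          ext
          simp only [Prod.fst_add, Prod.snd_add, Submodule.coe_add]
          abel
        map_smul' := fun c p => by
          ext
          simp [smul_add] }
    have hg : LinearMap.range g = ⊤ := by
      rw [LinearMap.range_eq_top]
      rintro ⟨x, hx⟩
      obtain ⟨y, hy, z, hz, rfl⟩ := Submodule.mem_sup.1 hx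
      exact ⟨(⟨y, hy⟩, ⟨z, hz⟩), rfl⟩
    obtain ⟨r, hr⟩ := g.exists_rightInverse_of_surjective hg
    obtain ⟨T, hT⟩ := LinearMap.exists_extend
      (A.subtype ∘ₗ LinearMap.fst K A B ∘ₗ r)
    refine ⟨T, fun x hx => ?_⟩
    have h1 : T x = ((r ⟨x, hx⟩).1 : V) := congrArg (fun u : _ →ₗ[K] _ => u ⟨x, hx⟩) hT
    have h2 : ((r ⟨x, hx⟩).1 : V) + ((r ⟨x, hx⟩).2 : V) = x := by
      have h3 := congrArg (fun u : _ →ₗ[K] _ => u ⟨x, hx⟩) hr
      exact congrArg Subtype.val h3
    rw [h1]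
    refine ⟨(r ⟨x, hx⟩).1.2, ?_⟩
    have h4 : x - ((r ⟨x, hx⟩).1 : V) = ((r ⟨x, hx⟩).2 : V) := by
      rw [sub_eq_iff_eq_add, add_comm]
      exact h2.symm
    rw [h4]
    exact (r ⟨x, hx⟩).2.2
  obtain ⟨T, hT⟩ := hT
  let T' : V →ₗ[K] V := ∑ a ∈ G.supp, G.π a ∘ₗ T ∘ₗ G.π a
  have hT' : ∀ x, T' x = ∑ a ∈ G.supp, G.π a (T (G.π a x)) := by
    intro x
    simp only [T', LinearMap.coe_sum, Finset.sum_apply, LinearMap.comp_apply]
  have hst : G.Stable (A ⊔ B) := by
    intro a x hx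
    obtain ⟨y, hy, z, hz, rfl⟩ := Submodule.mem_sup.1 hx
    rw [map_add]
    exact Submodule.add_mem_sup (hA a y hy) (hB a z hz)
  have hTW : ∀ mu, ∀ m ∈ G.W mu, T' m ∈ G.W mu := by
    intro mu m hm
    rw [hT']
    refine Submodule.sum_mem _ fun a _ => ?_
    by_cases h : a = mu
    · subst h
      exact G.π_mem _ _
    · rw [G.π_of_mem_ne hm h, map_zero, map_zero]
      exact Submodule.zero_mem _
  have hTA : ∀ x ∈ A ⊔ B, T' x ∈ A := by
    intro x hx
    rw [hT']
    exact Submodule.sum_mem _ fun a _ => hA a _ (hT _ (hst a x hx)).1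
  have hTB : ∀ x ∈ A ⊔ B, x - T' x ∈ B := by
    intro x hx
    have h1 : x - T' x = ∑ a ∈ G.supp, G.π a (G.π a x - T (G.π a x)) := by
      simp only [map_sub, Finset.sum_sub_distrib]
      rw [hT']
      congr 1
      have h2 : ∀ a, G.π a (G.π a x) = G.π a x := fun a => G.π_of_mem (G.π_mem a x)
      simp only [h2]
      exact (G.sum_apply x).symm
    rw [h1]
    exact Submodule.sum_mem _ fun a _ => hB a _ (hT _ (hst a x hx)).2
  have hα : post T' q φ ∈ HH N G.W q := post_mem_CW hTW hφ.1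
  exact ⟨post T' q φ, ⟨hα, fun v => hTA _ (hφ.2 v)⟩, Submodule.sub_mem _ hφ.1 hα,
    fun v => hTB _ (hφ.2 v)⟩

/-- the cohomology of `U / U'` vanishes in degree `q + 1`; in degree `0`: the invariants of
`U / U'` lift to `U` -/
def Rel (N : Lam → Submodule K L) (G : Grading K V Lam) (U U' : Submodule K V) : ℕ → Prop
  | 0 => ∀ φ ∈ CU N G U 0, d 0 φ ∈ CU N G U' 1 → ∃ ψ ∈ CU N G U 0, d 0 ψ = 0 ∧
      φ - ψ ∈ CU N G U' 0
  | q + 1 => ∀ φ ∈ CU N G U (q + 1), d (q + 1) φ ∈ CU N G U' (q + 2) →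
      ∃ ψ ∈ CU N G U q, φ - d q ψ ∈ CU N G U' (q + 1)

/-- the homological step: `0 → A / A' → U / U' → U / (A + U') → 0` -/
theorem Rel.step (hN : GrLie N) (hW : GrMod N G.W) {U U' A A' : Submodule K V}
    (hU' : GSub L G U') (hA : GSub L G A)
    (hAU : A ≤ U) (hA'U' : A' ≤ U') (hinf : A ⊓ U' ≤ A') {q : ℕ} (h1 : Rel N G A A' (q + 1))
    (h2 : Rel N G U U' q) : Rel N G U (A ⊔ U') q := by
  -- every relative cocycle of `U / (A + U')` is a relative cocycle of `U / U'` plus a cochain of `A`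
  have key : ∀ φ ∈ CU N G U q, d q φ ∈ CU N G (A ⊔ U') (q + 1) →
      ∃ β ∈ CU N G A q, d q (φ - β) ∈ CU N G U' (q + 1) := by
    intro φ hφ hd
    obtain ⟨α, hα, hα'⟩ := CU_sup hA.st hU'.st hd
    have h3 : d (q + 1) α ∈ CU N G A' (q + 2) := by
      have h4 : d (q + 1) α = -d (q + 1) (d q φ - α) := by
        rw [map_sub, d_d, zero_sub, neg_neg]
      have h5 : d (q + 1) α ∈ CU N G A (q + 2) := d_mem_CU hN hW hA hα
      have h6 : d (q + 1) α ∈ CU N G U' (q + 2) := by
        rw [h4]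
        exact Submodule.neg_mem _ (d_mem_CU hN hW hU' hα')
      exact ⟨h5.1, fun v => hinf ⟨h5.2 v, h6.2 v⟩⟩
    obtain ⟨β, hβ, hβ'⟩ := h1 α hα h3
    refine ⟨β, hβ, ?_⟩
    have h7 : d q (φ - β) = (d q φ - α) + (α - d q β) := by
      rw [map_sub]
      abel
    rw [h7]
    exact Submodule.add_mem _ hα' (CU_mono hA'U' _ hβ')
  cases q with
  | zero =>
    intro φ hφ hd
    obtain ⟨β, hβ, hβ'⟩ := key φ hφ hd
    obtain ⟨ψ, hψ, hψ0, hψ'⟩ := h2 (φ - β) (Submodule.sub_mem _ hφ (CU_mono hAU _ hβ)) hβ'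
    refine ⟨ψ, hψ, hψ0, ?_⟩
    have h3 : φ - ψ = β + (φ - β - ψ) := by abel
    rw [h3]
    exact Submodule.add_mem _ (CU_mono le_sup_left _ hβ) (CU_mono le_sup_right _ hψ')
  | succ q =>
    intro φ hφ hd
    obtain ⟨β, hβ, hβ'⟩ := key φ hφ hd
    obtain ⟨ψ, hψ, hψ'⟩ := h2 (φ - β) (Submodule.sub_mem _ hφ (CU_mono hAU _ hβ)) hβ'
    refine ⟨ψ, hψ, ?_⟩
    have h3 : φ - d q ψ = β + (φ - β - d q ψ) := by abel
    rw [h3]
    exact Submodule.add_mem _ (CU_mono le_sup_left _ hβ) (CU_mono le_sup_right _ hψ')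

omit [CharZero K] in
lemma CU_bot {q : ℕ} {φ : Co K L V q} (hφ : φ ∈ CU N G ⊥ q) : φ = 0 := by
  ext v
  exact (Submodule.mem_bot K).1 (hφ.2 v)

/-- an acyclic module -/
theorem rel_bot {U : Submodule K V}
    (h : ∀ q, ∀ φ ∈ CU N G U (q + 1), d (q + 1) φ = 0 → ∃ ψ ∈ CU N G U q, d q ψ = φ) (q : ℕ) :
    Rel N G U ⊥ q := by
  cases q with
  | zero =>
    intro φ hφ hd
    refine ⟨φ, hφ, CU_bot hd, ?_⟩
    rw [sub_self]
    exact Submodule.zero_mem _
  | succ q =>
    intro φ hφ hd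
    obtain ⟨ψ, hψ, hψ'⟩ := h q φ hφ (CU_bot hd)
    refine ⟨ψ, hψ, ?_⟩
    rw [hψ', sub_self]
    exact Submodule.zero_mem _

end rel

section transfer

variable {K L V X Lam : Type*} [Field K] [CharZero K] [LieRing L] [LieAlgebra K L]
  [AddCommGroup V] [Module K V] [LieRingModule L V] [LieModule K L V] [AddCommGroup Lam]
  [DecidableEq Lam] [AddCommGroup X] [Module K X] [LieRingModule L X] [LieModule K L X]
  {N : Lam → Submodule K L} {G : Grading K V Lam} {WX : Lam → Submodule K X}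

omit [CharZero K] [LieRingModule L V] [LieModule K L V] [LieRingModule L X] [LieModule K L X]
  [LieRing L] [LieAlgebra K L] [AddCommGroup Lam] in
/-- an injective homogeneous map detects degrees -/
lemma mem_W_iff_of_injective (GX : Grading K X Lam) (j : X →ₗ[K] V) (hj : Function.Injective j)
    (jW : ∀ mu, ∀ m ∈ GX.W mu, j m ∈ G.W mu) (mu : Lam) (m : X) :
    m ∈ GX.W mu ↔ j m ∈ G.W mu := by
  refine ⟨jW mu m, fun h => ?_⟩
  have h1 : ∀ a, G.π a (j m) = j (GX.π a m) := by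
    intro a
    conv_lhs => rw [← GX.sum_apply m]
    rw [map_sum, map_sum]
    by_cases ha : a ∈ GX.supp
    · rw [Finset.sum_eq_single a]
      · exact G.π_of_mem (jW a _ (GX.π_mem a m))
      · intro b _ hb
        exact G.π_of_mem_ne (jW b _ (GX.π_mem b m)) (Ne.symm hb)
      · intro h'
        exact absurd ha h'
    · rw [GX.zero a ha, LinearMap.zero_apply, map_zero]
      refine Finset.sum_eq_zero fun b hb => ?_
      exact G.π_of_mem_ne (jW b _ (GX.π_mem b m)) (fun h' => ha (h' ▸ hb))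
  have h2 := h1 mu
  rw [G.π_of_mem h] at h2
  rw [hj h2]
  exact GX.π_mem mu m

/-- acyclicity of a module `X` isomorphic to the submodule `U` of `V` -/
theorem rel_bot_of_HV {U : Submodule K V} (j : X →ₗ[K] V) (hj : Function.Injective j)
    (hr : LinearMap.range j = U) (jl : ∀ (x : L) (m : X), j ⁅x, m⁆ = ⁅x, j m⁆)
    (jW : ∀ mu m, m ∈ WX mu ↔ j m ∈ G.W mu) (h : ∀ q, HV N WX (q + 1)) (q : ℕ) :
    Rel N G U ⊥ q := by
  apply rel_bot
  intro q φ hφ hd
  obtain ⟨ρ, hρ⟩ := j.exists_leftInverse_of_injective (LinearMap.ker_eq_bot.2 hj)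
  have hρj : ∀ m, ρ (j m) = m := fun m => congrArg (fun u : X →ₗ[K] X => u m) hρ
  have h1 : post j (q + 1) (post ρ (q + 1) φ) = φ := by
    ext v
    change j (ρ (φ v)) = φ v
    have h2 := hφ.2 v
    rw [← hr] at h2
    obtain ⟨m, hm⟩ := h2
    rw [← hm, hρj]
  have h3 : post ρ (q + 1) φ ∈ HH N WX (q + 1) := by
    rw [HH, mem_CW_iff]
    intro nu y hy
    rw [jW]
    have h4 := congrArg (fun u : Co K L V (q + 1) => u y) h1
    change j (post ρ (q + 1) φ y) = φ y at h4
    rw [h4]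
    exact mem_CW_iff.1 hφ.1 nu y hy
  have h5 : d (q + 1) (post ρ (q + 1) φ) = 0 := by
    have h6 := d_post jl (post ρ (q + 1) φ)
    rw [h1, hd] at h6
    ext v
    have h7 := congrArg (fun u : Co K L V (q + 2) => u v) h6
    change j (d (q + 1) (post ρ (q + 1) φ) v) = 0 at h7
    rw [← map_zero j] at h7
    exact hj h7
  obtain ⟨ψ, hψ, hψ'⟩ := h q _ h3 h5
  refine ⟨post j q ψ, ⟨post_mem_CW (fun mu m hm => (jW mu m).1 hm) hψ, fun v => ?_⟩, ?_⟩
  · rw [← hr]
    exact ⟨_, rfl⟩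
  · rw [← d_post jl]
    have hψ'' : d q ψ = post ρ (q + 1) φ := hψ'
    rw [hψ'', h1]

end transfer

section lattice

variable {K L V Lam : Type*} [Field K] [CharZero K] [LieRing L] [LieAlgebra K L]
  [AddCommGroup V] [Module K V] [LieRingModule L V] [LieModule K L V] [AddCommGroup Lam]
  [DecidableEq Lam] {N : Lam → Submodule K L} {G : Grading K V Lam}
  {ι : Type*} [DecidableEq ι] {Q : Finset ι}

open Pool.Agent.Gao (LGood)

/-- **(R)**, the induction -/
theorem rel_lattice (hN : GrLie N) (hW : GrMod N G.W) {Y : Finset ι → Submodule K V}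
    (hg : LGood Q Y) (hY : ∀ S, S ⊆ Q → GSub L G (Y S))
    (hac : ∀ S, S ⊆ Q → ∀ q, Rel N G (Y S) ⊥ q) : ∀ I A : Finset ι, A ⊆ Q → I ⊆ A →
      (∀ q, Rel N G (Y A) (⨆ i ∈ I, Y (A.erase i)) q) ∧
        (⨆ i ∈ I, Y (A.erase i)) ⊓ inv0 G.W L ≤ ⨆ i ∈ I, (Y (A.erase i) ⊓ inv0 G.W L) := by
  intro I
  induction I using Finset.induction_on with
  | empty =>
    intro A hAQ _
    have h1 : (⨆ i ∈ (∅ : Finset ι), Y (A.erase i)) = ⊥ := by simp
    rw [h1]
    refine ⟨fun q => hac A hAQ q, ?_⟩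
    rw [bot_inf_eq]
    exact bot_le
  | insert p I hp ih =>
    intro A hAQ hA
    have hIA : I ⊆ A := (Finset.subset_insert p I).trans hA
    have hpA : p ∈ A := hA (Finset.mem_insert_self p I)
    have hIA0 : I ⊆ A.erase p := by
      intro i hi
      rw [Finset.mem_erase]
      exact ⟨fun h => hp (h ▸ hi), hIA hi⟩
    have hA0Q : A.erase p ⊆ Q := (Finset.erase_subset p A).trans hAQ
    have herQ : ∀ i, A.erase i ⊆ Q := fun i => (Finset.erase_subset i A).trans hAQ
    obtain ⟨r1, c1⟩ := ih A hAQ hIA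
    obtain ⟨r0, _⟩ := ih (A.erase p) hA0Q hIA0
    have hsum : (⨆ i ∈ insert p I, Y (A.erase i)) =
        Y (A.erase p) ⊔ ⨆ i ∈ I, Y (A.erase i) := by
      rw [Finset.iSup_insert]
    have hU' : GSub L G (⨆ i ∈ I, Y (A.erase i)) :=
      GSub.biSup I _ (fun i _ => hY _ (herQ i))
    have hle : (⨆ i ∈ I, Y ((A.erase p).erase i)) ≤ ⨆ i ∈ I, Y (A.erase i) := by
      refine iSup₂_mono fun i _ => hg.mono _ _ ?_ (herQ i)
      rw [Finset.erase_right_comm]
      exact Finset.erase_subset _ _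
    have hinf : Y (A.erase p) ⊓ (⨆ i ∈ I, Y (A.erase i)) ≤
        ⨆ i ∈ I, Y ((A.erase p).erase i) := by
      have h1 := hg.dist (A.erase p) I p hA0Q hIA0 (hAQ hpA) (Finset.notMem_erase p A)
      rwa [Finset.insert_erase hpA] at h1
    constructor
    · intro q
      rw [hsum]
      exact Rel.step hN hW hU' (hY _ hA0Q) (hg.mono _ _ (Finset.erase_subset p A) hAQ) hle hinf
        (r0 (q + 1)) (r1 q)
    · rw [hsum, Finset.iSup_insert]
      rintro x ⟨hx, hx0, hxl⟩
      obtain ⟨y, hy, z, hz, rfl⟩ := Submodule.mem_sup.1 hx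
      -- replace `y`, `z` by their parts of weight zero
      have hx1 : G.π 0 y + G.π 0 z = y + z := by
        rw [← map_add]
        exact G.π_of_mem hx0
      have hyA := (hY (A.erase p) hA0Q).st 0 y hy
      have hzU := hU'.st 0 z hz
      rw [← hx1] at hx0 hxl ⊢
      set y0 := G.π 0 y
      set z0 := G.π 0 z
      -- `y0` is invariant modulo `U'`
      have hφ : of0 (K := K) (L := L) y0 ∈ CU N G (Y (A.erase p)) 0 :=
        ⟨G.π_mem 0 y, mem_VU_zero.2 hyA⟩
      have hφd : d 0 (of0 (K := K) (L := L) y0) ∈ CU N G (⨆ i ∈ I, Y ((A.erase p).erase i)) 1 := by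
        have h2 : d 0 (of0 (K := K) (L := L) (y0 + z0)) = 0 := by
          apply eq_zero_of_io
          intro x
          apply ext_ev0
          rw [io_d_zero, ev0_lie, ev0_of0, hxl x, map_zero]
        rw [map_add, map_add] at h2
        have h3 : d 0 (of0 (K := K) (L := L) y0) = -d 0 (of0 (K := K) (L := L) z0) :=
          eq_neg_of_add_eq_zero_left h2
        have h4 : d 0 (of0 (K := K) (L := L) z0) ∈ CU N G (⨆ i ∈ I, Y (A.erase i)) 1 :=
          d_mem_CU hN hW hU' ⟨G.π_mem 0 z, mem_VU_zero.2 hzU⟩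
        have h5 : d 0 (of0 (K := K) (L := L) y0) ∈ CU N G (Y (A.erase p)) 1 :=
          d_mem_CU hN hW (hY _ hA0Q) hφ
        refine ⟨h5.1, fun v => hinf ⟨h5.2 v, ?_⟩⟩
        rw [h3]
        exact (Submodule.neg_mem _ h4).2 v
      obtain ⟨ψ, hψ, hψ0, hψ'⟩ := r0 0 _ hφ hφd
      have hyψ : ev0 ψ ∈ Y (A.erase p) ⊓ inv0 G.W L := by
        refine ⟨mem_VU_zero.1 hψ.2, mem_CW_zero.1 hψ.1, fun x => ?_⟩
        rw [← ev0_lie, ← io_d_zero, hψ0, map_zero]
        exact map_zero _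
      have hdiff : y0 - ev0 ψ ∈ ⨆ i ∈ I, Y ((A.erase p).erase i) := mem_VU_zero.1 hψ'.2
      have hw : (y0 + z0) - ev0 ψ ∈ (⨆ i ∈ I, Y (A.erase i)) ⊓ inv0 G.W L := by
        constructor
        · have h6 : y0 + z0 - ev0 ψ = (y0 - ev0 ψ) + z0 := by abel
          rw [h6]
          exact Submodule.add_mem _ (hle hdiff) hzU
        · exact Submodule.sub_mem _ ⟨hx0, hxl⟩ hyψ.2
      have h7 : y0 + z0 = ev0 ψ + (y0 + z0 - ev0 ψ) := by abel
      rw [h7]
      exact Submodule.add_mem_sup hyψ (c1 hw)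

/-- **(R)**: the invariants of weight zero of an acyclic good family are a good family -/
theorem lgood_inv (hN : GrLie N) (hW : GrMod N G.W) {Y : Finset ι → Submodule K V}
    (hg : LGood Q Y) (hY : ∀ S, S ⊆ Q → GSub L G (Y S))
    (hac : ∀ S, S ⊆ Q → ∀ q, Rel N G (Y S) ⊥ q) : LGood Q (fun S => Y S ⊓ inv0 G.W L) where
  mono S S' h h' := inf_le_inf_right _ (hg.mono S S' h h')
  dist A I p hAQ hI hpQ hp := by
    have h1 := (rel_lattice hN hW hg hY hac I A hAQ hI).2
    refine le_trans (le_inf ?_ ?_) h1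
    · refine le_trans ?_ (hg.dist A I p hAQ hI hpQ hp)
      exact inf_le_inf inf_le_left (iSup₂_mono fun i _ => inf_le_left)
    · exact inf_le_left.trans inf_le_right

/-- transport along a linear map, injective on the top space -/
theorem lgood_of_injective {K V V' : Type*} [Field K] [AddCommGroup V] [Module K V]
    [AddCommGroup V'] [Module K V'] (θ : V' →ₗ[K] V) {Y : Finset ι → Submodule K V}
    {X : Finset ι → Submodule K V'} (hinj : ∀ x ∈ X Q, θ x = 0 → x = 0)
    (mono : ∀ S S', S ⊆ S' → S' ⊆ Q → X S ≤ X S') (hX : ∀ S, S ⊆ Q → (X S).map θ = Y S)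
    (hg : LGood Q Y) : LGood Q X where
  mono := mono
  dist A I p hAQ hI hpQ hp := by
    intro x hx
    have hpA : insert p A ⊆ Q := Finset.insert_subset hpQ hAQ
    have e1 : (⨆ i ∈ I, X ((insert p A).erase i)).map θ = ⨆ i ∈ I, Y ((insert p A).erase i) := by
      rw [Submodule.map_iSup]
      refine iSup_congr fun i => ?_
      rw [Submodule.map_iSup]
      exact iSup_congr fun _ => hX _ ((Finset.erase_subset i _).trans hpA)
    have e2 : (⨆ i ∈ I, X (A.erase i)).map θ = ⨆ i ∈ I, Y (A.erase i) := by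
      rw [Submodule.map_iSup]
      refine iSup_congr fun i => ?_
      rw [Submodule.map_iSup]
      exact iSup_congr fun _ => hX _ ((Finset.erase_subset i _).trans hAQ)
    have h1 : θ x ∈ Y A ⊓ ⨆ i ∈ I, Y ((insert p A).erase i) := by
      refine ⟨?_, ?_⟩
      · rw [← hX A hAQ]
        exact Submodule.mem_map_of_mem hx.1
      · have h2 := Submodule.mem_map_of_mem (f := θ) hx.2
        rwa [e1] at h2
    have h3 := hg.dist A I p hAQ hI hpQ hp h1
    rw [← e2] at h3
    obtain ⟨y, hy, hyx⟩ := h3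
    have hyA : y ∈ X A := by
      have h5 : (⨆ i ∈ I, X (A.erase i)) ≤ X A :=
        iSup₂_le fun i _ => mono _ _ (Finset.erase_subset i A) hAQ
      exact h5 hy
    have h6 : y - x = 0 := hinj _ (mono A Q hAQ (Finset.Subset.refl Q)
      (Submodule.sub_mem _ hyA hx.1)) (by rw [map_sub, hyx, sub_self])
    rw [← sub_eq_zero.1 h6]
    exact hy

end lattice

end Gao.CE
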