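import Pool.Agent.Gao.Sl2Bridge

/-!
# Gradings by projections on Hom, tensor products, products; closure of centered modules
-/

namespace Gao

open TensorProduct

variable {K X Y Λ : Type*} [Field K] [AddCommGroup X] [Module K X] [AddCommGroup Y] [Module K Y]
  [AddCommGroup Λ] [DecidableEq Λ] (G : Grading K X Λ) (G' : Grading K Y Λ)

namespace Grading

/-- a translate of the projections of a grading sums to `1` over any large enough finite set -/
lemma sum_of_supp_subset {S : Finset Λ} (hS : G.supp ⊆ S) : ∑ a ∈ S, G.π a = 1 := by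
  rw [← G.sum]
  exact (Finset.sum_subset hS fun a _ ha => G.zero a ha).symm

lemma sum_shift {S : Finset Λ} (b : Λ) (hS : ∀ a ∈ G.supp, a - b ∈ S) :
    ∑ d ∈ S, G.π (b + d) = 1 := by
  have h1 : ∑ a ∈ S.image (fun d => b + d), G.π a = ∑ d ∈ S, G.π (b + d) := by
    rw [Finset.sum_image]
    intro x _ y _ h
    exact add_left_cancel h
  rw [← h1]
  apply G.sum_of_supp_subset
  intro a ha
  rw [Finset.mem_image]
  exact ⟨a - b, hS a ha, by abel⟩

/-- the grading of `Hom(X, Y)` -/
def hom : Grading K (X →ₗ[K] Y) Λ where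
  π d := ∑ a ∈ G.supp, (LinearMap.llcomp K X Y Y (G'.π (a + d))) ∘ₗ (LinearMap.lcomp K Y (G.π a))
  mul d d' := by
    ext φ x
    simp only [Module.End.mul_apply, LinearMap.sum_apply, LinearMap.comp_apply,
      LinearMap.llcomp_apply, LinearMap.lcomp_apply]
    have h1 : ∀ a ∈ G.supp, G'.π (a + d) (∑ b ∈ G.supp, G'.π (b + d') (φ (G.π b (G.π a x)))) =
        if d = d' then G'.π (a + d) (φ (G.π a x)) else 0 := by
      intro a ha
      rw [Finset.sum_eq_single a]
      · rw [← Module.End.mul_apply (G.π a), G.mul_self, ← Module.End.mul_apply, G'.mul]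
        by_cases h : d = d'
        · simp [h]
        · rw [if_neg (fun h' => h (add_left_cancel h')), if_neg h]
          rfl
      · intro b _ hba
        rw [← Module.End.mul_apply (G.π b), G.mul_ne hba]
        simp
      · intro h
        exact absurd ha h
    rw [Finset.sum_congr rfl h1]
    by_cases h : d = d'
    · simp only [h, if_true]
      simp only [LinearMap.sum_apply, LinearMap.comp_apply, LinearMap.llcomp_apply,
        LinearMap.lcomp_apply]
    · simp [h]
  supp := (G.supp ×ˢ G'.supp).image (fun p => p.2 - p.1)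
  zero d hd := by
    apply Finset.sum_eq_zero
    intro a ha
    have h1 : G'.π (a + d) = 0 := by
      apply G'.zero
      intro h
      apply hd
      rw [Finset.mem_image]
      exact ⟨(a, a + d), Finset.mem_product.mpr ⟨ha, h⟩, by simp⟩
    rw [h1]
    ext φ x
    simp
  sum := by
    rw [Finset.sum_comm]
    have h1 : ∀ a ∈ G.supp, ∑ d ∈ (G.supp ×ˢ G'.supp).image (fun p => p.2 - p.1),
        (LinearMap.llcomp K X Y Y (G'.π (a + d))) ∘ₗ (LinearMap.lcomp K Y (G.π a)) =
        LinearMap.lcomp K Y (G.π a) := by
      intro a ha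
      ext φ x
      have h2 := congrArg (fun u : Module.End K Y => u (φ (G.π a x)))
        (G'.sum_shift (S := (G.supp ×ˢ G'.supp).image (fun p => p.2 - p.1)) a (by
          intro b hb
          rw [Finset.mem_image]
          exact ⟨(a, b), Finset.mem_product.mpr ⟨ha, hb⟩, rfl⟩))
      simp only [LinearMap.sum_apply, Module.End.one_apply] at h2
      simp only [LinearMap.sum_apply, LinearMap.comp_apply, LinearMap.llcomp_apply,
        LinearMap.lcomp_apply]
      exact h2
    rw [Finset.sum_congr rfl h1]
    ext φ x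
    simp only [LinearMap.sum_apply, LinearMap.lcomp_apply, Module.End.one_apply]
    rw [← map_sum, G.sum_apply]

lemma hom_π_apply (d : Λ) (φ : X →ₗ[K] Y) (x : X) :
    (G.hom G').π d φ x = ∑ a ∈ G.supp, G'.π (a + d) (φ (G.π a x)) := by
  change (∑ a ∈ G.supp, (LinearMap.llcomp K X Y Y (G'.π (a + d))) ∘ₗ
    (LinearMap.lcomp K Y (G.π a))) φ x = _
  simp only [LinearMap.sum_apply, LinearMap.comp_apply, LinearMap.llcomp_apply,
    LinearMap.lcomp_apply]

theorem hom_W : (G.hom G').W = Fam.homW G.W G'.W := by
  funext d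
  ext φ
  rw [mem_W]
  constructor
  · intro h a x hx
    rw [← h, hom_π_apply]
    by_cases ha : a ∈ G.supp
    · rw [Finset.sum_eq_single a]
      · exact G'.π_mem _ _
      · intro b _ hba
        rw [G.π_of_mem_ne hx hba]
        simp
      · intro h'
        exact absurd ha h'
    · rw [G.W_eq_bot ha, Submodule.mem_bot] at hx
      subst hx
      simp
  · intro h
    ext x
    rw [hom_π_apply]
    conv_rhs => rw [← G.sum_apply x, map_sum]
    exact Finset.sum_congr rfl fun a _ => G'.π_of_mem (h a _ (G.π_mem a x))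

/-- the grading of `X ⊗ Y` -/
noncomputable def tensor : Grading K (X ⊗[K] Y) Λ where
  π d := ∑ a ∈ G.supp, TensorProduct.map (G.π a) (G'.π (d - a))
  mul d d' := by
    rw [Finset.sum_mul]
    have h1 : ∀ a ∈ G.supp, TensorProduct.map (G.π a) (G'.π (d - a)) *
        ∑ b ∈ G.supp, TensorProduct.map (G.π b) (G'.π (d' - b)) =
        if d = d' then TensorProduct.map (G.π a) (G'.π (d - a)) else 0 := by
      intro a ha
      rw [Finset.mul_sum, Finset.sum_eq_single a]
      · rw [← TensorProduct.map_mul, G.mul_self, G'.mul]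
        by_cases h : d = d'
        · simp [h]
        · rw [if_neg (fun h' => h (sub_left_injective h')), if_neg h, TensorProduct.map_zero_right]
      · intro b _ hba
        rw [← TensorProduct.map_mul, G.mul_ne hba.symm, TensorProduct.map_zero_left]
      · intro h
        exact absurd ha h
    rw [Finset.sum_congr rfl h1]
    by_cases h : d = d'
    · simp [h]
    · simp [h]
  supp := (G.supp ×ˢ G'.supp).image (fun p => p.1 + p.2)
  zero d hd := by
    apply Finset.sum_eq_zero
    intro a ha
    have h1 : G'.π (d - a) = 0 := by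
      apply G'.zero
      intro h
      apply hd
      rw [Finset.mem_image]
      exact ⟨(a, d - a), Finset.mem_product.mpr ⟨ha, h⟩, by simp⟩
    rw [h1, TensorProduct.map_zero_right]
  sum := by
    rw [Finset.sum_comm]
    have h1 : ∀ a ∈ G.supp, ∑ d ∈ (G.supp ×ˢ G'.supp).image (fun p => p.1 + p.2),
        TensorProduct.map (G.π a) (G'.π (d - a)) = TensorProduct.map (G.π a) LinearMap.id := by
      intro a ha
      have h2 := G'.sum_shift (S := (G.supp ×ˢ G'.supp).image (fun p => p.1 + p.2)) (-a) (by
          intro b hb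
          rw [Finset.mem_image]
          exact ⟨(a, b), Finset.mem_product.mpr ⟨ha, hb⟩, by simp [add_comm]⟩)
      have h3 : ∀ d, TensorProduct.map (G.π a) (G'.π (d - a)) =
          TensorProduct.mapBilinear (.id K) X Y X Y (G.π a) (G'.π (-a + d)) := by
        intro d
        rw [neg_add_eq_sub]
        rfl
      simp only [h3]
      rw [← map_sum, h2]
      rfl
    rw [Finset.sum_congr rfl h1]
    apply TensorProduct.ext'
    intro x y
    simp only [LinearMap.sum_apply, TensorProduct.map_tmul, LinearMap.id_apply,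
      Module.End.one_apply]
    rw [← TensorProduct.sum_tmul, G.sum_apply]

lemma tensor_π_tmul (d : Λ) (x : X) (y : Y) :
    (G.tensor G').π d (x ⊗ₜ y) = ∑ a ∈ G.supp, G.π a x ⊗ₜ[K] G'.π (d - a) y := by
  change (∑ a ∈ G.supp, TensorProduct.map (G.π a) (G'.π (d - a))) (x ⊗ₜ y) = _
  simp only [LinearMap.sum_apply, TensorProduct.map_tmul]

theorem tmul_mem {a b : Λ} {x : X} {y : Y} (hx : x ∈ G.W a) (hy : y ∈ G'.W b) :
    x ⊗ₜ[K] y ∈ (G.tensor G').W (a + b) := by
  rw [mem_W, tensor_π_tmul]
  by_cases ha : a ∈ G.supp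
  · rw [Finset.sum_eq_single a]
    · rw [G.π_of_mem hx, add_sub_cancel_left, G'.π_of_mem hy]
    · intro c _ hca
      rw [G.π_of_mem_ne hx hca, TensorProduct.zero_tmul]
    · intro h
      exact absurd ha h
  · rw [G.W_eq_bot ha, Submodule.mem_bot] at hx
    subst hx
    simp

theorem tensor_W : (G.tensor G').W = Fam.tensorW G.W G'.W := by
  funext d
  apply le_antisymm
  · intro z hz
    rw [mem_W] at hz
    rw [← hz]
    have h1 : LinearMap.range ((G.tensor G').π d) ≤ Fam.tensorW G.W G'.W d := by
      rintro _ ⟨z, rfl⟩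
      induction z using TensorProduct.induction_on with
      | zero => simp
      | tmul x y =>
        rw [tensor_π_tmul]
        refine Submodule.sum_mem _ fun a _ => ?_
        exact Fam.tmul_mem_tensorW (G.π_mem a x) (G'.π_mem (d - a) y) (by abel)
      | add x y hx hy =>
        rw [map_add]
        exact Submodule.add_mem _ hx hy
    exact h1 ⟨z, rfl⟩
  · apply Fam.tensorW_le
    intro mu nu hmn x hx y hy
    rw [← hmn]
    exact G.tmul_mem G' hx hy

/-- the grading of `X × Y` -/
def prod : Grading K (X × Y) Λ where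
  π d := LinearMap.prodMap (G.π d) (G'.π d)
  mul d d' := by
    ext x
    · have := congrArg (fun u : Module.End K X => u x) (G.mul d d')
      by_cases h : d = d' <;> simp_all
    · have := congrArg (fun u : Module.End K X => u x) (G.mul d d')
      by_cases h : d = d' <;> simp_all
    · have := congrArg (fun u : Module.End K Y => u x) (G'.mul d d')
      by_cases h : d = d' <;> simp_all
    · have := congrArg (fun u : Module.End K Y => u x) (G'.mul d d')
      by_cases h : d = d' <;> simp_all
  supp := G.supp ∪ G'.supp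
  zero d hd := by
    rw [Finset.mem_union, not_or] at hd
    rw [G.zero d hd.1, G'.zero d hd.2]
    rfl
  sum := by
    apply LinearMap.ext
    rintro ⟨x, y⟩
    have h1 := congrArg (fun u : Module.End K X => u x)
      (G.sum_of_supp_subset (Finset.subset_union_left (s₁ := G.supp) (s₂ := G'.supp)))
    have h2 := congrArg (fun u : Module.End K Y => u y)
      (G'.sum_of_supp_subset (Finset.subset_union_right (s₁ := G.supp) (s₂ := G'.supp)))
    simp only [LinearMap.sum_apply, Module.End.one_apply] at h1 h2
    simp only [LinearMap.sum_apply, LinearMap.prodMap_apply, Module.End.one_apply]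
    rw [← h1, ← h2]
    ext <;> simp [Prod.fst_sum, Prod.snd_sum, h1, h2]

/-- twist by a character: the degrees are shifted by `c` -/
def twist (c : Λ) : Grading K X Λ where
  π d := G.π (d - c)
  mul a b := by
    rw [G.mul]
    by_cases h : a = b
    · simp [h]
    · rw [if_neg (fun h' => h (sub_left_injective h')), if_neg h]
  supp := G.supp.image (fun a => a + c)
  zero a ha := by
    apply G.zero
    intro h
    exact ha (Finset.mem_image.mpr ⟨a - c, h, by abel⟩)
  sum := by
    rw [Finset.sum_image]
    · simp only [add_sub_cancel_right]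
      exact G.sum
    · intro x _ y _ h
      exact add_right_cancel h

lemma mem_twist_W {c d : Λ} {x : X} : x ∈ (G.twist c).W d ↔ x ∈ G.W (d - c) := Iff.rfl

end Grading

variable {G G'} {e : Module.End K X} {e' : Module.End K Y} {α : Λ} {ht : Λ →+ ℤ} {χ χ' : ℤ}

theorem Centered.hom (h : Centered G e α ht χ) (h' : Centered G' e' α ht χ') :
    Centered (G.hom G') (Fam.homAct e e') α ht (χ' - χ) := by
  rw [centered_iff_fam] at h h' ⊢
  rw [G.hom_W G']
  obtain ⟨f, hf⟩ := h
  obtain ⟨f', hf'⟩ := h'
  exact ⟨_, hf.hom hf' G.iSup_W⟩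

theorem Hom.hom (h : Hom G e α) (h' : Hom G' e' α) : Hom (G.hom G') (Fam.homAct e e') α := by
  apply hom_of_mem
  rw [G.hom_W G']
  exact Fam.Raises.hom h.raises h'.raises

theorem Centered.tensor (h : Centered G e α ht χ) (h' : Centered G' e' α ht χ') :
    Centered (G.tensor G') (Fam.tensorAct e e') α ht (χ + χ') := by
  rw [centered_iff_fam] at h h' ⊢
  rw [G.tensor_W G']
  obtain ⟨f, hf⟩ := h
  obtain ⟨f', hf'⟩ := h'
  exact ⟨_, hf.tensor hf'⟩

theorem Hom.tensor (h : Hom G e α) (h' : Hom G' e' α) :
    Hom (G.tensor G') (Fam.tensorAct e e') α := by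
  apply hom_of_mem
  rw [G.tensor_W G']
  exact Fam.Raises.tensor h.raises h'.raises

theorem Hom.prod (h : Hom G e α) (h' : Hom G' e' α) :
    Hom (G.prod G') (LinearMap.prodMap e e') α := by
  intro a
  apply LinearMap.ext
  rintro ⟨x, y⟩
  have h1 := congrArg (fun u : Module.End K X => u x) (h a)
  have h2 := congrArg (fun u : Module.End K Y => u y) (h' a)
  exact Prod.ext h1 h2

theorem Centered.prod (h : Centered G e α ht χ) (h' : Centered G' e' α ht χ) :
    Centered (G.prod G') (LinearMap.prodMap e e') α ht χ := by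
  obtain ⟨f, hf, hc⟩ := h
  obtain ⟨f', hf', hc'⟩ := h'
  refine ⟨LinearMap.prodMap f f', hf.prod hf', fun a => ?_⟩
  apply LinearMap.ext
  rintro ⟨x, y⟩
  have h1 := congrArg (fun u : Module.End K X => u x) (hc a)
  have h2 := congrArg (fun u : Module.End K Y => u y) (hc' a)
  exact Prod.ext h1 h2

theorem Hom.twist (h : Hom G e α) (c : Λ) : Hom (G.twist c) e α := by
  intro a
  have h1 := h (a - c)
  have h2 : a - c + α = a + α - c := by abel
  rw [h2] at h1
  exact h1

theorem Centered.twist (h : Centered G e α ht χ) (c : Λ) :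
    Centered (G.twist c) e α ht (χ + ht c) := by
  obtain ⟨f, hf, hc⟩ := h
  refine ⟨f, hf.twist c, fun a => ?_⟩
  change (e * f - f * e) * G.π (a - c) = _ • G.π (a - c)
  rw [hc (a - c)]
  congr 2
  rw [map_sub]
  ring

end Gao
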