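import Pool.Agent.Gao.KLat
import Pool.Agent.Gao.RLat
import Pool.Agent.Gao.Sl2Close

/-!
# Parts K and R together (Gao project, MP_b139df_co)

`E` an `L`-module with a grading `GE`; `a_S : XS → E`, `b_S : ZS → E` graded equivariant injective
maps with ranges `N S`, `F S`.  Inserting the identity in the rows of `Q \ S` gives an injective
equivariant graded map `Hom(XS, ZS) → Hom(XQ, ZQ)` with range `D.Y`.
-/

set_option autoImplicit false

namespace Gao

open Finset Pool.Agent.Gao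

/-- an operator `X` of `E` which is compatible with the rows: in every row it is given by a matrix
plus the action on the other rows -/
def KD.Der {K E ι Λ : Type*} [Field K] [AddCommGroup E] [Module K E] [DecidableEq ι]
    [DecidableEq Λ] {Q : Finset ι} (D : KD K E ι Λ Q) (X : Module.End K E) : Prop :=
  ∀ i ∈ Q, ∃ m : Λ → Λ → K,
    (∀ l ∈ D.lab i, ∀ U, U ⊆ Q → i ∉ U → ∀ z ∈ D.F U, X (D.ins i l z) =
      ∑ l' ∈ D.lab i, m l' l • D.ins i l' z + D.ins i l (X z)) ∧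
    ∀ l ∈ D.lab i, ∀ T, T ⊆ Q → i ∈ T → ∀ y ∈ D.N T, D.ext i l (X y) =
      ∑ l' ∈ D.lab i, m l l' • D.ext i l' y + X (D.ext i l y)

namespace KD

section op

variable {K E ι Λ : Type*} [Field K] [AddCommGroup E] [Module K E] [DecidableEq ι] [DecidableEq Λ]
  {Q : Finset ι} (D : KD K E ι Λ Q)

/-- `[X, g ⊗ id] = [X, g] ⊗ id` -/
lemma Der.io {X : Module.End K E} (hX : D.Der X) {T : Finset ι} {i : ι} (hT : insert i T ⊆ Q)
    (hi : i ∉ T) {g : Module.End K E} (hg : D.Mp T T g)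
    {y : E} (hy : y ∈ D.N (insert i T)) :
    X (D.io i g y) - D.io i g (X y) = D.io i (X * g - g * X) y := by
  obtain ⟨m, m1, m2⟩ := hX i (hT (Finset.mem_insert_self i T))
  have hTQ : T ⊆ Q := (Finset.subset_insert i T).trans hT
  have hext : ∀ l ∈ D.lab i, D.ext i l y ∈ D.N T := by
    intro l hl
    have h1 := D.ext_N _ i hT (Finset.mem_insert_self i T) l hl y hy
    rwa [Finset.erase_insert hi] at h1
  have e1 : X (D.io i g y) = ∑ l ∈ D.lab i, ∑ l' ∈ D.lab i,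
      m l' l • D.ins i l' (g (D.ext i l y)) + ∑ l ∈ D.lab i, D.ins i l (X (g (D.ext i l y))) := by
    rw [io_apply, map_sum, ← Finset.sum_add_distrib]
    refine Finset.sum_congr rfl fun l hl => ?_
    exact m1 l hl T hTQ hi _ (hg _ (hext l hl))
  have e2 : D.io i g (X y) = ∑ l ∈ D.lab i, ∑ l' ∈ D.lab i,
      m l l' • D.ins i l (g (D.ext i l' y)) + ∑ l ∈ D.lab i, D.ins i l (g (X (D.ext i l y))) := by
    rw [io_apply, ← Finset.sum_add_distrib]
    refine Finset.sum_congr rfl fun l hl => ?_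
    rw [m2 l hl _ hT (Finset.mem_insert_self i T) y hy, map_add, map_add, map_sum, map_sum]
    simp only [map_smul]
  rw [e1, e2, Finset.sum_comm, io_apply]
  simp only [LinearMap.sub_apply, map_sub, Module.End.mul_apply, Finset.sum_sub_distrib]
  abel

/-- iterated version -/
lemma Der.ioL {X : Module.End K E} (hX : D.Der X) (L : List ι) (T : Finset ι)
    (hok : Ok (Q := Q) L T) : ∀ g : Module.End K E, D.Mp T T g →
    ∀ y ∈ D.N (L.toFinset ∪ T),
      X (D.ioL L g y) - D.ioL L g (X y) = D.ioL L (X * g - g * X) y := by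
  induction L with
  | nil =>
    intro g _ y _
    rfl
  | cons i L ih =>
    intro g hg y hy
    obtain ⟨h1, h2, h3⟩ := hok.cons
    have hQ : insert i (L.toFinset ∪ T) ⊆ Q := by
      rw [← h3]
      exact hok.2.2
    rw [h3] at hy
    have h4 := (D.ioL_props L T h1).2.1 g hg
    change X (D.io i (D.ioL L g) y) - D.io i (D.ioL L g) (X y) =
      D.io i (D.ioL L (X * g - g * X)) y
    rw [Der.io D hX hQ h2 h4 hy]
    refine D.io_congr hQ h2 (fun x hx => ?_) y hy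
    exact ih h1 g hg x hx

end op

section module

variable {K E ι Λ L Lam : Type*} [Field K] [CharZero K] [AddCommGroup E] [Module K E]
  [DecidableEq ι] [DecidableEq Λ] {Q : Finset ι} (D : KD K E ι Λ Q)
  [LieRing L] [LieAlgebra K L] [LieRingModule L E] [LieModule K L E] [AddCommGroup Lam]
  [DecidableEq Lam]

/-- `a : X → E` is an injective equivariant graded map with range `U` -/
structure Emb (L : Type*) [LieRing L] [LieAlgebra K L] [LieRingModule L E] [LieModule K L E]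
    {X : Type*} [AddCommGroup X] [Module K X] [LieRingModule L X] [LieModule K L X]
    (GX : Grading K X Lam) (GE : Grading K E Lam) (U : Submodule K E) (a : X →ₗ[K] E) : Prop where
  inj : Function.Injective a
  rng : LinearMap.range a = U
  lie : ∀ (x : L) (m : X), a ⁅x, m⁆ = ⁅x, a m⁆
  W : ∀ mu, ∀ m ∈ GX.W mu, a m ∈ GE.W mu

variable {X Z XQ ZQ : Type*}
  [AddCommGroup X] [Module K X] [LieRingModule L X] [LieModule K L X]
  [AddCommGroup Z] [Module K Z] [LieRingModule L Z] [LieModule K L Z]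
  [AddCommGroup XQ] [Module K XQ] [LieRingModule L XQ] [LieModule K L XQ]
  [AddCommGroup ZQ] [Module K ZQ] [LieRingModule L ZQ] [LieModule K L ZQ]
  {GE : Grading K E Lam} {GX : Grading K X Lam} {GZ : Grading K Z Lam}
  {GXQ : Grading K XQ Lam} {GZQ : Grading K ZQ Lam}

omit [CharZero K] [AddCommGroup Lam] [DecidableEq Lam] [LieRing L] [LieAlgebra K L]
  [LieRingModule L E] [LieModule K L E] in
lemma left_inv {X : Type*} [AddCommGroup X] [Module K X] {a : X →ₗ[K] E}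
    (ha : Function.Injective a) : ∃ r : E →ₗ[K] X, ∀ m, r (a m) = m := by
  obtain ⟨r, hr⟩ := a.exists_leftInverse_of_injective (LinearMap.ker_eq_bot.2 ha)
  exact ⟨r, fun m => congrArg (fun u : X →ₗ[K] X => u m) hr⟩

/-- degrees of `g ⊗ id` -/
lemma ioL_W (wt : ι → Λ → Lam) (hins : ∀ i ∈ Q, ∀ l ∈ D.lab i, ∀ mu, ∀ z ∈ GE.W mu,
      D.ins i l z ∈ GE.W (mu + wt i l))
    (hext : ∀ i ∈ Q, ∀ l ∈ D.lab i, ∀ mu, ∀ z ∈ GE.W (mu + wt i l), D.ext i l z ∈ GE.W mu)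
    (L : List ι) (T : Finset ι) (hok : Ok (Q := Q) L T) (mu : Lam) (g : Module.End K E)
    (hg : ∀ nu, ∀ y ∈ D.N T, y ∈ GE.W nu → g y ∈ GE.W (nu + mu)) :
    ∀ nu, ∀ y ∈ D.N (L.toFinset ∪ T), y ∈ GE.W nu → D.ioL L g y ∈ GE.W (nu + mu) := by
  induction L with
  | nil =>
    intro nu y hy hyW
    rw [List.toFinset_nil, Finset.empty_union] at hy
    exact hg nu y hy hyW
  | cons i L ih =>
    intro nu y hy hyW
    obtain ⟨h1, h2, h3⟩ := hok.cons
    have hQ : insert i (L.toFinset ∪ T) ⊆ Q := by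
      rw [← h3]
      exact hok.2.2
    have hiQ : i ∈ Q := hQ (Finset.mem_insert_self i _)
    rw [h3] at hy
    change D.io i (D.ioL L g) y ∈ _
    rw [io_apply]
    refine Submodule.sum_mem _ fun l hl => ?_
    have h4 := D.ext_N _ i hQ (Finset.mem_insert_self i _) l hl y hy
    rw [Finset.erase_insert h2] at h4
    have h5 : D.ext i l y ∈ GE.W (nu - wt i l) :=
      hext i hiQ l hl (nu - wt i l) y (by rwa [sub_add_cancel])
    have h6 := hins i hiQ l hl _ _ (ih h1 _ _ h4 h5)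
    have h7 : nu - wt i l + mu + wt i l = nu + mu := by abel
    rwa [h7] at h6

/-- the embedding `Hom(N S, F S) → Hom(N Q, F Q)` -/
theorem exists_emb {a : X →ₗ[K] E} {b : Z →ₗ[K] E} {aQ : XQ →ₗ[K] E}
    {bQ : ZQ →ₗ[K] E} {S : Finset ι} (hS : S ⊆ Q) (ha : Emb L GX GE (D.N S) a)
    (hb : Emb L GZ GE (D.F S) b) (haQ : Emb L GXQ GE (D.N Q) aQ) (hbQ : Emb L GZQ GE (D.F Q) bQ)
    (hder : ∀ x : L, D.Der (LieModule.toEnd K L E x))
    (wt : ι → Λ → Lam) (hins : ∀ i ∈ Q, ∀ l ∈ D.lab i, ∀ mu, ∀ z ∈ GE.W mu,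
      D.ins i l z ∈ GE.W (mu + wt i l))
    (hext : ∀ i ∈ Q, ∀ l ∈ D.lab i, ∀ mu, ∀ z ∈ GE.W (mu + wt i l), D.ext i l z ∈ GE.W mu) :
    ∃ j : (X →ₗ[K] Z) →ₗ[K] (XQ →ₗ[K] ZQ),
      Emb L (GX.hom GZ) (GXQ.hom GZQ) (D.Y aQ bQ S) j := by
  obtain ⟨r, hr⟩ := left_inv ha.inj
  obtain ⟨rb, hrb⟩ := left_inv hb.inj
  obtain ⟨rQ, hrQ⟩ := left_inv hbQ.inj
  set L0 := (Q \ S).toList with hL0
  have hn0 : L0.Nodup := Finset.nodup_toList _
  have ht0 : L0.toFinset = Q \ S := Finset.toList_toFinset _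
  have hok : Ok (Q := Q) L0 S := by
    refine ⟨hn0, ?_, ?_⟩
    · rw [ht0]
      exact Finset.sdiff_disjoint
    · rw [ht0, Finset.sdiff_union_of_subset hS]
  have hLQ : L0.toFinset ∪ S = Q := by
    rw [ht0, Finset.sdiff_union_of_subset hS]
  obtain ⟨p1, p2, p3⟩ := D.ioL_props L0 S hok
  rw [hLQ] at p1 p2 p3
  -- the extension of a map to `E`
  let ex : (X →ₗ[K] Z) → Module.End K E := fun ψ => b ∘ₗ ψ ∘ₗ r
  have hex : ∀ ψ m, ex ψ (a m) = b (ψ m) := fun ψ m => by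
    change b (ψ (r (a m))) = b (ψ m)
    rw [hr]
  have hexM : ∀ ψ, D.Mp S S (ex ψ) := by
    intro ψ y hy
    rw [← ha.rng] at hy
    obtain ⟨m, rfl⟩ := hy
    rw [hex, ← hb.rng]
    exact ⟨_, rfl⟩
  let j : (X →ₗ[K] Z) →ₗ[K] (XQ →ₗ[K] ZQ) :=
    { toFun := fun ψ => rQ ∘ₗ D.ioL L0 (ex ψ) ∘ₗ aQ
      map_add' := fun ψ ψ' => by
        have h1 : ex (ψ + ψ') = ex ψ + ex ψ' := by
          ext y
          simp [ex]
        rw [h1, ioL_add]
        ext y
        simp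
      map_smul' := fun c ψ => by
        have h1 : ex (c • ψ) = c • ex ψ := by
          ext y
          simp [ex]
        rw [h1, ioL_smul]
        ext y
        simp }
  have haQN : ∀ x, aQ x ∈ D.N Q := fun x => by rw [← haQ.rng]; exact ⟨x, rfl⟩
  have hj : ∀ ψ x, bQ (j ψ x) = D.ioL L0 (ex ψ) (aQ x) := by
    intro ψ x
    have h1 : D.ioL L0 (ex ψ) (aQ x) ∈ LinearMap.range bQ := by
      rw [hbQ.rng]
      exact p2 _ (hexM ψ) _ (haQN x)
    obtain ⟨y, hy⟩ := h1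
    change bQ (rQ (D.ioL L0 (ex ψ) (aQ x))) = _
    rw [← hy, hrQ]
  have hjinj : Function.Injective j := by
    rw [injective_iff_map_eq_zero]
    intro ψ h0
    have h1 : ∀ x ∈ D.N S, ex ψ x = 0 := by
      refine p3 _ (hexM ψ) ?_
      intro y hy
      rw [← haQ.rng] at hy
      obtain ⟨x, rfl⟩ := hy
      rw [← hj, h0, LinearMap.zero_apply, map_zero]
    ext m
    apply hb.inj
    rw [← hex, h1 _ (by rw [← ha.rng]; exact ⟨m, rfl⟩), LinearMap.zero_apply, map_zero]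
  have hrange : LinearMap.range j = D.Y aQ bQ S := by
    apply le_antisymm
    · rintro _ ⟨ψ, rfl⟩
      exact ⟨ex ψ, hexM ψ, hj ψ⟩
    · rintro Ψ ⟨φ, h1, h2⟩
      refine ⟨rb ∘ₗ φ ∘ₗ a, ?_⟩
      have h3 : ∀ m, b ((rb ∘ₗ φ ∘ₗ a) m) = φ (a m) := by
        intro m
        have h4 : φ (a m) ∈ LinearMap.range b := by
          rw [hb.rng]
          exact h1 _ (by rw [← ha.rng]; exact ⟨m, rfl⟩)
        obtain ⟨y, hy⟩ := h4
        change b (rb (φ (a m))) = _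
        rw [← hy, hrb]
      have h5 : ∀ x ∈ D.N S, ex (rb ∘ₗ φ ∘ₗ a) x = φ x := by
        intro x hx
        rw [← ha.rng] at hx
        obtain ⟨m, rfl⟩ := hx
        rw [hex, h3]
      ext x
      apply hbQ.inj
      rw [hj, h2]
      exact p1 _ _ h5 _ (haQN x)
  have hjl : ∀ (x : L) (ψ : X →ₗ[K] Z), j ⁅x, ψ⁆ = ⁅x, j ψ⁆ := by
    intro x ψ
    ext m
    apply hbQ.inj
    rw [hj, LieHom.lie_apply, map_sub, hbQ.lie, hj, hj, haQ.lie]
    have h1 : ∀ y ∈ D.N S, ex ⁅x, ψ⁆ y =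
        ((LieModule.toEnd K L E x) * ex ψ - ex ψ * (LieModule.toEnd K L E x)) y := by
      intro y hy
      rw [← ha.rng] at hy
      obtain ⟨m, rfl⟩ := hy
      rw [hex, LinearMap.sub_apply, Module.End.mul_apply, Module.End.mul_apply, hex,
        LieModule.toEnd_apply_apply, LieModule.toEnd_apply_apply, ← ha.lie, hex,
        LieHom.lie_apply, map_sub, hb.lie]
    rw [p1 _ _ h1 _ (haQN m)]
    have h2 := Der.ioL D (hder x) L0 S hok (ex ψ) (hexM ψ) (aQ m) (by rw [hLQ]; exact haQN m)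
    rw [← h2]
    rfl
  have hjW : ∀ mu, ∀ ψ ∈ (GX.hom GZ).W mu, j ψ ∈ (GXQ.hom GZQ).W mu := by
    intro mu ψ hψ
    rw [Grading.hom_W] at hψ ⊢
    intro nu m hm
    rw [CE.mem_W_iff_of_injective GZQ bQ hbQ.inj hbQ.W, hj]
    refine ioL_W D wt hins hext L0 S hok mu (ex ψ) ?_ nu _ (by rw [hLQ]; exact haQN m)
      (haQ.W nu m hm)
    intro nu' y hy hyW
    rw [← ha.rng] at hy
    obtain ⟨m', rfl⟩ := hy
    rw [hex]
    rw [← CE.mem_W_iff_of_injective GX a ha.inj ha.W] at hyW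
    exact hb.W _ _ (hψ nu' m' hyW)
  exact ⟨j, hjinj, hrange, hjl, hjW⟩

/-- **acyclicity transfer** -/
theorem rel_Y {N : Lam → Submodule K L} {a : X →ₗ[K] E} {b : Z →ₗ[K] E} {aQ : XQ →ₗ[K] E}
    {bQ : ZQ →ₗ[K] E} {S : Finset ι} (hS : S ⊆ Q) (ha : Emb L GX GE (D.N S) a)
    (hb : Emb L GZ GE (D.F S) b) (haQ : Emb L GXQ GE (D.N Q) aQ) (hbQ : Emb L GZQ GE (D.F Q) bQ)
    (hder : ∀ x : L, D.Der (LieModule.toEnd K L E x))
    (wt : ι → Λ → Lam) (hins : ∀ i ∈ Q, ∀ l ∈ D.lab i, ∀ mu, ∀ z ∈ GE.W mu,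
      D.ins i l z ∈ GE.W (mu + wt i l))
    (hext : ∀ i ∈ Q, ∀ l ∈ D.lab i, ∀ mu, ∀ z ∈ GE.W (mu + wt i l), D.ext i l z ∈ GE.W mu)
    (hv : ∀ q, CE.HV N (Fam.homW GX.W GZ.W) (q + 1)) (q : ℕ) :
    CE.Rel N (GXQ.hom GZQ) (D.Y aQ bQ S) ⊥ q := by
  obtain ⟨j, hj⟩ := D.exists_emb hS ha hb haQ hbQ hder wt hins hext
  refine CE.rel_bot_of_HV (WX := (GX.hom GZ).W) j hj.inj hj.rng hj.lie
    (CE.mem_W_iff_of_injective (GX.hom GZ) j hj.inj hj.W) ?_ q
  intro q
  rw [Grading.hom_W]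
  exact hv q

end module

end KD

end Gao
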