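import Pool.Agent.Gao.KOp
import Pool.Agent.Gao.Lattice

/-!
# Part K in lattice form (Gao project, MP_b139df_co)

`SQ`, `FQ` types with injective linear maps `a`, `b` onto `N Q`, `F Q`.  `D.Y a b S` = the maps
`SQ → FQ` which come from a map `N S → F S` by inserting the identity in the rows of `Q \ S`.
`KD.lgood_Y` : this family is good (`LGood Q`).
-/

set_option autoImplicit false

namespace Gao

open Finset Pool.Agent.Gao

variable {K E ι Λ : Type*} [Field K] [AddCommGroup E] [Module K E] [DecidableEq ι] [DecidableEq Λ]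

namespace KD

variable {Q : Finset ι} (D : KD K E ι Λ Q)

/-- insertion of the identity in the rows of a list -/
def ioL : List ι → Module.End K E → Module.End K E
  | [], g => g
  | i :: L, g => D.io i (ioL L g)

lemma ioL_append (L L' : List ι) (g : Module.End K E) :
    D.ioL (L ++ L') g = D.ioL L (D.ioL L' g) := by
  induction L with
  | nil => rfl
  | cons i L ih =>
    change D.io i (D.ioL (L ++ L') g) = D.io i (D.ioL L (D.ioL L' g))
    rw [ih]

lemma ioL_add (L : List ι) (g g' : Module.End K E) :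
    D.ioL L (g + g') = D.ioL L g + D.ioL L g' := by
  induction L with
  | nil => rfl
  | cons i L ih =>
    change D.io i (D.ioL L (g + g')) = D.io i (D.ioL L g) + D.io i (D.ioL L g')
    rw [ih, io_add]

lemma ioL_smul (L : List ι) (c : K) (g : Module.End K E) :
    D.ioL L (c • g) = c • D.ioL L g := by
  induction L with
  | nil => rfl
  | cons i L ih =>
    change D.io i (D.ioL L (c • g)) = c • D.io i (D.ioL L g)
    rw [ih, io_smul]

/-- `ioL L` as a linear map -/
def ioLin (L : List ι) : Module.End K E →ₗ[K] Module.End K E where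
  toFun := D.ioL L
  map_add' := D.ioL_add L
  map_smul' := D.ioL_smul L

lemma ioL_sub (L : List ι) (g g' : Module.End K E) :
    D.ioL L (g - g') = D.ioL L g - D.ioL L g' := map_sub (D.ioLin L) g g'

lemma ioL_sum {κ : Type*} (s : Finset κ) (L : List ι) (g : κ → Module.End K E) :
    D.ioL L (∑ k ∈ s, g k) = ∑ k ∈ s, D.ioL L (g k) := map_sum (D.ioLin L) g s

lemma ioL_zero (L : List ι) : D.ioL L 0 = 0 := map_zero (D.ioLin L)

/-- the order of the rows changes only a sign -/
lemma ioL_perm {L L' : List ι} (h : L.Perm L') (hn : L.Nodup) :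
    ∃ c : K, c * c = 1 ∧ ∀ g, D.ioL L' g = c • D.ioL L g := by
  induction h with
  | nil => exact ⟨1, by simp, fun g => by rw [one_smul]⟩
  | @cons i L L' _ ih =>
    obtain ⟨c, hc, hg⟩ := ih (List.nodup_cons.1 hn).2
    refine ⟨c, hc, fun g => ?_⟩
    change D.io i (D.ioL L' g) = c • D.io i (D.ioL L g)
    rw [hg, io_smul]
  | swap i j L =>
    have hij : i ≠ j := by
      intro h
      subst h
      simp at hn
    refine ⟨D.sg i j * D.sg j i, ?_, fun g => ?_⟩
    · have h1 := D.sg_sq i j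
      have h2 := D.sg_sq j i
      calc D.sg i j * D.sg j i * (D.sg i j * D.sg j i) =
          (D.sg i j * D.sg i j) * (D.sg j i * D.sg j i) := by ring
        _ = 1 := by rw [h1, h2, one_mul]
    · exact D.io_io hij _
  | trans h1 _ ih1 ih2 =>
    obtain ⟨c, hc, hg⟩ := ih1 hn
    obtain ⟨c', hc', hg'⟩ := ih2 (h1.nodup_iff.1 hn)
    refine ⟨c' * c, ?_, fun g => ?_⟩
    · calc c' * c * (c' * c) = (c' * c') * (c * c) := by ring
        _ = 1 := by rw [hc, hc', one_mul]
    · rw [hg', hg, smul_smul]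

lemma io_congr {T : Finset ι} {i : ι} (hT : insert i T ⊆ Q) (hi : i ∉ T)
    {g g' : Module.End K E} (h : ∀ x ∈ D.N T, g x = g' x) :
    ∀ x ∈ D.N (insert i T), D.io i g x = D.io i g' x := by
  intro x hx
  rw [io_apply, io_apply]
  refine Finset.sum_congr rfl fun l hl => ?_
  have h1 := D.ext_N _ i hT (Finset.mem_insert_self i T) l hl x hx
  rw [Finset.erase_insert hi] at h1
  rw [h _ h1]

lemma io_Mp' {T : Finset ι} {i : ι} (hT : insert i T ⊆ Q) (hi : i ∉ T)
    {g : Module.End K E} (h : D.Mp T T g) : D.Mp (insert i T) (insert i T) (D.io i g) := by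
  refine D.io_Mp hT hT (Finset.mem_insert_self i T) (Finset.mem_insert_self i T) ?_
  rwa [Finset.erase_insert hi]

lemma io_inj {T : Finset ι} {i : ι} (hT : insert i T ⊆ Q) (hi : i ∉ T)
    {g : Module.End K E} (h : D.Mp T T g) (h0 : ∀ x ∈ D.N (insert i T), D.io i g x = 0) :
    ∀ x ∈ D.N T, g x = 0 := by
  intro y hy
  obtain ⟨x, hx, _, hxy⟩ := D.onto T ∅ i ((Finset.subset_insert i T).trans hT)
    (Finset.empty_subset T) (hT (Finset.mem_insert_self i T)) hi y hy (by simp)
  have hxy' : D.ph i x = y := hxy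
  rw [← hxy', ← D.ph_io_self hi g x, h0 x hx, map_zero]
  intro l hl
  have h1 := D.ext_N _ i hT (Finset.mem_insert_self i T) l hl x hx
  rw [Finset.erase_insert hi] at h1
  exact h _ h1

/-- the rows of a list are disjoint from `T` and inside `Q` -/
def Ok (L : List ι) (T : Finset ι) : Prop := L.Nodup ∧ Disjoint L.toFinset T ∧
  L.toFinset ∪ T ⊆ Q

lemma Ok.cons {L : List ι} {T : Finset ι} {i : ι} (h : Ok (Q := Q) (i :: L) T) :
    Ok (Q := Q) L T ∧ i ∉ L.toFinset ∪ T ∧ (i :: L).toFinset ∪ T = insert i (L.toFinset ∪ T) := by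
  obtain ⟨h1, h2, h3⟩ := h
  rw [List.toFinset_cons] at h2 h3
  rw [Finset.disjoint_insert_left] at h2
  refine ⟨⟨(List.nodup_cons.1 h1).2, h2.2, fun x hx => h3 ?_⟩, ?_, ?_⟩
  · rw [Finset.insert_union]
    exact Finset.mem_insert_of_mem hx
  · rw [Finset.mem_union, List.mem_toFinset]
    rintro (h | h)
    · exact (List.nodup_cons.1 h1).1 h
    · exact h2.1 h
  · rw [List.toFinset_cons, Finset.insert_union]

lemma ioL_props (L : List ι) (T : Finset ι) (hok : Ok (Q := Q) L T) :
    (∀ g g' : Module.End K E, (∀ x ∈ D.N T, g x = g' x) →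
      ∀ x ∈ D.N (L.toFinset ∪ T), D.ioL L g x = D.ioL L g' x) ∧
    (∀ g, D.Mp T T g → D.Mp (L.toFinset ∪ T) (L.toFinset ∪ T) (D.ioL L g)) ∧
    (∀ g, D.Mp T T g → (∀ x ∈ D.N (L.toFinset ∪ T), D.ioL L g x = 0) → ∀ x ∈ D.N T, g x = 0) := by
  induction L with
  | nil =>
    simp only [List.toFinset_nil, Finset.empty_union]
    exact ⟨fun g g' h => h, fun g h => h, fun g _ h => h⟩
  | cons i L ih =>
    obtain ⟨h1, h2, h3⟩ := hok.cons
    obtain ⟨a1, a2, a3⟩ := ih h1
    have hQ : insert i (L.toFinset ∪ T) ⊆ Q := by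
      rw [← h3]
      exact hok.2.2
    rw [h3]
    refine ⟨fun g g' h => ?_, fun g h => ?_, fun g h h0 => ?_⟩
    · exact D.io_congr hQ h2 (a1 g g' h)
    · exact D.io_Mp' hQ h2 (a2 g h)
    · exact a3 g h (D.io_inj hQ h2 (a2 g h) h0)

section Y

variable {SQ FQ : Type*} [AddCommGroup SQ] [Module K SQ] [AddCommGroup FQ] [Module K FQ]
  (a : SQ →ₗ[K] E) (b : FQ →ₗ[K] E)

/-- the maps which come from `N S → F S` -/
def Y (S : Finset ι) : Submodule K (SQ →ₗ[K] FQ) where
  carrier := {Ψ | ∃ φ, D.Mp S S φ ∧ ∀ x, b (Ψ x) = D.ioL (Q \ S).toList φ (a x)}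
  zero_mem' := ⟨0, Mp.zero D S S, fun x => by rw [ioL_zero]; simp⟩
  add_mem' := by
    rintro Ψ Ψ' ⟨φ, h1, h2⟩ ⟨φ', h1', h2'⟩
    refine ⟨φ + φ', fun x hx => Submodule.add_mem _ (h1 x hx) (h1' x hx), fun x => ?_⟩
    rw [ioL_add, LinearMap.add_apply, LinearMap.add_apply, map_add, h2, h2']
  smul_mem' := by
    rintro c Ψ ⟨φ, h1, h2⟩
    refine ⟨c • φ, fun x hx => Submodule.smul_mem _ c (h1 x hx), fun x => ?_⟩
    rw [ioL_smul, LinearMap.smul_apply, LinearMap.smul_apply, map_smul, h2]

lemma mem_Y_iff {S : Finset ι} {L : List ι} (hn : L.Nodup) (hL : L.toFinset = Q \ S)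
    (Ψ : SQ →ₗ[K] FQ) :
    Ψ ∈ D.Y a b S ↔ ∃ φ, D.Mp S S φ ∧ ∀ x, b (Ψ x) = D.ioL L φ (a x) := by
  have hp : (Q \ S).toList.Perm L := by
    apply List.perm_of_nodup_nodup_toFinset_eq (Finset.nodup_toList _) hn
    rw [Finset.toList_toFinset, hL]
  obtain ⟨c, hc, hg⟩ := D.ioL_perm hp (Finset.nodup_toList _)
  constructor
  · rintro ⟨φ, h1, h2⟩
    refine ⟨c • φ, fun x hx => Submodule.smul_mem _ c (h1 x hx), fun x => ?_⟩
    rw [hg, ioL_smul, smul_smul, hc, one_smul, h2]
  · rintro ⟨φ, h1, h2⟩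
    refine ⟨c • φ, fun x hx => Submodule.smul_mem _ c (h1 x hx), fun x => ?_⟩
    rw [ioL_smul, ← hg, h2]

variable {a b}

/-- a map `N Q → F Q` as an element of `Hom(SQ, FQ)` -/
lemma exists_mk (ha : LinearMap.range a = D.N Q) (hb : Function.Injective b)
    (hbr : LinearMap.range b = D.F Q) {φ : Module.End K E} (hφ : D.Mp Q Q φ) :
    ∃ Ψ : SQ →ₗ[K] FQ, ∀ x, b (Ψ x) = φ (a x) := by
  obtain ⟨r, hr⟩ := b.exists_leftInverse_of_injective (LinearMap.ker_eq_bot.2 hb)
  refine ⟨r ∘ₗ φ ∘ₗ a, fun x => ?_⟩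
  have h1 : φ (a x) ∈ LinearMap.range b := by
    rw [hbr]
    exact hφ _ (by rw [← ha]; exact ⟨x, rfl⟩)
  obtain ⟨y, hy⟩ := h1
  change b (r (φ (a x))) = φ (a x)
  rw [← hy]
  congr 1
  exact congrArg (fun u : FQ →ₗ[K] FQ => u y) hr

/-- **part K, lattice form** -/
theorem lgood_Y (ha : LinearMap.range a = D.N Q) (hb : Function.Injective b)
    (hbr : LinearMap.range b = D.F Q) : LGood Q (D.Y a b) where
  mono S S' hS hS' := by
    intro Ψ hΨ
    set L0 := (Q \ S').toList with hL0
    set L1 := (S' \ S).toList with hL1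
    have hn0 : L0.Nodup := Finset.nodup_toList _
    have hn1 : L1.Nodup := Finset.nodup_toList _
    have ht0 : L0.toFinset = Q \ S' := Finset.toList_toFinset _
    have ht1 : L1.toFinset = S' \ S := Finset.toList_toFinset _
    have hd : List.Disjoint L0 L1 := by
      intro i h0 h1
      rw [hL0, Finset.mem_toList, Finset.mem_sdiff] at h0
      rw [hL1, Finset.mem_toList, Finset.mem_sdiff] at h1
      exact h0.2 h1.1
    have hn : (L0 ++ L1).Nodup := List.nodup_append'.2 ⟨hn0, hn1, hd⟩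
    have ht : (L0 ++ L1).toFinset = Q \ S := by
      rw [List.toFinset_append, ht0, ht1]
      ext i
      simp only [Finset.mem_union, Finset.mem_sdiff]
      constructor
      · rintro (⟨h1, h2⟩ | ⟨h1, h2⟩)
        · exact ⟨h1, fun h => h2 (hS h)⟩
        · exact ⟨hS' h1, h2⟩
      · rintro ⟨h1, h2⟩
        by_cases h3 : i ∈ S'
        · exact Or.inr ⟨h3, h2⟩
        · exact Or.inl ⟨h1, h3⟩
    obtain ⟨φ, h1, h2⟩ := (D.mem_Y_iff a b hn ht Ψ).1 hΨ
    have hok : Ok (Q := Q) L1 S := by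
      refine ⟨hn1, ?_, ?_⟩
      · rw [ht1]
        exact Finset.sdiff_disjoint
      · rw [ht1, Finset.sdiff_union_of_subset hS]
        exact hS'
    have h3 := (D.ioL_props L1 S hok).2.1 φ h1
    rw [ht1, Finset.sdiff_union_of_subset hS] at h3
    refine (D.mem_Y_iff a b hn0 ht0 Ψ).2 ⟨_, h3, fun x => ?_⟩
    rw [h2, ioL_append]
  dist S I p hS hI hp hpS := by
    rintro Ψ ⟨hΨ, hΨ'⟩
    rw [SetLike.mem_coe, mem_biSup_iff] at hΨ'
    obtain ⟨y, hy, hys⟩ := hΨ'
    have hSp : insert p S ⊆ Q := Finset.insert_subset hp hS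
    set L0 := (Q \ insert p S).toList with hL0
    have hn0 : L0.Nodup := Finset.nodup_toList _
    have ht0 : L0.toFinset = Q \ insert p S := Finset.toList_toFinset _
    have hmem0 : ∀ i, i ∈ L0 ↔ i ∈ Q ∧ i ∉ insert p S := fun i => by
      rw [hL0, Finset.mem_toList, Finset.mem_sdiff]
    have hadd : ∀ i, i ∈ insert p S → (L0 ++ [i]).Nodup ∧
        (L0 ++ [i]).toFinset = Q \ ((insert p S).erase i) := by
      intro i hi
      constructor
      · refine List.nodup_append'.2 ⟨hn0, List.nodup_singleton i, ?_⟩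
        intro j hj hj'
        rw [List.mem_singleton] at hj'
        subst hj'
        exact ((hmem0 j).1 hj).2 hi
      · rw [List.toFinset_append, ht0]
        ext j
        simp only [Finset.mem_union, Finset.mem_sdiff, List.mem_toFinset, List.mem_singleton,
          Finset.mem_erase]
        constructor
        · rintro (⟨h1, h2⟩ | rfl)
          · exact ⟨h1, fun h => h2 h.2⟩
          · exact ⟨hSp hi, fun h => h.1 rfl⟩
        · rintro ⟨h1, h2⟩
          by_cases h3 : j = i
          · exact Or.inr h3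
          · exact Or.inl ⟨h1, fun h => h2 ⟨h3, h⟩⟩
    -- `Ψ` through `S`
    have hpI : p ∈ insert p S := Finset.mem_insert_self p S
    obtain ⟨hnp, htp⟩ := hadd p hpI
    rw [Finset.erase_insert hpS] at htp
    obtain ⟨φ, hφ, hφΨ⟩ := (D.mem_Y_iff a b hnp htp Ψ).1 hΨ
    -- the summands
    have hsub : ∀ i ∈ I, i ∈ insert p S := fun i hi => Finset.mem_insert_of_mem (hI hi)
    have hch : ∀ i, ∃ φi : Module.End K E, i ∈ I →
        D.Mp ((insert p S).erase i) ((insert p S).erase i) φi ∧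
          ∀ x, b (y i x) = D.ioL (L0 ++ [i]) φi (a x) := by
      intro i
      by_cases hi : i ∈ I
      · obtain ⟨hn, ht⟩ := hadd i (hsub i hi)
        obtain ⟨φi, h1, h2⟩ := (D.mem_Y_iff a b hn ht (y i)).1 (hy i hi)
        exact ⟨φi, fun _ => ⟨h1, h2⟩⟩
      · exact ⟨0, fun h => absurd h hi⟩
    choose φi hφi using hch
    set h := D.io p φ - ∑ i ∈ I, D.io i (φi i) with hh
    have hhM : D.Mp (insert p S) (insert p S) h := by
      intro x hx
      rw [hh, LinearMap.sub_apply, LinearMap.sum_apply]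
      refine Submodule.sub_mem _ (D.io_Mp' hSp hpS hφ x hx) (Submodule.sum_mem _ fun i hi => ?_)
      exact D.io_Mp hSp hSp (hsub i hi) (hsub i hi) (hφi i hi).1 x hx
    have hok0 : Ok (Q := Q) L0 (insert p S) := by
      refine ⟨hn0, ?_, ?_⟩
      · rw [ht0]
        exact Finset.sdiff_disjoint
      · rw [ht0, Finset.sdiff_union_of_subset hSp]
    have hL0Q : L0.toFinset ∪ insert p S = Q := by
      rw [ht0, Finset.sdiff_union_of_subset hSp]
    have hh0 : ∀ x ∈ D.N (insert p S), h x = 0 := by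
      refine (D.ioL_props L0 (insert p S) hok0).2.2 h hhM ?_
      rw [hL0Q, ← ha]
      rintro _ ⟨x, rfl⟩
      rw [hh, ioL_sub, ioL_sum, LinearMap.sub_apply, LinearMap.sum_apply]
      have e1 : D.ioL L0 (D.io p φ) (a x) = b (Ψ x) := by
        rw [hφΨ, ioL_append]
        rfl
      have e2 : ∑ i ∈ I, D.ioL L0 (D.io i (φi i)) (a x) = b (Ψ x) := by
        rw [← hys, LinearMap.sum_apply, map_sum]
        refine Finset.sum_congr rfl fun i hi => ?_
        rw [(hφi i hi).2, ioL_append]
        rfl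
      rw [e1, e2, sub_self]
    -- apply `ph p`
    have hSm : D.Sm (insert p S) S I ∅ (φ * D.ph p) := by
      refine ⟨fun i => D.sg p i • (D.ph p * φi i), fun i hi => ?_,
        fun i hi => absurd hi (Finset.notMem_empty i), fun x hx => ?_⟩
      · intro x hx
        refine Submodule.smul_mem _ _ ?_
        have hip : p ≠ i := fun h' => hpS (h' ▸ hI hi)
        have h4 := D.ph_F (i := p) ((Finset.erase_subset i _).trans hSp)
          (Finset.mem_erase.2 ⟨hip, hpI⟩) ((hφi i hi).1 x hx)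
        rwa [Finset.erase_right_comm, Finset.erase_insert hpS] at h4
      · have h5 := hh0 x hx
        rw [hh, LinearMap.sub_apply, LinearMap.sum_apply, sub_eq_zero] at h5
        have h6 : D.ph p (D.io p φ x) = φ (D.ph p x) := by
          refine D.ph_io_self hpS φ x (fun l hl => ?_)
          have h7 := D.ext_N _ p hSp hpI l hl x hx
          rw [Finset.erase_insert hpS] at h7
          exact hφ _ h7
        rw [Module.End.mul_apply, ← h6, h5, map_sum, Finset.sum_empty, add_zero]
        refine Finset.sum_congr rfl fun i hi => ?_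
        have hip : p ≠ i := fun h' => hpS (h' ▸ hI hi)
        rw [D.ph_io hip, io_smul]
        rfl
    obtain ⟨g, hg1, _, hg3⟩ := D.claim I.card S S I ∅ p rfl hSp hpS (Finset.Subset.refl S) hI
      (Finset.empty_subset S) (Finset.disjoint_empty_left S) φ hφ hSm
    have hg3' : ∀ x ∈ D.N S, φ x = (∑ i ∈ I, D.io i (g i)) x := by
      intro x hx
      rw [hg3 x hx, Finset.sum_empty, add_zero, LinearMap.sum_apply]
    have hokp : Ok (Q := Q) (L0 ++ [p]) S := by
      refine ⟨hnp, ?_, ?_⟩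
      · rw [htp]
        exact Finset.sdiff_disjoint
      · rw [htp, Finset.sdiff_union_of_subset hS]
    have hpQ : (L0 ++ [p]).toFinset ∪ S = Q := by
      rw [htp, Finset.sdiff_union_of_subset hS]
    obtain ⟨q1, q2, _⟩ := D.ioL_props (L0 ++ [p]) S hokp
    rw [hpQ] at q1 q2
    -- the pieces
    have hpiece : ∀ i, ∃ Ψi : SQ →ₗ[K] FQ, i ∈ I → Ψi ∈ D.Y a b (S.erase i) ∧
        ∀ x, b (Ψi x) = D.ioL (L0 ++ [p]) (D.io i (g i)) (a x) := by
      intro i
      by_cases hi : i ∈ I
      · have hM : D.Mp S S (D.io i (g i)) := D.io_Mp hS hS (hI hi) (hI hi) (hg1 i hi)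
        obtain ⟨Ψi, hΨi⟩ := D.exists_mk ha hb hbr (q2 _ hM)
        refine ⟨Ψi, fun _ => ⟨?_, hΨi⟩⟩
        have hiS : i ∈ S := hI hi
        have hn : ((L0 ++ [p]) ++ [i]).Nodup := by
          refine List.nodup_append'.2 ⟨hnp, List.nodup_singleton i, ?_⟩
          intro j hj hj'
          rw [List.mem_singleton] at hj'
          subst hj'
          have h8 : j ∈ (L0 ++ [p]).toFinset := List.mem_toFinset.2 hj
          rw [htp, Finset.mem_sdiff] at h8
          exact h8.2 hiS
        have ht : ((L0 ++ [p]) ++ [i]).toFinset = Q \ S.erase i := by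
          rw [List.toFinset_append, htp]
          ext j
          simp only [Finset.mem_union, Finset.mem_sdiff, List.mem_toFinset, List.mem_singleton,
            Finset.mem_erase]
          constructor
          · rintro (⟨h1, h2⟩ | rfl)
            · exact ⟨h1, fun h => h2 h.2⟩
            · exact ⟨hS hiS, fun h => h.1 rfl⟩
          · rintro ⟨h1, h2⟩
            by_cases h3 : j = i
            · exact Or.inr h3
            · exact Or.inl ⟨h1, fun h => h2 ⟨h3, h⟩⟩
        refine (D.mem_Y_iff a b hn ht Ψi).2 ⟨g i, hg1 i hi, fun x => ?_⟩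
        rw [hΨi, D.ioL_append (L0 ++ [p]) [i]]
        rfl
      · exact ⟨0, fun h => absurd h hi⟩
    choose Ψi hΨi using hpiece
    rw [mem_biSup_iff]
    refine ⟨Ψi, fun i hi => (hΨi i hi).1, ?_⟩
    apply LinearMap.ext
    intro x
    apply hb
    rw [LinearMap.sum_apply, map_sum, hφΨ, q1 _ _ hg3' (a x) (by rw [← ha]; exact ⟨x, rfl⟩),
      ioL_sum, LinearMap.sum_apply]
    exact Finset.sum_congr rfl fun i hi => (hΨi i hi).2 x

end Y

end KD

end Gao
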