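import Pool.Agent.Gao.Defs
import Pool.Agent.Gao.GDefs

/-!
# Lines of boxes: `gl_m`-representations on the Fock space

`Ln m Q B`: an injective family of boxes `β i q` (`i : Fin m` the index, `q : Q` the slot).
`E i j = ∑ q, cr (β j q) * an (β i q)` moves the index `i` to the index `j`.
Rows: `β i q = (σ i, q)`, columns: `β i q = (q, σ i)`.
-/

set_option autoImplicit false

namespace Gao

open Finset Module

noncomputable section

/-- an injective family of boxes -/
structure Ln (m : ℕ) (Q B : Type*) where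
  β : Fin m → Q → B
  inj : ∀ {i i' : Fin m} {q q' : Q}, β i q = β i' q' → i = i' ∧ q = q'

namespace Ln

variable {B Q : Type*} [Fintype B] [DecidableEq B] [Fintype Q] [DecidableEq Q] {m : ℕ}
  (Λ : Ln m Q B)

omit [Fintype B] [DecidableEq B] [Fintype Q] [DecidableEq Q] in
lemma inj_iff {i i' : Fin m} {q q' : Q} : Λ.β i q = Λ.β i' q' ↔ i = i' ∧ q = q' :=
  ⟨Λ.inj, fun h => by rw [h.1, h.2]⟩

/-- moves the index `i` to the index `j` -/
def E (i j : Fin m) : Module.End ℂ (Kost.Fock B) := ∑ q, Kost.cr (Λ.β j q) * Kost.an (Λ.β i q)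

/-- the content of the lines -/
def deg (D : Finset B) : Wt m := fun i => ((univ.filter (fun q => Λ.β i q ∈ D)).card : ℤ)

/-- the grading by the contents -/
def gr : Grading ℂ (Kost.Fock B) (Wt m) := degGr Λ.deg

/-! ### commutation relations -/

lemma E_cr (i j k : Fin m) (q : Q) : Λ.E i j * Kost.cr (Λ.β k q) =
    Kost.cr (Λ.β k q) * Λ.E i j + if k = i then Kost.cr (Λ.β j q) else 0 := by
  unfold E
  rw [Finset.sum_mul, Finset.mul_sum]
  simp only [Kost.cr_an_cr]
  rw [Finset.sum_add_distrib, add_comm]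
  congr 1
  simp only [Λ.inj_iff]
  by_cases hk : k = i
  · subst hk
    simp
  · rw [if_neg hk]
    apply Finset.sum_eq_zero
    intro q' _
    rw [if_neg]
    rintro ⟨h, _⟩
    exact hk h.symm

lemma E_an (i j k : Fin m) (q : Q) : Λ.E i j * Kost.an (Λ.β k q) =
    Kost.an (Λ.β k q) * Λ.E i j - if k = j then Kost.an (Λ.β i q) else 0 := by
  unfold E
  rw [Finset.sum_mul, Finset.mul_sum]
  simp only [Kost.cr_an_an]
  rw [Finset.sum_sub_distrib]
  congr 1
  simp only [Λ.inj_iff]
  by_cases hk : k = j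
  · subst hk
    simp
  · rw [if_neg hk]
    apply Finset.sum_eq_zero
    intro q' _
    rw [if_neg]
    rintro ⟨h, _⟩
    exact hk h.symm

lemma E_comm (i j k l : Fin m) : Λ.E i j * Λ.E k l - Λ.E k l * Λ.E i j =
    (if l = i then Λ.E k j else 0) - (if j = k then Λ.E i l else 0) := by
  have h1 : ∀ q, Λ.E i j * (Kost.cr (Λ.β l q) * Kost.an (Λ.β k q)) =
      (Kost.cr (Λ.β l q) * Kost.an (Λ.β k q)) * Λ.E i j +
      ((if l = i then Kost.cr (Λ.β j q) * Kost.an (Λ.β k q) else 0) -
        if j = k then Kost.cr (Λ.β l q) * Kost.an (Λ.β i q) else 0) := by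
    intro q
    rw [← mul_assoc, E_cr, add_mul, mul_assoc, E_an, mul_sub, mul_assoc]
    have e1 : (if l = i then Kost.cr (Λ.β j q) else 0) * Kost.an (Λ.β k q) =
        if l = i then Kost.cr (Λ.β j q) * Kost.an (Λ.β k q) else 0 := by
      split_ifs <;> simp
    have e2 : Kost.cr (Λ.β l q) * (if k = j then Kost.an (Λ.β i q) else 0) =
        if j = k then Kost.cr (Λ.β l q) * Kost.an (Λ.β i q) else 0 := by
      simp only [eq_comm (a := k) (b := j)]
      split_ifs <;> simp
    rw [e1, e2]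
    abel
  have h2 : Λ.E i j * Λ.E k l = Λ.E k l * Λ.E i j +
      ((if l = i then Λ.E k j else 0) - (if j = k then Λ.E i l else 0)) := by
    conv_lhs => rw [E, E, Finset.mul_sum]
    rw [← E]
    simp only [h1]
    rw [Finset.sum_add_distrib, Finset.sum_sub_distrib]
    congr 1
    · conv_rhs => rw [E, Finset.sum_mul]
    · congr 1
      · split_ifs
        · rfl
        · exact Finset.sum_const_zero
      · split_ifs
        · rfl
        · exact Finset.sum_const_zero
  rw [h2, add_sub_cancel_left]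

/-! ### the grading -/

lemma deg_insert {i : Fin m} {q : Q} {D : Finset B} (h : Λ.β i q ∉ D) :
    Λ.deg (insert (Λ.β i q) D) = Λ.deg D + Pi.single i 1 := by
  funext k
  rw [Pi.add_apply, Pi.single_apply]
  unfold deg
  by_cases hk : k = i
  · subst hk
    rw [if_pos rfl]
    have : univ.filter (fun q' => Λ.β k q' ∈ insert (Λ.β k q) D) =
        insert q (univ.filter (fun q' => Λ.β k q' ∈ D)) := by
      ext q'
      simp only [mem_filter, mem_univ, true_and, mem_insert, Λ.inj_iff]
    rw [this, card_insert_of_notMem (by simpa using h)]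
    push_cast
    rfl
  · rw [if_neg hk, add_zero]
    congr 2
    ext q'
    simp only [mem_filter, mem_univ, true_and, mem_insert, Λ.inj_iff]
    constructor
    · rintro (⟨h1, _⟩ | h1)
      · exact absurd h1 hk
      · exact h1
    · intro h1
      exact Or.inr h1

lemma deg_erase {i : Fin m} {q : Q} {D : Finset B} (h : Λ.β i q ∈ D) :
    Λ.deg (D.erase (Λ.β i q)) = Λ.deg D - Pi.single i 1 := by
  have h1 := Λ.deg_insert (notMem_erase (Λ.β i q) D)
  rw [insert_erase h] at h1
  rw [h1, add_sub_cancel_right]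

lemma gr_ee (μ : Wt m) (D : Finset B) :
    Λ.gr.π μ (Kost.ee D) = if Λ.deg D = μ then Kost.ee D else 0 := dia_ee _ D

lemma hom_of_ee {T : Module.End ℂ (Kost.Fock B)} {a : Wt m}
    (h : ∀ D μ, Λ.gr.π μ (T (Kost.ee D)) = if Λ.deg D + a = μ then T (Kost.ee D) else 0) :
    Hom Λ.gr T a := by
  intro μ
  refine Kost.end_ext fun D => ?_
  rw [Module.End.mul_apply, Module.End.mul_apply, h, gr_ee]
  by_cases hD : Λ.deg D = μ
  · rw [if_pos hD, if_pos (by rw [hD])]
  · rw [if_neg hD, map_zero, if_neg (fun h' => hD (add_right_cancel h'))]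

lemma hom_cr (i : Fin m) (q : Q) : Hom Λ.gr (Kost.cr (Λ.β i q)) (Pi.single i 1) := by
  apply Λ.hom_of_ee
  intro D μ
  rw [Kost.cr_ee]
  by_cases h : Λ.β i q ∈ D
  · rw [if_pos h, map_zero, ite_self]
  · rw [if_neg h, map_smul, gr_ee, Λ.deg_insert h]
    split_ifs
    · rfl
    · rw [smul_zero]

lemma hom_an (i : Fin m) (q : Q) : Hom Λ.gr (Kost.an (Λ.β i q)) (-Pi.single i 1) := by
  apply Λ.hom_of_ee
  intro D μ
  rw [Kost.an_ee]
  by_cases h : Λ.β i q ∈ D
  · rw [if_pos h, map_smul, gr_ee, Λ.deg_erase h, sub_eq_add_neg]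
    split_ifs
    · rfl
    · rw [smul_zero]
  · rw [if_neg h, map_zero, ite_self]

end Ln

lemma Hom.mul {K X Λ : Type*} [Field K] [AddCommGroup X] [Module K X] [AddCommGroup Λ]
    [DecidableEq Λ] {G : Grading K X Λ} {a b : Module.End K X} {α β : Λ} (ha : Hom G a α)
    (hb : Hom G b β) : Hom G (a * b) (α + β) := by
  intro μ
  rw [mul_assoc, hb μ, ← mul_assoc, ha, mul_assoc, add_assoc μ, add_comm β α]

lemma Hom.sum {K X Λ ι : Type*} [Field K] [AddCommGroup X] [Module K X] [AddCommGroup Λ]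
    [DecidableEq Λ] {G : Grading K X Λ} {s : Finset ι} {a : ι → Module.End K X} {α : Λ}
    (ha : ∀ i ∈ s, Hom G (a i) α) : Hom G (∑ i ∈ s, a i) α := by
  intro μ
  rw [Finset.sum_mul, Finset.mul_sum]
  exact Finset.sum_congr rfl fun i hi => ha i hi μ

namespace Ln

variable {B Q : Type*} [Fintype B] [DecidableEq B] [Fintype Q] [DecidableEq Q] {m : ℕ}
  (Λ : Ln m Q B)

lemma hom_E (i j : Fin m) : Hom Λ.gr (Λ.E i j) (Pi.single j 1 - Pi.single i 1) := by
  apply Hom.sum
  intro q _
  rw [sub_eq_add_neg]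
  exact (Λ.hom_cr j q).mul (Λ.hom_an i q)

lemma E_diag (i : Fin m) (μ : Wt m) : Λ.E i i * Λ.gr.π μ = ((μ i : ℤ) : ℂ) • Λ.gr.π μ := by
  refine Kost.end_ext fun D => ?_
  rw [Module.End.mul_apply, LinearMap.smul_apply, gr_ee]
  by_cases h : Λ.deg D = μ
  · rw [if_pos h]
    have h1 : ∀ q, (Kost.cr (Λ.β i q) * Kost.an (Λ.β i q)) (Kost.ee D) =
        if Λ.β i q ∈ D then Kost.ee D else 0 := by
      intro q
      rw [Module.End.mul_apply, Kost.an_ee]
      split_ifs with hq
      · rw [map_smul, Kost.cr_ee, if_neg (notMem_erase _ _), smul_smul, Kost.sgn_erase_self,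
          Kost.sgn_mul_self, one_smul, insert_erase hq]
      · exact map_zero _
    unfold E
    rw [LinearMap.sum_apply, Finset.sum_congr rfl (fun q _ => h1 q), ← Finset.sum_filter,
      Finset.sum_const, ← h]
    unfold deg
    rw [Int.cast_natCast, Nat.cast_smul_eq_nsmul]
  · rw [if_neg h, map_zero, smul_zero]

/-- the representation -/
def rep : GLRep ℂ (Kost.Fock B) m where
  toGrading := Λ.gr
  E := Λ.E
  hom := Λ.hom_E
  diag := Λ.E_diag
  comm := Λ.E_comm
  nonneg := by
    intro μ hμ i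
    obtain ⟨D, _, rfl⟩ := mem_image.1 hμ
    exact Int.natCast_nonneg _

@[simp] lemma rep_E (i j : Fin m) : Λ.rep.E i j = Λ.E i j := rfl
@[simp] lemma rep_gr : Λ.rep.toGrading = Λ.gr := rfl

end Ln

end

end Gao
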