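import Pool.Agent.Gao.Line

/-!
# Twists on the Fock space

For a slot `q` of a family of lines: `ins l` creates the boxes `β i q`, `i ∈ l` (in increasing order),
`ext l` is the coefficient.  `Ln.tw` is the `Tw` structure of `GDefs`, `Ln.slots` the `Slots` structure.
-/

set_option autoImplicit false

namespace Gao

open Finset Module

noncomputable section

/-! ### adjoint operators -/

section Adj

variable {B : Type*} [Fintype B] [DecidableEq B]

/-- `A'` is the adjoint of `A` -/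
def Adj (A A' : Module.End ℂ (Kost.Fock B)) : Prop :=
  ∀ x y : Kost.Fock B, inner ℂ (A x) y = inner ℂ x (A' y)

lemma Adj.mul {A A' C C' : Module.End ℂ (Kost.Fock B)} (h1 : Adj A A') (h2 : Adj C C') :
    Adj (A * C) (C' * A') := by
  intro x y
  rw [Module.End.mul_apply, Module.End.mul_apply, h1, h2]

lemma Adj.add {A A' C C' : Module.End ℂ (Kost.Fock B)} (h1 : Adj A A') (h2 : Adj C C') :
    Adj (A + C) (A' + C') := by
  intro x y
  rw [LinearMap.add_apply, LinearMap.add_apply, inner_add_left, inner_add_right, h1, h2]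

lemma Adj.zero : Adj (0 : Module.End ℂ (Kost.Fock B)) 0 := by
  intro x y
  rw [LinearMap.zero_apply, LinearMap.zero_apply, inner_zero_left, inner_zero_right]

lemma Adj.one : Adj (1 : Module.End ℂ (Kost.Fock B)) 1 := fun _ _ => rfl

lemma Adj.ite {A A' : Module.End ℂ (Kost.Fock B)} (p : Prop) [Decidable p] (h : Adj A A') :
    Adj (if p then A else 0) (if p then A' else 0) := by
  split_ifs
  · exact h
  · exact Adj.zero

lemma Adj.unique {A A' A'' : Module.End ℂ (Kost.Fock B)} (h1 : Adj A A') (h2 : Adj A A'') :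
    A' = A'' := by
  apply LinearMap.ext
  intro y
  refine ext_inner_left ℂ fun x => ?_
  rw [← h1, ← h2]

lemma Adj.cr (b : B) : Adj (Kost.cr b) (Kost.an b) := Kost.inner_cr b
lemma Adj.an (b : B) : Adj (Kost.an b) (Kost.cr b) := Kost.inner_an b

lemma Adj.sum {ι : Type*} {s : Finset ι} {A A' : ι → Module.End ℂ (Kost.Fock B)}
    (h : ∀ i ∈ s, Adj (A i) (A' i)) : Adj (∑ i ∈ s, A i) (∑ i ∈ s, A' i) := by
  intro x y
  rw [LinearMap.sum_apply, LinearMap.sum_apply, sum_inner, inner_sum]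
  exact Finset.sum_congr rfl fun i hi => h i hi x y

end Adj

namespace Ln

variable {B Q : Type*} [Fintype B] [DecidableEq B] [Fintype Q] [DecidableEq Q] {m : ℕ}
  (Λ : Ln m Q B)

lemma adj_E (i j : Fin m) : Adj (Λ.E i j) (Λ.E j i) := by
  unfold E
  apply Adj.sum
  intro q _
  exact (Adj.cr _).mul (Adj.an _)

/-! ### ordered products -/

/-- factor: creation of `β i q` if `i ∈ l` -/
def cF (q : Q) (l : Finset (Fin m)) (i : Fin m) : Module.End ℂ (Kost.Fock B) :=
  if i ∈ l then Kost.cr (Λ.β i q) else 1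

def aF (q : Q) (l : Finset (Fin m)) (i : Fin m) : Module.End ℂ (Kost.Fock B) :=
  if i ∈ l then Kost.an (Λ.β i q) else 1

/-- product of the factors along a list -/
def cL (q : Q) (l : Finset (Fin m)) : List (Fin m) → Module.End ℂ (Kost.Fock B)
  | [] => 1
  | i :: L => Λ.cF q l i * cL q l L

/-- its adjoint -/
def aL (q : Q) (l : Finset (Fin m)) : List (Fin m) → Module.End ℂ (Kost.Fock B)
  | [] => 1
  | i :: L => aL q l L * Λ.aF q l i

lemma adj_cF (q : Q) (l : Finset (Fin m)) (i : Fin m) : Adj (Λ.cF q l i) (Λ.aF q l i) := by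
  unfold cF aF
  split_ifs
  · exact Adj.cr _
  · exact Adj.one

lemma adj_cL (q : Q) (l : Finset (Fin m)) (L : List (Fin m)) :
    Adj (Λ.cL q l L) (Λ.aL q l L) := by
  induction L with
  | nil => exact Adj.one
  | cons i L ih => exact (Λ.adj_cF q l i).mul ih

lemma cL_append (q : Q) (l : Finset (Fin m)) (L L' : List (Fin m)) :
    Λ.cL q l (L ++ L') = Λ.cL q l L * Λ.cL q l L' := by
  induction L with
  | nil => rw [List.nil_append, cL, one_mul]
  | cons i L ih => rw [List.cons_append, cL, cL, ih, mul_assoc]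

lemma cL_congr (q : Q) {l l' : Finset (Fin m)} {L : List (Fin m)}
    (h : ∀ i ∈ L, (i ∈ l ↔ i ∈ l')) : Λ.cL q l L = Λ.cL q l' L := by
  induction L with
  | nil => rfl
  | cons i L ih =>
    rw [cL, cL, ih (fun k hk => h k (List.mem_cons_of_mem _ hk))]
    congr 1
    unfold cF
    simp only [h i List.mem_cons_self]

/-- an `E i j` commutes with the factors that do not contain the index `i` -/
lemma E_cL_comm (q : Q) (l : Finset (Fin m)) (i j : Fin m) {L : List (Fin m)} (h : i ∉ L) :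
    Λ.E i j * Λ.cL q l L = Λ.cL q l L * Λ.E i j := by
  induction L with
  | nil => rw [cL, mul_one, one_mul]
  | cons k L ih =>
    have hk : k ≠ i := fun h' => h (by rw [h']; exact List.mem_cons_self)
    have h1 : Λ.E i j * Λ.cF q l k = Λ.cF q l k * Λ.E i j := by
      unfold cF
      split_ifs
      · rw [E_cr, if_neg hk, add_zero]
      · rw [mul_one, one_mul]
    rw [cL, ← mul_assoc, h1, mul_assoc, ih (fun h' => h (List.mem_cons_of_mem _ h')), mul_assoc]

/-- the operator `ins` -/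
def insL (q : Q) (l : Finset (Fin m)) : Module.End ℂ (Kost.Fock B) := Λ.cL q l (List.finRange m)

/-- its adjoint -/
def insA (q : Q) (l : Finset (Fin m)) : Module.End ℂ (Kost.Fock B) := Λ.aL q l (List.finRange m)

lemma adj_insL (q : Q) (l : Finset (Fin m)) : Adj (Λ.insL q l) (Λ.insA q l) := Λ.adj_cL q l _

lemma finRange_split (c : ℕ) (h : c + 1 < m) :
    ∃ L₁ L₂ : List (Fin m), List.finRange m = L₁ ++ lo c h :: hi c h :: L₂ ∧
      lo c h ∉ L₁ ∧ hi c h ∉ L₁ ∧ lo c h ∉ L₂ ∧ hi c h ∉ L₂ := by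
  have hlen : (List.finRange m).length = m := List.length_finRange
  have h1 : (List.finRange m).drop c = lo c h :: hi c h :: (List.finRange m).drop (c + 2) := by
    rw [List.drop_eq_getElem_cons (by omega), List.drop_eq_getElem_cons (by omega)]
    simp [List.getElem_finRange]
  refine ⟨(List.finRange m).take c, (List.finRange m).drop (c + 2), ?_, ?_⟩
  · rw [← h1, List.take_append_drop]
  · have h2 : List.finRange m = (List.finRange m).take c ++ lo c h :: hi c h ::
        (List.finRange m).drop (c + 2) := by rw [← h1, List.take_append_drop]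
    have h3 := List.nodup_finRange m
    rw [h2, List.nodup_append, List.nodup_cons, List.nodup_cons] at h3
    obtain ⟨_, ⟨h4, h5, _⟩, h6⟩ := h3
    refine ⟨?_, ?_, ?_, h5⟩
    · intro h'
      exact h6 _ h' _ List.mem_cons_self rfl
    · intro h'
      exact h6 _ h' _ (List.mem_cons_of_mem _ List.mem_cons_self) rfl
    · intro h'
      exact h4 (List.mem_cons_of_mem _ h')

lemma mem_swS {c : ℕ} {h : c + 1 < m} {l : Finset (Fin m)} {i : Fin m} :
    i ∈ swS c h l ↔ Equiv.swap (lo c h) (hi c h) i ∈ l := by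
  unfold swS
  rw [Finset.mem_map_equiv, Equiv.symm_swap]

lemma lo_mem_swS {c : ℕ} {h : c + 1 < m} {l : Finset (Fin m)} :
    lo c h ∈ swS c h l ↔ hi c h ∈ l := by
  rw [mem_swS, Equiv.swap_apply_left]

lemma hi_mem_swS {c : ℕ} {h : c + 1 < m} {l : Finset (Fin m)} :
    hi c h ∈ swS c h l ↔ lo c h ∈ l := by
  rw [mem_swS, Equiv.swap_apply_right]

lemma mem_swS_of_ne {c : ℕ} {h : c + 1 < m} {l : Finset (Fin m)} {i : Fin m} (h1 : i ≠ lo c h)
    (h2 : i ≠ hi c h) : i ∈ swS c h l ↔ i ∈ l := by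
  rw [mem_swS, Equiv.swap_apply_of_ne_of_ne h1 h2]

lemma lo_ne_hi (c : ℕ) (h : c + 1 < m) : lo c h ≠ hi c h := by
  intro h'
  have := congrArg Fin.val h'
  simp at this

lemma sq_cr (b : B) : Kost.cr b * Kost.cr b = 0 := by
  have h := Kost.cr_cr b b
  have h2 : (2 : ℂ) • (Kost.cr b * Kost.cr b) = 0 := by rw [two_smul]; exact h
  rcases smul_eq_zero.1 h2 with h3 | h3
  · exact absurd h3 (by norm_num)
  · exact h3

/-- the simple operators and `ins` -/
lemma hi_lo_insL (q : Q) (c : ℕ) (h : c + 1 < m) (l : Finset (Fin m)) :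
    Λ.E (hi c h) (lo c h) * Λ.insL q l = Λ.insL q l * Λ.E (hi c h) (lo c h) +
      if hi c h ∈ l ∧ lo c h ∉ l then Λ.insL q (swS c h l) else 0 := by
  obtain ⟨L₁, L₂, hL, h1, h2, h3, h4⟩ := finRange_split c h
  have hne := lo_ne_hi c h
  have e0 : ∀ l', Λ.insL q l' = Λ.cL q l' L₁ * (Λ.cF q l' (lo c h) *
      (Λ.cF q l' (hi c h) * Λ.cL q l' L₂)) := by
    intro l'
    unfold insL
    rw [hL, cL_append, cL, cL]
  have eA := Λ.E_cL_comm q l (hi c h) (lo c h) h2
  have eB := Λ.E_cL_comm q l (hi c h) (lo c h) h4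
  have eC : Λ.E (hi c h) (lo c h) * Λ.cF q l (lo c h) =
      Λ.cF q l (lo c h) * Λ.E (hi c h) (lo c h) := by
    unfold cF
    split_ifs
    · rw [E_cr, if_neg hne, add_zero]
    · rw [mul_one, one_mul]
  have eD : Λ.E (hi c h) (lo c h) * Λ.cF q l (hi c h) =
      Λ.cF q l (hi c h) * Λ.E (hi c h) (lo c h) +
        if hi c h ∈ l then Kost.cr (Λ.β (lo c h) q) else 0 := by
    unfold cF
    split_ifs
    · rw [E_cr, if_pos rfl]
    · rw [mul_one, one_mul, add_zero]
  have e1 : Λ.E (hi c h) (lo c h) * Λ.insL q l = Λ.insL q l * Λ.E (hi c h) (lo c h) +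
      Λ.cL q l L₁ * (Λ.cF q l (lo c h) *
        ((if hi c h ∈ l then Kost.cr (Λ.β (lo c h) q) else 0) * Λ.cL q l L₂)) := by
    rw [e0 l, ← mul_assoc, eA, mul_assoc, ← mul_assoc (Λ.E _ _) (Λ.cF q l (lo c h)), eC,
      mul_assoc (Λ.cF q l (lo c h)), ← mul_assoc (Λ.E _ _) (Λ.cF q l (hi c h)), eD, add_mul,
      mul_assoc (Λ.cF q l (hi c h)), eB]
    simp only [mul_add, mul_assoc]
  rw [e1]
  congr 1
  by_cases hh : hi c h ∈ l
  · by_cases hl : lo c h ∈ l
    · rw [if_pos hh, if_neg (by tauto)]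
      unfold cF
      rw [if_pos hl, ← mul_assoc (Kost.cr _) (Kost.cr _), sq_cr, zero_mul, mul_zero]
    · rw [if_pos hh, if_pos ⟨hh, hl⟩, e0 (swS c h l)]
      have f1 : Λ.cL q (swS c h l) L₁ = Λ.cL q l L₁ := Λ.cL_congr q (fun i hi' =>
        mem_swS_of_ne (fun hc => h1 (hc ▸ hi')) (fun hc => h2 (hc ▸ hi')))
      have f2 : Λ.cL q (swS c h l) L₂ = Λ.cL q l L₂ := Λ.cL_congr q (fun i hi' =>
        mem_swS_of_ne (fun hc => h3 (hc ▸ hi')) (fun hc => h4 (hc ▸ hi')))
      rw [f1, f2]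
      unfold cF
      rw [if_neg hl, if_pos (lo_mem_swS.2 hh), if_neg (fun hc => hl (hi_mem_swS.1 hc)), one_mul,
        one_mul]
  · rw [if_neg hh, if_neg (by tauto), zero_mul, mul_zero, mul_zero]

lemma lo_hi_insL (q : Q) (c : ℕ) (h : c + 1 < m) (l : Finset (Fin m)) :
    Λ.E (lo c h) (hi c h) * Λ.insL q l = Λ.insL q l * Λ.E (lo c h) (hi c h) +
      if lo c h ∈ l ∧ hi c h ∉ l then Λ.insL q (swS c h l) else 0 := by
  obtain ⟨L₁, L₂, hL, h1, h2, h3, h4⟩ := finRange_split c h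
  have hne := lo_ne_hi c h
  have e0 : ∀ l', Λ.insL q l' = Λ.cL q l' L₁ * (Λ.cF q l' (lo c h) *
      (Λ.cF q l' (hi c h) * Λ.cL q l' L₂)) := by
    intro l'
    unfold insL
    rw [hL, cL_append, cL, cL]
  have eA := Λ.E_cL_comm q l (lo c h) (hi c h) h1
  have eB := Λ.E_cL_comm q l (lo c h) (hi c h) h3
  have eC : Λ.E (lo c h) (hi c h) * Λ.cF q l (hi c h) =
      Λ.cF q l (hi c h) * Λ.E (lo c h) (hi c h) := by
    unfold cF
    split_ifs
    · rw [E_cr, if_neg hne.symm, add_zero]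
    · rw [mul_one, one_mul]
  have eD : Λ.E (lo c h) (hi c h) * Λ.cF q l (lo c h) =
      Λ.cF q l (lo c h) * Λ.E (lo c h) (hi c h) +
        if lo c h ∈ l then Kost.cr (Λ.β (hi c h) q) else 0 := by
    unfold cF
    split_ifs
    · rw [E_cr, if_pos rfl]
    · rw [mul_one, one_mul, add_zero]
  have e1 : Λ.E (lo c h) (hi c h) * Λ.insL q l = Λ.insL q l * Λ.E (lo c h) (hi c h) +
      Λ.cL q l L₁ * ((if lo c h ∈ l then Kost.cr (Λ.β (hi c h) q) else 0) *
        (Λ.cF q l (hi c h) * Λ.cL q l L₂)) := by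
    rw [e0 l, ← mul_assoc, eA, mul_assoc, ← mul_assoc (Λ.E _ _) (Λ.cF q l (lo c h)), eD,
      add_mul, mul_assoc (Λ.cF q l (lo c h)), ← mul_assoc (Λ.E _ _) (Λ.cF q l (hi c h)), eC,
      mul_assoc (Λ.cF q l (hi c h)), eB]
    simp only [mul_add, mul_assoc]
  rw [e1]
  congr 1
  by_cases hl : lo c h ∈ l
  · by_cases hh : hi c h ∈ l
    · rw [if_pos hl, if_neg (by tauto)]
      unfold cF
      rw [if_pos hh, ← mul_assoc (Kost.cr _) (Kost.cr _), sq_cr, zero_mul, mul_zero]
    · rw [if_pos hl, if_pos ⟨hl, hh⟩, e0 (swS c h l)]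
      have f1 : Λ.cL q (swS c h l) L₁ = Λ.cL q l L₁ := Λ.cL_congr q (fun i hi' =>
        mem_swS_of_ne (fun hc => h1 (hc ▸ hi')) (fun hc => h2 (hc ▸ hi')))
      have f2 : Λ.cL q (swS c h l) L₂ = Λ.cL q l L₂ := Λ.cL_congr q (fun i hi' =>
        mem_swS_of_ne (fun hc => h3 (hc ▸ hi')) (fun hc => h4 (hc ▸ hi')))
      rw [f1, f2]
      unfold cF
      rw [if_neg hh, if_neg (fun hc => hh (lo_mem_swS.1 hc)), if_pos (hi_mem_swS.2 hl), one_mul,
        one_mul]
  · rw [if_neg hl, if_neg (by tauto), zero_mul, mul_zero]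

lemma adj_insA (q : Q) (l : Finset (Fin m)) : Adj (Λ.insL q l) (Λ.insA q l) := Λ.adj_insL q l

lemma insA_hi_lo (q : Q) (c : ℕ) (h : c + 1 < m) (l : Finset (Fin m)) :
    Λ.insA q l * Λ.E (hi c h) (lo c h) = Λ.E (hi c h) (lo c h) * Λ.insA q l +
      if lo c h ∈ l ∧ hi c h ∉ l then Λ.insA q (swS c h l) else 0 := by
  have h1 : Adj (Λ.E (lo c h) (hi c h) * Λ.insL q l)
      (Λ.insA q l * Λ.E (hi c h) (lo c h)) := (Λ.adj_E _ _).mul (Λ.adj_insL q l)
  refine h1.unique ?_
  rw [lo_hi_insL]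
  exact ((Λ.adj_insL q l).mul (Λ.adj_E _ _)).add (Adj.ite _ (Λ.adj_insL q _))

lemma insA_lo_hi (q : Q) (c : ℕ) (h : c + 1 < m) (l : Finset (Fin m)) :
    Λ.insA q l * Λ.E (lo c h) (hi c h) = Λ.E (lo c h) (hi c h) * Λ.insA q l +
      if hi c h ∈ l ∧ lo c h ∉ l then Λ.insA q (swS c h l) else 0 := by
  have h1 : Adj (Λ.E (hi c h) (lo c h) * Λ.insL q l)
      (Λ.insA q l * Λ.E (lo c h) (hi c h)) := (Λ.adj_E _ _).mul (Λ.adj_insL q l)
  refine h1.unique ?_
  rw [hi_lo_insL]
  exact ((Λ.adj_insL q l).mul (Λ.adj_E _ _)).add (Adj.ite _ (Λ.adj_insL q _))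

/-! ### degrees -/

lemma hom_one : Hom Λ.gr (1 : Module.End ℂ (Kost.Fock B)) 0 := by
  intro a
  rw [one_mul, mul_one, add_zero]

lemma hom_cL (q : Q) (l : Finset (Fin m)) (L : List (Fin m)) :
    Hom Λ.gr (Λ.cL q l L) (L.map (fun i => if i ∈ l then (Pi.single i 1 : Wt m) else 0)).sum := by
  induction L with
  | nil => exact Λ.hom_one
  | cons i L ih =>
    rw [List.map_cons, List.sum_cons]
    refine Hom.mul ?_ ih
    unfold cF
    split_ifs
    · exact Λ.hom_cr i q
    · exact Λ.hom_one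

lemma hom_aL (q : Q) (l : Finset (Fin m)) (L : List (Fin m)) :
    Hom Λ.gr (Λ.aL q l L)
      (-(L.map (fun i => if i ∈ l then (Pi.single i 1 : Wt m) else 0)).sum) := by
  induction L with
  | nil => rw [List.map_nil, List.sum_nil, neg_zero]; exact Λ.hom_one
  | cons i L ih =>
    rw [List.map_cons, List.sum_cons, neg_add_rev]
    refine Hom.mul ih ?_
    unfold aF
    split_ifs
    · exact Λ.hom_an i q
    · rw [neg_zero]; exact Λ.hom_one

lemma sum_finRange (l : Finset (Fin m)) :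
    ((List.finRange m).map (fun i => if i ∈ l then (Pi.single i 1 : Wt m) else 0)).sum = wtS l := by
  rw [← List.ofFn_eq_map, List.sum_ofFn]
  funext k
  rw [Finset.sum_apply, Finset.sum_eq_single k]
  · unfold wtS
    split_ifs
    · rw [Pi.single_eq_same]
    · rfl
  · intro i _ hik
    split_ifs
    · rw [Pi.single_eq_of_ne (Ne.symm hik)]
    · rfl
  · intro h
    exact absurd (mem_univ _) h

lemma hom_insL (q : Q) (l : Finset (Fin m)) : Hom Λ.gr (Λ.insL q l) (wtS l) := by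
  have := Λ.hom_cL q l (List.finRange m)
  rwa [sum_finRange] at this

lemma hom_insA (q : Q) (l : Finset (Fin m)) : Hom Λ.gr (Λ.insA q l) (-wtS l) := by
  have := Λ.hom_aL q l (List.finRange m)
  rwa [sum_finRange] at this

/-! ### the projection to the vectors without boxes in the slot `q` -/

/-- projection -/
def Pq (q : Q) : Module.End ℂ (Kost.Fock B) := dia (fun D : Finset B => ∀ i, Λ.β i q ∉ D)

lemma Pq_ee (q : Q) (D : Finset B) :
    Λ.Pq q (Kost.ee D) = if ∀ i, Λ.β i q ∉ D then Kost.ee D else 0 := dia_ee _ D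

lemma Pq_cr (q : Q) (i : Fin m) : Λ.Pq q * Kost.cr (Λ.β i q) = 0 := by
  refine Kost.end_ext fun D => ?_
  rw [Module.End.mul_apply, Kost.cr_ee, LinearMap.zero_apply]
  split_ifs
  · exact map_zero _
  · rw [map_smul, Pq_ee, if_neg, smul_zero]
    intro h
    exact h i (mem_insert_self _ _)

lemma an_Pq (q : Q) (i : Fin m) : Kost.an (Λ.β i q) * Λ.Pq q = 0 := by
  refine Kost.end_ext fun D => ?_
  rw [Module.End.mul_apply, Pq_ee, LinearMap.zero_apply]
  split_ifs with h
  · rw [Kost.an_ee, if_neg (h i)]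
  · exact map_zero _

lemma Pq_cr_of_ne {q : Q} {b : B} (hb : ∀ i, Λ.β i q ≠ b) :
    Λ.Pq q * Kost.cr b = Kost.cr b * Λ.Pq q := by
  refine Kost.end_ext fun D => ?_
  rw [Module.End.mul_apply, Module.End.mul_apply, Kost.cr_ee, Pq_ee]
  have h1 : (∀ i, Λ.β i q ∉ insert b D) ↔ ∀ i, Λ.β i q ∉ D := by
    simp only [mem_insert, not_or]
    exact ⟨fun h i => (h i).2, fun h i => ⟨hb i, h i⟩⟩
  by_cases hD : b ∈ D
  · rw [if_pos hD, map_zero]
    split_ifs
    · rw [Kost.cr_ee, if_pos hD]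
    · rw [map_zero]
  · rw [if_neg hD, map_smul, Pq_ee]
    by_cases h2 : ∀ i, Λ.β i q ∉ D
    · rw [if_pos (h1.2 h2), if_pos h2, Kost.cr_ee, if_neg hD]
    · rw [if_neg (fun h => h2 (h1.1 h)), if_neg h2, smul_zero, map_zero]

lemma Pq_an_of_ne {q : Q} {b : B} (hb : ∀ i, Λ.β i q ≠ b) :
    Λ.Pq q * Kost.an b = Kost.an b * Λ.Pq q := by
  refine Kost.end_ext fun D => ?_
  rw [Module.End.mul_apply, Module.End.mul_apply, Kost.an_ee, Pq_ee]
  have h1 : (∀ i, Λ.β i q ∉ D.erase b) ↔ ∀ i, Λ.β i q ∉ D := by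
    simp only [mem_erase, not_and]
    exact ⟨fun h i => h i (hb i), fun h i _ => h i⟩
  by_cases hD : b ∈ D
  · rw [if_pos hD, map_smul, Pq_ee]
    by_cases h2 : ∀ i, Λ.β i q ∉ D
    · rw [if_pos (h1.2 h2), if_pos h2, Kost.an_ee, if_pos hD]
    · rw [if_neg (fun h => h2 (h1.1 h)), if_neg h2, smul_zero, map_zero]
  · rw [if_neg hD, map_zero]
    split_ifs
    · rw [Kost.an_ee, if_neg hD]
    · rw [map_zero]

lemma Pq_E (q : Q) (i j : Fin m) : Λ.Pq q * Λ.E i j = Λ.E i j * Λ.Pq q := by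
  unfold E
  rw [Finset.mul_sum, Finset.sum_mul]
  apply Finset.sum_congr rfl
  intro q' _
  by_cases h : q' = q
  · subst h
    rw [← mul_assoc, Pq_cr, zero_mul, mul_assoc, an_Pq, mul_zero]
  · rw [← mul_assoc, Λ.Pq_cr_of_ne (fun k hk => h (Λ.inj hk).2.symm), mul_assoc,
      Λ.Pq_an_of_ne (fun k hk => h (Λ.inj hk).2.symm), mul_assoc]

lemma Pq_Pq (q : Q) : Λ.Pq q * Λ.Pq q = Λ.Pq q := by
  refine Kost.end_ext fun D => ?_
  rw [Module.End.mul_apply, Pq_ee]
  split_ifs with h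
  · rw [Pq_ee, if_pos h]
  · rw [map_zero]

lemma Pq_pi (q : Q) (μ : Wt m) : Λ.Pq q * Λ.gr.π μ = Λ.gr.π μ * Λ.Pq q := by
  refine Kost.end_ext fun D => ?_
  rw [Module.End.mul_apply, Module.End.mul_apply, Pq_ee, gr_ee]
  split_ifs with h1 h2
  · rw [Pq_ee, gr_ee, if_pos h2, if_pos h1]
  · rw [Pq_ee, if_neg h2, map_zero]
  · rw [map_zero, gr_ee, if_neg h1]
  · rw [map_zero, map_zero]

/-- the vectors without boxes in the slot `q` -/
def Vq (q : Q) : Submodule ℂ (Kost.Fock B) := LinearMap.range (Λ.Pq q)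

lemma mem_Vq {q : Q} {y : Kost.Fock B} : y ∈ Λ.Vq q ↔ Λ.Pq q y = y := by
  constructor
  · rintro ⟨x, rfl⟩
    rw [← Module.End.mul_apply, Pq_Pq]
  · intro h
    exact ⟨y, h⟩

lemma Pq_mem (q : Q) (y : Kost.Fock B) : Λ.Pq q y ∈ Λ.Vq q := ⟨y, rfl⟩

lemma an_Vq {q : Q} {y : Kost.Fock B} (h : y ∈ Λ.Vq q) (i : Fin m) :
    Kost.an (Λ.β i q) y = 0 := by
  rw [← Λ.mem_Vq.1 h, ← Module.End.mul_apply, an_Pq, LinearMap.zero_apply]

/-! ### the coefficient operators -/

/-- coefficient of `e_l` -/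
def extL (q : Q) (l : Finset (Fin m)) : Module.End ℂ (Kost.Fock B) := Λ.Pq q * Λ.insA q l

lemma cr_aL (q : Q) (l : Finset (Fin m)) (i : Fin m) (b : B) {L : List (Fin m)}
    (h : ∀ k ∈ L, Λ.β k q ≠ b) : ∃ ε : ℂ, Λ.aL q l L * Kost.cr b = ε • (Kost.cr b * Λ.aL q l L) := by
  induction L with
  | nil => exact ⟨1, by rw [aL, one_mul, mul_one, one_smul]⟩
  | cons k L ih =>
    obtain ⟨ε, hε⟩ := ih (fun k' hk' => h k' (List.mem_cons_of_mem _ hk'))
    have hk := h k List.mem_cons_self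
    by_cases hkl : k ∈ l
    · refine ⟨-ε, ?_⟩
      rw [aL, aF, if_pos hkl, mul_assoc]
      have h1 := Kost.an_cr (Λ.β k q) b
      rw [if_neg hk] at h1
      have h2 : Kost.an (Λ.β k q) * Kost.cr b = -(Kost.cr b * Kost.an (Λ.β k q)) :=
        eq_neg_of_add_eq_zero_left h1
      rw [h2, mul_neg, ← mul_assoc, hε, smul_mul_assoc, neg_smul, mul_assoc]
    · refine ⟨ε, ?_⟩
      rw [aL, aF, if_neg hkl, mul_one, hε]

lemma an_cL (q : Q) (l : Finset (Fin m)) (b : B) {L : List (Fin m)}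
    (h : ∀ k ∈ L, Λ.β k q ≠ b) : ∃ ε : ℂ, Kost.an b * Λ.cL q l L = ε • (Λ.cL q l L * Kost.an b) := by
  induction L with
  | nil => exact ⟨1, by rw [cL, one_mul, mul_one, one_smul]⟩
  | cons k L ih =>
    obtain ⟨ε, hε⟩ := ih (fun k' hk' => h k' (List.mem_cons_of_mem _ hk'))
    have hk := h k List.mem_cons_self
    by_cases hkl : k ∈ l
    · refine ⟨-ε, ?_⟩
      rw [cL, cF, if_pos hkl, ← mul_assoc]
      have h1 := Kost.an_cr b (Λ.β k q)
      rw [if_neg (Ne.symm hk)] at h1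
      have h2 : Kost.an b * Kost.cr (Λ.β k q) = -(Kost.cr (Λ.β k q) * Kost.an b) :=
        eq_neg_of_add_eq_zero_left h1
      rw [h2, neg_mul, mul_assoc, hε, mul_smul_comm, neg_smul, mul_assoc]
    · refine ⟨ε, ?_⟩
      rw [cL, cF, if_neg hkl, one_mul, hε]

/-- coefficients along a list -/
lemma aL_cL (q : Q) (l l' : Finset (Fin m)) {L : List (Fin m)} (hL : L.Nodup) {z : Kost.Fock B}
    (hz : z ∈ Λ.Vq q) : Λ.Pq q (Λ.aL q l L (Λ.cL q l' L z)) =
      if ∀ i ∈ L, (i ∈ l ↔ i ∈ l') then z else 0 := by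
  induction L with
  | nil =>
    rw [aL, cL, if_pos (fun i hi => absurd hi List.not_mem_nil)]
    exact Λ.mem_Vq.1 hz
  | cons i L ih =>
    rw [List.nodup_cons] at hL
    have hne : ∀ k ∈ L, Λ.β k q ≠ Λ.β i q := fun k hk hb => hL.1 ((Λ.inj hb).1 ▸ hk)
    obtain ⟨ε, hε⟩ := Λ.an_cL q l' (Λ.β i q) hne
    have h0 : Kost.an (Λ.β i q) (Λ.cL q l' L z) = 0 := by
      rw [← Module.End.mul_apply, hε, LinearMap.smul_apply, Module.End.mul_apply, Λ.an_Vq hz,
        map_zero, smul_zero]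
    rw [aL, cL, Module.End.mul_apply, Module.End.mul_apply]
    by_cases h1 : i ∈ l
    · by_cases h2 : i ∈ l'
      · have e1 : Λ.aF q l i (Λ.cF q l' i (Λ.cL q l' L z)) = Λ.cL q l' L z := by
          unfold aF cF
          rw [if_pos h1, if_pos h2]
          have h3 := LinearMap.congr_fun (Kost.an_cr (Λ.β i q) (Λ.β i q)) (Λ.cL q l' L z)
          rw [if_pos rfl, LinearMap.add_apply, Module.End.mul_apply, Module.End.mul_apply, h0,
            map_zero, add_zero] at h3
          exact h3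
        rw [e1, ih hL.2]
        congr 1
        simp [h1, h2]
      · have e1 : Λ.aF q l i (Λ.cF q l' i (Λ.cL q l' L z)) = 0 := by
          unfold aF cF
          rw [if_pos h1, if_neg h2, Module.End.one_apply, h0]
        rw [e1, map_zero, map_zero, if_neg]
        intro h
        exact h2 ((h i List.mem_cons_self).1 h1)
    · by_cases h2 : i ∈ l'
      · have e1 : Λ.aF q l i (Λ.cF q l' i (Λ.cL q l' L z)) =
            Kost.cr (Λ.β i q) (Λ.cL q l' L z) := by
          unfold aF cF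
          rw [if_neg h1, if_pos h2, Module.End.one_apply]
        obtain ⟨ε', hε'⟩ := Λ.cr_aL q l i (Λ.β i q) hne
        rw [e1, ← Module.End.mul_apply (Λ.aL q l L), hε', LinearMap.smul_apply,
          Module.End.mul_apply, map_smul, ← Module.End.mul_apply (Λ.Pq q), Pq_cr,
          LinearMap.zero_apply, smul_zero, if_neg]
        intro h
        exact h1 ((h i List.mem_cons_self).2 h2)
      · have e1 : Λ.aF q l i (Λ.cF q l' i (Λ.cL q l' L z)) = Λ.cL q l' L z := by
          unfold aF cF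
          rw [if_neg h1, if_neg h2, Module.End.one_apply, Module.End.one_apply]
        rw [e1, ih hL.2]
        congr 1
        simp [h1, h2]

lemma extL_insL (q : Q) (l l' : Finset (Fin m)) {z : Kost.Fock B} (hz : z ∈ Λ.Vq q) :
    Λ.extL q l (Λ.insL q l' z) = if l = l' then z else 0 := by
  unfold extL insA insL
  rw [Module.End.mul_apply, Λ.aL_cL q l l' (List.nodup_finRange m) hz]
  have h : (∀ i ∈ List.finRange m, (i ∈ l ↔ i ∈ l')) ↔ l = l' := by
    constructor
    · intro h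
      ext i
      exact h i (List.mem_finRange i)
    · rintro rfl i _
      exact Iff.rfl
  simp only [h]

/-- the twist of the slot `q` -/
def tw (q : Q) : Tw Λ.rep where
  V' := Λ.Vq q
  st := by
    intro μ y hy
    rw [mem_Vq, rep_gr, ← Module.End.mul_apply, Pq_pi, Module.End.mul_apply, Λ.mem_Vq.1 hy]
  stE := by
    intro i j y hy
    rw [mem_Vq, rep_E, ← Module.End.mul_apply, Pq_E, Module.End.mul_apply, Λ.mem_Vq.1 hy]
  ins := Λ.insL q
  ext := Λ.extL q
  ext_mem := by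
    intro l y
    exact Λ.Pq_mem q _
  ext_ins := by
    intro l l' z hz
    exact Λ.extL_insL q l l' hz
  pr_ins := by
    intro l μ z _
    have h := Λ.hom_insL q l (μ - wtS l)
    rw [sub_add_cancel] at h
    exact (LinearMap.congr_fun h z).symm
  pr_ext := by
    intro l μ y
    have h := Λ.hom_insA q l μ
    have h1 := LinearMap.congr_fun h y
    rw [Module.End.mul_apply, Module.End.mul_apply] at h1
    unfold extL
    rw [rep_gr, Module.End.mul_apply, h1, Module.End.mul_apply, ← Module.End.mul_apply (Λ.Pq q),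
      Pq_pi, Module.End.mul_apply, sub_eq_add_neg]
  e_ins := by
    intro c h l z _
    have h1 := LinearMap.congr_fun (Λ.hi_lo_insL q c h l) z
    rw [Module.End.mul_apply, LinearMap.add_apply, Module.End.mul_apply] at h1
    have h2 : Λ.rep.e c = Λ.E (hi c h) (lo c h) := by
      unfold GLRep.e
      rw [dif_pos h]
      rfl
    rw [h2, h1, add_comm]
    congr 1
    split_ifs <;> rfl
  f_ins := by
    intro c h l z _
    have h1 := LinearMap.congr_fun (Λ.lo_hi_insL q c h l) z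
    rw [Module.End.mul_apply, LinearMap.add_apply, Module.End.mul_apply] at h1
    have h2 : Λ.rep.f c = Λ.E (lo c h) (hi c h) := by
      unfold GLRep.f
      rw [dif_pos h]
      rfl
    rw [h2, h1, add_comm]
    congr 1
    split_ifs <;> rfl
  ext_e := by
    intro c h l y
    have h1 := LinearMap.congr_fun (Λ.insA_hi_lo q c h l) y
    rw [Module.End.mul_apply, LinearMap.add_apply, Module.End.mul_apply] at h1
    have h2 : Λ.rep.e c = Λ.E (hi c h) (lo c h) := by
      unfold GLRep.e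
      rw [dif_pos h]
      rfl
    unfold extL
    rw [h2, Module.End.mul_apply, h1, map_add, ← Module.End.mul_apply (Λ.Pq q) (Λ.E _ _), Pq_E,
      add_comm, Module.End.mul_apply, Module.End.mul_apply]
    congr 1
    split_ifs
    · rfl
    · exact map_zero _
  ext_f := by
    intro c h l y
    have h1 := LinearMap.congr_fun (Λ.insA_lo_hi q c h l) y
    rw [Module.End.mul_apply, LinearMap.add_apply, Module.End.mul_apply] at h1
    have h2 : Λ.rep.f c = Λ.E (lo c h) (hi c h) := by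
      unfold GLRep.f
      rw [dif_pos h]
      rfl
    unfold extL
    rw [h2, Module.End.mul_apply, h1, map_add, ← Module.End.mul_apply (Λ.Pq q) (Λ.E _ _), Pq_E,
      add_comm, Module.End.mul_apply, Module.End.mul_apply]
    congr 1
    split_ifs
    · rfl
    · exact map_zero _

end Ln

end

end Gao
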