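import Pool.Agent.Gao.Perm

/-!
# The number `F x` of a word, first-row form and co-transition
-/

set_option autoImplicit false

namespace Pool.Agent.Gao

open Equiv Finset

/-- the number `𝔖_w(1)` of a word `x` with distinct letters -/
def F (x : List ℕ) : ℤ := Fn x.length x

@[simp] lemma F_nil : F [] = 1 := rfl

lemma F_eq_R (x : List ℕ) (hx : x ≠ []) : F x = R x (mh F) := by
  unfold F
  rcases x with _ | ⟨a, l⟩
  · exact absurd rfl hx
  · rw [List.length_cons]
    show R (a :: l) (mh (Fn l.length)) = R (a :: l) (mh fun x => Fn x.length x)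
    apply R_congr
    intro y hy
    rcases y with _ | ⟨c, t⟩
    · rfl
    · have hlen : t.length = l.length := by
        have := hy.length_eq
        simpa using this
      simp only [mh, hlen]

lemma F_sorted (x : List ℕ) (h : x.Pairwise (· < ·)) : F x = 1 := Fn_sorted _ x rfl h

lemma R_zero (x : List ℕ) : R x (fun _ => (0 : ℤ)) = 0 := by
  have := R_smul x 0 (fun _ => 0)
  simpa using this

lemma R_min (a : ℕ) (β : List ℕ) : ∀ (α : List ℕ) (φ : Fun), (∀ b ∈ α, a < b) → (∀ b ∈ β, a < b) →
    (∀ (b : ℕ) (y : List ℕ), (b :: y).Perm (α ++ a :: β) → b ≠ a → φ (b :: y) = 0) →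
    R (α ++ a :: β) φ = R β (fun t => φ (a :: (α ++ t))) := by
  intro α
  induction α with
  | nil =>
    intro φ _ hβ _
    simp only [List.nil_append, R_cons]
    apply R_congr
    intro y hy
    have : u0 φ (a :: y) = 0 := by
      rcases y with _ | ⟨b, y⟩
      · rfl
      · have hb : a < b := hβ b (hy.subset (by simp))
        have : ¬ b < a := by omega
        simp [this]
    rw [this, add_zero]
  | cons b α ih =>
    intro φ hα hβ hφ
    have hab : a < b := hα b (by simp)
    rw [List.cons_append, R_cons]
    rw [ih (fun y => φ (b :: y) + u0 φ (b :: y)) (fun c hc => hα c (by simp [hc])) hβ]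
    · apply R_congr
      intro t ht
      have h1 : φ (b :: a :: (α ++ t)) = 0 := by
        apply hφ
        · rw [List.cons_append]
          apply List.Perm.cons
          have : (a :: (α ++ t)).Perm (α ++ a :: t) := (List.perm_middle).symm
          exact this.trans (List.Perm.append_left _ (List.Perm.cons _ ht))
        · omega
      simp only [h1, u0_cons, if_pos hab, zero_add, List.cons_append]
    · intro c y hy hca
      have h1 : φ (b :: c :: y) = 0 := by
        apply hφ
        · rw [List.cons_append]
          exact List.Perm.cons _ hy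
        · omega
      simp only [h1, u0_cons, zero_add]
      split_ifs
      · apply hφ
        · rw [List.cons_append]
          exact (List.Perm.swap b c y).trans (List.Perm.cons _ hy)
        · exact hca
      · rfl

/-- First-row form: remove the smallest letter. -/
theorem F_first_row (α β : List ℕ) (a : ℕ) (hα : ∀ b ∈ α, a < b) (hβ : ∀ b ∈ β, a < b) :
    F (α ++ a :: β) = R β (fun t => F (α ++ t)) := by
  rw [F_eq_R _ (by simp), R_min a β α (mh F) hα hβ]
  · apply R_congr
    intro t ht
    have : ∀ y ∈ α ++ t, a < y := by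
      intro y hy
      rcases List.mem_append.1 hy with h | h
      · exact hα y h
      · exact hβ y (ht.subset h)
    simp only [mh, if_pos this]
  · intro b y hy hb
    simp only [mh]
    rw [if_neg]
    intro hall
    have ha : a ∈ b :: y := hy.symm.subset (by simp)
    have hay : a ∈ y := by
      rcases List.mem_cons.1 ha with h | h
      · exact absurd h.symm hb
      · exact h
    have hba := hall a hay
    have hbm : b ∈ α ++ a :: β := hy.subset (by simp)
    rcases List.mem_append.1 hbm with h | h
    · have := hα b h; omega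
    · rcases List.mem_cons.1 h with h | h
      · exact hb h
      · have := hβ b h; omega

/-- sum over decompositions `β = E ++ c :: β₂` with `c` smaller than all letters of `E`; here `E` is an
accumulator of letters already passed. -/
def cutSum : List ℕ → List ℕ → (List ℕ → ℕ → List ℕ → ℤ) → ℤ
  | _, [], _ => 0
  | E, c :: β, G => (if ∀ b ∈ E, c < b then G E c β else 0) + cutSum (E ++ [c]) β G

@[simp] lemma cutSum_nil (E : List ℕ) (G : List ℕ → ℕ → List ℕ → ℤ) : cutSum E [] G = 0 := rfl
@[simp] lemma cutSum_cons (E : List ℕ) (c : ℕ) (β : List ℕ) (G : List ℕ → ℕ → List ℕ → ℤ) :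
    cutSum E (c :: β) G = (if ∀ b ∈ E, c < b then G E c β else 0) + cutSum (E ++ [c]) β G := rfl

lemma cutSum_congr (β : List ℕ) : ∀ (E : List ℕ) (G H : List ℕ → ℕ → List ℕ → ℤ),
    (∀ (β₁ β₂ : List ℕ) (c : ℕ), β = β₁ ++ c :: β₂ → (∀ b ∈ E ++ β₁, c < b) →
      G (E ++ β₁) c β₂ = H (E ++ β₁) c β₂) →
    cutSum E β G = cutSum E β H := by
  induction β with
  | nil => intro E G H _; rfl
  | cons c β ih =>
    intro E G H h
    rw [cutSum_cons, cutSum_cons, ih (E ++ [c]) G H]
    · congr 1
      split_ifs with hc
      · have := h [] β c rfl (by simpa using hc)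
        simpa using this
      · rfl
    · intro β₁ β₂ d hβ hd
      have := h (c :: β₁) β₂ d (by simp [hβ]) (by simpa [List.append_assoc] using hd)
      simpa [List.append_assoc] using this

lemma cutSum_shift (b : ℕ) (β : List ℕ) : ∀ (E : List ℕ) (G : List ℕ → ℕ → List ℕ → ℤ),
    cutSum (b :: E) β G = cutSum E β (fun E' c β₂ => if c < b then G (b :: E') c β₂ else 0) := by
  induction β with
  | nil => intro E G; rfl
  | cons c β ih =>
    intro E G
    rw [cutSum_cons, cutSum_cons, List.cons_append, ih (E ++ [c]) G]
    congr 1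
    by_cases h1 : ∀ d ∈ E, c < d
    · by_cases h2 : c < b
      · rw [if_pos h1, if_pos h2, if_pos]
        intro d hd
        rcases List.mem_cons.1 hd with h | h
        · rw [h]; exact h2
        · exact h1 d h
      · rw [if_pos h1, if_neg h2, if_neg]
        intro h
        exact h2 (h b (by simp))
    · rw [if_neg h1, if_neg]
      intro h
      exact h1 (fun d hd => h d (by simp [hd]))

/-- The row operator, split according to the first letter of the result. -/
lemma R_cut (β : List ℕ) : ∀ (φ : Fun), β ≠ [] →
    R β φ = cutSum [] β (fun E c β₂ => R β₂ (fun y => φ (c :: (E ++ y)))) := by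
  induction β with
  | nil => intro φ h; exact absurd rfl h
  | cons b β ih =>
    intro φ _
    have h1 : R (b :: β) φ = R β (fun y => φ (b :: y)) + R β (fun y => u0 φ (b :: y)) := by
      rw [R_cons, R_add]
    rw [h1, cutSum_cons, List.nil_append, cutSum_shift b β []]
    simp only [List.nil_append, List.not_mem_nil, IsEmpty.forall_iff, implies_true, if_true]
    congr 1
    by_cases hβ : β = []
    · subst hβ; simp
    · rw [ih _ hβ]
      apply cutSum_congr
      intro β₁ β₂ c _ _
      simp only [List.nil_append, u0_cons, List.cons_append]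
      split_ifs with h
      · rfl
      · exact R_zero β₂

/-- Co-transition (letter form): the smallest letter is exchanged with a left-to-right minimum of the part
to its right. -/
theorem F_cotransition (α β : List ℕ) (a : ℕ) (hα : ∀ b ∈ α, a < b) (hβ : ∀ b ∈ β, a < b)
    (hne : β ≠ []) :
    F (α ++ a :: β) = cutSum [] β (fun E c β₂ => F (α ++ c :: (E ++ a :: β₂))) := by
  rw [F_first_row α β a hα hβ, R_cut β _ hne]
  apply cutSum_congr
  intro β₁ β₂ c hβ' hc
  have h := F_first_row (α ++ c :: β₁) β₂ a
    (by
      intro b hb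
      rcases List.mem_append.1 hb with h | h
      · exact hα b h
      · apply hβ
        rw [hβ']
        rcases List.mem_cons.1 h with h | h
        · simp [h]
        · simp [h])
    (by
      intro b hb
      apply hβ
      rw [hβ']
      simp [hb])
  simp only [List.nil_append]
  rw [List.append_assoc, List.cons_append] at h
  rw [h]
  apply R_congr
  intro y _
  rw [List.append_assoc, List.cons_append]

theorem F_cotransition_last (α : List ℕ) (a : ℕ) (hα : ∀ b ∈ α, a < b) :
    F (α ++ [a]) = F α := by
  rw [F_first_row α [] a hα (by simp)]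
  simp

/-! ### invariance under strictly monotone relabelling -/

lemma u0_map (g : ℕ → ℕ) (x : List ℕ) (φ : Fun) (hg : ∀ a ∈ x, ∀ b ∈ x, (g a < g b ↔ a < b)) :
    u0 φ (x.map g) = u0 (fun y => φ (y.map g)) x := by
  rcases x with _ | ⟨a, _ | ⟨b, l⟩⟩
  · rfl
  · rfl
  · simp only [List.map_cons, u0_cons, hg b (by simp) a (by simp)]

lemma R_map (g : ℕ → ℕ) (x : List ℕ) : ∀ (φ : Fun), (∀ a ∈ x, ∀ b ∈ x, (g a < g b ↔ a < b)) →
    R (x.map g) φ = R x (fun y => φ (y.map g)) := by
  induction x with
  | nil => intro φ _; rfl
  | cons a l ih =>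
    intro φ hg
    rw [List.map_cons, R_cons, ih _ (fun b hb c hc => hg b (by simp [hb]) c (by simp [hc])), R_cons]
    apply R_congr
    intro y hy
    rw [List.map_cons, ← u0_map g (a :: y)]
    · rfl
    · intro b hb c hc
      exact hg b ((List.Perm.cons a hy).subset hb) c ((List.Perm.cons a hy).subset hc)

lemma Fn_map (g : ℕ → ℕ) (n : ℕ) : ∀ (x : List ℕ), (∀ a ∈ x, ∀ b ∈ x, (g a < g b ↔ a < b)) →
    Fn n (x.map g) = Fn n x := by
  induction n with
  | zero => intro x _; rfl
  | succ n ih =>
    intro x hg
    show R (x.map g) (mh (Fn n)) = R x (mh (Fn n))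
    rw [R_map g x _ hg]
    apply R_congr
    intro y hy
    rcases y with _ | ⟨c, t⟩
    · rfl
    · have hc : c ∈ x := hy.subset (by simp)
      have ht : ∀ b ∈ t, b ∈ x := fun b hb => hy.subset (by simp [hb])
      have e1 : (∀ y ∈ t.map g, g c < y) ↔ (∀ y ∈ t, c < y) := by
        constructor
        · intro h y hy'
          exact (hg c hc y (ht y hy')).1 (h (g y) (List.mem_map_of_mem hy'))
        · intro h y hy'
          rw [List.mem_map] at hy'
          obtain ⟨z, hz, rfl⟩ := hy'
          exact (hg c hc z (ht z hz)).2 (h z hz)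
      simp only [List.map_cons, mh]
      by_cases h : ∀ y ∈ t, c < y
      · rw [if_pos (e1.2 h), if_pos h]
        exact ih t (fun a ha b hb => hg a (ht a ha) b (ht b hb))
      · rw [if_neg (fun h' => h (e1.1 h')), if_neg h]

theorem F_map (g : ℕ → ℕ) (x : List ℕ) (hg : ∀ a ∈ x, ∀ b ∈ x, (g a < g b ↔ a < b)) :
    F (x.map g) = F x := by
  unfold F
  rw [List.length_map, Fn_map g _ x hg]

end Pool.Agent.Gao
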