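import Pool.Agent.Gao.LinkPol
import Pool.Agent.Gao.Words

/-!
# The word character at `x = 1` is the first-row number `F`

For a word character `χ` with the smallest letter recursion `SmallRec` (all letters moving, all with a
column) and `χ [] = 1` we have `ev1 (χ x) = F (x.map v)` (`ev1` = evaluation at `x = 1`): both sides
satisfy Macdonald's recursion `inv x * f x = ∑_k (k+1) * f (s_k x)` over the descents `k`.
-/

set_option autoImplicit false

namespace Pool.Agent.Gao

open Finset

lemma tm_split : ∀ (α : List ℕ) (a b : ℕ) (β : List ℕ) (φ : Fun),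
    tm (α ++ a :: b :: β) α.length φ = if b < a then φ (α ++ b :: a :: β) else 0 := by
  intro α
  induction α with
  | nil => intro a b β φ; rfl
  | cons x α ih =>
    intro a b β φ
    rw [List.cons_append, List.length_cons, tm_succ, ih]
    rfl

lemma tm_last : ∀ (α : List ℕ) (a : ℕ) (φ : Fun), tm (α ++ [a]) α.length φ = 0 := by
  intro α
  induction α with
  | nil => intro a φ; rfl
  | cons x α ih =>
    intro a φ
    rw [List.cons_append, List.length_cons, tm_succ, ih]

lemma cnt_append (a : ℕ) (α β : List ℕ) : cnt a (α ++ β) = cnt a α + cnt a β := by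
  unfold cnt
  rw [List.countP_append]

lemma inv_min (s : ℕ) (β : List ℕ) (hβ : ∀ b ∈ β, s < b) : ∀ (α : List ℕ), (∀ b ∈ α, s < b) →
    inv (α ++ s :: β) = inv (α ++ β) + α.length := by
  intro α
  induction α with
  | nil =>
    intro _
    rw [List.nil_append, List.nil_append, inv_cons, cnt_eq_zero hβ]
    simp
  | cons x α ih =>
    intro hα
    have hx : s < x := hα x (by simp)
    rw [List.cons_append, List.cons_append, inv_cons, inv_cons, ih (fun b hb => hα b (by simp [hb])),
      cnt_append, cnt_append, cnt_cons, if_pos hx, List.length_cons]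
    omega

lemma inv_swap_split (a b : ℕ) (β : List ℕ) (h : b < a) : ∀ α : List ℕ,
    inv (α ++ a :: b :: β) = inv (α ++ b :: a :: β) + 1 := by
  intro α
  induction α with
  | nil => exact inv_swap a b β h
  | cons x α ih =>
    rw [List.cons_append, List.cons_append, inv_cons, inv_cons, ih]
    have : cnt x (α ++ a :: b :: β) = cnt x (α ++ b :: a :: β) :=
      cnt_perm x (List.Perm.append_left α (List.Perm.swap b a β))
    omega

lemma sorted_of_inv_eq_zero : ∀ x : List ℕ, x.Nodup → inv x = 0 → x.Pairwise (· < ·) := by
  intro x
  induction x with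
  | nil => intro _ _; exact List.Pairwise.nil
  | cons a l ih =>
    intro hnd h
    rw [inv_cons] at h
    rw [List.nodup_cons] at hnd
    rw [List.pairwise_cons]
    refine ⟨fun b hb => ?_, ih hnd.2 (by omega)⟩
    have h1 : cnt a l = 0 := by omega
    unfold cnt at h1
    rw [List.countP_eq_zero] at h1
    have h2 := h1 b hb
    have h3 : a ≠ b := fun e => hnd.1 (e ▸ hb)
    simp only [decide_eq_true_eq] at h2
    omega

/-- Macdonald's recursion for `F` -/
theorem X_F (x : List ℕ) : X x F = (inv x : ℤ) * F x := by
  have h := X_Fn x.length x rfl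
  rw [show F x = Fn x.length x from rfl, ← h]
  apply X_congr
  intro y hy
  rw [show F y = Fn y.length y from rfl, hy.length_eq]

section words

variable {τ : Type*} {v : τ → ℕ} {g c : τ → Bool} {χ : List τ → Pol}

lemma nodup_map_iff (x : List τ) : (x.map v).Nodup ↔ x.Pairwise (fun a b => v a ≠ v b) := by
  unfold List.Nodup
  rw [List.pairwise_map]

theorem Eu_word (hχ : SmallRec v g c χ) (h0 : χ [] = 1) : ∀ (n : ℕ) (x : List τ), x.length = n →
    (x.map v).Nodup → (∀ a ∈ x, g a = true) → (∀ a ∈ x, c a = true) →
    Eu (χ x) = (inv (x.map v) : ℤ) • χ x := by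
  intro n
  induction n with
  | zero =>
    intro x hx _ _ _
    rw [List.length_eq_zero_iff.1 hx, h0]
    simp
  | succ n ih =>
    intro x hx hnd hg hc
    have hne : x ≠ [] := by
      intro h; rw [h] at hx; simp at hx
    obtain ⟨s, hs, hmin⟩ := exists_min_letter v x hne
    obtain ⟨α, β, rfl⟩ := List.append_of_mem hs
    rw [nodup_map_iff, List.pairwise_append, List.pairwise_cons] at hnd
    obtain ⟨h1, ⟨h2, h3⟩, h4⟩ := hnd
    have hα : ∀ b ∈ α, v s < v b := by
      intro b hb
      have := hmin b (by simp [hb])
      have := h4 b hb s (by simp)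
      omega
    have hβ : ∀ b ∈ β, v s < v b := by
      intro b hb
      have := hmin b (by simp [hb])
      have := h2 b hb
      omega
    have hlen : (α ++ β).length = n := by
      rw [List.length_append, List.length_cons] at hx
      rw [List.length_append]; omega
    have hg1 : ∀ a ∈ α ++ β, g a = true := fun a ha => hg a (by
      simp only [List.mem_append, List.mem_cons] at ha ⊢; tauto)
    have hc1 : ∀ a ∈ α ++ β, c a = true := fun a ha => hc a (by
      simp only [List.mem_append, List.mem_cons] at ha ⊢; tauto)
    have hnd' : ((α ++ β).map v).Nodup := by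
      rw [nodup_map_iff, List.pairwise_append]
      exact ⟨h1, h3, fun a ha b hb => h4 a ha b (by simp [hb])⟩
    have ih' := ih (α ++ β) hlen hnd' hg1 hc1
    rw [hχ α s β hα hβ, hg s hs, hc s hs]
    simp only [colFactor, if_true]
    rw [gcount_eq_length (fun a ha => hg1 a (by simp [ha])),
      gcount_eq_length (l := β) (fun a ha => hg1 a (by simp [ha]))]
    have h5 := inv_min (v s) (β.map v) (by
      intro b hb
      obtain ⟨b', hb', rfl⟩ := List.mem_map.1 hb
      exact hβ b' hb') (α.map v) (by
      intro b hb
      obtain ⟨b', hb', rfl⟩ := List.mem_map.1 hb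
      exact hα b' hb')
    rw [List.length_map, ← List.map_cons, ← List.map_append, ← List.map_append] at h5
    rw [Eu_step _ _ _ _ ih', h5]

lemma word_sorted (hχ : SmallRec v g c χ) (h0 : χ [] = 1) : ∀ (x : List τ),
    (x.map v).Pairwise (· < ·) → (∀ a ∈ x, g a = true) → (∀ a ∈ x, c a = true) → χ x = 1 := by
  intro x
  induction x with
  | nil => intro _ _ _; exact h0
  | cons s x ih =>
    intro h hg hc
    rw [List.map_cons, List.pairwise_cons] at h
    have h1 := hχ [] s x (by simp) (fun b hb => h.1 (v b) (List.mem_map.2 ⟨b, hb, rfl⟩))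
    rw [List.nil_append, List.nil_append] at h1
    rw [h1, hg s (by simp), hc s (by simp),
      ih h.2 (fun a ha => hg a (by simp [ha])) (fun a ha => hc a (by simp [ha]))]
    simp [colFactor, demSeq_one]

/-- THE LINK: the word character at `x = 1` is `F`. -/
theorem ev1_word (hχ : SmallRec v g c χ) (h0 : χ [] = 1) : ∀ (n : ℕ) (x : List τ),
    inv (x.map v) = n → (x.map v).Nodup → (∀ a ∈ x, g a = true) → (∀ a ∈ x, c a = true) →
    ev1 (χ x) = F (x.map v) := by
  intro n
  induction n using Nat.strong_induction_on with
  | _ n ih =>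
  intro x hn hnd hg hc
  rcases Nat.eq_zero_or_pos n with h | h
  · subst h
    have hs := sorted_of_inv_eq_zero _ hnd hn
    rw [word_sorted hχ h0 x hs hg hc, F_sorted _ hs, map_one]
  · have hE := Eu_word hχ h0 x.length x rfl hnd hg hc
    obtain ⟨N₀, hN₀⟩ := ev1_Eu_dd (χ x)
    have h1 := hN₀ (max N₀ x.length) (le_max_left _ _)
    rw [hE, map_zsmul, hn] at h1
    have hpw := (nodup_map_iff x).1 hnd
    have h2 : ∑ k ∈ range (max N₀ x.length), ((k + 1 : ℕ) : ℤ) * ev1 (dd k (χ x)) =
        ∑ k ∈ range x.length, ((k + 1 : ℕ) : ℤ) * ev1 (dd k (χ x)) := by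
      symm
      apply sum_subset (range_mono (le_max_right _ _))
      intro k _ hk
      rw [mem_range, not_lt] at hk
      rw [dd_eq_zero (sw_word hχ h0 x.length x rfl hpw hg hc k (by omega)), map_zero, mul_zero]
    have h3 : ∀ k ∈ range x.length, ((k + 1 : ℕ) : ℤ) * ev1 (dd k (χ x)) =
        ((k + 1 : ℕ) : ℤ) * tm (x.map v) k F := by
      intro k hk
      congr 1
      rw [mem_range] at hk
      by_cases hk1 : k + 1 < x.length
      · obtain ⟨α, a, b, β, rfl, rfl⟩ : ∃ (α : List τ) (a b : τ) (β : List τ),
            x = α ++ a :: b :: β ∧ k = α.length := by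
          refine ⟨x.take k, x[k], x[k + 1], x.drop (k + 2), ?_, by simp; omega⟩
          rw [← List.drop_eq_getElem_cons hk1, ← List.drop_eq_getElem_cons hk, List.take_append_drop]
        rw [dd_word hχ (α ++ β).length α β a b rfl hpw hg hc, List.map_append, List.map_cons,
          List.map_cons]
        have h5 := tm_split (α.map v) (v a) (v b) (β.map v) F
        rw [List.length_map] at h5
        rw [h5]
        split_ifs with hab
        · have hinv := inv_swap_split (v a) (v b) (β.map v) hab (α.map v)
          have hmap : (α ++ b :: a :: β).map v = α.map v ++ v b :: v a :: β.map v := by simp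
          have hmap' : (α ++ a :: b :: β).map v = α.map v ++ v a :: v b :: β.map v := by simp
          rw [hmap'] at hn
          rw [← hmap]
          have hperm : (α ++ b :: a :: β).Perm (α ++ a :: b :: β) :=
            List.Perm.append_left α (List.Perm.swap a b β)
          apply ih (inv ((α ++ b :: a :: β).map v)) (by rw [hmap]; omega) _ rfl
          · exact (hperm.map v).nodup_iff.2 hnd
          · intro x hx
            exact hg x (hperm.subset hx)
          · intro x hx
            exact hc x (hperm.subset hx)
        · exact map_zero _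
      · have hk2 : k + 1 = x.length := by omega
        rw [dd_eq_zero (sw_word hχ h0 x.length x rfl hpw hg hc k (by omega)), map_zero]
        obtain ⟨α, a, rfl, rfl⟩ : ∃ (α : List τ) (a : τ), x = α ++ [a] ∧ k = α.length := by
          refine ⟨x.take k, x[k], ?_, by simp; omega⟩
          have : x.drop (k + 1) = [] := List.drop_eq_nil_iff.2 (by omega)
          rw [← this, ← List.drop_eq_getElem_cons hk, List.take_append_drop]
        have h5 := tm_last (α.map v) (v a) F
        rw [List.length_map] at h5
        rw [List.map_append, List.map_singleton, h5]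
    rw [h2, sum_congr rfl h3] at h1
    have h4 := X_F (x.map v)
    rw [X_eq_sum, List.length_map, hn] at h4
    rw [h4] at h1
    have h6 : (n : ℤ) ≠ 0 := by
      have : 0 < n := h
      exact_mod_cast this.ne'
    rw [smul_eq_mul] at h1
    exact mul_left_cancel₀ h6 h1

end words

end Pool.Agent.Gao
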