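import Pool.Agent.Gao.DemFun
import Pool.Agent.Gao.ProgS
import Pool.Agent.Gao.GRun

/-!
# The characters of the programs

`evalProg B L f`: the value of the program `L` on polynomials (`T c ↦ dem c`, `tw p t ↦ omegaP t *` if
`B p`).  `toPol_run`: it is the character of the run.  `chi v g B L` = value of the program of the
marked word `L`; it satisfies `SmallRec`.
-/

set_option autoImplicit false

namespace Gao

open Finset Module Pool.Agent.Gao

noncomputable section

/-- value of a program on polynomials -/
def evalProg {P : Type*} (B : P → Bool) : List (Ins P) → Pol → Pol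
  | [], f => f
  | Ins.T c :: L, f => dem c (evalProg B L f)
  | Ins.tw p t :: L, f => colFactor t (B p) * evalProg B L f

lemma evalProg_append {P : Type*} (B : P → Bool) (L L' : List (Ins P)) (f : Pol) :
    evalProg B (L ++ L') f = evalProg B L (evalProg B L' f) := by
  induction L with
  | nil => rfl
  | cons i L ih =>
    cases i with
    | T c =>
      change dem c (evalProg B (L ++ L') f) = dem c (evalProg B L (evalProg B L' f))
      rw [ih]
    | tw p t =>
      change _ * evalProg B (L ++ L') f = _ * evalProg B L (evalProg B L' f)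
      rw [ih]

lemma evalProg_range {P : Type*} (B : P → Bool) (t r : ℕ) (f : Pol) :
    evalProg B ((List.range r).map (fun i => (Ins.T (t + i) : Ins P))) f = demSeq t r f := by
  induction r generalizing t with
  | zero => rfl
  | succ r ih =>
    rw [List.range_succ_eq_map, List.map_cons, List.map_map]
    change dem (t + 0) (evalProg B _ f) = dem t (demSeq (t + 1) r f)
    rw [← ih (t + 1), add_zero]
    congr 2
    apply List.map_congr_left
    intro i _
    change (Ins.T (t + (i + 1)) : Ins P) = Ins.T (t + 1 + i)
    rw [add_assoc, add_comm 1 i]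

/-- all the `T c` of the program are operators of `gl_m` -/
def TOK {P : Type*} (m : ℕ) : List (Ins P) → Prop
  | [] => True
  | Ins.T c :: L => c + 1 < m ∧ TOK m L
  | Ins.tw _ _ :: L => TOK m L

lemma TOK_append {P : Type*} {m : ℕ} {L L' : List (Ins P)} (h : TOK m L) (h' : TOK m L') :
    TOK m (L ++ L') := by
  induction L with
  | nil => exact h'
  | cons i L ih =>
    cases i with
    | T c => exact ⟨h.1, ih h.2⟩
    | tw p t => exact ih h

lemma TOK_range {P : Type*} {m t r : ℕ} (h : t + r < m) :
    TOK m ((List.range r).map (fun i => (Ins.T (t + i) : Ins P))) := by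
  have key : ∀ l : List ℕ, (∀ i ∈ l, i < r) → TOK m (l.map (fun i => (Ins.T (t + i) : Ins P))) := by
    intro l
    induction l with
    | nil => intro _; trivial
    | cons i l ih =>
      intro hl
      have := hl i List.mem_cons_self
      exact ⟨by omega, ih (fun j hj => hl j (List.mem_cons_of_mem _ hj))⟩
  exact key _ (fun i hi => List.mem_range.1 hi)

section run

variable {K V : Type*} [Field K] [CharZero K] [AddCommGroup V] [Module K V] [FiniteDimensional K V]
  {m : ℕ} {ρ : GLRep K V m} {P : Type*} [DecidableEq P]

/-- the character of a run -/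
theorem toPol_run (σ : Slots ρ P) {Z : Submodule K V} (hZ : Start σ Z) (B : Finset P)
    (L : List (Ins P)) (hL : (slotsOf L).Nodup) (hs : SizeOK m L) (hT : TOK m L) :
    toPol (ρ.ch (run σ.tw B L Z)) =
      evalProg (fun p => decide (p ∈ B)) L (toPol (ρ.ch Z)) := by
  induction L with
  | nil => rfl
  | cons i L ih =>
    cases i with
    | T c =>
      have h1 : IsDem c hT.1 (ρ.ch (run σ.tw B L Z)) (ρ.ch (run σ.tw B (Ins.T c :: L) Z)) :=
        (good_run σ hZ B L hL hs).2 [] c hT.1
      rw [isDem_iff c hT.1 (ρ.ch_NNF _) (ρ.ch_NNF _)] at h1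
      rw [h1, ih hL hs hT.2]
      rfl
    | tw p t =>
      have hL' : p ∉ slotsOf L ∧ (slotsOf L).Nodup := List.nodup_cons.mp hL
      by_cases hp : p ∈ B
      · have h1 : ρ.ch (run σ.tw B (Ins.tw p t :: L) Z) = sh (ini m t) (ρ.ch (run σ.tw B L Z)) := by
          rw [run, if_pos hp, GRunAux.ch_twist _ _ (run_le_V' σ hZ B L p hL'.1)]
        have h2 := toPol_shift hs.1 (ρ.ch_NNF (run σ.tw B L Z))
          (ρ.ch_NNF (run σ.tw B (Ins.tw p t :: L) Z)) (fun μ => congrFun h1 μ)
        rw [h2, ih hL'.2 hs.2 hT]
        change _ = colFactor t (decide (p ∈ B)) * _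
        rw [colFactor, if_pos (by simpa using hp)]
      · have h1 : run σ.tw B (Ins.tw p t :: L) Z = run σ.tw B L Z := by
          rw [run, if_neg hp]
        rw [h1, ih hL'.2 hs.2 hT]
        change _ = colFactor t (decide (p ∈ B)) * _
        rw [colFactor, if_neg (by simpa using hp), one_mul]

end run

section words

variable {τ : Type*} [DecidableEq τ]

/-- the character of a marked word -/
def chi (v : τ → ℕ) (g : τ → Bool) (B : τ → Bool) (L : List τ) : Pol :=
  evalProg B (prog v g (fun _ => 0) L) 1

theorem chi_nil (v : τ → ℕ) (g : τ → Bool) (B : τ → Bool) : chi v g B [] = 1 := by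
  unfold chi
  rw [prog_nil]
  rfl

/-- the smallest letter recursion -/
theorem chi_smallRec (v : τ → ℕ) (g : τ → Bool) (B : τ → Bool) : SmallRec v g B (chi v g B) := by
  intro α a β hα hβ
  unfold chi
  rw [prog_rec v g (fun _ => 0) α β a hα hβ]
  change colFactor (α.countP g - 0) (B a) * evalProg B _ 1 = _
  rw [Nat.sub_zero]
  have h1 : gcount g α = α.countP g := rfl
  have h2 : gcount g β = β.countP g := rfl
  rw [h1, h2, evalProg_append]
  congr 1
  by_cases hg : g a = true
  · rw [if_pos hg, if_pos hg, evalProg_range]
  · rw [if_neg hg, if_neg hg]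
    rfl

/-- the operators of a program of a word with at most `m` moving letters -/
theorem prog_TOK (m : ℕ) (v : τ → ℕ) (g : τ → Bool) (adj : τ → ℕ) (L : List τ) (hL : L.Nodup)
    (hv : ∀ x ∈ L, ∀ y ∈ L, v x = v y → x = y) (hm : L.countP g ≤ m) :
    TOK m (prog v g adj L) := by
  induction hk : L.length generalizing L with
  | zero =>
    have : L = [] := List.length_eq_zero_iff.1 hk
    subst this
    rw [prog_nil]
    trivial
  | succ k ih =>
    have h0 : L ≠ [] := by
      rintro rfl
      simp at hk
    obtain ⟨α, β, a, rfl, hα, hβ⟩ := exists_min v L hL hv h0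
    rw [prog_rec v g adj α β a hα hβ]
    have hL' : (α ++ β).Nodup := (List.nodup_cons.1 (List.nodup_middle.1 hL)).2
    have hc : (α ++ a :: β).countP g = α.countP g + β.countP g + if g a then 1 else 0 := by
      rw [List.countP_append, List.countP_cons, add_assoc]
    have hc' : (α ++ β).countP g = α.countP g + β.countP g := List.countP_append
    have h1 := ih (α ++ β) hL' (by
      intro x hx y hy
      apply hv
      · rcases List.mem_append.1 hx with h | h
        · exact List.mem_append_left _ h
        · exact List.mem_append_right _ (List.mem_cons_of_mem _ h)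
      · rcases List.mem_append.1 hy with h | h
        · exact List.mem_append_left _ h
        · exact List.mem_append_right _ (List.mem_cons_of_mem _ h)) (by omega) (by
      simp only [List.length_append, List.length_cons] at hk ⊢
      omega)
    change TOK m (_ ++ _)
    apply TOK_append _ h1
    by_cases hg : g a = true
    · rw [if_pos hg]
      apply TOK_range
      rw [if_pos hg] at hc
      omega
    · rw [if_neg hg]
      trivial

theorem prog_SizeOK (m : ℕ) (v : τ → ℕ) (g : τ → Bool) (adj : τ → ℕ) (L : List τ) (hL : L.Nodup)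
    (hv : ∀ x ∈ L, ∀ y ∈ L, v x = v y → x = y) (hm : L.countP g ≤ m) :
    SizeOK m (prog v g adj L) := by
  have happ : ∀ L₁ L₂ : List (Ins τ), SizeOK m L₁ → SizeOK m L₂ → SizeOK m (L₁ ++ L₂) := by
    intro L₁ L₂ h1 h2
    induction L₁ with
    | nil => exact h2
    | cons i L₁ ih =>
      cases i with
      | T c => exact ih h1
      | tw p t => exact ⟨h1.1, ih h1.2⟩
  have hT : ∀ (l : List ℕ) (t : ℕ), SizeOK m (l.map (fun i => (Ins.T (t + i) : Ins τ))) := by
    intro l t
    induction l with
    | nil => trivial
    | cons i l ih => exact ih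
  induction hk : L.length generalizing L with
  | zero =>
    have : L = [] := List.length_eq_zero_iff.1 hk
    subst this
    rw [prog_nil]
    trivial
  | succ k ih =>
    have h0 : L ≠ [] := by
      rintro rfl
      simp at hk
    obtain ⟨α, β, a, rfl, hα, hβ⟩ := exists_min v L hL hv h0
    rw [prog_rec v g adj α β a hα hβ]
    have hL' : (α ++ β).Nodup := (List.nodup_cons.1 (List.nodup_middle.1 hL)).2
    have hc : (α ++ a :: β).countP g = α.countP g + β.countP g + if g a then 1 else 0 := by
      rw [List.countP_append, List.countP_cons, add_assoc]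
    have hc' : (α ++ β).countP g = α.countP g + β.countP g := List.countP_append
    have h1 := ih (α ++ β) hL' (by
      intro x hx y hy
      apply hv
      · rcases List.mem_append.1 hx with h | h
        · exact List.mem_append_left _ h
        · exact List.mem_append_right _ (List.mem_cons_of_mem _ h)
      · rcases List.mem_append.1 hy with h | h
        · exact List.mem_append_left _ h
        · exact List.mem_append_right _ (List.mem_cons_of_mem _ h)) (by omega) (by
      simp only [List.length_append, List.length_cons] at hk ⊢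
      omega)
    refine ⟨by omega, happ _ _ ?_ h1⟩
    by_cases hg : g a = true
    · rw [if_pos hg]
      exact hT _ _
    · rw [if_neg hg]
      trivial

end words

/-! ### the Fock space -/

section fock

variable {B P : Type} [Fintype B] [DecidableEq B] [Fintype P] [DecidableEq P] {m : ℕ}
  (s : SlotData B P m)

lemma vac_line_map (μ : Wt m) :
    (Submodule.span ℂ {(Kost.vac : Kost.Fock B)}).map ((fockRep s).π μ) =
      if μ = 0 then Submodule.span ℂ {(Kost.vac : Kost.Fock B)} else ⊥ := by
  have h1 : (fockRep s).π μ (Kost.vac : Kost.Fock B) = if s.deg ∅ = μ then Kost.ee ∅ else 0 :=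
    dia_ee _ _
  have h2 : s.deg ∅ = 0 := by
    funext i
    simp [SlotData.deg]
  rw [Submodule.map_span, Set.image_singleton, h1, h2]
  by_cases h : μ = 0
  · rw [if_pos h.symm, if_pos h]
    rfl
  · rw [if_neg (fun h' => h h'.symm), if_neg h, Submodule.span_zero_singleton]

lemma ch_vac : (fockRep s).ch (Submodule.span ℂ {(Kost.vac : Kost.Fock B)}) =
    fun μ => if μ = 0 then 1 else 0 := by
  funext μ
  unfold GLRep.ch GLRep.wd
  rw [vac_line_map]
  by_cases h : μ = 0
  · rw [if_pos h, if_pos h, show finrank ℂ (Submodule.span ℂ {(Kost.vac : Kost.Fock B)}) = 1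
      from finrank_span_singleton (Kost.ee_ne_zero ∅)]
    rfl
  · rw [if_neg h, if_neg h, finrank_bot]
    rfl

lemma toPol_ch_vac :
    toPol ((fockRep s).ch (Submodule.span ℂ {(Kost.vac : Kost.Fock B)})) = 1 := by
  have hI : InV m (1 : Pol) := by
    intro ν hν i _
    rw [MvPolynomial.coeff_one] at hν
    split_ifs at hν with h
    · rw [← h]; rfl
    · exact absurd rfl hν
  rw [toPol_eq_iff ((fockRep s).ch_NNF _) hI, ch_vac]
  funext μ
  by_cases hμ : ∀ i, 0 ≤ μ i
  · rw [cf_of_nonneg _ hμ, MvPolynomial.coeff_one]
    have h1 : (0 : ℕ →₀ ℕ) = expo μ ↔ μ = 0 := by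
      constructor
      · intro h
        funext i
        have h2 := DFunLike.congr_fun h (i : ℕ)
        rw [expo_apply, dif_pos i.2] at h2
        have h3 : (0 : ℕ) = (μ i).toNat := h2
        have h4 := hμ i
        show μ i = 0
        omega
      · rintro rfl
        ext i
        rw [expo_apply]
        split_ifs <;> rfl
    simp only [h1]
  · rw [cf_of_neg _ hμ, if_neg]
    rintro rfl
    exact hμ (fun i => le_rfl)

/-- the character of the run of the program of a word in the Fock space -/
theorem toPol_fock_run (C : Finset P) (v : P → ℕ) (g : P → Bool) (L : List P) (hL : L.Nodup)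
    (hv : ∀ x ∈ L, ∀ y ∈ L, v x = v y → x = y) (hm : L.countP g ≤ m) :
    toPol ((fockRep s).ch (run (fockTw s) C (prog v g (fun _ => 0) L)
      (Submodule.span ℂ {(Kost.vac : Kost.Fock B)}))) = chi v g (fun p => decide (p ∈ C)) L := by
  have h := toPol_run (fockSlots s (fun _ => 0)) (fock_start s (fun _ => 0)) C
    (prog v g (fun _ => 0) L) ((prog_slotsOf v g _ L hL hv).nodup_iff.2 hL)
    (prog_SizeOK m v g _ L hL hv hm) (prog_TOK m v g _ L hL hv hm)
  rw [toPol_ch_vac] at h
  exact h

end fock

end

end Gao
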