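import Pool.Agent.Gao.LinkW
import Pool.Agent.Gao.ProgChar

/-!
# `LinkF`: `dim M(w; S, S) = F (w restricted to S)`
-/

set_option autoImplicit false

namespace Gao

open Finset Module Pool.Agent.Gao

theorem linkF : LinkF := by
  intro n w S
  have hQ : S ⊆ (pos w S).map w.toEmbedding := by
    intro x hx
    refine mem_map.2 ⟨w.symm x, mem_map.2 ⟨x, hx, rfl⟩, by simp⟩
  have h1 := run_progA w S S (pos w S) univ (Finset.Subset.refl S) hQ
  rw [Finset.filter_true_of_mem (fun j _ => mem_univ (w j))] at h1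
  have hnd : (LA w (pos w S)).Nodup := List.Nodup.of_map vA (LA_map_nodup w (pos w S))
  have hv : ∀ x ∈ LA w (pos w S), ∀ y ∈ LA w (pos w S), vA x = vA y → x = y :=
    fun x _ y _ h => Fin.val_injective h
  have hg : ∀ x ∈ LA w (pos w S), decide (x ∈ S) = true := fun x hx =>
    decide_eq_true ((mem_LA_posw w S x).1 hx)
  have hm : (LA w (pos w S)).countP (fun x => decide (x ∈ S)) ≤ (posS w S).card := by
    refine le_trans List.countP_le_length (le_of_eq ?_)
    unfold LA
    rw [List.length_map, Finset.length_sort]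
    rfl
  have h2 := toPol_fock_run (dataA w S S) (univ : Finset (Fin n)) vA (fun x => decide (x ∈ S))
    (LA w (pos w S)) hnd hv hm
  have hgood := good_run (fockSlots (dataA w S S) (fun _ => 0)) (fock_start (dataA w S S) (fun _ => 0))
    (univ : Finset (Fin n)) (progA w S (pos w S))
    ((prog_slotsOf vA _ _ _ hnd hv).nodup_iff.2 hnd) (prog_SizeOK _ vA _ _ _ hnd hv hm)
  have h3 := finrank_eq_ev1 (fockRep (dataA w S S)) hgood.1.st
  have h4 : run (fockSlots (dataA w S S) (fun _ => 0)).tw (univ : Finset (Fin n)) (progA w S (pos w S))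
      (Submodule.span ℂ {(Kost.vac : Fk n)}) = Mmod w S S (pos w S) := h1
  rw [h4] at h3
  have h5 : run (fockTw (dataA w S S)) univ (prog vA (fun x => decide (x ∈ S)) (fun _ => 0) (LA w (pos w S)))
      (Submodule.span ℂ {(Kost.vac : Fk n)}) = Mmod w S S (pos w S) := h1
  rw [h5] at h2
  rw [h3, h2, ← LA_pos w S]
  exact ev1_word (chi_smallRec _ _ _) (chi_nil _ _ _) _ (LA w (pos w S)) rfl (LA_map_nodup w (pos w S)) hg
    (fun x _ => decide_eq_true (mem_univ x))

end Gao
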