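import Pool.Agent.Gao.DemSeq


/-!
# Divided differences of word characters and the Euler identity at `x = 1`

For a word character `χ` with the smallest letter recursion `SmallRec` (all letters moving, all with a
column) and `χ [] = 1`:

* `dd_word`: at a descent `.. a b ..` at place `k`, `dd k (χ (.. a b ..)) = χ (.. b a ..)`, at an ascent it
  is `0`; `sw p (χ x) = χ x` for `p + 1 ≥ length`.
* `Eu` is the Euler derivation; `Eu (χ x) = inv x * χ x`.
* `eval_Eu`: `eval 1 (Eu f) = ∑_{k<N} (k+1) * eval 1 (dd k f)` for `N` large.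
-/

set_option autoImplicit false

namespace Pool.Agent.Gao

open MvPolynomial

/-- evaluation at `x = 1` -/
noncomputable def ev1 : Pol →ₐ[ℤ] ℤ := aeval (fun _ => (1 : ℤ))

@[simp] lemma ev1_X (i : ℕ) : ev1 (X i) = 1 := by simp [ev1]

/-- the Euler derivation -/
noncomputable def Eu : Derivation ℤ Pol Pol := mkDerivation ℤ (fun i => X i)

@[simp] lemma Eu_X (i : ℕ) : Eu (X i) = X i := mkDerivation_X _ _ _

@[simp] lemma Eu_one : Eu (1 : Pol) = 0 := Derivation.map_one_eq_zero _

lemma Eu_mul (f g : Pol) : Eu (f * g) = f * Eu g + g * Eu f := by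
  rw [Derivation.leibniz]; rfl

lemma Eu_sw (c : ℕ) (f : Pol) : Eu (sw c f) = sw c (Eu f) := by
  induction f using MvPolynomial.induction_on with
  | C a =>
    have h1 : sw c (C a) = C a := by simp [sw]
    rw [h1]
    have h2 : Eu (C a) = 0 := Derivation.map_algebraMap Eu a
    rw [h2, map_zero]
  | add f g hf hg => rw [map_add, map_add, map_add, map_add, hf, hg]
  | mul_X f i hf =>
    rw [map_mul, Eu_mul, Eu_mul, map_add, map_mul, map_mul, hf, sw_X, Eu_X, Eu_X, sw_X]

lemma Eu_dd (c : ℕ) (f : Pol) : Eu (dd c f) = dd c (Eu f) - dd c f := by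
  have h : dd c (Eu f) = dd c f + Eu (dd c f) := by
    apply dd_unique
    have h1 := congrArg Eu (dd_spec c f)
    rw [Eu_mul, map_sub, map_sub, Eu_X, Eu_X, Eu_sw] at h1
    linear_combination h1
  rw [h]; ring

lemma Eu_dem (c : ℕ) (f : Pol) : Eu (dem c f) = dem c (Eu f) := by
  rw [dem_def, dem_def, Eu_dd, Eu_mul, Eu_X, map_add]
  rw [mul_comm f (X c)]
  ring

lemma Eu_demSeq (t k : ℕ) (f : Pol) : Eu (demSeq t k f) = demSeq t k (Eu f) :=
  demSeq_comm (A := fun g => Eu g) t k (fun i _ _ g => Eu_dem i g) f

lemma Eu_omegaP (t : ℕ) : Eu (omegaP t) = (t : ℤ) • omegaP t := by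
  induction t with
  | zero => simp
  | succ t ih =>
    rw [omegaP_succ, Eu_mul, ih, Eu_X]
    simp only [zsmul_eq_mul]
    push_cast
    ring

/-- `∂/∂x_k` at `x = 1` -/
noncomputable def dl (k : ℕ) (f : Pol) : ℤ := ev1 (pderiv k f)

lemma ev1_dd (k : ℕ) (f : Pol) : ev1 (dd k f) = dl k f - dl (k + 1) f := by
  have h : ev1 (pderiv k ((X k - X (k + 1)) * dd k f)) = ev1 (pderiv k (f - sw k f)) := by
    rw [dd_spec k f]
  rw [Derivation.leibniz] at h
  simp only [smul_eq_mul, map_add, map_mul, map_sub, ev1_X, sub_self, zero_mul, zero_add,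
    pderiv_X_self] at h
  have h2 : pderiv k (X (k + 1) : Pol) = 0 := pderiv_X_of_ne (by omega)
  have h3 : pderiv k (sw k f) = sw k (pderiv (k + 1) f) := by
    have := pderiv_rename (R := ℤ) (Equiv.injective (Equiv.swap k (k + 1))) (k + 1) f
    rw [Equiv.swap_apply_right] at this
    exact this
  have h4 : ∀ g : Pol, ev1 (sw k g) = ev1 g := by
    intro g
    simp only [ev1, sw]
    rw [aeval_rename]
    rfl
  rw [h2, h3, h4, map_one, map_zero, sub_zero, mul_one] at h
  exact h

lemma ev1_Eu (f : Pol) : ∃ N₀ : ℕ, ∀ N, N₀ ≤ N → ev1 (Eu f) = ∑ k ∈ Finset.range N, dl k f := by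
  induction f using MvPolynomial.induction_on with
  | C a =>
    refine ⟨0, fun N _ => ?_⟩
    have h2 : Eu (C a) = 0 := Derivation.map_algebraMap Eu a
    rw [h2, map_zero]
    symm
    apply Finset.sum_eq_zero
    intro k _
    simp [dl]
  | add f g hf hg =>
    obtain ⟨N₁, h₁⟩ := hf
    obtain ⟨N₂, h₂⟩ := hg
    refine ⟨max N₁ N₂, fun N hN => ?_⟩
    rw [map_add, map_add, h₁ N (le_trans (le_max_left _ _) hN), h₂ N (le_trans (le_max_right _ _) hN),
      ← Finset.sum_add_distrib]
    apply Finset.sum_congr rfl
    intro k _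
    simp [dl]
  | mul_X f i hf =>
    obtain ⟨N₁, h₁⟩ := hf
    refine ⟨max N₁ (i + 1), fun N hN => ?_⟩
    rw [Eu_mul, map_add, map_mul, map_mul, Eu_X, ev1_X, mul_one, one_mul,
      h₁ N (le_trans (le_max_left _ _) hN)]
    have hi : i ∈ Finset.range N := Finset.mem_range.2 (lt_of_lt_of_le (Nat.lt_succ_self i)
      (le_trans (le_max_right _ _) hN))
    have : ∀ k, dl k (f * X i) = dl k f + (if k = i then ev1 f else 0) := by
      intro k
      unfold dl
      rw [Derivation.leibniz]
      simp only [smul_eq_mul, map_add, map_mul, ev1_X, one_mul]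
      by_cases hk : k = i
      · subst hk
        rw [pderiv_X_self, map_one, if_pos rfl]; ring
      · rw [pderiv_X_of_ne (Ne.symm hk), map_zero, if_neg hk]; ring
    simp only [this]
    rw [Finset.sum_add_distrib, Finset.sum_ite_eq' , if_pos hi]
    ring

/-- Euler identity at `x = 1` in terms of divided differences -/
theorem ev1_Eu_dd (f : Pol) : ∃ N₀ : ℕ, ∀ N, N₀ ≤ N →
    ev1 (Eu f) = ∑ k ∈ Finset.range N, ((k + 1 : ℕ) : ℤ) * ev1 (dd k f) := by
  obtain ⟨N₀, h⟩ := ev1_Eu f
  refine ⟨N₀, fun N hN => ?_⟩
  have h0 : dl N f = 0 := by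
    have h1 := h N hN
    have h2 := h (N + 1) (by omega)
    rw [Finset.sum_range_succ] at h2
    linarith
  have h1 : ∀ M : ℕ, ∑ k ∈ Finset.range M, ((k + 1 : ℕ) : ℤ) * ev1 (dd k f) =
      ∑ k ∈ Finset.range M, dl k f - (M : ℤ) * dl M f := by
    intro M
    induction M with
    | zero => simp
    | succ M ih =>
      rw [Finset.sum_range_succ, Finset.sum_range_succ, ih, ev1_dd]
      push_cast
      ring
  rw [h1 N, h0, mul_zero, sub_zero]
  exact h N hN

section words

variable {τ : Type*} {v : τ → ℕ} {g c : τ → Bool} {χ : List τ → Pol}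

/-- the word character does not involve `x_p`, `p + 1 ≥ length` -/
lemma sw_word (hχ : SmallRec v g c χ) (h0 : χ [] = 1) : ∀ (n : ℕ) (x : List τ), x.length = n →
    x.Pairwise (fun a b => v a ≠ v b) → (∀ a ∈ x, g a = true) → (∀ a ∈ x, c a = true) →
    ∀ p, n ≤ p + 1 → sw p (χ x) = χ x := by
  intro n
  induction n with
  | zero =>
    intro x hx _ _ _ p _
    rw [List.length_eq_zero_iff.1 hx, h0, map_one]
  | succ n ih =>
    intro x hx hnd hg hc p hp
    have hne : x ≠ [] := by
      intro h; rw [h] at hx; simp at hx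
    obtain ⟨s, hs, hmin⟩ := exists_min_letter v x hne
    obtain ⟨α, β, rfl⟩ := List.append_of_mem hs
    rw [List.pairwise_append, List.pairwise_cons] at hnd
    obtain ⟨h1, ⟨h2, h3⟩, h4⟩ := hnd
    have hα : ∀ b ∈ α, v s < v b := by
      intro b hb
      have := hmin b (by simp [hb])
      have := h4 b hb s (by simp)
      omega
    have hβ : ∀ b ∈ β, v s < v b := by
      intro b hb
      have := hmin b (by simp [hb])
      have := h2 b hb
      omega
    have hlen : (α ++ β).length = n := by
      rw [List.length_append, List.length_cons] at hx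
      rw [List.length_append]; omega
    have hg1 : ∀ a ∈ α ++ β, g a = true := fun a ha => hg a (by
      simp only [List.mem_append, List.mem_cons] at ha ⊢; tauto)
    have hc1 : ∀ a ∈ α ++ β, c a = true := fun a ha => hc a (by
      simp only [List.mem_append, List.mem_cons] at ha ⊢; tauto)
    have hnd' : (α ++ β).Pairwise (fun a b => v a ≠ v b) := by
      rw [List.pairwise_append]
      exact ⟨h1, h3, fun a ha b hb => h4 a ha b (by simp [hb])⟩
    have ih' := ih (α ++ β) hlen hnd' hg1 hc1
    rw [hχ α s β hα hβ, hg s hs, hc s hs]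
    simp only [colFactor, if_true]
    rw [gcount_eq_length (fun a ha => hg1 a (by simp [ha])),
      gcount_eq_length (l := β) (fun a ha => hg1 a (by simp [ha]))]
    rw [List.length_append] at hlen
    rw [map_mul, sw_omegaP (Or.inl (by omega))]
    congr 1
    rcases Nat.eq_zero_or_pos β.length with hb | hb
    · rw [hb, demSeq_zero]
      exact ih' p (by omega)
    · obtain ⟨k, hk⟩ : ∃ k, β.length = k + 1 := ⟨β.length - 1, by omega⟩
      rw [hk, demSeq_add, demSeq_succ, demSeq_zero,
        dem_eq_self (ih' (α.length + k) (by omega))]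
      rw [demSeq_comm (A := sw p) α.length k, ih' p (by omega)]
      intro i h5 h6 f
      exact sw_dem_comm' (by omega) f

/-- divided differences of a word character -/
theorem dd_word (hχ : SmallRec v g c χ) : ∀ (n : ℕ) (α β : List τ) (a b : τ),
    (α ++ β).length = n → (α ++ a :: b :: β).Pairwise (fun x y => v x ≠ v y) →
    (∀ x ∈ α ++ a :: b :: β, g x = true) → (∀ x ∈ α ++ a :: b :: β, c x = true) →
    dd α.length (χ (α ++ a :: b :: β)) = if v b < v a then χ (α ++ b :: a :: β) else 0 := by
  intro n
  induction n using Nat.strong_induction_on with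
  | _ n ih =>
  intro α β a b hn hnd hg hc
  obtain ⟨s, hs, hmin⟩ := exists_min_letter v (α ++ a :: b :: β) (by simp)
  have hgs : g s = true := hg s hs
  have hcs : c s = true := hc s hs
  have hs' := hs
  simp only [List.mem_append, List.mem_cons] at hs'
  have hpw := hnd
  rw [List.pairwise_append, List.pairwise_cons, List.pairwise_cons] at hpw
  obtain ⟨q1, ⟨q2, q3, q4⟩, q5⟩ := hpw
  rcases hs' with h | h | h | h
  · -- the smallest letter is in `α`
    obtain ⟨α₁, α₂, rfl⟩ := List.append_of_mem h
    have hpw := hnd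
    rw [List.append_assoc, List.cons_append] at hpw
    rw [List.pairwise_append, List.pairwise_cons] at hpw
    obtain ⟨h1, ⟨h2, h3⟩, h4⟩ := hpw
    have hlt : ∀ x ∈ α₁ ++ (α₂ ++ a :: b :: β), v s < v x := by
      intro x hx
      have hle : v s ≤ v x := hmin x (by
        simp only [List.mem_append, List.mem_cons] at hx ⊢
        tauto)
      have hne : v s ≠ v x := by
        rcases List.mem_append.1 hx with hx | hx
        · exact (h4 x hx s (by simp)).symm
        · exact h2 x hx
      omega
    have e1 := hχ α₁ s (α₂ ++ a :: b :: β) (fun x hx => hlt x (by simp [hx]))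
      (fun x hx => hlt x (List.mem_append_right _ hx))
    have e2 := hχ α₁ s (α₂ ++ b :: a :: β) (fun x hx => hlt x (by simp [hx])) (by
      intro x hx
      apply hlt x
      simp only [List.mem_append, List.mem_cons] at hx ⊢
      tauto)
    rw [hgs, hcs] at e1 e2
    simp only [colFactor, if_true] at e1 e2
    have g1 : gcount g α₁ = α₁.length := gcount_eq_length (fun x hx => hg x (by simp [hx]))
    have g2 : gcount g (α₂ ++ a :: b :: β) = α₂.length + (β.length + 2) := by
      rw [gcount_eq_length (fun x hx => hg x (by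
        simp only [List.mem_append, List.mem_cons] at hx ⊢; tauto))]
      simp
    have g3 : gcount g (α₂ ++ b :: a :: β) = α₂.length + (β.length + 2) := by
      rw [gcount_eq_length (fun x hx => hg x (by
        simp only [List.mem_append, List.mem_cons] at hx ⊢; tauto))]
      simp
    rw [g1, g2] at e1
    rw [g1, g3] at e2
    have e3 : α₁ ++ s :: α₂ ++ a :: b :: β = α₁ ++ s :: (α₂ ++ a :: b :: β) := by simp
    have e4 : α₁ ++ s :: α₂ ++ b :: a :: β = α₁ ++ s :: (α₂ ++ b :: a :: β) := by simp
    have e5 : (α₁ ++ s :: α₂).length = (α₁ ++ α₂).length + 1 := by simp; omega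
    rw [e3, e4, e5, e1, e2, List.length_append]
    rw [dd_mul_of_sw (sw_omegaP (Or.inl (by omega)))]
    rw [dd_demSeq (by omega) (by omega)]
    have e6 := ih (α₁ ++ α₂ ++ β).length (by rw [← hn]; simp) (α₁ ++ α₂) β a b rfl (by
        rw [List.append_assoc, List.pairwise_append]
        exact ⟨h1, h3, fun x hx y hy => h4 x hx y (by
          simp only [List.mem_append, List.mem_cons] at hy ⊢
          tauto)⟩) (fun x hx => hg x (by
          simp only [List.mem_append, List.mem_cons] at hx ⊢; tauto)) (fun x hx => hc x (by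
          simp only [List.mem_append, List.mem_cons] at hx ⊢; tauto))
    rw [List.length_append, List.append_assoc, List.append_assoc] at e6
    rw [e6]
    split_ifs
    · rfl
    · have : ∀ t k, demSeq t k (0 : Pol) = 0 := by
        intro t k
        induction k generalizing t with
        | zero => rfl
        | succ k ih2 => rw [demSeq_succ, ih2, map_zero]
      rw [this, mul_zero]
  · -- the smallest letter is `a`
    subst h
    have hα : ∀ x ∈ α, v s < v x := by
      intro x hx
      have := hmin x (by simp [hx])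
      have := q5 x hx s (by simp)
      omega
    have hβ : ∀ x ∈ b :: β, v s < v x := by
      intro x hx
      have := hmin x (by simp only [List.mem_append, List.mem_cons] at hx ⊢; tauto)
      have := q2 x hx
      omega
    have hsb : ¬ v b < v s := by
      have := hβ b (by simp)
      omega
    rw [if_neg hsb]
    apply dd_eq_zero
    rw [hχ α s (b :: β) hα hβ, hgs, hcs]
    simp only [colFactor, if_true]
    have g1 : gcount g α = α.length := gcount_eq_length (fun x hx => hg x (by simp [hx]))
    have g2 : gcount g (b :: β) = β.length + 1 := by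
      rw [gcount_eq_length (fun x hx => hg x (by
        simp only [List.mem_append, List.mem_cons] at hx ⊢; tauto))]
      simp
    rw [g1, g2, map_mul, sw_omegaP (Or.inl le_rfl), demSeq_succ, sw_dem]
  · -- the smallest letter is `b`
    subst h
    have hα : ∀ x ∈ α, v s < v x := by
      intro x hx
      have := hmin x (by simp [hx])
      have := q5 x hx s (by simp)
      omega
    have hβ : ∀ x ∈ β, v s < v x := by
      intro x hx
      have := hmin x (by simp [hx])
      have := q3 x hx
      omega
    have hsa : v s < v a := by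
      have := hmin a (by simp)
      have := q2 s (by simp)
      omega
    rw [if_pos hsa]
    have := exchange_small hχ α β s a hgs hcs hα hβ hsa
    rw [if_pos (hg a (by simp)), gcount_eq_length (fun x hx => hg x (by simp [hx]))] at this
    exact this.symm
  · -- the smallest letter is in `β`
    obtain ⟨β₁, β₂, rfl⟩ := List.append_of_mem h
    have hpw := hnd
    have e3 : α ++ a :: b :: (β₁ ++ s :: β₂) = (α ++ a :: b :: β₁) ++ s :: β₂ := by simp
    have e4 : α ++ b :: a :: (β₁ ++ s :: β₂) = (α ++ b :: a :: β₁) ++ s :: β₂ := by simp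
    rw [e3] at hpw
    rw [List.pairwise_append, List.pairwise_cons] at hpw
    obtain ⟨h1, ⟨h2, h3⟩, h4⟩ := hpw
    have hlt : ∀ x ∈ (α ++ a :: b :: β₁) ++ β₂, v s < v x := by
      intro x hx
      have hle : v s ≤ v x := hmin x (by
        simp only [List.mem_append, List.mem_cons] at hx ⊢
        tauto)
      have hne : v s ≠ v x := by
        rcases List.mem_append.1 hx with hx | hx
        · exact (h4 x hx s (by simp)).symm
        · exact h2 x hx
      omega
    have e1 := hχ (α ++ a :: b :: β₁) s β₂ (fun x hx => hlt x (List.mem_append_left _ hx))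
      (fun x hx => hlt x (List.mem_append_right _ hx))
    have e2 := hχ (α ++ b :: a :: β₁) s β₂ (by
      intro x hx
      apply hlt x
      simp only [List.mem_append, List.mem_cons] at hx ⊢
      tauto) (fun x hx => hlt x (List.mem_append_right _ hx))
    rw [hgs, hcs] at e1 e2
    simp only [colFactor, if_true] at e1 e2
    have g1 : gcount g (α ++ a :: b :: β₁) = α.length + (β₁.length + 2) := by
      rw [gcount_eq_length (fun x hx => hg x (by
        simp only [List.mem_append, List.mem_cons] at hx ⊢; tauto))]
      simp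
    have g2 : gcount g (α ++ b :: a :: β₁) = α.length + (β₁.length + 2) := by
      rw [gcount_eq_length (fun x hx => hg x (by
        simp only [List.mem_append, List.mem_cons] at hx ⊢; tauto))]
      simp
    rw [g1] at e1
    rw [g2] at e2
    rw [e3, e4, e1, e2]
    rw [dd_mul_of_sw (sw_omegaP (Or.inr (by omega)))]
    rw [dd_demSeq_far (by omega)]
    have e6 := ih (α ++ (β₁ ++ β₂)).length (by rw [← hn]; simp) α (β₁ ++ β₂) a b rfl (by
        have : α ++ a :: b :: (β₁ ++ β₂) = (α ++ a :: b :: β₁) ++ β₂ := by simp
        rw [this, List.pairwise_append]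
        exact ⟨h1, h3, fun x hx y hy => h4 x hx y (by simp [hy])⟩) (fun x hx => hg x (by
          simp only [List.mem_append, List.mem_cons] at hx ⊢; tauto)) (fun x hx => hc x (by
          simp only [List.mem_append, List.mem_cons] at hx ⊢; tauto))
    have e7 : α ++ a :: b :: β₁ ++ β₂ = α ++ a :: b :: (β₁ ++ β₂) := by simp
    have e8 : α ++ b :: a :: β₁ ++ β₂ = α ++ b :: a :: (β₁ ++ β₂) := by simp
    rw [e7, e8, e6]
    split_ifs
    · rfl
    · have : ∀ t k, demSeq t k (0 : Pol) = 0 := by
        intro t k
        induction k generalizing t with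
        | zero => rfl
        | succ k ih2 => rw [demSeq_succ, ih2, map_zero]
      rw [this, mul_zero]

/-- the Euler derivation of the smallest letter recursion -/
lemma Eu_step (t k : ℕ) (n : ℕ) (f : Pol) (hf : Eu f = (n : ℤ) • f) :
    Eu (omegaP t * demSeq t k f) = ((n + t : ℕ) : ℤ) • (omegaP t * demSeq t k f) := by
  have h : ∀ (t k : ℕ), demSeq t k ((n : ℤ) • f) = (n : ℤ) • demSeq t k f := by
    intro t k
    induction k generalizing t with
    | zero => rfl
    | succ k ih => rw [demSeq_succ, demSeq_succ, ih, map_smul]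
  rw [Eu_mul, Eu_demSeq, hf, h, Eu_omegaP]
  simp only [zsmul_eq_mul]
  push_cast
  ring

lemma demSeq_one (t k : ℕ) : demSeq t k (1 : Pol) = 1 := by
  induction k generalizing t with
  | zero => rfl
  | succ k ih => rw [demSeq_succ, ih, dem_eq_self (map_one _)]

end words

end Pool.Agent.Gao
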