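import Pool.Agent.Gao.LinkF
import Pool.Agent.Gao.DemFun
import Pool.Agent.Gao.GBasic
import Pool.Agent.Gao.GProg
import Pool.Agent.Gao.Main

/-!
# Towards `LinkF`: dimension = value of the character at `x = 1`, and the word of `S`
-/

set_option autoImplicit false

namespace Gao

open Finset Module Pool.Agent.Gao

lemma ev1_toPol {m : ℕ} (f : Chr m) (s : Finset (Wt m)) (h : ∀ μ, μ ∉ s → f μ = 0) :
    ev1 (toPol f) = ∑ μ ∈ s, f μ := by
  classical
  have hfin : f.support.Finite := s.finite_toSet.subset (fun μ hμ => by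
    by_contra hc
    exact hμ (h μ hc))
  unfold toPol
  rw [dif_pos hfin, map_sum]
  have h1 : ∀ μ, ev1 (MvPolynomial.monomial (expo μ) (f μ)) = f μ := by
    intro μ
    unfold ev1
    rw [MvPolynomial.aeval_monomial]
    simp
  simp only [h1]
  apply sum_subset
  · intro μ hμ
    by_contra hc
    rw [Set.Finite.mem_toFinset, Function.mem_support] at hμ
    exact hμ (h μ hc)
  · intro μ _ hμ
    rw [Set.Finite.mem_toFinset, Function.mem_support, not_not] at hμ
    exact hμ

theorem finrank_eq_ev1 {K V : Type*} [Field K] [AddCommGroup V] [Module K V] [FiniteDimensional K V]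
    {m : ℕ} (ρ : GLRep K V m) {Z : Submodule K V} (hZ : ρ.toGrading.Stable Z) :
    (finrank K Z : ℤ) = ev1 (toPol (ρ.ch Z)) := by
  rw [ev1_toPol (ρ.ch Z) ρ.supp (fun μ hμ => ρ.ch_eq_zero Z hμ), ρ.finrank_eq_sum hZ]
  push_cast
  rfl

variable {n : ℕ}

lemma posS_eq_pos (w : Equiv.Perm (Fin n)) (S : Finset (Fin n)) : posS w S = pos w S := rfl

lemma sort_eq_filter (J : Finset (Fin n)) :
    J.sort (· ≤ ·) = (List.finRange n).filter (fun i => decide (i ∈ J)) := by
  apply List.Perm.eq_of_pairwise (le := fun a b : Fin n => a ≤ b)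
  · intro a b _ _ h1 h2
    exact le_antisymm h1 h2
  · exact J.pairwise_sort (· ≤ ·)
  · apply List.Pairwise.filter
    exact (List.pairwise_lt_finRange n).imp (fun h => le_of_lt h)
  · rw [List.perm_ext_iff_of_nodup (J.sort_nodup _) ((List.nodup_finRange n).filter _)]
    intro a
    simp

/-- the word of the letters of `S`, in terms of `wd w` -/
theorem LA_pos (w : Equiv.Perm (Fin n)) (S : Finset (Fin n)) :
    (LA w (pos w S)).map vA = (wd w).filter (· ∈ lets S) := by
  unfold LA
  rw [sort_eq_filter, List.map_map]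
  unfold wd
  rw [List.ofFn_eq_map, List.filter_map]
  have : ∀ i, (decide (i ∈ pos w S)) = ((fun a : ℕ => decide (a ∈ lets S)) ∘ fun i => ((w i : Fin n) : ℕ)) i := by
    intro i
    simp only [Function.comp]
    congr 1
    simp only [pos, lets, mem_map, Equiv.coe_toEmbedding, Fin.valEmbedding_apply, eq_iff_iff]
    constructor
    · rintro ⟨a, ha, rfl⟩
      exact ⟨a, ha, by simp⟩
    · rintro ⟨a, ha, h⟩
      refine ⟨a, ha, ?_⟩
      have : a = w i := Fin.val_injective h
      rw [this]; simp
  rw [List.filter_congr (fun i _ => this i)]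
  rfl

lemma LA_map_nodup (w : Equiv.Perm (Fin n)) (J : Finset (Fin n)) : ((LA w J).map vA).Nodup := by
  unfold LA
  rw [List.map_map]
  apply List.Nodup.map _ (J.sort_nodup _)
  intro a b h
  exact w.injective (Fin.val_injective h)

lemma mem_LA_posw (w : Equiv.Perm (Fin n)) (S : Finset (Fin n)) (x : Fin n) :
    x ∈ LA w (pos w S) ↔ x ∈ S := by
  unfold LA
  rw [List.mem_map]
  constructor
  · rintro ⟨i, hi, rfl⟩
    rw [Finset.mem_sort] at hi
    obtain ⟨a, ha, h⟩ := mem_map.1 hi
    have : i = w.symm a := h.symm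
    rw [this]; simpa using ha
  · intro hx
    refine ⟨w.symm x, ?_, by simp⟩
    rw [Finset.mem_sort]
    exact mem_map.2 ⟨x, hx, rfl⟩

end Gao
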