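import Pool.Agent.Gao.Base

/-!
# Macdonald's sum over reduced words is `ℓ! *` the first-row number
-/

set_option autoImplicit false

namespace Pool.Agent.Gao

open Equiv Finset

/-- the `i`-th term (0-indexed) of the sum over descents -/
def tm : List ℕ → ℕ → Fun → ℤ
  | [], _, _ => 0
  | a :: l, 0, φ => u0 φ (a :: l)
  | a :: l, i + 1, φ => tm l i (fun y => φ (a :: y))

@[simp] lemma tm_nil (i : ℕ) (φ : Fun) : tm [] i φ = 0 := rfl
@[simp] lemma tm_zero (a : ℕ) (l : List ℕ) (φ : Fun) : tm (a :: l) 0 φ = u0 φ (a :: l) := rfl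
@[simp] lemma tm_succ (a : ℕ) (l : List ℕ) (i : ℕ) (φ : Fun) :
    tm (a :: l) (i + 1) φ = tm l i (fun y => φ (a :: y)) := rfl

lemma U_eq_sum (x : List ℕ) : ∀ φ : Fun, U x φ = ∑ i ∈ range x.length, tm x i φ := by
  induction x with
  | nil => intro φ; simp
  | cons a l ih =>
    intro φ
    rw [List.length_cons, sum_range_succ', U_cons, ih]
    simp only [tm_succ, tm_zero]
    ring

lemma X_eq_sum (x : List ℕ) : ∀ φ : Fun,
    X x φ = ∑ i ∈ range x.length, ((i + 1 : ℕ) : ℤ) * tm x i φ := by
  induction x with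
  | nil => intro φ; simp
  | cons a l ih =>
    intro φ
    rw [List.length_cons, sum_range_succ', X_cons, ih, U_eq_sum]
    simp only [tm_succ, tm_zero]
    have : ∑ i ∈ range l.length, ((i + 1 + 1 : ℕ) : ℤ) * tm l i (fun y => φ (a :: y)) =
        (∑ i ∈ range l.length, ((i + 1 : ℕ) : ℤ) * tm l i (fun y => φ (a :: y))) +
        ∑ i ∈ range l.length, tm l i (fun y => φ (a :: y)) := by
      rw [← sum_add_distrib]
      apply sum_congr rfl
      intro i _
      push_cast; ring
    rw [this]
    push_cast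
    ring

lemma tm_ofFn : ∀ (i m : ℕ) (f : Fin m → ℕ) (φ : Fun),
    tm (List.ofFn f) i φ = if h : i + 1 < m then
      (if f ⟨i + 1, h⟩ < f ⟨i, by omega⟩ then
        φ (List.ofFn (f ∘ swap (⟨i, by omega⟩ : Fin m) ⟨i + 1, h⟩)) else 0) else 0 := by
  intro i
  induction i with
  | zero =>
    intro m f φ
    rcases m with _ | _ | m
    · simp
    · simp [List.ofFn_succ]
    · have h : 0 + 1 < m + 2 := by omega
      rw [dif_pos h]
      rw [List.ofFn_succ, List.ofFn_succ, tm_zero, u0_cons]
      have e0 : (⟨0, by omega⟩ : Fin (m+2)) = 0 := rfl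
      have e1 : (⟨0 + 1, h⟩ : Fin (m+2)) = Fin.succ 0 := rfl
      rw [e0, e1]
      have : List.ofFn (f ∘ swap (0 : Fin (m+2)) (Fin.succ 0)) =
          f (Fin.succ 0) :: f 0 :: List.ofFn (fun i : Fin m => f i.succ.succ) := by
        rw [List.ofFn_succ, List.ofFn_succ]
        refine congrArg₂ List.cons ?_ (congrArg₂ List.cons ?_ (congrArg List.ofFn ?_))
        · simp
        · simp
        · funext j
          simp only [Function.comp]
          rw [swap_apply_of_ne_of_ne]
          · exact Fin.succ_ne_zero _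
          · intro h; exact Fin.succ_ne_zero _ (Fin.succ_injective _ h)
      rw [this]
  | succ i ih =>
    intro m f φ
    rcases m with _ | m
    · simp
    · rw [List.ofFn_succ, tm_succ, ih m (fun j => f j.succ)]
      by_cases h : i + 1 < m
      · have h' : i + 1 + 1 < m + 1 := by omega
        rw [dif_pos h, dif_pos h']
        have : List.ofFn (f ∘ swap (⟨i + 1, by omega⟩ : Fin (m+1)) ⟨i + 1 + 1, h'⟩) =
          f 0 :: List.ofFn ((fun j : Fin m => f j.succ) ∘ swap (⟨i, by omega⟩ : Fin m) ⟨i + 1, h⟩) := by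
          rw [List.ofFn_succ]
          refine congrArg₂ List.cons ?_ (congrArg List.ofFn ?_)
          · simp only [Function.comp]
            rw [swap_apply_of_ne_of_ne]
            · intro h; have := congrArg Fin.val h; simp at this
            · intro h; have := congrArg Fin.val h; simp at this
          · funext j
            have := (Fin.succ_injective m).swap_apply ⟨i, by omega⟩ ⟨i+1, h⟩ j
            exact congrArg f this
        rw [this]
        rfl
      · have h' : ¬ i + 1 + 1 < m + 1 := by omega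
        rw [dif_neg h, dif_neg h']

/-- the word of a permutation -/
def wd {m : ℕ} (w : Perm (Fin m)) : List ℕ := List.ofFn (fun i => (w i : ℕ))

@[simp] lemma wd_length {m : ℕ} (w : Perm (Fin m)) : (wd w).length = m := by simp [wd]

lemma X_wd {m : ℕ} (w : Perm (Fin m)) (φ : Fun) :
    X (wd w) φ = ∑ p ∈ (univ : Finset (Fin m × Fin m)).filter (fun p => p.2.val = p.1.val + 1),
      ((p.1.val + 1 : ℕ) : ℤ) * (if w p.2 < w p.1 then φ (wd (w * swap p.1 p.2)) else 0) := by
  rw [X_eq_sum, wd_length]
  have key : ∀ i ∈ range m, ((i + 1 : ℕ) : ℤ) * tm (wd w) i φ =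
      ∑ p ∈ ((univ : Finset (Fin m × Fin m)).filter (fun p => p.2.val = p.1.val + 1)).filter
        (fun p => p.1.val = i),
        ((p.1.val + 1 : ℕ) : ℤ) * (if w p.2 < w p.1 then φ (wd (w * swap p.1 p.2)) else 0) := by
    intro i hi
    rw [mem_range] at hi
    rw [wd, tm_ofFn]
    by_cases h : i + 1 < m
    · rw [dif_pos h]
      have : ((univ : Finset (Fin m × Fin m)).filter (fun p => p.2.val = p.1.val + 1)).filter
        (fun p => p.1.val = i) = {(⟨i, by omega⟩, ⟨i+1, h⟩)} := by
        ext ⟨p, q⟩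
        simp only [mem_filter, mem_univ, true_and, mem_singleton, Prod.mk.injEq, Fin.ext_iff]
        constructor
        · rintro ⟨h1, h2⟩; exact ⟨h2, by omega⟩
        · rintro ⟨h1, h2⟩; exact ⟨by omega, h1⟩
      rw [this, sum_singleton]
      rfl
    · rw [dif_neg h]
      have : ((univ : Finset (Fin m × Fin m)).filter (fun p => p.2.val = p.1.val + 1)).filter
        (fun p => p.1.val = i) = ∅ := by
        ext ⟨p, q⟩
        simp only [mem_filter, mem_univ, true_and, notMem_empty, iff_false, not_and]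
        intro h1 h2
        have := q.isLt
        omega
      rw [this]; simp
  rw [sum_congr rfl key]
  rw [← Finset.sum_fiberwise_of_maps_to (s := (univ : Finset (Fin m × Fin m)).filter
    (fun p => p.2.val = p.1.val + 1)) (t := range m) (g := fun p => p.1.val)]
  intro p _
  simp

/-- Macdonald's sum over words of length `ℓ` -/
def Msum (m ℓ : ℕ) (w : Perm (Fin m)) : ℤ :=
  ∑ s ∈ (univ : Finset (Fin ℓ → Fin m × Fin m)).filter
    (fun s => (∀ i, (s i).2.val = (s i).1.val + 1) ∧
      (List.ofFn (fun i => swap (s i).1 (s i).2)).prod = w),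
    ∏ i, (((s i).1.val + 1 : ℕ) : ℤ)

lemma Msum_zero (m : ℕ) (w : Perm (Fin m)) : Msum m 0 w = if w = 1 then 1 else 0 := by
  unfold Msum
  by_cases h : w = 1
  · subst h
    simp
  · rw [if_neg h]
    apply sum_eq_zero
    intro s hs
    simp only [mem_filter] at hs
    exfalso
    apply h
    rw [← hs.2.2]; simp

lemma Msum_succ (m ℓ : ℕ) (w : Perm (Fin m)) :
    Msum m (ℓ + 1) w = ∑ p ∈ (univ : Finset (Fin m × Fin m)).filter (fun p => p.2.val = p.1.val + 1),
      ((p.1.val + 1 : ℕ) : ℤ) * Msum m ℓ (w * swap p.1 p.2) := by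
  unfold Msum
  simp only [mul_sum]
  rw [sum_filter, ← Equiv.sum_comp (Fin.snocEquiv (fun _ : Fin (ℓ+1) => Fin m × Fin m))]
  rw [Fintype.sum_prod_type]
  rw [sum_filter]
  apply sum_congr rfl
  intro p _
  by_cases hp : p.2.val = p.1.val + 1
  · rw [if_pos hp, sum_filter]
    apply sum_congr rfl
    intro s _
    have hprod : (List.ofFn (fun i => swap ((Fin.snocEquiv (fun _ : Fin (ℓ+1) => Fin m × Fin m) (p, s)) i).1
        ((Fin.snocEquiv (fun _ : Fin (ℓ+1) => Fin m × Fin m) (p, s)) i).2)).prod =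
        (List.ofFn (fun i => swap (s i).1 (s i).2)).prod * swap p.1 p.2 := by
      rw [List.ofFn_succ', List.concat_eq_append, List.prod_append]
      simp [Fin.snocEquiv]
    have hall : (∀ i, ((Fin.snocEquiv (fun _ : Fin (ℓ+1) => Fin m × Fin m) (p, s)) i).2.val =
        ((Fin.snocEquiv (fun _ : Fin (ℓ+1) => Fin m × Fin m) (p, s)) i).1.val + 1) ↔
        (∀ i, (s i).2.val = (s i).1.val + 1) := by
      constructor
      · intro h i
        have := h i.castSucc
        simpa [Fin.snocEquiv] using this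
      · intro h i
        refine Fin.lastCases ?_ (fun i => ?_) i
        · simpa [Fin.snocEquiv] using hp
        · simpa [Fin.snocEquiv] using h i
    have hprod2 : (∏ i, ((((Fin.snocEquiv (fun _ : Fin (ℓ+1) => Fin m × Fin m) (p, s)) i).1.val + 1 : ℕ) : ℤ)) =
        (∏ i, (((s i).1.val + 1 : ℕ) : ℤ)) * ((p.1.val + 1 : ℕ) : ℤ) := by
      rw [Fin.prod_univ_castSucc]
      simp [Fin.snocEquiv]
    have hiff : ((∀ i, ((Fin.snocEquiv (fun _ : Fin (ℓ+1) => Fin m × Fin m) (p, s)) i).2.val =
        ((Fin.snocEquiv (fun _ : Fin (ℓ+1) => Fin m × Fin m) (p, s)) i).1.val + 1) ∧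
        (List.ofFn (fun i => swap ((Fin.snocEquiv (fun _ : Fin (ℓ+1) => Fin m × Fin m) (p, s)) i).1
        ((Fin.snocEquiv (fun _ : Fin (ℓ+1) => Fin m × Fin m) (p, s)) i).2)).prod = w) ↔
        ((∀ i, (s i).2.val = (s i).1.val + 1) ∧
          (List.ofFn (fun i => swap (s i).1 (s i).2)).prod = w * swap p.1 p.2) := by
      rw [hall, hprod]
      have : (List.ofFn (fun i => swap (s i).1 (s i).2)).prod * swap p.1 p.2 = w ↔
        (List.ofFn (fun i => swap (s i).1 (s i).2)).prod = w * swap p.1 p.2 := by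
        constructor
        · intro h; rw [← h, mul_assoc, swap_mul_self, mul_one]
        · intro h; rw [h, mul_assoc, swap_mul_self, mul_one]
      rw [this]
    by_cases hc : ((∀ i, (s i).2.val = (s i).1.val + 1) ∧
          (List.ofFn (fun i => swap (s i).1 (s i).2)).prod = w * swap p.1 p.2)
    · rw [if_pos hc, if_pos (hiff.2 hc), hprod2]; ring
    · rw [if_neg hc, if_neg (fun h => hc (hiff.1 h))]
  · rw [if_neg hp]
    apply sum_eq_zero
    intro s _
    rw [if_neg]
    rintro ⟨h, _⟩
    apply hp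
    have := h (Fin.last ℓ)
    simpa [Fin.snocEquiv] using this

end Pool.Agent.Gao
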