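import Pool.Agent.Gao.EDef
import Pool.Agent.Gao.CharA

/-!
# Theorem E: the numerical inputs (m2), HDim, HDim3 (Gao project, MP_b139df_co)
-/

set_option autoImplicit false

namespace Gao

open Finset Module

noncomputable section

variable {n : ℕ} {w : Equiv.Perm (Fin n)} {A J : Finset (Fin n)} {c c' : Fin n}

/-- (m2) -/
theorem m2_of (h : Adj w A J c c') (hs : w c ∈ A) (hb : w c' ∈ A) : M2 w A J c c' :=
  fun ν => mdim_swap h.lt h.mem h.mem' h.adj h.min hs hb h.AJ ν

/-- the dimension identity, `w c' ∈ A` -/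
theorem hdim_of (h : Adj w A J c c') (hb : w c' ∈ A) : HDim w A J c c' :=
  hdim_partS (h.sData hb)

/-- the dimension identity, `w c' ∉ A` -/
theorem hdim3_of (h : Adj w A J c c') (hb : w c' ∉ A) : HDim3 w A J c c' :=
  hdim_e3 h.lt h.mem h.mem' h.adj h.min h.AJ hb

end

end Gao
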