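import Pool.Agent.Gao.ENumInst
import Pool.Agent.Gao.CharA
import Pool.Agent.Gao.ESum

/-!
# Theorem E (Gao project, MP_b139df_co)
-/

set_option autoImplicit false

namespace Gao

open Finset Module Gao.CE

noncomputable section

theorem eNum (n : ℕ) : ENum n :=
  eNum_of fun _ _ _ _ _ h hs hb ν => mdim_swap h.lt h.mem h.mem' h.adj h.min hs hb h.AJ ν

/-- **Theorem E** -/
theorem te (n : ℕ) (w : Equiv.Perm (Fin n)) (S J : Finset (Fin n)) (h : pos w S ⊆ J) : TE w S J :=
  thmE (eNum n) w S J (fun x hx => h (by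
    unfold pos
    exact Finset.mem_map_of_mem w.symm.toEmbedding hx))

end

end Gao
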