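import Pool.Agent.Gao.RFin
import Pool.Agent.Gao.TEFin
import Pool.Agent.Gao.Final

/-!
# Gao project: `RProp`
-/

set_option autoImplicit false

namespace Gao

/-- **(R)** -/
theorem rProp : RProp := rprop_ofE (thmE_of_te te)

end Gao
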