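import Pool.Agent.Gao.OwnDefs
import Pool.Agent.Gao.RFinal
import Pool.Agent.Gao.ProgChar
import Pool.Agent.Gao.LinkF

/-!
# Gao's conjecture with Schubert polynomials defined by divided differences

Own formulation of the answer to MP_b139df_co: the Schubert polynomials are the unique family with the
defining recursion of Lascoux and Schuetzenberger, and the numbers `c_w` are defined by Gao's recursion.
-/

set_option autoImplicit false

namespace GaoOwn

open MvPolynomial Equiv Finset Gao
open Pool.Agent.Gao hiding X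

/-- the word character -/
noncomputable def ch (x : List ℕ) : Pol := chi (fun a => a) (fun _ => true) (fun _ => true) x

lemma ch_rec : SmallRec (fun a : ℕ => a) (fun _ => true) (fun _ => true) ch := chi_smallRec _ _ _

lemma ch_nil : ch [] = 1 := chi_nil _ _ _

/-- the Schubert polynomials -/
noncomputable def sch (n : ℕ) (w : Perm (Fin n)) : MvPolynomial ℕ ℤ := ch (wd w)

lemma wd_getElem {n : ℕ} (w : Perm (Fin n)) (j : ℕ) (h : j < (wd w).length) :
    (wd w)[j] = (w ⟨j, by simpa using h⟩ : ℕ) := by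
  simp [wd]

lemma wd_split {n : ℕ} (w : Perm (Fin n)) (i : ℕ) (h : i + 1 < n) :
    wd w = (wd w).take i ++ (w ⟨i, Nat.lt_of_succ_lt h⟩ : ℕ) :: (w ⟨i + 1, h⟩ : ℕ) ::
      (wd w).drop (i + 2) := by
  have h1 : i < (wd w).length := by rw [wd_length]; omega
  have h2 : i + 1 < (wd w).length := by rw [wd_length]; omega
  conv_lhs => rw [← List.take_append_drop i (wd w)]
  rw [List.drop_eq_getElem_cons h1, List.drop_eq_getElem_cons h2, wd_getElem, wd_getElem]

lemma wd_swap {n : ℕ} (w : Perm (Fin n)) (i : ℕ) (h : i + 1 < n) :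
    wd (w * swap ⟨i, Nat.lt_of_succ_lt h⟩ ⟨i + 1, h⟩) =
      (wd w).take i ++ (w ⟨i + 1, h⟩ : ℕ) :: (w ⟨i, Nat.lt_of_succ_lt h⟩ : ℕ) ::
        (wd w).drop (i + 2) := by
  set w' := w * swap ⟨i, Nat.lt_of_succ_lt h⟩ ⟨i + 1, h⟩ with hw'
  rw [wd_split w' i h]
  have e1 : w' ⟨i, Nat.lt_of_succ_lt h⟩ = w ⟨i + 1, h⟩ := by
    rw [hw', Perm.mul_apply, swap_apply_left]
  have e2 : w' ⟨i + 1, h⟩ = w ⟨i, Nat.lt_of_succ_lt h⟩ := by
    rw [hw', Perm.mul_apply, swap_apply_right]
  have e3 : ∀ (j : ℕ) (hj : j < n), j ≠ i → j ≠ i + 1 → w' ⟨j, hj⟩ = w ⟨j, hj⟩ := by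
    intro j hj h1 h2
    rw [hw', Perm.mul_apply, swap_apply_of_ne_of_ne]
    · intro h3; exact h1 (congrArg Fin.val h3)
    · intro h3; exact h2 (congrArg Fin.val h3)
  have e4 : (wd w').take i = (wd w).take i := by
    apply List.ext_getElem
    · simp
    · intro j hj1 hj2
      rw [List.getElem_take, List.getElem_take, wd_getElem, wd_getElem, e3]
      · rw [List.length_take] at hj1; omega
      · rw [List.length_take] at hj1; omega
  have e5 : (wd w').drop (i + 2) = (wd w).drop (i + 2) := by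
    apply List.ext_getElem
    · simp
    · intro j hj1 hj2
      rw [List.getElem_drop, List.getElem_drop, wd_getElem, wd_getElem, e3]
      · omega
      · omega
  rw [e1, e2, e4, e5]

lemma wd_pw {n : ℕ} (w : Perm (Fin n)) : (wd w).Pairwise (fun a b => a ≠ b) := wd_nodup w

/-- divided differences of `sch` -/
lemma sch_dd {n : ℕ} (w : Perm (Fin n)) (i : ℕ) (h : i + 1 < n)
    (hd : w ⟨i + 1, h⟩ < w ⟨i, Nat.lt_of_succ_lt h⟩) :
    (X i - X (i + 1)) * sch n (w * swap ⟨i, Nat.lt_of_succ_lt h⟩ ⟨i + 1, h⟩) =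
        sch n w - rename (swap i (i + 1)) (sch n w) := by
  have hlen : ((wd w).take i).length = i := by
    rw [List.length_take, wd_length]; omega
  have h1 := dd_word ch_rec ((wd w).take i ++ (wd w).drop (i + 2)).length ((wd w).take i)
    ((wd w).drop (i + 2)) (w ⟨i, Nat.lt_of_succ_lt h⟩ : ℕ) (w ⟨i + 1, h⟩ : ℕ) rfl
    (by rw [← wd_split w i h]; exact wd_pw w) (fun _ _ => rfl) (fun _ _ => rfl)
  rw [← wd_split w i h, ← wd_swap w i h, hlen, if_pos (by exact hd)] at h1
  have h2 := dd_spec i (ch (wd w))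
  rw [h1] at h2
  exact h2

lemma ch_dec : ∀ x : List ℕ, x.Pairwise (fun a b => b < a) →
    ch x = ∏ t ∈ range x.length, omegaP t := by
  intro x
  induction x using List.reverseRecOn with
  | nil => intro _; simpa using ch_nil
  | append_singleton y a ih =>
    intro h
    rw [List.pairwise_append] at h
    obtain ⟨h1, _, h3⟩ := h
    have h4 := ch_rec y a [] (fun b hb => h3 b hb a (by simp)) (by simp)
    rw [h4]
    rw [gcount_eq_length (l := y) (fun _ _ => rfl)]
    simp only [colFactor, if_true, gcount_nil, demSeq_zero, List.append_nil]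
    rw [ih h1, List.length_append, List.length_singleton, prod_range_succ, mul_comm]

lemma stair (n : ℕ) : (∏ t ∈ range n, omegaP t) = ∏ i ∈ range n, (X i : Pol) ^ (n - 1 - i) := by
  induction n with
  | zero => simp
  | succ n ih =>
    rw [prod_range_succ, ih, prod_range_succ]
    have h1 : (X n : Pol) ^ (n + 1 - 1 - n) = 1 := by
      rw [show n + 1 - 1 - n = 0 by omega, pow_zero]
    rw [h1, mul_one, omegaP, ← prod_mul_distrib]
    apply prod_congr rfl
    intro i hi
    rw [mem_range] at hi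
    rw [← pow_succ]
    congr 1
    omega

lemma wd_rev (n : ℕ) : (wd (Fin.revPerm : Perm (Fin n))).Pairwise (fun a b => b < a) := by
  rw [List.pairwise_iff_getElem]
  intro i j hi hj hij
  rw [wd_getElem, wd_getElem]
  simp only [Fin.revPerm_apply, Fin.val_rev]
  rw [wd_length] at hi hj
  omega

lemma sch_rev (n : ℕ) : sch n Fin.revPerm = ∏ i : Fin n, X (i : ℕ) ^ (n - 1 - (i : ℕ)) := by
  have h1 := ch_dec _ (wd_rev n)
  rw [wd_length, stair] at h1
  rw [sch, h1]
  exact (Fin.prod_univ_eq_prod_range (fun i => (X i : Pol) ^ (n - 1 - i)) n).symm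

lemma isSchubert_sch (n : ℕ) : IsSchubert n (sch n) := ⟨sch_rev n, fun w i h hd => sch_dd w i h hd⟩

lemma cnt_le (a : ℕ) (l : List ℕ) : cnt a l ≤ l.length := List.countP_le_length

lemma inv_le : ∀ l : List ℕ, inv l ≤ l.length * l.length := by
  intro l
  induction l with
  | nil => simp
  | cons a l ih =>
    rw [inv_cons, List.length_cons]
    have := cnt_le a l
    nlinarith

/-- a permutation without ascents is the longest one -/
lemma eq_rev {n : ℕ} (w : Perm (Fin n))
    (h : ∀ (i : ℕ) (h : i + 1 < n), ¬ w ⟨i, Nat.lt_of_succ_lt h⟩ < w ⟨i + 1, h⟩) :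
    w = Fin.revPerm := by
  rcases n with _ | n
  · exact Subsingleton.elim _ _
  · have h1 : StrictAnti w := by
      rw [Fin.strictAnti_iff_succ_lt]
      intro i
      have h2 := h i.val (by omega)
      have h3 : w i.succ ≠ w i.castSucc := by
        intro h4
        have h5 := w.injective h4
        have h6 := congrArg Fin.val h5
        simp at h6
      have h7 : w i.succ ≤ w i.castSucc := by
        have h8 : ¬ w i.castSucc < w i.succ := h2
        exact not_lt.1 h8
      exact lt_of_le_of_ne h7 h3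
    have h2 : StrictMono (fun i => Fin.rev (w i)) := by
      intro a b hab
      exact Fin.rev_lt_rev.2 (h1 hab)
    have h3 : (fun i => Fin.rev (w i)) = id := by
      rw [← StrictMono.range_inj h2 strictMono_id]
      rw [Set.range_id]
      apply Set.eq_univ_of_forall
      intro y
      exact ⟨w.symm (Fin.rev y), by simp⟩
    apply Equiv.ext
    intro i
    have h4 := congrFun h3 i
    simp only [id] at h4
    rw [Fin.revPerm_apply]
    calc w i = Fin.rev (Fin.rev (w i)) := (Fin.rev_rev _).symm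
      _ = Fin.rev i := by rw [h4]

lemma unique_aux (n : ℕ) (T T' : Perm (Fin n) → MvPolynomial ℕ ℤ) (hT : IsSchubert n T)
    (hT' : IsSchubert n T') : ∀ (k : ℕ) (w : Perm (Fin n)), n * n - inv (wd w) = k → T w = T' w := by
  intro k
  induction k using Nat.strong_induction_on with
  | _ k ih =>
    intro w hk
    by_cases hw : w = Fin.revPerm
    · rw [hw, hT.1, hT'.1]
    · obtain ⟨i, h, ha⟩ : ∃ (i : ℕ) (h : i + 1 < n), w ⟨i, Nat.lt_of_succ_lt h⟩ < w ⟨i + 1, h⟩ := by
        by_contra hcon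
        apply hw
        apply eq_rev
        intro i h ha
        exact hcon ⟨i, h, ha⟩
      set w' := w * swap ⟨i, Nat.lt_of_succ_lt h⟩ ⟨i + 1, h⟩ with hw'
      have e1 : w' ⟨i, Nat.lt_of_succ_lt h⟩ = w ⟨i + 1, h⟩ := by
        rw [hw', Perm.mul_apply, swap_apply_left]
      have e2 : w' ⟨i + 1, h⟩ = w ⟨i, Nat.lt_of_succ_lt h⟩ := by
        rw [hw', Perm.mul_apply, swap_apply_right]
      have e3 : w' * swap ⟨i, Nat.lt_of_succ_lt h⟩ ⟨i + 1, h⟩ = w := by
        rw [hw', mul_assoc, swap_mul_self, mul_one]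
      have hd : w' ⟨i + 1, h⟩ < w' ⟨i, Nat.lt_of_succ_lt h⟩ := by rw [e1, e2]; exact ha
      have h1 := hT.2 w' i h hd
      have h2 := hT'.2 w' i h hd
      rw [e3] at h1 h2
      have h3 : inv (wd w') = inv (wd w) + 1 := by
        rw [hw', wd_swap w i h]
        conv_rhs => rw [wd_split w i h]
        exact inv_swap_split _ _ _ (by exact ha) _
      have h4 : inv (wd w') ≤ n * n := by
        have := inv_le (wd w')
        rwa [wd_length] at this
      have h5 : T w' = T' w' := ih (n * n - inv (wd w')) (by omega) w' rfl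
      rw [h5, ← h2] at h1
      exact cancel (by omega) h1

lemma isSchubert_iff (n : ℕ) (T : Perm (Fin n) → MvPolynomial ℕ ℤ) :
    IsSchubert n T ↔ T = sch n := by
  constructor
  · intro h
    funext w
    exact unique_aux n T (sch n) h (isSchubert_sch n) _ w rfl
  · rintro rfl
    exact isSchubert_sch n

lemma occ_eq {k m : ℕ} (u : Perm (Fin k)) (w : Perm (Fin m)) :
    Nat.card {f : Fin k → Fin m // StrictMono f ∧ ∀ i j : Fin k, (u i < u j ↔ w (f i) < w (f j))} =
      occ u w := by
  apply Nat.card_congr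
  refine ⟨fun f => ⟨OrderEmbedding.ofStrictMono f.1 f.2.1, fun a b => (f.2.2 a b).symm⟩,
    fun f => ⟨f.1, f.1.strictMono, fun a b => (f.2 a b).symm⟩, fun f => ?_, fun f => ?_⟩
  · apply Subtype.ext
    rfl
  · apply Subtype.ext
    apply RelEmbedding.ext
    intro a
    rfl

lemma eval_sch {m : ℕ} (w : Perm (Fin m)) : eval (fun _ => (1 : ℤ)) (sch m w) = Fn m (wd w) := by
  have h1 := ev1_word ch_rec ch_nil _ (wd w) rfl (by rw [List.map_id' (wd w)]; exact wd_nodup w)
    (fun _ _ => rfl) (fun _ _ => rfl)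
  rw [List.map_id'] at h1
  have h2 : Fn m (wd w) = F (wd w) := by
    unfold F; rw [wd_length]
  rw [h2, ← h1]
  rfl

/-- Gao's conjecture for the honest Schubert polynomials -/
theorem gao_nonneg (c : (m : ℕ) → Perm (Fin m) → ℤ) (hc : IsGao sch c) :
    ∀ m : ℕ, 1 ≤ m → ∀ w : Perm (Fin m), 0 ≤ c m w := by
  apply Gao.frozen_of_rProp Gao.rProp c
  intro m hm w
  rw [macdonald w]
  congr 1
  have h1 := hc m hm w
  rw [eval_sch] at h1
  have h2 : ∑ k ∈ Finset.Ico 1 m, ∑ u : Equiv.Perm (Fin k),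
            c k u * (Nat.card {f : Fin k → Fin m //
              StrictMono f ∧ ∀ i j : Fin k, (u i < u j ↔ w (f i) < w (f j))} : ℤ) =
      ∑ k ∈ Finset.Ico 1 m, ∑ u : Perm (Fin k), c k u * (occ u w : ℤ) := by
    apply sum_congr rfl
    intro k _
    apply sum_congr rfl
    intro u _
    rw [occ_eq]
  rw [h2]
  linarith

/-- the numbers of Gao, defined by recursion -/
noncomputable def cg (S : (n : ℕ) → Perm (Fin n) → MvPolynomial ℕ ℤ) (m : ℕ) : Perm (Fin m) → ℤ :=
  Nat.strongRecOn m (fun m ih w => eval (fun _ => (1 : ℤ)) (S m w) - 1 -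
    ∑ k ∈ (Finset.Ico 1 m).attach, ∑ u : Perm (Fin k.1),
      ih k.1 (Finset.mem_Ico.1 k.2).2 u * (occ u w : ℤ))

lemma isGao_cg (S : (n : ℕ) → Perm (Fin n) → MvPolynomial ℕ ℤ) : IsGao S (cg S) := by
  intro m _ w
  unfold cg
  rw [Nat.strongRecOn_eq]
  congr 1
  exact Finset.sum_attach (Finset.Ico 1 m) (fun k => ∑ u : Perm (Fin k),
    (cg S k) u * (occ u w : ℤ))

lemma isGao_unique (S : (n : ℕ) → Perm (Fin n) → MvPolynomial ℕ ℤ)
    (c c' : (m : ℕ) → Perm (Fin m) → ℤ) (h : IsGao S c) (h' : IsGao S c') :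
    ∀ m : ℕ, 1 ≤ m → ∀ w : Perm (Fin m), c m w = c' m w := by
  intro m
  induction m using Nat.strong_induction_on with
  | _ m ih =>
    intro hm w
    rw [h m hm w, h' m hm w]
    congr 1
    apply sum_congr rfl
    intro k hk
    rw [mem_Ico] at hk
    apply sum_congr rfl
    intro u _
    rw [ih k hk.2 hk.1 u]

end GaoOwn
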