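import Mathlib

/-!
# Definitions for the own formulation of Gao's conjecture (MP_b139df_co)
-/

set_option autoImplicit false

namespace GaoOwn

open MvPolynomial Equiv

/-- `S` is the family of the Schubert polynomials of the symmetric group on `n` letters
(letters and variables are numbered from `0`): it takes the value
`x_0^(n-1) x_1^(n-2) ... x_(n-2)` at the longest element, and if `w (i+1) < w i`, that is, if
`w s_i` is shorter than `w`, then `S (w s_i)` is the divided difference of `S w`. -/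
def IsSchubert (n : ℕ) (S : Perm (Fin n) → MvPolynomial ℕ ℤ) : Prop :=
  S Fin.revPerm = ∏ i : Fin n, X (i : ℕ) ^ (n - 1 - (i : ℕ)) ∧
  ∀ (w : Perm (Fin n)) (i : ℕ) (h : i + 1 < n),
    w ⟨i + 1, h⟩ < w ⟨i, Nat.lt_of_succ_lt h⟩ →
      (X i - X (i + 1)) * S (w * swap ⟨i, Nat.lt_of_succ_lt h⟩ ⟨i + 1, h⟩) =
        S w - rename (swap i (i + 1)) (S w)

/-- the number of occurrences of the pattern `u` in `w` -/
noncomputable def occ {k m : ℕ} (u : Perm (Fin k)) (w : Perm (Fin m)) : ℕ :=
  Nat.card {f : Fin k ↪o Fin m // ∀ a b : Fin k, w (f a) < w (f b) ↔ u a < u b}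

/-- Gao's recursion for the numbers `c_w`, for a family `S` of polynomials -/
def IsGao (S : (n : ℕ) → Perm (Fin n) → MvPolynomial ℕ ℤ) (c : (m : ℕ) → Perm (Fin m) → ℤ) : Prop :=
  ∀ m : ℕ, 1 ≤ m → ∀ w : Perm (Fin m),
    c m w = eval (fun _ => (1 : ℤ)) (S m w) - 1 -
      ∑ k ∈ Finset.Ico 1 m, ∑ u : Perm (Fin k), c k u * (occ u w : ℤ)

end GaoOwn
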