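import Pool.Agent.Gao.Macdonald

/-!
# `ℓ! * Fn m (wd w)` is Macdonald's sum
-/

set_option autoImplicit false

namespace Pool.Agent.Gao

open Equiv Finset

/-- the number of inversions of a function on `Fin m` -/
lemma inv_ofFn : ∀ (m : ℕ) (f : Fin m → ℕ),
    inv (List.ofFn f) = ∑ i : Fin m, ∑ j : Fin m, (if i < j ∧ f j < f i then 1 else 0) := by
  intro m
  induction m with
  | zero => intro f; simp
  | succ m ih =>
    intro f
    rw [List.ofFn_succ, inv_cons, ih, Fin.sum_univ_succ]
    have hc : cnt (f 0) (List.ofFn fun i : Fin m => f i.succ) =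
        ∑ j : Fin (m+1), (if (0 : Fin (m+1)) < j ∧ f j < f 0 then 1 else 0) := by
      have : ∀ (k : ℕ) (a : ℕ) (g : Fin k → ℕ), cnt a (List.ofFn g) =
          ∑ j : Fin k, (if g j < a then 1 else 0) := by
        intro k
        induction k with
        | zero => intro a g; simp
        | succ k ihk =>
          intro a g
          rw [List.ofFn_succ, cnt_cons, ihk, Fin.sum_univ_succ]
          ring
      rw [this, Fin.sum_univ_succ]
      simp
    rw [hc]
    congr 1
    apply Finset.sum_congr rfl
    intro i _
    rw [Fin.sum_univ_succ]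
    simp

lemma inv_wd {m : ℕ} (w : Perm (Fin m)) :
    inv (wd w) = Nat.card {p : Fin m × Fin m // p.1 < p.2 ∧ w p.2 < w p.1} := by
  rw [wd, inv_ofFn, Nat.card_eq_fintype_card, Fintype.card_subtype, Finset.card_filter,
    Fintype.sum_prod_type]
  rfl

lemma inv_swap_ofFn : ∀ (i m : ℕ) (f : Fin m → ℕ) (h : i + 1 < m)
    (_hd : f ⟨i + 1, h⟩ < f ⟨i, by omega⟩),
    inv (List.ofFn f) = inv (List.ofFn (f ∘ swap (⟨i, by omega⟩ : Fin m) ⟨i + 1, h⟩)) + 1 := by
  intro i
  induction i with
  | zero =>
    intro m f h hd
    rcases m with _ | _ | m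
    · omega
    · omega
    · have e0 : (⟨0, by omega⟩ : Fin (m+2)) = 0 := rfl
      have e1 : (⟨0 + 1, h⟩ : Fin (m+2)) = Fin.succ 0 := rfl
      rw [e0, e1] at hd ⊢
      have : List.ofFn (f ∘ swap (0 : Fin (m+2)) (Fin.succ 0)) =
          f (Fin.succ 0) :: f 0 :: List.ofFn (fun i : Fin m => f i.succ.succ) := by
        rw [List.ofFn_succ, List.ofFn_succ]
        refine congrArg₂ List.cons ?_ (congrArg₂ List.cons ?_ (congrArg List.ofFn ?_))
        · simp
        · simp
        · funext j
          simp only [Function.comp]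
          rw [swap_apply_of_ne_of_ne]
          · exact Fin.succ_ne_zero _
          · intro h; exact Fin.succ_ne_zero _ (Fin.succ_injective _ h)
      rw [this, List.ofFn_succ, List.ofFn_succ]
      exact inv_swap _ _ _ hd
  | succ i ih =>
    intro m f h hd
    rcases m with _ | m
    · omega
    · have h' : i + 1 < m := by omega
      have : List.ofFn (f ∘ swap (⟨i + 1, by omega⟩ : Fin (m+1)) ⟨i + 1 + 1, h⟩) =
          f 0 :: List.ofFn ((fun j : Fin m => f j.succ) ∘ swap (⟨i, by omega⟩ : Fin m) ⟨i + 1, h'⟩) := by
        rw [List.ofFn_succ]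
        refine congrArg₂ List.cons ?_ (congrArg List.ofFn ?_)
        · simp only [Function.comp]
          rw [swap_apply_of_ne_of_ne]
          · intro h; have := congrArg Fin.val h; simp at this
          · intro h; have := congrArg Fin.val h; simp at this
        · funext j
          have := (Fin.succ_injective m).swap_apply ⟨i, by omega⟩ ⟨i+1, h'⟩ j
          exact congrArg f this
      rw [this, List.ofFn_succ, inv_cons, inv_cons, ih m (fun j => f j.succ) h' hd]
      have hp : cnt (f 0) (List.ofFn fun i : Fin m => f i.succ) =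
          cnt (f 0) (List.ofFn ((fun j : Fin m => f j.succ) ∘ swap (⟨i, by omega⟩ : Fin m) ⟨i + 1, h'⟩)) := by
        apply cnt_perm
        exact (Equiv.Perm.ofFn_comp_perm _ _).symm
      rw [hp]
      ring

lemma swap_step {m : ℕ} (w : Perm (Fin m)) (p q : Fin m) (hpq : q.val = p.val + 1) :
    (w q < w p → inv (wd w) = inv (wd (w * swap p q)) + 1) ∧
    (w p < w q → inv (wd (w * swap p q)) = inv (wd w) + 1) := by
  obtain ⟨q, hq⟩ := q
  simp only at hpq
  subst hpq
  constructor
  · intro h
    exact inv_swap_ofFn p.val m (fun i => (w i : ℕ)) hq h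
  · intro h
    have h2 : ((w * swap p ⟨p.val + 1, hq⟩) ⟨p.val + 1, hq⟩ : Fin m) <
        (w * swap p ⟨p.val + 1, hq⟩) p := by
      simpa [Perm.mul_apply] using h
    have h3 := inv_swap_ofFn p.val m (fun i => ((w * swap p ⟨p.val + 1, hq⟩) i : ℕ)) hq h2
    have h4 : (List.ofFn ((fun i => (((w * swap p ⟨p.val + 1, hq⟩) i : Fin m) : ℕ)) ∘
        swap (⟨p.val, by omega⟩ : Fin m) ⟨p.val + 1, hq⟩)) = wd w := by
      rw [wd]
      congr 1
      funext j
      simp [Perm.mul_apply]
    rw [h4] at h3
    exact h3

lemma R_sorted (x : List ℕ) : ∀ φ : Fun, x.Pairwise (· < ·) → R x φ = φ x := by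
  induction x with
  | nil => intro φ _; simp
  | cons a l ih =>
    intro φ h
    rw [List.pairwise_cons] at h
    rw [R_cons]
    have : R l (fun y => φ (a :: y) + u0 φ (a :: y)) = R l (fun y => φ (a :: y)) := by
      apply R_congr
      intro y hy
      rcases y with _ | ⟨b, y⟩
      · simp
      · have hb : a < b := h.1 b (hy.subset (by simp))
        have : ¬ b < a := by omega
        simp [this]
    rw [this, ih _ h.2]

lemma Fn_sorted (n : ℕ) : ∀ x : List ℕ, x.length = n → x.Pairwise (· < ·) → Fn n x = 1 := by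
  induction n with
  | zero => intro x _ _; rfl
  | succ n ih =>
    intro x hx hs
    show R x (mh (Fn n)) = 1
    rw [R_sorted x _ hs]
    rcases x with _ | ⟨a, l⟩
    · simp at hx
    · rw [List.pairwise_cons] at hs
      simp only [mh, if_pos hs.1]
      exact ih l (by simpa using hx) hs.2

lemma wd_one_sorted (m : ℕ) : (wd (1 : Perm (Fin m))).Pairwise (· < ·) := by
  rw [wd, List.pairwise_ofFn]
  intro i j h
  simpa using h

lemma inv_wd_eq_zero {m : ℕ} (w : Perm (Fin m)) : inv (wd w) = 0 ↔ w = 1 := by
  constructor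
  · intro h
    rw [inv_wd, Nat.card_eq_fintype_card, Fintype.card_eq_zero_iff] at h
    have hm : StrictMono w := by
      intro i j hij
      by_contra hc
      have hne : w i ≠ w j := fun he => hij.ne (w.injective he)
      have hlt : w j < w i := lt_of_le_of_ne (not_lt.1 hc) hne.symm
      exact h.elim ⟨(i, j), hij, hlt⟩
    have : StrictMono.orderIsoOfSurjective w hm w.surjective = OrderIso.refl _ := Subsingleton.elim _ _
    ext i
    have h2 := congrArg (fun e : Fin m ≃o Fin m => (e i : Fin m).val) this
    simpa using h2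
  · rintro rfl
    rw [inv_wd, Nat.card_eq_fintype_card, Fintype.card_eq_zero_iff]
    constructor
    rintro ⟨⟨i, j⟩, h1, h2⟩
    simp at h1 h2
    omega

theorem Msum_eq (m : ℕ) : ∀ (ℓ : ℕ) (w : Perm (Fin m)),
    (ℓ < inv (wd w) → Msum m ℓ w = 0) ∧
    (inv (wd w) = ℓ → Msum m ℓ w = (ℓ.factorial : ℤ) * Fn m (wd w)) := by
  intro ℓ
  induction ℓ with
  | zero =>
    intro w
    constructor
    · intro h
      rw [Msum_zero, if_neg]
      intro hw
      rw [(inv_wd_eq_zero w).2 hw] at h
      exact absurd h (lt_irrefl _)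
    · intro h
      rw [(inv_wd_eq_zero w)] at h
      subst h
      rw [Msum_zero, if_pos rfl, Fn_sorted m _ (wd_length _) (wd_one_sorted m)]
      simp
  | succ ℓ ih =>
    intro w
    rw [Msum_succ]
    constructor
    · intro h
      apply sum_eq_zero
      intro p hp
      rw [mem_filter] at hp
      obtain ⟨h1, h2⟩ := swap_step w p.1 p.2 hp.2
      have hne : w p.1 ≠ w p.2 := by
        intro he
        have := w.injective he
        have h3 := hp.2
        rw [this] at h3
        omega
      have : Msum m ℓ (w * swap p.1 p.2) = 0 := by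
        apply (ih _).1
        rcases lt_or_gt_of_ne hne with h3 | h3
        · have := h2 h3; omega
        · have := h1 h3; omega
      rw [this, mul_zero]
    · intro h
      have key : ∀ p ∈ (univ : Finset (Fin m × Fin m)).filter (fun p => p.2.val = p.1.val + 1),
          ((p.1.val + 1 : ℕ) : ℤ) * Msum m ℓ (w * swap p.1 p.2) =
          (ℓ.factorial : ℤ) * (((p.1.val + 1 : ℕ) : ℤ) *
            (if w p.2 < w p.1 then Fn m (wd (w * swap p.1 p.2)) else 0)) := by
        intro p hp
        rw [mem_filter] at hp
        obtain ⟨h1, h2⟩ := swap_step w p.1 p.2 hp.2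
        have hne : w p.1 ≠ w p.2 := by
          intro he
          have := w.injective he
          have h3 := hp.2
          rw [this] at h3
          omega
        rcases lt_or_gt_of_ne hne with h3 | h3
        · have h4 := h2 h3
          rw [(ih _).1 (by omega), if_neg (not_lt.2 h3.le)]
          ring
        · have h4 := h1 h3
          rw [(ih _).2 (by omega), if_pos h3]
          ring
      rw [sum_congr rfl key, ← mul_sum, ← X_wd, X_Fn m _ (wd_length _), h, Nat.factorial_succ]
      push_cast
      ring

/-- Macdonald's formula in the form used by the frozen statement. -/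
theorem macdonald {m : ℕ} (w : Perm (Fin m)) :
    ∑ s ∈ (Finset.univ : Finset (Fin (Nat.card {p : Fin m × Fin m // p.1 < p.2 ∧ w p.2 < w p.1})
                → Fin m × Fin m)).filter
              (fun s => (∀ i, (s i).2.val = (s i).1.val + 1) ∧
                (List.ofFn (fun i => Equiv.swap (s i).1 (s i).2)).prod = w),
            ∏ i, (((s i).1.val + 1 : ℕ) : ℤ) =
    ((Nat.card {p : Fin m × Fin m // p.1 < p.2 ∧ w p.2 < w p.1}).factorial : ℤ) * Fn m (wd w) := by
  have := (Msum_eq m (Nat.card {p : Fin m × Fin m // p.1 < p.2 ∧ w p.2 < w p.1}) w).2 (inv_wd w)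
  exact this

end Pool.Agent.Gao
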