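import Pool.Agent.Gao.KEmb

/-!
# Part R, the last step, abstract form (Gao project, MP_b139df_co)

`R S ⊆ End E` subalgebras (A-side operators of the rows `S`), `M S = R S v`, `N Q = C v` with `C`
commuting with `R Q`.  `x v ↦ x restricted to N Q` maps `M S` onto the invariants of weight zero of
`Y S` if the dimensions agree.  `lgood_abs`: then `M` is a good family.
-/

set_option autoImplicit false

namespace Gao

open Finset Pool.Agent.Gao Module

namespace KD

section emb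

variable {K L Lam V X : Type*} [Field K] [CharZero K] [LieRing L] [LieAlgebra K L]
  [AddCommGroup Lam] [DecidableEq Lam]
  [AddCommGroup V] [Module K V] [LieRingModule L V] [LieModule K L V]
  [AddCommGroup X] [Module K X] [LieRingModule L X] [LieModule K L X]
  {GX : Grading K X Lam} {GV : Grading K V Lam} {U : Submodule K V} {j : X →ₗ[K] V}

omit [CharZero K] [AddCommGroup Lam] in
lemma Emb.π (h : Emb L GX GV U j) (a : Lam) (m : X) : GV.π a (j m) = j (GX.π a m) := by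
  conv_lhs => rw [← GX.sum_apply m]
  rw [map_sum, map_sum]
  by_cases ha : a ∈ GX.supp
  · rw [Finset.sum_eq_single a]
    · exact GV.π_of_mem (h.W a _ (GX.π_mem a m))
    · intro b _ hb
      exact GV.π_of_mem_ne (h.W b _ (GX.π_mem b m)) (Ne.symm hb)
    · intro h'
      exact absurd ha h'
  · rw [GX.zero a ha, LinearMap.zero_apply, map_zero]
    refine Finset.sum_eq_zero fun b hb => ?_
    exact GV.π_of_mem_ne (h.W b _ (GX.π_mem b m)) (fun h' => ha (h' ▸ hb))

omit [CharZero K] [AddCommGroup Lam] in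
/-- the range is a graded submodule -/
lemma Emb.gsub (h : Emb L GX GV U j) : CE.GSub L GV U where
  st a x hx := by
    rw [← h.rng] at hx ⊢
    obtain ⟨m, rfl⟩ := hx
    rw [h.π]
    exact ⟨_, rfl⟩
  lie x m hm := by
    rw [← h.rng] at hm ⊢
    obtain ⟨m, rfl⟩ := hm
    rw [← h.lie]
    exact ⟨_, rfl⟩

/-- the invariants of weight zero of the range -/
lemma Emb.finrank_inv0 (h : Emb L GX GV U j) :
    finrank K (U ⊓ CE.inv0 GV.W L : Submodule K V) = finrank K (CE.inv0 GX.W L) := by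
  have h1 : (CE.inv0 GX.W L).map j = U ⊓ CE.inv0 GV.W L := by
    ext x
    constructor
    · rintro ⟨m, hm, rfl⟩
      refine ⟨by rw [SetLike.mem_coe, ← h.rng]; exact ⟨m, rfl⟩, h.W 0 m hm.1, fun y => ?_⟩
      rw [← h.lie, hm.2 y, map_zero]
    · rintro ⟨hx, hx0, hxl⟩
      rw [SetLike.mem_coe, ← h.rng] at hx
      obtain ⟨m, rfl⟩ := hx
      refine ⟨m, ⟨?_, fun y => ?_⟩, rfl⟩
      · rwa [CE.mem_W_iff_of_injective GX j h.inj h.W]
      · apply h.inj
        rw [h.lie, hxl y, map_zero]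
  rw [← h1]
  exact (LinearEquiv.finrank_eq (Submodule.equivMapOfInjective j h.inj _)).symm

end emb

section abs

variable {K E ι Λ L Lam : Type*} [Field K] [CharZero K] [AddCommGroup E] [Module K E]
  [DecidableEq ι] [DecidableEq Λ] {Q : Finset ι} (D : KD K E ι Λ Q)
  [LieRing L] [LieAlgebra K L] [LieRingModule L E] [LieModule K L E] [AddCommGroup Lam]
  [DecidableEq Lam]
  {XQ ZQ : Type*}
  [AddCommGroup XQ] [Module K XQ] [LieRingModule L XQ] [LieModule K L XQ]
  [AddCommGroup ZQ] [Module K ZQ] [LieRingModule L ZQ] [LieModule K L ZQ]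
  [FiniteDimensional K XQ] [FiniteDimensional K ZQ]
  {GE : Grading K E Lam} {GXQ : Grading K XQ Lam} {GZQ : Grading K ZQ Lam}

omit [CharZero K] [AddCommGroup Lam] [DecidableEq Lam] [LieRing L] [LieAlgebra K L]
  [LieRingModule L E] [LieModule K L E] in
/-- an operator which commutes with the rows of `L` -/
lemma ioL_self {T : Finset ι} {x : Module.End K E}
    (hid : ∀ T, T ⊆ Q → ∀ i ∈ T, ∀ y ∈ D.N T, ∑ l ∈ D.lab i, D.ins i l (D.ext i l y) = y)
    (L : List ι) (hok : Ok (Q := Q) L T)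
    (hc : ∀ i ∈ L, ∀ l ∈ D.lab i, ∀ y, x (D.ins i l y) = D.ins i l (x y)) :
    ∀ y ∈ D.N (L.toFinset ∪ T), D.ioL L x y = x y := by
  induction L with
  | nil => exact fun y _ => rfl
  | cons i L ih =>
    intro y hy
    obtain ⟨h1, h2, h3⟩ := hok.cons
    have hQ : insert i (L.toFinset ∪ T) ⊆ Q := by
      rw [← h3]
      exact hok.2.2
    rw [h3] at hy
    change D.io i (D.ioL L x) y = x y
    rw [D.io_congr hQ h2 (ih h1 (fun j hj => hc j (List.mem_cons_of_mem _ hj))) y hy, io_apply]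
    conv_rhs => rw [← hid _ hQ i (Finset.mem_insert_self i _) y hy, map_sum]
    exact Finset.sum_congr rfl fun l hl => (hc i List.mem_cons_self l hl _).symm

/-- **(R), abstract form** -/
theorem lgood_abs {N : Lam → Submodule K L} (hN : CE.GrLie N)
    (hWX : CE.GrMod N GXQ.W) (hWZ : CE.GrMod N GZQ.W)
    {aQ : XQ →ₗ[K] E} {bQ : ZQ →ₗ[K] E}
    (haQ : Emb L GXQ GE (D.N Q) aQ) (hbQ : Emb L GZQ GE (D.F Q) bQ)
    (v : E) (C : Subalgebra K (Module.End K E)) (R : Finset ι → Subalgebra K (Module.End K E))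
    (hC : D.N Q = (Subalgebra.toSubmodule C).map (LinearMap.applyₗ v))
    (hcomm : ∀ c ∈ C, ∀ x ∈ R Q, c * x = x * c)
    (hlie : ∀ y : L, ∀ x ∈ R Q, ∀ m : E, ⁅y, x m⁆ = x ⁅y, m⁆)
    (hRW : ∀ x ∈ R Q, ∀ mu, ∀ m ∈ GE.W mu, x m ∈ GE.W mu)
    (hRmono : ∀ S S', S ⊆ S' → S' ⊆ Q → R S ≤ R S')
    (hRF : ∀ S, S ⊆ Q → ∀ x ∈ R S, ∀ y ∈ D.N S, x y ∈ D.F S)
    (hid : ∀ T, T ⊆ Q → ∀ i ∈ T, ∀ y ∈ D.N T, ∑ l ∈ D.lab i, D.ins i l (D.ext i l y) = y)
    (hRins : ∀ S, S ⊆ Q → ∀ i ∈ Q, i ∉ S → ∀ x ∈ R S, ∀ l ∈ D.lab i, ∀ y,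
      x (D.ins i l y) = D.ins i l (x y))
    (hY : ∀ S, S ⊆ Q → CE.GSub L (GXQ.hom GZQ) (D.Y aQ bQ S))
    (hac : ∀ S, S ⊆ Q → ∀ q, CE.Rel N (GXQ.hom GZQ) (D.Y aQ bQ S) ⊥ q)
    (hdim : ∀ S, S ⊆ Q → finrank K
      (D.Y aQ bQ S ⊓ CE.inv0 (GXQ.hom GZQ).W L : Submodule K (XQ →ₗ[K] ZQ)) ≤
      finrank K ((Subalgebra.toSubmodule (R S)).map (LinearMap.applyₗ v) : Submodule K E)) :
    LGood Q (fun S => (Subalgebra.toSubmodule (R S)).map (LinearMap.applyₗ v)) := by
  have hW : CE.GrMod N (GXQ.hom GZQ).W := by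
    rw [Grading.hom_W]
    exact hWX.hom hWZ
  have hg : LGood Q (fun S => D.Y aQ bQ S ⊓ CE.inv0 (GXQ.hom GZQ).W L) :=
    CE.lgood_inv hN hW (D.lgood_Y haQ.rng hbQ.inj hbQ.rng) hY hac
  obtain ⟨rb, hrb⟩ := left_inv hbQ.inj
  have haQN : ∀ m, aQ m ∈ D.N Q := fun m => by rw [← haQ.rng]; exact ⟨m, rfl⟩
  -- `x v = 0` implies `x = 0` on `N Q`
  have hker : ∀ x ∈ R Q, x v = 0 → ∀ y ∈ D.N Q, x y = 0 := by
    intro x hx h0 y hy
    rw [hC] at hy
    obtain ⟨c, hc, rfl⟩ := hy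
    change x (c v) = 0
    have h1 := congrArg (fun u : Module.End K E => u v) (hcomm c hc x hx)
    simp only [Module.End.mul_apply] at h1
    rw [← h1, h0, map_zero]
  have hv : v ∈ D.N Q := by
    rw [hC]
    exact ⟨1, Subalgebra.one_mem _, rfl⟩
  -- the restriction map
  let rho : R Q →ₗ[K] (XQ →ₗ[K] ZQ) :=
    { toFun := fun x => rb ∘ₗ (x : Module.End K E) ∘ₗ aQ
      map_add' := fun x y => by ext m; simp
      map_smul' := fun c x => by ext m; simp }
  have hrho : ∀ (x : R Q) (m : XQ), bQ (rho x m) = (x : Module.End K E) (aQ m) := by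
    intro x m
    have h1 : (x : Module.End K E) (aQ m) ∈ LinearMap.range bQ := by
      rw [hbQ.rng]
      exact hRF Q (Finset.Subset.refl Q) _ x.2 _ (haQN m)
    obtain ⟨y, hy⟩ := h1
    change bQ (rb ((x : Module.End K E) (aQ m))) = _
    rw [← hy, hrb]
  -- evaluation at `v`
  let ev : R Q →ₗ[K] E := (LinearMap.applyₗ v) ∘ₗ (R Q).val.toLinearMap
  have hev : ∀ x : R Q, ev x = (x : Module.End K E) v := fun x => rfl
  obtain ⟨s, hs⟩ := ev.rangeRestrict.exists_rightInverse_of_surjective ev.range_rangeRestrict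
  have hs' : ∀ u : LinearMap.range ev, ev (s u) = u := by
    intro u
    have h1 := congrArg (fun f : LinearMap.range ev →ₗ[K] LinearMap.range ev => f u) hs
    exact congrArg Subtype.val h1
  obtain ⟨θ, hθ⟩ := LinearMap.exists_extend (rho ∘ₗ s)
  have hθ' : ∀ x : R Q, θ ((x : Module.End K E) v) = rho x := by
    intro x
    have h1 : θ (ev x) = rho (s ⟨ev x, ⟨x, rfl⟩⟩) :=
      congrArg (fun f : LinearMap.range ev →ₗ[K] (XQ →ₗ[K] ZQ) => f ⟨ev x, ⟨x, rfl⟩⟩) hθ
    change θ (ev x) = rho x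
    rw [h1]
    have h2 : ev (s ⟨ev x, ⟨x, rfl⟩⟩) = ev x := hs' _
    ext m
    apply hbQ.inj
    rw [hrho, hrho]
    have h3 := hker ((s ⟨ev x, ⟨x, rfl⟩⟩ : R Q) - (x : Module.End K E))
      (Subalgebra.sub_mem _ (s ⟨ev x, ⟨x, rfl⟩⟩ : R Q).2 x.2)
      (by rw [LinearMap.sub_apply]; exact sub_eq_zero.2 h2) (aQ m) (haQN m)
    rw [LinearMap.sub_apply] at h3
    exact sub_eq_zero.1 h3
  have hinj : ∀ x ∈ (Subalgebra.toSubmodule (R Q)).map (LinearMap.applyₗ v), θ x = 0 → x = 0 := by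
    rintro _ ⟨x, hx, rfl⟩ h0
    change x v = 0
    have h1 : rho ⟨x, hx⟩ = 0 := by
      rw [← hθ']
      exact h0
    have h2 : v ∈ LinearMap.range aQ := by rw [haQ.rng]; exact hv
    obtain ⟨m, hm⟩ := h2
    have h3 := hrho ⟨x, hx⟩ m
    rw [h1, LinearMap.zero_apply, map_zero, hm] at h3
    exact h3.symm
  refine CE.lgood_of_injective θ hinj ?_ ?_ hg
  · intro S S' h h'
    exact Submodule.map_mono (fun x hx => hRmono S S' h h' hx)
  · intro S hS
    have hSQ : R S ≤ R Q := hRmono S Q hS (Finset.Subset.refl Q)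
    have hle : ((Subalgebra.toSubmodule (R S)).map (LinearMap.applyₗ v)).map θ ≤
        D.Y aQ bQ S ⊓ CE.inv0 (GXQ.hom GZQ).W L := by
      rintro _ ⟨_, ⟨x, hx, rfl⟩, rfl⟩
      have hxQ : x ∈ R Q := hSQ hx
      have h1 : θ (LinearMap.applyₗ v x) = rho ⟨x, hxQ⟩ := hθ' ⟨x, hxQ⟩
      rw [h1]
      refine ⟨⟨x, hRF S hS x hx, fun m => ?_⟩, ?_, fun y => ?_⟩
      · rw [hrho]
        have hn0 : (Q \ S).toList.Nodup := Finset.nodup_toList _
        have ht0 : (Q \ S).toList.toFinset = Q \ S := Finset.toList_toFinset _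
        have hok : Ok (Q := Q) (Q \ S).toList S := by
          refine ⟨hn0, ?_, ?_⟩
          · rw [ht0]
            exact Finset.sdiff_disjoint
          · rw [ht0, Finset.sdiff_union_of_subset hS]
        refine (ioL_self D hid _ hok ?_ _ ?_).symm
        · intro i hi l hl y
          rw [Finset.mem_toList, Finset.mem_sdiff] at hi
          exact hRins S hS i hi.1 hi.2 x hx l hl y
        · rw [ht0, Finset.sdiff_union_of_subset hS]
          exact haQN m
      · rw [Grading.hom_W]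
        intro nu m hm
        rw [add_zero, CE.mem_W_iff_of_injective GZQ bQ hbQ.inj hbQ.W, hrho]
        exact hRW x hxQ nu _ (haQ.W nu m hm)
      · ext m
        apply hbQ.inj
        rw [LieHom.lie_apply, map_sub, hbQ.lie, hrho, hrho, haQ.lie, hlie y x hxQ, sub_self,
          LinearMap.zero_apply, map_zero]
    refine Submodule.eq_of_le_of_finrank_le hle ?_
    refine (hdim S hS).trans ?_
    have hinjS : Function.Injective
        (θ.domRestrict ((Subalgebra.toSubmodule (R S)).map (LinearMap.applyₗ v))) := by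
      rw [injective_iff_map_eq_zero]
      rintro ⟨x, hx⟩ h0
      have h1 : x ∈ (Subalgebra.toSubmodule (R Q)).map (LinearMap.applyₗ v) :=
        Submodule.map_mono (fun z hz => hSQ hz) hx
      have h2 := hinj x h1 h0
      exact Subtype.ext h2
    have h3 := LinearMap.finrank_range_of_inj hinjS
    rw [← h3]
    have h4 : LinearMap.range
        (θ.domRestrict ((Subalgebra.toSubmodule (R S)).map (LinearMap.applyₗ v))) =
        ((Subalgebra.toSubmodule (R S)).map (LinearMap.applyₗ v)).map θ := by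
      rw [LinearMap.range_domRestrict]
    rw [h4]

end abs

end KD

end Gao
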