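import Pool.Agent.Gao.RProp
import Pool.Agent.Gao.AlphaJ
import Pool.Agent.Gao.AlphaFin

/-!
# RProp from THEOREM E (Gao project, MP_b139df_co)
-/

set_option autoImplicit false

namespace Gao

open Finset Module Pool.Agent.Gao

/-- the data of part K -/
theorem kdata : KData := by
  intro n w Q J hQJ
  have hQ : Q ⊆ J.map w.toEmbedding := by
    intro x hx
    rw [Finset.mem_map]
    exact ⟨w.symm x, hQJ (Finset.mem_map_of_mem w.symm.toEmbedding hx), w.apply_symm_apply x⟩
  obtain ⟨D, hN, hF, hlab, hins, hext, _⟩ := exists_KDJ alphaAbs w J Q hQ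
  exact ⟨D, funext hN, funext hF, hins, hext, fun i => by rw [hlab]⟩

/-- RProp from THEOREM E -/
theorem rprop_ofE (hE : ThmE) : RProp := rprop_of hE kdata

end Gao
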