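import Pool.Agent.Gao.RAbs
import Pool.Agent.Gao.EMod
import Pool.Agent.Gao.KDInst
import Pool.Agent.Gao.Inert
import Pool.Agent.Gao.MSide

/-!
# RProp from the data of part K and THEOREM E (Gao project, MP_b139df_co)

`ThmE` is THEOREM E for `Fall`; `rprop_of`: RProp from `ThmE` and the existence of the data `KD`.
-/

set_option autoImplicit false

namespace Gao

open Finset Module Pool.Agent.Gao

noncomputable section

variable {n : ℕ}

/-! ### closure of `Der` -/

section der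

variable {K E ι Λ : Type*} [Field K] [AddCommGroup E] [Module K E] [DecidableEq ι] [DecidableEq Λ]
  {Q : Finset ι} {D : KD K E ι Λ Q}

lemma KD.Der.zero : D.Der 0 := by
  intro i _
  refine ⟨fun _ _ => 0, ?_, ?_⟩
  · intro l _ U _ _ z _
    simp
  · intro l _ T _ _ y _
    simp

lemma KD.Der.add {X X' : Module.End K E} (h : D.Der X) (h' : D.Der X') : D.Der (X + X') := by
  intro i hi
  obtain ⟨m, m1, m2⟩ := h i hi
  obtain ⟨m', m1', m2'⟩ := h' i hi
  refine ⟨fun l l' => m l l' + m' l l', ?_, ?_⟩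
  · intro l hl U hU hiU z hz
    rw [LinearMap.add_apply, m1 l hl U hU hiU z hz, m1' l hl U hU hiU z hz, LinearMap.add_apply,
      map_add]
    simp only [add_smul, Finset.sum_add_distrib]
    abel
  · intro l hl T hT hiT y hy
    rw [LinearMap.add_apply, map_add, m2 l hl T hT hiT y hy, m2' l hl T hT hiT y hy,
      LinearMap.add_apply]
    simp only [add_smul, Finset.sum_add_distrib]
    abel

lemma KD.Der.smul {X : Module.End K E} (h : D.Der X) (c : K) : D.Der (c • X) := by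
  intro i hi
  obtain ⟨m, m1, m2⟩ := h i hi
  refine ⟨fun l l' => c * m l l', ?_, ?_⟩
  · intro l hl U hU hiU z hz
    rw [LinearMap.smul_apply, m1 l hl U hU hiU z hz, LinearMap.smul_apply, map_smul, smul_add,
      Finset.smul_sum]
    simp only [smul_smul]
  · intro l hl T hT hiT y hy
    rw [LinearMap.smul_apply, map_smul, m2 l hl T hT hiT y hy, LinearMap.smul_apply, smul_add,
      Finset.smul_sum]
    simp only [smul_smul]

lemma KD.Der.sum {κ : Type*} (s : Finset κ) (X : κ → Module.End K E) (h : ∀ k ∈ s, D.Der (X k)) :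
    D.Der (∑ k ∈ s, X k) := by
  classical
  induction s using Finset.induction_on with
  | empty =>
    rw [Finset.sum_empty]
    exact KD.Der.zero
  | insert a s ha ih =>
    rw [Finset.sum_insert ha]
    exact (h a (Finset.mem_insert_self a s)).add
      (ih (fun k hk => h k (Finset.mem_insert_of_mem hk)))

end der

/-! ### graded Lie submodules of the Fock space -/

lemma emb_lie {J : Finset (Fin n)} (A : LieSubmodule ℂ (nJ J) (Fk n))
    (hst : (colGr n).Stable (A : Submodule ℂ (Fk n))) :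
    ∃ G : Grading ℂ A (Fin n → ℤ), G.W = gW A ∧
      KD.Emb (nJ J) G (colGr n) (A : Submodule ℂ (Fk n)) (A : Submodule ℂ (Fk n)).subtype := by
  let G : Grading ℂ A (Fin n → ℤ) := (colGr n).restrict (A : Submodule ℂ (Fk n)) hst
  have hG : G.W = gW A := by
    funext mu
    ext x
    exact (colGr n).mem_restrict_W (A : Submodule ℂ (Fk n)) hst mu x
  refine ⟨G, hG, ?_⟩
  constructor
  · exact Subtype.val_injective
  · exact Submodule.range_subtype _
  · intro x m
    rfl
  · intro mu m hm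
    rw [hG] at hm
    exact hm

lemma Fall_stable_col (E : Finset (Fin n × Fin n)) : (colGr n).Stable (Fall E) := by
  intro a x hx
  refine map_mem_of_Fall (T := (colGr n).π a) ?_ hx
  intro D hD
  have h1 := degGr_π colCnt a D
  change (degGr colCnt).π a (Kost.ee D) ∈ _
  rw [h1]
  split_ifs
  · exact ee_mem_Fall hD
  · exact Submodule.zero_mem _

lemma Nmod_colOps {w : Equiv.Perm (Fin n)} {A J : Finset (Fin n)} :
    ∀ T ∈ colOps J, ∀ v ∈ Nmod w A J, T v ∈ Nmod w A J :=
  fun _ hT _ hv => gen_stable hT hv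

lemma Fall_colOps {w : Equiv.Perm (Fin n)} {A J : Finset (Fin n)} :
    ∀ T ∈ colOps J, ∀ v ∈ Fall (Fset w A J), T v ∈ Fall (Fset w A J) := by
  rintro T ⟨j, hj, l, hl, hjl, rfl⟩ v hv
  refine colE_mem_Fall (fun x hx => ?_) hv
  rw [mem_Fset] at hx ⊢
  exact ⟨hx.1, hl, hx.2.2.trans hjl⟩

/-! ### row operators -/

lemma hom_rowE_col (x y : Fin n) : Hom (colGr n) (rowE x y) 0 := by
  unfold rowE
  apply Hom.sum'
  intro j _
  have h := (hom_cr_col (y, j)).mul' (hom_an_col (x, j))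
  have e : (-Pi.single (x, j).2 1 + Pi.single (y, j).2 1 : Fin n → ℤ) = 0 := by
    simp only []
    abel
  rw [e] at h
  exact h

lemma adj_colE_comm {w : Equiv.Perm (Fin n)} {S : Finset (Fin n)} {x : Module.End ℂ (Fk n)}
    (hx : x ∈ Algebra.adjoin ℂ (rowOps w S)) (j l : Fin n) : colE j l * x = x * colE j l := by
  have h1 : Algebra.adjoin ℂ (rowOps w S) ≤ Subalgebra.centralizer ℂ {colE j l} := by
    rw [Algebra.adjoin_le_iff]
    rintro _ ⟨a, _, b, _, _, rfl⟩
    rw [SetLike.mem_coe, Subalgebra.mem_centralizer_iff]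
    intro g hg
    rw [Set.mem_singleton_iff] at hg
    rw [hg]
    exact colE_rowE_comm j l a b
  exact (Subalgebra.mem_centralizer_iff ℂ).1 (h1 hx) _ (Set.mem_singleton _)

lemma adj_adj_comm {w : Equiv.Perm (Fin n)} {S J : Finset (Fin n)} {x c : Module.End ℂ (Fk n)}
    (hx : x ∈ Algebra.adjoin ℂ (rowOps w S)) (hc : c ∈ Algebra.adjoin ℂ (colOps J)) :
    c * x = x * c := by
  have h1 : Algebra.adjoin ℂ (colOps J) ≤ Subalgebra.centralizer ℂ {x} := by
    rw [Algebra.adjoin_le_iff]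
    rintro _ ⟨a, _, b, _, _, rfl⟩
    rw [SetLike.mem_coe, Subalgebra.mem_centralizer_iff]
    intro g hg
    rw [Set.mem_singleton_iff] at hg
    rw [hg]
    exact (adj_colE_comm hx a b).symm
  exact ((Subalgebra.mem_centralizer_iff ℂ).1 (h1 hc) _ (Set.mem_singleton _)).symm

lemma adj_lie {w : Equiv.Perm (Fin n)} {S J : Finset (Fin n)} {x : Module.End ℂ (Fk n)}
    (hx : x ∈ Algebra.adjoin ℂ (rowOps w S)) (y : nJ J) (m : Fk n) : ⁅y, x m⁆ = x ⁅y, m⁆ := by
  rw [lie_eq_sum, lie_eq_sum, map_sum]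
  refine Finset.sum_congr rfl fun l _ => ?_
  rw [map_sum]
  refine Finset.sum_congr rfl fun j _ => ?_
  rw [map_smul]
  congr 1
  exact congrArg (fun u : Module.End ℂ (Fk n) => u m) (adj_colE_comm hx j l)

lemma adj_col {w : Equiv.Perm (Fin n)} {S : Finset (Fin n)} {x : Module.End ℂ (Fk n)}
    (hx : x ∈ Algebra.adjoin ℂ (rowOps w S)) (mu : Fin n → ℤ) :
    ∀ m ∈ (colGr n).W mu, x m ∈ (colGr n).W mu := by
  have h1 : Algebra.adjoin ℂ (rowOps w S) ≤ Subalgebra.centralizer ℂ {(colGr n).π mu} := by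
    rw [Algebra.adjoin_le_iff]
    rintro _ ⟨a, _, b, _, _, rfl⟩
    rw [SetLike.mem_coe, Subalgebra.mem_centralizer_iff]
    intro g hg
    rw [Set.mem_singleton_iff] at hg
    rw [hg]
    have h2 := hom_rowE_col a b mu
    rw [add_zero] at h2
    exact h2.symm
  intro m hm
  have h2 := (Subalgebra.mem_centralizer_iff ℂ).1 (h1 hx) _ (Set.mem_singleton _)
  rw [Grading.mem_W]
  have h3 := congrArg (fun u : Module.End ℂ (Fk n) => u m) h2
  simp only [Module.End.mul_apply] at h3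
  rw [h3, (colGr n).π_of_mem hm]

lemma adj_Fall {w : Equiv.Perm (Fin n)} {S J : Finset (Fin n)} {x : Module.End ℂ (Fk n)}
    (hx : x ∈ Algebra.adjoin ℂ (rowOps w S)) :
    ∀ y ∈ Fall (Fset w S J), x y ∈ Fall (Fset w S J) := by
  induction hx using Algebra.adjoin_induction with
  | mem x hx =>
    obtain ⟨a, _, b, hb, hab, rfl⟩ := hx
    intro y hy
    refine map_mem_of_Fall ?_ hy
    intro D hD
    rw [rowE_ee]
    refine Submodule.sum_mem _ fun j _ => ?_
    by_cases h : (a, j) ∈ D ∧ (b, j) ∉ D.erase (a, j)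
    · rw [if_pos h]
      refine Submodule.smul_mem _ _ (ee_mem_Fall ?_)
      intro c hc
      rw [mem_insert] at hc
      rcases hc with rfl | hc
      · have h1 := hD h.1
        rw [mem_Fset] at h1 ⊢
        exact ⟨hb, h1.2.1, hab.trans h1.2.2⟩
      · exact hD (mem_of_mem_erase hc)
    · rw [if_neg h]
      exact Submodule.zero_mem _
  | algebraMap r =>
    intro y hy
    exact Submodule.smul_mem _ r hy
  | add x z _ _ hx hz =>
    intro y hy
    exact Submodule.add_mem _ (hx y hy) (hz y hy)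
  | mul x z _ _ hx hz =>
    intro y hy
    exact hx _ (hz y hy)

lemma adj_ins {w : Equiv.Perm (Fin n)} {S J : Finset (Fin n)} {x : Module.End ℂ (Fk n)}
    (hx : x ∈ Algebra.adjoin ℂ (rowOps w S)) {i : Fin n} (hi : i ∉ S) (l : Finset (Fin J.card)) :
    ∀ y, x ((dataJ J).ins i l y) = (dataJ J).ins i l (x y) := by
  have h1 : Algebra.adjoin ℂ (rowOps w S) ≤ Subalgebra.centralizer ℂ {(dataJ J).ins i l} := by
    rw [Algebra.adjoin_le_iff]
    rintro _ ⟨a, ha, b, hb, _, rfl⟩
    rw [SetLike.mem_coe, Subalgebra.mem_centralizer_iff]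
    intro g hg
    rw [Set.mem_singleton_iff] at hg
    rw [hg]
    exact (rowE_insJ (fun h : i = a => hi (by rw [h]; exact ha))
      (fun h : i = b => hi (by rw [h]; exact hb)) l).symm
  intro y
  have h2 := (Subalgebra.mem_centralizer_iff ℂ).1 (h1 hx) _ (Set.mem_singleton _)
  exact (congrArg (fun u : Module.End ℂ (Fk n) => u y) h2).symm

/-! ### THEOREM E and RProp -/

/-- THEOREM E for all row contents together -/
def ThmE : Prop := ∀ (n : ℕ) (w : Equiv.Perm (Fin n)) (S J : Finset (Fin n)), pos w S ⊆ J →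
  (∀ q, CE.HV (nW J) (Fam.homW (gW (lsub J (Nmod w S J) Nmod_colOps))
    (gW (lsub J (Fall (Fset w S J)) Fall_colOps))) (q + 1)) ∧
  finrank ℂ (CE.inv0 (Fam.homW (gW (lsub J (Nmod w S J) Nmod_colOps))
    (gW (lsub J (Fall (Fset w S J)) Fall_colOps))) (nJ J)) = finrank ℂ (Mmod w S S J)

/-- the data of part K exist -/
def KData : Prop := ∀ (n : ℕ) (w : Equiv.Perm (Fin n)) (Q J : Finset (Fin n)), pos w Q ⊆ J →
  ∃ D : KD ℂ (Fk n) (Fin n) (Finset (Fin J.card)) Q,
    (D.N = fun T => Nmod w T J) ∧ (D.F = fun U => Fall (Fset w U J)) ∧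
    D.ins = (fun i l => (dataJ J).ins i l) ∧ D.ext = (fun i l => (dataJ J).ext i l) ∧
    ∀ i, D.lab i = labJ w J i

theorem rprop_of (hE : ThmE) (hK : KData) : RProp := by
  intro n w Q J hQJ
  obtain ⟨D, hN, hF, hins, hext, hlab⟩ := hK n w Q J hQJ
  have hposJ : ∀ i ∈ Q, w.symm i ∈ J := fun i hi =>
    hQJ (Finset.mem_map_of_mem w.symm.toEmbedding hi)
  have hN' : ∀ T, D.N T = Nmod w T J := fun T => by rw [hN]
  have hF' : ∀ T, D.F T = Fall (Fset w T J) := fun T => by rw [hF]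
  have hins' : ∀ i l, D.ins i l = (dataJ J).ins i l := fun i l => by rw [hins]
  have hext' : ∀ i l, D.ext i l = (dataJ J).ext i l := fun i l => by rw [hext]
  -- the graded Lie modules
  have hemN : ∀ S : Finset (Fin n), ∃ G : Grading ℂ (lsub J (Nmod w S J) Nmod_colOps)
      (Fin n → ℤ), G.W = gW (lsub J (Nmod w S J) Nmod_colOps) ∧
      KD.Emb (nJ J) G (colGr n) (D.N S)
        ((lsub J (Nmod w S J) Nmod_colOps : LieSubmodule ℂ (nJ J) (Fk n)) :
          Submodule ℂ (Fk n)).subtype := by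
    intro S
    rw [hN']
    exact emb_lie (lsub J (Nmod w S J) Nmod_colOps) (gen_col_stable_col J _)
  have hemF : ∀ S : Finset (Fin n), ∃ G : Grading ℂ (lsub J (Fall (Fset w S J)) Fall_colOps)
      (Fin n → ℤ), G.W = gW (lsub J (Fall (Fset w S J)) Fall_colOps) ∧
      KD.Emb (nJ J) G (colGr n) (D.F S)
        ((lsub J (Fall (Fset w S J)) Fall_colOps : LieSubmodule ℂ (nJ J) (Fk n)) :
          Submodule ℂ (Fk n)).subtype := by
    intro S
    rw [hF']
    exact emb_lie (lsub J (Fall (Fset w S J)) Fall_colOps) (Fall_stable_col _)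
  -- derivations
  have hderE : ∀ a b : Fin n, a ∈ J → b ∈ J → a < b → D.Der (colE a b) := by
    intro a b ha hb hab i hi
    obtain ⟨m, m1, m2⟩ := colE_matrix (w := w) (J := J) i ha hb hab
    refine ⟨m, ?_, ?_⟩
    · intro l hl U _ _ z _
      rw [hlab] at hl ⊢
      simp only [hins']
      exact m1 l hl z
    · intro l hl T _ _ y hy
      rw [hlab] at hl ⊢
      simp only [hext']
      rw [hN'] at hy
      exact m2 l hl T y (Nmod_le_Fall w T J hy)
  have hder : ∀ x : nJ J, D.Der (LieModule.toEnd ℂ (nJ J) (Fk n) x) := by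
    intro x
    have h1 : LieModule.toEnd ℂ (nJ J) (Fk n) x =
        ∑ l, ∑ j, (x : Matrix (Fin n) (Fin n) ℂ) l j • colE j l := by
      ext1 v
      rw [LieModule.toEnd_apply_apply, lie_eq_sum]
      simp only [LinearMap.sum_apply, LinearMap.smul_apply]
    rw [h1]
    refine KD.Der.sum _ _ fun l _ => KD.Der.sum _ _ fun j _ => ?_
    by_cases h : (x : Matrix (Fin n) (Fin n) ℂ) l j = 0
    · rw [h, zero_smul]
      exact KD.Der.zero
    · have h2 := x.2 l j h
      exact (hderE j l h2.1 h2.2.1 h2.2.2).smul _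
  -- weights
  let wt : Fin n → Finset (Fin J.card) → (Fin n → ℤ) := fun _ l => ∑ k ∈ l, Pi.single (gJ J k) 1
  have hWins : ∀ i ∈ Q, ∀ l ∈ D.lab i, ∀ mu, ∀ z ∈ (colGr n).W mu,
      D.ins i l z ∈ (colGr n).W (mu + wt i l) := by
    intro i _ l _ mu z hz
    rw [hins']
    exact (insJ_hom i l).mem hz
  have hWext : ∀ i ∈ Q, ∀ l ∈ D.lab i, ∀ mu, ∀ z ∈ (colGr n).W (mu + wt i l),
      D.ext i l z ∈ (colGr n).W mu := by
    intro i _ l _ mu z hz
    rw [hext']
    have h1 := (extJ_hom i l).mem hz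
    have h2 : mu + wt i l + -∑ k ∈ l, Pi.single (gJ J k) 1 = mu := by
      change mu + (∑ k ∈ l, Pi.single (gJ J k) 1) + -∑ k ∈ l, Pi.single (gJ J k) 1 = mu
      abel
    rwa [h2] at h1
  obtain ⟨GXQ, hGXQ, haQ⟩ := hemN Q
  obtain ⟨GZQ, hGZQ, hbQ⟩ := hemF Q
  refine KD.lgood_abs D (grLie_nW J) (GXQ := GXQ) (GZQ := GZQ) (by rw [hGXQ]; exact grMod_gW _)
    (by rw [hGZQ]; exact grMod_gW _) haQ hbQ (Kost.ee (Dset w Q J))
    (Algebra.adjoin ℂ (colOps J)) (fun S => Algebra.adjoin ℂ (rowOps w S)) (hN' Q)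
    (fun c hc x hx => adj_adj_comm hx hc) (fun y x hx m => adj_lie hx y m)
    (fun x hx mu => adj_col hx mu) ?_ ?_ ?_ ?_ ?_ ?_ ?_
  · intro S S' h _
    refine Algebra.adjoin_mono ?_
    rintro _ ⟨x, hx, y, hy, hxy, rfl⟩
    exact ⟨x, h hx, y, h hy, hxy, rfl⟩
  · intro S _ x hx y hy
    rw [hN'] at hy
    rw [hF']
    exact adj_Fall hx y (Nmod_le_Fall w S J hy)
  · intro T hT i hi y hy
    rw [hN'] at hy
    rw [hlab]
    simp only [hins', hext']
    exact sum_insJ_extJ hi (hposJ i (hT hi)) hy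
  · intro S _ i _ hiS x hx l _ y
    rw [hins']
    exact adj_ins hx hiS l y
  · intro S hS
    obtain ⟨GX, hGX, ha⟩ := hemN S
    obtain ⟨GZ, hGZ, hb⟩ := hemF S
    obtain ⟨j, hj⟩ := D.exists_emb hS ha hb haQ hbQ hder wt hWins hWext
    exact hj.gsub
  · intro S hS q
    obtain ⟨GX, hGX, ha⟩ := hemN S
    obtain ⟨GZ, hGZ, hb⟩ := hemF S
    refine D.rel_Y hS ha hb haQ hbQ hder wt hWins hWext ?_ q
    rw [hGX, hGZ]
    exact (hE n w S J ((Finset.map_subset_map.2 hS).trans hQJ)).1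
  · intro S hS
    obtain ⟨GX, hGX, ha⟩ := hemN S
    obtain ⟨GZ, hGZ, hb⟩ := hemF S
    obtain ⟨j, hj⟩ := D.exists_emb hS ha hb haQ hbQ hder wt hWins hWext
    rw [hj.finrank_inv0, Grading.hom_W, hGX, hGZ,
      (hE n w S J ((Finset.map_subset_map.2 hS).trans hQJ)).2, ← inertP n w Q S J hS]
    exact le_of_eq rfl

end

end Gao
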