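import Pool.Agent.Gao.Sl2Def

/-!
# Lemma B: a centered module has the Lefschetz property

If `X` is centered at `chi` then `e^j : W lam → W (lam + j alpha)` is bijective whenever
`ht lam = chi - j`.
-/

namespace Gao.Fam

variable {K X Y Lam : Type*} [Field K] [AddCommGroup X] [Module K X] [AddCommGroup Y] [Module K Y]
  [AddCommGroup Lam] {W : Lam → Submodule K X} {alpha : Lam} {ht : Lam →+ ℤ}
  {e f : Module.End K X} {chi : ℤ}

lemma Raises.pow (he : Raises W alpha e) (j : ℕ) (lam : Lam) (x : X) (hx : x ∈ W lam) :
    (e ^ j) x ∈ W (lam + j • alpha) := by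
  induction j with
  | zero => simpa using hx
  | succ j ih =>
    rw [pow_succ', Module.End.mul_apply, succ_nsmul, ← add_assoc]
    exact he _ _ ih

/-- exchanging the roles of `e` and `f` -/
lemma IsLowering.swap (he : Raises W alpha e) (h : IsLowering W alpha ht e chi f) :
    IsLowering W (-alpha) (-ht) f (-chi) e where
  lower lam x hx := by
    rw [sub_neg_eq_add]
    exact he lam x hx
  comm lam x hx := by
    have h1 := h.comm lam x hx
    have h2 : f (e x) - e (f x) = -(e (f x) - f (e x)) := by abel
    rw [h2, h1, ← neg_smul]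
    congr 1
    push_cast
    simp only [AddMonoidHom.neg_apply]
    push_cast
    ring

lemma IsLowering.raises_swap (h : IsLowering W alpha ht e chi f) : Raises W (-alpha) f := by
  intro lam x hx
  rw [← sub_eq_add_neg]
  exact h.lower lam x hx

/-- `e^(k+1) f x = f e^(k+1) x + (k+1) (ht lam - chi + k) e^k x` -/
lemma IsLowering.pow_comm (he : Raises W alpha e) (h : IsLowering W alpha ht e chi f)
    (hα : ht alpha = 2) (k : ℕ) (lam : Lam) (x : X) (hx : x ∈ W lam) :
    (e ^ (k + 1)) (f x) = f ((e ^ (k + 1)) x) +
      (((k + 1 : ℤ) * (ht lam - chi + k) : ℤ) : K) • (e ^ k) x := by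
  induction k with
  | zero =>
    have h1 := h.comm lam x hx
    rw [sub_eq_iff_eq_add] at h1
    simp only [zero_add, pow_one, h1, pow_zero, Module.End.one_apply]
    rw [add_comm]
    congr 2
    push_cast
    ring
  | succ k ih =>
    have h1 := h.comm _ _ (he.pow (k + 1) lam x hx)
    rw [sub_eq_iff_eq_add] at h1
    have h2 : e ((e ^ k) x) = (e ^ (k + 1)) x := by rw [pow_succ', Module.End.mul_apply]
    have h3 : ∀ y, (e ^ (k + 1 + 1)) y = e ((e ^ (k + 1)) y) := fun y => by
      rw [pow_succ', Module.End.mul_apply]
    rw [h3, ih, map_add, map_smul, h1, h2, h3]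
    have h4 : ∀ (a b : ℤ) (u v : X), (a : K) • u + v + (b : K) • u = v + ((a + b : ℤ) : K) • u := by
      intro a b u v
      push_cast
      rw [add_smul]
      abel
    rw [h4]
    congr 3
    rw [map_add, map_nsmul, hα]
    push_cast
    ring

section

variable [CharZero K] [FiniteDimensional K X]

/-- the weights are bounded below -/
lemma exists_bot (hind : iSupIndep W) (hα : ht alpha = 2) (lam : Lam) :
    ∃ N : ℕ, W (lam - N • alpha) = ⊥ := by
  by_contra hcon
  push Not at hcon
  have hfin := WellFoundedGT.finite_ne_bot_of_iSupIndep hind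
  have hinj : Function.Injective (fun N : ℕ => lam - N • alpha) := by
    intro a b hab
    have h1 := congrArg ht hab
    simp only [map_sub, map_nsmul, hα] at h1
    have h2 : a • (2 : ℤ) = b • 2 := by linarith
    simp only [nsmul_eq_mul] at h2
    have h3 : (a : ℤ) = b := by linarith
    exact_mod_cast h3
  have h2 := Set.infinite_of_injective_forall_mem hinj (s := {lam | W lam ≠ ⊥}) hcon
  exact h2 hfin

/-- **Lemma B, injectivity**: for `ht lam = chi - j` and `k ≤ j`, `e^k` is injective on `W lam` -/
theorem IsLowering.pow_injective (he : Raises W alpha e) (h : IsLowering W alpha ht e chi f)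
    (hind : iSupIndep W) (hα : ht alpha = 2) (j k : ℕ) (hkj : k ≤ j) (lam : Lam)
    (hlam : ht lam = chi - j) (x : X) (hx : x ∈ W lam) (hk : (e ^ k) x = 0) : x = 0 := by
  obtain ⟨N, hN⟩ := exists_bot hind hα lam
  induction N generalizing j k lam x with
  | zero =>
    rw [zero_smul, sub_zero] at hN
    rw [hN] at hx
    simpa using hx
  | succ N ih =>
    -- `f x = 0`
    have hfx : f x = 0 := by
      refine ih (j + 2) (k + 1) (by omega) (lam - alpha) ?_ (f x) (h.lower lam x hx) ?_ ?_
      · rw [map_sub, hlam, hα]
        push_cast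
        ring
      · rw [h.pow_comm he hα k lam x hx, pow_succ', Module.End.mul_apply, hk]
        simp
      · rw [← hN, succ_nsmul]
        congr 1
        abel
    -- `f e^(i+1) x = (i+1)(j-i) e^i x`
    have hfe : ∀ i : ℕ, f ((e ^ (i + 1)) x) = (((i + 1 : ℤ) * (j - i) : ℤ) : K) • (e ^ i) x := by
      intro i
      have h1 := h.pow_comm he hα i lam x hx
      rw [hfx, map_zero, hlam] at h1
      have h2 := eq_neg_of_add_eq_zero_left h1.symm
      rw [h2, ← neg_smul]
      congr 1
      push_cast
      ring
    have hdown : ∀ i : ℕ, i ≤ k → (e ^ (k - i)) x = 0 := by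
      intro i
      induction i with
      | zero => intro _; simpa using hk
      | succ i ihi =>
        intro hi
        have h1 := ihi (by omega)
        have h2 := hfe (k - (i + 1))
        have h3 : k - (i + 1) + 1 = k - i := by omega
        rw [h3, h1, map_zero] at h2
        have h4 : (((((k - (i + 1) : ℕ) : ℤ) + 1) * (j - ((k - (i + 1) : ℕ) : ℤ)) : ℤ) : K) ≠ 0 := by
          rw [Int.cast_ne_zero]
          apply mul_ne_zero
          · omega
          · omega
        exact (smul_eq_zero.mp h2.symm).resolve_left h4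
    have := hdown k le_rfl
    simpa using this

/-- the weight spaces at `chi - j` and `chi + j` have the same dimension -/
theorem IsLowering.finrank_eq (he : Raises W alpha e) (h : IsLowering W alpha ht e chi f)
    (hind : iSupIndep W) (hα : ht alpha = 2) (j : ℕ) (lam : Lam) (hlam : ht lam = chi - j) :
    Module.finrank K (W lam) = Module.finrank K (W (lam + j • alpha)) := by
  apply le_antisymm
  · let g : W lam →ₗ[K] W (lam + j • alpha) :=
      (e ^ j).restrict (fun x hx => he.pow j lam x hx)
    refine LinearMap.finrank_le_finrank_of_injective (f := g) ?_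
    rw [← LinearMap.ker_eq_bot, LinearMap.ker_eq_bot']
    rintro ⟨x, hx⟩ h0
    exact Subtype.ext (h.pow_injective he hind hα j j le_rfl lam hlam x hx
      (congrArg Subtype.val h0))
  · have hind' : iSupIndep W := hind
    have hα' : (-ht) (-alpha) = 2 := by simp [hα]
    have hlam' : (-ht) (lam + j • alpha) = -chi - j := by
      simp only [AddMonoidHom.neg_apply, map_add, map_nsmul, hα, hlam, nsmul_eq_mul]
      ring
    have hmem : ∀ x ∈ W (lam + j • alpha), (f ^ j) x ∈ W lam := by
      intro x hx
      have h1 := h.raises_swap.pow j _ x hx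
      have h2 : lam + j • alpha + j • -alpha = lam := by
        rw [smul_neg]; abel
      rwa [h2] at h1
    let g : W (lam + j • alpha) →ₗ[K] W lam := (f ^ j).restrict hmem
    refine LinearMap.finrank_le_finrank_of_injective (f := g) ?_
    rw [← LinearMap.ker_eq_bot, LinearMap.ker_eq_bot']
    rintro ⟨x, hx⟩ h0
    exact Subtype.ext ((h.swap he).pow_injective h.raises_swap hind hα' j j le_rfl _ hlam' x hx
      (congrArg Subtype.val h0))

/-- **Lemma B, surjectivity** -/
theorem IsLowering.pow_surjective (he : Raises W alpha e) (h : IsLowering W alpha ht e chi f)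
    (hind : iSupIndep W) (hα : ht alpha = 2) (j : ℕ) (lam : Lam) (hlam : ht lam = chi - j)
    (y : X) (hy : y ∈ W (lam + j • alpha)) : ∃ x ∈ W lam, (e ^ j) x = y := by
  let g : W lam →ₗ[K] W (lam + j • alpha) :=
    (e ^ j).restrict (fun x hx => he.pow j lam x hx)
  have hg : Function.Injective g := by
    rw [← LinearMap.ker_eq_bot, LinearMap.ker_eq_bot']
    rintro ⟨x, hx⟩ h0
    exact Subtype.ext (h.pow_injective he hind hα j j le_rfl lam hlam x hx
      (congrArg Subtype.val h0))
  have hs : Function.Surjective g :=
    (LinearMap.injective_iff_surjective_of_finrank_eq_finrank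
      (h.finrank_eq he hind hα j lam hlam)).mp hg
  obtain ⟨⟨x, hx⟩, h0⟩ := hs ⟨y, hy⟩
  exact ⟨x, hx, congrArg Subtype.val h0⟩

/-- L1: `e` is bijective from weight `chi - 1` to weight `chi + 1` -/
theorem Centered.bijective_one (he : Raises W alpha e) (h : Centered W alpha ht e chi)
    (hind : iSupIndep W) (hα : ht alpha = 2) (lam : Lam) (hlam : ht lam = chi - 1) :
    (∀ x ∈ W lam, e x = 0 → x = 0) ∧ ∀ y ∈ W (lam + alpha), ∃ x ∈ W lam, e x = y := by
  obtain ⟨f, hf⟩ := h
  constructor
  · intro x hx h0
    exact hf.pow_injective he hind hα 1 1 le_rfl lam (by simpa using hlam) x hx (by simpa using h0)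
  · intro y hy
    obtain ⟨x, hx, h1⟩ := hf.pow_surjective he hind hα 1 lam (by simpa using hlam) y
      (by simpa using hy)
    exact ⟨x, hx, by simpa using h1⟩

end

end Gao.Fam
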