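import Mathlib

/-!
# Centered modules (Part S of the Gao project, MP_b139df_co)

One simple root.  `X` is a finite dimensional vector space graded by an abelian group `Lam` of
weights (`W : Lam → Submodule K X`, `DirectSum.IsInternal W`), `alpha : Lam` is the root,
`ht : Lam →+ ℤ` the coroot (`ht alpha = 2`), `e` the raising operator.  `X` is centered at `chi` if
there is a lowering operator `f` with `[e, f] = ht - chi` on every weight space.
-/

namespace Gao.Fam

variable {K X Y Lam : Type*} [Field K] [AddCommGroup X] [Module K X] [AddCommGroup Y] [Module K Y]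
  [AddCommGroup Lam]

/-- the operator `e` maps `W lam` to `W (lam + alpha)` -/
def Raises (W : Lam → Submodule K X) (alpha : Lam) (e : Module.End K X) : Prop :=
  ∀ lam, ∀ x ∈ W lam, e x ∈ W (lam + alpha)

/-- `f` is a lowering operator with `[e, f] = ht - chi` -/
structure IsLowering (W : Lam → Submodule K X) (alpha : Lam) (ht : Lam →+ ℤ) (e : Module.End K X)
    (chi : ℤ) (f : Module.End K X) : Prop where
  lower : ∀ lam, ∀ x ∈ W lam, f x ∈ W (lam - alpha)
  comm : ∀ lam, ∀ x ∈ W lam, e (f x) - f (e x) = ((ht lam - chi : ℤ) : K) • x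

/-- `X` is centered at `chi` -/
def Centered (W : Lam → Submodule K X) (alpha : Lam) (ht : Lam →+ ℤ) (e : Module.End K X)
    (chi : ℤ) : Prop :=
  ∃ f : Module.End K X, IsLowering W alpha ht e chi f

end Gao.Fam
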