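import Pool.Agent.Gao.E3Conc
import Pool.Agent.Gao.E1Conc
import Pool.Agent.Gao.E4Conc

/-!
# Theorem E: the induction (Gao project, MP_b139df_co)
-/

set_option autoImplicit false

namespace Gao

open Finset Module Gao.CE
open Gao.Fam (homW)

noncomputable section

variable {n : ℕ}

/-- the numerical inputs of Theorem E -/
structure ENum (n : ℕ) : Prop where
  m1 : ∀ (w : Equiv.Perm (Fin n)) (A J : Finset (Fin n)) (c : Fin n), c ∈ J →
    (∀ j ∈ J, j ≤ c) → (∀ j ∈ J, w c ≤ w j) → w c ∈ A → (∀ x ∈ A, w.symm x ∈ J) → M1 w A J c
  m2 : ∀ (w : Equiv.Perm (Fin n)) (A J : Finset (Fin n)) (c c' : Fin n), Adj w A J c c' →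
    w c ∈ A → w c' ∈ A → M2 w A J c c'
  m3 : ∀ (w : Equiv.Perm (Fin n)) (A J : Finset (Fin n)) (c c' : Fin n), Adj w A J c c' →
    w c ∈ A → w c' ∉ A → M3 w A J c c'
  m4 : ∀ (w : Equiv.Perm (Fin n)) (A J : Finset (Fin n)) (c : Fin n), c ∈ J →
    (∀ j ∈ J, w c ≤ w j) → w c ∉ A → (∀ x ∈ A, w.symm x ∈ J) → M4 w A J c
  hd : ∀ (w : Equiv.Perm (Fin n)) (A J : Finset (Fin n)) (c c' : Fin n), Adj w A J c c' →
    w c ∈ A → w c' ∈ A → HDim w A J c c'
  hd3 : ∀ (w : Equiv.Perm (Fin n)) (A J : Finset (Fin n)) (c c' : Fin n), Adj w A J c c' →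
    w c ∈ A → w c' ∉ A → HDim3 w A J c c'

/-- **Theorem E** -/
theorem thmE_of (N : ENum n) : ∀ (k : ℕ) (w : Equiv.Perm (Fin n)) (A J : Finset (Fin n)),
    J.card = k → (∀ x ∈ A, w.symm x ∈ J) → TE w A J := by
  intro k
  induction k with
  | zero =>
    intro w A J hk hA
    rw [Finset.card_eq_zero] at hk
    subst hk
    have hA' : A = ∅ := by
      rw [Finset.eq_empty_iff_forall_notMem]
      intro x hx
      exact absurd (hA x hx) (Finset.notMem_empty _)
    rw [hA']
    exact te_empty w
  | succ k ih =>
    intro w A J hk hA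
    have key : ∀ (t : ℕ) (w : Equiv.Perm (Fin n)) (A : Finset (Fin n)) (c : Fin n), c ∈ J →
        (∀ j ∈ J, w c ≤ w j) → (J.filter (fun j => c < j)).card = t → w c ∈ A →
        (∀ x ∈ A, w.symm x ∈ J) → TE w A J := by
      intro t
      induction t with
      | zero =>
        intro w A c hc hmin ht hs hA
        have hmax : ∀ j ∈ J, j ≤ c := by
          intro j hj
          by_contra hjc
          rw [Finset.card_eq_zero] at ht
          have : j ∈ J.filter (fun j => c < j) := Finset.mem_filter.2 ⟨hj, not_le.1 hjc⟩
          rw [ht] at this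
          exact absurd this (Finset.notMem_empty _)
        refine e1_conc hc hmax hmin hs hA (N.m1 w A J c hc hmax hmin hs hA) ?_
        apply ih
        · rw [Finset.card_erase_of_mem hc, hk]
          rfl
        · intro x hx
          rw [Finset.mem_erase] at hx ⊢
          refine ⟨?_, hA x hx.2⟩
          intro h1
          exact hx.1 (by rw [← h1, w.apply_symm_apply])
      | succ t iht =>
        intro w A c hc hmin ht hs hA
        have hne : (J.filter (fun j => c < j)).Nonempty := by
          rw [← Finset.card_pos, ht]
          exact Nat.succ_pos t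
        set c' := (J.filter (fun j => c < j)).min' hne with hc'def
        have hc'm := Finset.min'_mem _ hne
        rw [← hc'def, Finset.mem_filter] at hc'm
        have hadj : Adj w A J c c' := by
          refine ⟨hc'm.2, hc, hc'm.1, ?_, hmin, hA⟩
          rintro j hj ⟨h1, h2⟩
          have h3 := Finset.min'_le _ j (Finset.mem_filter.2 ⟨hj, h1⟩)
          exact absurd h2 (not_lt.2 h3)
        have hswJ : ∀ j ∈ J, Equiv.swap c c' j ∈ J := by
          intro j hj
          rw [Equiv.swap_apply_def]
          split_ifs
          · exact hc'm.1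
          · exact hc
          · exact hj
        have hTE : TE (w * Equiv.swap c c') A J := by
          refine iht (w * Equiv.swap c c') A c' hc'm.1 ?_ ?_ ?_ ?_
          · intro j hj
            rw [Equiv.Perm.mul_apply, Equiv.Perm.mul_apply, Equiv.swap_apply_right]
            exact hmin _ (hswJ j hj)
          · have h1 : J.filter (fun j => c < j) = insert c' (J.filter (fun j => c' < j)) := by
              ext j
              rw [Finset.mem_insert, Finset.mem_filter, Finset.mem_filter]
              constructor
              · rintro ⟨h1, h2⟩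
                rcases (hadj.ge_of_gt h1 h2).lt_or_eq with h3 | h3
                · exact Or.inr ⟨h1, h3⟩
                · exact Or.inl h3.symm
              · rintro (h1 | ⟨h1, h2⟩)
                · rw [h1]; exact hc'm
                · exact ⟨h1, hc'm.2.trans h2⟩
            have h2 : c' ∉ J.filter (fun j => c' < j) := by
              rw [Finset.mem_filter]
              exact fun h3 => lt_irrefl _ h3.2
            rw [h1, Finset.card_insert_of_notMem h2] at ht
            omega
          · rw [Equiv.Perm.mul_apply, Equiv.swap_apply_right]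
            exact hs
          · intro x hx
            rw [SData.symm_swap]
            exact hswJ _ (hA x hx)
        by_cases hb : w c' ∈ A
        · exact e2_conc hadj hs hb (N.hd w A J c c' hadj hs hb) (N.m2 w A J c c' hadj hs hb) hTE
        · exact e3_conc hadj hs hb (N.hd3 w A J c c' hadj hs hb) (N.m3 w A J c c' hadj hs hb) hTE
    have hJ : J.Nonempty := by
      rw [← Finset.card_pos, hk]
      exact Nat.succ_pos k
    obtain ⟨c, hc, hmin⟩ := Finset.exists_min_image J w hJ
    by_cases hs : w c ∈ A
    · exact key _ w A c hc hmin rfl hs hA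
    · refine e4_conc hc hmin hs (N.m4 w A J c hc hmin hs hA) ?_
      refine key _ w (insert (w c) A) c hc hmin rfl (Finset.mem_insert_self _ _) ?_
      intro x hx
      rw [Finset.mem_insert] at hx
      rcases hx with rfl | hx
      · rw [w.symm_apply_apply]; exact hc
      · exact hA x hx

theorem thmE (N : ENum n) (w : Equiv.Perm (Fin n)) (A J : Finset (Fin n))
    (hA : ∀ x ∈ A, w.symm x ∈ J) : TE w A J := thmE_of N _ w A J rfl hA

end

end Gao
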