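import Pool.Agent.Gao.CEL1
import Pool.Agent.Gao.EStep

/-!
# Vanishing of `Ext(S, F)` for centered modules (Gao project, MP_b139df_co)

`S` centered at `chiS`, `F` centered at `chiF = chiS + 1` (for one simple root) ⇒
`H^q(b, Hom(S, F)) = 0` for all `q`.  These are the inputs `vC`, `vP`, `vG` of (E2), (E3):
* `vC`: `C` centered at `-1`, `F'` at `0`;
* `vP`: `P` centered at `0` (that is `P ⊗ K_(-eps)` at `-1`), `K_eps ⊗ F'` at `1`;
* `vG`: `Sm` at `0`, `K_eps ⊗ F'` at `1`.
-/

namespace Gao.CE

open Gao.Fam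

variable {K L S F Lam : Type*} [Field K] [CharZero K] [LieRing L] [LieAlgebra K L]
  [FiniteDimensional K L] [AddCommGroup Lam]
  [AddCommGroup S] [Module K S] [LieRingModule L S] [LieModule K L S] [FiniteDimensional K S]
  [AddCommGroup F] [Module K F] [LieRingModule L F] [LieModule K L F] [FiniteDimensional K F]
  {N : Lam → Submodule K L} {WS : Lam → Submodule K S} {WF : Lam → Submodule K F}
  {alpha : Lam} {ht : Lam →+ ℤ} {e : L} {P : Submodule K L} {p : L →ₗ[K] P} {chiS chiF : ℤ}

omit [CharZero K] [FiniteDimensional K L] [FiniteDimensional K S] [FiniteDimensional K F] in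
/-- the action on `Hom(S, F)` -/
lemma toEnd_hom' (x : L) : (LieModule.toEnd K L (S →ₗ[K] F) x : Module.End K (S →ₗ[K] F)) =
    homAct (LieModule.toEnd K L S x) (LieModule.toEnd K L F x) := by
  ext φ s
  rw [LieModule.toEnd_apply_apply, LieHom.lie_apply, homAct_apply, LieModule.toEnd_apply_apply,
    LieModule.toEnd_apply_apply]

/-- `Ext^q(S, F) = 0` for all `q` if `chi(F) = chi(S) + 1` -/
theorem van_hom (hN : GrLie N) (hSR : SimpleRoot N alpha ht e P p) (hS : GrMod N WS)
    (hF : GrMod N WF) (indF : iSupIndep WF) (supS : ⨆ mu, WS mu = ⊤)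
    (cS : Centered WS alpha ht (LieModule.toEnd K L S e) chiS)
    (cF : Centered WF alpha ht (LieModule.toEnd K L F e) chiF) (h : chiF = chiS + 1) (q : ℕ) :
    HV N (homW WS WF) q := by
  obtain ⟨f, hf⟩ := cS
  obtain ⟨f', hf'⟩ := cF
  refine van_of_centered hN (hS.hom hF) (iSupIndep.homW indF supS) hSR ?_ q
  rw [toEnd_hom']
  have h1 := hf.hom hf' supS
  have h2 : chiF - chiS = 1 := by omega
  rw [h2] at h1
  exact ⟨_, h1⟩

omit [CharZero K] [FiniteDimensional K L] [LieAlgebra K L] [LieModule K L F]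
  [FiniteDimensional K F] [LieRing L] [LieRingModule L F] in
lemma shiftW_eq_twist (mu : Lam) : shiftW WF mu = fun lam => WF (lam - mu) := rfl

omit [CharZero K] [FiniteDimensional K F] in
/-- a shifted module is centered at `chi + ht mu` -/
lemma centered_shift {e' : Module.End K F} (cF : Centered WF alpha ht e' chiF) (mu : Lam) :
    Centered (shiftW WF mu) alpha ht e' (chiF + ht mu) := by
  obtain ⟨f, hf⟩ := cF
  refine ⟨f, ⟨fun lam x hx => ?_, fun lam x hx => ?_⟩⟩
  · have h1 := hf.lower _ x hx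
    change f x ∈ WF (lam - alpha - mu)
    have h2 : lam - alpha - mu = lam - mu - alpha := by abel
    rwa [h2]
  · rw [hf.comm _ x hx, map_sub]
    congr 2
    ring

omit [CharZero K] [FiniteDimensional K F] [AddCommGroup Lam] in
lemma indep_shift [AddCommGroup Lam] (ind : iSupIndep WF) (mu : Lam) :
    iSupIndep (shiftW WF mu) :=
  ind.comp (f := fun lam => lam - mu) (fun _ _ h => sub_left_injective h)

/-- `Ext^q(S, K_mu ⊗ F) = 0` for all `q` if `chi(F) + ht mu = chi(S) + 1` -/
theorem van_hom_shift (hN : GrLie N) (hSR : SimpleRoot N alpha ht e P p) (hS : GrMod N WS)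
    (hF : GrMod N WF) (indF : iSupIndep WF) (supS : ⨆ mu, WS mu = ⊤)
    (cS : Centered WS alpha ht (LieModule.toEnd K L S e) chiS)
    (cF : Centered WF alpha ht (LieModule.toEnd K L F e) chiF) (mu : Lam)
    (h : chiF + ht mu = chiS + 1) (q : ℕ) : HV N (homW WS (shiftW WF mu)) q :=
  van_hom hN hSR hS (hF.shift mu) (indep_shift indF mu) supS cS (centered_shift cF mu) h q

end Gao.CE
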